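import Pool.Agent.Lib.MP_10bdcf_co.CR

/-!
Connectivity of minors, operations and frames.
-/

namespace Pool.Agent.Lib.MP_10bdcf_co.G

open scoped Matroid
open Set

set_option linter.unusedSectionVars false

variable {E : Type} [Finite E] {M : Matroid E} {X Y A I J I0 J0 I' J' C D : Set E} {e f g : E}
  {k : ℕ}

theorem mn_empty_left (M : Matroid E) (J : Set E) : mn M ∅ J = M ＼ J := by
  rw [mn, Matroid.contract_empty]

theorem mn_empty_right (M : Matroid E) (I : Set E) : mn M I ∅ = M ／ I := by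
  rw [mn, Matroid.delete_empty]

theorem Op.sub_left (h : Op M I J) : I ⊆ M.E := h.ind.subset_ground

theorem Op.sub_right (h : Op M I J) : J ⊆ M.E := h.coi.subset_ground

theorem Op.rk_mn (h : Op M I J) (hX : Disjoint X J) :
    rk (mn M I J) X + I.ncard = rk M (X ∪ I) := by
  rw [← rk_indep h.ind]
  exact G.rk_mn hX

theorem ca_dis_right (M : Matroid E) (hX : X ⊆ M.E \ (I ∪ J)) : Disjoint X J :=
  disjoint_left.2 fun _ hz hJ => (hX hz).2 (Or.inr hJ)

theorem ca_dis_left (M : Matroid E) (hX : X ⊆ M.E \ (I ∪ J)) : Disjoint X I :=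
  disjoint_left.2 fun _ hz hI => (hX hz).2 (Or.inl hI)

theorem ca_rest (h : Op M I J) : rk M (M.E \ (I ∪ J) ∪ I) = rk M M.E := by
  rw [← rk_coindep h.coi]
  congr 1
  ext z
  have h1 : z ∈ I → z ∈ M.E := fun hz => h.sub_left hz
  have h2 : z ∈ I → z ∉ J := fun hz => disjoint_left.1 h.dis hz
  simp only [mem_union, mem_sdiff]
  tauto

theorem Op.rank (h : Op M I J) : rk (mn M I J) (mn M I J).E + I.ncard = rk M M.E := by
  rw [mn_ground, h.rk_mn (ca_dis_right M Subset.rfl), ca_rest h]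

theorem Op.corank (h : Op M I J) : rk (mn M I J)✶ (mn M I J).E + J.ncard = rk M✶ M.E := by
  have := h.dual.rank
  rwa [← mn_dual h.dis] at this

theorem Op.card (h : Op M I J) : (mn M I J).E.ncard + I.ncard + J.ncard = M.E.ncard := by
  rw [mn_ground, add_assoc, ← ncard_union_eq h.dis,
    ncard_sdiff_add_ncard_of_subset (union_subset h.sub_left h.sub_right)]

theorem op_iff_rk : Op M I J ↔ rk M I = I.ncard ∧ J ⊆ M.E ∧ rk M (M.E \ J) = rk M M.E ∧
    Disjoint I J :=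
  ⟨fun h => ⟨rk_indep h.ind, h.sub_right, rk_coindep h.coi, h.dis⟩,
    fun h => ⟨indep_iff_rk.2 h.1, (coindep_iff_rk h.2.1).2 h.2.2.1, h.2.2.2⟩⟩

theorem Op.mono (h : Op M I J) (hI : I0 ⊆ I) (hJ : J0 ⊆ J) : Op M I0 J0 :=
  ⟨h.ind.subset hI, h.dual.ind.subset hJ, h.dis.mono hI hJ⟩

theorem ca_sdiff_ind (h : Op M I J) (hI : I0 ⊆ I) (hJ : J0 ⊆ J) :
    (mn M I0 J0).Indep (I \ I0) := by
  have h1 := (h.mono hI hJ).rk_mn (X := I \ I0) (h.dis.mono sdiff_subset hJ)
  rw [sdiff_union_of_subset hI, rk_indep h.ind, ← ncard_sdiff_add_ncard_of_subset hI] at h1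
  rw [indep_iff_rk]
  omega

theorem Op.sdiff (h : Op M I J) (hI : I0 ⊆ I) (hJ : J0 ⊆ J) :
    Op (mn M I0 J0) (I \ I0) (J \ J0) := by
  refine ⟨ca_sdiff_ind h hI hJ, ?_, h.dis.mono sdiff_subset sdiff_subset⟩
  rw [Matroid.coindep_def, mn_dual (h.dis.mono hI hJ)]
  exact ca_sdiff_ind h.dual hJ hI

theorem ca_union_ind (h : Op M I J) (h' : (mn M I J).Indep I') : M.Indep (I ∪ I') := by
  have h0 : I' ⊆ M.E \ (I ∪ J) := mn_ground M I J ▸ h'.subset_ground
  have h1 := h.rk_mn (ca_dis_right M h0)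
  rw [rk_indep h', ← ncard_union_eq (ca_dis_left M h0)] at h1
  rw [union_comm, indep_iff_rk, h1]

theorem Op.union (h : Op M I J) (h' : Op (mn M I J) I' J') : Op M (I ∪ I') (J ∪ J') := by
  have h1 : I' ⊆ M.E \ (I ∪ J) := mn_ground M I J ▸ h'.sub_left
  have h2 : J' ⊆ M.E \ (I ∪ J) := mn_ground M I J ▸ h'.sub_right
  refine ⟨ca_union_ind h h'.ind, ca_union_ind h.dual ?_, ?_⟩
  · rw [← mn_dual h.dis]
    exact h'.coi
  · exact disjoint_union_left.2 ⟨disjoint_union_right.2 ⟨h.dis, (ca_dis_left M h2).symm⟩,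
      disjoint_union_right.2 ⟨ca_dis_right M h1, h'.dis⟩⟩

theorem Op.mn_mn (h : Op M I J) (h' : Op (mn M I J) I' J') :
    mn (mn M I J) I' J' = mn M (I ∪ I') (J ∪ J') := by
  have _ := h.dis
  have h1 : I' ⊆ M.E \ (I ∪ J) := mn_ground M I J ▸ h'.sub_left
  simp only [mn]
  rw [← Matroid.contract_delete_comm _ (ca_dis_right M h1), Matroid.contract_contract,
    Matroid.delete_delete]

theorem Op.exists_base (h : Op M I J) : ∃ B, M.IsBase B ∧ I ⊆ B ∧ Disjoint B J := by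
  obtain ⟨B, hB, hIB⟩ := h.ind.subset_isBasis_of_subset (X := M.E \ J)
    (subset_sdiff.2 ⟨h.sub_left, h.dis⟩) sdiff_subset
  refine ⟨B, isBase_iff_rk.2 ⟨rk_indep hB.indep, ?_⟩, hIB, (subset_sdiff.1 hB.subset).2⟩
  rw [← rk_basis hB, rk_coindep h.coi]

theorem Op.isBase_iff (h : Op M I J) {B : Set E} :
    (mn M I J).IsBase B ↔ M.IsBase (B ∪ I) ∧ Disjoint B I ∧ Disjoint B J := by
  have hr := h.rank
  constructor
  · intro hB
    have h0 : B ⊆ M.E \ (I ∪ J) := mn_ground M I J ▸ hB.subset_ground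
    have h1 := h.rk_mn (ca_dis_right M h0)
    have h2 := ncard_union_eq (ca_dis_left M h0)
    obtain ⟨h3, h4⟩ := isBase_iff_rk.1 hB
    exact ⟨isBase_iff_rk.2 ⟨by omega, by omega⟩, ca_dis_left M h0, ca_dis_right M h0⟩
  · rintro ⟨hB, hI, hJ⟩
    have h1 := h.rk_mn hJ
    have h2 := ncard_union_eq hI
    obtain ⟨h3, h4⟩ := isBase_iff_rk.1 hB
    exact isBase_iff_rk.2 ⟨by omega, by omega⟩

theorem op_del (he : e ∈ M.E) (h : rk M (M.E \ {e}) = rk M M.E) : Op M ∅ {e} :=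
  op_iff_rk.2 ⟨by simp, singleton_subset_iff.2 he, h, empty_disjoint _⟩

theorem op_con (h : rk M {e} = 1) : Op M {e} ∅ :=
  op_iff_rk.2 ⟨by rw [h, ncard_singleton], empty_subset _, by rw [sdiff_empty], disjoint_empty _⟩

theorem Frame.op (h : Frame M I J) : Op M I J := h.toOp

theorem IsUnif.dual {n : ℕ} (h : IsUnif k n M) (hk : k ≤ n) : IsUnif (n - k) n M✶ := by
  refine ⟨h.1, fun X hX => ?_⟩
  have hX' : X ⊆ M.E := hX
  have h1 := rk_dual hX'
  have h2 := h.2 M.E Subset.rfl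
  have h3 := h.2 (M.E \ X) sdiff_subset
  have h4 := ncard_sdiff_add_ncard_of_subset hX'
  have h5 := h.1
  omega

theorem Frame.dual (h : Frame M I J) : Frame M✶ J I := by
  refine ⟨h.op.dual, ?_⟩
  rw [← mn_dual h.dis]
  rcases h.isR with h1 | h1
  · exact Or.inr (h1.dual (by norm_num))
  · exact Or.inl (h1.dual (by norm_num))

theorem Safe.dual (h : Safe M I J) : Safe M✶ J I := by
  obtain ⟨I1, J1, h1, h2, h3⟩ := h
  exact ⟨J1, I1, h1.dual, h3, h2⟩

theorem Safe.op (h : Safe M I J) : Op M I J := by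
  obtain ⟨I1, J1, h1, h2, h3⟩ := h
  exact h1.op.mono h2 h3

theorem Safe.mono (h : Safe M I J) (hI : I0 ⊆ I) (hJ : J0 ⊆ J) : Safe M I0 J0 := by
  obtain ⟨I1, J1, h1, h2, h3⟩ := h
  exact ⟨I1, J1, h1, hI.trans h2, hJ.trans h3⟩

theorem Frame.sdiff (h : Frame M I J) (hI : I0 ⊆ I) (hJ : J0 ⊆ J) :
    Frame (mn M I0 J0) (I \ I0) (J \ J0) := by
  refine ⟨h.op.sdiff hI hJ, ?_⟩
  rw [(h.op.mono hI hJ).mn_mn (h.op.sdiff hI hJ), union_sdiff_cancel hI, union_sdiff_cancel hJ]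
  exact h.isR

theorem Frame.union (h : Op M I J) (h' : Frame (mn M I J) I' J') : Frame M (I ∪ I') (J ∪ J') := by
  refine ⟨h.union h'.op, ?_⟩
  rw [← h.mn_mn h'.op]
  exact h'.isR

theorem Safe.minor (h : Safe M (I ∪ I') (J ∪ J')) (hI : Disjoint I I') (hJ : Disjoint J J') :
    Safe (mn M I J) I' J' := by
  obtain ⟨I1, J1, h1, h2, h3⟩ := h
  exact ⟨I1 \ I, J1 \ J, h1.sdiff (subset_union_left.trans h2) (subset_union_left.trans h3),
    subset_sdiff.2 ⟨subset_union_right.trans h2, hI.symm⟩,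
    subset_sdiff.2 ⟨subset_union_right.trans h3, hJ.symm⟩⟩

theorem Safe.union (h : Op M I J) (h' : Safe (mn M I J) I' J') : Safe M (I ∪ I') (J ∪ J') := by
  obtain ⟨I1, J1, h1, h2, h3⟩ := h'
  exact ⟨I ∪ I1, J ∪ J1, Frame.union h h1, union_subset_union_right _ h2,
    union_subset_union_right _ h3⟩

theorem Frame.card (h : Frame M I J) : (M.E \ (I ∪ J)).ncard = 5 := by
  rw [← mn_ground]
  rcases h.isR with h1 | h1 <;> exact h1.1

theorem Frame.card_left (h : Frame M I J) : I.ncard + 2 = rk M M.E ∨ I.ncard + 3 = rk M M.E := by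
  have h0 := h.op.rank
  rcases h.isR with h1 | h1
  all_goals
    have h2 := h1.2 _ Subset.rfl
    have h3 := h1.1
    omega

theorem Frame.card_total (h : Frame M I J) : I.ncard + J.ncard + 5 = M.E.ncard := by
  have h1 := h.op.card
  have h2 := h.card
  rw [mn_ground] at h1
  omega

/-- The rank function on the five elements of a frame. -/
theorem Frame.rk_eq (h : Frame M I J) (hX : X ⊆ M.E \ (I ∪ J)) :
    rk M (X ∪ I) = min (X.ncard + I.ncard) (rk M M.E) := by
  have h0 := h.op.rank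
  have h4 := h.op.rk_mn (ca_dis_right M hX)
  rcases h.isR with h1 | h1
  all_goals
    have h2 := h1.2 _ Subset.rfl
    have h3 := h1.1
    have h5 := h1.2 X (by rw [mn_ground]; exact hX)
    omega

theorem frame_of_rk (h : Op M I J) (h5 : (M.E \ (I ∪ J)).ncard = 5)
    (hr : I.ncard + 2 = rk M M.E ∨ I.ncard + 3 = rk M M.E)
    (hX : ∀ X ⊆ M.E \ (I ∪ J), rk M (X ∪ I) = min (X.ncard + I.ncard) (rk M M.E)) :
    Frame M I J := by
  have key : ∀ k, I.ncard + k = rk M M.E → IsUnif k 5 (mn M I J) := by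
    intro k hk
    refine ⟨by rw [mn_ground, h5], fun X hX' => ?_⟩
    rw [mn_ground] at hX'
    have h1 := h.rk_mn (ca_dis_right M hX')
    have h2 := hX X hX'
    omega
  exact ⟨h, hr.imp (key 2) (key 3)⟩

theorem ca_rk_closure (hc : M.closure I' = M.closure I) (X : Set E) :
    rk M (X ∪ I') = rk M (X ∪ I) := by
  rw [← rk_closure, ← M.closure_union_closure_right_eq, hc, M.closure_union_closure_right_eq,
    rk_closure]

/-- Another basis of the same flat gives the same minor. -/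
theorem Frame.swap (h : Frame M I J) (hI : M.Indep I') (hs : I' ⊆ I ∪ J)
    (hc : M.closure I' = M.closure I) : Frame M I' ((I ∪ J) \ I') := by
  have e1 : I' ∪ (I ∪ J) \ I' = I ∪ J := union_sdiff_cancel hs
  have e2 : I'.ncard = I.ncard := by
    rw [← rk_indep hI, ← rk_indep h.ind, ← rk_closure, hc, rk_closure]
  have hE : I ∪ J ⊆ M.E := union_subset h.op.sub_left h.op.sub_right
  refine frame_of_rk (op_iff_rk.2 ⟨rk_indep hI, sdiff_subset.trans hE, ?_, disjoint_sdiff_right⟩)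
    (by rw [e1]; exact h.card) (by rw [e2]; exact h.card_left) fun X hX => ?_
  · refine le_antisymm (rk_le_rank M _) ?_
    rw [← ca_rest h.op, ← ca_rk_closure hc]
    refine rk_mono M ?_
    rintro z (hz | hz)
    · exact ⟨hz.1, fun h1 => hz.2 h1.1⟩
    · exact ⟨hI.subset_ground hz, fun h1 => h1.2 hz⟩
  · rw [e1] at hX
    rw [ca_rk_closure hc, e2, h.rk_eq hX]

/-- Every minor `U_{2,5}` or `U_{3,5}` is a frame. -/
theorem exists_frame (hC : C ⊆ M.E) (hD : D ⊆ M.E) (hd : Disjoint C D) (h : IsR (mn M C D))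
    (ho : Op M I0 J0) (hI : I0 ⊆ C) (hJ : J0 ⊆ D) :
    ∃ I J, Frame M I J ∧ I0 ⊆ I ∧ J0 ⊆ J ∧ I ∪ J = C ∪ D := by
  obtain ⟨K, hK, hIK⟩ := ho.ind.subset_isBasis_of_subset hI hC
  set R := M.E \ (C ∪ D) with hR
  have hRK : Disjoint R K := (ca_dis_left M (X := R) Subset.rfl).mono_right hK.subset
  obtain ⟨B1, hB1, hKB⟩ := hK.indep.subset_isBasis_of_subset (X := R ∪ K) subset_union_right
    (union_subset sdiff_subset hK.indep.subset_ground)
  have hsub : B1 ⊆ M.E \ J0 := subset_sdiff.2 ⟨hB1.indep.subset_ground,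
    (disjoint_union_left.2 ⟨(ca_dis_right M (X := R) Subset.rfl).mono_right hJ,
      hd.mono hK.subset hJ⟩).mono_left hB1.subset⟩
  obtain ⟨B, hB, hBB⟩ := hB1.indep.subset_isBasis_of_subset hsub sdiff_subset
  have r1 : B.ncard = rk M M.E := by rw [← rk_basis hB, rk_coindep ho.coi]
  have e1 : B1 = B ∩ (R ∪ K) := hB1.eq_of_subset_indep (hB.indep.subset inter_subset_left)
    (subset_inter hBB hB1.subset) inter_subset_right
  have hKI : K ⊆ B \ R := subset_sdiff.2 ⟨hKB.trans hBB, hRK.symm⟩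
  have e2 : B1 = B ∩ R ∪ K := by
    rw [e1, inter_union_distrib_left, inter_eq_right.2 (hKB.trans hBB)]
  have c1 : B1.ncard = (B ∩ R).ncard + K.ncard := by
    rw [e2, ncard_union_eq (hRK.mono_left inter_subset_right)]
  have c2 := ncard_inter_add_ncard_sdiff_eq_ncard B R
  have c3 := ncard_sdiff_add_ncard_of_subset hKI
  have hIs : B \ R ⊆ C ∪ D := fun z hz => by
    by_contra h1
    exact hz.2 ⟨hB.indep.subset_ground hz.1, h1⟩
  have e3 : B \ R ∪ (C ∪ D) \ (B \ R) = C ∪ D := union_sdiff_cancel hIs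
  have r2 : rk M (R ∪ K) = B1.ncard := rk_basis hB1
  have r3 : rk M C = K.ncard := rk_basis hK
  have r4 : ∀ X ⊆ R, rk (mn M C D) X + K.ncard = rk M (X ∪ K) := fun X hX => by
    rw [← r3, G.rk_mn (ca_dis_right M hX), ca_rk_closure hK.closure_eq_closure]
  have r5 : ∀ X ⊆ R, rk M (X ∪ B \ R) = rk M (X ∪ K) + ((B \ R) \ K).ncard := by
    intro X hX
    have a1 := rk_union_le M (X ∪ K) ((B \ R) \ K)
    rw [union_assoc, union_sdiff_cancel hKI] at a1
    have a2 := rk_le_ncard M ((B \ R) \ K)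
    have a3 := rk_submod' M (X := X ∪ B \ R) (Y := R ∪ K) (P := X ∪ K) (Q := B)
      (union_subset_union_right _ hKI) (union_subset_union_left _ hX) (fun z hz => by
        by_cases h1 : z ∈ R
        · exact Or.inr (Or.inl h1)
        · exact Or.inl (Or.inr ⟨hz, h1⟩))
    have a4 := rk_indep hB.indep
    omega
  have key : ∀ k, k ≤ 5 → IsUnif k 5 (mn M C D) → R.ncard = 5 ∧ (B \ R).ncard + k = rk M M.E ∧
      ∀ X ⊆ R, rk M (X ∪ B \ R) = min (X.ncard + (B \ R).ncard) (rk M M.E) := by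
    intro k hk hu
    have u1 : R.ncard = 5 := by rw [hR, ← mn_ground]; exact hu.1
    have u2 : ∀ X ⊆ R, rk (mn M C D) X = min X.ncard k := fun X hX =>
      hu.2 X (by rw [mn_ground]; exact hX)
    have u3 := u2 R Subset.rfl
    have u4 := r4 R Subset.rfl
    refine ⟨u1, by omega, fun X hX => ?_⟩
    have u5 := u2 X hX
    have u6 := r4 X hX
    have u7 := r5 X hX
    omega
  have hop : Op M (B \ R) ((C ∪ D) \ (B \ R)) := by
    refine op_iff_rk.2 ⟨rk_indep (hB.indep.subset sdiff_subset),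
      sdiff_subset.trans (union_subset hC hD), le_antisymm (rk_le_rank M _) ?_,
      disjoint_sdiff_right⟩
    rw [← r1, ← rk_indep hB.indep]
    exact rk_mono M fun z hz =>
      ⟨hB.indep.subset_ground hz, fun h1 => h1.2 ⟨hz, fun h2 => h2.2 h1.1⟩⟩
  refine ⟨B \ R, (C ∪ D) \ (B \ R), ?_, hIK.trans hKI, subset_sdiff.2 ⟨hJ.trans subset_union_right,
    ((subset_sdiff.1 hB.subset).2.symm).mono_right sdiff_subset⟩, e3⟩
  rcases h with h | h
  · obtain ⟨k1, k2, k3⟩ := key 2 (by norm_num) h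
    exact frame_of_rk hop (by rw [e3]; exact k1) (Or.inl k2) (by rw [e3]; exact k3)
  · obtain ⟨k1, k2, k3⟩ := key 3 (by norm_num) h
    exact frame_of_rk hop (by rw [e3]; exact k1) (Or.inr k2) (by rw [e3]; exact k3)

end Pool.Agent.Lib.MP_10bdcf_co.G
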