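import Pool.Agent.Lib.MP_10bdcf_co.CC

/-!
The lemmas of Tutte and Bixby.
-/

namespace Pool.Agent.Lib.MP_10bdcf_co.G

open scoped Matroid
open Set

set_option linter.unusedSectionVars false

variable {E : Type} [Finite E] {M : Matroid E} {X Y A I J : Set E} {e f g : E}

theorem cb_del (hX : X ⊆ M.E \ {e}) : lam (M ＼ {e}) X + rk M (M.E \ {e}) =
    rk M X + rk M ((M.E \ {e}) \ X) := by
  have h := lam_add (M ＼ {e}) X
  rwa [Matroid.delete_ground, rk_delete disjoint_sdiff_left,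
    rk_delete (disjoint_sdiff_left.mono_left hX),
    rk_delete (disjoint_sdiff_left.mono_left sdiff_subset)] at h

/-- The inequality of Bixby and Coullard. -/
theorem bixby_coullard (he : e ∈ M.E) (hX : X ⊆ M.E \ {e}) (hY : Y ⊆ M.E \ {e}) :
    lam M (X ∩ Y) + lam M ((M.E \ {e}) \ (X ∪ Y)) ≤ lam (M ＼ {e}) X + lam (M ／ {e}) Y + 1 := by
  have h1 := cb_del hX
  have h2 := lam_add (M ／ {e}) Y
  rw [Matroid.contract_ground] at h2
  have h3 := rk_contract M {e} Y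
  have h4 := rk_contract M {e} ((M.E \ {e}) \ Y)
  have h5 := rk_contract M {e} (M.E \ {e})
  rw [sdiff_union_of_subset (singleton_subset_iff.2 he)] at h5
  have h6 := lam_add M (X ∩ Y)
  have h7 := lam_add M ((M.E \ {e}) \ (X ∪ Y))
  have h8 := rk_submod' M (X := X) (Y := Y ∪ {e}) (P := X ∩ Y)
    (Q := M.E \ ((M.E \ {e}) \ (X ∪ Y))) inter_subset_left (by grind) (by grind)
  have h9 := rk_submod' M (X := (M.E \ {e}) \ X) (Y := (M.E \ {e}) \ Y ∪ {e})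
    (P := (M.E \ {e}) \ (X ∪ Y)) (Q := M.E \ (X ∩ Y)) (by grind) (by grind) (by grind)
  have h10 := rk_singleton_le M e
  have h11 := rk_le_rank M (M.E \ {e})
  omega

theorem cb_two (he : e ∈ M.E) (hX : X ⊆ M.E \ {e}) (hY : Y ⊆ M.E \ {e}) :
    lam M (X ∩ ((M.E \ {e}) \ Y)) + lam M (((M.E \ {e}) \ X) ∩ Y) ≤
      lam (M ＼ {e}) X + lam (M ／ {e}) Y + 1 := by
  have h := bixby_coullard he hX (sdiff_subset (t := Y))
  have h1 := lam_compl (M := M ／ {e}) hY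
  rw [Matroid.contract_ground] at h1
  rwa [h1, show (M.E \ {e}) \ (X ∪ (M.E \ {e}) \ Y) = ((M.E \ {e}) \ X) ∩ Y by grind] at h

theorem Conn.delete_or_contract (h : Conn M) (e : E) : Conn (M ＼ {e}) ∨ Conn (M ／ {e}) := by
  by_cases he : e ∈ M.E
  swap
  · rw [Matroid.delete_eq_self_iff.2 (disjoint_singleton_left.2 he)]
    exact Or.inl h
  by_contra hc
  simp only [not_or, conn_iff, not_forall, Matroid.delete_ground, Matroid.contract_ground] at hc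
  obtain ⟨⟨X, hX, x0, x1, x2⟩, Y, hY, y0, y1, y2⟩ := hc
  have key : ∀ Z ⊆ M.E \ {e}, lam M Z = 0 → Z = ∅ := fun Z hZ h0 =>
    (conn_iff.1 h Z (hZ.trans sdiff_subset) h0).resolve_right fun h' => (hZ (h' ▸ he)).2 rfl
  have a1 := bixby_coullard he hX hY
  have a2 := cb_two he hX hY
  have b1 := key (X ∩ Y) (by grind)
  have b2 := key ((M.E \ {e}) \ (X ∪ Y)) (by grind)
  have b3 := key (X ∩ ((M.E \ {e}) \ Y)) (by grind)
  have b4 := key (((M.E \ {e}) \ X) ∩ Y) (by grind)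
  have c1 : X ∩ Y = ∅ ∨ (M.E \ {e}) \ (X ∪ Y) = ∅ := by
    rcases Nat.eq_zero_or_pos (lam M (X ∩ Y)) with h0 | h0
    exacts [Or.inl (b1 h0), Or.inr (b2 (by omega))]
  have c2 : X ∩ ((M.E \ {e}) \ Y) = ∅ ∨ ((M.E \ {e}) \ X) ∩ Y = ∅ := by
    rcases Nat.eq_zero_or_pos (lam M (X ∩ ((M.E \ {e}) \ Y))) with h0 | h0
    exacts [Or.inl (b3 h0), Or.inr (b4 (by omega))]
  generalize M.E \ {e} = F at *
  rcases c1 with c1 | c1 <;> rcases c2 with c2 | c2 <;>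
    have d1 := eq_empty_iff_forall_notMem.1 c1 <;> have d2 := eq_empty_iff_forall_notMem.1 c2
  · exact x1 (eq_empty_of_forall_notMem fun z hz => by
      have := d1 z; have := d2 z; have := hX hz; grind)
  · exact y1 (eq_empty_of_forall_notMem fun z hz => by
      have := d1 z; have := d2 z; have := hY hz; grind)
  · exact y2 (hY.antisymm fun z hz => by have := d1 z; have := d2 z; grind)
  · exact x2 (hX.antisymm fun z hz => by have := d1 z; have := d2 z; grind)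

theorem cb_card {P Q : Set E} (h : X ⊆ P ∪ Q) : X.ncard ≤ P.ncard + Q.ncard :=
  (ncard_le_ncard h).trans (ncard_union_le _ _)

theorem cb_low (h : Con3 M) (hX : X ⊆ M.E) (h2 : 2 ≤ (M.E \ X).ncard) :
    min 2 X.ncard ≤ lam M X :=
  h.le_lam hX (min_le_left _ _) (min_le_right _ _) ((min_le_left _ _).trans h2)

theorem Con3.bixby (h : Con3 M) (hn : 4 ≤ M.E.ncard) (e : E) : V3 (M ／ {e}) ∨ C3 (M ＼ {e}) := by
  by_cases he : e ∈ M.E
  swap
  · rw [Matroid.contract_eq_self_iff.2 (disjoint_singleton_left.2 he)]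
    exact Or.inl h.v3
  by_contra hc
  simp only [not_or, C3, V3, ConK.contract (k := 1) h hn e, (ConK.delete (k := 1) h hn e).dual,
    true_and, not_forall, Matroid.dual_ground, Matroid.delete_ground, Matroid.contract_ground,
    not_le] at hc
  obtain ⟨⟨Y, hY, y0, y1, y2⟩, X, hX, x0, x1, x2⟩ := hc
  rw [lam_dual (M := M ＼ {e}) hX] at x0
  have kx : ∀ Z ⊆ M.E \ {e}, lam (M ＼ {e}) Z ≤ 1 → 1 < rk (M ＼ {e})✶ Z → 2 < Z.ncard :=
    fun Z hZ h0 h1 => by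
      by_contra h2
      have h3 := lam_eq (M := M ＼ {e}) hZ
      rw [rk_delete (disjoint_sdiff_left.mono_left hZ),
        rk_indep (h.indep hn (hZ.trans sdiff_subset) (not_lt.1 h2))] at h3
      omega
  have ky : ∀ Z ⊆ M.E \ {e}, lam (M ／ {e}) Z ≤ 1 → 1 < rk (M ／ {e}) Z → 2 < Z.ncard :=
    fun Z hZ h0 h1 => by
      by_contra h2
      have h3 := lam_eq (M := M ／ {e}) hZ
      rw [Matroid.dual_contract, rk_delete (disjoint_sdiff_left.mono_left hZ),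
        rk_indep (h.coindep hn (hZ.trans sdiff_subset) (not_lt.1 h2)).indep] at h3
      omega
  have p1 := kx X hX x0 x1
  have p2 := kx _ sdiff_subset ((lam_compl (M := M ＼ {e}) hX).trans_le x0) x2
  have p3 := ky Y hY y0 y1
  have p4 := ky _ sdiff_subset ((lam_compl (M := M ／ {e}) hY).trans_le y0) y2
  have a1 := bixby_coullard he hX hY
  have a2 := cb_two he hX hY
  have key : ∀ Z W : Set E, Z ⊆ M.E \ {e} → 2 < W.ncard → W ⊆ M.E \ Z → min 2 Z.ncard ≤ lam M Z :=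
    fun Z W hZ h1 h2 => cb_low h (hZ.trans sdiff_subset) (h1.le.trans (ncard_le_ncard h2))
  have b1 := key (X ∩ Y) _ (by grind) p2 (by grind)
  have b2 := key ((M.E \ {e}) \ (X ∪ Y)) _ (by grind) p1 (by grind)
  have b3 := key (X ∩ ((M.E \ {e}) \ Y)) _ (by grind) p2 (by grind)
  have b4 := key (((M.E \ {e}) \ X) ∩ Y) _ (by grind) p1 (by grind)
  generalize M.E \ {e} = F at *
  have c1 := cb_card (X := X) (P := X ∩ Y) (Q := X ∩ (F \ Y)) (by grind)
  have c2 := cb_card (X := F \ X) (P := F \ (X ∪ Y)) (Q := (F \ X) ∩ Y) (by grind)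
  have c3 := cb_card (X := Y) (P := X ∩ Y) (Q := (F \ X) ∩ Y) (by grind)
  have c4 := cb_card (X := F \ Y) (P := F \ (X ∪ Y)) (Q := X ∩ (F \ Y)) (by grind)
  omega

/-- A triangle. -/
def Tri (M : Matroid E) (e f g : E) : Prop := e ≠ f ∧ e ≠ g ∧ f ≠ g ∧ M.IsCircuit {e, f, g}

theorem cb_three (h1 : e ≠ f) (h2 : e ≠ g) (h3 : f ≠ g) : ({e, f, g} : Set E).ncard = 3 :=
  ncard_eq_three.2 ⟨e, f, g, h1, h2, h3, rfl⟩

theorem Con3.tri_iff (h : Con3 M) (hn : 4 ≤ M.E.ncard) : Tri M e f g ↔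
    e ≠ f ∧ e ≠ g ∧ f ≠ g ∧ e ∈ M.E ∧ f ∈ M.E ∧ g ∈ M.E ∧ rk M {e, f, g} = 2 := by
  refine and_congr_right fun h1 => and_congr_right fun h2 => and_congr_right fun h3 => ?_
  have h4 := cb_three h1 h2 h3
  constructor
  · intro hc
    have h5 := isCircuit_rk hc
    exact ⟨hc.subset_ground (by simp), hc.subset_ground (by simp), hc.subset_ground (by simp),
      by omega⟩
  · rintro ⟨a, b, c, d⟩
    have h5 : ({e, f, g} : Set E) ⊆ M.E := by grind
    refine Matroid.isCircuit_iff_forall_ssubset.2 ⟨⟨fun hi => ?_, h5⟩, fun K hK => ?_⟩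
    · have := rk_indep hi
      omega
    · have := ncard_lt_ncard hK
      exact h.indep hn (hK.subset.trans h5) (by omega)

theorem cb_swap (h : Tri M e f g) : Tri M f e g :=
  ⟨h.1.symm, h.2.2.1, h.2.1, insert_comm e f {g} ▸ h.2.2.2⟩

theorem cb_cl (h : Tri M e f g) (hf : f ∈ X) (hg : g ∈ X) (hY : Y ⊆ insert e X) :
    rk M Y ≤ rk M X := by
  refine (rk_mono M hY).trans_eq (rk_insert_of_mem (M.closure_subset_closure ?_
    (h.2.2.2.mem_closure_sdiff_singleton_of_mem (mem_insert _ _))))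
  grind

theorem cb_triad (h : Con3 M) (hn : 4 ≤ M.E.ncard) (h1 : e ≠ f) (h2 : e ≠ g) (h3 : f ≠ g)
    (he : e ∈ M.E) (hf : f ∈ M.E) (hg : g ∈ M.E) (hX : M.E \ {e, f, g} ⊆ X)
    (hr : rk M X < rk M M.E) : Tri M✶ e f g := by
  refine (Con3.tri_iff (M := M✶) h.dual hn).2 ⟨h1, h2, h3, he, hf, hg, ?_⟩
  have a1 := rk_dual (M := M) (X := {e, f, g}) (by grind)
  have a2 := rk_mono M hX
  have a3 := rk_indep (h.coindep hn (X := {e, f}) (by grind) (ncard_pair h1).le).indep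
  have a4 := rk_mono M✶ (show ({e, f} : Set E) ⊆ {e, f, g} by grind)
  rw [cb_three h1 h2 h3] at a1
  rw [ncard_pair h1] at a3
  omega

theorem cb_pair (h : Con3 M) (hn : 4 ≤ M.E.ncard) (he : e ∈ M.E) (hX : X ⊆ M.E \ {e}) (hf : f ∈ X)
    (h2 : X.ncard = 2) (hY : (M.E \ {e}) \ X ⊆ Y) (hr : rk M X + rk M Y ≤ rk M M.E + 1) :
    ∃ z ∈ X, z ≠ f ∧ Tri M✶ e f z := by
  have a1 := rk_indep (h.indep hn (hX.trans sdiff_subset) h2.le)
  obtain ⟨z, hz, rfl⟩ : ∃ z, z ≠ f ∧ X = {f, z} := by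
    obtain ⟨a, b, hab, rfl⟩ := ncard_eq_two.1 h2
    rcases hf with rfl | rfl
    exacts [⟨b, hab.symm, rfl⟩, ⟨a, hab, pair_comm _ _⟩]
  exact ⟨z, by simp, hz, cb_triad h hn (by grind) (by grind) hz.symm he (by grind) (by grind)
    (X := Y) (by grind) (by omega)⟩

theorem cb_sep (h : Con3 M) (hn : 4 ≤ M.E.ncard) (ht : Tri M e f g) (h1 : ¬ Con3 (M ＼ {e})) :
    ∃ X ⊆ M.E \ {e}, f ∈ X ∧ g ∉ X ∧ rk M X + rk M ((M.E \ {e}) \ X) ≤ rk M M.E + 1 ∧
      2 ≤ X.ncard ∧ 2 ≤ ((M.E \ {e}) \ X).ncard := by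
  obtain ⟨t1, t2, t3, he, hf, hg, -⟩ := (h.tri_iff hn).1 ht
  simp only [ConK, not_forall, not_or, not_le, Matroid.delete_ground] at h1
  obtain ⟨X, hX, x0, x1, x2⟩ := h1
  have a1 := (ConK.delete (k := 1) h hn e).le_lam (X := X) hX le_rfl (by omega)
    (by rw [Matroid.delete_ground]; omega)
  have a2 := cb_del hX
  have a3 := rk_le_rank M (M.E \ {e})
  have key : ∀ Z W : Set E, Z ⊆ M.E \ {e} → W ⊆ M.E \ insert e Z → M.E \ insert e Z ⊆ W →
      rk M Z + rk M W ≤ rk M M.E + 1 → 2 ≤ Z.ncard → 2 ≤ W.ncard → f ∈ Z → g ∉ Z :=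
    fun Z W hZ w1 w2 b1 b2 b3 b4 b5 => by
      have c1 := cb_cl ht b4 b5 Subset.rfl
      have c2 := h.le_lam (X := insert e Z) (by grind) le_rfl
        (b2.trans (ncard_le_ncard (subset_insert _ _))) (b3.trans (ncard_le_ncard w1))
      have c3 := lam_add M (insert e Z)
      have c4 := rk_mono M w2
      omega
  by_cases hfX : f ∈ X
  · exact ⟨X, hX, hfX, key X ((M.E \ {e}) \ X) hX (by grind) (by grind) (by omega) (by omega)
      (by omega) hfX, by omega, by omega, by omega⟩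
  · have hf' : f ∈ (M.E \ {e}) \ X := ⟨⟨hf, t1.symm⟩, hfX⟩
    refine ⟨_, sdiff_subset, hf', key _ X sdiff_subset (by grind) (by grind) (by omega) (by omega)
      (by omega) hf', ?_⟩
    rw [sdiff_sdiff_cancel_left hX]
    omega

/-- The triangle lemma of Tutte. -/
theorem Con3.triangle (h : Con3 M) (hn : 4 ≤ M.E.ncard) (ht : Tri M e f g)
    (h1 : ¬ Con3 (M ＼ {e})) (h2 : ¬ Con3 (M ＼ {f})) :
    ∃ z, z ≠ e ∧ z ≠ f ∧ z ≠ g ∧ (Tri M✶ e f z ∨ Tri M✶ e g z) := by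
  obtain ⟨t1, t2, t3, he, hf, hg, -⟩ := (h.tri_iff hn).1 ht
  obtain ⟨X, hX, x1, x2, x3, x4, x5⟩ := cb_sep h hn ht h1
  obtain ⟨Y, hY, y1, y2, y3, y4, y5⟩ := cb_sep h hn (cb_swap ht) h2
  rcases x4.eq_or_lt with x4 | x4
  · obtain ⟨z, z1, z2, z3⟩ := cb_pair h hn he hX x1 x4.symm Subset.rfl x3
    exact ⟨z, z3.2.1.symm, z2, fun h => x2 (h ▸ z1), Or.inl z3⟩
  rcases x5.eq_or_lt with x5 | x5
  · obtain ⟨z, z1, z2, z3⟩ := cb_pair h hn he sdiff_subset ⟨⟨hg, t2.symm⟩, x2⟩ x5.symm (Y := X)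
      (by grind) (by omega)
    exact ⟨z, z3.2.1.symm, fun h => z1.2 (h ▸ x1), z2, Or.inr z3⟩
  rcases y4.eq_or_lt with y4 | y4
  · obtain ⟨z, z1, z2, z3⟩ := cb_pair h hn hf hY y1 y4.symm Subset.rfl y3
    exact ⟨z, z2, z3.2.1.symm, fun h => y2 (h ▸ z1), Or.inl (cb_swap z3)⟩
  obtain ⟨X', hX'⟩ : ∃ X', ∀ z, z ∈ X' ↔ z ∈ (M.E \ {e}) \ X := ⟨_, fun _ => Iff.rfl⟩
  obtain ⟨Y', hY'⟩ : ∃ Y', ∀ z, z ∈ Y' ↔ z ∈ (M.E \ {f}) \ Y := ⟨_, fun _ => Iff.rfl⟩
  rw [← Set.ext hX'] at x3 x5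
  rw [← Set.ext hY'] at y3 y5
  have key : ∀ Z ⊆ M.E, e ∉ Z → f ∉ Z → min 2 Z.ncard + rk M M.E ≤ rk M Z + rk M (M.E \ Z) :=
    fun Z hZ a b => lam_add M Z ▸ Nat.add_le_add_right (cb_low h hZ
      ((ncard_pair t1).ge.trans (ncard_le_ncard (by grind)))) _
  have b1 := key (X ∩ Y) (by grind) (by grind) (by grind)
  have b2 := key (X ∩ Y') (by grind) (by grind) (by grind)
  have b3 := key (X' ∩ Y) (by grind) (by grind) (by grind)
  have b4 := key (X' ∩ Y') (by grind) (by grind) (by grind)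
  have s1 := rk_submod M X Y
  have s2 := rk_submod M X Y'
  have s3 := rk_submod M X' Y
  have s4 := rk_submod M X' Y'
  have u1 := cb_cl ht (X := X ∪ Y') (Y := M.E \ (X' ∩ Y)) (by grind) (by grind) (by grind)
  have u2 := cb_cl (cb_swap ht) (X := X' ∪ Y) (Y := M.E \ (X ∩ Y')) (by grind) (by grind)
    (by grind)
  have u3 := rk_mono M (show M.E \ (X' ∩ Y') ⊆ X ∪ Y by grind)
  have u4 := cb_cl ht (X := insert f (X' ∪ Y')) (Y := M.E \ (X ∩ Y)) (by grind) (by grind)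
    (by grind)
  have u5 := rk_insert_le M f (X' ∪ Y')
  have u6 := rk_le_rank M (M.E \ (X ∩ Y))
  have c1 := cb_card (X := X) (P := insert f (X ∩ Y)) (Q := X ∩ Y') (by grind)
  have c2 := cb_card (X := X') (P := X' ∩ Y) (Q := X' ∩ Y') (by grind)
  have c3 := cb_card (X := Y) (P := insert e (X ∩ Y)) (Q := X' ∩ Y) (by grind)
  have c4 := cb_card (X := Y') (P := X ∩ Y') (Q := X' ∩ Y') (by grind)
  have c5 := ncard_insert_le f (X ∩ Y)
  have c6 := ncard_insert_le e (X ∩ Y)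
  obtain ⟨z, hz⟩ := ncard_eq_one.1 (show (X ∩ Y).ncard = 1 by omega)
  have hz' : ∀ w, w ∈ X ∩ Y ↔ w = z := fun w => by rw [hz, mem_singleton_iff]
  have z1 := (hz' z).2 rfl
  exact ⟨z, by grind, by grind, by grind, Or.inl (cb_triad h hn t1 (by grind) (by grind) he hf
    (by grind) (X := X' ∪ Y') (by grind) (by omega))⟩

/-- An independent set inside `Y` that completes `X` to a spanning set of `X ∪ Y`. -/
theorem exists_skew (hX : X ⊆ M.E) (hY : Y ⊆ M.E) (hI : I ⊆ Y)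
    (hr : rk M (X ∪ I) = rk M X + I.ncard) :
    ∃ K, I ⊆ K ∧ K ⊆ Y ∧ rk M (X ∪ K) = rk M X + K.ncard ∧ rk M (X ∪ K) = rk M (X ∪ Y) := by
  obtain ⟨K, ⟨h1, h2, h3⟩, hm⟩ := exists_max_image
    {K | I ⊆ K ∧ K ⊆ Y ∧ rk M (X ∪ K) = rk M X + K.ncard} ncard (toFinite _)
    ⟨I, Subset.rfl, hI, hr⟩
  refine ⟨K, h1, h2, h3, ?_⟩
  have h4 : Y ⊆ M.closure (X ∪ K) := fun y hy => by
    by_contra h5
    have h6 : y ∉ K := fun h => h5 (M.subset_closure _ (union_subset hX (h2.trans hY)) (Or.inr h))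
    have h7 := hm (insert y K) ⟨h1.trans (subset_insert _ _), insert_subset hy h2, by
      rw [union_insert, rk_insert_of_notMem (hY hy) h5, h3, ncard_insert_of_notMem h6, add_assoc]⟩
    rw [ncard_insert_of_notMem h6] at h7
    omega
  rw [← rk_union_of_subset_closure h4, union_assoc, union_eq_self_of_subset_left h2]

end Pool.Agent.Lib.MP_10bdcf_co.G
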