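import Pool.Agent.Lib.MP_10bdcf_co.CA

/-!
The connectivity function of minors; connected, 3-connected and 4-connected matroids.
-/

namespace Pool.Agent.Lib.MP_10bdcf_co.G

open scoped Matroid
open Set

set_option linter.unusedSectionVars false

variable {E : Type} [Finite E] {M : Matroid E} {X Y A I J I0 J0 I' J' C D : Set E} {e f g : E}
  {k : ℕ}

theorem cc_lam_mn (M : Matroid E) (I J X : Set E) :
    lam (mn M I J) X + rk M ((M.E \ J) ∪ I) + rk M I =
      rk M ((X \ J) ∪ I) + rk M ((M.E \ (X ∪ J)) ∪ I) := by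
  have e : ∀ Y, rk (mn M I J) Y + rk M I = rk M ((Y \ J) ∪ I) := fun Y => by
    rw [rk_delete', rk_contract]
  have h1 := lam_add (mn M I J) X
  have h2 := e X
  have h3 := e (mn M I J).E
  have h4 := e ((mn M I J).E \ X)
  rw [show ((mn M I J).E \ J) ∪ I = (M.E \ J) ∪ I by rw [mn_ground]; ext z; simp; tauto] at h3
  rw [show (((mn M I J).E \ X) \ J) ∪ I = (M.E \ (X ∪ J)) ∪ I by
    rw [mn_ground]; ext z; simp; tauto] at h4
  omega

theorem cc_lam_del (M : Matroid E) (J X : Set E) :
    lam (M ＼ J) X + rk M (M.E \ J) = rk M (X \ J) + rk M (M.E \ (X ∪ J)) := by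
  simpa [mn_empty_left] using cc_lam_mn M ∅ J X

theorem cc_lam_con (M : Matroid E) (I X : Set E) :
    lam (M ／ I) X + rk M M.E + rk M I = rk M (X ∪ I) + rk M ((M.E \ X) ∪ I) := by
  have h := cc_lam_mn M I ∅ X
  have h1 := rk_le_rank M (M.E ∪ I)
  have h2 := rk_mono M (show M.E ⊆ M.E ∪ I from subset_union_left)
  simp only [mn_empty_right, Set.sdiff_empty, union_empty] at h
  omega

theorem cc_del_le (M : Matroid E) (J X : Set E) : lam (M ＼ J) (X \ J) ≤ lam M X := by
  have h1 := cc_lam_del M J (X \ J)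
  have h2 := lam_add M X
  have h3 := rk_submod' M (X := X ∩ M.E) (Y := M.E \ J) (P := ((X \ J) \ J) ∩ M.E)
    (Q := (X ∪ (M.E \ J)) ∩ M.E) (by tauto_set) (by tauto_set) (by tauto_set)
  have h4 := rk_submod' M (X := M.E \ X) (Y := X ∪ (M.E \ J)) (P := M.E \ (X \ J ∪ J))
    (Q := M.E) (by tauto_set) (by tauto_set) (by tauto_set)
  simp only [rk_inter_ground] at h3
  omega

theorem cc_con_le (M : Matroid E) (I X : Set E) : lam (M ／ I) (X \ I) ≤ lam M X := by
  have h1 := cc_lam_con M I (X \ I)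
  have h2 := lam_add M X
  have h3 := rk_submod' M (X := X) (Y := I) (P := I ∩ X) (Q := X \ I ∪ I)
    (by tauto_set) (by tauto_set) (by tauto_set)
  have h4 := rk_submod' M (X := M.E \ X) (Y := I) (P := (I \ X) ∩ M.E)
    (Q := M.E \ (X \ I) ∪ I) (by tauto_set) (by tauto_set) (by tauto_set)
  have h5 := rk_union_le M (I ∩ X) (I \ X)
  rw [inter_union_sdiff] at h5
  rw [rk_inter_ground] at h4
  omega

theorem cc_card (hX : X ⊆ Y) : X.ncard + (Y \ X).ncard = Y.ncard := by
  rw [add_comm, ncard_sdiff_add_ncard_of_subset hX]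

theorem lam_minor_le (M : Matroid E) (hd : Disjoint I J) (X : Set E) :
    lam (mn M I J) (X \ (I ∪ J)) ≤ lam M X := by
  have _ := hd
  rw [← sdiff_sdiff]
  exact (cc_del_le _ J _).trans (cc_con_le M I X)

theorem lam_insert_le (M : Matroid E) (e : E) (X : Set E) : lam M (insert e X) ≤ lam M X + 1 := by
  have h1 := lam_add M X
  have h2 := lam_add M (insert e X)
  have h3 := rk_insert_le M e X
  have h4 := rk_mono M (show M.E \ insert e X ⊆ M.E \ X by grind)
  omega

theorem lam_le_insert (M : Matroid E) (e : E) (X : Set E) : lam M X ≤ lam M (insert e X) + 1 := by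
  have h1 := lam_add M X
  have h2 := lam_add M (insert e X)
  have h3 := rk_insert_le M e (M.E \ insert e X)
  have h4 := rk_mono M (show M.E \ X ⊆ insert e (M.E \ insert e X) by grind)
  have h5 := rk_mono M (subset_insert e X)
  omega

theorem lam_le_minor (hI : Disjoint X I) (hJ : Disjoint X J) :
    lam M X ≤ lam (mn M I J) X + I.ncard + J.ncard := by
  have _ := hI
  have h1 := cc_lam_mn M I J X
  have h2 := lam_add M X
  have h3 := rk_le_rank M ((M.E \ J) ∪ I)
  have h4 := rk_le_ncard M I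
  have h5 := rk_le_ncard M J
  have h6 := rk_mono M (show X ⊆ X ∪ I from subset_union_left)
  have h7 := rk_union_le M ((M.E \ (X ∪ J)) ∪ I) J
  have h8 := rk_mono M (show M.E \ X ⊆ (M.E \ (X ∪ J)) ∪ I ∪ J by tauto_set)
  rw [hJ.sdiff_eq_left] at h1
  omega

theorem lam_le_delete (M : Matroid E) (he : e ∉ X) : lam M X ≤ lam (M ＼ {e}) X + 1 := by
  simpa [mn_empty_left] using lam_le_minor (M := M) (X := X) (I := ∅) (J := {e}) (by simp) (by simpa)

theorem lam_le_contract (M : Matroid E) (he : e ∉ X) : lam M X ≤ lam (M ／ {e}) X + 1 := by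
  simpa [mn_empty_right] using
    lam_le_minor (M := M) (X := X) (I := {e}) (J := ∅) (by simpa) (by simp)

theorem Op.lam_mn (h : Op M I J) (hI : Disjoint X I) (hJ : Disjoint X J) :
    lam (mn M I J) X + rk M M.E + I.ncard = rk M (X ∪ I) + rk M (M.E \ (X ∪ J)) := by
  have h1 := cc_lam_mn M I J X
  have h2 := rk_indep h.ind
  have h3 := rk_coindep h.coi
  rw [hJ.sdiff_eq_left, union_eq_self_of_subset_right (subset_sdiff.2 ⟨h.sub_left, h.dis⟩),
    union_eq_self_of_subset_right (subset_sdiff.2 ⟨h.sub_left, by simp [hI.symm, h.dis]⟩)] at h1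
  omega

theorem IsR.con3 (h : IsR M) : Con3 M := by
  intro X hX hl
  have h1 := lam_add M X
  have h2 := cc_card hX
  rcases h with ⟨h3, h4⟩ | ⟨h3, h4⟩ <;>
  · rw [h4 X hX, h4 _ sdiff_subset, h4 _ Subset.rfl] at h1
    omega

/-- One side of a 2-separation has at most one element of a frame. -/
theorem Frame.small (h : Frame M I J) (hA : A ⊆ M.E) (hl : lam M A ≤ 1) :
    (A \ (I ∪ J)).ncard ≤ 1 ∨ ((M.E \ A) \ (I ∪ J)).ncard ≤ 1 := by
  have h1 := lam_minor_le M h.dis A
  have h2 := h.isR.con3 (A \ (I ∪ J)) (by rw [mn_ground]; tauto_set) (by omega)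
  rw [show (mn M I J).E \ (A \ (I ∪ J)) = (M.E \ A) \ (I ∪ J) by rw [mn_ground]; tauto_set] at h2
  omega

theorem conn_iff : Conn M ↔ ∀ X ⊆ M.E, lam M X = 0 → X = ∅ ∨ X = M.E := by
  refine forall₂_congr fun X hX => ?_
  rw [Nat.lt_one_iff]
  refine forall_congr' fun h => ?_
  rw [h, Nat.le_zero, Nat.le_zero, ncard_eq_zero, ncard_eq_zero, sdiff_eq_empty]
  exact or_congr_right ⟨hX.antisymm, fun h => h.ge⟩

theorem ConK.le_lam (h : ConK k M) (hX : X ⊆ M.E) {j : ℕ} (hj : j ≤ k) (h1 : j ≤ X.ncard)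
    (h2 : j ≤ (M.E \ X).ncard) : j ≤ lam M X := by
  by_contra h3
  have := h X hX (by omega)
  omega

theorem ConK.delete (h : ConK (k + 1) M) (hn : 2 * k + 2 ≤ M.E.ncard) (e : E) :
    ConK k (M ＼ {e}) := by
  by_cases he : e ∈ M.E
  swap
  · rw [Matroid.delete_eq_self_iff.2 (by simpa)]
    exact h.mono (by omega)
  intro X hX hk
  have h1 := lam_compl hX
  have h2 := cc_card hX
  have h3 := cc_card (show {e} ⊆ M.E by simpa)
  have h4 := cc_card (hX.trans sdiff_subset)
  have h5 := cc_card (show (M ＼ {e}).E \ X ⊆ M.E from sdiff_subset.trans sdiff_subset)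
  have h6 := lam_le_delete M (X := X) (e := e) fun h => (hX h).2 rfl
  have h7 := lam_le_delete M (X := (M ＼ {e}).E \ X) (e := e) fun h => h.1.2 rfl
  have h8 := h X (hX.trans sdiff_subset) (by omega)
  have h9 := h ((M ＼ {e}).E \ X) (sdiff_subset.trans sdiff_subset) (by omega)
  rw [ncard_singleton, ← Matroid.delete_ground] at h3
  omega

theorem ConK.contract (h : ConK (k + 1) M) (hn : 2 * k + 2 ≤ M.E.ncard) (e : E) :
    ConK k (M ／ {e}) := by
  exact (h.dual.delete hn e).dual

/-- Small sets are independent. -/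
theorem ConK.indep (h : ConK k M) (hn : 2 * k ≤ M.E.ncard) (hX : X ⊆ M.E) (hk : X.ncard ≤ k) :
    M.Indep X := by
  have h1 := cc_card hX
  have h2 := h.le_lam hX hk le_rfl (by omega)
  have h3 := lam_le_rk M X
  have h4 := rk_le_ncard M X
  exact indep_iff_rk.2 (by omega)

theorem ConK.coindep (h : ConK k M) (hn : 2 * k ≤ M.E.ncard) (hX : X ⊆ M.E) (hk : X.ncard ≤ k) :
    M.Coindep X := by
  exact h.dual.indep hn hX hk

theorem Con3.v3 (h : Con3 M) : V3 M := by
  refine ⟨h.mono (by omega), fun X hX hl => ?_⟩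
  have h1 := h X hX (by omega)
  have h2 := rk_le_ncard M X
  have h3 := rk_le_ncard M (M.E \ X)
  omega

theorem Con3.c3 (h : Con3 M) : C3 M := by
  exact Con3.v3 h.dual

theorem V3.con3 (h : V3 M) (hs : ∀ e ∈ M.E, ∀ f ∈ M.E, e ≠ f → rk M {e, f} = 2) : Con3 M := by
  have e : ∀ X ⊆ M.E, rk M X ≤ 1 → X.ncard ≤ 1 := fun X hX hr => by
    by_contra hc
    obtain ⟨a, ha, b, hb, hab⟩ := (one_lt_ncard X.toFinite).1 (not_le.1 hc)
    have h1 := hs a (hX ha) b (hX hb) hab
    have h2 := rk_mono M (pair_subset ha hb)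
    omega
  intro X hX hl
  by_cases h0 : lam M X < 1
  · exact h.1 X hX h0
  have := (h.2 X hX (by omega)).imp (e X hX) (e _ sdiff_subset)
  omega

/-- Deleting one element of a parallel pair. -/
theorem V3.delete (h : V3 M) (hf : f ∈ M.E) (hne : e ≠ f) (hp : e ∈ M.closure {f}) :
    V3 (M ＼ {e}) := by
  have key : ∀ X ⊆ M.E \ {e}, ∃ Z ⊆ M.E, Z \ {e} = X ∧ rk M Z = rk (M ＼ {e}) X ∧
      rk M (M.E \ Z) = rk (M ＼ {e}) ((M.E \ {e}) \ X) ∧ lam M Z = lam (M ＼ {e}) X := by
    intro X hX
    have he : e ∈ M.E := M.closure_subset_ground _ hp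
    have hc : ∀ Z, f ∈ Z → rk M (insert e Z) = rk M Z := fun Z hZ =>
      rk_insert_of_mem (M.closure_subset_closure (by simpa) hp)
    have d1 : Disjoint X {e} := (subset_sdiff.1 hX).2
    have h1 := lam_add (M ＼ {e}) X
    have h2 := hc (M.E \ {e}) ⟨hf, hne.symm⟩
    rw [Matroid.delete_ground, rk_delete disjoint_sdiff_left] at h1
    rw [insert_sdiff_singleton, insert_eq_of_mem he] at h2
    rw [rk_delete d1, rk_delete (disjoint_sdiff_left.mono_left sdiff_subset)] at h1 ⊢
    by_cases hfX : f ∈ X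
    · have h3 := lam_add M (insert e X)
      have h4 := hc X hfX
      have h5 : M.E \ insert e X = (M.E \ {e}) \ X := by grind
      rw [h5] at h3
      exact ⟨insert e X, insert_subset he (hX.trans sdiff_subset),
        by rw [insert_sdiff_of_mem _ (mem_singleton e), d1.sdiff_eq_left], h4, by rw [h5], by omega⟩
    · have h3 := lam_add M X
      have h4 := hc ((M.E \ {e}) \ X) ⟨⟨hf, hne.symm⟩, hfX⟩
      have h5 : insert e ((M.E \ {e}) \ X) = M.E \ X := by
        rw [Set.sdiff_sdiff_comm, insert_sdiff_singleton,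
          insert_eq_of_mem (show e ∈ M.E \ X from ⟨he, fun h => (hX h).2 rfl⟩)]
      rw [h5] at h4
      exact ⟨X, hX.trans sdiff_subset, d1.sdiff_eq_left, rfl, h4, by omega⟩
  refine ⟨conn_iff.2 fun X hX hl => ?_, fun X hX hl => ?_⟩
  · obtain ⟨Z, hZ, rfl, -, -, h1⟩ := key X hX
    rcases conn_iff.1 h.1 Z hZ (h1.trans hl) with rfl | rfl
    · simp
    · simp
  · obtain ⟨Z, hZ, -, h1, h2, h3⟩ := key X hX
    rw [Matroid.delete_ground, ← h1, ← h2]
    exact h.2 Z hZ (h3.trans_le hl)

theorem Conn.nonloop (h : Conn M) (hn : 2 ≤ M.E.ncard) (he : e ∈ M.E) : rk M {e} = 1 := by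
  simpa using rk_indep (h.indep (X := {e}) hn (by simpa) (by simp))

theorem Conn.noncoloop (h : Conn M) (hn : 2 ≤ M.E.ncard) (e : E) :
    rk M (M.E \ {e}) = rk M M.E := by
  by_cases he : e ∈ M.E
  · exact rk_coindep (h.coindep (X := {e}) hn (by simpa) (by simp))
  · rw [sdiff_singleton_eq_self he]

/-- Adding an element that is not a loop and not a coloop to a connected matroid. -/
theorem conn_of_delete (h : Conn (M ＼ {e})) (h1 : rk M {e} = 1)
    (h2 : rk M (M.E \ {e}) = rk M M.E) : Conn M := by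
  have he : e ∈ M.E := by
    by_contra he
    rw [← rk_inter_ground, singleton_inter_eq_empty.2 he, rk_empty] at h1
    omega
  have h3 := lam_add M {e}
  have h4 := lam_compl (show {e} ⊆ M.E by simpa)
  refine conn_iff.2 fun X hX hl => ?_
  have h5 := cc_del_le M {e} X
  rcases conn_iff.1 h (X \ {e}) (sdiff_subset_sdiff_left hX) (by omega) with h6 | h6
  · rcases subset_singleton_iff_eq.1 (sdiff_eq_empty.1 h6) with rfl | rfl
    · exact Or.inl rfl
    · omega
  · rw [Matroid.delete_ground] at h6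
    by_cases heX : e ∈ X
    · right
      rw [← insert_eq_of_mem heX, ← insert_sdiff_singleton, h6, insert_sdiff_singleton,
        insert_eq_of_mem he]
    · rw [sdiff_singleton_eq_self heX] at h6
      subst h6
      omega

theorem isCircuit_rk (hC : M.IsCircuit C) : rk M C + 1 = C.ncard := by
  have := hC.eRk_add_one_eq
  rw [← rk_cast, ← ncard_cast] at this
  exact_mod_cast this

theorem isCocircuit_rk (hD : M.IsCocircuit D) : rk M (M.E \ D) + 1 = rk M M.E := by
  have h1 := isCircuit_rk hD.isCircuit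
  have h2 := rk_dual hD.subset_ground
  omega

theorem isCocircuit_notMem (hD : M.IsCocircuit D) (he : e ∈ D) : e ∉ M.closure (M.E \ D) := by
  intro h
  have h1 := rk_insert_of_mem h
  have h2 := isCocircuit_rk hD
  have h3 := rk_coindep (M := M) (hD.isCircuit.sdiff_singleton_indep he)
  have h4 := rk_mono M (show M.E \ (D \ {e}) ⊆ insert e (M.E \ D) by tauto_set)
  omega

theorem mem_coclosure_iff (he : e ∈ M.E) (hX : e ∉ X) :
    e ∈ M✶.closure X ↔ e ∉ M.closure (M.E \ insert e X) := by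
  have h1 := rk_dual (M := M) (X := X ∩ M.E) inter_subset_right
  have h2 := rk_dual (M := M) (X := insert e (X ∩ M.E)) (insert_subset he inter_subset_right)
  have h3 := rk_insert_le M e (M.E \ insert e X)
  have h4 := rk_mono M (subset_insert e (M.E \ insert e X))
  rw [show M.E \ (X ∩ M.E) = insert e (M.E \ insert e X) by
    ext z; by_cases hz : z = e <;> simp [hz, he, hX]] at h1
  rw [ncard_insert_of_notMem (fun h => hX h.1),
    show M.E \ insert e (X ∩ M.E) = M.E \ insert e X by grind] at h2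
  rw [← M✶.closure_inter_ground, mem_closure_iff_rk he, mem_closure_iff_rk (M := M✶) he,
    Matroid.dual_ground]
  omega

end Pool.Agent.Lib.MP_10bdcf_co.G
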