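import Mathlib

/-!
Rank function with values in the natural numbers, the connectivity function, and minors.
-/

namespace Pool.Agent.Lib.MP_10bdcf_co.G

open scoped Matroid
open Set

set_option linter.unusedSectionVars false

variable {E : Type}

/-- The rank of a set. -/
noncomputable def rk (M : Matroid E) (X : Set E) : ℕ := (M.eRk X).toNat

/-- The connectivity function. -/
noncomputable def lam (M : Matroid E) (X : Set E) : ℕ := rk M X + rk M (M.E \ X) - rk M M.E

/-- The minor obtained by contracting `I` and deleting `J`. -/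
abbrev mn (M : Matroid E) (I J : Set E) : Matroid E := M ／ I ＼ J

/-- Tutte connectivity: `ConK 1` is connected, `ConK 2` is 3-connected, `ConK 3` is 4-connected. -/
def ConK (k : ℕ) (M : Matroid E) : Prop :=
  ∀ X ⊆ M.E, lam M X < k → X.ncard ≤ lam M X ∨ (M.E \ X).ncard ≤ lam M X

/-- Connected. -/
abbrev Conn (M : Matroid E) : Prop := ConK 1 M

/-- 3-connected. -/
abbrev Con3 (M : Matroid E) : Prop := ConK 2 M

/-- 4-connected. -/
abbrev Con4 (M : Matroid E) : Prop := ConK 3 M

/-- 3-connected up to parallel classes. -/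
def V3 (M : Matroid E) : Prop :=
  Conn M ∧ ∀ X ⊆ M.E, lam M X ≤ 1 → rk M X ≤ 1 ∨ rk M (M.E \ X) ≤ 1

/-- 3-connected up to series classes. -/
def C3 (M : Matroid E) : Prop := V3 M✶

/-- `M` is the uniform matroid of rank `k` on `n` elements. -/
def IsUnif (k n : ℕ) (M : Matroid E) : Prop :=
  M.E.ncard = n ∧ ∀ X ⊆ M.E, rk M X = min X.ncard k

/-- `M` is `U_{2,5}` or `U_{3,5}`. -/
def IsR (M : Matroid E) : Prop := IsUnif 2 5 M ∨ IsUnif 3 5 M

/-- `I` is independent, `J` is coindependent, and they are disjoint. -/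
structure Op (M : Matroid E) (I J : Set E) : Prop where
  ind : M.Indep I
  coi : M.Coindep J
  dis : Disjoint I J

/-- A frame: a minor `U_{2,5}` or `U_{3,5}` in standard form. -/
structure Frame (M : Matroid E) (I J : Set E) : Prop extends Op M I J where
  isR : IsR (mn M I J)

/-- The operations `I0`, `J0` keep a minor `U_{2,5}` or `U_{3,5}`. -/
def Safe (M : Matroid E) (I0 J0 : Set E) : Prop := ∃ I J, Frame M I J ∧ I0 ⊆ I ∧ J0 ⊆ J

variable [Finite E] {M : Matroid E} {X Y I J B : Set E} {e : E}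

theorem rk_cast (M : Matroid E) (X : Set E) : (rk M X : ℕ∞) = M.eRk X :=
  ENat.natCast_toNat (ne_top_of_le_ne_top X.toFinite.encard_lt_top.ne (M.eRk_le_encard X))

theorem ncard_cast (X : Set E) : (X.ncard : ℕ∞) = X.encard := X.toFinite.cast_ncard_eq

@[simp] theorem rk_empty (M : Matroid E) : rk M ∅ = 0 := by simp [rk]

theorem rk_mono (M : Matroid E) (h : X ⊆ Y) : rk M X ≤ rk M Y := by
  have := M.eRk_mono h
  rw [← rk_cast, ← rk_cast] at this
  exact_mod_cast this

theorem rk_le_ncard (M : Matroid E) (X : Set E) : rk M X ≤ X.ncard := by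
  have := M.eRk_le_encard X
  rw [← rk_cast, ← ncard_cast] at this
  exact_mod_cast this

theorem rk_le_rank (M : Matroid E) (X : Set E) : rk M X ≤ rk M M.E := by
  have := M.eRk_le_eRank X
  rw [← M.eRk_ground, ← rk_cast, ← rk_cast] at this
  exact_mod_cast this

theorem rk_submod (M : Matroid E) (X Y : Set E) :
    rk M (X ∩ Y) + rk M (X ∪ Y) ≤ rk M X + rk M Y := by
  have := M.eRk_inter_add_eRk_union_le X Y
  simp only [← rk_cast] at this
  exact_mod_cast this

/-- Submodularity with room: `P` lies in both sets and `Q` in their union. -/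
theorem rk_submod' (M : Matroid E) {P Q : Set E} (h1 : P ⊆ X) (h2 : P ⊆ Y) (h3 : Q ⊆ X ∪ Y) :
    rk M P + rk M Q ≤ rk M X + rk M Y :=
  (add_le_add (rk_mono M (subset_inter h1 h2)) (rk_mono M h3)).trans (rk_submod M X Y)

theorem rk_union_le (M : Matroid E) (X Y : Set E) : rk M (X ∪ Y) ≤ rk M X + rk M Y := by
  have := rk_submod M X Y
  omega

theorem rk_inter_ground (M : Matroid E) (X : Set E) : rk M (X ∩ M.E) = rk M X := by simp [rk]

theorem rk_closure (M : Matroid E) (X : Set E) : rk M (M.closure X) = rk M X := by simp [rk]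

theorem rk_singleton_le (M : Matroid E) (e : E) : rk M {e} ≤ 1 := by
  simpa using rk_le_ncard M {e}

theorem rk_insert_le (M : Matroid E) (e : E) (X : Set E) : rk M (insert e X) ≤ rk M X + 1 := by
  have h1 := rk_union_le M {e} X
  have h2 := rk_singleton_le M e
  rw [singleton_union] at h1
  omega

theorem rk_insert_of_mem (h : e ∈ M.closure X) : rk M (insert e X) = rk M X := by
  refine le_antisymm ?_ (rk_mono M (subset_insert _ _))
  rw [← rk_inter_ground, ← rk_closure M X]
  refine rk_mono M ?_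
  rintro z ⟨rfl | hz, hzE⟩
  · exact h
  · exact M.inter_ground_subset_closure X ⟨hz, hzE⟩

theorem rk_insert_of_notMem (he : e ∈ M.E) (h : e ∉ M.closure X) :
    rk M (insert e X) = rk M X + 1 := by
  have := Matroid.eRk_insert_eq_add_one (M := M) (X := X) ⟨he, h⟩
  simp only [← rk_cast] at this
  exact_mod_cast this

theorem mem_closure_iff_rk (he : e ∈ M.E) : e ∈ M.closure X ↔ rk M (insert e X) = rk M X := by
  refine ⟨rk_insert_of_mem, fun h => ?_⟩
  by_contra h'
  have := rk_insert_of_notMem he h'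
  omega

theorem rk_union_of_subset_closure (h : Y ⊆ M.closure X) : rk M (X ∪ Y) = rk M X := by
  refine le_antisymm ?_ (rk_mono M subset_union_left)
  rw [← rk_inter_ground, ← rk_closure M X]
  refine rk_mono M ?_
  rintro z ⟨hz | hz, hzE⟩
  · exact M.inter_ground_subset_closure X ⟨hz, hzE⟩
  · exact h hz

theorem subset_closure_of_rk (hY : Y ⊆ M.E) (h : rk M (X ∪ Y) ≤ rk M X) : Y ⊆ M.closure X := by
  intro z hz
  rw [mem_closure_iff_rk (hY hz)]
  have h1 := rk_mono M (show insert z X ⊆ X ∪ Y from insert_subset (Or.inr hz) subset_union_left)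
  have h2 := rk_mono M (subset_insert z X)
  omega

theorem indep_iff_rk : M.Indep I ↔ rk M I = I.ncard := by
  rw [Matroid.indep_iff_eRk_eq_encard_of_finite I.toFinite, ← rk_cast, ← ncard_cast]
  exact_mod_cast Iff.rfl

theorem rk_indep (h : M.Indep I) : rk M I = I.ncard := indep_iff_rk.1 h

theorem rk_basis (h : M.IsBasis I X) : rk M X = I.ncard := by
  have := h.encard_eq_eRk
  rw [← rk_cast, ← ncard_cast] at this
  exact_mod_cast this.symm

theorem rk_base (h : M.IsBase B) : rk M M.E = B.ncard := rk_basis h.isBasis_ground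

theorem isBase_iff_rk : M.IsBase B ↔ rk M B = B.ncard ∧ B.ncard = rk M M.E := by
  refine ⟨fun h => ⟨rk_indep h.indep, (rk_base h).symm⟩, fun ⟨h1, h2⟩ => ?_⟩
  refine (indep_iff_rk.2 h1).isBase_of_eRk_ge B.toFinite ?_
  rw [← M.eRk_ground, ← rk_cast, ← rk_cast, h1, h2]

theorem rk_dual (hX : X ⊆ M.E) : rk M✶ X + rk M M.E = rk M (M.E \ X) + X.ncard := by
  have := M.eRk_dual_add_eRank X hX
  rw [← M.eRk_ground] at this
  simp only [← rk_cast, ← ncard_cast] at this
  exact_mod_cast this

theorem rk_dual_ground (M : Matroid E) : rk M✶ M.E + rk M M.E = M.E.ncard := by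
  simpa using rk_dual (M := M) Subset.rfl

theorem coindep_iff_rk (hJ : J ⊆ M.E) : M.Coindep J ↔ rk M (M.E \ J) = rk M M.E := by
  have := rk_dual hJ
  rw [Matroid.coindep_def, indep_iff_rk]
  omega

theorem rk_coindep (h : M.Coindep J) : rk M (M.E \ J) = rk M M.E :=
  (coindep_iff_rk h.subset_ground).1 h

theorem rk_delete' (M : Matroid E) (J X : Set E) : rk (M ＼ J) X = rk M (X \ J) := by
  rw [rk, ← Matroid.restrict_compl, Matroid.restrict_eRk_eq', ← rk, ← rk_inter_ground M (X \ J)]
  congr 1
  ext z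
  simp only [mem_inter_iff, mem_sdiff]
  tauto

theorem rk_delete (h : Disjoint X J) : rk (M ＼ J) X = rk M X := by
  rw [rk_delete', h.sdiff_eq_left]

theorem rk_contract (M : Matroid E) (I X : Set E) : rk (M ／ I) X + rk M I = rk M (X ∪ I) := by
  obtain ⟨K, hK⟩ := M.exists_isBasis' I
  obtain ⟨L, hL⟩ := (M ／ I).exists_isBasis' X
  have h1 := hK.contract_indep_iff.1 hL.indep
  have e1 : rk (M ／ I) X = L.ncard := by
    have := hL.encard_eq_eRk
    rw [← rk_cast, ← ncard_cast] at this
    exact_mod_cast this.symm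
  have e2 : rk M I = K.ncard := by
    have := hK.encard_eq_eRk
    rw [← rk_cast, ← ncard_cast] at this
    exact_mod_cast this.symm
  have e3 : rk M (L ∪ K) = L.ncard + K.ncard := by
    rw [rk_indep h1.1, ncard_union_eq (h1.2.symm.mono_right hK.subset)]
  rw [e1, e2, ← e3]
  refine le_antisymm (rk_mono M (union_subset_union hL.subset hK.subset)) ?_
  rw [← rk_inter_ground, ← rk_closure M (L ∪ K)]
  refine rk_mono M ?_
  have hKI : M.closure (L ∪ K) = M.closure (L ∪ I) := by
    rw [← M.closure_union_closure_right_eq, hK.closure_eq_closure, M.closure_union_closure_right_eq]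
  rw [hKI]
  rintro z ⟨hz, hzE⟩
  by_cases hzI : z ∈ I
  · exact M.inter_ground_subset_closure _ ⟨Or.inr hzI, hzE⟩
  · have hz' : z ∈ (M ／ I).closure X :=
      (M ／ I).inter_ground_subset_closure X ⟨hz.resolve_right hzI, hzE, hzI⟩
    rw [← hL.closure_eq_closure, Matroid.contract_closure_eq] at hz'
    exact hz'.1

theorem mn_ground (M : Matroid E) (I J : Set E) : (mn M I J).E = M.E \ (I ∪ J) := by
  simp [sdiff_sdiff]

theorem rk_mn (h : Disjoint X J) : rk (mn M I J) X + rk M I = rk M (X ∪ I) := by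
  rw [rk_delete h, rk_contract]

theorem mn_dual (h : Disjoint I J) : (mn M I J)✶ = mn M✶ J I := by
  rw [Matroid.dual_contract_delete, mn, Matroid.contract_delete_comm _ h.symm]

theorem lam_add (M : Matroid E) (X : Set E) : lam M X + rk M M.E = rk M X + rk M (M.E \ X) := by
  have h1 := rk_union_le M X (M.E \ X)
  have h2 := rk_mono M (show M.E ⊆ X ∪ (M.E \ X) by simp)
  unfold lam
  omega

theorem lam_compl (hX : X ⊆ M.E) : lam M (M.E \ X) = lam M X := by
  rw [lam, lam, sdiff_sdiff_cancel_left hX, add_comm]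

theorem lam_eq (hX : X ⊆ M.E) : lam M X + X.ncard = rk M X + rk M✶ X := by
  have h1 := lam_add M X
  have h2 := rk_dual hX
  omega

theorem lam_dual (hX : X ⊆ M.E) : lam M✶ X = lam M X := by
  have h1 := lam_eq hX
  have h2 := lam_eq (M := M✶) hX
  rw [Matroid.dual_dual] at h2
  omega

theorem lam_submod (M : Matroid E) (X Y : Set E) :
    lam M (X ∩ Y) + lam M (X ∪ Y) ≤ lam M X + lam M Y := by
  have h1 := lam_add M X
  have h2 := lam_add M Y
  have h3 := lam_add M (X ∩ Y)
  have h4 := lam_add M (X ∪ Y)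
  have h5 := rk_submod M X Y
  have h6 := rk_submod' M (X := M.E \ X) (Y := M.E \ Y) (P := M.E \ (X ∪ Y)) (Q := M.E \ (X ∩ Y))
    (sdiff_subset_sdiff_right subset_union_left) (sdiff_subset_sdiff_right subset_union_right)
    (by rw [sdiff_inter])
  omega

theorem lam_le_rk (M : Matroid E) (X : Set E) : lam M X ≤ rk M X := by
  have h1 := lam_add M X
  have h2 := rk_le_rank M (M.E \ X)
  omega

theorem lam_le_ncard (M : Matroid E) (X : Set E) : lam M X ≤ X.ncard :=
  (lam_le_rk M X).trans (rk_le_ncard M X)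

theorem ConK.dual {k : ℕ} (h : ConK k M) : ConK k M✶ := fun X hX hk => by
  rw [lam_dual (M := M) hX] at hk ⊢
  exact h X hX hk

theorem ConK.mono {k j : ℕ} (h : ConK k M) (hj : j ≤ k) : ConK j M :=
  fun X hX hk => h X hX (hk.trans_le hj)

theorem Op.dual (h : Op M I J) : Op M✶ J I :=
  ⟨h.coi, by rw [Matroid.coindep_def, Matroid.dual_dual]; exact h.ind, h.dis.symm⟩

end Pool.Agent.Lib.MP_10bdcf_co.G
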