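import Mathlib

/-!
Definitions for MP_10bdcf_co: weak U_2-matrices, QU-matrices and the matroids they represent.
-/

namespace Pool.Agent.Lib.MP_10bdcf_co

open scoped Quaternion

/-- The field Q(alpha_1, alpha_2) of rational functions in two indeterminates. -/
abbrev K2 : Type := FractionRing (MvPolynomial (Fin 2) ℚ)

/-- The indeterminate alpha_1. -/
noncomputable def al : K2 := algebraMap (MvPolynomial (Fin 2) ℚ) K2 (MvPolynomial.X 0)

/-- The indeterminate alpha_2. -/
noncomputable def be : K2 := algebraMap (MvPolynomial (Fin 2) ℚ) K2 (MvPolynomial.X 1)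

/-- The multiplicative group generated by -1 and the differences of distinct elements of `P`. -/
noncomputable def diffGroup (P : Set K2) : Subgroup K2ˣ :=
  Subgroup.closure {u : K2ˣ | (u : K2) = -1 ∨ ∃ x ∈ P, ∃ y ∈ P, x ≠ y ∧ (u : K2) = x - y}

/-- The group G_1 of the partial field U_1, inside Q(alpha_1, alpha_2). -/
noncomputable def G1 : Subgroup K2ˣ := diffGroup {0, 1, al}

/-- The group G_2 of the partial field U_2. -/
noncomputable def G2 : Subgroup K2ˣ := diffGroup {0, 1, al, be}

/-- A weak U_2-matrix: every maximal minor lies in G_2 or is 0, and one of them is not 0. -/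
def IsWeakU2 {r : ℕ} {E : Type} (A : Matrix (Fin r) E K2) : Prop :=
  (∀ f : Fin r → E, (A.submatrix id f).det = 0 ∨ ∃ g ∈ G2, (A.submatrix id f).det = (g : K2)) ∧
    ∃ f : Fin r → E, (A.submatrix id f).det ≠ 0

/-- Every nonzero maximal minor is an element of G_1 times one of
1, alpha_2, alpha_2 - 1, alpha_2 - alpha_1 (the minors have degree at most one in alpha_2). -/
def MinorsAffine {r : ℕ} {E : Type} (A : Matrix (Fin r) E K2) : Prop :=
  ∀ f : Fin r → E, (A.submatrix id f).det = 0 ∨
    ∃ g ∈ G1, ∃ l ∈ ({1, be, be - 1, be - al} : Set K2), (A.submatrix id f).det = (g : K2) * l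

/-- `M = M[A]` for a matrix over Q(alpha_1, alpha_2): the bases are the column sets with
nonzero determinant. -/
def RepresentsK {r : ℕ} {E : Type} (A : Matrix (Fin r) E K2) (M : Matroid E) : Prop :=
  M.E = Set.univ ∧ ∀ B : Set E, M.IsBase B ↔
    ∃ f : Fin r → E, Function.Injective f ∧ Set.range f = B ∧ (A.submatrix id f).det ≠ 0

/-- The left combinations of the rows of a quaternion matrix. -/
def rowSpace {r : ℕ} {E : Type} (A : Matrix (Fin r) E ℍ[ℝ]) : Set (E → ℍ[ℝ]) :=
  {c | ∃ x : Fin r → ℍ[ℝ], c = fun e => ∑ i, x i * A i e}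

/-- A nonzero vector of `C` such that no nonzero vector of `C` has strictly smaller support. -/
def IsElementary {E : Type} (C : Set (E → ℍ[ℝ])) (c : E → ℍ[ℝ]) : Prop :=
  c ∈ C ∧ c ≠ 0 ∧ ∀ d ∈ C, d ≠ 0 → ¬ (Function.support d ⊂ Function.support c)

/-- A QU-matrix: some maximal square submatrix is invertible and every elementary vector of the
row space is a left multiple of a vector whose nonzero entries are unit quaternions. -/
def IsQUMatrix {r : ℕ} {E : Type} (A : Matrix (Fin r) E ℍ[ℝ]) : Prop :=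
  (∃ f : Fin r → E, IsUnit (A.submatrix id f)) ∧
    ∀ c, IsElementary (rowSpace A) c →
      ∃ (l : ℍ[ℝ]) (u : E → ℍ[ℝ]), c = (fun e => l * u e) ∧ ∀ e, u e ≠ 0 → ‖u e‖ = 1

/-- A matroid on `E` is QU if it is `M[A]` for a QU-matrix `A`. -/
def IsQU {E : Type} (M : Matroid E) : Prop :=
  ∃ (r : ℕ) (A : Matrix (Fin r) E ℍ[ℝ]), IsQUMatrix A ∧ M.E = Set.univ ∧
    ∀ B : Set E, M.IsBase B ↔
      ∃ f : Fin r → E, Function.Injective f ∧ Set.range f = B ∧ IsUnit (A.submatrix id f)

end Pool.Agent.Lib.MP_10bdcf_co
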