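import Pool.Agent.Lib.MP_10bdcf_co.FrB
import Pool.Agent.Lib.MP_10bdcf_co.Defs

/-!
A finite quotient of G_2 (discrete logarithms of values at points over the field with seven
elements) in which the thirty fundamental elements keep their multiplicative relations.
-/

namespace Pool.Agent.Lib.MP_10bdcf_co.Fr

/-- Six discrete logarithms. -/
abbrev T6 : Type := ZMod 6 × ZMod 6 × ZMod 6 × ZMod 6 × ZMod 6 × ZMod 6

/-- The images of 1 and of the thirty fundamental elements. -/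
def Fl : List T6 :=
  [(0, 0, 0, 0, 0, 0), (1, 2, 4, 5, 5, 3), (1, 2, 5, 4, 3, 3), (1, 3, 2, 5, 5, 4),
   (1, 3, 5, 2, 4, 4), (1, 4, 3, 5, 5, 2), (1, 4, 5, 3, 2, 2), (2, 1, 4, 5, 4, 5),
   (2, 1, 5, 4, 2, 5), (2, 2, 2, 2, 1, 4), (2, 2, 2, 2, 5, 3), (2, 5, 1, 3, 2, 1),
   (2, 5, 3, 1, 3, 1), (3, 1, 2, 5, 2, 5), (3, 1, 5, 2, 3, 5), (3, 3, 3, 3, 1, 2),
   (3, 3, 3, 3, 5, 4), (3, 5, 1, 4, 3, 1), (3, 5, 4, 1, 4, 1), (4, 1, 3, 5, 3, 5),
   (4, 1, 5, 3, 4, 5), (4, 4, 4, 4, 1, 3), (4, 4, 4, 4, 5, 2), (4, 5, 1, 2, 4, 1),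
   (4, 5, 2, 1, 2, 1), (5, 2, 1, 3, 4, 4), (5, 2, 3, 1, 1, 4), (5, 3, 1, 4, 2, 2),
   (5, 3, 4, 1, 1, 2), (5, 4, 1, 2, 3, 3), (5, 4, 2, 1, 1, 3)]

attribute [local instance 2000] List.decidableBAll

set_option synthInstance.maxSize 4000

theorem fl_one : (0 : T6) ∈ Fl := by decide +kernel
theorem fl_inv : ∀ a ∈ Fl, -a ∈ Fl := by decide +kernel
theorem fl_t2 : ∀ a ∈ Fl, a + a = 0 → a = 0 := by decide +kernel
theorem fl_k4 : ∀ g ∈ Fl, ∀ h ∈ Fl, g + -h ∈ Fl → ∀ y ∈ Fl, y + h ∈ Fl → g + -y ∈ Fl →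
    g + -(y + h) ∈ Fl → g = 0 ∨ h = 0 ∨ y = 0 ∨ g = y + h := by decide +kernel
theorem fl_cl : ∀ a ∈ Fl, ∀ b ∈ Fl, a + -b ∈ Fl → ∀ c ∈ Fl, a + -c ∈ Fl → b + -c ∈ Fl →
    a = 0 ∨ b = 0 ∨ c = 0 ∨ a = b ∨ a = c ∨ b = c := by decide +kernel
theorem fl_sep : ∀ b ∈ Fl, b ≠ 0 → ∀ s ∈ Fl, s + -b ∈ Fl → ∀ t ∈ Fl, t + -b ∈ Fl →
    s + -t ∉ Fl → ∀ r ∈ Fl, s + -r ∈ Fl → t + -r ∈ Fl → r = 0 ∨ r = b := by decide +kernel
theorem fl_z3 : ∀ x ∈ Fl, ∀ a ∈ Fl, a ≠ 0 → x + a ∈ Fl → ∀ b ∈ Fl, b ≠ 0 → x + b ∈ Fl →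
    x + a + b ∈ Fl → ∀ c ∈ Fl, c ≠ 0 → x + c ∈ Fl → x + a + c ∈ Fl → x + b + c ∈ Fl →
    x + a + b + c ∈ Fl →
    x + x + a + b + c = 0 ∧ (x = 0 ∨ x + a = 0 ∨ x + b = 0 ∨ x + c = 0) := by decide +kernel

/-- The admissible gains in the finite quotient. -/
def FT : Set (Multiplicative T6) := {a | Multiplicative.toAdd a ∈ Fl}

theorem pf_FT : PF FT := ⟨fl_one, fl_inv, fl_t2, fl_k4, fl_cl, fl_sep, fl_z3⟩

instance : Fact (Nat.Prime 7) := ⟨by norm_num⟩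

/-- Integer polynomials as rational functions. -/
noncomputable def io : MvPolynomial (Fin 2) ℤ →+* K2 :=
  (algebraMap (MvPolynomial (Fin 2) ℚ) K2).comp (MvPolynomial.map (Int.castRingHom ℚ))

theorem io_inj : Function.Injective io :=
  (FaithfulSMul.algebraMap_injective (MvPolynomial (Fin 2) ℚ) K2).comp
    (MvPolynomial.map_injective _ (RingHom.injective_int _))

/-- Evaluation at a point over the field with seven elements. -/
noncomputable def e7 (a b : ZMod 7) : MvPolynomial (Fin 2) ℤ →+* ZMod 7 :=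
  MvPolynomial.eval₂Hom (Int.castRingHom _) ![a, b]

/-- The rational function `x` has the value `z` at `(a, b)`. -/
def V7 (a b : ZMod 7) (x : K2) (z : ZMod 7) : Prop :=
  ∃ P Q : MvPolynomial (Fin 2) ℤ, e7 a b Q ≠ 0 ∧ x * io Q = io P ∧ z * e7 a b Q = e7 a b P

variable {a b : ZMod 7}

theorem V7.poly (P : MvPolynomial (Fin 2) ℤ) : V7 a b (io P) (e7 a b P) :=
  ⟨P, 1, by simp, by simp, by simp⟩

theorem V7.one : V7 a b 1 1 := by simpa using V7.poly (a := a) (b := b) 1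

theorem V7.al : V7 a b al a := by
  simpa [e7, io, MP_10bdcf_co.al] using V7.poly (a := a) (b := b) (MvPolynomial.X 0)

theorem V7.be : V7 a b be b := by
  simpa [e7, io, MP_10bdcf_co.be] using V7.poly (a := a) (b := b) (MvPolynomial.X 1)

theorem V7.add {x y : K2} {z w : ZMod 7} (h : V7 a b x z) (h' : V7 a b y w) :
    V7 a b (x + y) (z + w) := by
  obtain ⟨P, Q, h1, h2, h3⟩ := h
  obtain ⟨P', Q', h1', h2', h3'⟩ := h'
  refine ⟨P * Q' + P' * Q, Q * Q', by simp [h1, h1'], ?_, ?_⟩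
  · simp only [map_mul, map_add, ← h2, ← h2']; ring
  · simp only [map_mul, map_add, ← h3, ← h3']; ring

theorem V7.mul {x y : K2} {z w : ZMod 7} (h : V7 a b x z) (h' : V7 a b y w) :
    V7 a b (x * y) (z * w) := by
  obtain ⟨P, Q, h1, h2, h3⟩ := h
  obtain ⟨P', Q', h1', h2', h3'⟩ := h'
  refine ⟨P * P', Q * Q', by simp [h1, h1'], ?_, ?_⟩
  · simp only [map_mul, ← h2, ← h2']; ring
  · simp only [map_mul, ← h3, ← h3']; ring

theorem V7.neg {x : K2} {z : ZMod 7} (h : V7 a b x z) : V7 a b (-x) (-z) := by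
  obtain ⟨P, Q, h1, h2, h3⟩ := h
  refine ⟨-P, Q, h1, ?_, ?_⟩
  · simp only [map_neg, ← h2]; ring
  · simp only [map_neg, ← h3]; ring

theorem V7.sub {x y : K2} {z w : ZMod 7} (h : V7 a b x z) (h' : V7 a b y w) :
    V7 a b (x - y) (z - w) := by
  simpa [sub_eq_add_neg] using h.add h'.neg

theorem V7.inv {x : K2} {z : ZMod 7} (h : V7 a b x z) (hz : z ≠ 0) : V7 a b x⁻¹ z⁻¹ := by
  obtain ⟨P, Q, h1, h2, h3⟩ := h
  have hP : e7 a b P ≠ 0 := by rw [← h3]; exact mul_ne_zero hz h1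
  have hx : x ≠ 0 := by
    rintro rfl
    rw [zero_mul, eq_comm, map_eq_zero_iff _ io_inj] at h2
    simp [h2] at hP
  refine ⟨Q, P, hP, ?_, ?_⟩
  · rw [← h2]; field_simp
  · rw [← h3]; field_simp

theorem V7.unique {x : K2} {z w : ZMod 7} (h : V7 a b x z) (h' : V7 a b x w) : z = w := by
  obtain ⟨P, Q, h1, h2, h3⟩ := h
  obtain ⟨P', Q', h1', h2', h3'⟩ := h'
  have e : P * Q' = P' * Q := by
    apply io_inj
    simp only [map_mul, ← h2, ← h2']; ring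
  have e' := congrArg (e7 a b) e
  simp only [map_mul, ← h3, ← h3'] at e'
  have : (z - w) * (e7 a b Q * e7 a b Q') = 0 := by linear_combination e'
  rcases mul_eq_zero.mp this with h | h
  · exact sub_eq_zero.mp h
  · exact absurd h (mul_ne_zero h1 h1')

/-- Powers of the primitive root 3. -/
def ex (k : ZMod 6) : ZMod 7 := 3 ^ k.val

/-- A linear form on `T6`. -/
def dot (c t : T6) : ZMod 6 :=
  c.1 * t.1 + c.2.1 * t.2.1 + c.2.2.1 * t.2.2.1 + c.2.2.2.1 * t.2.2.2.1 +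
    c.2.2.2.2.1 * t.2.2.2.2.1 + c.2.2.2.2.2 * t.2.2.2.2.2

/-- The points used, with the logarithm of the value as a linear form. -/
def hl : List (ZMod 7 × ZMod 7 × T6) :=
  [(2, 3, (1, 0, 0, 0, 0, 0)), (2, 4, (0, 1, 0, 0, 0, 0)), (2, 5, (0, 0, 1, 0, 0, 0)),
   (2, 6, (0, 0, 0, 1, 0, 0)), (3, 2, (0, 0, 0, 0, 1, 0)), (4, 2, (0, 0, 0, 0, 0, 1)),
   (3, 4, (4, 0, 3, 1, 5, 4)), (6, 4, (3, 3, 5, 4, 5, 1)), (3, 6, (3, 1, 0, 2, 1, 0)),
   (5, 3, (2, 1, 0, 3, 5, 0)), (4, 3, (0, 3, 2, 3, 4, 5))]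

/-- `t` is the vector of logarithms of `x`. -/
def Rl (x : K2) (t : T6) : Prop :=
  dot (2, 2, 4, 4, 0, 0) t = 0 ∧ ∀ h ∈ hl, V7 h.1 h.2.1 x (ex (dot h.2.2 t))

theorem dot_add (c s t : T6) : dot c (s + t) = dot c s + dot c t := by
  simp only [dot, Prod.fst_add, Prod.snd_add]; ring

theorem dot_neg (c t : T6) : dot c (-t) = -dot c t := by
  simp only [dot, Prod.fst_neg, Prod.snd_neg]; ring

theorem ex_add : ∀ k l, ex (k + l) = ex k * ex l := by decide +kernel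
theorem ex_neg : ∀ k, ex k ≠ 0 ∧ ex (-k) * ex k = 1 := by decide +kernel
theorem ex_inj : ∀ k l, ex k = ex l → k = l := by decide +kernel

/-- The Zech logarithm. -/
def zl (k : ZMod 6) : ZMod 6 :=
  if k = 1 then 5 else if k = 2 then 3 else if k = 3 then 2 else if k = 4 then 4 else 1

theorem ex_zl : ∀ k l, ex k + ex l = 1 → k ∈ [1, 2, 3, 4, 5] ∧ l = zl k := by decide +kernel

theorem Rl.mul {x y : K2} {s t : T6} (h : Rl x s) (h' : Rl y t) : Rl (x * y) (s + t) :=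
  ⟨by rw [dot_add, h.1, h'.1, add_zero], fun k hk => by
    rw [dot_add, ex_add]; exact (h.2 k hk).mul (h'.2 k hk)⟩

theorem Rl.inv {x : K2} {t : T6} (h : Rl x t) : Rl x⁻¹ (-t) :=
  ⟨by rw [dot_neg, h.1, neg_zero], fun k hk => by
    rw [dot_neg, eq_inv_of_mul_eq_one_left (ex_neg _).2]; exact (h.2 k hk).inv (ex_neg _).1⟩

theorem Rl.of {x : K2} {t : T6} (f : ZMod 7 → ZMod 7 → ZMod 7) (hf : ∀ a b, V7 a b x (f a b))
    (h0 : dot (2, 2, 4, 4, 0, 0) t = 0) (h : ∀ k ∈ hl, ex (dot k.2.2 t) = f k.1 k.2.1) : Rl x t :=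
  ⟨h0, fun k hk => h k hk ▸ hf _ _⟩

theorem rl_one : Rl 1 0 := Rl.of (fun _ _ => 1) (fun _ _ => V7.one) (by decide) (by decide +kernel)
theorem rl_neg : Rl (-1) (3, 3, 3, 3, 3, 3) :=
  Rl.of (fun _ _ => -1) (fun _ _ => V7.one.neg) (by decide) (by decide +kernel)
theorem rl_al : Rl al (2, 2, 2, 2, 1, 4) :=
  Rl.of (fun a _ => a) (fun _ _ => V7.al) (by decide) (by decide +kernel)
theorem rl_be : Rl be (1, 4, 5, 3, 2, 2) :=
  Rl.of (fun _ b => b) (fun _ _ => V7.be) (by decide) (by decide +kernel)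
theorem rl_al1 : Rl (al - 1) (0, 0, 0, 0, 2, 1) :=
  Rl.of (fun a _ => a - 1) (fun _ _ => V7.al.sub V7.one) (by decide) (by decide +kernel)
theorem rl_be1 : Rl (be - 1) (2, 1, 4, 5, 0, 0) :=
  Rl.of (fun _ b => b - 1) (fun _ _ => V7.be.sub V7.one) (by decide) (by decide +kernel)
theorem rl_ab : Rl (al - be) (3, 5, 4, 1, 0, 2) :=
  Rl.of (fun a b => a - b) (fun _ _ => V7.al.sub V7.be) (by decide) (by decide +kernel)

theorem exists_rl {g : K2ˣ} (hg : g ∈ G2) : ∃ t, Rl (g : K2) t := by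
  have sw : ∀ x y : K2, (∃ t, Rl (x - y) t) → ∃ t, Rl (y - x) t := fun x y ⟨t, ht⟩ =>
    ⟨_, by simpa using rl_neg.mul ht⟩
  have d1 : ∃ t, Rl (1 - 0) t := ⟨_, by simpa using rl_one⟩
  have d2 : ∃ t, Rl (al - 0) t := ⟨_, by simpa using rl_al⟩
  have d3 : ∃ t, Rl (be - 0) t := ⟨_, by simpa using rl_be⟩
  have d4 : ∃ t, Rl (al - 1) t := ⟨_, rl_al1⟩
  have d5 : ∃ t, Rl (be - 1) t := ⟨_, rl_be1⟩
  have d6 : ∃ t, Rl (al - be) t := ⟨_, rl_ab⟩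
  induction hg using Subgroup.closure_induction with
  | mem u hu =>
    rcases hu with hu | ⟨x, hx, y, hy, hxy, hu⟩
    · exact ⟨_, hu ▸ rl_neg⟩
    · rw [hu]
      simp only [Set.mem_insert_iff, Set.mem_singleton_iff] at hx hy
      rcases hx with rfl | rfl | rfl | rfl <;> rcases hy with rfl | rfl | rfl | rfl <;>
        first | exact absurd rfl hxy | assumption | (apply sw; assumption)
  | one => exact ⟨_, rl_one⟩
  | mul x y _ _ hx hy =>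
    obtain ⟨s, hs⟩ := hx
    obtain ⟨t, ht⟩ := hy
    exact ⟨_, hs.mul ht⟩
  | inv x _ hx =>
    obtain ⟨t, ht⟩ := hx
    exact ⟨_, by simpa using ht.inv⟩

theorem Rl.unique {x : K2} {s t : T6} (h : Rl x s) (h' : Rl x t) : s = t := by
  have k : ∀ c ∈ hl, dot c.2.2 s = dot c.2.2 t := fun c hc =>
    ex_inj _ _ ((h.2 c hc).unique (h'.2 c hc))
  obtain ⟨s1, s2, s3, s4, s5, s6⟩ := s
  obtain ⟨t1, t2, t3, t4, t5, t6⟩ := t
  simp only [hl, List.forall_mem_cons, dot, one_mul, zero_mul, add_zero, zero_add] at k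
  obtain ⟨rfl, rfl, rfl, rfl, rfl, rfl, -⟩ := k
  rfl

theorem fund_check : ∀ s1 ∈ ([1, 2, 3, 4, 5] : List (ZMod 6)), ∀ s2 ∈ ([1, 2, 3, 4, 5] : List (ZMod 6)),
    ∀ s3 ∈ ([1, 2, 3, 4, 5] : List (ZMod 6)), ∀ s4 ∈ ([1, 2, 3, 4, 5] : List (ZMod 6)),
    2 * s1 + 2 * s2 + 4 * s3 + 4 * s4 = 0 → 2 * zl s1 + 2 * zl s2 + 4 * zl s3 + 4 * zl s4 = 0 →
    ∀ s5 ∈ ([1, 2, 3, 4, 5] : List (ZMod 6)), ∀ s6 ∈ ([1, 2, 3, 4, 5] : List (ZMod 6)),
    (∀ h ∈ hl.drop 6, ex (dot h.2.2 (s1, s2, s3, s4, s5, s6)) +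
      ex (dot h.2.2 (zl s1, zl s2, zl s3, zl s4, zl s5, zl s6)) = 1) →
    (s1, s2, s3, s4, s5, s6) ∈ Fl ∧ s1 ≠ 0 := by decide +kernel

theorem Rl.fund {x y : K2} {s t : T6} (h : Rl x s) (h' : Rl y t) (hxy : x + y = 1) :
    s ∈ Fl ∧ s ≠ 0 := by
  have k : ∀ c ∈ hl, ex (dot c.2.2 s) + ex (dot c.2.2 t) = 1 := fun c hc =>
    ((h.2 c hc).add (h'.2 c hc)).unique (hxy ▸ V7.one)
  have k' : ∀ c ∈ hl.drop 6, ex (dot c.2.2 s) + ex (dot c.2.2 t) = 1 := fun c hc =>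
    k c (List.mem_of_mem_drop hc)
  have r1 := h.1
  have r2 := h'.1
  obtain ⟨s1, s2, s3, s4, s5, s6⟩ := s
  obtain ⟨t1, t2, t3, t4, t5, t6⟩ := t
  simp only [hl, List.forall_mem_cons, dot, one_mul, zero_mul, add_zero, zero_add] at k r1 r2
  obtain ⟨k1, k2, k3, k4, k5, k6, -⟩ := k
  obtain ⟨m1, rfl⟩ := ex_zl _ _ k1
  obtain ⟨m2, rfl⟩ := ex_zl _ _ k2
  obtain ⟨m3, rfl⟩ := ex_zl _ _ k3
  obtain ⟨m4, rfl⟩ := ex_zl _ _ k4
  obtain ⟨m5, rfl⟩ := ex_zl _ _ k5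
  obtain ⟨m6, rfl⟩ := ex_zl _ _ k6
  obtain ⟨e1, e2⟩ := fund_check _ m1 _ m2 _ m3 _ m4 r1 r2 _ m5 _ m6 k'
  exact ⟨e1, fun e => e2 (congrArg Prod.fst e)⟩

/-- The homomorphism from G_2 to the finite quotient. -/
noncomputable def psi : G2 →* Multiplicative T6 :=
  MonoidHom.mk' (fun g => Multiplicative.ofAdd (exists_rl g.2).choose) fun g h =>
    (exists_rl (g * h).2).choose_spec.unique
      ((exists_rl g.2).choose_spec.mul (exists_rl h.2).choose_spec)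

theorem psi_fund {g h : G2} (hgh : ((g : K2ˣ) : K2) + ((h : K2ˣ) : K2) = 1) :
    psi g ∈ FT ∧ psi g ≠ 1 :=
  (exists_rl g.2).choose_spec.fund (exists_rl h.2).choose_spec hgh

/-- Lifting of gain graphs over G_2 whose unbalanced cycles have fundamental gains. -/
theorem exists_lift {V Γ : Type} [LinearOrder V] [Fintype V] [Group Γ] {G : Set Γ} (hG : PG G)
    (D : V → V → G2 → Prop) (hs : Sym D) (hne : ∀ x y a, D x y a → x ≠ y)
    (hV : ∀ u l, Cy D u l → gn l = 1 ∨ ∃ h : G2, ((gn l : G2) : K2ˣ) + ((h : K2ˣ) : K2) = 1) :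
    ∃ L : V → V → G2 → Γ, Good G D L := by
  let D' : V → V → Multiplicative T6 → Prop := fun x y b => ∃ a, D x y a ∧ psi a = b
  have pull : ∀ l x y, Wk D' x l y → ∃ m, Wk D x m y ∧ vs m = vs l ∧ psi (gn m) = gn l := by
    intro l
    induction l with
    | nil => intro x y h; exact ⟨[], h, rfl, by simp⟩
    | cons s l ih =>
      rintro x y ⟨⟨a, ha, e⟩, h⟩
      obtain ⟨m, h1, h2, h3⟩ := ih _ _ h
      exact ⟨(s.1, a) :: m, ⟨ha, h1⟩, by simp [h2], by simp [h3, e]⟩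
  obtain ⟨L, hL⟩ := exists_good pf_FT hG Finset.univ D'
    ⟨fun x y b ⟨a, ha, e⟩ => ⟨a⁻¹, hs _ _ _ ha, by simp [e]⟩,
      fun x y b ⟨a, ha, _⟩ => hne _ _ _ ha, fun _ _ _ _ => Finset.mem_univ _⟩
    (fun u l hl => by
      obtain ⟨m, h1, h2, h3⟩ := pull l u u hl.1
      rcases hV u m ⟨h1, h2 ▸ hl.2⟩ with h | ⟨h, hh⟩
      · rw [← h3, h, map_one]; exact pf_FT.one
      · rw [← h3]; exact (psi_fund hh).1)
  have push : ∀ l x y, Wk D x l y → ∃ m, Wk D' x m y ∧ vs m = vs l ∧ psi (gn l) = gn m ∧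
      lf L x m = lf (fun x y a => L x y (psi a)) x l := by
    intro l
    induction l with
    | nil => intro x y h; exact ⟨[], h, rfl, by simp, rfl⟩
    | cons s l ih =>
      rintro x y ⟨ha, h⟩
      obtain ⟨m, h1, h2, h3, h4⟩ := ih _ _ h
      exact ⟨(s.1, psi s.2) :: m, ⟨⟨_, ha, rfl⟩, h1⟩, by simp [h2], by simp [h3], by simp [h4]⟩
  refine ⟨fun x y a => L x y (psi a), fun x y a h => by
    simp only [map_inv]; exact hL.1 _ _ _ ⟨a, h, rfl⟩, fun u l hl => ?_⟩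
  obtain ⟨m, h1, h2, h3, h4⟩ := push l u u hl.1
  have := hL.2 u m ⟨h1, h2 ▸ hl.2⟩
  rw [h4, ← h3] at this
  refine ⟨fun e => this.1 (by rw [e, map_one]), fun e => this.2 ?_⟩
  obtain ⟨h, hh⟩ := (hV u l hl).resolve_left e
  exact (psi_fund hh).2

end Pool.Agent.Lib.MP_10bdcf_co.Fr
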