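import Pool.Agent.Lib.MP_10bdcf_co.FrT

/-!
The lifting theorem for gain graphs.
-/

namespace Pool.Agent.Lib.MP_10bdcf_co.Fr

variable {V A Γ : Type} [CommGroup A] [Group Γ] {F : Set A} {G : Set Γ}

theorem PF.sep' (hF : PF F) {b1 b2 r s t : A} (h12 : b2 ≠ b1) (hb : b2 * b1⁻¹ ∈ F)
    (hr : r * b1⁻¹ ∈ F) (s1 : s * b1⁻¹ ∈ F) (s2 : s * b2⁻¹ ∈ F) (s3 : s * r⁻¹ ∈ F)
    (t1 : t * b1⁻¹ ∈ F) (t2 : t * b2⁻¹ ∈ F) (t3 : t * r⁻¹ ∈ F) (hst : s * t⁻¹ ∉ F) :
    r = b1 ∨ r = b2 := by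
  have e : ∀ a b : A, a * b1⁻¹ * (b * b1⁻¹)⁻¹ = a * b⁻¹ := fun a b => by group
  have := hF.sep _ hb (by simpa [mul_inv_eq_one] using h12) _ s1 (by rwa [e]) _ t1 (by rwa [e])
    (by rwa [e]) _ hr (by rwa [e]) (by rwa [e])
  simpa [mul_inv_eq_one] using this

theorem PF.z3' (hF : PF F) {a1 b1 a2 b2 a3 b3 r : A} (n1 : b1 ≠ a1) (n2 : b2 ≠ a2) (n3 : b3 ≠ a3)
    (f1 : b1 * a1⁻¹ ∈ F) (f2 : b2 * a2⁻¹ ∈ F) (f3 : b3 * a3⁻¹ ∈ F)
    (h : ∀ c1 c2 c3, (c1 = a1 ∨ c1 = b1) → (c2 = a2 ∨ c2 = b2) → (c3 = a3 ∨ c3 = b3) →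
      c1 * c2 * c3 * r ∈ F) :
    a1 * a2 * a3 * r * (b1 * b2 * b3 * r) = 1 ∧
      (a1 * a2 * a3 * r = 1 ∨ b1 * a2 * a3 * r = 1 ∨ a1 * b2 * a3 * r = 1 ∨
        a1 * a2 * b3 * r = 1) := by
  have cg : ∀ {a b : A}, a ∈ F → a = b → b ∈ F := fun h e => e ▸ h
  have e1 : a1 * a2 * a3 * r * (b1 * a1⁻¹) = b1 * a2 * a3 * r := by
    apply Additive.ofMul.injective; simp only [ofMul_mul, ofMul_inv]; abel
  have e2 : a1 * a2 * a3 * r * (b2 * a2⁻¹) = a1 * b2 * a3 * r := by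
    apply Additive.ofMul.injective; simp only [ofMul_mul, ofMul_inv]; abel
  have e3 : a1 * a2 * a3 * r * (b3 * a3⁻¹) = a1 * a2 * b3 * r := by
    apply Additive.ofMul.injective; simp only [ofMul_mul, ofMul_inv]; abel
  have := hF.z3 _ (h a1 a2 a3 (by simp) (by simp) (by simp)) _ f1
    (by simpa [mul_inv_eq_one] using n1) (cg (h b1 a2 a3 (by simp) (by simp) (by simp)) e1.symm)
    _ f2 (by simpa [mul_inv_eq_one] using n2)
    (cg (h a1 b2 a3 (by simp) (by simp) (by simp)) e2.symm)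
    (cg (h b1 b2 a3 (by simp) (by simp) (by simp))
      (by apply Additive.ofMul.injective; simp only [ofMul_mul, ofMul_inv]; abel))
    _ f3 (by simpa [mul_inv_eq_one] using n3)
    (cg (h a1 a2 b3 (by simp) (by simp) (by simp)) e3.symm)
    (cg (h b1 a2 b3 (by simp) (by simp) (by simp))
      (by apply Additive.ofMul.injective; simp only [ofMul_mul, ofMul_inv]; abel))
    (cg (h a1 b2 b3 (by simp) (by simp) (by simp))
      (by apply Additive.ofMul.injective; simp only [ofMul_mul, ofMul_inv]; abel))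
    (cg (h b1 b2 b3 (by simp) (by simp) (by simp))
      (by apply Additive.ofMul.injective; simp only [ofMul_mul, ofMul_inv]; abel))
  rw [e1, e2, e3] at this
  refine ⟨?_, this.2⟩
  rw [← this.1]
  apply Additive.ofMul.injective; simp only [ofMul_mul, ofMul_inv]; abel

theorem Valid.par {W : Finset V} {D : V → V → A → Prop} (hD : Gr W D) (hV : Valid F D) {x y : V}
    {a b : A} (ha : D x y a) (hb : D x y b) : a * b⁻¹ ∈ F := by
  simpa using hV.edge hD.sym (Pth.single ha (hD.ne _ _ _ ha)) hb (hD.ne _ _ _ ha)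

theorem short_of_mates (hF : PF F) {W : Finset V} {D : V → V → A → Prop} (hD : Gr W D)
    (hV : Valid F D) (hM : ∀ x y a, D x y a → ∃ b, b ≠ a ∧ D x y b) {x : V} {l : List (V × A)}
    (hl : Cy D x l) : l.length ≤ 3 := by
  by_contra h0
  obtain _ | ⟨⟨y1, a1⟩, _ | ⟨⟨y2, a2⟩, _ | ⟨⟨y3, a3⟩, _ | ⟨⟨y4, a4⟩, r⟩⟩⟩⟩ := l
  any_goals simp at h0
  obtain ⟨⟨k1, k2, k3, k4, k5⟩, hn⟩ := hl
  obtain ⟨b1, n1, j1⟩ := hM _ _ _ k1
  obtain ⟨b2, n2, j2⟩ := hM _ _ _ k2
  obtain ⟨b3, n3, j3⟩ := hM _ _ _ k3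
  obtain ⟨b4, n4, j4⟩ := hM _ _ _ k4
  have gen : ∀ c4, D y3 y4 c4 → a1 * a2 * a3 * (c4 * gn r) * (b1 * b2 * b3 * (c4 * gn r)) = 1 := by
    intro c4 h4
    refine (hF.z3' n1 n2 n3 (hV.par hD j1 k1) (hV.par hD j2 k2) (hV.par hD j3 k3)
      fun c1 c2 c3 h1 h2 h3 => ?_).1
    have := hV x ((y1, c1) :: (y2, c2) :: (y3, c3) :: (y4, c4) :: r)
      ⟨⟨by rcases h1 with rfl | rfl <;> assumption, by rcases h2 with rfl | rfl <;> assumption,
        by rcases h3 with rfl | rfl <;> assumption, h4, k5⟩, hn⟩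
    simpa [mul_assoc] using this
  apply n4
  have := hF.t2 _ (hV.par hD j4 k4) (by
    rw [← mul_inv_eq_one.2 ((gen _ j4).trans (gen _ k4).symm)]
    apply Additive.ofMul.injective; simp only [ofMul_mul, ofMul_inv]; abel)
  exact mul_inv_eq_one.1 this

theorem good_digon [LinearOrder V] (hF : PF F) (hG : PG G) {W : Finset V}
    {D : V → V → A → Prop} (hD : Gr W D) (hV : Valid F D)
    (h2 : ∀ x l, Cy D x l → l.length ≤ 2) : ∃ L : V → V → A → Γ, Good G D L := by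
  choose f hf using fun x y : V =>
    clq_lab hF hG (T := {a | D x y a}) fun s hs t ht => hV.par hD hs ht
  refine ⟨fun x y a => if x < y then f x y a else (f y x a⁻¹)⁻¹, fun x y a h => ?_,
    fun x l hl => ?_⟩
  · rcases lt_or_gt_of_ne (hD.ne _ _ _ h) with k | k
    · simp [k, not_lt.2 k.le]
    · simp [k, not_lt.2 k.le]
  · have h3 := h2 x l hl
    obtain _ | ⟨⟨y, a⟩, _ | ⟨⟨z, b⟩, _ | ⟨s, r⟩⟩⟩ := l
    · exact ok_one
    · exact absurd hl.1.2.symm (hD.ne _ _ _ hl.1.1)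
    · obtain ⟨⟨k1, k2, k3⟩, -⟩ := hl
      obtain rfl : z = x := k3
      have key : ∀ u v c d, D u v c → D u v d → Ok G (c * d⁻¹) (f u v c * (f u v d)⁻¹) :=
        fun u v c d hc hd => ⟨fun e => by rw [mul_inv_eq_one.1 e]; simp,
          fun e => hf u v c hc d hd fun e' => e (by simp [e'])⟩
      rcases lt_or_gt_of_ne (hD.ne _ _ _ k1) with k | k
      · simpa [k, not_lt.2 k.le] using key _ _ _ _ k1 (hD.sym _ _ _ k2)
      · have := (key _ _ _ _ k2 (hD.sym _ _ _ k1)).conj hG (f y z a⁻¹)⁻¹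
        refine this.congr (by simp [mul_comm]) ?_
        simp only [lf_cons, lf_nil, k, not_lt.2 k.le, if_true, if_false]
        group
    · simp at h3

theorem good_tri [DecidableEq V] (hF : PF F) (hG : PG G) {W : Finset V} {D : V → V → A → Prop}
    (hD : Gr W D) (hV : Valid F D) {x y z : V} (hW : ∀ w ∈ W, w = x ∨ w = y ∨ w = z)
    {a1 b1 a2 b2 a3 b3 : A} (k1 : D x y a1) (j1 : D x y b1) (k2 : D y z a2) (j2 : D y z b2)
    (k3 : D z x a3) (j3 : D z x b3) (n1 : b1 ≠ a1) (n2 : b2 ≠ a2) (n3 : b3 ≠ a3)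
    (ha : a1 * a2 * a3 = 1) : ∃ L : V → V → A → Γ, Good G D L := by
  classical
  have hxy := hD.ne _ _ _ k1
  have hyz := hD.ne _ _ _ k2
  have hzx := hD.ne _ _ _ k3
  have gen : ∀ c1 c2 c3, D x y c1 → D y z c2 → D z x c3 → c1 ≠ a1 → c2 ≠ a2 → c3 ≠ a3 →
      c1 * c2 * c3 = 1 := by
    intro c1 c2 c3 i1 i2 i3 m1 m2 m3
    have := (hF.z3' (r := 1) m1 m2 m3 (hV.par hD i1 k1) (hV.par hD i2 k2) (hV.par hD i3 k3)
      fun d1 d2 d3 h1 h2 h3 => by
        have := hV x [(y, d1), (z, d2), (x, d3)]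
          ⟨⟨by rcases h1 with rfl | rfl <;> assumption, by rcases h2 with rfl | rfl <;> assumption,
            by rcases h3 with rfl | rfl <;> assumption, rfl⟩, by simp [hyz, hxy.symm, hzx]⟩
        simpa [mul_assoc] using this).1
    simpa [ha] using this
  have hb := gen _ _ _ j1 j2 j3 n1 n2 n3
  have c1 : ∀ c, D x y c → c = a1 ∨ c = b1 := fun c hc => by
    by_cases h : c = a1
    · exact Or.inl h
    · exact Or.inr (by simpa using (gen _ _ _ hc j2 j3 h n2 n3).trans hb.symm)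
  have c2 : ∀ c, D y z c → c = a2 ∨ c = b2 := fun c hc => by
    by_cases h : c = a2
    · exact Or.inl h
    · exact Or.inr (by simpa using (gen _ _ _ j1 hc j3 n1 h n3).trans hb.symm)
  have c3 : ∀ c, D z x c → c = a3 ∨ c = b3 := fun c hc => by
    by_cases h : c = a3
    · exact Or.inl h
    · exact Or.inr (by simpa using (gen _ _ _ j1 j2 hc n1 n2 h).trans hb.symm)
  obtain ⟨p, hp, q, hq, hpq⟩ := hG.ex
  set f1 : A → Γ := fun c => if c = a1 then 1 else p with hf1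
  set f2 : A → Γ := fun c => if c = a2 then 1 else q⁻¹ with hf2
  set f3 : A → Γ := fun c => if c = a3 then 1 else q * p⁻¹ with hf3
  have hq' := hG.inv _ hq
  have hp' := hG.inv _ hp
  have hqp : q * p⁻¹ ∈ G := by simpa using hG.inv _ hpq
  set L : V → V → A → Γ := fun s t c =>
    if s = x then (if t = y then f1 c else (f3 c⁻¹)⁻¹)
    else if s = y then (if t = z then f2 c else (f1 c⁻¹)⁻¹)
    else (if t = x then f3 c else (f2 c⁻¹)⁻¹) with hL
  have L1 : ∀ c, L x y c = f1 c := fun c => by simp [hL]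
  have L2 : ∀ c, L y z c = f2 c := fun c => by simp [hL, hxy.symm]
  have L3 : ∀ c, L z x c = f3 c := fun c => by simp [hL, hzx, hyz.symm]
  have L4 : ∀ c, L y x c = (f1 c⁻¹)⁻¹ := fun c => by simp [hL, hxy.symm, hzx.symm]
  have L5 : ∀ c, L z y c = (f2 c⁻¹)⁻¹ := fun c => by simp [hL, hzx, hyz.symm, hxy.symm]
  have L6 : ∀ c, L x z c = (f3 c⁻¹)⁻¹ := fun c => by simp [hL, hyz.symm]
  have hinv : InvC D L := by
    intro s t c h
    have hst := hD.ne _ _ _ h
    rcases hW s (hD.mem _ _ _ h) with rfl | rfl | rfl <;>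
      rcases hW t (hD.mem _ _ _ (hD.sym _ _ _ h)) with rfl | rfl | rfl <;>
      first | exact absurd rfl hst | simp only [L1, L2, L3, L4, L5, L6, inv_inv]
  have dig : ∀ (a b : A) (r : Γ), r ∈ G → ∀ c d, (c = a ∨ c = b) → (d = a ∨ d = b) →
      Ok G (c * d⁻¹) ((if c = a then 1 else r) * (if d = a then 1 else r)⁻¹) := by
    intro a b r hr c d hc hd
    refine ⟨fun e => by rw [mul_inv_eq_one.1 e]; simp, fun e => ?_⟩
    have e' : c ≠ d := fun e' => e (by simp [e'])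
    by_cases h1 : c = a
    · have h2 : d ≠ a := fun h2 => e' (h1.trans h2.symm)
      simpa [h1, h2] using hG.inv _ hr
    · have h2 : d = a := by
        rcases hd with h | h
        · exact h
        · exact absurd ((hc.resolve_left h1).trans h.symm) e'
      simpa [h1, h2] using hr
  have tri : ∀ d1 d2 d3, D x y d1 → D y z d2 → D z x d3 →
      Ok G (d1 * d2 * d3) (f1 d1 * f2 d2 * f3 d3) := by
    intro d1 d2 d3 i1 i2 i3
    have u1 : ∀ d, d * a2 * a3 = 1 → d = a1 := fun d h => by simpa using h.trans ha.symm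
    have u2 : ∀ d, a1 * d * a3 = 1 → d = a2 := fun d h => by simpa using h.trans ha.symm
    have u3 : ∀ d, a1 * a2 * d = 1 → d = a3 := fun d h => by simpa using h.trans ha.symm
    have v1 : ∀ d, d * b2 * b3 = 1 → d = b1 := fun d h => by simpa using h.trans hb.symm
    have v2 : ∀ d, b1 * d * b3 = 1 → d = b2 := fun d h => by simpa using h.trans hb.symm
    have v3 : ∀ d, b1 * b2 * d = 1 → d = b3 := fun d h => by simpa using h.trans hb.symm
    rcases c1 _ i1 with rfl | rfl <;> rcases c2 _ i2 with rfl | rfl <;>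
      rcases c3 _ i3 with rfl | rfl <;> simp only [hf1, hf2, hf3, n1, n2, n3, if_true, if_false]
    · exact ⟨fun _ => by simp, fun h => absurd ha h⟩
    · exact ⟨fun h => absurd (u3 _ h) n3, fun _ => by simpa using hqp⟩
    · exact ⟨fun h => absurd (u2 _ h) n2, fun _ => by simpa using hq'⟩
    · exact ⟨fun h => absurd (v1 _ h).symm n1, fun _ => by simpa using hp'⟩
    · exact ⟨fun h => absurd (u1 _ h) n1, fun _ => by simpa using hp⟩
    · refine ⟨fun h => absurd (v2 _ h).symm n2, fun _ => ?_⟩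
      convert hG.conj _ hq p using 1; group
    · exact ⟨fun h => absurd (v3 _ h).symm n3, fun _ => by simpa using hpq⟩
    · exact ⟨fun _ => by group, fun h => absurd hb h⟩
  have d1 : ∀ c d, D x y c → D x y d → Ok G (c * d⁻¹) (L x y c * (L x y d)⁻¹) := fun c d hc hd => by
    rw [L1, L1]; exact dig a1 b1 p hp c d (c1 c hc) (c1 d hd)
  have d2 : ∀ c d, D y z c → D y z d → Ok G (c * d⁻¹) (L y z c * (L y z d)⁻¹) := fun c d hc hd => by
    rw [L2, L2]; exact dig a2 b2 _ hq' c d (c2 c hc) (c2 d hd)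
  have d3 : ∀ c d, D z x c → D z x d → Ok G (c * d⁻¹) (L z x c * (L z x d)⁻¹) := fun c d hc hd => by
    rw [L3, L3]; exact dig a3 b3 _ hqp c d (c3 c hc) (c3 d hd)
  have flip : ∀ s t, (∀ c d, D s t c → D s t d → Ok G (c * d⁻¹) (L s t c * (L s t d)⁻¹)) →
      ∀ c d, D t s c → D t s d → Ok G (c * d⁻¹) (L t s c * (L t s d)⁻¹) := by
    intro s t h c d hc hd
    have := (h _ _ (hD.sym _ _ _ hd) (hD.sym _ _ _ hc)).conj hG (L t s c)
    rw [hinv _ _ _ hc, hinv _ _ _ hd] at this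
    exact this.congr (by simp [mul_comm]) (by group)
  have dall : ∀ s t c d, D s t c → D s t d → Ok G (c * d⁻¹) (L s t c * (L s t d)⁻¹) := by
    intro s t c d hc hd
    have hst := hD.ne _ _ _ hc
    rcases hW s (hD.mem _ _ _ hc) with rfl | rfl | rfl <;>
      rcases hW t (hD.mem _ _ _ (hD.sym _ _ _ hc)) with rfl | rfl | rfl
    exacts [absurd rfl hst, d1 c d hc hd, flip _ _ d3 c d hc hd, flip _ _ d1 c d hc hd,
      absurd rfl hst, d2 c d hc hd, d3 c d hc hd, flip _ _ d2 c d hc hd, absurd rfl hst]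
  have pth : ∀ P, Pth D x P y → (∃ c, D x y c ∧ P = [(y, c)]) ∨
      ∃ c d, D x z c ∧ D z y d ∧ P = [(z, c), (y, d)] := by
    intro P hP
    obtain _ | ⟨⟨s, c⟩, P⟩ := P
    · exact absurd hP.1 hxy
    have hn := hP.2
    simp only [vs_cons, List.nodup_cons, List.mem_cons, not_or] at hn
    rcases hW s (hD.mem _ _ _ (hD.sym _ _ _ hP.1.1)) with rfl | rfl | rfl
    · exact absurd rfl hn.1.1
    · obtain rfl : P = [] := Pth.nil_of_closed ⟨hP.1.2, List.nodup_cons.2 hn.2⟩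
      exact Or.inl ⟨c, hP.1.1, rfl⟩
    · obtain _ | ⟨⟨t, d⟩, P⟩ := P
      · exact absurd hP.1.2 hyz.symm
      simp only [vs_cons, List.nodup_cons, List.mem_cons, not_or] at hn
      rcases hW t (hD.mem _ _ _ (hD.sym _ _ _ hP.1.2.1)) with rfl | rfl | rfl
      · exact absurd rfl hn.1.2.1
      · obtain rfl : P = [] := Pth.nil_of_closed ⟨hP.1.2.2, List.nodup_cons.2 hn.2.2⟩
        exact Or.inr ⟨c, d, hP.1.1, hP.1.2.1, rfl⟩
      · exact absurd rfl hn.2.1.1
  have mix : ∀ e c d, D x y e → D x z c → D z y d →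
      Ok G (e * (c * d)⁻¹) (L x y e * (L x z c * L z y d)⁻¹) := by
    intro e c d he hc hd
    refine (tri _ _ _ he (hD.sym _ _ _ hd) (hD.sym _ _ _ hc)).congr (by group) ?_
    rw [L1, L5, L6]; group
  refine ⟨L, good_of_two hG hD.sym hinv hxy (fun s l hl h0 => ?_) fun P Q hP hQ hd => ?_⟩
  · obtain _ | ⟨⟨t1, e1⟩, _ | ⟨⟨t2, e2⟩, _ | ⟨⟨t3, e3⟩, r⟩⟩⟩ := l
    · exact ok_one
    · exact absurd hl.1.2.symm (hD.ne _ _ _ hl.1.1)
    · obtain ⟨⟨i1, i2, i3⟩, -⟩ := hl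
      obtain rfl : t2 = s := i3
      have := dall _ _ _ _ i1 (hD.sym _ _ _ i2)
      rw [hinv _ _ _ i2] at this
      simpa using this
    · exfalso
      obtain ⟨⟨i1, i2, i3, -⟩, hn⟩ := hl
      simp only [vs_cons, List.nodup_cons, List.mem_cons, not_or] at hn h0
      have w1 := hW t1 (hD.mem _ _ _ i2)
      have w2 := hW t2 (hD.mem _ _ _ i3)
      have w3 := hW t3 (hD.mem _ _ _ (hD.sym _ _ _ i3))
      have m1 := hn.1.1
      have m2 := hn.1.2.1
      have m3 := hn.2.1.1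
      rcases h0 with h0 | h0 <;> obtain ⟨g1, g2, g3, -⟩ := h0 <;>
        rcases w1 with rfl | rfl | rfl <;> rcases w2 with rfl | rfl | rfl <;>
        rcases w3 with rfl | rfl | rfl <;> contradiction
  · rcases pth P hP with ⟨c, hc, rfl⟩ | ⟨c, d, hc, hd', rfl⟩ <;>
      rcases pth Q hQ with ⟨c', hc', rfl⟩ | ⟨c', d', hc', hd'', rfl⟩
    · simpa using dall _ _ _ _ hc hc'
    · simpa using mix _ _ _ hc hc' hd''
    · exact ((mix _ _ _ hc' hc hd').inv hG).congr (by simp) (by simp)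
    · exact absurd (hd z (by simp) (by simp)) hyz.symm

theorem pth_card [DecidableEq V] {W : Finset V} {D : V → V → A → Prop} (hD : Gr W D) {x y : V}
    (hx : x ∈ W) {l : List (V × A)} (h : Pth D x l y) : l.length < W.card := by
  have h1 : (x :: vs l).toFinset ⊆ W := fun z hz => by
    rcases List.mem_cons.1 (List.mem_toFinset.1 hz) with rfl | hz
    · exact hx
    · exact h.1.forall_vs (P := fun z => z ∈ W) (fun _ _ _ k => hD.mem _ _ _ (hD.sym _ _ _ k)) z hz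
  have h2 := Finset.card_le_card h1
  rw [List.toFinset_card_of_nodup h.2, List.length_cons, vs_length] at h2
  omega

theorem exists_low [DecidableEq V] {W : Finset V} {D : V → V → A → Prop} (hD : Gr W D)
    (h3 : ∀ x l, Cy D x l → l.length ≤ 3) (hW : 4 ≤ W.card) :
    ∃ w ∈ W, ∃ u ∈ W, ∃ v ∈ W, ∃ t ∈ W, u ≠ v ∧ u ≠ w ∧ v ≠ w ∧ t ≠ w ∧ t ≠ u ∧ t ≠ v ∧
      ∀ y a, D w y a → y = u ∨ y = v := by
  classical
  obtain ⟨x0, hx0⟩ : W.Nonempty := Finset.card_pos.1 (by omega)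
  let P : ℕ → Prop := fun k => ∃ x ∈ W, ∃ l y, Pth D x l y ∧ l.length = k
  have hP0 : P 0 := ⟨x0, hx0, [], x0, ⟨rfl, by simp⟩, rfl⟩
  obtain ⟨w, hw, l, y, hl, hlen⟩ : P (Nat.findGreatest P W.card) :=
    Nat.findGreatest_spec (Nat.zero_le _) hP0
  have hN : ∀ z a, D w z a → z ∈ ((vs l).take 2).toFinset := by
    intro z a hz
    have hzl : z ∈ vs l := by
      by_contra h0
      have hp : Pth D z ((w, a⁻¹) :: l) y := ⟨⟨hD.sym _ _ _ hz, hl.1⟩,
        List.nodup_cons.2 ⟨by simp [h0, (hD.ne _ _ _ hz).symm], hl.2⟩⟩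
      have hzW := hD.mem _ _ _ (hD.sym _ _ _ hz)
      exact Nat.findGreatest_is_greatest (P := P) (n := W.card) (Nat.lt_succ_self _)
        (by have := pth_card hD hzW hp; simp at this; omega) ⟨z, hzW, _, y, hp, by simp [hlen]⟩
    obtain ⟨l1, l2, rfl, h1, -, hz1, -⟩ := hl.split hzl
    have := h3 w _ (cy_of_two hD.sym h1 (Pth.single hz (hD.ne _ _ _ hz)) (by simp))
    simp only [List.length_append, rev_cons, rev_nil, List.nil_append, List.length_singleton]
      at this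
    rw [List.mem_toFinset, vs_append, List.take_append,
      List.take_of_length_le (by rw [vs_length]; omega)]
    exact List.mem_append_left _ hz1
  have hsub : ((vs l).take 2).toFinset ⊆ W.erase w := fun z hz => by
    have hz' := List.mem_of_mem_take (List.mem_toFinset.1 hz)
    exact Finset.mem_erase.2 ⟨fun e => (List.nodup_cons.1 hl.2).1 (e ▸ hz'),
      hl.1.forall_vs (P := fun z => z ∈ W) (fun _ _ _ k => hD.mem _ _ _ (hD.sym _ _ _ k)) z hz'⟩
  have hc : (W.erase w).card = W.card - 1 := Finset.card_erase_of_mem hw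
  obtain ⟨N, h1, h2, h4⟩ := Finset.exists_subsuperset_card_eq (n := 2) hsub
    ((List.toFinset_card_le _).trans (List.length_take_le _ _)) (by omega)
  obtain ⟨u, v, huv, rfl⟩ := Finset.card_eq_two.1 h4
  obtain ⟨t, ht, ht'⟩ := Finset.exists_mem_notMem_of_card_lt_card
    (s := {u, v}) (t := W.erase w) (by omega)
  have hu := Finset.mem_erase.1 (h2 (by simp : u ∈ ({u, v} : Finset V)))
  have hv := Finset.mem_erase.1 (h2 (by simp : v ∈ ({u, v} : Finset V)))
  have ht2 := Finset.mem_erase.1 ht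
  simp only [Finset.mem_insert, Finset.mem_singleton, not_or] at ht'
  exact ⟨w, hw, u, hu.2, v, hv.2, t, ht2.2, huv, hu.1, hv.1, ht2.1, ht'.1, ht'.2,
    fun z a hz => by simpa using h1 (hN z a hz)⟩

/-- The lifting theorem. -/
theorem exists_good [LinearOrder V] (hF : PF F) (hG : PG G) (W : Finset V)
    (D : V → V → A → Prop) (hD : Gr W D) (hV : Valid F D) : ∃ L : V → V → A → Γ, Good G D L := by
  induction hn : W.card using Nat.strong_induction_on generalizing W D with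
  | _ n ih =>
  have IH : ∀ (W' : Finset V) (D' : V → V → A → Prop), W'.card < W.card → Gr W' D' →
      Valid F D' → ∃ L : V → V → A → Γ, Good G D' L :=
    fun W' D' h1 h2 h3 => ih _ (hn ▸ h1) W' D' h2 h3 rfl
  by_cases hA : ∃ u v a0, D u v a0 ∧ ∀ b, D u v b → b = a0
  · obtain ⟨u, v, a0, h0, hno⟩ := hA
    have huv := hD.ne _ _ _ h0
    have hu := hD.mem _ _ _ h0
    have hv := hD.mem _ _ _ (hD.sym _ _ _ h0)
    by_cases hlink : ∀ P Q, Pth D u P v → Pth D u Q v → (∀ z, z ∈ vs P → z ∈ vs Q → z = v) →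
        gn P ≠ a0 → gn Q ≠ a0 → ∃ x y R, x ∈ vs P ∧ x ≠ v ∧ y ∈ vs Q ∧ y ≠ v ∧
          Wk (fun s t a => D s t a ∧ t ≠ u ∧ t ≠ v) x R y
    · obtain ⟨L', hL'⟩ := IH _ _ (Finset.card_erase_lt_of_mem hv) (cD_gr hD huv hu a0)
        (cD_valid hD hV h0)
      exact ⟨_, contract hF hG hD hV h0 hno hL' hlink⟩
    push Not at hlink
    obtain ⟨P, Q, hP, hQ, hd, hPa, hQa, hnl⟩ := hlink
    have inner : ∀ P, Pth D u P v → gn P ≠ a0 → ∃ w ∈ W, w ∈ vs P ∧ w ≠ u ∧ w ≠ v := by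
      intro P hP hPa
      obtain _ | ⟨⟨s, c⟩, P⟩ := P
      · exact absurd hP.1 huv
      refine ⟨s, hD.mem _ _ _ (hD.sym _ _ _ hP.1.1), by simp, (hD.ne _ _ _ hP.1.1).symm, ?_⟩
      rintro rfl
      obtain rfl : P = [] := Pth.nil_of_closed ⟨hP.1.2, (List.nodup_cons.1 hP.2).2⟩
      exact hPa (by simpa using hno c hP.1.1)
    obtain ⟨w1, h1W, h1P, -, h1v⟩ := inner P hP hPa
    obtain ⟨w2, h2W, h2Q, h2u, h2v⟩ := inner Q hQ hQa
    set U : Set V := {z | ∃ x R, x ∈ vs P ∧ x ≠ v ∧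
      Wk (fun s t a => D s t a ∧ t ≠ u ∧ t ≠ v) x R z} with hU
    have hUuv : ∀ z ∈ U, z ≠ u ∧ z ≠ v := by
      rintro z ⟨x, R, hx, hxv, hR⟩
      rcases List.mem_cons.1 hR.end_mem with rfl | hz
      · exact ⟨fun e => (List.nodup_cons.1 hP.2).1 (e ▸ hx), hxv⟩
      · exact hR.forall_vs (P := fun z => z ≠ u ∧ z ≠ v) (fun _ _ _ h => h.2) z hz
    have huU : u ∉ U := fun h => (hUuv u h).1 rfl
    have hvU : v ∉ U := fun h => (hUuv v h).2 rfl
    have hQU : ∀ z ∈ vs Q, z ∉ U := by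
      rintro z hz ⟨x, R, hx, hxv, hR⟩
      exact hnl x z R hx hxv hz (hUuv z ⟨x, R, hx, hxv, hR⟩).2 hR
    have hcl : ∀ x y a, D x y a → x ∈ U → y ∈ U ∨ y = u ∨ y = v := by
      rintro x y a h ⟨x0, R, hx, hxv, hR⟩
      by_cases hyu : y = u
      · exact Or.inr (Or.inl hyu)
      by_cases hyv : y = v
      · exact Or.inr (Or.inr hyv)
      exact Or.inl ⟨x0, R ++ [(y, a)], hx, hxv, hR.append ⟨⟨h, hyu, hyv⟩, rfl⟩⟩
    refine sepU hF hG hD hV IH huv hu hv huU hvU hcl h1W ⟨w1, [], h1P, h1v, rfl⟩ h2W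
      (hQU _ h2Q) h2u h2v ?_
    by_cases hq : Clq F (pg (sd1 D U) u v)
    · exact Or.inl hq
    right
    simp only [Clq, not_forall] at hq
    obtain ⟨s, hs, t, ht, hst⟩ := hq
    have e1 : a0 ∈ pg (sd2 D U) u v := ⟨[(v, a0)], Pth.single ⟨h0, huU, hvU⟩ huv, by simp⟩
    have e2 : gn Q ∈ pg (sd2 D U) u v :=
      ⟨Q, ⟨hQ.1.induce (P := fun z => z ∉ U) (fun x y a h hx hy => ⟨h, hx, hy⟩) fun z hz => by
        rcases List.mem_cons.1 hz with rfl | hz
        exacts [huU, hQU z hz], hQ.2⟩, rfl⟩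
    have hQF := hV.edge hD.sym hQ h0 huv
    have all : ∀ r ∈ pg (sd2 D U) u v, r = a0 ∨ r = gn Q := fun r hr =>
      hF.sep' hQa hQF (by
          obtain ⟨R, hR, rfl⟩ := hr
          exact hV.edge hD.sym (hR.mono fun _ _ _ h => h.1) h0 huv)
        (pg_cross hD.sym hV hcl hs e1) (pg_cross hD.sym hV hcl hs e2)
        (pg_cross hD.sym hV hcl hs hr) (pg_cross hD.sym hV hcl ht e1)
        (pg_cross hD.sym hV hcl ht e2) (pg_cross hD.sym hV hcl ht hr) hst
    intro r hr r' hr'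
    rcases all r hr with rfl | rfl <;> rcases all r' hr' with h | h <;> rw [h]
    · simpa using hF.one
    · simpa using hF.inv _ hQF
    · exact hQF
    · simpa using hF.one
  have hM : ∀ x y a, D x y a → ∃ b, b ≠ a ∧ D x y b := by
    intro x y a h
    by_contra h1
    push Not at h1
    exact hA ⟨x, y, a, h, fun b hb => by_contra fun e => h1 b e hb⟩
  have h3 : ∀ x l, Cy D x l → l.length ≤ 3 := fun x l hl => short_of_mates hF hD hV hM hl
  by_cases hW : 4 ≤ W.card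
  · obtain ⟨w, hw, u, hu, v, hv, t, ht, huv, huw, hvw, htw, htu, htv, hN⟩ := exists_low hD h3 hW
    have hcl : ∀ x y a, D x y a → x ∈ ({w} : Set V) → y ∈ ({w} : Set V) ∨ y = u ∨ y = v := by
      rintro x y a h rfl; exact Or.inr (hN y a h)
    refine sepU hF hG hD hV IH huv hu hv (U := {w}) huw hvw hcl hw rfl ht htw htu htv ?_
    by_cases hq : ∃ a c, D u w a ∧ D w v c
    · right
      obtain ⟨a, c, ha, hc⟩ := hq
      obtain ⟨a', na, ha'⟩ := hM _ _ _ ha
      obtain ⟨c', nc, hc'⟩ := hM _ _ _ hc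
      intro s hs t ht
      by_contra hst
      have m : ∀ a c, D u w a → D w v c → ∀ s ∈ pg (sd2 D {w}) u v, s * (a * c)⁻¹ ∈ F := by
        intro a c ha hc s hs
        have : a * c ∈ pg (sd1 D {w}) u v := ⟨[(w, a), (v, c)],
          ⟨⟨⟨ha, Or.inr rfl⟩, ⟨hc, Or.inl rfl⟩, rfl⟩, by simp [huw, huv, hvw.symm]⟩, by simp⟩
        simpa [mul_assoc] using hF.inv _ (pg_cross hD.sym hV hcl this hs)
      have fa := hV.par hD ha' ha
      have fa' := hV.par hD ha ha'
      have fc := hV.par hD hc' hc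
      have cg : ∀ {a b : A}, a ∈ F → a = b → b ∈ F := fun h e => e ▸ h
      have r1 := hF.sep' (b1 := a * c) (b2 := a' * c) (r := a * c') (by simpa using na)
        (cg fa (by group)) (cg fc (by
          apply Additive.ofMul.injective; simp only [ofMul_mul, ofMul_inv]; abel))
        (m _ _ ha hc s hs) (m _ _ ha' hc s hs) (m _ _ ha hc' s hs)
        (m _ _ ha hc t ht) (m _ _ ha' hc t ht) (m _ _ ha hc' t ht) hst
      have r2 := hF.sep' (b1 := a' * c) (b2 := a * c) (r := a' * c') (by simpa using na.symm)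
        (cg fa' (by group)) (cg fc (by
          apply Additive.ofMul.injective; simp only [ofMul_mul, ofMul_inv]; abel))
        (m _ _ ha' hc s hs) (m _ _ ha hc s hs) (m _ _ ha' hc' s hs)
        (m _ _ ha' hc t ht) (m _ _ ha hc t ht) (m _ _ ha' hc' t ht) hst
      have r3 := r1.resolve_left (by simpa using nc)
      have r4 := r2.resolve_left (by simpa using nc)
      refine na (mul_inv_eq_one.1 (hF.t2 _ fa ?_))
      rw [← mul_inv_eq_one.2 (congrArg₂ (· * ·) r4 r3.symm)]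
      apply Additive.ofMul.injective; simp only [ofMul_mul, ofMul_inv]; abel
    · left
      rintro s ⟨P, hP, rfl⟩
      exfalso
      apply hq
      obtain _ | ⟨⟨s1, a⟩, P⟩ := P
      · exact absurd hP.1 huv
      obtain rfl : s1 = w := hP.1.1.2.resolve_left huw
      obtain _ | ⟨⟨s2, c⟩, P⟩ := P
      · exact absurd hP.1.2 hvw.symm
      rcases hN s2 c hP.1.2.1.1 with rfl | rfl
      · exact absurd (by simp) (List.nodup_cons.1 hP.2).1
      · exact ⟨a, c, hP.1.1.1, hP.1.2.1.1⟩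
  by_cases h2 : ∀ x l, Cy D x l → l.length ≤ 2
  · exact good_digon hF hG hD hV h2
  push Not at h2
  obtain ⟨x, l, hl, hlen⟩ := h2
  have hlen' := h3 x l hl
  obtain _ | ⟨⟨y, a1⟩, _ | ⟨⟨z, a2⟩, _ | ⟨⟨x', a3⟩, _ | ⟨s, r⟩⟩⟩⟩ := l
  any_goals (simp only [List.length_cons, List.length_nil] at hlen hlen'; omega)
  obtain ⟨⟨k1, k2, k3, k4⟩, hn⟩ := hl
  obtain rfl : x' = x := k4
  obtain ⟨b1, n1, j1⟩ := hM _ _ _ k1
  obtain ⟨b2, n2, j2⟩ := hM _ _ _ k2
  obtain ⟨b3, n3, j3⟩ := hM _ _ _ k3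
  have hxy := hD.ne _ _ _ k1
  have hyz := hD.ne _ _ _ k2
  have hzx := hD.ne _ _ _ k3
  have hWs : ∀ w ∈ W, w = x' ∨ w = y ∨ w = z := by
    have hsub : ({x', y, z} : Finset V) ⊆ W := by
      intro w hw
      simp only [Finset.mem_insert, Finset.mem_singleton] at hw
      rcases hw with rfl | rfl | rfl
      exacts [hD.mem _ _ _ k1, hD.mem _ _ _ k2, hD.mem _ _ _ k3]
    have hc : ({x', y, z} : Finset V).card = 3 :=
      Finset.card_eq_three.2 ⟨x', y, z, hxy, hzx.symm, hyz, rfl⟩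
    have := Finset.eq_of_subset_of_card_le hsub (by omega)
    intro w hw
    rw [← this] at hw
    simpa using hw
  have := (hF.z3' (r := 1) n1 n2 n3 (hV.par hD j1 k1) (hV.par hD j2 k2) (hV.par hD j3 k3)
    fun d1 d2 d3 h1 h2 h3 => by
      have := hV x' [(y, d1), (z, d2), (x', d3)]
        ⟨⟨by rcases h1 with rfl | rfl <;> assumption, by rcases h2 with rfl | rfl <;> assumption,
          by rcases h3 with rfl | rfl <;> assumption, rfl⟩, hn⟩
      simpa [mul_assoc] using this).2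
  simp only [mul_one] at this
  rcases this with h | h | h | h
  · exact good_tri hF hG hD hV hWs k1 j1 k2 j2 k3 j3 n1 n2 n3 h
  · exact good_tri hF hG hD hV hWs j1 k1 k2 j2 k3 j3 n1.symm n2 n3 h
  · exact good_tri hF hG hD hV hWs k1 j1 j2 k2 k3 j3 n1 n2.symm n3 h
  · exact good_tri hF hG hD hV hWs k1 j1 k2 j2 j3 k3 n1 n2 n3.symm h

end Pool.Agent.Lib.MP_10bdcf_co.Fr
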