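import Pool.Agent.Lib.MP_10bdcf_co.FrS

/-!
Unit quaternions with real part one half.
-/

namespace Pool.Agent.Lib.MP_10bdcf_co.Fr

open scoped Quaternion

/-- The group of unit quaternions. -/
abbrev SQ : Type := unitary ℍ[ℝ]

/-- Unit quaternions with real part one half. -/
def GQ : Set SQ := {q | (q : ℍ[ℝ]).re = 1 / 2}

theorem sq_normSq (q : SQ) : Quaternion.normSq (q : ℍ[ℝ]) = 1 := by
  have h := Unitary.mul_star_self_of_mem q.2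
  rw [Quaternion.self_mul_star] at h
  simpa using congrArg QuaternionAlgebra.re h

theorem sq_eq (q : SQ) :
    (q : ℍ[ℝ]).re ^ 2 + (q : ℍ[ℝ]).imI ^ 2 + (q : ℍ[ℝ]).imJ ^ 2 + (q : ℍ[ℝ]).imK ^ 2 = 1 := by
  rw [← Quaternion.normSq_def', sq_normSq]

theorem sq_norm (q : SQ) : ‖(q : ℍ[ℝ])‖ = 1 := by
  have h := sq_normSq q
  rw [Quaternion.normSq_eq_norm_mul_self] at h
  nlinarith [norm_nonneg (q : ℍ[ℝ])]

theorem mem_sq {x : ℍ[ℝ]} (h : Quaternion.normSq x = 1) : x ∈ unitary ℍ[ℝ] := by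
  constructor
  · rw [Quaternion.star_mul_self, h]; simp
  · rw [Quaternion.self_mul_star, h]; simp

theorem sq_inv (q : SQ) : ((q⁻¹ : SQ) : ℍ[ℝ]) = star (q : ℍ[ℝ]) := by
  rw [← Unitary.star_eq_inv]; rfl

theorem sq_of_ne {l : ℍ[ℝ]} (hl : l ≠ 0) :
    ∃ c : SQ, ∀ p q : SQ, l * p = q * l → c * p * c⁻¹ = q := by
  have hn : ‖l‖ ≠ 0 := norm_ne_zero_iff.2 hl
  refine ⟨⟨‖l‖⁻¹ • l, mem_sq ?_⟩, fun p q h => ?_⟩
  · rw [Quaternion.normSq_eq_norm_mul_self, norm_smul, norm_inv, norm_norm, inv_mul_cancel₀ hn,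
      mul_one]
  · rw [mul_inv_eq_iff_eq_mul]
    apply Subtype.ext
    change ‖l‖⁻¹ • l * (p : ℍ[ℝ]) = q * ‖l‖⁻¹ • l
    rw [smul_mul_assoc, mul_smul_comm, h]

theorem gq_conj (q : SQ) (hq : q ∈ GQ) (c : SQ) : c * q * c⁻¹ ∈ GQ := by
  have hc := sq_eq c
  have hq' : (q : ℍ[ℝ]).re = 1 / 2 := hq
  change ((c : ℍ[ℝ]) * q * ((c⁻¹ : SQ) : ℍ[ℝ])).re = 1 / 2
  rw [sq_inv]
  simp only [Quaternion.re_mul, Quaternion.imI_mul, Quaternion.imJ_mul, Quaternion.imK_mul,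
    Quaternion.re_star, Quaternion.imI_star, Quaternion.imJ_star, Quaternion.imK_star, hq']
  linear_combination (1 / 2 : ℝ) * hc

theorem gq_div {p q : SQ} (h : p * q⁻¹ ∈ GQ) :
    (p : ℍ[ℝ]).re * (q : ℍ[ℝ]).re + (p : ℍ[ℝ]).imI * (q : ℍ[ℝ]).imI +
      (p : ℍ[ℝ]).imJ * (q : ℍ[ℝ]).imJ + (p : ℍ[ℝ]).imK * (q : ℍ[ℝ]).imK = 1 / 2 := by
  have h' : ((p : ℍ[ℝ]) * ((q⁻¹ : SQ) : ℍ[ℝ])).re = 1 / 2 := h
  rw [sq_inv] at h'
  simp only [Quaternion.re_mul, Quaternion.re_star, Quaternion.imI_star, Quaternion.imJ_star,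
    Quaternion.imK_star] at h'
  linear_combination h'

theorem gq_u2 (p : SQ) (hp : p ∈ GQ) (q : SQ) (hq : q ∈ GQ) : ∃ c, c * p * c⁻¹ = q := by
  have h1 := sq_eq p
  have h2 := sq_eq q
  have hp' : (p : ℍ[ℝ]).re = 1 / 2 := hp
  have hq' : (q : ℍ[ℝ]).re = 1 / 2 := hq
  suffices h : ∃ l : ℍ[ℝ], l ≠ 0 ∧ l * p = q * l by
    obtain ⟨l, hl, h⟩ := h
    obtain ⟨c, hc⟩ := sq_of_ne hl
    exact ⟨c, hc p q h⟩
  clear hp hq
  obtain ⟨⟨p0, p1, p2, p3⟩, hpu⟩ := p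
  obtain ⟨⟨q0, q1, q2, q3⟩, hqu⟩ := q
  simp only at h1 h2 hp' hq' ⊢
  clear hpu hqu
  subst hp' hq'
  by_cases h : q1 + p1 = 0 ∧ q2 + p2 = 0 ∧ q3 + p3 = 0
  · obtain ⟨a1, a2, a3⟩ := h
    obtain rfl : q1 = -p1 := by linarith
    obtain rfl : q2 = -p2 := by linarith
    obtain rfl : q3 = -p3 := by linarith
    by_cases h' : p1 = 0 ∧ p2 = 0
    · obtain ⟨rfl, rfl⟩ := h'
      refine ⟨⟨0, 1, 0, 0⟩, fun e => by simpa using congrArg QuaternionAlgebra.imI e, ?_⟩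
      ext <;> simp
    · refine ⟨⟨0, -p2, p1, 0⟩, fun e => h' ⟨by simpa using congrArg QuaternionAlgebra.imJ e,
        by simpa using congrArg QuaternionAlgebra.imI e⟩, ?_⟩
      ext <;> simp <;> ring
  · refine ⟨⟨0, q1 + p1, q2 + p2, q3 + p3⟩, fun e => h ⟨congrArg QuaternionAlgebra.imI e,
      congrArg QuaternionAlgebra.imJ e, congrArg QuaternionAlgebra.imK e⟩, ?_⟩
    ext <;> simp
    · linear_combination h2 - h1
    · ring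
    · ring
    · ring

theorem gq_u3' (q : SQ) (hq : q ∈ GQ) (x : SQ) (hx : x ∈ GQ) (y : SQ) (hy : y ∈ GQ)
    (hqx : q * x⁻¹ ∈ GQ) (hqy : q * y⁻¹ ∈ GQ) : ∃ c, c * q * c⁻¹ = q ∧ c * x * c⁻¹ = y := by
  have h0 := sq_eq q
  have h1 := sq_eq x
  have h2 := sq_eq y
  have h3 := gq_div hqx
  have h4 := gq_div hqy
  have hq' : (q : ℍ[ℝ]).re = 1 / 2 := hq
  have hx' : (x : ℍ[ℝ]).re = 1 / 2 := hx
  have hy' : (y : ℍ[ℝ]).re = 1 / 2 := hy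
  suffices h : ∃ l : ℍ[ℝ], l ≠ 0 ∧ l * q = q * l ∧ l * x = y * l by
    obtain ⟨l, hl, h, h'⟩ := h
    obtain ⟨c, hc⟩ := sq_of_ne hl
    exact ⟨c, hc q q h, hc x y h'⟩
  clear hq hx hy hqx hqy
  obtain ⟨⟨n0, n1, n2, n3⟩, hqu⟩ := q
  obtain ⟨⟨x0, x1, x2, x3⟩, hxu⟩ := x
  obtain ⟨⟨y0, y1, y2, y3⟩, hyu⟩ := y
  simp only at h0 h1 h2 h3 h4 hq' hx' hy' ⊢
  clear hqu hxu hyu
  subst hq' hx' hy'
  obtain ⟨w1, hw1⟩ : ∃ w, w = n2 * (x3 + y3) - n3 * (x2 + y2) := ⟨_, rfl⟩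
  obtain ⟨w2, hw2⟩ : ∃ w, w = n3 * (x1 + y1) - n1 * (x3 + y3) := ⟨_, rfl⟩
  obtain ⟨w3, hw3⟩ : ∃ w, w = n1 * (x2 + y2) - n2 * (x1 + y1) := ⟨_, rfl⟩
  have hds : (x1 - y1) * (x1 + y1) + (x2 - y2) * (x2 + y2) + (x3 - y3) * (x3 + y3) = 0 := by
    linear_combination h1 - h2
  have hdn : (x1 - y1) * n1 + (x2 - y2) * n2 + (x3 - y3) * n3 = 0 := by
    linear_combination h3 - h4
  have gen : ∀ a b : ℝ, a * (x1 - y1) + b * w1 = 0 → a * (x2 - y2) + b * w2 = 0 →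
      a * (x3 - y3) + b * w3 = 0 →
      (⟨a, b * n1, b * n2, b * n3⟩ : ℍ[ℝ]) * ⟨1 / 2, n1, n2, n3⟩ =
        ⟨1 / 2, n1, n2, n3⟩ * ⟨a, b * n1, b * n2, b * n3⟩ ∧
      (⟨a, b * n1, b * n2, b * n3⟩ : ℍ[ℝ]) * ⟨1 / 2, x1, x2, x3⟩ =
        ⟨1 / 2, y1, y2, y3⟩ * ⟨a, b * n1, b * n2, b * n3⟩ := by
    intro a b e1 e2 e3
    constructor
    · ext <;> simp <;> ring
    · ext <;> simp
      · linear_combination (-b) * hdn
      · linear_combination e1 - b * hw1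
      · linear_combination e2 - b * hw2
      · linear_combination e3 - b * hw3
  by_cases hw : w1 ^ 2 + w2 ^ 2 + w3 ^ 2 = 0
  · have e1 : w1 = 0 := by nlinarith [sq_nonneg w1, sq_nonneg w2, sq_nonneg w3]
    have e2 : w2 = 0 := by nlinarith [sq_nonneg w1, sq_nonneg w2, sq_nonneg w3]
    have e3 : w3 = 0 := by nlinarith [sq_nonneg w1, sq_nonneg w2, sq_nonneg w3]
    refine ⟨_, fun e => ?_, gen 0 1 (by simp [e1]) (by simp [e2]) (by simp [e3])⟩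
    have a1 : 1 * n1 = 0 := congrArg QuaternionAlgebra.imI e
    have a2 : 1 * n2 = 0 := congrArg QuaternionAlgebra.imJ e
    have a3 : 1 * n3 = 0 := congrArg QuaternionAlgebra.imK e
    rw [one_mul] at a1 a2 a3
    subst a1 a2 a3
    norm_num at h0
  · refine ⟨_, fun e => hw (congrArg QuaternionAlgebra.re e),
      gen (w1 ^ 2 + w2 ^ 2 + w3 ^ 2) (-((x1 - y1) * w1 + (x2 - y2) * w2 + (x3 - y3) * w3))
        ?_ ?_ ?_⟩
    · subst hw1 hw2 hw3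
      linear_combination
        ((n3 * (x1 + y1) - n1 * (x3 + y3)) * n3 - (n1 * (x2 + y2) - n2 * (x1 + y1)) * n2) * hds -
        ((n3 * (x1 + y1) - n1 * (x3 + y3)) * (x3 + y3) -
          (n1 * (x2 + y2) - n2 * (x1 + y1)) * (x2 + y2)) * hdn
    · subst hw1 hw2 hw3
      linear_combination
        ((n1 * (x2 + y2) - n2 * (x1 + y1)) * n1 - (n2 * (x3 + y3) - n3 * (x2 + y2)) * n3) * hds -
        ((n1 * (x2 + y2) - n2 * (x1 + y1)) * (x1 + y1) -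
          (n2 * (x3 + y3) - n3 * (x2 + y2)) * (x3 + y3)) * hdn
    · subst hw1 hw2 hw3
      linear_combination
        ((n2 * (x3 + y3) - n3 * (x2 + y2)) * n2 - (n3 * (x1 + y1) - n1 * (x3 + y3)) * n1) * hds -
        ((n2 * (x3 + y3) - n3 * (x2 + y2)) * (x2 + y2) -
          (n3 * (x1 + y1) - n1 * (x3 + y3)) * (x1 + y1)) * hdn

theorem pg_GQ : PG GQ := by
  refine ⟨gq_conj, fun q hq => ?_, ?_, gq_u2, fun p hp p' hp' hpp q hq q' hq' hqq => ?_⟩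
  · change ((q⁻¹ : SQ) : ℍ[ℝ]).re = 1 / 2
    rw [sq_inv, Quaternion.re_star]; exact hq
  · refine ⟨⟨⟨1 / 2, 1 / 2, 1 / 2, 1 / 2⟩, mem_sq ?_⟩, rfl,
      ⟨⟨1 / 2, 1 / 2, 1 / 2, -1 / 2⟩, mem_sq ?_⟩, rfl, ?_⟩
    · rw [Quaternion.normSq_def']; norm_num
    · rw [Quaternion.normSq_def']; norm_num
    · change ((_ : ℍ[ℝ]) * ((_⁻¹ : SQ) : ℍ[ℝ])).re = 1 / 2
      rw [sq_inv]; simp; norm_num
  · obtain ⟨c, rfl⟩ := gq_u2 p hp q hq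
    obtain ⟨d, h1, h2⟩ := gq_u3' _ hq _ (gq_conj p' hp' c) _ hq'
      (by convert gq_conj _ hpp c using 1; group) hqq
    exact ⟨d * c, by rw [← h1]; group, by rw [← h2]; group⟩

theorem norm_sub_one_of_GQ {q : SQ} (hq : q ∈ GQ) : ‖(q : ℍ[ℝ]) - 1‖ = 1 := by
  have h := sq_eq q
  have hq' : (q : ℍ[ℝ]).re = 1 / 2 := hq
  have h1 : Quaternion.normSq ((q : ℍ[ℝ]) - 1) = 1 := by
    rw [Quaternion.normSq_def']
    simp only [Quaternion.re_sub, Quaternion.imI_sub, Quaternion.imJ_sub, Quaternion.imK_sub,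
      Quaternion.re_one, Quaternion.imI_one, Quaternion.imJ_one, Quaternion.imK_one, hq'] at h ⊢
    linear_combination h
  exact sq_norm ⟨_, mem_sq h1⟩

end Pool.Agent.Lib.MP_10bdcf_co.Fr
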