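import Pool.Agent.Lib.MP_10bdcf_co.Defs

/-!
The quaternionic lift of a complex pencil `A0 + g * v * b`.
-/

namespace Pool.Agent.Lib.MP_10bdcf_co

open scoped Quaternion
open Matrix

/-- Criterion for a QU-matrix through row reduction. -/
theorem isQUMatrix_of_rows {r : ℕ} {E : Type} [Finite E] (A : Matrix (Fin r) E ℍ[ℝ])
    (P : (Fin r → E) → Prop) (h0 : ∃ f, P f)
    (hrow : ∀ f, P f → ∀ i, ∃ y : Fin r → ℍ[ℝ],
      (∀ j, (∑ k, y k * A k (f j)) = if j = i then 1 else 0) ∧
      ∀ e, ((∑ k, y k * A k e) = 0 ∨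
        (‖∑ k, y k * A k e‖ = 1 ∧ P (Function.update f i e)))) :
    IsQUMatrix A ∧ ∀ f, P f → IsUnit (A.submatrix id f) := by
  classical
  have hunit : ∀ f, P f → IsUnit (A.submatrix id f) := by
    intro f hf
    choose y hy using hrow f hf
    have h1 : (Matrix.of y) * (A.submatrix id f) = 1 := by
      refine Matrix.ext fun i j => ?_
      simp only [Matrix.mul_apply, Matrix.of_apply, Matrix.submatrix_apply, id, Matrix.one_apply]
      rw [(hy i).1 j]
      by_cases h : i = j
      · simp [h]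
      · simp [h, Ne.symm h]
    exact IsUnit.of_mul_eq_one_right _ h1
  refine ⟨⟨h0.imp fun f hf => hunit f hf, ?_⟩, hunit⟩
  rintro c ⟨⟨x, hx⟩, hc0, hmin⟩
  -- a basis meeting the zero set of `c` as often as possible
  obtain ⟨f, hf, hmax⟩ : ∃ f, P f ∧ ∀ f', P f' →
      (Finset.univ.filter fun j => c (f' j) = 0).card ≤
        (Finset.univ.filter fun j => c (f j) = 0).card := by
    obtain ⟨f0, hf0⟩ := h0
    have : Finite (Fin r → E) := inferInstance
    obtain ⟨f, hf, hmax⟩ := Set.exists_max_image {f | P f}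
      (fun f => (Finset.univ.filter fun j => c (f j) = 0).card) (Set.toFinite _) ⟨f0, hf0⟩
    exact ⟨f, hf, hmax⟩
  choose y hy using hrow f hf
  set D : Fin r → E → ℍ[ℝ] := fun i e => ∑ k, y i k * A k e with hD
  have h1 : (Matrix.of y) * (A.submatrix id f) = 1 := by
    refine Matrix.ext fun i j => ?_
    simp only [Matrix.mul_apply, Matrix.of_apply, Matrix.submatrix_apply, id, Matrix.one_apply]
    rw [(hy i).1 j]
    by_cases h : i = j
    · simp [h]
    · simp [h, Ne.symm h]
  have h2 : (A.submatrix id f) * (Matrix.of y) = 1 := mul_eq_one_comm.mp h1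
  have hexp : ∀ e, c e = ∑ j, c (f j) * D j e := by
    intro e
    have h3 : ∀ k i, ∑ j, A k (f j) * y j i = if k = i then 1 else 0 := by
      intro k i
      have := congrFun (congrFun h2 k) i
      simpa [Matrix.mul_apply, Matrix.one_apply] using this
    simp only [hx, hD, Finset.sum_mul, Finset.mul_sum]
    rw [Finset.sum_comm]
    refine Finset.sum_congr rfl fun i _ => ?_
    have : ∀ j, ∑ k, x k * A k (f j) * (y j i * A i e) =
        ∑ k, x k * (A k (f j) * y j i) * A i e := by
      intro j; refine Finset.sum_congr rfl fun k _ => ?_; simp only [mul_assoc]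
    simp only [this]
    rw [Finset.sum_comm]
    have : ∀ k, ∑ j, x k * (A k (f j) * y j i) * A i e = x k * (if k = i then 1 else 0) * A i e := by
      intro k; rw [← h3 k i, Finset.mul_sum, Finset.sum_mul]
    simp only [this]
    rw [Finset.sum_eq_single i]
    · simp
    · intro k _ hk; simp [hk]
    · simp
  have hsupp : ∀ j, c (f j) ≠ 0 → ∀ e, c e = 0 → D j e = 0 := by
    intro j hj e he
    rcases (hy j).2 e with h | ⟨_, hP⟩
    · exact h
    · exfalso
      have hle := hmax _ hP
      have hlt : (Finset.univ.filter fun i => c (f i) = 0) ⊂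
          (Finset.univ.filter fun i => c (Function.update f j e i) = 0) := by
        rw [Finset.ssubset_iff_of_subset]
        · refine ⟨j, ?_, ?_⟩
          · simp [he]
          · simp [hj]
        · intro i hi
          simp only [Finset.mem_filter, Finset.mem_univ, true_and] at hi ⊢
          by_cases hij : i = j
          · subst hij; simp [he]
          · rw [Function.update_of_ne hij]; exact hi
      exact absurd (Finset.card_lt_card hlt) (not_lt.mpr hle)
  obtain ⟨j, hj⟩ : ∃ j, c (f j) ≠ 0 := by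
    by_contra hno
    push Not at hno
    apply hc0
    funext e
    rw [hexp e]
    simp [hno]
  have hDj : D j (f j) = 1 := by simpa using (hy j).1 j
  have huniq : ∀ i, i ≠ j → c (f i) = 0 := by
    intro i hi
    by_contra hci
    apply hmin (D j) ⟨y j, rfl⟩
    · intro h
      have := congrFun h (f j)
      rw [hDj] at this
      exact one_ne_zero this
    · rw [Set.ssubset_iff_of_subset]
      · refine ⟨f i, hci, ?_⟩
        have : D j (f i) = 0 := by simpa [hi] using (hy j).1 i
        simpa using this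
      · intro e he
        by_contra hce
        exact he (hsupp j hj e (by simpa using hce))
  refine ⟨c (f j), D j, ?_, ?_⟩
  · funext e
    rw [hexp e, Finset.sum_eq_single j]
    · intro i _ hi; simp [huniq i hi]
    · simp
  · intro e he
    rcases (hy j).2 e with h | ⟨h, _⟩
    · exact absurd h he
    · exact h

/-- Expansion of an exchanged determinant of a pencil. -/
theorem pencil_cof {r : ℕ} {E : Type} (D : ℂ → Matrix (Fin r) E ℂ) (f0 : Fin r → E)
    (hf0 : ∀ g i j, D g i (f0 j) = if i = j then 1 else 0) (f : Fin r → E) (i : Fin r)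
    (g : ℂ) (e : E) :
    ((D g).submatrix id (Function.update f i e)).det =
      ∑ k, D g k e * ((D g).submatrix id (Function.update f i (f0 k))).det := by
  classical
  have h1 : ∀ e', (D g).submatrix id (Function.update f i e') =
      ((D g).submatrix id f).updateCol i (fun k => D g k e') := by
    intro e'
    refine Matrix.ext fun a c => ?_
    by_cases h : c = i
    · subst h; simp
    · simp [Matrix.updateCol_ne h, Function.update_of_ne h]
  simp only [h1, ← Matrix.cramer_apply]
  have h2 : (fun k => D g k e) = ∑ k, D g k e • (fun a => D g a (f0 k)) := by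
    funext a
    simp [Finset.sum_apply, hf0]
  rw [h2, map_sum, Finset.sum_apply]
  refine Finset.sum_congr rfl fun k _ => ?_
  rw [map_smul]
  simp

theorem coe_sum {ι : Type} (s : Finset ι) (z : ι → ℂ) :
    ((∑ k ∈ s, z k : ℂ) : ℍ[ℝ]) = ∑ k ∈ s, (z k : ℍ[ℝ]) :=
  map_sum Quaternion.ofComplex z s

theorem coe_eq_zero {z : ℂ} : (z : ℍ[ℝ]) = 0 ↔ z = 0 :=
  map_eq_zero Quaternion.ofComplex

theorem coe_comm (z w : ℂ) : (z : ℍ[ℝ]) * w = w * z := by
  rw [← Quaternion.coeComplex_mul, ← Quaternion.coeComplex_mul, mul_comm]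

/-- The quaternionic lift of a pencil of complex matrices. -/
theorem pencil_QU {r : ℕ} {E : Type} [Finite E] (A0 : Matrix (Fin r) E ℂ) (v : Fin r → ℂ)
    (b : E → ℂ) (q : ℍ[ℝ]) (f0 : Fin r → E)
    (hf0 : ∀ i j, A0 i (f0 j) = if i = j then 1 else 0) (hb0 : ∀ j, b (f0 j) = 0)
    (s t : (Fin r → E) → ℂ)
    (hdet : ∀ f g, ((Matrix.of fun i e => A0 i e + g * (v i * b e)).submatrix id f).det =
      s f + g * t f)
    (hnorm : ∀ f, (s f = 0 ∧ t f = 0) ∨ ‖(s f : ℍ[ℝ]) + q * t f‖ = 1) :
    IsQUMatrix (Matrix.of fun i e => (A0 i e : ℍ[ℝ]) + v i * q * b e) ∧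
      ∀ f, IsUnit ((Matrix.of fun i e => (A0 i e : ℍ[ℝ]) + v i * q * b e).submatrix id f) ↔
        ¬ (s f = 0 ∧ t f = 0) := by
  classical
  set Q : Matrix (Fin r) E ℍ[ℝ] := Matrix.of fun i e => (A0 i e : ℍ[ℝ]) + v i * q * b e with hQ
  set D : ℂ → Matrix (Fin r) E ℂ := fun g => Matrix.of fun i e => A0 i e + g * (v i * b e) with hD
  have hD0 : ∀ g i j, D g i (f0 j) = if i = j then 1 else 0 := by
    intro g i j; simp [hD, hf0, hb0]
  have hzero : ∀ f, (∀ g, ((D g).submatrix id f).det = 0) → s f = 0 ∧ t f = 0 := by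
    intro f hf
    have h0 := hdet f 0
    have h1 := hdet f 1
    rw [show (Matrix.of fun i e => A0 i e + 0 * (v i * b e)) = D 0 from rfl, hf] at h0
    rw [show (Matrix.of fun i e => A0 i e + 1 * (v i * b e)) = D 1 from rfl, hf] at h1
    constructor
    · linear_combination -h0
    · linear_combination h0 - h1
  -- the cofactor rows
  have hkey : ∀ (f : Fin r → E) (i : Fin r), ∃ (y : Fin r → ℍ[ℝ]) (m : ℂ), m ≠ 0 ∧
      ∀ e, ∑ k, y k * Q k e =
        ((s (Function.update f i e) : ℍ[ℝ]) + q * t (Function.update f i e)) * m := by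
    intro f i
    set k0 : Fin r → ℂ := fun k => s (Function.update f i (f0 k)) with hk0
    set k1 : Fin r → ℂ := fun k => t (Function.update f i (f0 k)) with hk1
    have hc : ∀ e g, s (Function.update f i e) + g * t (Function.update f i e) =
        (∑ k, k0 k * A0 k e) + g * ((∑ k, k1 k * A0 k e) + (∑ k, k0 k * v k) * b e) +
          g ^ 2 * ((∑ k, k1 k * v k) * b e) := by
      intro e g
      rw [← hdet, show (Matrix.of fun i e => A0 i e + g * (v i * b e)) = D g from rfl,
        pencil_cof D f0 hD0]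
      simp only [Finset.sum_mul, Finset.mul_sum, mul_add, ← Finset.sum_add_distrib]
      refine Finset.sum_congr rfl fun k _ => ?_
      rw [show D g = (Matrix.of fun i e => A0 i e + g * (v i * b e)) from rfl, hdet]
      simp only [Matrix.of_apply, hk0, hk1]
      ring
    have hs : ∀ e, s (Function.update f i e) = ∑ k, k0 k * A0 k e := by
      intro e; simpa using hc e 0
    have h2 : ∀ e, (∑ k, k1 k * v k) * b e = 0 := by
      intro e; linear_combination (hc e 0) - (hc e 1) / 2 - (hc e (-1)) / 2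
    have ht : ∀ e, t (Function.update f i e) =
        (∑ k, k1 k * A0 k e) + (∑ k, k0 k * v k) * b e := by
      intro e; linear_combination (hc e 1) / 2 - (hc e (-1)) / 2
    obtain ⟨m, hm0, hm⟩ : ∃ m : ℂ, m ≠ 0 ∧ ((m * ∑ k, k0 k * v k : ℂ) : ℍ[ℝ]) * q =
        q * ((m * ∑ k, k0 k * v k : ℂ) : ℍ[ℝ]) := by
      by_cases h : (∑ k, k0 k * v k) = 0
      · exact ⟨1, one_ne_zero, by simp [h]⟩
      · exact ⟨(∑ k, k0 k * v k)⁻¹, inv_ne_zero h, by simp [inv_mul_cancel₀ h]⟩
    refine ⟨fun k => ((m * k0 k : ℂ) : ℍ[ℝ]) + q * ((m * k1 k : ℂ) : ℍ[ℝ]), m, hm0, fun e => ?_⟩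
    have e1 : ∑ k, (((m * k0 k : ℂ) : ℍ[ℝ]) + q * ((m * k1 k : ℂ) : ℍ[ℝ])) * Q k e =
        ((m * ∑ k, k0 k * A0 k e : ℂ) : ℍ[ℝ]) +
          ((m * ∑ k, k0 k * v k : ℂ) : ℍ[ℝ]) * q * b e +
          q * ((m * ∑ k, k1 k * A0 k e : ℂ) : ℍ[ℝ]) +
          q * (m : ℍ[ℝ]) * (((∑ k, k1 k * v k : ℂ) : ℍ[ℝ]) * q * b e) := by
      simp only [Finset.mul_sum, Finset.sum_mul, coe_sum, ← Finset.sum_add_distrib]
      refine Finset.sum_congr rfl fun k _ => ?_
      simp only [hQ, Matrix.of_apply, Quaternion.coeComplex_mul]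
      noncomm_ring
    have e2 : ((∑ k, k1 k * v k : ℂ) : ℍ[ℝ]) * q * b e = 0 := by
      rcases mul_eq_zero.mp (h2 e) with h | h
      · simp [h]
      · simp [h]
    rw [e1, e2, hm, hs, ht, mul_zero, add_zero, add_mul, mul_assoc q, mul_assoc q, add_assoc,
      ← mul_add]
    simp only [← Quaternion.coeComplex_mul, ← Quaternion.coeComplex_add]
    congr 2
    · ring
    · congr 1; ring
  have hrow : ∀ f, ¬ (s f = 0 ∧ t f = 0) → ∀ i, ∃ y : Fin r → ℍ[ℝ],
      (∀ j, (∑ k, y k * Q k (f j)) = if j = i then 1 else 0) ∧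
      ∀ e, ((∑ k, y k * Q k e) = 0 ∨ (‖∑ k, y k * Q k e‖ = 1 ∧
        ¬ (s (Function.update f i e) = 0 ∧ t (Function.update f i e) = 0))) := by
    intro f hf i
    obtain ⟨y, m, hm0, hy⟩ := hkey f i
    have hn : ‖(s f : ℍ[ℝ]) + q * t f‖ = 1 := (hnorm f).resolve_left hf
    have hw : ((s f : ℍ[ℝ]) + q * t f) * m ≠ 0 := by
      refine mul_ne_zero ?_ (by rw [Ne, coe_eq_zero]; exact hm0)
      intro h; rw [h] at hn; simp at hn
    have hy' : ∀ e, ∑ k, ((((s f : ℍ[ℝ]) + q * t f) * m)⁻¹ * y k) * Q k e =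
        (((s f : ℍ[ℝ]) + q * t f) * m)⁻¹ *
          (((s (Function.update f i e) : ℍ[ℝ]) + q * t (Function.update f i e)) * m) := by
      intro e
      rw [← hy e, Finset.mul_sum]
      simp only [mul_assoc]
    refine ⟨fun k => (((s f : ℍ[ℝ]) + q * t f) * m)⁻¹ * y k, fun j => ?_, fun e => ?_⟩
    · rw [hy']
      by_cases hj : j = i
      · subst hj
        simp only [Function.update_eq_self, if_true]
        exact inv_mul_cancel₀ hw
      · have := hzero (Function.update f i (f j)) fun g => by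
          apply Matrix.det_zero_of_column_eq (Ne.symm hj)
          intro k
          simp [Function.update_of_ne hj]
        simp [this.1, this.2, hj]
    · rw [hy']
      rcases hnorm (Function.update f i e) with h | h
      · left; simp [h.1, h.2]
      · right
        refine ⟨?_, ?_⟩
        · have hm1 : ‖(m : ℍ[ℝ])‖ ≠ 0 := by
            rw [norm_ne_zero_iff, Ne, coe_eq_zero]; exact hm0
          rw [norm_mul, norm_inv, norm_mul, norm_mul, hn, h]
          field_simp
        · rintro ⟨h1, h2⟩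
          simp [h1, h2] at h
  have hf0' : ¬ (s f0 = 0 ∧ t f0 = 0) := by
    rintro ⟨h1, _⟩
    have := hdet f0 0
    rw [show (Matrix.of fun i e => A0 i e + 0 * (v i * b e)) = D 0 from rfl] at this
    have h3 : (D 0).submatrix id f0 = 1 := by
      refine Matrix.ext fun i j => ?_
      simp [hD0, Matrix.one_apply]
    rw [h3, h1] at this
    simp at this
  obtain ⟨hQU, hunit⟩ := isQUMatrix_of_rows Q (fun f => ¬ (s f = 0 ∧ t f = 0)) ⟨f0, hf0'⟩ hrow
  refine ⟨hQU, fun f => ⟨fun hu => ?_, hunit f⟩⟩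
  rintro ⟨h1, h2⟩
  have hd0 : ((D 0).submatrix id f).det = 0 := by
    have := hdet f 0
    rw [h1, h2, mul_zero, add_zero] at this
    exact this
  have hd1 : ((D 1).submatrix id f).det = 0 := by
    have := hdet f 1
    rw [h1, h2, mul_zero, add_zero] at this
    exact this
  obtain ⟨w, hw0, hw⟩ := Matrix.exists_mulVec_eq_zero_iff.mpr hd0
  obtain ⟨x, hx0, hx⟩ := Matrix.exists_vecMul_eq_zero_iff.mpr hd1
  have hw' : ∀ k, ∑ j, A0 k (f j) * w j = 0 := by
    intro k
    simpa [Matrix.mulVec, dotProduct, hD] using congrFun hw k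
  have hx' : ∀ j, ∑ k, x k * A0 k (f j) + (∑ k, x k * v k) * b (f j) = 0 := by
    intro j
    have := congrFun hx j
    simp only [Matrix.vecMul, dotProduct, hD, Matrix.submatrix_apply, id, Matrix.of_apply,
      Pi.zero_apply] at this
    rw [← this, Finset.sum_mul, ← Finset.sum_add_distrib]
    refine Finset.sum_congr rfl fun k _ => ?_
    ring
  have hprod : (∑ k, x k * v k) * (∑ j, b (f j) * w j) = 0 := by
    have e1 : ∑ j, (∑ k, x k * A0 k (f j) + (∑ k, x k * v k) * b (f j)) * w j = 0 := by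
      simp [hx']
    have e2 : ∑ j, (∑ k, x k * A0 k (f j)) * w j = 0 := by
      simp only [Finset.sum_mul]
      rw [Finset.sum_comm]
      refine Finset.sum_eq_zero fun k _ => ?_
      simp only [mul_assoc, ← Finset.mul_sum, hw', mul_zero]
    simp only [add_mul, Finset.sum_add_distrib, e2, zero_add] at e1
    rw [← e1, Finset.mul_sum]
    refine Finset.sum_congr rfl fun j _ => ?_
    ring
  obtain ⟨U, hU⟩ := hu
  rcases mul_eq_zero.mp hprod with h | h
  · -- a common left null vector
    have hz : (fun k => (x k : ℍ[ℝ])) ᵥ* (Q.submatrix id f) = 0 := by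
      funext j
      have h3 := hx' j
      rw [h, zero_mul, add_zero] at h3
      simp only [Matrix.vecMul, dotProduct, Matrix.submatrix_apply, id, hQ, Matrix.of_apply,
        Pi.zero_apply, mul_add, Finset.sum_add_distrib, ← mul_assoc, ← Finset.sum_mul,
        ← Quaternion.coeComplex_mul, ← coe_sum, h, h3]
      simp
    apply hx0
    have : (fun k => (x k : ℍ[ℝ])) = 0 := by
      have h4 := congrArg (fun z => z ᵥ* (↑U⁻¹ : Matrix (Fin r) (Fin r) ℍ[ℝ])) hz
      simpa [← hU, Matrix.vecMul_vecMul] using h4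
    funext k
    exact coe_eq_zero.mp (congrFun this k)
  · have hz : (Q.submatrix id f) *ᵥ (fun k => (w k : ℍ[ℝ])) = 0 := by
      funext k
      simp only [Matrix.mulVec, dotProduct, Matrix.submatrix_apply, id, hQ, Matrix.of_apply,
        Pi.zero_apply, add_mul, Finset.sum_add_distrib, mul_assoc, ← Finset.mul_sum,
        ← Quaternion.coeComplex_mul, ← coe_sum, h, hw' k]
      simp
    apply hw0
    have : (fun k => (w k : ℍ[ℝ])) = 0 := by
      have h4 := congrArg (fun z => (↑U⁻¹ : Matrix (Fin r) (Fin r) ℍ[ℝ]) *ᵥ z) hz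
      simpa [← hU, Matrix.mulVec_mulVec] using h4
    funext k
    exact coe_eq_zero.mp (congrFun this k)

end Pool.Agent.Lib.MP_10bdcf_co
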