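import Pool.Agent.Lib.MP_10bdcf_co.FrA
import Pool.Agent.Lib.MP_10bdcf_co.FrQ
import Pool.Agent.Lib.MP_10bdcf_co.Quat

/-!
Frame matrices over U_2 are QU.
-/

namespace Pool.Agent.Lib.MP_10bdcf_co.Fr

open scoped Quaternion
open Matrix

variable {r : ℕ} {E : Type}

theorem det_update {K : Type} [CommRing K] (A : Matrix (Fin r) E K) (f : Fin r → E) (i : Fin r)
    (e : E) (x : Fin r → K) (c : K) (hx : ∀ j, ∑ k, x k * A k (f j) = if j = i then c else 0) :
    c * (A.submatrix id (Function.update f i e)).det =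
      (A.submatrix id f).det * ∑ k, x k * A k e := by
  have h1 : A.submatrix id (Function.update f i e) =
      (A.submatrix id f).updateCol i fun k => A k e := by
    ext k j
    by_cases h : j = i
    · subst h; simp
    · simp [h]
  have h2 := congrArg (fun v => x ⬝ᵥ v) (Matrix.mulVec_cramer (A.submatrix id f) fun k => A k e)
  simp only [Matrix.dotProduct_mulVec, dotProduct_smul, smul_eq_mul] at h2
  have h3 : x ᵥ* A.submatrix id f = Pi.single i c := by
    ext j
    simp only [Matrix.vecMul, dotProduct, Matrix.submatrix_apply, id, hx j, Pi.single_apply]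
  rw [h3, single_dotProduct, Matrix.cramer_apply, ← h1] at h2
  exact h2

/-- Darts given by the columns in `S` with two nonzero entries. -/
def DS (A : Matrix (Fin r) E K2) (S : Set E) : Fin r → Fin r → G2 → Prop :=
  fun i j a => i ≠ j ∧ ∃ e ∈ S, A i e ≠ 0 ∧ A j e ≠ 0 ∧ A i e + ((a : K2ˣ) : K2) * A j e = 0

/-- At most two nonzero entries in each column. -/
def Col2 (A : Matrix (Fin r) E K2) : Prop :=
  ∀ e i j k, A i e ≠ 0 → A j e ≠ 0 → A k e ≠ 0 → i = j ∨ i = k ∨ j = k

theorem DS_sym (A : Matrix (Fin r) E K2) (S : Set E) : Sym (DS A S) := by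
  rintro i j a ⟨h, e, he, h1, h2, h3⟩
  refine ⟨h.symm, e, he, h2, h1, ?_⟩
  have h4 : ((a : K2ˣ) : K2) ≠ 0 := Units.ne_zero _
  simp only [InvMemClass.coe_inv, Units.val_inv_eq_inv_val]
  field_simp
  linear_combination h3

theorem Col2.zero {A : Matrix (Fin r) E K2} (hc : Col2 A) {e : E} {i j k : Fin r} (hij : i ≠ j)
    (hi : A i e ≠ 0) (hj : A j e ≠ 0) (hki : k ≠ i) (hkj : k ≠ j) : A k e = 0 := by
  by_contra h
  rcases hc e i j k hi hj h with h | h | h
  exacts [hij h, hki h.symm, hkj h.symm]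

theorem sum_two {K : Type} [Semiring K] (y c : Fin r → K) {i j : Fin r} (hij : i ≠ j)
    (h : ∀ k, k ≠ i → k ≠ j → c k = 0) : ∑ k, y k * c k = y i * c i + y j * c j :=
  Fintype.sum_eq_add i j hij fun k hk => by simp [h k hk.1 hk.2]

theorem path_cols {A : Matrix (Fin r) E K2} (hc : Col2 A) (b : Fin r → E) {p : List (Fin r × G2)}
    {u v : Fin r} (hp : Pth (DS A Set.univ) u p v) :
    ∃ (f : Fin r → E) (x : Fin r → K2), (∀ i, i ∉ vs p → f i = b i) ∧ x u = 1 ∧
      (∀ i, i ∉ u :: vs p → x i = 0) ∧ x v = ((gn p : G2) : K2ˣ) ∧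
      (∀ i ∈ vs p, ∑ k, x k * A k (f i) = 0) ∧ (∀ i ∈ vs p, ∀ k, k ∉ u :: vs p → A k (f i) = 0) ∧
      ∀ y : Fin r → K2, (∀ i ∈ vs p, ∑ k, y k * A k (f i) = 0) → y u = 0 → ∀ i ∈ vs p, y i = 0 := by
  induction p generalizing u with
  | nil =>
    obtain rfl : u = v := hp.1
    exact ⟨b, Pi.single u 1, fun _ _ => rfl, by simp, fun i hi => by
      simpa using Pi.single_eq_of_ne (by simpa using hi) _, by simp, by simp, by simp, by simp⟩
  | cons s p ih =>
    obtain ⟨w, a⟩ := s
    have hn := List.nodup_cons.1 hp.2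
    obtain ⟨f, x, h1, h2, h3, h4, h5, h6, h7⟩ := ih ⟨hp.1.2, hn.2⟩
    obtain ⟨huw, e, -, k1, k2, k3⟩ := hp.1.1
    have hw : w ∉ vs p := (List.nodup_cons.1 hn.2).1
    have hu : u ∉ w :: vs p := hn.1
    have hxu : x u = 0 := h3 u hu
    have hv : v ≠ u := fun e => hu (e ▸ hp.1.2.end_mem)
    have hf : ∀ i ∈ vs p, Function.update f w e i = f i := fun i hi =>
      Function.update_of_ne (fun e' : i = w => hw (e' ▸ hi)) _ _
    have hz := fun k => hc.zero (k := k) huw k1 k2
    refine ⟨Function.update f w e, fun k => (Pi.single u 1 : Fin r → K2) k + ((a : K2ˣ) : K2) * x k,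
      fun i hi => ?_, by simp [hxu], fun i hi => ?_, by simp [hv, h4], fun i hi => ?_,
      fun i hi k hk => ?_, fun y hy hyu i hi => ?_⟩
    · simp only [vs_cons, List.mem_cons, not_or] at hi
      rw [Function.update_of_ne hi.1, h1 i hi.2]
    · simp only [vs_cons, List.mem_cons, not_or] at hi
      simp [hi.1, h3 i (by simp [hi.2.1, hi.2.2])]
    · rcases List.mem_cons.1 hi with rfl | hi
      · rw [Function.update_self, sum_two _ _ huw hz]
        simp only [Pi.single_eq_same, hxu, Pi.single_eq_of_ne huw.symm, h2]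
        linear_combination k3
      · rw [hf i hi]
        simp only [add_mul, Finset.sum_add_distrib, mul_assoc, ← Finset.mul_sum, h5 i hi]
        simp [Pi.single_apply, h6 i hi u hu]
    · simp only [vs_cons, List.mem_cons, not_or] at hk
      rcases List.mem_cons.1 hi with rfl | hi
      · rw [Function.update_self]; exact hz k hk.1 hk.2.1
      · rw [hf i hi]; exact h6 i hi k (by simp [hk.2.1, hk.2.2])
    · have hyw : y w = 0 := by
        have := hy w (by simp)
        rw [Function.update_self, sum_two _ _ huw hz, hyu, zero_mul, zero_add] at this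
        exact (mul_eq_zero.1 this).resolve_right k2
      rcases List.mem_cons.1 hi with rfl | hi
      · exact hyw
      · exact h7 y (fun j hj => hf j hj ▸ hy j (by simp [hj])) hyw i hi

theorem entry_mem {A : Matrix (Fin r) E K2} (hA : IsWeakU2 A) {b : Fin r → E}
    (hb : ∀ i j, A i (b j) = if i = j then 1 else 0) {i : Fin r} {e : E} (h : A i e ≠ 0) :
    ∃ g : G2, A i e = ((g : K2ˣ) : K2) := by
  have h0 : A.submatrix id b = 1 := by ext i j; simp [hb, Matrix.one_apply]
  have h1 := det_update A b i e (Pi.single i 1) 1 fun j => by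
    simp [Pi.single_apply, hb, eq_comm]
  simp only [h0, det_one, one_mul, Pi.single_apply, ite_mul, zero_mul, Finset.sum_ite_eq',
    Finset.mem_univ, if_true] at h1
  rcases hA.1 (Function.update b i e) with h2 | ⟨g, hg, h2⟩
  · exact absurd (h1.symm.trans h2) h
  · exact ⟨⟨g, hg⟩, h1.symm.trans h2⟩

theorem cycle_fund {A : Matrix (Fin r) E K2} (hA : IsWeakU2 A) (hc : Col2 A) {b : Fin r → E}
    (hb : ∀ i j, A i (b j) = if i = j then 1 else 0) (u : Fin r) (l : List (Fin r × G2))
    (hl : Cy (DS A Set.univ) u l) :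
    gn l = 1 ∨ ∃ h : G2, ((gn l : G2) : K2ˣ) + ((h : K2ˣ) : K2) = 1 := by
  rcases List.eq_nil_or_concat l with rfl | ⟨p, ⟨w, a⟩, rfl⟩
  · exact Or.inl rfl
  rw [List.concat_eq_append] at hl ⊢
  obtain ⟨v, hp, ⟨hvu, e, -, k1, k2, k3⟩, (rfl : w = u)⟩ := wk_append.1 hl.1
  have hn := hl.2
  simp only [vs_append, vs_cons, vs_nil] at hn
  have hP : Pth (DS A Set.univ) w p v :=
    ⟨hp, (List.perm_append_singleton _ _).nodup_iff.1 hn⟩
  have hw : w ∉ vs p := (List.nodup_cons.1 hP.2).1
  obtain ⟨f, x, h1, h2, h3, h4, h5, -, h7⟩ := path_cols hc b hP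
  have hbs : ∀ (y : Fin r → K2) j, j ∉ vs p → ∑ k, y k * A k (f j) = y j := fun y j hj => by
    simp [h1 j hj, hb]
  have hx : ∀ j, ∑ k, x k * A k (f j) = if j = w then 1 else 0 := fun j => by
    by_cases hj : j ∈ vs p
    · rw [h5 j hj, if_neg fun e' : j = w => hw (e' ▸ hj)]
    · rw [hbs x j hj]
      split_ifs with h
      · rw [h, h2]
      · exact h3 j (by simp [h, hj])
  have hd : (A.submatrix id f).det ≠ 0 := fun h0 => by
    obtain ⟨y, hy0, hy⟩ := Matrix.exists_vecMul_eq_zero_iff.2 h0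
    have hy' : ∀ j, ∑ k, y k * A k (f j) = 0 := fun j => congrFun hy j
    have hy1 : ∀ j, j ∉ vs p → y j = 0 := fun j hj => (hbs y j hj).symm.trans (hy' j)
    exact hy0 (funext fun j => by
      by_cases hj : j ∈ vs p
      exacts [h7 y (fun i _ => hy' i) (hy1 w hw) j hj, hy1 j hj])
  have h8 := det_update A f w e x 1 hx
  rw [sum_two _ _ hvu fun k => hc.zero hvu k1 k2, h2, h4, one_mul, one_mul] at h8
  obtain ⟨g1, hg1, e1⟩ := (hA.1 f).resolve_left hd
  obtain ⟨g2, e2⟩ := entry_mem hA hb k2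
  have e3 : ((gn (p ++ [(w, a)]) : G2) : K2ˣ) = ((gn p : G2) : K2ˣ) * ((a : K2ˣ) : K2) := by simp
  rcases hA.1 (Function.update f w e) with h9 | ⟨g3, hg3, h9⟩
  · left
    apply Subtype.ext
    apply Units.ext
    rw [h9, eq_comm, mul_eq_zero] at h8
    have := h8.resolve_left hd
    rw [e3]
    apply mul_right_cancel₀ k2
    simp only [OneMemClass.coe_one, Units.val_one]
    linear_combination ((gn p : G2) : K2ˣ) * k3 - this
  · right
    refine ⟨⟨g3, hg3⟩ * (⟨g1, hg1⟩ * g2)⁻¹, ?_⟩
    rw [e3]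
    simp only [MulMemClass.coe_mul, InvMemClass.coe_inv, Units.val_mul, Units.val_inv_eq_inv_val,
      ← e1, ← e2, ← h9, h8]
    field_simp
    linear_combination ((gn p : G2) : K2ˣ) * k3

open Classical in
/-- The quaternionic matrix given by a lift. -/
noncomputable def hat (A : Matrix (Fin r) E K2) (L : Fin r → Fin r → G2 → SQ) :
    Matrix (Fin r) E ℍ[ℝ] := fun k e =>
  if h : ∃ p : Fin r × Fin r × G2, DS A {e} p.1 p.2.1 p.2.2 then
    (if k = h.choose.1 then -(L h.choose.1 h.choose.2.1 h.choose.2.2 : ℍ[ℝ])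
      else if k = h.choose.2.1 then 1 else 0)
  else if A k e = 0 then 0 else 1

theorem hat_spec {A : Matrix (Fin r) E K2} (hA : IsWeakU2 A) {b : Fin r → E}
    (hb : ∀ i j, A i (b j) = if i = j then 1 else 0) (L : Fin r → Fin r → G2 → SQ) (e : E) :
    (∃ i j a, DS A {e} i j a ∧ hat A L i e = -(L i j a : ℍ[ℝ]) ∧ hat A L j e = 1 ∧
      ∀ k, k ≠ i → k ≠ j → hat A L k e = 0) ∨
    (∃ i, A i e ≠ 0 ∧ hat A L i e = 1 ∧ ∀ k, k ≠ i → A k e = 0 ∧ hat A L k e = 0) ∨
    ∀ k, A k e = 0 ∧ hat A L k e = 0 := by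
  by_cases h : ∃ p : Fin r × Fin r × G2, DS A {e} p.1 p.2.1 p.2.2
  · refine Or.inl ⟨_, _, _, h.choose_spec, by simp [hat, h], ?_, fun k h1 h2 => ?_⟩
    · simp only [hat, dif_pos h, if_neg h.choose_spec.1.symm, if_true]
    · simp only [hat, dif_pos h, if_neg h1, if_neg h2]
  right
  by_cases h1 : ∃ i, A i e ≠ 0
  · obtain ⟨i, hi⟩ := h1
    refine Or.inl ⟨i, hi, by simp [hat, h, hi], fun k hk => ?_⟩
    have : A k e = 0 := by
      by_contra hk0
      obtain ⟨g1, e1⟩ := entry_mem hA hb hi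
      obtain ⟨g2, e2⟩ := entry_mem hA hb hk0
      have hm : (-1 : K2ˣ) ∈ G2 := Subgroup.subset_closure (Or.inl (by simp))
      refine h ⟨(k, i, ⟨-1, hm⟩ * g2 * g1⁻¹), hk, e, rfl, hk0, hi, ?_⟩
      simp only [MulMemClass.coe_mul, InvMemClass.coe_inv, Units.val_mul,
        Units.val_inv_eq_inv_val, ← e1, ← e2, Units.val_neg, Units.val_one]
      field_simp
      ring
    exact ⟨this, by simp [hat, h, this]⟩
  · push Not at h1
    exact Or.inr fun k => ⟨h1 k, by simp [hat, h, h1 k]⟩

theorem transfer {A : Matrix (Fin r) E K2} (hA : IsWeakU2 A) (hc : Col2 A) {b : Fin r → E}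
    (hb : ∀ i j, A i (b j) = if i = j then 1 else 0) {L : Fin r → Fin r → G2 → SQ}
    (hL : Good GQ (DS A Set.univ) L) (S : Set E) (x : Fin r → K2)
    (hx : ∀ e ∈ S, ∑ k, x k * A k e = 0) {u : Fin r} (hu : x u ≠ 0) :
    ∃ (x' : Fin r → K2) (y : Fin r → ℍ[ℝ]), x' u ≠ 0 ∧ y u ≠ 0 ∧
      (∀ e ∈ S, ∑ k, x' k * A k e = 0) ∧
      ∀ e, (∑ k, x' k * A k e = 0 ∧ ∑ k, y k * hat A L k e = 0) ∨
        (∑ k, x' k * A k e ≠ 0 ∧ ‖∑ k, y k * hat A L k e‖ = 1) := by
  classical
  have hs := DS_sym A S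
  have mono : ∀ i j a, DS A S i j a → DS A Set.univ i j a :=
    fun i j a ⟨h, e, _, h'⟩ => ⟨h, e, trivial, h'⟩
  have hinv : InvC (DS A S) L := fun i j a h => hL.1 i j a (mono _ _ _ h)
  have hxw : ∀ l s t, Wk (DS A S) s l t → x t = x s * ((gn l : G2) : K2ˣ) := by
    intro l
    induction l with
    | nil => intro s t h; obtain rfl : s = t := h; simp
    | cons d l ih =>
      rintro s t ⟨⟨hne, e, he, k1, k2, k3⟩, h⟩
      have h1 := hx e he
      rw [sum_two _ _ hne fun k => hc.zero hne k1 k2] at h1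
      have h2 : x d.1 = x s * ((d.2 : K2ˣ) : K2) := by
        apply mul_right_cancel₀ k2
        linear_combination h1 - x s * k3
      rw [ih _ _ h, h2]; simp [mul_assoc]
  let U : Fin r → Prop := fun w => ∃ l, Wk (DS A S) u l w
  have hU : ∀ l s t, U s → Wk (DS A S) s l t → U t := fun l s t ⟨m, hm⟩ h => ⟨_, hm.append h⟩
  have hU0 : ∀ w, U w → x w ≠ 0 := fun w ⟨l, hl⟩ => by
    rw [hxw _ _ _ hl]; exact mul_ne_zero hu (Units.ne_zero _)
  have closed : ∀ l, Wk (DS A S) u l u → lf L u l = 1 := by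
    intro l hl
    obtain ⟨p, hp, -, h⟩ := hl.exists_pth
    rw [← h SQ L fun z c hz hc' => ?_, hp.nil_of_closed, lf_nil]
    have hz' : U z := by
      rcases List.mem_cons.1 hz with rfl | hz
      · exact ⟨[], rfl⟩
      · obtain ⟨l1, l2, -, -, h1, -⟩ := hl.split hz
        exact ⟨l1, h1⟩
    refine (hL.2 z c (hc'.mono mono)).1 (Subtype.ext (Units.ext ?_))
    have := hxw _ _ _ hc'.1
    exact (mul_eq_left₀ (hU0 z hz')).1 this.symm
  let Y : Fin r → SQ := fun w => if h : U w then lf L u h.choose else 1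
  have hY : ∀ l s t, U s → Wk (DS A S) s l t → Y t = Y s * lf L s l := by
    intro l s t h1 h
    have h2 := hU l s t h1 h
    have := closed _ ((h1.choose_spec.append h).append (h2.choose_spec.rev hs))
    rw [lf_append L _ (h1.choose_spec.append h), lf_append L _ h1.choose_spec,
      lf_rev hs hinv h2.choose_spec, mul_inv_eq_one] at this
    simp only [Y, dif_pos h1, dif_pos h2, this]
  have hUu : U u := ⟨[], rfl⟩
  have key : ∀ e, (∑ k, (if U k then x k else 0) * A k e = 0 ∧
      ∑ k, (if U k then (Y k : ℍ[ℝ]) else 0) * hat A L k e = 0) ∨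
      (∑ k, (if U k then x k else 0) * A k e ≠ 0 ∧
        ‖∑ k, (if U k then (Y k : ℍ[ℝ]) else 0) * hat A L k e‖ = 1 ∧ e ∉ S) := by
    intro e
    rcases hat_spec hA hb L e with ⟨i, j, a, ⟨hij, e', rfl, k1, k2, k3⟩, m1, m2, m3⟩ |
      ⟨i, k1, m1, m2⟩ | h
    · rw [sum_two _ _ hij fun k => hc.zero hij k1 k2, sum_two _ _ hij m3, m1, m2]
      have hd : e' ∈ S → DS A S i j a := fun he => ⟨hij, e', he, k1, k2, k3⟩
      by_cases hi : U i <;> by_cases hj : U j <;> simp only [hi, hj, if_true, if_false]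
      · obtain ⟨q, hq, -, -⟩ := ((hi.choose_spec.rev hs).append hj.choose_spec).exists_pth
        have o := hL.edge (DS_sym A _) (hq.mono mono) ⟨hij, e', trivial, k1, k2, k3⟩ hij
        have e1 : x i * A i e' + x j * A j e' =
            x i * A j e' * ((((gn q : G2) : K2ˣ) : K2) - (a : K2ˣ)) := by
          rw [hxw _ _ _ hq.1]; linear_combination x i * k3
        have e2 : (Y i : ℍ[ℝ]) * -(L i j a : ℍ[ℝ]) + (Y j : ℍ[ℝ]) * 1 =
            Y i * (((lf L i q * (L i j a)⁻¹ : SQ) : ℍ[ℝ]) - 1) * L i j a := by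
          have : (Y j : ℍ[ℝ]) = Y i * ((lf L i q * (L i j a)⁻¹ : SQ) : ℍ[ℝ]) * L i j a := by
            rw [hY _ _ _ hi hq.1]
            norm_cast
            group
          rw [this]; noncomm_ring
        by_cases hg : gn q * a⁻¹ = 1
        · left
          rw [e1, e2, o.1 hg, mul_inv_eq_one.1 hg]
          simp
        · right
          have hne : x i * A i e' + x j * A j e' ≠ 0 := by
            rw [e1]
            refine mul_ne_zero (mul_ne_zero (hU0 i hi) k2) (sub_ne_zero.2 fun e => hg ?_)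
            exact mul_inv_eq_one.2 (Subtype.ext (Units.ext e))
          refine ⟨hne, ?_, fun he => hne ?_⟩
          · rw [e2, norm_mul, norm_mul, sq_norm, sq_norm, norm_sub_one_of_GQ (o.2 hg)]; simp
          · rw [← sum_two _ _ hij fun k => hc.zero hij k1 k2]; exact hx _ he
      · refine Or.inr ⟨by simpa using ⟨hU0 i hi, k1⟩, by simp, fun he => hj ?_⟩
        exact hU [(j, a)] i j hi ⟨hd he, rfl⟩
      · refine Or.inr ⟨by simpa using ⟨hU0 j hj, k2⟩, by simp, fun he => hi ?_⟩
        exact hU [(i, a⁻¹)] j i hj ⟨hs _ _ _ (hd he), rfl⟩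
      · left; simp
    · rw [Fintype.sum_eq_single i fun k hk => by simp [(m2 k hk).1],
        Fintype.sum_eq_single i fun k hk => by simp [(m2 k hk).2], m1]
      by_cases hi : U i <;> simp only [hi, if_true, if_false]
      · refine Or.inr ⟨mul_ne_zero (hU0 i hi) k1, by simp, fun he => ?_⟩
        have := hx e he
        rw [Fintype.sum_eq_single i fun k hk => by simp [(m2 k hk).1]] at this
        exact mul_ne_zero (hU0 i hi) k1 this
      · left; simp
    · left; simp [h]
  refine ⟨fun k => if U k then x k else 0, fun k => if U k then (Y k : ℍ[ℝ]) else 0,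
    by simpa [hUu] using hu, ?_, fun e he => ?_, fun e => (key e).imp id fun h => ⟨h.1, h.2.1⟩⟩
  · simp only [hUu, if_true]
    exact norm_ne_zero_iff.1 (by simp)
  · rcases key e with h | h
    exacts [h.1, absurd he h.2.2]

theorem isQU_of_col2 [Finite E] {A : Matrix (Fin r) E K2} (hA : IsWeakU2 A) (hc : Col2 A)
    {b : Fin r → E} (hb : ∀ i j, A i (b j) = if i = j then 1 else 0) {M : Matroid E}
    (hM : RepresentsK A M) : IsQU M := by
  classical
  obtain ⟨L, hL⟩ := exists_lift pg_GQ (DS A Set.univ) (DS_sym A _) (fun _ _ _ h => h.1)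
    (cycle_fund hA hc hb)
  obtain ⟨h1, h2⟩ := isQUMatrix_of_rows (hat A L) (fun f => (A.submatrix id f).det ≠ 0) hA.2
    (fun f hf i => by
      have hinv := Matrix.nonsing_inv_mul _ (Ne.isUnit hf)
      have hx : ∀ j, ∑ k, (A.submatrix id f)⁻¹ i k * A k (f j) = if i = j then 1 else 0 :=
        fun j => by simpa [Matrix.mul_apply, Matrix.one_apply] using congrFun (congrFun hinv i) j
      obtain ⟨u, hu⟩ : ∃ u, (A.submatrix id f)⁻¹ i u ≠ 0 := by
        by_contra h0
        push Not at h0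
        simpa [h0] using hx i
      obtain ⟨x, y, hxu, -, hS, hT⟩ := transfer hA hc hb hL {e | ∃ j, j ≠ i ∧ f j = e} _
        (by rintro e ⟨j, hj, rfl⟩; rw [hx, if_neg hj.symm]) hu
      have hS' : ∀ j, j ≠ i → ∑ k, x k * A k (f j) = 0 := fun j hj => hS _ ⟨j, hj, rfl⟩
      have hc0 : ∑ k, x k * A k (f i) ≠ 0 := fun h0 => hf (Matrix.exists_vecMul_eq_zero_iff.1
        ⟨x, fun e => hxu (congrFun e u), funext fun j => by
          by_cases hj : j = i
          · subst hj; exact h0
          · exact hS' j hj⟩)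
      have hn : ‖∑ k, y k * hat A L k (f i)‖ = 1 := ((hT (f i)).resolve_left fun h => hc0 h.1).2
      have hn0 : ∑ k, y k * hat A L k (f i) ≠ 0 := norm_ne_zero_iff.1 (by simp [hn])
      refine ⟨fun k => (∑ k, y k * hat A L k (f i))⁻¹ * y k, fun j => ?_, fun e => ?_⟩
      · simp only [mul_assoc, ← Finset.mul_sum]
        split_ifs with hj
        · rw [hj, inv_mul_cancel₀ hn0]
        · rw [((hT (f j)).resolve_right fun h => h.1 (hS' j hj)).2, mul_zero]
      · simp only [mul_assoc, ← Finset.mul_sum]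
        rcases hT e with h | h
        · left; rw [h.2, mul_zero]
        · refine Or.inr ⟨by rw [norm_mul, norm_inv, hn, h.2]; simp, fun h0 => ?_⟩
          have := det_update A f i e x _ fun j => by
            by_cases hj : j = i
            · rw [if_pos hj, hj]
            · rw [if_neg hj, hS' j hj]
          rw [h0, mul_zero] at this
          exact mul_ne_zero hf h.1 this.symm)
  refine ⟨r, hat A L, h1, hM.1, fun B => (hM.2 B).trans (exists_congr fun f =>
    and_congr_right fun _ => and_congr_right fun _ => ⟨h2 f, fun hU h0 => ?_⟩)⟩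
  obtain ⟨x, hx0, hx⟩ := Matrix.exists_vecMul_eq_zero_iff.2 h0
  obtain ⟨u, hu⟩ := Function.ne_iff.1 hx0
  obtain ⟨x', y, -, hyu, hS, hT⟩ := transfer hA hc hb hL (Set.range f) x
    (by rintro e ⟨j, rfl⟩; exact congrFun hx j) hu
  have hy : y ᵥ* (hat A L).submatrix id f = 0 := funext fun j =>
    ((hT (f j)).resolve_right fun h => h.1 (hS _ ⟨j, rfl⟩)).2
  obtain ⟨N, hN⟩ := hU.exists_right_inv
  have := congrArg (fun v => v ᵥ* N) hy
  simp only [Matrix.vecMul_vecMul, hN, Matrix.vecMul_one, Matrix.zero_vecMul] at this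
  exact hyu (congrFun this u)

/-- A 2-uniform matroid with a frame is QU. -/
theorem isQU_of_frame [Finite E] (M : Matroid E) (A : Matrix (Fin r) E K2) (hA : IsWeakU2 A)
    (hM : RepresentsK A M) (B : Set E) (hB : M.IsBase B)
    (hF : ∀ e, ∃ X ⊆ B, X.encard ≤ 2 ∧ e ∈ M.closure X) : IsQU M := by
  classical
  obtain ⟨b, hbi, rfl, hbd⟩ := (hM.2 B).1 hB
  set A' : Matrix (Fin r) E K2 := (A.submatrix id b)⁻¹ * A with hA'
  have hsub : ∀ f : Fin r → E, A'.submatrix id f = (A.submatrix id b)⁻¹ * A.submatrix id f :=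
    fun f => by ext i j; simp [hA', Matrix.mul_apply]
  have hdet : ∀ f : Fin r → E, (A'.submatrix id f).det =
      ((A.submatrix id b).det)⁻¹ * (A.submatrix id f).det := fun f => by
    rw [hsub, det_mul, det_nonsing_inv, Ring.inverse_eq_inv']
  have hb : ∀ i j, A' i (b j) = if i = j then 1 else 0 := fun i j => by
    have := congrFun (congrFun (hsub b) i) j
    rw [Matrix.nonsing_inv_mul _ (Ne.isUnit hbd)] at this
    simpa [Matrix.one_apply] using this
  have hA2 : IsWeakU2 A' := by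
    refine ⟨fun f => ?_, b, by rw [hdet, inv_mul_cancel₀ hbd]; exact one_ne_zero⟩
    obtain ⟨g0, hg0, e0⟩ := (hA.1 b).resolve_left hbd
    rcases hA.1 f with h | ⟨g, hg, h⟩
    · left; rw [hdet, h, mul_zero]
    · exact Or.inr ⟨g0⁻¹ * g, mul_mem (inv_mem hg0) hg, by rw [hdet, h, e0]; simp⟩
  have hM2 : RepresentsK A' M := ⟨hM.1, fun X => (hM.2 X).trans (exists_congr fun f =>
    and_congr_right fun _ => and_congr_right fun _ => by rw [hdet]; simp [hbd])⟩
  refine isQU_of_col2 hA2 (fun e i j k hi hj hk => ?_) hb hM2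
  obtain ⟨X, hXB, hX2, hX⟩ := hF e
  have h0 : A'.submatrix id b = 1 := by ext i j; simp [hb, Matrix.one_apply]
  have key : ∀ i, A' i e ≠ 0 → b i ∈ X := by
    intro i hi
    by_contra hbX
    have h1 := det_update A' b i e (Pi.single i 1) 1 fun j => by
      simp [Pi.single_apply, hb, eq_comm]
    simp only [h0, det_one, one_mul, Pi.single_apply, ite_mul, zero_mul, Finset.sum_ite_eq',
      Finset.mem_univ, if_true] at h1
    have he : ∀ j, j ≠ i → b j ≠ e := by
      rintro j hji rfl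
      exact hi (by rw [hb, if_neg hji.symm])
    have hinj : Function.Injective (Function.update b i e) := by
      intro j k hjk
      by_cases hj : j = i <;> by_cases hk : k = i
      · rw [hj, hk]
      · subst hj; rw [Function.update_self, Function.update_of_ne hk] at hjk
        exact absurd hjk.symm (he k hk)
      · subst hk; rw [Function.update_self, Function.update_of_ne hj] at hjk
        exact absurd hjk (he j hj)
      · rw [Function.update_of_ne hj, Function.update_of_ne hk] at hjk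
        exact hbi hjk
    have hB' := (hM2.2 _).2 ⟨_, hinj, rfl, h1 ▸ hi⟩
    refine hB'.indep.notMem_closure_sdiff_of_mem (e := e) ⟨i, by simp⟩
      (M.closure_subset_closure ?_ hX)
    intro z hz
    obtain ⟨j, rfl⟩ := hXB hz
    have hj : j ≠ i := fun h => hbX (h ▸ hz)
    exact ⟨⟨j, Function.update_of_ne hj _ _⟩, he j hj⟩
  by_contra hne
  push Not at hne
  have h3 : ({b i, b j, b k} : Set E).encard = 3 :=
    Set.encard_eq_three.2 ⟨_, _, _, hbi.ne hne.1, hbi.ne hne.2.1, hbi.ne hne.2.2, rfl⟩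
  have h4 : ({b i, b j, b k} : Set E) ⊆ X := by
    rintro z (rfl | rfl | rfl)
    exacts [key i hi, key j hj, key k hk]
  have := (h3 ▸ Set.encard_le_encard h4).trans hX2
  norm_num at this

end Pool.Agent.Lib.MP_10bdcf_co.Fr
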