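import Pool.Agent.Lib.MP_10bdcf_co.FrC

/-!
QU matroids are closed under minors and duality.
-/

namespace Pool.Agent.Lib.MP_10bdcf_co.Fr

open scoped Quaternion Matroid
open Matrix Set

variable {E : Type}

/-- A system of standard representations, one for each base. -/
structure Tab [Fintype E] (M : Matroid E) (T : Set E → Matrix E E ℍ[ℝ]) : Prop where
  norm : ∀ B, M.IsBase B → ∀ b e, T B b e = 0 ∨ ‖T B b e‖ = 1
  supp : ∀ B, M.IsBase B → ∀ b e, T B b e ≠ 0 ↔ b ∈ B ∧ M.IsBase (insert e (B \ {b}))
  diag : ∀ B, M.IsBase B → ∀ b ∈ B, T B b b = 1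
  mul : ∀ B B', M.IsBase B → M.IsBase B' → T B' * T B = T B'

variable [Fintype E] {M : Matroid E} {T : Set E → Matrix E E ℍ[ℝ]}

theorem Tab.row (h : Tab M T) {B : Set E} (hB : M.IsBase B) {b : E} (hb : b ∉ B) (e : E) :
    T B b e = 0 := by
  by_contra h0
  exact hb ((h.supp B hB b e).1 h0).1

theorem Tab.col (h : Tab M T) {B : Set E} (hB : M.IsBase B) (b : E) {e : E} (he : e ∉ M.E) :
    T B b e = 0 := by
  by_contra h0
  exact he (((h.supp B hB b e).1 h0).2.subset_ground (mem_insert _ _))

theorem Tab.off (h : Tab M T) {B : Set E} (hB : M.IsBase B) {b e : E} (he : e ∈ B) (hne : b ≠ e) :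
    T B b e = 0 := by
  by_contra h0
  obtain ⟨hb, h1⟩ := (h.supp B hB b e).1 h0
  rw [insert_eq_of_mem (show e ∈ B \ {b} from ⟨he, hne.symm⟩)] at h1
  have := h1.eq_of_subset_isBase hB sdiff_subset
  exact (this.symm ▸ hb : b ∈ B \ {b}).2 rfl

open Classical in
theorem Tab.dual (h : Tab M T) :
    Tab M✶ fun B => Matrix.of fun y x => (if y = x ∧ y ∈ M.E then 1 else 0) -
      star (T (M.E \ B) x y) := by
  refine ⟨fun B hB y x => ?_, fun B hB y x => ?_, fun B hB y hy => ?_, fun B B' hB hB' => ?_⟩
  · obtain ⟨h1, h2⟩ := Matroid.dual_isBase_iff'.1 hB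
    simp only [of_apply]
    split_ifs with hc
    · obtain ⟨rfl, hy⟩ := hc
      by_cases hyB : y ∈ B
      · right; rw [h.row h1 fun h => h.2 hyB]; simp
      · left; rw [h.diag _ h1 y ⟨hy, hyB⟩]; simp
    · rcases h.norm _ h1 x y with h3 | h3
      · left; simp [h3]
      · right; simp [h3]
  · obtain ⟨h1, h2⟩ := Matroid.dual_isBase_iff'.1 hB
    simp only [of_apply]
    by_cases hyx : y = x
    · subst hyx
      by_cases hyB : y ∈ B
      · rw [h.row h1 fun h => h.2 hyB, if_pos ⟨rfl, h2 hyB⟩, insert_sdiff_self_of_mem hyB]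
        simp [hyB, hB]
      · simp only [hyB, false_and, iff_false, not_not, true_and]
        split_ifs with hy
        · rw [h.diag _ h1 y ⟨hy, hyB⟩]; simp
        · rw [h.col h1 _ hy]; simp
    · rw [if_neg fun h => hyx h.1, zero_sub, neg_ne_zero, star_ne_zero, h.supp _ h1,
        Matroid.dual_isBase_iff']
      constructor
      · rintro ⟨⟨hx, hxB⟩, h3⟩
        have hy : y ∈ M.E := h3.subset_ground (mem_insert _ _)
        have hyB : y ∈ B := by
          by_contra hyB
          have := (h.supp _ h1 x y).2 ⟨⟨hx, hxB⟩, h3⟩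
          exact this (h.off h1 ⟨hy, hyB⟩ (Ne.symm hyx))
        refine ⟨hyB, ?_, insert_subset hx (sdiff_subset.trans h2)⟩
        convert h3 using 1
        ext z
        simp only [mem_sdiff, mem_insert_iff, mem_singleton_iff]
        by_cases hz : z = y
        · subst hz; tauto
        · tauto
      · rintro ⟨hyB, h3, h4⟩
        have hx : x ∈ M.E := h4 (mem_insert _ _)
        have hxB : x ∉ B := by
          intro hxB
          rw [insert_eq_of_mem (show x ∈ B \ {y} from ⟨hxB, Ne.symm hyx⟩)] at h3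
          have := h1.eq_of_subset_isBase h3 (sdiff_subset_sdiff_right sdiff_subset)
          have h5 : y ∈ M.E \ (B \ {y}) := ⟨h2 hyB, fun h => h.2 rfl⟩
          exact (this.symm ▸ h5 : y ∈ M.E \ B).2 hyB
        refine ⟨⟨hx, hxB⟩, ?_⟩
        convert h3 using 1
        have := h2 hyB
        ext z
        simp only [mem_sdiff, mem_insert_iff, mem_singleton_iff]
        by_cases hz : z = y
        · subst hz; tauto
        · tauto
  · obtain ⟨h1, h2⟩ := Matroid.dual_isBase_iff'.1 hB
    simp only [of_apply]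
    rw [h.row h1 fun h => h.2 hy, if_pos ⟨trivial, h2 hy⟩]; simp
  · obtain ⟨h1, -⟩ := Matroid.dual_isBase_iff'.1 hB
    obtain ⟨h2, -⟩ := Matroid.dual_isBase_iff'.1 hB'
    ext1 y x
    have e1 := congrArg star (congrFun (congrFun (h.mul _ _ h2 h1) x) y)
    simp only [Matrix.mul_apply, star_sum, star_mul] at e1
    simp only [Matrix.mul_apply, of_apply, sub_mul, mul_sub, Finset.sum_sub_distrib, e1]
    have e2 : ∑ z, (if y = z ∧ y ∈ M.E then (1 : ℍ[ℝ]) else 0) *
        (if z = x ∧ z ∈ M.E then (1 : ℍ[ℝ]) else 0) = if y = x ∧ y ∈ M.E then 1 else 0 := by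
      rw [Fintype.sum_eq_single y fun z hz => by simp [Ne.symm hz]]
      by_cases hy : y ∈ M.E <;> simp [hy]
    have e3 : ∑ z, star (T (M.E \ B') z y) * (if z = x ∧ z ∈ M.E then (1 : ℍ[ℝ]) else 0) =
        star (T (M.E \ B') x y) := by
      rw [Fintype.sum_eq_single x fun z hz => by simp [hz]]
      by_cases hx : x ∈ M.E
      · simp [hx]
      · simp [h.row h2 fun h => hx h.1]
    have e4 : ∑ z, (if y = z ∧ y ∈ M.E then (1 : ℍ[ℝ]) else 0) * star (T (M.E \ B) x z) =
        star (T (M.E \ B) x y) := by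
      rw [Fintype.sum_eq_single y fun z hz => by simp [Ne.symm hz]]
      by_cases hy : y ∈ M.E
      · simp [hy]
      · simp [h.col h1 _ hy]
    rw [e2, e3, e4]
    simp

open Classical in
theorem Tab.contract_indep (h : Tab M T) {I : Set E} (hI : M.Indep I) :
    Tab (M ／ I) fun B => Matrix.of fun b e => if b ∉ I ∧ e ∉ I then T (B ∪ I) b e else 0 := by
  refine ⟨fun B hB b e => ?_, fun B hB b e => ?_, fun B hB b hb => ?_, fun B B' hB hB' => ?_⟩
  · obtain ⟨h1, -⟩ := hI.contract_isBase_iff.1 hB
    simp only [of_apply]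
    split_ifs
    exacts [h.norm _ h1 b e, Or.inl rfl]
  · obtain ⟨h1, h2⟩ := hI.contract_isBase_iff.1 hB
    simp only [of_apply, hI.contract_isBase_iff]
    have key : b ∉ I → insert e (B \ {b}) ∪ I = insert e ((B ∪ I) \ {b}) := fun hb => by
      ext z
      simp only [mem_union, mem_sdiff, mem_insert_iff, mem_singleton_iff]
      by_cases hz : z = b
      · subst hz; tauto
      · tauto
    split_ifs with hc
    · rw [h.supp _ h1, key hc.1]
      refine ⟨fun ⟨h3, h4⟩ => ⟨h3.resolve_right hc.1, h4, ?_⟩, fun ⟨h3, h4, _⟩ => ⟨Or.inl h3, h4⟩⟩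
      rw [disjoint_insert_left]
      exact ⟨hc.2, h2.mono_left sdiff_subset⟩
    · simp only [ne_eq, not_true_eq_false, false_iff]
      rintro ⟨h3, -, h4⟩
      exact hc ⟨disjoint_left.1 h2 h3, (disjoint_insert_left.1 h4).1⟩
  · obtain ⟨h1, h2⟩ := hI.contract_isBase_iff.1 hB
    simp [disjoint_left.1 h2 hb, h.diag _ h1 b (Or.inl hb)]
  · obtain ⟨h1, -⟩ := hI.contract_isBase_iff.1 hB
    obtain ⟨h2, -⟩ := hI.contract_isBase_iff.1 hB'
    ext1 b e
    simp only [Matrix.mul_apply, of_apply]
    split_ifs with hc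
    · rw [← h.mul _ _ h1 h2, Matrix.mul_apply, h.mul _ _ h1 h2]
      refine Finset.sum_congr rfl fun z _ => ?_
      by_cases hz : z ∈ I
      · rw [h.off h2 (Or.inr hz) fun e' : b = z => hc.1 (e' ▸ hz)]; simp
      · simp [hz, hc.1, hc.2]
    · refine Finset.sum_eq_zero fun z _ => ?_
      by_cases hb : b ∈ I
      · simp [hb]
      · simp [show e ∈ I by tauto]

open Classical in
theorem Tab.delete_coindep (h : Tab M T) {D : Set E} (hD : M.Coindep D) :
    Tab (M ＼ D) fun B => Matrix.of fun b e => if e ∉ D then T B b e else 0 := by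
  refine ⟨fun B hB b e => ?_, fun B hB b e => ?_, fun B hB b hb => ?_, fun B B' hB hB' => ?_⟩
  · obtain ⟨h1, -⟩ := hD.delete_isBase_iff.1 hB
    simp only [of_apply]
    split_ifs
    exacts [Or.inl rfl, h.norm _ h1 b e]
  · obtain ⟨h1, h2⟩ := hD.delete_isBase_iff.1 hB
    simp only [of_apply, hD.delete_isBase_iff, disjoint_insert_left]
    by_cases hc : e ∈ D
    · simp [hc]
    · simp [hc, h.supp _ h1, h2.mono_left sdiff_subset]
  · obtain ⟨h1, h2⟩ := hD.delete_isBase_iff.1 hB
    simp [disjoint_left.1 h2 hb, h.diag _ h1 b hb]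
  · obtain ⟨h1, h3⟩ := hD.delete_isBase_iff.1 hB
    obtain ⟨h2, -⟩ := hD.delete_isBase_iff.1 hB'
    ext1 b e
    simp only [Matrix.mul_apply, of_apply]
    by_cases hc : e ∈ D
    · simp [hc]
    · rw [if_pos hc, ← h.mul _ _ h1 h2, Matrix.mul_apply, h.mul _ _ h1 h2]
      refine Finset.sum_congr rfl fun z _ => ?_
      by_cases hz : z ∈ D
      · simp [h.row h1 (disjoint_right.1 h3 hz)]
      · simp [hz, hc]

theorem Tab.contract (h : Tab M T) (C : Set E) : ∃ T', Tab (M ／ C) T' := by
  obtain ⟨I, hI⟩ := M.exists_isBasis (C ∩ M.E)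
  rw [← Matroid.contract_inter_ground_eq, hI.contract_eq_contract_delete]
  refine ⟨_, (h.contract_indep hI.indep).delete_coindep ?_⟩
  refine ((M ／ I)✶.coloops_indep).subset ?_
  rw [Matroid.dual_coloops]
  exact hI.sdiff_subset_loops_contract

theorem Tab.minor (h : Tab M T) {N : Matroid E} (hN : N ≤m M) : ∃ T', Tab N T' := by
  obtain ⟨C, D, rfl⟩ := hN
  obtain ⟨T1, h1⟩ := h.contract C
  obtain ⟨T2, h2⟩ := h1.dual.contract D
  have := h2.dual
  rw [Matroid.dual_contract_dual] at this
  exact ⟨_, this⟩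

omit [Fintype E] in
theorem range_update {r : ℕ} {f : Fin r → E} (hf : Function.Injective f) (i : Fin r) (e : E) :
    range (Function.update f i e) = insert e (range f \ {f i}) := by
  ext z
  simp only [mem_range, mem_insert_iff, mem_sdiff, mem_singleton_iff]
  constructor
  · rintro ⟨j, rfl⟩
    by_cases hj : j = i
    · left; simp [hj]
    · right; rw [Function.update_of_ne hj]; exact ⟨⟨j, rfl⟩, hf.ne hj⟩
  · rintro (rfl | ⟨⟨j, rfl⟩, hj⟩)
    · exact ⟨i, by simp⟩
    · exact ⟨j, Function.update_of_ne (fun e => hj (congrArg f e)) _ _⟩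

omit [Fintype E] in
theorem inj_update {r : ℕ} {f : Fin r → E} (hf : Function.Injective f) (i : Fin r) {e : E}
    (he : ∀ j, j ≠ i → f j ≠ e) : Function.Injective (Function.update f i e) := by
  intro j k hjk
  by_cases hj : j = i <;> by_cases hk : k = i
  · rw [hj, hk]
  · subst hj; rw [Function.update_self, Function.update_of_ne hk] at hjk
    exact absurd hjk.symm (he k hk)
  · subst hk; rw [Function.update_self, Function.update_of_ne hj] at hjk
    exact absurd hjk (he j hj)
  · rw [Function.update_of_ne hj, Function.update_of_ne hk] at hjk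
    exact hf hjk

theorem eq_zero_of_unit {r : ℕ} {U : Matrix (Fin r) (Fin r) ℍ[ℝ]} (hU : IsUnit U)
    {y : Fin r → ℍ[ℝ]} (hy : y ᵥ* U = 0) : y = 0 := by
  obtain ⟨N, hN⟩ := hU.exists_right_inv
  have := congrArg (fun v => v ᵥ* N) hy
  simpa only [Matrix.vecMul_vecMul, hN, Matrix.vecMul_one, Matrix.zero_vecMul] using this

theorem tab_of_isQU (hM : IsQU M) : ∃ T, Tab M T := by
  classical
  obtain ⟨r, A, hA, -, hB⟩ := hM
  have : Nonempty (Fin r → E) := ⟨hA.1.choose⟩
  choose! f hf using fun B => (hB B).1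
  have hN : ∀ B, M.IsBase B → ∃ N, N * A.submatrix id (f B) = 1 :=
    fun B h => (hf B h).2.2.exists_left_inv
  choose! N hN using hN
  let S : Set E → Matrix E (Fin r) ℍ[ℝ] := fun B => Matrix.of fun b i => if b = f B i then 1 else 0
  have hS : ∀ B, A * S B = A.submatrix id (f B) := fun B => by
    ext1 k i; simp [S, Matrix.mul_apply]
  have hrow : ∀ B, M.IsBase B → ∀ i e, (S B * (N B * A)) (f B i) e = (N B * A) i e :=
    fun B h i e => by
      rw [Matrix.mul_apply, Fintype.sum_eq_single i fun j hj => by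
        simp [S, (hf B h).1.ne hj.symm]]
      simp [S]
  have hrow0 : ∀ B, M.IsBase B → ∀ b, b ∉ B → ∀ e, (S B * (N B * A)) b e = 0 :=
    fun B h b hb e => by
      rw [Matrix.mul_apply]
      refine Finset.sum_eq_zero fun j _ => ?_
      have : b ≠ f B j := fun e' => hb ((hf B h).2.1 ▸ ⟨j, e'.symm⟩)
      simp [S, this]
  have hid : ∀ B, M.IsBase B → ∀ i j, (N B * A) i (f B j) = if i = j then 1 else 0 :=
    fun B h i j => by
      simpa [Matrix.mul_apply, Matrix.one_apply] using congrFun (congrFun (hN B h) i) j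
  have hAN : ∀ B, M.IsBase B → A.submatrix id (f B) * (N B * A) = A := fun B h => by
    rw [← Matrix.mul_assoc, mul_eq_one_comm.1 (hN B h), Matrix.one_mul]
  have hcases : ∀ B, M.IsBase B → ∀ b ∈ B, ∃ i, f B i = b := fun B h b hb => by
    rw [← (hf B h).2.1] at hb; exact hb
  refine ⟨fun B => S B * (N B * A), fun B h b e => ?_, fun B h b e => ?_, fun B h b hb => ?_,
    fun B B' h h' => ?_⟩
  · by_cases hb : b ∈ B
    swap
    · exact Or.inl (hrow0 B h b hb e)
    obtain ⟨i, rfl⟩ := hcases B h b hb
    rw [hrow B h]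
    have h1 : (N B * A) i (f B i) = 1 := by simp [hid B h]
    obtain ⟨l, u, h2, h3⟩ := hA.2 ((N B * A) i) ⟨⟨N B i, rfl⟩,
      fun h0 => by simp [h0] at h1, by
        rintro d ⟨x, rfl⟩ hd hs
        have e1 : ∀ e, ∑ k, x k * A k e = (∑ k, x k * A k (f B i)) * (N B * A) i e := fun e => by
          have e2 : ∑ k, x k * A k e = ∑ j, (∑ k, x k * A k (f B j)) * (N B * A) j e := by
            have := congrFun (congrArg (fun Z => x ᵥ* Z) (hAN B h)) e
            rw [← Matrix.vecMul_vecMul] at this
            exact this.symm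
          rw [e2]
          refine Fintype.sum_eq_single i fun j hj => ?_
          have : ∑ k, x k * A k (f B j) = 0 := by
            by_contra h0
            exact hs.subset h0 (by rw [hid B h, if_neg hj.symm])
          rw [this, zero_mul]
        refine hs.not_subset fun e he => ?_
        simp only [Function.mem_support] at he ⊢
        rw [e1]
        exact mul_ne_zero (fun h0 => hd (funext fun e => by rw [e1, h0, zero_mul]; rfl)) he⟩
    have h4 : l * u (f B i) = 1 := (congrFun h2 _).symm.trans h1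
    have h5 : ‖l‖ = 1 := by
      have := congrArg norm h4
      rwa [norm_mul, h3 _ (right_ne_zero_of_mul_eq_one h4), mul_one, norm_one] at this
    rw [congrFun h2 e]
    by_cases h6 : u e = 0
    · left; simp [h6]
    · right; simp [h5, h3 e h6]
  · by_cases hb : b ∈ B
    swap
    · simp [hrow0 B h b hb e, hb]
    obtain ⟨i, rfl⟩ := hcases B h b hb
    rw [hrow B h, and_iff_right hb]
    constructor
    · intro h0
      have hr := range_update (hf B h).1 i e
      rw [(hf B h).2.1] at hr
      refine (hB _).2 ⟨_, inj_update (hf B h).1 i ?_, hr, ?_⟩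
      · rintro j hj rfl
        exact h0 (by rw [hid B h, if_neg hj.symm])
      · have e1 : A.submatrix id (Function.update (f B) i e) =
            A.submatrix id (f B) * (N B * A).submatrix id (Function.update (f B) i e) := by
          conv_lhs => rw [← hAN B h]
          rfl
        rw [e1]
        refine (hf B h).2.2.mul (IsUnit.of_mul_eq_one (Matrix.of fun j k => if k = i then
          (if j = i then ((N B * A) i e)⁻¹ else -((N B * A) j e * ((N B * A) i e)⁻¹))
          else if j = k then 1 else 0) ?_)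
        ext1 j k
        rw [Matrix.mul_apply, ← Finset.add_sum_erase _ _ (Finset.mem_univ i)]
        simp only [submatrix_apply, id, Function.update_self, of_apply, if_true]
        rw [Finset.sum_congr rfl fun m hm => by
          rw [Function.update_of_ne (Finset.ne_of_mem_erase hm), hid B h,
            if_neg (Finset.ne_of_mem_erase hm)]]
        by_cases hk : k = i <;> by_cases hj : j = i
        · subst hk hj; simp [h0]
        · simp [hk, hj]
        · simp [hj, hk, Ne.symm hk]
        · simp [hk, Ne.symm hk, Matrix.one_apply]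
    · intro h1 h0
      obtain ⟨g, -, hg, hu⟩ := (hB _).1 h1
      have h2 : N B i = 0 := eq_zero_of_unit hu (funext fun j => by
        change (N B * A) i (g j) = 0
        rcases (hg ▸ mem_range_self j : g j ∈ insert e (B \ {f B i})) with h3 | ⟨h3, h4⟩
        · rw [h3, h0]
        · obtain ⟨k, hk⟩ := hcases B h _ h3
          rw [← hk, hid B h, if_neg fun e' => h4 (by rw [← hk, e']; rfl)])
      simpa [Matrix.mul_apply, h2] using hid B h i i
  · obtain ⟨i, rfl⟩ := hcases B h b hb
    simp [hrow B h, hid B h]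
  · simp only [Matrix.mul_assoc]
    rw [← Matrix.mul_assoc A, hS, hAN B h]

theorem Tab.isQU (h : Tab M T) : IsQU (M.restrictSubtype M.E) := by
  classical
  obtain ⟨B0, hB0⟩ := M.exists_isBase
  obtain ⟨r, b, hbi, hb⟩ := B0.toFinite.fin_param
  have hsum : ∀ B, M.IsBase B → ∀ x e, ∑ k, T B x (b k) * T B0 (b k) e = T B x e :=
    fun B hB x e => by
      rw [← h.mul _ _ hB0 hB, Matrix.mul_apply, h.mul _ _ hB0 hB]
      refine Finset.sum_of_injOn b hbi.injOn (by simp) (fun z _ hz => ?_) fun _ _ => rfl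
      rw [h.row hB0 (by simpa [← hb] using hz), mul_zero]
  have him : ∀ f : Fin r → M.E, Subtype.val '' range f = range fun j => (f j : E) :=
    fun f => (range_comp _ _).symm
  obtain ⟨h1, h2⟩ := isQUMatrix_of_rows (Matrix.of fun k (e : M.E) => T B0 (b k) e)
    (fun f => Function.Injective f ∧ M.IsBase (Subtype.val '' range f))
    ⟨fun k => ⟨b k, hB0.subset_ground (hb ▸ mem_range_self k)⟩,
      fun j k e => hbi (congrArg Subtype.val e), by rw [him, hb]; exact hB0⟩
    (fun f ⟨hf, hB⟩ i => by
      have hm : ∀ j, (f j : E) ∈ Subtype.val '' range f := fun j => ⟨_, ⟨j, rfl⟩, rfl⟩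
      refine ⟨fun k => T (Subtype.val '' range f) (f i) (b k), fun j => ?_, fun e => ?_⟩ <;>
        simp only [of_apply, hsum _ hB]
      · split_ifs with hj
        · rw [hj, h.diag _ hB _ (hm i)]
        · exact h.off hB (hm j) fun e' => hj (hf (Subtype.ext e')).symm
      · by_cases h0 : T (Subtype.val '' range f) (f i) e = 0
        · exact Or.inl h0
        refine Or.inr ⟨(h.norm _ hB _ _).resolve_left h0, inj_update hf i ?_, ?_⟩
        · rintro j hj rfl
          exact h0 (h.off hB (hm j) fun e' => hj (hf (Subtype.ext e')).symm)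
        · rw [range_update hf, image_insert_eq, image_sdiff Subtype.val_injective, image_singleton]
          exact ((h.supp _ hB _ _).1 h0).2)
  refine ⟨r, _, h1, by simp, fun X => ?_⟩
  rw [Matroid.restrictSubtype_ground_isBase_iff]
  constructor
  · intro hX
    have hc : X.ncard = r := by
      rw [← ncard_image_of_injective X Subtype.val_injective, hX.ncard_eq_ncard_of_isBase hB0, ← hb,
        ncard_range_of_injective hbi]
      simp
    obtain ⟨n, f, hf, rfl⟩ := X.toFinite.fin_param
    obtain rfl : n = r := by rw [ncard_range_of_injective hf] at hc; simpa using hc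
    exact ⟨f, hf, rfl, h2 f ⟨hf, hX⟩⟩
  · rintro ⟨f, hf, rfl, hu⟩
    obtain ⟨J, hJ⟩ := M.exists_isBasis (Subtype.val '' range f) (by rintro _ ⟨z, -, rfl⟩; exact z.2)
    obtain ⟨B, hB, hJB⟩ := hJ.exists_isBase
    have hsub : B ⊆ Subtype.val '' range f := fun x hx => by
      by_contra hxX
      have h3 : (fun k => T B x (b k)) = 0 := eq_zero_of_unit hu (funext fun j => by
        change ∑ k, T B x (b k) * T B0 (b k) (f j) = 0
        rw [hsum _ hB]
        by_contra h0
        have h4 := ((h.supp _ hB _ _).1 h0).2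
        have hm : (f j : E) ∈ Subtype.val '' range f := ⟨_, ⟨j, rfl⟩, rfl⟩
        have h5 : (f j : E) ∉ B := fun h5 => h0 (h.off hB h5 fun e' => hxX (e' ▸ hm))
        refine h4.indep.notMem_closure_sdiff_of_mem (mem_insert _ _)
          (M.closure_subset_closure ?_ (hJ.subset_closure hm))
        rw [hJB]
        rintro z ⟨hz, hz'⟩
        exact ⟨Or.inr ⟨hz, fun e' => hxX (e' ▸ hz')⟩, fun e' => h5 (e' ▸ hz)⟩)
      have h6 := hsum _ hB x x
      simp only [fun k => congrFun h3 k, Pi.zero_apply, zero_mul, Finset.sum_const_zero,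
        h.diag _ hB x hx] at h6
      exact zero_ne_one h6
    have hc : (Subtype.val '' range f).ncard ≤ B.ncard := by
      rw [ncard_image_of_injective _ Subtype.val_injective, hB.ncard_eq_ncard_of_isBase hB0, ← hb,
        ncard_range_of_injective hbi, ncard_range_of_injective hf]
    exact eq_of_subset_of_ncard_le hsub hc ▸ hB

omit [Fintype E] in
/-- Minors of a QU matroid and of its dual are QU. -/
theorem isQU_minor [Finite E] (hM : IsQU M) {N : Matroid E} (hN : N ≤m M ∨ N ≤m M✶) :
    IsQU (N.restrictSubtype N.E) := by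
  have := Fintype.ofFinite E
  obtain ⟨T, hT⟩ := tab_of_isQU hM
  rcases hN with h | h
  · obtain ⟨T', h'⟩ := hT.minor h
    exact h'.isQU
  · obtain ⟨T', h'⟩ := hT.dual.minor h
    exact h'.isQU

end Pool.Agent.Lib.MP_10bdcf_co.Fr
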