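import Pool.Agent.Lib.MP_10bdcf_co.FrW

/-!
Lifting gain graphs: definitions and gluing along two vertices.
-/

namespace Pool.Agent.Lib.MP_10bdcf_co.Fr

variable {V A Γ : Type} [CommGroup A] [Group Γ]

/-- The properties of the set `F` of admissible cycle gains. -/
structure PF (F : Set A) : Prop where
  one : (1 : A) ∈ F
  inv : ∀ a ∈ F, a⁻¹ ∈ F
  t2 : ∀ a ∈ F, a * a = 1 → a = 1
  k4 : ∀ g ∈ F, ∀ h ∈ F, g * h⁻¹ ∈ F → ∀ y ∈ F, y * h ∈ F → g * y⁻¹ ∈ F → g * (y * h)⁻¹ ∈ F →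
    g = 1 ∨ h = 1 ∨ y = 1 ∨ g = y * h
  cl : ∀ a ∈ F, ∀ b ∈ F, a * b⁻¹ ∈ F → ∀ c ∈ F, a * c⁻¹ ∈ F → b * c⁻¹ ∈ F →
    a = 1 ∨ b = 1 ∨ c = 1 ∨ a = b ∨ a = c ∨ b = c
  sep : ∀ b ∈ F, b ≠ 1 → ∀ s ∈ F, s * b⁻¹ ∈ F → ∀ t ∈ F, t * b⁻¹ ∈ F → s * t⁻¹ ∉ F →
    ∀ r ∈ F, s * r⁻¹ ∈ F → t * r⁻¹ ∈ F → r = 1 ∨ r = b
  z3 : ∀ x ∈ F, ∀ a ∈ F, a ≠ 1 → x * a ∈ F → ∀ b ∈ F, b ≠ 1 → x * b ∈ F → x * a * b ∈ F →
    ∀ c ∈ F, c ≠ 1 → x * c ∈ F → x * a * c ∈ F → x * b * c ∈ F → x * a * b * c ∈ F →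
    x * x * a * b * c = 1 ∧ (x = 1 ∨ x * a = 1 ∨ x * b = 1 ∨ x * c = 1)

/-- The properties of the set `G` of admissible values of unbalanced cycles. -/
structure PG (G : Set Γ) : Prop where
  conj : ∀ q ∈ G, ∀ c, c * q * c⁻¹ ∈ G
  inv : ∀ q ∈ G, q⁻¹ ∈ G
  ex : ∃ p ∈ G, ∃ q ∈ G, p * q⁻¹ ∈ G
  u2 : ∀ p ∈ G, ∀ q ∈ G, ∃ c, c * p * c⁻¹ = q
  u3 : ∀ p ∈ G, ∀ p' ∈ G, p * p'⁻¹ ∈ G → ∀ q ∈ G, ∀ q' ∈ G, q * q'⁻¹ ∈ G →
    ∃ c, c * p * c⁻¹ = q ∧ c * p' * c⁻¹ = q'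

/-- The value `q` fits the gain `a`. -/
def Ok (G : Set Γ) (a : A) (q : Γ) : Prop := (a = 1 → q = 1) ∧ (a ≠ 1 → q ∈ G)

/-- All cycle gains are admissible. -/
def Valid (F : Set A) (D : V → V → A → Prop) : Prop := ∀ u l, Cy D u l → gn l ∈ F

/-- `L` is a lift: balanced cycles get value 1, the others a value in `G`. -/
def Good (G : Set Γ) (D : V → V → A → Prop) (L : V → V → A → Γ) : Prop :=
  InvC D L ∧ ∀ u l, Cy D u l → Ok G (gn l) (lf L u l)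

/-- A loopless gain graph with vertices in `W`. -/
structure Gr (W : Finset V) (D : V → V → A → Prop) : Prop where
  sym : Sym D
  ne : ∀ x y a, D x y a → x ≠ y
  mem : ∀ x y a, D x y a → x ∈ W

/-- Pairwise admissible quotients. -/
def Clq (F : Set A) (T : Set A) : Prop := ∀ s ∈ T, ∀ t ∈ T, s * t⁻¹ ∈ F

variable {F : Set A} {G : Set Γ}

theorem Ok.conj (hG : PG G) {a : A} {q : Γ} (h : Ok G a q) (c : Γ) : Ok G a (c * q * c⁻¹) :=
  ⟨fun ha => by simp [h.1 ha], fun ha => hG.conj _ (h.2 ha) c⟩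

theorem Ok.inv (hG : PG G) {a : A} {q : Γ} (h : Ok G a q) : Ok G a⁻¹ q⁻¹ :=
  ⟨fun ha => by simp [h.1 (inv_eq_one.1 ha)], fun ha => hG.inv _ (h.2 fun h0 => ha (by simp [h0]))⟩

theorem Ok.congr {a a' : A} {q q' : Γ} (h : Ok G a q) (ha : a' = a) (hq : q' = q) : Ok G a' q' := by
  rw [ha, hq]; exact h

theorem ok_one : Ok G (1 : A) 1 := ⟨fun _ => rfl, fun h => absurd rfl h⟩

theorem Valid.mono {D D' : V → V → A → Prop} (h : Valid F D') (hD : ∀ x y a, D x y a → D' x y a) :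
    Valid F D := fun u l hl => h u l (hl.mono hD)

theorem Valid.two {D : V → V → A → Prop} (h : Valid F D) (hD : Sym D) {P Q : List (V × A)}
    {u v : V} (hP : Pth D u P v) (hQ : Pth D u Q v) (hd : ∀ z, z ∈ vs P → z ∈ vs Q → z = v) :
    gn P * (gn Q)⁻¹ ∈ F := by
  have := h u _ (cy_of_two hD hP hQ hd)
  rwa [gn_append, gn_rev] at this

theorem Valid.edge {D : V → V → A → Prop} (h : Valid F D) (hD : Sym D) {P : List (V × A)}
    {u v : V} {a : A} (hP : Pth D u P v) (ha : D u v a) (huv : u ≠ v) : gn P * a⁻¹ ∈ F := by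
  simpa using h.two hD hP (Pth.single ha huv) (by simp)

theorem Good.two {D : V → V → A → Prop} {L : V → V → A → Γ} (h : Good G D L) (hD : Sym D)
    {P Q : List (V × A)} {u v : V} (hP : Pth D u P v) (hQ : Pth D u Q v)
    (hd : ∀ z, z ∈ vs P → z ∈ vs Q → z = v) :
    Ok G (gn P * (gn Q)⁻¹) (lf L u P * (lf L u Q)⁻¹) := by
  have := h.2 u _ (cy_of_two hD hP hQ hd)
  rwa [gn_append, gn_rev, lf_append L _ hP.1, lf_rev hD h.1 hQ.1] at this

theorem Good.edge {D : V → V → A → Prop} {L : V → V → A → Γ} (h : Good G D L) (hD : Sym D)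
    {P : List (V × A)} {u v : V} {a : A} (hP : Pth D u P v) (ha : D u v a) (huv : u ≠ v) :
    Ok G (gn P * a⁻¹) (lf L u P * (L u v a)⁻¹) := by
  simpa using h.two hD hP (Pth.single ha huv) (by simp)

/-- A lift is good as soon as it is good on cycles missing `u` or `v` and on pairs of disjoint
paths from `u` to `v`. -/
theorem good_of_two (hG : PG G) {D : V → V → A → Prop} (hD : Sym D) {L : V → V → A → Γ}
    (hL : InvC D L) {u v : V} (huv : u ≠ v)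
    (h1 : ∀ x l, Cy D x l → (u ∉ vs l ∨ v ∉ vs l) → Ok G (gn l) (lf L x l))
    (h2 : ∀ P Q, Pth D u P v → Pth D u Q v → (∀ z, z ∈ vs P → z ∈ vs Q → z = v) →
      Ok G (gn P * (gn Q)⁻¹) (lf L u P * (lf L u Q)⁻¹)) : Good G D L := by
  refine ⟨hL, fun x l hl => ?_⟩
  by_cases hu : u ∈ vs l
  · by_cases hv : v ∈ vs l
    · obtain ⟨P, Q, hP, hQ, hd, hg, hlf⟩ := two_of_cy hD hl hu hv huv
      obtain ⟨c, hc⟩ := hlf Γ L hL
      exact ((h2 P Q hP hQ hd).conj hG c).congr hg hc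
    · exact h1 x l hl (Or.inr hv)
  · exact h1 x l hl (Or.inl hu)

theorem clq_three (hF : PF F) {T : Set A} (hT : Clq F T) {t1 : A} (h1 : t1 ∈ T) :
    ∃ t2 ∈ T, ∃ t3 ∈ T, ∀ t ∈ T, t = t1 ∨ t = t2 ∨ t = t3 := by
  by_cases h2 : ∃ t2 ∈ T, t2 ≠ t1
  · obtain ⟨t2, h2, h21⟩ := h2
    by_cases h3 : ∃ t3 ∈ T, t3 ≠ t1 ∧ t3 ≠ t2
    · obtain ⟨t3, h3, h31, h32⟩ := h3
      refine ⟨t2, h2, t3, h3, fun t ht => ?_⟩
      have e : ∀ a b : A, a * t1⁻¹ * (b * t1⁻¹)⁻¹ = a * b⁻¹ := fun a b => by group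
      have := hF.cl _ (hT _ h2 _ h1) _ (hT _ h3 _ h1) (by rw [e]; exact hT _ h2 _ h3) _
        (hT _ ht _ h1) (by rw [e]; exact hT _ h2 _ ht) (by rw [e]; exact hT _ h3 _ ht)
      simp only [mul_inv_eq_one, mul_left_inj] at this
      rcases this with h | h | h | h | h | h
      · exact absurd h h21
      · exact absurd h h31
      · exact Or.inl h
      · exact absurd h.symm h32
      · exact Or.inr (Or.inl h.symm)
      · exact Or.inr (Or.inr h.symm)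
    · push Not at h3
      refine ⟨t2, h2, t2, h2, fun t ht => ?_⟩
      by_cases h : t = t1
      · exact Or.inl h
      · exact Or.inr (Or.inl (h3 t ht h))
  · push Not at h2
    exact ⟨t1, h1, t1, h1, fun t ht => Or.inl (h2 t ht)⟩

/-- Two labellings of a clique differ by left and right multiplication. -/
theorem clq_match (hF : PF F) (hG : PG G) {T : Set A} (hT : Clq F T) {f g : A → Γ}
    (hf : ∀ s ∈ T, ∀ t ∈ T, s ≠ t → f s * (f t)⁻¹ ∈ G)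
    (hg : ∀ s ∈ T, ∀ t ∈ T, s ≠ t → g s * (g t)⁻¹ ∈ G) :
    ∃ c d, ∀ t ∈ T, c * f t * d = g t := by
  by_cases h0 : ∃ t1, t1 ∈ T
  swap
  · exact ⟨1, 1, fun t ht => absurd ⟨t, ht⟩ h0⟩
  obtain ⟨t1, h1⟩ := h0
  obtain ⟨t2, h2, t3, h3, hall⟩ := clq_three hF hT h1
  have key : ∃ c, c * (f t2 * (f t1)⁻¹) * c⁻¹ = g t2 * (g t1)⁻¹ ∧
      c * (f t3 * (f t1)⁻¹) * c⁻¹ = g t3 * (g t1)⁻¹ := by
    by_cases h21 : t2 = t1
    · by_cases h31 : t3 = t1
      · exact ⟨1, by simp [h21], by simp [h31]⟩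
      · obtain ⟨c, hc⟩ := hG.u2 _ (hf _ h3 _ h1 h31) _ (hg _ h3 _ h1 h31)
        exact ⟨c, by simp [h21], hc⟩
    · by_cases h31 : t3 = t1
      · obtain ⟨c, hc⟩ := hG.u2 _ (hf _ h2 _ h1 h21) _ (hg _ h2 _ h1 h21)
        exact ⟨c, hc, by simp [h31]⟩
      · by_cases h32 : t2 = t3
        · obtain ⟨c, hc⟩ := hG.u2 _ (hf _ h2 _ h1 h21) _ (hg _ h2 _ h1 h21)
          exact ⟨c, hc, h32 ▸ hc⟩
        · refine hG.u3 _ (hf _ h2 _ h1 h21) _ (hf _ h3 _ h1 h31) ?_ _ (hg _ h2 _ h1 h21) _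
            (hg _ h3 _ h1 h31) ?_
          · convert hf _ h2 _ h3 h32 using 1; group
          · convert hg _ h2 _ h3 h32 using 1; group
  obtain ⟨c, hc2, hc3⟩ := key
  refine ⟨c, (f t1)⁻¹ * c⁻¹ * g t1, fun t ht => ?_⟩
  rcases hall t ht with rfl | rfl | rfl
  · group
  · calc _ = c * (f t * (f t1)⁻¹) * c⁻¹ * g t1 := by group
      _ = _ := by rw [hc2]; group
  · calc _ = c * (f t * (f t1)⁻¹) * c⁻¹ * g t1 := by group
      _ = _ := by rw [hc3]; group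

/-- A clique has a labelling. -/
theorem clq_lab (hF : PF F) (hG : PG G) {T : Set A} (hT : Clq F T) :
    ∃ f : A → Γ, ∀ s ∈ T, ∀ t ∈ T, s ≠ t → f s * (f t)⁻¹ ∈ G := by
  classical
  by_cases h0 : ∃ t1, t1 ∈ T
  swap
  · exact ⟨fun _ => 1, fun t ht => absurd ⟨t, ht⟩ h0⟩
  obtain ⟨t1, h1⟩ := h0
  obtain ⟨t2, -, t3, -, hall⟩ := clq_three hF hT h1
  obtain ⟨p, hp, q, hq, hpq⟩ := hG.ex
  have hqp : q * p⁻¹ ∈ G := by simpa using hG.inv _ hpq
  refine ⟨fun a => if a = t1 then 1 else if a = t2 then p else q, fun s hs t ht hst => ?_⟩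
  have hp' := hG.inv _ hp
  have hq' := hG.inv _ hq
  dsimp only
  split_ifs with a1 b1 b2 a2 b1 b2 b1 b2
  · exact absurd (a1.trans b1.symm) hst
  · simpa using hp'
  · simpa using hq'
  · simpa using hp
  · exact absurd (a2.trans b2.symm) hst
  · exact hpq
  · simpa using hq
  · exact hqp
  · have h3 : s = t3 := by rcases hall s hs with h | h | h <;> simp_all
    have h4 : t = t3 := by rcases hall t ht with h | h | h <;> simp_all
    exact absurd (h3.trans h4.symm) hst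

/-- The graph with additional darts from `u` to `v` with gains in `T`. -/
def plus (D : V → V → A → Prop) (u v : V) (T : Set A) : V → V → A → Prop :=
  fun x y a => D x y a ∨ (x = u ∧ y = v ∧ a ∈ T) ∨ (x = v ∧ y = u ∧ a⁻¹ ∈ T)

theorem plus_sym {D : V → V → A → Prop} (hD : Sym D) (u v : V) (T : Set A) :
    Sym (plus D u v T) := by
  rintro x y a (h | ⟨h1, h2, h3⟩ | ⟨h1, h2, h3⟩)
  · exact Or.inl (hD _ _ _ h)
  · exact Or.inr (Or.inr ⟨h2, h1, by simpa using h3⟩)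
  · exact Or.inr (Or.inl ⟨h2, h1, h3⟩)

theorem wk_of_plus {D : V → V → A → Prop} {u v : V} {T : Set A} {l : List (V × A)} {x y : V}
    (h : Wk (plus D u v T) x l y) (h0 : u ∉ x :: vs l ∨ v ∉ x :: vs l) : Wk D x l y := by
  rcases h0 with h0 | h0
  · refine h.induce (P := fun z => z ≠ u) ?_ fun z hz hzu => h0 (hzu ▸ hz)
    rintro x y a (h | ⟨h1, -⟩ | ⟨-, h2, -⟩) hx hy
    exacts [h, absurd h1 hx, absurd h2 hy]
  · refine h.induce (P := fun z => z ≠ v) ?_ fun z hz hzu => h0 (hzu ▸ hz)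
    rintro x y a (h | ⟨-, h2, -⟩ | ⟨h1, -⟩) hx hy
    exacts [h, absurd h2 hy, absurd h1 hx]

theorem pth_plus {D : V → V → A → Prop} {u v : V} (huv : u ≠ v) {T : Set A} {P : List (V × A)}
    (h : Pth (plus D u v T) u P v) : (∃ t ∈ T, P = [(v, t)]) ∨ Pth D u P v := by
  obtain _ | ⟨s, l⟩ := P
  · exact absurd h.1 huv
  have hn := h.2
  simp only [vs_cons, List.nodup_cons, List.mem_cons, not_or] at hn
  have hl : Wk D s.1 l v := wk_of_plus h.1.2 (Or.inl (by simp [hn.1.1, hn.1.2]))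
  rcases h.1.1 with h1 | ⟨-, h2, h3⟩ | ⟨h1, -⟩
  · exact Or.inr ⟨⟨h1, hl⟩, h.2⟩
  · have : l = [] := Pth.nil_of_closed (D := D) (u := v) ⟨h2 ▸ hl, h2 ▸ List.nodup_cons.2 hn.2⟩
    exact Or.inl ⟨s.2, h3, by rw [this, ← h2]⟩
  · exact absurd h1 huv

omit [CommGroup A] in
theorem Cy.mem_of_cons {D : V → V → A → Prop} {x z : V} {l : List (V × A)} (h : Cy D x l)
    (hl : l ≠ []) (hz : z ∈ x :: vs l) : z ∈ vs l := by
  rcases List.mem_cons.1 hz with rfl | hz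
  · exact h.1.last_mem hl
  · exact hz

theorem valid_plus {D : V → V → A → Prop} (hD : Sym D) (hV : Valid F D) {u v : V}
    (huv : u ≠ v) {T : Set A} (hT : Clq F T) (hinv : ∀ a ∈ F, a⁻¹ ∈ F)
    (hS : ∀ P, Pth D u P v → ∀ t ∈ T, gn P * t⁻¹ ∈ F) : Valid F (plus D u v T) := by
  intro x l hl
  by_cases h0 : u ∈ vs l ∧ v ∈ vs l
  · obtain ⟨P, Q, hP, hQ, hd, hg, -⟩ := two_of_cy (plus_sym hD u v T) hl h0.1 h0.2 huv
    rw [hg]
    rcases pth_plus huv hP with ⟨s, hs, rfl⟩ | hP' <;> rcases pth_plus huv hQ with ⟨t, ht, rfl⟩ | hQ'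
    · simpa using hT s hs t ht
    · simpa using hinv _ (hS Q hQ' s hs)
    · simpa using hS P hP' t ht
    · exact hV.two hD hP' hQ' hd
  · by_cases hl0 : l = []
    · subst hl0; exact hV x [] ⟨rfl, by simp⟩
    · refine hV x l ⟨wk_of_plus hl.1 ?_, hl.2⟩
      by_contra h1
      push Not at h1
      exact h0 ⟨hl.mem_of_cons hl0 h1.1, hl.mem_of_cons hl0 h1.2⟩

omit [CommGroup A] in
theorem lf_gauge (L : V → V → A → Γ) (σ : V → Γ) {D : V → V → A → Prop} {l : List (V × A)}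
    {x y : V} (h : Wk D x l y) :
    lf (fun s t a => (σ s)⁻¹ * L s t a * σ t) x l = (σ x)⁻¹ * lf L x l * σ y := by
  induction l generalizing x with
  | nil => obtain rfl : x = y := h; simp
  | cons s l ih => rw [lf_cons, lf_cons, ih h.2]; group

theorem Good.gauge (hG : PG G) {D : V → V → A → Prop} {L : V → V → A → Γ} (h : Good G D L)
    (σ : V → Γ) : Good G D fun s t a => (σ s)⁻¹ * L s t a * σ t := by
  refine ⟨fun x y a ha => ?_, fun u l hl => ?_⟩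
  · simp only [h.1 x y a ha]; group
  · rw [lf_gauge L σ hl.1]
    simpa using (h.2 u l hl).conj hG (σ u)⁻¹

/-- Gluing of lifts along two vertices. -/
theorem glue (hF : PF F) (hG : PG G) {D D1 D2 : V → V → A → Prop} {u v : V} (huv : u ≠ v)
    (hD : Sym D) (s1 : Sym D1) (s2 : Sym D2) (hdis : ∀ x y a, D2 x y a → ¬ D1 x y a)
    (hun : ∀ x y a, D x y a → D1 x y a ∨ D2 x y a)
    (hcy : ∀ x l, Cy D x l → (u ∉ vs l ∨ v ∉ vs l) → Cy D1 x l ∨ Cy D2 x l)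
    (hpt : ∀ P, Pth D u P v → Pth D1 u P v ∨ Pth D2 u P v)
    {T : Set A} (hT : Clq F T) (hS : ∀ P, Pth D2 u P v → gn P ∈ T)
    {L1 L2 : V → V → A → Γ} (g1 : Good G (plus D1 u v T) L1) (g2 : Good G (plus D2 u v T) L2) :
    ∃ L, Good G D L := by
  classical
  have p1 := plus_sym s1 u v T
  have p2 := plus_sym s2 u v T
  have e1 : ∀ t ∈ T, plus D1 u v T u v t := fun t ht => Or.inr (Or.inl ⟨rfl, rfl, ht⟩)
  have e2 : ∀ t ∈ T, plus D2 u v T u v t := fun t ht => Or.inr (Or.inl ⟨rfl, rfl, ht⟩)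
  obtain ⟨c, d, hcd⟩ := clq_match hF hG hT (f := L2 u v) (g := L1 u v)
    (fun s hs t ht hst => by
      simpa using (g2.edge p2 (Pth.single (e2 s hs) huv) (e2 t ht) huv).2
        (by simpa [mul_inv_eq_one] using hst))
    (fun s hs t ht hst => by
      simpa using (g1.edge p1 (Pth.single (e1 s hs) huv) (e1 t ht) huv).2
        (by simpa [mul_inv_eq_one] using hst))
  set σ : V → Γ := fun z => if z = u then c⁻¹ else d with hσ
  set L3 : V → V → A → Γ := fun s t a => (σ s)⁻¹ * L2 s t a * σ t with hL3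
  have g3 : Good G (plus D2 u v T) L3 := g2.gauge hG σ
  have h31 : ∀ t ∈ T, L3 u v t = L1 u v t := fun t ht => by
    simp only [hL3, hσ, if_true, if_neg huv.symm, inv_inv]; exact hcd t ht
  set L : V → V → A → Γ := fun x y a => if D1 x y a then L1 x y a else L3 x y a with hL
  have c1 : ∀ x y a, D1 x y a → L x y a = L1 x y a := fun x y a h => by simp [hL, h]
  have c2 : ∀ x y a, D2 x y a → L x y a = L3 x y a := fun x y a h => by simp [hL, hdis _ _ _ h]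
  have m1 : ∀ x y a, D1 x y a → plus D1 u v T x y a := fun x y a h => Or.inl h
  have m2 : ∀ x y a, D2 x y a → plus D2 u v T x y a := fun x y a h => Or.inl h
  have hinv : InvC D L := by
    intro x y a h
    rcases hun x y a h with h | h
    · rw [c1 _ _ _ h, c1 _ _ _ (s1 _ _ _ h), g1.1 _ _ _ (m1 _ _ _ h)]
    · rw [c2 _ _ _ h, c2 _ _ _ (s2 _ _ _ h), g3.1 _ _ _ (m2 _ _ _ h)]
  have key : ∀ P, Pth D2 u P v → lf L u P = L1 u v (gn P) := by
    intro P hP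
    have := (g3.edge p2 (hP.mono m2) (e2 _ (hS P hP)) huv).1 (by simp)
    rw [lf_congr c2 hP.1, ← h31 _ (hS P hP)]
    exact mul_inv_eq_one.1 this
  refine ⟨L, good_of_two hG hD hinv huv (fun x l hl h0 => ?_) fun P Q hP hQ hd => ?_⟩
  · rcases hcy x l hl h0 with h | h
    · rw [lf_congr c1 h.1]; exact g1.2 x l (h.mono m1)
    · rw [lf_congr c2 h.1]; exact g3.2 x l (h.mono m2)
  · rcases hpt P hP with hP | hP <;> rcases hpt Q hQ with hQ | hQ
    · rw [lf_congr c1 hP.1, lf_congr c1 hQ.1]; exact g1.two p1 (hP.mono m1) (hQ.mono m1) hd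
    · rw [lf_congr c1 hP.1, key Q hQ]; exact g1.edge p1 (hP.mono m1) (e1 _ (hS Q hQ)) huv
    · rw [lf_congr c1 hQ.1, key P hP]
      exact ((g1.edge p1 (hQ.mono m1) (e1 _ (hS P hP)) huv).inv hG).congr (by simp) (by simp)
    · rw [lf_congr c2 hP.1, lf_congr c2 hQ.1]; exact g3.two p2 (hP.mono m2) (hQ.mono m2) hd

end Pool.Agent.Lib.MP_10bdcf_co.Fr
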