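import Pool.Agent.Lib.MP_10bdcf_co.FrS

/-!
Lifting gain graphs: separations and contraction of an edge.
-/

namespace Pool.Agent.Lib.MP_10bdcf_co.Fr

variable {V A Γ : Type}

theorem Wk.vs_eq {D : V → V → A → Prop} {l : List (V × A)} {x y : V} (h : Wk D x l y)
    (hl : l ≠ []) : vs l = (vs l).dropLast ++ [y] := by
  induction l generalizing x with
  | nil => exact absurd rfl hl
  | cons s l ih =>
    by_cases h0 : l = []
    · subst h0; have : s.1 = y := h.2; simp [this]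
    · have h1 := ih h.2 h0
      have h2 : vs l ≠ [] := by rw [h1]; simp
      rw [vs_cons, List.dropLast_cons_of_ne_nil h2, List.cons_append, ← h1]

theorem Wk.ne_of_dropLast {D : V → V → A → Prop} {l : List (V × A)} {x y z : V} (h : Wk D x l y)
    (hn : (vs l).Nodup) (hz : z ∈ (vs l).dropLast) : z ≠ y := by
  have hl : l ≠ [] := by rintro rfl; simp at hz
  rw [h.vs_eq hl, List.nodup_append] at hn
  exact hn.2.2 z hz y (by simp)

theorem Wk.end_eq {D D' : V → V → A → Prop} {l : List (V × A)} {x y y' : V} (h : Wk D x l y)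
    (h' : Wk D' x l y') : y = y' := by
  induction l generalizing x with
  | nil => exact (Eq.symm h).trans h'
  | cons s l ih => exact ih h.2 h'.2

/-- Darts meeting `U`. -/
def sd1 (D : V → V → A → Prop) (U : Set V) : V → V → A → Prop :=
  fun x y a => D x y a ∧ (x ∈ U ∨ y ∈ U)

/-- Darts avoiding `U`. -/
def sd2 (D : V → V → A → Prop) (U : Set V) : V → V → A → Prop :=
  fun x y a => D x y a ∧ x ∉ U ∧ y ∉ U

/-- The gains of paths from `u` to `v`. -/
def pg [Monoid A] (D : V → V → A → Prop) (u v : V) : Set A := {a | ∃ P, Pth D u P v ∧ gn P = a}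

variable [CommGroup A] [Group Γ] {F : Set A} {G : Set Γ}

theorem wk_side {D : V → V → A → Prop} (hD : Sym D) {U : Set V} {u v : V}
    (hcl : ∀ x y a, D x y a → x ∈ U → y ∈ U ∨ y = u ∨ y = v) {l : List (V × A)} {x y : V}
    (h : Wk D x l y) (hi : ∀ z ∈ (vs l).dropLast, z ≠ u ∧ z ≠ v) :
    Wk (sd1 D U) x l y ∨ Wk (sd2 D U) x l y := by
  induction l generalizing x with
  | nil => exact Or.inl h
  | cons s l ih =>
    obtain _ | ⟨s', l'⟩ := l
    · by_cases h1 : x ∈ U ∨ s.1 ∈ U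
      · exact Or.inl ⟨⟨h.1, h1⟩, h.2⟩
      · exact Or.inr ⟨⟨h.1, not_or.1 h1⟩, h.2⟩
    · have hs := hi s.1 (by simp)
      rcases ih h.2 (fun z hz => hi z (by
        simp only [vs_cons, List.dropLast_cons_cons, List.mem_cons]; exact Or.inr hz)) with k | k
      · refine Or.inl ⟨⟨h.1, Or.inr ?_⟩, k⟩
        rcases k.1.2 with k2 | k2
        · exact k2
        · rcases hcl _ _ _ (hD _ _ _ k.1.1) k2 with k3 | k3 | k3
          exacts [k3, absurd k3 hs.1, absurd k3 hs.2]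
      · refine Or.inr ⟨⟨h.1, fun hx => ?_, k.1.2.1⟩, k⟩
        rcases hcl _ _ _ h.1 hx with k3 | k3 | k3
        exacts [k.1.2.1 k3, hs.1 k3, hs.2 k3]

theorem pth_side {D : V → V → A → Prop} (hD : Sym D) {U : Set V} {u v : V}
    (hcl : ∀ x y a, D x y a → x ∈ U → y ∈ U ∨ y = u ∨ y = v) {P : List (V × A)}
    (h : Pth D u P v) : Pth (sd1 D U) u P v ∨ Pth (sd2 D U) u P v := by
  have hn := List.nodup_cons.1 h.2
  rcases wk_side hD hcl h.1 (fun z hz => ⟨fun e => hn.1 (e ▸ List.dropLast_subset _ hz),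
    h.1.ne_of_dropLast hn.2 hz⟩) with k | k
  exacts [Or.inl ⟨k, h.2⟩, Or.inr ⟨k, h.2⟩]

theorem cy_side {D : V → V → A → Prop} (hD : Sym D) {U : Set V} {u v : V}
    (hcl : ∀ x y a, D x y a → x ∈ U → y ∈ U ∨ y = u ∨ y = v) {l : List (V × A)} {x : V}
    (h : Cy D x l) (h0 : u ∉ vs l ∨ v ∉ vs l) : Cy (sd1 D U) x l ∨ Cy (sd2 D U) x l := by
  have back : ∀ (D' : V → V → A → Prop) (w : V) (l1 l2 : List (V × A)), Wk D w l2 x →
      Wk D' w (l2 ++ l1) w → Wk D' x (l1 ++ l2) x := by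
    intro D' w l1 l2 k2 k
    obtain ⟨x', k3, k4⟩ := wk_append.1 k
    obtain rfl : x = x' := k2.end_eq k3
    exact k4.append k3
  have gen : ∀ w, w ∈ vs l → (∀ z ∈ vs l, z ≠ w → z ≠ u ∧ z ≠ v) →
      Cy (sd1 D U) x l ∨ Cy (sd2 D U) x l := by
    intro w hw hz
    obtain ⟨l1, l2, rfl, -, k2, hc⟩ := h.rot hw
    rcases wk_side hD hcl hc.1 (fun z hz' => hz z (by
      have := List.dropLast_subset _ hz'
      simp only [vs_append, List.mem_append] at this ⊢; exact this.symm)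
      (hc.1.ne_of_dropLast hc.2 hz')) with k | k
    exacts [Or.inl ⟨back _ _ _ _ k2 k, h.2⟩, Or.inr ⟨back _ _ _ _ k2 k, h.2⟩]
  by_cases hu : u ∈ vs l
  · have hv := h0.resolve_left (not_not.2 hu)
    exact gen u hu fun z hz hzu => ⟨hzu, fun e => hv (e ▸ hz)⟩
  · by_cases hv : v ∈ vs l
    · exact gen v hv fun z hz hzv => ⟨fun e => hu (e ▸ hz), hzv⟩
    · rcases wk_side hD hcl h.1 (fun z hz => ⟨fun e => hu (e ▸ List.dropLast_subset _ hz),
        fun e => hv (e ▸ List.dropLast_subset _ hz)⟩) with k | k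
      exacts [Or.inl ⟨k, h.2⟩, Or.inr ⟨k, h.2⟩]

theorem sd1_sym {D : V → V → A → Prop} (hD : Sym D) (U : Set V) : Sym (sd1 D U) :=
  fun _ _ _ h => ⟨hD _ _ _ h.1, h.2.symm⟩

theorem sd2_sym {D : V → V → A → Prop} (hD : Sym D) (U : Set V) : Sym (sd2 D U) :=
  fun _ _ _ h => ⟨hD _ _ _ h.1, h.2.symm⟩

theorem pg_cross {D : V → V → A → Prop} (hD : Sym D) (hV : Valid F D) {U : Set V} {u v : V}
    (hcl : ∀ x y a, D x y a → x ∈ U → y ∈ U ∨ y = u ∨ y = v) {s t : A}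
    (hs : s ∈ pg (sd1 D U) u v) (ht : t ∈ pg (sd2 D U) u v) : s * t⁻¹ ∈ F := by
  obtain ⟨P, hP, rfl⟩ := hs
  obtain ⟨Q, hQ, rfl⟩ := ht
  refine hV.two hD (hP.mono fun _ _ _ h => h.1) (hQ.mono fun _ _ _ h => h.1) fun z hz hz' => ?_
  have h1 : z ∈ U ∨ z = u ∨ z = v := hP.1.forall_vs (P := fun z => z ∈ U ∨ z = u ∨ z = v)
    (fun x y a h => h.2.elim (hcl x y a h.1) Or.inl) z hz
  have h2 : z ∉ U := hQ.1.forall_vs (P := fun z => z ∉ U) (fun x y a h => h.2.2) z hz'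
  rcases h1 with h | h | h
  · exact absurd h h2
  · exact absurd (h ▸ hz) (List.nodup_cons.1 hP.2).1
  · exact h

theorem gr_plus {W : Finset V} {D : V → V → A → Prop} (hD : Gr W D) {u v : V} (huv : u ≠ v)
    (hu : u ∈ W) (hv : v ∈ W) (T : Set A) : Gr W (plus D u v T) := by
  refine ⟨plus_sym hD.sym u v T, ?_, ?_⟩
  · rintro x y a (h | ⟨rfl, rfl, -⟩ | ⟨rfl, rfl, -⟩)
    exacts [hD.ne _ _ _ h, huv, huv.symm]
  · rintro x y a (h | ⟨rfl, -⟩ | ⟨rfl, -⟩)
    exacts [hD.mem _ _ _ h, hu, hv]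

/-- The induction step at a separation. -/
theorem sepU (hF : PF F) (hG : PG G) {W : Finset V} {D : V → V → A → Prop} (hD : Gr W D)
    (hV : Valid F D)
    (IH : ∀ (W' : Finset V) (D' : V → V → A → Prop), W'.card < W.card → Gr W' D' → Valid F D' →
      ∃ L : V → V → A → Γ, Good G D' L)
    {u v : V} (huv : u ≠ v) (hu : u ∈ W) (hv : v ∈ W) {U : Set V} (huU : u ∉ U) (hvU : v ∉ U)
    (hcl : ∀ x y a, D x y a → x ∈ U → y ∈ U ∨ y = u ∨ y = v)
    {w1 w2 : V} (h1 : w1 ∈ W) (h1U : w1 ∈ U) (h2 : w2 ∈ W) (h2U : w2 ∉ U) (h2u : w2 ≠ u)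
    (h2v : w2 ≠ v) (hq : Clq F (pg (sd1 D U) u v) ∨ Clq F (pg (sd2 D U) u v)) :
    ∃ L : V → V → A → Γ, Good G D L := by
  classical
  have s1 := sd1_sym hD.sym U
  have s2 := sd2_sym hD.sym U
  have r1 : Gr (W.filter fun z => z ∈ U ∨ z = u ∨ z = v) (sd1 D U) :=
    ⟨s1, fun x y a h => hD.ne _ _ _ h.1, fun x y a h => Finset.mem_filter.2 ⟨hD.mem _ _ _ h.1,
      h.2.elim Or.inl (hcl _ _ _ (hD.sym _ _ _ h.1))⟩⟩
  have r2 : Gr (W.filter fun z => z ∉ U) (sd2 D U) :=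
    ⟨s2, fun x y a h => hD.ne _ _ _ h.1, fun x y a h => Finset.mem_filter.2 ⟨hD.mem _ _ _ h.1,
      h.2.1⟩⟩
  have c1 : (W.filter fun z => z ∈ U ∨ z = u ∨ z = v).card < W.card :=
    Finset.card_lt_card (Finset.filter_ssubset.2 ⟨w2, h2, by simp [h2U, h2u, h2v]⟩)
  have c2 : (W.filter fun z => z ∉ U).card < W.card :=
    Finset.card_lt_card (Finset.filter_ssubset.2 ⟨w1, h1, by simp [h1U]⟩)
  have v1 : Valid F (sd1 D U) := hV.mono fun _ _ _ h => h.1
  have v2 : Valid F (sd2 D U) := hV.mono fun _ _ _ h => h.1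
  have lift : ∀ T : Set A, Clq F T → (∀ P, Pth (sd1 D U) u P v → ∀ t ∈ T, gn P * t⁻¹ ∈ F) →
      (∀ P, Pth (sd2 D U) u P v → ∀ t ∈ T, gn P * t⁻¹ ∈ F) →
      (∃ L : V → V → A → Γ, Good G (plus (sd1 D U) u v T) L) ∧
        ∃ L : V → V → A → Γ, Good G (plus (sd2 D U) u v T) L := fun T hT a1 a2 =>
    ⟨IH _ _ c1 (gr_plus r1 huv (by simp [hu]) (by simp [hv]) T)
        (valid_plus s1 v1 huv hT hF.inv a1),
      IH _ _ c2 (gr_plus r2 huv (by simp [hu, huU]) (by simp [hv, hvU]) T)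
        (valid_plus s2 v2 huv hT hF.inv a2)⟩
  have hun : ∀ x y a, D x y a → sd1 D U x y a ∨ sd2 D U x y a := fun x y a h => by
    by_cases h1 : x ∈ U ∨ y ∈ U
    exacts [Or.inl ⟨h, h1⟩, Or.inr ⟨h, not_or.1 h1⟩]
  rcases hq with hq | hq
  · obtain ⟨⟨L1, g1⟩, L2, g2⟩ := lift _ hq (fun P hP t ht => hq _ ⟨P, hP, rfl⟩ t ht)
      fun P hP t ht => by simpa using hF.inv _ (pg_cross hD.sym hV hcl ht ⟨P, hP, rfl⟩)
    exact glue hF hG huv hD.sym s2 s1 (fun x y a h h' => h.2.elim h'.2.1 h'.2.2)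
      (fun x y a h => (hun x y a h).symm) (fun x l hl h0 => (cy_side hD.sym hcl hl h0).symm)
      (fun P hP => (pth_side hD.sym hcl hP).symm) hq (fun P hP => ⟨P, hP, rfl⟩) g2 g1
  · obtain ⟨⟨L1, g1⟩, L2, g2⟩ := lift _ hq
      (fun P hP t ht => pg_cross hD.sym hV hcl ⟨P, hP, rfl⟩ ht)
      fun P hP t ht => hq _ ⟨P, hP, rfl⟩ t ht
    exact glue hF hG huv hD.sym s1 s2 (fun x y a h h' => h'.2.elim h.2.1 h.2.2) hun
      (fun x l hl h0 => cy_side hD.sym hcl hl h0) (fun P hP => pth_side hD.sym hcl hP) hq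
      (fun P hP => ⟨P, hP, rfl⟩) g1 g2

section contract

variable [DecidableEq V]

/-- The vertex map of the contraction of `v` to `u`. -/
def cp (u v : V) (z : V) : V := if z = v then u else z

/-- The switching function of the contraction. -/
def cs (v : V) (a0 : A) (z : V) : A := if z = v then a0 else 1

/-- The contracted graph. -/
def cD (D : V → V → A → Prop) (u v : V) (a0 : A) : V → V → A → Prop :=
  fun x y a => x ≠ y ∧ ∃ x0 y0 b, D x0 y0 b ∧ cp u v x0 = x ∧ cp u v y0 = y ∧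
    a = cs v a0 x0 * b * (cs v a0 y0)⁻¹

/-- The lift pulled back from the contracted graph. -/
def cL (L : V → V → A → Γ) (u v : V) (a0 : A) : V → V → A → Γ :=
  fun x y b => if cp u v x = cp u v y then 1
    else L (cp u v x) (cp u v y) (cs v a0 x * b * (cs v a0 y)⁻¹)

/-- The image of a walk in the contracted graph. -/
def cW (u v : V) (a0 : A) : V → List (V × A) → List (V × A)
  | _, [] => []
  | x, s :: l => if cp u v x = cp u v s.1 then cW u v a0 s.1 l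
      else (cp u v s.1, cs v a0 x * s.2 * (cs v a0 s.1)⁻¹) :: cW u v a0 s.1 l

theorem cp_eq {u v x y : V} (h : cp u v x = cp u v y) :
    x = y ∨ (x = u ∧ y = v) ∨ (x = v ∧ y = u) := by
  unfold cp at h
  split_ifs at h with h1 h2 h2
  · exact Or.inl (h1.trans h2.symm)
  · exact Or.inr (Or.inr ⟨h1, h.symm⟩)
  · exact Or.inr (Or.inl ⟨h, h2⟩)
  · exact Or.inl h

theorem cW_spec {W : Finset V} {D : V → V → A → Prop} (hD : Gr W D) {u v : V} {a0 : A}
    (hno : ∀ b, D u v b → b = a0) (L : V → V → A → Γ) {l : List (V × A)} {x y : V}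
    (h : Wk D x l y) :
    Wk (cD D u v a0) (cp u v x) (cW u v a0 x l) (cp u v y) ∧
      gn (cW u v a0 x l) = cs v a0 x * gn l * (cs v a0 y)⁻¹ ∧
      lf L (cp u v x) (cW u v a0 x l) = lf (cL L u v a0) x l ∧
      (vs (cW u v a0 x l)).Sublist ((vs l).map (cp u v)) := by
  induction l generalizing x with
  | nil => obtain rfl : x = y := h; simp [cW]
  | cons s l ih =>
    obtain ⟨i1, i2, i3, i4⟩ := ih h.2
    by_cases h0 : cp u v x = cp u v s.1
    · have e : cs v a0 x * s.2 = cs v a0 s.1 := by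
        have hne := hD.ne _ _ _ h.1
        rcases cp_eq h0 with k | ⟨k1, k2⟩ | ⟨k1, k2⟩
        · exact absurd k hne
        · have := hno s.2 (k1 ▸ k2 ▸ h.1)
          simp [cs, k2, this, show x ≠ v from k2 ▸ hne]
        · have := hno s.2⁻¹ (k1 ▸ k2 ▸ hD.sym _ _ _ h.1)
          simp [cs, k1, ← this, show s.1 ≠ v from k1 ▸ hne.symm]
      simp only [cW, if_pos h0]
      refine ⟨h0 ▸ i1, ?_, ?_, i4.cons _⟩
      · rw [i2, gn_cons, ← e]; simp only [mul_assoc]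
      · rw [lf_cons, ← i3, h0]; simp [cL, h0]
    · simp only [cW, if_neg h0]
      refine ⟨⟨⟨h0, x, s.1, s.2, h.1, rfl, rfl, rfl⟩, i1⟩, ?_, ?_, i4.cons_cons _⟩
      · rw [gn_cons, i2, gn_cons]; group
      · rw [lf_cons, lf_cons, ← i3]; simp [cL, h0]

theorem nodup_cp {u v : V} {l : List V} (hl : l.Nodup) (h0 : u ∉ l ∨ v ∉ l) :
    (l.map (cp u v)).Nodup := by
  refine hl.map_on fun x hx y hy h => ?_
  rcases cp_eq h with k | ⟨rfl, rfl⟩ | ⟨rfl, rfl⟩
  · exact k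
  · exact absurd h0 (by simp [hx, hy])
  · exact absurd h0 (by simp [hx, hy])

theorem cD_gr {W : Finset V} {D : V → V → A → Prop} (hD : Gr W D) {u v : V} (huv : u ≠ v)
    (hu : u ∈ W) (a0 : A) : Gr (W.erase v) (cD D u v a0) := by
  refine ⟨?_, fun x y a h => h.1, ?_⟩
  · rintro x y a ⟨h, x0, y0, b, hb, rfl, rfl, rfl⟩
    refine ⟨h.symm, y0, x0, b⁻¹, hD.sym _ _ _ hb, rfl, rfl, ?_⟩
    simp only [mul_inv_rev, inv_inv, mul_assoc]
  · rintro x y a ⟨h, x0, y0, b, hb, rfl, rfl, rfl⟩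
    unfold cp
    split_ifs with h1
    · exact Finset.mem_erase.2 ⟨huv, hu⟩
    · exact Finset.mem_erase.2 ⟨h1, hD.mem _ _ _ hb⟩

theorem cD_pull {D : V → V → A → Prop} {u v : V} {a0 : A} {l : List (V × A)} {x y : V}
    (h : Wk (cD D u v a0) x l y) (hl : l ≠ []) (hi : ∀ z ∈ (vs l).dropLast, z ≠ u) :
    ∃ x0 y0 m, cp u v x0 = x ∧ cp u v y0 = y ∧ Wk D x0 m y0 ∧ (vs m).map (cp u v) = vs l ∧
      gn l = cs v a0 x0 * gn m * (cs v a0 y0)⁻¹ := by
  induction l generalizing x with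
  | nil => exact absurd rfl hl
  | cons s l ih =>
    obtain ⟨-, x0, y0, b, hb, k1, k2, k3⟩ := h.1
    obtain _ | ⟨s', l'⟩ := l
    · exact ⟨x0, y0, [(y0, b)], k1, k2.trans h.2, ⟨hb, rfl⟩, by simp [k2], by simp [k3]⟩
    · obtain ⟨x1, y1, m, j1, j2, j3, j4, j5⟩ := ih h.2 (by simp) fun z hz => hi z (by
        simp only [vs_cons, List.dropLast_cons_cons, List.mem_cons]; exact Or.inr hz)
      have hs := hi s.1 (by simp)
      obtain rfl : y0 = x1 := by
        rcases cp_eq (k2.trans j1.symm) with k | ⟨k, -⟩ | ⟨k, -⟩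
        · exact k
        · exfalso; apply hs; rw [← k2, k]; simp [cp]
        · exfalso; apply hs; rw [← k2, k]; simp [cp]
      refine ⟨x0, y1, (y0, b) :: m, k1, j2, ⟨hb, j3⟩, by simp [k2, j4], ?_⟩
      rw [gn_cons, j5, k3, gn_cons]; group

theorem cD_valid {W : Finset V} {D : V → V → A → Prop} (hD : Gr W D) (hV : Valid F D) {u v : V}
    {a0 : A} (h0 : D u v a0) : Valid F (cD D u v a0) := by
  have huv := hD.ne _ _ _ h0
  have gen : ∀ x l, Cy (cD D u v a0) x l → (∀ z ∈ (vs l).dropLast, z ≠ u) → gn l ∈ F := by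
    intro x l hl hi
    by_cases hl0 : l = []
    · subst hl0; exact hV x [] ⟨rfl, by simp⟩
    obtain ⟨x0, y0, m, k1, k2, k3, k4, k5⟩ := cD_pull hl.1 hl0 hi
    have hm : (vs m).Nodup := List.Nodup.of_map (cp u v) (k4 ▸ hl.2)
    by_cases hxy : x0 = y0
    · subst hxy
      have := hV x0 m ⟨k3, hm⟩
      rwa [k5, mul_inv_cancel_comm]
    · have hP : Pth D x0 m y0 := by
        refine ⟨k3, List.nodup_cons.2 ⟨fun hx => hxy ?_, hm⟩⟩
        exact List.inj_on_of_nodup_map (k4 ▸ hl.2) hx (k3.last_mem (k3.ne_nil hxy))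
          (k1.trans k2.symm)
      rcases cp_eq (k1.trans k2.symm) with k | ⟨rfl, rfl⟩ | ⟨rfl, rfl⟩
      · exact absurd k hxy
      · have := hV.edge hD.sym hP h0 huv
        simpa [k5, cs, huv] using this
      · have := hV.edge hD.sym hP (hD.sym _ _ _ h0) huv.symm
        simpa [k5, cs, huv, mul_comm] using this
  intro x l hl
  by_cases hu : u ∈ vs l
  · obtain ⟨l1, l2, rfl, -, -, hc⟩ := hl.rot hu
    have := gen u _ hc fun z hz => hc.1.ne_of_dropLast hc.2 hz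
    rwa [gn_append, mul_comm, ← gn_append] at this
  · exact gen x l hl fun z hz e => hu (e ▸ List.dropLast_subset _ hz)

/-- The induction step at an edge without parallel edges, when any two disjoint unbalanced paths
between its ends are linked. -/
theorem contract (hF : PF F) (hG : PG G) {W : Finset V} {D : V → V → A → Prop} (hD : Gr W D)
    (hV : Valid F D) {u v : V} {a0 : A} (h0 : D u v a0) (hno : ∀ b, D u v b → b = a0)
    {L' : V → V → A → Γ} (hL' : Good G (cD D u v a0) L')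
    (hlink : ∀ P Q, Pth D u P v → Pth D u Q v → (∀ z, z ∈ vs P → z ∈ vs Q → z = v) →
      gn P ≠ a0 → gn Q ≠ a0 → ∃ x y R, x ∈ vs P ∧ x ≠ v ∧ y ∈ vs Q ∧ y ≠ v ∧
        Wk (fun s t a => D s t a ∧ t ≠ u ∧ t ≠ v) x R y) :
    Good G D (cL L' u v a0) := by
  have huv := hD.ne _ _ _ h0
  have hs := hD.sym
  set L := cL L' u v a0 with hL
  have hinv : InvC D L := by
    intro x y a h
    by_cases h1 : cp u v x = cp u v y
    · simp [hL, cL, h1]
    · simp only [hL, cL, if_neg h1, if_neg (Ne.symm h1)]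
      rw [← hL'.1 _ _ _ ⟨h1, x, y, a, h, rfl, rfl, rfl⟩]
      simp only [mul_inv_rev, inv_inv, mul_assoc]
  have h1 : ∀ x l, Cy D x l → (u ∉ vs l ∨ v ∉ vs l) → Ok G (gn l) (lf L x l) := by
    intro x l hl hm
    obtain ⟨i1, i2, i3, i4⟩ := cW_spec hD hno L' hl.1
    exact (hL'.2 _ _ ⟨i1, (nodup_cp hl.2 hm).sublist i4⟩).congr
      (by rw [i2, mul_inv_cancel_comm]) i3.symm
  have h1' : ∀ x y P Q, Pth D x P y → Pth D x Q y → (∀ z, z ∈ vs P → z ∈ vs Q → z = y) →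
      ((u ∉ vs P ∧ u ∉ x :: vs Q) ∨ (v ∉ vs P ∧ v ∉ x :: vs Q)) →
      Ok G (gn P * (gn Q)⁻¹) (lf L x P * (lf L x Q)⁻¹) := by
    intro x y P Q hP hQ hd hm
    have := h1 x _ (cy_of_two hs hP hQ hd) (by
      simp only [vs_append, List.mem_append, not_or]
      exact hm.imp (fun k => ⟨k.1, fun k' => k.2 (mem_rev hQ.1 k')⟩)
        fun k => ⟨k.1, fun k' => k.2 (mem_rev hQ.1 k')⟩)
    rwa [gn_append, gn_rev, lf_append L _ hP.1, lf_rev hs hinv hQ.1] at this
  have h2 : ∀ P, Pth D u P v → Ok G (gn P * a0⁻¹) (lf L u P) := by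
    intro P hP
    obtain ⟨i1, i2, i3, i4⟩ := cW_spec hD hno L' hP.1
    have hn := List.nodup_cons.1 hP.2
    have e : cp u v v = cp u v u := by simp [cp]
    exact (hL'.2 _ _ ⟨e ▸ i1, (nodup_cp hn.2 (Or.inl hn.1)).sublist i4⟩).congr
      (by rw [i2]; simp [cs, huv]) i3.symm
  refine good_of_two hG hs hinv huv h1 fun P Q hP hQ hd => ?_
  by_cases hPa : gn P = a0
  · exact ((h2 Q hQ).inv hG).congr (by simp [hPa]) (by simp [(h2 P hP).1 (by simp [hPa])])
  by_cases hQa : gn Q = a0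
  · exact (h2 P hP).congr (by simp [hQa]) (by simp [(h2 Q hQ).1 (by simp [hQa])])
  obtain ⟨x', y', R', hx', hxv', hy', hyv', hR'⟩ := hlink P Q hP hQ hd hPa hQa
  obtain ⟨x, y, R, ⟨hx, hxv⟩, ⟨hy, hyv⟩, hR0, hRP, hRQ⟩ :=
    exists_link (X := {z | z ∈ vs P ∧ z ≠ v}) (Y := {z | z ∈ vs Q ∧ z ≠ v}) ⟨hx', hxv'⟩
      ⟨hy', hyv'⟩ hR'
  have hR : Pth D x R y := hR0.mono fun _ _ _ h => h.1
  have hRu : ∀ z ∈ vs R, z ≠ u ∧ z ≠ v :=
    hR0.1.forall_vs (P := fun z => z ≠ u ∧ z ≠ v) fun _ _ _ h => h.2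
  have hRP' : ∀ z ∈ vs R, z ∉ vs P := fun z hz hz' => hRP z hz ⟨hz', (hRu z hz).2⟩
  have hRQ' : ∀ z ∈ vs R, z ∈ vs Q → z = y := fun z hz hz' => hRQ z hz ⟨hz', (hRu z hz).2⟩
  obtain ⟨a1, b1, rfl, ha1, hb1, hx1, d1⟩ := hP.split hx
  obtain ⟨a2, b2, rfl, ha2, hb2, hy2, d2⟩ := hQ.split hy
  have hvb1 : v ∈ vs b1 := hb1.1.last_mem (hb1.1.ne_nil hxv)
  have hvb2 : v ∈ vs b2 := hb2.1.last_mem (hb2.1.ne_nil hyv)
  have hva1 : v ∉ vs a1 := fun h => d1 v (by simp [h]) hvb1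
  have hva2 : v ∉ vs a2 := fun h => d2 v (by simp [h]) hvb2
  have hub1 : u ∉ vs b1 := d1 u (by simp)
  have hub2 : u ∉ vs b2 := d2 u (by simp)
  have hua1 : u ∉ vs a1 := (List.nodup_cons.1 ha1.2).1
  have hua2 : u ∉ vs a2 := (List.nodup_cons.1 ha2.2).1
  have hyb2 : y ∉ vs b2 := (List.nodup_cons.1 hb2.2).1
  have hxb1 : x ∉ vs b1 := (List.nodup_cons.1 hb1.2).1
  have hxu : x ≠ u := fun h => hua1 (h ▸ hx1)
  simp only [vs_append, List.mem_append, not_or] at hd hRP' hRQ'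
  have p1 : Pth D u (a1 ++ R) y := ha1.append hR fun z hz hz' => by
    rcases List.mem_cons.1 hz with h | h
    exacts [(hRu z hz').1 h, (hRP' z hz').1 h]
  have p2 : Pth D x (R ++ b2) v := hR.append hb2 fun z hz hz' => by
    rcases List.mem_cons.1 hz with h | h
    · exact hxv (h ▸ hd z (Or.inl (h ▸ hx1)) (Or.inr hz'))
    · exact hyb2 (hRQ' z h (Or.inr hz') ▸ hz')
  have p3 : Pth D u (a1 ++ R ++ b2) v := p1.append hb2 fun z hz hz' => by
    simp only [vs_append, List.mem_cons, List.mem_append] at hz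
    rcases hz with h | h | h
    · exact hub2 (h ▸ hz')
    · exact hva1 (hd z (Or.inl h) (Or.inr hz') ▸ h)
    · exact hyb2 (hRQ' z h (Or.inr hz') ▸ hz')
  have hR2 := hR.rev hs
  have hyR : y ∉ vs (rev x R) := (List.nodup_cons.1 hR2.2).1
  have p4 : Pth D u (a2 ++ rev x R) x := ha2.append hR2 fun z hz hz' => by
    rcases List.mem_cons.1 (mem_rev hR.1 hz') with k | k
    · rcases List.mem_cons.1 hz with h | h
      · exact hxu (k.symm.trans h)
      · exact hxv (k ▸ hd z (Or.inl (k ▸ hx1)) (Or.inl h))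
    · rcases List.mem_cons.1 hz with h | h
      · exact (hRu z k).1 h
      · exact hyR (hRQ' z k (Or.inl h) ▸ hz')
  have p5 : Pth D u (a2 ++ rev x R ++ b1) v := p4.append hb1 fun z hz hz' => by
    simp only [vs_append, List.mem_cons, List.mem_append] at hz
    rcases hz with h | h | h
    · exact hub1 (h ▸ hz')
    · exact hva2 (hd z (Or.inr hz') (Or.inl h) ▸ h)
    · rcases List.mem_cons.1 (mem_rev hR.1 h) with k | k
      exacts [hxb1 (k ▸ hz'), (hRP' z k).2 hz']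
  have q1 : ∀ z, z ∈ vs (a1 ++ R) → z ∈ vs a2 → z = y := fun z hz hz' => by
    simp only [vs_append, List.mem_append] at hz
    rcases hz with h | h
    · exact absurd (hd z (Or.inl h) (Or.inl hz') ▸ h) hva1
    · exact hRQ' z h (Or.inl hz')
  have q2 : ∀ z, z ∈ vs b1 → z ∈ vs (R ++ b2) → z = v := fun z hz hz' => by
    simp only [vs_append, List.mem_append] at hz'
    rcases hz' with h | h
    · exact absurd hz (hRP' z h).2
    · exact hd z (Or.inr hz) (Or.inr h)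
  have o1 := h1' u y _ _ p1 ha2 q1 (Or.inr ⟨by
    simp only [vs_append, List.mem_append, not_or]; exact ⟨hva1, fun h => (hRu v h).2 rfl⟩,
    by simp [hva2, huv.symm]⟩)
  have o2 := h1' x v _ _ hb1 p2 q2 (Or.inl ⟨hub1, by
    simp only [vs_append, List.mem_cons, List.mem_append, not_or]
    exact ⟨hxu.symm, fun h => (hRu u h).1 rfl, hub2⟩⟩)
  have f1 := hV.edge hs hP h0 huv
  have f2 := hV.edge hs hQ h0 huv
  have f3 := hV.two hs hP hQ (by simpa using hd)
  have f4 := hV.two hs p1 ha2 q1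
  have f5 := hV.edge hs p3 h0 huv
  have f6 := hV.edge hs p5 h0 huv
  have f7 := hV.two hs hb1 p2 q2
  rw [lf_append L _ ha1.1] at o1
  rw [lf_append L _ hR.1] at o2
  rw [lf_append L _ ha1.1, lf_append L _ ha2.1]
  simp only [gn_append, gn_rev] at f1 f2 f3 f4 f5 f6 f7 o1 o2 hPa hQa ⊢
  generalize gn a1 = α1 at *
  generalize gn a2 = α2 at *
  generalize gn b1 = β1 at *
  generalize gn b2 = β2 at *
  generalize gn R = ρ at *
  have cg : ∀ {a b : A}, a ∈ F → a = b → b ∈ F := fun h e => e ▸ h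
  rcases hF.k4 _ f1 _ f2 (cg f3 (by simp only [← div_eq_mul_inv]; simp)) _ f4
    (cg f5 (by apply Additive.ofMul.injective; simp only [ofMul_mul, ofMul_inv]; abel))
    (cg f6 (by apply Additive.ofMul.injective; simp only [ofMul_mul, ofMul_inv]; abel))
    (cg f7 (by apply Additive.ofMul.injective; simp only [ofMul_mul, ofMul_inv]; abel))
    with k | k | k | k
  · exact absurd (mul_inv_eq_one.1 k) hPa
  · exact absurd (mul_inv_eq_one.1 k) hQa
  · have e1 := mul_inv_eq_one.1 (o1.1 k)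
    have e2 := mul_inv_eq_one.1 k
    refine (o2.conj hG (lf L u a1)).congr ?_ ?_
    · rw [← e2]; apply Additive.ofMul.injective; simp only [ofMul_mul, ofMul_inv]; abel
    · rw [← e1]; group
  · have k' : β1 * (ρ * β2)⁻¹ = 1 := by
      rw [← mul_inv_eq_one.2 k]
      apply Additive.ofMul.injective; simp only [ofMul_mul, ofMul_inv]; abel
    have e1 := mul_inv_eq_one.1 (o2.1 k')
    have e2 := mul_inv_eq_one.1 k'
    refine o1.congr ?_ ?_
    · rw [e2]; apply Additive.ofMul.injective; simp only [ofMul_mul, ofMul_inv]; abel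
    · rw [e1]; group

end contract

end Pool.Agent.Lib.MP_10bdcf_co.Fr
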