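import Mathlib

/-!
Walks in gain graphs. A gain graph is a relation `D u v a` (a dart from `u` to `v` with gain `a`).
-/

namespace Pool.Agent.Lib.MP_10bdcf_co.Fr

variable {V A Γ : Type}

/-- `l` lists the steps (next vertex, gain) of a walk from `u` to `v`. -/
def Wk (D : V → V → A → Prop) : V → List (V × A) → V → Prop
  | u, [], v => u = v
  | u, s :: l, v => D u s.1 s.2 ∧ Wk D s.1 l v

/-- The product of the values of `L` along a walk. -/
def lf [Monoid Γ] (L : V → V → A → Γ) : V → List (V × A) → Γ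
  | _, [] => 1
  | u, s :: l => L u s.1 s.2 * lf L s.1 l

/-- The gain of a walk. -/
def gn [Monoid A] (l : List (V × A)) : A := (l.map Prod.snd).prod

/-- The vertices of a walk after the first one. -/
def vs (l : List (V × A)) : List V := l.map Prod.fst

/-- The reversed walk. -/
def rev [Inv A] : V → List (V × A) → List (V × A)
  | _, [] => []
  | u, s :: l => rev s.1 l ++ [(u, s.2⁻¹)]

@[simp] theorem wk_nil {D : V → V → A → Prop} {u v : V} : Wk D u [] v ↔ u = v := Iff.rfl
@[simp] theorem wk_cons {D : V → V → A → Prop} {u v : V} {s : V × A} {l : List (V × A)} :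
    Wk D u (s :: l) v ↔ D u s.1 s.2 ∧ Wk D s.1 l v := Iff.rfl
@[simp] theorem lf_nil [Monoid Γ] {L : V → V → A → Γ} {u : V} : lf L u [] = 1 := rfl
@[simp] theorem lf_cons [Monoid Γ] {L : V → V → A → Γ} {u : V} {s : V × A} {l : List (V × A)} :
    lf L u (s :: l) = L u s.1 s.2 * lf L s.1 l := rfl
@[simp] theorem gn_nil [Monoid A] : gn ([] : List (V × A)) = 1 := rfl
@[simp] theorem gn_cons [Monoid A] {s : V × A} {l : List (V × A)} : gn (s :: l) = s.2 * gn l := by
  simp [gn]
@[simp] theorem gn_append [Monoid A] {l l' : List (V × A)} : gn (l ++ l') = gn l * gn l' := by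
  simp [gn]
@[simp] theorem vs_nil : vs ([] : List (V × A)) = [] := rfl
@[simp] theorem vs_cons {s : V × A} {l : List (V × A)} : vs (s :: l) = s.1 :: vs l := rfl
@[simp] theorem vs_append {l l' : List (V × A)} : vs (l ++ l') = vs l ++ vs l' := by simp [vs]
@[simp] theorem rev_nil [Inv A] {u : V} : rev u ([] : List (V × A)) = [] := rfl
@[simp] theorem rev_cons [Inv A] {u : V} {s : V × A} {l : List (V × A)} :
    rev u (s :: l) = rev s.1 l ++ [(u, s.2⁻¹)] := rfl
theorem vs_length {l : List (V × A)} : (vs l).length = l.length := by simp [vs]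

theorem wk_append {D : V → V → A → Prop} {l l' : List (V × A)} {u w : V} :
    Wk D u (l ++ l') w ↔ ∃ v, Wk D u l v ∧ Wk D v l' w := by
  induction l generalizing u with
  | nil => simp
  | cons s l ih =>
    simp only [List.cons_append, wk_cons, ih]
    constructor
    · rintro ⟨h, v, h1, h2⟩; exact ⟨v, ⟨h, h1⟩, h2⟩
    · rintro ⟨v, ⟨h, h1⟩, h2⟩; exact ⟨h, v, h1, h2⟩

theorem Wk.append {D : V → V → A → Prop} {l l' : List (V × A)} {u v w : V} (h : Wk D u l v)
    (h' : Wk D v l' w) : Wk D u (l ++ l') w := wk_append.2 ⟨v, h, h'⟩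

theorem Wk.mono {D D' : V → V → A → Prop} (hD : ∀ x y a, D x y a → D' x y a) {l : List (V × A)}
    {u v : V} (h : Wk D u l v) : Wk D' u l v := by
  induction l generalizing u with
  | nil => exact h
  | cons s l ih => exact ⟨hD _ _ _ h.1, ih h.2⟩

theorem lf_append [Monoid Γ] {D : V → V → A → Prop} (L : V → V → A → Γ) {l : List (V × A)}
    (l' : List (V × A)) {u v : V} (h : Wk D u l v) : lf L u (l ++ l') = lf L u l * lf L v l' := by
  induction l generalizing u with
  | nil => obtain rfl : u = v := h; simp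
  | cons s l ih => simp [ih h.2, mul_assoc]

theorem lf_congr [Monoid Γ] {D : V → V → A → Prop} {L L' : V → V → A → Γ}
    (hL : ∀ x y a, D x y a → L x y a = L' x y a) {l : List (V × A)} {u v : V} (h : Wk D u l v) :
    lf L u l = lf L' u l := by
  induction l generalizing u with
  | nil => rfl
  | cons s l ih => simp [hL _ _ _ h.1, ih h.2]

theorem Wk.last_mem {D : V → V → A → Prop} {l : List (V × A)} {u v : V} (h : Wk D u l v)
    (hl : l ≠ []) : v ∈ vs l := by
  induction l generalizing u with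
  | nil => exact absurd rfl hl
  | cons s l ih =>
    by_cases h0 : l = []
    · subst h0; have : s.1 = v := h.2; simp [this]
    · simp [ih h.2 h0]

theorem Wk.end_mem {D : V → V → A → Prop} {l : List (V × A)} {u v : V} (h : Wk D u l v) :
    v ∈ u :: vs l := by
  by_cases h0 : l = []
  · subst h0; have : u = v := h; simp [this]
  · simp [h.last_mem h0]

theorem Wk.ne_nil {D : V → V → A → Prop} {l : List (V × A)} {u v : V} (h : Wk D u l v)
    (huv : u ≠ v) : l ≠ [] := by
  rintro rfl; exact huv h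

theorem Wk.split {D : V → V → A → Prop} {l : List (V × A)} {u v z : V} (h : Wk D u l v)
    (hz : z ∈ vs l) : ∃ l1 l2, l = l1 ++ l2 ∧ l1 ≠ [] ∧ Wk D u l1 z ∧ Wk D z l2 v := by
  induction l generalizing u with
  | nil => simp at hz
  | cons s l ih =>
    by_cases h0 : z = s.1
    · subst h0; exact ⟨[s], l, rfl, by simp, ⟨h.1, rfl⟩, h.2⟩
    · have hz' : z ∈ vs l := by simpa [h0] using hz
      obtain ⟨l1, l2, rfl, -, h1, h2⟩ := ih h.2 hz'
      exact ⟨s :: l1, l2, rfl, by simp, ⟨h.1, h1⟩, h2⟩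

/-- Reversed darts are darts. -/
def Sym [Inv A] (D : V → V → A → Prop) : Prop := ∀ x y a, D x y a → D y x a⁻¹

/-- The values on reversed darts are the inverses. -/
def InvC [Inv A] [Inv Γ] (D : V → V → A → Prop) (L : V → V → A → Γ) : Prop :=
  ∀ x y a, D x y a → L y x a⁻¹ = (L x y a)⁻¹

theorem Wk.rev [Inv A] {D : V → V → A → Prop} (hD : Sym D) {l : List (V × A)} {u v : V}
    (h : Wk D u l v) : Wk D v (rev u l) u := by
  induction l generalizing u with
  | nil => exact Eq.symm h
  | cons s l ih => exact (ih h.2).append ⟨hD _ _ _ h.1, rfl⟩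

theorem gn_rev [CommGroup A] (u : V) (l : List (V × A)) : gn (rev u l) = (gn l)⁻¹ := by
  induction l generalizing u with
  | nil => simp
  | cons s l ih => simp [ih, mul_comm]

theorem lf_rev [Inv A] [Group Γ] {D : V → V → A → Prop} (hD : Sym D) {L : V → V → A → Γ}
    (hL : InvC D L) {l : List (V × A)} {u v : V} (h : Wk D u l v) :
    lf L v (rev u l) = (lf L u l)⁻¹ := by
  induction l generalizing u with
  | nil => simp
  | cons s l ih =>
    rw [rev_cons, lf_append L _ (h.2.rev hD), ih h.2]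
    simp [hL _ _ _ h.1]

theorem perm_rev [Inv A] {D : V → V → A → Prop} {l : List (V × A)} {u v : V} (h : Wk D u l v) :
    (v :: vs (rev u l)).Perm (u :: vs l) := by
  induction l generalizing u with
  | nil => obtain rfl : u = v := h; simp
  | cons s l ih =>
    have h1 := ih h.2
    simp only [rev_cons, vs_append, vs_cons, vs_nil]
    have h2 : (v :: (vs (rev s.1 l) ++ [u])).Perm (u :: v :: vs (rev s.1 l)) := by
      rw [← List.cons_append]; exact List.perm_append_singleton _ _
    exact h2.trans (h1.cons u)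

theorem mem_rev [Inv A] {D : V → V → A → Prop} {l : List (V × A)} {u v z : V} (h : Wk D u l v)
    (hz : z ∈ vs (rev u l)) : z ∈ u :: vs l :=
  (perm_rev h).subset (List.mem_cons_of_mem _ hz)

theorem mem_rev' [Inv A] {D : V → V → A → Prop} {l : List (V × A)} {u v z : V} (h : Wk D u l v)
    (hz : z ∈ vs l) : z ∈ v :: vs (rev u l) :=
  (perm_rev h).symm.subset (List.mem_cons_of_mem _ hz)

/-- A path: a walk without repeated vertices. -/
def Pth (D : V → V → A → Prop) (u : V) (l : List (V × A)) (v : V) : Prop :=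
  Wk D u l v ∧ (u :: vs l).Nodup

/-- A cycle: a closed walk without repeated vertices (the empty walk and a dart followed by its
reverse are allowed). -/
def Cy (D : V → V → A → Prop) (u : V) (l : List (V × A)) : Prop :=
  Wk D u l u ∧ (vs l).Nodup

theorem Pth.rev [Inv A] {D : V → V → A → Prop} (hD : Sym D) {l : List (V × A)} {u v : V}
    (h : Pth D u l v) : Pth D v (rev u l) u :=
  ⟨h.1.rev hD, (perm_rev h.1).nodup_iff.2 h.2⟩

theorem Pth.mono {D D' : V → V → A → Prop} (hD : ∀ x y a, D x y a → D' x y a) {l : List (V × A)}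
    {u v : V} (h : Pth D u l v) : Pth D' u l v := ⟨h.1.mono hD, h.2⟩

theorem Cy.mono {D D' : V → V → A → Prop} (hD : ∀ x y a, D x y a → D' x y a) {l : List (V × A)}
    {u : V} (h : Cy D u l) : Cy D' u l := ⟨h.1.mono hD, h.2⟩

theorem Pth.single {D : V → V → A → Prop} {u v : V} {a : A} (h : D u v a) (huv : u ≠ v) :
    Pth D u [(v, a)] v := ⟨⟨h, rfl⟩, by simp [huv]⟩

theorem Pth.nil_of_closed {D : V → V → A → Prop} {l : List (V × A)} {u : V} (h : Pth D u l u) :
    l = [] := by
  by_contra h0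
  exact (List.nodup_cons.1 h.2).1 (h.1.last_mem h0)

/-- Concatenation of paths that meet only at the common end. -/
theorem Pth.append {D : V → V → A → Prop} {l l' : List (V × A)} {u v w : V} (h : Pth D u l v)
    (h' : Pth D v l' w) (hd : ∀ z, z ∈ u :: vs l → z ∉ vs l') : Pth D u (l ++ l') w := by
  refine ⟨h.1.append h'.1, ?_⟩
  rw [vs_append, ← List.cons_append, List.nodup_append]
  exact ⟨h.2, (List.nodup_cons.1 h'.2).2, fun a ha b hb hab => hd a ha (hab ▸ hb)⟩

theorem Pth.split {D : V → V → A → Prop} {l : List (V × A)} {u v z : V} (h : Pth D u l v)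
    (hz : z ∈ vs l) : ∃ l1 l2, l = l1 ++ l2 ∧ Pth D u l1 z ∧ Pth D z l2 v ∧ z ∈ vs l1 ∧
      ∀ y, y ∈ u :: vs l1 → y ∉ vs l2 := by
  obtain ⟨l1, l2, rfl, h0, h1, h2⟩ := h.1.split hz
  have hn := h.2
  rw [vs_append, ← List.cons_append, List.nodup_append] at hn
  have hz1 : z ∈ vs l1 := h1.last_mem h0
  refine ⟨l1, l2, rfl, ⟨h1, hn.1⟩, ⟨h2, List.nodup_cons.2 ⟨fun hz2 => ?_, hn.2.1⟩⟩, hz1,
    fun y hy hy2 => hn.2.2 y hy y hy2 rfl⟩
  exact hn.2.2 z (List.mem_cons_of_mem _ hz1) z hz2 rfl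

/-- Every walk contains a path with the same ends; if all cycles have trivial value, the path
has the same value. -/
theorem Wk.exists_pth {D : V → V → A → Prop} {l : List (V × A)} {u v : V} (h : Wk D u l v) :
    ∃ p, Pth D u p v ∧ (∀ z ∈ vs p, z ∈ vs l) ∧ ∀ (Γ : Type) [Monoid Γ] (L : V → V → A → Γ),
      (∀ x c, x ∈ u :: vs l → Cy D x c → lf L x c = 1) → lf L u p = lf L u l := by
  induction l generalizing u with
  | nil => exact ⟨[], ⟨h, by simp⟩, by simp, fun _ _ _ _ => rfl⟩
  | cons s l ih =>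
    obtain ⟨p, hp, hsub, hlf⟩ := ih h.2
    by_cases hu : u ∈ s.1 :: vs p
    · rcases List.mem_cons.1 hu with hu | hu
      · refine ⟨p, hu ▸ hp, fun z hz => by simp [hsub z hz], fun Γ _ L hL => ?_⟩
        have h1 := hL u [s] (by simp) ⟨⟨h.1, hu.symm⟩, by simp⟩
        simp only [lf_cons, lf_nil, mul_one] at h1
        rw [lf_cons, h1, one_mul, ← hlf Γ L fun x c hx hc => hL x c (by simp [hx]) hc, ← hu]
      · obtain ⟨p1, p2, rfl, h1, h2, -, -⟩ := hp.split hu
        refine ⟨p2, h2, fun z hz => by simp [hsub z (by simp [hz])], fun Γ _ L hL => ?_⟩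
        have h3 := hL u (s :: p1) (by simp) ⟨⟨h.1, h1.1⟩, h1.2⟩
        rw [lf_cons, ← hlf Γ L fun x c hx hc => hL x c (by simp [hx]) hc, lf_append L _ h1.1,
          ← mul_assoc, ← lf_cons, h3, one_mul]
    · refine ⟨s :: p, ⟨⟨h.1, hp.1⟩, List.nodup_cons.2 ⟨hu, hp.2⟩⟩, fun z hz => ?_,
        fun Γ _ L hL => ?_⟩
      · rcases List.mem_cons.1 hz with hz | hz
        · simp [hz]
        · simp [hsub z hz]
      · rw [lf_cons, lf_cons, hlf Γ L fun x c hx hc => hL x c (by simp [hx]) hc]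

/-- Two paths with common ends that have no other common vertex form a cycle. -/
theorem cy_of_two [Inv A] {D : V → V → A → Prop} (hD : Sym D) {P Q : List (V × A)} {u v : V}
    (hP : Pth D u P v) (hQ : Pth D u Q v) (hd : ∀ z, z ∈ vs P → z ∈ vs Q → z = v) :
    Cy D u (P ++ rev u Q) := by
  refine ⟨hP.1.append (hQ.1.rev hD), ?_⟩
  have hR := (hQ.rev hD).2
  rw [vs_append, List.nodup_append]
  refine ⟨(List.nodup_cons.1 hP.2).2, (List.nodup_cons.1 hR).2, fun a ha b hb hab => ?_⟩
  subst hab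
  rcases List.mem_cons.1 (mem_rev hQ.1 hb) with h | h
  · exact (List.nodup_cons.1 hP.2).1 (h ▸ ha)
  · exact (List.nodup_cons.1 hR).1 (hd a ha h ▸ hb)

theorem Cy.rot {D : V → V → A → Prop} {l : List (V × A)} {x u : V} (h : Cy D x l)
    (hu : u ∈ vs l) : ∃ l1 l2, l = l1 ++ l2 ∧ Wk D x l1 u ∧ Wk D u l2 x ∧ Cy D u (l2 ++ l1) := by
  obtain ⟨l1, l2, rfl, -, h1, h2⟩ := h.1.split hu
  refine ⟨l1, l2, rfl, h1, h2, h2.append h1, ?_⟩
  have := h.2
  rw [vs_append] at this ⊢
  exact List.perm_append_comm.nodup_iff.1 this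

/-- A cycle through two given vertices consists of two paths. -/
theorem two_of_cy [CommGroup A] {D : V → V → A → Prop} (hD : Sym D) {l : List (V × A)}
    {x u v : V} (h : Cy D x l) (hu : u ∈ vs l) (hv : v ∈ vs l) (huv : u ≠ v) :
    ∃ P Q, Pth D u P v ∧ Pth D u Q v ∧ (∀ z, z ∈ vs P → z ∈ vs Q → z = v) ∧
      gn l = gn P * (gn Q)⁻¹ ∧ ∀ (Γ : Type) [Group Γ] (L : V → V → A → Γ), InvC D L →
        ∃ c, lf L x l = c * (lf L u P * (lf L u Q)⁻¹) * c⁻¹ := by
  obtain ⟨l1, l2, rfl, h1, h2, hc⟩ := h.rot hu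
  have hv' : v ∈ vs (l2 ++ l1) := by
    simp only [vs_append, List.mem_append] at hv ⊢; exact hv.symm
  obtain ⟨m1, m2, hm, hm0, k1, k2⟩ := hc.1.split hv'
  have hn := hc.2
  rw [hm, vs_append, List.nodup_append] at hn
  have hu2 : u ∈ vs m2 := k2.last_mem (k2.ne_nil huv.symm)
  have hv1 : v ∈ vs m1 := k1.last_mem hm0
  have hP : Pth D u m1 v :=
    ⟨k1, List.nodup_cons.2 ⟨fun h => hn.2.2 u h u hu2 rfl, hn.1⟩⟩
  have hR : Pth D v m2 u :=
    ⟨k2, List.nodup_cons.2 ⟨fun h => hn.2.2 v hv1 v h rfl, hn.2.1⟩⟩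
  refine ⟨m1, rev v m2, hP, hR.rev hD, fun z hz hz' => ?_, ?_, fun Γ _ L hL => ?_⟩
  · rcases List.mem_cons.1 (mem_rev k2 hz') with h | h
    · exact h
    · exact absurd rfl (hn.2.2 z hz z h)
  · rw [gn_rev, inv_inv, ← gn_append, ← hm, gn_append, gn_append, mul_comm]
  · refine ⟨lf L x l1, ?_⟩
    rw [lf_rev hD hL k2, inv_inv, ← lf_append L _ k1, ← hm, lf_append L _ h1, lf_append L _ h2]
    group

/-- A shortest connection between two sets of vertices. -/
theorem exists_link {D : V → V → A → Prop} {X Y : Set V}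
    {l : List (V × A)} {x y : V} (hx : x ∈ X) (hy : y ∈ Y) (h : Wk D x l y) :
    ∃ x' y' Q, x' ∈ X ∧ y' ∈ Y ∧ Pth D x' Q y' ∧ (∀ z ∈ vs Q, z ∉ X) ∧
      ∀ z ∈ vs Q, z ∈ Y → z = y' := by
  induction hn : l.length using Nat.strong_induction_on generalizing l x y with
  | _ n ih =>
    by_cases h1 : ∃ z ∈ vs l, z ∈ X
    · obtain ⟨z, hz, hzX⟩ := h1
      obtain ⟨l1, l2, rfl, h0, -, k2⟩ := h.split hz
      have : 0 < l1.length := List.length_pos_iff.2 h0
      exact ih l2.length (by simp at hn; omega) hzX hy k2 rfl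
    by_cases h2 : ∃ z ∈ vs l, z ∈ Y ∧ z ≠ y
    · obtain ⟨z, hz, hzY, hzy⟩ := h2
      obtain ⟨l1, l2, rfl, -, k1, k2⟩ := h.split hz
      have : 0 < l2.length := List.length_pos_iff.2 (k2.ne_nil hzy)
      exact ih l1.length (by simp at hn; omega) hx hzY k1 rfl
    push Not at h1 h2
    obtain ⟨p, hp, hsub, -⟩ := h.exists_pth
    exact ⟨x, y, p, hx, hy, hp, fun z hz => h1 z (hsub z hz), fun z hz hzY => h2 z (hsub z hz) hzY⟩

/-- All vertices of a walk after the first satisfy `P` if all darts end in `P`. -/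
theorem Wk.forall_vs {D : V → V → A → Prop} {P : V → Prop} (hP : ∀ x y a, D x y a → P y)
    {l : List (V × A)} {u v : V} (h : Wk D u l v) : ∀ z ∈ vs l, P z := by
  induction l generalizing u with
  | nil => simp
  | cons s l ih =>
    intro z hz
    rcases List.mem_cons.1 hz with hz | hz
    · exact hz ▸ hP _ _ _ h.1
    · exact ih h.2 z hz

/-- A walk all of whose vertices satisfy `P` stays in the induced subgraph. -/
theorem Wk.induce {D D' : V → V → A → Prop} {P : V → Prop}
    (hP : ∀ x y a, D x y a → P x → P y → D' x y a) {l : List (V × A)} {u v : V} (h : Wk D u l v)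
    (hl : ∀ z ∈ u :: vs l, P z) : Wk D' u l v := by
  induction l generalizing u with
  | nil => exact h
  | cons s l ih =>
    exact ⟨hP _ _ _ h.1 (hl u (by simp)) (hl s.1 (by simp)), ih h.2 fun z hz => hl z (by simp [hz])⟩

end Pool.Agent.Lib.MP_10bdcf_co.Fr
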