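import Mathlib

/-!
The Hurwitz order over a commutative ring, in the basis 1, i, j, w = (1 + i + j + k) / 2.
-/

namespace Pool.Agent.Lib.MP_10bdcf_co.G

open scoped Quaternion

/-- `a + b i + c j + d w`. -/
@[ext] structure Hur (R : Type) where
  a : R
  b : R
  c : R
  d : R
  deriving DecidableEq

namespace Hur

variable {R S : Type}

section
variable [CommRing R]

instance : Zero (Hur R) := ⟨⟨0, 0, 0, 0⟩⟩
instance : One (Hur R) := ⟨⟨1, 0, 0, 0⟩⟩
instance : Add (Hur R) := ⟨fun x y => ⟨x.a + y.a, x.b + y.b, x.c + y.c, x.d + y.d⟩⟩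
instance : Neg (Hur R) := ⟨fun x => ⟨-x.a, -x.b, -x.c, -x.d⟩⟩
instance : Sub (Hur R) := ⟨fun x y => ⟨x.a - y.a, x.b - y.b, x.c - y.c, x.d - y.d⟩⟩
instance : Mul (Hur R) := ⟨fun x y =>
  ⟨x.a * y.a - x.b * y.b - x.b * y.c - x.b * y.d + x.c * y.b - x.c * y.c - x.d * y.c - x.d * y.d,
   x.a * y.b + x.b * y.a - x.b * y.c + x.c * y.b + x.c * y.d + x.d * y.b - x.d * y.c,
   x.a * y.c - x.b * y.c - x.b * y.d + x.c * y.a + x.c * y.b + x.c * y.d + x.d * y.b,
   x.a * y.d + 2 * (x.b * y.c) + x.b * y.d - 2 * (x.c * y.b) - x.c * y.d + x.d * y.a - x.d * y.b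
     + x.d * y.c + x.d * y.d⟩⟩
instance : Star (Hur R) := ⟨fun x => ⟨x.a + x.d, -x.b, -x.c, -x.d⟩⟩

@[simp] theorem zero_a : (0 : Hur R).a = 0 := rfl
@[simp] theorem zero_b : (0 : Hur R).b = 0 := rfl
@[simp] theorem zero_c : (0 : Hur R).c = 0 := rfl
@[simp] theorem zero_d : (0 : Hur R).d = 0 := rfl
@[simp] theorem one_a : (1 : Hur R).a = 1 := rfl
@[simp] theorem one_b : (1 : Hur R).b = 0 := rfl
@[simp] theorem one_c : (1 : Hur R).c = 0 := rfl
@[simp] theorem one_d : (1 : Hur R).d = 0 := rfl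
@[simp] theorem add_a (x y : Hur R) : (x + y).a = x.a + y.a := rfl
@[simp] theorem add_b (x y : Hur R) : (x + y).b = x.b + y.b := rfl
@[simp] theorem add_c (x y : Hur R) : (x + y).c = x.c + y.c := rfl
@[simp] theorem add_d (x y : Hur R) : (x + y).d = x.d + y.d := rfl
@[simp] theorem neg_a (x : Hur R) : (-x).a = -x.a := rfl
@[simp] theorem neg_b (x : Hur R) : (-x).b = -x.b := rfl
@[simp] theorem neg_c (x : Hur R) : (-x).c = -x.c := rfl
@[simp] theorem neg_d (x : Hur R) : (-x).d = -x.d := rfl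
@[simp] theorem sub_a (x y : Hur R) : (x - y).a = x.a - y.a := rfl
@[simp] theorem sub_b (x y : Hur R) : (x - y).b = x.b - y.b := rfl
@[simp] theorem sub_c (x y : Hur R) : (x - y).c = x.c - y.c := rfl
@[simp] theorem sub_d (x y : Hur R) : (x - y).d = x.d - y.d := rfl
@[simp] theorem mul_a (x y : Hur R) : (x * y).a = x.a * y.a - x.b * y.b - x.b * y.c - x.b * y.d
    + x.c * y.b - x.c * y.c - x.d * y.c - x.d * y.d := rfl
@[simp] theorem mul_b (x y : Hur R) : (x * y).b = x.a * y.b + x.b * y.a - x.b * y.c + x.c * y.b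
    + x.c * y.d + x.d * y.b - x.d * y.c := rfl
@[simp] theorem mul_c (x y : Hur R) : (x * y).c = x.a * y.c - x.b * y.c - x.b * y.d + x.c * y.a
    + x.c * y.b + x.c * y.d + x.d * y.b := rfl
@[simp] theorem mul_d (x y : Hur R) : (x * y).d = x.a * y.d + 2 * (x.b * y.c) + x.b * y.d
    - 2 * (x.c * y.b) - x.c * y.d + x.d * y.a - x.d * y.b + x.d * y.c + x.d * y.d := rfl
@[simp] theorem star_a (x : Hur R) : (star x).a = x.a + x.d := rfl
@[simp] theorem star_b (x : Hur R) : (star x).b = -x.b := rfl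
@[simp] theorem star_c (x : Hur R) : (star x).c = -x.c := rfl
@[simp] theorem star_d (x : Hur R) : (star x).d = -x.d := rfl

instance : AddCommGroup (Hur R) where
  add_assoc x y z := by ext <;> simp [add_assoc]
  zero_add x := by ext <;> simp
  add_zero x := by ext <;> simp
  add_comm x y := by ext <;> simp [add_comm]
  neg_add_cancel x := by ext <;> simp
  sub_eq_add_neg x y := by ext <;> simp [sub_eq_add_neg]
  nsmul := nsmulRec
  zsmul := zsmulRec

instance : Ring (Hur R) where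
  __ := (inferInstance : AddCommGroup (Hur R))
  mul_assoc x y z := by ext <;> simp only [mul_a, mul_b, mul_c, mul_d] <;> ring
  one_mul x := by ext <;> simp
  mul_one x := by ext <;> simp
  zero_mul x := by ext <;> simp
  mul_zero x := by ext <;> simp
  left_distrib x y z := by
    ext <;> simp only [mul_a, mul_b, mul_c, mul_d, add_a, add_b, add_c, add_d] <;> ring
  right_distrib x y z := by
    ext <;> simp only [mul_a, mul_b, mul_c, mul_d, add_a, add_b, add_c, add_d] <;> ring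

instance : StarRing (Hur R) where
  star_involutive x := by ext <;> simp
  star_mul x y := by
    ext <;> simp only [mul_a, mul_b, mul_c, mul_d, star_a, star_b, star_c, star_d] <;> ring
  star_add x y := by ext <;> simp <;> ring

/-- The reduced norm. -/
def nm (x : Hur R) : R := x.a ^ 2 + x.b ^ 2 + x.c ^ 2 + x.d ^ 2 + x.a * x.d + x.b * x.d + x.c * x.d

theorem nm_mul (x y : Hur R) : nm (x * y) = nm x * nm y := by
  simp only [nm, mul_a, mul_b, mul_c, mul_d]; ring

theorem mul_star (x : Hur R) : x * star x = ⟨nm x, 0, 0, 0⟩ := by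
  ext <;> simp only [nm, mul_a, mul_b, mul_c, mul_d, star_a, star_b, star_c, star_d] <;> ring

theorem star_mul_self' (x : Hur R) : star x * x = ⟨nm x, 0, 0, 0⟩ := by
  ext <;> simp only [nm, mul_a, mul_b, mul_c, mul_d, star_a, star_b, star_c, star_d] <;> ring

theorem mem_unitary {x : Hur R} : x ∈ unitary (Hur R) ↔ nm x = 1 := by
  rw [Unitary.mem_iff, mul_star, star_mul_self', and_self]
  exact ⟨fun h => congrArg Hur.a h, fun h => by rw [h]; rfl⟩

instance [Nontrivial R] : Nontrivial (Hur R) :=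
  ⟨⟨0, 1, fun h => zero_ne_one (congrArg Hur.a h)⟩⟩

instance [DecidableEq R] (x : Hur R) : Decidable (x ∈ unitary (Hur R)) :=
  decidable_of_iff _ mem_unitary.symm

/-- Base change. -/
def map [CommRing S] (f : R →+* S) : Hur R →+* Hur S where
  toFun x := ⟨f x.a, f x.b, f x.c, f x.d⟩
  map_one' := by ext <;> simp
  map_zero' := by ext <;> simp
  map_mul' x y := by ext <;> simp [map_ofNat]
  map_add' x y := by ext <;> simp

theorem map_star [CommRing S] (f : R →+* S) (x : Hur R) : map f (star x) = star (map f x) := by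
  ext <;> simp [map]

end

instance [Fintype R] : Fintype (Hur R) :=
  Fintype.ofEquiv (R × R × R × R)
    ⟨fun p => ⟨p.1, p.2.1, p.2.2.1, p.2.2.2⟩, fun x => (x.a, x.b, x.c, x.d), fun _ => rfl,
      fun _ => rfl⟩

end Hur

/-- The Hurwitz order. -/
abbrev HO : Type := Hur ℤ

/-- The Hurwitz order modulo 2. -/
abbrev Lam : Type := Hur (ZMod 2)

/-- Reduction modulo 2. -/
def rho : HO →+* Lam := Hur.map (Int.castRingHom (ZMod 2))

theorem rho_star (x : HO) : rho (star x) = star (rho x) := Hur.map_star _ x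

theorem rho_unitary {x : HO} (h : x ∈ unitary HO) : rho x ∈ unitary Lam := by
  rw [Unitary.mem_iff] at h ⊢
  rw [← rho_star, ← map_mul, ← map_mul, h.1, h.2, map_one, and_self]

theorem nm_four (x : HO) :
    4 * x.nm = (2 * x.a + x.d) ^ 2 + (2 * x.b + x.d) ^ 2 + (2 * x.c + x.d) ^ 2 + x.d ^ 2 := by
  simp only [Hur.nm]; ring

theorem nm_nonneg (x : HO) : 0 ≤ x.nm := by
  have := nm_four x
  nlinarith [sq_nonneg (2 * x.a + x.d), sq_nonneg (2 * x.b + x.d), sq_nonneg (2 * x.c + x.d),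
    sq_nonneg x.d]

theorem eq_zero_of_nm {x : HO} (h : x.nm = 0) : x = 0 := by
  have h4 := nm_four x
  rw [h] at h4
  have h1 := sq_nonneg (2 * x.a + x.d)
  have h2 := sq_nonneg (2 * x.b + x.d)
  have h3 := sq_nonneg (2 * x.c + x.d)
  have h5 := sq_nonneg x.d
  have e5 : x.d = 0 := pow_eq_zero_iff (two_ne_zero) |>.1 (by linarith)
  have e1 : 2 * x.a + x.d = 0 := pow_eq_zero_iff (two_ne_zero) |>.1 (by linarith)
  have e2 : 2 * x.b + x.d = 0 := pow_eq_zero_iff (two_ne_zero) |>.1 (by linarith)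
  have e3 : 2 * x.c + x.d = 0 := pow_eq_zero_iff (two_ne_zero) |>.1 (by linarith)
  ext <;> simp <;> omega

instance : NoZeroDivisors HO where
  eq_zero_or_eq_zero_of_mul_eq_zero {x y} h := by
    have h1 : x.nm * y.nm = 0 := by rw [← Hur.nm_mul, h]; rfl
    exact (mul_eq_zero.1 h1).imp eq_zero_of_nm eq_zero_of_nm

theorem unitary_of_mul_eq_one {x y : HO} (h : x * y = 1) : x ∈ unitary HO ∧ y ∈ unitary HO := by
  have h1 : x.nm * y.nm = 1 := by rw [← Hur.nm_mul, h]; rfl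
  rw [Hur.mem_unitary, Hur.mem_unitary]
  exact ⟨Int.eq_one_of_mul_eq_one_right (nm_nonneg x) h1,
    Int.eq_one_of_mul_eq_one_left (nm_nonneg y) h1⟩

/-- The 24 units. -/
def u24 : List HO :=
  [⟨1, 0, 0, 0⟩, ⟨-1, 0, 0, 0⟩, ⟨0, 1, 0, 0⟩, ⟨0, -1, 0, 0⟩, ⟨0, 0, 1, 0⟩, ⟨0, 0, -1, 0⟩,
   ⟨-1, -1, -1, 2⟩, ⟨1, 1, 1, -2⟩,
   ⟨0, 0, 0, 1⟩, ⟨0, 0, -1, 1⟩, ⟨0, -1, 0, 1⟩, ⟨0, -1, -1, 1⟩,
   ⟨-1, 0, 0, 1⟩, ⟨-1, 0, -1, 1⟩, ⟨-1, -1, 0, 1⟩, ⟨-1, -1, -1, 1⟩,
   ⟨0, 0, 0, -1⟩, ⟨0, 0, 1, -1⟩, ⟨0, 1, 0, -1⟩, ⟨0, 1, 1, -1⟩,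
   ⟨1, 0, 0, -1⟩, ⟨1, 0, 1, -1⟩, ⟨1, 1, 0, -1⟩, ⟨1, 1, 1, -1⟩]

theorem mem_u24 {x : HO} (h : x ∈ unitary HO) : x ∈ u24 := by
  rw [Hur.mem_unitary] at h
  have h4 := nm_four x
  rw [h] at h4
  obtain ⟨a, b, c, d⟩ := x
  simp only at h4
  have h1 := sq_nonneg (2 * a + d)
  have h2 := sq_nonneg (2 * b + d)
  have h3 := sq_nonneg (2 * c + d)
  have h5 := sq_nonneg d
  have e5 : -2 ≤ d ∧ d ≤ 2 := by constructor <;> nlinarith
  have e1 : -2 ≤ 2 * a + d ∧ 2 * a + d ≤ 2 := by constructor <;> nlinarith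
  have e2 : -2 ≤ 2 * b + d ∧ 2 * b + d ≤ 2 := by constructor <;> nlinarith
  have e3 : -2 ≤ 2 * c + d ∧ 2 * c + d ≤ 2 := by constructor <;> nlinarith
  have ea : -2 ≤ a ∧ a ≤ 2 := by omega
  have eb : -2 ≤ b ∧ b ≤ 2 := by omega
  have ec : -2 ≤ c ∧ c ≤ 2 := by omega
  clear h h1 h2 h3 h5
  obtain ⟨_, _⟩ := e5
  obtain ⟨_, _⟩ := ea
  obtain ⟨_, _⟩ := eb
  obtain ⟨_, _⟩ := ec
  interval_cases d <;> interval_cases a <;> (try omega) <;> interval_cases b <;> (try omega) <;>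
    interval_cases c <;> first | omega | decide

/-- `1 - c` is zero or a unit. -/
def Gd {R : Type} [Ring R] [StarRing R] (c : R) : Prop := 1 - c = 0 ∨ 1 - c ∈ unitary R

instance {R : Type} [CommRing R] [DecidableEq R] (c : Hur R) : Decidable (Gd c) :=
  inferInstanceAs (Decidable (_ ∨ _))

theorem Gd.star {R : Type} [Ring R] [StarRing R] {c : R} (h : Gd c) : Gd (star c) := by
  have e : 1 - Star.star c = Star.star (1 - c) := by simp
  rcases h with h | h
  · left; rw [e, h, star_zero]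
  · right; rw [e]; exact Unitary.star_mem h

theorem Gd.conj {R : Type} [Ring R] [StarRing R] {c u : R} (h : Gd c) (hu : u ∈ unitary R) :
    Gd (u * c * Star.star u) := by
  have e : 1 - u * c * Star.star u = u * (1 - c) * Star.star u := by
    rw [mul_sub, sub_mul, mul_one, Unitary.mul_star_self_of_mem hu]
  rcases h with h | h
  · left; rw [e, h]; simp
  · right; rw [e]; exact mul_mem (mul_mem hu h) (Unitary.star_mem hu)

theorem Gd.rho {c : HO} (h : Gd c) : Gd (rho c) := by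
  have e : 1 - G.rho c = G.rho (1 - c) := by simp
  rcases h with h | h
  · left; rw [e, h, map_zero]
  · right; rw [e]; exact rho_unitary h

theorem exists_lift {x : Lam} (h : x ∈ unitary Lam) : ∃ y ∈ unitary HO, rho y = x := by
  have : ∀ x : Lam, x ∈ unitary Lam → ∃ y ∈ u24, y ∈ unitary HO ∧ rho y = x := by decide +kernel
  obtain ⟨y, -, h1, h2⟩ := this x h
  exact ⟨y, h1, h2⟩

theorem eq_or_neg {x y : HO} (hx : x ∈ unitary HO) (hy : y ∈ unitary HO) (h : rho x = rho y) :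
    y = x ∨ y = -x := by
  have : ∀ x ∈ u24, ∀ y ∈ u24, rho x = rho y → y = x ∨ y = -x := by decide +kernel
  exact this x (mem_u24 hx) y (mem_u24 hy) h

theorem gd_or_neg {c : HO} (hc : c ∈ unitary HO) (h : Gd (rho c)) : Gd c ∨ Gd (-c) := by
  have : ∀ c ∈ u24, Gd (rho c) → Gd c ∨ Gd (-c) := by decide +kernel
  exact this c (mem_u24 hc) h

theorem not_gd_both {c : HO} (hc : c ∈ unitary HO) (h : Gd c) (h' : Gd (-c)) : False := by
  have : ∀ c ∈ u24, Gd c → ¬ Gd (-c) := by decide +kernel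
  exact this c (mem_u24 hc) h h'

theorem gd_eq_one {c : HO} (h : Gd c) (h1 : rho c = 1) : c = 1 := by
  rcases h with h | h
  · exact (sub_eq_zero.1 h).symm
  · have := rho_unitary h
    rw [map_sub, map_one, h1, sub_self] at this
    exact absurd this (by decide)

theorem gd_mul_star {p q : HO} (hp : p ∈ unitary HO) (hq : q ∈ unitary HO) (gp : Gd p) (gq : Gd q)
    (h : Gd (rho (p * star q)))
    (hn : rho p * rho p + rho p + 1 = 0 → rho p * rho q ≠ 1) : Gd (p * star q) := by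
  have : ∀ p ∈ u24, ∀ q ∈ u24, Gd p → Gd q → Gd (rho (p * star q)) →
      (rho p * rho p + rho p + 1 = 0 → rho p * rho q ≠ 1) → Gd (p * star q) := by decide +kernel
  exact this p (mem_u24 hp) q (mem_u24 hq) gp gq h hn

theorem gd_ne_one {a : HO} (ha : a ∈ unitary HO) (g : Gd a) (h1 : a ≠ 1) :
    1 - a = star a ∧ rho a * rho a + rho a + 1 = 0 := by
  have : ∀ a ∈ u24, Gd a → a ≠ 1 → 1 - a = star a ∧ rho a * rho a + rho a + 1 = 0 := by
    decide +kernel
  exact this a (mem_u24 ha) g h1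

theorem gd_force {a c : HO} (ha : a ∈ unitary HO) (hc : c ∈ unitary HO) (ga : Gd a) (h1 : a ≠ 1)
    (gc : Gd c) (h : Gd (-(c * star a))) : c = star a := by
  have : ∀ a ∈ u24, ∀ c ∈ u24, Gd a → a ≠ 1 → Gd c → Gd (-(c * star a)) → c = star a := by
    decide +kernel
  exact this a (mem_u24 ha) c (mem_u24 hc) ga h1 gc h

/-- The real quaternion with the given coordinates. -/
noncomputable def toH0 (x : HO) : ℍ[ℝ] := ⟨x.a + x.d / 2, x.b + x.d / 2, x.c + x.d / 2, x.d / 2⟩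

theorem toH0_re (x : HO) : (toH0 x).re = x.a + x.d / 2 := rfl
theorem toH0_imI (x : HO) : (toH0 x).imI = x.b + x.d / 2 := rfl
theorem toH0_imJ (x : HO) : (toH0 x).imJ = x.c + x.d / 2 := rfl
theorem toH0_imK (x : HO) : (toH0 x).imK = x.d / 2 := rfl

/-- The embedding in the real quaternions. -/
noncomputable def toH : HO →+* ℍ[ℝ] where
  toFun := toH0
  map_one' := by ext <;> simp [toH0_re, toH0_imI, toH0_imJ, toH0_imK]
  map_zero' := by ext <;> simp [toH0_re, toH0_imI, toH0_imJ, toH0_imK]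
  map_mul' x y := by ext <;> simp [toH0_re, toH0_imI, toH0_imJ, toH0_imK] <;> ring
  map_add' x y := by ext <;> simp [toH0_re, toH0_imI, toH0_imJ, toH0_imK] <;> ring

theorem norm_toH {x : HO} (h : x ∈ unitary HO) : ‖toH x‖ = 1 := by
  rw [Hur.mem_unitary] at h
  have h1 : Quaternion.normSq (toH0 x) = 1 := by
    have h2 : ((x.nm : ℤ) : ℝ) = 1 := by rw [h]; simp
    rw [Quaternion.normSq_def', toH0_re, toH0_imI, toH0_imJ, toH0_imK]
    simp only [Hur.nm] at h2
    push_cast at h2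
    linarith
  rw [Quaternion.normSq_eq_norm_mul_self] at h1
  change ‖toH0 x‖ = 1
  nlinarith [norm_nonneg (toH0 x)]

end Pool.Agent.Lib.MP_10bdcf_co.G
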