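import Mathlib

/-!
Systems of standard representations (one tableau for each base) over an arbitrary ring.
-/

namespace Pool.Agent.Lib.MP_10bdcf_co.G

open scoped Matroid
open Matrix Set

variable {E : Type}

/-- Exchange: remove `b`, add `e`. -/
def ex (B : Set E) (b e : E) : Set E := insert e (B \ {b})

/-- Edge of the fundamental graph of the base `X`: row `b`, column `e`. -/
def Adj (M : Matroid E) (X : Set E) (b e : E) : Prop := b ∈ X ∧ e ∉ X ∧ M.IsBase (ex X b e)

/-- A system of standard representations over `R` whose nonzero entries satisfy `P`. -/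
structure TabP {R : Type} [Ring R] [Fintype E] (P : R → Prop) (M : Matroid E)
    (T : Set E → Matrix E E R) : Prop where
  mem : ∀ B, M.IsBase B → ∀ b e, T B b e = 0 ∨ P (T B b e)
  supp : ∀ B, M.IsBase B → ∀ b e, T B b e ≠ 0 ↔ b ∈ B ∧ M.IsBase (ex B b e)
  diag : ∀ B, M.IsBase B → ∀ b ∈ B, T B b b = 1
  mul : ∀ B B', M.IsBase B → M.IsBase B' → T B' * T B = T B'

theorem mem_ex {B : Set E} {b e z : E} : z ∈ ex B b e ↔ z = e ∨ (z ∈ B ∧ z ≠ b) := by
  simp [ex]

theorem ex_ex {B : Set E} {b e : E} (hb : b ∈ B) (he : e ∉ B) : ex (ex B b e) e b = B := by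
  ext z
  simp only [mem_ex]
  constructor
  · rintro (rfl | ⟨rfl | h, h'⟩)
    · exact hb
    · exact absurd rfl h'
    · exact h.1
  · intro hz
    by_cases h : z = b
    · exact Or.inl h
    · exact Or.inr ⟨Or.inr ⟨hz, h⟩, fun e' => he (e' ▸ hz)⟩

theorem Adj.symm_ex {M : Matroid E} {X : Set E} {b e : E} (hX : M.IsBase X) (h : Adj M X b e) :
    Adj M (ex X b e) e b := by
  refine ⟨mem_ex.2 (Or.inl rfl), ?_, by rw [ex_ex h.1 h.2.1]; exact hX⟩
  rw [mem_ex]
  rintro (rfl | h')
  · exact h.2.1 h.1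
  · exact h'.2 rfl

theorem Adj.mem_ground {M : Matroid E} {X : Set E} {b e : E} (h : Adj M X b e) : e ∈ M.E :=
  h.2.2.subset_ground (mem_ex.2 (Or.inl rfl))

variable {R : Type} [Ring R] [Fintype E] {P : R → Prop} {M : Matroid E}
  {T : Set E → Matrix E E R}

theorem TabP.row (h : TabP P M T) {B : Set E} (hB : M.IsBase B) {b : E} (hb : b ∉ B) (e : E) :
    T B b e = 0 := by
  by_contra h0
  exact hb ((h.supp B hB b e).1 h0).1

theorem TabP.col (h : TabP P M T) {B : Set E} (hB : M.IsBase B) (b : E) {e : E} (he : e ∉ M.E) :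
    T B b e = 0 := by
  by_contra h0
  exact he (((h.supp B hB b e).1 h0).2.subset_ground (mem_insert _ _))

theorem TabP.off (h : TabP P M T) {B : Set E} (hB : M.IsBase B) {b e : E} (he : e ∈ B)
    (hne : b ≠ e) : T B b e = 0 := by
  by_contra h0
  obtain ⟨hb, h1⟩ := (h.supp B hB b e).1 h0
  rw [ex, insert_eq_of_mem (show e ∈ B \ {b} from ⟨he, hne.symm⟩)] at h1
  have := h1.eq_of_subset_isBase hB sdiff_subset
  exact (this.symm ▸ hb : b ∈ B \ {b}).2 rfl

theorem TabP.ne_zero_iff (h : TabP P M T) {B : Set E} (hB : M.IsBase B) {b e : E} (he : e ∉ B) :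
    T B b e ≠ 0 ↔ Adj M B b e := by
  rw [h.supp B hB, Adj]; tauto

theorem TabP.ne_zero (h : TabP P M T) {B : Set E} (hB : M.IsBase B) {b e : E}
    (ha : Adj M B b e) : T B b e ≠ 0 := (h.ne_zero_iff hB ha.2.1).2 ha

theorem TabP.eq_zero (h : TabP P M T) {B : Set E} (hB : M.IsBase B) {b e : E} (he : e ∉ B)
    (ha : ¬ Adj M B b e) : T B b e = 0 := by
  by_contra h0
  exact ha ((h.ne_zero_iff hB he).1 h0)

theorem TabP.prop (h : TabP P M T) {B : Set E} (hB : M.IsBase B) {b e : E}
    (ha : Adj M B b e) : P (T B b e) := (h.mem B hB b e).resolve_left (h.ne_zero hB ha)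

theorem TabP.mul_apply (h : TabP P M T) {B B' : Set E} (hB : M.IsBase B) (hB' : M.IsBase B')
    (x w : E) : T B' x w = ∑ b, T B' x b * T B b w := by
  rw [← Matrix.mul_apply, h.mul _ _ hB hB']

/-- The row of the entering element after a pivot. -/
theorem TabP.pivot_new (h : TabP P M T) {X : Set E} (hX : M.IsBase X) {g y : E}
    (ha : Adj M X g y) (w : E) : T (ex X g y) y w = T (ex X g y) y g * T X g w := by
  rw [h.mul_apply hX ha.2.2 y w]
  refine Finset.sum_eq_single g (fun b _ hb => ?_) (by simp)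
  by_cases hbX : b ∈ X
  · rw [h.off ha.2.2 (mem_ex.2 (Or.inr ⟨hbX, hb⟩)) fun e' : y = b => ha.2.1 (e' ▸ hbX), zero_mul]
  · rw [h.row hX hbX, mul_zero]

theorem TabP.inv_mul (h : TabP P M T) {X : Set E} (hX : M.IsBase X) {g y : E}
    (ha : Adj M X g y) : T (ex X g y) y g * T X g y = 1 := by
  rw [← h.pivot_new hX ha y, h.diag _ ha.2.2 y (mem_ex.2 (Or.inl rfl))]

theorem TabP.mul_inv (h : TabP P M T) {X : Set E} (hX : M.IsBase X) {g y : E}
    (ha : Adj M X g y) : T X g y * T (ex X g y) y g = 1 := by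
  have := h.inv_mul ha.2.2 (ha.symm_ex hX)
  rwa [ex_ex ha.1 ha.2.1] at this

theorem TabP.isUnit (h : TabP P M T) {X : Set E} (hX : M.IsBase X) {g y : E}
    (ha : Adj M X g y) : IsUnit (T X g y) :=
  ⟨⟨_, _, h.mul_inv hX ha, h.inv_mul hX ha⟩, rfl⟩

/-- The other rows after a pivot. -/
theorem TabP.pivot_old (h : TabP P M T) {X : Set E} (hX : M.IsBase X) {g y : E}
    (ha : Adj M X g y) {x : E} (hx : x ∈ X) (hxg : x ≠ g) (w : E) :
    T (ex X g y) x w = T X x w - T X x y * T (ex X g y) y g * T X g w := by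
  classical
  have key : ∀ w, T (ex X g y) x w = T X x w + T (ex X g y) x g * T X g w := fun w => by
    rw [h.mul_apply hX ha.2.2 x w,
      Finset.sum_eq_add_of_mem x g (Finset.mem_univ _) (Finset.mem_univ _) hxg fun b _ hb => ?_,
      h.diag _ ha.2.2 x (mem_ex.2 (Or.inr ⟨hx, hxg⟩)), one_mul]
    by_cases hbX : b ∈ X
    · rw [h.off ha.2.2 (mem_ex.2 (Or.inr ⟨hbX, hb.2⟩)) hb.1.symm, zero_mul]
    · rw [h.row hX hbX, mul_zero]
  have h1 := key y
  rw [h.off ha.2.2 (mem_ex.2 (Or.inl rfl)) fun e' => ha.2.1 (e' ▸ hx)] at h1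
  have h2 : T (ex X g y) x g = -(T X x y * T (ex X g y) y g) := by
    have h3 : T (ex X g y) x g * T X g y = -T X x y := (neg_eq_of_add_eq_zero_right h1.symm).symm
    calc T (ex X g y) x g = T (ex X g y) x g * (T X g y * T (ex X g y) y g) := by
          rw [h.mul_inv hX ha, mul_one]
      _ = _ := by rw [← mul_assoc, h3, neg_mul]
  rw [key w, h2, neg_mul, sub_eq_add_neg]

/-- Two systems that agree at one base agree at every base. -/
theorem TabP.ext_base {P' : R → Prop} {T' : Set E → Matrix E E R} (h : TabP P M T)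
    (h' : TabP P' M T') {X : Set E} (hX : M.IsBase X) (he : T X = T' X) {B : Set E}
    (hB : M.IsBase B) : T B = T' B := by
  have h1 : T B * T' B = T B := by
    calc T B * T' B = T B * T X * T' B := by rw [h.mul _ _ hX hB]
      _ = T B * (T' X * T' B) := by rw [he, Matrix.mul_assoc]
      _ = T B := by rw [h'.mul _ _ hB hX, ← he, h.mul _ _ hX hB]
  rw [← h1]
  ext x w
  rw [Matrix.mul_apply]
  by_cases hx : x ∈ B
  · rw [Finset.sum_eq_single x (fun b _ hb => ?_) (by simp), h.diag _ hB x hx, one_mul]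
    by_cases hbB : b ∈ B
    · rw [h.off hB hbB (Ne.symm hb), zero_mul]
    · rw [h'.row hB hbB, mul_zero]
  · rw [h'.row hB hx]
    exact Finset.sum_eq_zero fun b _ => by rw [h.row hB hx, zero_mul]

open Classical in
/-- The system of the dual matroid; `σ` is an anti-automorphism. -/
noncomputable def dualT (σ : R → R) (M : Matroid E) (T : Set E → Matrix E E R) :
    Set E → Matrix E E R :=
  fun B => Matrix.of fun y x => (if y = x ∧ y ∈ M.E then 1 else 0) - σ (T (M.E \ B) x y)

open Classical in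
/-- The system of a deletion. -/
noncomputable def delT (D : Set E) (T : Set E → Matrix E E R) : Set E → Matrix E E R :=
  fun B => Matrix.of fun b e => if e ∉ D then T B b e else 0

open Classical in
/-- The system of a contraction by an independent set. -/
noncomputable def conT (I : Set E) (T : Set E → Matrix E E R) : Set E → Matrix E E R :=
  fun B => Matrix.of fun b e => if b ∉ I ∧ e ∉ I then T (B ∪ I) b e else 0

omit [Fintype E] in
theorem dualT_of_ne (σ : R → R) (M : Matroid E) (T : Set E → Matrix E E R) (B : Set E) {y x : E}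
    (h : y ≠ x) : dualT σ M T B y x = -σ (T (M.E \ B) x y) := by
  simp [dualT, h]

omit [Fintype E] in
theorem delT_apply {D : Set E} (T : Set E → Matrix E E R) (B : Set E) (b : E) {e : E}
    (h : e ∉ D) : delT D T B b e = T B b e := by
  simp [delT, h]

omit [Fintype E] in
theorem conT_apply {I : Set E} (T : Set E → Matrix E E R) (B : Set E) {b e : E} (hb : b ∉ I)
    (h : e ∉ I) : conT I T B b e = T (B ∪ I) b e := by
  simp [conT, h, hb]

omit [Fintype E] in
theorem adj_dual {X : Set E} (hX : X ⊆ M.E) {b e : E} :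
    Adj M✶ (M.E \ X) e b ↔ Adj M X b e := by
  simp only [Adj, Matroid.dual_isBase_iff']
  constructor
  · rintro ⟨⟨he, heX⟩, hb, h1, h2⟩
    have hbE : b ∈ M.E := h2 (mem_ex.2 (Or.inl rfl))
    have hbX : b ∈ X := by by_contra h; exact hb ⟨hbE, h⟩
    refine ⟨hbX, heX, ?_⟩
    convert h1 using 1
    ext z
    simp only [mem_ex, mem_sdiff]
    by_cases hz : z = e
    · subst hz
      have : z ≠ b := fun e' => heX (e' ▸ hbX)
      tauto
    · have := @hX z
      tauto
  · rintro ⟨hb, he, h1⟩
    have heE : e ∈ M.E := h1.subset_ground (mem_ex.2 (Or.inl rfl))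
    refine ⟨⟨heE, he⟩, fun h => h.2 hb, ?_, ?_⟩
    · convert h1 using 1
      ext z
      simp only [mem_ex, mem_sdiff]
      by_cases hz : z = e
      · subst hz
        have : z ≠ b := fun e' => he (e' ▸ hb)
        tauto
      · have := @hX z
        tauto
    · intro z hz
      rcases mem_ex.1 hz with rfl | hz
      · exact hX hb
      · exact hz.1.1

theorem TabP.dual (h : TabP P M T) (σ : R →+ R) (hσ : ∀ a b, σ (a * b) = σ b * σ a)
    (hσ1 : σ 1 = 1) (hinj : ∀ a, σ a = 0 → a = 0) (hP1 : P 1) (hP : ∀ a, P a → P (-σ a))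
    [Nontrivial R] : TabP P M✶ (dualT σ M T) := by
  classical
  refine ⟨fun B hB y x => ?_, fun B hB y x => ?_, fun B hB y hy => ?_, fun B B' hB hB' => ?_⟩
  · obtain ⟨h1, h2⟩ := Matroid.dual_isBase_iff'.1 hB
    simp only [dualT, of_apply]
    split_ifs with hc
    · obtain ⟨rfl, hy⟩ := hc
      by_cases hyB : y ∈ B
      · right; rw [h.row h1 fun h => h.2 hyB]; simpa using hP1
      · left; rw [h.diag _ h1 y ⟨hy, hyB⟩]; simp [hσ1]
    · rcases h.mem _ h1 x y with h3 | h3
      · left; simp [h3]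
      · right; simpa using hP _ h3
  · obtain ⟨h1, h2⟩ := Matroid.dual_isBase_iff'.1 hB
    by_cases hyx : y = x
    · subst hyx
      simp only [dualT, of_apply]
      by_cases hyB : y ∈ B
      · rw [h.row h1 fun h => h.2 hyB, if_pos ⟨trivial, h2 hyB⟩, ex, insert_sdiff_self_of_mem hyB]
        simp [hyB, hB]
      · simp only [hyB, false_and, iff_false, not_not, true_and]
        split_ifs with hy
        · rw [h.diag _ h1 y ⟨hy, hyB⟩]; simp [hσ1]
        · rw [h.col h1 _ hy]; simp
    · rw [dualT_of_ne _ _ _ _ hyx, neg_ne_zero]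
      have e0 : σ (T (M.E \ B) x y) ≠ 0 ↔ T (M.E \ B) x y ≠ 0 :=
        not_congr ⟨hinj _, fun e' => by rw [e', map_zero]⟩
      have e1 : M.E \ (M.E \ B) = B := sdiff_sdiff_cancel_left h2
      rw [e0]
      constructor
      · intro h0
        obtain ⟨hx, h3⟩ := (h.supp _ h1 x y).1 h0
        have hy : y ∉ M.E \ B := fun hy => h0 (h.off h1 hy (Ne.symm hyx))
        have := (adj_dual (M := M) sdiff_subset).2 ⟨hx, hy, h3⟩
        rw [e1] at this
        exact ⟨this.1, this.2.2⟩
      · rintro ⟨hyB, h3⟩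
        have hxB : x ∉ B := by
          intro hxB
          rw [ex, insert_eq_of_mem (show x ∈ B \ {y} from ⟨hxB, Ne.symm hyx⟩)] at h3
          have := h3.eq_of_subset_isBase hB sdiff_subset
          exact (this.symm ▸ hyB : y ∈ B \ {y}).2 rfl
        have h4 : Adj M✶ (M.E \ (M.E \ B)) y x := by rw [e1]; exact ⟨hyB, hxB, h3⟩
        exact h.ne_zero h1 ((adj_dual sdiff_subset).1 h4)
  · obtain ⟨h1, h2⟩ := Matroid.dual_isBase_iff'.1 hB
    simp only [dualT, of_apply]
    rw [h.row h1 fun h => h.2 hy, if_pos ⟨trivial, h2 hy⟩]; simp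
  · obtain ⟨h1, -⟩ := Matroid.dual_isBase_iff'.1 hB
    obtain ⟨h2, -⟩ := Matroid.dual_isBase_iff'.1 hB'
    ext1 y x
    have e1 := congrArg σ (congrFun (congrFun (h.mul _ _ h2 h1) x) y)
    simp only [Matrix.mul_apply, map_sum, hσ] at e1
    simp only [dualT, Matrix.mul_apply, of_apply, sub_mul, mul_sub, Finset.sum_sub_distrib, e1]
    have e2 : ∑ z, (if y = z ∧ y ∈ M.E then (1 : R) else 0) *
        (if z = x ∧ z ∈ M.E then (1 : R) else 0) = if y = x ∧ y ∈ M.E then 1 else 0 := by
      rw [Fintype.sum_eq_single y fun z hz => by simp [Ne.symm hz]]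
      by_cases hy : y ∈ M.E <;> simp [hy]
    have e3 : ∑ z, σ (T (M.E \ B') z y) * (if z = x ∧ z ∈ M.E then (1 : R) else 0) =
        σ (T (M.E \ B') x y) := by
      rw [Fintype.sum_eq_single x fun z hz => by simp [hz]]
      by_cases hx : x ∈ M.E
      · simp [hx]
      · simp [h.row h2 fun h => hx h.1]
    have e4 : ∑ z, (if y = z ∧ y ∈ M.E then (1 : R) else 0) * σ (T (M.E \ B) x z) =
        σ (T (M.E \ B) x y) := by
      rw [Fintype.sum_eq_single y fun z hz => by simp [Ne.symm hz]]
      by_cases hy : y ∈ M.E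
      · simp [hy]
      · simp [h.col h1 _ hy]
    rw [e2, e3, e4]
    simp

omit [Fintype E] in
/-- Dualising twice gives the system back. -/
theorem dualT_dualT (T : Set E → Matrix E E R) (σ : R →+ R) (hσ1 : σ 1 = 1) (hσσ : ∀ a, σ (σ a) = a)
    {B : Set E} (hB : M.IsBase B) : dualT σ M✶ (dualT σ M T) B = T B := by
  classical
  ext y x
  have e1 : M.E \ (M.E \ B) = B := sdiff_sdiff_cancel_left hB.subset_ground
  simp only [dualT, of_apply, Matroid.dual_ground, e1, map_sub, hσσ]
  by_cases hyx : y = x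
  · subst hyx
    by_cases hy : y ∈ M.E <;> simp [hy, hσ1]
  · simp [hyx, Ne.symm hyx]

theorem TabP.contract_indep (h : TabP P M T) {I : Set E} (hI : M.Indep I) :
    TabP P (M ／ I) (conT I T) := by
  classical
  refine ⟨fun B hB b e => ?_, fun B hB b e => ?_, fun B hB b hb => ?_, fun B B' hB hB' => ?_⟩
  · obtain ⟨h1, -⟩ := hI.contract_isBase_iff.1 hB
    simp only [conT, of_apply]
    split_ifs
    exacts [h.mem _ h1 b e, Or.inl rfl]
  · obtain ⟨h1, h2⟩ := hI.contract_isBase_iff.1 hB
    simp only [conT, ex, of_apply, hI.contract_isBase_iff]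
    have key : b ∉ I → insert e (B \ {b}) ∪ I = insert e ((B ∪ I) \ {b}) := fun hb => by
      ext z
      simp only [mem_union, mem_sdiff, mem_insert_iff, mem_singleton_iff]
      by_cases hz : z = b
      · subst hz; tauto
      · tauto
    split_ifs with hc
    · rw [h.supp _ h1, key hc.1, ex]
      refine ⟨fun ⟨h3, h4⟩ => ⟨h3.resolve_right hc.1, h4, ?_⟩, fun ⟨h3, h4, _⟩ => ⟨Or.inl h3, h4⟩⟩
      rw [disjoint_insert_left]
      exact ⟨hc.2, h2.mono_left sdiff_subset⟩
    · simp only [ne_eq, not_true_eq_false, false_iff]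
      rintro ⟨h3, -, h4⟩
      exact hc ⟨disjoint_left.1 h2 h3, (disjoint_insert_left.1 h4).1⟩
  · obtain ⟨h1, h2⟩ := hI.contract_isBase_iff.1 hB
    simp [conT, disjoint_left.1 h2 hb, h.diag _ h1 b (Or.inl hb)]
  · obtain ⟨h1, -⟩ := hI.contract_isBase_iff.1 hB
    obtain ⟨h2, -⟩ := hI.contract_isBase_iff.1 hB'
    ext1 b e
    simp only [conT, Matrix.mul_apply, of_apply]
    split_ifs with hc
    · rw [← h.mul _ _ h1 h2, Matrix.mul_apply, h.mul _ _ h1 h2]
      refine Finset.sum_congr rfl fun z _ => ?_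
      by_cases hz : z ∈ I
      · rw [h.off h2 (Or.inr hz) fun e' : b = z => hc.1 (e' ▸ hz)]; simp [hz]
      · simp [hz, hc.1, hc.2]
    · refine Finset.sum_eq_zero fun z _ => ?_
      by_cases hb : b ∈ I
      · simp [hb]
      · simp [show e ∈ I by tauto]

theorem TabP.delete_coindep (h : TabP P M T) {D : Set E} (hD : M.Coindep D) :
    TabP P (M ＼ D) (delT D T) := by
  classical
  refine ⟨fun B hB b e => ?_, fun B hB b e => ?_, fun B hB b hb => ?_, fun B B' hB hB' => ?_⟩
  · obtain ⟨h1, -⟩ := hD.delete_isBase_iff.1 hB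
    simp only [delT, of_apply]
    split_ifs
    exacts [Or.inl rfl, h.mem _ h1 b e]
  · obtain ⟨h1, h2⟩ := hD.delete_isBase_iff.1 hB
    simp only [delT, ex, of_apply, hD.delete_isBase_iff, disjoint_insert_left]
    by_cases hc : e ∈ D
    · simp [hc]
    · simp [hc, h.supp _ h1, ex, h2.mono_left sdiff_subset]
  · obtain ⟨h1, h2⟩ := hD.delete_isBase_iff.1 hB
    simp [delT, disjoint_left.1 h2 hb, h.diag _ h1 b hb]
  · obtain ⟨h1, h3⟩ := hD.delete_isBase_iff.1 hB
    obtain ⟨h2, -⟩ := hD.delete_isBase_iff.1 hB'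
    ext1 b e
    simp only [delT, Matrix.mul_apply, of_apply]
    by_cases hc : e ∈ D
    · simp [hc]
    · rw [if_pos hc, ← h.mul _ _ h1 h2, Matrix.mul_apply, h.mul _ _ h1 h2]
      refine Finset.sum_congr rfl fun z _ => ?_
      by_cases hz : z ∈ D
      · simp [h.row h1 (disjoint_right.1 h3 hz)]
      · simp [hz, hc]

/-- Image of a system under a ring homomorphism that kills no allowed entry. -/
theorem TabP.map {S : Type} [Ring S] {Q : S → Prop} (h : TabP P M T) (f : R →+* S)
    (hQ : ∀ a, P a → Q (f a) ∧ f a ≠ 0) : TabP Q M fun B => (T B).map f := by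
  refine ⟨fun B hB b e => ?_, fun B hB b e => ?_, fun B hB b hb => ?_, fun B B' hB hB' => ?_⟩
  · rcases h.mem B hB b e with h0 | h0
    · left; simp [h0]
    · right; exact (hQ _ h0).1
  · rw [← h.supp B hB, Matrix.map_apply]
    rcases h.mem B hB b e with h0 | h0
    · simp [h0]
    · exact ⟨fun h1 h2 => h1 (by rw [h2, map_zero]), fun _ => (hQ _ h0).2⟩
  · simp [h.diag B hB b hb]
  · rw [← Matrix.map_mul, h.mul _ _ hB hB']

/-- Rescaling the elements by units. -/
theorem TabP.scale {Q : R → Prop} (h : TabP P M T) (c : E → Rˣ)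
    (hQ : ∀ a b e, P a → Q ((c b)⁻¹ * a * c e)) :
    TabP Q M fun B => Matrix.of fun b e => (↑(c b)⁻¹ : R) * T B b e * c e := by
  refine ⟨fun B hB b e => ?_, fun B hB b e => ?_, fun B hB b hb => ?_, fun B B' hB hB' => ?_⟩
  · rcases h.mem B hB b e with h0 | h0
    · left; simp [h0]
    · right; exact hQ _ _ _ h0
  · rw [← h.supp B hB, of_apply]
    simp
  · simp [h.diag B hB b hb]
  · ext x w
    simp only [Matrix.mul_apply, of_apply]
    rw [h.mul_apply hB hB' x w, Finset.mul_sum, Finset.sum_mul]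
    refine Finset.sum_congr rfl fun b _ => ?_
    simp [mul_assoc]

/-- `S` is the tableau for `B` of the row space of `S0`. -/
structure Good (S0 : Matrix E E R) (B : Set E) (S : Matrix E E R) : Prop where
  row : ∀ b, b ∉ B → ∀ e, S b e = 0
  diag : ∀ b ∈ B, S b b = 1
  off : ∀ b e, e ∈ B → b ≠ e → S b e = 0
  left : S * S0 = S
  right : S0 * S = S0

theorem Good.mul {S0 S S' : Matrix E E R} {B B' : Set E} (h : Good S0 B S) (h' : Good S0 B' S') :
    S' * S = S' := by
  calc S' * S = S' * S0 * S := by rw [h'.left]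
    _ = S' := by rw [Matrix.mul_assoc, h.right, h'.left]

theorem Good.unique {S0 S S' : Matrix E E R} {B : Set E} (h : Good S0 B S) (h' : Good S0 B S') :
    S = S' := by
  rw [← h'.mul h]
  ext x w
  rw [Matrix.mul_apply]
  by_cases hx : x ∈ B
  · rw [Finset.sum_eq_single x (fun b _ hb => ?_) (by simp), h.diag x hx, one_mul]
    by_cases hbB : b ∈ B
    · rw [h.off _ _ hbB (Ne.symm hb), zero_mul]
    · rw [h'.row _ hbB, mul_zero]
  · rw [h'.row _ hx]
    exact Finset.sum_eq_zero fun b _ => by rw [h.row _ hx, zero_mul]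

open Classical in
/-- Pivot on the entry `g y` with two-sided inverse `v`. -/
noncomputable def piv (S : Matrix E E R) (g y : E) (v : R) : Matrix E E R :=
  Matrix.of fun x w => if x = y then v * S g w else if x = g then 0 else S x w - S x y * v * S g w

theorem Good.pivot {S0 S : Matrix E E R} {B : Set E} (h : Good S0 B S) {g y : E} (hg : g ∈ B)
    (hy : y ∉ B) {v : R} (h1 : v * S g y = 1) (h2 : S g y * v = 1) :
    Good S0 (ex B g y) (piv S g y v) := by
  classical
  have hgy : g ≠ y := fun e' => hy (e' ▸ hg)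
  refine ⟨fun b hb e => ?_, fun b hb => ?_, fun b e he hbe => ?_, ?_, ?_⟩
  · rw [mem_ex, not_or] at hb
    simp only [piv, of_apply, if_neg hb.1]
    split_ifs with hbg
    · rfl
    · have : b ∉ B := fun h' => hb.2 ⟨h', hbg⟩
      simp [h.row b this]
  · rcases mem_ex.1 hb with rfl | ⟨hbB, hbg⟩
    · simp [piv, h1]
    · have : b ≠ y := fun e' => hy (e' ▸ hbB)
      simp [piv, this, hbg, h.diag b hbB, h.off g b hbB (Ne.symm hbg)]
  · simp only [piv, of_apply]
    rcases mem_ex.1 he with rfl | ⟨heB, heg⟩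
    · rw [if_neg hbe]
      split_ifs
      · rfl
      · rw [mul_assoc, h1, mul_one, sub_self]
    · rw [h.off g e heB (Ne.symm heg), h.off b e heB hbe]
      simp
  · ext x w
    have e1 : ∀ x w, ∑ b, S x b * S0 b w = S x w := fun x w => by
      rw [← Matrix.mul_apply, h.left]
    simp only [piv, Matrix.mul_apply, of_apply]
    split_ifs
    · simp only [mul_assoc, ← Finset.mul_sum, e1]
    · simp
    · simp only [sub_mul, Finset.sum_sub_distrib, mul_assoc, ← Finset.mul_sum, e1]
  · have e2 : S * piv S g y v = S := by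
      ext x w
      rw [Matrix.mul_apply]
      by_cases hx : x ∈ B
      · by_cases hxg : x = g
        · subst hxg
          rw [Finset.sum_eq_single y (fun b _ hb => ?_) (by simp)]
          · simp [piv, ← mul_assoc, h2]
          · by_cases hbB : b ∈ B
            · by_cases hbx : b = x
              · simp [piv, hbx, hgy]
              · rw [h.off _ _ hbB (Ne.symm hbx), zero_mul]
            · have : b ≠ x := fun e' => hbB (e' ▸ hx)
              simp [piv, hb, this, h.row b hbB]
        · have hxy : x ≠ y := fun e' => hy (e' ▸ hx)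
          rw [Finset.sum_eq_add_of_mem x y (Finset.mem_univ _) (Finset.mem_univ _) hxy
            fun b _ hb => ?_]
          · simp [piv, hxy, hxg, h.diag x hx, mul_assoc]
          · by_cases hbB : b ∈ B
            · rw [h.off _ _ hbB hb.1.symm, zero_mul]
            · have : b ≠ g := fun e' => hbB (e' ▸ hg)
              simp [piv, hb.2, this, h.row b hbB]
      · rw [h.row _ hx]
        exact Finset.sum_eq_zero fun b _ => by rw [h.row _ hx, zero_mul]
    calc S0 * piv S g y v = S0 * S * piv S g y v := by rw [h.right]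
      _ = S0 := by rw [Matrix.mul_assoc, e2, h.right]

theorem TabP.good (h : TabP P M T) {X B : Set E} (hX : M.IsBase X) (hB : M.IsBase B) :
    Good (T X) B (T B) :=
  ⟨fun _ hb e => h.row hB hb e, h.diag B hB, fun _ _ he hbe => h.off hB he hbe,
    h.mul _ _ hX hB, h.mul _ _ hB hX⟩

/-- A family of tableaux of one row space with the right supports is a system. -/
theorem tabP_of_good {S0 : Matrix E E R} (S : Set E → Matrix E E R)
    (hg : ∀ B, M.IsBase B → Good S0 B (S B))
    (hm : ∀ B, M.IsBase B → ∀ b e, b ∈ B → e ∉ B → Adj M B b e → P (S B b e) ∧ S B b e ≠ 0)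
    (hz : ∀ B, M.IsBase B → ∀ b e, b ∈ B → e ∉ B → ¬ Adj M B b e → S B b e = 0)
    (hP1 : P 1) [Nontrivial R] : TabP P M S := by
  refine ⟨fun B hB b e => ?_, fun B hB b e => ?_, fun B hB => (hg B hB).diag,
    fun B B' hB hB' => (hg B hB).mul (hg B' hB')⟩
  · by_cases hb : b ∈ B
    · by_cases he : e ∈ B
      · by_cases hbe : b = e
        · subst hbe; right; rw [(hg B hB).diag b hb]; exact hP1
        · exact Or.inl ((hg B hB).off b e he hbe)
      · by_cases ha : Adj M B b e
        · exact Or.inr (hm B hB b e hb he ha).1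
        · exact Or.inl (hz B hB b e hb he ha)
    · exact Or.inl ((hg B hB).row b hb e)
  · by_cases hb : b ∈ B
    · by_cases he : e ∈ B
      · by_cases hbe : b = e
        · subst hbe
          rw [(hg B hB).diag b hb, ex, insert_sdiff_self_of_mem hb]
          simp [hb, hB]
        · rw [(hg B hB).off b e he hbe]
          simp only [ne_eq, not_true_eq_false, false_iff]
          rintro ⟨-, h1⟩
          rw [ex, insert_eq_of_mem (show e ∈ B \ {b} from ⟨he, Ne.symm hbe⟩)] at h1
          have := h1.eq_of_subset_isBase hB sdiff_subset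
          exact (this.symm ▸ hb : b ∈ B \ {b}).2 rfl
      · by_cases ha : Adj M B b e
        · exact ⟨fun _ => ⟨hb, ha.2.2⟩, fun _ => (hm B hB b e hb he ha).2⟩
        · rw [hz B hB b e hb he ha]
          simp only [ne_eq, not_true_eq_false, false_iff]
          exact fun h' => ha ⟨hb, he, h'.2⟩
    · rw [(hg B hB).row b hb e]
      simp [hb]

end Pool.Agent.Lib.MP_10bdcf_co.G
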