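import Pool.Agent.Lib.MP_10bdcf_co.CC

/-!
Case II: skew sets, a connected deletion that keeps a frame, and the data of an uncovered pair.
-/

namespace Pool.Agent.Lib.MP_10bdcf_co.II

open scoped Matroid
open Set G

set_option linter.unusedSectionVars false

variable {E : Type} [Finite E] {M N : Matroid E} {X Y A B I J K C D Vp Vm : Set E}

theorem skew_mono (h : rk M X + rk M Y ≤ rk M (X ∪ Y)) (hA : A ⊆ X) (hB : B ⊆ Y) :
    rk M A + rk M B ≤ rk M (A ∪ B) := by
  have h1 := rk_submod' M (X := A ∪ Y) (Y := X) (P := A) (Q := X ∪ Y) subset_union_left hA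
    (by rintro z (hz | hz); exacts [Or.inr hz, Or.inl (Or.inr hz)])
  have h2 := rk_submod' M (X := A ∪ B) (Y := Y) (P := B) (Q := A ∪ Y) subset_union_right hB
    (by rintro z (hz | hz); exacts [Or.inl (Or.inl hz), Or.inr hz])
  omega

theorem mn_contract (h : Disjoint K J) : mn M I J ／ K = mn M (I ∪ K) J := by
  rw [mn, mn, ← Matroid.contract_delete_comm _ h, Matroid.contract_contract]

theorem mn_delete (M : Matroid E) (I J K : Set E) : mn M I J ＼ K = mn M I (J ∪ K) := by
  rw [mn, mn, Matroid.delete_delete]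

theorem closure_eq_of_rk (hY : Y ⊆ M.E) (hXY : X ⊆ Y) (h : rk M Y ≤ rk M X) :
    M.closure X = M.closure Y := by
  refine subset_antisymm (M.closure_subset_closure hXY) ?_
  refine M.closure_subset_closure_of_subset_closure (subset_closure_of_rk hY ?_)
  rwa [union_eq_right.2 hXY]

theorem lam_del {y : E} (hX : X ⊆ N.E \ {y}) :
    lam (N ＼ {y}) X + rk N (N.E \ {y}) = rk N X + rk N ((N.E \ {y}) \ X) := by
  have e := lam_add (N ＼ {y}) X
  rw [Matroid.delete_ground, rk_delete (X := X) (disjoint_singleton_right.2 fun h => (hX h).2 rfl),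
    rk_delete (X := N.E \ {y}) disjoint_sdiff_left,
    rk_delete (X := (N.E \ {y}) \ X) (disjoint_singleton_right.2 fun h => h.1.2 rfl)] at e
  exact e

theorem conn_step (hc : Conn N) (h2 : ∀ e ∈ N.E, ∀ f ∈ N.E, N.Coindep {e, f}) (n : ℕ) :
    ∀ (I J X : Set E) (y : E), Frame N I J → y ∈ J → X ⊆ N.E \ {y} → X.Nonempty → X ⊆ I ∪ J →
      lam (N ＼ {y}) X = 0 → X.ncard ≤ n → ∃ z, Safe N ∅ {z} ∧ Conn (N ＼ {z}) := by
  induction n with
  | zero =>
    intro I J X y _ _ _ hne _ _ hn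
    have := hne.ncard_pos X.toFinite
    omega
  | succ n ih =>
    intro I J X y hf hy hX hne hXI hl hn
    obtain ⟨a, ha⟩ := hne
    have hyE : y ∈ N.E := hf.op.sub_right hy
    have haE : a ∈ N.E := (hX ha).1
    have hay : a ≠ y := (hX ha).2
    have hXE : X ⊆ N.E := fun z hz => (hX hz).1
    set Y := (N.E \ {y}) \ X with hYdef
    have r1 : rk N (N.E \ {y}) = rk N N.E := by
      have := rk_coindep (h2 y hyE y hyE)
      simpa using this
    have hsk : rk N X + rk N Y = rk N N.E := by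
      have e := lam_del hX
      rw [← hYdef] at e
      omega
    have hXY : X ∪ Y = N.E \ {y} := union_sdiff_cancel hX
    have hsk' : rk N X + rk N Y ≤ rk N (X ∪ Y) := by rw [hXY, r1, hsk]
    have hIX : rk N X ≤ rk N (I ∩ X) := by
      have e1 := rk_coindep hf.coi
      have e2 := rk_union_le N (I ∩ X) Y
      have e3 := rk_mono N (show N.E \ J ⊆ I ∩ X ∪ Y from fun z hz => by
        by_cases hzX : z ∈ X
        · exact Or.inl ⟨(hXI hzX).resolve_right hz.2, hzX⟩
        · exact Or.inr ⟨⟨hz.1, fun e => hz.2 (e ▸ hy)⟩, hzX⟩)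
      omega
    have hXa : rk N X ≤ rk N (X \ {a}) := by
      have e1 := rk_coindep (h2 y hyE a haE)
      have e2 := rk_union_le N (X \ {a}) Y
      have e3 := rk_mono N (show N.E \ {y, a} ⊆ X \ {a} ∪ Y from fun z hz => by
        simp only [mem_sdiff, mem_insert_iff, mem_singleton_iff, not_or] at hz
        by_cases hzX : z ∈ X
        · exact Or.inl ⟨hzX, hz.2.2⟩
        · exact Or.inr ⟨⟨hz.1, hz.2.1⟩, hzX⟩)
      omega
    obtain ⟨K, hK⟩ := N.exists_isBasis (X \ {a}) (sdiff_subset.trans hXE)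
    have hIY : I \ X ⊆ Y := fun z hz =>
      ⟨⟨hf.op.sub_left hz.1, fun e => disjoint_left.1 hf.dis hz.1 (e ▸ hy)⟩, hz.2⟩
    have hKX : K ⊆ X := hK.subset.trans sdiff_subset
    have hind : N.Indep (K ∪ I \ X) := by
      rw [indep_iff_rk, ncard_union_eq (disjoint_left.2 fun z h1 h2 => h2.2 (hKX h1))]
      have e1 := skew_mono hsk' hKX hIY
      have e2 := rk_indep hK.indep
      have e3 := rk_indep (hf.ind.subset (sdiff_subset : I \ X ⊆ I))
      have e4 := rk_union_le N K (I \ X)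
      omega
    have hcl : N.closure (K ∪ I \ X) = N.closure I := by
      have e1 : N.closure K = N.closure (I ∩ X) := by
        rw [hK.closure_eq_closure, closure_eq_of_rk hXE sdiff_subset hXa,
          closure_eq_of_rk hXE inter_subset_right hIX]
      rw [← N.closure_union_closure_left_eq, e1, N.closure_union_closure_left_eq,
        inter_union_sdiff]
    have hf' := hf.swap hind (union_subset (hKX.trans hXI) (sdiff_subset.trans subset_union_left)) hcl
    have haJ : a ∈ (I ∪ J) \ (K ∪ I \ X) := by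
      refine ⟨hXI ha, ?_⟩
      rintro (h | h)
      · exact (hK.subset h).2 rfl
      · exact h.2 ha
    by_cases hca : Conn (N ＼ {a})
    · exact ⟨a, ⟨_, _, hf', empty_subset _, singleton_subset_iff.2 haJ⟩, hca⟩
    have hZ : ∃ Z, Z ⊆ N.E \ {a} ∧ y ∉ Z ∧ Z.Nonempty ∧ lam (N ＼ {a}) Z = 0 := by
      rw [conn_iff] at hca
      push Not at hca
      obtain ⟨Z, h1, h2, h3, h4⟩ := hca
      by_cases hyZ : y ∈ Z
      · refine ⟨(N ＼ {a}).E \ Z, sdiff_subset, fun h => h.2 hyZ, ?_, by rw [lam_compl h1, h2]⟩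
        exact sdiff_nonempty.2 fun h => h4 (subset_antisymm h1 h)
      · exact ⟨Z, h1, hyZ, h3, h2⟩
    obtain ⟨Z, hZ1, hZ2, hZ3, hZ4⟩ := hZ
    have r2 : rk N (N.E \ {a}) = rk N N.E := by
      have := rk_coindep (h2 a haE a haE)
      simpa using this
    have hZs : rk N Z + rk N ((N.E \ {a}) \ Z) = rk N N.E := by
      have e := lam_del hZ1
      omega
    refine ih _ _ (X ∩ Z) a hf' haJ (inter_subset_right.trans hZ1) ?_ ?_ ?_ ?_
    · by_contra hemp
      have hsub : X \ {a} ⊆ (N.E \ {a}) \ Z := fun z hz =>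
        ⟨⟨hXE hz.1, hz.2⟩, fun h => hemp ⟨z, hz.1, h⟩⟩
      have hacl : a ∈ N.closure ((N.E \ {a}) \ Z) := by
        refine N.closure_subset_closure hsub ?_
        rw [closure_eq_of_rk hXE sdiff_subset hXa]
        exact N.subset_closure X hXE ha
      have e1 := rk_insert_of_mem hacl
      have e2 := rk_mono N (show N.E \ Z ⊆ insert a ((N.E \ {a}) \ Z) from fun z hz => by
        by_cases h : z = a
        · exact Or.inl h
        · exact Or.inr ⟨⟨hz.1, h⟩, hz.2⟩)
      have e3 := lam_add N Z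
      rcases conn_iff.1 hc Z (hZ1.trans sdiff_subset) (by omega) with h | h
      · exact hZ3.ne_empty h
      · exact hZ2 (h ▸ hyE)
    · rw [union_sdiff_cancel (union_subset (hKX.trans hXI) (sdiff_subset.trans subset_union_left))]
      exact inter_subset_left.trans hXI
    · have e := lam_del ((inter_subset_right : X ∩ Z ⊆ Z).trans hZ1)
      have e1 := skew_mono hsk' (inter_subset_left : X ∩ Z ⊆ X)
        (show Z \ X ⊆ Y from fun z hz => ⟨⟨(hZ1 hz.1).1, fun e => hZ2 (e ▸ hz.1)⟩, hz.2⟩)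
      have e2 := rk_mono N (show X ∩ Z ∪ Z \ X ⊆ Z from union_subset inter_subset_right sdiff_subset)
      have e3 := rk_union_le N ((N.E \ {a}) \ Z) (Z \ X)
      have e4 := rk_mono N (show (N.E \ {a}) \ (X ∩ Z) ⊆ ((N.E \ {a}) \ Z) ∪ (Z \ X) from
        fun z hz => by
          by_cases h : z ∈ Z
          · exact Or.inr ⟨h, fun h' => hz.2 ⟨h', h⟩⟩
          · exact Or.inl ⟨hz.1, h⟩)
      omega
    · have : (X ∩ Z).ncard < X.ncard :=
        ncard_lt_ncard ⟨inter_subset_left, fun h => (hZ1 (h ha).2).2 rfl⟩ X.toFinite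
      omega

/-- A connected matroid with a frame and no small cocircuit has a safe connected deletion. -/
theorem exists_conn_delete (hc : Conn N) (h2 : ∀ e ∈ N.E, ∀ f ∈ N.E, N.Coindep {e, f})
    (hf : Frame N I J) (hJ : J.Nonempty) : ∃ z, Safe N ∅ {z} ∧ Conn (N ＼ {z}) := by
  obtain ⟨y, hy⟩ := hJ
  by_cases hca : Conn (N ＼ {y})
  · exact ⟨y, ⟨_, _, hf, empty_subset _, singleton_subset_iff.2 hy⟩, hca⟩
  rw [conn_iff] at hca
  push Not at hca
  obtain ⟨Z, h1, h2', h3, h4⟩ := hca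
  have hf' := hf.sdiff (empty_subset I) (singleton_subset_iff.2 hy)
  rw [mn_empty_left] at hf'
  have hl := lam_minor_le (N ＼ {y}) hf'.dis Z
  have hsub : Z \ (I \ ∅ ∪ J \ {y}) ⊆ (mn (N ＼ {y}) (I \ ∅) (J \ {y})).E := by
    rw [mn_ground]
    exact sdiff_subset_sdiff_left h1
  have hIJ : I \ ∅ ∪ J \ {y} ⊆ I ∪ J := union_subset_union sdiff_subset sdiff_subset
  rcases conn_iff.1 (hf'.isR.con3.mono (by norm_num)) _ hsub (by omega) with h | h
  · exact conn_step hc h2 _ I J Z y hf hy h1 h3 ((sdiff_eq_empty.1 h).trans hIJ) h2' le_rfl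
  · refine conn_step hc h2 _ I J ((N ＼ {y}).E \ Z) y hf hy sdiff_subset
      (sdiff_nonempty.2 fun h => h4 (subset_antisymm h1 h)) ?_ (by rw [lam_compl h1, h2']) le_rfl
    intro z hz
    by_contra hn
    have : z ∈ (mn (N ＼ {y}) (I \ ∅) (J \ {y})).E := by
      rw [mn_ground]
      exact ⟨hz.1, fun h => hn (hIJ h)⟩
    rw [← h] at this
    exact hz.2 this.1

/-- An uncovered pair: a circuit `C` that contains all valid deletions and a disjoint cocircuit `D`
that contains all valid contractions. -/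
structure Cov (M : Matroid E) (C D Vp Vm : Set E) : Prop where
  con : Con4 M
  rk5 : 5 ≤ rk M M.E
  crk5 : 5 ≤ rk M✶ M.E
  circ : M.IsCircuit C
  cocirc : M.IsCocircuit D
  dis : Disjoint C D
  vp : Vp ⊆ D
  vm : Vm ⊆ C
  left : ∀ I J, Frame M I J → ∀ a ∈ I, ∀ b ∈ I, a ≠ b → a ∈ Vp → b ∈ Vp → I ⊆ Vp ∧ J ⊆ Vm
  right : ∀ I J, Frame M I J → ∀ a ∈ J, ∀ b ∈ J, a ≠ b → a ∈ Vm → b ∈ Vm → I ⊆ Vp ∧ J ⊆ Vm
  ex : ∃ I J, Frame M I J ∧ I ⊆ Vp ∧ J ⊆ Vm

theorem Cov.dual (h : Cov M C D Vp Vm) : Cov M✶ D C Vm Vp where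
  con := h.con.dual
  rk5 := h.crk5
  crk5 := by rw [Matroid.dual_dual]; exact h.rk5
  circ := h.cocirc
  cocirc := by rw [Matroid.isCocircuit_def, Matroid.dual_dual]; exact h.circ
  dis := h.dis.symm
  vp := h.vm
  vm := h.vp
  left := fun I J hf a ha b hb hab h1 h2 => by
    have hf' := hf.dual
    rw [Matroid.dual_dual] at hf'
    exact (h.right J I hf' a ha b hb hab h1 h2).symm
  right := fun I J hf a ha b hb hab h1 h2 => by
    have hf' := hf.dual
    rw [Matroid.dual_dual] at hf'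
    exact (h.left J I hf' a ha b hb hab h1 h2).symm
  ex := by
    obtain ⟨I, J, hf, h1, h2⟩ := h.ex
    exact ⟨J, I, hf.dual, h2, h1⟩

end Pool.Agent.Lib.MP_10bdcf_co.II
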