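import Pool.Agent.Lib.MP_10bdcf_co.IIR2

/-!
Case II, the rank three lemma: the trichotomy.
-/

namespace Pool.Agent.Lib.MP_10bdcf_co.II

variable {E : Type}

/-- The row follows `u` off the class of `p`. -/
def RU (P : E → Prop) (cl : E → Fin 5) (col : E → E → E → Prop) (par : E → E → Prop)
    (p q s u v : E) : Prop :=
  col q s v ∧ Nv P cl par q ∧ Nv P cl par s ∧
    ∀ y, P y → cl y = cl p → col y q v ∨ col y q u ∨ col y s u

/-- The row is determined by the class of `s`. -/
def RW (P : E → Prop) (cl : E → Fin 5) (col : E → E → E → Prop) (par : E → E → Prop)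
    (p q s u v : E) : Prop :=
  Nv P cl par s ∧ ∀ y, P y → cl y = cl p ∨ cl y = cl q → col y s v ∨ col y s u

variable {P : E → Prop} {cl : E → Fin 5} {col : E → E → E → Prop} {par : E → E → Prop}
  {Vp Vm : E → Prop}

theorem RC.sp_aux (h : RC P cl col par Vp Vm) {y y' a b u v : E} (hd : Df5 P cl y a b u v)
    (hv : Vr P cl par y y') (hu : ¬ Vm u) (hw : ¬ Vm v) (hb : ¬ Vp b) : ¬ col a u v := by
  intro k
  have hd0 := hd
  unfold Df5 Df4 at hd0
  have hd' : Df5 P cl y a u v b := hd.swap34.swap45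
  have n := h.one' hd' hv k
  have key : ∀ z, P z → cl z = cl y → col z a b := by
    intro z pz ez
    have hz := hd'.repl pz ez
    by_cases o : col z a u
    · have o2 : col z a v := ((h.four hz.sub.1).2.2.1 o k).1
      exact (hb (h.ell hz.swap45.swap34.swap23.swap12 o o2).1).elim
    · rcases h.mate hz k n o with m | m | m
      · exact m.1
      · exact (hu m.2).elim
      · exact (hw m.2).elim
  exact hv.2.2.2 (h.uniq y y' a b hv.1 hv.2.1 (by grind) (by grind) hv.2.2.1 (by grind) (by grind)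
    (key y hv.1 rfl) (key y' hv.2.1 hv.2.2.1))

theorem RC.sp (h : RC P cl col par Vp Vm) {y y' a b u v : E} (hd : Df5 P cl y a b u v)
    (hv : Vr P cl par y y') (hu : ¬ Vm u) (hw : ¬ Vm v) (ha : ¬ Vp a) (hb : ¬ Vp b) :
    col a b u ∨ col a b v := by
  rcases (h.one hd hv).1 with k | k | k | k
  · exact Or.inl k
  · exact Or.inr k
  · exact (h.sp_aux hd hv hu hw hb k).elim
  · exact (h.sp_aux hd.swap23 hv hu hw ha k).elim

theorem RC.ru (h : RC P cl col par Vp Vm) {p p' q s u v : E} (hd : Df5 P cl p q s u v)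
    (hv : Vr P cl par p p') (nq : Nv P cl par q) (ns : Nv P cl par s) (hw : ¬ Vm v)
    (k : col q s v) : RU P cl col par p q s u v := by
  refine ⟨k, nq, ns, fun y py ey => ?_⟩
  have n := h.one' hd.swap45 hv k
  by_cases o : col y q s
  · have hz := hd.swap45.repl py ey
    exact Or.inl ((h.four hz.sub.1).2.2.1 o k).1
  · rcases h.mate (hd.swap45.repl py ey) k n o with m | m | m
    · exact Or.inr (Or.inl m.1)
    · exact Or.inr (Or.inr m.1)
    · exact (hw m.2).elim

theorem RC.rw0 (h : RC P cl col par Vp Vm) {p q s u v : E} (hd : Df5 P cl s p q u v)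
    (np : Nv P cl par p) (nq : Nv P cl par q) (ns : Nv P cl par s) (hu : ¬ Vm u) (hw : ¬ Vm v)
    (hg : Gen col p q u v) : RW P cl col par p q s u v := by
  have hd0 := hd
  unfold Df5 Df4 at hd0
  refine ⟨ns, fun y py ey => ?_⟩
  rcases h.diag hd hg with k | k | k
  · exact (h.cog3 hd k.1 ns np nq hu hw).elim
  · rcases ey with ey | ey
    · exact Or.inr (h.move p y s u (by grind) (np y py ey) (h.sw1 _ _ _ k.1))
    · exact Or.inl (h.move q y s v (by grind) (nq y py ey) (h.sw1 _ _ _ k.2))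
  · rcases ey with ey | ey
    · exact Or.inl (h.move p y s v (by grind) (np y py ey) (h.sw1 _ _ _ k.1))
    · exact Or.inr (h.move q y s u (by grind) (nq y py ey) (h.sw1 _ _ _ k.2))

theorem RC.rw2 (h : RC P cl col par Vp Vm) {p p' q q' s u v : E} (hd : Df5 P cl p q s u v)
    (vp : Vr P cl par p p') (vq : Vr P cl par q q') (ns : Nv P cl par s) (hu : ¬ Vm u)
    (hw : ¬ Vm v) (hp : ∀ z, P z → z ≠ u → z ≠ v → ¬ Vp z) : RW P cl col par p q s u v := by
  have hd0 := hd
  unfold Df5 Df4 at hd0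
  refine ⟨ns, fun y py ey => ?_⟩
  rcases ey with ey | ey
  · exact (h.sp (hd.repl py ey).swap12 vq hu hw (hp y py (by grind) (by grind))
      (hp s (by grind) (by grind) (by grind))).symm
  · exact (h.sp (hd.swap12.repl py ey).swap12 vp hu hw (hp y py (by grind) (by grind))
      (hp s (by grind) (by grind) (by grind))).symm

theorem RC.not3_aux (h : RC P cl col par Vp Vm) {p p' q q' s s' u v : E} (hd : Df5 P cl p q s u v)
    (vp : Vr P cl par p p') (vq : Vr P cl par q q') (vs : Vr P cl par s s') (hu : ¬ Vm u)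
    (hw : ¬ Vm v) (hp : ∀ z, P z → z ≠ u → z ≠ v → ¬ Vp z) (k : col q s u) : False := by
  have hd0 := hd
  unfold Df5 Df4 at hd0
  have es := vs.2.2.1
  have ps := vs.2.1
  have key : ∀ y, P y → cl y = cl p → ¬ col y s u := by
    intro y py ey k1
    have hz := hd.repl py ey
    have hz' : Df5 P cl y q s' u v := (hz.swap23.swap12.repl ps es).swap12.swap23
    have hp' : Df5 P cl p q s' u v := (hd.swap23.swap12.repl ps es).swap12.swap23
    have k2 := (h.four hz.sub.1).2.2.2.2.2 k1 k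
    have k3 : col q s' v := by
      refine (h.sp hp' vp hu hw (hp q (by grind) (by grind) (by grind))
        (hp s' ps (by grind) (by grind))).resolve_left fun e => ?_
      exact vs.2.2.2 (h.uniq s s' q u vs.1 ps (by grind) (by grind) es (by grind) (by grind)
        (h.sw1 _ _ _ k) (h.sw1 _ _ _ e))
    have k4 : col y s' v := by
      refine (h.sp hz'.swap12 vq hu hw (hp y py (by grind) (by grind))
        (hp s' ps (by grind) (by grind))).resolve_left fun e => ?_
      exact vs.2.2.2 (h.uniq s s' y u vs.1 ps py (by grind) es (by grind) (by grind)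
        (h.sw1 _ _ _ k1) (h.sw1 _ _ _ e))
    exact h.five y q s u v hz k2.1 k2.2 ((h.four hz'.sub.2.1).2.2.2.2.2 k4 k3).2
  have k5 := (h.sp hd.swap12 vq hu hw (hp p hd.1 (by grind) (by grind))
    (hp s vs.1 (by grind) (by grind))).resolve_left (key p hd.1 rfl)
  have ep := vp.2.2.1
  have k6 := (h.sp (hd.repl vp.2.1 ep).swap12 vq hu hw (hp p' vp.2.1 (by grind) (by grind))
    (hp s vs.1 (by grind) (by grind))).resolve_left (key p' vp.2.1 ep)
  exact vp.2.2.2 (h.uniq p p' s v vp.1 vp.2.1 vs.1 (by grind) ep (by grind) (by grind) k5 k6)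

theorem RC.not3 (h : RC P cl col par Vp Vm) {p p' q q' s s' u v : E} (hd : Df5 P cl p q s u v)
    (vp : Vr P cl par p p') (vq : Vr P cl par q q') (vs : Vr P cl par s s') (hu : ¬ Vm u)
    (hw : ¬ Vm v) (hp : ∀ z, P z → z ≠ u → z ≠ v → ¬ Vp z) : False := by
  have hd0 := hd
  unfold Df5 Df4 at hd0
  rcases h.sp hd vp hu hw (hp q (by grind) (by grind) (by grind))
    (hp s (by grind) (by grind) (by grind)) with k | k
  · exact h.not3_aux hd vp vq vs hu hw hp k
  · exact h.not3_aux hd.swap45 vp vq vs hw hu (fun z h1 h2 h3 => hp z h1 h3 h2) k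

theorem RC.ru1 (h : RC P cl col par Vp Vm) {p q s u v : E} (hd : Df5 P cl p q s u v)
    (np : ¬ Nv P cl par p) (nq : Nv P cl par q) (ns : Nv P cl par s) (hu : ¬ Vm u) (hw : ¬ Vm v)
    (hp : ∀ z, P z → z ≠ u → z ≠ v → ¬ Vp z) :
    RU P cl col par p q s u v ∨ RU P cl col par p q s v u ∨ RW P cl col par p q s u v := by
  have hd0 := hd
  unfold Df5 Df4 at hd0
  obtain ⟨p', vp⟩ := vr_of_not hd.1 np
  rcases h.sp hd vp hu hw (hp q (by grind) (by grind) (by grind))
    (hp s (by grind) (by grind) (by grind)) with k | k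
  · exact Or.inr (Or.inl (h.ru hd.swap45 vp nq ns hu k))
  · exact Or.inl (h.ru hd vp nq ns hw k)

/-- Third conclusion: the trichotomy. -/
theorem RC.tri (h : RC P cl col par Vp Vm) {u v : E} (pu : P u) (pv : P v) (huv : cl u ≠ cl v)
    (hu : ¬ Vm u) (hw : ¬ Vm v) (hp : ∀ z, P z → z ≠ u → z ≠ v → ¬ Vp z) :
    ∃ p q s, Df5 P cl p q s u v ∧
      (RU P cl col par p q s u v ∨ RU P cl col par p q s v u ∨ RW P cl col par p q s u v) := by
  obtain ⟨a, b, c, hd⟩ := h.ext2 pu pv huv
  have hd0 := hd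
  unfold Df5 Df4 at hd0
  by_cases na : Nv P cl par a <;> by_cases nb : Nv P cl par b <;> by_cases nc : Nv P cl par c
  · rcases h.center hd na nb nc (h.nv pu hu) (h.nv pv hw) with g | g | g | g | g
    · exact ⟨b, c, a, hd.swap12.swap23, Or.inr (Or.inr (h.rw0 hd nb nc na hu hw g.1))⟩
    · exact ⟨a, c, b, hd.swap23, Or.inr (Or.inr (h.rw0 hd.swap12 na nc nb hu hw g.1))⟩
    · exact ⟨a, b, c, hd, Or.inr (Or.inr (h.rw0 hd.swap23.swap12 na nb nc hu hw g.1))⟩
    · exact (hu g.2).elim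
    · exact (hw g.2).elim
  · exact ⟨c, a, b, hd.swap23.swap12, h.ru1 hd.swap23.swap12 nc na nb hu hw hp⟩
  · exact ⟨b, a, c, hd.swap12, h.ru1 hd.swap12 nb na nc hu hw hp⟩
  · obtain ⟨b', vb⟩ := vr_of_not (by grind) nb
    obtain ⟨c', vc⟩ := vr_of_not (by grind) nc
    exact ⟨b, c, a, hd.swap12.swap23, Or.inr (Or.inr (h.rw2 hd.swap12.swap23 vb vc na hu hw hp))⟩
  · exact ⟨a, b, c, hd, h.ru1 hd na nb nc hu hw hp⟩
  · obtain ⟨a', va⟩ := vr_of_not (by grind) na
    obtain ⟨c', vc⟩ := vr_of_not (by grind) nc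
    exact ⟨a, c, b, hd.swap23, Or.inr (Or.inr (h.rw2 hd.swap23 va vc nb hu hw hp))⟩
  · obtain ⟨a', va⟩ := vr_of_not (by grind) na
    obtain ⟨b', vb⟩ := vr_of_not (by grind) nb
    exact ⟨a, b, c, hd, Or.inr (Or.inr (h.rw2 hd va vb nc hu hw hp))⟩
  · obtain ⟨a', va⟩ := vr_of_not (by grind) na
    obtain ⟨b', vb⟩ := vr_of_not (by grind) nb
    obtain ⟨c', vc⟩ := vr_of_not (by grind) nc
    exact (h.not3 hd va vb vc hu hw hp).elim

theorem RC.ru_off (h : RC P cl col par Vp Vm) {p q s u v : E} (hd : Df5 P cl p q s u v)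
    (hr : RU P cl col par p q s u v) {z : E} (pz : P z) (h1 : cl z ≠ cl u) (h2 : cl z ≠ cl v) :
    ¬ col z u v := by
  obtain ⟨k, nq, ns, hy⟩ := hr
  obtain ⟨d1, d2, d3, d4, d5⟩ := hd.sub
  have n1 : ¬ col q u v ∧ ¬ col s u v := by
    have f1 := h.four d1
    have f2 := h.four d2
    have f3 := h.four d3
    have f4 := h.four d4
    have f5 := h.four d5
    have f := h.five p q s u v hd
    have := hy p hd.1 rfl
    constructor <;> grind
  rcases hd.cover z with e | e | e | e | e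
  · obtain ⟨e1, e2, e3, e4, e5⟩ := (hd.repl pz e).sub
    have f3 := h.four e3
    have f4 := h.four e4
    have := hy z pz e
    grind
  · intro hc
    have := h.uniq q z s v d5.1 pz d5.2.1 d5.2.2.2.1 e d5.2.2.2.2.1 d5.2.2.2.2.2.2.2.2.1 k
      (h.move q z s v d5.1 (nq z pz e) k)
    have hz := (hd.swap12.repl pz e).swap12
    have f5 := h.four hz.sub.2.2.2.2
    have := h.move q z s v d5.1 (nq z pz e) k
    grind
  · intro hc
    have hz := (hd.swap23.swap12.repl pz e).swap12.swap23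
    have f5 := h.four hz.sub.2.2.2.2
    have := h.sw1 _ _ _ (h.move s z q v d5.2.1 (ns z pz e) (h.sw1 _ _ _ k))
    grind
  · exact absurd e h1
  · exact absurd e h2

theorem RC.rw_off (h : RC P cl col par Vp Vm) {p q s u v : E} (hd : Df5 P cl p q s u v)
    (hr : RW P cl col par p q s u v) {z : E} (pz : P z) (h1 : cl z ≠ cl u) (h2 : cl z ≠ cl v) :
    ¬ col z u v := by
  obtain ⟨ns, hy⟩ := hr
  have n0 : ∀ w, P w → cl w = cl s → ¬ col w u v := by
    intro w pw e
    have hz := (hd.swap23.swap12.repl pw e).swap12.swap23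
    obtain ⟨d1, d2, d3, d4, d5⟩ := hz.sub
    have f1 := h.four d1
    have f2 := h.four d2
    have f3 := h.four d3
    have f4 := h.four d4
    have f5 := h.four d5
    have f := h.five p q w u v hz
    have ps := hd.sub.2.2.2.2.2.1
    have m := fun a b => h.move s w a b ps (ns w pw e)
    have k1 : col p w v ∨ col p w u := (hy p hd.1 (Or.inl rfl)).imp
      (fun e => h.sw1 _ _ _ (m _ _ (h.sw1 _ _ _ e))) fun e => h.sw1 _ _ _ (m _ _ (h.sw1 _ _ _ e))
    have k2 : col q w v ∨ col q w u := (hy q d5.1 (Or.inr rfl)).imp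
      (fun e => h.sw1 _ _ _ (m _ _ (h.sw1 _ _ _ e))) fun e => h.sw1 _ _ _ (m _ _ (h.sw1 _ _ _ e))
    clear m
    grind
  have n1 := n0 s hd.sub.2.2.2.2.2.1 rfl
  rcases hd.cover z with e | e | e | e | e
  · have f4 := h.four (hd.repl pz e).sub.2.2.2.1
    have := hy z pz (Or.inl e)
    grind
  · have f4 := h.four (hd.swap12.repl pz e).sub.2.2.2.1
    have := hy z pz (Or.inr e)
    grind
  · exact n0 z pz e
  · exact absurd e h1
  · exact absurd e h2

/-- No third point lies on the line of the two singleton classes. -/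
theorem RC.off_line (h : RC P cl col par Vp Vm) {u v : E} (pu : P u) (pv : P v) (huv : cl u ≠ cl v)
    (hu : ¬ Vm u) (hw : ¬ Vm v) (hp : ∀ z, P z → z ≠ u → z ≠ v → ¬ Vp z) {z : E} (pz : P z)
    (h1 : cl z ≠ cl u) (h2 : cl z ≠ cl v) : ¬ col z u v := by
  obtain ⟨p, q, s, hd, hr | hr | hr⟩ := h.tri pu pv huv hu hw hp
  · exact h.ru_off hd hr pz h1 h2
  · exact fun e => h.ru_off hd.swap45 hr pz h2 h1 (h.sw2 _ _ _ e)
  · exact h.rw_off hd hr pz h1 h2

end Pool.Agent.Lib.MP_10bdcf_co.II
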