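import Pool.Agent.Lib.MP_10bdcf_co.UM

/-!
Excluded minors of the partial field.
-/

namespace Pool.Agent.Lib.MP_10bdcf_co.G

open scoped Matroid
open Set

set_option linter.unusedSectionVars false

variable {E : Type} [Fintype E] {M : Matroid E} {T : Set E → Matrix E E R0} {B I J S : Set E}
  {g h k e f z : E} {m : Mo}

theorem un_canc {w c y : R0} (hw : InG w) (hc : InG c) (h : w = c * y) : InG y := by
  obtain ⟨b, hb, h1⟩ := hc.exists_inv
  have : y = b * w := by rw [h, ← mul_assoc, mul_comm b c, h1, one_mul]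
  rw [this]
  exact hb.mul hw

theorem un_cancP {w c y : R0} (hw : InP w) (hc : InG c) (h : w = c * y) : InP y := by
  rcases hw with h0 | hw
  · left
    rw [h0] at h
    exact (mul_eq_zero.1 h.symm).resolve_left hc.ne_zero
  · exact Or.inr (un_canc hw hc h)

theorem un_split {u x : R0} (hu : InG u) (hx : InG x) : ∃ A : Mo, u = x * mo A := by
  obtain ⟨m, rfl⟩ := hu
  obtain ⟨n, rfl⟩ := hx
  exact ⟨m - n, by rw [← mo_add, add_sub_cancel]⟩

theorem un_mo (m : Mo) : InG (mo m) := ⟨m, rfl⟩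

/-- The coordinates of the points of a line. -/
theorem un_ratio (hT : U2 M T) (hl : Line M I S) (hg : g ∈ S) (hh : h ∈ S) (hne : g ≠ h) :
    ∃ ρ : E → Mo, ∀ e ∈ S, ∀ f ∈ S, g ≠ e → g ≠ f → h ≠ e → h ≠ f → e ≠ f →
      ρ e - ρ f ∈ fundL ∧ IsCr M T (ρ e - ρ f) := by
  have hc : ∀ z : E, ∃ m : Mo, InG (T (I ∪ {g, h}) g z) → InG (T (I ∪ {g, h}) h z) →
      T (I ∪ {g, h}) h z = T (I ∪ {g, h}) g z * mo m := by
    intro z
    by_cases h1 : InG (T (I ∪ {g, h}) g z)
    · by_cases h2 : InG (T (I ∪ {g, h}) h z)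
      · obtain ⟨A, hA⟩ := un_split h2 h1
        exact ⟨A, fun _ _ => hA⟩
      · exact ⟨0, fun _ h' => absurd h' h2⟩
    · exact ⟨0, fun h' => absurd h' h1⟩
  choose ρ hρ using hc
  refine ⟨ρ, fun e he f hf h2 h3 h4 h5 h6 => ?_⟩
  have hs := hl.site hT hg hh he hf hne h2 h3 h4 h5 h6
  have e1 := hρ e (hT.prop hs.base hs.ge) (hT.prop hs.base hs.he)
  have e2 := hρ f (hT.prop hs.base hs.gf) (hT.prop hs.base hs.hf)
  have hcr : IsCr M T (ρ e - ρ f) := by
    refine ⟨_, g, h, e, f, hs, ?_⟩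
    have e3 : mo (ρ e) = mo (ρ e - ρ f) * mo (ρ f) := by rw [← mo_add, sub_add_cancel]
    rw [e1, e2, e3]
    ring
  exact ⟨hT.cr_mem hcr, hcr⟩

theorem un_pts {n : ℕ} (hn : n ≤ S.ncard) :
    ∃ p : Fin n → E, Function.Injective p ∧ ∀ i, p i ∈ S := by
  classical
  have h1 : Fintype.card (Fin n) ≤ Fintype.card S := by
    rw [Fintype.card_fin, ← Nat.card_eq_fintype_card, Nat.card_coe_set_eq]
    exact hn
  obtain ⟨q⟩ := Function.Embedding.nonempty_of_card_le h1
  exact ⟨fun i => q i, Subtype.val_injective.comp q.injective, fun i => (q i).2⟩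

/-- A five point line has sites of two types, on any three of its points. -/
theorem Line.two_types (hT : U2 M T) (hl : Line M I S) (h5 : 5 ≤ S.ncard) :
    ∃ m n, IsCr M T m ∧ IsCr M T n ∧ ty m ≠ ty n := by
  obtain ⟨p, hp, hS⟩ := un_pts h5
  obtain ⟨ρ, hρ⟩ := un_ratio hT hl (hS 0) (hS 1) (hp.ne (by decide))
  have key : ∀ i j : Fin 5, 0 ≠ i → 0 ≠ j → 1 ≠ i → 1 ≠ j → i ≠ j →
      ρ (p i) - ρ (p j) ∈ fundL ∧ IsCr M T (ρ (p i) - ρ (p j)) := fun i j h1 h2 h3 h4 h5 =>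
    hρ _ (hS i) _ (hS j) (hp.ne h1) (hp.ne h2) (hp.ne h3) (hp.ne h4) (hp.ne h5)
  obtain ⟨a1, a2⟩ := key 2 3 (by decide) (by decide) (by decide) (by decide) (by decide)
  obtain ⟨b1, b2⟩ := key 2 4 (by decide) (by decide) (by decide) (by decide) (by decide)
  obtain ⟨c1, -⟩ := key 4 3 (by decide) (by decide) (by decide) (by decide) (by decide)
  refine ⟨_, _, a2, b2, ty_ne_of_sub _ a1 _ b1 ?_⟩
  rwa [show ρ (p 2) - ρ (p 3) - (ρ (p 2) - ρ (p 4)) = ρ (p 4) - ρ (p 3) by abel]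

theorem IsR.dual (h : IsR M) : IsR M✶ :=
  h.elim (fun h => Or.inr (h.dual (by norm_num))) fun h => Or.inl (h.dual (by norm_num))

theorem un_two5 (hT : U2 M T) (h : IsUnif 2 5 M) :
    ∃ m n, IsCr M T m ∧ IsCr M T n ∧ ty m ≠ ty n := by
  refine Line.two_types (I := ∅) (S := M.E) hT ⟨M.empty_indep, ?_, Subset.rfl, ?_⟩ h.1.ge
  · rw [h.2 _ Subset.rfl, h.1]; simp
  · intro p hp q hq hpq
    rw [empty_union, h.2 _ (pair_subset hp hq), ncard_pair hpq]
    simp

theorem un_cr_dual (hm : IsCr M✶✶ (duT M✶ (duT M T)) m) : IsCr M T m := by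
  rw [Matroid.dual_dual] at hm
  obtain ⟨B, g, h, e, f, hs, he⟩ := hm
  have : duT M✶ (duT M T) B = T B :=
    dualT_dualT T (AddMonoidHom.id R0) rfl (fun _ => rfl) hs.base
  rw [this] at he
  exact ⟨B, g, h, e, f, hs, he⟩

theorem IsR.two_types (hT : U2 M T) (h : IsR M) :
    ∃ m n, IsCr M T m ∧ IsCr M T n ∧ ty m ≠ ty n := by
  rcases h with h | h
  · exact un_two5 hT h
  · obtain ⟨m, n, h1, h2, h3⟩ := un_two5 hT.dual (h.dual (by norm_num))
    exact ⟨m, n, un_cr_dual (h1.dual hT.dual), un_cr_dual (h2.dual hT.dual), h3⟩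

theorem IsR.hasSite (hT : U2 M T) (h : IsR M) : HasSite M := by
  obtain ⟨m, -, ⟨B, g, h, e, f, hs, -⟩, -⟩ := h.two_types hT
  exact ⟨B, g, h, e, f, hs⟩

/-- No minor `U_{2,6}`. -/
theorem Line.le_five (hT : U2 M T) (hl : Line M I S) : S.ncard ≤ 5 := by
  by_contra h6
  obtain ⟨p, hp, hS⟩ := un_pts (show 6 ≤ S.ncard by omega)
  obtain ⟨ρ, hρ⟩ := un_ratio hT hl (hS 0) (hS 1) (hp.ne (by decide))
  have key : ∀ i j : Fin 6, 0 ≠ i → 0 ≠ j → 1 ≠ i → 1 ≠ j → i ≠ j →
      ρ (p i) - ρ (p j) ∈ fundL := fun i j h1 h2 h3 h4 h5 =>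
    (hρ _ (hS i) _ (hS j) (hp.ne h1) (hp.ne h2) (hp.ne h3) (hp.ne h4) (hp.ne h5)).1
  have k : ∀ i j : Fin 6, 0 ≠ i → 0 ≠ j → 1 ≠ i → 1 ≠ j → i ≠ j →
      ρ (p i) - ρ (p 2) - (ρ (p j) - ρ (p 2)) ∈ fundL := fun i j h1 h2 h3 h4 h5 => by
    rw [sub_sub_sub_cancel_right]
    exact key i j h1 h2 h3 h4 h5
  exact no_sixth _ (key 3 2 (by decide) (by decide) (by decide) (by decide) (by decide))
    _ (key 4 2 (by decide) (by decide) (by decide) (by decide) (by decide))
    (k 3 4 (by decide) (by decide) (by decide) (by decide) (by decide))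
    _ (key 5 2 (by decide) (by decide) (by decide) (by decide) (by decide))
    (k 3 5 (by decide) (by decide) (by decide) (by decide) (by decide))
    (k 4 5 (by decide) (by decide) (by decide) (by decide) (by decide))

/-- Replace a contraction set by an independent set so that `P` spans. -/
theorem un_reduce (M : Matroid E) (X P : Set E) :
    ∃ I : Set E, rk M M.E + rk M X = I.ncard + rk M (X ∪ P) ∧
      ∀ Y ⊆ P, rk M (I ∪ Y) + rk M X = rk M (X ∪ Y) + I.ncard := by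
  obtain ⟨K, hK⟩ := M.exists_isBasis' X
  obtain ⟨K', hK', hKK⟩ := hK.indep.subset_isBasis'_of_subset
    (show K ⊆ X ∪ P from hK.subset.trans subset_union_left)
  obtain ⟨B, hB, hKB⟩ := hK'.indep.exists_isBase_superset
  have e1 : rk M X = K.ncard := by
    have := hK.encard_eq_eRk
    rw [← rk_cast, ← ncard_cast] at this
    exact_mod_cast this.symm
  have e2 : rk M (X ∪ P) = K'.ncard := by
    have := hK'.encard_eq_eRk
    rw [← rk_cast, ← ncard_cast] at this
    exact_mod_cast this.symm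
  have e3 := rk_base hB
  have e4 : (B \ K').ncard + K'.ncard = B.ncard := ncard_diff_add_ncard_of_subset hKB
  have e5 : (K ∪ B \ K').ncard = K.ncard + (B \ K').ncard :=
    ncard_union_eq (disjoint_sdiff_right.mono_left hKK)
  refine ⟨K ∪ B \ K', by omega, fun Y hY => ?_⟩
  have e6 : rk M (K ∪ Y) = rk M (X ∪ Y) := by
    rw [← rk_closure M (K ∪ Y), ← rk_closure M (X ∪ Y), ← M.closure_union_closure_left_eq,
      hK.closure_eq_closure, M.closure_union_closure_left_eq]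
  have e7 := rk_union_le M (K ∪ Y) (B \ K')
  have e8 := rk_le_ncard M (B \ K')
  have e9 : K ∪ Y ∪ B \ K' = K ∪ B \ K' ∪ Y := union_right_comm _ _ _
  have e10 := rk_submod' M (X := K ∪ B \ K' ∪ Y) (Y := X ∪ P) (P := K ∪ Y) (Q := B)
    (union_subset_union_left _ subset_union_left) (union_subset_union hK.subset hY) (by
      intro x hx
      by_cases hx' : x ∈ K'
      · exact Or.inr (hK'.subset hx')
      · exact Or.inl (Or.inl (Or.inr ⟨hx, hx'⟩)))
  have e11 := rk_indep hB.indep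
  rw [e9] at e7
  omega

section plane
variable {a b c d : E}

theorem un_card3 (I : Set E) (a b c : E) : (I ∪ {a, b, c}).ncard ≤ I.ncard + 3 := by
  have h1 := ncard_union_le I {a, b, c}
  have h2 := ncard_insert_le a ({b, c} : Set E)
  have h3 := ncard_insert_le b ({c} : Set E)
  rw [ncard_singleton] at h3
  omega

theorem un_base (hr : rk M M.E = I.ncard + 3) (h : rk M (I ∪ {a, b, c}) = I.ncard + 3) :
    M.IsBase (I ∪ {a, b, c}) := by
  have h1 := un_card3 I a b c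
  have h2 := rk_le_ncard M (I ∪ {a, b, c})
  exact isBase_iff_rk.2 ⟨by omega, by omega⟩

theorem un_notMem (h : rk M (I ∪ {a, b, c}) = I.ncard + 3) : a ∉ I ∧ a ≠ b ∧ a ≠ c := by
  have key : a ∉ I ∪ {b, c} := fun ha => by
    have e1 : I ∪ {a, b, c} = I ∪ {b, c} := by rw [union_insert, insert_eq_of_mem ha]
    have h1 := ncard_union_le I {b, c}
    have h2 := ncard_insert_le b ({c} : Set E)
    have h3 := rk_le_ncard M (I ∪ {b, c})
    rw [ncard_singleton] at h2
    rw [e1] at h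
    omega
  exact ⟨fun h => key (Or.inl h), fun h => key (Or.inr (Or.inl h)),
    fun h => key (Or.inr (Or.inr h))⟩

theorem un_sw1 (I : Set E) (a b c : E) : I ∪ {a, b, c} = I ∪ {b, a, c} := by rw [insert_comm]

theorem un_sw2 (I : Set E) (a b c : E) : I ∪ {a, b, c} = I ∪ {a, c, b} := by rw [pair_comm b c]

theorem un_d1 (hT : U2 M T) (hr : rk M M.E = I.ncard + 3) (hB : B = I ∪ {a, b, c})
    (h : rk M B = I.ncard + 3) (e : E) :
    T B a e ≠ 0 ↔ rk M (I ∪ {e, b, c}) = I.ncard + 3 := by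
  subst hB
  obtain ⟨h1, h2, h3⟩ := un_notMem h
  rw [hT.d1_ne (un_base hr h) (by simp), hr]
  have : (I ∪ {a, b, c}) \ {a} ∪ {e} = I ∪ {e, b, c} := by
    ext x
    simp only [mem_union, mem_sdiff, mem_insert_iff, mem_singleton_iff]
    by_cases hx : x = a
    · subst hx; tauto
    · tauto
  rw [this]

theorem un_d2 (hT : U2 M T) (hr : rk M M.E = I.ncard + 3) (hB : B = I ∪ {a, b, c})
    (h : rk M B = I.ncard + 3) (e f : E) :
    d2 (T B) a b e f ≠ 0 ↔ rk M (I ∪ {e, f, c}) = I.ncard + 3 := by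
  subst hB
  obtain ⟨h1, h2, h3⟩ := un_notMem h
  obtain ⟨h4, -, h5⟩ := un_notMem (un_sw1 I a b c ▸ h)
  rw [hT.d2_ne (un_base hr h) (by simp) (by simp) h2, hr]
  have : (I ∪ {a, b, c}) \ {a, b} ∪ {e, f} = I ∪ {e, f, c} := by
    ext x
    simp only [mem_union, mem_sdiff, mem_insert_iff, mem_singleton_iff]
    by_cases hx : x = a
    · subst hx; tauto
    · by_cases hx' : x = b
      · subst hx'; tauto
      · tauto
  rw [this]

theorem un_d3 (hT : U2 M T) (hr : rk M M.E = I.ncard + 3) (hB : B = I ∪ {a, b, c})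
    (h : rk M B = I.ncard + 3) (e f z : E) :
    d3 (T B) a b c e f z ≠ 0 ↔ rk M (I ∪ {e, f, z}) = I.ncard + 3 := by
  subst hB
  obtain ⟨h1, h2, h3⟩ := un_notMem h
  obtain ⟨h4, -, h5⟩ := un_notMem (un_sw1 I a b c ▸ h)
  obtain ⟨h6, -, -⟩ := un_notMem (un_sw1 I a c b ▸ un_sw2 I a b c ▸ h)
  rw [hT.d3_ne (un_base hr h) (by simp) (by simp) (by simp) h2 h3 h5, hr]
  have : (I ∪ {a, b, c}) \ {a, b, c} = I := by
    ext x
    simp only [mem_union, mem_sdiff, mem_insert_iff, mem_singleton_iff]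
    constructor
    · tauto
    · intro hx
      refine ⟨Or.inl hx, ?_⟩
      rintro (rfl | rfl | rfl)
      exacts [h1 hx, h4 hx, h6 hx]
  rw [this]

end plane

theorem un_fin6b : (fundP.all fun p => fundP.all fun q => !decide (q.1 - p.1 ∈ fundL) ||
    fundP.all fun r => !decide (r.1 - p.1 ∈ fundL) || fundP.all fun s =>
      !decide (s.1 - r.1 ∈ fundL) || (!decide (s.1 - q.1 ∈ fundL) ||
        (!decide (q.1 + r.1 - (p.1 + s.1) ∈ fundL) || (!decide (q.2 + r.2 = p.2 + s.2) &&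
          !decide (q.2 + r.2 - (p.2 + s.2) ∈ fundL))))) = true := by
  decide +kernel

theorem un_fin6 : ∀ p ∈ fundP, ∀ q ∈ fundP, q.1 - p.1 ∈ fundL → ∀ r ∈ fundP, r.1 - p.1 ∈ fundL →
    ∀ s ∈ fundP, s.1 - r.1 ∈ fundL → s.1 - q.1 ∈ fundL → q.1 + r.1 - (p.1 + s.1) ∈ fundL →
      ¬ (q.2 + r.2 = p.2 + s.2 ∨ q.2 + r.2 - (p.2 + s.2) ∈ fundL) := by
  intro p hp q hq h1 r hr h2 s hs h3 h4 h5
  have h := un_fin6b
  simp only [List.all_eq_true, Bool.or_eq_true, Bool.not_eq_true', decide_eq_false_iff_not,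
    Bool.and_eq_true] at h
  have := ((((((h p hp q hq).resolve_left (not_not.2 h1)) r hr).resolve_left (not_not.2 h2) s
    hs).resolve_left (not_not.2 h3)).resolve_left (not_not.2 h4)).resolve_left (not_not.2 h5)
  exact fun h' => h'.elim this.1 this.2

theorem un_one_sub {a : Mo} (h : InG (1 - mo a)) : ∃ a', (a, a') ∈ fundP ∧ 1 - mo a = mo a' := by
  obtain ⟨a', h'⟩ := h
  exact ⟨a', fund_iff.1 (by rw [← h']; ring), h'⟩

theorem un_alg6 {u0 u1 u2 v0 v1 v2 w0 w1 w2 : R0} (hu0 : InG u0) (hu1 : InG u1) (hu2 : InG u2)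
    (hv0 : InG v0) (hv1 : InG v1) (hv2 : InG v2) (hw0 : InG w0) (hw1 : InG w1) (hw2 : InG w2)
    (a01 : InG (u0 * v1 - u1 * v0)) (a02 : InG (u0 * v2 - u2 * v0)) (a12 : InG (u1 * v2 - u2 * v1))
    (b01 : InG (u0 * w1 - u1 * w0)) (b02 : InG (u0 * w2 - u2 * w0)) (b12 : InG (u1 * w2 - u2 * w1))
    (c01 : InG (v0 * w1 - v1 * w0)) (c02 : InG (v0 * w2 - v2 * w0)) (c12 : InG (v1 * w2 - v2 * w1))
    (h3 : InP (u0 * (v1 * w2 - v2 * w1) - u1 * (v0 * w2 - v2 * w0) + u2 * (v0 * w1 - v1 * w0))) :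
    False := by
  obtain ⟨x, rfl⟩ := un_split hv0 hu0
  obtain ⟨y, rfl⟩ := un_split hw0 hu0
  obtain ⟨a, rfl⟩ := un_split hv1 (hu1.mul (un_mo x))
  obtain ⟨b, rfl⟩ := un_split hv2 (hu2.mul (un_mo x))
  obtain ⟨c, rfl⟩ := un_split hw1 (hu1.mul (un_mo y))
  obtain ⟨d, rfl⟩ := un_split hw2 (hu2.mul (un_mo y))
  have hx := un_mo x
  have hy := un_mo y
  obtain ⟨a', ha, ea⟩ := un_one_sub (a := a)
    (un_canc a01 ((hu0.mul hu1).mul hx).neg (by ring))
  obtain ⟨b', hb, eb⟩ := un_one_sub (a := b)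
    (un_canc a02 ((hu0.mul hu2).mul hx).neg (by ring))
  obtain ⟨c', hc, ec⟩ := un_one_sub (a := c)
    (un_canc b01 ((hu0.mul hu1).mul hy).neg (by ring))
  obtain ⟨d', hd, ed⟩ := un_one_sub (a := d)
    (un_canc b02 ((hu0.mul hu2).mul hy).neg (by ring))
  have k1 : b - a ∈ fundL := inG_sub.1 (un_canc a12 ((hu1.mul hu2).mul hx).neg (by ring))
  have k2 : c - a ∈ fundL :=
    inG_sub.1 (un_canc c01 (((hu0.mul hu1).mul hx).mul hy).neg (by ring))
  have k3 : d - c ∈ fundL := inG_sub.1 (un_canc b12 ((hu1.mul hu2).mul hy).neg (by ring))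
  have k4 : d - b ∈ fundL :=
    inG_sub.1 (un_canc c02 (((hu0.mul hu2).mul hx).mul hy).neg (by ring))
  have k5 : b + c - (a + d) ∈ fundL :=
    inG_sub.1 (un_canc c12 (((hu1.mul hu2).mul hx).mul hy) (by rw [mo_add, mo_add]; ring))
  refine un_fin6 _ ha _ hb k1 _ hc k2 _ hd k3 k4 k5 (inP_sub.1 ?_)
  exact un_cancP h3 ((((hu0.mul hu1).mul hu2).mul hx).mul hy)
    (by rw [mo_add, mo_add, ← ea, ← eb, ← ec, ← ed]; ring)

/-- No minor `U_{3,6}` or `P_6`: six points of a plane such that at most the three points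
`p 0`, `p 1`, `p 2` are collinear. -/
theorem no_P6 (hT : U2 M T) {X : Set E} (p : Fin 6 → E) (hp : ∀ i, p i ∈ M.E)
    (hr : rk M (X ∪ range p) = rk M X + 3)
    (h3 : ∀ i j l : Fin 6, i < j → j < l → 3 ≤ l → rk M (X ∪ {p i, p j, p l}) = rk M X + 3) :
    False := by
  obtain ⟨I, hI, hY⟩ := un_reduce M X (range p)
  have hr' : rk M M.E = I.ncard + 3 := by omega
  have k : ∀ i j l : Fin 6, i < j → j < l → 3 ≤ l →
      rk M (I ∪ {p i, p j, p l}) = I.ncard + 3 := fun i j l h1 h2 h4 => by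
    have e1 := h3 i j l h1 h2 h4
    have e2 := hY {p i, p j, p l} (by simp [insert_subset_iff])
    omega
  have h0 := k 3 4 5 (by decide) (by decide) (by decide)
  have hB := un_base hr' h0
  have e1 : I ∪ {p 3, p 4, p 5} = I ∪ {p 4, p 3, p 5} := un_sw1 _ _ _ _
  have e2 : I ∪ {p 3, p 4, p 5} = I ∪ {p 5, p 3, p 4} := by rw [un_sw2, un_sw1]
  have e3 : I ∪ {p 3, p 4, p 5} = I ∪ {p 3, p 5, p 4} := un_sw2 _ _ _ _
  have e4 : I ∪ {p 3, p 4, p 5} = I ∪ {p 4, p 5, p 3} := by rw [un_sw1, un_sw2]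
  have u : ∀ i : Fin 6, i < 3 → InG (T (I ∪ {p 3, p 4, p 5}) (p 3) (p i)) := fun i hi =>
    (hT.inP hB _ _).resolve_left ((un_d1 hT hr' rfl h0 _).2 (k i 4 5 (by omega) (by decide)
      (by decide)))
  have v : ∀ i : Fin 6, i < 3 → InG (T (I ∪ {p 3, p 4, p 5}) (p 4) (p i)) := fun i hi =>
    (hT.inP hB _ _).resolve_left ((un_d1 hT hr' e1 h0 _).2 (k i 3 5 hi (by decide) (by decide)))
  have w : ∀ i : Fin 6, i < 3 → InG (T (I ∪ {p 3, p 4, p 5}) (p 5) (p i)) := fun i hi =>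
    (hT.inP hB _ _).resolve_left ((un_d1 hT hr' e2 h0 _).2 (k i 3 4 hi (by decide) (by decide)))
  have a : ∀ i j : Fin 6, i < j → j < 3 →
      InG (d2 (T (I ∪ {p 3, p 4, p 5})) (p 3) (p 4) (p i) (p j)) := fun i j hi hj =>
    (hT.d2_inP hB _ _ _ _).resolve_left ((un_d2 hT hr' rfl h0 _ _).2
      (k i j 5 hi (by omega) (by decide)))
  have b : ∀ i j : Fin 6, i < j → j < 3 →
      InG (d2 (T (I ∪ {p 3, p 4, p 5})) (p 3) (p 5) (p i) (p j)) := fun i j hi hj =>
    (hT.d2_inP hB _ _ _ _).resolve_left ((un_d2 hT hr' e3 h0 _ _).2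
      (k i j 4 hi (by omega) (by decide)))
  have c : ∀ i j : Fin 6, i < j → j < 3 →
      InG (d2 (T (I ∪ {p 3, p 4, p 5})) (p 4) (p 5) (p i) (p j)) := fun i j hi hj =>
    (hT.d2_inP hB _ _ _ _).resolve_left ((un_d2 hT hr' e4 h0 _ _).2
      (k i j 3 hi hj (by decide)))
  exact un_alg6 (u 0 (by decide)) (u 1 (by decide)) (u 2 (by decide)) (v 0 (by decide))
    (v 1 (by decide)) (v 2 (by decide)) (w 0 (by decide)) (w 1 (by decide)) (w 2 (by decide))
    (a 0 1 (by decide) (by decide)) (a 0 2 (by decide) (by decide)) (a 1 2 (by decide) (by decide))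
    (b 0 1 (by decide) (by decide)) (b 0 2 (by decide) (by decide)) (b 1 2 (by decide) (by decide))
    (c 0 1 (by decide) (by decide)) (c 0 2 (by decide) (by decide)) (c 1 2 (by decide) (by decide))
    (hT.d3_inP hB (p 3) (p 4) (p 5) (p 0) (p 1) (p 2))

theorem un_sub (M : Matroid E) (X P Q Y Z : Set E) (h1 : P ⊆ Y) (h2 : P ⊆ Z) (h3 : Q ⊆ Y ∪ Z) :
    rk M (X ∪ P) + rk M (X ∪ Q) ≤ rk M (X ∪ Y) + rk M (X ∪ Z) :=
  rk_submod' M (union_subset_union_right _ h1) (union_subset_union_right _ h2) (by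
    rw [← union_union_distrib_left]
    exact union_subset_union_right _ h3)

theorem un_mono (M : Matroid E) (X P Q : Set E) (h : P ⊆ Q) : rk M (X ∪ P) ≤ rk M (X ∪ Q) :=
  rk_mono M (union_subset_union_right _ h)

theorem un_pair (M : Matroid E) (X : Set E) (a b c : E) :
    rk M (X ∪ {a, b, c}) ≤ rk M (X ∪ {b, c}) + 1 := by
  rw [union_insert]
  exact rk_insert_le M _ _

/-- A diagonal point is not on the other sides. -/
theorem un_rk1 {X : Set E} {a b c d : E} {r : ℕ} (h1 : rk M (X ∪ {b, a, c}) = r + 3)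
    (h3 : rk M (X ∪ {a, c, d}) = r + 3) (e0 : rk M (X ∪ {e}) = r + 1)
    (e1 : rk M (X ∪ {a, b, e}) = r + 2) (e2 : rk M (X ∪ {c, d, e}) = r + 2) :
    r + 3 ≤ rk M (X ∪ {e, a, c}) := by
  have s1 := un_sub M X {a, e} {b, a, c} {e, a, c} {a, b, e} (by simp [insert_subset_iff])
    (by simp [insert_subset_iff]) (by simp [insert_subset_iff])
  have s2 := un_sub M X {c, e} {a, c, d} {e, a, c} {c, d, e} (by simp [insert_subset_iff])
    (by simp [insert_subset_iff]) (by simp [insert_subset_iff])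
  have s3 := un_sub M X {e} {a, c} {a, e} {c, e} (by simp) (by simp)
    (by simp [insert_subset_iff])
  have s4 := un_pair M X b a c
  omega

/-- The third point of the line of two diagonal points is not on the sides. -/
theorem un_rk2 {X : Set E} {a b c : E} {r : ℕ} (h1 : rk M (X ∪ {b, a, c}) = r + 3)
    (f1 : rk M (X ∪ {a, c, f}) = r + 2) (z3 : rk M (X ∪ {f, z}) = r + 2)
    (z1 : rk M (X ∪ {e, f, z}) = r + 2) (he : r + 3 ≤ rk M (X ∪ {e, a, c})) :
    r + 3 ≤ rk M (X ∪ {z, a, c}) := by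
  have s1 := un_sub M X {a, c} {a, c, f, z} {z, a, c} {a, c, f} (by simp [insert_subset_iff])
    (by simp [insert_subset_iff]) (by simp [insert_subset_iff])
  have s2 := un_sub M X {f, z} {e, a, c} {a, c, f, z} {e, f, z} (by simp [insert_subset_iff])
    (by simp [insert_subset_iff]) (by simp [insert_subset_iff])
  have s4 := un_pair M X b a c
  omega

theorem un_alg7 {da db dc ea eb fa fc za zb zc : R0} (hda : InG da) (hdb : InG db) (hdc : InG dc)
    (heb : InG eb) (hfc : InG fc) (hzb : InG zb) (hzc : InG zc) (hza : InP za)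
    (h1 : da * eb - ea * db = 0) (h2 : da * fc - fa * dc = 0)
    (h3 : ea * (0 * zc - zb * fc) - fa * (eb * zc - zb * 0) + za * (eb * fc - 0 * 0) = 0)
    (h4 : InP (db * zc - zb * dc)) : False := by
  have e1 : eb * fc * (za * db * dc - da * (db * zc + zb * dc)) = 0 := by
    linear_combination db * dc * h3 - zb * fc * dc * h1 - eb * zc * db * h2
  have e2 : za * (db * dc) = da * (db * zc + zb * dc) := by
    have := (mul_eq_zero.1 e1).resolve_left (heb.mul hfc).ne_zero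
    linear_combination this
  have h5 : InP (db * zc + zb * dc) := un_cancP (hza.mul (Or.inr (hdb.mul hdc))) hda e2
  obtain ⟨m, hm⟩ := hdb.mul hzc
  obtain ⟨n, hn⟩ := hzb.mul hdc
  rw [hm, hn] at h4 h5
  have hs : sg ≠ 0 := by decide
  have hs2 : sg + sg = 0 := by decide
  rcases inP_sub.1 h4 with rfl | k1 <;> rcases inP_add.1 h5 with k2 | k2
  · exact hs (by simpa using k2)
  · exact sg_not_mem (by simpa using k2)
  · rw [← k2, show n - (n + sg) = sg by rw [sub_add_cancel_left, neg_eq_iff_add_eq_zero, hs2]] at k1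
    exact sg_not_mem k1
  · exact not_both_signs _ k1 (by rwa [show n - m + sg = n + sg - m by abel])

/-- Four points of a plane in general position, two diagonal points `e`, `f`, and a third point on
the line `e f`: no minor `F_7`, `F_7^-` or `F_7^=`. -/
theorem no_K4h (hT : U2 M T) {X : Set E} {a b c d : E} (hE : {a, b, c, d, e, f, z} ⊆ M.E)
    (hr : rk M (X ∪ {a, b, c, d}) = rk M X + 3)
    (h1 : rk M (X ∪ {a, b, c}) = rk M X + 3) (h2 : rk M (X ∪ {a, b, d}) = rk M X + 3)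
    (h3 : rk M (X ∪ {a, c, d}) = rk M X + 3) (h4 : rk M (X ∪ {b, c, d}) = rk M X + 3)
    (e0 : rk M (X ∪ {e}) = rk M X + 1)
    (e1 : rk M (X ∪ {a, b, e}) = rk M X + 2) (e2 : rk M (X ∪ {c, d, e}) = rk M X + 2)
    (f0 : rk M (X ∪ {f}) = rk M X + 1)
    (f1 : rk M (X ∪ {a, c, f}) = rk M X + 2) (f2 : rk M (X ∪ {b, d, f}) = rk M X + 2)
    (z1 : rk M (X ∪ {e, f, z}) = rk M X + 2) (z2 : rk M (X ∪ {e, z}) = rk M X + 2)
    (z3 : rk M (X ∪ {f, z}) = rk M X + 2) : False := by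
  have h1b : rk M (X ∪ {b, a, c}) = rk M X + 3 := by rw [un_sw1]; exact h1
  have h1c : rk M (X ∪ {c, a, b}) = rk M X + 3 := by rw [un_sw1, un_sw2]; exact h1
  have r1 := un_rk1 h1b h3 e0 e1 e2
  have r2 := un_rk1 h1c h2 f0 f1 f2
  have r3 := un_rk2 h1b f1 z3 z1 r1
  have r4 := un_rk2 h1c e1 z2 (by rw [un_sw1]; exact z1) r2
  have hP : rk M (X ∪ {a, b, c, d, e, f, z}) = rk M X + 3 := by
    have s1 := un_sub M X {a, b} {a, b, c, d, e} {a, b, c, d} {a, b, e}
      (by simp [insert_subset_iff]) (by simp [insert_subset_iff]) (by simp [insert_subset_iff])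
    have s2 := un_sub M X {a, c} {a, b, c, d, e, f} {a, b, c, d, e} {a, c, f}
      (by simp [insert_subset_iff]) (by simp [insert_subset_iff]) (by simp [insert_subset_iff])
    have s3 := un_sub M X {e, f} {a, b, c, d, e, f, z} {a, b, c, d, e, f} {e, f, z}
      (by simp [insert_subset_iff]) (by simp [insert_subset_iff]) (by simp [insert_subset_iff])
    have s4 := un_sub M X {f} {e, a, c} {e, f} {a, c, f} (by simp) (by simp)
      (by simp [insert_subset_iff])
    have s5 := un_pair M X b a c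
    have s6 := un_pair M X c a b
    have s7 := un_mono M X {a, b, c} {a, b, c, d, e, f, z} (by simp [insert_subset_iff])
    exact le_antisymm (by linarith) (by linarith)
  obtain ⟨I, hI, hY⟩ := un_reduce M X {a, b, c, d, e, f, z}
  have hr' : rk M M.E = I.ncard + 3 := by linarith
  have full : ∀ Y ⊆ ({a, b, c, d, e, f, z} : Set E), rk M X + 3 ≤ rk M (X ∪ Y) →
      rk M (I ∪ Y) = I.ncard + 3 := fun Y h h' => by
    have := hY Y h
    have := rk_le_rank M (I ∪ Y)
    exact le_antisymm (by linarith) (by linarith)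
  have low : ∀ Y Y', Y ⊆ ({a, b, c, d, e, f, z} : Set E) → Y ⊆ Y' → rk M (X ∪ Y') = rk M X + 2 →
      ¬ rk M (I ∪ Y) = I.ncard + 3 := fun Y Y' h h' h'' h0 => by
    have := hY Y h
    have := un_mono M X Y Y' h'
    linarith
  have full' : ∀ Y Y', Y ⊆ ({a, b, c, d, e, f, z} : Set E) → Y' ⊆ Y →
      rk M (X ∪ Y') = rk M X + 3 → rk M (I ∪ Y) = I.ncard + 3 := fun Y Y' h h' h'' =>
    full Y h (h''.ge.trans (un_mono M X Y' Y h'))
  have h0 := full {a, b, c} (by simp [insert_subset_iff]) h1.ge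
  have hB := un_base hr' h0
  have t1 : I ∪ {a, b, c} = I ∪ {b, a, c} := un_sw1 _ _ _ _
  have t2 : I ∪ {a, b, c} = I ∪ {c, a, b} := by rw [un_sw2, un_sw1]
  have t3 : I ∪ {a, b, c} = I ∪ {a, c, b} := un_sw2 _ _ _ _
  have hda := (hT.inP hB a d).resolve_left ((un_d1 hT hr' rfl h0 d).2
    (full' _ _ (by simp [insert_subset_iff]) (by simp [insert_subset_iff]) h4))
  have hdb := (hT.inP hB b d).resolve_left ((un_d1 hT hr' t1 h0 d).2
    (full' _ _ (by simp [insert_subset_iff]) (by simp [insert_subset_iff]) h3))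
  have hdc := (hT.inP hB c d).resolve_left ((un_d1 hT hr' t2 h0 d).2
    (full' _ _ (by simp [insert_subset_iff]) (by simp [insert_subset_iff]) h2))
  have heb := (hT.inP hB b e).resolve_left ((un_d1 hT hr' t1 h0 e).2
    (full _ (by simp [insert_subset_iff]) r1))
  have hfc := (hT.inP hB c f).resolve_left ((un_d1 hT hr' t2 h0 f).2
    (full _ (by simp [insert_subset_iff]) r2))
  have hzb := (hT.inP hB b z).resolve_left ((un_d1 hT hr' t1 h0 z).2
    (full _ (by simp [insert_subset_iff]) r3))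
  have hzc := (hT.inP hB c z).resolve_left ((un_d1 hT hr' t2 h0 z).2
    (full _ (by simp [insert_subset_iff]) r4))
  have hec : T (I ∪ {a, b, c}) c e = 0 := not_not.1 fun h' => low _ _
    (by simp [insert_subset_iff]) (by simp [insert_subset_iff]) e1 ((un_d1 hT hr' t2 h0 e).1 h')
  have hfb : T (I ∪ {a, b, c}) b f = 0 := not_not.1 fun h' => low _ _
    (by simp [insert_subset_iff]) (by simp [insert_subset_iff]) f1 ((un_d1 hT hr' t1 h0 f).1 h')
  have k1 : d2 (T (I ∪ {a, b, c})) a b d e = 0 := not_not.1 fun h' => low _ _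
    (by simp [insert_subset_iff]) (by simp [insert_subset_iff]) e2
    ((un_d2 hT hr' rfl h0 d e).1 h')
  have k2 : d2 (T (I ∪ {a, b, c})) a c d f = 0 := not_not.1 fun h' => low _ _
    (by simp [insert_subset_iff]) (by simp [insert_subset_iff]) f2
    ((un_d2 hT hr' t3 h0 d f).1 h')
  have k3 : d3 (T (I ∪ {a, b, c})) a b c e f z = 0 := not_not.1 fun h' => low _ _
    (by simp [insert_subset_iff]) Subset.rfl z1 ((un_d3 hT hr' rfl h0 e f z).1 h')
  have k4 := hT.d2_inP hB b c d z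
  simp only [d3, d2, hec, hfb] at k1 k2 k3 k4
  exact un_alg7 hda hdb hdc heb hfc hzb hzc (hT.inP hB a z) k1 k2 k3 k4

end Pool.Agent.Lib.MP_10bdcf_co.G
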