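import Pool.Agent.Lib.MP_10bdcf_co.IIC0
import Pool.Agent.Lib.MP_10bdcf_co.IIR3
import Pool.Agent.Lib.MP_10bdcf_co.UN

/-!
Case II: a rank three minor with an apex satisfies the incidence axioms.
-/

namespace Pool.Agent.Lib.MP_10bdcf_co.II

open scoped Matroid
open Set G

set_option linter.unusedSectionVars false

variable {E : Type}

theorem all2 {R : E → E → Prop} (sw : ∀ p q, R p q → R q p) {a b c d e : E} (h1 : R a b)
    (h2 : R a c) (h3 : R a d) (h4 : R a e) (h5 : R b c) (h6 : R b d) (h7 : R b e) (h8 : R c d)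
    (h9 : R c e) (h10 : R d e) :
    ∀ p ∈ ({a, b, c, d, e} : Set E), ∀ q ∈ ({a, b, c, d, e} : Set E), p ≠ q → R p q := by
  rintro p (rfl | rfl | rfl | rfl | rfl) q (rfl | rfl | rfl | rfl | rfl) hn <;>
    first | exact absurd rfl hn | assumption | exact sw _ _ (by assumption)

theorem all3 {R : E → E → E → Prop} (s1 : ∀ p q r, R p q r → R q p r)
    (s2 : ∀ p q r, R p q r → R p r q) {a b c d e : E} (h1 : R a b c) (h2 : R a b d) (h3 : R a b e)
    (h4 : R a c d) (h5 : R a c e) (h6 : R a d e) (h7 : R b c d) (h8 : R b c e) (h9 : R b d e)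
    (h10 : R c d e) :
    ∀ p ∈ ({a, b, c, d, e} : Set E), ∀ q ∈ ({a, b, c, d, e} : Set E),
      ∀ r ∈ ({a, b, c, d, e} : Set E), p ≠ q → p ≠ r → q ≠ r → R p q r := by
  rintro p (rfl | rfl | rfl | rfl | rfl) q (rfl | rfl | rfl | rfl | rfl) r
    (rfl | rfl | rfl | rfl | rfl) n1 n2 n3 <;>
    first
      | exact absurd rfl n1 | exact absurd rfl n2 | exact absurd rfl n3 | assumption
      | exact s1 _ _ _ (by assumption) | exact s2 _ _ _ (by assumption)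
      | exact s1 _ _ _ (s2 _ _ _ (by assumption)) | exact s2 _ _ _ (s1 _ _ _ (by assumption))
      | exact s1 _ _ _ (s2 _ _ _ (s1 _ _ _ (by assumption)))

theorem ncard_five {a b c d e : E} (h1 : a ≠ b) (h2 : a ≠ c) (h3 : a ≠ d) (h4 : a ≠ e) (h5 : b ≠ c)
    (h6 : b ≠ d) (h7 : b ≠ e) (h8 : c ≠ d) (h9 : c ≠ e) (h10 : d ≠ e) :
    ({a, b, c, d, e} : Set E).ncard = 5 := by
  rw [ncard_insert_of_notMem (by simp [h1, h2, h3, h4]), ncard_insert_of_notMem (by simp [h5, h6, h7]),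
    ncard_insert_of_notMem (by simp [h8, h9]), ncard_pair h10]

variable [Fintype E] {N : Matroid E} {T : Set E → Matrix E E R0} {S Vp Vm : Set E}
  {x a b c d e : E} {cl : E → Fin 5}

theorem rk_sw1 (N : Matroid E) (a b c : E) : rk N {b, a, c} = rk N {a, b, c} := by
  rw [insert_comm]

theorem rk_sw2 (N : Matroid E) (a b c : E) : rk N {a, c, b} = rk N {a, b, c} := by
  rw [pair_comm]

theorem rk_pair_le (N : Matroid E) (a b : E) : rk N {a, b} ≤ 2 := by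
  have := rk_insert_le N a {b}
  have := rk_singleton_le N b
  omega

theorem frame35 (hr : rk N N.E = 3) (hS : S ⊆ N.E) (h5 : S.ncard = 5)
    (h3 : ∀ p ∈ S, ∀ q ∈ S, ∀ r ∈ S, p ≠ q → p ≠ r → q ≠ r → rk N {p, q, r} = 3) :
    Frame N ∅ (N.E \ S) := by
  have key : ∀ X ⊆ S, X.ncard = 3 → rk N X = 3 := by
    intro X hX h
    obtain ⟨p, q, r, h1, h2, h4, rfl⟩ := ncard_eq_three.1 h
    exact h3 p (hX (by simp)) q (hX (by simp)) r (hX (by simp)) h1 h2 h4
  have all : ∀ X ⊆ S, rk N X = min X.ncard 3 := by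
    intro X hX
    by_cases h : 3 ≤ X.ncard
    · obtain ⟨Y, hY, hY3⟩ := exists_subset_card_eq h
      have e1 := key Y (hY.trans hX) hY3
      have e2 := rk_mono N hY
      have e3 := rk_le_rank N X
      omega
    · obtain ⟨Y, hXY, hY, hY3⟩ := exists_subsuperset_card_eq hX (n := 3) (by omega) (by omega)
      have e1 := rk_indep ((indep_iff_rk.2 ((key Y hY hY3).trans hY3.symm)).subset hXY)
      omega
  have e0 : N.E \ (∅ ∪ N.E \ S) = S := by rw [empty_union, sdiff_sdiff_cancel_left hS]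
  refine frame_of_rk ⟨N.empty_indep, ?_, empty_disjoint _⟩ (by rw [e0, h5]) (by simp [hr]) ?_
  · rw [coindep_iff_rk sdiff_subset, sdiff_sdiff_cancel_left hS, all S Subset.rfl, h5, hr]
    rfl
  · intro X hX
    rw [e0] at hX
    simp [all X hX, hr]

theorem frame25 (hr : rk N N.E = 3) (hz : rk N {x} = 1) (hS : S ⊆ N.E) (h5 : S.ncard = 5)
    (h2 : ∀ p ∈ S, ∀ q ∈ S, p ≠ q → rk N {x, p, q} = 3) : Frame N {x} (N.E \ ({x} ∪ S)) :=
  Line.frame ⟨indep_iff_rk.2 (by simp [hz]), by simp [hr], hS, fun p hp q hq hn => by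
    rw [singleton_union, ncard_singleton, h2 p hp q hq hn]⟩ h5

/-- A rank three matroid with an apex `x`, in which every frame is valid. -/
structure R3 (N : Matroid E) (x : E) (cl : E → Fin 5) (Vp Vm : Set E) : Prop where
  rank : rk N N.E = 3
  xE : x ∈ N.E
  xp : x ∈ Vp
  disj : Disjoint Vp Vm
  fr : ∀ I J, Frame N I J → I ⊆ Vp ∧ J ⊆ Vm
  co : ∀ S ⊆ N.E, S.ncard ≤ 3 → rk N (N.E \ S) = 3
  two : ∀ a ∈ N.E, a ≠ x → rk N {x, a} = 2
  surj : ∀ i, ∃ a, (a ∈ N.E ∧ a ≠ x) ∧ cl a = i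
  cls : ∀ a b, a ∈ N.E ∧ a ≠ x → b ∈ N.E ∧ b ≠ x → (cl a = cl b ↔ rk N {x, a, b} ≤ 2)

theorem R3.le3 (h : R3 N x cl Vp Vm) (X : Set E) : rk N X ≤ 3 := h.rank ▸ rk_le_rank N X

theorem R3.r1 (h : R3 N x cl Vp Vm) (pa : a ∈ N.E ∧ a ≠ x) : rk N {a} = 1 ∧ rk N {x} = 1 := by
  have h1 := h.two a pa.1 pa.2
  have h2 := rk_insert_le N x {a}
  have h3 := rk_insert_le N a {x}
  rw [pair_comm] at h3
  have h4 := rk_singleton_le N a
  have h5 := rk_singleton_le N x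
  omega

theorem R3.r3 (h : R3 N x cl Vp Vm) (pa : a ∈ N.E ∧ a ≠ x) (pb : b ∈ N.E ∧ b ≠ x)
    (hn : cl a ≠ cl b) : rk N {x, a, b} = 3 := by
  have h1 := h.cls a b pa pb
  have h2 := h.le3 {x, a, b}
  by_contra h3
  exact hn (h1.2 (by omega))

theorem R3.r2 (h : R3 N x cl Vp Vm) (pa : a ∈ N.E ∧ a ≠ x) (pb : b ∈ N.E ∧ b ≠ x)
    (hn : cl a ≠ cl b) : rk N {a, b} = 2 := by
  have h1 := h.r3 pa pb hn
  have h2 := rk_insert_le N x {a, b}
  have h3 := rk_pair_le N a b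
  omega

theorem R3.off (h : R3 N x cl Vp Vm) (pa : a ∈ N.E ∧ a ≠ x) (pb : b ∈ N.E ∧ b ≠ x)
    (hn : cl a ≠ cl b) (d e : E) :
    ∃ z, (z ∈ N.E ∧ z ≠ x) ∧ z ≠ d ∧ z ≠ e ∧ rk N {z, a, b} = 3 := by
  have h1 := h.co ({x, d, e} ∩ N.E) inter_subset_right
    ((ncard_le_ncard inter_subset_left).trans (by
      have := ncard_insert_le x ({d, e} : Set E)
      have := ncard_insert_le d ({e} : Set E)
      rw [ncard_singleton] at this
      omega))
  have h2 := h.r2 pa pb hn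
  by_contra hc
  have h3 : N.E \ ({x, d, e} ∩ N.E) ⊆ N.closure {a, b} := by
    intro z hz
    by_contra hz'
    have h4 := rk_insert_of_notMem hz.1 hz'
    have h5 : z ∉ ({x, d, e} : Set E) := fun h => hz.2 ⟨h, hz.1⟩
    simp only [mem_insert_iff, mem_singleton_iff, not_or] at h5
    exact hc ⟨z, ⟨hz.1, h5.1⟩, h5.2.1, h5.2.2, by omega⟩
  have h4 := rk_mono N h3
  rw [rk_closure] at h4
  omega

theorem R3.line25 (h : R3 N x cl Vp Vm) {z : E} (hz : rk N {z} = 1)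
    (hS : ({a, b, c, d, e} : Set E) ⊆ N.E) (h1 : rk N {z, a, b} = 3) (h2 : rk N {z, a, c} = 3)
    (h3 : rk N {z, a, d} = 3) (h4 : rk N {z, a, e} = 3) (h5 : rk N {z, b, c} = 3)
    (h6 : rk N {z, b, d} = 3) (h7 : rk N {z, b, e} = 3) (h8 : rk N {z, c, d} = 3)
    (h9 : rk N {z, c, e} = 3) (h10 : rk N {z, d, e} = 3) :
    z ∈ Vp ∧ ∀ w ∈ N.E, w ≠ z → w ∉ ({a, b, c, d, e} : Set E) → w ∈ Vm := by
  have ne : ∀ p q, rk N {z, p, q} = 3 → p ≠ q := by
    rintro p q hp rfl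
    have := rk_pair_le N z p
    rw [pair_eq_singleton] at hp
    omega
  have hf := h.fr _ _ (frame25 h.rank hz hS
    (ncard_five (ne _ _ h1) (ne _ _ h2) (ne _ _ h3) (ne _ _ h4) (ne _ _ h5) (ne _ _ h6) (ne _ _ h7)
      (ne _ _ h8) (ne _ _ h9) (ne _ _ h10))
    (all2 (R := fun p q => rk N {z, p, q} = 3) (fun p q e => (rk_sw2 N z p q).trans e)
      h1 h2 h3 h4 h5 h6 h7 h8 h9 h10))
  refine ⟨hf.1 rfl, fun w hw n1 n2 => hf.2 ⟨hw, ?_⟩⟩
  rintro (h | h)
  exacts [n1 h, n2 h]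

theorem R3.gen (h : R3 N x cl Vp Vm) (hd : Df4 (fun a => a ∈ N.E ∧ a ≠ x) cl a b c d)
    (hg : Gen (fun a b c => rk N {a, b, c} ≤ 2) a b c d) : Frame N ∅ (N.E \ {x, a, b, c, d}) := by
  obtain ⟨pa, pb, pc, pd, n1, n2, n3, n4, n5, n6⟩ := hd
  obtain ⟨g1, g2, g3, g4⟩ := hg
  have l1 := h.le3 {a, b, c}
  have l2 := h.le3 {a, b, d}
  have l3 := h.le3 {a, c, d}
  have l4 := h.le3 {b, c, d}
  refine frame35 h.rank (by simp [insert_subset_iff, h.xE, pa.1, pb.1, pc.1, pd.1])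
    (ncard_five pa.2.symm pb.2.symm pc.2.symm pd.2.symm (ne_of_apply_ne cl n1)
      (ne_of_apply_ne cl n2) (ne_of_apply_ne cl n3) (ne_of_apply_ne cl n4) (ne_of_apply_ne cl n5)
      (ne_of_apply_ne cl n6)) ?_
  exact all3 (R := fun p q r => rk N {p, q, r} = 3) (fun p q r e => (rk_sw1 N p q r).trans e)
    (fun p q r e => (rk_sw2 N p q r).trans e) (h.r3 pa pb n1) (h.r3 pa pc n2) (h.r3 pa pd n3)
    (h.r3 pb pc n4) (h.r3 pb pd n5) (h.r3 pc pd n6) (by omega) (by omega) (by omega) (by omega)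

theorem R3.five (h : R3 N x cl Vp Vm) (hd : Df5 (fun a => a ∈ N.E ∧ a ≠ x) cl a b c d e)
    (c1 : rk N {a, b, c} ≤ 2) (c2 : rk N {a, b, d} ≤ 2) (c3 : rk N {a, b, e} ≤ 2) : False := by
  obtain ⟨pa, n1, n2, n3, n4, pb, pc, pd, pe, n5, n6, n7, n8, n9, n10⟩ := hd
  obtain ⟨z, pz, -, -, hz⟩ := h.off pa pb n1 x x
  have r := h.r2 pa pb n1
  have s1 := rk_submod' N (X := {a, b, c}) (Y := {a, b, d}) (P := {a, b}) (Q := {a, b, c, d})
    (by grind) (by grind) (by grind)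
  have s2 := rk_submod' N (X := {a, b, c, d}) (Y := {a, b, e}) (P := {a, b})
    (Q := {a, b, c, d, e}) (by grind) (by grind) (by grind)
  have key : ∀ p ∈ ({a, b, c, d, e} : Set E), ∀ q ∈ ({a, b, c, d, e} : Set E), rk N {p, q} = 2 →
      rk N {z, p, q} = 3 := by
    intro p hp q hq e2
    have s3 := rk_submod' N (X := {z, p, q}) (Y := {a, b, c, d, e}) (P := {p, q}) (Q := {z, a, b})
      (by grind) (pair_subset hp hq) (by grind)
    have := h.le3 {z, p, q}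
    omega
  have := (h.line25 (h.r1 pz).1 (a := a) (b := b) (c := c) (d := d) (e := e)
    (by simp [insert_subset_iff, pa.1, pb.1, pc.1, pd.1, pe.1])
    (key _ (by simp) _ (by simp) (h.r2 pa pb n1)) (key _ (by simp) _ (by simp) (h.r2 pa pc n2))
    (key _ (by simp) _ (by simp) (h.r2 pa pd n3)) (key _ (by simp) _ (by simp) (h.r2 pa pe n4))
    (key _ (by simp) _ (by simp) (h.r2 pb pc n5)) (key _ (by simp) _ (by simp) (h.r2 pb pd n6))
    (key _ (by simp) _ (by simp) (h.r2 pb pe n7)) (key _ (by simp) _ (by simp) (h.r2 pc pd n8))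
    (key _ (by simp) _ (by simp) (h.r2 pc pe n9))
    (key _ (by simp) _ (by simp) (h.r2 pd pe n10))).2 x h.xE pz.2.symm
    (by simp [pa.2.symm, pb.2.symm, pc.2.symm, pd.2.symm, pe.2.symm])
  exact disjoint_left.1 h.disj h.xp this

theorem R3.p6 (h : R3 N x cl Vp Vm) (hT : U2 N T)
    (hd : Df5 (fun a => a ∈ N.E ∧ a ≠ x) cl a b c d e) (c1 : rk N {a, d, e} = 3)
    (c2 : rk N {b, d, e} = 3) (c3 : rk N {c, d, e} = 3) (c4 : rk N {a, b, d} = 3)
    (c5 : rk N {a, b, e} = 3) (c6 : rk N {a, c, d} = 3) (c7 : rk N {a, c, e} = 3)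
    (c8 : rk N {b, c, d} = 3) (c9 : rk N {b, c, e} = 3) : False := by
  obtain ⟨pa, n1, n2, n3, n4, pb, pc, pd, pe, n5, n6, n7, n8, n9, n10⟩ := hd
  have k : ∀ p q, p ∈ N.E ∧ p ≠ x → q ∈ N.E ∧ q ≠ x → cl p ≠ cl q → rk N {p, q, x} = 3 :=
    fun p q h1 h2 h3 => by rw [rk_sw2, rk_sw1]; exact h.r3 h1 h2 h3
  have k1 := k a b pa pb n1
  have k2 := k a c pa pc n2
  have k3 := k a d pa pd n3
  have k4 := k a e pa pe n4
  have k5 := k b c pb pc n5
  have k6 := k b d pb pd n6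
  have k7 := k b e pb pe n7
  have k8 := k c d pc pd n8
  have k9 := k c e pc pe n9
  have k10 := k d e pd pe n10
  refine no_P6 hT (X := ∅) ![a, b, c, d, e, x] ?_ ?_ ?_
  · intro i
    fin_cases i
    exacts [pa.1, pb.1, pc.1, pd.1, pe.1, h.xE]
  · have h1 := h.le3 (∅ ∪ range ![a, b, c, d, e, x])
    have h2 := rk_mono N (show ({a, d, e} : Set E) ⊆ ∅ ∪ range ![a, b, c, d, e, x] by
      rintro z (rfl | rfl | rfl)
      exacts [Or.inr ⟨0, rfl⟩, Or.inr ⟨3, rfl⟩, Or.inr ⟨4, rfl⟩])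
    rw [rk_empty]
    omega
  · intro i j l h1 h2 h3
    rw [empty_union, rk_empty, zero_add]
    fin_cases l <;> first | exact absurd h3 (by decide) | skip
    all_goals fin_cases j <;> first | exact absurd h2 (by decide) | skip
    all_goals fin_cases i <;> first | exact absurd h1 (by decide) | assumption

theorem R3.rc (h : R3 N x cl Vp Vm) (hT : U2 N T) :
    RC (fun a => a ∈ N.E ∧ a ≠ x) cl (fun a b c => rk N {a, b, c} ≤ 2) (fun a b => rk N {a, b} ≤ 1)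
      (· ∈ Vp) (· ∈ Vm) where
  surj := h.surj
  sw1 := fun a b c e => (rk_sw1 N a b c).trans_le e
  sw2 := fun a b c e => (rk_sw2 N a b c).trans_le e
  line := fun a b c d pa pb n c1 c2 => by
    have r := h.r2 pa pb n
    have s := rk_submod' N (X := {a, b, c}) (Y := {a, b, d}) (P := {a, b}) (Q := {a, c, d})
      (by grind) (by grind) (by grind)
    omega
  uniq := fun a a' b c pa pa' pb pc e n1 n2 c1 c2 => by
    have r := h.r2 pb pc n2
    have r' := h.r3 pa pb n1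
    have r'' := (h.cls a a' pa pa').1 e.symm
    have s := rk_submod' N (X := {a, b, c}) (Y := {a', b, c}) (P := {b, c}) (Q := {a, a', b})
      (by grind) (by grind) (by grind)
    have s' := rk_submod' N (X := {x, a, a'}) (Y := {a, a', b}) (P := {a, a'}) (Q := {x, a, b})
      (by grind) (by grind) (by grind)
    omega
  move := fun a a' b c pa e c1 => by
    have r := (h.r1 pa).1
    have s := rk_submod' N (X := {a, a'}) (Y := {a, b, c}) (P := {a}) (Q := {a', b, c})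
      (by grind) (by grind) (by grind)
    omega
  refl := fun a => by simpa using rk_singleton_le N a
  del := fun a b c d hd hg z pz n1 n2 n3 n4 =>
    (h.fr _ _ (h.gen hd hg)).2 ⟨pz.1, by simp [pz.2, n1, n2, n3, n4]⟩
  five := fun a b c d e hd c1 c2 c3 => h.five hd c1 c2 c3
  con := fun y a b c d hd c1 c2 c3 c4 c5 c6 => by
    obtain ⟨py, n1, n2, n3, n4, pa, pb, pc, pd, -⟩ := hd
    have k : ∀ p q, ¬ rk N {y, p, q} ≤ 2 → rk N {y, p, q} = 3 := fun p q e => by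
      have := h.le3 {y, p, q}
      omega
    exact (h.line25 (h.r1 py).1 (a := x) (b := a) (c := b) (d := c) (e := d)
      (by simp [insert_subset_iff, h.xE, pa.1, pb.1, pc.1, pd.1])
      ((rk_sw1 N _ _ _).trans (h.r3 py pa n1)) ((rk_sw1 N _ _ _).trans (h.r3 py pb n2))
      ((rk_sw1 N _ _ _).trans (h.r3 py pc n3)) ((rk_sw1 N _ _ _).trans (h.r3 py pd n4))
      (k _ _ c1) (k _ _ c2) (k _ _ c3) (k _ _ c4) (k _ _ c5) (k _ _ c6)).1
  p6 := fun a b c d e hd => by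
    by_contra hn
    simp only [not_or] at hn
    have k : ∀ p q r, ¬ rk N {p, q, r} ≤ 2 → rk N {p, q, r} = 3 := fun p q r e => by
      have := h.le3 {p, q, r}
      omega
    obtain ⟨c1, c2, c3, c4, c5, c6, c7, c8, c9⟩ := hn
    exact h.p6 hT hd (k _ _ _ c1) (k _ _ _ c2) (k _ _ _ c3) (k _ _ _ c4) (k _ _ _ c5) (k _ _ _ c6)
      (k _ _ _ c7) (k _ _ _ c8) (k _ _ _ c9)
  f7 := fun y y' a b c d hd hg py' e c1 c2 c3 c4 => by
    obtain ⟨py, -, -, -, -, pa, pb, pc, pd, n1, n2, n3, n4, n5, n6⟩ := hd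
    obtain ⟨g1, g2, g3, g4⟩ := hg
    have k : ∀ p q r, ¬ rk N {p, q, r} ≤ 2 → rk N (∅ ∪ {p, q, r}) = rk N ∅ + 3 := fun p q r e => by
      have := h.le3 {p, q, r}
      rw [empty_union, rk_empty]
      omega
    have m : ∀ p q r, rk N {q, r} = 2 → rk N {p, q, r} ≤ 2 →
        rk N (∅ ∪ {q, r, p}) = rk N ∅ + 2 := fun p q r e1 e2 => by
      have := rk_mono N (subset_insert p {q, r})
      rw [empty_union, rk_empty, rk_sw2, rk_sw1]
      omega
    refine no_K4h hT (X := ∅) (a := a) (b := b) (c := c) (d := d) (e := y) (f := y') (z := x)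
      (by simp [insert_subset_iff, h.xE, pa.1, pb.1, pc.1, pd.1, py.1, py'.1]) ?_ (k _ _ _ g1)
      (k _ _ _ g2) (k _ _ _ g3) (k _ _ _ g4) (by simp [(h.r1 py).1]) (m _ _ _ (h.r2 pa pb n1) c1)
      (m _ _ _ (h.r2 pc pd n6) c2) (by simp [(h.r1 py').1]) (m _ _ _ (h.r2 pa pc n2) c3)
      (m _ _ _ (h.r2 pb pd n5) c4) ?_ ?_ ?_
    · have e1 := h.le3 {a, b, c, d}
      have e2 := rk_mono N (show ({a, b, c} : Set E) ⊆ {a, b, c, d} by grind)
      rw [empty_union, rk_empty]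
      omega
    · have e1 := (h.cls y y' py py').1 e.symm
      have e2 := rk_mono N (show ({x, y} : Set E) ⊆ {x, y, y'} by grind)
      have e3 := h.two y py.1 py.2
      rw [empty_union, rk_empty, rk_sw2, rk_sw1]
      omega
    · rw [empty_union, rk_empty, pair_comm, h.two y py.1 py.2]
    · rw [empty_union, rk_empty, pair_comm, h.two y' py'.1 py'.2]
  flag := fun a a' pa pa' e n => by
    have : ∀ i : Fin 5, ∃ j k l m : Fin 5, i ≠ j ∧ i ≠ k ∧ i ≠ l ∧ i ≠ m ∧ j ≠ k ∧ j ≠ l ∧ j ≠ m ∧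
        k ≠ l ∧ k ≠ m ∧ l ≠ m := by decide
    obtain ⟨j, k, l, m, n1, n2, n3, n4, n5, n6, n7, n8, n9, n10⟩ := this (cl a')
    obtain ⟨b, pb, rfl⟩ := h.surj j
    obtain ⟨c, pc, rfl⟩ := h.surj k
    obtain ⟨d, pd, rfl⟩ := h.surj l
    obtain ⟨f, pf, rfl⟩ := h.surj m
    refine (h.line25 (h.r1 pa).2 (a := a') (b := b) (c := c) (d := d) (e := f)
      (by simp [insert_subset_iff, pa'.1, pb.1, pc.1, pd.1, pf.1]) (h.r3 pa' pb n1)
      (h.r3 pa' pc n2) (h.r3 pa' pd n3) (h.r3 pa' pf n4) (h.r3 pb pc n5) (h.r3 pb pd n6)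
      (h.r3 pb pf n7) (h.r3 pc pd n8) (h.r3 pc pf n9) (h.r3 pd pf n10)).2 a pa.1 pa.2 ?_
    rw [e] at n1 n2 n3 n4
    simp [n, ne_of_apply_ne cl n1, ne_of_apply_ne cl n2, ne_of_apply_ne cl n3,
      ne_of_apply_ne cl n4]
  disj := fun a h1 h2 => disjoint_left.1 h.disj h1 h2
  cog := fun a b d e pa pb n => by
    obtain ⟨z, pz, n1, n2, hz⟩ := h.off pa pb n d e
    refine ⟨z, pz, n1, n2, fun e => ?_, fun e => ?_, fun e => ?_⟩
    · have := rk_insert_le N b {a, z}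
      rw [rk_sw1, rk_sw2, rk_sw1] at this
      omega
    · have := rk_insert_le N a {b, z}
      rw [rk_sw2, rk_sw1] at this
      omega
    · rw [rk_sw2, rk_sw1] at e
      omega

end Pool.Agent.Lib.MP_10bdcf_co.II
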