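import Pool.Agent.Lib.MP_10bdcf_co.IIC1

/-!
Case II: the classes of a valid frame and the shape of an uncovered pair.
-/

namespace Pool.Agent.Lib.MP_10bdcf_co.II

open scoped Matroid
open Set G

set_option linter.unusedSectionVars false

variable {E : Type} [Fintype E] {M : Matroid E} {T : Set E → Matrix E E R0}
  {C D Vp Vm I J K B X : Set E} {x a b z : E} {cl : E → Fin 5}

theorem Cov.card (h : Cov M C D Vp Vm) : 10 ≤ M.E.ncard := by
  have := rk_dual_ground M
  have := h.rk5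
  have := h.crk5
  omega

theorem Cov.disj (h : Cov M C D Vp Vm) : Disjoint Vp Vm := h.dis.symm.mono h.vp h.vm

theorem Cov.valid (h : Cov M C D Vp Vm) (hf : Frame M I J) (hK : K ⊆ I) (hKV : K ⊆ Vp)
    (h2 : 2 ≤ K.ncard) : I ⊆ Vp ∧ J ⊆ Vm := by
  obtain ⟨a, ha, b, hb, hab⟩ := (one_lt_ncard K.toFinite).1 h2
  exact h.left I J hf a (hK ha) b (hK hb) hab (hKV ha) (hKV hb)

/-- A valid frame of rank two. -/
structure V25 (M : Matroid E) (Vp I : Set E) : Prop where
  fr : ∃ J, Frame M I J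
  sub : I ⊆ Vp
  rank : I.ncard + 2 = rk M M.E

theorem V25.ind (hv : V25 M Vp I) : M.Indep I := hv.fr.choose_spec.ind

theorem Cov.three (h : Cov M C D Vp Vm) (hv : V25 M Vp I) : 3 ≤ I.ncard := by
  have := h.rk5
  have := hv.rank
  omega

theorem Cov.flat (h : Cov M C D Vp Vm) (hv : V25 M Vp I) (ha : a ∈ M.E) (haI : a ∉ I) :
    rk M (insert a I) = I.ncard + 1 := by
  obtain ⟨J, hf⟩ := hv.fr
  have h3 := h.three hv
  have hr := hv.rank
  by_cases haJ : a ∈ J
  swap
  · have := hf.rk_eq (X := {a}) (singleton_subset_iff.2 ⟨ha, fun h => h.elim haI haJ⟩)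
    rw [singleton_union, ncard_singleton] at this
    omega
  by_contra hn
  have hI := rk_indep hf.ind
  have hcl : a ∈ M.closure I := by
    by_contra h'
    have := rk_insert_of_notMem ha h'
    omega
  have h10 := h.card
  have hai : M.Indep {a} := h.con.indep (by omega) (singleton_subset_iff.2 ha) (by simp)
  have hsub : insert a I ⊆ M.E := insert_subset ha hf.op.sub_left
  obtain ⟨I', hI', haI'⟩ := hai.subset_isBasis_of_subset (X := insert a I) (by simp) hsub
  have hc : M.closure I' = M.closure I := by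
    rw [hI'.closure_eq_closure, Matroid.closure_insert_eq_of_mem_closure hcl]
  have hf' := hf.swap hI'.indep (hI'.subset.trans (insert_subset (Or.inr haJ) subset_union_left)) hc
  have e1 := rk_basis hI'
  have e2 := rk_insert_of_mem hcl
  have e3 := ncard_sdiff_singleton_add_one (haI' (mem_singleton a)) I'.toFinite
  have := h.valid hf' (K := I' \ {a}) sdiff_subset
    (fun z hz => hv.sub ((hI'.subset hz.1).resolve_left hz.2)) (by omega)
  exact disjoint_left.1 h.disj (this.1 (haI' (mem_singleton a)))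
    ((h.valid hf Subset.rfl hv.sub (by omega)).2 haJ)

/-- The five parallel classes of the contraction of `I`. -/
structure Cls (M : Matroid E) (I : Set E) (cl : E → Fin 5) : Prop where
  surj : ∀ i, ∃ a, (a ∈ M.E ∧ a ∉ I) ∧ cl a = i
  iff : ∀ a b, a ∈ M.E ∧ a ∉ I → b ∈ M.E ∧ b ∉ I →
    (cl a = cl b ↔ rk M (I ∪ {a, b}) ≤ I.ncard + 1)

theorem Cov.exists_cls (h : Cov M C D Vp Vm) (hT : U2 M T) (hv : V25 M Vp I) :
    ∃ cl, Cls M I cl := by
  classical
  obtain ⟨J, hf⟩ := hv.fr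
  have hr := hv.rank
  obtain ⟨s, hs, hs'⟩ : ∃ s : Fin 5 → E, Function.Injective s ∧ range s = M.E \ (I ∪ J) := by
    have e := (M.E \ (I ∪ J)).toFinite.equivFinOfCardEq (n := 5) hf.card
    refine ⟨fun i => e.symm i, Subtype.val_injective.comp e.symm.injective, ?_⟩
    ext z
    exact ⟨fun ⟨i, hi⟩ => hi ▸ (e.symm i).2, fun hz => ⟨e ⟨z, hz⟩, by simp⟩⟩
  have hsm : ∀ i, s i ∈ M.E \ (I ∪ J) := fun i => hs' ▸ mem_range_self i
  have ps : ∀ i, s i ∈ M.E ∧ s i ∉ I := fun i => ⟨(hsm i).1, fun e => (hsm i).2 (Or.inl e)⟩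
  have hpair : ∀ i j, i ≠ j → rk M (I ∪ {s i, s j}) = I.ncard + 2 := by
    intro i j hn
    have := hf.rk_eq (pair_subset (hsm i) (hsm j))
    rw [union_comm, ncard_pair (hs.ne hn)] at this
    omega
  have refl : ∀ a, rk M (I ∪ {a, a}) ≤ I.ncard + 1 := fun a => by
    have := rk_insert_le M a I
    have := rk_le_ncard M I
    rw [pair_eq_singleton, union_singleton]
    omega
  have symm : ∀ a b, rk M (I ∪ {a, b}) ≤ I.ncard + 1 → rk M (I ∪ {b, a}) ≤ I.ncard + 1 :=
    fun a b e => by rwa [pair_comm]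
  have trans : ∀ a b c, b ∈ M.E ∧ b ∉ I → rk M (I ∪ {a, b}) ≤ I.ncard + 1 →
      rk M (I ∪ {b, c}) ≤ I.ncard + 1 → rk M (I ∪ {a, c}) ≤ I.ncard + 1 := by
    intro a b c pb e1 e2
    have e3 := h.flat hv pb.1 pb.2
    have e4 := rk_submod' M (X := I ∪ {a, b}) (Y := I ∪ {b, c}) (P := insert b I) (Q := I ∪ {a, c})
      (by grind) (by grind) (by grind)
    omega
  have ex : ∀ a, a ∈ M.E ∧ a ∉ I → ∃ i, rk M (I ∪ {a, s i}) ≤ I.ncard + 1 := by
    intro a pa
    by_contra hn
    push Not at hn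
    have hle := fun X => rk_le_rank M X
    have haS : a ∉ range s := by
      rintro ⟨i, rfl⟩
      exact (hn i).not_ge (refl _)
    have hl : Line M I (insert a (range s)) := by
      refine ⟨hf.ind, hr.symm, insert_subset pa.1 (hs' ▸ sdiff_subset), ?_⟩
      rintro p (rfl | ⟨i, rfl⟩) q (rfl | ⟨j, rfl⟩) hne
      · exact absurd rfl hne
      · have := hn j
        have := hle (I ∪ {p, s j})
        omega
      · have := hn i
        have := hle (I ∪ {q, s i})
        rw [pair_comm]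
        omega
      · exact hpair i j fun e => hne (e ▸ rfl)
    have := hl.le_five hT
    rw [ncard_insert_of_notMem haS, hs', hf.card] at this
    omega
  choose! cl hcl using ex
  have uq : ∀ a i, a ∈ M.E ∧ a ∉ I → rk M (I ∪ {a, s i}) ≤ I.ncard + 1 → cl a = i := by
    intro a i pa e
    by_contra hn
    have := trans _ _ _ pa (symm _ _ (hcl a pa)) e
    have := hpair _ _ hn
    omega
  refine ⟨cl, fun i => ⟨s i, ps i, uq _ _ (ps i) (refl _)⟩, fun a b pa pb => ⟨fun e => ?_, fun e => ?_⟩⟩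
  · exact trans _ _ _ (ps _) (hcl a pa) (symm _ _ (e ▸ hcl b pb))
  · exact uq _ _ pa (trans _ _ _ pb e (hcl b pb))

theorem V25.op (hv : V25 M Vp I) (x : E) : Op M (I \ {x}) ∅ :=
  hv.fr.choose_spec.op.mono sdiff_subset (empty_subset _)

theorem V25.rk_mn (hv : V25 M Vp I) (hx : x ∈ I) (S : Set E) :
    rk (mn M (I \ {x}) ∅) S + I.ncard = rk M (S ∪ I \ {x}) + 1 := by
  have e1 := (hv.op x).rk_mn (X := S) (disjoint_empty _)
  have e2 := ncard_sdiff_singleton_add_one hx I.toFinite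
  omega

theorem mem_mn (M : Matroid E) (hx : x ∈ I) (a : E) :
    (a ∈ (mn M (I \ {x}) ∅).E ∧ a ≠ x) ↔ a ∈ M.E ∧ a ∉ I := by
  rw [mn_ground]
  grind

theorem Cov.r3 (h : Cov M C D Vp Vm) (hv : V25 M Vp I) (hc : Cls M I cl) (hx : x ∈ I) :
    R3 (mn M (I \ {x}) ∅) x cl Vp Vm := by
  have hr := hv.rank
  have h3 := h.three hv
  have h10 := h.card
  have e2 := ncard_sdiff_singleton_add_one hx I.toFinite
  have hxE : x ∈ M.E := hv.ind.subset_ground hx
  refine ⟨?_, ?_, hv.sub hx, h.disj, fun I' J' hf => ?_, fun S hS h3 => ?_, fun a ha hax => ?_,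
    fun i => ?_, fun a b pa pb => ?_⟩
  · have := (hv.op x).rank
    omega
  · rw [mn_ground]
    exact ⟨hxE, by simp⟩
  · have := h.valid (Frame.union (hv.op x) hf) subset_union_left (sdiff_subset.trans hv.sub)
      (by omega)
    exact ⟨subset_union_right.trans this.1, subset_union_right.trans this.2⟩
  · have e1 := hv.rk_mn hx ((mn M (I \ {x}) ∅).E \ S)
    rw [mn_ground] at hS
    have e3 := rk_coindep (h.con.coindep (by omega) (hS.trans sdiff_subset) h3)
    have e4 := rk_mono M (show M.E \ S ⊆ (mn M (I \ {x}) ∅).E \ S ∪ I \ {x} by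
      rw [mn_ground]; grind)
    have e5 := rk_le_rank M ((mn M (I \ {x}) ∅).E \ S ∪ I \ {x})
    omega
  · have pa := (mem_mn M hx a).1 ⟨ha, hax⟩
    have e1 := hv.rk_mn hx {x, a}
    rw [show ({x, a} : Set E) ∪ I \ {x} = insert a I by grind, h.flat hv pa.1 pa.2] at e1
    omega
  · obtain ⟨a, pa, e⟩ := hc.surj i
    exact ⟨a, (mem_mn M hx a).2 pa, e⟩
  · have e1 := hv.rk_mn hx {x, a, b}
    rw [show ({x, a, b} : Set E) ∪ I \ {x} = I ∪ {a, b} by grind] at e1
    rw [hc.iff a b ((mem_mn M hx a).1 pa) ((mem_mn M hx b).1 pb)]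
    omega

/-- The incidence data of the row `x`. -/
theorem Cov.rc (h : Cov M C D Vp Vm) (hT : U2 M T) (hv : V25 M Vp I) (hc : Cls M I cl)
    (hx : x ∈ I) :
    RC (fun a => a ∈ M.E ∧ a ∉ I) cl (fun a b c => rk M ({a, b, c} ∪ I \ {x}) ≤ I.ncard + 1)
      (fun a b => rk M ({a, b} ∪ I \ {x}) ≤ I.ncard) (· ∈ Vp) (· ∈ Vm) := by
  have := (h.r3 hv hc hx).rc (hT.minor (hv.op x))
  have e1 : (fun a => a ∈ M.E ∧ a ∉ I) = fun a => a ∈ (mn M (I \ {x}) ∅).E ∧ a ≠ x :=
    funext fun a => propext (mem_mn M hx a).symm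
  have e2 : (fun a b c => rk M ({a, b, c} ∪ I \ {x}) ≤ I.ncard + 1) =
      fun a b c => rk (mn M (I \ {x}) ∅) {a, b, c} ≤ 2 := by
    funext a b c
    have := hv.rk_mn hx {a, b, c}
    exact propext (by omega)
  have e3 : (fun a b => rk M ({a, b} ∪ I \ {x}) ≤ I.ncard) =
      fun a b => rk (mn M (I \ {x}) ∅) {a, b} ≤ 1 := by
    funext a b
    have := hv.rk_mn hx {a, b}
    exact propext (by omega)
  rw [e1, e2, e3]
  exact this

theorem Cov.exists_dual (h : Cov M C D Vp Vm) (hT : U2 M T) (hv : V25 M Vp I) :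
    ∃ J, V25 M✶ Vm J := by
  obtain ⟨cl, hc⟩ := h.exists_cls hT hv
  have h3 := h.three hv
  obtain ⟨x, hx⟩ : I.Nonempty := nonempty_of_ncard_ne_zero (by omega)
  have r := h.r3 hv hc hx
  obtain ⟨a, b, c, d, hd, hg⟩ := (r.rc (hT.minor (hv.op x))).gen
  have hf := Frame.union (hv.op x) (r.gen hd hg)
  have e2 := ncard_sdiff_singleton_add_one hx I.toFinite
  have hv' := h.valid hf subset_union_left (sdiff_subset.trans hv.sub) (by omega)
  refine ⟨_, ⟨_, hf.dual⟩, hv'.2, ?_⟩
  have e1 := hf.card_total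
  have e3 := rk_dual_ground M
  have e4 := hv.rank
  rw [union_empty] at e1
  rw [Matroid.dual_ground]
  omega

theorem Cov.exists_v25 (h : Cov M C D Vp Vm) (hT : U2 M T) :
    (∃ I, V25 M Vp I) ∧ ∃ J, V25 M✶ Vm J := by
  obtain ⟨I, J, hf, h1, h2⟩ := h.ex
  rcases hf.card_left with e | e
  · have hv : V25 M Vp I := ⟨⟨J, hf⟩, h1, e⟩
    exact ⟨⟨I, hv⟩, h.exists_dual hT hv⟩
  · have hv : V25 M✶ Vm J := ⟨⟨I, hf.dual⟩, h2, by
      have e1 := hf.card_total
      have e3 := rk_dual_ground M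
      rw [Matroid.dual_ground]
      omega⟩
    have := h.dual.exists_dual hT.dual hv
    rw [Matroid.dual_dual] at this
    exact ⟨this, J, hv⟩

theorem mem_closure_sdiff (hB : M.Indep B) (hz : z ∈ M.closure B)
    (hX : ∀ x ∈ X, z ∈ M.closure (B \ {x})) : z ∈ M.closure (B \ X) := by
  induction X, X.toFinite using Set.Finite.induction_on with
  | empty => simpa using hz
  | @insert x X _ _ ih =>
    have e : B \ insert x X = (B \ {x}) ∩ (B \ X) := by grind
    rw [e, (hB.subset (union_subset sdiff_subset sdiff_subset)).closure_inter_eq_inter_closure]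
    exact ⟨hX x (mem_insert _ _), ih fun y hy => hX y (mem_insert_of_mem _ hy)⟩

theorem Cov.class_closure (h : Cov M C D Vp Vm) (hv : V25 M Vp I) (hc : Cls M I cl)
    (pa : a ∈ M.E ∧ a ∉ I) (pz : z ∈ M.E ∧ z ∉ I) (e : cl z = cl a) (hX : X ⊆ I)
    (hp : ∀ x ∈ X, rk M ({a, z} ∪ I \ {x}) ≤ I.ncard) : z ∈ M.closure (insert a (I \ X)) := by
  have e1 := h.flat hv pa.1 pa.2
  have hB : M.Indep (insert a I) := by rw [indep_iff_rk, e1, ncard_insert_of_notMem pa.2]
  have e2 : insert a (I \ X) = insert a I \ X := by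
    have : a ∉ X := fun h => pa.2 (hX h)
    grind
  rw [e2]
  refine mem_closure_sdiff hB ?_ fun x hx => ?_
  · rw [mem_closure_iff_rk pz.1]
    have e3 := (hc.iff a z pa pz).1 e.symm
    have e4 := rk_mono M (subset_insert z (insert a I))
    rw [show I ∪ {a, z} = insert z (insert a I) by grind] at e3
    omega
  · rw [mem_closure_iff_rk pz.1]
    have e3 := hp x hx
    have e4 := rk_mono M (subset_insert z (insert a I \ {x}))
    have e5 := rk_indep (hB.subset (sdiff_subset : insert a I \ {x} ⊆ insert a I))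
    have e6 := ncard_sdiff_singleton_add_one (mem_insert_of_mem a (hX hx)) (insert a I).toFinite
    have hax : a ≠ x := fun e => pa.2 (e ▸ hX hx)
    rw [show ({a, z} : Set E) ∪ I \ {x} = insert z (insert a I \ {x}) by grind] at e3
    rw [ncard_insert_of_notMem pa.2] at e6
    omega

/-- The circuit meets at least three classes. -/
theorem Cov.card_circ (h : Cov M C D Vp Vm) (hT : U2 M T) (hv : V25 M Vp I) :
    rk M✶ M.E ≤ C.ncard := by
  by_contra hn
  obtain ⟨cl, hc⟩ := h.exists_cls hT hv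
  have h3 := h.three hv
  have hr := hv.rank
  have hIE := hv.ind.subset_ground
  have hCE := h.circ.subset_ground
  have hCI : ∀ z ∈ C, z ∈ M.E ∧ z ∉ I := fun z hz =>
    ⟨hCE hz, fun e => disjoint_left.1 h.dis hz (h.vp (hv.sub e))⟩
  have e1 : 2 < (M.E \ (I ∪ C)).ncard := by
    have e1 := ncard_sdiff_add_ncard_of_subset (union_subset hIE hCE) M.E.toFinite
    have e2 := ncard_union_le I C
    have e3 := rk_dual_ground M
    omega
  obtain ⟨c, d, e, hc1, hd1, he1, n1, n2, n3⟩ := (two_lt_ncard_iff (toFinite _)).1 e1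
  have pp : ∀ z ∈ M.E \ (I ∪ C), (z ∈ M.E ∧ z ∉ I) ∧ z ∉ Vm := fun z hz =>
    ⟨⟨hz.1, fun e => hz.2 (Or.inl e)⟩, fun e => hz.2 (Or.inr (h.vm e))⟩
  obtain ⟨pc, vc⟩ := pp c hc1
  obtain ⟨pd, vd⟩ := pp d hd1
  obtain ⟨pe, ve⟩ := pp e he1
  obtain ⟨x0, hx0⟩ : I.Nonempty := nonempty_of_ncard_ne_zero (by omega)
  have r0 := h.rc hT hv hc hx0
  obtain ⟨a, b, hd⟩ := r0.ext3 pc pd pe (fun e => n1 (r0.single pd vd pc e))
    (fun e => n2 (r0.single pe ve pc e)) (fun e => n3 (r0.single pe ve pd e))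
  have haC : a ∈ C := h.vm (r0.two_vm hd.swap12 vc vd ve)
  have hbC : b ∈ C := h.vm (r0.two_vm hd vc vd ve)
  have pa := hCI a haC
  have pb := hCI b hbC
  have hab : cl a ≠ cl b := hd.2.1
  set X := {x | x ∈ I ∧ ∀ z, z ∈ M.E ∧ z ∉ I → cl z = cl a → rk M ({a, z} ∪ I \ {x}) ≤ I.ncard}
  have hX : X ⊆ I := fun x hx => hx.1
  have s1 : {z | z ∈ C ∧ cl z = cl a} ⊆ M.closure (insert a (I \ X)) := fun z hz =>
    h.class_closure hv hc pa (hCI z hz.1) hz.2 hX fun x hx => hx.2 z (hCI z hz.1) hz.2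
  have s2 : {z | z ∈ C ∧ cl z = cl b} ⊆ M.closure (insert b (I \ (I \ X))) := fun z hz =>
    h.class_closure hv hc pb (hCI z hz.1) hz.2 sdiff_subset fun x hx =>
      (((h.rc hT hv hc hx.1).two_nv hd vc vd ve).resolve_left fun e => hx.2 ⟨hx.1, e⟩) z
        (hCI z hz.1) hz.2
  rw [sdiff_sdiff_cancel_left hX] at s2
  have sk : rk M (M.closure (insert a (I \ X))) + rk M (M.closure (insert b X)) ≤
      rk M (M.closure (insert a (I \ X)) ∪ M.closure (insert b X)) := by
    have f1 := (rk_insert_le M a (I \ X)).trans (add_le_add_left (rk_le_ncard M _) 1)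
    have f2 := (rk_insert_le M b X).trans (add_le_add_left (rk_le_ncard M _) 1)
    have f3 := ncard_sdiff_add_ncard_of_subset hX I.toFinite
    have f4 := (hc.iff a b pa pb).not.1 hab
    have f5 := rk_mono M (show I ∪ {a, b} ⊆ M.closure (insert a (I \ X)) ∪ M.closure (insert b X) by
      have g1 := M.subset_closure (insert a (I \ X)) (insert_subset pa.1 (sdiff_subset.trans hIE))
      have g2 := M.subset_closure (insert b X) (insert_subset pb.1 (hX.trans hIE))
      refine Subset.trans ?_ (union_subset_union g1 g2)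
      grind)
    rw [rk_closure, rk_closure]
    omega
  have sk' := skew_mono sk s1 s2
  have hU : {z | z ∈ C ∧ cl z = cl a} ∪ {z | z ∈ C ∧ cl z = cl b} = C := by
    refine subset_antisymm (union_subset (fun z hz => hz.1) fun z hz => hz.1) fun z hz => ?_
    rcases hd.cover z with e | e | e | e | e
    · exact Or.inl ⟨hz, e⟩
    · exact Or.inr ⟨hz, e⟩
    · exact (hc1.2 (Or.inr (r0.single pc vc (hCI z hz) e ▸ hz))).elim
    · exact (hd1.2 (Or.inr (r0.single pd vd (hCI z hz) e ▸ hz))).elim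
    · exact (he1.2 (Or.inr (r0.single pe ve (hCI z hz) e ▸ hz))).elim
  have i1 := rk_indep (h.circ.ssubset_indep (X := {z | z ∈ C ∧ cl z = cl a})
    ⟨fun z hz => hz.1, fun hs => hab (hs hbC).2.symm⟩)
  have i2 := rk_indep (h.circ.ssubset_indep (X := {z | z ∈ C ∧ cl z = cl b})
    ⟨fun z hz => hz.1, fun hs => hab (hs haC).2⟩)
  have i3 := ncard_union_le {z | z ∈ C ∧ cl z = cl a} {z | z ∈ C ∧ cl z = cl b}
  have i4 := isCircuit_rk h.circ
  rw [hU] at sk' i3
  omega

/-- The shape of an uncovered pair. -/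
theorem Cov.shape (h : Cov M C D Vp Vm) (hT : U2 M T) :
    M.E \ D = C ∧ C.ncard = rk M M.E ∧ D.ncard = rk M M.E := by
  obtain ⟨⟨I, hv⟩, J, hv'⟩ := h.exists_v25 hT
  have e1 := h.card_circ hT hv
  have e2 := h.dual.card_circ hT.dual hv'
  rw [Matroid.dual_dual, Matroid.dual_ground] at e2
  have e3 := rk_dual_ground M
  have hs : C ⊆ M.E \ D := fun z hz => ⟨h.circ.subset_ground hz, disjoint_left.1 h.dis hz⟩
  have e4 := ncard_sdiff_add_ncard_of_subset h.cocirc.subset_ground M.E.toFinite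
  have e5 := ncard_le_ncard hs
  have e6 : C = M.E \ D := eq_of_subset_of_ncard_le hs (by omega)
  have e7 := isCircuit_rk h.circ
  have e8 := isCocircuit_rk h.cocirc
  rw [← e6] at e8
  exact ⟨e6.symm, by omega, by omega⟩

end Pool.Agent.Lib.MP_10bdcf_co.II
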