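import Pool.Agent.Lib.MP_10bdcf_co.IIE4

/-!
Case II, end game: two singleton classes, and the conclusion.
-/

namespace Pool.Agent.Lib.MP_10bdcf_co.II

variable {E : Type} [DecidableEq E]

theorem chain_card {F P : Finset E} (f : E → Finset E)
    (hn : ∀ x ∈ F, ∀ y ∈ F, f x ⊆ f y ∨ f y ⊆ f x) (h2 : ∀ x ∈ F, 2 ≤ (f x).card)
    (hP : ∀ x ∈ F, (f x).card < P.card)
    (hd : ∀ x ∈ F, ∀ y ∈ F, x ≠ y → f x ⊆ f y → 2 ≤ (f y \ f x).card) :
    2 * F.card + 1 ≤ max P.card 1 := by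
  have key : ∀ x ∈ F, ∀ y ∈ F, x ≠ y → f x ⊆ f y → (f x).card / 2 ≠ (f y).card / 2 := by
    intro x hx y hy n hs
    have := hd x hx y hy n hs
    rw [Finset.card_sdiff_of_subset hs] at this
    omega
  have := Finset.card_le_card_of_injOn (s := F) (t := Finset.Icc 1 ((P.card - 1) / 2))
    (fun x => (f x).card / 2) (fun x hx => by
      have a1 := h2 x hx
      have a2 := hP x hx
      simp only [Finset.coe_Icc, Set.mem_Icc]
      omega) (fun x hx y hy e => by
      by_contra n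
      rcases hn x hx y hy with hs | hs
      · exact key x hx y hy n hs e
      · exact key y hy x hx (Ne.symm n) hs e.symm)
  rw [Nat.card_Icc] at this
  omega

variable {D C : Finset E} {m : E → E → Z2} {Fr : E → E → Prop} {u v p q s : E}

theorem NG.supp (h : NG D C m Fr u v p q s) {x w : E} (hx : x ∈ D) (hw : w ∈ D) (n : x ≠ w)
    {T : Finset E} (hT : ∀ c ∈ C, c ∉ T → m x c = m w c) : 2 ≤ T.card := by
  by_contra n'
  obtain ⟨z, hz, hz'⟩ : ∃ z ∈ C, ∀ c ∈ C, c ≠ z → c ∉ T := by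
    by_cases e : ∃ z ∈ C, z ∈ T
    · obtain ⟨z, hz, hz'⟩ := e
      exact ⟨z, hz, fun c _ n' hc => n' (Finset.card_le_one.1 (by omega) c hc z hz')⟩
    · exact ⟨s, h.hs, fun c hc _ hc' => e ⟨c, hc, hc'⟩⟩
  exact h.toEG0.rows hx hw n hz (k := 0) fun c hc n' => by
    rw [rt, hT c hc (hz' c hc n'), sub_self]

/-- Two singleton classes. -/
theorem NG.step3 (h : NG D C m Fr u v p q s) (h1 : ∀ c ∈ C, m u c = (0, 0) → c = s)
    (h2 : ∀ c ∈ C, m u c = (0, 1) → c = q) : False := by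
  classical
  have uq := h.uq
  have us := h.us
  have hP : ∀ c ∈ C, c ≠ q → c ≠ s → m u c = (1, 0) := fun c hc n1 n2 => by
    rcases h.cov hc with e | e | e
    · exact e
    · exact absurd (h2 c hc e) n1
    · exact absurd (h1 c hc e) n2
  have hqs : q ≠ s := fun e => by rw [e, us] at uq; exact absurd uq (by decide)
  let P := C.filter fun c => m u c = (1, 0)
  have cP : P.card + 2 = C.card := by
    have : P = C \ {q, s} := by
      ext c
      simp only [P, Finset.mem_filter, Finset.mem_sdiff, Finset.mem_insert, Finset.mem_singleton,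
        not_or]
      refine ⟨fun e => ⟨e.1, ?_, ?_⟩, fun e => ⟨e.1, hP c e.1 e.2.1 e.2.2⟩⟩
      · rintro rfl; rw [uq] at e; exact absurd e.2 (by decide)
      · rintro rfl; rw [us] at e; exact absurd e.2 (by decide)
    have hs : ({q, s} : Finset E) ⊆ C := by simp [Finset.insert_subset_iff, h.hq, h.hs]
    have := Finset.card_le_card hs
    rw [‹P = _›, Finset.card_sdiff_of_subset hs, Finset.card_pair hqs] at *
    omega
  have c5 := h.cardD
  have c6 := h.cardC
  have ht : ∀ x, Oth D u v x → U1 C m u x ∨ V1 C m u x := by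
    intro x ox
    rcases h.types h1 ox with t | t | t | t | t
    · exact Or.inl t
    · exact Or.inr t
    · refine (h.toEG0.rows ox.1 h.hu ox.2.1 h.hq (k := 0) fun c hc n => ?_).elim
      rw [rt, (t c hc).1.resolve_left fun e => n (h2 c hc e), sub_self]
    · refine (h.toEG0.rows ox.1 h.hv ox.2.2 h.hq (k := (0, 0)) fun c hc n => ?_).elim
      rw [h.rtv x hc, (t c hc).1.resolve_left fun e => n (h2 c hc e)]
    · obtain ⟨-, -, -, ⟨a, ha, pa, xa⟩, ⟨b, hb, pb, xb⟩⟩ := t
      rw [h2 a ha pa] at xa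
      rw [h2 b hb pb, xa] at xb
      exact absurd xb (by decide)
  have nw : NoW D C m u v := fun x ox => by have := ht x ox; tauto
  have vU : ∀ x, Oth D u v x → U1 C m u x → Var C m u x := by
    intro x ox t
    by_contra n
    have hc : ∀ c ∈ C, m u c = (1, 0) → m x c = m x p := fun c hc pc => by
      by_contra n'
      exact n ⟨c, hc, p, h.hp, pc, h.up, n'⟩
    have xq := t.atq h
    have xs := h.zs x ox.1
    rcases (t p h.hp).2 with e | e | e
    · refine h.toEG0.rows ox.1 h.hu ox.2.1 h.hq (k := 0) fun c hc' _ => ?_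
      by_cases pc : m u c = (1, 0)
      · rw [rt, hc c hc' pc, e, pc, sub_self]
      · rw [rt, t.const hc' pc, sub_self]
    · refine h.toEG0.rows ox.1 h.hv ox.2.2 h.hs (k := (0, 1)) fun c hc' n' => ?_
      rw [h.rtv x hc']
      by_cases e' : c = q
      · rw [e', xq]
      · rw [hc c hc' (hP c hc' e' n'), e]
    · refine h.toEG0.rows ox.1 h.hv ox.2.2 h.hq (k := (0, 0)) fun c hc' n' => ?_
      rw [h.rtv x hc']
      by_cases e' : c = s
      · rw [e', xs]
      · rw [hc c hc' (hP c hc' n' e'), e]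
  have vV : ∀ x, Oth D u v x → V1 C m u x → Var C m u x := by
    intro x ox t
    by_contra n
    have hc : ∀ c ∈ C, m u c = (1, 0) → m x c = m x p := fun c hc pc => by
      by_contra n'
      exact n ⟨c, hc, p, h.hp, pc, h.up, n'⟩
    have xq := t.atq h
    have xs := h.zs x ox.1
    rcases (t p h.hp).2 with e | e | e
    · refine h.toEG0.rows ox.1 h.hv ox.2.2 h.hq (k := (0, 0)) fun c hc' _ => ?_
      rw [h.rtv x hc']
      by_cases pc : m u c = (1, 0)
      · rw [hc c hc' pc, e]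
      · rw [t.const hc' pc]
    · refine h.toEG0.rows ox.1 h.hu ox.2.1 h.hs (k := (0, -1)) fun c hc' n' => ?_
      by_cases e' : c = q
      · rw [rt, e', xq, uq]; decide
      · rw [rt, hc c hc' (hP c hc' e' n'), e, hP c hc' e' n']; decide
    · refine h.toEG0.rows ox.1 h.hu ox.2.1 h.hq (k := 0) fun c hc' n' => ?_
      by_cases e' : c = s
      · rw [rt, e', xs, us, sub_self]
      · rw [rt, hc c hc' (hP c hc' n' e'), e, hP c hc' n' e', sub_self]
  have noC : ∀ x y, Oth D u v x → Oth D u v y → U1 C m u x → V1 C m u y → ¬ Cc C m u x y := by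
    intro x y ox oy tx ty hcc
    have := Finset.card_le_card_of_injOn (s := P) (t := ({(0, 1), (0, 0)} : Finset Z2)) (m x)
      (fun c hc => by
        have hc := Finset.mem_filter.1 hc
        rcases hcc c hc.1 hc.2 with e | e <;> simp [e.1]) (fun c hc d hd e => by
        have hc := Finset.mem_filter.1 hc
        have hd := Finset.mem_filter.1 hd
        exact h.ccard nw ox oy tx ty (vU x ox tx) hcc hc.1 hd.1 hc.2 hd.2 e)
    rw [Finset.card_pair (by decide)] at this
    omega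
  have pb : ∀ x y, Oth D u v x → Oth D u v y → U1 C m u x → V1 C m u y → ∀ c ∈ C,
      m u c = (1, 0) → m x c ≠ (1, 0) → m y c ≠ (0, 0) → B1 C m u x y ∨ B2 C m u x y := by
    intro x y ox oy tx ty c hc pc n1 n2
    have a1 := h.pairBC ox oy tx ty (Or.inl (vU x ox tx)) hc pc n1 n2
    have a2 := noC x y ox oy tx ty
    tauto
  obtain ⟨x0, y0, -, ox0, oy0, tx0, ty0, -⟩ := h.meet nw (show 2 ≤ P.card by omega)
  have zU : ∀ x, Oth D u v x → U1 C m u x → ∃ c ∈ C, m u c = (1, 0) ∧ m x c = (1, 0) := by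
    intro x ox tx
    by_contra n
    obtain ⟨e, he, pe, ne⟩ := (vV y0 oy0 ty0).ne (0, 0)
    obtain ⟨c, hc, d, hd, pc, pd, n'⟩ := vU x ox tx
    have n1 : m x c ≠ (1, 0) := fun e => n ⟨c, hc, pc, e⟩
    have n2 : m x d ≠ (1, 0) := fun e => n ⟨d, hd, pd, e⟩
    rcases pb x y0 ox oy0 tx ty0 e he pe (fun e' => n ⟨e, he, pe, e'⟩) ne with b | b <;>
    · have b1 := b c hc pc
      have b2 := b d hd pd
      simp only [z2, ne_eq] at b1 b2 n1 n2 n'; omega
  have zV : ∀ x, Oth D u v x → V1 C m u x → ∃ c ∈ C, m u c = (1, 0) ∧ m x c = (0, 0) := by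
    intro x ox tx
    by_contra n
    obtain ⟨e, he, pe, ne⟩ := (vU x0 ox0 tx0).ne (1, 0)
    obtain ⟨c, hc, d, hd, pc, pd, n'⟩ := vV x ox tx
    have n1 : m x c ≠ (0, 0) := fun e => n ⟨c, hc, pc, e⟩
    have n2 : m x d ≠ (0, 0) := fun e => n ⟨d, hd, pd, e⟩
    rcases pb x0 x ox0 ox tx0 tx e he pe ne (fun e' => n ⟨e, he, pe, e'⟩) with b | b <;>
    · have b1 := b c hc pc
      have b2 := b d hd pd
      simp only [z2, ne_eq] at b1 b2 n1 n2 n'; omega
  let FU := D.filter fun x => Oth D u v x ∧ U1 C m u x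
  let FV := D.filter fun x => Oth D u v x ∧ V1 C m u x
  let sU := fun x => P.filter fun c => m x c ≠ (1, 0)
  let sV := fun x => P.filter fun c => m x c ≠ (0, 0)
  have msU : ∀ x c, c ∈ sU x ↔ c ∈ C ∧ m u c = (1, 0) ∧ m x c ≠ (1, 0) := fun x c => by
    simp only [sU, P, Finset.mem_filter, and_assoc]
  have msV : ∀ x c, c ∈ sV x ↔ c ∈ C ∧ m u c = (1, 0) ∧ m x c ≠ (0, 0) := fun x c => by
    simp only [sV, P, Finset.mem_filter, and_assoc]
  have nU : ∀ x ∈ FU, ∀ y ∈ FU, sU x ⊆ sU y ∨ sU y ⊆ sU x := by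
    intro x hx y hy
    obtain ⟨-, ox, tx⟩ := Finset.mem_filter.1 hx
    obtain ⟨-, oy, ty⟩ := Finset.mem_filter.1 hy
    by_contra n
    rw [not_or, Finset.not_subset, Finset.not_subset] at n
    obtain ⟨⟨d, hd, hd'⟩, c, hc, hc'⟩ := n
    rw [msU] at hd hd' hc hc'
    exact hd.2.2 (h.nestU ox oy tx ty hc.1 hd.1 (by tauto) hc.2.2 (by tauto))
  have nV : ∀ x ∈ FV, ∀ y ∈ FV, sV x ⊆ sV y ∨ sV y ⊆ sV x := by
    intro x hx y hy
    obtain ⟨-, ox, tx⟩ := Finset.mem_filter.1 hx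
    obtain ⟨-, oy, ty⟩ := Finset.mem_filter.1 hy
    by_contra n
    rw [not_or, Finset.not_subset, Finset.not_subset] at n
    obtain ⟨⟨d, hd, hd'⟩, c, hc, hc'⟩ := n
    rw [msV] at hd hd' hc hc'
    exact hd.2.2 (h.nestV ox oy tx ty hc.1 hd.1 hc.2.1 hd.2.1 (by tauto) hc.2.2 (by tauto))
  obtain ⟨xT, hxT, xmax⟩ := FU.exists_max_image (fun x => (sU x).card)
    ⟨x0, Finset.mem_filter.2 ⟨ox0.1, ox0, tx0⟩⟩
  obtain ⟨yT, hyT, ymax⟩ := FV.exists_max_image (fun x => (sV x).card)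
    ⟨y0, Finset.mem_filter.2 ⟨oy0.1, oy0, ty0⟩⟩
  have xtop : ∀ x ∈ FU, sU x ⊆ sU xT := fun x hx =>
    (nU x hx xT hxT).elim id fun e => (Finset.eq_of_subset_of_card_le e (xmax x hx)).ge
  have ytop : ∀ x ∈ FV, sV x ⊆ sV yT := fun x hx =>
    (nV x hx yT hyT).elim id fun e => (Finset.eq_of_subset_of_card_le e (ymax x hx)).ge
  obtain ⟨-, oxT, txT⟩ := Finset.mem_filter.1 hxT
  obtain ⟨-, oyT, tyT⟩ := Finset.mem_filter.1 hyT
  have mU : ∀ x, Oth D u v x → U1 C m u x → B1 C m u x yT ∨ B2 C m u x yT := by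
    intro x ox tx
    by_contra n
    let T := C.filter fun c => m u c = (1, 0) ∧ m yT c = (0, 0)
    have hT : ∀ y, Oth D u v y → U1 C m u y → ¬ (B1 C m u y yT ∨ B2 C m u y yT) →
        ∀ c ∈ C, c ∉ T → m y c = m u c := by
      intro y oy ty n c hc hcT
      by_cases pc : m u c = (1, 0)
      · rw [pc]
        by_contra n'
        exact n (pb y yT oy oyT ty tyT c hc pc n'
          fun e => hcT (Finset.mem_filter.2 ⟨hc, pc, e⟩))
      · exact ty.const hc pc
    refine h.vary (T := T) (Finset.filter_subset _ _) (by simp [T, us]) ?_ (w := u) ?_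
      (h.suppU ox (hT x ox tx n))
    · intro c hc d hd
      rw [(Finset.mem_filter.1 hc).2.1, (Finset.mem_filter.1 hd).2.1]
    · intro y oy c hc d hd n'
      obtain ⟨hc, pc, yc⟩ := Finset.mem_filter.1 hc
      obtain ⟨hd, pd, yd⟩ := Finset.mem_filter.1 hd
      rcases ht y oy with t | t
      · refine hT y oy t ?_
        rintro (b | b) <;>
        · have b1 := b c hc pc
          have b2 := b d hd pd
          simp only [z2, ne_eq] at b1 b2 yc yd n'; omega
      · have a := ytop y (Finset.mem_filter.2 ⟨oy.1, oy, t⟩)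
        have e1 : m y c = (0, 0) := by
          by_contra e
          exact ((msV _ _).1 (a ((msV _ _).2 ⟨hc, pc, e⟩))).2.2 yc
        have e2 : m y d = (0, 0) := by
          by_contra e
          exact ((msV _ _).1 (a ((msV _ _).2 ⟨hd, pd, e⟩))).2.2 yd
        exact absurd (e1.trans e2.symm) n'
  have mV : ∀ x, Oth D u v x → V1 C m u x → B1 C m u xT x ∨ B2 C m u xT x := by
    intro x ox tx
    by_contra n
    let T := C.filter fun c => m u c = (1, 0) ∧ m xT c = (1, 0)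
    have hT : ∀ y, Oth D u v y → V1 C m u y → ¬ (B1 C m u xT y ∨ B2 C m u xT y) →
        ∀ c ∈ C, c ∉ T → m y c = m v c := by
      intro y oy ty n c hc hcT
      rw [h.zv c hc]
      by_cases pc : m u c = (1, 0)
      · by_contra n'
        exact n (pb xT y oxT oy txT ty c hc pc
          (fun e => hcT (Finset.mem_filter.2 ⟨hc, pc, e⟩)) n')
      · exact ty.const hc pc
    refine h.vary (T := T) (Finset.filter_subset _ _) (by simp [T, us]) ?_ (w := v) ?_
      (h.supp ox.1 h.hv ox.2.2 (hT x ox tx n))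
    · intro c hc d hd
      rw [(Finset.mem_filter.1 hc).2.1, (Finset.mem_filter.1 hd).2.1]
    · intro y oy c hc d hd n'
      obtain ⟨hc, pc, yc⟩ := Finset.mem_filter.1 hc
      obtain ⟨hd, pd, yd⟩ := Finset.mem_filter.1 hd
      rcases ht y oy with t | t
      · have a := xtop y (Finset.mem_filter.2 ⟨oy.1, oy, t⟩)
        have e1 : m y c = (1, 0) := by
          by_contra e
          exact ((msU _ _).1 (a ((msU _ _).2 ⟨hc, pc, e⟩))).2.2 yc
        have e2 : m y d = (1, 0) := by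
          by_contra e
          exact ((msU _ _).1 (a ((msU _ _).2 ⟨hd, pd, e⟩))).2.2 yd
        exact absurd (e1.trans e2.symm) n'
      · refine hT y oy t ?_
        rintro (b | b) <;>
        · have b1 := b c hc pc
          have b2 := b d hd pd
          simp only [z2, ne_eq] at b1 b2 yc yd n'; omega
  obtain ⟨g1, hg1, pg1, ng1⟩ := (vV yT oyT tyT).ne (0, 0)
  obtain ⟨g2, hg2, pg2, ng2⟩ := (vU xT oxT txT).ne (1, 0)
  have cU := chain_card (F := FU) (P := P) sU nU (fun x hx => by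
      obtain ⟨-, ox, tx⟩ := Finset.mem_filter.1 hx
      refine h.suppU ox fun c hc n => ?_
      by_cases pc : m u c = (1, 0)
      · rw [msU] at n; rw [pc]; tauto
      · exact tx.const hc pc) (fun x hx => by
      obtain ⟨-, ox, tx⟩ := Finset.mem_filter.1 hx
      obtain ⟨c, hc, pc, xc⟩ := zU x ox tx
      exact Finset.card_lt_card (Finset.filter_ssubset.2
        ⟨c, Finset.mem_filter.2 ⟨hc, pc⟩, by simp [xc]⟩)) (fun x hx y hy n hs => by
      obtain ⟨-, ox, tx⟩ := Finset.mem_filter.1 hx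
      obtain ⟨-, oy, ty⟩ := Finset.mem_filter.1 hy
      refine h.supp ox.1 oy.1 n fun c hc n' => ?_
      by_cases pc : m u c = (1, 0)
      · have a1 : m x c ≠ (1, 0) → m y c ≠ (1, 0) := fun e =>
          ((msU _ _).1 (hs ((msU _ _).2 ⟨hc, pc, e⟩))).2.2
        have a2 : m y c ≠ (1, 0) → m x c ≠ (1, 0) := fun e e' => n' (Finset.mem_sdiff.2
          ⟨(msU _ _).2 ⟨hc, pc, e⟩, fun e'' => ((msU _ _).1 e'').2.2 e'⟩)
        rcases mU x ox tx with b | b <;> rcases mU y oy ty with b' | b' <;>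
        · have b1 := b c hc pc
          have b2 := b' c hc pc
          have b3 := b g1 hg1 pg1
          have b4 := b' g1 hg1 pg1
          simp only [z2, ne_eq] at a1 a2 b1 b2 b3 b4 ng1 ⊢; omega
      · rw [tx.const hc pc, ty.const hc pc])
  have cV := chain_card (F := FV) (P := P) sV nV (fun x hx => by
      obtain ⟨-, ox, tx⟩ := Finset.mem_filter.1 hx
      refine h.supp ox.1 h.hv ox.2.2 fun c hc n => ?_
      rw [h.zv c hc]
      by_cases pc : m u c = (1, 0)
      · rw [msV] at n; tauto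
      · exact tx.const hc pc) (fun x hx => by
      obtain ⟨-, ox, tx⟩ := Finset.mem_filter.1 hx
      obtain ⟨c, hc, pc, xc⟩ := zV x ox tx
      exact Finset.card_lt_card (Finset.filter_ssubset.2
        ⟨c, Finset.mem_filter.2 ⟨hc, pc⟩, by simp [xc]⟩)) (fun x hx y hy n hs => by
      obtain ⟨-, ox, tx⟩ := Finset.mem_filter.1 hx
      obtain ⟨-, oy, ty⟩ := Finset.mem_filter.1 hy
      refine h.supp ox.1 oy.1 n fun c hc n' => ?_
      by_cases pc : m u c = (1, 0)
      · have a1 : m x c ≠ (0, 0) → m y c ≠ (0, 0) := fun e =>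
          ((msV _ _).1 (hs ((msV _ _).2 ⟨hc, pc, e⟩))).2.2
        have a2 : m y c ≠ (0, 0) → m x c ≠ (0, 0) := fun e e' => n' (Finset.mem_sdiff.2
          ⟨(msV _ _).2 ⟨hc, pc, e⟩, fun e'' => ((msV _ _).1 e'').2.2 e'⟩)
        rcases mV x ox tx with b | b <;> rcases mV y oy ty with b' | b' <;>
        · have b1 := b c hc pc
          have b2 := b' c hc pc
          have b3 := b g2 hg2 pg2
          have b4 := b' g2 hg2 pg2
          simp only [z2, ne_eq] at a1 a2 b1 b2 b3 b4 ng2 ⊢; omega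
      · rw [tx.const hc pc, ty.const hc pc])
  have hsub : D ⊆ insert u (insert v (FU ∪ FV)) := by
    intro x hx
    by_cases e1 : x = u
    · simp [e1]
    by_cases e2 : x = v
    · simp [e2]
    have ox : Oth D u v x := ⟨hx, e1, e2⟩
    refine Finset.mem_insert_of_mem (Finset.mem_insert_of_mem (Finset.mem_union.2 ?_))
    rcases ht x ox with t | t
    · exact Or.inl (Finset.mem_filter.2 ⟨hx, ox, t⟩)
    · exact Or.inr (Finset.mem_filter.2 ⟨hx, ox, t⟩)
  have a1 := Finset.card_le_card hsub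
  have a2 := Finset.card_insert_le u (insert v (FU ∪ FV))
  have a3 := Finset.card_insert_le v (FU ∪ FV)
  have a4 := Finset.card_union_le FU FV
  omega

variable {Γ : Type} [AddCommGroup Γ] {a : E → E → Γ}

theorem EG.ng (h : EG D C a Fr) (hf : Fr u v) (h3 : Three a C u v p q s) :
    ∃ m : E → E → Z2, NG D C m Fr u v p q s ∧
      (∀ x y, Fr x y → ∀ c ∈ C, ∀ d ∈ C, rt a x y c = rt a x y d ↔ rt m x y c = rt m x y d) ∧
      ∀ x y, Fr x y → ∀ c ∈ C, cs a C x y c = cs m C x y c := by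
  classical
  obtain ⟨m, h0, a1, a2, a3, a4, a5⟩ := h.coord hf h3
  have key : ∀ x y, Fr x y → ∀ c ∈ C, ∀ d ∈ C,
      rt a x y c = rt a x y d ↔ rt m x y c = rt m x y d := fun x y f =>
    a5 x (h.mem x y f).1 y (h.mem x y f).2.1
  refine ⟨m, ⟨h0, hf, h3.1, h3.2.1, h3.2.2.1, a1, a2, a3, a4⟩, key, fun x y f c hc => ?_⟩
  unfold cs
  congr 1
  ext d
  simp only [Finset.mem_filter]
  exact and_congr_right fun hd => key x y f d hd c hc

theorem EG0.third (h : EG0 D C a Fr) (hf : Fr u v) (c d : E) :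
    ∃ e ∈ C, rt a u v c ≠ rt a u v e ∧ rt a u v d ≠ rt a u v e := by
  obtain ⟨p, q, s, ⟨hp, hq, hs, n1, n2, n3⟩, hcov⟩ := h.three u v hf
  by_contra hh
  have e1 : ¬ (rt a u v c ≠ rt a u v p ∧ rt a u v d ≠ rt a u v p) := fun e => hh ⟨p, hp, e⟩
  have e2 : ¬ (rt a u v c ≠ rt a u v q ∧ rt a u v d ≠ rt a u v q) := fun e => hh ⟨q, hq, e⟩
  have e3 : ¬ (rt a u v c ≠ rt a u v s ∧ rt a u v d ≠ rt a u v s) := fun e => hh ⟨s, hs, e⟩
  grind

theorem EG0.second (h : EG0 D C a Fr) (hf : Fr u v) (c : E) :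
    ∃ d ∈ C, rt a u v c ≠ rt a u v d := by
  obtain ⟨p, q, s, ⟨hp, hq, hs, n1, n2, n3⟩, hcov⟩ := h.three u v hf
  by_cases e : rt a u v c = rt a u v p
  · exact ⟨q, hq, fun e' => n1 (e.symm.trans e')⟩
  · exact ⟨p, hp, e⟩

/-- The end game of case II: no such matrix exists. -/
theorem EG.false (h : EG D C a Fr) : False := by
  classical
  have e1 : ∀ n, ∀ u v p, Fr u v → p ∈ C → cs a C u v p = n →
      ∃ x y c, Fr x y ∧ c ∈ C ∧ cs a C x y c = 1 := by
    intro n
    induction n using Nat.strong_induction_on with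
    | _ n ih =>
      intro u v p hf hp e
      by_cases h2 : 2 ≤ cs a C u v p
      · obtain ⟨q, hq, n1⟩ := h.toEG0.second hf p
        obtain ⟨s, hs, n2, n3⟩ := h.toEG0.third hf p q
        obtain ⟨m, g, -, hcs⟩ := h.ng hf ⟨hp, hq, hs, n1, n2, n3⟩
        obtain ⟨x, y, c, f, hc, lt⟩ := g.step1 (by rwa [← hcs u v hf p hp])
        rw [← hcs x y f c hc, ← hcs u v hf p hp, e] at lt
        exact ih _ lt x y c f hc rfl
      · have := cs_pos (a := a) (x := u) (y := v) hp
        exact ⟨u, v, p, hf, hp, by omega⟩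
  obtain ⟨u0, v0, f0⟩ := h.ex
  obtain ⟨p0, -, -, ⟨hp0, -⟩, -⟩ := h.three u0 v0 f0
  obtain ⟨x0, y0, c0, f1, hc0, one⟩ := e1 _ u0 v0 p0 f0 hp0 rfl
  obtain ⟨d0, hd0, n0⟩ := h.toEG0.second f1 c0
  have hex : ∃ n, ∃ x y c d, Fr x y ∧ c ∈ C ∧ d ∈ C ∧ cs a C x y c = 1 ∧
      rt a x y d ≠ rt a x y c ∧ cs a C x y d = n := ⟨_, x0, y0, c0, d0, f1, hc0, hd0, one, n0.symm, rfl⟩
  obtain ⟨u, v, s, p, hf, hs, hp, one, n1, e⟩ := Nat.find_spec hex
  obtain ⟨q, hq, n2, n3⟩ := h.toEG0.third hf p s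
  by_cases h2 : 2 ≤ cs a C u v p
  · obtain ⟨m, g, key, hcs⟩ := h.ng hf ⟨hp, hq, hs, n2, n1, n3.symm⟩
    refine g.step2 (fun c hc e => (cs_one hs).1 one c hc ?_) ?_ (by rwa [← hcs u v hf p hp])
    · rw [key u v hf c hc s hs, g.rtv u hc, g.rtv u hs, e, g.us]
    · intro x y c d f hc hd o n
      rw [← hcs x y f d hd, ← hcs u v hf p hp, e]
      exact Nat.find_min' hex ⟨x, y, c, d, f, hc, hd, by rwa [hcs x y f c hc],
        fun e => n ((key x y f d hd c hc).1 e), rfl⟩
  · have := cs_pos (a := a) (x := u) (y := v) hp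
    obtain ⟨m, g, key, hcs⟩ := h.ng hf ⟨hq, hp, hs, n2.symm, n3.symm, n1⟩
    refine g.step3 (fun c hc e => (cs_one hs).1 one c hc ?_)
      (fun c hc e => (cs_one hp).1 (show cs a C u v p = 1 by omega) c hc ?_)
    · rw [key u v hf c hc s hs, g.rtv u hc, g.rtv u hs, e, g.us]
    · rw [key u v hf c hc p hp, g.rtv u hc, g.rtv u hp, e, g.uq]

end Pool.Agent.Lib.MP_10bdcf_co.II
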