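import Mathlib

/-!
Two facts on finite graphs: vertices whose removal keeps a component connected.
-/

namespace Pool.Agent.Lib.MP_10bdcf_co.G

open Relation

variable {V : Type}

/-- Steps of `r` between vertices outside `D`. -/
def Av (r : V → V → Prop) (D : Set V) (a b : V) : Prop := r a b ∧ a ∉ D ∧ b ∉ D

/-- Vertices reached from `a` by a walk of given length. -/
def lgWalk (r : V → V → Prop) (a : V) : ℕ → V → Prop
  | 0, u => u = a
  | n + 1, u => ∃ p, lgWalk r a n p ∧ r p u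

theorem lg_walk_iff (r : V → V → Prop) (a u : V) : ReflTransGen r a u ↔ ∃ n, lgWalk r a n u := by
  constructor
  · intro h
    induction h with
    | refl => exact ⟨0, rfl⟩
    | tail _ h ih =>
      obtain ⟨n, hn⟩ := ih
      exact ⟨n + 1, _, hn, h⟩
  · rintro ⟨n, hn⟩
    induction n generalizing u with
    | zero => exact hn ▸ ReflTransGen.refl
    | succ n ih =>
      obtain ⟨p, hp, h⟩ := hn
      exact (ih p hp).tail h

/-- A breadth-first tree: depth and parent. -/
theorem lg_bfs (r : V → V → Prop) (a : V) : ∃ (d : V → ℕ) (par : V → V), d a = 0 ∧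
    (∀ u, ReflTransGen r a u → u ≠ a →
      ReflTransGen r a (par u) ∧ r (par u) u ∧ d (par u) + 1 = d u) ∧
    ∀ u, r a u → d u ≤ 1 := by
  classical
  let d : V → ℕ := fun u => sInf {n | lgWalk r a n u}
  have hd : ∀ u, ReflTransGen r a u → lgWalk r a (d u) u := fun u h =>
    Nat.sInf_mem (s := {n | lgWalk r a n u}) ((lg_walk_iff r a u).1 h)
  have hle : ∀ u n, lgWalk r a n u → d u ≤ n := fun u n h => Nat.sInf_le h
  have key : ∀ u, ∃ p, ReflTransGen r a u → u ≠ a →
      ReflTransGen r a p ∧ r p u ∧ d p + 1 = d u := by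
    intro u
    by_cases h : ReflTransGen r a u ∧ u ≠ a
    · have h1 := hd u h.1
      cases hn : d u with
      | zero =>
        rw [hn] at h1
        exact absurd h1 h.2
      | succ n =>
        rw [hn] at h1
        obtain ⟨p, hp, hr⟩ := h1
        have hp' : ReflTransGen r a p := (lg_walk_iff r a p).2 ⟨n, hp⟩
        have h2 := hle p n hp
        have h3 := hle u (d p + 1) ⟨p, hd p hp', hr⟩
        exact ⟨p, fun _ _ => ⟨hp', hr, by omega⟩⟩
    · exact ⟨a, fun h1 h2 => absurd ⟨h1, h2⟩ h⟩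
  choose par hpar using key
  exact ⟨d, par, Nat.le_zero.1 (hle a 0 rfl), hpar, fun u h => hle u 1 ⟨a, rfl, h⟩⟩

theorem lg_path {r : V → V → Prop} {a : V} {d : V → ℕ} {par : V → V}
    (hp : ∀ u, ReflTransGen r a u → u ≠ a →
      ReflTransGen r a (par u) ∧ r (par u) u ∧ d (par u) + 1 = d u) {D : Set V}
    (hD : ∀ u, ReflTransGen r a u → u ≠ a → par u ∉ D) (u : V) (hu : u ∉ D)
    (h : ReflTransGen r a u) : ReflTransGen (Av r D) a u := by
  induction hn : d u using Nat.strong_induction_on generalizing u with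
  | _ n ih =>
    by_cases hua : u = a
    · exact hua ▸ ReflTransGen.refl
    · obtain ⟨h1, h2, h3⟩ := hp u h hua
      exact (ih (d (par u)) (by omega) (par u) (hD u h hua) h1 rfl).tail ⟨h2, hD u h hua, hu⟩

/-- A vertex all of whose neighbours stay connected after its removal. -/
theorem exists_noncut [Finite V] (r : V → V → Prop) (hs : ∀ a b, r a b → r b a)
    (hi : ∀ a, ¬ r a a) (a : V) : ∃ v, ReflTransGen r a v ∧
      ∀ g h, r v g → r v h → ReflTransGen (Av r {v}) g h := by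
  obtain ⟨d, par, h0, hp, -⟩ := lg_bfs r a
  obtain ⟨v, hv, hmax⟩ := Set.exists_max_image {u | ReflTransGen r a u} d (Set.toFinite _)
    ⟨a, ReflTransGen.refl⟩
  have hD : ∀ u, ReflTransGen r a u → u ≠ a → par u ∉ ({v} : Set V) := by
    intro u hu hua h
    have h1 := (hp u hu hua).2.2
    have h2 := hmax u hu
    rw [Set.mem_singleton_iff.1 h] at h1
    omega
  have key : ∀ g, r v g → ReflTransGen (Av r {v}) a g := fun g hg =>
    lg_path hp hD g (fun h => hi v (by rwa [Set.mem_singleton_iff.1 h] at hg))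
      (ReflTransGen.tail hv hg)
  refine ⟨v, hv, fun g h hg hh => ReflTransGen.trans ?_ (key h hh)⟩
  exact ReflTransGen.mono (fun x y hxy => ⟨hs _ _ hxy.1, hxy.2.2, hxy.2.1⟩) _ _ (key g hg).swap

/-- Three leaves of a breadth-first tree rooted at a vertex with three neighbours. -/
theorem exists_three_leaves [Finite V] (r : V → V → Prop) (hs : ∀ a b, r a b → r b a)
    (hi : ∀ a, ¬ r a a) {v a b c : V} (ha : r v a) (hb : r v b) (hc : r v c) (hab : a ≠ b)
    (hac : a ≠ c) (hbc : b ≠ c) : ∃ u1 u2 u3, u1 ≠ u2 ∧ u1 ≠ u3 ∧ u2 ≠ u3 ∧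
      ReflTransGen r v u1 ∧ ReflTransGen r v u2 ∧ ReflTransGen r v u3 ∧
      u1 ≠ v ∧ u2 ≠ v ∧ u3 ≠ v ∧
      ∀ D ⊆ ({u1, u2, u3} : Set V), ∀ u, u ∉ D → ReflTransGen r v u →
        ReflTransGen (Av r D) v u := by
  have _ := hs
  obtain ⟨d, par, h0, hp, h1⟩ := lg_bfs r v
  have leaf : ∀ x, r v x → ∃ u, ReflTransGen r v u ∧ u ≠ v ∧ par^[d u - 1] u = x ∧
      ∀ w, ReflTransGen r v w → w ≠ v → par w ≠ u := by
    intro x hx
    have hxv : x ≠ v := fun h => hi v (h ▸ hx)
    obtain ⟨u, ⟨hu, huv, hux⟩, hmax⟩ := Set.exists_max_image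
      {u | ReflTransGen r v u ∧ u ≠ v ∧ par^[d u - 1] u = x} d (Set.toFinite _)
      ⟨x, ReflTransGen.single hx, hxv, by rw [Nat.sub_eq_zero_of_le (h1 x hx)]; rfl⟩
    refine ⟨u, hu, huv, hux, fun w hw hwv h => ?_⟩
    have e1 := (hp w hw hwv).2.2
    have e2 := (hp u hu huv).2.2
    rw [h] at e1
    have e3 : d w - 1 = (d u - 1) + 1 := by omega
    have := hmax w ⟨hw, hwv, by rw [e3, Function.iterate_succ_apply, h, hux]⟩
    omega
  obtain ⟨u1, r1, n1, b1, l1⟩ := leaf a ha
  obtain ⟨u2, r2, n2, b2, l2⟩ := leaf b hb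
  obtain ⟨u3, r3, n3, b3, l3⟩ := leaf c hc
  refine ⟨u1, u2, u3, ?_, ?_, ?_, r1, r2, r3, n1, n2, n3, fun D hD u hu h => ?_⟩
  · rintro rfl
    exact hab (b1.symm.trans b2)
  · rintro rfl
    exact hac (b1.symm.trans b3)
  · rintro rfl
    exact hbc (b2.symm.trans b3)
  · refine lg_path hp (fun w hw hwv hm => ?_) u hu h
    rcases hD hm with e | e | e
    exacts [l1 w hw hwv e, l2 w hw hwv e, l3 w hw hwv e]

end Pool.Agent.Lib.MP_10bdcf_co.G
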