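import Pool.Agent.Lib.MP_10bdcf_co.LDef
import Pool.Agent.Lib.MP_10bdcf_co.LG

/-!
Distances in fundamental graphs, separators, and how pivots shorten paths.
-/

set_option linter.unusedSectionVars false

namespace Pool.Agent.Lib.MP_10bdcf_co.G

open scoped Matroid
open Matrix Set Relation

variable {E : Type} {N : Matroid E} {X : Set E}

theorem Joined.refl (N : Matroid E) (a : E) : Joined N a a := fun _ _ => Iff.rfl

theorem Joined.symm {a b : E} (h : Joined N a b) : Joined N b a := fun S hS => (h S hS).symm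

theorem Joined.trans {a b c : E} (h : Joined N a b) (h' : Joined N b c) : Joined N a c :=
  fun S hS => (h S hS).trans (h' S hS)

theorem Near.mono {h x : E} {j k : ℕ} (hn : Near N X h j x) (hjk : j ≤ k) : Near N X h k x := by
  induction hjk with
  | refl => exact hn
  | step _ ih => exact Or.inl ih

theorem Near.mem {h x : E} {j : ℕ} (hn : Near N X h j x) (hh : h ∈ X) : x ∈ X := by
  induction j with
  | zero => exact (show x = h from hn) ▸ hh
  | succ j ih => exact hn.elim ih fun ⟨_, _, _, h1, _⟩ => h1.1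

theorem la_step {h x x' y : E} {j : ℕ} (hn : Near N X h j x') (h1 : Adj N X x y)
    (h2 : Adj N X x' y) : Near N X h (j + 1) x := Or.inr ⟨y, x', hn, h1, h2⟩

theorem la_zero (N : Matroid E) (X : Set E) (h : E) (j : ℕ) : Near N X h j h :=
  Near.mono (j := 0) rfl j.zero_le

theorem la_mem_of_sep [Finite E] (hX : N.IsBase X) {b e : E} (h : Adj N X b e) {S : Set E}
    (hS : Sep N S) (hb : b ∈ S) : e ∈ S := by
  by_contra he
  refine (ncard_lt_ncard (s := ex X b e ∩ S) (t := X ∩ S) ⟨fun z hz => ⟨?_, hz.2⟩, fun h' => ?_⟩).ne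
    (hS _ _ h.2.2 hX)
  · exact ((mem_ex.1 hz.1).resolve_left fun e' => he (e' ▸ hz.2)).1
  · exact (h.symm_ex hX).2.1 (h' ⟨h.1, hb⟩).1

theorem joined_of_adj [Finite E] (hX : N.IsBase X) {b e : E} (h : Adj N X b e) : Joined N b e := by
  exact fun S hS => ⟨la_mem_of_sep hX h hS, la_mem_of_sep h.2.2 (h.symm_ex hX) hS⟩

theorem la_mem_closure (hX : N.IsBase X) {e : E} (heE : e ∈ N.E) (he : e ∉ X) :
    e ∈ N.closure {b | Adj N X b e} := by
  refine N.closure_subset_closure (fun b hb => ?_)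
    ((hX.fundCircuit_isCircuit heE he).mem_closure_sdiff_singleton_of_mem (N.mem_fundCircuit e X))
  have h1 : b ∈ X := (N.fundCircuit_subset_insert e X hb.1).resolve_left hb.2
  have h2 := (hX.indep.mem_fundCircuit_iff (by rwa [hX.closure_eq]) he).1 hb.1
  rw [← insert_sdiff_singleton_comm (Ne.symm hb.2)] at h2
  exact ⟨h1, he, hX.exchange_isBase_of_indep he h2⟩

theorem la_ncard_le [Finite E] (hX : N.IsBase X) {S B : Set E}
    (hS : ∀ b e, Adj N X b e → (b ∈ S ↔ e ∈ S)) (hB : N.IsBase B) :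
    (B ∩ S).ncard ≤ (X ∩ S).ncard := by
  have h1 : B ∩ S ⊆ N.closure (X ∩ S) := fun e he => by
    by_cases heX : e ∈ X
    · exact N.mem_closure_of_mem' ⟨heX, he.2⟩ (hB.subset_ground he.1)
    · exact N.closure_subset_closure (fun b hb => mem_inter hb.1 ((hS b e hb).2 he.2))
        (la_mem_closure hX (hB.subset_ground he.1) heX)
  have h2 := (hB.indep.inter_right S).encard_le_eRk_of_subset h1
  rw [N.eRk_closure_eq] at h2
  rw [← Nat.cast_le (α := ℕ∞), (toFinite _).cast_ncard_eq, (toFinite _).cast_ncard_eq]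
  exact h2.trans (N.eRk_le_encard _)

theorem sep_of_closed [Finite E] (hX : N.IsBase X) {S : Set E}
    (hS : ∀ b e, Adj N X b e → (b ∈ S ↔ e ∈ S)) : Sep N S := by
  have key : ∀ B, N.IsBase B → (B ∩ S).ncard = (X ∩ S).ncard := fun B hB => by
    have h1 := la_ncard_le hX hS hB
    have h2 : (B \ S).ncard ≤ (X \ S).ncard :=
      la_ncard_le hX (S := Sᶜ) (fun b e h => not_congr (hS b e h)) hB
    have h3 := ncard_inter_add_ncard_sdiff_eq_ncard B S
    have h4 := ncard_inter_add_ncard_sdiff_eq_ncard X S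
    have h5 := hB.ncard_eq_ncard_of_isBase hX
    omega
  exact fun B B' hB hB' => (key B hB).trans (key B' hB').symm

theorem near_of_joined [Finite E] (hX : N.IsBase X) {g h : E} (hg : g ∈ X) (hh : h ∈ X)
    (hj : Joined N g h) : ∃ k, Near N X h k g := by
  have hS := sep_of_closed hX
    (S := {a | (∃ k, Near N X h k a) ∨ ∃ x k, Near N X h k x ∧ Adj N X x a}) fun b e hbe =>
      ⟨fun hb => hb.elim (fun ⟨k, hk⟩ => Or.inr ⟨b, k, hk, hbe⟩)
        fun ⟨_, _, _, h1⟩ => absurd hbe.1 h1.2.1,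
      fun he => he.elim (fun ⟨_, hk⟩ => absurd (hk.mem hh) hbe.2.1)
        fun ⟨_, k, hk, h1⟩ => Or.inl ⟨k + 1, la_step hk hbe h1⟩⟩
  exact ((hj _ hS).2 (Or.inl ⟨0, rfl⟩)).resolve_right fun ⟨_, _, _, h1⟩ => h1.2.1 hg

theorem reach_of_joined [Finite E] (hX : N.IsBase X) {a b : E} (hj : Joined N a b) :
    ReflTransGen (SAdj N X) a b := by
  exact (hj _ (sep_of_closed hX (S := {c | ReflTransGen (SAdj N X) a c}) fun _ _ h =>
    ⟨fun h1 => h1.tail (Or.inl h), fun h1 => h1.tail (Or.inr h)⟩)).1 ReflTransGen.refl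

theorem la_isBase_delete {D : Set E} (hX : N.IsBase X) (hD : Disjoint X D) {B : Set E} :
    (N ＼ D).IsBase B ↔ N.IsBase B ∧ Disjoint B D := by
  rw [Matroid.delete_isBase_iff]
  exact ⟨fun h => ⟨h.isBase_of_isBase_subset hX (subset_sdiff.2 ⟨hX.subset_ground, hD⟩),
    (subset_sdiff.1 h.subset).2⟩, fun h =>
      h.1.isBasis_of_subset sdiff_subset (subset_sdiff.2 ⟨h.1.subset_ground, h.2⟩)⟩

theorem adj_delete {D : Set E} (hX : N.IsBase X) (hD : Disjoint X D) {b e : E} :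
    Adj (N ＼ D) X b e ↔ Adj N X b e ∧ e ∉ D := by
  simp only [Adj, la_isBase_delete hX hD, ex, disjoint_insert_left, hD.mono_left sdiff_subset,
    and_true, and_assoc]

theorem isBase_delete_iff {D : Set E} (hX : N.IsBase X) (hD : Disjoint X D) {B : Set E} :
    (N ＼ D).IsBase B ↔ N.IsBase B ∧ Disjoint B D := by
  exact la_isBase_delete hX hD

/-- A walk avoiding deleted columns joins its ends in the deletion. -/
theorem joined_delete [Finite E] {D : Set E} (hX : N.IsBase X) (hD : Disjoint X D) {a b : E}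
    (h : ReflTransGen (Av (SAdj N X) D) a b) : Joined (N ＼ D) a b := by
  have hX' := (la_isBase_delete hX hD).2 ⟨hX, hD⟩
  induction h with
  | refl => exact Joined.refl _ _
  | tail _ h1 ih =>
    refine ih.trans (h1.1.elim (fun h2 => ?_) fun h2 => ?_)
    · exact joined_of_adj hX' ((adj_delete hX hD).2 ⟨h2, h1.2.2⟩)
    · exact (joined_of_adj hX' ((adj_delete hX hD).2 ⟨h2, h1.2.1⟩)).symm

variable {R : Type} [Ring R] [Nontrivial R] [Fintype E] {P : R → Prop} {T : Set E → Matrix E E R}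

theorem TabP.adj_pivot_same (h : TabP P N T) (hX : N.IsBase X) {z y x w : E} (ha : Adj N X z y)
    (hx : x ∈ X) (hxz : x ≠ z) (hwz : w ≠ z) (hwy : w ≠ y) (hn : ¬ Adj N X x y ∨ ¬ Adj N X z w) :
    Adj N (ex X z y) x w ↔ Adj N X x w := by
  by_cases hw : w ∈ X
  · exact ⟨fun h1 => absurd (mem_ex.2 (Or.inr ⟨hw, hwz⟩)) h1.2.1, fun h1 => absurd hw h1.2.1⟩
  have hw' : w ∉ ex X z y := fun h1 => (mem_ex.1 h1).elim hwy fun h2 => hw h2.1
  rw [← h.ne_zero_iff ha.2.2 hw', ← h.ne_zero_iff hX hw, h.pivot_old hX ha hx hxz]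
  rcases hn with hn | hn
  · rw [h.eq_zero hX ha.2.1 hn, zero_mul, zero_mul, sub_zero]
  · rw [h.eq_zero hX hw hn, mul_zero, sub_zero]

theorem TabP.adj_pivot_new (h : TabP P N T) (hX : N.IsBase X) {z y x w : E} (ha : Adj N X z y)
    (hxy : Adj N X x y) (hxz : x ≠ z) (hzw : Adj N X z w) (hxw : ¬ Adj N X x w) :
    Adj N (ex X z y) x w := by
  have hw' : w ∉ ex X z y := fun h1 =>
    (mem_ex.1 h1).elim (fun e' => hxw (e' ▸ hxy)) fun h2 => hzw.2.1 h2.1
  rw [← h.ne_zero_iff ha.2.2 hw', h.pivot_old hX ha hxy.1 hxz, h.eq_zero hX hzw.2.1 hxw, zero_sub,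
    neg_ne_zero]
  exact (((h.isUnit hX hxy).mul (h.isUnit ha.2.2 (ha.symm_ex hX))).mul (h.isUnit hX hzw)).ne_zero

/-- Rows at distance two. -/
theorem near_two {g h : E} (h2 : Near N X h 2 g) (h1 : ¬ Near N X h 1 g) :
    ∃ z y1 y2, Adj N X g y1 ∧ Adj N X z y1 ∧ Adj N X z y2 ∧ Adj N X h y2 ∧ ¬ Adj N X h y1 ∧
      ¬ Adj N X g y2 ∧ z ≠ g ∧ z ≠ h ∧ g ≠ h := by
  obtain ⟨y1, z, hz, a1, a2⟩ := h2.resolve_left h1
  have n1 : ¬ Adj N X h y1 := fun a => h1 (la_step (la_zero N X h 0) a1 a)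
  have hzh : z ≠ h := fun e' => n1 (e' ▸ a2)
  obtain ⟨y2, x, hx, a3, a4⟩ := hz.resolve_left hzh
  obtain rfl : x = h := hx
  exact ⟨z, y1, y2, a1, a2, a3, a4, n1, fun a => h1 (la_step (la_zero N X x 0) a a4),
    fun e' => h1 (e' ▸ hz), hzh, fun e' => h1 (e' ▸ la_zero N X g 1)⟩

/-- Rows at distance at least three get closer after a pivot that does not touch them. -/
theorem TabP.shorten (hT : TabP P N T) (hX : N.IsBase X) {g h : E} (hh : h ∈ X) {k : ℕ}
    (h3 : Near N X h (k + 3) g) (h2 : ¬ Near N X h (k + 2) g) :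
    ∃ z y, Adj N X z y ∧ z ≠ g ∧ z ≠ h ∧ ¬ Adj N X g y ∧ ¬ Adj N X h y ∧
      Near N (ex X z y) h (k + 2) g := by
  obtain ⟨y1, x1, n1, a1, a2⟩ := h3.resolve_left h2
  have m1 : ¬ Near N X h (k + 1) x1 := fun n => h2 (la_step n a1 a2)
  obtain ⟨y2, x2, n2, a3, a4⟩ := n1.resolve_left m1
  have m2 : ¬ Near N X h k x2 := fun n => m1 (la_step n a3 a4)
  obtain ⟨y3, x3, n3, a5, a6⟩ := n2.resolve_left m2
  have ne : ∀ {x w}, Adj N X x w → w ≠ x1 := fun a e' => a.2.1 (e' ▸ a3.1)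
  have low : ∀ {x}, Near N X h k x → ¬ Adj N X x y2 := fun n a => m1 (la_step n a3 a)
  have keep : ∀ {x w}, Near N X h k x → Adj N X x w → Adj N (ex X x1 y2) x w := fun n a =>
    (hT.adj_pivot_same hX a3 a.1 (fun e' => m1 (Or.inl (e' ▸ n))) (ne a)
      (fun e' => low n (e' ▸ a)) (Or.inl (low n))).2 a
  have surv : ∀ j ≤ k, ∀ x, Near N X h j x → Near N (ex X x1 y2) h j x := by
    intro j
    induction j with
    | zero => exact fun _ _ n => n
    | succ j ih =>
      intro hj x n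
      have n' := n.mono hj
      rcases n with n | ⟨y, x', n, b1, b2⟩
      · exact Or.inl (ih (by omega) x n)
      · exact la_step (ih (by omega) x' n) (keep n' b1) (keep (n.mono (by omega)) b2)
  have hg : x1 ≠ g := fun e' => h2 (e' ▸ n1)
  have h21 : x2 ≠ x1 := fun e' => m1 (e' ▸ n2)
  have g2 : ¬ Adj N X g y2 := fun a => h2 (la_step n2 a a4)
  refine ⟨x1, y2, a3, hg, fun e' => m1 (e' ▸ la_zero N X x1 _), g2, low (la_zero N X h k),
    la_step (la_step (surv k le_rfl x3 n3) ?_ (keep n3 a6)) ?_ ?_ (y := y1) (x' := x2)⟩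
  · exact (hT.adj_pivot_same hX a3 a5.1 h21 (ne a5) (fun e' => low n3 (e' ▸ a6))
      (Or.inr fun a => m1 (la_step n3 a a6))).2 a5
  · exact (hT.adj_pivot_same hX a3 a1.1 hg.symm (ne a1) (fun e' => g2 (e' ▸ a1)) (Or.inl g2)).2 a1
  · exact hT.adj_pivot_new hX a3 a4 h21 a2 fun a => h2 (la_step n2 a1 a)

end Pool.Agent.Lib.MP_10bdcf_co.G
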