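import Pool.Agent.Lib.MP_10bdcf_co.ZC
import Pool.Agent.Lib.MP_10bdcf_co.UN
import Pool.Agent.Lib.MP_10bdcf_co.CC
import Pool.Agent.Lib.MP_10bdcf_co.LA

/-!
The kernel of the diagonal forms and the forms of tangent vectors.
-/

namespace Pool.Agent.Lib.MP_10bdcf_co.G

open scoped Matroid
open Set

set_option linter.unusedSectionVars false

variable {E F : Type} [Fintype E] [Field F] {M : Matroid E} {T : Set E → Matrix E E R0}
  {x y : R0 →+* F} {U W : Sb F E} {φ ψ : Fm F E} {B I J : Set E} {b e f : E} {γ : E → F}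
  {v v' : F × F}

theorem Obj.orth (h : Obj M T x x U W) (c : F) : Agr (gf fun _ => c) 0 U W := by
  intro u hu w hw
  have hB := bs_isBase M
  have h1 : ∀ e, u e * w e = ∑ b, w b * (spec x T (bs M) b e * u e) := fun e => by
    by_cases he : e ∈ M.E
    · rw [h.coc.row w hw _ hB e he, mul_comm, Finset.sum_mul]
      simp only [mul_assoc]
    · have : u e * w e = 0 := by
        rcases h.out e he with h0 | h0
        · rw [h0 u hu, zero_mul]
        · rw [h0 w hw, mul_zero]
      simp [this, h.tab.col hB _ he]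
  rw [gf_apply, ← Finset.mul_sum]
  simp only [h1]
  rw [Finset.sum_comm]
  simp only [← Finset.mul_sum, h.cyc.ker u hu _ hB]
  simp

/-- The column cycle and the row cocycle of an edge, and the values of the forms on them. -/
theorem ze_pair (h : Obj M T x y U W) (hB : M.IsBase B) (ha : Adj M B b e) :
    ∃ u ∈ U, ∃ w ∈ W, (∀ γ, gf γ u w = γ e * y (T B b e) - γ b * x (T B b e)) ∧
      ∀ v, mf ((T B).map (der x v)) u w = der x v (T B b e) := by
  classical
  obtain ⟨u, hu, h1, h2, h3⟩ := h.exists_col hB ha.mem_ground ha.2.1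
  obtain ⟨w, hw, h4⟩ := h.exists_row hB b
  have hne : e ≠ b := fun e' => ha.2.1 (e' ▸ ha.1)
  have hb : w b = 1 := by rw [h4 b (hB.subset_ground ha.1), h.tab.diag B hB b ha.1, map_one]
  have hz : ∀ z ∈ B, z ≠ b → w z = 0 := fun z hz hzb => by
    rw [h4 z (hB.subset_ground hz), h.tab.off hB hz hzb.symm, map_zero]
  refine ⟨u, hu, w, hw, fun γ => ?_, fun v => ?_⟩
  · rw [gf_apply, Finset.sum_eq_add_of_mem e b (Finset.mem_univ _) (Finset.mem_univ _) hne
      fun z _ hz' => ?_, h1, h2 b ha.1, hb, h4 e ha.mem_ground]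
    · ring
    by_cases hzE : z ∈ M.E
    · by_cases hzB : z ∈ B
      · simp [hz z hzB hz'.2]
      · simp [h3 z hzE hzB hz'.1]
    · rcases h.out z hzE with h0 | h0
      · simp [h0 u hu]
      · simp [h0 w hw]
  · rw [mf_apply, Fintype.sum_eq_single b fun z hzb => ?_, Fintype.sum_eq_single e fun z hze => ?_]
    · simp [hb, h1]
    · by_cases hzE : z ∈ M.E
      · by_cases hzB : z ∈ B
        · by_cases hzb : b = z
          · simp [← hzb, h.tab.diag B hB b ha.1]
          · simp [h.tab.off hB hzB hzb]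
        · simp [h3 z hzE hzB hze]
      · simp [h.tab.col hB b hzE]
    · by_cases hzB : z ∈ B
      · simp [hz z hzB hzb]
      · simp [h.tab.row hB hzB]

theorem Obj.ker_adj (h : Obj M T x y U W) (h0 : Agr (gf γ) 0 U W) (hB : M.IsBase B)
    (ha : Adj M B b e) : γ e * y (T B b e) = γ b * x (T B b e) := by
  obtain ⟨u, hu, w, hw, h1, -⟩ := ze_pair h hB ha
  exact sub_eq_zero.1 ((h1 γ).symm.trans (h0 u hu w hw))

theorem ze_rk (hB : M.IsBase B) {S : Set E} (hS : ∀ b e, Adj M B b e → (b ∈ S ↔ e ∈ S)) :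
    rk M (M.E ∩ S) ≤ (B ∩ S).ncard := by
  refine le_trans (rk_mono M fun e he => ?_) ((rk_closure M _).trans_le (rk_le_ncard M _))
  by_cases heB : e ∈ B
  · exact M.mem_closure_of_mem' ⟨heB, he.2⟩ he.1
  · exact M.closure_subset_closure (fun b hb => mem_inter hb.1 ((hS b e hb).2 he.2))
      (la_mem_closure hB he.1 heB)

theorem ze_ne (hT : U2 M T) (x : R0 →+* F) (hB : M.IsBase B) (ha : Adj M B b e) :
    x (T B b e) ≠ 0 := (hT.prop hB ha).map_ne_zero x

/-- A property that passes along the edges of a fundamental graph holds everywhere. -/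
theorem Conn.induction (hc : Conn M) (hB : M.IsBase B) {p : E → Prop}
    (hp : ∀ b e, Adj M B b e → (p b ↔ p e)) (he : e ∈ M.E) (hf : f ∈ M.E) (h : p e) : p f := by
  have h1 := ze_rk hB (S := {z | p z}) hp
  have h2 : rk M (M.E \ {z | p z}) ≤ (B \ {z | p z}).ncard :=
    ze_rk hB (S := {z | p z}ᶜ) fun b e h => not_congr (hp b e h)
  have h3 := ncard_inter_add_ncard_sdiff_eq_ncard B {z | p z}
  have h4 := rk_base hB
  have h5 := lam_add M (M.E ∩ {z | p z})
  rw [sdiff_self_inter] at h5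
  have h6 : lam M (M.E ∩ {z | p z}) = 0 := by omega
  have h7 := hc _ inter_subset_left (h6.trans_lt one_pos)
  rw [h6, sdiff_self_inter, Nat.le_zero, Nat.le_zero, ncard_eq_zero, ncard_eq_zero] at h7
  by_contra hn
  rcases h7 with h7 | h7
  · exact h7.subset ⟨he, h⟩
  · exact h7.subset ⟨hf, hn⟩

theorem Obj.ker_same (h : Obj M T x x U W) (hc : Conn M) (h0 : Agr (gf γ) 0 U W) :
    ∃ c, ∀ e ∈ M.E, γ e = c := by
  rcases M.E.eq_empty_or_nonempty with h1 | ⟨z, hz⟩
  · exact ⟨0, by simp [h1]⟩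
  refine ⟨γ z, fun e he => hc.induction (bs_isBase M) (p := fun e => γ e = γ z)
    (fun b e ha => ?_) hz he rfl⟩
  rw [mul_right_cancel₀ (ze_ne h.tab x (bs_isBase M) ha) (h.ker_adj h0 (bs_isBase M) ha)]

theorem Obj.ker_zero (h : Obj M T x y U W) (hc : Conn M) (h0 : Agr (gf γ) 0 U W) (he : e ∈ M.E)
    (h1 : γ e = 0) : ∀ f ∈ M.E, γ f = 0 := by
  refine fun f hf => hc.induction (bs_isBase M) (p := fun e => γ e = 0) (fun b e ha => ?_) he hf h1
  have h2 := h.ker_adj h0 (bs_isBase M) ha
  have h3 := ze_ne h.tab x (bs_isBase M) ha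
  have h4 := ze_ne h.tab y (bs_isBase M) ha
  refine ⟨fun h5 => ?_, fun h5 => ?_⟩
  · simpa [h5, h4] using h2
  · simpa [h5, h3] using h2

theorem Obj.ker_tw (h : Obj M T x y U W) (ht : Tw x y) (hc : Conn M) (hs : HasSite M)
    (h0 : Agr (gf γ) 0 U W) : ∀ e ∈ M.E, γ e = 0 := by
  obtain ⟨B, g, k, e, f, hs⟩ := hs
  obtain ⟨m, hm, hcr⟩ := h.tab.exists_cr hs
  have hx := congrArg x hcr
  have hy := congrArg y hcr
  simp only [map_mul] at hx hy
  have a1 := h.ker_adj h0 hs.base hs.ge
  have a2 := h.ker_adj h0 hs.base hs.gf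
  have a3 := h.ker_adj h0 hs.base hs.he
  have a4 := h.ker_adj h0 hs.base hs.hf
  have key : γ g * γ k * (x (T B g e) * x (T B k f) * (x (mo m) - y (mo m))) = 0 := by
    linear_combination -(γ g * γ k) * hx + γ e * γ f * hy - γ f * y (T B g f) * a3 -
      γ k * x (T B k e) * a2 + y (mo m) * γ f * y (T B k f) * a1 +
      y (mo m) * γ g * x (T B g e) * a4
  have hne := mul_ne_zero (mul_ne_zero (ze_ne h.tab x hs.base hs.ge) (ze_ne h.tab x hs.base hs.hf))
    (sub_ne_zero.2 (ht m hm))
  rcases mul_eq_zero.1 ((mul_eq_zero.1 key).resolve_right hne) with h1 | h1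
  · exact h.ker_zero hc h0 (hs.base.subset_ground hs.ge.1) h1
  · exact h.ker_zero hc h0 (hs.base.subset_ground hs.he.1) h1

theorem Obj.dfm_base (h : Obj M T x x U W) (hB : M.IsBase B) (v : F × F) :
    Agr (dfm M T x v) (mf ((T B).map (der x v))) U W := by
  intro u hu w hw
  have h0 := bs_isBase M
  have h1 : ∀ b e, der x v (T (bs M) b e) = ∑ z, (x (T (bs M) b z) * der x v (T B z e) +
      der x v (T (bs M) b z) * x (T B z e)) := fun b e => by
    rw [h.tab.mul_apply hB h0 b e, der_sum]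
    simp only [der_mul]
  have h2 : ∀ z, ∑ e, x (T B z e) * u e = 0 := h.cyc.ker u hu B hB
  have h3 : ∀ z e, (∑ b, w b * x (T (bs M) b z)) * der x v (T B z e) = w z * der x v (T B z e) :=
    fun z e => by
      by_cases hz : z ∈ B
      · rw [h.coc.row w hw _ h0 z (hB.subset_ground hz)]
        rfl
      · simp [h.tab.row hB hz]
  have h4 : ∀ b, ∑ e, w b * der x v (T (bs M) b e) * u e =
      ∑ z, ∑ e, w b * x (T (bs M) b z) * der x v (T B z e) * u e := fun b => by
    calc _ = ∑ e, ∑ z, (w b * x (T (bs M) b z) * der x v (T B z e) * u e +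
          w b * der x v (T (bs M) b z) * (x (T B z e) * u e)) := by
          refine Finset.sum_congr rfl fun e _ => ?_
          rw [h1, Finset.mul_sum, Finset.sum_mul]
          exact Finset.sum_congr rfl fun z _ => by ring
      _ = _ := by
          rw [Finset.sum_comm]
          refine Finset.sum_congr rfl fun z _ => ?_
          rw [Finset.sum_add_distrib, ← Finset.mul_sum, h2, mul_zero, add_zero]
  simp only [dfm, mf_apply, Matrix.map_apply, h4, ← h3]
  rw [Finset.sum_comm]
  refine Finset.sum_congr rfl fun z _ => ?_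
  rw [Finset.sum_comm]
  simp only [Finset.sum_mul]

theorem Obj.dfm_val (h : Obj M T x x U W) (v : F × F) : Val (dfm M T x v) U W := by
  intro u hu w hw hd
  obtain ⟨I, hI⟩ := M.exists_isBasis {z | z ∈ M.E ∧ u z ≠ 0} fun z hz => hz.1
  obtain ⟨B, hB, hIB⟩ := hI.indep.exists_isBase_superset
  rw [h.dfm_base hB v u hu w hw, mf_apply]
  refine Finset.sum_eq_zero fun b _ => Finset.sum_eq_zero fun z _ => ?_
  by_contra hn
  obtain ⟨⟨h1, h2⟩, h3⟩ : (w b ≠ 0 ∧ der x v (T B b z) ≠ 0) ∧ u z ≠ 0 := by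
    simpa [not_or] using hn
  have h4 : u b = 0 := (hd b).resolve_right h1
  obtain ⟨h5, h6⟩ := (h.tab.supp B hB b z).1 fun h0 => h2 (by rw [h0, der_zero])
  have h7 : z ∈ ex B b z := mem_ex.2 (Or.inl rfl)
  have h8 : z ∉ B := fun hz => h2 (by
    rw [h.tab.off hB hz fun e' => h3 (e' ▸ h4), der_zero])
  refine h6.indep.notMem_closure_sdiff_of_mem h7 (M.closure_subset_closure (fun a ha => ?_)
    (hI.subset_closure ⟨h6.subset_ground h7, h3⟩))
  exact ⟨mem_ex.2 (Or.inr ⟨hIB ha, fun e' => (hI.subset ha).2 (e' ▸ h4)⟩),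
    fun e' => h8 ((show a = z from e') ▸ hIB ha)⟩

theorem Obj.dfm_minor (h : Obj M T x x U W) (ho : Op M I J) (v : F × F) :
    Agr (dfm M T x v) (dfm (mn M I J) (mnT I J T) x v) (van U J) (van W I) := by
  intro u hu w hw
  have hB := (ho.isBase_iff.1 (bs_isBase (mn M I J))).1
  rw [h.dfm_base hB v u hu.1 w hw.1, dfm, mf_apply, mf_apply]
  refine Finset.sum_congr rfl fun b _ => Finset.sum_congr rfl fun e _ => ?_
  by_cases he : e ∈ J
  · simp [hu.2 e he]
  by_cases hb : b ∈ I
  · simp [hw.2 b hb]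
  simp only [Matrix.map_apply, mnT, delT_apply _ _ _ he]
  by_cases heI : e ∈ I
  · simp [conT, heI, h.tab.off hB (Or.inr heI) fun e' : b = e => hb (e' ▸ heI)]
  · rw [conT_apply _ _ hb heI]

theorem Obj.dfm_dual (h : Obj M T x x U W) (v : F × F) :
    Agr (dfm M✶ (duT M T) x v) (-(dfm M T x v).flip) W U := by
  intro w hw u hu
  have hB := (bs_isBase M✶).compl_isBase_of_dual
  have h1 : ∀ b e, der x v (duT M T (bs M✶) b e) = -der x v (T (M.E \ bs M✶) e b) := fun b e => by
    simp only [duT, dualT, Matrix.of_apply, der_sub, id]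
    split_ifs <;> simp
  rw [LinearMap.neg_apply, LinearMap.neg_apply, LinearMap.flip_apply, h.dfm_base hB v u hu w hw,
    dfm, mf_apply, mf_apply, Finset.sum_comm, ← Finset.sum_neg_distrib]
  refine Finset.sum_congr rfl fun e _ => ?_
  rw [← Finset.sum_neg_distrib]
  refine Finset.sum_congr rfl fun b _ => ?_
  simp only [Matrix.map_apply, h1]
  ring

theorem dfm_add (M : Matroid E) (T : Set E → Matrix E E R0) (x : R0 →+* F) (v v' : F × F) :
    dfm M T x (v + v') = dfm M T x v + dfm M T x v' := by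
  refine LinearMap.ext fun u => LinearMap.ext fun w => ?_
  simp [dfm, mf_apply, der_add_v, mul_add, add_mul, Finset.sum_add_distrib]

theorem dfm_smul (M : Matroid E) (T : Set E → Matrix E E R0) (x : R0 →+* F) (c : F) (v : F × F) :
    dfm M T x (c • v) = c • dfm M T x v := by
  refine LinearMap.ext fun u => LinearMap.ext fun w => ?_
  simp [dfm, mf_apply, der_smul_v, Finset.mul_sum, mul_assoc, mul_left_comm c]

theorem dfm_sub (M : Matroid E) (T : Set E → Matrix E E R0) (x : R0 →+* F) (v v' : F × F) :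
    dfm M T x (v - v') = dfm M T x v - dfm M T x v' := by
  refine LinearMap.ext fun u => LinearMap.ext fun w => ?_
  have := dfm_add M T x (v - v') v'
  rw [sub_add_cancel] at this
  simp [this]

theorem dfm_zero (M : Matroid E) (T : Set E → Matrix E E R0) (x : R0 →+* F) :
    dfm M T x 0 = 0 := by
  refine LinearMap.ext fun u => LinearMap.ext fun w => ?_
  simp [dfm, mf_apply, der_zero_v]

/-- A diagonal tangent vector kills every cross ratio. -/
theorem Obj.der_of_gauge (h : Obj M T x x U W) (hg : Gauge (dfm M T x v) U W) {m : Mo}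
    (hm : IsCr M T m) : der x v (mo m) = 0 := by
  obtain ⟨γ, hγ⟩ := hg
  obtain ⟨B, g, k, e, f, hs, hcr⟩ := hm
  have key : ∀ {b e}, Adj M B b e → der x v (T B b e) = γ e * x (T B b e) - γ b * x (T B b e) :=
    fun ha => by
      obtain ⟨u, hu, w, hw, h1, h2⟩ := ze_pair h hs.base ha
      rw [← h1, ← h2, ← h.dfm_base hs.base v u hu w hw, hγ u hu w hw]
  have hx := congrArg x hcr
  have hd := congrArg (der x v) hcr
  simp only [map_mul, der_mul, key hs.ge, key hs.gf, key hs.he, key hs.hf] at hx hd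
  refine (mul_eq_zero.1 (?_ : _ * (x (T B g e) * x (T B k f)) = 0)).resolve_right
    (mul_ne_zero (ze_ne h.tab x hs.base hs.ge) (ze_ne h.tab x hs.base hs.hf))
  linear_combination -hd + (γ e + γ f - γ g - γ k) * hx

/-- A tangent vector that is diagonal on a frame vanishes. -/
theorem Obj.eq_zero_of_frame (h : Obj M T x x U W) (hf : Frame M I J)
    (hg : Gauge (dfm M T x v) (van U J) (van W I)) : v = 0 := by
  have h' := h.minor hf.toOp
  obtain ⟨m, n, hm, hn, hne⟩ := hf.isR.two_types h'.tab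
  have hg' := hg.congr (h.dfm_minor hf.toOp v).symm
  exact der_two x (h'.tab.cr_mem hm) (h'.tab.cr_mem hn) hne (h'.der_of_gauge hg' hm)
    (h'.der_of_gauge hg' hn)

end Pool.Agent.Lib.MP_10bdcf_co.G
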