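import Pool.Agent.Lib.MP_10bdcf_co.IIC0
import Pool.Agent.Lib.MP_10bdcf_co.ZE

/-!
Case II: the join rule and the base of the gluing.
-/

namespace Pool.Agent.Lib.MP_10bdcf_co.II

open scoped Matroid
open Set G

set_option linter.unusedSectionVars false

variable {E F : Type} [Fintype E] [Field F] {M : Matroid E} {T : Set E → Matrix E E R0}
  {x y : R0 →+* F} {U W : Sb F E} {φ δ : Fm F E} {I J I0 J0 : Set E} {a b w : E}

/-- The induction hypothesis in the form used in case II. -/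
structure IH2 (M : Matroid E) (U W : Sb F E) : Prop where
  ex : ∀ I J, Safe M I J → (I ∪ J).Nonempty → Con3 (mn M I J) →
    ∃ ξ, Val ξ (van U J) (van W I) ∧ ¬ Gauge ξ (van U J) (van W I)
  nz : ∀ I J I' J', Frame M I' J' → I ⊆ I' → J ⊆ J' → (I ∪ J).Nonempty → Con3 (mn M I J) →
    ∀ φ, Val φ (van U J) (van W I) → Gauge φ (van U J') (van W I') → Gauge φ (van U J) (van W I)
  line : ∀ I J, Frame M I J → ∀ ξ φ, Val ξ (van U J) (van W I) → ¬ Gauge ξ (van U J) (van W I) →
    Val φ (van U J) (van W I) → ∃ c : F, Gauge (φ - c • ξ) (van U J) (van W I)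

theorem gauge_flip : Gauge φ.flip W U ↔ Gauge φ U W :=
  ⟨fun h => by simpa using h.flip, fun h => h.flip⟩

theorem val_flip : Val φ.flip W U ↔ Val φ U W :=
  ⟨fun h => by simpa using h.flip, fun h => h.flip⟩

theorem frame_dual : Frame M✶ J I ↔ Frame M I J :=
  ⟨fun h => by simpa using h.dual, fun h => h.dual⟩

theorem safe_dual : Safe M✶ J I ↔ Safe M I J :=
  ⟨fun h => by simpa using h.dual, fun h => h.dual⟩

theorem conK_mn_dual {k : ℕ} (hd : Disjoint I J) : ConK k (mn M✶ J I) ↔ ConK k (mn M I J) := by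
  rw [← mn_dual hd]
  exact ⟨fun h => by simpa using h.dual, fun h => h.dual⟩

theorem IH2.dual (h : IH2 M U W) : IH2 M✶ W U where
  ex := fun I J hs hne hc => by
    obtain ⟨ξ, h1, h2⟩ := h.ex J I (safe_dual.1 hs) (by rwa [union_comm])
      ((conK_mn_dual hs.op.dis.symm).1 hc)
    exact ⟨ξ.flip, h1.flip, fun hg => h2 (gauge_flip.1 hg)⟩
  nz := fun I J I' J' hf hI hJ hne hc φ hv hg => by
    have := h.nz J I J' I' (frame_dual.1 hf) hJ hI (by rwa [union_comm])
      ((conK_mn_dual (hf.dis.symm.mono hJ hI)).1 hc) φ.flip hv.flip hg.flip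
    exact gauge_flip.1 this
  line := fun I J hf ξ φ h1 h2 h3 => by
    obtain ⟨c, hc⟩ := h.line J I (frame_dual.1 hf) ξ.flip φ.flip h1.flip
      (fun hg => h2 (gauge_flip.1 hg)) h3.flip
    refine ⟨c, gauge_flip.1 (hc.congr fun u _ w _ => ?_)⟩
    simp

theorem safe_hasSite (hT : U2 M T) (hs : Safe M I0 J0) : HasSite (mn M I0 J0) := by
  obtain ⟨I, J, hf, h1, h2⟩ := hs
  have hf' := hf.sdiff h1 h2
  exact HasSite.of_minor hf'.op
    (IsR.hasSite ((hT.minor (hf.op.mono h1 h2)).minor hf'.op) hf'.isR)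

/-- Two diagonal forms on two contractions glue. -/
theorem glue_gauge (h : Obj M T x y U W) (ht : Tw x y) (hab : a ≠ b) (hs : Safe M {a, b} J0)
    (hc : Conn (mn M {a, b} J0)) (h1 : Gauge δ (van U J0) (van W {a}))
    (h2 : Gauge δ (van U J0) (van W {b})) : Gauge δ (van U J0) W := by
  classical
  obtain ⟨γ, hγ⟩ := h1
  obtain ⟨γ', hγ'⟩ := h2
  have ho := hs.op
  have h0 : Agr (gf (γ - γ')) 0 (van U J0) (van W {a, b}) := by
    intro u hu w hw
    have e1 := hγ u hu w (van_anti W (by simp) hw)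
    have e2 := hγ' u hu w (van_anti W (by simp) hw)
    rw [gf_sub]
    simp only [LinearMap.sub_apply, LinearMap.zero_apply]
    rw [← e1, ← e2, sub_self]
  have hz := (h.minor ho).ker_tw ht hc (safe_hasSite h.tab hs) h0
  refine ⟨Function.update γ a (γ' a), ?_⟩
  rw [← h.pair.van_sup' hab ho.ind]
  refine Agr.sup_right (hγ.trans ?_) (hγ'.trans ?_)
  · refine (h.pair.minor (ho.mono (by simp) Subset.rfl)).gf_eq fun z hz => ?_
    rw [mn_ground] at hz
    rw [Function.update_of_ne fun e => hz.2 (Or.inl e)]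
  · refine (h.pair.minor (ho.mono (by simp) Subset.rfl)).gf_eq fun z hz' => ?_
    rw [mn_ground] at hz'
    by_cases e : z = a
    · rw [e, Function.update_self]
    · rw [Function.update_of_ne e]
      have := hz z (by
        rw [mn_ground]
        refine ⟨hz'.1, ?_⟩
        rintro ((h | h) | h)
        exacts [e h, hz'.2 (Or.inl h), hz'.2 (Or.inr h)])
      exact (sub_eq_zero.1 this).symm

/-- The setting of case II. -/
structure Set2 (M : Matroid E) (T : Set E → Matrix E E R0) (x y : R0 →+* F) (U W : Sb F E) :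
    Prop where
  obj : Obj M T x y U W
  tw : Tw x y
  con : Con4 M
  rk5 : 5 ≤ rk M M.E
  crk5 : 5 ≤ rk M✶ M.E
  two : ∀ a b, Safe M {a} {b} → Con3 (mn M {a} {b})
  ih : IH2 M U W

theorem Set2.dual (h : Set2 M T x y U W) : Set2 M✶ (duT M T) y x W U where
  obj := h.obj.dual
  tw := h.tw.symm
  con := h.con.dual
  rk5 := h.crk5
  crk5 := by rw [Matroid.dual_dual]; exact h.rk5
  two := fun a b hs => (conK_mn_dual hs.op.dis.symm).2 (h.two b a (safe_dual.1 hs))
  ih := h.ih.dual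

theorem Set2.card (h : Set2 M T x y U W) : 10 ≤ M.E.ncard := by
  have := rk_dual_ground M
  have := h.rk5
  have := h.crk5
  omega

theorem Set2.con_del (h : Set2 M T x y U W) (e : E) : Con3 (mn M ∅ {e}) := by
  rw [mn_empty_left]
  exact ConK.delete h.con (by have := h.card; omega) e

theorem Set2.con_con (h : Set2 M T x y U W) (e : E) : Con3 (mn M {e} ∅) := by
  rw [mn_empty_right]
  exact ConK.contract h.con (by have := h.card; omega) e

theorem Set2.conn3 (h : Set2 M T x y U W) (hs : Safe M {a, b} {w}) : Conn (mn M {a, b} {w}) := by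
  have h1 := h.two a w (hs.mono (by simp) Subset.rfl)
  have hc := (hs.op.mono (show ({a} : Set E) ⊆ {a, b} by simp) Subset.rfl).card
  have h10 := h.card
  simp only [ncard_singleton] at hc
  have h2 := ConK.contract h1 (by omega) b
  rwa [mn_contract (hs.op.dis.mono_left (by simp))] at h2

/-- The contraction of `a` is valid. -/
def VP (φ : Fm F E) (U W : Sb F E) (a : E) : Prop :=
  Val φ U (van W {a}) ∧ ¬ Gauge φ U (van W {a})

theorem Set2.ng (h : Set2 M T x y U W) (hf : Frame M I J) (ha : a ∈ I) (h1 : VP φ U W a) :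
    Val φ (van U J) (van W I) ∧ ¬ Gauge φ (van U J) (van W I) := by
  refine ⟨h1.1.mono (van_le _ _) (van_anti W (singleton_subset_iff.2 ha)), fun hg => h1.2 ?_⟩
  have := h.ih.nz {a} ∅ I J hf (singleton_subset_iff.2 ha) (empty_subset _) (by simp) (h.con_con a)
    φ (by simpa using h1.1) hg
  simpa using this

/-- The join rule. -/
theorem Set2.join (h : Set2 M T x y U W) (hf : Frame M I J) (ha : a ∈ I) (hb : b ∈ I) (hab : a ≠ b)
    (h1 : VP φ U W a) (h2 : VP φ U W b) (hw : w ∈ J) : VP φ.flip W U w := by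
  have hwJ := singleton_subset_iff.2 hw
  obtain ⟨ξ, v1, n1⟩ := h.ih.ex ∅ {w} ⟨I, J, hf, empty_subset _, hwJ⟩ (by simp) (h.con_del w)
  rw [van_empty] at v1 n1
  have n2 := (h.dual.ng hf.dual hw (φ := ξ.flip) ⟨v1.flip, fun hg => n1 (gauge_flip.1 hg)⟩)
  obtain ⟨v3, n3⟩ := h.ng hf ha h1
  obtain ⟨c, hc⟩ := h.ih.line I J hf ξ φ (val_flip.1 n2.1) (fun hg => n2.2 hg.flip) v3
  have key : ∀ i ∈ I, VP φ U W i → Gauge (φ - c • ξ) (van U {w}) (van W {i}) := by
    intro i hi hv
    have hiI := singleton_subset_iff.2 hi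
    exact h.ih.nz {i} {w} I J hf hiI hwJ (by simp) (h.two i w ⟨I, J, hf, hiI, hwJ⟩) _
      ((hv.1.mono (van_le _ _) le_rfl).sub ((v1.mono le_rfl (van_le _ _)).smul c)) hc
  have hs : Safe M {a, b} {w} := ⟨I, J, hf, pair_subset ha hb, hwJ⟩
  have hg := glue_gauge h.obj h.tw hab hs (h.conn3 hs) (key a ha h1) (key b hb h2)
  refine ⟨val_flip.2 ?_, fun hg' => n3 ((gauge_flip.1 hg').mono (van_anti U hwJ) (van_le _ _))⟩
  exact (hg.val.add (v1.smul c)).congr fun u _ w _ => by simp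

theorem Set2.two_le (h : Set2 M T x y U W) (hf : Frame M I J) : 2 ≤ I.ncard := by
  have := hf.card_left
  have := h.rk5
  omega

theorem Set2.valid (h : Set2 M T x y U W) (hf : Frame M I J) (ha : a ∈ I) (hb : b ∈ I)
    (hab : a ≠ b) (h1 : VP φ U W a) (h2 : VP φ U W b) :
    (∀ z ∈ I, VP φ U W z) ∧ ∀ z ∈ J, VP φ.flip W U z := by
  have k := fun w hw => h.join hf ha hb hab h1 h2 (w := w) hw
  refine ⟨fun z hz => ?_, k⟩
  obtain ⟨c, hc, d, hd, hcd⟩ := (one_lt_ncard J.toFinite).1 (h.dual.two_le hf.dual)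
  simpa using h.dual.join hf.dual hc hd hcd (k c hc) (k d hd) hz

theorem Set2.base0 (h : Set2 M T x y U W) (hf : Frame M I J) :
    ∃ a b w w' : E, a ≠ b ∧ w ≠ w' ∧ Safe M {a, b} {w, w'} ∧ Conn (mn M {a, b} {w, w'}) := by
  obtain ⟨a, ha, b, hb, hab⟩ := (one_lt_ncard I.toFinite).1 (h.two_le hf)
  obtain ⟨w, hw, w0, hw0, hww0⟩ := (one_lt_ncard J.toFinite).1 (h.dual.two_le hf.dual)
  have hs : Safe M {a, b} {w} := ⟨I, J, hf, pair_subset ha hb, singleton_subset_iff.2 hw⟩
  have h10 := h.card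
  obtain ⟨w', hs', hc'⟩ := exists_conn_delete (h.conn3 hs) (fun e he f hf' => by
      rw [mn_ground] at he hf'
      have ho : Op M {a, b} ({w} ∪ {e, f}) := by
        refine ⟨hs.op.ind, h.con.coindep (by omega) ?_ ?_, ?_⟩
        · exact union_subset hs.op.sub_right (pair_subset he.1 hf'.1)
        · exact (ncard_union_le _ _).trans (by
            have := ncard_insert_le e ({f} : Set E)
            rw [ncard_singleton] at this ⊢
            omega)
        · refine disjoint_union_right.2 ⟨hs.op.dis, disjoint_left.2 ?_⟩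
          rintro z hz (rfl | rfl)
          exacts [he.2 (Or.inl hz), hf'.2 (Or.inl hz)]
      refine (ho.sdiff Subset.rfl subset_union_left).coi.subset ?_
      rintro z (rfl | rfl)
      exacts [⟨by simp, fun e => he.2 (Or.inr e)⟩, ⟨by simp, fun e => hf'.2 (Or.inr e)⟩])
    (hf.sdiff (pair_subset ha hb) (singleton_subset_iff.2 hw)) ⟨w0, hw0, hww0.symm⟩
  have hne : w ≠ w' := by
    have := hs'.op.sub_right (mem_singleton w')
    rw [mn_ground] at this
    exact fun e => this.2 (Or.inr e.symm)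
  have hs2 := Safe.union hs.op hs'
  rw [union_empty, singleton_union] at hs2
  rw [mn_delete, singleton_union] at hc'
  exact ⟨a, b, w, w', hab, hne, hs2, hc'⟩

/-- The base of the gluing. -/
theorem Set2.base (h : Set2 M T x y U W) (hf0 : Frame M I0 J0) :
    ∃ (φ : Fm F E) (I J : Set E) (a b : E), Frame M I J ∧ a ∈ I ∧ b ∈ I ∧ a ≠ b ∧ VP φ U W a ∧
      VP φ U W b := by
  obtain ⟨a, b, w, w', hab, hne, hs2, hc'⟩ := h.base0 hf0
  obtain ⟨I, J, hf, hI, hJ⟩ := id hs2
  have ha : a ∈ I := hI (by simp)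
  have hb : b ∈ I := hI (by simp)
  have haI := singleton_subset_iff.2 ha
  have hbI := singleton_subset_iff.2 hb
  obtain ⟨ξ, v1, n1⟩ := h.ih.ex {a} ∅ ⟨I, J, hf, haI, empty_subset _⟩ (by simp) (h.con_con a)
  obtain ⟨ζ, v2, n2⟩ := h.ih.ex {b} ∅ ⟨I, J, hf, hbI, empty_subset _⟩ (by simp) (h.con_con b)
  rw [van_empty] at v1 n1 v2 n2
  obtain ⟨v3, n3⟩ := h.ng hf ha ⟨v1, n1⟩
  obtain ⟨v4, n4⟩ := h.ng hf hb ⟨v2, n2⟩
  obtain ⟨c, hc⟩ := h.ih.line I J hf ζ ξ v4 n4 v3
  have key : ∀ z ∈ J, Gauge (ξ - c • ζ).flip (van W {a, b}) (van U {z}) := by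
    intro z hz
    have hzJ := singleton_subset_iff.2 hz
    obtain ⟨η, v5, n5⟩ := h.ih.ex ∅ {z} ⟨I, J, hf, empty_subset _, hzJ⟩ (by simp) (h.con_del z)
    rw [van_empty] at v5 n5
    have n6 := (h.dual.ng hf.dual hz (φ := η.flip) ⟨v5.flip, fun hg => n5 (gauge_flip.1 hg)⟩)
    obtain ⟨d, hd⟩ := h.ih.line I J hf η ξ (val_flip.1 n6.1) (fun hg => n6.2 hg.flip) v3
    have g1 := h.ih.nz {a} {z} I J hf haI hzJ (by simp) (h.two a z ⟨I, J, hf, haI, hzJ⟩) _
      ((v1.mono (van_le _ _) le_rfl).sub ((v5.mono le_rfl (van_le _ _)).smul d)) hd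
    have g2 := h.ih.nz {b} {z} I J hf hbI hzJ (by simp) (h.two b z ⟨I, J, hf, hbI, hzJ⟩) _
      (((v2.mono (van_le _ _) le_rfl).smul c).sub ((v5.mono le_rfl (van_le _ _)).smul d))
      ((hd.sub hc).congr fun u _ w _ => by simp)
    have g3 := (g1.mono le_rfl (van_anti W (show ({a} : Set E) ⊆ {a, b} by simp))).sub
      (g2.mono le_rfl (van_anti W (show ({b} : Set E) ⊆ {a, b} by simp)))
    exact Gauge.flip (g3.congr fun u _ w _ => by simp)
  obtain ⟨γ, hγ⟩ := gauge_flip.1 (glue_gauge h.obj.dual h.tw.symm hne hs2.dual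
    ((conK_mn_dual hs2.op.dis).2 hc') (key w (hJ (by simp))) (key w' (hJ (by simp))))
  obtain ⟨φ, e1, e2⟩ := exists_glue_right (φ1 := ξ) (φ2 := c • ζ + gf γ) (U := U)
    (W1 := van W {a}) (W2 := van W {b}) (by
      rw [van_inf, singleton_union]
      intro u hu w hw
      have := hγ u hu w hw
      simp only [LinearMap.sub_apply, LinearMap.add_apply] at this ⊢
      rw [← this, add_sub_cancel])
  refine ⟨φ, I, J, a, b, hf, ha, hb, hab, ⟨v1.congr e1, fun hg => n1 (hg.congr e1.symm)⟩,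
    ((v2.smul c).add (val_gf γ _ _)).congr e2, fun hg => n3 ?_⟩
  have g1 := ((hg.congr e2.symm).sub (gauge_gf γ _ _)).mono (van_le U J) (van_anti W hbI)
  exact (hc.add g1).congr fun u _ w _ => by simp

/-- Either the glued form is valid or there is an uncovered pair. -/
theorem Set2.exists_or_cov (h : Set2 M T x y U W) (hf : Frame M I J) :
    (∃ φ, Val φ U W ∧ ¬ Gauge φ U W) ∨ ∃ C D Vp Vm, Cov M C D Vp Vm := by
  obtain ⟨φ, I, J, a, b, hf, ha, hb, hab, h1, h2⟩ := h.base hf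
  by_cases hv : Val φ U W
  · exact Or.inl ⟨φ, hv, fun hg => h1.2 (hg.mono le_rfl (van_le _ _))⟩
  right
  by_contra hn
  refine hv (h.obj.pair.val_cover (P := {z | z ∈ M.E ∧ VP φ U W z})
    (Q := {z | z ∈ M.E ∧ VP φ.flip W U z}) (fun z hz => hz.1) (fun z hz => hz.1)
    (fun z hz => hz.2.1) (fun z hz => val_flip.1 hz.2.1) fun C D hC hD hd hP hQ => hn ?_)
  refine ⟨C, D, _, _, h.con, h.rk5, h.crk5, hC, hD, hd, hP, hQ, ?_, ?_, ?_⟩
  · intro I J hf a ha b hb hab h1 h2
    have := h.valid hf ha hb hab h1.2 h2.2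
    exact ⟨fun z hz => ⟨hf.op.sub_left hz, this.1 z hz⟩,
      fun z hz => ⟨hf.op.sub_right hz, this.2 z hz⟩⟩
  · intro I J hf a ha b hb hab h1 h2
    have := h.dual.valid hf.dual ha hb hab h1.2 h2.2
    exact ⟨fun z hz => ⟨hf.op.sub_left hz, by simpa using this.2 z hz⟩,
      fun z hz => ⟨hf.op.sub_right hz, this.1 z hz⟩⟩
  · have := h.valid hf ha hb hab h1 h2
    exact ⟨I, J, hf, fun z hz => ⟨hf.op.sub_left hz, this.1 z hz⟩,
      fun z hz => ⟨hf.op.sub_right hz, this.2 z hz⟩⟩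

end Pool.Agent.Lib.MP_10bdcf_co.II
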