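import Pool.Agent.Lib.MP_10bdcf_co.IIC2
import Pool.Agent.Lib.MP_10bdcf_co.IIE5
import Pool.Agent.Lib.MP_10bdcf_co.IIZ1

/-!
Case II: an uncovered pair gives the data of the end game.
-/

namespace Pool.Agent.Lib.MP_10bdcf_co.II

open scoped Matroid
open Set G

set_option linter.unusedSectionVars false

variable {E : Type} [Fintype E] {M : Matroid E} {T : Set E → Matrix E E R0}
  {C D Vp Vm I J S S' : Set E} {x u v g k e f p q s : E} {cl : E → Fin 5}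

/-- The rows `u`, `v` form a valid frame. -/
def Fr (M : Matroid E) (D Vp : Set E) (u v : E) : Prop :=
  u ∈ D ∧ v ∈ D ∧ u ≠ v ∧ V25 M Vp (D \ {u, v})

theorem Fr.symm (h : Fr M D Vp u v) : Fr M D Vp v u :=
  ⟨h.2.1, h.1, h.2.2.1.symm, by rw [pair_comm]; exact h.2.2.2⟩

theorem Cov.fr_ex (h : Cov M C D Vp Vm) (hT : G.U2 M T) : ∃ u v, Fr M D Vp u v := by
  obtain ⟨⟨I, hv⟩, -⟩ := h.exists_v25 hT
  have hI : I ⊆ D := hv.sub.trans h.vp
  have e1 := ncard_sdiff_add_ncard_of_subset hI D.toFinite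
  have e2 := (h.shape hT).2.2
  have e3 := hv.rank
  obtain ⟨u, v, huv, e⟩ := ncard_eq_two.1 (show (D \ I).ncard = 2 by omega)
  have hu : u ∈ D \ I := e ▸ mem_insert _ _
  have hw : v ∈ D \ I := e ▸ mem_insert_of_mem _ rfl
  exact ⟨u, v, hu.1, hw.1, huv, by rwa [← e, sdiff_sdiff_cancel_left hI]⟩

theorem Cov.notVm (h : Cov M C D Vp Vm) (hu : u ∈ D) : u ∉ Vm :=
  fun e => disjoint_left.1 h.dis (h.vm e) hu

theorem Cov.pC (h : Cov M C D Vp Vm) (he : e ∈ C) (S : Set E) : e ∈ M.E ∧ e ∉ D \ S :=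
  ⟨h.circ.subset_ground he, fun e => disjoint_left.1 h.dis he e.1⟩

theorem Cov.pu (h : Cov M C D Vp Vm) (hf : Fr M D Vp u v) : u ∈ M.E ∧ u ∉ D \ {u, v} :=
  ⟨h.cocirc.subset_ground hf.1, fun e => e.2 (mem_insert _ _)⟩

theorem Cov.pv (h : Cov M C D Vp Vm) (hf : Fr M D Vp u v) : v ∈ M.E ∧ v ∉ D \ {u, v} :=
  ⟨h.cocirc.subset_ground hf.2.1, fun e => e.2 (mem_insert_of_mem _ rfl)⟩

theorem Cov.memC (h : Cov M C D Vp Vm) (hT : G.U2 M T) (pe : e ∈ M.E ∧ e ∉ D \ {u, v}) (h1 : e ≠ u)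
    (h2 : e ≠ v) : e ∈ C := by
  rw [← (h.shape hT).1]
  exact ⟨pe.1, fun e => pe.2 ⟨e, by simp [h1, h2]⟩⟩

theorem Cov.cl_ne (h : Cov M C D Vp Vm) (hT : G.U2 M T) (hf : Fr M D Vp u v)
    (hc : Cls M (D \ {u, v}) cl) :
    cl u ≠ cl v ∧ ∀ e ∈ C, cl e ≠ cl u ∧ cl e ≠ cl v := by
  have h3 := h.three hf.2.2.2
  obtain ⟨x, hx⟩ : (D \ {u, v}).Nonempty := nonempty_of_ncard_ne_zero (by omega)
  have r := h.rc hT hf.2.2.2 hc hx
  refine ⟨fun e => hf.2.2.1 (r.single (h.pv hf) (h.notVm hf.2.1) (h.pu hf) e), fun e he =>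
    ⟨fun e' => ?_, fun e' => ?_⟩⟩
  · exact disjoint_left.1 h.dis he (r.single (h.pu hf) (h.notVm hf.1) (h.pC he _) e' ▸ hf.1)
  · exact disjoint_left.1 h.dis he (r.single (h.pv hf) (h.notVm hf.2.1) (h.pC he _) e' ▸ hf.2.1)

theorem Cov.base (h : Cov M C D Vp Vm) (hT : G.U2 M T) : M.IsBase D := by
  obtain ⟨u, v, hf⟩ := h.fr_ex hT
  obtain ⟨cl, hc⟩ := h.exists_cls hT hf.2.2.2
  have e1 := (hc.iff u v (h.pu hf) (h.pv hf)).not.1 (h.cl_ne hT hf hc).1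
  rw [sdiff_union_of_subset (pair_subset hf.1 hf.2.1)] at e1
  have e2 := (h.shape hT).2.2
  have e3 := hf.2.2.2.rank
  have e4 := rk_le_rank M D
  rw [isBase_iff_rk]
  omega

theorem Cov.full (h : Cov M C D Vp Vm) (hT : G.U2 M T) (hg : g ∈ D) (he : e ∈ C) :
    rk M (D \ {g} ∪ {e}) = rk M M.E := by
  obtain ⟨u, v, hf⟩ := h.fr_ex hT
  have key : ∀ u v, Fr M D Vp u v → rk M (D \ {u} ∪ {e}) = rk M M.E := by
    intro u v hf
    obtain ⟨cl, hc⟩ := h.exists_cls hT hf.2.2.2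
    have e1 := (hc.iff e v (h.pC he _) (h.pv hf)).not.1 ((h.cl_ne hT hf hc).2 e he).2
    have e2 := hf.2.2.2.rank
    have e3 := rk_le_rank M (D \ {u} ∪ {e})
    have h1 := hf.2.1
    have h2 := hf.2.2.1
    rw [show D \ {u, v} ∪ {e, v} = D \ {u} ∪ {e} by grind] at e1
    omega
  by_cases h1 : g = u
  · exact h1 ▸ key u v hf
  by_cases h2 : g = v
  · exact h2 ▸ key v u hf.symm
  obtain ⟨cl, hc⟩ := h.exists_cls hT hf.2.2.2
  have hx : g ∈ D \ {u, v} := ⟨hg, by simp [h1, h2]⟩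
  have n := h.cl_ne hT hf hc
  have e1 := (h.rc hT hf.2.2.2 hc hx).off_line (h.pu hf) (h.pv hf) n.1 (h.notVm hf.1)
    (h.notVm hf.2.1) (fun z pz n1 n2 e => disjoint_left.1 h.dis (h.memC hT pz n1 n2) (h.vp e))
    (h.pC he _) (n.2 e he).1 (n.2 e he).2
  have e2 := hf.2.2.2.rank
  have e3 := rk_le_rank M (D \ {g} ∪ {e})
  have h3 := hf.1
  have h4 := hf.2.1
  rw [show {e, u, v} ∪ (D \ {u, v}) \ {g} = D \ {g} ∪ {e} by grind] at e1
  omega

open Classical in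
/-- The exponents of the entries of a matrix. -/
noncomputable def xp (A : Matrix E E R0) (b e : E) : Mo :=
  if h : InG (A b e) then h.choose else 0

theorem Cov.xp_eq (h : Cov M C D Vp Vm) (hT : G.U2 M T) (hg : g ∈ D) (he : e ∈ C) :
    T D g e = mo (xp (T D) g e) := by
  have h1 : InG (T D g e) := (hT.inP (h.base hT) g e).resolve_left
    ((hT.d1_ne (h.base hT) hg).2 (h.full hT hg he))
  rw [xp, dif_pos h1]
  exact h1.choose_spec

theorem Cov.d2_eq (h : Cov M C D Vp Vm) (hT : G.U2 M T) (hg : g ∈ D) (hk : k ∈ D) (he : e ∈ C)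
    (hf : f ∈ C) : d2 (T D) g k e f =
      mo (xp (T D) g e + xp (T D) k f) - mo (xp (T D) g f + xp (T D) k e) := by
  rw [d2, mo_add, mo_add, ← h.xp_eq hT hg he, ← h.xp_eq hT hg hf, ← h.xp_eq hT hk he,
    ← h.xp_eq hT hk hf]

theorem Cov.rt_ne (h : Cov M C D Vp Vm) (hT : G.U2 M T) (hg : g ∈ D) (hk : k ∈ D) (hne : g ≠ k)
    (he : e ∈ C) (hf : f ∈ C) :
    rt (xp (T D)) g k e ≠ rt (xp (T D)) g k f ↔ rk M (D \ {g, k} ∪ {e, f}) = rk M M.E := by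
  rw [← hT.d2_ne (h.base hT) hg hk hne, h.d2_eq hT hg hk he hf, sub_ne_zero, rt, rt, ne_eq,
    sub_eq_sub_iff_add_eq_add]
  exact ⟨fun h1 h2 => h1 (mo_inj h2), fun h1 h2 => h1 (by rw [h2])⟩

theorem Cov.rt_fund (h : Cov M C D Vp Vm) (hT : G.U2 M T) (hg : g ∈ D) (hk : k ∈ D)
    (he : e ∈ C) (hf : f ∈ C) (hn : rt (xp (T D)) g k e ≠ rt (xp (T D)) g k f) :
    rt (xp (T D)) g k e - rt (xp (T D)) g k f ∈ fundL := by
  have h1 := hT.d2_inP (h.base hT) g k f e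
  rw [h.d2_eq hT hg hk hf he, inP_sub] at h1
  rcases h1 with h1 | h1
  · exact absurd (sub_eq_sub_iff_add_eq_add.2 h1) hn
  · convert h1 using 1
    simp only [rt]
    abel

theorem Cov.cl_iff (h : Cov M C D Vp Vm) (hT : G.U2 M T) (hf : Fr M D Vp u v)
    (hc : Cls M (D \ {u, v}) cl) (he : e ∈ C) (hf' : f ∈ C) :
    cl e = cl f ↔ rt (xp (T D)) u v e = rt (xp (T D)) u v f := by
  have e1 := h.rt_ne hT hf.1 hf.2.1 hf.2.2.1 he hf'
  have e2 := hf.2.2.2.rank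
  have e3 := rk_le_rank M (D \ {u, v} ∪ {e, f})
  rw [hc.iff e f (h.pC he _) (h.pC hf' _), ← not_iff_not, ← ne_eq, e1]
  omega

theorem Cov.col_iff (h : Cov M C D Vp Vm) (hT : G.U2 M T) (hf : Fr M D Vp u v) (hI : I = D \ {u, v})
    (hx : x ∈ I) (he : e ∈ C) (hf' : f ∈ C) :
    rk M ({e, f, v} ∪ I \ {x}) ≤ I.ncard + 1 ↔ rt (xp (T D)) x u e = rt (xp (T D)) x u f := by
  subst hI
  have hxu : x ≠ u := fun e => hx.2 (Or.inl e)
  have hxv : x ≠ v := fun e => hx.2 (Or.inr e)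
  have e1 := h.rt_ne hT hx.1 hf.1 hxu he hf'
  have e2 := hf.2.2.2.rank
  have e3 := rk_le_rank M (D \ {x, u} ∪ {e, f})
  have h1 := hf.2.1
  have h2 := hf.2.2.1
  rw [show {e, f, v} ∪ (D \ {u, v}) \ {x} = D \ {x, u} ∪ {e, f} by grind, ← not_iff_not, ← ne_eq,
    e1]
  omega

theorem Cov.par_rt (h : Cov M C D Vp Vm) (hT : G.U2 M T) (hf : Fr M D Vp u v) (hI : I = D \ {u, v})
    (hx : x ∈ I) (he : e ∈ C) (hf' : f ∈ C) (hp : rk M ({e, f} ∪ I \ {x}) ≤ I.ncard) :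
    rt (xp (T D)) x u e = rt (xp (T D)) x u f := by
  rw [← h.col_iff hT hf hI hx he hf']
  have := rk_insert_le M v ({e, f} ∪ I \ {x})
  rw [show insert v ({e, f} ∪ I \ {x}) = {e, f, v} ∪ I \ {x} by grind] at this
  omega

theorem Cov.memC3 (h : Cov M C D Vp Vm) (hT : G.U2 M T)
    (hd : Df5 (fun a => a ∈ M.E ∧ a ∉ D \ {u, v}) cl p q s u v) : p ∈ C ∧ q ∈ C ∧ s ∈ C := by
  obtain ⟨pp, -, -, n1, n2, pq, ps, -, -, -, n3, n4, n5, n6, -⟩ := hd
  exact ⟨h.memC hT pp (ne_of_apply_ne cl n1) (ne_of_apply_ne cl n2),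
    h.memC hT pq (ne_of_apply_ne cl n3) (ne_of_apply_ne cl n4),
    h.memC hT ps (ne_of_apply_ne cl n5) (ne_of_apply_ne cl n6)⟩

theorem Cov.row_u (h : Cov M C D Vp Vm) (hT : G.U2 M T) (hf : Fr M D Vp u v) (hI : I = D \ {u, v})
    (hc : Cls M I cl) (hx : x ∈ I) (hd : Df5 (fun a => a ∈ M.E ∧ a ∉ I) cl p q s u v)
    (hr : RU (fun a => a ∈ M.E ∧ a ∉ I) cl (fun a b c => rk M ({a, b, c} ∪ I \ {x}) ≤ I.ncard + 1)
      (fun a b => rk M ({a, b} ∪ I \ {x}) ≤ I.ncard) p q s u v) :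
    p ∈ C ∧ ∀ c ∈ C,
      (rt (xp (T D)) u v c ≠ rt (xp (T D)) u v p → rt (xp (T D)) x u c = rt (xp (T D)) x u q) ∧
      ∃ d ∈ C, rt (xp (T D)) x v c = rt (xp (T D)) x u q + rt (xp (T D)) u v d := by
  have hI' : I = D \ {v, u} := by rw [hI, pair_comm]
  obtain ⟨hp, hq, hs⟩ := h.memC3 hT (hI ▸ hd)
  obtain ⟨k, nq, ns, hy⟩ := hr
  have k1 := (h.col_iff hT hf hI hx hq hs).1 k
  have pc : ∀ c ∈ C, c ∈ M.E ∧ c ∉ I := fun c hc => hI ▸ h.pC hc _
  have key : ∀ c ∈ C, cl c ≠ cl p → rt (xp (T D)) x u c = rt (xp (T D)) x u q := by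
    intro c hc' hn
    have n := (h.cl_ne hT hf (hI ▸ hc)).2 c hc'
    rcases hd.cover c with e | e | e | e | e
    · exact absurd e hn
    · exact (h.par_rt hT hf hI hx hq hc' (nq c (pc c hc') e)).symm
    · exact (h.par_rt hT hf hI hx hs hc' (ns c (pc c hc') e)).symm.trans k1.symm
    · exact absurd e n.1
    · exact absurd e n.2
  refine ⟨hp, fun c hc' => ⟨fun hn => key c hc' fun e => hn ?_, ?_⟩⟩
  · exact (h.cl_iff hT hf (hI ▸ hc) hc' hp).1 e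
  · by_cases e : cl c = cl p
    · rcases hy c (pc c hc') e with m | m | m
      · exact ⟨c, hc', by rw [rt_add _ x u v, (h.col_iff hT hf hI hx hc' hq).1 m]⟩
      · exact ⟨q, hq, by rw [(h.col_iff hT hf.symm hI' hx hc' hq).1 m, rt_add _ x u v]⟩
      · exact ⟨s, hs, by rw [(h.col_iff hT hf.symm hI' hx hc' hs).1 m, rt_add _ x u v, k1]⟩
    · exact ⟨c, hc', by rw [rt_add _ x u v, key c hc' e]⟩

theorem Cov.row_w (h : Cov M C D Vp Vm) (hT : G.U2 M T) (hf : Fr M D Vp u v) (hI : I = D \ {u, v})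
    (hc : Cls M I cl) (hx : x ∈ I) (hd : Df5 (fun a => a ∈ M.E ∧ a ∉ I) cl p q s u v)
    (hr : RW (fun a => a ∈ M.E ∧ a ∉ I) cl (fun a b c => rk M ({a, b, c} ∪ I \ {x}) ≤ I.ncard + 1)
      (fun a b => rk M ({a, b} ∪ I \ {x}) ≤ I.ncard) p q s u v) :
    s ∈ C ∧ ∀ c ∈ C, rt (xp (T D)) x u c = rt (xp (T D)) x u s ∨
      rt (xp (T D)) x v c = rt (xp (T D)) x u s + rt (xp (T D)) u v s := by
  have hI' : I = D \ {v, u} := by rw [hI, pair_comm]
  obtain ⟨hp, hq, hs⟩ := h.memC3 hT (hI ▸ hd)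
  obtain ⟨ns, hy⟩ := hr
  have pc : ∀ c ∈ C, c ∈ M.E ∧ c ∉ I := fun c hc => hI ▸ h.pC hc _
  refine ⟨hs, fun c hc' => ?_⟩
  have n := (h.cl_ne hT hf (hI ▸ hc)).2 c hc'
  have key : cl c = cl p ∨ cl c = cl q → rt (xp (T D)) x u c = rt (xp (T D)) x u s ∨
      rt (xp (T D)) x v c = rt (xp (T D)) x u s + rt (xp (T D)) u v s := fun e => by
    rcases hy c (pc c hc') e with m | m
    · exact Or.inl ((h.col_iff hT hf hI hx hc' hs).1 m)
    · exact Or.inr (by rw [(h.col_iff hT hf.symm hI' hx hc' hs).1 m, rt_add _ x u v])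
  rcases hd.cover c with e | e | e | e | e
  · exact key (Or.inl e)
  · exact key (Or.inr e)
  · exact Or.inl (h.par_rt hT hf hI hx hs hc' (ns c (pc c hc') e)).symm
  · exact absurd e n.1
  · exact absurd e n.2

theorem Cov.move (h : Cov M C D Vp Vm) (hT : G.U2 M T) (hf : Fr M D Vp u v) (hx : x ∈ D)
    (hxv : x ≠ v) (hp : p ∈ C) (hq : q ∈ C) (hs : s ∈ C)
    (n1 : rt (xp (T D)) x v p ≠ rt (xp (T D)) x v q)
    (n2 : rt (xp (T D)) x v p ≠ rt (xp (T D)) x v s)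
    (n3 : rt (xp (T D)) x v q ≠ rt (xp (T D)) x v s) : Fr M D Vp x v := by
  have hv := hf.2.1
  have hB := h.base hT
  have e0 := (h.shape hT).2.2
  have e1 := ncard_sdiff_add_ncard_of_subset (pair_subset hx hv) D.toFinite
  rw [ncard_pair hxv] at e1
  have e2 : rk M M.E = (D \ {x, v}).ncard + 2 := by omega
  have k1 : ∀ c ∈ C, rk M (D \ {x, v} ∪ {x, c}) = (D \ {x, v}).ncard + 2 := fun c hc => by
    rw [show D \ {x, v} ∪ {x, c} = D \ {v} ∪ {c} by grind, h.full hT hv hc, e2]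
  have k2 : ∀ c ∈ C, rk M (D \ {x, v} ∪ {v, c}) = (D \ {x, v}).ncard + 2 := fun c hc => by
    rw [show D \ {x, v} ∪ {v, c} = D \ {x} ∪ {c} by grind, h.full hT hx hc, e2]
  have ne : ∀ b ∈ D, ∀ c ∈ C, b ≠ c := fun b hb c hc e => disjoint_left.1 h.dis hc (e ▸ hb)
  have hl : Line M (D \ {x, v}) {x, v, p, q, s} := by
    refine ⟨hB.indep.subset sdiff_subset, e2, ?_, ?_⟩
    · have h1 := h.cocirc.subset_ground
      have h2 := h.circ.subset_ground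
      simp [insert_subset_iff, h1 hx, h1 hv, h2 hp, h2 hq, h2 hs]
    · refine all2 (R := fun a b => rk M (D \ {x, v} ∪ {a, b}) = (D \ {x, v}).ncard + 2)
        (fun a b e => by rwa [pair_comm b a]) ?_ (k1 p hp) (k1 q hq) (k1 s hs) (k2 p hp) (k2 q hq)
        (k2 s hs) (((h.rt_ne hT hx hv hxv hp hq).1 n1).trans e2)
        (((h.rt_ne hT hx hv hxv hp hs).1 n2).trans e2)
        (((h.rt_ne hT hx hv hxv hq hs).1 n3).trans e2)
      rw [sdiff_union_of_subset (pair_subset hx hv), rk_indep hB.indep, e0, e2]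
  have hfr := hl.frame (ncard_five hxv (ne x hx p hp) (ne x hx q hq) (ne x hx s hs) (ne v hv p hp)
    (ne v hv q hq) (ne v hv s hs) (fun e => n1 (e ▸ rfl)) (fun e => n2 (e ▸ rfl))
    fun e => n3 (e ▸ rfl))
  refine ⟨hx, hv, hxv, ⟨_, hfr⟩, (h.valid hfr (K := (D \ {x, v}) \ {u}) sdiff_subset ?_ ?_).1,
    e2.symm⟩
  · refine Subset.trans ?_ hf.2.2.2.sub
    grind
  · have e3 := ncard_le_ncard (show D \ {x, v} ⊆ insert u ((D \ {x, v}) \ {u}) by grind)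
    have e4 := ncard_insert_le u ((D \ {x, v}) \ {u})
    have e5 := h.rk5
    omega

theorem Cov.block (h : Cov M C D Vp Vm) (hT : G.U2 M T) (hS : S ⊆ D) (hS' : S' ⊆ C)
    (h1 : ∀ x ∈ D \ S, ∀ y ∈ D \ S, ∀ p ∈ S', ∀ q ∈ S',
      rt (xp (T D)) x y p = rt (xp (T D)) x y q) : rk M (S ∪ S') ≤ S.ncard + 1 := by
  have e0 := (h.shape hT).2.2
  rcases S'.eq_empty_or_nonempty with rfl | ⟨t, ht⟩
  · have := rk_le_ncard M S
    rw [union_empty]
    omega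
  rcases (D \ S).eq_empty_or_nonempty with e | ⟨g, hg⟩
  · have e1 := ncard_le_ncard (sdiff_eq_empty.1 e)
    have e2 := rk_le_rank M (S ∪ S')
    omega
  have htD : t ∉ D := disjoint_left.1 h.dis (hS' ht)
  have e1 := h.full hT hg.1 (hS' ht)
  have e2 : (D \ {g} ∪ {t}).ncard = D.ncard := by
    rw [union_singleton, ncard_insert_of_notMem fun e => htD e.1,
      ncard_sdiff_singleton_add_one hg.1]
  have hB : M.IsBase (D \ {g} ∪ {t}) := isBase_iff_rk.2 (by omega)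
  have key : S' ⊆ M.closure (insert t S) := by
    intro z hz
    have hzE := h.circ.subset_ground (hS' hz)
    have hgS := hg.2
    rw [show insert t S = (D \ {g} ∪ {t}) \ ((D \ S) \ {g}) by grind]
    refine mem_closure_sdiff hB.indep (by rwa [hB.closure_eq]) fun k hk => ?_
    have hkg : g ≠ k := fun e => hk.2 e.symm
    have e3 := (h.rt_ne hT hg.1 hk.1.1 hkg (hS' ht) (hS' hz)).not.1
      (not_not.2 (h1 g hg k hk.1 t ht z hz))
    have hkt : k ≠ t := fun e => htD (e ▸ hk.1.1)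
    rw [show D \ {g, k} ∪ {t, z} = insert z ((D \ {g} ∪ {t}) \ {k}) by grind] at e3
    have e4 := rk_le_rank M (insert z ((D \ {g} ∪ {t}) \ {k}))
    have e5 := rk_mono M (subset_insert z ((D \ {g} ∪ {t}) \ {k}))
    have e6 := rk_indep (hB.indep.subset (sdiff_subset : (D \ {g} ∪ {t}) \ {k} ⊆ _))
    have e7 := ncard_sdiff_singleton_add_one (s := D \ {g} ∪ {t}) (a := k)
      (Or.inl ⟨hk.1.1, hk.2⟩) (toFinite _)
    rw [mem_closure_iff_rk hzE]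
    omega
  have e3 := rk_union_of_subset_closure key
  have e4 := rk_mono M (union_subset_union_left S' (subset_insert t S))
  have e5 := rk_insert_le M t S
  have e6 := rk_le_ncard M S
  omega

theorem two_indep {a b c d i j : ℤ} (h : a * d ≠ b * c) (h1 : i * a + j * c = 0)
    (h2 : i * b + j * d = 0) : i = 0 ∧ j = 0 := by
  have e1 : i * (a * d - b * c) = 0 := by linear_combination d * h1 - c * h2
  have e2 : j * (a * d - b * c) = 0 := by linear_combination a * h2 - b * h1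
  exact ⟨(mul_eq_zero.1 e1).resolve_right (sub_ne_zero.2 h),
    (mul_eq_zero.1 e2).resolve_right (sub_ne_zero.2 h)⟩

theorem fund_minor : ∀ m ∈ fundL, ∀ n ∈ fundL, m - n ∈ fundL →
    m.2.1 * n.2.2.1 ≠ m.2.2.1 * n.2.1 ∨ m.2.1 * n.2.2.2.1 ≠ m.2.2.2.1 * n.2.1 ∨
    m.2.1 * n.2.2.2.2.1 ≠ m.2.2.2.2.1 * n.2.1 ∨ m.2.1 * n.2.2.2.2.2 ≠ m.2.2.2.2.2 * n.2.1 ∨
    m.2.2.1 * n.2.2.2.1 ≠ m.2.2.2.1 * n.2.2.1 ∨ m.2.2.1 * n.2.2.2.2.1 ≠ m.2.2.2.2.1 * n.2.2.1 ∨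
    m.2.2.1 * n.2.2.2.2.2 ≠ m.2.2.2.2.2 * n.2.2.1 ∨
    m.2.2.2.1 * n.2.2.2.2.1 ≠ m.2.2.2.2.1 * n.2.2.2.1 ∨
    m.2.2.2.1 * n.2.2.2.2.2 ≠ m.2.2.2.2.2 * n.2.2.2.1 ∨
    m.2.2.2.2.1 * n.2.2.2.2.2 ≠ m.2.2.2.2.2 * n.2.2.2.2.1 := by
  decide +kernel

theorem fund_indep {m n : Mo} (hm : m ∈ fundL) (hn : n ∈ fundL) (hmn : m - n ∈ fundL) {i j : ℤ}
    (h : i • m + j • n = 0) : i = 0 ∧ j = 0 := by
  have e1 : i * m.2.1 + j * n.2.1 = 0 := congrArg (fun z : Mo => z.2.1) h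
  have e2 : i * m.2.2.1 + j * n.2.2.1 = 0 := congrArg (fun z : Mo => z.2.2.1) h
  have e3 : i * m.2.2.2.1 + j * n.2.2.2.1 = 0 := congrArg (fun z : Mo => z.2.2.2.1) h
  have e4 : i * m.2.2.2.2.1 + j * n.2.2.2.2.1 = 0 := congrArg (fun z : Mo => z.2.2.2.2.1) h
  have e5 : i * m.2.2.2.2.2 + j * n.2.2.2.2.2 = 0 := congrArg (fun z : Mo => z.2.2.2.2.2) h
  rcases fund_minor m hm n hn hmn with k | k | k | k | k | k | k | k | k | k
  exacts [two_indep k e1 e2, two_indep k e1 e3, two_indep k e1 e4, two_indep k e1 e5,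
    two_indep k e2 e3, two_indep k e2 e4, two_indep k e2 e5, two_indep k e3 e4, two_indep k e3 e5,
    two_indep k e4 e5]

theorem Cov.eg [DecidableEq E] {C D : Finset E} (h : Cov M C D Vp Vm) (hT : G.U2 M T) :
    EG D C (xp (T D)) (Fr M D Vp) where
  cardD := by
    have e1 := (h.shape hT).2.2
    have e2 := h.rk5
    rw [ncard_coe_finset] at e1
    omega
  cardC := by
    have e1 := (h.shape hT).2
    rw [ncard_coe_finset, ncard_coe_finset] at e1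
    omega
  symm := fun _ _ hf => hf.symm
  mem := fun _ _ hf => ⟨hf.1, hf.2.1, hf.2.2.1⟩
  three := fun u v hf => by
    obtain ⟨cl, hc⟩ := h.exists_cls hT hf.2.2.2
    have h3 := h.three hf.2.2.2
    obtain ⟨x, hx⟩ : ((D : Set E) \ {u, v}).Nonempty := nonempty_of_ncard_ne_zero (by omega)
    have n := h.cl_ne hT hf hc
    obtain ⟨p, q, s, hd⟩ := (h.rc hT hf.2.2.2 hc hx).ext2 (h.pu hf) (h.pv hf) n.1
    obtain ⟨hp, hq, hs⟩ := h.memC3 hT hd
    refine ⟨p, q, s, ⟨hp, hq, hs, (h.cl_iff hT hf hc hp hq).not.1 hd.2.1,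
      (h.cl_iff hT hf hc hp hs).not.1 hd.2.2.1,
      (h.cl_iff hT hf hc hq hs).not.1 hd.2.2.2.2.2.2.2.2.2.1⟩, fun c hc' => ?_⟩
    rcases hd.cover c with e | e | e | e | e
    · exact Or.inl ((h.cl_iff hT hf hc hc' hp).1 e)
    · exact Or.inr (Or.inl ((h.cl_iff hT hf hc hc' hq).1 e))
    · exact Or.inr (Or.inr ((h.cl_iff hT hf hc hc' hs).1 e))
    · exact absurd e (n.2 c hc').1
    · exact absurd e (n.2 c hc').2
  tri := fun u v hf x hx h1 h2 => by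
    obtain ⟨cl, hc⟩ := h.exists_cls hT hf.2.2.2
    have hx' : x ∈ (D : Set E) \ {u, v} := ⟨hx, by simp [h1, h2]⟩
    obtain ⟨p, q, s, hd, hr | hr | hr⟩ := (h.rc hT hf.2.2.2 hc hx').tri (h.pu hf) (h.pv hf)
      (h.cl_ne hT hf hc).1 (h.notVm hf.1) (h.notVm hf.2.1)
      (fun z pz n1 n2 e => disjoint_left.1 h.dis (h.memC hT pz n1 n2) (h.vp e))
    · have := h.row_u hT hf rfl hc hx' hd hr
      exact ⟨_, p, this.1, Or.inl this.2⟩
    · have := h.row_u hT hf.symm (by rw [pair_comm]) hc hx' hd.swap45 hr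
      exact ⟨_, p, this.1, Or.inr (Or.inl this.2)⟩
    · have := h.row_w hT hf rfl hc hx' hd hr
      exact ⟨_, s, this.1, Or.inr (Or.inr this.2)⟩
  move := fun u v hf x hx _ h2 p q s h3 =>
    h.move hT hf hx h2 h3.1 h3.2.1 h3.2.2.1 h3.2.2.2.1 h3.2.2.2.2.1 h3.2.2.2.2.2
  sep := fun S hS S' hS' r1 r2 => by
    have hS1 : (S : Set E) ⊆ D := hS
    have hS2 : (S' : Set E) ⊆ C := hS'
    obtain ⟨e1, e2, e3⟩ := h.shape hT
    have b1 := h.block hT hS1 hS2 fun x hx y hy p hp q hq =>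
      r2 x (Finset.mem_sdiff.2 hx) y (Finset.mem_sdiff.2 hy) p hp q hq
    have b2 := h.block hT (S := (D : Set E) \ S) (S' := (C : Set E) \ S') sdiff_subset sdiff_subset
      fun x hx y hy p hp q hq => by
        rw [sdiff_sdiff_cancel_left hS1] at hx hy
        exact r1 x hx y hy p (Finset.mem_sdiff.2 hp) q (Finset.mem_sdiff.2 hq)
    have hd := h.dis
    have hDE := h.cocirc.subset_ground
    have e4 : M.E \ (S ∪ S') = (D : Set E) \ S ∪ (C : Set E) \ S' := by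
      rw [← e1] at hS2 ⊢
      grind
    have e5 := lam_add M (S ∪ S')
    have e6 := ncard_sdiff_add_ncard_of_subset hS1 (toFinite _)
    rw [e4] at e5
    have e7 := h.con (S ∪ S') (union_subset (hS1.trans hDE) (hS2.trans h.circ.subset_ground))
      (by omega)
    rw [e4, ncard_union_eq (hd.symm.mono hS1 hS2), ncard_union_eq (hd.symm.mono sdiff_subset
      sdiff_subset), ← Finset.coe_sdiff, ← Finset.coe_sdiff] at e7
    simp only [ncard_coe_finset] at e7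
    omega
  ex := h.fr_ex hT
  indep := fun u v hf p q s h3 m n e =>
    fund_indep (h.rt_fund hT hf.1 hf.2.1 h3.1 h3.2.2.1 h3.2.2.2.2.1)
      (h.rt_fund hT hf.1 hf.2.1 h3.2.1 h3.2.2.1 h3.2.2.2.2.2)
      (by
        rw [sub_sub_sub_cancel_right]
        exact h.rt_fund hT hf.1 hf.2.1 h3.1 h3.2.1 h3.2.2.2.1) e

/-- There is no uncovered pair. -/
theorem Cov.false (h : Cov M C D Vp Vm) (hT : G.U2 M T) : False := by
  classical
  lift C to Finset E using C.toFinite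
  lift D to Finset E using D.toFinite
  exact (h.eg hT).false

/-- Case II of the induction step. -/
theorem Set2.exists_val {F : Type} [Field F] {x y : R0 →+* F} {U W : Sb F E}
    (h : Set2 M T x y U W) (hf : Frame M I J) : ∃ φ, Val φ U W ∧ ¬ Gauge φ U W := by
  rcases h.exists_or_cov hf with k | ⟨C, D, Vp, Vm, k⟩
  · exact k
  · exact (k.false h.obj.tab).elim

end Pool.Agent.Lib.MP_10bdcf_co.II
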