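import Mathlib

/-!
Case II, end game: a group valued matrix with frames. Definitions and the transfer to integer
coordinates.
-/

namespace Pool.Agent.Lib.MP_10bdcf_co.II

variable {E : Type} {Γ : Type} [AddCommGroup Γ]

/-- The ratio of the rows `x`, `y` in the column `c` (written additively). -/
def rt (a : E → E → Γ) (x y c : E) : Γ := a x c - a y c

/-- The block with rows `S` and columns `T` has rank at most one. -/
def Rk1 (a : E → E → Γ) (S T : Finset E) : Prop :=
  ∀ x ∈ S, ∀ y ∈ S, ∀ p ∈ T, ∀ q ∈ T, rt a x y p = rt a x y q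

/-- The row `x` is proportional to `u` off the class `t`, and its ratios to `v` are levels. -/
def RowU (a : E → E → Γ) (C : Finset E) (u v x : E) (k t : Γ) : Prop :=
  ∀ c ∈ C, (rt a u v c ≠ t → rt a x u c = k) ∧ ∃ q ∈ C, rt a x v c = k + rt a u v q

/-- In each column the row `x` agrees with `u` or with the level `t` of `v`. -/
def RowW (a : E → E → Γ) (C : Finset E) (u v x : E) (k t : Γ) : Prop :=
  ∀ c ∈ C, rt a x u c = k ∨ rt a x v c = k + t

/-- The trichotomy for the row `x` in the frame `u`, `v`. -/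
def Tri (a : E → E → Γ) (C : Finset E) (u v x : E) : Prop :=
  ∃ k : Γ, ∃ p ∈ C, RowU a C u v x k (rt a u v p) ∨ RowU a C v u x k (rt a v u p) ∨
    RowW a C u v x k (rt a u v p)

/-- Three columns with different ratios. -/
def Three (a : E → E → Γ) (C : Finset E) (u v p q s : E) : Prop :=
  p ∈ C ∧ q ∈ C ∧ s ∈ C ∧ rt a u v p ≠ rt a u v q ∧ rt a u v p ≠ rt a u v s ∧
    rt a u v q ≠ rt a u v s

/-- The data of the end game without the independence of the levels. -/
structure EG0 [DecidableEq E] (D C : Finset E) (a : E → E → Γ) (Fr : E → E → Prop) : Prop where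
  cardD : 5 ≤ D.card
  cardC : C.card = D.card
  symm : ∀ u v, Fr u v → Fr v u
  mem : ∀ u v, Fr u v → u ∈ D ∧ v ∈ D ∧ u ≠ v
  three : ∀ u v, Fr u v → ∃ p q s, Three a C u v p q s ∧
    ∀ c ∈ C, rt a u v c = rt a u v p ∨ rt a u v c = rt a u v q ∨ rt a u v c = rt a u v s
  tri : ∀ u v, Fr u v → ∀ x ∈ D, x ≠ u → x ≠ v → Tri a C u v x
  move : ∀ u v, Fr u v → ∀ x ∈ D, x ≠ u → x ≠ v → ∀ p q s, Three a C x v p q s → Fr x v
  sep : ∀ S ⊆ D, ∀ T ⊆ C, Rk1 a S (C \ T) → Rk1 a (D \ S) T →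
    S.card + T.card ≤ 2 ∨ (D \ S).card + (C \ T).card ≤ 2

/-- The data of the end game. -/
structure EG [DecidableEq E] (D C : Finset E) (a : E → E → Γ) (Fr : E → E → Prop) : Prop
    extends EG0 D C a Fr where
  ex : ∃ u v, Fr u v
  indep : ∀ u v, Fr u v → ∀ p q s, Three a C u v p q s → ∀ m n : ℤ,
    m • (rt a u v p - rt a u v s) + n • (rt a u v q - rt a u v s) = 0 → m = 0 ∧ n = 0

theorem rt_swap (a : E → E → Γ) (x y c : E) : rt a y x c = -rt a x y c := by
  simp [rt]

theorem rt_add (a : E → E → Γ) (x y z c : E) : rt a x z c = rt a x y c + rt a y z c := by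
  simp [rt]

variable [DecidableEq E] {D C : Finset E} {a : E → E → Γ} {Fr : E → E → Prop}

theorem EG0.cover (h : EG0 D C a Fr) {u v : E} (hf : Fr u v) {p q s : E}
    (h3 : Three a C u v p q s) {c : E} (hc : c ∈ C) :
    rt a u v c = rt a u v p ∨ rt a u v c = rt a u v q ∨ rt a u v c = rt a u v s := by
  obtain ⟨p', q', s', -, hcov⟩ := h.three u v hf
  obtain ⟨hp, hq, hs, h1, h2, h3⟩ := h3
  have e1 := hcov p hp
  have e2 := hcov q hq
  have e3 := hcov s hs
  have e4 := hcov c hc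
  grind

/-- The size of the class of the column `p` in the frame `u`, `v`. -/
noncomputable def cs (a : E → E → Γ) (C : Finset E) (u v p : E) : ℕ := by
  classical exact (C.filter fun c => rt a u v c = rt a u v p).card

/-- Integer coordinates. -/
theorem EG.coord (h : EG D C a Fr) {u v : E} (hf : Fr u v) {p q s : E}
    (h3 : Three a C u v p q s) :
    ∃ m : E → E → ℤ × ℤ, EG0 D C m Fr ∧ (∀ x ∈ D, m x s = 0) ∧ (∀ c ∈ C, m v c = 0) ∧
      m u p = (1, 0) ∧ m u q = (0, 1) ∧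
      ∀ x ∈ D, ∀ y ∈ D, ∀ c ∈ C, ∀ d ∈ C, rt a x y c = rt a x y d ↔ rt m x y c = rt m x y d := by
  classical
  obtain ⟨hu, hv, huv⟩ := h.mem u v hf
  let φ : ℤ × ℤ →+ Γ :=
    { toFun := fun w => w.1 • (rt a u v p - rt a u v s) + w.2 • (rt a u v q - rt a u v s)
      map_zero' := by simp
      map_add' := fun x y => by simp only [Prod.fst_add, Prod.snd_add, add_smul]; abel }
  have hφ : Function.Injective φ := by
    rw [injective_iff_map_eq_zero]
    intro w hw
    have := h.indep u v hf p q s h3 w.1 w.2 hw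
    exact Prod.ext this.1 this.2
  have hp := h3.1
  have hq := h3.2.1
  have hs := h3.2.2.1
  have hlev : ∀ c ∈ C, rt a u v c - rt a u v s ∈ φ.range := by
    intro c hc
    rcases h.toEG0.cover hf h3 hc with e | e | e
    · exact ⟨(1, 0), by simp [φ, e]⟩
    · exact ⟨(0, 1), by simp [φ, e]⟩
    · exact ⟨0, by simp [e]⟩
  have hlev2 : ∀ c ∈ C, ∀ d ∈ C, rt a u v c - rt a u v d ∈ φ.range := by
    intro c hc d hd
    have := sub_mem (hlev c hc) (hlev d hd)
    rwa [sub_sub_sub_cancel_right] at this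
  have hex : ∀ x ∈ D, ∀ c ∈ C, rt a x v c - rt a x v s ∈ φ.range := by
    intro x hx c hc
    by_cases hxu : x = u
    · subst hxu; exact hlev c hc
    by_cases hxv : x = v
    · subst hxv; simp [rt]
    obtain ⟨k, t, ht, hU | hV | hW⟩ := h.tri u v hf x hx hxu hxv
    · obtain ⟨q1, hq1, e1⟩ := (hU c hc).2
      obtain ⟨q2, hq2, e2⟩ := (hU s hs).2
      rw [e1, e2, add_sub_add_left_eq_sub]
      exact hlev2 _ hq1 _ hq2
    · obtain ⟨q1, hq1, e1⟩ := (hV c hc).2
      obtain ⟨q2, hq2, e2⟩ := (hV s hs).2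
      rw [rt_add a x u v c, rt_add a x u v s, e1, e2, rt_swap a u v q1, rt_swap a u v q2]
      have := add_mem (hlev2 _ hc _ hq1) (hlev2 _ hq2 _ hs)
      convert this using 1
      abel
    · have key : ∀ c ∈ C, ∃ q ∈ C, rt a x v c = k + rt a u v q := by
        intro c hc
        rcases hW c hc with e | e
        · exact ⟨c, hc, by rw [rt_add a x u v c, e]⟩
        · exact ⟨t, ht, e⟩
      obtain ⟨q1, hq1, e1⟩ := key c hc
      obtain ⟨q2, hq2, e2⟩ := key s hs
      rw [e1, e2, add_sub_add_left_eq_sub]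
      exact hlev2 _ hq1 _ hq2
  let m : E → E → ℤ × ℤ := fun x c =>
    if hh : rt a x v c - rt a x v s ∈ φ.range then hh.choose else 0
  have hm : ∀ x ∈ D, ∀ c ∈ C, φ (m x c) = rt a x v c - rt a x v s := by
    intro x hx c hc
    simp only [m, dif_pos (hex x hx c hc)]
    exact (hex x hx c hc).choose_spec
  have hr : ∀ x ∈ D, ∀ y ∈ D, ∀ c ∈ C, rt a x y c = rt a x y s + φ (rt m x y c) := by
    intro x hx y hy c hc
    rw [rt.eq_1 m, map_sub, hm x hx c hc, hm y hy c hc]
    simp only [rt]; abel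
  have hiff : ∀ x ∈ D, ∀ y ∈ D, ∀ c ∈ C, ∀ d ∈ C,
      rt a x y c = rt a x y d ↔ rt m x y c = rt m x y d := by
    intro x hx y hy c hc d hd
    rw [hr x hx y hy c hc, hr x hx y hy d hd, add_right_inj, hφ.eq_iff]
  have hthree : ∀ x ∈ D, ∀ y ∈ D, ∀ p q s, Three a C x y p q s ↔ Three m C x y p q s := by
    intro x hx y hy p q s
    unfold Three
    constructor
    · rintro ⟨a1, a2, a3, b1, b2, b3⟩
      exact ⟨a1, a2, a3, mt (hiff x hx y hy _ a1 _ a2).2 b1, mt (hiff x hx y hy _ a1 _ a3).2 b2,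
        mt (hiff x hx y hy _ a2 _ a3).2 b3⟩
    · rintro ⟨a1, a2, a3, b1, b2, b3⟩
      exact ⟨a1, a2, a3, mt (hiff x hx y hy _ a1 _ a2).1 b1, mt (hiff x hx y hy _ a1 _ a3).1 b2,
        mt (hiff x hx y hy _ a2 _ a3).1 b3⟩
  have hrk : ∀ S ⊆ D, ∀ T ⊆ C, Rk1 m S T → Rk1 a S T := by
    intro S hS T hT hh x hx y hy p hp q hq
    exact (hiff x (hS hx) y (hS hy) p (hT hp) q (hT hq)).2 (hh x hx y hy p hp q hq)
  have hU : ∀ u' ∈ D, ∀ v' ∈ D, ∀ x ∈ D, ∀ k, ∀ t ∈ C, RowU a C u' v' x k (rt a u' v' t) →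
      ∃ k', RowU m C u' v' x k' (rt m u' v' t) := by
    intro u' hu' v' hv' x hx k t ht hh
    obtain ⟨q0, hq0, e0⟩ := (hh t ht).2
    have hk : k = rt a x u' s + φ (rt m x v' t - rt m u' v' q0) := by
      rw [hr x hx v' hv' t ht, hr u' hu' v' hv' q0 hq0, rt_add a x u' v' s] at e0
      rw [map_sub]
      have : k = rt a x u' s + rt a u' v' s + φ (rt m x v' t) -
          (rt a u' v' s + φ (rt m u' v' q0)) := by rw [e0]; abel
      rw [this]; abel
    refine ⟨rt m x v' t - rt m u' v' q0, fun c hc => ⟨fun hne => ?_, ?_⟩⟩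
    · have := (hh c hc).1 (mt (hiff u' hu' v' hv' c hc t ht).1 hne)
      rw [hr x hx u' hu' c hc, hk, add_right_inj, hφ.eq_iff] at this
      exact this
    · obtain ⟨q1, hq1, e1⟩ := (hh c hc).2
      refine ⟨q1, hq1, hφ ?_⟩
      rw [hr x hx v' hv' c hc, hr u' hu' v' hv' q1 hq1, hk, rt_add a x u' v' s] at e1
      rw [map_add]
      have : φ (rt m x v' c) = rt a x u' s + φ (rt m x v' t - rt m u' v' q0) +
          (rt a u' v' s + φ (rt m u' v' q1)) - (rt a x u' s + rt a u' v' s) := by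
        rw [← e1]; abel
      rw [this]; abel
  refine ⟨m, ⟨h.cardD, h.cardC, h.symm, h.mem, ?_, ?_, ?_, ?_⟩, ?_, ?_, ?_, ?_, hiff⟩
  · intro u' v' hf'
    obtain ⟨hu', hv', -⟩ := h.mem u' v' hf'
    obtain ⟨p', q', s', h3', hcov⟩ := h.three u' v' hf'
    refine ⟨p', q', s', (hthree _ hu' _ hv' _ _ _).1 h3', fun c hc => ?_⟩
    rw [← hiff _ hu' _ hv' _ hc _ h3'.1, ← hiff _ hu' _ hv' _ hc _ h3'.2.1,
      ← hiff _ hu' _ hv' _ hc _ h3'.2.2.1]
    exact hcov c hc
  · intro u' v' hf' x hx hxu hxv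
    obtain ⟨hu', hv', -⟩ := h.mem u' v' hf'
    obtain ⟨k, t, ht, h1 | h1 | h1⟩ := h.tri u' v' hf' x hx hxu hxv
    · obtain ⟨k', hk'⟩ := hU u' hu' v' hv' x hx k t ht h1
      exact ⟨k', t, ht, Or.inl hk'⟩
    · obtain ⟨k', hk'⟩ := hU v' hv' u' hu' x hx k t ht h1
      exact ⟨k', t, ht, Or.inr (Or.inl hk')⟩
    · have hk : k = rt a x u' t := by
        rcases h1 t ht with e | e
        · exact e.symm
        · rw [rt_add a x u' v' t, add_left_inj] at e; exact e.symm
      refine ⟨rt m x u' t, t, ht, Or.inr (Or.inr fun c hc => ?_)⟩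
      rcases h1 c hc with e | e
      · left; rw [hk] at e; exact (hiff x hx u' hu' c hc t ht).1 e
      · right
        rw [hk, ← rt_add] at e
        rw [← rt_add]; exact (hiff x hx v' hv' c hc t ht).1 e
  · intro u' v' hf' x hx hxu hxv p' q' s' h3'
    obtain ⟨-, hv', -⟩ := h.mem u' v' hf'
    exact h.move u' v' hf' x hx hxu hxv p' q' s' ((hthree _ hx _ hv' _ _ _).2 h3')
  · intro S hS T hT h1 h2
    exact h.sep S hS T hT (hrk S hS _ Finset.sdiff_subset h1) (hrk _ Finset.sdiff_subset T hT h2)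
  · intro x hx
    apply hφ; rw [hm x hx s hs]; simp
  · intro c hc
    apply hφ; rw [hm v hv c hc]; simp [rt]
  · apply hφ; rw [hm u hu p hp]; simp [φ]
  · apply hφ; rw [hm u hu q hq]; simp [φ]

/-- The trichotomy with the three levels named. -/
theorem EG0.tri' (h : EG0 D C a Fr) {u v : E} (hf : Fr u v) {p q s : E}
    (h3 : Three a C u v p q s) {x : E} (hx : x ∈ D) (hxu : x ≠ u) (hxv : x ≠ v) :
    ∃ k t : Γ, (t = rt a u v p ∨ t = rt a u v q ∨ t = rt a u v s) ∧
      ((∀ c ∈ C, (rt a u v c = t ∨ rt a x u c = k) ∧ (rt a x v c = k + rt a u v p ∨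
          rt a x v c = k + rt a u v q ∨ rt a x v c = k + rt a u v s)) ∨
       (∀ c ∈ C, (rt a u v c = t ∨ rt a x v c = k) ∧ (rt a x u c = k - rt a u v p ∨
          rt a x u c = k - rt a u v q ∨ rt a x u c = k - rt a u v s)) ∨
       (∀ c ∈ C, rt a x u c = k ∨ rt a x v c = k + t)) := by
  obtain ⟨k, t, ht, h1 | h1 | h1⟩ := h.tri u v hf x hx hxu hxv
  · refine ⟨k, _, h.cover hf h3 ht, Or.inl fun c hc => ⟨or_iff_not_imp_left.2 (h1 c hc).1, ?_⟩⟩
    obtain ⟨q1, hq1, e1⟩ := (h1 c hc).2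
    rcases h.cover hf h3 hq1 with e | e | e <;> simp [e1, e]
  · refine ⟨k, _, h.cover hf h3 ht, Or.inr (Or.inl fun c hc => ⟨?_, ?_⟩)⟩
    · refine or_iff_not_imp_left.2 fun hne => (h1 c hc).1 fun e => hne ?_
      rw [rt_swap a u v c, rt_swap a u v t, neg_inj] at e
      exact e
    · obtain ⟨q1, hq1, e1⟩ := (h1 c hc).2
      rw [rt_swap a u v q1, ← sub_eq_add_neg] at e1
      rcases h.cover hf h3 hq1 with e | e | e <;> simp [e1, e]
  · exact ⟨k, _, h.cover hf h3 ht, Or.inr (Or.inr h1)⟩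

/-- Two rows are not proportional off one column. -/
theorem EG0.rows (h : EG0 D C a Fr) {x y : E} (hx : x ∈ D) (hy : y ∈ D) (hxy : x ≠ y) {z : E}
    (hz : z ∈ C) {k : Γ} (hk : ∀ c ∈ C, c ≠ z → rt a x y c = k) : False := by
  have h5 := h.cardD
  have h6 := h.cardC
  have hS : ({x, y} : Finset E) ⊆ D := by simp [Finset.insert_subset_iff, hx, hy]
  have hT : ({z} : Finset E) ⊆ C := by simp [hz]
  have c1 : ({x, y} : Finset E).card = 2 := Finset.card_pair hxy
  refine (h.sep {x, y} hS {z} hT ?_ ?_).elim (fun e => ?_) (fun e => ?_)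
  rotate_left 2
  · rw [c1, Finset.card_singleton] at e; omega
  · rw [Finset.card_sdiff_of_subset hS, Finset.card_sdiff_of_subset hT, c1,
      Finset.card_singleton] at e
    omega
  · intro x1 h1 x2 h2 p hp q hq
    simp only [Finset.mem_sdiff, Finset.mem_singleton] at hp hq
    have e1 := hk p hp.1 hp.2
    have e2 := hk q hq.1 hq.2
    simp only [Finset.mem_insert, Finset.mem_singleton] at h1 h2
    rcases h1 with rfl | rfl <;> rcases h2 with rfl | rfl
    · simp [rt]
    · rw [e1, e2]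
    · rw [rt_swap a _ _ p, rt_swap a _ _ q, e1, e2]
    · simp [rt]
  · intro x1 _ x2 _ p hp q hq
    rw [Finset.mem_singleton.1 hp, Finset.mem_singleton.1 hq]

/-- Two columns are not proportional. -/
theorem EG0.cols (h : EG0 D C a Fr) {p q : E} (hp : p ∈ C) (hq : q ∈ C) (hpq : p ≠ q) {v : E}
    (hv : v ∈ D) (hk : ∀ x ∈ D, rt a x v p = rt a x v q) : False := by
  have h5 := h.cardD
  have h6 := h.cardC
  have hS : ({v} : Finset E) ⊆ D := by simp [hv]
  have hT : ({p, q} : Finset E) ⊆ C := by simp [Finset.insert_subset_iff, hp, hq]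
  have c1 : ({p, q} : Finset E).card = 2 := Finset.card_pair hpq
  have key : ∀ x ∈ D, ∀ y ∈ D, rt a x y p = rt a x y q := by
    intro x hx y hy
    rw [rt_add a x v y p, rt_add a x v y q, rt_swap a y v p, rt_swap a y v q, hk x hx, hk y hy]
  refine (h.sep {v} hS {p, q} hT ?_ ?_).elim (fun e => ?_) (fun e => ?_)
  rotate_left 2
  · rw [c1, Finset.card_singleton] at e; omega
  · rw [Finset.card_sdiff_of_subset hS, Finset.card_sdiff_of_subset hT, c1,
      Finset.card_singleton] at e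
    omega
  · intro x1 h1 x2 h2 p hp q hq
    rw [Finset.mem_singleton.1 h1, Finset.mem_singleton.1 h2]; simp [rt]
  · intro x1 h1 x2 h2 p' hp' q' hq'
    have := key x1 (Finset.mem_sdiff.1 h1).1 x2 (Finset.mem_sdiff.1 h2).1
    simp only [Finset.mem_insert, Finset.mem_singleton] at hp' hq'
    rcases hp' with rfl | rfl <;> rcases hq' with rfl | rfl <;> simp [this]

/-- A set of columns `T` on which all rows outside `S` are constant relative to `v`, such that the
rows in `S` are proportional to `w` outside `T`, has at most one element or is large. -/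
theorem EG0.block (h : EG0 D C a Fr) {S T : Finset E} (hS : S ⊆ D) (hT : T ⊆ C) {v w : E}
    (hv : v ∈ D) (h1 : ∀ x ∈ S, ∀ c ∈ C, c ∉ T → ∀ d ∈ C, d ∉ T → rt a x w c = rt a x w d)
    (h2 : ∀ x ∈ D, x ∉ S → ∀ c ∈ T, ∀ d ∈ T, rt a x v c = rt a x v d)
    (h3 : 3 ≤ (D \ S).card + (C \ T).card) (h4 : 2 ≤ T.card) : False := by
  refine (h.sep S hS T hT ?_ ?_).elim (fun e => ?_) (fun e => ?_)
  rotate_left 2
  · have : S = ∅ := Finset.card_eq_zero.1 (by omega)
    subst this
    obtain ⟨p, hp, q, hq, hpq⟩ := Finset.one_lt_card.1 (show 1 < T.card by omega)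
    exact h.cols (hT hp) (hT hq) hpq hv fun x hx => h2 x hx (by simp) p hp q hq
  · omega
  · intro x hx y hy p hp q hq
    rw [Finset.mem_sdiff] at hp hq
    rw [rt_add a x w y p, rt_add a x w y q, rt_swap a y w p, rt_swap a y w q,
      h1 x hx p hp.1 hp.2 q hq.1 hq.2, h1 y hy p hp.1 hp.2 q hq.1 hq.2]
  · intro x hx y hy p hp q hq
    rw [Finset.mem_sdiff] at hx hy
    rw [rt_add a x v y p, rt_add a x v y q, rt_swap a y v p, rt_swap a y v q,
      h2 x hx.1 hx.2 p hp q hq, h2 y hy.1 hy.2 p hp q hq]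

end Pool.Agent.Lib.MP_10bdcf_co.II
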