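import Pool.Agent.Lib.MP_10bdcf_co.IIE1

/-!
Case II, end game: the pair lemmas in integer coordinates.
-/

namespace Pool.Agent.Lib.MP_10bdcf_co.II

/-- Integer coordinates. -/
abbrev Z2 : Type := ℤ × ℤ

/-- One column of a row of the first kind. -/
def TU (r1 r2 r3 k t r a : Z2) : Prop :=
  (r = t ∨ a - r = k) ∧ (a = k + r1 ∨ a = k + r2 ∨ a = k + r3)

/-- One column of a row of the second kind. -/
def TV (r1 r2 r3 k t r a : Z2) : Prop :=
  (r = t ∨ a = k) ∧ (a - r = k - r1 ∨ a - r = k - r2 ∨ a - r = k - r3)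

/-- One column of a row of the third kind. -/
def TW (k t r a : Z2) : Prop := a - r = k ∨ a = k + t

instance (r1 r2 r3 k t r a : Z2) : Decidable (TU r1 r2 r3 k t r a) := by
  unfold TU; infer_instance

instance (r1 r2 r3 k t r a : Z2) : Decidable (TV r1 r2 r3 k t r a) := by
  unfold TV; infer_instance

instance (k t r a : Z2) : Decidable (TW k t r a) := by unfold TW; infer_instance

/-- The trichotomy on a list of columns. -/
def TP (r1 r2 r3 a1 : Z2) (L : List (Z2 × Z2)) : Prop :=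
  r1 ≠ r2 → r1 ≠ r3 → r2 ≠ r3 → ∃ t ∈ [r1, r2, r3],
    (∃ k ∈ [a1 - r1, a1 - r2, a1 - r3], ∀ e ∈ L, TU r1 r2 r3 k t e.1 e.2) ∨
    (∃ k ∈ [a1, a1 - r1 + r2, a1 - r1 + r3], ∀ e ∈ L, TV r1 r2 r3 k t e.1 e.2) ∨
    (∃ k ∈ [a1 - r1, a1 - t], ∀ e ∈ L, TW k t e.1 e.2)

instance (r1 r2 r3 a1 : Z2) (L : List (Z2 × Z2)) : Decidable (TP r1 r2 r3 a1 L) := by
  unfold TP; infer_instance

variable {E : Type} [DecidableEq E] {D C : Finset E} {m : E → E → Z2} {Fr : E → E → Prop}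

theorem EG0.tp (h : EG0 D C m Fr) {u v : E} (hf : Fr u v) {x y : E} (hx : x ∈ D) (hxu : x ≠ u)
    (hxv : x ≠ v) (hy : y ∈ D) (hyx : y ≠ x) (hyv : y ≠ v) {p q s : E} (hp : p ∈ C) (hq : q ∈ C)
    (hs : s ∈ C) (L : List E) (hL : ∀ c ∈ L, c ∈ C) :
    TP (m x p - m v p) (m x q - m v q) (m x s - m v s) (m y p - m v p)
      (L.map fun c => (m x c - m v c, m y c - m v c)) := by
  intro h1 h2 h3
  have t3 : Three m C x v p q s := ⟨hp, hq, hs, h1, h2, h3⟩
  have e : ∀ c, rt m y x c = m y c - m v c - (m x c - m v c) := fun c => by simp [rt]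
  obtain ⟨k, t, ht, hh | hh | hh⟩ := h.tri' (h.move u v hf x hx hxu hxv p q s t3) t3 hy hyx hyv
  all_goals simp only [e] at hh
  all_goals simp only [rt] at hh ht
  all_goals refine ⟨t, by simpa using ht, ?_⟩
  · refine Or.inl ⟨k, ?_, ?_⟩
    · rcases (hh p hp).2 with e | e | e <;> simp [e]
    · intro e he
      obtain ⟨c, hc, rfl⟩ := List.mem_map.1 he
      exact hh c (hL c hc)
  · refine Or.inr (Or.inl ⟨k, ?_, ?_⟩)
    · rcases (hh p hp).2 with e | e | e
      · rw [sub_left_inj] at e; simp [e]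
      · simp [e]
      · simp [e]
    · intro e he
      obtain ⟨c, hc, rfl⟩ := List.mem_map.1 he
      exact hh c (hL c hc)
  · refine Or.inr (Or.inr ⟨k, ?_, ?_⟩)
    · rcases hh p hp with e | e <;> simp [e]
    · intro e he
      obtain ⟨c, hc, rfl⟩ := List.mem_map.1 he
      exact hh c (hL c hc)

/-- A frame in integer coordinates. -/
structure NG (D C : Finset E) (m : E → E → Z2) (Fr : E → E → Prop) (u v p q s : E) : Prop
    extends EG0 D C m Fr where
  fr : Fr u v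
  hp : p ∈ C
  hq : q ∈ C
  hs : s ∈ C
  zs : ∀ x ∈ D, m x s = (0, 0)
  zv : ∀ c ∈ C, m v c = (0, 0)
  up : m u p = (1, 0)
  uq : m u q = (0, 1)

/-- A row other than the two rows of the frame. -/
def Oth (D : Finset E) (u v x : E) : Prop := x ∈ D ∧ x ≠ u ∧ x ≠ v

/-- Rows that agree with `u` off the first class. -/
def U1 (C : Finset E) (m : E → E → Z2) (u x : E) : Prop := ∀ c ∈ C,
  (m u c = (1, 0) ∨ m x c = m u c) ∧ (m x c = (1, 0) ∨ m x c = (0, 1) ∨ m x c = (0, 0))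

/-- Rows that agree with `v` off the first class. -/
def V1 (C : Finset E) (m : E → E → Z2) (u x : E) : Prop := ∀ c ∈ C,
  (m u c = (1, 0) ∨ m x c = (0, 0)) ∧ (m x c = (0, 0) ∨ m x c = (1, -1) ∨ m x c = (1, 0))

/-- Rows that agree with `u` off the second class. -/
def U2 (C : Finset E) (m : E → E → Z2) (u x : E) : Prop := ∀ c ∈ C,
  (m u c = (0, 1) ∨ m x c = m u c) ∧ (m x c = (1, 0) ∨ m x c = (0, 1) ∨ m x c = (0, 0))

/-- Rows that agree with `v` off the second class. -/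
def V2 (C : Finset E) (m : E → E → Z2) (u x : E) : Prop := ∀ c ∈ C,
  (m u c = (0, 1) ∨ m x c = (0, 0)) ∧ (m x c = (0, 0) ∨ m x c = (-1, 1) ∨ m x c = (0, 1))

/-- Rows that agree with `u` or `v` in each column and vary on the first two classes. -/
def W3 (C : Finset E) (m : E → E → Z2) (u x : E) : Prop :=
  (∀ c ∈ C, m x c = m u c ∨ m x c = (0, 0)) ∧
    (∃ c ∈ C, m u c = (1, 0) ∧ m x c = (1, 0)) ∧ (∃ c ∈ C, m u c = (1, 0) ∧ m x c = (0, 0)) ∧
    (∃ c ∈ C, m u c = (0, 1) ∧ m x c = (0, 1)) ∧ (∃ c ∈ C, m u c = (0, 1) ∧ m x c = (0, 0))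

variable {u v p q s : E}

theorem NG.hu (h : NG D C m Fr u v p q s) : u ∈ D := (h.mem u v h.fr).1

theorem NG.hv (h : NG D C m Fr u v p q s) : v ∈ D := (h.mem u v h.fr).2.1

theorem NG.three' (h : NG D C m Fr u v p q s) : Three m C u v p q s := by
  refine ⟨h.hp, h.hq, h.hs, ?_, ?_, ?_⟩ <;>
    simp [rt, h.up, h.uq, h.zs u h.hu, h.zv _ h.hp, h.zv _ h.hq, h.zv _ h.hs]

theorem NG.cov (h : NG D C m Fr u v p q s) {c : E} (hc : c ∈ C) :
    m u c = (1, 0) ∨ m u c = (0, 1) ∨ m u c = (0, 0) := by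
  have := h.toEG0.cover h.fr h.three' hc
  simp only [rt, h.zv _ h.hp, h.zv _ h.hq, h.zv _ h.hs, h.zv _ hc, sub_left_inj] at this
  rwa [h.up, h.uq, h.zs u h.hu] at this

theorem NG.tv (h : NG D C m Fr u v p q s) {x y : E} (hx : Oth D u v x) (hy : Oth D u v y)
    (hyx : y ≠ x) {c1 c2 c3 : E} (h1 : c1 ∈ C) (h2 : c2 ∈ C) (h3 : c3 ∈ C) (L : List E)
    (hL : ∀ c ∈ L, c ∈ C) :
    TP (m x c1 - m v c1) (m x c2 - m v c2) (m x c3 - m v c3) (m y c1 - m v c1)
      (L.map fun c => (m x c - m v c, m y c - m v c)) :=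
  h.toEG0.tp h.fr hx.1 hx.2.1 hx.2.2 hy.1 hyx hy.2.2 h1 h2 h3 L hL

theorem NG.tu (h : NG D C m Fr u v p q s) {x y : E} (hx : Oth D u v x) (hy : Oth D u v y)
    (hyx : y ≠ x) {c1 c2 c3 : E} (h1 : c1 ∈ C) (h2 : c2 ∈ C) (h3 : c3 ∈ C) (L : List E)
    (hL : ∀ c ∈ L, c ∈ C) :
    TP (m x c1 - m u c1) (m x c2 - m u c2) (m x c3 - m u c3) (m y c1 - m u c1)
      (L.map fun c => (m x c - m u c, m y c - m u c)) :=
  h.toEG0.tp (h.symm _ _ h.fr) hx.1 hx.2.2 hx.2.1 hy.1 hyx hy.2.1 h1 h2 h3 L hL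

theorem U1.atq (h : NG D C m Fr u v p q s) {x : E} (hx : U1 C m u x) : m x q = (0, 1) := by
  have := (hx q h.hq).1
  simpa [h.uq] using this

theorem V1.atq (h : NG D C m Fr u v p q s) {x : E} (hx : V1 C m u x) : m x q = (0, 0) := by
  have := (hx q h.hq).1
  simpa [h.uq] using this

theorem U2.atp (h : NG D C m Fr u v p q s) {x : E} (hx : U2 C m u x) : m x p = (1, 0) := by
  have := (hx p h.hp).1
  simpa [h.up] using this

theorem V2.atp (h : NG D C m Fr u v p q s) {x : E} (hx : V2 C m u x) : m x p = (0, 0) := by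
  have := (hx p h.hp).1
  simpa [h.up] using this

/-- Mixed pairs on the first class whose supports meet. -/
theorem NG.mixed (h : NG D C m Fr u v p q s) {x y : E} (hx : Oth D u v x) (hy : Oth D u v y)
    (hU : U1 C m u x) (hV : V1 C m u y) {c d : E} (hc : c ∈ C) (hd : d ∈ C)
    (pc : m u c = (1, 0)) (pd : m u d = (1, 0)) (xc : m x c ≠ (1, 0)) (yc : m y c ≠ (0, 0)) :
    (m x d = m x c ∧ m y d = m y c) ∨
    (m x c = (0, 1) ∧ m y c = (1, 0) ∧ ((m x d = (1, 0) ∧ m y d = (1, 0)) ∨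
      (m x d = (0, 1) ∧ m y d = (0, 0)) ∨ (m x d = (0, 0) ∧ m y d = (1, -1)))) ∨
    (m x c = (0, 0) ∧ m y c = (1, -1) ∧ ((m x d = (1, 0) ∧ m y d = (1, -1)) ∨
      (m x d = (0, 0) ∧ m y d = (0, 0)) ∨ (m x d = (0, 1) ∧ m y d = (1, 0)))) := by
  have xq := hU.atq h
  have yq := hV.atq h
  have hyx : y ≠ x := fun e => by rw [e, xq] at yq; exact absurd yq (by decide)
  have hL : ∀ e ∈ [c, d, q, s], e ∈ C := by simp [hc, hd, h.hq, h.hs]
  have T1 := h.tv hx hy hyx hd h.hq h.hs _ hL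
  have T2 := h.tu hx hy hyx hc hd h.hq _ hL
  have T3 := h.tu hy hx hyx.symm hd h.hq h.hs _ hL
  have T4 := h.tv hy hx hyx.symm hc hd h.hq _ hL
  have a1 := (hU c hc).2
  have a2 := (hU d hd).2
  have a3 := (hV c hc).2
  have a4 := (hV d hd).2
  simp only [List.map_cons, List.map_nil, xq, yq, pc, pd, h.uq, h.zs u h.hu, h.zs x hx.1,
    h.zs y hy.1, h.zv c hc, h.zv d hd, h.zv q h.hq, h.zv s h.hs] at T1 T2 T3 T4
  generalize m x c = x1 at *
  generalize m x d = x2 at *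
  generalize m y c = y1 at *
  generalize m y d = y2 at *
  revert T1 T2 T3 T4 xc yc
  rcases a1 with rfl | rfl | rfl <;> rcases a2 with rfl | rfl | rfl <;>
    rcases a3 with rfl | rfl | rfl <;> rcases a4 with rfl | rfl | rfl <;> decide

/-- Mixed pairs on the second class do not share the colour one. -/
theorem NG.mixed2 (h : NG D C m Fr u v p q s) {x y : E} (hx : Oth D u v x) (hy : Oth D u v y)
    (hU : U2 C m u x) (hV : V2 C m u y) {c d : E} (hc : c ∈ C) (hd : d ∈ C)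
    (xc : m x c = (1, 0)) (yc : m y c = (-1, 1)) (xd : m x d = (0, 1)) : False := by
  have xp := hU.atp h
  have yp := hV.atp h
  have hyx : y ≠ x := fun e => by rw [e, xp] at yp; exact absurd yp (by decide)
  have hL : ∀ e ∈ [c, d, p, s], e ∈ C := by simp [hc, hd, h.hp, h.hs]
  have T1 := h.tv hx hy hyx hd h.hp h.hs _ hL
  have a4 := (hV d hd).2
  simp only [List.map_cons, List.map_nil, xp, yp, xc, yc, xd, h.zs x hx.1,
    h.zs y hy.1, h.zv c hc, h.zv d hd, h.zv p h.hp, h.zv s h.hs] at T1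
  generalize m y d = y2 at *
  revert T1
  rcases a4 with rfl | rfl | rfl <;> decide

/-- The supports of two rows of the first kind are nested. -/
theorem NG.nestU (h : NG D C m Fr u v p q s) {x y : E} (hx : Oth D u v x) (hy : Oth D u v y)
    (hU : U1 C m u x) (hV : U1 C m u y) {c d : E} (hc : c ∈ C) (hd : d ∈ C)
    (xc : m x c = (1, 0)) (yc : m y c ≠ (1, 0)) (yd : m y d = (1, 0)) : m x d = (1, 0) := by
  have xq := hU.atq h
  have yq := hV.atq h
  have hyx : y ≠ x := fun e => yc (e ▸ xc)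
  have hL : ∀ e ∈ [c, d, q, s], e ∈ C := by simp [hc, hd, h.hq, h.hs]
  have T1 := h.tv hx hy hyx hc h.hq h.hs _ hL
  have a2 := (hU d hd).2
  have a3 := (hV c hc).2
  simp only [List.map_cons, List.map_nil, xq, yq, xc, yd, h.zs x hx.1,
    h.zs y hy.1, h.zv c hc, h.zv d hd, h.zv q h.hq, h.zv s h.hs] at T1
  generalize m x d = x2 at *
  generalize m y c = y1 at *
  revert T1 yc
  rcases a2 with rfl | rfl | rfl <;> rcases a3 with rfl | rfl | rfl <;> decide

/-- The supports of two rows of the second kind are nested. -/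
theorem NG.nestV (h : NG D C m Fr u v p q s) {x y : E} (hx : Oth D u v x) (hy : Oth D u v y)
    (hU : V1 C m u x) (hV : V1 C m u y) {c d : E} (hc : c ∈ C) (hd : d ∈ C)
    (pc : m u c = (1, 0)) (pd : m u d = (1, 0))
    (xc : m x c = (0, 0)) (yc : m y c ≠ (0, 0)) (yd : m y d = (0, 0)) : m x d = (0, 0) := by
  have xq := hU.atq h
  have yq := hV.atq h
  have hyx : y ≠ x := fun e => yc (e ▸ xc)
  have hL : ∀ e ∈ [c, d, q, s], e ∈ C := by simp [hc, hd, h.hq, h.hs]
  have T1 := h.tu hx hy hyx hc h.hq h.hs _ hL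
  have a2 := (hU d hd).2
  have a3 := (hV c hc).2
  simp only [List.map_cons, List.map_nil, xq, yq, xc, yd, pc, pd, h.uq, h.zs u h.hu, h.zs x hx.1,
    h.zs y hy.1] at T1
  generalize m x d = x2 at *
  generalize m y c = y1 at *
  revert T1 yc
  rcases a2 with rfl | rfl | rfl <;> rcases a3 with rfl | rfl | rfl <;> decide

/-- A strict row and a row of the first kind on the first class. -/
theorem NG.wU1 (h : NG D C m Fr u v p q s) {x y : E} (hx : Oth D u v x) (hy : Oth D u v y)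
    (hW : W3 C m u x) (hU : U1 C m u y) {c d : E} (hc : c ∈ C) (hd : d ∈ C)
    (pc : m u c = (1, 0)) (pd : m u d = (1, 0)) (xc : m x c = (1, 0)) (xd : m x d = (0, 0))
    (yc : m y c ≠ (1, 0)) : m y c = (0, 1) ∧ m y d = (0, 1) := by
  obtain ⟨-, -, -, ⟨e, he, pe, xe⟩, ⟨f, hf, pf, xf⟩⟩ := hW
  have ye : m y e = (0, 1) := by simpa [pe] using (hU e he).1
  have yf : m y f = (0, 1) := by simpa [pf] using (hU f hf).1
  have hyx : y ≠ x := fun e => yc (e ▸ xc)
  have hL : ∀ g ∈ [c, d, e, f, s], g ∈ C := by simp [hc, hd, he, hf, h.hs]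
  have T1 := h.tv hx hy hyx hc he h.hs _ hL
  have T2 := h.tu hx hy hyx hd hf h.hs _ hL
  have a1 := (hU c hc).2
  have a2 := (hU d hd).2
  simp only [List.map_cons, List.map_nil, xc, xd, xe, xf, ye, yf, pc, pd, pe, pf, h.zs u h.hu,
    h.zs x hx.1, h.zs y hy.1, h.zv c hc, h.zv d hd, h.zv e he, h.zv f hf, h.zv s h.hs] at T1 T2
  generalize m y c = y1 at *
  generalize m y d = y2 at *
  revert T1 T2 yc
  rcases a1 with rfl | rfl | rfl <;> rcases a2 with rfl | rfl | rfl <;> decide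

/-- A strict row and a row of the second kind on the first class. -/
theorem NG.wV1 (h : NG D C m Fr u v p q s) {x y : E} (hx : Oth D u v x) (hy : Oth D u v y)
    (hW : W3 C m u x) (hU : V1 C m u y) {c d : E} (hc : c ∈ C) (hd : d ∈ C)
    (pc : m u c = (1, 0)) (pd : m u d = (1, 0)) (xc : m x c = (1, 0)) (xd : m x d = (0, 0))
    (yd : m y d ≠ (0, 0)) : m y c = (1, -1) ∧ m y d = (1, -1) := by
  obtain ⟨-, -, -, ⟨e, he, pe, xe⟩, ⟨f, hf, pf, xf⟩⟩ := hW
  have ye : m y e = (0, 0) := by simpa [pe] using (hU e he).1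
  have yf : m y f = (0, 0) := by simpa [pf] using (hU f hf).1
  have hyx : y ≠ x := fun e => yd (e ▸ xd)
  have hL : ∀ g ∈ [c, d, e, f, s], g ∈ C := by simp [hc, hd, he, hf, h.hs]
  have T1 := h.tv hx hy hyx hc he h.hs _ hL
  have T2 := h.tu hx hy hyx hd hf h.hs _ hL
  have a1 := (hU c hc).2
  have a2 := (hU d hd).2
  simp only [List.map_cons, List.map_nil, xc, xd, xe, xf, ye, yf, pc, pd, pe, pf, h.zs u h.hu,
    h.zs x hx.1, h.zs y hy.1, h.zv c hc, h.zv d hd, h.zv e he, h.zv f hf, h.zv s h.hs] at T1 T2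
  generalize m y c = y1 at *
  generalize m y d = y2 at *
  revert T1 T2 yd
  rcases a1 with rfl | rfl | rfl <;> rcases a2 with rfl | rfl | rfl <;> decide

/-- A strict row and a row of the first kind on the second class. -/
theorem NG.wU2 (h : NG D C m Fr u v p q s) {x y : E} (hx : Oth D u v x) (hy : Oth D u v y)
    (hW : W3 C m u x) (hU : U2 C m u y) {c d : E} (hc : c ∈ C) (hd : d ∈ C)
    (pc : m u c = (0, 1)) (pd : m u d = (0, 1)) (xc : m x c = (0, 1)) (xd : m x d = (0, 0))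
    (yc : m y c ≠ (0, 1)) : m y c = (1, 0) ∧ m y d = (1, 0) := by
  obtain ⟨-, ⟨e, he, pe, xe⟩, ⟨f, hf, pf, xf⟩, -, -⟩ := hW
  have ye : m y e = (1, 0) := by simpa [pe] using (hU e he).1
  have yf : m y f = (1, 0) := by simpa [pf] using (hU f hf).1
  have hyx : y ≠ x := fun e => yc (e ▸ xc)
  have hL : ∀ g ∈ [c, d, e, f, s], g ∈ C := by simp [hc, hd, he, hf, h.hs]
  have T1 := h.tv hx hy hyx hc he h.hs _ hL
  have T2 := h.tu hx hy hyx hd hf h.hs _ hL
  have a1 := (hU c hc).2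
  have a2 := (hU d hd).2
  simp only [List.map_cons, List.map_nil, xc, xd, xe, xf, ye, yf, pc, pd, pe, pf, h.zs u h.hu,
    h.zs x hx.1, h.zs y hy.1, h.zv c hc, h.zv d hd, h.zv e he, h.zv f hf, h.zv s h.hs] at T1 T2
  generalize m y c = y1 at *
  generalize m y d = y2 at *
  revert T1 T2 yc
  rcases a1 with rfl | rfl | rfl <;> rcases a2 with rfl | rfl | rfl <;> decide

/-- A strict row and a row of the second kind on the second class. -/
theorem NG.wV2 (h : NG D C m Fr u v p q s) {x y : E} (hx : Oth D u v x) (hy : Oth D u v y)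
    (hW : W3 C m u x) (hU : V2 C m u y) {c d : E} (hc : c ∈ C) (hd : d ∈ C)
    (pc : m u c = (0, 1)) (pd : m u d = (0, 1)) (xc : m x c = (0, 1)) (xd : m x d = (0, 0))
    (yd : m y d ≠ (0, 0)) : m y c = (-1, 1) ∧ m y d = (-1, 1) := by
  obtain ⟨-, ⟨e, he, pe, xe⟩, ⟨f, hf, pf, xf⟩, -, -⟩ := hW
  have ye : m y e = (0, 0) := by simpa [pe] using (hU e he).1
  have yf : m y f = (0, 0) := by simpa [pf] using (hU f hf).1
  have hyx : y ≠ x := fun e => yd (e ▸ xd)
  have hL : ∀ g ∈ [c, d, e, f, s], g ∈ C := by simp [hc, hd, he, hf, h.hs]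
  have T1 := h.tv hx hy hyx hc he h.hs _ hL
  have T2 := h.tu hx hy hyx hd hf h.hs _ hL
  have a1 := (hU c hc).2
  have a2 := (hU d hd).2
  simp only [List.map_cons, List.map_nil, xc, xd, xe, xf, ye, yf, pc, pd, pe, pf, h.zs u h.hu,
    h.zs x hx.1, h.zs y hy.1, h.zv c hc, h.zv d hd, h.zv e he, h.zv f hf, h.zv s h.hs] at T1 T2
  generalize m y c = y1 at *
  generalize m y d = y2 at *
  revert T1 T2 yd
  rcases a1 with rfl | rfl | rfl <;> rcases a2 with rfl | rfl | rfl <;> decide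

/-- The sets where two strict rows agree with `u` are nested. -/
theorem NG.nestW (h : NG D C m Fr u v p q s) {x y : E} (hx : Oth D u v x) (hy : Oth D u v y)
    (hW : W3 C m u x) (hY : W3 C m u y) {c d : E} (hc : c ∈ C) (hd : d ∈ C)
    (xc : m x c ≠ (0, 0)) (yc : m y c = (0, 0)) (xd : m x d = (0, 0)) : m y d = (0, 0) := by
  obtain ⟨h0, ⟨e, he, pe, xe⟩, ⟨f, hf, pf, xf⟩, ⟨g, hg, pg, xg⟩, ⟨k, hk, pk, xk⟩⟩ := hW
  have hyx : y ≠ x := fun e => xc (e ▸ yc)
  have hL : ∀ z ∈ [c, d, e, f, g, k, s], z ∈ C := by simp [hc, hd, he, hf, hg, hk, h.hs]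
  have T1 := h.tv hx hy hyx he hg h.hs _ hL
  have T2 := h.tu hx hy hyx hf hk h.hs _ hL
  have a1 := hY.1 e he
  have a2 := hY.1 f hf
  have a3 := hY.1 g hg
  have a4 := hY.1 k hk
  have a5 := hY.1 d hd
  have a6 := (h0 c hc).resolve_right xc
  have a7 := h.cov hc
  have a8 := h.cov hd
  rw [a6] at xc
  simp only [List.map_cons, List.map_nil, a6, yc, xd, xe, xf, xg, xk, pe, pf, pg, pk, h.zs u h.hu,
    h.zs x hx.1, h.zs y hy.1, h.zv c hc, h.zv d hd, h.zv e he, h.zv f hf, h.zv g hg, h.zv k hk,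
    h.zv s h.hs] at T1 T2 a1 a2 a3 a4
  generalize m y e = y1 at *
  generalize m y f = y2 at *
  generalize m y g = y3 at *
  generalize m y k = y4 at *
  generalize m y d = y5 at *
  generalize m u c = u1 at *
  generalize m u d = u2 at *
  revert T1 T2 xc
  rcases a1 with rfl | rfl <;> rcases a2 with rfl | rfl <;> rcases a3 with rfl | rfl <;>
    rcases a4 with rfl | rfl <;> rcases a7 with rfl | rfl | rfl <;>
    rcases a8 with rfl | rfl | rfl <;> rcases a5 with rfl | rfl <;> decide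

end Pool.Agent.Lib.MP_10bdcf_co.II
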