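import Pool.Agent.Lib.MP_10bdcf_co.IIE2

/-!
Case II, end game: a frame with a singleton class, row types, and common lemmas.
-/

namespace Pool.Agent.Lib.MP_10bdcf_co.II

variable {E : Type}

theorem cs_lt {Γ : Type} [AddCommGroup Γ] {a : E → E → Γ} {C : Finset E} {x y c u v p d : E}
    (h1 : ∀ e ∈ C, rt a x y e = rt a x y c → rt a u v e = rt a u v p) (hd : d ∈ C)
    (h2 : rt a u v d = rt a u v p) (h3 : rt a x y d ≠ rt a x y c) :
    cs a C x y c < cs a C u v p := by
  classical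
  unfold cs
  apply Finset.card_lt_card
  refine ⟨fun e he => ?_, fun hh => ?_⟩
  · simp only [Finset.mem_filter] at he ⊢
    exact ⟨he.1, h1 e he.1 he.2⟩
  · have : d ∈ C.filter fun e => rt a x y e = rt a x y c := by
      convert hh (show d ∈ C.filter fun e => rt a u v e = rt a u v p by simp [hd, h2])
    exact h3 (Finset.mem_filter.1 this).2

theorem cs_one {Γ : Type} [AddCommGroup Γ] {a : E → E → Γ} {C : Finset E} {x y c : E}
    (hc : c ∈ C) : cs a C x y c = 1 ↔ ∀ e ∈ C, rt a x y e = rt a x y c → e = c := by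
  classical
  unfold cs
  rw [Finset.card_eq_one]
  constructor
  · rintro ⟨z, hz⟩ e he h1
    have a1 : e ∈ ({z} : Finset E) := by rw [← hz]; simp [he, h1]
    have a2 : c ∈ ({z} : Finset E) := by rw [← hz]; simp [hc]
    rw [Finset.mem_singleton.1 a1, Finset.mem_singleton.1 a2]
  · intro h
    refine ⟨c, Finset.eq_singleton_iff_unique_mem.2 ⟨by simp [hc], fun e he => ?_⟩⟩
    simp only [Finset.mem_filter] at he
    exact h e he.1 he.2

theorem cs_pos {Γ : Type} [AddCommGroup Γ] {a : E → E → Γ} {C : Finset E} {x y c : E}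
    (hc : c ∈ C) : 1 ≤ cs a C x y c := by
  classical
  unfold cs
  exact Finset.card_pos.2 ⟨c, by simp [hc]⟩

theorem cs_two {Γ : Type} [AddCommGroup Γ] {a : E → E → Γ} {C : Finset E} {x y c : E}
    (h : 2 ≤ cs a C x y c) {T : Finset E} (hT : ∀ e ∈ C, rt a x y e = rt a x y c → e ∈ T) :
    2 ≤ T.card := by
  classical
  refine h.trans (Finset.card_le_card fun e he => ?_)
  simp only [Finset.mem_filter] at he
  exact hT e he.1 he.2

variable [DecidableEq E] {D C : Finset E} {m : E → E → Z2} {Fr : E → E → Prop} {u v p q s : E}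

theorem NG.rtv (h : NG D C m Fr u v p q s) (x : E) {c : E} (hc : c ∈ C) :
    rt m x v c = m x c := by
  rw [rt, h.zv c hc]; exact sub_zero _

theorem NG.us (h : NG D C m Fr u v p q s) : m u s = (0, 0) := h.zs u h.hu

theorem NG.tri0 (h : NG D C m Fr u v p q s) {x : E} (hx : Oth D u v x) :
    ∃ k t : Z2, (t = (1, 0) ∨ t = (0, 1) ∨ t = (0, 0)) ∧
      ((∀ c ∈ C, (m u c = t ∨ m x c - m u c = k) ∧
          (m x c = k + (1, 0) ∨ m x c = k + (0, 1) ∨ m x c = k + (0, 0))) ∨
       (∀ c ∈ C, (m u c = t ∨ m x c = k) ∧ (m x c - m u c = k - (1, 0) ∨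
          m x c - m u c = k - (0, 1) ∨ m x c - m u c = k - (0, 0))) ∨
       (∀ c ∈ C, m x c - m u c = k ∨ m x c = k + t)) := by
  obtain ⟨k, t, ht, hh⟩ := h.toEG0.tri' h.fr h.three' hx.1 hx.2.1 hx.2.2
  rw [h.rtv u h.hp, h.rtv u h.hq, h.rtv u h.hs, h.up, h.uq, h.us] at ht hh
  refine ⟨k, t, ht, ?_⟩
  rcases hh with hh | hh | hh
  · exact Or.inl fun c hc => by
      have := hh c hc; rwa [h.rtv u hc, h.rtv x hc] at this
  · exact Or.inr (Or.inl fun c hc => by
      have := hh c hc; rwa [h.rtv u hc, h.rtv x hc] at this)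
  · exact Or.inr (Or.inr fun c hc => by
      have := hh c hc; rwa [h.rtv x hc] at this)

theorem NG.small_v (h : NG D C m Fr u v p q s) {x : E} (hx : Oth D u v x) {c1 c2 c3 d : E}
    (h1 : c1 ∈ C) (h2 : c2 ∈ C) (h3 : c3 ∈ C) (hd : d ∈ C) (n1 : m x c1 ≠ m x c2)
    (n2 : m x c1 ≠ m x c3) (n3 : m x c2 ≠ m x c3)
    (hs : ∀ e ∈ C, m x e = m x c1 → m u e = (1, 0)) (pd : m u d = (1, 0))
    (nd : m x d ≠ m x c1) : Fr x v ∧ cs m C x v c1 < cs m C u v p := by
  refine ⟨h.move u v h.fr x hx.1 hx.2.1 hx.2.2 c1 c2 c3 ⟨h1, h2, h3, ?_, ?_, ?_⟩,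
    cs_lt (fun e he => ?_) hd ?_ ?_⟩
  · rwa [h.rtv x h1, h.rtv x h2]
  · rwa [h.rtv x h1, h.rtv x h3]
  · rwa [h.rtv x h2, h.rtv x h3]
  · rw [h.rtv x he, h.rtv x h1, h.rtv u he, h.rtv u h.hp, h.up]; exact hs e he
  · rw [h.rtv u hd, h.rtv u h.hp, h.up, pd]
  · rwa [h.rtv x hd, h.rtv x h1]

theorem NG.small_u (h : NG D C m Fr u v p q s) {x : E} (hx : Oth D u v x) {c1 c2 c3 d : E}
    (h1 : c1 ∈ C) (h2 : c2 ∈ C) (h3 : c3 ∈ C) (hd : d ∈ C)
    (n1 : m x c1 - m u c1 ≠ m x c2 - m u c2) (n2 : m x c1 - m u c1 ≠ m x c3 - m u c3)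
    (n3 : m x c2 - m u c2 ≠ m x c3 - m u c3)
    (hs : ∀ e ∈ C, m x e - m u e = m x c1 - m u c1 → m u e = (1, 0)) (pd : m u d = (1, 0))
    (nd : m x d - m u d ≠ m x c1 - m u c1) : Fr x u ∧ cs m C x u c1 < cs m C u v p := by
  refine ⟨h.move v u (h.symm _ _ h.fr) x hx.1 hx.2.2 hx.2.1 c1 c2 c3 ⟨h1, h2, h3, n1, n2, n3⟩,
    cs_lt (fun e he => ?_) hd ?_ nd⟩
  · rw [h.rtv u he, h.rtv u h.hp, h.up]; exact hs e he
  · rw [h.rtv u hd, h.rtv u h.hp, h.up, pd]

theorem z2 (x y : Z2) : x = y ↔ x.1 = y.1 ∧ x.2 = y.2 := Prod.ext_iff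

theorem NG.oth (h : NG D C m Fr u v p q s) {x c d : E} (hx : x ∈ D) (hc : c ∈ C) (hd : d ∈ C)
    (e : m u c = m u d) (n : m x c ≠ m x d) : Oth D u v x :=
  ⟨hx, fun e' => n (e' ▸ e), fun e' => n (by rw [e', h.zv c hc, h.zv d hd])⟩

theorem NG.three_le (h : NG D C m Fr u v p q s) {S T : Finset E} (hu : u ∉ S) (hv : v ∉ S)
    (hs : s ∉ T) : 3 ≤ (D \ S).card + (C \ T).card := by
  have a1 : ({u, v} : Finset E) ⊆ D \ S := by
    simp [Finset.insert_subset_iff, h.hu, h.hv, hu, hv]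
  have a2 := Finset.card_le_card a1
  rw [Finset.card_pair (h.mem u v h.fr).2.2] at a2
  have a3 : 0 < (C \ T).card := Finset.card_pos.2 ⟨s, by simp [h.hs, hs]⟩
  omega

/-- If the rows that vary on a part `T` of a class are proportional to `w` outside `T`, then `T`
has at most one element. -/
theorem NG.vary (h : NG D C m Fr u v p q s) {T : Finset E} (hT : T ⊆ C) (hs : s ∉ T)
    (hu : ∀ c ∈ T, ∀ d ∈ T, m u c = m u d) {w : E}
    (hw : ∀ x, Oth D u v x → ∀ c ∈ T, ∀ d ∈ T, m x c ≠ m x d → ∀ e ∈ C, e ∉ T → m x e = m w e)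
    (h2 : 2 ≤ T.card) : False := by
  classical
  refine h.toEG0.block (S := D.filter fun x => ∃ c ∈ T, ∃ d ∈ T, m x c ≠ m x d)
    (Finset.filter_subset _ _) hT (w := w) h.hv ?_ ?_ (h.three_le ?_ ?_ hs) h2
  · intro x hx c hc hcT d hd hdT
    obtain ⟨hx, c1, h1, d1, h2, n⟩ := Finset.mem_filter.1 hx
    have o := h.oth hx (hT h1) (hT h2) (hu _ h1 _ h2) n
    rw [rt, rt, hw x o c1 h1 d1 h2 n c hc hcT, hw x o c1 h1 d1 h2 n d hd hdT, sub_self, sub_self]
  · intro x hx hn c hc d hd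
    rw [h.rtv x (hT hc), h.rtv x (hT hd)]
    by_contra n
    exact hn (Finset.mem_filter.2 ⟨hx, c, hc, d, hd, n⟩)
  · intro hh
    obtain ⟨-, c1, h1, d1, h2, n⟩ := Finset.mem_filter.1 hh
    exact n (hu _ h1 _ h2)
  · intro hh
    obtain ⟨-, c1, h1, d1, h2, n⟩ := Finset.mem_filter.1 hh
    exact n (by rw [h.zv _ (hT h1), h.zv _ (hT h2)])

theorem NG.two_P (h : NG D C m Fr u v p q s) (h2 : 2 ≤ cs m C u v p) :
    2 ≤ (C.filter fun c => m u c = (1, 0)).card := by
  refine cs_two h2 fun e he h1 => ?_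
  rw [h.rtv u he, h.rtv u h.hp, h.up] at h1
  exact Finset.mem_filter.2 ⟨he, h1⟩

/-- A class with two elements is not the smallest class. -/
theorem NG.step1 (h : NG D C m Fr u v p q s) (h2 : 2 ≤ cs m C u v p) :
    ∃ x y c, Fr x y ∧ c ∈ C ∧ cs m C x y c < cs m C u v p := by
  classical
  obtain ⟨x, hx, c, hc, d, hd, n⟩ : ∃ x, Oth D u v x ∧ ∃ c ∈ C.filter fun c => m u c = (1, 0),
      ∃ d ∈ C.filter fun c => m u c = (1, 0), m x c ≠ m x d := by
    by_contra hh
    refine h.vary (T := C.filter fun c => m u c = (1, 0)) (Finset.filter_subset _ _)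
      (by simp [h.us]) ?_ (w := u) ?_ (h.two_P h2)
    · intro c hc d hd
      rw [(Finset.mem_filter.1 hc).2, (Finset.mem_filter.1 hd).2]
    · intro x hx c hc d hd n
      exact absurd ⟨x, hx, c, hc, d, hd, n⟩ hh
  obtain ⟨hc, pc⟩ := Finset.mem_filter.1 hc
  obtain ⟨hd, pd⟩ := Finset.mem_filter.1 hd
  have up := h.up
  have uq := h.uq
  have us := h.us
  obtain ⟨k, t, ht, hh | hh | hh⟩ := h.tri0 hx
  · have a1 := hh c hc
    have a2 := hh d hd
    have a3 := hh q h.hq
    have a4 := hh s h.hs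
    have et : t = (1, 0) := by
      by_contra e
      simp only [z2, Prod.fst_sub, Prod.snd_sub, ne_eq] at *
      omega
    subst et
    by_cases h0 : ∃ c0 ∈ C, m u c0 = (1, 0) ∧ m x c0 = k + (1, 0)
    · obtain ⟨c0, hc0, p0, x0⟩ := h0
      obtain ⟨d0, hd0, pd0, nd0⟩ : ∃ d0 ∈ C, m u d0 = (1, 0) ∧ m x d0 ≠ m x c0 := by
        by_cases e : m x c = m x c0
        · exact ⟨d, hd, pd, fun e' => n (e.trans e'.symm)⟩
        · exact ⟨c, hc, pc, e⟩
      refine ⟨x, v, c0, ?_⟩
      suffices Fr x v ∧ cs m C x v c0 < cs m C u v p from ⟨this.1, hc0, this.2⟩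
      refine h.small_v hx hc0 h.hq h.hs hd0 ?_ ?_ ?_ (fun e he e1 => ?_) pd0 nd0
      rotate_left 3
      · have a5 := (hh e he).1
        have a6 := h.cov he
        simp only [z2, Prod.fst_sub, Prod.snd_sub, Prod.fst_add, Prod.snd_add] at a5 a6 e1 x0 ⊢
        omega
      all_goals
        simp only [z2, Prod.fst_sub, Prod.snd_sub, Prod.fst_add, Prod.snd_add, ne_eq]
          at a3 a4 uq us x0 ⊢
        omega
    · have b1 : m x c ≠ k + (1, 0) := fun e => h0 ⟨c, hc, pc, e⟩
      have b2 : m x d ≠ k + (1, 0) := fun e => h0 ⟨d, hd, pd, e⟩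
      refine ⟨x, u, c, ?_⟩
      suffices Fr x u ∧ cs m C x u c < cs m C u v p from ⟨this.1, hc, this.2⟩
      refine h.small_u hx hc hd h.hq hd ?_ ?_ ?_ (fun e he e1 => ?_) pd ?_
      rotate_left 3
      · have a5 := (hh e he).1
        simp only [z2, Prod.fst_sub, Prod.snd_sub, Prod.fst_add, Prod.snd_add, ne_eq]
          at a5 e1 b1 pc ⊢
        omega
      all_goals
        simp only [z2, Prod.fst_sub, Prod.snd_sub, Prod.fst_add, Prod.snd_add, ne_eq]
          at a3 uq pc pd n b1 b2 ⊢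
        omega
  · have a1 := hh c hc
    have a2 := hh d hd
    have a3 := hh q h.hq
    have a4 := hh s h.hs
    have et : t = (1, 0) := by
      by_contra e
      simp only [z2, Prod.fst_sub, Prod.snd_sub, ne_eq] at *
      omega
    subst et
    by_cases h0 : ∃ c0 ∈ C, m u c0 = (1, 0) ∧ m x c0 = k
    · obtain ⟨c0, hc0, p0, x0⟩ := h0
      obtain ⟨d0, hd0, pd0, nd0⟩ : ∃ d0 ∈ C, m u d0 = (1, 0) ∧ m x d0 ≠ m x c0 := by
        by_cases e : m x c = m x c0
        · exact ⟨d, hd, pd, fun e' => n (e.trans e'.symm)⟩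
        · exact ⟨c, hc, pc, e⟩
      refine ⟨x, u, c0, ?_⟩
      suffices Fr x u ∧ cs m C x u c0 < cs m C u v p from ⟨this.1, hc0, this.2⟩
      refine h.small_u hx hc0 h.hq h.hs hd0 ?_ ?_ ?_ (fun e he e1 => ?_) pd0 ?_
      rotate_left 3
      · have a5 := (hh e he).1
        have a6 := h.cov he
        simp only [z2, Prod.fst_sub, Prod.snd_sub] at a5 a6 e1 x0 p0 ⊢
        omega
      all_goals
        simp only [z2, Prod.fst_sub, Prod.snd_sub, ne_eq] at a3 a4 uq us x0 p0 pd0 nd0 ⊢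
        omega
    · have b1 : m x c ≠ k := fun e => h0 ⟨c, hc, pc, e⟩
      have b2 : m x d ≠ k := fun e => h0 ⟨d, hd, pd, e⟩
      refine ⟨x, v, c, ?_⟩
      suffices Fr x v ∧ cs m C x v c < cs m C u v p from ⟨this.1, hc, this.2⟩
      refine h.small_v hx hc hd h.hq hd n ?_ ?_ (fun e he e1 => ?_) pd n.symm
      rotate_left 2
      · have a5 := (hh e he).1
        simp only [z2, ne_eq] at a5 e1 b1 ⊢
        omega
      all_goals
        simp only [z2, ne_eq] at a3 uq b1 b2 ⊢
        omega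
  · obtain ⟨c, hc, pc, d, hd, pd, xc, xd, nt⟩ : ∃ c ∈ C, m u c = (1, 0) ∧ ∃ d ∈ C,
        m u d = (1, 0) ∧ m x c = k + (1, 0) ∧ m x d = k + t ∧ t ≠ (1, 0) := by
      have a1 := hh c hc
      have a2 := hh d hd
      by_cases e : m x c = k + (1, 0)
      · refine ⟨c, hc, pc, d, hd, pd, e, ?_, ?_⟩ <;>
        simp only [z2, Prod.fst_sub, Prod.snd_sub, Prod.fst_add, Prod.snd_add, ne_eq] at * <;> omega
      · refine ⟨d, hd, pd, c, hc, pc, ?_, ?_, ?_⟩ <;>
        simp only [z2, Prod.fst_sub, Prod.snd_sub, Prod.fst_add, Prod.snd_add, ne_eq] at * <;> omega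
    obtain ⟨r, hr, pr, o, ho, po, po'⟩ : ∃ r ∈ C, m u r = t ∧ ∃ o ∈ C, m u o ≠ t ∧
        m u o ≠ (1, 0) := by
      rcases ht with rfl | rfl | rfl
      · exact absurd rfl nt
      · exact ⟨q, h.hq, uq, s, h.hs, by rw [us]; decide, by rw [us]; decide⟩
      · exact ⟨s, h.hs, us, q, h.hq, by rw [uq]; decide, by rw [uq]; decide⟩
    have ar := hh r hr
    by_cases e : m x o - m u o = k
    · refine ⟨x, v, c, ?_⟩
      suffices Fr x v ∧ cs m C x v c < cs m C u v p from ⟨this.1, hc, this.2⟩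
      refine h.small_v hx hc ho hr hd ?_ ?_ ?_ (fun e he e1 => ?_) pd ?_
      rotate_left 3
      · have a5 := hh e he
        simp only [z2, Prod.fst_sub, Prod.snd_sub, Prod.fst_add, Prod.snd_add, ne_eq]
          at a5 e1 xc nt ⊢
        omega
      all_goals
        simp only [z2, Prod.fst_sub, Prod.snd_sub, Prod.fst_add, Prod.snd_add, ne_eq]
          at ar e xc xd nt pr po po' ⊢
        omega
    · have ao := (hh o ho).resolve_left e
      refine ⟨x, u, d, ?_⟩
      suffices Fr x u ∧ cs m C x u d < cs m C u v p from ⟨this.1, hd, this.2⟩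
      refine h.small_u hx hd hc ho hc ?_ ?_ ?_ (fun e he e1 => ?_) pc ?_
      rotate_left 3
      · have a5 := hh e he
        simp only [z2, Prod.fst_sub, Prod.snd_sub, Prod.fst_add, Prod.snd_add, ne_eq]
          at a5 e1 xd pd nt ⊢
        omega
      all_goals
        simp only [z2, Prod.fst_sub, Prod.snd_sub, Prod.fst_add, Prod.snd_add, ne_eq]
          at ao xc xd nt pc pd po po' ⊢
        omega

/-- The five types of rows when the third class is a singleton. -/
theorem NG.types (h : NG D C m Fr u v p q s) (h1 : ∀ c ∈ C, m u c = (0, 0) → c = s) {x : E}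
    (hx : Oth D u v x) :
    U1 C m u x ∨ V1 C m u x ∨ U2 C m u x ∨ V2 C m u x ∨ W3 C m u x := by
  have us := h.us
  have xs := h.zs x hx.1
  have z : ∀ y : Z2, (0, 0) + y = y := fun y => zero_add y
  obtain ⟨k, t, ht, hh | hh | hh⟩ := h.tri0 hx
  · by_cases e : t = (0, 0)
    · subst e
      exact (h.toEG0.rows hx.1 h.hu hx.2.1 h.hs (k := k) fun c hc n =>
        (hh c hc).1.resolve_left fun e => n (h1 c hc e)).elim
    have ek : k = (0, 0) := by
      have := (hh s h.hs).1
      simp only [z2, Prod.fst_sub, Prod.snd_sub] at this e us xs ⊢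
      omega
    subst ek
    simp only [z] at hh
    have e0 : ∀ a b : Z2, a - b = (0, 0) ↔ a = b := fun a b => sub_eq_zero
    simp only [e0] at hh
    rcases ht with rfl | rfl | rfl
    · exact Or.inl hh
    · exact Or.inr (Or.inr (Or.inl hh))
    · exact absurd rfl e
  · by_cases e : t = (0, 0)
    · subst e
      exact (h.toEG0.rows hx.1 h.hv hx.2.2 h.hs (k := k) fun c hc n => by
        rw [h.rtv x hc]; exact (hh c hc).1.resolve_left fun e => n (h1 c hc e)).elim
    have ek : k = (0, 0) := by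
      have := (hh s h.hs).1
      simp only [z2] at this e us xs ⊢
      omega
    subst ek
    rcases ht with rfl | rfl | rfl
    · refine Or.inr (Or.inl fun c hc => ?_)
      have := hh c hc
      simp only [z2, Prod.fst_sub, Prod.snd_sub] at this ⊢
      omega
    · refine Or.inr (Or.inr (Or.inr (Or.inl fun c hc => ?_)))
      have := hh c hc
      simp only [z2, Prod.fst_sub, Prod.snd_sub] at this ⊢
      omega
    · exact absurd rfl e
  · have a := hh s h.hs
    rcases ht with rfl | rfl | rfl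
    · by_cases ek : k = (0, 0)
      · refine Or.inr (Or.inr (Or.inl fun c hc => ?_))
        have a1 := hh c hc
        have a2 := h.cov hc
        have a3 : m u c = (0, 0) → m x c = (0, 0) := fun e => by rw [h1 c hc e, xs]
        simp only [z2, Prod.fst_sub, Prod.snd_sub, Prod.fst_add, Prod.snd_add] at a1 a2 a3 ek ⊢
        omega
      · refine Or.inr (Or.inr (Or.inr (Or.inl fun c hc => ?_)))
        have a1 := hh c hc
        have a2 := h.cov hc
        have a3 : m u c = (0, 0) → m x c = (0, 0) := fun e => by rw [h1 c hc e, xs]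
        simp only [z2, Prod.fst_sub, Prod.snd_sub, Prod.fst_add, Prod.snd_add]
          at a a1 a2 a3 ek us xs ⊢
        omega
    · by_cases ek : k = (0, 0)
      · refine Or.inl fun c hc => ?_
        have a1 := hh c hc
        have a2 := h.cov hc
        have a3 : m u c = (0, 0) → m x c = (0, 0) := fun e => by rw [h1 c hc e, xs]
        simp only [z2, Prod.fst_sub, Prod.snd_sub, Prod.fst_add, Prod.snd_add] at a1 a2 a3 ek ⊢
        omega
      · refine Or.inr (Or.inl fun c hc => ?_)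
        have a1 := hh c hc
        have a2 := h.cov hc
        have a3 : m u c = (0, 0) → m x c = (0, 0) := fun e => by rw [h1 c hc e, xs]
        simp only [z2, Prod.fst_sub, Prod.snd_sub, Prod.fst_add, Prod.snd_add]
          at a a1 a2 a3 ek us xs ⊢
        omega
    · have ek : k = (0, 0) := by
        simp only [z2, Prod.fst_sub, Prod.snd_sub, Prod.fst_add, Prod.snd_add] at a us xs ⊢
        omega
      subst ek
      have hw : ∀ c ∈ C, m x c = m u c ∨ m x c = (0, 0) := fun c hc => by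
        have a1 := hh c hc
        simp only [z2, Prod.fst_sub, Prod.snd_sub, Prod.fst_add, Prod.snd_add] at a1 ⊢
        omega
      by_cases b1 : ∃ c ∈ C, m u c = (1, 0) ∧ m x c = (1, 0)
      · by_cases b2 : ∃ c ∈ C, m u c = (1, 0) ∧ m x c = (0, 0)
        · by_cases b3 : ∃ c ∈ C, m u c = (0, 1) ∧ m x c = (0, 1)
          · by_cases b4 : ∃ c ∈ C, m u c = (0, 1) ∧ m x c = (0, 0)
            · exact Or.inr (Or.inr (Or.inr (Or.inr ⟨hw, b1, b2, b3, b4⟩)))
            · refine Or.inl fun c hc => ?_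
              have a1 := hw c hc
              have a2 := h.cov hc
              have a3 : ¬ (m u c = (0, 1) ∧ m x c = (0, 0)) := fun e => b4 ⟨c, hc, e⟩
              simp only [z2] at a1 a2 a3 ⊢
              omega
          · refine Or.inr (Or.inl fun c hc => ?_)
            have a1 := hw c hc
            have a2 := h.cov hc
            have a3 : ¬ (m u c = (0, 1) ∧ m x c = (0, 1)) := fun e => b3 ⟨c, hc, e⟩
            simp only [z2] at a1 a2 a3 ⊢
            omega
        · refine Or.inr (Or.inr (Or.inl fun c hc => ?_))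
          have a1 := hw c hc
          have a2 := h.cov hc
          have a3 : ¬ (m u c = (1, 0) ∧ m x c = (0, 0)) := fun e => b2 ⟨c, hc, e⟩
          simp only [z2] at a1 a2 a3 ⊢
          omega
      · refine Or.inr (Or.inr (Or.inr (Or.inl fun c hc => ?_)))
        have a1 := hw c hc
        have a2 := h.cov hc
        have a3 : ¬ (m u c = (1, 0) ∧ m x c = (1, 0)) := fun e => b1 ⟨c, hc, e⟩
        simp only [z2] at a1 a2 a3 ⊢
        omega

end Pool.Agent.Lib.MP_10bdcf_co.II
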