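import Pool.Agent.Lib.MP_10bdcf_co.IIE3

/-!
Case II, end game: mixed pairs and the case of one singleton class.
-/

namespace Pool.Agent.Lib.MP_10bdcf_co.II

variable {E : Type} [DecidableEq E] {D C : Finset E} {m : E → E → Z2} {Fr : E → E → Prop}
  {u v p q s : E}

/-- The row `x` is not constant on the first class. -/
def Var (C : Finset E) (m : E → E → Z2) (u x : E) : Prop :=
  ∃ c ∈ C, ∃ d ∈ C, m u c = (1, 0) ∧ m u d = (1, 0) ∧ m x c ≠ m x d

/-- The first overlapping pattern. -/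
def B1 (C : Finset E) (m : E → E → Z2) (u x y : E) : Prop := ∀ d ∈ C, m u d = (1, 0) →
  (m x d = (0, 1) ∧ m y d = (1, 0)) ∨ (m x d = (1, 0) ∧ m y d = (1, 0)) ∨
    (m x d = (0, 1) ∧ m y d = (0, 0))

/-- The second overlapping pattern. -/
def B2 (C : Finset E) (m : E → E → Z2) (u x y : E) : Prop := ∀ d ∈ C, m u d = (1, 0) →
  (m x d = (0, 0) ∧ m y d = (1, -1)) ∨ (m x d = (1, 0) ∧ m y d = (1, -1)) ∨
    (m x d = (0, 0) ∧ m y d = (0, 0))

/-- The third overlapping pattern. -/
def Cc (C : Finset E) (m : E → E → Z2) (u x y : E) : Prop := ∀ d ∈ C, m u d = (1, 0) →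
  (m x d = (0, 1) ∧ m y d = (1, 0)) ∨ (m x d = (0, 0) ∧ m y d = (1, -1))

omit [DecidableEq E] in
theorem Var.ne {x : E} (hx : Var C m u x) (w : Z2) : ∃ c ∈ C, m u c = (1, 0) ∧ m x c ≠ w := by
  obtain ⟨c, hc, d, hd, pc, pd, n⟩ := hx
  by_cases e : m x c = w
  · exact ⟨d, hd, pd, fun e' => n (e.trans e'.symm)⟩
  · exact ⟨c, hc, pc, e⟩

theorem NG.pairBC (h : NG D C m Fr u v p q s) {x y : E} (hx : Oth D u v x) (hy : Oth D u v y)
    (hU : U1 C m u x) (hV : V1 C m u y) (vr : Var C m u x ∨ Var C m u y) {c : E} (hc : c ∈ C)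
    (pc : m u c = (1, 0)) (xc : m x c ≠ (1, 0)) (yc : m y c ≠ (0, 0)) :
    B1 C m u x y ∨ B2 C m u x y ∨ Cc C m u x y := by
  have key := fun d hd pd => h.mixed hx hy hU hV hc (d := d) hd pc pd xc yc
  have hc' : (m x c = (0, 1) ∧ m y c = (1, 0)) ∨ (m x c = (0, 0) ∧ m y c = (1, -1)) := by
    rcases vr with vr | vr
    · obtain ⟨d, hd, pd, n⟩ := vr.ne (m x c)
      have := key d hd pd
      tauto
    · obtain ⟨d, hd, pd, n⟩ := vr.ne (m y c)
      have := key d hd pd
      tauto
  rcases hc' with ⟨e1, e2⟩ | ⟨e1, e2⟩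
  · by_cases h0 : ∃ d0 ∈ C, m u d0 = (1, 0) ∧ m x d0 = (0, 0) ∧ m y d0 = (1, -1)
    · obtain ⟨d0, hd0, p0, x0, y0⟩ := h0
      refine Or.inr (Or.inr fun d hd pd => ?_)
      have a1 := key d hd pd
      have a2 := h.mixed hx hy hU hV hd0 hd p0 pd (by rw [x0]; decide) (by rw [y0]; decide)
      simp only [z2] at a1 a2 e1 e2 x0 y0 ⊢
      omega
    · refine Or.inl fun d hd pd => ?_
      have a1 := key d hd pd
      have a2 : ¬ (m x d = (0, 0) ∧ m y d = (1, -1)) := fun e => h0 ⟨d, hd, pd, e⟩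
      simp only [z2] at a1 a2 e1 e2 ⊢
      omega
  · by_cases h0 : ∃ d0 ∈ C, m u d0 = (1, 0) ∧ m x d0 = (0, 1) ∧ m y d0 = (1, 0)
    · obtain ⟨d0, hd0, p0, x0, y0⟩ := h0
      refine Or.inr (Or.inr fun d hd pd => ?_)
      have a1 := key d hd pd
      have a2 := h.mixed hx hy hU hV hd0 hd p0 pd (by rw [x0]; decide) (by rw [y0]; decide)
      simp only [z2] at a1 a2 e1 e2 x0 y0 ⊢
      omega
    · refine Or.inr (Or.inl fun d hd pd => ?_)
      have a1 := key d hd pd
      have a2 : ¬ (m x d = (0, 1) ∧ m y d = (1, 0)) := fun e => h0 ⟨d, hd, pd, e⟩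
      simp only [z2] at a1 a2 e1 e2 ⊢
      omega

omit [DecidableEq E] in
theorem U2.const {x : E} (hx : U2 C m u x) {c : E} (hc : c ∈ C) (pc : m u c = (1, 0)) :
    m x c = (1, 0) := by
  have := (hx c hc).1
  simpa [pc] using this

omit [DecidableEq E] in
theorem V2.const {x : E} (hx : V2 C m u x) {c : E} (hc : c ∈ C) (pc : m u c = (1, 0)) :
    m x c = (0, 0) := by
  have := (hx c hc).1
  simpa [pc] using this

omit [DecidableEq E] in
theorem U1.const {x : E} (hx : U1 C m u x) {c : E} (hc : c ∈ C) (pc : m u c ≠ (1, 0)) :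
    m x c = m u c := (hx c hc).1.resolve_left pc

omit [DecidableEq E] in
theorem V1.const {x : E} (hx : V1 C m u x) {c : E} (hc : c ∈ C) (pc : m u c ≠ (1, 0)) :
    m x c = (0, 0) := (hx c hc).1.resolve_left pc

/-- No strict rows. -/
def NoW (D C : Finset E) (m : E → E → Z2) (u v : E) : Prop :=
  ∀ x, Oth D u v x → U1 C m u x ∨ V1 C m u x ∨ U2 C m u x ∨ V2 C m u x

omit [DecidableEq E] in
theorem NoW.var (ht : NoW D C m u v) {x : E} (hx : Oth D u v x) (vr : Var C m u x) :
    U1 C m u x ∨ V1 C m u x := by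
  obtain ⟨c, hc, d, hd, pc, pd, n⟩ := vr
  rcases ht x hx with e | e | e | e
  · exact Or.inl e
  · exact Or.inr e
  · exact absurd ((e.const hc pc).trans (e.const hd pd).symm) n
  · exact absurd ((e.const hc pc).trans (e.const hd pd).symm) n

/-- In the third pattern the row `x` separates the columns of the first class. -/
theorem NG.ccard (h : NG D C m Fr u v p q s) (ht : NoW D C m u v) {x y : E} (hx : Oth D u v x)
    (hy : Oth D u v y) (hU : U1 C m u x) (hV : V1 C m u y) (vr : Var C m u x)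
    (hcc : Cc C m u x y) {c d : E} (hc : c ∈ C) (hd : d ∈ C) (pc : m u c = (1, 0))
    (pd : m u d = (1, 0)) (e : m x c = m x d) : c = d := by
  by_contra n
  obtain ⟨c1, h1, p1, n1⟩ := vr.ne (0, 0)
  obtain ⟨c2, h2, p2, n2⟩ := vr.ne (0, 1)
  have a1 := hcc c1 h1 p1
  have a2 := hcc c2 h2 p2
  have ac := hcc c hc pc
  have ad := hcc d hd pd
  refine h.toEG0.cols hc hd n h.hv fun z hz => ?_
  rw [h.rtv z hc, h.rtv z hd]
  by_contra nz
  have oz := h.oth hz hc hd (pc.trans pd.symm) nz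
  have vz : Var C m u z := ⟨c, hc, d, hd, pc, pd, nz⟩
  rcases ht.var oz vz with tz | tz
  · obtain ⟨e0, he0, pe0, ne0⟩ := vz.ne (1, 0)
    have ae := hcc e0 he0 pe0
    rcases h.pairBC oz hy tz hV (Or.inl vz) he0 pe0 ne0
      (by simp only [z2, ne_eq] at ae ⊢; omega) with b | b | b
    · have := b c2 h2 p2
      simp only [z2, ne_eq] at this a2 n2; omega
    · have := b c1 h1 p1
      simp only [z2, ne_eq] at this a1 n1; omega
    · have b1 := b c hc pc
      have b2 := b d hd pd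
      simp only [z2] at b1 b2 ac ad e nz; omega
  · obtain ⟨e0, he0, pe0, ne0⟩ := vz.ne (0, 0)
    have ae := hcc e0 he0 pe0
    rcases h.pairBC hx oz hU tz (Or.inl vr) he0 pe0
      (by simp only [z2, ne_eq] at ae ⊢; omega) ne0 with b | b | b
    · have := b c2 h2 p2
      simp only [z2, ne_eq] at this a2 n2; omega
    · have := b c1 h1 p1
      simp only [z2, ne_eq] at this a1 n1; omega
    · have b1 := b c hc pc
      have b2 := b d hd pd
      simp only [z2] at b1 b2 e nz; omega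

theorem NG.suppU (h : NG D C m Fr u v p q s) {x : E} (hx : Oth D u v x) {T : Finset E}
    (hT : ∀ c ∈ C, c ∉ T → m x c = m u c) : 2 ≤ T.card := by
  by_contra n
  obtain ⟨z, hz, hz'⟩ : ∃ z ∈ C, ∀ c ∈ C, c ≠ z → c ∉ T := by
    by_cases e : ∃ z ∈ C, z ∈ T
    · obtain ⟨z, hz, hz'⟩ := e
      exact ⟨z, hz, fun c _ n' hc => n' (Finset.card_le_one.1 (by omega) c hc z hz')⟩
    · exact ⟨s, h.hs, fun c hc _ hc' => e ⟨c, hc, hc'⟩⟩
  exact h.toEG0.rows hx.1 h.hu hx.2.1 hz (k := 0) fun c hc n' => by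
    rw [rt, hT c hc (hz' c hc n'), sub_self]

/-- There is a mixed pair of varying rows whose supports meet. -/
theorem NG.meet (h : NG D C m Fr u v p q s) (ht : NoW D C m u v)
    (h2 : 2 ≤ (C.filter fun c => m u c = (1, 0)).card) :
    ∃ x y c, Oth D u v x ∧ Oth D u v y ∧ U1 C m u x ∧ V1 C m u y ∧ Var C m u x ∧ Var C m u y ∧
      c ∈ C ∧ m u c = (1, 0) ∧ m x c ≠ (1, 0) ∧ m y c ≠ (0, 0) := by
  classical
  by_contra hh
  obtain ⟨x0, o0, u0, v0⟩ : ∃ x, Oth D u v x ∧ U1 C m u x ∧ Var C m u x := by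
    by_contra hn
    refine h.vary (T := C.filter fun c => m u c = (1, 0)) (Finset.filter_subset _ _)
      (by simp [h.us]) ?_ (w := v) ?_ h2
    · intro c hc d hd
      rw [(Finset.mem_filter.1 hc).2, (Finset.mem_filter.1 hd).2]
    · intro x hx c hc d hd n e he heT
      have vr : Var C m u x := ⟨c, (Finset.mem_filter.1 hc).1, d, (Finset.mem_filter.1 hd).1,
        (Finset.mem_filter.1 hc).2, (Finset.mem_filter.1 hd).2, n⟩
      rcases ht.var hx vr with t | t
      · exact absurd ⟨x, hx, t, vr⟩ hn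
      · rw [h.zv e he]; exact t.const he fun e' => heT (Finset.mem_filter.2 ⟨he, e'⟩)
  let T := C.filter fun c => m u c = (1, 0) ∧
    ∃ x, Oth D u v x ∧ U1 C m u x ∧ Var C m u x ∧ m x c ≠ (1, 0)
  have hT : ∀ x, Oth D u v x → U1 C m u x → Var C m u x → ∀ c ∈ C, c ∉ T → m x c = m u c := by
    intro x ox ux vx c hc hcT
    by_cases pc : m u c = (1, 0)
    · rw [pc]
      by_contra n
      exact hcT (Finset.mem_filter.2 ⟨hc, pc, x, ox, ux, vx, n⟩)
    · exact ux.const hc pc
  refine h.vary (T := T) (Finset.filter_subset _ _) (by simp [T, h.us]) ?_ (w := u) ?_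
    (h.suppU o0 (hT x0 o0 u0 v0))
  · intro c hc d hd
    rw [(Finset.mem_filter.1 hc).2.1, (Finset.mem_filter.1 hd).2.1]
  · intro y hy c hc d hd n
    obtain ⟨hc, pc, x1, o1, u1, v1, n1⟩ := Finset.mem_filter.1 hc
    obtain ⟨hd, pd, x2, o2, u2, v2, n2⟩ := Finset.mem_filter.1 hd
    have vr : Var C m u y := ⟨c, hc, d, hd, pc, pd, n⟩
    rcases ht.var hy vr with t | t
    · exact hT y hy t vr
    · exfalso
      by_cases e : m y c = (0, 0)
      · exact hh ⟨x2, y, d, o2, hy, u2, t, v2, vr, hd, pd, n2, fun e' => n (e.trans e'.symm)⟩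
      · exact hh ⟨x1, y, c, o1, hy, u1, t, v1, vr, hc, pc, n1, e⟩

/-- Minimality of the first class among the classes next to a singleton class. -/
def MinP (C : Finset E) (m : E → E → Z2) (Fr : E → E → Prop) (u v p : E) : Prop :=
  ∀ x y c d, Fr x y → c ∈ C → d ∈ C → cs m C x y c = 1 → rt m x y d ≠ rt m x y c →
    cs m C u v p ≤ cs m C x y d

theorem NG.noU02 (h : NG D C m Fr u v p q s) (h1 : ∀ c ∈ C, m u c = (0, 0) → c = s)
    (hm : MinP C m Fr u v p) {x : E} (hx : Oth D u v x) (hU : U1 C m u x)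
    (h0 : ∀ c ∈ C, m u c = (1, 0) → m x c ≠ (0, 0)) (vr : Var C m u x) : False := by
  obtain ⟨c, hc, pc, nc⟩ := vr.ne (0, 1)
  obtain ⟨d, hd, pd, nd⟩ := vr.ne (1, 0)
  have xc : m x c = (1, 0) := by
    have := (hU c hc).2
    have := h0 c hc pc
    tauto
  have xq := hU.atq h
  have xs := h.zs x hx.1
  obtain ⟨f, lt⟩ := h.small_v hx hc h.hq h.hs hd (by rw [xc, xq]; decide) (by rw [xc, xs]; decide)
    (by rw [xq, xs]; decide) (fun e he e1 => by
      by_contra n
      rw [hU.const he n, xc] at e1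
      exact n e1) pd (by rwa [xc])
  refine absurd (hm x v s c f h.hs hc ((cs_one h.hs).2 fun e he e1 => ?_) ?_) (by omega)
  · rw [h.rtv x he, h.rtv x h.hs, xs] at e1
    by_cases n : m u e = (1, 0)
    · exact absurd e1 (h0 e he n)
    · exact h1 e he (by rw [← hU.const he n, e1])
  · rw [h.rtv x hc, h.rtv x h.hs, xs, xc]; decide

theorem NG.noV02 (h : NG D C m Fr u v p q s) (h1 : ∀ c ∈ C, m u c = (0, 0) → c = s)
    (hm : MinP C m Fr u v p) {x : E} (hx : Oth D u v x) (hU : V1 C m u x)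
    (h0 : ∀ c ∈ C, m u c = (1, 0) → m x c ≠ (1, 0)) (vr : Var C m u x) : False := by
  obtain ⟨c, hc, pc, nc⟩ := vr.ne (1, -1)
  obtain ⟨d, hd, pd, nd⟩ := vr.ne (0, 0)
  have xc : m x c = (0, 0) := by
    have := (hU c hc).2
    have := h0 c hc pc
    tauto
  have xq := hU.atq h
  have xs := h.zs x hx.1
  have uq := h.uq
  have us := h.us
  obtain ⟨f, lt⟩ := h.small_u hx hc h.hq h.hs hd (by rw [xc, xq, pc, uq]; decide)
    (by rw [xc, xs, pc, us]; decide) (by rw [xq, xs, uq, us]; decide) (fun e he e1 => by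
      by_contra n
      rw [hU.const he n, xc, pc, sub_right_inj] at e1
      exact n e1) pd (by rw [pc, pd, xc]; exact fun e => nd (sub_left_inj.1 e))
  refine absurd (hm x u s c f h.hs hc ((cs_one h.hs).2 fun e he e1 => ?_) ?_) (by omega)
  · rw [rt, rt, xs, us, sub_self, sub_eq_zero] at e1
    by_cases n : m u e = (1, 0)
    · exact absurd (e1.trans n) (h0 e he n)
    · exact h1 e he (by rw [← e1, hU.const he n])
  · rw [rt, rt, xs, us, xc, pc]; decide

theorem NG.step2a (h : NG D C m Fr u v p q s) (h1 : ∀ c ∈ C, m u c = (0, 0) → c = s)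
    (hm : MinP C m Fr u v p) (h2 : 2 ≤ cs m C u v p) (ht : NoW D C m u v) : False := by
  obtain ⟨x, y, c0, ox, oy, ux, vy, vrx, vry, hc0, p0, n1, n2⟩ := h.meet ht (h.two_P h2)
  rcases h.pairBC ox oy ux vy (Or.inl vrx) hc0 p0 n1 n2 with b | b | b
  · refine h.noU02 h1 hm ox ux (fun c hc pc => ?_) vrx
    have := b c hc pc
    simp only [z2, ne_eq] at this ⊢; omega
  · refine h.noV02 h1 hm oy vy (fun c hc pc => ?_) vry
    have := b c hc pc
    simp only [z2, ne_eq] at this ⊢; omega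
  · obtain ⟨c, hc, d, hd, pc, pd, n⟩ := id vrx
    have xq := ux.atq h
    have uq := h.uq
    have bc := b c hc pc
    have bd := b d hd pd
    have f : Fr x u := by
      refine h.move v u (h.symm _ _ h.fr) x ox.1 ox.2.2 ox.2.1 c d q ⟨hc, hd, h.hq, ?_, ?_, ?_⟩ <;>
      · simp only [rt, z2, Prod.fst_sub, Prod.snd_sub, ne_eq] at xq uq bc bd pc pd n ⊢; omega
    have one : ∀ c ∈ C, m u c = (1, 0) → cs m C x u c = 1 := by
      intro c hc pc
      refine (cs_one hc).2 fun e he e1 => ?_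
      have bc := b c hc pc
      by_cases pe : m u e = (1, 0)
      · refine h.ccard ht ox oy ux vy vrx b he hc pe pc ?_
        rwa [rt, rt, pe, pc, sub_left_inj] at e1
      · have := ux.const he pe
        simp only [rt, z2, Prod.fst_sub, Prod.snd_sub] at this e1 bc pc; omega
    have := hm x u c d f hc hd (one c hc pc) (by
      rw [rt, rt, pc, pd]; exact fun e => n (sub_left_inj.1 e).symm)
    rw [one d hd pd] at this
    omega

theorem NG.step2b (h : NG D C m Fr u v p q s) (h1 : ∀ c ∈ C, m u c = (0, 0) → c = s)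
    (hm : MinP C m Fr u v p) (h2 : 2 ≤ cs m C u v p) {x0 : E} (o0 : Oth D u v x0)
    (w0 : W3 C m u x0) : False := by
  classical
  have us := h.us
  let WS := D.filter fun x => Oth D u v x ∧ W3 C m u x
  have hWS : WS.Nonempty := ⟨x0, Finset.mem_filter.2 ⟨o0.1, o0, w0⟩⟩
  have nest : ∀ x y, Oth D u v x → W3 C m u x → Oth D u v y → W3 C m u y →
      (C.filter fun c => m x c ≠ (0, 0)).card ≤ (C.filter fun c => m y c ≠ (0, 0)).card →
      ∀ c ∈ C, m y c = (0, 0) → m x c = (0, 0) := by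
    intro x y ox wx oy wy le c hc yc
    by_contra xc
    have : (C.filter fun c => m y c ≠ (0, 0)) ⊂ C.filter fun c => m x c ≠ (0, 0) := by
      refine ⟨fun d hd => ?_, fun hh => ?_⟩
      · obtain ⟨hd, nd⟩ := Finset.mem_filter.1 hd
        exact Finset.mem_filter.2 ⟨hd, fun xd => nd (h.nestW ox oy wx wy hc hd xc yc xd)⟩
      · exact (Finset.mem_filter.1 (hh (Finset.mem_filter.2 ⟨hc, xc⟩))).2 yc
    exact absurd (Finset.card_lt_card this) (by omega)
  obtain ⟨x, hx, xmin⟩ := WS.exists_min_image (fun x => (C.filter fun c => m x c ≠ (0, 0)).card) hWS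
  obtain ⟨z, hz, zmax⟩ := WS.exists_max_image (fun x => (C.filter fun c => m x c ≠ (0, 0)).card) hWS
  obtain ⟨-, ox, wx⟩ := Finset.mem_filter.1 hx
  obtain ⟨-, oz, wz⟩ := Finset.mem_filter.1 hz
  have xle : ∀ y, Oth D u v y → W3 C m u y → ∀ c ∈ C, m y c = (0, 0) → m x c = (0, 0) :=
    fun y oy wy => nest x y ox wx oy wy (xmin y (Finset.mem_filter.2 ⟨oy.1, oy, wy⟩))
  have zge : ∀ y, Oth D u v y → W3 C m u y → ∀ c ∈ C, m z c = (0, 0) → m y c = (0, 0) :=
    fun y oy wy => nest y z oy wy oz wz (zmax y (Finset.mem_filter.2 ⟨oy.1, oy, wy⟩))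
  obtain ⟨xw, ⟨a1, ha1, pa1, xa1⟩, ⟨b1, hb1, pb1, xb1⟩, ⟨a2, ha2, pa2, xa2⟩,
    ⟨b2, hb2, pb2, xb2⟩⟩ := id wx
  obtain ⟨zw, ⟨c1, hc1, pc1, zc1⟩, ⟨d1, hd1, pd1, zd1⟩, ⟨c2, hc2, pc2, zc2⟩,
    ⟨d2, hd2, pd2, zd2⟩⟩ := id wz
  -- the first part of the minimal row is a singleton
  have s1 : ¬ 2 ≤ (C.filter fun c => m u c = (1, 0) ∧ m x c = (1, 0)).card := by
    refine h.vary (Finset.filter_subset _ _) (by simp [us]) ?_ (w := v) ?_
    · intro c hc d hd
      rw [(Finset.mem_filter.1 hc).2.1, (Finset.mem_filter.1 hd).2.1]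
    intro y oy c hc d hd n e he heT
    obtain ⟨hc, pc, xc⟩ := Finset.mem_filter.1 hc
    obtain ⟨hd, pd, xd⟩ := Finset.mem_filter.1 hd
    have vr : Var C m u y := ⟨c, hc, d, hd, pc, pd, n⟩
    rw [h.zv e he]
    rcases h.types h1 oy with t | t | t | t | t
    · refine (h.noU02 h1 hm oy t (fun g hg pg yg => ?_) vr).elim
      rcases xw g hg with xg | xg
      · have := h.wU1 ox oy wx t hg hb1 pg pb1 (xg.trans pg) xb1 (by rw [yg]; decide)
        rw [yg] at this; exact absurd this.1 (by decide)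
      · by_cases yc : m y c = (1, 0)
        · have := h.wU1 ox oy wx t hd hg pd pg xd xg (fun e => n (yc.trans e.symm))
          rw [yg] at this; exact absurd this.2 (by decide)
        · have := h.wU1 ox oy wx t hc hg pc pg xc xg yc
          rw [yg] at this; exact absurd this.2 (by decide)
    · by_cases pe : m u e = (1, 0)
      · have xe : m x e = (0, 0) := (xw e he).resolve_left fun e' =>
          heT (Finset.mem_filter.2 ⟨he, pe, e'.trans pe⟩)
        by_contra ye
        exact n ((h.wV1 ox oy wx t hc he pc pe xc xe ye).1.trans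
          (h.wV1 ox oy wx t hd he pd pe xd xe ye).1.symm)
      · exact t.const he pe
    · exact absurd ((t.const hc pc).trans (t.const hd pd).symm) n
    · exact absurd ((t.const hc pc).trans (t.const hd pd).symm) n
    · have e1 := (t.1 c hc).resolve_right fun e' => by
        have := xle y oy t c hc e'; rw [xc] at this; exact absurd this (by decide)
      have e2 := (t.1 d hd).resolve_right fun e' => by
        have := xle y oy t d hd e'; rw [xd] at this; exact absurd this (by decide)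
      exact absurd (by rw [e1, e2, pc, pd]) n
  have xs := h.zs x ox.1
  have fx : Fr x v := h.move u v h.fr x ox.1 ox.2.1 ox.2.2 a1 a2 s ⟨ha1, ha2, h.hs,
    by rw [h.rtv x ha1, h.rtv x ha2, xa1, xa2]; decide,
    by rw [h.rtv x ha1, h.rtv x h.hs, xa1, xs]; decide,
    by rw [h.rtv x ha2, h.rtv x h.hs, xa2, xs]; decide⟩
  have s2 : 2 ≤ (C.filter fun c => m u c = (0, 1) ∧ m x c = (0, 1)).card := by
    refine cs_two (h2.trans (hm x v a1 a2 fx ha1 ha2 ((cs_one ha1).2 fun e he e1 => ?_) ?_))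
      fun e he e1 => ?_
    · rw [h.rtv x he, h.rtv x ha1, xa1] at e1
      have pe : m u e = (1, 0) := by
        have := xw e he
        simp only [z2] at this e1 ⊢; omega
      exact Finset.card_le_one.1 (Nat.le_of_lt_succ (not_le.1 s1)) e
        (Finset.mem_filter.2 ⟨he, pe, e1⟩) a1
        (Finset.mem_filter.2 ⟨ha1, pa1, xa1⟩)
    · rw [h.rtv x ha1, h.rtv x ha2, xa1, xa2]; decide
    · rw [h.rtv x he, h.rtv x ha2, xa2] at e1
      refine Finset.mem_filter.2 ⟨he, ?_, e1⟩
      have := xw e he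
      simp only [z2] at this e1 ⊢; omega
  obtain ⟨y1, oy1, ty1, c, hc, pc, xc, yc, d, hd, yd⟩ : ∃ y, Oth D u v y ∧ U2 C m u y ∧
      ∃ c ∈ C, m u c = (0, 1) ∧ m x c = (0, 1) ∧ m y c = (1, 0) ∧ ∃ d ∈ C, m y d = (0, 1) := by
    by_contra hn
    refine h.vary (Finset.filter_subset _ _) (by simp [us]) ?_ (w := v) ?_ s2
    · intro c hc d hd
      rw [(Finset.mem_filter.1 hc).2.1, (Finset.mem_filter.1 hd).2.1]
    intro y oy c hc d hd n e he heT
    obtain ⟨hc, pc, xc⟩ := Finset.mem_filter.1 hc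
    obtain ⟨hd, pd, xd⟩ := Finset.mem_filter.1 hd
    rw [h.zv e he]
    rcases h.types h1 oy with t | t | t | t | t
    · exact absurd (by rw [t.const hc (by rw [pc]; decide), t.const hd (by rw [pd]; decide),
        pc, pd]) n
    · exact absurd (by rw [t.const hc (by rw [pc]; decide), t.const hd (by rw [pd]; decide)]) n
    · exfalso
      by_cases yc : m y c = (0, 1)
      · exact hn ⟨y, oy, t, d, hd, pd, xd, (h.wU2 ox oy wx t hd hb2 pd pb2 xd xb2
          fun e => n (yc.trans e.symm)).1, c, hc, yc⟩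
      · have e1 := (h.wU2 ox oy wx t hc hb2 pc pb2 xc xb2 yc).1
        by_cases yd : m y d = (0, 1)
        · exact hn ⟨y, oy, t, c, hc, pc, xc, e1, d, hd, yd⟩
        · exact n (e1.trans (h.wU2 ox oy wx t hd hb2 pd pb2 xd xb2 yd).1.symm)
    · by_cases pe : m u e = (0, 1)
      · have xe : m x e = (0, 0) := (xw e he).resolve_left fun e' =>
          heT (Finset.mem_filter.2 ⟨he, pe, e'.trans pe⟩)
        by_contra ye
        exact n ((h.wV2 ox oy wx t hc he pc pe xc xe ye).1.trans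
          (h.wV2 ox oy wx t hd he pd pe xd xe ye).1.symm)
      · exact (t e he).1.resolve_left pe
    · have e1 := (t.1 c hc).resolve_right fun e' => by
        have := xle y oy t c hc e'; rw [xc] at this; exact absurd this (by decide)
      have e2 := (t.1 d hd).resolve_right fun e' => by
        have := xle y oy t d hd e'; rw [xd] at this; exact absurd this (by decide)
      exact absurd (by rw [e1, e2, pc, pd]) n
  -- the mirror statements for the maximal row
  have s3 : ¬ 2 ≤ (C.filter fun c => m u c = (1, 0) ∧ m z c = (0, 0)).card := by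
    refine h.vary (Finset.filter_subset _ _) (by simp [us]) ?_ (w := u) ?_
    · intro c hc d hd
      rw [(Finset.mem_filter.1 hc).2.1, (Finset.mem_filter.1 hd).2.1]
    intro y oy c hc d hd n e he heT
    obtain ⟨hc, pc, xc⟩ := Finset.mem_filter.1 hc
    obtain ⟨hd, pd, xd⟩ := Finset.mem_filter.1 hd
    have vr : Var C m u y := ⟨c, hc, d, hd, pc, pd, n⟩
    rcases h.types h1 oy with t | t | t | t | t
    · by_cases pe : m u e = (1, 0)
      · have ze : m z e = (1, 0) := ((zw e he).resolve_right fun e' =>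
          heT (Finset.mem_filter.2 ⟨he, pe, e'⟩)).trans pe
        rw [pe]
        by_contra ye
        exact n ((h.wU1 oz oy wz t he hc pe pc ze xc ye).2.trans
          (h.wU1 oz oy wz t he hd pe pd ze xd ye).2.symm)
      · exact t.const he pe
    · refine (h.noV02 h1 hm oy t (fun g hg pg yg => ?_) vr).elim
      rcases zw g hg with xg | xg
      · by_cases yc : m y c = (0, 0)
        · have := h.wV1 oz oy wz t hg hd pg pd (xg.trans pg) xd (fun e => n (yc.trans e.symm))
          rw [yg] at this; exact absurd this.1 (by decide)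
        · have := h.wV1 oz oy wz t hg hc pg pc (xg.trans pg) xc yc
          rw [yg] at this; exact absurd this.1 (by decide)
      · have := h.wV1 oz oy wz t hc1 hg pc1 pg zc1 xg (by rw [yg]; decide)
        rw [yg] at this; exact absurd this.2 (by decide)
    · exact absurd ((t.const hc pc).trans (t.const hd pd).symm) n
    · exact absurd ((t.const hc pc).trans (t.const hd pd).symm) n
    · exact absurd ((zge y oy t c hc xc).trans (zge y oy t d hd xd).symm) n
  have zs := h.zs z oz.1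
  have fz : Fr z u := h.move v u (h.symm _ _ h.fr) z oz.1 oz.2.2 oz.2.1 d1 d2 s ⟨hd1, hd2, h.hs,
    by rw [rt, rt, zd1, zd2, pd1, pd2]; decide, by rw [rt, rt, zd1, zs, pd1, us]; decide,
    by rw [rt, rt, zd2, zs, pd2, us]; decide⟩
  have s4 : 2 ≤ (C.filter fun c => m u c = (0, 1) ∧ m z c = (0, 0)).card := by
    refine cs_two (h2.trans (hm z u d1 d2 fz hd1 hd2 ((cs_one hd1).2 fun e he e1 => ?_) ?_))
      fun e he e1 => ?_
    · rw [rt, rt, zd1, pd1] at e1
      have pe : m u e = (1, 0) ∧ m z e = (0, 0) := by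
        have := zw e he
        simp only [z2, Prod.fst_sub, Prod.snd_sub] at this e1 ⊢; omega
      exact Finset.card_le_one.1 (Nat.le_of_lt_succ (not_le.1 s3)) e
        (Finset.mem_filter.2 ⟨he, pe⟩) d1
        (Finset.mem_filter.2 ⟨hd1, pd1, zd1⟩)
    · rw [rt, rt, zd1, zd2, pd1, pd2]; decide
    · rw [rt, rt, zd2, pd2] at e1
      refine Finset.mem_filter.2 ⟨he, ?_⟩
      have := zw e he
      simp only [z2, Prod.fst_sub, Prod.snd_sub] at this e1 ⊢; omega
  obtain ⟨y2, oy2, ty2, g, hg, pg, zg, yg⟩ : ∃ y, Oth D u v y ∧ V2 C m u y ∧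
      ∃ g ∈ C, m u g = (0, 1) ∧ m z g = (0, 0) ∧ m y g ≠ (0, 0) := by
    by_contra hn
    refine h.vary (Finset.filter_subset _ _) (by simp [us]) ?_ (w := u) ?_ s4
    · intro c hc d hd
      rw [(Finset.mem_filter.1 hc).2.1, (Finset.mem_filter.1 hd).2.1]
    intro y oy c hc d hd n e he heT
    obtain ⟨hc, pc, xc⟩ := Finset.mem_filter.1 hc
    obtain ⟨hd, pd, xd⟩ := Finset.mem_filter.1 hd
    rcases h.types h1 oy with t | t | t | t | t
    · exact absurd (by rw [t.const hc (by rw [pc]; decide), t.const hd (by rw [pd]; decide),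
        pc, pd]) n
    · exact absurd (by rw [t.const hc (by rw [pc]; decide), t.const hd (by rw [pd]; decide)]) n
    · by_cases pe : m u e = (0, 1)
      · have ze : m z e = (0, 1) := ((zw e he).resolve_right fun e' =>
          heT (Finset.mem_filter.2 ⟨he, pe, e'⟩)).trans pe
        rw [pe]
        by_contra ye
        exact n ((h.wU2 oz oy wz t he hc pe pc ze xc ye).2.trans
          (h.wU2 oz oy wz t he hd pe pd ze xd ye).2.symm)
      · exact (t e he).1.resolve_left pe
    · exfalso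
      by_cases yc : m y c = (0, 0)
      · exact hn ⟨y, oy, t, d, hd, pd, xd, fun e => n (yc.trans e.symm)⟩
      · exact hn ⟨y, oy, t, c, hc, pc, xc, yc⟩
    · exact absurd ((zge y oy t c hc xc).trans (zge y oy t d hd xd).symm) n
  have zc : m z c = (0, 1) := ((zw c hc).resolve_right fun e' => by
    have := zge x ox wx c hc e'; rw [xc] at this; exact absurd this (by decide)).trans pc
  exact h.mixed2 oy1 oy2 ty1 ty2 hc hd yc (h.wV2 oz oy2 wz ty2 hc hg pc pg zc zg yg).1 yd

/-- One singleton class, the first class is minimal and has two elements. -/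
theorem NG.step2 (h : NG D C m Fr u v p q s) (h1 : ∀ c ∈ C, m u c = (0, 0) → c = s)
    (hm : MinP C m Fr u v p) (h2 : 2 ≤ cs m C u v p) : False := by
  by_cases hw : ∃ x, Oth D u v x ∧ W3 C m u x
  · obtain ⟨x, ox, wx⟩ := hw
    exact h.step2b h1 hm h2 ox wx
  · refine h.step2a h1 hm h2 fun x ox => ?_
    have := h.types h1 ox
    have : ¬ W3 C m u x := fun e => hw ⟨x, ox, e⟩
    tauto

end Pool.Agent.Lib.MP_10bdcf_co.II
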