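import Mathlib

/-!
Case II, the rank three lemma: five pencils of points through an apex, in incidence form.
-/

namespace Pool.Agent.Lib.MP_10bdcf_co.II

variable {E : Type}

/-- Four points in different classes. -/
def Df4 (P : E → Prop) (cl : E → Fin 5) (a b c d : E) : Prop :=
  P a ∧ P b ∧ P c ∧ P d ∧ cl a ≠ cl b ∧ cl a ≠ cl c ∧ cl a ≠ cl d ∧ cl b ≠ cl c ∧ cl b ≠ cl d ∧
    cl c ≠ cl d

/-- Five points in different classes. -/
def Df5 (P : E → Prop) (cl : E → Fin 5) (a b c d e : E) : Prop :=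
  P a ∧ cl a ≠ cl b ∧ cl a ≠ cl c ∧ cl a ≠ cl d ∧ cl a ≠ cl e ∧ Df4 P cl b c d e

/-- No three of the four points are collinear. -/
def Gen (col : E → E → E → Prop) (a b c d : E) : Prop :=
  ¬ col a b c ∧ ¬ col a b d ∧ ¬ col a c d ∧ ¬ col b c d

/-- The incidence data of a rank three minor with an apex and five classes. `col` is collinearity,
`par` is parallelism. -/
structure RC (P : E → Prop) (cl : E → Fin 5) (col : E → E → E → Prop) (par : E → E → Prop)
    (Vp Vm : E → Prop) : Prop where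
  surj : ∀ i, ∃ a, P a ∧ cl a = i
  sw1 : ∀ a b c, col a b c → col b a c
  sw2 : ∀ a b c, col a b c → col a c b
  line : ∀ a b c d, P a → P b → cl a ≠ cl b → col a b c → col a b d → col a c d
  uniq : ∀ a a' b c, P a → P a' → P b → P c → cl a' = cl a → cl a ≠ cl b → cl b ≠ cl c →
    col a b c → col a' b c → par a a'
  move : ∀ a a' b c, P a → par a a' → col a b c → col a' b c
  refl : ∀ a, par a a
  del : ∀ a b c d, Df4 P cl a b c d → Gen col a b c d →
    ∀ z, P z → z ≠ a → z ≠ b → z ≠ c → z ≠ d → Vm z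
  five : ∀ a b c d e, Df5 P cl a b c d e → col a b c → col a b d → ¬ col a b e
  con : ∀ y a b c d, Df5 P cl y a b c d → ¬ col y a b → ¬ col y a c → ¬ col y a d → ¬ col y b c →
    ¬ col y b d → ¬ col y c d → Vp y
  p6 : ∀ a b c d e, Df5 P cl a b c d e → col a d e ∨ col b d e ∨ col c d e ∨
    col a b d ∨ col a b e ∨ col a c d ∨ col a c e ∨ col b c d ∨ col b c e
  f7 : ∀ y y' a b c d, Df5 P cl y a b c d → Gen col a b c d → P y' → cl y' = cl y → col y a b →
    col y c d → col y' a c → ¬ col y' b d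
  flag : ∀ a a', P a → P a' → cl a' = cl a → a ≠ a' → Vm a
  disj : ∀ a, Vp a → ¬ Vm a
  cog : ∀ a b d e, P a → P b → cl a ≠ cl b → ∃ z, P z ∧ z ≠ d ∧ z ≠ e ∧
    ¬ par a z ∧ ¬ par b z ∧ ¬ col a b z

variable {P : E → Prop} {cl : E → Fin 5} {col : E → E → E → Prop} {par : E → E → Prop}
  {Vp Vm : E → Prop}

/-- The class of `y` contains two points that are not parallel. -/
def Vr (P : E → Prop) (cl : E → Fin 5) (par : E → E → Prop) (y y' : E) : Prop :=
  P y ∧ P y' ∧ cl y' = cl y ∧ ¬ par y y'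

/-- All points of the class of `a` are parallel to `a`. -/
def Nv (P : E → Prop) (cl : E → Fin 5) (par : E → E → Prop) (a : E) : Prop :=
  ∀ z, P z → cl z = cl a → par a z

theorem RC.perm (h : RC P cl col par Vp Vm) (a b c : E) :
    (col b a c ↔ col a b c) ∧ (col a c b ↔ col a b c) ∧ (col b c a ↔ col a b c) ∧
      (col c a b ↔ col a b c) ∧ (col c b a ↔ col a b c) :=
  ⟨⟨h.sw1 _ _ _, h.sw1 _ _ _⟩, ⟨h.sw2 _ _ _, h.sw2 _ _ _⟩,
    ⟨fun e => h.sw1 _ _ _ (h.sw2 _ _ _ e), fun e => h.sw2 _ _ _ (h.sw1 _ _ _ e)⟩,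
    ⟨fun e => h.sw2 _ _ _ (h.sw1 _ _ _ e), fun e => h.sw1 _ _ _ (h.sw2 _ _ _ e)⟩,
    ⟨fun e => h.sw2 _ _ _ (h.sw1 _ _ _ (h.sw2 _ _ _ e)),
      fun e => h.sw2 _ _ _ (h.sw1 _ _ _ (h.sw2 _ _ _ e))⟩⟩

/-- Two collinear triples among four points make all four triples collinear. -/
theorem RC.four (h : RC P cl col par Vp Vm) {a b c d : E} (hd : Df4 P cl a b c d) :
    (col a b c → col a b d → col a c d ∧ col b c d) ∧
    (col a b c → col a c d → col a b d ∧ col b c d) ∧
    (col a b c → col b c d → col a b d ∧ col a c d) ∧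
    (col a b d → col a c d → col a b c ∧ col b c d) ∧
    (col a b d → col b c d → col a b c ∧ col a c d) ∧
    (col a c d → col b c d → col a b c ∧ col a b d) := by
  obtain ⟨pa, pb, pc, pd, h1, h2, h3, h4, h5, h6⟩ := hd
  have p1 := h.perm a b c
  have p2 := h.perm a b d
  have p3 := h.perm a c d
  have p4 := h.perm b c d
  have l1 := h.line a b c d pa pb h1
  have l2 := h.line b a c d pb pa h1.symm
  have l3 := h.line a c b d pa pc h2
  have l4 := h.line c a b d pc pa h2.symm
  have l5 := h.line b c a d pb pc h4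
  have l6 := h.line c b a d pc pb h4.symm
  have l7 := h.line a d b c pa pd h3
  have l8 := h.line d a b c pd pa h3.symm
  have l9 := h.line b d a c pb pd h5
  have l10 := h.line d b a c pd pb h5.symm
  have l11 := h.line c d a b pc pd h6
  have l12 := h.line d c a b pd pc h6.symm
  simp only [p1, p2, p3, p4] at l1 l2 l3 l4 l5 l6 l7 l8 l9 l10 l11 l12
  exact ⟨fun x y => ⟨l1 x y, l2 x y⟩, fun x y => ⟨l3 x y, l4 x y⟩, fun x y => ⟨l5 x y, l6 x y⟩,
    fun x y => ⟨l7 x y, l8 x y⟩, fun x y => ⟨l9 x y, l10 x y⟩, fun x y => ⟨l11 x y, l12 x y⟩⟩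

theorem Df5.sub {a b c d e : E} (hd : Df5 P cl a b c d e) :
    Df4 P cl a b c d ∧ Df4 P cl a b c e ∧ Df4 P cl a b d e ∧ Df4 P cl a c d e ∧ Df4 P cl b c d e := by
  unfold Df5 Df4 at *
  grind

theorem Df5.swap12 {a b c d e : E} (hd : Df5 P cl a b c d e) : Df5 P cl b a c d e := by
  unfold Df5 Df4 at *
  grind

theorem Df5.swap23 {a b c d e : E} (hd : Df5 P cl a b c d e) : Df5 P cl a c b d e := by
  unfold Df5 Df4 at *
  grind

theorem Df5.swap34 {a b c d e : E} (hd : Df5 P cl a b c d e) : Df5 P cl a b d c e := by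
  unfold Df5 Df4 at *
  grind

theorem Df5.swap45 {a b c d e : E} (hd : Df5 P cl a b c d e) : Df5 P cl a b c e d := by
  unfold Df5 Df4 at *
  grind

theorem Df5.repl {a b c d e a' : E} (hd : Df5 P cl a b c d e) (h1 : P a') (h2 : cl a' = cl a) :
    Df5 P cl a' b c d e := by
  unfold Df5 Df4 at *
  grind

theorem Df5.cover {a b c d e : E} (hd : Df5 P cl a b c d e) (z : E) :
    cl z = cl a ∨ cl z = cl b ∨ cl z = cl c ∨ cl z = cl d ∨ cl z = cl e := by
  unfold Df5 Df4 at hd
  obtain ⟨-, h1, h2, h3, h4, -, -, -, -, h5, h6, h7, h8, h9, h10⟩ := hd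
  simp only [ne_eq, Fin.ext_iff] at *
  omega

/-- The collinear triples of a transversal, in propositional form. -/
theorem RC.nine (h : RC P cl col par Vp Vm) {a b c d e : E} (hd : Df5 P cl a b c d e) :
    (col a d e ∨ col b d e ∨ col c d e ∨ col a b d ∨ col a b e ∨ col a c d ∨ col a c e ∨
      col b c d ∨ col b c e) ∧
    (col a c e ∨ col b c e ∨ col c d e ∨ col a b c ∨ col a b e ∨ col a c d ∨ col a d e ∨
      col b c d ∨ col b d e) ∧
    (col a c d ∨ col b c d ∨ col c d e ∨ col a b c ∨ col a b d ∨ col a c e ∨ col a d e ∨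
      col b c e ∨ col b d e) ∧
    (col a b e ∨ col b c e ∨ col b d e ∨ col a b c ∨ col a c e ∨ col a b d ∨ col a d e ∨
      col b c d ∨ col c d e) ∧
    (col a b d ∨ col b c d ∨ col b d e ∨ col a b c ∨ col a c d ∨ col a b e ∨ col a d e ∨
      col b c e ∨ col c d e) ∧
    (col a b c ∨ col b c d ∨ col b c e ∨ col a b d ∨ col a c d ∨ col a b e ∨ col a c e ∨
      col b d e ∨ col c d e) ∧
    (col a b e ∨ col a c e ∨ col a d e ∨ col a b c ∨ col b c e ∨ col a b d ∨ col b d e ∨
      col a c d ∨ col c d e) ∧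
    (col a b d ∨ col a c d ∨ col a d e ∨ col a b c ∨ col b c d ∨ col a b e ∨ col b d e ∨
      col a c e ∨ col c d e) ∧
    (col a b c ∨ col a c d ∨ col a c e ∨ col a b d ∨ col b c d ∨ col a b e ∨ col b c e ∨
      col a d e ∨ col c d e) ∧
    (col a b c ∨ col a b d ∨ col a b e ∨ col a c d ∨ col b c d ∨ col a c e ∨ col b c e ∨
      col a d e ∨ col b d e) := by
  have q1 := h.perm a b c
  have q2 := h.perm a b d
  have q3 := h.perm a b e
  have q4 := h.perm a c d
  have q5 := h.perm a c e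
  have q6 := h.perm a d e
  have q7 := h.perm b c d
  have q8 := h.perm b c e
  have q9 := h.perm b d e
  have q10 := h.perm c d e
  have p1 := h.p6 a b c d e hd
  have p2 := h.p6 a b d c e hd.swap34
  have p3 := h.p6 a b e c d hd.swap45.swap34
  have p4 := h.p6 a c d b e hd.swap23.swap34
  have p5 := h.p6 a c e b d hd.swap23.swap45.swap34
  have p6 := h.p6 a d e b c hd.swap34.swap23.swap45.swap34
  have p7 := h.p6 b c d a e hd.swap12.swap23.swap34
  have p8 := h.p6 b c e a d hd.swap12.swap23.swap45.swap34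
  have p9 := h.p6 b d e a c hd.swap12.swap34.swap23.swap45.swap34
  have p10 := h.p6 c d e a b hd.swap23.swap12.swap34.swap23.swap45.swap34
  simp only [q1, q2, q3, q4, q5, q6, q7, q8, q9, q10] at p1 p2 p3 p4 p5 p6 p7 p8 p9 p10
  exact ⟨p1, p2, p3, p4, p5, p6, p7, p8, p9, p10⟩

/-- A point such that the other four points have no collinear triple is a diagonal point. -/
theorem RC.diag (h : RC P cl col par Vp Vm) {y a b c d : E} (hd : Df5 P cl y a b c d)
    (hg : Gen col a b c d) :
    (col y a b ∧ col y c d) ∨ (col y a c ∧ col y b d) ∨ (col y a d ∧ col y b c) := by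
  obtain ⟨d1, d2, d3, d4, d5⟩ := hd.sub
  have f1 := h.four d1
  have f2 := h.four d2
  have f3 := h.four d3
  have f4 := h.four d4
  have n := h.nine hd
  unfold Gen at hg
  grind (splits := 20)

/-- The fifth point of a transversal with four collinear points is contractible. -/
theorem RC.ell (h : RC P cl col par Vp Vm) {y a b c d : E} (hd : Df5 P cl y a b c d)
    (h1 : col a b c) (h2 : col a b d) : Vp y ∧ ¬ col y a b := by
  obtain ⟨d1, d2, d3, d4, d5⟩ := hd.sub
  have f1 := h.four d1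
  have f2 := h.four d2
  have f3 := h.four d3
  have f4 := h.four d4
  have f5 := h.four d5
  have f := h.five y a b c d hd
  have n1 : ¬ col y a b := by grind
  have n2 : ¬ col y a c := by grind
  have n3 : ¬ col y a d := by grind
  have n4 : ¬ col y b c := by grind
  have n5 : ¬ col y b d := by grind
  have n6 : ¬ col y c d := by grind
  exact ⟨h.con y a b c d hd n1 n2 n3 n4 n5 n6, n1⟩

/-- A point off the only line of the other four points has a deletable mate. -/
theorem RC.mate (h : RC P cl col par Vp Vm) {y a b c d : E} (hd : Df5 P cl y a b c d)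
    (h1 : col a b c) (h2 : ¬ col a b d) (h3 : ¬ col y a b) :
    (col y a d ∧ Vm a) ∨ (col y b d ∧ Vm b) ∨ (col y c d ∧ Vm c) := by
  obtain ⟨d1, d2, d3, d4, d5⟩ := hd.sub
  have f1 := h.four d1
  have f2 := h.four d2
  have f3 := h.four d3
  have f4 := h.four d4
  have f5 := h.four d5
  have n := (h.nine hd).2.2.2.2.2.2.1
  have n1 : ¬ col y a c := by grind
  have n2 : ¬ col y b c := by grind
  have n3 : ¬ col a c d := by grind
  have n4 : ¬ col b c d := by grind
  have m : col y a d ∨ col y b d ∨ col y c d := by grind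
  unfold Df5 Df4 at hd
  rcases m with m | m | m
  · exact Or.inl ⟨m, h.del y b c d d4 ⟨n2, by grind, by grind, n4⟩ a d5.1 (by grind) (by grind)
      (by grind) (by grind)⟩
  · exact Or.inr (Or.inl ⟨m, h.del y a c d d3 ⟨n1, by grind, by grind, n3⟩ b d5.2.1 (by grind)
      (by grind) (by grind) (by grind)⟩)
  · exact Or.inr (Or.inr ⟨m, h.del y a b d d2 ⟨h3, by grind, by grind, h2⟩ c d5.2.2.1 (by grind)
      (by grind) (by grind) (by grind)⟩)

theorem RC.vm (h : RC P cl col par Vp Vm) {y y' : E} (hv : Vr P cl par y y') {w : E} (hw : P w)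
    (e : cl w = cl y) : Vm w := by
  obtain ⟨h1, h2, h3, h4⟩ := hv
  by_cases e1 : w = y
  · subst e1
    exact h.flag w y' hw h2 h3 fun e => h4 (e ▸ h.refl w)
  · exact h.flag w y hw h1 e.symm e1

/-- If the class of `y` varies, exactly one triple of the other four points is collinear. -/
theorem RC.one (h : RC P cl col par Vp Vm) {y y' a b c d : E} (hd : Df5 P cl y a b c d)
    (hv : Vr P cl par y y') :
    (col a b c ∨ col a b d ∨ col a c d ∨ col b c d) ∧ ¬ (col a b c ∧ col a b d) := by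
  have hd' := hd.repl hv.2.1 hv.2.2.1
  constructor
  · by_contra hn
    have hg : Gen col a b c d := by unfold Gen; tauto
    have g1 := h.diag hd hg
    have g2 := h.diag hd' hg
    have q1 := h.perm a b c
    have q2 := h.perm a b d
    have q3 := h.perm a c d
    have q4 := h.perm b c d
    have s1 := h.sw2 y
    have s2 := h.sw2 y'
    have u := fun b c h1 h2 h3 h4 => h.uniq y y' b c hv.1 hv.2.1 h1 h2 hv.2.2.1 h3 h4
    have k1 := fun g => h.f7 y y' a b c d hd g hv.2.1 hv.2.2.1
    have k2 := fun g => h.f7 y y' a b d c hd.swap45 g hv.2.1 hv.2.2.1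
    have k3 := fun g => h.f7 y y' a c b d hd.swap34 g hv.2.1 hv.2.2.1
    have k4 := fun g => h.f7 y y' a c d b hd.swap34.swap45 g hv.2.1 hv.2.2.1
    have k5 := fun g => h.f7 y y' a d b c hd.swap45.swap34 g hv.2.1 hv.2.2.1
    have k6 := fun g => h.f7 y y' a d c b hd.swap45.swap34.swap45 g hv.2.1 hv.2.2.1
    have u1 := u a b
    have u2 := u a c
    have u3 := u a d
    have hp := hv.2.2.2
    clear u
    unfold Gen at *
    unfold Df5 Df4 at hd
    grind (splits := 20)
  · rintro ⟨h1, h2⟩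
    exact h.disj y (h.ell hd h1 h2).1 (h.vm hv hv.1 rfl)

end Pool.Agent.Lib.MP_10bdcf_co.II
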