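import Pool.Agent.Lib.MP_10bdcf_co.IIR1

/-!
Case II, the rank three lemma: the three conclusions.
-/

namespace Pool.Agent.Lib.MP_10bdcf_co.II

variable {E : Type} {P : E → Prop} {cl : E → Fin 5} {col : E → E → E → Prop} {par : E → E → Prop}
  {Vp Vm : E → Prop}

theorem RC.ext3 (h : RC P cl col par Vp Vm) {c d e : E} (pc : P c) (pd : P d) (pe : P e)
    (h1 : cl c ≠ cl d) (h2 : cl c ≠ cl e) (h3 : cl d ≠ cl e) : ∃ a b, Df5 P cl a b c d e := by
  have : ∀ k l m : Fin 5, k ≠ l → k ≠ m → l ≠ m → ∃ i j : Fin 5, i ≠ j ∧ i ≠ k ∧ i ≠ l ∧ i ≠ m ∧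
      j ≠ k ∧ j ≠ l ∧ j ≠ m := by decide
  obtain ⟨i, j, hh⟩ := this _ _ _ h1 h2 h3
  obtain ⟨a, pa, rfl⟩ := h.surj i
  obtain ⟨b, pb, rfl⟩ := h.surj j
  exact ⟨a, b, by unfold Df5 Df4; grind⟩

theorem RC.ext2 (h : RC P cl col par Vp Vm) {d e : E} (pd : P d) (pe : P e) (h3 : cl d ≠ cl e) :
    ∃ a b c, Df5 P cl a b c d e := by
  have : ∀ l m : Fin 5, ∃ k : Fin 5, k ≠ l ∧ k ≠ m := by decide
  obtain ⟨k, h1, h2⟩ := this (cl d) (cl e)
  obtain ⟨c, pc, rfl⟩ := h.surj k
  obtain ⟨a, b, hd⟩ := h.ext3 pc pd pe h1 h2 h3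
  exact ⟨a, b, c, hd⟩

theorem RC.kind (h : RC P cl col par Vp Vm) {a b c d e : E} (hd : Df5 P cl a b c d e) :
    Gen col b c d e ∨ Gen col a c d e ∨ Gen col a b d e ∨ Gen col a b c e ∨ Gen col a b c d ∨
      (col b c d ∧ col b c e) ∨ (col a c d ∧ col a c e) ∨ (col a b d ∧ col a b e) ∨
      (col a b c ∧ col a b e) ∨ (col a b c ∧ col a b d) := by
  obtain ⟨d1, d2, d3, d4, d5⟩ := hd.sub
  have f1 := h.four d1
  have f2 := h.four d2
  have f3 := h.four d3
  have f4 := h.four d4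
  have f5 := h.four d5
  unfold Gen
  clear hd d1 d2 d3 d4 d5
  by_cases col a b c <;> by_cases col a b d <;> by_cases col a b e <;> by_cases col c d e <;>
    grind (splits := 20)

theorem RC.single (h : RC P cl col par Vp Vm) {a : E} (pa : P a) (ha : ¬ Vm a) {z : E} (pz : P z)
    (e : cl z = cl a) : z = a := by
  by_contra hn
  exact ha (h.flag a z pa pz e (Ne.symm hn))

theorem RC.nv (h : RC P cl col par Vp Vm) {a : E} (pa : P a) (ha : ¬ Vm a) : Nv P cl par a :=
  fun z pz e => by rw [h.single pa ha pz e]; exact h.refl a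

theorem RC.gen_aux (h : RC P cl col par Vp Vm) {y z b c d : E} (hd : Df5 P cl y z b c d)
    (hl : col b c d) (hy : ¬ col y b c) (hz : ¬ col z b c) :
    ∃ p q r s, Df4 P cl p q r s ∧ Gen col p q r s := by
  obtain ⟨d1, d2, d3, d4, d5⟩ := hd.sub
  have f4 := h.four d4
  have f5 := h.four d5
  have f1 := h.four d1
  have f2 := h.four d2
  have f3 := h.four d3
  rcases h.kind hd with g | g | g | g | g | g | g | g | g | g
  · exact ⟨_, _, _, _, d5, g⟩
  · exact ⟨_, _, _, _, d4, g⟩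
  · exact ⟨_, _, _, _, d3, g⟩
  · exact ⟨_, _, _, _, d2, g⟩
  · exact ⟨_, _, _, _, d1, g⟩
  all_goals grind

theorem RC.gen_ell (h : RC P cl col par Vp Vm) {y a b c d : E} (hd : Df5 P cl y a b c d)
    (h1 : col a b c) (h2 : col a b d) : ∃ p q r s, Df4 P cl p q r s ∧ Gen col p q r s := by
  obtain ⟨hy, n⟩ := h.ell hd h1 h2
  obtain ⟨d1, d2, d3, d4, d5⟩ := hd.sub
  have f1 := h.four d1
  have f2 := h.four d2
  have f3 := h.four d3
  have f4 := h.four d4
  have f5 := h.four d5
  have hd0 := hd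
  unfold Df5 Df4 at hd0
  obtain ⟨z, pz, z1, -, z2, z3, z4⟩ := h.cog a b y y d5.1 d5.2.1 d5.2.2.2.2.1
  have q := h.perm a b z
  rcases hd.cover z with e | e | e | e | e
  · exact absurd (h.single hd.1 (h.disj y hy) pz e) z1
  · refine h.gen_aux (y := y) (z := z) (b := b) (c := c) (d := d) ?_ (by grind) (by grind) ?_
    · unfold Df5 Df4; grind
    · intro hc
      exact z2 (h.uniq a z b c d5.1 pz d5.2.1 d5.2.2.1 e (by grind) (by grind) h1 hc)
  · refine h.gen_aux (y := y) (z := z) (b := a) (c := c) (d := d) ?_ (by grind) (by grind) ?_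
    · unfold Df5 Df4; grind
    · intro hc
      exact z3 (h.uniq b z a c d5.2.1 pz d5.1 d5.2.2.1 e (by grind) (by grind) (h.sw1 _ _ _ h1) hc)
  · refine h.gen_aux (y := y) (z := z) (b := a) (c := b) (d := d) ?_ h2 n (by grind)
    unfold Df5 Df4; grind
  · refine h.gen_aux (y := y) (z := z) (b := a) (c := b) (d := c) ?_ h1 n (by grind)
    unfold Df5 Df4; grind

/-- First conclusion: four points in general position. -/
theorem RC.gen (h : RC P cl col par Vp Vm) : ∃ p q r s, Df4 P cl p q r s ∧ Gen col p q r s := by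
  obtain ⟨d, pd, e1⟩ := h.surj 0
  obtain ⟨e, pe, e2⟩ := h.surj 1
  obtain ⟨a, b, c, hd⟩ := h.ext2 pd pe (by rw [e1, e2]; decide)
  obtain ⟨d1, d2, d3, d4, d5⟩ := hd.sub
  rcases h.kind hd with g | g | g | g | g | g | g | g | g | g
  · exact ⟨_, _, _, _, d5, g⟩
  · exact ⟨_, _, _, _, d4, g⟩
  · exact ⟨_, _, _, _, d3, g⟩
  · exact ⟨_, _, _, _, d2, g⟩
  · exact ⟨_, _, _, _, d1, g⟩
  · exact h.gen_ell hd g.1 g.2
  · exact h.gen_ell hd.swap12 g.1 g.2
  · exact h.gen_ell hd.swap23.swap12 g.1 g.2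
  · exact h.gen_ell hd.swap34.swap23.swap12 g.1 g.2
  · exact h.gen_ell hd.swap45.swap34.swap23.swap12 g.1 g.2

theorem RC.cog3 (h : RC P cl col par Vp Vm) {p q r s t : E} (hd : Df5 P cl p q r s t)
    (hc : col p q r) (np : Nv P cl par p) (nq : Nv P cl par q) (nr : Nv P cl par r)
    (hs : ¬ Vm s) (ht : ¬ Vm t) : False := by
  have hd0 := hd
  unfold Df5 Df4 at hd0
  obtain ⟨z, pz, z1, z2, z3, z4, z5⟩ := h.cog p q s t hd.1 (by grind) hd.2.1
  rcases hd.cover z with e | e | e | e | e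
  · exact z3 (np z pz e)
  · exact z4 (nq z pz e)
  · exact z5 ((h.perm p q z).2.2.2.1.1
      (h.move r z p q (by grind) (nr z pz e) ((h.perm p q r).2.2.2.1.2 hc)))
  · exact z1 (h.single (by grind) hs pz e)
  · exact z2 (h.single (by grind) ht pz e)

theorem RC.cog4 (h : RC P cl col par Vp Vm) {y a b c d : E} (hd : Df5 P cl y a b c d)
    (h1 : col a b c) (h2 : col a b d) (na : Nv P cl par a) (nb : Nv P cl par b)
    (nc : Nv P cl par c) (nd : Nv P cl par d) : False := by
  have hd0 := hd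
  unfold Df5 Df4 at hd0
  obtain ⟨z, pz, z1, -, z3, z4, z5⟩ := h.cog a b y y (by grind) (by grind) (by grind)
  rcases hd.cover z with e | e | e | e | e
  · exact z1 (h.single hd.1 (h.disj y (h.ell hd h1 h2).1) pz e)
  · exact z3 (na z pz e)
  · exact z4 (nb z pz e)
  · exact z5 ((h.perm a b z).2.2.2.1.1
      (h.move c z a b (by grind) (nc z pz e) ((h.perm a b c).2.2.2.1.2 h1)))
  · exact z5 ((h.perm a b z).2.2.2.1.1
      (h.move d z a b (by grind) (nd z pz e) ((h.perm a b d).2.2.2.1.2 h2)))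

/-- If nothing varies, the transversal has a deletable centre. -/
theorem RC.center (h : RC P cl col par Vp Vm) {a b c d e : E} (hd : Df5 P cl a b c d e)
    (na : Nv P cl par a) (nb : Nv P cl par b) (nc : Nv P cl par c) (nd : Nv P cl par d)
    (ne : Nv P cl par e) :
    (Gen col b c d e ∧ Vm a) ∨ (Gen col a c d e ∧ Vm b) ∨ (Gen col a b d e ∧ Vm c) ∨
      (Gen col a b c e ∧ Vm d) ∨ (Gen col a b c d ∧ Vm e) := by
  obtain ⟨d1, d2, d3, d4, d5⟩ := hd.sub
  have hd0 := hd
  unfold Df5 Df4 at hd0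
  rcases h.kind hd with g | g | g | g | g | g | g | g | g | g
  · exact Or.inl ⟨g, h.del _ _ _ _ d5 g a (by grind) (by grind) (by grind) (by grind) (by grind)⟩
  · exact Or.inr (Or.inl
      ⟨g, h.del _ _ _ _ d4 g b (by grind) (by grind) (by grind) (by grind) (by grind)⟩)
  · exact Or.inr (Or.inr (Or.inl
      ⟨g, h.del _ _ _ _ d3 g c (by grind) (by grind) (by grind) (by grind) (by grind)⟩))
  · exact Or.inr (Or.inr (Or.inr (Or.inl
      ⟨g, h.del _ _ _ _ d2 g d (by grind) (by grind) (by grind) (by grind) (by grind)⟩)))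
  · exact Or.inr (Or.inr (Or.inr (Or.inr
      ⟨g, h.del _ _ _ _ d1 g e (by grind) (by grind) (by grind) (by grind) (by grind)⟩)))
  · exact (h.cog4 hd g.1 g.2 nb nc nd ne).elim
  · exact (h.cog4 hd.swap12 g.1 g.2 na nc nd ne).elim
  · exact (h.cog4 hd.swap23.swap12 g.1 g.2 na nb nd ne).elim
  · exact (h.cog4 hd.swap34.swap23.swap12 g.1 g.2 na nb nc ne).elim
  · exact (h.cog4 hd.swap45.swap34.swap23.swap12 g.1 g.2 na nb nc nd).elim

theorem vr_of_not {a : E} (pa : P a) (hn : ¬ Nv P cl par a) : ∃ a', Vr P cl par a a' := by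
  unfold Nv at hn
  push Not at hn
  obtain ⟨z, h1, h2, h3⟩ := hn
  exact ⟨z, pa, h1, h2, h3⟩

theorem RC.off (h : RC P cl col par Vp Vm) {y y' a b : E} (hv : Vr P cl par y y') (pa : P a)
    (pb : P b) (h1 : cl y ≠ cl a) (h2 : cl a ≠ cl b) : ¬ col y a b ∨ ¬ col y' a b := by
  by_contra hn
  push Not at hn
  exact hv.2.2.2 (h.uniq y y' a b hv.1 hv.2.1 pa pb hv.2.2.1 h1 h2 hn.1 hn.2)

theorem RC.one' (h : RC P cl col par Vp Vm) {y y' a b c d : E} (hd : Df5 P cl y a b c d)
    (hv : Vr P cl par y y') (hc : col a b c) : ¬ col a b d := fun e => (h.one hd hv).2 ⟨hc, e⟩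

theorem RC.vary_vm (h : RC P cl col par Vp Vm) {y y' a b c d : E} (hd : Df5 P cl y a b c d)
    (hv : Vr P cl par y y') (hc : col a b c) : Vm a ∨ Vm b ∨ Vm c := by
  have n := h.one' hd hv hc
  have d5 := hd.sub.2.2.2.2
  rcases h.off hv d5.1 d5.2.1 hd.2.1 d5.2.2.2.2.1 with o | o
  · have := h.mate hd hc n o
    tauto
  · have := h.mate (hd.repl hv.2.1 hv.2.2.1) hc n o
    tauto

/-- Second conclusion, first half: at most three classes avoid the deletable points. -/
theorem RC.two_vm (h : RC P cl col par Vp Vm) {a b c d e : E} (hd : Df5 P cl a b c d e)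
    (hc : ¬ Vm c) (hdd : ¬ Vm d) (he : ¬ Vm e) : Vm b := by
  by_contra hb
  have hd0 := hd
  unfold Df5 Df4 at hd0
  have nb := h.nv (a := b) (by grind) hb
  have nc := h.nv (a := c) (by grind) hc
  have nd := h.nv (a := d) (by grind) hdd
  have ne := h.nv (a := e) (by grind) he
  by_cases na : Nv P cl par a
  · rcases h.center hd na nb nc nd ne with g | g | g | g | g
    · rcases h.diag hd g.1 with k | k | k
      · exact h.cog3 hd k.1 na nb nc hdd he
      · exact h.cog3 hd.swap34 k.1 na nb nd hc he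
      · exact h.cog3 hd.swap45.swap34 k.1 na nb ne hc hdd
    · exact hb g.2
    · exact hc g.2
    · exact hdd g.2
    · exact he g.2
  · obtain ⟨a', hv⟩ := vr_of_not hd.1 na
    rcases (h.one hd hv).1 with k | k | k | k
    · have := h.vary_vm hd hv k
      tauto
    · have := h.vary_vm hd.swap45 hv k
      tauto
    · have := h.vary_vm hd.swap34.swap45 hv k
      tauto
    · have := h.vary_vm hd.swap23.swap34.swap45 hv k
      tauto

theorem RC.two_aux (h : RC P cl col par Vp Vm) {a a' b b' c d e : E} (hd : Df5 P cl a b c d e)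
    (va : Vr P cl par a a') (vb : Vr P cl par b b') (hc : ¬ Vm c) (hdd : ¬ Vm d) (he : ¬ Vm e)
    (l1 : col b c d) (l2 : col b' c e) : False := by
  have hd0 := hd
  unfold Df5 Df4 at hd0
  have hb' : Df5 P cl a b' c e d := (hd.swap12.repl vb.2.1 vb.2.2.1).swap12.swap45
  have n1 := h.one' hd va l1
  have n2 := h.one' hb' va l2
  have key : ∀ z, P z → cl z = cl a → col z b e := by
    intro z pz ez
    have hz := hd.repl pz ez
    have hz' := hb'.repl pz ez
    by_cases k : col z b c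
    · exfalso
      have k2 : col z b d := ((h.four hz.sub.1).2.2.1 k l1).1
      by_cases k' : col z b' c
      · exact vb.2.2.2 (h.uniq b b' z c vb.1 vb.2.1 pz (by grind) vb.2.2.1 (by grind) (by grind)
          (h.sw1 _ _ _ k) (h.sw1 _ _ _ k'))
      · rcases h.mate hz' l2 n2 k' with m | m | m
        · exact vb.2.2.2 (h.uniq b b' z d vb.1 vb.2.1 pz (by grind) vb.2.2.1 (by grind) (by grind)
            (h.sw1 _ _ _ k2) (h.sw1 _ _ _ m.1))
        · exact hc m.2
        · exact he m.2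
    · rcases h.mate hz l1 n1 k with m | m | m
      · exact m.1
      · exact (hc m.2).elim
      · exact (hdd m.2).elim
  exact va.2.2.2 (h.uniq a a' b e va.1 va.2.1 vb.1 (by grind) va.2.2.1 (by grind) (by grind)
    (key a va.1 rfl) (key a' va.2.1 va.2.2.1))

/-- Second conclusion, second half: then at most one class varies. -/
theorem RC.two_nv (h : RC P cl col par Vp Vm) {a b c d e : E} (hd : Df5 P cl a b c d e)
    (hc : ¬ Vm c) (hdd : ¬ Vm d) (he : ¬ Vm e) : Nv P cl par a ∨ Nv P cl par b := by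
  by_contra hn
  push Not at hn
  have hd0 := hd
  unfold Df5 Df4 at hd0
  obtain ⟨a', va⟩ := vr_of_not hd.1 hn.1
  obtain ⟨b', vb⟩ := vr_of_not (by grind) hn.2
  have hb' : Df5 P cl a b' c d e := (hd.swap12.repl vb.2.1 vb.2.2.1).swap12
  have n0 : ¬ col c d e := fun k => by
    have := h.vary_vm hd.swap23.swap34.swap45 va k
    tauto
  have o1 := h.off vb (a := c) (b := d) (by grind) (by grind) (by grind) (by grind)
  have o2 := h.off vb (a := c) (b := e) (by grind) (by grind) (by grind) (by grind)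
  have o3 := h.off vb (a := d) (b := e) (by grind) (by grind) (by grind) (by grind)
  have s := h.sw2
  rcases (h.one hd va).1 with k | k | k | k <;> rcases (h.one hb' va).1 with k' | k' | k' | k'
  all_goals first | exact n0 k | exact n0 k' | skip
  · tauto
  · exact h.two_aux hd va vb hc hdd he k k'
  · exact h.two_aux hd.swap34 va vb hdd hc he (s _ _ _ k) k'
  · exact h.two_aux hd.swap45 va vb hc he hdd k k'
  · tauto
  · exact h.two_aux hd.swap45.swap34 va vb he hc hdd (s _ _ _ k) (s _ _ _ k')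
  · exact h.two_aux hd.swap34.swap45 va vb hdd he hc k (s _ _ _ k')
  · exact h.two_aux hd.swap45.swap34.swap45 va vb he hdd hc (s _ _ _ k) (s _ _ _ k')
  · tauto

end Pool.Agent.Lib.MP_10bdcf_co.II
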