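import Pool.Agent.Lib.MP_10bdcf_co.ZT

/-!
Case I of the 4-connected step: configurations and their basic properties.
-/

namespace Pool.Agent.Lib.MP_10bdcf_co.G

open scoped Matroid
open Set

set_option linter.unusedSectionVars false

variable {E : Type} [Fintype E] {M : Matroid E} {A A' X I J I' J' I0 J0 : Set E} {x y a a' b : E}

/-- 4-connected with rank and corank at least five. -/
structure Big (M : Matroid E) : Prop where
  con : Con4 M
  rank : 5 ≤ rk M M.E
  corank : 5 ≤ rk M✶ M.E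

/-- A 2-separation of `M / x \ y` whose side `A` has at most one element of a frame. -/
structure Cfg (M : Matroid E) (x y : E) (A I J : Set E) : Prop where
  frame : Frame M I J
  hx : x ∈ I
  hy : y ∈ J
  sub : A ⊆ M.E \ {x, y}
  sep : lam (mn M {x} {y}) A ≤ 1
  two : 2 ≤ A.ncard
  small : (A \ (I ∪ J)).ncard ≤ 1

/-- A configuration with a smallest possible side. -/
def MinCfg (M : Matroid E) (x y : E) (A I J : Set E) : Prop :=
  Cfg M x y A I J ∧ ∀ x' y' A' I' J', Cfg M x' y' A' I' J' → A.ncard ≤ A'.ncard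

theorem Big.dual (h : Big M) : Big M✶ :=
  ⟨h.con.dual, h.corank, by rw [Matroid.dual_dual]; exact h.rank⟩

theorem Big.ten (h : Big M) : 10 ≤ M.E.ncard := by
  have := rk_dual_ground M
  have := h.rank
  have := h.corank
  omega

theorem Big.rk_small (h : Big M) (hX : X ⊆ M.E) (h3 : X.ncard ≤ 3) : rk M X = X.ncard :=
  rk_indep (h.con.indep (le_trans (by omega) h.ten) hX h3)

theorem Big.rk_compl (h : Big M) (hX : X ⊆ M.E) (h3 : X.ncard ≤ 3) :
    rk M (M.E \ X) = rk M M.E :=
  rk_coindep (h.con.coindep (le_trans (by omega) h.ten) hX h3)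

theorem Big.op (h : Big M) (hI : I ⊆ M.E) (hJ : J ⊆ M.E) (h1 : I.ncard ≤ 3) (h2 : J.ncard ≤ 3)
    (hd : Disjoint I J) : Op M I J :=
  ⟨h.con.indep (le_trans (by omega) h.ten) hI h1, h.con.coindep (le_trans (by omega) h.ten) hJ h2,
    hd⟩

theorem Big.con3_del (h : Big M) (e : E) : Con3 (M ＼ {e}) :=
  ConK.delete (k := 2) h.con (le_trans (by omega) h.ten) e

theorem Big.con3_con (h : Big M) (e : E) : Con3 (M ／ {e}) :=
  ConK.contract (k := 2) h.con (le_trans (by omega) h.ten) e

theorem Big.conn_mn (h : Big M) (x y : E) : Conn (mn M {x} {y}) := by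
  refine ConK.delete (k := 1) (h.con3_con x) ?_ y
  have h1 := ncard_le_ncard_sdiff_add_ncard M.E {x}
  have h2 := h.ten
  rw [ncard_singleton] at h1
  rw [Matroid.contract_ground]
  omega

theorem xi1_ground (M : Matroid E) (x y : E) : (mn M {x} {y}).E = M.E \ {x, y} := mn_ground ..

theorem Cfg.op (h : Cfg M x y A I J) : Op M {x} {y} :=
  h.frame.op.mono (singleton_subset_iff.2 h.hx) (singleton_subset_iff.2 h.hy)

theorem Cfg.xE (h : Cfg M x y A I J) : x ∈ M.E := h.frame.op.sub_left h.hx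

theorem Cfg.yE (h : Cfg M x y A I J) : y ∈ M.E := h.frame.op.sub_right h.hy

theorem Cfg.ne (h : Cfg M x y A I J) : x ≠ y := disjoint_singleton.1 h.op.dis

theorem xi1_lam (ho : Op M {x} J) (hX : X ⊆ M.E \ insert x J) :
    lam (mn M {x} J) X + rk M M.E + 1 = rk M (insert x X) + rk M (M.E \ (X ∪ J)) := by
  have := ho.lam_mn (X := X) (by grind) (by grind)
  rwa [ncard_singleton, union_singleton] at this

theorem Cfg.dual (h : Cfg M x y A I J) : Cfg M✶ y x A J I :=
  ⟨h.frame.dual, h.hy, h.hx, pair_comm x y ▸ h.sub, by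
    rw [← mn_dual h.op.dis, lam_dual (xi1_ground M x y ▸ h.sub)]
    exact h.sep, h.two, union_comm I J ▸ h.small⟩

theorem MinCfg.dual (h : MinCfg M x y A I J) : MinCfg M✶ y x A J I :=
  ⟨h.1.dual, fun x' y' A' I' J' h' => h.2 y' x' A' J' I' (M.dual_dual ▸ h'.dual)⟩

/-- A frame through a pair whose double minor is not 3-connected gives a configuration. -/
theorem Frame.exists_cfg (hb : Big M) (hf : Frame M I J) (hx : x ∈ I) (hy : y ∈ J)
    (hn : ¬ Con3 (mn M {x} {y})) : ∃ A, Cfg M x y A I J := by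
  simp only [ConK, not_forall, not_or, not_le] at hn
  obtain ⟨X, hX, h1, h2, h3⟩ := hn
  have h4 := (hb.conn_mn x y).le_lam hX le_rfl (by omega) (by omega)
  have h5 := lam_compl hX
  have hm : ∀ Z : Set E, (Z \ (I ∪ J)).ncard ≤ (Z \ (I \ {x} ∪ J \ {y})).ncard := fun Z =>
    ncard_le_ncard (by grind)
  rcases (hf.sdiff (singleton_subset_iff.2 hx) (singleton_subset_iff.2 hy)).small hX (by omega)
    with h | h
  · exact ⟨X, hf, hx, hy, xi1_ground M x y ▸ hX, by omega, by omega, (hm _).trans h⟩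
  · exact ⟨_, hf, hx, hy, xi1_ground M x y ▸ sdiff_subset, by omega, by omega, (hm _).trans h⟩

theorem exists_minCfg (h : Cfg M x y A I J) : ∃ x' y' A' I' J', MinCfg M x' y' A' I' J' := by
  induction hn : A.ncard using Nat.strong_induction_on generalizing x y A I J with
  | _ n ih =>
  by_cases hc : ∀ x' y' A' I' J', Cfg M x' y' A' I' J' → A.ncard ≤ A'.ncard
  · exact ⟨x, y, A, I, J, h, hc⟩
  · push Not at hc
    obtain ⟨x', y', A', I', J', h', hl⟩ := hc
    exact ih _ (hn ▸ hl) h' rfl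

theorem Cfg.four (h : Cfg M x y A I J) : 4 ≤ (((M.E \ {x, y}) \ A) \ (I ∪ J)).ncard := by
  have h1 := cb_card (X := M.E \ (I ∪ J)) (P := A \ (I ∪ J))
    (Q := ((M.E \ {x, y}) \ A) \ (I ∪ J)) (by
      have := h.hx; have := h.hy; grind (ematch := 9))
  have h2 := h.frame.card
  have h3 := h.small
  omega

theorem Cfg.three (hb : Big M) (h : Cfg M x y A I J) : 3 ≤ A.ncard := by
  by_contra hc
  have hs := h.sub
  have hx := h.xE
  have hy := h.yE
  have h1 := xi1_lam h.op hs
  have h2 := ncard_insert_of_notMem (s := A) (a := x) (by grind)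
  have h3 := ncard_insert_le y A
  rw [union_singleton, hb.rk_small (X := insert x A) (by grind) (by omega),
    hb.rk_compl (by grind) (by omega)] at h1
  have := h.sep
  have := h.two
  omega

/-- `x` is in the guts and `y` in the coguts of the separation. -/
theorem Cfg.ranks (hb : Big M) (h : Cfg M x y A I J) :
    rk M A + rk M ((M.E \ {x, y}) \ A) = rk M M.E + 2 ∧ x ∈ M.closure A ∧
      x ∈ M.closure ((M.E \ {x, y}) \ A) ∧ y ∉ M.closure A ∧
      y ∉ M.closure ((M.E \ {x, y}) \ A) := by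
  have hs := h.sub
  have hx := h.xE
  have hy := h.yE
  have hne := h.ne
  have a3 := h.three hb
  have b3 : 3 ≤ ((M.E \ {x, y}) \ A).ncard :=
    le_trans (by omega) (h.four.trans (ncard_le_ncard sdiff_subset))
  have h0 := h.sep
  have h1 := xi1_lam h.op hs
  rw [show M.E \ (A ∪ {y}) = insert x ((M.E \ {x, y}) \ A) by grind] at h1
  have h2 := hb.con.le_lam (X := A) (by grind) le_rfl a3 (b3.trans (ncard_le_ncard (by grind)))
  have h3 := hb.con.le_lam (X := (M.E \ {x, y}) \ A) (by grind) le_rfl b3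
    (a3.trans (ncard_le_ncard (by grind)))
  have h4 := lam_add M A
  have h5 := lam_add M ((M.E \ {x, y}) \ A)
  rw [show M.E \ A = insert y (insert x ((M.E \ {x, y}) \ A)) by grind] at h4
  rw [show M.E \ ((M.E \ {x, y}) \ A) = insert y (insert x A) by grind] at h5
  generalize (M.E \ {x, y}) \ A = B at *
  have h6 := rk_insert_le M y (insert x A)
  have h7 := rk_insert_le M y (insert x B)
  have h8 := rk_mono M (subset_insert x A)
  have h9 := rk_mono M (subset_insert x B)
  refine ⟨by omega, (mem_closure_iff_rk hx).2 (by omega), (mem_closure_iff_rk hx).2 (by omega),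
    fun h' => ?_, fun h' => ?_⟩ <;>
  · have := rk_insert_of_mem (M.closure_subset_closure (subset_insert x _) h')
    omega

theorem MinCfg.two_le (h : MinCfg M x y A I J) (hX : X ⊆ A) (hne : X ≠ A) (h2 : 2 ≤ X.ncard) :
    2 ≤ lam (mn M {x} {y}) X := by
  by_contra hc
  exact (ncard_lt_ncard (hX.ssubset_of_ne hne)).not_ge (h.2 x y X I J ⟨h.1.frame, h.1.hx, h.1.hy,
    hX.trans h.1.sub, by omega, h2, (ncard_le_ncard (sdiff_subset_sdiff_left hX)).trans h.1.small⟩)

theorem xi1_key (hb : Big M) (h : MinCfg M x y A I J) (ha : a ∈ A) :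
    rk M (insert x (A \ {a})) = rk M A ∧
      rk M (insert a (insert x ((M.E \ {x, y}) \ A))) = rk M ((M.E \ {x, y}) \ A) + 1 := by
  have hs := h.1.sub
  have hx := h.1.xE
  have hne := h.1.ne
  have a3 := h.1.three hb
  have h0 := ncard_sdiff_singleton_add_one ha
  have h1 := h.two_le (X := A \ {a}) sdiff_subset (by grind) (by omega)
  have h2 := xi1_lam h.1.op (sdiff_subset.trans hs : A \ {a} ⊆ _)
  rw [show M.E \ (A \ {a} ∪ {y}) = insert a (insert x ((M.E \ {x, y}) \ A)) by grind] at h2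
  obtain ⟨r1, r2, r3, -⟩ := h.1.ranks hb
  have h3 := rk_insert_of_mem r2
  have h4 := rk_insert_of_mem r3
  have h5 := rk_insert_le M a (insert x ((M.E \ {x, y}) \ A))
  have h6 := rk_mono M (insert_subset_insert (a := x) (sdiff_subset : A \ {a} ⊆ A))
  omega

theorem MinCfg.notMem (hb : Big M) (h : MinCfg M x y A I J) (ha : a ∈ A) :
    a ∉ M.closure ((M.E \ {x, y}) \ A) := fun h' => by
  have h1 := rk_insert_of_mem (M.closure_subset_closure (subset_insert x _) h')
  have h2 := rk_insert_of_mem (h.1.ranks hb).2.2.1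
  have h3 := (xi1_key hb h ha).2
  omega

theorem MinCfg.rk_erase (hb : Big M) (h : MinCfg M x y A I J) (ha : a ∈ A) :
    rk M (insert x (A \ {a})) = rk M A := (xi1_key hb h ha).1

/-- Operations inside `A` that keep the connectivity of `A` keep a frame. -/
theorem Cfg.shift (hb : Big M) (h : Cfg M x y A I J) (hI : I0 ⊆ A) (hJ : J0 ⊆ A)
    (ho : Op M (insert x I0) (insert y J0))
    (hl : lam (mn M (insert x I0) (insert y J0)) (A \ (I0 ∪ J0)) = 1) :
    ∃ I' J', Frame M I' J' ∧ insert x I0 ⊆ I' ∧ insert y J0 ⊆ J' ∧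
      (A \ (I' ∪ J')).ncard ≤ 1 := by
  have hs := h.sub
  have h1 := ho.sdiff (singleton_subset_iff.2 (mem_insert x I0))
    (singleton_subset_iff.2 (mem_insert y J0))
  rw [insert_sdiff_self_of_notMem (by grind), insert_sdiff_self_of_notMem (by grind)] at h1
  obtain ⟨I', J', h2, h3, h4⟩ := (h.frame.sdiff (singleton_subset_iff.2 h.hx)
    (singleton_subset_iff.2 h.hy)).shift (xi1_ground M x y ▸ hs) h.sep
    ((ncard_le_ncard (by grind)).trans h.small) h1 hI hJ (by rw [h.op.mn_mn h1]; exact hl)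
  have h5 := Frame.union h.op h2.frame
  refine ⟨_, _, h5, union_subset_union_right _ h3, union_subset_union_right _ h4, ?_⟩
  have h6 := h5.card
  have h7 := h.four
  have h8 := ncard_union_eq (s := A \ ({x} ∪ I' ∪ ({y} ∪ J')))
    (t := ((M.E \ {x, y}) \ A) \ (I ∪ J)) (by grind)
  have h9 := ncard_le_ncard (s := A \ ({x} ∪ I' ∪ ({y} ∪ J')) ∪ ((M.E \ {x, y}) \ A) \ (I ∪ J))
    (t := M.E \ ({x} ∪ I' ∪ ({y} ∪ J'))) fun z hz => by
      have := Set.ext_iff.1 h2.left z
      have := Set.ext_iff.1 h2.right z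
      grind
  omega

theorem MinCfg.shift_del (hb : Big M) (h : MinCfg M x y A I J) (ha : a ∈ A) :
    ∃ I' J', Frame M I' J' ∧ x ∈ I' ∧ y ∈ J' ∧ a ∈ J' ∧ (A \ (I' ∪ J')).ncard ≤ 1 := by
  have hs := h.1.sub
  have hx := h.1.xE
  have hy := h.1.yE
  have hne := h.1.ne
  have ho : Op M {x} {y, a} := hb.op (by grind) (by grind) (by simp)
    ((ncard_insert_le ..).trans (by simp)) (by grind)
  have h1 := xi1_lam ho (X := A \ {a}) (by grind)
  rw [show M.E \ (A \ {a} ∪ {y, a}) = insert x ((M.E \ {x, y}) \ A) by grind, h.rk_erase hb ha,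
    rk_insert_of_mem (h.1.ranks hb).2.2.1, (h.1.ranks hb).1] at h1
  obtain ⟨I', J', h2, h3, h4, h5⟩ := h.1.shift hb (empty_subset A) (singleton_subset_iff.2 ha)
    (by rwa [insert_empty_eq]) (by rw [insert_empty_eq, empty_union]; omega)
  exact ⟨I', J', h2, h3 (by simp), h4 (by simp), h4 (by simp), h5⟩

theorem MinCfg.shift_both (hb : Big M) (h : MinCfg M x y A I J) (ha : a ∈ A) (ha' : a' ∈ A)
    (hne : a ≠ a') : ∃ I' J', Frame M I' J' ∧ x ∈ I' ∧ a ∈ I' ∧ y ∈ J' ∧ a' ∈ J' ∧
      (A \ (I' ∪ J')).ncard ≤ 1 := by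
  have hs := h.1.sub
  have hx := h.1.xE
  have hy := h.1.yE
  have hxy := h.1.ne
  have ho : Op M {x, a} {y, a'} := hb.op (by grind) (by grind)
    ((ncard_insert_le ..).trans (by simp)) ((ncard_insert_le ..).trans (by simp)) (by grind)
  have h1 := ho.lam_mn (X := A \ ({a} ∪ {a'})) (by grind) (by grind)
  rw [show M.E \ (A \ ({a} ∪ {a'}) ∪ {y, a'}) = insert a (insert x ((M.E \ {x, y}) \ A)) by grind,
    show A \ ({a} ∪ {a'}) ∪ {x, a} = insert x (A \ {a'}) by grind, h.rk_erase hb ha',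
    (xi1_key hb h ha).2, ← add_assoc, (h.1.ranks hb).1, ncard_pair (by grind)] at h1
  obtain ⟨I', J', h2, h3, h4, h5⟩ := h.1.shift hb (singleton_subset_iff.2 ha)
    (singleton_subset_iff.2 ha') ho (by omega)
  exact ⟨I', J', h2, h3 (by simp), h3 (by simp), h4 (by simp), h4 (by simp), h5⟩

theorem MinCfg.conn_del (hb : Big M) (h : MinCfg M x y A I J) (ha : a ∈ A) :
    Conn (mn M {x} {y, a}) := by
  have hs := h.1.sub
  have hx := h.1.xE
  have hy := h.1.yE
  have hne := h.1.ne
  have a3 := h.1.three hb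
  have ho : Op M {x} {y, a} := hb.op (by grind) (by grind) (by simp)
    ((ncard_insert_le ..).trans (by simp)) (by grind)
  have hg : (mn M {x} {y, a}).E = M.E \ {x, y, a} := mn_ground ..
  obtain ⟨r1, r2, r3, -⟩ := h.1.ranks hb
  have r4 := h.rk_erase hb ha
  have r5 := rk_insert_of_mem r2
  have s1 : ∀ Z ⊆ A \ {a}, lam (mn M {x} {y, a}) Z = 0 → Z = ∅ := fun Z hZ h0 => by
    have h1 := xi1_lam ho (X := Z) (by grind)
    have h2 := xi1_lam h.1.op (X := Z) (by grind)
    have h3 := rk_mono M (show M.E \ (Z ∪ {y}) ⊆ insert a (M.E \ (Z ∪ {y, a})) by grind)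
    have h4 := rk_insert_le M a (M.E \ (Z ∪ {y, a}))
    have h5 : Z.ncard ≤ 1 := by
      by_contra hc
      have := h.two_le (X := Z) (by grind) (by grind) (by omega)
      omega
    have h6 := ncard_insert_of_notMem (s := Z) (a := x) fun h' => (hs (hZ h').1).2 (Or.inl rfl)
    have h7 := ncard_union_le Z {y, a}
    have h8 : ({y, a} : Set E).ncard ≤ 2 := (ncard_insert_le ..).trans (by simp)
    rw [hb.rk_small (X := insert x Z) (by grind) (by omega),
      hb.rk_compl (by grind) (by omega)] at h1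
    exact (ncard_eq_zero).1 (by omega)
  have s2 : lam (mn M {x} {y, a}) ((M.E \ {x, y}) \ A) = 1 := by
    have h1 := xi1_lam ho (X := (M.E \ {x, y}) \ A) (by grind)
    rw [show M.E \ ((M.E \ {x, y}) \ A ∪ {y, a}) = insert x (A \ {a}) by grind,
      rk_insert_of_mem r3] at h1
    omega
  have s3 : ∀ X ⊆ M.E \ {x, y, a}, lam (mn M {x} {y, a}) X = 0 →
      X ∩ ((M.E \ {x, y}) \ A) = ∅ ∨ (M.E \ {x, y, a}) \ (X ∪ (M.E \ {x, y}) \ A) = ∅ := by
    intro X hX h0
    have h1 := lam_submod (mn M {x} {y, a}) X ((M.E \ {x, y}) \ A)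
    rcases Nat.eq_zero_or_pos (lam (mn M {x} {y, a}) (X ∩ ((M.E \ {x, y}) \ A))) with h2 | h2
    · have h3 := xi1_lam ho (X := X ∩ ((M.E \ {x, y}) \ A)) (by grind)
      have h4 := xi1_lam h.1.op (X := X ∩ ((M.E \ {x, y}) \ A)) (by grind)
      have h5 := rk_submod' M (X := M.E \ (X ∩ ((M.E \ {x, y}) \ A) ∪ {y, a})) (Y := insert x A)
        (P := insert x (A \ {a})) (Q := M.E \ (X ∩ ((M.E \ {x, y}) \ A) ∪ {y}))
        (by grind) (by grind) (by grind)
      refine Or.inl ((conn_iff.1 (hb.conn_mn x y) _ (by rw [xi1_ground]; grind)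
        (by omega)).resolve_right fun h' => ?_)
      have : a ∈ (mn M {x} {y}).E := xi1_ground M x y ▸ hs ha
      exact (h' ▸ this).2.2 ha
    · refine Or.inr (s1 _ (by grind) ?_)
      rw [← hg, lam_compl (by rw [hg]; grind)]
      omega
  refine conn_iff.2 fun X hX h0 => ?_
  have h1 := lam_compl hX
  rw [hg] at *
  have h2 := ncard_sdiff_singleton_add_one ha
  obtain ⟨b, hb'⟩ := (ncard_pos (s := A \ {a})).1 (by omega)
  rcases s3 X hX h0 with h3 | h3
  · exact Or.inl (s1 X (fun z hz => by have := eq_empty_iff_forall_notMem.1 h3 z; grind) h0)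
  rcases s3 _ sdiff_subset (h1.trans h0) with h4 | h4
  · exact Or.inr (hX.antisymm fun z hz => by
      have := eq_empty_iff_forall_notMem.1 h3 z
      have := eq_empty_iff_forall_notMem.1 h4 z
      grind)
  · have := eq_empty_iff_forall_notMem.1 h3 b
    have := eq_empty_iff_forall_notMem.1 h4 b
    grind

end Pool.Agent.Lib.MP_10bdcf_co.G
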