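import Pool.Agent.Lib.MP_10bdcf_co.ZM

/-!
Rank at most two, and the upper bounds for 4-connected matroids.
-/

namespace Pool.Agent.Lib.MP_10bdcf_co.G

open scoped Matroid
open Set

set_option linter.unusedSectionVars false

variable {E F : Type} [Fintype E] [Field F] {M : Matroid E} {T : Set E → Matrix E E R0}
  {x y : R0 →+* F} {U W : Sb F E} {φ ψ ξ : Fm F E} {I J : Set E} {e f : E} {v : F × F}

theorem zm2_one (he : e ∈ M.E) (h : e ∉ M.closure {f}) : rk M {e} = 1 := by
  have h0 : e ∉ M.closure ∅ := fun h' => h (M.closure_mono (empty_subset _) h')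
  have := rk_insert_of_notMem he h0
  simpa using this

theorem zm2_pair (hs : ∀ e ∈ M.E, ∀ f, e ≠ f → e ∉ M.closure {f}) (he : e ∈ M.E) (hf : f ∈ M.E)
    (hne : e ≠ f) : rk M {e, f} = 2 := by
  have h1 := rk_insert_of_notMem he (hs e he f hne)
  have h2 := zm2_one hf (hs f hf e hne.symm)
  omega

/-- A matroid of rank at most two without loops and parallel pairs. -/
theorem rank_two_cases (hT : U2 M T) (hr : rk M M.E ≤ 2)
    (hs : ∀ e ∈ M.E, ∀ f, e ≠ f → e ∉ M.closure {f}) :
    ¬ HasSite M ∨ IsUnif 2 4 M ∨ IsUnif 2 5 M := by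
  by_cases hS : HasSite M
  · right
    obtain ⟨I, S, hl, h4⟩ := hS.exists_line hT
    have hr2 : rk M M.E = 2 := by
      have := hl.rank
      omega
    have hL : Line M ∅ M.E :=
      ⟨M.empty_indep, by simpa using hr2, Subset.rfl, fun p hp q hq hne => by
        simpa using zm2_pair hs hp hq hne⟩
    have h5 := hL.le_five hT
    have h4' : 4 ≤ M.E.ncard := h4 ▸ ncard_le_ncard hl.sub (toFinite _)
    have hX : ∀ X ⊆ M.E, rk M X = min X.ncard 2 := by
      intro X hX
      rcases Nat.lt_or_ge 1 X.ncard with h | h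
      · obtain ⟨a, b, ha, hb, hne⟩ := (one_lt_ncard_iff (toFinite X)).1 h
        have h1 := zm2_pair hs (hX ha) (hX hb) hne
        have h2 := rk_mono M (show ({a, b} : Set E) ⊆ X from
          insert_subset ha (singleton_subset_iff.2 hb))
        have h3 := rk_le_rank M X
        omega
      · rcases (ncard_le_one_iff_eq (toFinite X)).1 h with rfl | ⟨a, rfl⟩
        · simp
        · have ha : a ∈ M.E := hX rfl
          obtain ⟨b, -, hne⟩ := exists_ne_of_one_lt_ncard (show 1 < M.E.ncard by omega) a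
          rw [zm2_one ha (hs a ha b hne.symm)]
          simp
    rcases (show M.E.ncard = 4 ∨ M.E.ncard = 5 by omega) with h | h
    · exact Or.inl ⟨h, hX⟩
    · exact Or.inr ⟨h, hX⟩
  · exact Or.inl hS

/-- Induction on matroids of rank at most two, removing loops and parallel elements. -/
theorem zm2_ind {p : Matroid E → Prop}
    (h0 : ∀ M : Matroid E, rk M M.E ≤ 2 → (∀ e ∈ M.E, ∀ f, e ≠ f → e ∉ M.closure {f}) → p M)
    (h1 : ∀ (M : Matroid E) (e f : E), e ≠ f → e ∈ M.closure {f} → p (mn M ∅ {e}) → p M)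
    (n : ℕ) : ∀ M : Matroid E, M.E.ncard = n → rk M M.E ≤ 2 → p M := by
  induction n using Nat.strong_induction_on with
  | _ n ih =>
    intro M hn hr
    by_cases hs : ∀ e ∈ M.E, ∀ f, e ≠ f → e ∉ M.closure {f}
    · exact h0 M hr hs
    · push Not at hs
      obtain ⟨e, -, f, hne, hp⟩ := hs
      have ho := op_par hne hp
      have hc := ho.card
      have hk := ho.rank
      rw [ncard_singleton] at hc
      exact h1 M e f hne hp (ih _ (by omega) _ rfl (by omega))

theorem good_rank_two (hr : rk M M.E ≤ 2) : GoodM M := by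
  refine zm2_ind (p := fun M => GoodM M) ?_ ?_ _ M rfl hr
  · intro M hr hs T hT
    rcases rank_two_cases hT hr hs with h | h | h
    · exact goodT_of_noSite hT h
    · exact h.good24 T hT
    · exact IsR.good (Or.inl h) T hT
  · intro M e f hne hp ih T hT
    exact GoodT.of_par hT hne hp (ih _ (hT.minor (op_par hne hp)))

theorem good_corank_two (hr : rk M✶ M.E ≤ 2) : GoodM M :=
  GoodM.of_dual (good_rank_two (M := M✶) hr)

theorem nz_rank_two (hT : U2 M T) (hr : rk M M.E ≤ 2) : NZ M T := by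
  refine zm2_ind (p := fun M => ∀ T, U2 M T → NZ M T) ?_ ?_ _ M rfl hr T hT
  · intro M hr hs T hT F _ x y U W h φ hφ I J hf hg
    have hR : HasR M := ⟨I, J, hf⟩
    rcases rank_two_cases hT hr hs with h' | h' | h'
    · exact absurd (hR.hasSite hT) h'
    · have h1 := hR.five_le
      have h2 := h'.1
      omega
    · have h1 := hf.card_total
      have h2 := h'.1
      have hI : I = ∅ := (ncard_eq_zero (toFinite I)).1 (by omega)
      have hJ : J = ∅ := (ncard_eq_zero (toFinite J)).1 (by omega)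
      subst hI hJ
      simpa using hg
  · intro M e f hne hp ih T hT
    exact NZ.of_par hne hp (ih _ (hT.minor (op_par hne hp)))

/-- Rank at most two and at most four points. -/
theorem Obj.line4 (h : Obj M T x y U W) (ht : Tw x y) (hr : rk M M.E ≤ 2) (hR : ¬ HasR M)
    (hφ : Val φ U W) : Gauge φ U W := by
  refine zm2_ind (p := fun M => ∀ (T : Set E → Matrix E E R0) (U W : Sb F E),
    Obj M T x y U W → ¬ HasR M → Val φ U W → Gauge φ U W) ?_ ?_ _ M rfl hr T U W h hR hφ
  · intro M hr hs T U W h hR hφ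
    rcases rank_two_cases h.tab hr hs with h' | h' | h'
    · exact h.gauge_of_noSite h' hφ
    · exact h.gauge_U24 ht h' φ
    · exact absurd ⟨∅, ∅, op_empty M, by rw [mn_empty]; exact Or.inl h'⟩ hR
  · intro M e f hne hp ih T U W h hR hφ
    have ho := op_par hne hp
    have h1 := ih _ _ _ (h.minor ho) (fun h' => hR (HasR.of_minor ho h'))
      (hφ.mono (van_le _ _) (van_le _ _))
    exact (h.pair.fix_par hne hp).gauge hφ (by simpa using h1)

theorem step_small (hn : M.E.ncard ≤ 5) : GoodM M := by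
  have h := rk_dual_ground M
  rcases (show rk M M.E ≤ 2 ∨ rk M✶ M.E ≤ 2 by omega) with h | h
  · exact good_rank_two h
  · exact good_corank_two h

theorem zm2_del (hc : Conn M) (hn : 2 ≤ M.E.ncard) (he : e ∈ M.E) : Op M ∅ {e} :=
  op_del he (hc.noncoloop hn e)

theorem zm2_con {k : ℕ} (hc : ConK (k + 1) M) (hn : 2 * k + 2 ≤ M.E.ncard) (e : E) :
    ConK k (mn M ∅ {e}) := by
  rw [mn_empty_left]
  exact hc.delete hn e

/-- Two elements whose deletion keeps a frame, or keeps a site if there is no frame. -/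
theorem zm2_pick (hc : Con4 M) (h1 : 5 ≤ rk M M.E) (h2 : 5 ≤ rk M✶ M.E) (hT : U2 M T)
    (hs : HasSite M) : ∃ e ∈ M.E, ∃ f ∈ M.E, e ≠ f ∧ (Safe (mn M ∅ {f}) ∅ {e} ∨
      (¬ HasR (mn M ∅ {f}) ∧ HasSite (mn M ∅ {f} ＼ {e}))) := by
  have hn := rk_dual_ground M
  by_cases hR : HasR M
  · obtain ⟨I, J, hf⟩ := hR
    have c1 := hf.card_left
    have c2 := hf.card_total
    obtain ⟨e, f, he, hf', hne⟩ := (one_lt_ncard_iff (toFinite J)).1 (by omega)
    refine ⟨e, hf.op.sub_right he, f, hf.op.sub_right hf', hne, Or.inl ?_⟩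
    refine Safe.minor ⟨I, J, hf, by simp, ?_⟩ (by simp) (by simpa using hne.symm)
    exact union_subset (singleton_subset_iff.2 hf') (singleton_subset_iff.2 he)
  · obtain ⟨I, S, hl, h4⟩ := hs.exists_line hT
    have c1 := hl.rank
    have c2 := ncard_union_le I S
    have c3 := cc_card (union_subset hl.ind.subset_ground hl.sub)
    obtain ⟨e, f, he, hf, hne⟩ := (one_lt_ncard_iff (toFinite (M.E \ (I ∪ S)))).1 (by omega)
    have ho : Op M ∅ {f} := zm2_del (hc.mono (by omega)) (by omega) hf.1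
    have hc3 : Con3 (mn M ∅ {f}) := zm2_con hc (by omega) f
    have c4 := ho.card
    rw [ncard_singleton, ncard_empty] at c4
    have he' : e ∈ (mn M ∅ {f}).E := by
      rw [mn_ground]
      exact ⟨he.1, by simpa using hne⟩
    have ho' : Op (mn M ∅ {f}) ∅ {e} := zm2_del (hc3.mono (by omega)) (by omega) he'
    refine ⟨e, he.1, f, hf.1, hne, Or.inr ⟨fun h => hR (HasR.of_minor ho h), ?_⟩⟩
    have l1 : Line (mn M ∅ {f}) I S := by
      rw [mn_empty_left]
      exact hl.delete (by omega) (disjoint_singleton_left.2 hf.2)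
    have l2 := l1.delete (by omega) (disjoint_singleton_left.2 he.2)
    have t2 := (hT.minor ho).minor ho'
    rw [mn_empty_left (mn M ∅ {f})] at t2
    exact l2.hasSite t2 h4.ge

theorem four_up_one (hi : IHm M) (hc : Con4 M) (h1 : 5 ≤ rk M M.E) (h2 : 5 ≤ rk M✶ M.E)
    (hT : U2 M T) : Up M T ∧ OneT M T := by
  by_cases hs : HasSite M
  · have hn := rk_dual_ground M
    obtain ⟨e, he, f, hf, hne, hk⟩ := zm2_pick hc h1 h2 hT hs
    have hgood : ∀ z ∈ M.E, Op M ∅ {z} ∧ Con3 (mn M ∅ {z}) ∧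
        GoodT (mn M ∅ {z}) (mnT ∅ {z} T) := by
      intro z hz
      have ho : Op M ∅ {z} := zm2_del (hc.mono (by omega)) (by omega) hz
      have hc3 : Con3 (mn M ∅ {z}) := zm2_con hc (by omega) z
      exact ⟨ho, hc3, hi ∅ {z} ho (by simp) hc3 _ (hT.minor ho)⟩
    obtain ⟨ho, hc3, hg⟩ := hgood f hf
    obtain ⟨ho1, -, hg1⟩ := hgood e he
    have c4 := ho.card
    rw [ncard_singleton, ncard_empty] at c4
    have he' : e ∈ (mn M ∅ {f}).E := by
      rw [mn_ground]
      exact ⟨he, by simpa using hne⟩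
    have ho' : Op (mn M ∅ {f}) ∅ {e} := zm2_del (hc3.mono (by omega)) (by omega) he'
    have hc1 : Conn (mn M ∅ {f} ＼ {e}) := hc3.delete (by omega) e
    have hfix : AllFix M T e := AllFix.of_delete ho fun F _ x U W h =>
      h.fix_of_keep hg.up hg.one ho' hc1.conL hk
    exact ⟨Up.of_fix ho1 hfix hg1.up, OneT.of_fix hT ho1 hfix hg1.one⟩
  · exact ⟨(goodT_of_noSite hT hs).up, (goodT_of_noSite hT hs).one⟩

end Pool.Agent.Lib.MP_10bdcf_co.G
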