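import Pool.Agent.Lib.MP_10bdcf_co.IIC3
import Pool.Agent.Lib.MP_10bdcf_co.ZM2
import Pool.Agent.Lib.MP_10bdcf_co.XI1

/-!
Case II in terms of the induction hypothesis, and the join rule and the base lemmas for case I.
-/

namespace Pool.Agent.Lib.MP_10bdcf_co.G

open scoped Matroid
open Set II

set_option linter.unusedSectionVars false

variable {E F : Type} [Fintype E] [Field F] {M : Matroid E} {T : Set E → Matrix E E R0}
  {x y : R0 →+* F} {U W : Sb F E} {φ : Fm F E} {I J : Set E} {a b w w' : E}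

theorem IHm.ih2 (hi : IHm M) (h : Obj M T x y U W) (ht : Tw x y) : IH2 M U W where
  ex := fun I J hs hne hc =>
    h.ex_minor ht hs (hi I J hs.op hne hc _ (h.tab.minor hs.op)).ex
  nz := fun _ _ _ _ hf hI hJ hne hc _ hv hg =>
    h.nz_minor (hf.op.mono hI hJ)
      (hc.nz (hi.hg (hf.op.mono hI hJ) hne) (h.tab.minor (hf.op.mono hI hJ))) hf hI hJ hv hg
  line := fun _ _ hf _ φ _ hn _ => h.line_frame ht hf hn φ

/-- Case II of the induction step. -/
theorem four_caseII (hi : IHm M) (hb : Big M) (hT : U2 M T)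
    (h2 : ∀ a b, Safe M {a} {b} → Con3 (mn M {a} {b})) : Ex M T := by
  have _ := hT
  rintro ⟨I, J, hf⟩ F _ x y U W ht h
  exact Set2.exists_val ⟨h, ht, hb.con, hb.rank, hb.corank, h2, hi.ih2 h ht⟩ hf

theorem Big.con3_del' (hb : Big M) (e : E) : Con3 (mn M ∅ {e}) := by
  rw [mn_empty_left]
  exact hb.con3_del e

theorem Big.con3_con' (hb : Big M) (e : E) : Con3 (mn M {e} ∅) := by
  rw [mn_empty_right]
  exact hb.con3_con e

/-- A valid form on a safe contraction that is not diagonal on the frame. -/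
theorem Obj.exists_con (h : Obj M T x y U W) (ht : Tw x y) (hi : IHm M) (hb : Big M)
    (hf : Frame M I J) (ha : a ∈ I) :
    ∃ ξ, Val ξ U (van W {a}) ∧ ¬ Gauge ξ (van U J) (van W I) := by
  have haI := singleton_subset_iff.2 ha
  obtain ⟨ξ, v1, n1⟩ := (hi.ih2 h ht).ex {a} ∅ ⟨I, J, hf, haI, empty_subset _⟩ (by simp)
    (hb.con3_con' a)
  exact ⟨ξ, by simpa using v1, fun hg =>
    n1 ((hi.ih2 h ht).nz {a} ∅ I J hf haI (empty_subset _) (by simp) (hb.con3_con' a) ξ v1 hg)⟩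

/-- A valid form on a safe deletion that is not diagonal on the frame. -/
theorem Obj.exists_del (h : Obj M T x y U W) (ht : Tw x y) (hi : IHm M) (hb : Big M)
    (hf : Frame M I J) (hw : w ∈ J) :
    ∃ ξ, Val ξ (van U {w}) W ∧ ¬ Gauge ξ (van U J) (van W I) := by
  obtain ⟨ξ, v1, n1⟩ := h.dual.exists_con ht.symm hi.dual hb.dual hf.dual hw
  exact ⟨ξ.flip, v1.flip, fun hg => n1 (gauge_flip.1 hg)⟩

theorem Big.conn3 (hb : Big M) (hs : Op M {a, b} {w}) (h1 : Con3 (mn M {a} {w})) :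
    Conn (mn M {a, b} {w}) := by
  have hc := (hs.mono (show ({a} : Set E) ⊆ {a, b} by simp) Subset.rfl).card
  have h10 := hb.ten
  simp only [ncard_singleton] at hc
  have h2 := ConK.contract h1 (by omega) b
  rwa [mn_contract (hs.dis.mono_left (by simp))] at h2

/-- The join rule. -/
theorem Obj.join (h : Obj M T x y U W) (ht : Tw x y) (hi : IHm M) (hb : Big M) (hab : a ≠ b)
    (hs : Safe M {a, b} {w}) (c1 : Con3 (mn M {a} {w})) (c2 : Con3 (mn M {b} {w}))
    (h1 : Val φ U (van W {a})) (h2 : Val φ U (van W {b})) : Val φ (van U {w}) W := by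
  obtain ⟨I, J, hf, hI, hJ⟩ := id hs
  obtain ⟨ξ, v1, n1⟩ := h.exists_del ht hi hb hf (hJ (mem_singleton w))
  obtain ⟨c, hc⟩ := h.line_frame ht hf n1 φ
  have key : ∀ i ∈ I, Con3 (mn M {i} {w}) → Val φ U (van W {i}) →
      Gauge (φ - c • ξ) (van U {w}) (van W {i}) := fun i hi' h3 hv =>
    (hi.ih2 h ht).nz {i} {w} I J hf (singleton_subset_iff.2 hi') hJ (by simp) h3 _
      ((hv.mono (van_le _ _) le_rfl).sub ((v1.mono le_rfl (van_le _ _)).smul c)) hc
  have hg := glue_gauge h ht hab hs (hb.conn3 hs.op c1) (key a (hI (by simp)) c1 h1)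
    (key b (hI (by simp)) c2 h2)
  exact (hg.val.add (v1.smul c)).congr fun u _ w _ => by simp

/-- The join rule, dual form. -/
theorem Obj.join_dual (h : Obj M T x y U W) (ht : Tw x y) (hi : IHm M) (hb : Big M) (hw : w ≠ w')
    (hs : Safe M {a} {w, w'}) (c1 : Con3 (mn M {a} {w})) (c2 : Con3 (mn M {a} {w'}))
    (h1 : Val φ (van U {w}) W) (h2 : Val φ (van U {w'}) W) : Val φ U (van W {a}) :=
  val_flip.1 (h.dual.join ht.symm hi.dual hb.dual hw hs.dual
    ((conK_mn_dual (hs.op.dis.mono_right (by simp))).2 c1)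
    ((conK_mn_dual (hs.op.dis.mono_right (by simp))).2 c2) h1.flip h2.flip)

/-- The common part of the two base lemmas. -/
theorem Obj.base_core (h : Obj M T x y U W) (ht : Tw x y) (hi : IHm M) (hb : Big M)
    (hf : Frame M I J) (ha : a ∈ I) (hb' : b ∈ I)
    (hg : ∀ δ, Val δ U (van W {a, b}) → (∀ z ∈ J, Con3 (mn M {a} {z}) → Con3 (mn M {b} {z}) →
      Gauge δ (van U {z}) (van W {a, b})) → Gauge δ U (van W {a, b})) :
    ∃ φ, Val φ U (van W {a}) ∧ Val φ U (van W {b}) ∧ ¬ Gauge φ (van U J) (van W I) := by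
  have haI := singleton_subset_iff.2 ha
  have hbI := singleton_subset_iff.2 hb'
  have s1 : ({a} : Set E) ⊆ {a, b} := by simp
  have s2 : ({b} : Set E) ⊆ {a, b} := by simp
  obtain ⟨ξ, v1, n1⟩ := h.exists_con ht hi hb hf ha
  obtain ⟨ζ, v2, n2⟩ := h.exists_con ht hi hb hf hb'
  obtain ⟨c, hc⟩ := h.line_frame ht hf n2 ξ
  obtain ⟨γ, hγ⟩ := hg (ξ - c • ζ)
    ((v1.mono le_rfl (van_anti W s1)).sub ((v2.mono le_rfl (van_anti W s2)).smul c))
    fun z hz c1 c2 => by
      have hzJ := singleton_subset_iff.2 hz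
      obtain ⟨η, v5, n5⟩ := h.exists_del ht hi hb hf hz
      obtain ⟨d, hd⟩ := h.line_frame ht hf n5 ξ
      have g1 := (hi.ih2 h ht).nz {a} {z} I J hf haI hzJ (by simp) c1 _
        ((v1.mono (van_le _ _) le_rfl).sub ((v5.mono le_rfl (van_le _ _)).smul d)) hd
      have g2 := (hi.ih2 h ht).nz {b} {z} I J hf hbI hzJ (by simp) c2 _
        (((v2.mono (van_le _ _) le_rfl).smul c).sub ((v5.mono le_rfl (van_le _ _)).smul d))
        ((hd.sub hc).congr fun u _ w _ => by simp)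
      exact ((g1.mono le_rfl (van_anti W s1)).sub (g2.mono le_rfl (van_anti W s2))).congr
        fun u _ w _ => by simp
  obtain ⟨φ, e1, e2⟩ := exists_glue_right (φ1 := ξ) (φ2 := c • ζ + gf γ) (U := U)
    (W1 := van W {a}) (W2 := van W {b}) (by
      rw [van_inf, singleton_union]
      intro u hu w hw
      have := hγ u hu w hw
      simp only [LinearMap.sub_apply, LinearMap.add_apply] at this ⊢
      rw [← this, add_sub_cancel])
  exact ⟨φ, v1.congr e1, ((v2.smul c).add (val_gf γ _ _)).congr e2,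
    fun hg => n1 (hg.congr (e1.symm.mono (van_le U J) (van_anti W haI)))⟩

/-- The base lemma with two deletions. The form is not diagonal on the double minor. -/
theorem Obj.base_two (h : Obj M T x y U W) (ht : Tw x y) (hi : IHm M) (hb : Big M) (hw : w ≠ w')
    (hs : Safe M {a, b} {w, w'}) (c1 : Con3 (mn M {a} {w})) (c2 : Con3 (mn M {b} {w}))
    (c3 : Con3 (mn M {a} {w'})) (c4 : Con3 (mn M {b} {w'})) (hc : Conn (mn M {a, b} {w, w'})) :
    ∃ φ, Val φ U (van W {a}) ∧ Val φ U (van W {b}) ∧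
      ¬ Gauge φ (van U {w, w'}) (van W {a, b}) := by
  obtain ⟨I, J, hf, hI, hJ⟩ := id hs
  obtain ⟨φ, h1, h2, h3⟩ := h.base_core ht hi hb hf (hI (by simp)) (hI (by simp))
    (a := a) (b := b) fun δ _ hg => gauge_flip.1 (glue_gauge h.dual ht.symm hw hs.dual
      ((conK_mn_dual hs.op.dis).2 hc) (hg w (hJ (by simp)) c1 c2).flip
      (hg w' (hJ (by simp)) c3 c4).flip)
  exact ⟨φ, h1, h2, fun hg => h3 (hg.mono (van_anti U hJ) (van_anti W hI))⟩

/-- The base lemma with a fixed deletion. -/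
theorem Obj.base_fix (h : Obj M T x y U W) (ht : Tw x y) (hi : IHm M) (hb : Big M)
    (hs : Safe M {a, b} {w}) (c1 : Con3 (mn M {a} {w})) (c2 : Con3 (mn M {b} {w}))
    (hx : Fix U (van W {a, b}) w) :
    ∃ φ, Val φ U (van W {a}) ∧ Val φ U (van W {b}) ∧ ¬ Gauge φ (van U {w}) (van W {a, b}) := by
  obtain ⟨I, J, hf, hI, hJ⟩ := id hs
  obtain ⟨φ, h1, h2, h3⟩ := h.base_core ht hi hb hf (hI (by simp)) (hI (by simp))
    (a := a) (b := b) fun δ hv hg => by
      obtain ⟨γ, hγ⟩ := hg w (hJ (mem_singleton w)) c1 c2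
      exact hx.gauge hv ⟨γ, hγ⟩
  exact ⟨φ, h1, h2, fun hg => h3 (hg.mono (van_anti U hJ) (van_anti W hI))⟩

/-- The base lemma with two contractions, dual form. -/
theorem Obj.base_two_dual (h : Obj M T x y U W) (ht : Tw x y) (hi : IHm M) (hb : Big M)
    (hab : a ≠ b) (hs : Safe M {a, b} {w, w'}) (c1 : Con3 (mn M {a} {w}))
    (c2 : Con3 (mn M {b} {w})) (c3 : Con3 (mn M {a} {w'})) (c4 : Con3 (mn M {b} {w'}))
    (hc : Conn (mn M {a, b} {w, w'})) :
    ∃ φ, Val φ (van U {w}) W ∧ Val φ (van U {w'}) W ∧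
      ¬ Gauge φ (van U {w, w'}) (van W {a, b}) := by
  have hd := hs.op.dis
  obtain ⟨φ, h1, h2, h3⟩ := h.dual.base_two ht.symm hi.dual hb.dual hab hs.dual
    ((conK_mn_dual (hd.mono (by simp) (by simp))).2 c1)
    ((conK_mn_dual (hd.mono (by simp) (by simp))).2 c3)
    ((conK_mn_dual (hd.mono (by simp) (by simp))).2 c2)
    ((conK_mn_dual (hd.mono (by simp) (by simp))).2 c4) ((conK_mn_dual hd).2 hc)
  exact ⟨φ.flip, h1.flip, h2.flip, fun hg => h3 (gauge_flip.1 hg)⟩

/-- The base lemma with a cofixed contraction. -/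
theorem Obj.base_fix_dual (h : Obj M T x y U W) (ht : Tw x y) (hi : IHm M) (hb : Big M)
    (hs : Safe M {a} {w, w'}) (c1 : Con3 (mn M {a} {w})) (c2 : Con3 (mn M {a} {w'}))
    (hx : Fix W (van U {w, w'}) a) :
    ∃ φ, Val φ (van U {w}) W ∧ Val φ (van U {w'}) W ∧ ¬ Gauge φ (van U {w, w'}) (van W {a}) := by
  have hd := hs.op.dis
  obtain ⟨φ, h1, h2, h3⟩ := h.dual.base_fix ht.symm hi.dual hb.dual hs.dual
    ((conK_mn_dual (hd.mono_right (by simp))).2 c1)
    ((conK_mn_dual (hd.mono_right (by simp))).2 c2) hx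
  exact ⟨φ.flip, h1.flip, h2.flip, fun hg => h3 (gauge_flip.1 hg)⟩

end Pool.Agent.Lib.MP_10bdcf_co.G
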