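import Pool.Agent.Lib.MP_10bdcf_co.LH

/-!
Two lifts differ by signs of elements.
-/

namespace Pool.Agent.Lib.MP_10bdcf_co.G

open scoped Matroid
open Matrix Set Relation

variable {E : Type} [Fintype E] {M : Matroid E} {T : Set E → Matrix E E Lam}

theorem lb_pm {S1 S2 : Set E → Matrix E E HO} (h1 : IsLift M T S1) (h2 : IsLift M T S2)
    {X : Set E} (hX : M.IsBase X) {g f : E} (hg : Adj M X g f) :
    S2 X g f = S1 X g f ∨ S2 X g f = -S1 X g f :=
  eq_or_neg (h1.tab.prop hX hg) (h2.tab.prop hX hg) (by rw [h1.red X hX, h2.red X hX])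

/-- The case of two rows with a common column. -/
theorem lb_one {S1 S2 : Set E → Matrix E E HO} (h1 : IsLift M T S1) (h2 : IsLift M T S2)
    {f : E} {X : Set E} (hX : M.IsBase X) (hag : ∀ b z, z ≠ f → S1 X b z = S2 X b z)
    {g h y : E} (hg : Adj M X g f) (hh : Adj M X h f) (hyf : y ≠ f) (hgy : Adj M X g y)
    (hhy : Adj M X h y) (he : S1 X h f = S2 X h f) : S1 X g f = S2 X g f := by
  by_cases hgh : g = h
  · rw [hgh, he]
  rcases lb_pm h1 h2 hX hg with h3 | h3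
  · exact h3.symm
  exfalso
  have g1 := h1.tab.gd hX hgy hh hgh
  have g2 := h2.tab.gd hX hgy hh hgh
  rw [← he, ← hag h y hyf, ← hag g y hyf, h3, mul_neg] at g2
  refine not_gd_both ?_ g1 g2
  exact mul_mem (mul_mem (mul_mem (Unitary.star_mem (h1.tab.prop hX hh)) (h1.tab.prop hX hhy))
    (Unitary.star_mem (h1.tab.prop hX hgy))) (h1.tab.prop hX hg)

omit [Fintype E] in
theorem lb_coindep {X : Set E} (hX : M.IsBase X) {f : E} (hf : f ∈ M.E) (hfX : f ∉ X) :
    M.Coindep {f} :=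
  (Matroid.coindep_iff_exists (singleton_subset_iff.2 hf)).2
    ⟨X, hX, subset_sdiff.2 ⟨hX.subset_ground, disjoint_singleton_right.2 hfX⟩⟩

/-- An entry that a pivot does not change. -/
theorem lb_piv {S : Set E → Matrix E E HO} (hS : TabP Un M S) {X : Set E} (hX : M.IsBase X)
    {z y x w : E} (ha : Adj M X z y) (hx : x ∈ X) (hxz : x ≠ z) (hw : w ∉ X)
    (hn : ¬ Adj M X x y ∨ ¬ Adj M X z w) : S (ex X z y) x w = S X x w := by
  rw [hS.pivot_old hX ha hx hxz]
  rcases hn with hn | hn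
  · rw [hS.eq_zero hX ha.2.1 hn]
    simp
  · rw [hS.eq_zero hX hw hn]
    simp

theorem lb_near {S1 S2 : Set E → Matrix E E HO} (h1 : IsLift M T S1) (h2 : IsLift M T S2)
    {f : E} (hag : ∀ X, M.IsBase X → f ∉ X → ∀ b z, z ≠ f → S1 X b z = S2 X b z) (k : ℕ) :
    ∀ X, M.IsBase X → ∀ g h, Adj M X g f → Adj M X h f → Near (M ＼ {f}) X h k g →
      S1 X h f = S2 X h f → S1 X g f = S2 X g f := by
  induction k using Nat.strong_induction_on with
  | _ k ih =>
  intro X hX g h hg hh hn he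
  have hfX : f ∉ X := hg.2.1
  have hD : Disjoint X {f} := disjoint_singleton_right.2 hfX
  have hadj : ∀ {b e : E}, Adj (M ＼ {f}) X b e ↔ Adj M X b e ∧ e ≠ f := adj_delete hX hD
  match k, ih, hn with
  | 0, _, hn =>
    have : g = h := hn
    rw [this, he]
  | 1, ih, hn =>
    rcases hn with hn | ⟨y, x', hx', a1, a2⟩
    · exact ih 0 (by omega) X hX g h hg hh hn he
    · have : x' = h := hx'
      subst this
      exact lb_one h1 h2 hX (hag X hX hfX) hg hh (hadj.1 a1).2 (hadj.1 a1).1 (hadj.1 a2).1 he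
  | 2, ih, hn =>
    by_cases hn1 : Near (M ＼ {f}) X h 1 g
    · exact ih 1 (by omega) X hX g h hg hh hn1 he
    obtain ⟨z, y1, y2, a1, a2, a3, a4, n1, n2, hzg, hzh, -⟩ := near_two hn hn1
    obtain ⟨a1, hy1⟩ := hadj.1 a1
    obtain ⟨a2, -⟩ := hadj.1 a2
    obtain ⟨a3, hy2⟩ := hadj.1 a3
    obtain ⟨a4, -⟩ := hadj.1 a4
    have n1' : ¬ Adj M X h y1 := fun h' => n1 (hadj.2 ⟨h', hy1⟩)
    have n2' : ¬ Adj M X g y2 := fun h' => n2 (hadj.2 ⟨h', hy2⟩)
    by_cases hz : Adj M X z f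
    · exact lb_one h1 h2 hX (hag X hX hfX) hg hz hy1 a1 a2
        (lb_one h1 h2 hX (hag X hX hfX) hz hh hy2 a3 a4 he)
    have hfz : f ≠ z := fun e' => hfX (e' ▸ a2.1)
    have hX' : M.IsBase (ex X z y1) := a2.2.2
    have hg' : Adj M (ex X z y1) g f :=
      (h1.tab.adj_pivot_same hX a2 hg.1 hzg.symm hfz hy1.symm (Or.inr hz)).2 hg
    have hh' : Adj M (ex X z y1) h f :=
      (h1.tab.adj_pivot_same hX a2 hh.1 hzh.symm hfz hy1.symm (Or.inr hz)).2 hh
    have b1 : Adj M (ex X z y1) g y2 := h1.tab.adj_pivot_new hX a2 a1 hzg.symm a3 n2'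
    have b2 : Adj M (ex X z y1) h y2 :=
      (h1.tab.adj_pivot_same hX a2 hh.1 hzh.symm (fun e' : y2 = z => a3.2.1 (e' ▸ a2.1))
        (fun e' : y2 = y1 => n1' (e' ▸ a4)) (Or.inl n1')).2 a4
    have := lb_one h1 h2 hX' (hag _ hX' hg'.2.1) hg' hh' hy2 b1 b2 (by
      rw [lb_piv h1.tab hX a2 hh.1 hzh.symm hfX (Or.inr hz),
        lb_piv h2.tab hX a2 hh.1 hzh.symm hfX (Or.inr hz), he])
    rwa [lb_piv h1.tab hX a2 hg.1 hzg.symm hfX (Or.inr hz),
      lb_piv h2.tab hX a2 hg.1 hzg.symm hfX (Or.inr hz)] at this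
  | k + 3, ih, hn =>
    by_cases hn1 : Near (M ＼ {f}) X h (k + 2) g
    · exact ih (k + 2) (by omega) X hX g h hg hh hn1 he
    have hco := lb_coindep hX hg.mem_ground hfX
    obtain ⟨z, y, a, hzg, hzh, n1, n2, hn'⟩ := (h1.tab.delete_coindep hco).shorten
      ((isBase_delete_iff hX hD).2 ⟨hX, hD⟩) hh.1 hn hn1
    obtain ⟨a, hy⟩ := hadj.1 a
    have n1' : ¬ Adj M X g y := fun h' => n1 (hadj.2 ⟨h', hy⟩)
    have n2' : ¬ Adj M X h y := fun h' => n2 (hadj.2 ⟨h', hy⟩)
    have hfz : f ≠ z := fun e' => hfX (e' ▸ a.1)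
    have hg' : Adj M (ex X z y) g f :=
      (h1.tab.adj_pivot_same hX a hg.1 hzg.symm hfz hy.symm (Or.inl n1')).2 hg
    have hh' : Adj M (ex X z y) h f :=
      (h1.tab.adj_pivot_same hX a hh.1 hzh.symm hfz hy.symm (Or.inl n2')).2 hh
    have := ih (k + 2) (by omega) _ a.2.2 g h hg' hh' hn' (by
      rw [lb_piv h1.tab hX a hh.1 hzh.symm hfX (Or.inl n2'),
        lb_piv h2.tab hX a hh.1 hzh.symm hfX (Or.inl n2'), he])
    rwa [lb_piv h1.tab hX a hg.1 hzg.symm hfX (Or.inl n1'),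
      lb_piv h2.tab hX a hg.1 hzg.symm hfX (Or.inl n1')] at this

/-- Two lifts that agree off the column `f` differ by one sign on joined rows of that column. -/
theorem sign_column {S1 S2 : Set E → Matrix E E HO} (h1 : IsLift M T S1) (h2 : IsLift M T S2)
    {f : E} (hag : ∀ X, M.IsBase X → f ∉ X → ∀ b z, z ≠ f → S1 X b z = S2 X b z)
    {X : Set E} (hX : M.IsBase X) {g h : E} (hg : Adj M X g f) (hh : Adj M X h f)
    (hj : Joined (M ＼ {f}) g h) (he : S1 X h f = S2 X h f) : S1 X g f = S2 X g f := by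
  have hD : Disjoint X {f} := disjoint_singleton_right.2 hg.2.1
  obtain ⟨k, hk⟩ := near_of_joined ((isBase_delete_iff hX hD).2 ⟨hX, hD⟩) hg.1 hh.1 hj
  exact lb_near h1 h2 hag k X hX g h hg hh hk he

/-- The two systems differ by signs of elements. -/
def LbSign (M : Matroid E) (S1 S2 : Set E → Matrix E E HO) : Prop :=
  ∃ ε : E → HO, (∀ e, ε e = 1 ∨ ε e = -1) ∧ (∀ e, e ∉ M.E → ε e = 1) ∧
    ∀ B, M.IsBase B → ∀ b e, S2 B b e = ε b * S1 B b e * ε e

/-- The induction step at a column whose neighbours stay connected after its removal. -/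
theorem lb_col {S1 S2 : Set E → Matrix E E HO} (h1 : IsLift M T S1) (h2 : IsLift M T S2)
    {X : Set E} (hX : M.IsBase X) {v : E} (hv : v ∈ M.E) (hvX : v ∉ X)
    (hc : ∀ g h, SAdj M X v g → SAdj M X v h → ReflTransGen (Av (SAdj M X) {v}) g h)
    (ih : LbSign (M ＼ {v}) (delT {v} S1) (delT {v} S2)) : LbSign M S1 S2 := by
  classical
  obtain ⟨ε0, s0, o0, e0⟩ := ih
  have hD : Disjoint X {v} := disjoint_singleton_right.2 hvX
  let ε : HO → E → HO := fun δ e => if e = v then δ else ε0 e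
  have hs : ∀ δ : HO, δ = 1 ∨ δ = -1 → ∀ e, ε δ e = 1 ∨ ε δ e = -1 := by
    intro δ hδ e
    simp only [ε]
    split_ifs
    exacts [hδ, s0 e]
  let S : HO → Set E → Matrix E E HO := fun δ B => Matrix.of fun b e => ε δ b * S1 B b e * ε δ e
  have hl : ∀ δ : HO, δ = 1 ∨ δ = -1 → IsLift M T (S δ) := fun δ hδ => h1.sign (ε δ) (hs δ hδ)
  have hag : ∀ δ : HO, ∀ B, M.IsBase B → v ∉ B → ∀ b z, z ≠ v → S δ B b z = S2 B b z := by
    intro δ B hB hvB b z hz
    by_cases hb : b = v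
    · subst hb
      simp only [S, of_apply]
      rw [h1.tab.row hB hvB, h2.tab.row hB hvB]
      simp
    · have := e0 B ((isBase_delete_iff hX hD).2 ⟨hB, disjoint_singleton_right.2 hvB⟩) b z
      rw [delT_apply (D := {v}) _ _ _ hz, delT_apply (D := {v}) _ _ _ hz] at this
      simp only [S, ε, of_apply, if_neg hb, if_neg hz]
      exact this.symm
  obtain ⟨δ, hδ, hcol⟩ : ∃ δ : HO, (δ = 1 ∨ δ = -1) ∧
      ∀ g, Adj M X g v → S δ X g v = S2 X g v := by
    by_cases hex : ∃ h0, Adj M X h0 v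
    · obtain ⟨h0, a0⟩ := hex
      have hj : ∀ g, Adj M X g v → Joined (M ＼ {v}) g h0 := fun g a =>
        joined_delete hX hD (hc g h0 (Or.inr a) (Or.inr a0))
      have hne : h0 ≠ v := fun e' => hvX (e' ▸ a0.1)
      rcases lb_pm (hl 1 (Or.inl rfl)) h2 hX a0 with h3 | h3
      · exact ⟨1, Or.inl rfl, fun g a =>
          sign_column (hl 1 (Or.inl rfl)) h2 (hag 1) hX a a0 (hj g a) h3.symm⟩
      · refine ⟨-1, Or.inr rfl, fun g a =>
          sign_column (hl (-1) (Or.inr rfl)) h2 (hag (-1)) hX a a0 (hj g a) ?_⟩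
        rw [h3]
        simp [S, ε, hne]
    · exact ⟨1, Or.inl rfl, fun g a => absurd ⟨g, a⟩ hex⟩
  have hXe : S δ X = S2 X := by
    ext1 b z
    by_cases hz : z = v
    · subst hz
      by_cases a : Adj M X b z
      · exact hcol b a
      · rw [(hl δ hδ).tab.eq_zero hX hvX a, h2.tab.eq_zero hX hvX a]
    · exact hag δ X hX hvX b z hz
  refine ⟨ε δ, hs δ hδ, fun e he => ?_, fun B hB b e => ?_⟩
  · have : e ≠ v := fun e' => he (e' ▸ hv)
    simp only [ε, if_neg this]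
    exact o0 e fun h' => he h'.1
  · rw [← (hl δ hδ).tab.ext_base h2.tab hX hXe hB]
    rfl

theorem lb_dual {S1 S2 : Set E → Matrix E E HO} (h1 : IsLift M T S1) (h2 : IsLift M T S2)
    (h : LbSign M✶ (dualT (starHom HO) M S1) (dualT (starHom HO) M S2)) : LbSign M S1 S2 := by
  obtain ⟨ε, s, o, e⟩ := h
  refine ⟨ε, s, o, fun B hB b z => ?_⟩
  by_cases hbz : b = z
  · subst hbz
    by_cases hb : b ∈ B
    · rw [h1.tab.diag B hB b hb, h2.tab.diag B hB b hb]
      rcases s b with h3 | h3 <;> simp [h3]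
    · rw [h1.tab.row hB hb, h2.tab.row hB hb]
      simp
  · have := e (M.E \ B) hB.compl_isBase_dual z b
    rw [dualT_of_ne _ _ _ _ (Ne.symm hbz), dualT_of_ne _ _ _ _ (Ne.symm hbz),
      sdiff_sdiff_cancel_left hB.subset_ground, starHom_apply, starHom_apply] at this
    apply star_injective
    rcases s b with h3 | h3 <;> rcases s z with h4 | h4 <;> rw [h3, h4] at this ⊢ <;>
      simpa [neg_eq_iff_eq_neg] using this

theorem lb_unique (n : ℕ) : ∀ (M : Matroid E) (T : Set E → Matrix E E Lam)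
    (S1 S2 : Set E → Matrix E E HO), M.E.ncard = n → IsLift M T S1 → IsLift M T S2 →
    LbSign M S1 S2 := by
  induction n using Nat.strong_induction_on with
  | _ n ih =>
  intro M T S1 S2 hn h1 h2
  have step : ∀ (M : Matroid E) (T : Set E → Matrix E E Lam) (S1 S2 : Set E → Matrix E E HO),
      M.E.ncard = n → IsLift M T S1 → IsLift M T S2 → ∀ X v, M.IsBase X → v ∈ M.E → v ∉ X →
      (∀ g h, SAdj M X v g → SAdj M X v h → ReflTransGen (Av (SAdj M X) {v}) g h) →
      LbSign M S1 S2 := by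
    intro M T S1 S2 hn h1 h2 X v hX hv hvX hc
    have hco := lb_coindep hX hv hvX
    refine lb_col h1 h2 hX hv hvX hc (ih _ ?_ _ _ _ _ rfl (h1.delete hco) (h2.delete hco))
    rw [← hn, Matroid.delete_ground]
    exact ncard_sdiff_singleton_lt_of_mem hv
  rcases M.E.eq_empty_or_nonempty with hE | ⟨a, ha⟩
  · refine ⟨fun _ => 1, fun _ => Or.inl rfl, fun _ _ => rfl, fun B hB b e => ?_⟩
    have he : e ∉ M.E := by simp [hE]
    rw [h1.tab.col hB b he, h2.tab.col hB b he]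
    simp
  obtain ⟨X, hX⟩ := M.exists_isBase
  obtain ⟨v, hav, hc⟩ := exists_noncut (SAdj M X) (fun _ _ h => h.symm)
    (fun _ h => h.elim (fun h => h.2.1 h.1) fun h => h.2.1 h.1) a
  have hv : v ∈ M.E := by
    induction hav with
    | refl => exact ha
    | tail _ h _ => exact h.elim (fun h => h.mem_ground) fun h => hX.subset_ground h.1
  by_cases hvX : v ∈ X
  · have hs : SAdj M✶ (M.E \ X) = SAdj M X := by
      funext b e
      simp only [SAdj, adj_dual hX.subset_ground]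
      exact propext or_comm
    refine lb_dual h1 h2 (step M✶ _ _ _ hn h1.dual h2.dual (M.E \ X) v hX.compl_isBase_dual hv
      (fun h => h.2 hvX) ?_)
    rw [hs]
    exact hc
  · exact step M T S1 S2 hn h1 h2 X v hX hv hvX hc

theorem sign_unique {S1 S2 : Set E → Matrix E E HO} (h1 : IsLift M T S1) (h2 : IsLift M T S2) :
    ∃ ε : E → HO, (∀ e, ε e = 1 ∨ ε e = -1) ∧ (∀ e, e ∉ M.E → ε e = 1) ∧
      ∀ B, M.IsBase B → ∀ b e, S2 B b e = ε b * S1 B b e * ε e :=
  lb_unique _ M T S1 S2 rfl h1 h2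

end Pool.Agent.Lib.MP_10bdcf_co.G
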