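import Pool.Agent.Lib.MP_10bdcf_co.LH

/-!
Building a lift from lifts of deletions.
-/

namespace Pool.Agent.Lib.MP_10bdcf_co.G

open scoped Matroid
open Matrix Set

variable {E : Type} [Fintype E] {M : Matroid E} {T : Set E → Matrix E E Lam}

theorem lc_map {S0 S : Matrix E E HO} {B : Set E} (h : Good S0 B S) :
    Good (S0.map rho) B (S.map rho) :=
  ⟨fun b hb e => by simp [h.row b hb], fun b hb => by simp [h.diag b hb],
    fun b e he hbe => by simp [h.off b e he hbe], by rw [← Matrix.map_mul, h.left],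
    by rw [← Matrix.map_mul, h.right]⟩

theorem lc_unit {S0 S S' : Matrix E E HO} {B : Set E} {x z : E} (h : Good S0 B S)
    (h' : Good S0 (ex B x z) S') (hz : z ∉ B) : Un (S x z) := by
  have h1 := congrFun (congrFun (h.mul h') z) z
  rw [Matrix.mul_apply, h'.diag z (mem_ex.2 (Or.inl rfl)),
    Finset.sum_eq_single x (fun b _ hb => ?_) (by simp)] at h1
  · exact (unitary_of_mul_eq_one h1).2
  · by_cases hbB : b ∈ B
    · rw [h'.off z b (mem_ex.2 (Or.inr ⟨hbB, hb⟩)) fun e' => hz (e' ▸ hbB), zero_mul]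
    · rw [h.row b hbB, mul_zero]

/-- If a column `c` of one tableau is supported inside `ex B x z`, the entry `x z` vanishes. -/
theorem lc_zero {S0 S S' : Matrix E E HO} {B X : Set E} {x z c : E} (h : Good S0 B S)
    (h' : Good S0 X S') (hz : z ∉ B) (hc : c ∈ ex B x z) (hcX : c ∉ X)
    (hs : ∀ b, b ∉ ex B x z → S' b c = 0) : S x z = 0 := by
  classical
  set l : E → HO := fun b => (if b = c then 1 else 0) - S' b c with hl
  have h1 : ∀ y, ∑ b, S y b * l b = 0 := fun y => by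
    have := congrFun (congrFun (h'.mul h) y) c
    rw [Matrix.mul_apply] at this
    simp [hl, mul_sub, this]
  have h2 : ∀ b, b ∉ ex B x z → l b = 0 := fun b hb => by
    have : b ≠ c := fun e' => hb (e' ▸ hc)
    simp [hl, this, hs b hb]
  have h3 : l c = 1 := by simp [hl, h'.row c hcX]
  have h4 : S x z * l z = 0 := by
    rw [← h1 x]
    symm
    refine Finset.sum_eq_single z (fun b _ hb => ?_) (by simp)
    by_cases hbB : b ∈ ex B x z
    · have := (mem_ex.1 hbB).resolve_left hb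
      rw [h.off x b this.1 this.2.symm, zero_mul]
    · rw [h2 b hbB, mul_zero]
  refine (mul_eq_zero.1 h4).resolve_right fun h5 => ?_
  have hcz : c ≠ z := fun e' => by rw [← e', h3] at h5; exact one_ne_zero h5
  have hcB := (mem_ex.1 hc).resolve_left hcz
  have h6 := h1 c
  rw [Finset.sum_eq_single c (fun b _ hb => ?_) (by simp), h.diag c hcB.1, h3, one_mul] at h6
  · exact one_ne_zero h6
  · by_cases hbB : b ∈ ex B x z
    · rcases mem_ex.1 hbB with rfl | hb'
      · rw [h5, mul_zero]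
      · rw [h.off c b hb'.1 (Ne.symm hb), zero_mul]
    · rw [h2 b hbB, mul_zero]

omit [Fintype E] in
theorem lc_exch {B X : Set E} (hB : M.IsBase B) (hX : M.IsBase X) {f : E} (hB' : f ∈ B)
    (hf : f ∉ X) : ∃ g ∈ X, g ∉ B ∧ M.IsBase (ex B f g) ∧ Adj M (ex B f g) g f ∧
      ex (ex B f g) g f = B := by
  obtain ⟨g, hg, h⟩ := hB.exchange hX ⟨hB', hf⟩
  have ha : Adj M B f g := ⟨hB', hg.2, h⟩
  exact ⟨g, hg.1, hg.2, h, ha.symm_ex hB, ex_ex hB' hg.2⟩

omit [Fintype E] in
theorem lc_base {B X : Set E} (hX : M.IsBase X) {f : E} (hf : f ∉ X) :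
    (M ＼ {f}).IsBase B ↔ M.IsBase B ∧ f ∉ B := by
  rw [isBase_delete_iff hX (disjoint_singleton_right.2 hf), disjoint_singleton_right]

open Classical in
theorem lc_entry {S : Set E → Matrix E E HO} {N : Matroid E} (hS : TabP Un N S) {X B : Set E}
    (hX : N.IsBase X) (hB : N.IsBase B) {f : E} (v : E → HO) (x w : E) :
    (S B * (S X).updateCol f v) x w = if w = f then ∑ b, S B x b * v b else S B x w := by
  rw [Matrix.mul_apply]
  split_ifs with h
  · simp [h]
  · simp [Matrix.updateCol_ne h, ← hS.mul_apply hX hB]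

open Classical in
theorem lc_good {S : Set E → Matrix E E HO} {N : Matroid E} (hS : TabP Un N S) {X B : Set E}
    (hX : N.IsBase X) (hB : N.IsBase B) {f : E} (hf : f ∉ X) (hf' : f ∉ B) {v : E → HO}
    (hv0 : ∀ b, b ∉ X → v b = 0) :
    Good ((S X).updateCol f v) B (S B * (S X).updateCol f v) := by
  have h1 : ∀ A : Matrix E E HO, (∀ w, A f w = 0) → (S X).updateCol f v * A = S X * A := by
    intro A hA
    ext1 x w
    simp only [Matrix.mul_apply]
    refine Finset.sum_congr rfl fun b _ => ?_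
    by_cases hb : b = f
    · rw [hb, hA, mul_zero, mul_zero]
    · rw [Matrix.updateCol_ne hb]
  have h2 : S X * (S X).updateCol f v = (S X).updateCol f v := by
    ext1 x w
    rw [lc_entry hS hX hX, Matrix.updateCol_apply]
    split_ifs
    · by_cases hx : x ∈ X
      · rw [Finset.sum_eq_single x (fun b _ hb => ?_) (by simp), hS.diag X hX x hx, one_mul]
        by_cases hbX : b ∈ X
        · rw [hS.off hX hbX (Ne.symm hb), zero_mul]
        · rw [hv0 b hbX, mul_zero]
      · simp [hS.row hX hx, hv0 x hx]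
    · rfl
  refine ⟨fun b hb e => ?_, fun b hb => ?_, fun b e he hbe => ?_, ?_, ?_⟩
  · simp [Matrix.mul_apply, hS.row hB hb]
  · rw [lc_entry hS hX hB, if_neg fun e' : b = f => hf' (e' ▸ hb), hS.diag B hB b hb]
  · rw [lc_entry hS hX hB, if_neg fun e' : e = f => hf' (e' ▸ he), hS.off hB he hbe]
  · rw [Matrix.mul_assoc, h1 _ fun w => ?_, h2]
    simp [Matrix.updateCol_apply, hv0 f hf, hS.row hX hf]
  · rw [← Matrix.mul_assoc, h1 _ (hS.row hB hf'), hS.mul _ _ hB hX, h2]

/-- Extension of a lift by one column. -/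
theorem lc_ext (hT : TabP Un M T) {X : Set E} (hX : M.IsBase X) {f : E} (hf : f ∉ X)
    {S : Set E → Matrix E E HO} (hS : IsLift (M ＼ {f}) (delT {f} T) S) (v : E → HO)
    (hv0 : ∀ b, b ∉ X → v b = 0) (hv : ∀ b, rho (v b) = T X b f)
    (H : ∀ B, M.IsBase B → f ∉ B → ∀ x, ∑ b, S B x b * v b = 0 ∨ Un (∑ b, S B x b * v b)) :
    ∃ S', IsLift M T S' := by
  classical
  have hX' := (lc_base hX hf).2 ⟨hX, hf⟩
  set S0 := (S X).updateCol f v with hS0
  have h0 : S0.map rho = T X := by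
    ext1 x w
    rw [Matrix.map_apply, hS0, Matrix.updateCol_apply]
    split_ifs with h
    · rw [hv, h]
    · rw [hS.red X hX', delT_apply (D := {f}) _ _ _ h]
  have red : ∀ B A, M.IsBase B → Good S0 B A → ∀ b e, rho (A b e) = T B b e := by
    intro B A hB hA b e
    have := lc_map hA
    rw [h0] at this
    exact congrFun (congrFun (this.unique (hT.good hX hB)) b) e
  have g1 : ∀ B, M.IsBase B → f ∉ B → Good S0 B (S B * S0) := fun B hB hf' =>
    lc_good hS.tab hX' ((lc_base hX hf).2 ⟨hB, hf'⟩) hf hf' hv0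
  have g2 : ∀ B, M.IsBase B → f ∉ B → ∀ x w, (S B * S0) x w = 0 ∨ Un ((S B * S0) x w) := by
    intro B hB hf' x w
    have hB' := (lc_base hX hf).2 ⟨hB, hf'⟩
    rw [hS0, lc_entry hS.tab hX' hB']
    split_ifs
    exacts [H B hB hf' x, hS.tab.mem B hB' x w]
  have g3 : ∀ B, ∃ A, M.IsBase B → Good S0 B A := by
    intro B
    by_cases hB : M.IsBase B
    swap
    · exact ⟨0, fun h => absurd h hB⟩
    by_cases hf' : f ∈ B
    · obtain ⟨g, -, -, h1, h2, h3⟩ := lc_exch hB hX hf' hf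
      have h4 : Un ((S (ex B f g) * S0) g f) := (g2 _ h1 h2.2.1 g f).resolve_left fun h5 =>
        hT.ne_zero h1 h2 (by rw [← red _ _ h1 (g1 _ h1 h2.2.1), h5, map_zero])
      have := (g1 _ h1 h2.2.1).pivot h2.1 h2.2.1 (Unitary.star_mul_self_of_mem h4)
        (Unitary.mul_star_self_of_mem h4)
      rw [h3] at this
      exact ⟨_, fun _ => this⟩
    · exact ⟨_, fun _ => g1 B hB hf'⟩
  choose A hA using g3
  refine ⟨A, tabP_of_good A hA (fun B hB x z _ hz ha => ?_) (fun B hB x z hx hz ha => ?_)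
    (one_mem _), fun B hB => red B _ hB (hA B hB)⟩
  · exact ⟨lc_unit (hA B hB) (hA _ ha.2.2) hz, fun h5 =>
      hT.ne_zero hB ha (by rw [← red _ _ hB (hA B hB), h5, map_zero])⟩
  have hD : ¬ M.Indep (ex B x z) := fun hD => ha ⟨hx, hz, hB.exchange_isBase_of_indep hz hD⟩
  obtain ⟨I, hI⟩ := M.exists_isBasis' (ex B x z \ {f})
  obtain ⟨c, hc, hcI⟩ : ∃ c ∈ ex B x z, ¬ M.Indep (insert c I) := by
    by_cases h1 : ex B x z \ {f} ⊆ I
    · by_cases h2 : f ∈ ex B x z
      · refine ⟨f, h2, fun h3 => hD (h3.subset fun y hy => ?_)⟩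
        by_cases h4 : y = f
        exacts [Or.inl h4, Or.inr (h1 ⟨hy, h4⟩)]
      · exact absurd (hI.indep.subset fun y hy => h1 ⟨hy, fun h4 => h2 (h4 ▸ hy)⟩) hD
    · obtain ⟨c, h2, h3⟩ := not_subset.1 h1
      exact ⟨c, h2.1, hI.insert_not_indep ⟨h2, h3⟩⟩
  have hI' : (M ＼ {f}).Indep I := Matroid.delete_indep_iff.2
    ⟨hI.indep, disjoint_singleton_right.2 fun h => (hI.subset h).2 rfl⟩
  obtain ⟨Y, hY, hIY⟩ := hI'.exists_isBase_superset
  obtain ⟨hY, hfY⟩ := (lc_base hX hf).1 hY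
  have hcY : c ∉ Y := fun h => hcI (hY.indep.subset (insert_subset h hIY))
  refine lc_zero (hA B hB) (g1 Y hY hfY) hz hc hcY fun b hb => ?_
  refine (g2 Y hY hfY b c).resolve_right fun h5 => ?_
  have h6 := rho_unitary h5
  rw [red _ _ hY (g1 Y hY hfY), hT.eq_zero hY hcY fun h7 => hcI (h7.2.2.indep.subset ?_)] at h6
  · exact absurd h6 (by decide)
  · refine insert_subset_insert fun y hy => ⟨hIY hy, fun h8 => hb ?_⟩
    exact (show y = b from h8) ▸ (hI.subset hy).1

/-- A column with at most one nonzero entry. -/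
theorem lift_of_leaf (hT : TabP Un M T) {X : Set E} (hX : M.IsBase X) {f : E} (hf : f ∉ X)
    (h1 : ∀ g h, Adj M X g f → Adj M X h f → g = h) {S : Set E → Matrix E E HO}
    (hS : IsLift (M ＼ {f}) (delT {f} T) S) : ∃ S', IsLift M T S' := by
  classical
  by_cases hg : ∃ g, Adj M X g f
  · obtain ⟨g, hg⟩ := hg
    obtain ⟨c, hc, hc'⟩ := exists_lift (hT.prop hX hg)
    refine lc_ext hT hX hf hS (fun b => if b = g then c else 0) (fun b hb => ?_) (fun b => ?_)
      fun B hB hf' x => ?_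
    · exact if_neg fun e' : b = g => hb (e' ▸ hg.1)
    · split_ifs with h
      · rw [hc', h]
      · rw [map_zero, hT.eq_zero hX hf fun h2 => h (h1 _ _ h2 hg)]
    · simp only [mul_ite, mul_zero, Finset.sum_ite_eq', Finset.mem_univ, if_true]
      rcases hS.tab.mem B ((lc_base hX hf).2 ⟨hB, hf'⟩) x g with h | h
      · left; rw [h, zero_mul]
      · right; exact mul_mem h hc
  · refine lc_ext hT hX hf hS 0 (fun _ _ => rfl) (fun b => ?_) fun B _ _ x => Or.inl (by simp)
    rw [Pi.zero_apply, map_zero, hT.eq_zero hX hf fun h => hg ⟨b, h⟩]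

/-- Two columns all of whose full blocks are good. -/
theorem Glue.lift {e f : E} {Se Sf : Set E → Matrix E E HO} (h : Glue M T e f Se Sf)
    (hb : Blocks M e f Se Sf) : ∃ S', IsLift M T S' := by
  classical
  obtain ⟨X0, hX0, he0, hf0⟩ := h.base
  have b1 : ∀ {B}, M.IsBase B → f ∉ B → (M ＼ {f}).IsBase B := fun h1 h2 =>
    (lc_base hX0 hf0).2 ⟨h1, h2⟩
  have b2 : ∀ {B}, M.IsBase B → e ∉ B → (M ＼ {e}).IsBase B := fun h1 h2 =>
    (lc_base hX0 he0).2 ⟨h1, h2⟩
  have hv0 : ∀ b, b ∉ X0 → Sf X0 b f = 0 := fun b hb => h.lf.tab.row (b2 hX0 he0) hb f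
  have k1 : ∀ X, M.IsBase X → e ∉ X → f ∉ X → ∀ x, ∑ b, Se X x b * Sf X0 b f = Sf X x f := by
    intro X hX he hf x
    rw [h.lf.tab.mul_apply (b2 hX0 he0) (b2 hX he)]
    refine Finset.sum_congr rfl fun b _ => ?_
    by_cases hbX : b ∈ X0
    · rw [h.agree X hX he hf x b (fun e' => he0 (e' ▸ hbX)) fun e' => hf0 (e' ▸ hbX)]
    · rw [hv0 b hbX, mul_zero, mul_zero]
  refine lc_ext h.tab hX0 hf0 h.le (fun b => Sf X0 b f) hv0 (fun b => ?_) fun B hB hf x => ?_
  · rw [h.lf.red X0 (b2 hX0 he0), delT_apply (D := {e}) _ _ _ h.ne.symm]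
  by_cases he : e ∈ B
  swap
  · rw [k1 B hB he hf]
    exact h.lf.tab.mem B (b2 hB he) x f
  obtain ⟨g, hg0, -, hX, ha, hXB⟩ := lc_exch hB hX0 he he0
  set X := ex B e g
  have hfX : f ∉ X := fun h1 => by
    rcases mem_ex.1 h1 with h2 | h2
    exacts [hf0 (h2 ▸ hg0), hf h2.1]
  have hX1 := b1 hX hfX
  have hX2 := b2 hX ha.2.1
  have a1 : ∀ {y}, Adj (M ＼ {f}) X y e ↔ Adj M X y e := by
    intro y
    rw [adj_delete hX (disjoint_singleton_right.2 hfX)]
    exact and_iff_left h.ne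
  have a2 : ∀ {y}, Adj (M ＼ {e}) X y f ↔ Adj M X y f := by
    intro y
    rw [adj_delete hX (disjoint_singleton_right.2 ha.2.1)]
    exact and_iff_left h.ne.symm
  have hu := h.le.tab.prop hX1 (a1.2 ha)
  have G1 := lc_good h.le.tab (b1 hX0 hf0) hX1 hf0 hfX hv0
  have e1 : ∀ y, (Se X * (Se X0).updateCol f fun b => Sf X0 b f) y e = Se X y e := fun y => by
    rw [lc_entry h.le.tab (b1 hX0 hf0) hX1, if_neg h.ne]
  have e2 : ∀ y, (Se X * (Se X0).updateCol f fun b => Sf X0 b f) y f = Sf X y f := fun y => by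
    rw [lc_entry h.le.tab (b1 hX0 hf0) hX1, if_pos rfl, k1 X hX ha.2.1 hfX]
  have G2 := G1.pivot ha.1 ha.2.1 (v := star (Se X g e))
    (by rw [e1]; exact Unitary.star_mul_self_of_mem hu)
    (by rw [e1]; exact Unitary.mul_star_self_of_mem hu)
  rw [hXB] at G2
  have e3 := congrFun (congrFun
    ((lc_good h.le.tab (b1 hX0 hf0) (b1 hB hf) hf0 hf hv0).unique G2) x) f
  rw [lc_entry h.le.tab (b1 hX0 hf0) (b1 hB hf), if_pos rfl] at e3
  rw [e3]
  simp only [piv, of_apply, e1, e2]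
  have m1 := h.lf.tab.mem X hX2 g f
  split_ifs with c1 c2
  · rcases m1 with m1 | m1
    · left; rw [m1, mul_zero]
    · right; exact mul_mem (Unitary.star_mem hu) m1
  · exact Or.inl rfl
  have m2 := h.lf.tab.mem X hX2 x f
  by_cases p1 : Adj M X g f
  swap
  · rw [h.lf.tab.eq_zero hX2 hfX fun p => p1 (a2.1 p), mul_zero, sub_zero]
    exact m2
  by_cases p2 : Adj M X x e
  swap
  · rw [h.le.tab.eq_zero hX1 ha.2.1 fun p => p2 (a1.1 p), zero_mul, zero_mul, sub_zero]
    exact m2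
  have u1 := h.lf.tab.prop hX2 (a2.2 p1)
  have u2 := h.le.tab.prop hX1 (a1.2 p2)
  by_cases p3 : Adj M X x f
  swap
  · right
    rw [h.lf.tab.eq_zero hX2 hfX fun p => p3 (a2.1 p), zero_sub]
    have u4 := mul_mem (mul_mem u2 (Unitary.star_mem hu)) u1
    rw [Un, Unitary.mem_iff] at *
    simpa only [star_neg, neg_mul_neg] using u4
  have u3 := h.lf.tab.prop hX2 (a2.2 p3)
  have e4 : Sf X x f - Se X x e * star (Se X g e) * Sf X g f =
      Sf X x f * (1 - star (Sf X x f) * Se X x e * star (Se X g e) * Sf X g f) := by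
    rw [mul_sub, mul_one, ← mul_assoc, ← mul_assoc, ← mul_assoc, Unitary.mul_star_self_of_mem u3,
      one_mul]
  rw [e4]
  rcases hb X hX g x ha p1 p2 p3 (Ne.symm c2) with q | q
  · left; rw [q, mul_zero]
  · right; exact mul_mem u3 q

end Pool.Agent.Lib.MP_10bdcf_co.G
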