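import Pool.Agent.Lib.MP_10bdcf_co.LH

/-!
The minimal-distance argument: all blocks of a gluing over a connected part are good.
-/

namespace Pool.Agent.Lib.MP_10bdcf_co.G

open scoped Matroid
open Matrix Set

section Alg

variable {R : Type} [Ring R] [StarRing R]

theorem ld_u {u : R} (hu : u ∈ unitary R) : u * star u = 1 ∧ star u * u = 1 ∧
    (∀ x, u * (star u * x) = x) ∧ ∀ x, star u * (u * x) = x :=
  ⟨hu.2, hu.1, fun x => by rw [← mul_assoc, hu.2, one_mul],
    fun x => by rw [← mul_assoc, hu.1, one_mul]⟩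

theorem ld_conj {c c' u : R} (h : Gd c) (hu : u ∈ unitary R) (e : c' = u * c * star u) :
    Gd c' := e ▸ h.conj hu

theorem ld_st {u : R} (hu : u ∈ unitary R) : star u ∈ unitary R := Unitary.star_mem hu

theorem ld_neg {u : R} (hu : u ∈ unitary R) : -u ∈ unitary R :=
  ⟨by simpa using hu.1, by simpa using hu.2⟩

theorem ld_cr {a b c d : R} (ha : a ∈ unitary R) (hb : b ∈ unitary R) (hc : c ∈ unitary R)
    (hd : d ∈ unitary R) : a * b * c * d ∈ unitary R := mul_mem (mul_mem (mul_mem ha hb) hc) hd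

theorem ld_solve {a b c d : R} (ha : a ∈ unitary R) (hd : d ∈ unitary R)
    (h : a * star d * c * star b = 1) : d = c * star b * a :=
  calc d = d * (star a * (a * star d * c * star b) * a) := by rw [h, mul_one, ha.1, mul_one]
    _ = _ := by simp only [mul_assoc, ld_u ha, ld_u hd]

/-- Exchanging the two columns of a block. -/
theorem ld_swap {a b c d : R} (hc : c ∈ unitary R) (hd : d ∈ unitary R)
    (h : Gd (star c * d * star b * a)) : Gd (star d * c * star a * b) :=
  ld_conj h.star (mul_mem (ld_st hd) hc) (by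
    simp only [star_mul, star_star, mul_assoc, ld_u hc, ld_u hd, mul_one])

end Alg

/-- Three columns, two rows. -/
theorem ld_alg25 {a b c d u v : HO} (ha : a ∈ unitary HO) (hb : b ∈ unitary HO)
    (hc : c ∈ unitary HO) (hd : d ∈ unitary HO) (hu : u ∈ unitary HO) (hv : v ∈ unitary HO)
    (h1 : Gd (star v * c * star a * u)) (h2 : Gd (star v * d * star b * u))
    (h3 : Gd (star (rho d) * rho c * star (rho a) * rho b))
    (h4 : ∀ p q : Lam, p = star (rho v) * rho c * star (rho a) * rho u →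
      q = star (rho v) * rho d * star (rho b) * rho u → p * p + p + 1 = 0 → p * q ≠ 1) :
    Gd (star d * c * star a * b) := by
  have h5 := gd_mul_star (ld_cr (ld_st hv) hc (ld_st ha) hu) (ld_cr (ld_st hv) hd (ld_st hb) hu)
    h1 h2 (ld_conj h3 (rho_unitary (mul_mem (ld_st hv) hd)) (by
      simp only [map_mul, rho_star, star_mul, star_star, mul_assoc, ld_u (rho_unitary hu),
        ld_u (rho_unitary hd)]))
    (h4 _ _ (by simp only [map_mul, rho_star]) (by simp only [map_mul, rho_star]))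
  exact ld_conj h5 (mul_mem (ld_st hd) hv) (by
    simp only [star_mul, star_star, mul_assoc, ld_u hu, ld_u hv, ld_u hd, mul_one])

/-- Three rows, two columns. -/
theorem ld_alg35 {a b c d u v : HO} (ha : a ∈ unitary HO) (hb : b ∈ unitary HO)
    (hc : c ∈ unitary HO) (hd : d ∈ unitary HO) (hu : u ∈ unitary HO) (hv : v ∈ unitary HO)
    (h1 : Gd (star v * u * star a * b)) (h2 : Gd (star v * u * star c * d))
    (h3 : Gd (star (rho d) * rho c * star (rho a) * rho b))
    (h4 : ∀ p q : Lam, p = rho u * star (rho a) * rho b * star (rho v) →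
      q = rho u * star (rho c) * rho d * star (rho v) → p * p + p + 1 = 0 → p * q ≠ 1) :
    Gd (star d * c * star a * b) := by
  have h5 := gd_mul_star (ld_cr hu (ld_st ha) hb (ld_st hv)) (ld_cr hu (ld_st hc) hd (ld_st hv))
    (ld_conj h1 hv (by simp only [mul_assoc, ld_u hv]))
    (ld_conj h2 hv (by simp only [mul_assoc, ld_u hv]))
    (ld_conj h3 (rho_unitary (mul_mem (mul_mem hu (ld_st hc)) hd)) (by
      simp only [map_mul, rho_star, star_mul, star_star, mul_assoc, ld_u (rho_unitary hv),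
        ld_u (rho_unitary hd), ld_u (rho_unitary hc)]))
    (h4 _ _ (by simp only [map_mul, rho_star]) (by simp only [map_mul, rho_star]))
  exact ld_conj h5 (mul_mem (mul_mem (ld_st hd) hc) (ld_st hu)) (by
    simp only [star_mul, star_star, mul_assoc, ld_u hu, ld_u hv, ld_u hd, ld_u hc, mul_one])

/-- A bad block that becomes good after the pivot forces the two cross ratios to agree. -/
theorem ld_force {a b c d β : HO} (ha : a ∈ unitary HO) (hb : b ∈ unitary HO)
    (hc : c ∈ unitary HO) (hd : d ∈ unitary HO) (hβ : β ∈ unitary HO) (g : Gd β) (h1 : β ≠ 1)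
    (bad : Gd (-(star d * c * star a * b))) (good : Gd (star d * c * star (star β * a) * b)) :
    rho b * star (rho d) * rho c * star (rho a) = rho β := by
  have h2 := gd_force (ld_st hβ) (ld_neg (ld_cr hb (ld_st hd) hc (ld_st ha))) g.star
    (fun h => h1 (by simpa using congrArg star h))
    (ld_conj bad hb (by simp only [mul_assoc, ld_u hb, mul_neg, neg_mul, mul_one]))
    (ld_conj good hb (by
      simp only [mul_assoc, ld_u hb, neg_mul, mul_one, neg_neg, star_mul, star_star]))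
  have h3 : ∀ x : Lam, -x = x := by decide +kernel
  rw [star_star] at h2
  rw [← h2, map_neg, h3]
  simp only [map_mul, rho_star]

variable {E : Type} [Fintype E] {M : Matroid E} {T : Set E → Matrix E E Lam}

theorem Glue.symm {e f : E} {Se Sf : Set E → Matrix E E HO} (h : Glue M T e f Se Sf) :
    Glue M T f e Sf Se :=
  ⟨h.tab, h.ne.symm, h.hf, h.he, h.base.imp fun _ h => ⟨h.1, h.2.2, h.2.1⟩, h.lf, h.le,
    fun X hX h1 h2 b z h3 h4 => (h.agree X hX h2 h1 b z h4 h3).symm⟩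

theorem ld_adj (hT : TabP Un M T) {B : Set E} (hB : M.IsBase B) {x w : E} (hw : w ∉ B) {u : Lam}
    (hu : u ∈ unitary Lam) (e : T B x w = u) : Adj M B x w :=
  (hT.ne_zero_iff hB hw).1 fun h0 => absurd (h0 ▸ e ▸ hu : (0 : Lam) ∈ unitary Lam) (by decide)

omit [Fintype E] in
theorem ld_nmem {X : Set E} {g y w : E} (hw : w ∉ X) (hy : w ≠ y) : w ∉ ex X g y :=
  fun h => (mem_ex.1 h).elim hy fun h => hw h.1

omit [Fintype E] in
theorem ld_ne {X : Set E} {x y w : E} (h1 : Adj M X x y) (h2 : ¬ Adj M X x w) : y ≠ w :=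
  fun h => h2 (h ▸ h1)

/-- The six-element configuration with equal cross ratios of order three is excluded. -/
theorem ld_q6 (hH : Hyp M T) {X : Set E} (hX : M.IsBase X) {g z k y e f : E}
    (gy : Adj M X g y) (ge : Adj M X g e) (gf : Adj M X g f) (zy : Adj M X z y)
    (ze : Adj M X z e) (zf : ¬ Adj M X z f) (ky : ¬ Adj M X k y) (ke : Adj M X k e)
    (kf : Adj M X k f) (zg : z ≠ g) {β : Lam}
    (h1 : T X g y * star (T X z y) * T X z e * star (T X g e) = β)
    (h2 : T X g f * star (T X k f) * T X k e * star (T X g e) = β) (h3 : β * β + β + 1 = 0) :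
    False := by
  have hT := hH.tab
  have kg : k ≠ g := fun h => ky (h ▸ gy)
  have A := hT.prop hX gy
  have B := hT.prop hX ge
  have C := hT.prop hX gf
  have D := hT.prop hX zy
  have F := hT.prop hX ze
  have G := hT.prop hX ke
  have H := hT.prop hX kf
  have hβ : β ∈ unitary Lam := h1 ▸ ld_cr A (ld_st D) F (ld_st B)
  have b1 : ∀ β : Lam, β ∈ unitary Lam → β * β + β + 1 = 0 → 1 - β = star β ∧ 1 - star β = β ∧
      -(β * β) * -(β * β) + -(β * β) + 1 = 0 ∧ -(β * β) * β = 1 := by decide +kernel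
  obtain ⟨b1, b2, b3, b4⟩ := b1 β hβ h3
  have p := fun x hx hxg w => hT.pivot_star hX ge (x := x) hx hxg w
  have e1 : T (ex X g e) z g = -(T X z e * star (T X g e)) := by
    rw [p z ze.1 zg, hT.off hX ge.1 zg, hT.diag _ hX g ge.1, zero_sub, mul_one]
  have e2 : T (ex X g e) k g = -(T X k e * star (T X g e)) := by
    rw [p k ke.1 kg, hT.off hX ge.1 kg, hT.diag _ hX g ge.1, zero_sub, mul_one]
  have e3 : T (ex X g e) z y = T X z y * star (T X g y) * star β * T X g y := by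
    rw [p z ze.1 zg, ← b1, ← h1]
    simp only [mul_sub, sub_mul, mul_assoc, ld_u A, ld_u D, mul_one]
  have e4 : T (ex X g e) k y = -(T X k e * star (T X g e) * T X g y) := by
    rw [p k ke.1 kg, hT.eq_zero hX gy.2.1 ky, zero_sub]
  have e5 : T (ex X g e) z f = -(T X z e * star (T X g e) * T X g f) := by
    rw [p z ze.1 zg, hT.eq_zero hX gf.2.1 zf, zero_sub]
  have e6 : T (ex X g e) k f = -(T X k e * star (T X g e) * β * T X g f) := by
    rw [p k ke.1 kg, ← b2, ← h2]
    simp only [mul_sub, sub_mul, mul_assoc, ld_u B, ld_u C, ld_u G, mul_one, star_mul,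
      star_star, neg_sub]
  have ng : g ∉ ex X g e := (ge.symm_ex hX).2.1
  have ny : y ∉ ex X g e := ld_nmem gy.2.1 (ld_ne ke ky).symm
  have nf : f ∉ ex X g e := ld_nmem gf.2.1 (ld_ne ze zf).symm
  refine hH.nz25 _ ge.2.2 z k g y f
    (ld_adj hT ge.2.2 ng (ld_neg (mul_mem F (ld_st B))) e1)
    (ld_adj hT ge.2.2 ng (ld_neg (mul_mem G (ld_st B))) e2)
    (ld_adj hT ge.2.2 ny (ld_cr D (ld_st A) (ld_st hβ) A) e3)
    (ld_adj hT ge.2.2 ny (ld_neg (mul_mem (mul_mem G (ld_st B)) A)) e4)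
    (ld_adj hT ge.2.2 nf (ld_neg (mul_mem (mul_mem F (ld_st B)) C)) e5)
    (ld_adj hT ge.2.2 nf (ld_neg (ld_cr G (ld_st B) hβ C)) e6) _ β ?_ ?_ b3 b4
  · rw [e1, e2, e3, e4]
    nth_rewrite 2 [← h1]
    simp only [mul_assoc, ld_u A, ld_u B, ld_u G, star_mul, star_star, star_neg, mul_neg, neg_mul,
      neg_neg]
  · rw [e1, e2, e5, e6]
    simp only [mul_assoc, ld_u B, ld_u C, ld_u F, ld_u G, star_mul, star_star, star_neg, mul_neg,
      neg_mul, neg_neg, mul_one]

/-- The seven-element configuration is excluded. -/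
theorem ld_f7 (hH : Hyp M T) {X : Set E} (hX : M.IsBase X) {g z k y y' e f : E}
    (gy : Adj M X g y) (ge : Adj M X g e) (gf : Adj M X g f) (zy : Adj M X z y)
    (ze : Adj M X z e) (zf : ¬ Adj M X z f) (ky : ¬ Adj M X k y) (ke : Adj M X k e)
    (kf : Adj M X k f) (gy' : ¬ Adj M X g y') (zy' : Adj M X z y') (ky' : Adj M X k y')
    (h1 : T X g y * star (T X z y) * T X z e * star (T X g e) = 1)
    (h2 : T X k y' * star (T X z y') * T X z e * star (T X k e) = 1) : False := by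
  have hT := hH.tab
  have kg : k ≠ g := fun h => ky (h ▸ gy)
  have zg : z ≠ g := fun h => zf (h ▸ gf)
  have zk : z ≠ k := fun h => zf (h ▸ kf)
  have A := hT.prop hX gy
  have B := hT.prop hX ge
  have C := hT.prop hX gf
  have D := hT.prop hX zy
  have F := hT.prop hX ze
  have G := hT.prop hX ke
  have H := hT.prop hX kf
  have I := hT.prop hX zy'
  have J := hT.prop hX ky'
  have d1 := ld_solve A D h1
  have d2 := ld_solve J I h2
  have n2 : ∀ x : Lam, -x - x = 0 := by decide +kernel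
  by_cases hc : T X k f = T X k e * star (T X g e) * T X g f
  · have k1 : Adj M (ex X g y) k y' :=
      (hT.adj_pivot_same hX gy ky'.1 kg (fun h : y' = g => ky'.2.1 (h ▸ gy.1)) (ld_ne ky' ky)
        (Or.inl ky)).2 ky'
    have h7 := hH.f7 X hX g z k y y' e f gy zy ky gy' zy' ky' ge ze ke gf zf kf
      (fun h => hT.ne_zero gy.2.2 h (by
        rw [hT.pivot_star hX gy ze.1 zg, d1]
        simp only [mul_assoc, ld_u A, ld_u B, mul_one, sub_self]))
      (fun h => hT.ne_zero ky'.2.2 h (by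
        rw [hT.pivot_star hX ky' ze.1 zk, d2]
        simp only [mul_assoc, ld_u J, ld_u G, mul_one, sub_self]))
      (fun h => hT.ne_zero ge.2.2 h (by rw [hT.pivot_star hX ge ke.1 kg, hc, sub_self]))
    refine hT.ne_zero k1.2.2 h7 ?_
    rw [hT.pivot_star gy.2.2 k1 (mem_ex.2 (Or.inr ⟨ze.1, zg⟩)) zk]
    simp only [hT.pivot_star hX gy ze.1 zg, hT.pivot_star hX gy ke.1 kg]
    rw [hT.eq_zero hX gy.2.1 ky, hT.eq_zero hX ky'.2.1 gy', hT.eq_zero hX gf.2.1 zf, d1, d2, hc]
    simp only [mul_assoc, ld_u A, ld_u J, ld_u G, zero_mul, mul_zero, sub_zero, zero_sub, one_mul,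
      n2]
  · obtain ⟨δ, hδ⟩ : ∃ δ, δ = star (T X k y') * (T X k f * star (T X g f) * T X g e *
      star (T X k e)) * T X k y' := ⟨_, rfl⟩
    have hu : δ ∈ unitary Lam := hδ ▸ mul_mem (mul_mem (ld_st J) (ld_cr H (ld_st C) B (ld_st G))) J
    have gd : Gd δ := ld_conj (hT.gd hX gf ke kg.symm) (mul_mem (ld_st J) G) (by
      simp only [hδ, mul_assoc, star_mul, star_star, ld_u G])
    have n1 : δ ≠ 1 := fun h => hc (by
      have : T X k f = T X k y' * δ * star (T X k y') * (T X k e * star (T X g e) * T X g f) := by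
        simp only [hδ, mul_assoc, ld_u J, ld_u G, ld_u B, ld_u C, mul_one]
      rw [this, h, mul_one, (ld_u J).1, one_mul])
    have b1 : ∀ δ : Lam, δ ∈ unitary Lam → Gd δ → δ ≠ 1 → 1 - δ ∈ unitary Lam ∧
        -δ * -δ + -δ + 1 = 0 ∧ -δ * (1 - δ) = 1 := by decide +kernel
    obtain ⟨b1, b2, b3⟩ := b1 δ hu gd n1
    have p := fun w => hT.pivot_star hX gf ke.1 kg w
    have q : ∀ w, T (ex X g f) z w = T X z w := fun w => by
      rw [hT.pivot_star hX gf ze.1 zg, hT.eq_zero hX gf.2.1 zf, zero_mul, zero_mul, sub_zero]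
    have e1 : T (ex X g f) k y' = T X k y' := by
      rw [p, hT.eq_zero hX ky'.2.1 gy', mul_zero, sub_zero]
    have e2 : T (ex X g f) k y = -(T X k f * star (T X g f) * T X g y) := by
      rw [p, hT.eq_zero hX gy.2.1 ky, zero_sub]
    have e3 : T (ex X g f) k e = T X k y' * (1 - δ) * star (T X k y') * T X k e := by
      rw [p, hδ]
      simp only [mul_sub, sub_mul, mul_assoc, ld_u J, ld_u G, mul_one, one_mul]
    have ny' : y' ∉ ex X g f := ld_nmem ky'.2.1 (ld_ne zy' zf)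
    have ny : y ∉ ex X g f := ld_nmem gy.2.1 (ld_ne zy zf)
    have ne : e ∉ ex X g f := ld_nmem ge.2.1 (ld_ne ze zf)
    refine hH.nz25 _ gf.2.2 z k y' y e (ld_adj hT gf.2.2 ny' I (q _)) (ld_adj hT gf.2.2 ny' J e1)
      (ld_adj hT gf.2.2 ny D (q _))
      (ld_adj hT gf.2.2 ny (ld_neg (mul_mem (mul_mem H (ld_st C)) A)) e2)
      (ld_adj hT gf.2.2 ne F (q _)) (ld_adj hT gf.2.2 ne (ld_cr J b1 (ld_st J) G) e3)
      _ _ ?_ ?_ b2 b3
    · rw [e1, e2, q, q, hδ, d1, d2]
      simp only [mul_assoc, ld_u A, ld_u F, star_mul, star_star, mul_neg, neg_mul]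
    · rw [e1, e3, q, q, d2]
      simp only [mul_assoc, ld_u J, ld_u F, ld_u G, mul_one]

section Lift

variable {S : Set E → Matrix E E HO} {f : E} {X : Set E}

omit [Fintype E] in
theorem ld_base (hX : M.IsBase X) (hf : f ∉ X) : (M ＼ {f}).IsBase X :=
  (isBase_delete_iff hX (disjoint_singleton_right.2 hf)).2 ⟨hX, disjoint_singleton_right.2 hf⟩

omit [Fintype E] in
theorem ld_del (hX : M.IsBase X) (hf : f ∉ X) {x w : E} (hw : w ≠ f) :
    Adj (M ＼ {f}) X x w ↔ Adj M X x w :=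
  (adj_delete hX (disjoint_singleton_right.2 hf)).trans (and_iff_left hw)

variable (hl : IsLift (M ＼ {f}) (delT {f} T) S) (hX : M.IsBase X) (hf : f ∉ X)
include hl hX hf

theorem ld_un {x w : E} (ha : Adj M X x w) (hw : w ≠ f) : S X x w ∈ unitary HO :=
  hl.tab.prop (ld_base hX hf) ((ld_del hX hf hw).2 ha)

theorem ld_zero {x w : E} (hwX : w ∉ X) (ha : ¬ Adj M X x w) (hw : w ≠ f) : S X x w = 0 :=
  hl.tab.eq_zero (ld_base hX hf) hwX fun h => ha ((ld_del hX hf hw).1 h)

theorem ld_red (x : E) {w : E} (hw : w ≠ f) : rho (S X x w) = T X x w :=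
  (hl.red X (ld_base hX hf) x w).trans (delT_apply T X x hw)

theorem ld_piv {z y x : E} (ha : Adj M X z y) (hy : y ≠ f) (hx : x ∈ X) (hxz : x ≠ z) (w : E) :
    S (ex X z y) x w = S X x w - S X x y * star (S X z y) * S X z w :=
  hl.tab.pivot_star (ld_base hX hf) ((ld_del hX hf hy).2 ha) hx hxz w

theorem ld_same {z y x w : E} (ha : Adj M X z y) (hy : y ≠ f) (hx : x ∈ X) (hxz : x ≠ z)
    (hw : w ≠ f) (hwX : w ∉ X) (hn : ¬ Adj M X x y ∨ ¬ Adj M X z w) :
    S (ex X z y) x w = S X x w := by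
  rw [ld_piv hl hX hf ha hy hx hxz]
  rcases hn with hn | hn
  · rw [ld_zero hl hX hf ha.2.1 hn hy, zero_mul, zero_mul, sub_zero]
  · rw [ld_zero hl hX hf hwX hn hw, mul_zero, sub_zero]

theorem ld_gd {g k a b : E} (h1 : Adj M X g a) (h2 : Adj M X k b) (ha : a ≠ f) (hb : b ≠ f)
    (hgk : g ≠ k) : Gd (star (S X k b) * S X k a * star (S X g a) * S X g b) :=
  hl.tab.gd (ld_base hX hf) ((ld_del hX hf ha).2 h1) ((ld_del hX hf hb).2 h2) hgk

end Lift

variable {e f : E} {Se Sf : Set E → Matrix E E HO} {X : Set E} {g k : E}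

/-- A full block in the columns `e`, `f`. -/
structure LDFull (M : Matroid E) (e f : E) (X : Set E) (g k : E) : Prop where
  base : M.IsBase X
  ge : Adj M X g e
  gf : Adj M X g f
  ke : Adj M X k e
  kf : Adj M X k f
  ne : g ≠ k

/-- The cross ratio of a block. -/
def ldCr (e f : E) (Se Sf : Set E → Matrix E E HO) (X : Set E) (g k : E) : HO :=
  star (Sf X k f) * Se X k e * star (Se X g e) * Sf X g f

theorem ld_gd_red (h : Glue M T e f Se Sf) (b : LDFull M e f X g k) :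
    Gd (star (rho (Sf X k f)) * rho (Se X k e) * star (rho (Se X g e)) * rho (Sf X g f)) := by
  simp only [ld_red h.le b.base b.gf.2.1 _ h.ne, ld_red h.lf b.base b.ge.2.1 _ h.ne.symm]
  exact h.tab.gd b.base b.ge b.kf b.ne

/-- Distance two. -/
theorem ld_one (hH : Hyp M T) (h : Glue M T e f Se Sf) (b : LDFull M e f X g k) {y : E}
    (gy : Adj M X g y) (ky : Adj M X k y) (ye : y ≠ e) (yf : y ≠ f) :
    Gd (ldCr e f Se Sf X g k) := by
  have he := b.ge.2.1
  have hf := b.gf.2.1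
  have u := fun x w => ld_un h.le b.base hf (x := x) (w := w)
  have v := fun x w => ld_un h.lf b.base he (x := x) (w := w)
  refine ld_alg25 (u _ _ b.ge h.ne) (v _ _ b.gf h.ne.symm) (u _ _ b.ke h.ne) (v _ _ b.kf h.ne.symm)
    (u _ _ gy yf) (u _ _ ky yf) (ld_gd h.le b.base hf b.ge ky h.ne yf b.ne) ?_ (ld_gd_red h b) ?_
  · rw [h.agree X b.base he hf g y ye yf, h.agree X b.base he hf k y ye yf]
    exact ld_gd h.lf b.base he b.gf ky h.ne.symm ye b.ne
  · simp only [ld_red h.le b.base hf _ h.ne, ld_red h.lf b.base he _ h.ne.symm,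
      ld_red h.le b.base hf _ yf]
    exact hH.nz25 X b.base g k y e f gy ky b.ge b.ke b.gf b.kf

/-- A pivot that does not change the block. -/
theorem ld_pivot (h : Glue M T e f Se Sf) (b : LDFull M e f X g k) {z y : E} (zy : Adj M X z y)
    (ye : y ≠ e) (yf : y ≠ f) (zg : z ≠ g) (zk : z ≠ k)
    (hn : (¬ Adj M X g y ∧ ¬ Adj M X k y) ∨ (¬ Adj M X z e ∧ ¬ Adj M X z f)) :
    LDFull M e f (ex X z y) g k ∧ ldCr e f Se Sf (ex X z y) g k = ldCr e f Se Sf X g k := by
  have he := b.ge.2.1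
  have hf := b.gf.2.1
  have ez : e ≠ z := fun h' => he (h' ▸ zy.1)
  have fz : f ≠ z := fun h' => hf (h' ▸ zy.1)
  have a := fun x w hx hxz hwz hwy hn =>
    (h.tab.adj_pivot_same b.base zy (x := x) (w := w) hx hxz hwz hwy hn).2
  refine ⟨⟨zy.2.2, a _ _ b.ge.1 zg.symm ez ye.symm (by tauto) b.ge,
    a _ _ b.ge.1 zg.symm fz yf.symm (by tauto) b.gf,
    a _ _ b.ke.1 zk.symm ez ye.symm (by tauto) b.ke,
    a _ _ b.ke.1 zk.symm fz yf.symm (by tauto) b.kf, b.ne⟩, ?_⟩
  rw [ldCr, ld_same h.le b.base hf zy yf b.ge.1 zg.symm h.ne he (by tauto),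
    ld_same h.le b.base hf zy yf b.ke.1 zk.symm h.ne he (by tauto),
    ld_same h.lf b.base he zy ye b.ge.1 zg.symm h.ne.symm hf (by tauto),
    ld_same h.lf b.base he zy ye b.ke.1 zk.symm h.ne.symm hf (by tauto), ldCr]

/-- After the pivot on `z y` the rows `g`, `k` have the common neighbour `y'`. -/
theorem ld_after (hT : TabP Un M T) (hX : M.IsBase X) {z y y' : E} (gy : Adj M X g y)
    (zy : Adj M X z y) (zy' : Adj M X z y') (ky' : Adj M X k y') (ky : ¬ Adj M X k y)
    (gy' : ¬ Adj M X g y') : Adj M (ex X z y) g y' ∧ Adj M (ex X z y) k y' :=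
  ⟨hT.adj_pivot_new hX zy gy (fun h => gy' (h ▸ zy')) zy' gy',
    (hT.adj_pivot_same hX zy ky'.1 (fun h => ky (h ▸ zy)) (fun h : y' = z => zy'.2.1 (h ▸ zy.1))
      (ld_ne ky' ky) (Or.inl ky)).2 ky'⟩

/-- In a bad block at distance four the first cross ratio is trivial. -/
theorem ld_triv (hH : Hyp M T) (h : Glue M T e f Se Sf) (b : LDFull M e f X g k) {z y y' : E}
    (gy : Adj M X g y) (zy : Adj M X z y) (zy' : Adj M X z y') (ky' : Adj M X k y')
    (ky : ¬ Adj M X k y) (gy' : ¬ Adj M X g y') (ze : Adj M X z e) (zf : ¬ Adj M X z f)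
    (bad : Gd (-ldCr e f Se Sf X g k)) :
    T X g y * star (T X z y) * T X z e * star (T X g e) = 1 := by
  have he := b.ge.2.1
  have hf := b.gf.2.1
  have ye : y ≠ e := (ld_ne b.ke ky).symm
  have yf : y ≠ f := ld_ne zy zf
  have zg : z ≠ g := fun h => zf (h ▸ b.gf)
  have zk : z ≠ k := fun h => zf (h ▸ b.kf)
  have u := fun x w => ld_un h.le b.base hf (x := x) (w := w)
  have v := fun x w => ld_un h.lf b.base he (x := x) (w := w)
  have A := u _ _ gy yf
  have B := u _ _ b.ge h.ne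
  obtain ⟨β, hβ⟩ : ∃ β, β = Se X g y * star (Se X z y) * Se X z e * star (Se X g e) := ⟨_, rfl⟩
  have hr : T X g y * star (T X z y) * T X z e * star (T X g e) = rho β := by
    simp only [hβ, map_mul, rho_star, ld_red h.le b.base hf _ h.ne, ld_red h.le b.base hf _ yf]
  have hu : β ∈ unitary HO := hβ ▸ ld_cr A (ld_st (u _ _ zy yf)) (u _ _ ze h.ne) (ld_st B)
  have gd : Gd β := ld_conj (ld_gd h.le b.base hf b.ge zy h.ne yf zg.symm) A (by
    simp only [hβ, mul_assoc, ld_u A, mul_one])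
  by_cases h1 : β = 1
  · rw [hr, h1, map_one]
  exfalso
  obtain ⟨h2, h3⟩ := gd_ne_one hu gd h1
  have e1 : Se (ex X z y) g e = star β * Se X g e := by
    rw [ld_piv h.le b.base hf zy yf gy.1 zg.symm, ← h2, hβ]
    simp only [sub_mul, mul_assoc, ld_u B, mul_one, one_mul]
  have ne := ld_nmem (g := z) he ye.symm
  have nf := ld_nmem (g := z) hf yf.symm
  have fz : f ≠ z := fun h' => hf (h' ▸ zy.1)
  have a := fun x w hx hxz hwz hwy hn =>
    (h.tab.adj_pivot_same b.base zy (x := x) (w := w) hx hxz hwz hwy hn).2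
  have b' : LDFull M e f (ex X z y) g k :=
    ⟨zy.2.2, ld_adj h.tab zy.2.2 ne (rho_unitary (mul_mem (ld_st hu) B))
      (by rw [← ld_red h.le zy.2.2 nf _ h.ne, e1]),
      a _ _ gy.1 zg.symm fz yf.symm (Or.inr zf) b.gf,
      a _ _ b.ke.1 zk.symm (fun h' => he (h' ▸ zy.1)) ye.symm (Or.inl ky) b.ke,
      a _ _ b.ke.1 zk.symm fz yf.symm (Or.inl ky) b.kf, b.ne⟩
  obtain ⟨n1, n2⟩ := ld_after h.tab b.base gy zy zy' ky' ky gy'
  have h4 := ld_one hH h b' n1 n2 (ld_ne b.ge gy').symm (ld_ne zy' zf)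
  rw [ldCr, e1, ld_same h.le b.base hf zy yf b.ke.1 zk.symm h.ne he (Or.inl ky),
    ld_same h.lf b.base he zy ye b.ge.1 zg.symm h.ne.symm hf (Or.inr zf),
    ld_same h.lf b.base he zy ye b.ke.1 zk.symm h.ne.symm hf (Or.inr zf)] at h4
  have h5 := ld_force B (v _ _ b.gf h.ne.symm) (u _ _ b.ke h.ne) (v _ _ b.kf h.ne.symm) hu gd h1
    bad h4
  simp only [ld_red h.le b.base hf _ h.ne, ld_red h.lf b.base he _ h.ne.symm] at h5
  exact ld_q6 hH b.base gy b.ge b.gf zy ze zf ky b.ke b.kf zg hr h5 h3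

/-- Distance four, the middle row meeting only the column `e`. -/
theorem ld_mixed (hH : Hyp M T) (h : Glue M T e f Se Sf) (b : LDFull M e f X g k) {z y y' : E}
    (gy : Adj M X g y) (zy : Adj M X z y) (zy' : Adj M X z y') (ky' : Adj M X k y')
    (ky : ¬ Adj M X k y) (gy' : ¬ Adj M X g y') (ze : Adj M X z e) (zf : ¬ Adj M X z f) :
    Gd (ldCr e f Se Sf X g k) := by
  have u := fun x w => ld_un h.le b.base b.gf.2.1 (x := x) (w := w)
  have v := fun x w => ld_un h.lf b.base b.ge.2.1 (x := x) (w := w)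
  refine (gd_or_neg (ld_cr (ld_st (v _ _ b.kf h.ne.symm)) (u _ _ b.ke h.ne)
    (ld_st (u _ _ b.ge h.ne)) (v _ _ b.gf h.ne.symm)) ?_).resolve_right fun bad => ?_
  · simpa only [map_mul, rho_star] using ld_gd_red h b
  · refine ld_f7 hH b.base gy b.ge b.gf zy ze zf ky b.ke b.kf gy' zy' ky'
      (ld_triv hH h b gy zy zy' ky' ky gy' ze zf bad)
      (ld_triv hH h ⟨b.base, b.ke, b.kf, b.ge, b.gf, b.ne.symm⟩ ky' zy' zy gy gy' ky ze zf ?_)
    simpa only [ldCr, star_neg, star_mul, star_star, mul_assoc] using bad.star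

/-- Distance four. -/
theorem ld_two (hH : Hyp M T) (h : Glue M T e f Se Sf) (b : LDFull M e f X g k) {z y y' : E}
    (gy : Adj M X g y) (zy : Adj M X z y) (zy' : Adj M X z y') (ky' : Adj M X k y')
    (ky : ¬ Adj M X k y) (gy' : ¬ Adj M X g y') : Gd (ldCr e f Se Sf X g k) := by
  have he := b.ge.2.1
  have hf := b.gf.2.1
  have zg : z ≠ g := fun h => gy' (h ▸ zy')
  have zk : z ≠ k := fun h => ky (h ▸ zy)
  have u := fun x => ld_un h.le b.base hf (x := x) (w := e) (hw := h.ne)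
  have v := fun x => ld_un h.lf b.base he (x := x) (w := f) (hw := h.ne.symm)
  by_cases ze : Adj M X z e <;> by_cases zf : Adj M X z f
  · refine ld_alg35 (u _ b.ge) (v _ b.gf) (u _ b.ke) (v _ b.kf) (u _ ze) (v _ zf)
      (ld_one hH h ⟨b.base, b.ge, b.gf, ze, zf, zg.symm⟩ gy zy (ld_ne b.ke ky).symm
        (ld_ne b.kf ky).symm)
      (ld_one hH h ⟨b.base, b.ke, b.kf, ze, zf, zk.symm⟩ ky' zy' (ld_ne b.ge gy').symm
        (ld_ne b.gf gy').symm) (ld_gd_red h b) ?_
    simp only [ld_red h.le b.base hf _ h.ne, ld_red h.lf b.base he _ h.ne.symm]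
    exact hH.nz35 X b.base z g k e f ze zf b.ge b.gf b.ke b.kf
  · exact ld_mixed hH h b gy zy zy' ky' ky gy' ze zf
  · exact ld_swap (u _ b.ke) (v _ b.kf) (ld_mixed hH h.symm
      ⟨b.base, b.gf, b.ge, b.kf, b.ke, b.ne⟩ gy zy zy' ky' ky gy' zf ze)
  · obtain ⟨b', e1⟩ := ld_pivot h b zy (ld_ne b.ke ky).symm (ld_ne b.kf ky).symm zg zk
      (Or.inr ⟨ze, zf⟩)
    obtain ⟨n1, n2⟩ := ld_after h.tab b.base gy zy zy' ky' ky gy'
    exact e1 ▸ ld_one hH h b' n1 n2 (ld_ne b.ge gy').symm (ld_ne b.gf gy').symm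

theorem ld_near (hH : Hyp M T) (h : Glue M T e f Se Sf) (n : ℕ) : ∀ X, LDFull M e f X g k →
    Near (M ＼ {e, f}) X k (n + 2) g → Gd (ldCr e f Se Sf X g k) := by
  have hd : ∀ X, LDFull M e f X g k → Disjoint X {e, f} := fun X b => by
    rw [disjoint_insert_right, disjoint_singleton_right]
    exact ⟨b.ge.2.1, b.gf.2.1⟩
  have ha : ∀ X, LDFull M e f X g k → ∀ x y, Adj (M ＼ {e, f}) X x y ↔
      Adj M X x y ∧ y ≠ e ∧ y ≠ f := fun X b x y => by
    rw [adj_delete b.base (hd X b), mem_insert_iff, mem_singleton_iff, not_or]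
  induction n with
  | zero =>
    intro X b h2
    by_cases h1 : Near (M ＼ {e, f}) X k 1 g
    · rcases h1 with h0 | ⟨y, x, h0, gy, ky⟩
      · exact absurd h0 b.ne
      · obtain rfl : x = k := h0
        rw [ha X b] at gy ky
        exact ld_one hH h b gy.1 ky.1 gy.2.1 gy.2.2
    · obtain ⟨z, y, y', gy, zy, zy', ky', ky, gy', -⟩ := near_two h2 h1
      rw [ha X b] at gy zy zy' ky' ky gy'
      exact ld_two hH h b gy.1 zy.1 zy'.1 ky'.1 (fun h => ky ⟨h, gy.2⟩) fun h => gy' ⟨h, zy'.2⟩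
  | succ n ih =>
    intro X b h3
    by_cases h2 : Near (M ＼ {e, f}) X k (n + 2) g
    · exact ih X b h2
    have hc : M.Coindep {e, f} := Matroid.coindep_iff_exists'.2
      ⟨⟨X, b.base, subset_sdiff.2 ⟨b.base.subset_ground, hd X b⟩⟩,
        insert_subset h.he (singleton_subset_iff.2 h.hf)⟩
    obtain ⟨z, y, zy, zg, zk, gy, ky, h4⟩ := (h.tab.delete_coindep hc).shorten
      ((isBase_delete_iff b.base (hd X b)).2 ⟨b.base, hd X b⟩) b.ke.1 h3 h2
    rw [ha X b] at zy gy ky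
    obtain ⟨b', e1⟩ := ld_pivot h b zy.1 zy.2.1 zy.2.2 zg zk
      (Or.inl ⟨fun h => gy ⟨h, zy.2⟩, fun h => ky ⟨h, zy.2⟩⟩)
    exact e1 ▸ ih _ b' h4

theorem Glue.blocks (hH : Hyp M T) {e f : E} {Se Sf : Set E → Matrix E E HO}
    (h : Glue M T e f Se Sf)
    (hj : ∀ X, M.IsBase X → ∀ g k, Adj M X g e → Adj M X g f → Adj M X k e → Adj M X k f →
      Joined (M ＼ {e, f}) g k) : Blocks M e f Se Sf := by
  intro X hX g k ge gf ke kf hne
  have hd : Disjoint X {e, f} := by
    rw [disjoint_insert_right, disjoint_singleton_right]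
    exact ⟨ge.2.1, gf.2.1⟩
  obtain ⟨n, hn⟩ := near_of_joined ((isBase_delete_iff hX hd).2 ⟨hX, hd⟩) ge.1 ke.1
    (hj X hX g k ge gf ke kf)
  exact ld_near hH h n X ⟨hX, ge, gf, ke, kf, hne⟩ (hn.mono (Nat.le_add_right _ _))

end Pool.Agent.Lib.MP_10bdcf_co.G
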