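import Pool.Agent.Lib.MP_10bdcf_co.GT
import Pool.Agent.Lib.MP_10bdcf_co.GH

/-!
Definitions for the lifting theorem from the Hurwitz order modulo 2 to the Hurwitz order.
-/

namespace Pool.Agent.Lib.MP_10bdcf_co.G

open scoped Matroid
open Matrix Set

variable {E : Type}

/-- The predicate on entries: unitary elements. -/
abbrev Un {R : Type} [Ring R] [StarRing R] (x : R) : Prop := x ∈ unitary R

/-- The star as an additive map. -/
def starHom (R : Type) [Ring R] [StarRing R] : R →+ R := (starAddEquiv : R ≃+ R).toAddMonoidHom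

@[simp] theorem starHom_apply {R : Type} [Ring R] [StarRing R] (x : R) : starHom R x = star x := rfl

/-- No degenerate five-point line: rows `g h`, columns `y e f`. -/
def NZ25 (M : Matroid E) (T : Set E → Matrix E E Lam) : Prop :=
  ∀ B, M.IsBase B → ∀ g h y e f, Adj M B g y → Adj M B h y → Adj M B g e → Adj M B h e →
    Adj M B g f → Adj M B h f → ∀ p q : Lam,
    p = star (T B h y) * T B h e * star (T B g e) * T B g y →
    q = star (T B h y) * T B h f * star (T B g f) * T B g y → p * p + p + 1 = 0 → p * q ≠ 1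

/-- The dual condition: rows `z g h`, columns `e f`. -/
def NZ35 (M : Matroid E) (T : Set E → Matrix E E Lam) : Prop :=
  ∀ B, M.IsBase B → ∀ z g h e f, Adj M B z e → Adj M B z f → Adj M B g e → Adj M B g f →
    Adj M B h e → Adj M B h f → ∀ p q : Lam,
    p = T B z e * star (T B g e) * T B g f * star (T B z f) →
    q = T B z e * star (T B h e) * T B h f * star (T B z f) → p * p + p + 1 = 0 → p * q ≠ 1

/-- No Fano minor, written in the fundamental graph of a base. -/
def NoF7 (M : Matroid E) : Prop :=
  ∀ B, M.IsBase B → ∀ g z h y1 y2 e f, Adj M B g y1 → Adj M B z y1 → ¬ Adj M B h y1 →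
    ¬ Adj M B g y2 → Adj M B z y2 → Adj M B h y2 → Adj M B g e → Adj M B z e → Adj M B h e →
    Adj M B g f → ¬ Adj M B z f → Adj M B h f →
    ¬ Adj M (ex B g y1) z e → ¬ Adj M (ex B h y2) z e → ¬ Adj M (ex B g e) h f →
    Adj M (ex (ex B g y1) h y2) z f

/-- The hypotheses of the lifting theorem. -/
structure Hyp [Fintype E] (M : Matroid E) (T : Set E → Matrix E E Lam) : Prop where
  tab : TabP Un M T
  nz25 : NZ25 M T
  nz35 : NZ35 M T
  f7 : NoF7 M
  f7d : NoF7 M✶

/-- `S` is a system over the Hurwitz order that reduces to `T`. -/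
structure IsLift [Fintype E] (M : Matroid E) (T : Set E → Matrix E E Lam)
    (S : Set E → Matrix E E HO) : Prop where
  tab : TabP Un M S
  red : ∀ B, M.IsBase B → ∀ b e, rho (S B b e) = T B b e

/-- Rows within `j` steps of the row `h` in the fundamental graph of `X`. -/
def Near (N : Matroid E) (X : Set E) (h : E) : ℕ → E → Prop
  | 0, x => x = h
  | (j + 1), x => Near N X h j x ∨ ∃ y x', Near N X h j x' ∧ Adj N X x y ∧ Adj N X x' y

/-- All bases meet `S` in the same number of elements. -/
def Sep (N : Matroid E) (S : Set E) : Prop :=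
  ∀ B B', N.IsBase B → N.IsBase B' → (B ∩ S).ncard = (B' ∩ S).ncard

/-- No separator separates `a` from `b`. -/
def Joined (N : Matroid E) (a b : E) : Prop := ∀ S, Sep N S → (a ∈ S ↔ b ∈ S)

/-- The symmetric adjacency relation of the fundamental graph. -/
def SAdj (M : Matroid E) (X : Set E) (a b : E) : Prop := Adj M X a b ∨ Adj M X b a

/-- The data of a gluing along two deleted columns `e`, `f`. -/
structure Glue [Fintype E] (M : Matroid E) (T : Set E → Matrix E E Lam) (e f : E)
    (Se Sf : Set E → Matrix E E HO) : Prop where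
  tab : TabP Un M T
  ne : e ≠ f
  he : e ∈ M.E
  hf : f ∈ M.E
  base : ∃ X, M.IsBase X ∧ e ∉ X ∧ f ∉ X
  le : IsLift (M ＼ {f}) (delT {f} T) Se
  lf : IsLift (M ＼ {e}) (delT {e} T) Sf
  agree : ∀ X, M.IsBase X → e ∉ X → f ∉ X → ∀ b z, z ≠ e → z ≠ f → Se X b z = Sf X b z

/-- All full blocks in the columns `e`, `f` have a good cross ratio. -/
def Blocks (M : Matroid E) (e f : E) (Se Sf : Set E → Matrix E E HO) : Prop :=
  ∀ X, M.IsBase X → ∀ g h, Adj M X g e → Adj M X g f → Adj M X h e → Adj M X h f → g ≠ h →
    Gd (star (Sf X h f) * Se X h e * star (Se X g e) * Sf X g f)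

variable {R : Type} [Ring R] [StarRing R] [Fintype E] {M : Matroid E} {T : Set E → Matrix E E R}

theorem TabP.inv_eq_star (h : TabP Un M T) {X : Set E} (hX : M.IsBase X) {g y : E}
    (ha : Adj M X g y) : T (ex X g y) y g = star (T X g y) := by
  have h1 := h.inv_mul hX ha
  have h2 := Unitary.mul_star_self_of_mem (h.prop hX ha)
  calc T (ex X g y) y g = T (ex X g y) y g * (T X g y * star (T X g y)) := by rw [h2, mul_one]
    _ = _ := by rw [← mul_assoc, h1, one_mul]

theorem TabP.pivot_star (h : TabP Un M T) {X : Set E} (hX : M.IsBase X) {g y : E}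
    (ha : Adj M X g y) {x : E} (hx : x ∈ X) (hxg : x ≠ g) (w : E) :
    T (ex X g y) x w = T X x w - T X x y * star (T X g y) * T X g w := by
  rw [h.pivot_old hX ha hx hxg, h.inv_eq_star hX ha]

theorem TabP.pivot_new_star (h : TabP Un M T) {X : Set E} (hX : M.IsBase X) {g y : E}
    (ha : Adj M X g y) (w : E) : T (ex X g y) y w = star (T X g y) * T X g w := by
  rw [h.pivot_new hX ha, h.inv_eq_star hX ha]

/-- Cross ratios of full blocks of a system are good. -/
theorem TabP.gd (h : TabP Un M T) {X : Set E} (hX : M.IsBase X) {g k e f : E}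
    (hge : Adj M X g e) (hkf : Adj M X k f) (hgk : g ≠ k) :
    Gd (star (T X k f) * T X k e * star (T X g e) * T X g f) := by
  have h1 := h.pivot_star hX hge hkf.1 hgk.symm f
  have hu := h.prop hX hkf
  have e1 : 1 - star (T X k f) * T X k e * star (T X g e) * T X g f =
      star (T X k f) * T (ex X g e) k f := by
    rw [h1, mul_sub, Unitary.star_mul_self_of_mem hu]
    simp only [mul_assoc]
  rcases h.mem _ hge.2.2 k f with h0 | h0
  · left; rw [e1, h0, mul_zero]
  · right; rw [e1]; exact mul_mem (Unitary.star_mem hu) h0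

theorem TabP.dual_star [Nontrivial R] (h : TabP Un M T) :
    TabP Un M✶ (dualT (starHom R) M T) :=
  h.dual (starHom R) (fun a b => star_mul a b) (star_one R) (fun _ h => star_eq_zero.1 h)
    (one_mem _) fun a ha => by
      rw [starHom_apply, Un, Unitary.mem_iff] at *
      simpa using ha.symm

end Pool.Agent.Lib.MP_10bdcf_co.G
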