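import Pool.Agent.Lib.MP_10bdcf_co.Defs
import Pool.Agent.Lib.MP_10bdcf_co.GT

/-!
A system of standard representations with entries of norm one gives a QU-matrix.
-/

namespace Pool.Agent.Lib.MP_10bdcf_co.G

open scoped Quaternion Matroid
open Matrix Set

/-- Criterion for a QU-matrix through row reduction. -/
theorem lq_rows {r : ℕ} {E : Type} [Finite E] (A : Matrix (Fin r) E ℍ[ℝ])
    (P : (Fin r → E) → Prop) (h0 : ∃ f, P f)
    (hrow : ∀ f, P f → ∀ i, ∃ y : Fin r → ℍ[ℝ],
      (∀ j, (∑ k, y k * A k (f j)) = if j = i then 1 else 0) ∧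
      ∀ e, ((∑ k, y k * A k e) = 0 ∨
        (‖∑ k, y k * A k e‖ = 1 ∧ P (Function.update f i e)))) :
    IsQUMatrix A ∧ ∀ f, P f → IsUnit (A.submatrix id f) := by
  classical
  have hunit : ∀ f, P f → IsUnit (A.submatrix id f) := by
    intro f hf
    choose y hy using hrow f hf
    have h1 : (Matrix.of y) * (A.submatrix id f) = 1 := by
      refine Matrix.ext fun i j => ?_
      simp only [Matrix.mul_apply, Matrix.of_apply, Matrix.submatrix_apply, id, Matrix.one_apply]
      rw [(hy i).1 j]
      by_cases h : i = j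
      · simp [h]
      · simp [h, Ne.symm h]
    exact IsUnit.of_mul_eq_one_right _ h1
  refine ⟨⟨h0.imp fun f hf => hunit f hf, ?_⟩, hunit⟩
  rintro c ⟨⟨x, hx⟩, hc0, hmin⟩
  -- a basis meeting the zero set of `c` as often as possible
  obtain ⟨f, hf, hmax⟩ : ∃ f, P f ∧ ∀ f', P f' →
      (Finset.univ.filter fun j => c (f' j) = 0).card ≤
        (Finset.univ.filter fun j => c (f j) = 0).card := by
    obtain ⟨f0, hf0⟩ := h0
    have : Finite (Fin r → E) := inferInstance
    obtain ⟨f, hf, hmax⟩ := Set.exists_max_image {f | P f}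
      (fun f => (Finset.univ.filter fun j => c (f j) = 0).card) (Set.toFinite _) ⟨f0, hf0⟩
    exact ⟨f, hf, hmax⟩
  choose y hy using hrow f hf
  set D : Fin r → E → ℍ[ℝ] := fun i e => ∑ k, y i k * A k e with hD
  have h1 : (Matrix.of y) * (A.submatrix id f) = 1 := by
    refine Matrix.ext fun i j => ?_
    simp only [Matrix.mul_apply, Matrix.of_apply, Matrix.submatrix_apply, id, Matrix.one_apply]
    rw [(hy i).1 j]
    by_cases h : i = j
    · simp [h]
    · simp [h, Ne.symm h]
  have h2 : (A.submatrix id f) * (Matrix.of y) = 1 := mul_eq_one_comm.mp h1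
  have hexp : ∀ e, c e = ∑ j, c (f j) * D j e := by
    intro e
    have h3 : ∀ k i, ∑ j, A k (f j) * y j i = if k = i then 1 else 0 := by
      intro k i
      have := congrFun (congrFun h2 k) i
      simpa [Matrix.mul_apply, Matrix.one_apply] using this
    simp only [hx, hD, Finset.sum_mul, Finset.mul_sum]
    rw [Finset.sum_comm]
    refine Finset.sum_congr rfl fun i _ => ?_
    have : ∀ j, ∑ k, x k * A k (f j) * (y j i * A i e) =
        ∑ k, x k * (A k (f j) * y j i) * A i e := by
      intro j; refine Finset.sum_congr rfl fun k _ => ?_; simp only [mul_assoc]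
    simp only [this]
    rw [Finset.sum_comm]
    have : ∀ k, ∑ j, x k * (A k (f j) * y j i) * A i e = x k * (if k = i then 1 else 0) * A i e := by
      intro k; rw [← h3 k i, Finset.mul_sum, Finset.sum_mul]
    simp only [this]
    rw [Finset.sum_eq_single i]
    · simp
    · intro k _ hk; simp [hk]
    · simp
  have hsupp : ∀ j, c (f j) ≠ 0 → ∀ e, c e = 0 → D j e = 0 := by
    intro j hj e he
    rcases (hy j).2 e with h | ⟨_, hP⟩
    · exact h
    · exfalso
      have hle := hmax _ hP
      have hlt : (Finset.univ.filter fun i => c (f i) = 0) ⊂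
          (Finset.univ.filter fun i => c (Function.update f j e i) = 0) := by
        rw [Finset.ssubset_iff_of_subset]
        · refine ⟨j, ?_, ?_⟩
          · simp [he]
          · simp [hj]
        · intro i hi
          simp only [Finset.mem_filter, Finset.mem_univ, true_and] at hi ⊢
          by_cases hij : i = j
          · subst hij; simp [he]
          · rw [Function.update_of_ne hij]; exact hi
      exact absurd (Finset.card_lt_card hlt) (not_lt.mpr hle)
  obtain ⟨j, hj⟩ : ∃ j, c (f j) ≠ 0 := by
    by_contra hno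
    push Not at hno
    apply hc0
    funext e
    rw [hexp e]
    simp [hno]
  have hDj : D j (f j) = 1 := by simpa using (hy j).1 j
  have huniq : ∀ i, i ≠ j → c (f i) = 0 := by
    intro i hi
    by_contra hci
    apply hmin (D j) ⟨y j, rfl⟩
    · intro h
      have := congrFun h (f j)
      rw [hDj] at this
      exact one_ne_zero this
    · rw [Set.ssubset_iff_of_subset]
      · refine ⟨f i, hci, ?_⟩
        have : D j (f i) = 0 := by simpa [hi] using (hy j).1 i
        simpa using this
      · intro e he
        by_contra hce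
        exact he (hsupp j hj e (by simpa using hce))
  refine ⟨c (f j), D j, ?_, ?_⟩
  · funext e
    rw [hexp e, Finset.sum_eq_single j]
    · intro i _ hi; simp [huniq i hi]
    · simp
  · intro e he
    rcases (hy j).2 e with h | ⟨h, _⟩
    · exact absurd h he
    · exact h

variable {E : Type} [Fintype E] {M : Matroid E} {T : Set E → Matrix E E ℍ[ℝ]}

omit [Fintype E] in
theorem lq_range {r : ℕ} {f : Fin r → E} (hf : Function.Injective f) (i : Fin r) (e : E) :
    range (Function.update f i e) = insert e (range f \ {f i}) := by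
  ext z
  simp only [mem_range, mem_insert_iff, mem_sdiff, mem_singleton_iff]
  constructor
  · rintro ⟨j, rfl⟩
    by_cases hj : j = i
    · left; simp [hj]
    · right; rw [Function.update_of_ne hj]; exact ⟨⟨j, rfl⟩, hf.ne hj⟩
  · rintro (rfl | ⟨⟨j, rfl⟩, hj⟩)
    · exact ⟨i, by simp⟩
    · exact ⟨j, Function.update_of_ne (fun e => hj (congrArg f e)) _ _⟩

omit [Fintype E] in
theorem lq_inj {r : ℕ} {f : Fin r → E} (hf : Function.Injective f) (i : Fin r) {e : E}
    (he : ∀ j, j ≠ i → f j ≠ e) : Function.Injective (Function.update f i e) := by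
  intro j k hjk
  by_cases hj : j = i <;> by_cases hk : k = i
  · rw [hj, hk]
  · subst hj; rw [Function.update_self, Function.update_of_ne hk] at hjk
    exact absurd hjk.symm (he k hk)
  · subst hk; rw [Function.update_self, Function.update_of_ne hj] at hjk
    exact absurd hjk (he j hj)
  · rw [Function.update_of_ne hj, Function.update_of_ne hk] at hjk
    exact hf hjk

theorem lq_zero {r : ℕ} {U : Matrix (Fin r) (Fin r) ℍ[ℝ]} (hU : IsUnit U)
    {y : Fin r → ℍ[ℝ]} (hy : y ᵥ* U = 0) : y = 0 := by
  obtain ⟨N, hN⟩ := hU.exists_right_inv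
  have := congrArg (fun v => v ᵥ* N) hy
  simpa only [Matrix.vecMul_vecMul, hN, Matrix.vecMul_one, Matrix.zero_vecMul] using this

theorem TabP.isQU_of_norm (h : TabP (fun q : ℍ[ℝ] => ‖q‖ = 1) M T) : IsQU (M.restrictSubtype M.E) := by
  classical
  obtain ⟨B0, hB0⟩ := M.exists_isBase
  obtain ⟨r, b, hbi, hb⟩ := B0.toFinite.fin_param
  have hsum : ∀ B, M.IsBase B → ∀ x e, ∑ k, T B x (b k) * T B0 (b k) e = T B x e :=
    fun B hB x e => by
      rw [← h.mul _ _ hB0 hB, Matrix.mul_apply, h.mul _ _ hB0 hB]
      refine Finset.sum_of_injOn b hbi.injOn (by simp) (fun z _ hz => ?_) fun _ _ => rfl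
      rw [h.row hB0 (by simpa [← hb] using hz), mul_zero]
  have him : ∀ f : Fin r → M.E, Subtype.val '' range f = range fun j => (f j : E) :=
    fun f => (range_comp _ _).symm
  obtain ⟨h1, h2⟩ := lq_rows (Matrix.of fun k (e : M.E) => T B0 (b k) e)
    (fun f => Function.Injective f ∧ M.IsBase (Subtype.val '' range f))
    ⟨fun k => ⟨b k, hB0.subset_ground (hb ▸ mem_range_self k)⟩,
      fun j k e => hbi (congrArg Subtype.val e), by rw [him, hb]; exact hB0⟩
    (fun f ⟨hf, hB⟩ i => by
      have hm : ∀ j, (f j : E) ∈ Subtype.val '' range f := fun j => ⟨_, ⟨j, rfl⟩, rfl⟩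
      refine ⟨fun k => T (Subtype.val '' range f) (f i) (b k), fun j => ?_, fun e => ?_⟩ <;>
        simp only [of_apply, hsum _ hB]
      · split_ifs with hj
        · rw [hj, h.diag _ hB _ (hm i)]
        · exact h.off hB (hm j) fun e' => hj (hf (Subtype.ext e')).symm
      · by_cases h0 : T (Subtype.val '' range f) (f i) e = 0
        · exact Or.inl h0
        refine Or.inr ⟨(h.mem _ hB _ _).resolve_left h0, lq_inj hf i ?_, ?_⟩
        · rintro j hj rfl
          exact h0 (h.off hB (hm j) fun e' => hj (hf (Subtype.ext e')).symm)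
        · rw [lq_range hf, image_insert_eq, image_sdiff Subtype.val_injective, image_singleton]
          exact ((h.supp _ hB _ _).1 h0).2)
  refine ⟨r, _, h1, by simp, fun X => ?_⟩
  rw [Matroid.restrictSubtype_ground_isBase_iff]
  constructor
  · intro hX
    have hc : X.ncard = r := by
      rw [← ncard_image_of_injective X Subtype.val_injective, hX.ncard_eq_ncard_of_isBase hB0, ← hb,
        ncard_range_of_injective hbi]
      simp
    obtain ⟨n, f, hf, rfl⟩ := X.toFinite.fin_param
    obtain rfl : n = r := by rw [ncard_range_of_injective hf] at hc; simpa using hc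
    exact ⟨f, hf, rfl, h2 f ⟨hf, hX⟩⟩
  · rintro ⟨f, hf, rfl, hu⟩
    obtain ⟨J, hJ⟩ := M.exists_isBasis (Subtype.val '' range f) (by rintro _ ⟨z, -, rfl⟩; exact z.2)
    obtain ⟨B, hB, hJB⟩ := hJ.exists_isBase
    have hsub : B ⊆ Subtype.val '' range f := fun x hx => by
      by_contra hxX
      have h3 : (fun k => T B x (b k)) = 0 := lq_zero hu (funext fun j => by
        change ∑ k, T B x (b k) * T B0 (b k) (f j) = 0
        rw [hsum _ hB]
        by_contra h0
        have h4 := ((h.supp _ hB _ _).1 h0).2
        have hm : (f j : E) ∈ Subtype.val '' range f := ⟨_, ⟨j, rfl⟩, rfl⟩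
        have h5 : (f j : E) ∉ B := fun h5 => h0 (h.off hB h5 fun e' => hxX (e' ▸ hm))
        refine h4.indep.notMem_closure_sdiff_of_mem (mem_insert _ _)
          (M.closure_subset_closure ?_ (hJ.subset_closure hm))
        rw [hJB]
        rintro z ⟨hz, hz'⟩
        exact ⟨Or.inr ⟨hz, fun e' => hxX (e' ▸ hz')⟩, fun e' => h5 (e' ▸ hz)⟩)
      have h6 := hsum _ hB x x
      simp only [fun k => congrFun h3 k, Pi.zero_apply, zero_mul, Finset.sum_const_zero,
        h.diag _ hB x hx] at h6
      exact zero_ne_one h6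
    have hc : (Subtype.val '' range f).ncard ≤ B.ncard := by
      rw [ncard_image_of_injective _ Subtype.val_injective, hB.ncard_eq_ncard_of_isBase hB0, ← hb,
        ncard_range_of_injective hbi, ncard_range_of_injective hf]
    exact eq_of_subset_of_ncard_le hsub hc ▸ hB

end Pool.Agent.Lib.MP_10bdcf_co.G
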