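import Pool.Agent.Lib.MP_10bdcf_co.LB
import Pool.Agent.Lib.MP_10bdcf_co.LC
import Pool.Agent.Lib.MP_10bdcf_co.LD
import Pool.Agent.Lib.MP_10bdcf_co.LQ

/-!
The lifting theorem.
-/

namespace Pool.Agent.Lib.MP_10bdcf_co.G

open scoped Matroid Quaternion
open Matrix Set Relation

variable {E : Type} [Fintype E] {M : Matroid E} {T : Set E → Matrix E E Lam}

omit [Fintype E] in
theorem le_coindep {X : Set E} (hX : M.IsBase X) {f : E} (hf : f ∈ M.E) (hfX : f ∉ X) :
    M.Coindep {f} :=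
  (Matroid.coindep_iff_exists (singleton_subset_iff.2 hf)).2
    ⟨X, hX, subset_sdiff_singleton hX.subset_ground hfX⟩

omit [Fintype E] in
theorem le_base {X : Set E} (hX : M.IsBase X) {f : E} (hfX : f ∉ X) : (M ＼ {f}).IsBase X :=
  (isBase_delete_iff hX (disjoint_singleton_right.2 hfX)).2 ⟨hX, disjoint_singleton_right.2 hfX⟩

/-- Lifts of the two deletions can be chosen to agree. -/
theorem exists_glue (hT : TabP Un M T) {X : Set E} (hX : M.IsBase X) {e f : E} (hne : e ≠ f)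
    (he : e ∈ M.E) (hf : f ∈ M.E) (heX : e ∉ X) (hfX : f ∉ X) {Se Sf : Set E → Matrix E E HO}
    (h1 : IsLift (M ＼ {f}) (delT {f} T) Se) (h2 : IsLift (M ＼ {e}) (delT {e} T) Sf) :
    ∃ Sf', Glue M T e f Se Sf' := by
  have l1 := h1.delete (le_coindep (le_base hX hfX) ⟨he, hne⟩ heX)
  have l2 := h2.delete (le_coindep (le_base hX heX) ⟨hf, hne.symm⟩ hfX)
  have e1 : delT {e} (delT {f} T) = delT {f} (delT {e} T) := by
    ext1 B
    ext1 b z
    by_cases h3 : z = e <;> by_cases h4 : z = f <;> simp [delT, h3, h4]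
  rw [Matroid.delete_comm, e1] at l1
  obtain ⟨ε, h3, -, h4⟩ := sign_unique l2 l1
  refine ⟨_, hT, hne, he, hf, ⟨X, hX, heX, hfX⟩, h1, h2.sign ε h3, fun B hB a1 a2 b z a3 a4 => ?_⟩
  have := h4 B (le_base (le_base hB a1) a2) b z
  rwa [delT_apply (D := {e}) _ _ _ a3, delT_apply (D := {f}) _ _ _ a4] at this

theorem le_const {S : Set E → Matrix E E HO} (h : TabP Un M S) {X B : Set E} (hX : M.IsBase X)
    (hB : M.IsBase B) {e g : E} (he : e ∉ X) (hg : g ∈ B) (hs : ∀ b, Adj M X b e → b ∈ B) :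
    S B g e = S X g e := by
  rw [h.mul_apply hX hB g e, Finset.sum_eq_single g (fun b _ hb => ?_) (by simp),
    h.diag _ hB g hg, one_mul]
  by_cases ha : Adj M X b e
  · rw [h.off hB (hs b ha) hb.symm, zero_mul]
  · rw [h.eq_zero hX he ha, mul_zero]

omit [Fintype E] in
theorem le_adj {X : Set E} (hX : M.IsBase X) {f : E} (hfX : f ∉ X) {b e : E} :
    Adj (M ＼ {f}) X b e ↔ Adj M X b e ∧ e ≠ f := adj_delete hX (disjoint_singleton_right.2 hfX)

/-- A component with four elements. -/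
theorem lift_of_square (hT : TabP Un M T) {X : Set E} (hX : M.IsBase X) {x x' e f : E}
    (hxx : x ≠ x') (hef : e ≠ f) (h1 : Adj M X x e) (h2 : Adj M X x f) (h3 : Adj M X x' e)
    (h4 : Adj M X x' f) (hr : ∀ y, Adj M X x y ∨ Adj M X x' y → y = e ∨ y = f)
    (hc : ∀ z, Adj M X z e ∨ Adj M X z f → z = x ∨ z = x') {Se Sf : Set E → Matrix E E HO}
    (l1 : IsLift (M ＼ {f}) (delT {f} T) Se) (l2 : IsLift (M ＼ {e}) (delT {e} T) Sf) :
    ∃ S', IsLift M T S' := by
  classical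
  have heX := h1.2.1
  have hfX := h2.2.1
  have hK : Sep M {x, x', e, f} := sep_of_closed hX fun b z ha => by
    have hb := ha.1
    have hz := ha.2.1
    have := h1.1
    have := h3.1
    have := hr z
    have := hc b
    grind
  have hin : ∀ B, M.IsBase B → e ∉ B → f ∉ B → x ∈ B ∧ x' ∈ B := fun B hB a1 a2 => by
    have b1 : X ∩ {x, x', e, f} = {x, x'} := by
      have := h1.1
      have := h3.1
      grind
    have b2 : B ∩ {x, x', e, f} = {x, x'} := eq_of_subset_of_ncard_le (by grind)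
      (by rw [hK B X hB hX, b1])
    exact ⟨(b2.symm.subset (by simp)).1, (b2.symm.subset (by simp)).1⟩
  have key : ∀ Sf, Glue M T e f Se Sf →
      Gd (star (Sf X x' f) * Se X x' e * star (Se X x e) * Sf X x f) → ∃ S', IsLift M T S' := by
    intro Sf hG hc0
    refine hG.lift fun B hB g h a1 a2 a3 a4 a5 => ?_
    have b1 := a1.2.1
    have b2 := a2.2.1
    have b3 := hin B hB b1 b2
    have c1 : ∀ g ∈ B, Se B g e = Se X g e := fun g hg =>
      le_const hG.le.tab (le_base hX hfX) (le_base hB b2) heX hg fun b hb => by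
        rcases hc b (Or.inl ((le_adj hX hfX).1 hb).1) with rfl | rfl
        exacts [b3.1, b3.2]
    have c2 : ∀ g ∈ B, Sf B g f = Sf X g f := fun g hg =>
      le_const hG.lf.tab (le_base hX heX) (le_base hB b1) hfX hg fun b hb => by
        rcases hc b (Or.inr ((le_adj hX heX).1 hb).1) with rfl | rfl
        exacts [b3.1, b3.2]
    rw [c1 g a1.1, c1 h a3.1, c2 g a1.1, c2 h a3.1]
    have d1 := (joined_of_adj hB a1 _ hK).2 (by simp)
    have d2 := (joined_of_adj hB a3 _ hK).2 (by simp)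
    have d3 := a1.1
    have d4 := a3.1
    obtain ⟨rfl, rfl⟩ | ⟨rfl, rfl⟩ : g = x ∧ h = x' ∨ g = x' ∧ h = x := by grind
    · exact hc0
    · simpa [mul_assoc] using hc0.star
  obtain ⟨Sf, hG⟩ := exists_glue hT hX hef h1.mem_ground h2.mem_ground heX hfX l1 l2
  have u1 := hG.le.tab.prop (le_base hX hfX) ((le_adj hX hfX).2 ⟨h1, hef⟩)
  have u2 := hG.lf.tab.prop (le_base hX heX) ((le_adj hX heX).2 ⟨h2, hef.symm⟩)
  have u3 := hG.le.tab.prop (le_base hX hfX) ((le_adj hX hfX).2 ⟨h3, hef⟩)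
  have u4 := hG.lf.tab.prop (le_base hX heX) ((le_adj hX heX).2 ⟨h4, hef.symm⟩)
  have r1 : ∀ g, rho (Se X g e) = T X g e := fun g =>
    (hG.le.red X (le_base hX hfX) g e).trans (delT_apply _ _ _ hef)
  have r2 : ∀ g, rho (Sf X g f) = T X g f := fun g =>
    (hG.lf.red X (le_base hX heX) g f).trans (delT_apply _ _ _ hef.symm)
  rcases gd_or_neg (mul_mem (mul_mem (mul_mem (Unitary.star_mem u4) u3) (Unitary.star_mem u1)) u2)
    (by simpa only [map_mul, rho_star, r1, r2] using hT.gd hX h1 h4 hxx) with h | h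
  · exact key Sf hG h
  · refine key _ ⟨hT, hef, hG.he, hG.hf, hG.base, hG.le,
      hG.lf.sign (fun z => if z = x' then -1 else 1) fun z => by split_ifs <;> simp,
      fun B hB a1 a2 b z a3 a4 => ?_⟩ ?_
    · have b3 := hin B hB a1 a2
      rw [hG.agree B hB a1 a2 b z a3 a4, of_apply]
      by_cases hb : b = x' <;> by_cases hz : z = x'
      · simp [hb, hz]
      · have : Sf B b z = 0 := by
          by_cases hzB : z ∈ B
          · exact hG.lf.tab.off (le_base hB a1) hzB (hb ▸ Ne.symm hz)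
          · refine hG.lf.tab.eq_zero (le_base hB a1) hzB fun ha => ?_
            have := (joined_of_adj hB ((le_adj hB a1).1 ha).1 _ hK).1 (by simp [hb])
            grind
        simp [this]
      · simp [hz, hG.lf.tab.off (le_base hB a1) b3.2 hb]
      · simp [hb, hz]
    · have : f ≠ x' := fun e' => hfX (e' ▸ h3.1)
      simpa [this, hxx] using h

/-- The induction hypothesis. -/
def LeIH (M : Matroid E) : Prop := ∀ (M' : Matroid E) (T' : Set E → Matrix E E Lam),
  M'.E.ncard < M.E.ncard → Hyp M' T' → ∃ S, IsLift M' T' S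

theorem le_del (h : Hyp M T) (ih : LeIH M) {X : Set E} (hX : M.IsBase X) {f : E} (hf : f ∈ M.E)
    (hfX : f ∉ X) : ∃ S, IsLift (M ＼ {f}) (delT {f} T) S :=
  ih _ _ (ncard_sdiff_singleton_lt_of_mem hf) (h.delete (le_coindep hX hf hfX))

omit [Fintype E] in
theorem le_sadj {X : Set E} (hX : M.IsBase X) : SAdj M✶ (M.E \ X) = SAdj M X := by
  ext a b
  rw [SAdj, SAdj, adj_dual hX.subset_ground, adj_dual hX.subset_ground, or_comm]

/-- A statement proved for columns holds for rows. -/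
theorem le_wlog {Q : (E → E → Prop) → Set E → Prop} {D : Set E}
    (H : ∀ (M : Matroid E) (T : Set E → Matrix E E Lam) (X : Set E), Hyp M T → LeIH M →
      M.IsBase X → Disjoint X D → Q (SAdj M X) M.E → ∃ S, IsLift M T S)
    (h : Hyp M T) (ih : LeIH M) {X : Set E} (hX : M.IsBase X) (hD : Disjoint X D ∨ D ⊆ X)
    (hQ : Q (SAdj M X) M.E) : ∃ S, IsLift M T S := by
  rcases hD with hD | hD
  · exact H M T X h ih hX hD hQ
  · obtain ⟨S, hS⟩ := H M✶ _ _ h.dual ih hX.compl_isBase_dual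
      (disjoint_sdiff_left.mono_right hD) (by rwa [le_sadj hX])
    exact ⟨_, hS.of_dual⟩

theorem le_leaf (h : Hyp M T) (ih : LeIH M) {X : Set E} (hX : M.IsBase X) {a : E} (ha : a ∈ M.E)
    (h1 : ∀ g k, SAdj M X a g → SAdj M X a k → g = k) : ∃ S, IsLift M T S := by
  refine le_wlog (Q := fun r G => a ∈ G ∧ ∀ g k, r a g → r a k → g = k) (D := {a}) ?_ h ih hX
    (by simpa using (em _).symm) ⟨ha, h1⟩
  intro M T X h ih hX hD ⟨ha, h1⟩
  rw [disjoint_singleton_right] at hD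
  obtain ⟨S, hS⟩ := le_del h ih hX ha hD
  exact lift_of_leaf h.tab hX hD (fun g k a1 a2 => h1 g k (Or.inr a1) (Or.inr a2)) hS

theorem le_two (h : Hyp M T) (ih : LeIH M) {X : Set E} (hX : M.IsBase X) {v e f : E}
    (hef : e ≠ f) (he : e ∈ M.E) (hf : f ∈ M.E) (hs : e ∈ X ↔ f ∈ X)
    (h1 : ReflTransGen (SAdj M X) v e)
    (h2 : ∀ u, u ∉ ({e, f} : Set E) → ReflTransGen (SAdj M X) v u →
      ReflTransGen (Av (SAdj M X) {e, f}) v u) : ∃ S, IsLift M T S := by
  refine le_wlog (Q := fun r G => e ∈ G ∧ f ∈ G ∧ ReflTransGen r v e ∧ ∀ u, u ∉ ({e, f} : Set E) →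
    ReflTransGen r v u → ReflTransGen (Av r {e, f}) v u) (D := {e, f}) ?_ h ih hX
    (by by_cases h : e ∈ X <;> simp [insert_subset_iff, ← hs, h]) ⟨he, hf, h1, h2⟩
  intro M T X h ih hX hD ⟨he, hf, h1, h2⟩
  have heX := disjoint_right.1 hD (show e ∈ _ by simp)
  have hfX := disjoint_right.1 hD (show f ∈ _ by simp)
  obtain ⟨Se, l1⟩ := le_del h ih hX hf hfX
  obtain ⟨Sf, l2⟩ := le_del h ih hX he heX
  obtain ⟨Sf, hG⟩ := exists_glue h.tab hX hef he hf heX hfX l1 l2
  have key : ∀ B, M.IsBase B → ∀ g, Adj M B g e → Adj M B g f → Joined (M ＼ {e, f}) v g := by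
    intro B hB g a1 a2
    refine joined_delete hX hD (h2 g ?_ (h1.trans (reach_of_joined hX (joined_of_adj hB a1).symm)))
    rintro (rfl | rfl)
    exacts [a1.2.1 a1.1, a2.2.1 a2.1]
  exact hG.lift (hG.blocks h fun B hB g k a1 a2 a3 a4 =>
    (key B hB g a1 a2).symm.trans (key B hB k a3 a4))

theorem le_three (h : Hyp M T) (ih : LeIH M) {X : Set E} (hX : M.IsBase X) {v a b c : E}
    (ha : SAdj M X v a) (hb : SAdj M X v b) (hc : SAdj M X v c) (hab : a ≠ b) (hac : a ≠ c)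
    (hbc : b ≠ c) : ∃ S, IsLift M T S := by
  obtain ⟨u1, u2, u3, n1, n2, n3, r1, r2, r3, m1, m2, m3, H⟩ :=
    exists_three_leaves (SAdj M X) (fun _ _ h => h.symm)
      (fun a h => h.elim (fun h => h.2.1 h.1) fun h => h.2.1 h.1) ha hb hc hab hac hbc
  have hE : ∀ {u}, ReflTransGen (SAdj M X) v u → u ≠ v → u ∈ M.E := fun hu hv => by
    rcases hu.cases_tail with rfl | ⟨_, -, h | h⟩
    exacts [absurd rfl hv, h.mem_ground, hX.subset_ground h.1]
  rcases (by tauto : (u1 ∈ X ↔ u2 ∈ X) ∨ (u1 ∈ X ↔ u3 ∈ X) ∨ (u2 ∈ X ↔ u3 ∈ X)) with s | s | s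
  · exact le_two h ih hX n1 (hE r1 m1) (hE r2 m2) s r1 (H _ (by grind))
  · exact le_two h ih hX n2 (hE r1 m1) (hE r3 m3) s r1 (H _ (by grind))
  · exact le_two h ih hX n3 (hE r2 m2) (hE r3 m3) s r2 (H _ (by grind))

theorem le_step (h : Hyp M T) (ih : LeIH M) : ∃ S, IsLift M T S := by
  rcases M.E.eq_empty_or_nonempty with hE | ⟨a, ha⟩
  · have hb : ∀ B, M.IsBase B → ∀ b, b ∉ B := fun B hB b hb => by
      simpa [hE] using hB.subset_ground hb
    exact ⟨0, ⟨fun _ _ _ _ => Or.inl rfl, fun B hB b e => by simp [hb B hB b],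
      fun B hB b h => absurd h (hb B hB b), fun _ _ _ _ => mul_zero _⟩,
      fun B hB b e => by simp [h.tab.row hB (hb B hB b)]⟩
  by_contra hno
  obtain ⟨X, hX⟩ := M.exists_isBase
  have A : ∀ a ∈ M.E, ∀ y, ∃ y', y' ≠ y ∧ SAdj M X a y' := fun a ha y => by
    by_contra! hy
    exact hno (le_leaf h ih hX ha fun g k a1 a2 => by grind)
  have B : ∀ X, M.IsBase X → ∀ v a b c, SAdj M X v a → SAdj M X v b → SAdj M X v c → a ≠ b →
      c = a ∨ c = b := fun X hX v a b c h1 h2 h3 h4 => by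
    by_contra! hc
    exact hno (le_three h ih hX h1 h2 h3 h4 hc.1.symm hc.2.symm)
  obtain ⟨x, y, h1⟩ : ∃ x y, Adj M X x y := by
    obtain ⟨b, -, h | h⟩ := A a ha a
    exacts [⟨_, _, h⟩, ⟨_, _, h⟩]
  obtain ⟨y', ny, h2⟩ := A x (hX.subset_ground h1.1) y
  obtain ⟨x', nx, h3⟩ := A y h1.mem_ground x
  replace h2 := h2.resolve_right fun h => h.2.1 h1.1
  replace h3 := h3.resolve_left fun h => h1.2.1 h.1
  have hx := fun w hw => B X hX x y y' w (Or.inl h1) (Or.inl h2) (Or.inl hw) ny.symm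
  by_cases h4 : Adj M X x' y'
  · obtain ⟨Se, l1⟩ := le_del h ih hX h2.mem_ground h2.2.1
    obtain ⟨Sf, l2⟩ := le_del h ih hX h1.mem_ground h1.2.1
    refine hno (lift_of_square h.tab hX nx.symm ny.symm h1 h2 h3 h4 ?_ ?_ l1 l2)
    · rintro w (hw | hw)
      exacts [hx w hw, B X hX x' y y' w (Or.inl h3) (Or.inl h4) (Or.inl hw) ny.symm]
    · rintro z (hz | hz)
      exacts [B X hX y x x' z (Or.inr h1) (Or.inr h3) (Or.inr hz) nx.symm,
        B X hX y' x x' z (Or.inr h2) (Or.inr h4) (Or.inr hz) nx.symm]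
  · obtain ⟨w, nw, h5⟩ := A x' (hX.subset_ground h3.1) y
    replace h5 := h5.resolve_right fun h => h.2.1 h3.1
    have n1 : w ≠ y' := fun e => h4 (e ▸ h5)
    have n2 : w ≠ x := fun e => h5.2.1 (e ▸ h1.1)
    have p1 := h.tab.adj_pivot_new hX h1 h3 nx h2 h4
    have p2 := (h.tab.adj_pivot_same hX h1 h3.1 nx n2 nw
      (Or.inr fun hw => (hx w hw).elim nw n1)).2 h5
    have p3 : Adj M (ex X x y) x' x := by
      refine ⟨p1.1, (h1.symm_ex hX).2.1, ?_⟩
      convert h3.2.2 using 1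
      ext z
      have := h1.1
      have := h3.1
      have := h1.2.1
      simp only [mem_ex]
      grind
    rcases B _ h1.2.2 x' y' w x (Or.inl p1) (Or.inl p2) (Or.inl p3) n1.symm with e | e
    exacts [h2.2.1 (e ▸ h1.1), n2 e.symm]

theorem Hyp.lift (h : Hyp M T) : ∃ S, IsLift M T S := by
  induction hn : M.E.ncard using Nat.strong_induction_on generalizing M T with
  | _ n ih => exact le_step h fun M' T' hl h' => ih _ (hn ▸ hl) h' rfl

theorem Hyp.isQU (h : Hyp M T) : IsQU (M.restrictSubtype M.E) := by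
  obtain ⟨S, hS⟩ := h.lift
  exact (hS.tab.map (Q := fun q : ℍ[ℝ] => ‖q‖ = 1) toH fun a ha =>
    ⟨norm_toH ha, fun h0 => by simpa [h0] using norm_toH ha⟩).isQU_of_norm

end Pool.Agent.Lib.MP_10bdcf_co.G
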