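import Pool.Agent.Lib.MP_10bdcf_co.LA

/-!
The hypotheses of the lifting theorem pass to duals and deletions.
-/

namespace Pool.Agent.Lib.MP_10bdcf_co.G

open scoped Matroid
open Matrix Set

variable {E : Type} {M : Matroid E}

theorem lh_disj_ex {B D : Set E} (hB : Disjoint B D) (b : E) {e : E} (he : e ∉ D) :
    Disjoint (ex B b e) D :=
  disjoint_insert_left.2 ⟨he, hB.mono_left sdiff_subset⟩

theorem lh_adj_del {D : Set E} (hD : M.Coindep D) {B : Set E} (hB : Disjoint B D) {b e : E} :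
    Adj (M ＼ D) B b e ↔ Adj M B b e ∧ e ∉ D := by
  simp only [Adj, hD.delete_isBase_iff]
  exact ⟨fun ⟨h1, h2, h3, h4⟩ => ⟨⟨h1, h2, h3⟩, disjoint_left.1 h4 (mem_ex.2 (Or.inl rfl))⟩,
    fun ⟨⟨h1, h2, h3⟩, h4⟩ => ⟨h1, h2, h3, lh_disj_ex hB b h4⟩⟩

theorem lh_ex_union {B I : Set E} {b : E} (hb : b ∉ I) (e : E) :
    ex B b e ∪ I = ex (B ∪ I) b e := by
  ext z
  simp only [mem_union, mem_ex]
  by_cases hz : z = b
  · subst hz; tauto
  · tauto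

theorem lh_adj_con {I : Set E} (hI : M.Indep I) {B : Set E} (hB : Disjoint B I) {b e : E} :
    Adj (M ／ I) B b e ↔ Adj M (B ∪ I) b e ∧ b ∉ I := by
  simp only [Adj, hI.contract_isBase_iff]
  constructor
  · rintro ⟨h1, h2, h3, h4⟩
    have hb := disjoint_left.1 hB h1
    rw [lh_ex_union hb] at h3
    exact ⟨⟨Or.inl h1, fun h => h.elim h2 (disjoint_left.1 h4 (mem_ex.2 (Or.inl rfl))), h3⟩, hb⟩
  · rintro ⟨⟨h1, h2, h3⟩, hb⟩
    rw [← lh_ex_union hb] at h3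
    exact ⟨h1.resolve_right hb, fun h => h2 (Or.inl h), h3, lh_disj_ex hB b fun h => h2 (Or.inr h)⟩

theorem NoF7.delete (h : NoF7 M) {D : Set E} (hD : M.Coindep D) : NoF7 (M ＼ D) := by
  intro B hB g z k y1 y2 e f a1 a2 a3 a4 a5 a6 a7 a8 a9 b1 b2 b3 c1 c2 c3
  obtain ⟨hB, hd⟩ := hD.delete_isBase_iff.1 hB
  rw [lh_adj_del hD hd] at a1 a2 a3 a4 a5 a6 a7 a8 a9 b1 b2 b3
  rw [lh_adj_del hD (lh_disj_ex hd _ a1.2)] at c1
  rw [lh_adj_del hD (lh_disj_ex hd _ a5.2)] at c2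
  rw [lh_adj_del hD (lh_disj_ex hd _ a7.2)] at c3
  rw [lh_adj_del hD (lh_disj_ex (lh_disj_ex hd _ a1.2) _ a5.2)]
  exact ⟨h B hB g z k y1 y2 e f a1.1 a2.1 (fun x => a3 ⟨x, a1.2⟩) (fun x => a4 ⟨x, a5.2⟩) a5.1
    a6.1 a7.1 a8.1 a9.1 b1.1 (fun x => b2 ⟨x, b1.2⟩) b3.1 (fun x => c1 ⟨x, a7.2⟩)
    (fun x => c2 ⟨x, a7.2⟩) (fun x => c3 ⟨x, b1.2⟩), b1.2⟩

theorem NoF7.contract (h : NoF7 M) {I : Set E} (hI : M.Indep I) : NoF7 (M ／ I) := by
  intro B hB g z k y1 y2 e f a1 a2 a3 a4 a5 a6 a7 a8 a9 b1 b2 b3 c1 c2 c3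
  obtain ⟨hB, hd⟩ := hI.contract_isBase_iff.1 hB
  rw [lh_adj_con hI hd] at a1 a2 a3 a4 a5 a6 a7 a8 a9 b1 b2 b3
  have n1 : y1 ∉ I := fun x => a1.1.2.1 (Or.inr x)
  have n2 : y2 ∉ I := fun x => a5.1.2.1 (Or.inr x)
  have n3 : e ∉ I := fun x => a7.1.2.1 (Or.inr x)
  rw [lh_adj_con hI (lh_disj_ex hd _ n1), lh_ex_union a1.2] at c1
  rw [lh_adj_con hI (lh_disj_ex hd _ n2), lh_ex_union a6.2] at c2
  rw [lh_adj_con hI (lh_disj_ex hd _ n3), lh_ex_union a1.2] at c3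
  rw [lh_adj_con hI (lh_disj_ex (lh_disj_ex hd _ n1) _ n2), lh_ex_union a6.2, lh_ex_union a1.2]
  exact ⟨h _ hB g z k y1 y2 e f a1.1 a2.1 (fun x => a3 ⟨x, a6.2⟩) (fun x => a4 ⟨x, a1.2⟩) a5.1
    a6.1 a7.1 a8.1 a9.1 b1.1 (fun x => b2 ⟨x, a2.2⟩) b3.1 (fun x => c1 ⟨x, a2.2⟩)
    (fun x => c2 ⟨x, a2.2⟩) (fun x => c3 ⟨x, a6.2⟩), a2.2⟩

variable [Fintype E]

/-- A matroid with a system over a commutative ring with `2` not zero has no Fano minor. -/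
theorem TabP.noF7 {R : Type} [CommRing R] {P : R → Prop} {T : Set E → Matrix E E R}
    (h : TabP P M T) (h2 : (2 : R) ≠ 0) : NoF7 M := by
  intro B hB g z k y1 y2 e f a1 a2 a3 a4 a5 a6 a7 a8 a9 b1 b2 b3 c1 c2 c3
  have zg : z ≠ g := fun x => a4 (x ▸ a5)
  have zk : z ≠ k := fun x => a3 (x ▸ a2)
  have kg : k ≠ g := fun x => a3 (x ▸ a1)
  have out : ∀ {X : Set E} {u v w : E}, w ∉ X → w ≠ v → w ∉ ex X u v := fun hw hv hm =>
    (mem_ex.1 hm).elim hv fun x => hw x.1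
  have z1 := h.eq_zero hB a1.2.1 a3
  have z2 := h.eq_zero hB a5.2.1 a4
  have z3 := h.eq_zero hB b1.2.1 b2
  have e1 := h.eq_zero a1.2.2 (out a7.2.1 fun x => a3 (x ▸ a9)) c1
  have e2 := h.eq_zero a6.2.2 (out a7.2.1 fun x => a4 (x ▸ a7)) c2
  have e3 := h.eq_zero a7.2.2 (out b1.2.1 fun x => b2 (x ▸ a8)) c3
  rw [h.pivot_old hB a1 a2.1 zg] at e1
  rw [h.pivot_old hB a6 a2.1 zk] at e2
  rw [h.pivot_old hB a7 a6.1 kg] at e3
  have p1 : T (ex B g y1) k y2 = T B k y2 := by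
    rw [h.pivot_old hB a1 a6.1 kg, z2, mul_zero, sub_zero]
  have p2 : T (ex B g y1) z y2 = T B z y2 := by
    rw [h.pivot_old hB a1 a2.1 zg, z2, mul_zero, sub_zero]
  have p3 : T (ex B g y1) k f = T B k f := by
    rw [h.pivot_old hB a1 a6.1 kg, z1, zero_mul, zero_mul, sub_zero]
  have o2 : y2 ∉ ex B g y1 := out a5.2.1 fun x => a4 (x ▸ a1)
  have d1 : Adj M (ex B g y1) k y2 :=
    (h.ne_zero_iff a1.2.2 o2).1 (by rw [p1]; exact h.ne_zero hB a6)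
  have i1 := h.inv_mul a1.2.2 d1
  have i2 := h.inv_mul hB a6
  have i3 := h.inv_mul hB a7
  rw [p1] at i1
  refine (h.ne_zero_iff d1.2.2 (out (out b1.2.1 fun x => b2 (x ▸ a2)) fun x => b2 (x ▸ a5))).1 ?_
  rw [h.pivot_old a1.2.2 d1 (mem_ex.2 (Or.inr ⟨a2.1, zg⟩)) zk, p2, p3, h.pivot_old hB a1 a2.1 zg,
    z3]
  intro h0
  have u := ((h.isUnit hB a8).mul (IsUnit.of_mul_eq_one _ i3)).mul (h.isUnit hB b1)
  refine h2 (u.mul_left_eq_zero.1 ?_)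
  have i4 : T (ex (ex B g y1) k y2) y2 k = T (ex B k y2) y2 k := by
    linear_combination T (ex B k y2) y2 k * i1 - T (ex (ex B g y1) k y2) y2 k * i2
  rw [i4] at h0
  linear_combination (-1 : R) * h0 + T (ex B g e) e g * T B g f * (e1 + e2) +
    T B z y1 * T (ex B g y1) y1 g * T B g f * i3 - T B z y2 * T (ex B k y2) y2 k * e3

variable {T : Set E → Matrix E E Lam}

theorem Hyp.delete (h : Hyp M T) {D : Set E} (hD : M.Coindep D) : Hyp (M ＼ D) (delT D T) := by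
  refine ⟨h.tab.delete_coindep hD, ?_, ?_, h.f7.delete hD, ?_⟩
  · intro B hB g k y e f a1 a2 a3 a4 a5 a6 p q hp hq
    obtain ⟨hB, hd⟩ := hD.delete_isBase_iff.1 hB
    rw [lh_adj_del hD hd] at a1 a2 a3 a4 a5 a6
    simp only [delT_apply _ _ _ a1.2, delT_apply _ _ _ a3.2, delT_apply _ _ _ a5.2] at hp hq
    exact h.nz25 B hB g k y e f a1.1 a2.1 a3.1 a4.1 a5.1 a6.1 p q hp hq
  · intro B hB z g k e f a1 a2 a3 a4 a5 a6 p q hp hq
    obtain ⟨hB, hd⟩ := hD.delete_isBase_iff.1 hB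
    rw [lh_adj_del hD hd] at a1 a2 a3 a4 a5 a6
    simp only [delT_apply _ _ _ a1.2, delT_apply _ _ _ a2.2] at hp hq
    exact h.nz35 B hB z g k e f a1.1 a2.1 a3.1 a4.1 a5.1 a6.1 p q hp hq
  · rw [Matroid.dual_delete]
    exact h.f7d.contract hD

theorem lh_neg : ∀ x : Lam, -x = x := by decide +kernel

omit [Fintype E] in
theorem lh_dual {B : Set E} (hB : B ⊆ M.E) {y x : E} (ha : Adj M✶ B y x) :
    Adj M (M.E \ B) x y ∧ dualT (starHom Lam) M T B y x = star (T (M.E \ B) x y) := by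
  refine ⟨(adj_dual sdiff_subset).1 (by rwa [sdiff_sdiff_cancel_left hB]), ?_⟩
  rw [dualT_of_ne _ _ _ _ fun e' : y = x => ha.2.1 (e' ▸ ha.1), lh_neg, starHom_apply]

theorem Hyp.dual (h : Hyp M T) : Hyp M✶ (dualT (starHom Lam) M T) := by
  refine ⟨h.tab.dual_star, ?_, ?_, h.f7d, by rw [Matroid.dual_dual]; exact h.f7⟩
  · intro B hB g k y e f a1 a2 a3 a4 a5 a6 p q hp hq
    obtain ⟨hX, hE⟩ := Matroid.dual_isBase_iff'.1 hB
    obtain ⟨a1, e1⟩ := lh_dual (T := T) hE a1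
    obtain ⟨a2, e2⟩ := lh_dual (T := T) hE a2
    obtain ⟨a3, e3⟩ := lh_dual (T := T) hE a3
    obtain ⟨a4, e4⟩ := lh_dual (T := T) hE a4
    obtain ⟨a5, e5⟩ := lh_dual (T := T) hE a5
    obtain ⟨a6, e6⟩ := lh_dual (T := T) hE a6
    simp only [e1, e2, e3, e4, e5, e6, star_star] at hp hq
    exact h.nz35 _ hX y e f k g a2 a1 a4 a3 a6 a5 p q hp hq
  · intro B hB z g k e f a1 a2 a3 a4 a5 a6 p q hp hq
    obtain ⟨hX, hE⟩ := Matroid.dual_isBase_iff'.1 hB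
    obtain ⟨a1, e1⟩ := lh_dual (T := T) hE a1
    obtain ⟨a2, e2⟩ := lh_dual (T := T) hE a2
    obtain ⟨a3, e3⟩ := lh_dual (T := T) hE a3
    obtain ⟨a4, e4⟩ := lh_dual (T := T) hE a4
    obtain ⟨a5, e5⟩ := lh_dual (T := T) hE a5
    obtain ⟨a6, e6⟩ := lh_dual (T := T) hE a6
    simp only [e1, e2, e3, e4, e5, e6, star_star] at hp hq
    exact h.nz25 _ hX f e z g k a2 a1 a4 a3 a6 a5 p q hp hq

theorem IsLift.dual {S : Set E → Matrix E E HO} (h : IsLift M T S) :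
    IsLift M✶ (dualT (starHom Lam) M T) (dualT (starHom HO) M S) := by
  refine ⟨h.tab.dual_star, fun B hB b e => ?_⟩
  simp only [dualT, of_apply, map_sub, starHom_apply, rho_star,
    h.red _ (Matroid.dual_isBase_iff'.1 hB).1]
  split_ifs <;> simp

theorem IsLift.of_dual {S : Set E → Matrix E E HO}
    (h : IsLift M✶ (dualT (starHom Lam) M T) S) : IsLift M T (dualT (starHom HO) M✶ S) := by
  have h1 := h.dual
  rw [Matroid.dual_dual] at h1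
  refine ⟨h1.tab, fun B hB b e => ?_⟩
  rw [h1.red B hB, dualT_dualT T (starHom Lam) (star_one Lam) star_star hB]

theorem IsLift.delete {S : Set E → Matrix E E HO} (h : IsLift M T S) {D : Set E}
    (hD : M.Coindep D) : IsLift (M ＼ D) (delT D T) (delT D S) := by
  refine ⟨h.tab.delete_coindep hD, fun B hB b e => ?_⟩
  simp only [delT, of_apply]
  split_ifs
  · exact map_zero _
  · exact h.red _ (hD.delete_isBase_iff.1 hB).1 b e

/-- Changing the signs of elements. -/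
theorem IsLift.sign {S : Set E → Matrix E E HO} (h : IsLift M T S) (ε : E → HO)
    (hε : ∀ e, ε e = 1 ∨ ε e = -1) :
    IsLift M T fun B => Matrix.of fun b e => ε b * S B b e * ε e := by
  have h1 : ∀ e, ε e * ε e = 1 := fun e => by rcases hε e with x | x <;> simp [x]
  have h2 : ∀ e, ε e ∈ unitary HO := fun e => by
    rcases hε e with x | x <;> simp [x, Unitary.mem_iff]
  have h3 : ∀ e, rho (ε e) = 1 := fun e => by rcases hε e with x | x <;> simp [x, lh_neg]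
  refine ⟨h.tab.scale (Q := Un) (fun e => ⟨ε e, ε e, h1 e, h1 e⟩) fun a b e ha =>
    mul_mem (mul_mem (h2 b) ha) (h2 e), fun B hB b e => ?_⟩
  simp only [of_apply, map_mul, h3, one_mul, mul_one, h.red B hB]

end Pool.Agent.Lib.MP_10bdcf_co.G
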