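import Pool.Agent.Lib.MP_10bdcf_co.Spec

/-!
Matroids with a U_2-representation whose minors are affine in alpha_2 are QU.
-/

namespace Pool.Agent.Lib.MP_10bdcf_co

open scoped Quaternion
open Matrix

theorem submatrix_update {R : Type} {r : ℕ} {E : Type} (A : Matrix (Fin r) E R) (f : Fin r → E)
    (i : Fin r) (e : E) :
    A.submatrix id (Function.update f i e) = (A.submatrix id f).updateCol i (fun k => A k e) := by
  refine Matrix.ext fun a c => ?_
  by_cases h : c = i
  · subst h; simp
  · simp [Matrix.updateCol_ne h, Function.update_of_ne h]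

theorem det_one_updateCol {R : Type} [CommRing R] {r : ℕ} (i : Fin r) (u : Fin r → R) :
    ((1 : Matrix (Fin r) (Fin r) R).updateCol i u).det = u i := by
  rw [← Matrix.cramer_apply]; simp

theorem det_one_updateCol_two {r : ℕ} {i k : Fin r} (hik : i ≠ k) (u w : Fin r → ℂ)
    (hw : w k ≠ 0) :
    (((1 : Matrix (Fin r) (Fin r) ℂ).updateCol k w).updateCol i u).det = w k * u i - w i * u k := by
  rw [← Matrix.cramer_apply]
  have h := Matrix.mulVec_cramer ((1 : Matrix (Fin r) (Fin r) ℂ).updateCol k w) u
  rw [det_one_updateCol] at h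
  set y := Matrix.cramer ((1 : Matrix (Fin r) (Fin r) ℂ).updateCol k w) u with hy
  have hm : ∀ a, (((1 : Matrix (Fin r) (Fin r) ℂ).updateCol k w) *ᵥ y) a =
      w a * y k + if a = k then 0 else y a := by
    intro a
    simp only [Matrix.mulVec, dotProduct]
    rw [← Finset.add_sum_erase _ _ (Finset.mem_univ k), Matrix.updateCol_self]
    congr 1
    rw [Finset.sum_congr rfl (g := fun c => if a = c then y c else 0)]
    · by_cases h : a = k
      · simp [h]
      · simp [h]
    · intro c hc
      rw [Matrix.updateCol_ne (Finset.ne_of_mem_erase hc), Matrix.one_apply]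
      split_ifs <;> simp
  have h1 := congrFun h k
  have h2 := congrFun h i
  rw [hm] at h1 h2
  simp only [if_true, add_zero, Pi.smul_apply, smul_eq_mul, hik, if_false] at h1 h2
  have h3 : y k = u k := mul_left_cancel₀ hw h1
  rw [h3] at h2
  linear_combination h2

/-- A pencil all of whose maximal minors are affine has a rank one leading term. -/
theorem rank_one {r : ℕ} {E : Type} (A0 A1 : Matrix (Fin r) E ℂ) (f0 : Fin r → E)
    (h0 : ∀ i j, A0 i (f0 j) = if i = j then 1 else 0) (h1 : ∀ i j, A1 i (f0 j) = 0)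
    (s t : (Fin r → E) → ℂ)
    (hdet : ∀ f g, ((Matrix.of fun i e => A0 i e + g * A1 i e).submatrix id f).det =
      s f + g * t f) :
    ∃ (v : Fin r → ℂ) (b : E → ℂ), (∀ j, b (f0 j) = 0) ∧ ∀ i e, A1 i e = v i * b e := by
  classical
  by_cases hA : ∀ i e, A1 i e = 0
  · exact ⟨0, 0, by simp, by simp [hA]⟩
  push Not at hA
  obtain ⟨k, e0, hk⟩ := hA
  refine ⟨fun i => A1 i e0, fun e => A1 k e / A1 k e0, by simp [h1], fun i e => ?_⟩
  by_cases hik : i = k
  · subst hik; field_simp
  set D : ℂ → Matrix (Fin r) E ℂ := fun g => Matrix.of fun i e => A0 i e + g * A1 i e with hD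
  have hD0 : ∀ g, (D g).submatrix id f0 = 1 := by
    intro g
    refine Matrix.ext fun a c => ?_
    simp [hD, h0, h1, Matrix.one_apply]
  have key : ∀ g : ℂ, A0 k e0 + g * A1 k e0 ≠ 0 →
      (A0 k e0 + g * A1 k e0) * (A0 i e + g * A1 i e) -
        (A0 i e0 + g * A1 i e0) * (A0 k e + g * A1 k e) =
      s (Function.update (Function.update f0 k e0) i e) +
        g * t (Function.update (Function.update f0 k e0) i e) := by
    intro g hg
    rw [← hdet, show (Matrix.of fun i e => A0 i e + g * A1 i e) = D g from rfl, submatrix_update,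
      submatrix_update, hD0, det_one_updateCol_two hik _ _ (by simpa [hD] using hg)]
    simp [hD]
  have hg : ∀ n : ℂ, n ≠ 0 → A0 k e0 + (n - A0 k e0) / A1 k e0 * A1 k e0 ≠ 0 := by
    intro n hn
    rw [div_mul_cancel₀ _ hk]
    simpa using hn
  have k1 := key _ (hg 1 one_ne_zero)
  have k2 := key _ (hg 2 two_ne_zero)
  have k3 := key _ (hg 3 three_ne_zero)
  have e1 : (2 - A0 k e0) / A1 k e0 = (1 - A0 k e0) / A1 k e0 + (A1 k e0)⁻¹ := by
    field_simp; ring
  have e2 : (3 - A0 k e0) / A1 k e0 = (1 - A0 k e0) / A1 k e0 + 2 * (A1 k e0)⁻¹ := by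
    field_simp; ring
  rw [e1] at k2
  rw [e2] at k3
  have hq : ((A1 k e0)⁻¹) ^ 2 * (A1 k e0 * A1 i e - A1 i e0 * A1 k e) = 0 := by
    linear_combination (k1 - 2 * k2 + k3) / 2
  rcases mul_eq_zero.mp hq with h | h
  · exact absurd h (pow_ne_zero _ (inv_ne_zero hk))
  · field_simp
    linear_combination h

theorem isQU_of_minorsAffine {r : ℕ} {E : Type} [Finite E] (A : Matrix (Fin r) E K2)
    (M : Matroid E) (hA : IsWeakU2 A) (hB : MinorsAffine A) (hM : RepresentsK A M) : IsQU M := by
  classical
  obtain ⟨f0, hf0⟩ := hA.2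
  obtain ⟨g0, hg0, l0, hl0, e0⟩ := (hB f0).resolve_left hf0
  obtain ⟨q, bet, hq⟩ := ratio hl0
  set A' : Matrix (Fin r) E K2 := (A.submatrix id f0)⁻¹ * A with hA'
  have hsub : ∀ f : Fin r → E, A'.submatrix id f = (A.submatrix id f0)⁻¹ * A.submatrix id f := by
    intro f
    refine Matrix.ext fun a c => ?_
    simp [hA', Matrix.mul_apply]
  have hdet' : ∀ f : Fin r → E,
      (A'.submatrix id f).det = (A.submatrix id f).det * ((A.submatrix id f0).det)⁻¹ := by
    intro f
    rw [hsub, Matrix.det_mul, Matrix.det_nonsing_inv, Ring.inverse_eq_inv', mul_comm]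
  have hone : A'.submatrix id f0 = 1 := by
    rw [hsub, Matrix.nonsing_inv_mul _ (isUnit_iff_ne_zero.mpr hf0)]
  have hst : ∀ f : Fin r → E, ∃ s t : ℂ,
      (∀ T, T ≠ 0 → Val (bet T) (A'.submatrix id f).det (s + T * t)) ∧
      (((A.submatrix id f).det = 0 ∧ s = 0 ∧ t = 0) ∨
        ((A.submatrix id f).det ≠ 0 ∧ ‖(s : ℍ[ℝ]) + q * t‖ = 1)) := by
    intro f
    by_cases hf : (A.submatrix id f).det = 0
    · refine ⟨0, 0, fun T _ => ?_, Or.inl ⟨hf, rfl, rfl⟩⟩
      rw [hdet', hf]
      simpa using Val.zero _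
    · obtain ⟨g, hg, l, hl, e⟩ := (hB f).resolve_left hf
      obtain ⟨z, hz, hv⟩ := val_G1 (G1.mul_mem hg (G1.inv_mem hg0))
      obtain ⟨s, t, hv', hn⟩ := hq l hl
      refine ⟨s * z, t * z, fun T hT => ?_, Or.inr ⟨hf, ?_⟩⟩
      · have := (hv' T hT).mul (hv (bet T))
        rw [hdet', e, e0]
        convert this using 1
        · simp only [Units.val_mul, Units.val_inv_eq_inv_val, mul_inv]; ring
        · ring
      · have hz' : ‖(z : ℍ[ℝ])‖ = 1 := by
          apply norm_eq_one_of
          rw [← sq_eq_sq₀ (norm_nonneg _) zero_le_one, Complex.sq_norm, Complex.normSq_apply] at hz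
          simp only [Quaternion.re_coeComplex, Quaternion.imI_coeComplex,
            Quaternion.imJ_coeComplex, Quaternion.imK_coeComplex]
          linear_combination hz
        rw [Quaternion.coeComplex_mul, Quaternion.coeComplex_mul, ← mul_assoc, ← add_mul,
          norm_mul, hn, hz', mul_one]
  choose s t hv hn using hst
  set A0 : Matrix (Fin r) E ℂ := Matrix.of fun i e => s (Function.update f0 i e) with hA0
  set A1 : Matrix (Fin r) E ℂ := Matrix.of fun i e => t (Function.update f0 i e) with hA1
  have hent : ∀ T, T ≠ 0 → ∀ i e, Val (bet T) (A' i e) (A0 i e + T * A1 i e) := by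
    intro T hT i e
    have := hv (Function.update f0 i e) T hT
    rw [submatrix_update, hone, det_one_updateCol] at this
    exact this
  have hdet : ∀ f g, ((Matrix.of fun i e => A0 i e + g * A1 i e).submatrix id f).det =
      s f + g * t f := by
    intro f
    have hc1 : Continuous fun g : ℂ =>
        ((Matrix.of fun i e => A0 i e + g * A1 i e).submatrix id f).det := by
      apply Continuous.matrix_det
      refine continuous_matrix fun i j => ?_
      simp only [Matrix.submatrix_apply, Matrix.of_apply]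
      fun_prop
    have hc2 : Continuous fun g : ℂ => s f + g * t f := by fun_prop
    have := Continuous.ext_on (dense_compl_singleton (0 : ℂ)) hc1 hc2 fun T hT =>
      Val.unique (Val.det fun i j => hent T hT i (f j)) (hv f T hT)
    exact fun g => congrFun this g
  have hcol : ∀ i j, A0 i (f0 j) = (if i = j then 1 else 0) ∧ A1 i (f0 j) = 0 := by
    intro i j
    have h : ∀ T, T ≠ 0 → A0 i (f0 j) + T * A1 i (f0 j) = if i = j then 1 else 0 := by
      intro T hT
      refine Val.unique (hent T hT i (f0 j)) ?_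
      have : A' i (f0 j) = if i = j then 1 else 0 := by
        have := congrFun (congrFun hone i) j
        simpa [Matrix.one_apply] using this
      rw [this]
      split_ifs
      · exact Val.one _
      · exact Val.zero _
    have h1 := h 1 one_ne_zero
    have h2 := h 2 two_ne_zero
    constructor
    · linear_combination 2 * h1 - h2
    · linear_combination h2 - h1
  obtain ⟨v, b, hb0, hvb⟩ := rank_one A0 A1 f0 (fun i j => (hcol i j).1) (fun i j => (hcol i j).2)
    s t hdet
  simp only [hvb] at hdet
  obtain ⟨hQU, hunit⟩ := pencil_QU A0 v b q f0 (fun i j => (hcol i j).1) hb0 s t hdet fun f => by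
    rcases hn f with h | h
    · exact Or.inl h.2
    · exact Or.inr h.2
  refine ⟨r, _, hQU, hM.1, fun B => ?_⟩
  rw [hM.2 B]
  refine exists_congr fun f => and_congr_right fun _ => and_congr_right fun _ => ?_
  rw [hunit f]
  rcases hn f with h | h
  · simp [h.1, h.2.1, h.2.2]
  · refine ⟨fun _ => ?_, fun _ => h.1⟩
    rintro ⟨h1, h2⟩
    have := h.2
    simp [h1, h2] at this

end Pool.Agent.Lib.MP_10bdcf_co
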