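import Mathlib

/-!
A finite search in rank four over the field with 251 elements.
-/

namespace Pool.Agent.Lib.MP_10bdcf_co.G.R4

/-- Vectors. -/
abbrev V : Type := ℕ × ℕ × ℕ × ℕ

/-- The values of zero, one and the fundamental elements. -/
def sv : List ℕ :=
  [0, 1, 93, 7, 227, 25, 159, 181, 43, 248, 153, 85, 189, 105, 167, 216, 147, 30, 241, 115, 36, 27, 245, 222, 11, 71, 4, 63, 99, 137, 225, 209]

/-- The table of inverses in base 256. -/
def inv : ℕ :=
  28759622307582194335524256453488951012154142876764343557933938021670814403382372357883566130638936589986783841994205693407139236656228370258721200137841701088841475779673840226265770130364136893945655104283971878665645429802599023249630728587446143090853936218955450066759009779006494174594637379006846692048388231125089960418389021386038633306336908585009783479314422286500918485999897147160193414703260863731915295831736370911585520702011805448912331516762400981678144650236931815965969834574620413768112966381166421135257853046402130879148402795690107866393205740222334118228814647915530339883088216320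

/-- The set `sv` as a bit mask. -/
def mask : ℕ :=
  512385925231319838608134856090970355761198570712353077750876843794990368915

/-- The quotient is in the list. -/
def ok (a b : ℕ) : Bool :=
  Nat.beq b 0 || Nat.beq ((mask.shiftRight ((a.mul ((inv.shiftRight (Nat.mul 8 b)).mod 256)).mod 251)).mod 2) 1

/-- The test for one vector on three coordinates. -/
def t1 (a b c : ℕ) : Bool := ok ((a.add (c.mul 250)).mod 251) ((b.add (c.mul 250)).mod 251)

/-- The test for two vectors on three coordinates. -/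
def t2 (a b c a' b' c' : ℕ) : Bool :=
  ok (((a.add (c.mul 250)).mul (b'.add (c'.mul 250))).mod 251)
    (((b.add (c.mul 250)).mul (a'.add (c'.mul 250))).mod 251)

/-- The test for two vectors on two coordinates. -/
def t0 (a b a' b' : ℕ) : Bool := ok ((a.mul b').mod 251) ((b.mul a').mod 251)

/-- All tests for one vector. -/
def ok1 : V → Bool
  | (a, b, c, d) => ok a b && ok a c && ok a d && ok b c && ok b d && ok c d &&
      t1 a b c && t1 a b d && t1 a c d && t1 b c d

/-- All tests for two vectors. -/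
def ok2 : V → V → Bool
  | (a, b, c, d), (a', b', c', d') => t0 a b a' b' && t0 a c a' c' && t0 b c b' c' &&
      t2 a b c a' b' c' && t2 a b d a' b' d' && t2 a c d a' c' d' && t2 b c d b' c' d' &&
      t0 a d a' d' && t0 b d b' d' && t0 c d c' d'

/-- A determinant of size two, before reduction. -/
def d2 (a b a' b' : ℕ) : ℕ := (a.mul b').add ((b.mul a').mul 250)

/-- The determinant. -/
def dn : V → V → V → V → ℕ
  | (a, b, c, d), (a', b', c', d'), (e, f, g, h), (e', f', g', h') =>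
    (((((d2 a b a' b').mul (d2 g h g' h')).add ((d2 a d a' d').mul (d2 f g f' g'))).add
      (((d2 b c b' c').mul (d2 e h e' h')).add ((d2 c d c' d').mul (d2 e f e' f')))).add
      ((((d2 a c a' c').mul (d2 f h f' h')).add ((d2 b d b' d').mul (d2 e g e' g'))).mul 250)).mod 251

/-- The five points of the circuit. -/
def f0 : V := (1, 0, 0, 0)
/-- The five points of the circuit. -/
def f1 : V := (0, 1, 0, 0)
/-- The five points of the circuit. -/
def f2 : V := (0, 0, 1, 0)
/-- The five points of the circuit. -/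
def f3 : V := (0, 0, 0, 1)
/-- The five points of the circuit. -/
def f4 : V := (1, 1, 1, 1)

/-- The test of a three term relation. -/
def pl (k l p q r s : V) : Bool :=
  ok (((dn k l p q).mul (dn k l r s)).mod 251) (((dn k l p r).mul (dn k l q s)).mod 251)

/-- Not on a line. -/
def nt (p q r : V) : Bool :=
  !(Nat.beq (dn p q r f0) 0 && Nat.beq (dn p q r f1) 0 && Nat.beq (dn p q r f2) 0 &&
    Nat.beq (dn p q r f3) 0)

/-- Not on a plane. -/
def np (p q r s t : V) : Bool := !(Nat.beq (dn p q r s) 0 && Nat.beq (dn p q r t) 0)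

/-- No triangle with two points of the circuit. -/
def nt1 (y : V) : Bool := nt f0 f1 y && nt f0 f2 y && nt f0 f3 y && nt f0 f4 y && nt f1 f2 y &&
  nt f1 f3 y && nt f1 f4 y && nt f2 f3 y && nt f2 f4 y && nt f3 f4 y

/-- No triangle with one point of the circuit. -/
def nt2 (x y : V) : Bool := nt f4 x y && nt f3 x y && nt f0 x y && nt f1 x y && nt f2 x y

/-- All tests for a second point. -/
def g2 (x y : V) : Bool := ok1 y && ok2 x y && nt1 y && nt2 x y

/-- Equality of vectors. -/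
def eqv : V → V → Bool
  | (a, b, c, d), (a', b', c', d') => Nat.beq a a' && Nat.beq b b' && Nat.beq c c' && Nat.beq d d'

/-- The list `L` has all points outside the plane that pass the tests. -/
def cover (s t : ℕ) (L : List V) : Bool :=
  sv.all fun a => sv.all fun b => !(ok a b && t1 a b 1 && t0 1 s a b && t2 1 s 0 a b 1) ||
    sv.all fun c => !g2 (1, s, t, 0) (a, b, c, 1) || L.any (eqv (a, b, c, 1))

/-- The tests for three points when no plane has five points. -/
def fin1 (x y z : V) : Bool := pl x z f0 f1 f2 y && nt2 y z && pl f0 z f1 f2 x y &&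
  pl f2 x f0 f4 y z && pl f3 y f2 f4 x z && pl f3 z f1 f4 x y && pl f4 z f1 f3 x y &&
  pl f1 y f0 f2 x z && pl f3 z f0 f4 x y

/-- No plane has five points. -/
def np2 (x y : V) : Bool := np f0 f3 f4 x y && np f1 f3 f4 x y && np f2 f3 f4 x y

/-- The first search. -/
def one (x : V) (L : List V) : Bool :=
  (L.filter (np2 x)).all fun y => (L.filter (np2 x)).all fun z => !(ok2 y z && fin1 x y z)

/-- The tests for a point outside a plane with five points. -/
def g3 (x x' y : V) : Bool := ok2 x' y && pl x x' f0 f3 f4 y && pl x x' f1 f3 f4 y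

/-- The second search. -/
def two (x : V) (L : List V) : Bool :=
  sv.all fun s => sv.all fun t => !(g2 x (1, s, t, 0) && pl f4 x f0 f1 f2 (1, s, t, 0)) ||
    (L.filter (g3 x (1, s, t, 0))).all fun y => (L.filter (g3 x (1, s, t, 0))).all fun z =>
      !(ok2 y z && nt2 y z && pl x y f0 f1 f2 z)

/-- Candidates. -/
def L0 : List V :=
  [(0, 93, 1, 1), (0, 7, 1, 1), (0, 7, 7, 1), (0, 227, 105, 1), (0, 25, 1, 1), (0, 159, 167, 1),
   (0, 181, 1, 1), (0, 189, 1, 1), (0, 105, 105, 1), (0, 167, 167, 1), (0, 216, 216, 1), (0, 11,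
   11, 1), (0, 71, 11, 1), (0, 63, 225, 1), (0, 225, 225, 1), (0, 209, 1, 1), (1, 93, 85, 1), (1,
   227, 0, 1), (1, 25, 147, 1), (1, 159, 0, 1), (1, 181, 241, 1), (1, 43, 0, 1), (1, 85, 85, 1),
   (1, 189, 27, 1), (1, 147, 147, 1), (1, 241, 241, 1), (1, 36, 36, 1), (1, 27, 27, 1), (1, 245,
   0, 1), (1, 245, 245, 1), (1, 71, 0, 1), (1, 63, 0, 1), (93, 0, 1, 1), (93, 1, 85, 1), (93, 93,
   1, 1), (93, 7, 1, 1), (93, 85, 85, 1), (7, 0, 1, 1), (7, 0, 7, 1), (7, 93, 1, 1), (7, 25, 1,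
   1), (7, 181, 1, 1), (7, 189, 1, 1), (227, 0, 105, 1), (227, 1, 0, 1), (227, 227, 0, 1), (227,
   105, 105, 1), (227, 245, 0, 1), (25, 0, 1, 1), (25, 1, 147, 1), (25, 7, 1, 1), (25, 25, 1, 1),
   (25, 147, 147, 1), (159, 0, 167, 1), (159, 1, 0, 1), (159, 159, 0, 1), (159, 167, 167, 1),
   (159, 245, 0, 1), (181, 0, 1, 1), (181, 1, 241, 1), (181, 7, 1, 1), (181, 181, 1, 1), (181,
   241, 241, 1), (43, 1, 0, 1), (43, 43, 0, 1), (85, 1, 85, 1), (85, 93, 85, 1), (189, 0, 1, 1),
   (189, 1, 27, 1), (189, 7, 1, 1), (189, 189, 1, 1), (189, 27, 27, 1), (105, 0, 105, 1), (105,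
   227, 105, 1), (167, 0, 167, 1), (167, 159, 167, 1), (216, 0, 216, 1), (147, 1, 147, 1), (147,
   25, 147, 1), (241, 1, 241, 1), (241, 181, 241, 1), (36, 1, 36, 1), (27, 1, 27, 1), (27, 189,
   27, 1), (245, 1, 0, 1), (245, 1, 245, 1), (245, 227, 0, 1), (245, 159, 0, 1), (245, 71, 0, 1),
   (245, 63, 0, 1), (11, 0, 11, 1), (11, 71, 11, 1), (71, 0, 11, 1), (71, 1, 0, 1), (71, 245, 0,
   1), (71, 11, 11, 1), (71, 71, 0, 1), (63, 0, 225, 1), (63, 1, 0, 1), (63, 245, 0, 1), (63, 63,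
   0, 1), (63, 225, 225, 1), (225, 0, 225, 1), (225, 63, 225, 1), (209, 0, 1, 1), (209, 209, 1,
   1)]

/-- Candidates. -/
def L1 : List V :=
  [(0, 1, 93, 1), (0, 1, 7, 1), (0, 1, 25, 1), (0, 1, 181, 1), (0, 1, 189, 1), (0, 1, 209, 1), (0,
   7, 7, 1), (0, 105, 227, 1), (0, 105, 105, 1), (0, 167, 159, 1), (0, 167, 167, 1), (0, 216, 216,
   1), (0, 11, 11, 1), (0, 11, 71, 1), (0, 225, 63, 1), (0, 225, 225, 1), (1, 0, 227, 1), (1, 0,
   159, 1), (1, 0, 43, 1), (1, 0, 245, 1), (1, 0, 71, 1), (1, 0, 63, 1), (1, 85, 93, 1), (1, 85,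
   85, 1), (1, 147, 25, 1), (1, 147, 147, 1), (1, 241, 181, 1), (1, 241, 241, 1), (1, 36, 36, 1),
   (1, 27, 189, 1), (1, 27, 27, 1), (1, 245, 245, 1), (93, 1, 0, 1), (93, 1, 93, 1), (93, 1, 7,
   1), (93, 85, 1, 1), (93, 85, 85, 1), (7, 1, 0, 1), (7, 1, 93, 1), (7, 1, 25, 1), (7, 1, 181,
   1), (7, 1, 189, 1), (7, 7, 0, 1), (227, 0, 1, 1), (227, 0, 227, 1), (227, 0, 245, 1), (227,
   105, 0, 1), (227, 105, 105, 1), (25, 1, 0, 1), (25, 1, 7, 1), (25, 1, 25, 1), (25, 147, 1, 1),
   (25, 147, 147, 1), (159, 0, 1, 1), (159, 0, 159, 1), (159, 0, 245, 1), (159, 167, 0, 1), (159,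
   167, 167, 1), (181, 1, 0, 1), (181, 1, 7, 1), (181, 1, 181, 1), (181, 241, 1, 1), (181, 241,
   241, 1), (43, 0, 1, 1), (43, 0, 43, 1), (85, 85, 1, 1), (85, 85, 93, 1), (189, 1, 0, 1), (189,
   1, 7, 1), (189, 1, 189, 1), (189, 27, 1, 1), (189, 27, 27, 1), (105, 105, 0, 1), (105, 105,
   227, 1), (167, 167, 0, 1), (167, 167, 159, 1), (216, 216, 0, 1), (147, 147, 1, 1), (147, 147,
   25, 1), (241, 241, 1, 1), (241, 241, 181, 1), (36, 36, 1, 1), (27, 27, 1, 1), (27, 27, 189, 1),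
   (245, 0, 1, 1), (245, 0, 227, 1), (245, 0, 159, 1), (245, 0, 71, 1), (245, 0, 63, 1), (245,
   245, 1, 1), (11, 11, 0, 1), (11, 11, 71, 1), (71, 0, 1, 1), (71, 0, 245, 1), (71, 0, 71, 1),
   (71, 11, 0, 1), (71, 11, 11, 1), (63, 0, 1, 1), (63, 0, 245, 1), (63, 0, 63, 1), (63, 225, 0,
   1), (63, 225, 225, 1), (225, 225, 0, 1), (225, 225, 63, 1), (209, 1, 0, 1), (209, 1, 209, 1)]

/-- Candidates. -/
def L2 : List V :=
  [(0, 1, 7, 1), (0, 1, 105, 1), (0, 1, 167, 1), (0, 1, 216, 1), (0, 1, 11, 1), (0, 1, 225, 1),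
   (0, 7, 1, 1), (0, 7, 7, 1), (0, 105, 1, 1), (0, 105, 105, 1), (0, 105, 216, 1), (0, 167, 1, 1),
   (0, 167, 167, 1), (0, 167, 216, 1), (0, 216, 1, 1), (0, 216, 105, 1), (0, 216, 167, 1), (0,
   216, 11, 1), (0, 216, 225, 1), (0, 11, 1, 1), (0, 11, 216, 1), (0, 11, 11, 1), (0, 225, 1, 1),
   (0, 225, 216, 1), (0, 225, 225, 1), (1, 0, 85, 1), (1, 0, 147, 1), (1, 0, 241, 1), (1, 0, 36,
   1), (1, 0, 27, 1), (1, 0, 245, 1), (1, 85, 0, 1), (1, 85, 85, 1), (1, 85, 36, 1), (1, 147, 0,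
   1), (1, 147, 147, 1), (1, 147, 36, 1), (1, 241, 0, 1), (1, 241, 241, 1), (1, 241, 36, 1), (1,
   36, 0, 1), (1, 36, 85, 1), (1, 36, 147, 1), (1, 36, 241, 1), (1, 36, 27, 1), (1, 27, 0, 1), (1,
   27, 36, 1), (1, 27, 27, 1), (1, 245, 0, 1), (1, 245, 245, 1), (93, 1, 93, 1), (93, 1, 85, 1),
   (93, 93, 1, 1), (93, 93, 85, 1), (93, 85, 1, 1), (93, 85, 93, 1), (7, 1, 7, 1), (7, 7, 1, 1),
   (227, 0, 227, 1), (227, 0, 105, 1), (227, 227, 0, 1), (227, 227, 105, 1), (227, 105, 0, 1),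
   (227, 105, 227, 1), (25, 1, 25, 1), (25, 1, 147, 1), (25, 25, 1, 1), (25, 25, 147, 1), (25,
   147, 1, 1), (25, 147, 25, 1), (159, 0, 159, 1), (159, 0, 167, 1), (159, 159, 0, 1), (159, 159,
   167, 1), (159, 167, 0, 1), (159, 167, 159, 1), (181, 1, 181, 1), (181, 1, 241, 1), (181, 181,
   1, 1), (181, 181, 241, 1), (181, 241, 1, 1), (181, 241, 181, 1), (43, 0, 43, 1), (43, 43, 0,
   1), (189, 1, 189, 1), (189, 1, 27, 1), (189, 189, 1, 1), (189, 189, 27, 1), (189, 27, 1, 1),
   (189, 27, 189, 1), (245, 0, 245, 1), (245, 245, 0, 1), (71, 0, 11, 1), (71, 0, 71, 1), (71, 11,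
   0, 1), (71, 11, 71, 1), (71, 71, 0, 1), (71, 71, 11, 1), (63, 0, 63, 1), (63, 0, 225, 1), (63,
   63, 0, 1), (63, 63, 225, 1), (63, 225, 0, 1), (63, 225, 63, 1), (209, 1, 209, 1), (209, 209, 1,
   1)]

/-- Candidates. -/
def L3 : List V :=
  [(0, 1, 248, 1), (0, 105, 105, 1), (0, 167, 1, 1), (0, 216, 216, 1), (1, 0, 4, 1), (1, 85, 0,
   1), (1, 147, 147, 1), (1, 36, 36, 1), (93, 85, 0, 1), (93, 85, 93, 1), (7, 1, 7, 1), (227, 0,
   227, 1), (25, 1, 25, 1), (159, 167, 1, 1), (159, 167, 159, 1), (181, 181, 1, 1), (189, 1, 0,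
   1), (189, 27, 27, 1), (30, 30, 248, 1), (241, 241, 1, 1), (245, 0, 245, 1), (222, 222, 4, 1),
   (11, 11, 0, 1), (71, 71, 0, 1), (63, 0, 1, 1), (63, 225, 225, 1)]

theorem cover0 : cover 1 36 L0 = true := by decide +kernel

theorem one0 : one (1, 1, 36, 0) L0 = true := by decide +kernel

theorem two0 : two (1, 1, 36, 0) L0 = true := by decide +kernel

theorem cover1 : cover 36 1 L1 = true := by decide +kernel

theorem one1 : one (1, 36, 1, 0) L1 = true := by decide +kernel

theorem two1 : two (1, 36, 1, 0) L1 = true := by decide +kernel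

theorem cover2 : cover 36 36 L2 = true := by decide +kernel

theorem one2 : one (1, 36, 36, 0) L2 = true := by decide +kernel

theorem two2 : two (1, 36, 36, 0) L2 = true := by decide +kernel

theorem cover3 : cover 36 147 L3 = true := by decide +kernel

theorem one3 : one (1, 36, 147, 0) L3 = true := by decide +kernel

theorem two3 : two (1, 36, 147, 0) L3 = true := by decide +kernel

theorem ok_mul : ∀ s ∈ sv, ∀ b < 251, ok (s * b % 251) b = true := by decide +kernel

end Pool.Agent.Lib.MP_10bdcf_co.G.R4
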