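import Pool.Agent.Lib.MP_10bdcf_co.UT

/-!
Fundamental elements, compatible pairs, automorphisms and a finite proxy.
-/

namespace Pool.Agent.Lib.MP_10bdcf_co.G

/-- A fundamental element. -/
def Fund (p : R0) : Prop := InG p ∧ InG (1 - p)

/-- A compatible pair of fundamental elements. -/
def Cp (p q : R0) : Prop := Fund p ∧ Fund q ∧ InG (p - q)

/-- Zero, one or a fundamental element. -/
def InS (p : R0) : Prop := p = 0 ∨ p = 1 ∨ Fund p

theorem fund_iff_mo {p : R0} : Fund p ↔ ∃ m ∈ fundL, p = mo m := by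
  constructor
  · rintro ⟨⟨m, rfl⟩, h⟩
    exact ⟨m, inG_one_sub.1 h, rfl⟩
  · rintro ⟨m, h, rfl⟩
    exact ⟨⟨m, rfl⟩, inG_one_sub.2 h⟩

theorem up_sub {m n : Mo} (h : m - n ∈ fundL) : n - m ∈ fundL := neg_sub m n ▸ neg_mem_fund _ h

theorem cp_iff_mo {p q : R0} :
    Cp p q ↔ ∃ m ∈ fundL, ∃ n ∈ fundL, m - n ∈ fundL ∧ p = mo m ∧ q = mo n := by
  constructor
  · rintro ⟨h1, h2, h⟩
    obtain ⟨m, hm, rfl⟩ := fund_iff_mo.1 h1
    obtain ⟨n, hn, rfl⟩ := fund_iff_mo.1 h2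
    exact ⟨m, hm, n, hn, up_sub (inG_sub.1 h), rfl, rfl⟩
  · rintro ⟨m, hm, n, hn, h, rfl, rfl⟩
    exact ⟨fund_iff_mo.2 ⟨m, hm, rfl⟩, fund_iff_mo.2 ⟨n, hn, rfl⟩, inG_sub.2 (up_sub h)⟩

theorem InG.of_mul_left {a b : R0} (ha : InG a) (hab : InG (a * b)) : InG b := by
  obtain ⟨c, hc, h⟩ := ha.exists_inv
  convert hc.mul hab using 1
  linear_combination (-b) * h

theorem InP.of_mul_left {a b : R0} (ha : InG a) (hab : InP (a * b)) : InP b := by
  obtain ⟨c, hc, h⟩ := ha.exists_inv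
  convert InP.mul (Or.inr hc) hab using 1
  linear_combination (-b) * h

theorem Tw.ne {F : Type} [Field F] {x y : R0 →+* F} (h : Tw x y) {p : R0} (hp : Fund p) :
    x p ≠ y p := by
  obtain ⟨m, hm, rfl⟩ := fund_iff_mo.1 hp
  exact h m hm

theorem der_pair {F : Type} [Field F] (x : R0 →+* F) {p q : R0} (h : Cp p q) {v : F × F}
    (h1 : der x v p = 0) (h2 : der x v q = 0) : v = 0 := by
  obtain ⟨m, hm, n, hn, h', rfl, rfl⟩ := cp_iff_mo.1 h
  exact der_two x hm hn (ty_ne_of_sub m hm n hn h') h1 h2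

theorem Fund.exists_cp {p : R0} (h : Fund p) : ∃ q, Cp p q := by
  obtain ⟨m, hm, rfl⟩ := fund_iff_mo.1 h
  obtain ⟨n, hn, h⟩ := exists_fifth m hm
  exact ⟨mo n, cp_iff_mo.2 ⟨m, hm, n, hn, h, rfl, rfl⟩⟩

theorem Fund.der_line {F : Type} [Field F] (x : R0 →+* F) {p : R0} (h : Fund p) :
    ∃ w : F × F, w ≠ 0 ∧ ∀ v, der x v p = 0 ↔ ∃ c : F, v = c • w := by
  obtain ⟨m, hm, rfl⟩ := fund_iff_mo.1 h
  obtain ⟨w, hw, h0⟩ := exists_der_zero x hm
  refine ⟨w, hw, fun v => ⟨G.der_line x hm hw h0, ?_⟩⟩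
  rintro ⟨c, rfl⟩
  rw [der_smul_v, h0, mul_zero]

/-- The monomials as a homomorphism. -/
noncomputable def upHom : Mo →+ Additive R0ˣ :=
  AddMonoidHom.mk' (fun m => Additive.ofMul (moU m)) moU_add

theorem up_zsmul (k : ℤ) (m : Mo) : moU (k • m) = moU m ^ k := map_zsmul upHom k m

theorem up_pow (k : ℕ) (m : Mo) : mo m ^ k = mo ((k : ℤ) • m) := by
  rw [mo, mo, up_zsmul, zpow_natCast, Units.val_pow_eq_pow_val]

/-- The five exponents. -/
def upCo (m : Mo) : Fin 5 → ℤ := ![m.2.1, m.2.2.1, m.2.2.2.1, m.2.2.2.2.1, m.2.2.2.2.2]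

theorem up_det : ∀ m ∈ fundL, ∀ n ∈ fundL, m - n ∈ fundL →
    ∃ c d, upCo m c * upCo n d ≠ upCo m d * upCo n c := by
  decide +kernel

theorem Cp.indep {p q : R0} (h : Cp p q) {i j k l : ℕ} (he : p ^ i * q ^ j = p ^ k * q ^ l) :
    i = k ∧ j = l := by
  obtain ⟨m, hm, n, hn, h', rfl, rfl⟩ := cp_iff_mo.1 h
  obtain ⟨c, d, hd⟩ := up_det m hm n hn h'
  simp only [up_pow, ← mo_add] at he
  have e : ∀ (a b : ℤ) c, upCo (a • m + b • n) c = a * upCo m c + b * upCo n c := fun a b c => by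
    fin_cases c <;> rfl
  have h1 := congrFun (congrArg upCo (mo_inj he)) c
  have h2 := congrFun (congrArg upCo (mo_inj he)) d
  rw [e, e] at h1 h2
  have h3 : (i : ℤ) = k := mul_right_cancel₀ (sub_ne_zero.2 hd)
    (by linear_combination upCo n d * h1 - upCo n c * h2)
  have h4 : (j : ℤ) = l := mul_right_cancel₀ (sub_ne_zero.2 hd)
    (by linear_combination upCo m c * h2 - upCo m d * h1)
  omega

theorem not_inP_two : ¬ InP 2 := by
  intro h
  have : InP (mo 0 + mo 0) := by rwa [mo_zero, one_add_one_eq_two]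
  exact absurd (inP_add.1 this) (by decide +kernel)

theorem no_three_cp {p q r : R0} (h1 : Cp p q) (h2 : Cp p r) (h3 : Cp q r) : False := by
  obtain ⟨m, hm, n, hn, h, rfl, rfl⟩ := cp_iff_mo.1 h1
  obtain ⟨k, hk, rfl⟩ := fund_iff_mo.1 h2.2.1
  exact no_sixth m hm n hn h k hk (up_sub (inG_sub.1 h2.2.2)) (up_sub (inG_sub.1 h3.2.2))

theorem fund_neg {p : R0} (h1 : Fund p) (h2 : Fund (-p)) : False := by
  obtain ⟨m, hm, rfl⟩ := fund_iff_mo.1 h1
  rw [← mo_add_sg] at h2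
  exact not_both_signs m hm (inG_one_sub.1 h2.2)

theorem Cp.no_sum {p q : R0} (h : Cp p q) : p + q ≠ 1 ∧ 1 + p ≠ q ∧ 1 + q ≠ p := by
  refine ⟨fun e => ?_, fun e => fund_neg h.1 ⟨h.1.1.neg, ?_⟩,
    fun e => fund_neg h.2.1 ⟨h.2.1.1.neg, ?_⟩⟩
  · obtain ⟨m, hm, n, hn, h', rfl, rfl⟩ := cp_iff_mo.1 h
    exact ty_ne_of_sub m hm n hn h' (ty_fundP _ (fund_iff.1 e))
  · rw [sub_neg_eq_add, e]
    exact h.2.1.1
  · rw [sub_neg_eq_add, e]
    exact h.1.1

instance fact_p0 : Fact (Nat.Prime 1000003) := ⟨by norm_num⟩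

/-- The proxy field. -/
abbrev Fp : Type := ZMod 1000003

/-- The proxy point. -/
noncomputable def x0 : R0 →+* Fp := pt 123457 765431 (by
  exact IsUnit.mk0 _ (by decide +kernel))

/-- The values of zero, one and the fundamental elements, in the order of `fundL`. -/
def pvL : List ℕ :=
  [0, 1, 29814, 307687, 538443, 461561, 970190, 643638, 585109, 361707, 227529,
   735958, 458018, 234573, 264046, 876547, 765431, 28008, 378183, 606872, 123457, 358591,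
   692317, 971996, 621821, 356366, 638297, 541986, 772475, 393132, 641413, 414895]

/-- Zero, one and the fundamental elements. -/
noncomputable def valL : List R0 := 0 :: 1 :: fundL.map mo

theorem inS_iff {z : R0} : InS z ↔ z ∈ valL := by
  simp only [InS, valL, fund_iff_mo, List.mem_cons, List.mem_map, eq_comm (b := z)]

theorem up_a0 : x0 a0 = 123457 := pt_a0 _ _ _

theorem up_b0 : x0 b0 = 765431 := pt_b0 _ _ _

/-- A power, given the inverse. -/
def upPow (a a' : Fp) (e : ℤ) : Fp := a ^ e.toNat * a' ^ (-e).toNat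

theorem up_zpow {a a' : Fp} (h : a * a' = 1) (e : ℤ) : a ^ e = upPow a a' e := by
  rw [upPow, eq_inv_of_mul_eq_one_right h, inv_pow, ← zpow_natCast, ← zpow_natCast,
    ← div_eq_mul_inv, ← zpow_sub₀ (left_ne_zero_of_mul_eq_one h), Int.toNat_sub_toNat_neg]

/-- The value of a monomial at the proxy point. -/
def upVal (m : Mo) : Fp :=
  (if m.1 = 0 then 1 else -1) * upPow 123457 307687 m.2.1 * upPow 765431 643638 m.2.2.1 *
    upPow (1 - 123457) 585109 m.2.2.2.1 * upPow (1 - 765431) 227529 m.2.2.2.2.1 *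
    upPow (123457 - 765431) 64886 m.2.2.2.2.2

theorem up_val (m : Mo) : x0 (mo m) = upVal m := by
  rw [map_mo, up_a0, up_b0, upVal, ← up_zpow, ← up_zpow, ← up_zpow, ← up_zpow, ← up_zpow] <;>
    decide +kernel

theorem x0_valL : valL.map x0 = pvL.map fun n : ℕ => (n : Fp) := by
  have : fundL.map (x0 ∘ mo) = fundL.map upVal := List.map_congr_left fun m _ => up_val m
  rw [valL, List.map_cons, List.map_cons, List.map_map, this, map_zero, map_one]
  decide +kernel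

theorem inS_x0 {z : R0} (h : InS z) : (x0 z).val ∈ pvL := by
  have h1 := List.mem_map_of_mem (f := x0) (inS_iff.1 h)
  rw [x0_valL] at h1
  obtain ⟨n, hn, e⟩ := List.mem_map.1 h1
  rw [← e, ZMod.val_cast_of_lt ((by decide +kernel : ∀ n ∈ pvL, n < 1000003) n hn)]
  exact hn

theorem inS_inj {z z' : R0} (h : InS z) (h' : InS z') (he : x0 z = x0 z') : z = z' := by
  refine List.inj_on_of_nodup_map (f := x0) ?_ (inS_iff.1 h) (inS_iff.1 h') he
  rw [x0_valL]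
  decide +kernel

/-- The test for a difference in the partial field, on natural numbers below the prime. -/
def okD (a b : ℕ) : Bool := b == 0 || pvL.any fun s => (s * b) % 1000003 == a

theorem okD_of {a b : R0} (ha : InP a) (hb : InP b) (hab : InP (a - b)) :
    okD (x0 a).val (x0 b).val = true := by
  rcases hb with rfl | ⟨n, rfl⟩
  · simp [okD]
  obtain ⟨s, hs, rfl⟩ : ∃ s, InS s ∧ a = s * mo n := by
    rcases ha with rfl | ⟨m, rfl⟩
    · exact ⟨0, Or.inl rfl, (zero_mul _).symm⟩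
    · refine ⟨mo (m - n), Or.inr ?_, by rw [← mo_add, sub_add_cancel]⟩
      exact (inP_sub.1 hab).imp (fun h => by rw [h, sub_self, mo_zero])
        fun h => fund_iff_mo.2 ⟨_, up_sub h, rfl⟩
  rw [okD, Bool.or_eq_true, List.any_eq_true]
  exact Or.inr ⟨_, inS_x0 hs, by rw [map_mul, ZMod.val_mul, beq_iff_eq]⟩

/-- The first logarithmic derivative at the proxy point. -/
def upL0 (m : Mo) : ℤ := m.2.1 * 307687 - m.2.2.2.1 * 585109 + m.2.2.2.2.2 * 64886

/-- The second logarithmic derivative at the proxy point. -/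
def upL1 (m : Mo) : ℤ := m.2.2.1 * 643638 - m.2.2.2.2.1 * 227529 - m.2.2.2.2.2 * 64886

theorem up_der (v : Fp × Fp) (m : Mo) :
    der x0 v (mo m) = x0 (mo m) * (upL0 m * v.1 + upL1 m * v.2) := by
  have e : ∀ a a' : Fp, a * a' = 1 → ∀ c, c / a = c * a' := fun a a' h c => by
    rw [div_eq_mul_inv, eq_inv_of_mul_eq_one_right h]
  rw [der_mo, up_a0, up_b0, e _ 307687 (by decide +kernel), e _ 643638 (by decide +kernel),
    e _ 585109 (by decide +kernel), e _ 227529 (by decide +kernel), e _ 64886 (by decide +kernel),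
    upL0, upL1]
  push_cast
  ring

/-- The determinant of two logarithmic derivatives. -/
def upD (j m : Mo) : ℤ := (upL0 j * upL1 m - upL1 j * upL0 m) % (1000003 : ℕ)

theorem up_fl2 : ∀ j ∈ fundL, ∀ p ∈ fundL, ty j ≠ ty p → ∀ q ∈ fundL, upD j p = upD j q →
    p = q ∨ q - p ∈ fundL := by
  decide +kernel

/-- Two fundamental elements that move at the same logarithmic speed along a pencil are equal or
compatible. -/
theorem fl2 {j p q : R0} (hj : Fund j) (hp : Fund p) (hq : Fund q) {v : Fp × Fp} (hv : v ≠ 0)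
    (h0 : der x0 v j = 0) (h1 : der x0 v p ≠ 0) (h2 : x0 q * der x0 v p = x0 p * der x0 v q) :
    p = q ∨ InG (p - q) := by
  obtain ⟨j, hj', rfl⟩ := fund_iff_mo.1 hj
  obtain ⟨p, hp', rfl⟩ := fund_iff_mo.1 hp
  obtain ⟨q, hq', rfl⟩ := fund_iff_mo.1 hq
  have n : ∀ m, x0 (mo m) ≠ 0 := fun m => InG.map_ne_zero x0 ⟨m, rfl⟩
  refine (up_fl2 j hj' p hp' (fun h => h1 (der_same x0 hj' hp' h h0)) q hq' ?_).imp
    (congrArg mo) inG_sub.2
  rw [up_der, mul_eq_zero_iff_left (n j)] at h0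
  rw [up_der, up_der, mul_left_comm, mul_right_inj' (n p), mul_right_inj' (n q)] at h2
  rw [upD, upD, ← ZMod.intCast_eq_intCast_iff']
  push_cast
  by_contra hc
  refine hv (Prod.ext ((mul_eq_zero_iff_left (sub_ne_zero.2 hc)).1 ?_)
    ((mul_eq_zero_iff_left (sub_ne_zero.2 hc)).1 ?_))
  · linear_combination ((upL1 p : Fp) - upL1 q) * h0 - (upL1 j : Fp) * h2
  · linear_combination ((upL0 q : Fp) - upL0 p) * h0 + (upL0 j : Fp) * h2

/-- The action of a substitution on exponent vectors. -/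
def upLin (a b c : Mo × Mo) (e : Mo) : Mo :=
  (e.1, 0) + e.2.1 • a.1 + e.2.2.1 • b.1 + e.2.2.2.1 • a.2 + e.2.2.2.2.1 • b.2 +
    e.2.2.2.2.2 • (a.1 + c.2)

set_option synthInstance.maxSize 1024 in
theorem up_fin : ∀ a ∈ fundP, ∀ b ∈ fundP, ∀ c ∈ fundP, c.1 = b.1 - a.1 →
    ∃ m ∈ fundL, upLin a b c m = (0, 1, 0, 0, 0, 0) ∧
      ∃ n ∈ fundL, upLin a b c n = (0, 0, 1, 0, 0, 0) ∧ m - n ∈ fundL := by
  decide +kernel

theorem up_lin {ψ : R0 →+* R0} (h : Cp (ψ a0) (ψ b0)) : ∃ a ∈ fundP, ∃ b ∈ fundP, ∃ c ∈ fundP,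
    c.1 = b.1 - a.1 ∧ ∀ e, ψ (mo e) = mo (upLin a b c e) := by
  obtain ⟨m, hm, n, hn, h, e0, e1⟩ := cp_iff_mo.1 h
  obtain ⟨a, ha, rfl⟩ := List.mem_map.1 hm
  obtain ⟨b, hb, rfl⟩ := List.mem_map.1 hn
  obtain ⟨c, hc, e⟩ := List.mem_map.1 (up_sub h)
  refine ⟨a, ha, b, hb, c, hc, e, fun k => ?_⟩
  have s1 := fundP_sum a ha
  have s2 := fundP_sum b hb
  have s3 := fundP_sum c hc
  have s4 : mo a.1 * mo c.1 = mo b.1 := by rw [← mo_add, e, add_sub_cancel]
  let f := Units.map (ψ : R0 →* R0)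
  have f0 : f g0 = moU a.1 := Units.ext e0
  have f1 : f g1 = moU b.1 := Units.ext e1
  have f2 : f g2 = moU a.2 := Units.ext (show ψ (1 - a0) = mo _ by
    rw [map_sub, map_one, e0, ← s1, add_sub_cancel_left])
  have f3 : f g3 = moU b.2 := Units.ext (show ψ (1 - b0) = mo _ by
    rw [map_sub, map_one, e1, ← s2, add_sub_cancel_left])
  have f4 : f g4 = moU (a.1 + c.2) := Units.ext (show ψ (a0 - b0) = mo _ by
    rw [map_sub, e0, e1, mo_add]
    linear_combination s4 - mo a.1 * s3)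
  have f5 : f (if k.1 = 0 then 1 else -1) = moU (k.1, 0) := by
    by_cases hk : k.1 = 0 <;> simp [moU, hk, f]
  change ((f (moU k) : R0ˣ) : R0) = moU _
  rw [upLin, moU_add, moU_add, moU_add, moU_add, moU_add, up_zsmul, up_zsmul, up_zsmul, up_zsmul,
    up_zsmul, ← f0, ← f1, ← f2, ← f3, ← f4, ← f5, moU]
  simp only [map_mul, map_zpow]

theorem up_sec {ψ : R0 →+* R0} (h : Cp (ψ a0) (ψ b0)) :
    ∃ φ : R0 →+* R0, Cp (φ a0) (φ b0) ∧ ψ.comp φ = RingHom.id R0 := by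
  obtain ⟨a, ha, b, hb, c, hc, e, h⟩ := up_lin h
  obtain ⟨m, hm, e1, n, hn, e2, e3⟩ := up_fin a ha b hb c hc e
  have k : Cp (mo m) (mo n) := cp_iff_mo.2 ⟨m, hm, n, hn, e3, rfl, rfl⟩
  refine ⟨pt (mo m) (mo n) ((((k.1.1.mul k.2.1.1).mul k.1.2).mul k.2.1.2).mul k.2.2).isUnit,
    by rwa [pt_a0, pt_b0], hom_ext ?_ ?_⟩
  · rw [RingHom.comp_apply, pt_a0, h, e1]
    simp [mo, moU]
  · rw [RingHom.comp_apply, pt_b0, h, e2]
    simp [mo, moU]

theorem up_inG {ψ : R0 →+* R0} (h : Cp (ψ a0) (ψ b0)) {z : R0} (hz : InG z) : InG (ψ z) := by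
  obtain ⟨a, -, b, -, c, -, -, h⟩ := up_lin h
  obtain ⟨m, rfl⟩ := hz
  exact ⟨_, h m⟩

/-- Every compatible pair is the pair of indeterminates up to an automorphism. -/
theorem Cp.aut {p q : R0} (h : Cp p q) :
    ∃ φ : R0 ≃+* R0, φ p = a0 ∧ φ q = b0 ∧ ∀ z, InG (φ z) ↔ InG z := by
  obtain ⟨ψ, rfl, rfl⟩ : ∃ ψ : R0 →+* R0, ψ a0 = p ∧ ψ b0 = q :=
    ⟨pt p q ((((h.1.1.mul h.2.1.1).mul h.1.2).mul h.2.1.2).mul h.2.2).isUnit, pt_a0 _ _ _,
      pt_b0 _ _ _⟩
  obtain ⟨φ, h', e⟩ := up_sec h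
  obtain ⟨χ, -, e'⟩ := up_sec h'
  have e2 : φ.comp ψ = RingHom.id R0 := by
    rw [← ψ.comp_id, ← e', ← RingHom.comp_assoc χ, e, RingHom.id_comp, e']
  refine ⟨RingEquiv.ofRingHom φ ψ e2 e, RingHom.congr_fun e2 a0, RingHom.congr_fun e2 b0,
    fun z => ⟨fun hz => ?_, up_inG h'⟩⟩
  exact (show ψ (φ z) = z from RingHom.congr_fun e z) ▸ up_inG h hz

end Pool.Agent.Lib.MP_10bdcf_co.G
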