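import Pool.Agent.Lib.MP_10bdcf_co.RA
import Pool.Agent.Lib.MP_10bdcf_co.UP

/-!
Soundness of the finite search in rank four.
-/

namespace Pool.Agent.Lib.MP_10bdcf_co.G

instance fact_p1 : Fact (Nat.Prime 251) := ⟨by norm_num⟩

/-- The small proxy point. -/
noncomputable def x1 : R0 →+* ZMod 251 := pt 36 147 (by
  exact IsUnit.mk0 _ (by decide +kernel))

/-- The value at the small proxy point. -/
noncomputable def rvl (z : R0) : ℕ := (x1 z).val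

/-- Vectors of length four. -/
abbrev V4 : Type := R0 × R0 × R0 × R0

/-- The determinant of four vectors. -/
noncomputable def dt (p q r s : V4) : R0 :=
  (p.1 * q.2.1 - p.2.1 * q.1) * (r.2.2.1 * s.2.2.2 - r.2.2.2 * s.2.2.1) +
    (p.1 * q.2.2.2 - p.2.2.2 * q.1) * (r.2.1 * s.2.2.1 - r.2.2.1 * s.2.1) +
    (p.2.1 * q.2.2.1 - p.2.2.1 * q.2.1) * (r.1 * s.2.2.2 - r.2.2.2 * s.1) +
    (p.2.2.1 * q.2.2.2 - p.2.2.2 * q.2.2.1) * (r.1 * s.2.1 - r.2.1 * s.1) -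
    (p.1 * q.2.2.1 - p.2.2.1 * q.1) * (r.2.1 * s.2.2.2 - r.2.2.2 * s.2.1) -
    (p.2.1 * q.2.2.2 - p.2.2.2 * q.2.1) * (r.1 * s.2.2.1 - r.2.2.1 * s.1)

/-- The reduction of a vector. -/
noncomputable def rd (p : V4) : R4.V := (rvl p.1, rvl p.2.1, rvl p.2.2.1, rvl p.2.2.2)

/-- A set of vectors with all determinants in the partial field that has the five points. -/
structure Cf (X : Set V4) : Prop where
  det : ∀ p ∈ X, ∀ q ∈ X, ∀ r ∈ X, ∀ s ∈ X, InP (dt p q r s)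
  m0 : (1, 0, 0, 0) ∈ X
  m1 : (0, 1, 0, 0) ∈ X
  m2 : (0, 0, 1, 0) ∈ X
  m3 : (0, 0, 0, 1) ∈ X
  m4 : (1, 1, 1, 1) ∈ X

/-- Three vectors are independent. -/
def Nt (p q r : V4) : Prop := dt p q r (1, 0, 0, 0) ≠ 0 ∨ dt p q r (0, 1, 0, 0) ≠ 0 ∨
  dt p q r (0, 0, 1, 0) ≠ 0 ∨ dt p q r (0, 0, 0, 1) ≠ 0

/-- No triangle with two points of the circuit. -/
def Nt1 (y : V4) : Prop :=
  Nt (1, 0, 0, 0) (0, 1, 0, 0) y ∧ Nt (1, 0, 0, 0) (0, 0, 1, 0) y ∧ Nt (1, 0, 0, 0) (0, 0, 0, 1) y ∧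
  Nt (1, 0, 0, 0) (1, 1, 1, 1) y ∧ Nt (0, 1, 0, 0) (0, 0, 1, 0) y ∧ Nt (0, 1, 0, 0) (0, 0, 0, 1) y ∧
  Nt (0, 1, 0, 0) (1, 1, 1, 1) y ∧ Nt (0, 0, 1, 0) (0, 0, 0, 1) y ∧ Nt (0, 0, 1, 0) (1, 1, 1, 1) y ∧
  Nt (0, 0, 0, 1) (1, 1, 1, 1) y

/-- No triangle with one point of the circuit. -/
def Nt2 (x y : V4) : Prop := Nt (1, 0, 0, 0) x y ∧ Nt (0, 1, 0, 0) x y ∧ Nt (0, 0, 1, 0) x y ∧
  Nt (0, 0, 0, 1) x y ∧ Nt (1, 1, 1, 1) x y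

/-- No plane with five points of a certain kind. -/
def Np2 (x y : V4) : Prop := ∀ p ∈ [((1, 0, 0, 0) : V4), (0, 1, 0, 0), (0, 0, 1, 0)],
  dt p (0, 0, 0, 1) (1, 1, 1, 1) x ≠ 0 ∨ dt p (0, 0, 0, 1) (1, 1, 1, 1) y ≠ 0

variable {X : Set V4} {a b s t : R0} {p q r u k l x x' y z : V4}

theorem rvl_zero : rvl 0 = 0 := by
  rw [rvl, map_zero, ZMod.val_zero]

theorem rvl_one : rvl 1 = 1 := by
  rw [rvl, map_one, ZMod.val_one]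

theorem rb_a0 : x1 a0 = 36 := pt_a0 _ _ _

theorem rb_b0 : x1 b0 = 147 := pt_b0 _ _ _

theorem rvl_a0 : rvl a0 = 36 := by
  rw [rvl, rb_a0]
  decide +kernel

theorem rvl_b0 : rvl b0 = 147 := by
  rw [rvl, rb_b0]
  decide +kernel

theorem inS_of (h : InP a) (h' : InP (a - 1)) : InS a := by
  rcases h with h | h
  · exact Or.inl h
  rcases h' with h' | h'
  · exact Or.inr (Or.inl (sub_eq_zero.1 h'))
  · exact Or.inr (Or.inr ⟨h, neg_sub a 1 ▸ h'.neg⟩)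

/-- A power, given the inverse. -/
def rbPow (a a' : ZMod 251) (e : ℤ) : ZMod 251 := a ^ e.toNat * a' ^ (-e).toNat

theorem rb_zpow {a a' : ZMod 251} (h : a * a' = 1) (e : ℤ) : a ^ e = rbPow a a' e := by
  rw [rbPow, eq_inv_of_mul_eq_one_right h, inv_pow, ← zpow_natCast, ← zpow_natCast,
    ← div_eq_mul_inv, ← zpow_sub₀ (left_ne_zero_of_mul_eq_one h), Int.toNat_sub_toNat_neg]

/-- The value of a monomial at the small proxy point. -/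
def rbVal (m : Mo) : ZMod 251 :=
  (if m.1 = 0 then 1 else -1) * rbPow 36 7 m.2.1 * rbPow 147 181 m.2.2.1 *
    rbPow (1 - 36) 43 m.2.2.2.1 * rbPow (1 - 147) 153 m.2.2.2.2.1 *
    rbPow (36 - 147) 52 m.2.2.2.2.2

theorem rb_val (m : Mo) : x1 (mo m) = rbVal m := by
  rw [map_mo, rb_a0, rb_b0, rbVal, ← rb_zpow, ← rb_zpow, ← rb_zpow, ← rb_zpow, ← rb_zpow] <;>
    decide +kernel

theorem rb_fund : ∀ m ∈ fundL, (rbVal m).val ∈ R4.sv := by decide +kernel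

theorem inS_sv (h : InS a) : rvl a ∈ R4.sv := by
  rcases h with rfl | rfl | h
  · rw [rvl_zero]
    decide
  · rw [rvl_one]
    decide
  · obtain ⟨m, hm, rfl⟩ := fund_iff_mo.1 h
    rw [rvl, rb_val]
    exact rb_fund m hm

theorem ok_of (ha : InP a) (hb : InP b) (hab : InP (a - b)) : R4.ok (rvl a) (rvl b) = true := by
  rcases hb with rfl | ⟨n, rfl⟩
  · rw [rvl_zero, R4.ok]
    rfl
  obtain ⟨s, hs, rfl⟩ : ∃ s, InS s ∧ a = s * mo n := by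
    rcases ha with rfl | ⟨m, rfl⟩
    · exact ⟨0, Or.inl rfl, (zero_mul _).symm⟩
    · refine ⟨mo (m - n), Or.inr ?_, by rw [← mo_add, sub_add_cancel]⟩
      exact (inP_sub.1 hab).imp (fun h => by rw [h, sub_self, mo_zero])
        fun h => fund_iff_mo.2 ⟨_, up_sub h, rfl⟩
  rw [rvl, map_mul, ZMod.val_mul]
  exact R4.ok_mul _ (inS_sv hs) _ (ZMod.val_lt _)

theorem rb_cast (z : R0) : ((rvl z : ℕ) : ZMod 251) = x1 z := ZMod.natCast_zmod_val _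

theorem rb_mod {n : ℕ} {z : R0} (h : (n : ZMod 251) = x1 z) : n.mod 251 = rvl z := by
  rw [rvl, ← h, ZMod.val_natCast]
  rfl

theorem rb_250 : ((250 : ℕ) : ZMod 251) = -1 := by decide +kernel

theorem rb_mul (a b : R0) : ((rvl a).mul (rvl b)).mod 251 = rvl (a * b) :=
  rb_mod (by rw [Nat.mul_eq, Nat.cast_mul, rb_cast, rb_cast, map_mul])

theorem rb_t1 {a b c : R0} (h1 : InP (a - c)) (h2 : InP (b - c)) (h3 : InP (a - b)) :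
    R4.t1 (rvl a) (rvl b) (rvl c) = true := by
  have e : ∀ a c : R0, ((rvl a).add ((rvl c).mul 250)).mod 251 = rvl (a - c) := fun a c =>
    rb_mod (by
      simp only [Nat.mul_eq, Nat.add_eq, Nat.cast_mul, Nat.cast_add, rb_cast, rb_250, map_sub]
      ring)
  rw [R4.t1, e, e]
  exact ok_of h1 h2 (by rwa [sub_sub_sub_cancel_right])

theorem rb_t0 {a b a' b' : R0} (h1 : InP a) (h2 : InP b) (h3 : InP a') (h4 : InP b')
    (h5 : InP (a * b' - b * a')) : R4.t0 (rvl a) (rvl b) (rvl a') (rvl b') = true := by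
  rw [R4.t0, rb_mul, rb_mul]
  exact ok_of (h1.mul h4) (h2.mul h3) h5

theorem rb_t2 {a b c a' b' c' : R0} (h1 : InP (a - c)) (h2 : InP (b - c)) (h3 : InP (a' - c'))
    (h4 : InP (b' - c')) (h5 : InP ((a - c) * (b' - c') - (b - c) * (a' - c'))) :
    R4.t2 (rvl a) (rvl b) (rvl c) (rvl a') (rvl b') (rvl c') = true := by
  have e : ∀ a c b d : R0, (((rvl a).add ((rvl c).mul 250)).mul ((rvl b).add ((rvl d).mul 250))).mod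
      251 = rvl ((a - c) * (b - d)) := fun a c b d =>
    rb_mod (by
      simp only [Nat.mul_eq, Nat.add_eq, Nat.cast_mul, Nat.cast_add, rb_cast, rb_250, map_sub,
        map_mul]
      ring)
  rw [R4.t2, e, e]
  exact ok_of (h1.mul h4) (h2.mul h3) h5

theorem dn_rd (p q r s : V4) : R4.dn (rd p) (rd q) (rd r) (rd s) = rvl (dt p q r s) := by
  refine rb_mod ?_
  simp only [R4.d2, dt, Nat.mul_eq, Nat.add_eq, Nat.cast_mul, Nat.cast_add, rb_cast, rb_250,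
    map_sub, map_mul, map_add]
  ring

theorem eqv_iff {v w : R4.V} : R4.eqv v w = true ↔ v = w := by
  obtain ⟨a, b, c, d⟩ := v
  obtain ⟨a', b', c', d'⟩ := w
  simp only [R4.eqv, Bool.and_eq_true, Nat.beq_eq, Prod.mk.injEq, and_assoc]

theorem rb_pm (h : InP a) (e : b = a ∨ b = -a) : InP b :=
  e.elim (fun e => e ▸ h) fun e => e ▸ h.neg

theorem rb_one (h : Cf X) {a b c d : R0} (hx : (a, b, c, d) ∈ X) : InP a ∧ InP b ∧ InP c ∧ InP d ∧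
    InP (a - b) ∧ InP (a - c) ∧ InP (a - d) ∧ InP (b - c) ∧ InP (b - d) ∧ InP (c - d) := by
  refine ⟨?_, ?_, ?_, ?_, ?_, ?_, ?_, ?_, ?_, ?_⟩
  · exact rb_pm (h.det _ hx _ h.m1 _ h.m2 _ h.m3)
      (Or.inl (by simp only [dt]; ring1))
  · exact rb_pm (h.det _ hx _ h.m0 _ h.m2 _ h.m3)
      (Or.inr (by simp only [dt]; ring1))
  · exact rb_pm (h.det _ hx _ h.m0 _ h.m1 _ h.m3)
      (Or.inl (by simp only [dt]; ring1))
  · exact rb_pm (h.det _ hx _ h.m0 _ h.m1 _ h.m2)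
      (Or.inr (by simp only [dt]; ring1))
  · exact rb_pm (h.det _ hx _ h.m2 _ h.m3 _ h.m4)
      (Or.inl (by simp only [dt]; ring1))
  · exact rb_pm (h.det _ hx _ h.m1 _ h.m3 _ h.m4)
      (Or.inr (by simp only [dt]; ring1))
  · exact rb_pm (h.det _ hx _ h.m1 _ h.m2 _ h.m4)
      (Or.inl (by simp only [dt]; ring1))
  · exact rb_pm (h.det _ hx _ h.m0 _ h.m3 _ h.m4)
      (Or.inl (by simp only [dt]; ring1))
  · exact rb_pm (h.det _ hx _ h.m0 _ h.m2 _ h.m4)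
      (Or.inr (by simp only [dt]; ring1))
  · exact rb_pm (h.det _ hx _ h.m0 _ h.m1 _ h.m4)
      (Or.inl (by simp only [dt]; ring1))

theorem rb_two (h : Cf X) {a b c d a' b' c' d' : R0} (hx : (a, b, c, d) ∈ X)
    (hy : (a', b', c', d') ∈ X) : InP (a * b' - b * a') ∧ InP (a * c' - c * a') ∧
    InP (b * c' - c * b') ∧ InP (a * d' - d * a') ∧ InP (b * d' - d * b') ∧ InP (c * d' - d * c') ∧
    InP ((a - c) * (b' - c') - (b - c) * (a' - c')) ∧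
    InP ((a - d) * (b' - d') - (b - d) * (a' - d')) ∧
    InP ((a - d) * (c' - d') - (c - d) * (a' - d')) ∧
    InP ((b - d) * (c' - d') - (c - d) * (b' - d')) := by
  refine ⟨?_, ?_, ?_, ?_, ?_, ?_, ?_, ?_, ?_, ?_⟩
  · exact rb_pm (h.det _ hx _ hy _ h.m2 _ h.m3)
      (Or.inl (by simp only [dt]; ring1))
  · exact rb_pm (h.det _ hx _ hy _ h.m1 _ h.m3)
      (Or.inr (by simp only [dt]; ring1))
  · exact rb_pm (h.det _ hx _ hy _ h.m0 _ h.m3)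
      (Or.inl (by simp only [dt]; ring1))
  · exact rb_pm (h.det _ hx _ hy _ h.m1 _ h.m2)
      (Or.inl (by simp only [dt]; ring1))
  · exact rb_pm (h.det _ hx _ hy _ h.m0 _ h.m2)
      (Or.inr (by simp only [dt]; ring1))
  · exact rb_pm (h.det _ hx _ hy _ h.m0 _ h.m1)
      (Or.inl (by simp only [dt]; ring1))
  · exact rb_pm (h.det _ hx _ hy _ h.m3 _ h.m4)
      (Or.inr (by simp only [dt]; ring1))
  · exact rb_pm (h.det _ hx _ hy _ h.m2 _ h.m4)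
      (Or.inl (by simp only [dt]; ring1))
  · exact rb_pm (h.det _ hx _ hy _ h.m1 _ h.m4)
      (Or.inr (by simp only [dt]; ring1))
  · exact rb_pm (h.det _ hx _ hy _ h.m0 _ h.m4)
      (Or.inl (by simp only [dt]; ring1))

theorem Cf.ok1 (h : Cf X) (hx : x ∈ X) : R4.ok1 (rd x) = true := by
  obtain ⟨a, b, c, d⟩ := x
  obtain ⟨h1, h2, h3, h4, ab, ac, ad, bc, bd, cd⟩ := rb_one h hx
  simp only [rd, R4.ok1, ok_of h1 h2 ab, ok_of h1 h3 ac, ok_of h1 h4 ad, ok_of h2 h3 bc,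
    ok_of h2 h4 bd, ok_of h3 h4 cd, rb_t1 ac bc ab, rb_t1 ad bd ab, rb_t1 ad cd ac, rb_t1 bd cd bc,
    Bool.and_self]

theorem Cf.ok2 (h : Cf X) (hx : x ∈ X) (hy : y ∈ X) : R4.ok2 (rd x) (rd y) = true := by
  obtain ⟨a, b, c, d⟩ := x
  obtain ⟨a', b', c', d'⟩ := y
  obtain ⟨h1, h2, h3, h4, -, ac, ad, bc, bd, cd⟩ := rb_one h hx
  obtain ⟨k1, k2, k3, k4, -, ac', ad', bc', bd', cd'⟩ := rb_one h hy
  obtain ⟨m1, m2, m3, m4, m5, m6, n1, n2, n3, n4⟩ := rb_two h hx hy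
  simp only [rd, R4.ok2, rb_t0 h1 h2 k1 k2 m1, rb_t0 h1 h3 k1 k3 m2, rb_t0 h2 h3 k2 k3 m3,
    rb_t0 h1 h4 k1 k4 m4, rb_t0 h2 h4 k2 k4 m5, rb_t0 h3 h4 k3 k4 m6, rb_t2 ac bc ac' bc' n1,
    rb_t2 ad bd ad' bd' n2, rb_t2 ad cd ad' cd' n3, rb_t2 bd cd bd' cd' n4, Bool.and_self]

theorem rb_pl (k l p q r u : V4) : dt k l p q * dt k l r u - dt k l p r * dt k l q u =
    -(dt k l p u * dt k l q r) := by
  have e : (k.1 * l.2.1 - k.2.1 * l.1) * (k.2.2.1 * l.2.2.2 - k.2.2.2 * l.2.2.1) +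
      (k.1 * l.2.2.2 - k.2.2.2 * l.1) * (k.2.1 * l.2.2.1 - k.2.2.1 * l.2.1) -
      (k.1 * l.2.2.1 - k.2.2.1 * l.1) * (k.2.1 * l.2.2.2 - k.2.2.2 * l.2.1) = 0 := by ring
  unfold dt
  generalize k.1 * l.2.1 - k.2.1 * l.1 = m1, k.2.2.1 * l.2.2.2 - k.2.2.2 * l.2.2.1 = m2,
    k.1 * l.2.2.2 - k.2.2.2 * l.1 = m3, k.2.1 * l.2.2.1 - k.2.2.1 * l.2.1 = m4,
    k.1 * l.2.2.1 - k.2.2.1 * l.1 = m5, k.2.1 * l.2.2.2 - k.2.2.2 * l.2.1 = m6 at e ⊢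
  have e' := congrArg (dt p q r u * ·) e
  unfold dt at e'
  linear_combination e'

theorem Cf.pl (h : Cf X) (hk : k ∈ X) (hl : l ∈ X) (hp : p ∈ X) (hq : q ∈ X) (hr : r ∈ X)
    (hu : u ∈ X) : R4.pl (rd k) (rd l) (rd p) (rd q) (rd r) (rd u) = true := by
  rw [R4.pl, dn_rd, dn_rd, dn_rd, dn_rd, rb_mul, rb_mul]
  refine ok_of ((h.det _ hk _ hl _ hp _ hq).mul (h.det _ hk _ hl _ hr _ hu))
    ((h.det _ hk _ hl _ hp _ hr).mul (h.det _ hk _ hl _ hq _ hu)) ?_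
  rw [rb_pl]
  exact ((h.det _ hk _ hl _ hp _ hu).mul (h.det _ hk _ hl _ hq _ hr)).neg

theorem rb_f0 : R4.f0 = rd (1, 0, 0, 0) := by rw [rd, rvl_zero, rvl_one, R4.f0]

theorem rb_f1 : R4.f1 = rd (0, 1, 0, 0) := by rw [rd, rvl_zero, rvl_one, R4.f1]

theorem rb_f2 : R4.f2 = rd (0, 0, 1, 0) := by rw [rd, rvl_zero, rvl_one, R4.f2]

theorem rb_f3 : R4.f3 = rd (0, 0, 0, 1) := by rw [rd, rvl_zero, rvl_one, R4.f3]

theorem rb_f4 : R4.f4 = rd (1, 1, 1, 1) := by rw [rd, rvl_one, R4.f4]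

theorem rb_beq (h : InP a) : Nat.beq (rvl a) 0 = false ↔ a ≠ 0 := by
  rw [← Bool.not_eq_true, Nat.beq_eq, rvl, ZMod.val_eq_zero, h.map_eq_zero]

theorem Cf.nt (h : Cf X) (hp : p ∈ X) (hq : q ∈ X) (hr : r ∈ X) (hn : Nt p q r) :
    R4.nt (rd p) (rd q) (rd r) = true := by
  rw [R4.nt, rb_f0, rb_f1, rb_f2, rb_f3, dn_rd, dn_rd, dn_rd, dn_rd]
  simp only [Bool.not_eq_true', Bool.and_eq_false_iff, rb_beq (h.det _ hp _ hq _ hr _ h.m0),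
    rb_beq (h.det _ hp _ hq _ hr _ h.m1), rb_beq (h.det _ hp _ hq _ hr _ h.m2),
    rb_beq (h.det _ hp _ hq _ hr _ h.m3), or_assoc]
  exact hn

theorem rb_nt1 (h : Cf X) (hy : y ∈ X) (h1 : Nt1 y) : R4.nt1 (rd y) = true := by
  obtain ⟨a1, a2, a3, a4, a5, a6, a7, a8, a9, a10⟩ := h1
  simp only [R4.nt1, rb_f0, rb_f1, rb_f2, rb_f3, rb_f4, h.nt h.m0 h.m1 hy a1, h.nt h.m0 h.m2 hy a2,
    h.nt h.m0 h.m3 hy a3, h.nt h.m0 h.m4 hy a4, h.nt h.m1 h.m2 hy a5, h.nt h.m1 h.m3 hy a6,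
    h.nt h.m1 h.m4 hy a7, h.nt h.m2 h.m3 hy a8, h.nt h.m2 h.m4 hy a9, h.nt h.m3 h.m4 hy a10,
    Bool.and_self]

theorem rb_nt2 (h : Cf X) (hx : x ∈ X) (hy : y ∈ X) (h2 : Nt2 x y) :
    R4.nt2 (rd x) (rd y) = true := by
  obtain ⟨a1, a2, a3, a4, a5⟩ := h2
  simp only [R4.nt2, rb_f0, rb_f1, rb_f2, rb_f3, rb_f4, h.nt h.m0 hx hy a1, h.nt h.m1 hx hy a2,
    h.nt h.m2 hx hy a3, h.nt h.m3 hx hy a4, h.nt h.m4 hx hy a5, Bool.and_self]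

theorem Cf.g2 (h : Cf X) (hx : x ∈ X) (hy : y ∈ X) (h1 : Nt1 y) (h2 : Nt2 x y) :
    R4.g2 (rd x) (rd y) = true := by
  rw [R4.g2, h.ok1 hy, h.ok2 hx hy, rb_nt1 h hy h1, rb_nt2 h hx hy h2]
  rfl

theorem Cf.inS (h : Cf X) (hx : x ∈ X) (h1 : x.1 = 1 ∨ x.2.2.2 = 1) :
    InS x.1 ∧ InS x.2.1 ∧ InS x.2.2.1 := by
  obtain ⟨a, b, c, d⟩ := x
  obtain ⟨k1, k2, k3, -, ab, ac, ad, -, bd, cd⟩ := rb_one h hx
  rcases h1 with rfl | rfl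
  · exact ⟨Or.inr (Or.inl rfl), inS_of k2 (neg_sub _ b ▸ ab.neg), inS_of k3 (neg_sub _ c ▸ ac.neg)⟩
  · exact ⟨inS_of k1 ad, inS_of k2 bd, inS_of k3 cd⟩

theorem rb_rd0 (s t : R0) : rd (1, s, t, 0) = (1, rvl s, rvl t, 0) := by rw [rd, rvl_zero, rvl_one]

theorem Cf.cover (h : Cf X) {L : List R4.V} (hc : R4.cover (rvl s) (rvl t) L = true)
    (hx : (1, s, t, 0) ∈ X) (hy : y ∈ X) (h0 : y.2.2.2 = 1) (h1 : Nt1 y)
    (h2 : Nt2 (1, s, t, 0) y) : rd y ∈ L := by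
  obtain ⟨a, b, c, d⟩ := y
  obtain rfl : d = 1 := h0
  obtain ⟨s1, s2, s3⟩ := h.inS hy (Or.inr rfl)
  have g := h.g2 hx hy h1 h2
  have o1 := h.ok1 hy
  have o2 := h.ok2 hx hy
  have e : rd (a, b, c, 1) = (rvl a, rvl b, rvl c, 1) := by rw [rd, rvl_one]
  rw [rb_rd0] at g o2
  rw [e] at g o1 o2 ⊢
  simp only [R4.ok1, R4.ok2, Bool.and_eq_true] at o1 o2
  have k := List.all_eq_true.1 (List.all_eq_true.1 hc _ (inS_sv s1)) _ (inS_sv s2)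
  simp only [o1, o2, Bool.and_self, Bool.not_true, Bool.false_or] at k
  have k2 := List.all_eq_true.1 k _ (inS_sv s3)
  simp only [g, Bool.not_true, Bool.false_or] at k2
  obtain ⟨v, hv, e2⟩ := List.any_eq_true.1 k2
  exact eqv_iff.1 e2 ▸ hv

/-- The four normal forms. -/
def Nf (s t : R0) : Prop :=
  (s = 1 ∧ t = a0) ∨ (s = a0 ∧ t = 1) ∨ (s = a0 ∧ t = a0) ∨ (s = a0 ∧ t = b0)

theorem Cf.exists_aut (h : Cf X) (hx : (1, s, t, 0) ∈ X) (h1 : Nt1 (1, s, t, 0)) :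
    ∃ φ : R0 ≃+* R0, Nf (φ s) (φ t) ∧ ∀ z, InG (φ z) ↔ InG z := by
  obtain ⟨-, s1, s2⟩ := h.inS hx (Or.inl rfl)
  have n1 : s ≠ 0 := by
    rintro rfl
    simpa [Nt, dt] using h1.2.1
  have n2 : t ≠ 0 := by
    rintro rfl
    simpa [Nt, dt] using h1.1
  have n3 : ¬ (s = 1 ∧ t = 1) := by
    rintro ⟨rfl, rfl⟩
    simpa [Nt, dt] using h1.2.2.2.2.2.2.2.2.2
  rcases s1.resolve_left n1 with e1 | f1 <;> rcases s2.resolve_left n2 with e2 | f2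
  · exact absurd ⟨e1, e2⟩ n3
  · obtain ⟨φ, k1, -, k3⟩ := f2.exists_cp.choose_spec.aut
    exact ⟨φ, Or.inl ⟨by rw [show s = 1 from e1, map_one], k1⟩, k3⟩
  · obtain ⟨φ, k1, -, k3⟩ := f1.exists_cp.choose_spec.aut
    exact ⟨φ, Or.inr (Or.inl ⟨k1, by rw [show t = 1 from e2, map_one]⟩), k3⟩
  · rcases (rb_one h hx).2.2.2.2.2.2.2.1 with e | g
    · obtain ⟨φ, k1, -, k3⟩ := f1.exists_cp.choose_spec.aut
      exact ⟨φ, Or.inr (Or.inr (Or.inl ⟨k1, sub_eq_zero.1 e ▸ k1⟩)), k3⟩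
    · obtain ⟨φ, k1, k2, k3⟩ := Cp.aut ⟨f1, f2, g⟩
      exact ⟨φ, Or.inr (Or.inr (Or.inr ⟨k1, k2⟩)), k3⟩

theorem rb_nf (hn : Nf s t) : ∃ L, R4.cover (rvl s) (rvl t) L = true ∧
    R4.one (rd (1, s, t, 0)) L = true ∧ R4.two (rd (1, s, t, 0)) L = true := by
  rw [rb_rd0]
  rcases hn with ⟨rfl, rfl⟩ | ⟨rfl, rfl⟩ | ⟨rfl, rfl⟩ | ⟨rfl, rfl⟩ <;>
    simp only [rvl_one, rvl_a0, rvl_b0]
  exacts [⟨_, R4.cover0, R4.one0, R4.two0⟩, ⟨_, R4.cover1, R4.one1, R4.two1⟩,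
    ⟨_, R4.cover2, R4.one2, R4.two2⟩, ⟨_, R4.cover3, R4.one3, R4.two3⟩]

theorem rb_np2 (h : Cf X) (hx : x ∈ X) (hy : y ∈ X) (h3 : Np2 x y) :
    R4.np2 (rd x) (rd y) = true := by
  have k : ∀ p ∈ X, dt p (0, 0, 0, 1) (1, 1, 1, 1) x ≠ 0 ∨ dt p (0, 0, 0, 1) (1, 1, 1, 1) y ≠ 0 →
      R4.np (rd p) R4.f3 R4.f4 (rd x) (rd y) = true := fun p hp hn => by
    rw [R4.np, rb_f3, rb_f4, dn_rd, dn_rd]
    simp only [Bool.not_eq_true', Bool.and_eq_false_iff, rb_beq (h.det _ hp _ h.m3 _ h.m4 _ hx),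
      rb_beq (h.det _ hp _ h.m3 _ h.m4 _ hy)]
    exact hn
  rw [R4.np2, rb_f0, rb_f1, rb_f2, k _ h.m0 (h3 _ (by simp)), k _ h.m1 (h3 _ (by simp)),
    k _ h.m2 (h3 _ (by simp))]
  rfl

theorem Cf.one_nf (h : Cf X) (hn : Nf s t) (hx : (1, s, t, 0) ∈ X) (hy : y ∈ X) (hz : z ∈ X)
    (y0 : y.2.2.2 = 1) (z0 : z.2.2.2 = 1) (y1 : Nt1 y) (z1 : Nt1 z) (y2 : Nt2 (1, s, t, 0) y)
    (z2 : Nt2 (1, s, t, 0) z) (yz : Nt2 y z) (y3 : Np2 (1, s, t, 0) y) (z3 : Np2 (1, s, t, 0) z) :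
    False := by
  obtain ⟨L, hc, ho, -⟩ := rb_nf hn
  have k := List.all_eq_true.1 (List.all_eq_true.1 ho _
    (List.mem_filter.2 ⟨h.cover hc hx hy y0 y1 y2, rb_np2 h hx hy y3⟩)) _
    (List.mem_filter.2 ⟨h.cover hc hx hz z0 z1 z2, rb_np2 h hx hz z3⟩)
  simp only [R4.fin1, rb_f0, rb_f1, rb_f2, rb_f3, rb_f4, h.ok2 hy hz, rb_nt2 h hy hz yz,
    h.pl hx hz h.m0 h.m1 h.m2 hy, h.pl h.m0 hz h.m1 h.m2 hx hy, h.pl h.m2 hx h.m0 h.m4 hy hz,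
    h.pl h.m3 hy h.m2 h.m4 hx hz, h.pl h.m3 hz h.m1 h.m4 hx hy, h.pl h.m4 hz h.m1 h.m3 hx hy,
    h.pl h.m1 hy h.m0 h.m2 hx hz, h.pl h.m3 hz h.m0 h.m4 hx hy, Bool.and_self, Bool.not_true,
    Bool.false_eq_true] at k

theorem Cf.two_nf (h : Cf X) (hn : Nf s t) {s' t' : R0} (hx : (1, s, t, 0) ∈ X)
    (hx' : (1, s', t', 0) ∈ X) (hy : y ∈ X) (hz : z ∈ X)
    (y0 : y.2.2.2 = 1) (z0 : z.2.2.2 = 1) (hx1 : Nt1 (1, s', t', 0)) (y1 : Nt1 y) (z1 : Nt1 z)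
    (hx2 : Nt2 (1, s, t, 0) (1, s', t', 0)) (y2 : Nt2 (1, s, t, 0) y)
    (z2 : Nt2 (1, s, t, 0) z) (yz : Nt2 y z) : False := by
  obtain ⟨L, hc, -, ho⟩ := rb_nf hn
  obtain ⟨-, s1, s2⟩ := h.inS hx' (Or.inl rfl)
  have k := List.all_eq_true.1 (List.all_eq_true.1 ho _ (inS_sv s1)) _ (inS_sv s2)
  have g : ∀ y ∈ X, R4.g3 (rd (1, s, t, 0)) (rd (1, s', t', 0)) (rd y) = true := fun y hy => by
    simp only [R4.g3, rb_f0, rb_f1, rb_f3, rb_f4, h.ok2 hx' hy, h.pl hx hx' h.m0 h.m3 h.m4 hy,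
      h.pl hx hx' h.m1 h.m3 h.m4 hy, Bool.and_self]
  rw [← rb_rd0, h.g2 hx hx' hx1 hx2, rb_f0, rb_f1, rb_f2, rb_f4,
    h.pl h.m4 hx h.m0 h.m1 h.m2 hx', Bool.and_self, Bool.not_true, Bool.false_or] at k
  have k2 := List.all_eq_true.1 (List.all_eq_true.1 k _
    (List.mem_filter.2 ⟨h.cover hc hx hy y0 y1 y2, g y hy⟩)) _
    (List.mem_filter.2 ⟨h.cover hc hx hz z0 z1 z2, g z hz⟩)
  simp only [h.ok2 hy hz, rb_nt2 h hy hz yz, h.pl hx hy h.m0 h.m1 h.m2 hz, Bool.and_self,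
    Bool.not_true, Bool.false_eq_true] at k2

end Pool.Agent.Lib.MP_10bdcf_co.G
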