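import Pool.Agent.Lib.MP_10bdcf_co.ZE
import Pool.Agent.Lib.MP_10bdcf_co.LG

/-!
A valid form that is diagonal on every site is diagonal.
-/

namespace Pool.Agent.Lib.MP_10bdcf_co.G

open scoped Matroid
open Set

set_option linter.unusedSectionVars false

variable {E F : Type} [Fintype E] [Field F] {M : Matroid E} {T : Set E → Matrix E E R0}
  {x y : R0 →+* F} {U W : Sb F E} {φ : Fm F E} {v : F × F}

section aux

variable {X : Set E} {l : Fn F E} {f g k e z : E} {u w : E → F}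

/-- The functional `l` kills the cocycles on the rows `g`, `k` that vanish at `f`. -/
def ZgP (W : Sb F E) (l : Fn F E) (f : E) (X : Set E) (g k : E) : Prop :=
  ∀ w ∈ W, (∀ z ∈ X, z ≠ g → z ≠ k → w z = 0) → w f = 0 → l w = 0

theorem zg_ne (hT : U2 M T) (y : R0 →+* F) (hX : M.IsBase X) (ha : Adj M X g e) :
    y (T X g e) ≠ 0 := (hT.prop hX ha).map_ne_zero y

theorem zg_row (h : Obj M T x y U W) (hX : M.IsBase X) (hw : w ∈ W) (he : e ∈ M.E) :
    w e = ∑ b, w b * y (T X b e) := h.coc.row w hw X hX e he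

theorem zg_ker (h : Obj M T x y U W) (hX : M.IsBase X) (hu : u ∈ U) (b : E) :
    ∑ e, x (T X b e) * u e = 0 := h.cyc.ker u hu X hX b

/-- A cocycle that vanishes on the neighbours of a column vanishes on the column. -/
theorem zg_val0 (h : Obj M T x y U W) (hX : M.IsBase X) (hw : w ∈ W) (he : e ∈ M.E) (heX : e ∉ X)
    (h0 : ∀ b, Adj M X b e → w b = 0) : w e = 0 := by
  rw [zg_row h hX hw he]
  refine Finset.sum_eq_zero fun b _ => ?_
  by_cases ha : Adj M X b e
  · rw [h0 b ha, zero_mul]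
  · rw [h.tab.eq_zero hX heX ha, map_zero, mul_zero]

theorem zg_row1 (h : Obj M T x y U W) (hX : M.IsBase X) (hw : w ∈ W) (he : e ∈ M.E) (heX : e ∉ X)
    (h0 : ∀ b, Adj M X b e → b ≠ g → w b = 0) : w e = w g * y (T X g e) := by
  rw [zg_row h hX hw he]
  refine Finset.sum_eq_single g (fun b _ hb => ?_) (by simp)
  by_cases ha : Adj M X b e
  · rw [h0 b ha hb, zero_mul]
  · rw [h.tab.eq_zero hX heX ha, map_zero, mul_zero]

theorem zg_row2 (h : Obj M T x y U W) (hX : M.IsBase X) (hne : g ≠ k) (hw : w ∈ W)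
    (h0 : ∀ z ∈ X, z ≠ g → z ≠ k → w z = 0) (he : e ∈ M.E) :
    w e = w g * y (T X g e) + w k * y (T X k e) := by
  rw [zg_row h hX hw he]
  refine Finset.sum_eq_add_of_mem g k (Finset.mem_univ _) (Finset.mem_univ _) hne fun b _ hb => ?_
  by_cases hbX : b ∈ X
  · rw [h0 b hbX hb.1 hb.2, zero_mul]
  · rw [h.tab.row hX hbX, map_zero, mul_zero]

theorem zg_zero (h : Obj M T x y U W) (hX : M.IsBase X) (hw : w ∈ W) (h0 : ∀ z ∈ X, w z = 0) :
    w = 0 := by
  refine h.coc.inj w hw fun e he => ?_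
  by_cases heX : e ∈ X
  · exact h0 e heX
  · exact zg_val0 h hX hw he heX fun b hb => h0 b hb.1

/-- The cocycle of a row. -/
theorem zg_exists_row (h : Obj M T x y U W) (hX : M.IsBase X) (b : E) :
    ∃ w ∈ W, (∀ e ∈ M.E, w e = y (T X b e)) ∧ (∀ z ∈ X, z ≠ b → w z = 0) ∧ (b ∈ X → w b = 1) := by
  obtain ⟨w, hw, h1⟩ := h.exists_row hX b
  refine ⟨w, hw, h1, fun z hz hzb => ?_, fun hb => ?_⟩
  · rw [h1 z (hX.subset_ground hz), h.tab.off hX hz hzb.symm, map_zero]
  · rw [h1 b (hX.subset_ground hb), h.tab.diag X hX b hb, map_one]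

/-- A valid move kills the cocycles that vanish on the neighbours of the column. -/
theorem zg_kill (h : Obj M T x y U W) (hl : Val (pf (co f) l) U W) (hX : M.IsBase X)
    (hf : f ∈ M.E) (hfX : f ∉ X) (hw : w ∈ W) (h0 : ∀ b, Adj M X b f → w b = 0) : l w = 0 := by
  refine (h.pair.val_move hf).1 hl w hw (M.closure_subset_closure ?_ (la_mem_closure hX hf hfX))
  intro b hb
  exact ⟨⟨hX.subset_ground hb.1, h0 b hb⟩, fun e' : b = f => hfX (e' ▸ hb.1)⟩

theorem zg_refl (h : Obj M T x y U W) (hX : M.IsBase X) (hg : Adj M X g f) : ZgP W l f X g g := by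
  intro w hw h0 hf
  have h1 := zg_row1 (g := g) h hX hw hg.mem_ground hg.2.1 fun b hb hbg => h0 b hb.1 hbg hbg
  have h2 : w g = 0 := (mul_eq_zero.1 (h1.symm.trans hf)).resolve_right (zg_ne h.tab y hX hg)
  have h3 : w = 0 := zg_zero h hX hw fun z hz => by
    by_cases hzg : z = g
    · rw [hzg, h2]
    · exact h0 z hz hzg hzg
  rw [h3, map_zero]

theorem zg_one (h : Obj M T x y U W) (hl : Val (pf (co f) l) U W)
    (hs : ∀ X g k e, Site M X g k e f → ZgP W l f X g k) (hX : M.IsBase X) (hg : Adj M X g f)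
    (hk : Adj M X k f) (hef : e ≠ f) (hge : Adj M X g e) (hke : Adj M X k e) :
    ZgP W l f X g k := by
  by_cases hgk : g = k
  · subst hgk
    exact zg_refl h hX hg
  by_cases hn : Adj M (ex X g e) k f
  · exact hs X g k e ⟨hX, hge, hg, hke, hk, hgk, hn⟩
  intro w hw h0 hf
  have hX' : M.IsBase (ex X g e) := hge.2.2
  have hf' : f ∉ ex X g e := fun h1 => (mem_ex.1 h1).elim hef.symm fun h2 => hg.2.1 h2.1
  have h1 : ∀ b, Adj M (ex X g e) b f → b ≠ e → w b = 0 := fun b hb hbe => by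
    obtain ⟨h2, h3⟩ := (mem_ex.1 hb.1).resolve_left hbe
    exact h0 b h2 h3 fun e' => hn (e' ▸ hb)
  refine zg_kill h hl hX' hg.mem_ground hf' hw fun b hb => ?_
  by_cases hbe : b = e
  · subst hbe
    have h2 := zg_row1 h hX' hw hg.mem_ground hf' h1
    exact (mul_eq_zero.1 (h2.symm.trans hf)).resolve_right (zg_ne h.tab y hX' hb)
  · exact h1 b hb hbe

theorem zg_trans (h : Obj M T x y U W) (hX : M.IsBase X) (hz : Adj M X z f)
    (h1 : ZgP W l f X g z) (h2 : ZgP W l f X z k) : ZgP W l f X g k := by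
  intro w hw h0 hf
  obtain ⟨r, hr, r1, r2, -⟩ := zg_exists_row h hX z
  obtain ⟨s, hs, -, s2, s3⟩ := zg_exists_row h hX g
  have hrf : r f ≠ 0 := by rw [r1 f hz.mem_ground]; exact zg_ne h.tab y hX hz
  have m1 : w g • s - (w g * s f / r f) • r ∈ W := W.sub_mem (W.smul_mem _ hs) (W.smul_mem _ hr)
  have e1 := h1 _ m1 (fun a ha hag haz => by simp [s2 a ha hag, r2 a ha haz])
    (by simp only [Pi.sub_apply, Pi.smul_apply, smul_eq_mul]; field_simp; ring)
  have e2 := h2 _ (W.sub_mem hw m1) (fun a ha haz hak => by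
      by_cases hag : a = g
      · subst hag
        simp [s3 ha, r2 a ha haz]
      · simp [h0 a ha hag hak, s2 a ha hag, r2 a ha haz])
    (by simp only [Pi.sub_apply, Pi.smul_apply, smul_eq_mul, hf]; field_simp; ring)
  rwa [map_sub, e1, sub_zero] at e2

theorem zg_piv1 (h : Obj M T x y U W) (hX : M.IsBase X) (ha : Adj M X z e)
    (n1 : ¬ Adj M X g e) (n2 : ¬ Adj M X k e) (h1 : ZgP W l f (ex X z e) g k) :
    ZgP W l f X g k := by
  intro w hw h0 hf
  refine h1 w hw (fun a ha' hag hak => ?_) hf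
  rcases mem_ex.1 ha' with rfl | h2
  · exact zg_val0 h hX hw ha.mem_ground ha.2.1 fun b hb =>
      h0 b hb.1 (fun e' => n1 (e' ▸ hb)) fun e' => n2 (e' ▸ hb)
  · exact h0 a h2.1 hag hak

theorem zg_piv2 (h : Obj M T x y U W) (hl : Val (pf (co f) l) U W) (hX : M.IsBase X)
    (hf : f ∈ M.E) (hfX : f ∉ X) (ha : Adj M X z e) (hz : ¬ Adj M X z f)
    (h1 : ZgP W l f (ex X z e) g k) : ZgP W l f X g k := by
  intro w hw h0 hwf
  obtain ⟨r, hr, r1, r2, -⟩ := zg_exists_row h hX z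
  have hre : r e ≠ 0 := by rw [r1 e ha.mem_ground]; exact zg_ne h.tab y hX ha
  have h2 : ∀ b, Adj M X b f → r b = 0 := fun b hb => r2 b hb.1 fun e' => hz (e' ▸ hb)
  have hrf : r f = 0 := zg_val0 h hX hr hf hfX h2
  have hlr : l r = 0 := zg_kill h hl hX hf hfX hr h2
  have := h1 (w - (w e / r e) • r) (W.sub_mem hw (W.smul_mem _ hr)) (fun a ha' hag hak => by
      rcases mem_ex.1 ha' with rfl | h3
      · simp only [Pi.sub_apply, Pi.smul_apply, smul_eq_mul]
        field_simp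
        ring
      · simp [h0 a h3.1 hag hak, r2 a h3.1 h3.2]) (by simp [hwf, hrf])
  rwa [map_sub, map_smul, hlr, smul_zero, sub_zero] at this

omit [Fintype E] in
theorem zg_coindep (hX : M.IsBase X) (hf : f ∈ M.E) (hfX : f ∉ X) : M.Coindep {f} :=
  (Matroid.coindep_iff_exists (singleton_subset_iff.2 hf)).2
    ⟨X, hX, subset_sdiff.2 ⟨hX.subset_ground, disjoint_singleton_right.2 hfX⟩⟩

theorem zg_near (h : Obj M T x y U W) (hl : Val (pf (co f) l) U W)
    (hs : ∀ X g k e, Site M X g k e f → ZgP W l f X g k) (j : ℕ) :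
    ∀ X, M.IsBase X → ∀ g k, Adj M X g f → Adj M X k f → Near (M ＼ {f}) X k j g →
      ZgP W l f X g k := by
  induction j using Nat.strong_induction_on with
  | _ j ih =>
  intro X hX g k hg hh hn
  have hfX : f ∉ X := hg.2.1
  have hD : Disjoint X {f} := disjoint_singleton_right.2 hfX
  have hadj : ∀ {b e : E}, Adj (M ＼ {f}) X b e ↔ Adj M X b e ∧ e ≠ f := adj_delete hX hD
  match j, ih, hn with
  | 0, _, hn =>
    have : g = k := hn
    subst this
    exact zg_refl h hX hg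
  | 1, ih, hn =>
    rcases hn with hn | ⟨y1, x', hx', a1, a2⟩
    · exact ih 0 (by omega) X hX g k hg hh hn
    · have : x' = k := hx'
      subst this
      exact zg_one h hl hs hX hg hh (hadj.1 a1).2 (hadj.1 a1).1 (hadj.1 a2).1
  | 2, ih, hn =>
    by_cases hn1 : Near (M ＼ {f}) X k 1 g
    · exact ih 1 (by omega) X hX g k hg hh hn1
    obtain ⟨z, y1, y2, a1, a2, a3, a4, n1, n2, hzg, hzh, -⟩ := near_two hn hn1
    obtain ⟨a1, hy1⟩ := hadj.1 a1
    obtain ⟨a2, -⟩ := hadj.1 a2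
    obtain ⟨a3, hy2⟩ := hadj.1 a3
    obtain ⟨a4, -⟩ := hadj.1 a4
    have n1' : ¬ Adj M X k y1 := fun h' => n1 (hadj.2 ⟨h', hy1⟩)
    have n2' : ¬ Adj M X g y2 := fun h' => n2 (hadj.2 ⟨h', hy2⟩)
    by_cases hz : Adj M X z f
    · exact zg_trans h hX hz (zg_one h hl hs hX hg hz hy1 a1 a2)
        (zg_one h hl hs hX hz hh hy2 a3 a4)
    have hfz : f ≠ z := fun e' => hfX (e' ▸ a2.1)
    have hX' : M.IsBase (ex X z y1) := a2.2.2
    have hg' : Adj M (ex X z y1) g f :=
      (h.tab.adj_pivot_same hX a2 hg.1 hzg.symm hfz hy1.symm (Or.inr hz)).2 hg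
    have hh' : Adj M (ex X z y1) k f :=
      (h.tab.adj_pivot_same hX a2 hh.1 hzh.symm hfz hy1.symm (Or.inr hz)).2 hh
    have b1 : Adj M (ex X z y1) g y2 := h.tab.adj_pivot_new hX a2 a1 hzg.symm a3 n2'
    have b2 : Adj M (ex X z y1) k y2 :=
      (h.tab.adj_pivot_same hX a2 hh.1 hzh.symm (fun e' : y2 = z => a3.2.1 (e' ▸ a2.1))
        (fun e' : y2 = y1 => n1' (e' ▸ a4)) (Or.inl n1')).2 a4
    exact zg_piv2 h hl hX hg.mem_ground hfX a2 hz (zg_one h hl hs hX' hg' hh' hy2 b1 b2)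
  | j + 3, ih, hn =>
    by_cases hn1 : Near (M ＼ {f}) X k (j + 2) g
    · exact ih (j + 2) (by omega) X hX g k hg hh hn1
    have hco := zg_coindep hX hg.mem_ground hfX
    obtain ⟨z, y1, a, hzg, hzh, n1, n2, hn'⟩ := (h.tab.delete_coindep hco).shorten
      ((isBase_delete_iff hX hD).2 ⟨hX, hD⟩) hh.1 hn hn1
    obtain ⟨a, hy⟩ := hadj.1 a
    have n1' : ¬ Adj M X g y1 := fun h' => n1 (hadj.2 ⟨h', hy⟩)
    have n2' : ¬ Adj M X k y1 := fun h' => n2 (hadj.2 ⟨h', hy⟩)
    have hfz : f ≠ z := fun e' => hfX (e' ▸ a.1)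
    have hg' : Adj M (ex X z y1) g f :=
      (h.tab.adj_pivot_same hX a hg.1 hzg.symm hfz hy.symm (Or.inl n1')).2 hg
    have hh' : Adj M (ex X z y1) k f :=
      (h.tab.adj_pivot_same hX a hh.1 hzh.symm hfz hy.symm (Or.inl n2')).2 hh
    exact zg_piv1 h hX a n1' n2' (ih (j + 2) (by omega) _ a.2.2 g k hg' hh' hn')

/-- A valid move of a column with joined neighbours is diagonal. -/
theorem zg_col (h : Obj M T x y U W) (hl : Val (pf (co f) l) U W)
    (hs : ∀ X g k e, Site M X g k e f → ZgP W l f X g k) (hX : M.IsBase X) (hf : f ∈ M.E)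
    (hfX : f ∉ X) (hj : ∀ g k, Adj M X g f → Adj M X k f → Joined (M ＼ {f}) g k) :
    ∃ c, ∀ w ∈ W, l w = c * w f := by
  have hD : Disjoint X {f} := disjoint_singleton_right.2 hfX
  choose r hr r1 r2 r3 using zg_exists_row h hX
  have hna : ∀ b, ¬ Adj M X b f → l (r b) = 0 ∧ r b f = 0 := fun b hb =>
    have h2 : ∀ a, Adj M X a f → r b a = 0 := fun a ha => r2 b a ha.1 fun e' => hb (e' ▸ ha)
    ⟨zg_kill h hl hX hf hfX (hr b) h2, zg_val0 h hX (hr b) hf hfX h2⟩
  obtain ⟨c, hc⟩ : ∃ c, ∀ b, l (r b) = c * r b f := by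
    by_cases hex : ∃ k, Adj M X k f
    · obtain ⟨k, hk⟩ := hex
      have hkf : r k f ≠ 0 := by rw [r1 k f hf]; exact zg_ne h.tab y hX hk
      refine ⟨l (r k) / r k f, fun b => ?_⟩
      by_cases hb : Adj M X b f
      · obtain ⟨j, hj'⟩ := near_of_joined ((isBase_delete_iff hX hD).2 ⟨hX, hD⟩) hb.1 hk.1
          (hj b k hb hk)
        have := zg_near h hl hs j X hX b k hb hk hj' (r b - (r b f / r k f) • r k)
          (W.sub_mem (hr b) (W.smul_mem _ (hr k)))
          (fun a ha hab hak => by simp [r2 b a ha hab, r2 k a ha hak])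
          (by simp only [Pi.sub_apply, Pi.smul_apply, smul_eq_mul]; field_simp; ring)
        rw [map_sub, map_smul, smul_eq_mul, sub_eq_zero] at this
        rw [this]
        field_simp
      · rw [(hna b hb).1, (hna b hb).2, mul_zero]
    · exact ⟨0, fun b => by rw [(hna b fun hb => hex ⟨b, hb⟩).1, zero_mul]⟩
  refine ⟨c, fun w hw => ?_⟩
  have h1 : w - ∑ b, w b • r b = 0 :=
    h.coc.inj _ (W.sub_mem hw (W.sum_mem fun b _ => W.smul_mem _ (hr b))) fun e he => by
      rw [Pi.sub_apply, Finset.sum_apply, zg_row h hX hw he, sub_eq_zero]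
      exact Finset.sum_congr rfl fun b _ => by rw [Pi.smul_apply, smul_eq_mul, r1 b e he]
  have h2 : l w = ∑ b, w b * (c * r b f) := by
    conv_lhs => rw [sub_eq_zero.1 h1]
    rw [map_sum]
    exact Finset.sum_congr rfl fun b _ => by rw [map_smul, smul_eq_mul, hc]
  rw [h2, zg_row h hX hw hf, Finset.mul_sum]
  exact Finset.sum_congr rfl fun b _ => by rw [r1 b f hf]; ring

theorem zg_del (h : Obj M T x y U W) (hf : M.Coindep {f}) :
    Obj (M ＼ {f}) (mnT ∅ {f} T) x y (van U {f}) W := by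
  have := h.minor (I := ∅) (J := {f}) ⟨M.empty_indep, hf, empty_disjoint _⟩
  rwa [mn_empty_left, van_empty] at this

/-- Induction over columns whose neighbours stay joined. -/
theorem zg_ind {p : Matroid E → (R0 →+* F) → (R0 →+* F) → Sb F E → Sb F E → Prop}
    (h0 : ∀ M T x y U W, Obj M T x y U W → M.E = ∅ → p M x y U W)
    (hd : ∀ M T x y U W, Obj M T x y U W → p M✶ y x W U → p M x y U W)
    (hc : ∀ M T x y U W X f, Obj M T x y U W → M.IsBase X → f ∈ M.E → f ∉ X →
      (∀ g k, Adj M X g f → Adj M X k f → Joined (M ＼ {f}) g k) →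
      p (M ＼ {f}) x y (van U {f}) W → p M x y U W) (n : ℕ) :
    ∀ M T x y U W, M.E.ncard = n → Obj M T x y U W → p M x y U W := by
  induction n using Nat.strong_induction_on with
  | _ n ih =>
  intro M T x y U W hn h
  have step : ∀ M T x y U W, M.E.ncard = n → Obj M T x y U W → ∀ X v, M.IsBase X → v ∈ M.E →
      v ∉ X → (∀ g k, SAdj M X v g → SAdj M X v k →
        Relation.ReflTransGen (Av (SAdj M X) {v}) g k) → p M x y U W := by
    intro M T x y U W hn h X v hX hv hvX hj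
    refine hc M T x y U W X v h hX hv hvX (fun g k a1 a2 => joined_delete hX
      (disjoint_singleton_right.2 hvX) (hj g k (Or.inr a1) (Or.inr a2)))
      (ih _ ?_ _ _ _ _ _ _ rfl (zg_del h (zg_coindep hX hv hvX)))
    rw [← hn, Matroid.delete_ground]
    exact ncard_sdiff_singleton_lt_of_mem hv
  rcases M.E.eq_empty_or_nonempty with hE | ⟨a, ha⟩
  · exact h0 M T x y U W h hE
  obtain ⟨X, hX⟩ := M.exists_isBase
  obtain ⟨v, hav, hj⟩ := exists_noncut (SAdj M X) (fun _ _ h => h.symm)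
    (fun _ h => h.elim (fun h => h.2.1 h.1) fun h => h.2.1 h.1) a
  have hv : v ∈ M.E := by
    induction hav with
    | refl => exact ha
    | tail _ h _ => exact h.elim (fun h => h.mem_ground) fun h => hX.subset_ground h.1
  by_cases hvX : v ∈ X
  · have hs : SAdj M✶ (M.E \ X) = SAdj M X := by
      funext b e
      simp only [SAdj, adj_dual hX.subset_ground]
      exact propext or_comm
    refine hd M T x y U W h (step M✶ _ _ _ _ _ hn h.dual (M.E \ X) v hX.compl_isBase_dual hv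
      (fun h => h.2 hvX) ?_)
    rw [hs]
    exact hj
  · exact step M T x y U W hn h X v hX hv hvX hj

theorem zg_sum4 (a : E → F) (h1 : g ≠ k) (h2 : g ≠ e) (h3 : g ≠ f) (h4 : k ≠ e) (h5 : k ≠ f)
    (h6 : e ≠ f) (h0 : ∀ z, z ≠ g → z ≠ k → z ≠ e → z ≠ f → a z = 0) :
    ∑ z, a z = a g + a k + a e + a f := by
  classical
  rw [← Finset.sum_subset (Finset.subset_univ {g, k, e, f}) fun z _ hz => by
    simp only [Finset.mem_insert, Finset.mem_singleton, not_or] at hz
    exact h0 z hz.1 hz.2.1 hz.2.2.1 hz.2.2.2]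
  rw [Finset.sum_insert (by simp [h1, h2, h3]), Finset.sum_insert (by simp [h4, h5]),
    Finset.sum_pair h6]
  ring

/-- A diagonal form on a block. -/
theorem zg_gf4 (h : Obj M T x y U W) (hg : g ∈ X) (hk : k ∈ X) (he : e ∉ X) (hf : f ∉ X)
    (hgk : g ≠ k) (hef : e ≠ f) (hu : u ∈ U) (hw : w ∈ W)
    (u0 : ∀ z ∈ M.E, z ∉ X → z ≠ e → z ≠ f → u z = 0) (w0 : ∀ z ∈ X, z ≠ g → z ≠ k → w z = 0)
    (δ : E → F) : gf δ u w =
      δ g * (u g * w g) + δ k * (u k * w k) + δ e * (u e * w e) + δ f * (u f * w f) := by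
  rw [gf_apply]
  refine zg_sum4 (fun z => δ z * (u z * w z)) hgk (fun e' => he (e' ▸ hg)) (fun e' => hf (e' ▸ hg))
    (fun e' => he (e' ▸ hk)) (fun e' => hf (e' ▸ hk)) hef fun z z1 z2 z3 z4 => ?_
  by_cases hz : z ∈ M.E
  · by_cases hzX : z ∈ X
    · simp [w0 z hzX z1 z2]
    · simp [u0 z hz hzX z3 z4]
  · rcases h.out z hz with h1 | h1
    · simp [h1 u hu]
    · simp [h1 w hw]

/-- The coordinates of a cycle on a block. -/
theorem zg_col2 (h : Obj M T x y U W) (hX : M.IsBase X) (hg : g ∈ X) (he : e ∉ X) (hf : f ∉ X)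
    (hef : e ≠ f) (hu : u ∈ U) (u0 : ∀ z ∈ M.E, z ∉ X → z ≠ e → z ≠ f → u z = 0) :
    u g = -(x (T X g e) * u e + x (T X g f) * u f) := by
  classical
  have h1 := zg_ker h hX hu g
  have hge : g ≠ e := fun e' => he (e' ▸ hg)
  have hgf : g ≠ f := fun e' => hf (e' ▸ hg)
  rw [← Finset.sum_subset (Finset.subset_univ {g, e, f}) fun z _ hz => by
    simp only [Finset.mem_insert, Finset.mem_singleton, not_or] at hz
    by_cases hzE : z ∈ M.E
    · by_cases hzX : z ∈ X
      · rw [h.tab.off hX hzX (Ne.symm hz.1), map_zero, zero_mul]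
      · rw [u0 z hzE hzX hz.2.1 hz.2.2, mul_zero]
    · rw [h.tab.col hX g hzE, map_zero, zero_mul]] at h1
  rw [Finset.sum_insert (by simp [hge, hgf]), Finset.sum_pair hef, h.tab.diag X hX g hg, map_one,
    one_mul] at h1
  linear_combination h1

theorem zg_site (h : Obj M T x x U W) (hs : Site M X g k e f) (hef : e ≠ f) {δ : E → F}
    (ha : ∀ u ∈ U, ∀ w ∈ W, (∀ z ∈ M.E, z ∉ X → z ≠ e → z ≠ f → u z = 0) →
      (∀ z ∈ X, z ≠ g → z ≠ k → w z = 0) → u f * l w = gf δ u w) : ZgP W l f X g k := by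
  have hX := hs.base
  have hg := hs.ge.1
  have hk := hs.he.1
  have he := hs.ge.2.1
  have hf := hs.gf.2.1
  obtain ⟨u, hu, u1, u2, u3⟩ := h.exists_col hX hs.ge.mem_ground he
  obtain ⟨u', hu', u1', u2', u3'⟩ := h.exists_col hX hs.gf.mem_ground hf
  have u4 : u f = 0 := u3 f hs.gf.mem_ground hf hef.symm
  have u4' : u' e = 0 := u3' e hs.ge.mem_ground he hef
  have key : ∀ w ∈ W, (∀ z ∈ X, z ≠ g → z ≠ k → w z = 0) →
      (δ e - δ g) * (w g * x (T X g e)) + (δ e - δ k) * (w k * x (T X k e)) = 0 := by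
    intro w hw w0
    have h1 := ha u hu w hw (fun z a b c _ => u3 z a b c) w0
    rw [zg_gf4 h hg hk he hf hs.ne hef hu hw (fun z a b c _ => u3 z a b c) w0, u4, u1, u2 g hg,
      u2 k hk, zg_row2 h hX hs.ne hw w0 hs.ge.mem_ground] at h1
    linear_combination -h1
  obtain ⟨r, hr, -, r2, r3⟩ := zg_exists_row h hX g
  obtain ⟨s, hs', -, s2, s3⟩ := zg_exists_row h hX k
  have e1 := key r hr fun z a b _ => r2 z a b
  have e2 := key s hs' fun z a _ c => s2 z a c
  rw [r3 hg, r2 k hk hs.ne.symm, one_mul, zero_mul, mul_zero, add_zero] at e1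
  rw [s3 hk, s2 g hg hs.ne, one_mul, zero_mul, mul_zero, zero_add] at e2
  have d1 := sub_eq_zero.1 ((mul_eq_zero.1 e1).resolve_right (zg_ne h.tab x hX hs.ge))
  have d2 := sub_eq_zero.1 ((mul_eq_zero.1 e2).resolve_right (zg_ne h.tab x hX hs.he))
  intro w hw w0 hwf
  have h1 := ha u' hu' w hw (fun z a b _ c => u3' z a b c) w0
  have h2 := zg_row2 h hX hs.ne hw w0 hs.gf.mem_ground
  rw [zg_gf4 h hg hk he hf hs.ne hef hu' hw (fun z a b _ c => u3' z a b c) w0, u4', u1', u2' g hg,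
    u2' k hk, ← d1, ← d2, hwf] at h1
  rw [hwf] at h2
  linear_combination h1 + δ e * h2

theorem zg_line_dis {I S : Set E} (hl : Line M I S) (h4 : S.ncard = 4) : Disjoint I S := by
  refine disjoint_left.2 fun p hp hpS => ?_
  obtain ⟨q, hq, hqp⟩ := exists_ne_of_one_lt_ncard (s := S) (by omega) p
  have h1 := hl.pair p hpS q hq hqp.symm
  have h2 : I ∪ {p, q} = insert q I := by
    ext z
    simp only [mem_union, mem_insert_iff, mem_singleton_iff]
    constructor
    · rintro (h | rfl | h)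
      exacts [Or.inr h, Or.inr hp, Or.inl h]
    · rintro (h | h)
      exacts [Or.inr (Or.inr h), Or.inl h]
  have h3 := rk_insert_le M q I
  have h5 := rk_indep hl.ind
  rw [h2] at h1
  omega

theorem zg_line_dual {I S : Set E} (hl : Line M✶ I S) (h4 : S.ncard = 4) :
    Line M (M.E \ (I ∪ S)) S ∧ M.E \ (M.E \ (I ∪ S) ∪ S) = I := by
  have hd := zg_line_dis hl h4
  have hI : I ⊆ M.E := hl.ind.subset_ground
  have hS : S ⊆ M.E := hl.sub
  have c1 : (M.E \ (I ∪ S)).ncard + (I ∪ S).ncard = M.E.ncard :=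
    ncard_sdiff_add_ncard_of_subset (union_subset hI hS)
  have c2 : (I ∪ S).ncard = I.ncard + S.ncard := ncard_union_eq hd
  have c3 := rk_dual_ground M
  have c4 : rk M✶ M.E = I.ncard + 2 := hl.rank
  have hr : rk M M.E = (M.E \ (I ∪ S)).ncard + 2 := by omega
  have hp : ∀ p ∈ S, ∀ q ∈ S, p ≠ q →
      rk M (M.E \ (I ∪ S) ∪ {p, q}) = (M.E \ (I ∪ S)).ncard + 2 := by
    intro p hp q hq hpq
    have hsub : ({p, q} : Set E) ⊆ S := insert_subset hp (singleton_subset_iff.2 hq)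
    have d1 : (S \ {p, q}).ncard + ({p, q} : Set E).ncard = S.ncard :=
      ncard_sdiff_add_ncard_of_subset hsub
    rw [ncard_pair hpq] at d1
    have d2 : (S \ {p, q}).ncard = 2 := by omega
    obtain ⟨a, b, hab, d3⟩ := ncard_eq_two.1 d2
    have ha : a ∈ S \ {p, q} := d3 ▸ mem_insert _ _
    have hb : b ∈ S \ {p, q} := d3 ▸ mem_insert_of_mem _ rfl
    have d4 := hl.pair a ha.1 b hb.1 hab
    rw [← d3] at d4
    have d5 := rk_dual (M := M) (X := I ∪ S \ {p, q}) (union_subset hI (sdiff_subset.trans hS))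
    have d6 : (I ∪ S \ {p, q}).ncard = I.ncard + (S \ {p, q}).ncard :=
      ncard_union_eq (hd.mono_right sdiff_subset)
    have d7 : M.E \ (I ∪ S \ {p, q}) = M.E \ (I ∪ S) ∪ {p, q} := by
      ext z
      have z1 : z ∈ ({p, q} : Set E) → z ∈ S := fun h => hsub h
      have z2 : z ∈ S → z ∈ M.E := fun h => hS h
      have z3 : z ∈ I → z ∉ S := fun h => disjoint_left.1 hd h
      simp only [mem_union, mem_sdiff]
      constructor
      · rintro ⟨a1, a2⟩
        by_cases a3 : z ∈ ({p, q} : Set E)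
        · exact Or.inr a3
        · exact Or.inl ⟨a1, fun a4 => a2 (a4.imp_right fun a5 => ⟨a5, a3⟩)⟩
      · rintro (⟨a1, a2⟩ | a1)
        · exact ⟨a1, fun a4 => a2 (a4.imp_right And.left)⟩
        · exact ⟨z2 (z1 a1), fun a4 => a4.elim (fun a5 => z3 a5 (z1 a1)) fun a5 => a5.2 a1⟩
    rw [d7] at d5
    omega
  refine ⟨⟨?_, hr, hS, hp⟩, ?_⟩
  · obtain ⟨p, hpS, q, hq, hpq⟩ := (one_lt_ncard (s := S)).1 (by omega)
    have h1 := hp p hpS q hq hpq
    have h2 := rk_union_le M (M.E \ (I ∪ S)) {p, q}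
    have h3 := rk_le_ncard M {p, q}
    have h5 := rk_le_ncard M (M.E \ (I ∪ S))
    rw [ncard_pair hpq] at h3
    rw [indep_iff_rk]
    omega
  · ext z
    have z2 : z ∈ I → z ∈ M.E := fun h => hI h
    have z3 : z ∈ I → z ∉ S := fun h => disjoint_left.1 hd h
    simp only [mem_union, mem_sdiff]
    tauto

theorem zg_line_del {I S : Set E} (hf : M.Coindep {f}) (hl : Line (M ＼ {f}) I S) :
    Line M I S ∧ {f} ∪ (M ＼ {f}).E \ (I ∪ S) = M.E \ (I ∪ S) := by
  have hI : I ⊆ M.E \ {f} := hl.ind.subset_ground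
  have hS : S ⊆ M.E \ {f} := hl.sub
  have hr := hl.rank
  rw [Matroid.delete_ground, rk_delete disjoint_sdiff_left, rk_coindep hf] at hr
  refine ⟨⟨hl.ind.of_delete, hr, hS.trans sdiff_subset, fun p hp q hq hpq => ?_⟩, ?_⟩
  · rw [← hl.pair p hp q hq hpq, rk_delete]
    exact (subset_sdiff.1 (union_subset hI
      (insert_subset (hS hp) (singleton_subset_iff.2 (hS hq))))).2
  · ext z
    have z1 : z ∈ I → z ≠ f := fun h => (hI h).2
    have z2 : z ∈ S → z ≠ f := fun h => (hS h).2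
    have z3 : z = f → z ∈ M.E := fun h => h ▸ hf.subset_ground rfl
    simp only [Matroid.delete_ground, mem_union, mem_sdiff, mem_singleton_iff]
    tauto

theorem zg_empty (h : Obj M T x y U W) (hE : M.E = ∅) (φ ψ : Fm F E) : Agr φ ψ U W := by
  intro u hu w _
  rw [h.cyc.inj u hu fun e he => by simp [hE] at he]
  simp

theorem zg_move {γ : E → F} (hφ : Val φ U W) (hl : Agr φ (gf γ + pf (co f) l) U W) :
    Val (pf (co f) l) U W :=
  (hφ.sub (val_gf γ U W)).congr fun u hu w hw => by simp [hl u hu w hw]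

theorem zg_core (h : Obj M T x y U W) : ∀ φ : Fm F E, Val φ U W →
    (∀ I S, Line M I S → S.ncard = 4 → x = y ∧ Gauge φ (van U (M.E \ (I ∪ S))) (van W I)) →
    Gauge φ U W := by
  refine zg_ind (p := fun M x y U W => ∀ φ : Fm F E, Val φ U W →
    (∀ I S, Line M I S → S.ncard = 4 → x = y ∧ Gauge φ (van U (M.E \ (I ∪ S))) (van W I)) →
    Gauge φ U W) ?_ ?_ ?_ _ M T x y U W rfl h
  · intro M T x y U W h hE φ _ _
    exact ⟨0, zg_empty h hE _ _⟩
  · intro M T x y U W _ ih φ hφ hs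
    refine (ih φ.flip hφ.flip fun I S hl h4 => ?_).flip
    obtain ⟨h1, h2⟩ := zg_line_dual hl h4
    obtain ⟨h3, h5⟩ := hs _ S h1 h4
    rw [h2] at h5
    exact ⟨h3.symm, h5.flip⟩
  · intro M T x y U W X f h hX hf hfX hj ih φ hφ hs
    have hco := zg_coindep hX hf hfX
    obtain ⟨γ, hγ⟩ := ih φ (hφ.mono (van_le _ _) le_rfl) fun I S hl h4 => by
      obtain ⟨h1, h2⟩ := zg_line_del hco hl
      rw [van_van, h2]
      exact hs I S h1 h4
    obtain ⟨l, hl⟩ := ker_del hγ
    obtain ⟨c, hc⟩ := zg_col h (zg_move hφ hl) (fun X g k e hst => by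
      obtain ⟨h1, hef⟩ := hst.line h.tab
      have hg := hst.ge.1
      have hk := hst.he.1
      have he := hst.ge.2.1
      have hf := hst.gf.2.1
      obtain ⟨rfl, δ, hδ⟩ := hs _ _ h1 (ncard_eq_four.2 ⟨g, k, e, f, hst.ne,
        fun e' => he (e' ▸ hg), fun e' => hf (e' ▸ hg), fun e' => he (e' ▸ hk),
        fun e' => hf (e' ▸ hk), hef, rfl⟩)
      refine zg_site h hst hef (δ := δ - γ) fun u hu w hw u0 w0 => ?_
      have h2 := hδ u ⟨hu, fun z hz => u0 z hz.1 (fun hzX => hz.2 ?_) (fun e' => hz.2 ?_)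
        fun e' => hz.2 ?_⟩ w ⟨hw, fun z hz => w0 z hz.1 (fun e' => hz.2 ?_) fun e' => hz.2 ?_⟩
      · have h3 := hl u hu w hw
        rw [h2, LinearMap.add_apply, LinearMap.add_apply, pf_apply, co_apply] at h3
        rw [gf_sub, LinearMap.sub_apply, LinearMap.sub_apply, h3]
        ring
      · by_cases hz' : z ∈ ({g, k} : Set E)
        · rcases hz' with rfl | rfl <;> simp
        · exact Or.inl ⟨hzX, hz'⟩
      all_goals simp [e']) hX hf hfX hj
    exact ((gauge_gf γ U W).add (gauge_diag f c U W)).congr fun u hu w hw => by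
      simp [hl u hu w hw, pf_apply, hc w hw]

end aux

theorem Obj.gauge_of_sites (h : Obj M T x x U W) (hφ : Val φ U W)
    (hs : ∀ I S, Line M I S → S.ncard = 4 → Gauge φ (van U (M.E \ (I ∪ S))) (van W I)) :
    Gauge φ U W :=
  zg_core h φ hφ fun I S hl h4 => ⟨rfl, hs I S hl h4⟩

theorem Obj.gauge_of_noSite (h : Obj M T x y U W) (hs : ¬ HasSite M) (hφ : Val φ U W) :
    Gauge φ U W :=
  zg_core h φ hφ fun _ _ hl h4 => absurd (hl.hasSite h.tab h4.ge) hs

theorem Obj.exists_mu (h : Obj M T x y U W) (hs : ¬ HasSite M) :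
    ∃ μ : E → F, (∀ e, μ e ≠ 0) ∧ Agr (gf μ) 0 U W := by
  classical
  refine zg_ind (p := fun M _ _ U W => ¬ HasSite M → ∃ μ : E → F, (∀ e, μ e ≠ 0) ∧
    Agr (gf μ) 0 U W) ?_ ?_ ?_ _ M T x y U W rfl h hs
  · intro M T x y U W h hE _
    exact ⟨fun _ => 1, fun _ => one_ne_zero, zg_empty h hE _ _⟩
  · intro M T x y U W h ih hs
    obtain ⟨μ, h1, h2⟩ := ih fun h3 => hs (by simpa using h3.dual h.dual.tab)
    refine ⟨μ, h1, fun u hu w hw => ?_⟩
    have := h2.flip u hu w hw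
    rwa [gf_flip] at this
  · intro M T x y U W X f h hX hf hfX hj ih hs
    have hco := zg_coindep hX hf hfX
    obtain ⟨μ, h1, h2⟩ := ih fun h3 => hs (HasSite.of_minor (I := ∅) (J := {f})
      ⟨M.empty_indep, hco, empty_disjoint _⟩ (by rwa [mn_empty_left]))
    obtain ⟨l, hl⟩ := ker_del h2
    rw [← gf_zero] at hl
    obtain ⟨c, hc⟩ := zg_col h (zg_move (val_gf μ U W) hl)
      (fun X g k e hst => absurd ⟨X, g, k, e, f, hst⟩ hs) hX hf hfX hj
    by_cases hex : ∃ b, Adj M X b f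
    · obtain ⟨b, hb⟩ := hex
      have h3 : Agr (gf (μ - Pi.single f c)) 0 U W := fun u hu w hw => by
        simp [gf_sub, gf_single, hl u hu w hw, pf_apply, hc w hw]
      refine ⟨_, fun e => ?_, h3⟩
      have h4 : ∀ e, e ≠ f → (μ - Pi.single f c : E → F) e ≠ 0 := fun e he => by
        simpa [Pi.single_eq_of_ne he] using h1 e
      by_cases he : e = f
      · rw [he]
        intro h5
        have h6 := h.ker_adj h3 hX hb
        rw [h5, zero_mul] at h6
        exact mul_ne_zero (h4 b fun e' => hfX (e' ▸ hb.1)) (zg_ne h.tab x hX hb) h6.symm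
      · exact h4 e he
    · refine ⟨μ, h1, fun u hu w hw => ?_⟩
      have h3 : w f = 0 := zg_val0 h hX hw hf hfX fun b hb => absurd ⟨b, hb⟩ hex
      simp [hl u hu w hw, pf_apply, hc w hw, h3]

theorem Obj.gauge_of_der (h : Obj M T x x U W) (hv : ∀ m, IsCr M T m → der x v (mo m) = 0) :
    Gauge (dfm M T x v) U W := by
  classical
  refine h.gauge_of_sites (h.dfm_val v) fun I S hl h4 => ?_
  obtain ⟨g, k, e, f, h1, h2, h3, h5, h6, h7, rfl⟩ := ncard_eq_four.1 h4
  have hs := hl.site h.tab (g := g) (h := k) (e := e) (f := f) (by simp) (by simp) (by simp)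
    (by simp) h1 h2 h3 h5 h6 h7
  obtain ⟨m, -, hm⟩ := h.tab.exists_cr hs
  have h0 := hv m ⟨_, _, _, _, _, hs, hm⟩
  generalize hB : I ∪ {g, k} = B at hs hm
  have hX := hs.base
  have n1 := zg_ne h.tab x hX hs.ge
  have n2 := zg_ne h.tab x hX hs.gf
  have n3 := zg_ne h.tab x hX hs.he
  have n4 := zg_ne h.tab x hX hs.hf
  have e1 := congrArg x hm
  have e2 := congrArg (der x v) hm
  simp only [map_mul, der_mul, h0, zero_mul, add_zero] at e1 e2
  refine ⟨fun z => if z = g then 0 else if z = k then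
    der x v (T B g e) / x (T B g e) - der x v (T B k e) / x (T B k e) else
    der x v (T B g z) / x (T B g z), fun u hu w hw => ?_⟩
  have u0 : ∀ z ∈ M.E, z ∉ B → z ≠ e → z ≠ f → u z = 0 := fun z a b c d => hu.2 z ⟨a, by
    rw [← hB] at b
    simp only [mem_union, mem_insert_iff, mem_singleton_iff] at b ⊢
    tauto⟩
  have w0 : ∀ z ∈ B, z ≠ g → z ≠ k → w z = 0 := fun z a b c => hw.2 z (by
    rw [← hB] at a
    simp only [mem_union, mem_insert_iff, mem_singleton_iff] at a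
    tauto)
  have hin : ∀ b ∈ B, ∑ z, w b * der x v (T B b z) * u z =
      w b * der x v (T B b e) * u e + w b * der x v (T B b f) * u f := fun b hb =>
    Finset.sum_eq_add_of_mem e f (Finset.mem_univ _) (Finset.mem_univ _) h7 fun z _ hz => by
      by_cases hzE : z ∈ M.E
      · by_cases hzX : z ∈ B
        · by_cases hbz : b = z
          · rw [← hbz, h.tab.diag B hX b hb, der_one, mul_zero, zero_mul]
          · rw [h.tab.off hX hzX hbz, der_zero, mul_zero, zero_mul]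
        · rw [u0 z hzE hzX hz.1 hz.2, mul_zero]
      · rw [h.tab.col hX b hzE, der_zero, mul_zero, zero_mul]
  rw [h.dfm_base hX v u hu.1 w hw.1, mf_apply,
    zg_gf4 h hs.ge.1 hs.he.1 hs.ge.2.1 hs.gf.2.1 h1 h7 hu.1 hw.1 u0 w0,
    Finset.sum_eq_add_of_mem g k (Finset.mem_univ _) (Finset.mem_univ _) h1 fun b _ hb => by
      by_cases hbX : b ∈ B
      · simp [w0 b hbX hb.1 hb.2]
      · simp [h.tab.row hX hbX]]
  simp only [Matrix.map_apply]
  rw [hin g hs.ge.1, hin k hs.he.1, zg_col2 h hX hs.he.1 hs.ge.2.1 hs.gf.2.1 h7 hu.1 u0,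
    zg_row2 h hX h1 hw.1 w0 hs.ge.mem_ground, zg_row2 h hX h1 hw.1 w0 hs.gf.mem_ground]
  simp only [if_true, if_neg h1.symm, if_neg h2.symm, if_neg h3.symm, if_neg h5.symm,
    if_neg h6.symm]
  have e3 : der x v (T B k f) = x (T B k f) * (der x v (T B g f) / x (T B g f) -
      der x v (T B g e) / x (T B g e) + der x v (T B k e) / x (T B k e)) := by
    have e4 : x (mo m) = x (T B k e) * x (T B g f) / (x (T B g e) * x (T B k f)) := by
      rw [e1]
      field_simp
    rw [e4] at e2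
    field_simp at e2 ⊢
    linear_combination -e2
  rw [e3]
  field_simp
  ring

end Pool.Agent.Lib.MP_10bdcf_co.G
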