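import Pool.Agent.Lib.MP_10bdcf_co.ZH
import Pool.Agent.Lib.MP_10bdcf_co.ZG
import Pool.Agent.Lib.MP_10bdcf_co.CB

/-!
General consequences of the statements of the induction: duality, minors, fixed elements.
-/

namespace Pool.Agent.Lib.MP_10bdcf_co.G

open scoped Matroid
open Set

set_option linter.unusedSectionVars false

variable {E F : Type} [Fintype E] [Field F] {M : Matroid E} {T T' : Set E → Matrix E E R0}
  {x y : R0 →+* F} {U W : Sb F E} {φ ξ : Fm F E} {I J S : Set E} {e f g : E} {v v' : F × F}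
  {γ : E → F} {r : ℕ}

theorem mn_empty (M : Matroid E) : mn M ∅ ∅ = M := by
  rw [mn_empty_left, Matroid.delete_empty]

theorem op_empty (M : Matroid E) : Op M ∅ ∅ := by
  exact ⟨M.empty_indep, M✶.empty_indep, disjoint_empty _⟩

theorem noTri_iff : NoTri M ↔ ∀ e f g, ¬ Tri M e f g := by
  exact ⟨fun h e f g ht => h e f g ht.1 ht.2.1 ht.2.2.1 ht.2.2.2,
    fun h e f g h1 h2 h3 h4 => h e f g ⟨h1, h2, h3, h4⟩⟩

theorem HasR.dual (h : HasR M) : HasR M✶ := by
  obtain ⟨I, J, hf⟩ := h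
  exact ⟨J, I, hf.dual⟩

theorem hasR_dual_iff : HasR M✶ ↔ HasR M := by
  exact ⟨fun h => by simpa only [Matroid.dual_dual] using h.dual, HasR.dual⟩

theorem HasR.of_minor (ho : Op M I J) (h : HasR (mn M I J)) : HasR M := by
  obtain ⟨I', J', hf⟩ := h
  exact ⟨_, _, Frame.union ho hf⟩

theorem hasR_minor_iff (ho : Op M I J) : HasR (mn M I J) ↔ Safe M I J := by
  constructor
  · rintro ⟨I', J', hf⟩
    exact ⟨_, _, Frame.union ho hf, subset_union_left, subset_union_left⟩
  · rintro ⟨I', J', hf, hI, hJ⟩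
    exact ⟨_, _, hf.sdiff hI hJ⟩

theorem Safe.hasR (h : Safe M I J) : HasR M := by
  obtain ⟨I', J', hf, -, -⟩ := h
  exact ⟨_, _, hf⟩

theorem HasR.hasSite (hT : U2 M T) (h : HasR M) : HasSite M := by
  obtain ⟨I, J, hf⟩ := h
  exact (hf.isR.hasSite (hT.minor hf.op)).of_minor hf.op

theorem HasR.two_types (hT : U2 M T) (h : HasR M) :
    ∃ m n, IsCr M T m ∧ IsCr M T n ∧ ty m ≠ ty n := by
  obtain ⟨I, J, hf⟩ := h
  obtain ⟨m, n, hm, hn, hne⟩ := hf.isR.two_types (hT.minor hf.op)
  exact ⟨m, n, hm.of_minor hf.op, hn.of_minor hf.op, hne⟩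

theorem HasR.five_le (h : HasR M) : 5 ≤ M.E.ncard := by
  obtain ⟨I, J, hf⟩ := h
  have := hf.card_total
  omega

theorem HasSite.exists_line (hT : U2 M T) (h : HasSite M) : ∃ I S, Line M I S ∧ S.ncard = 4 := by
  obtain ⟨B, g, k, e, f, hs⟩ := h
  obtain ⟨hl, hef⟩ := hs.line hT
  have h1 : g ≠ e := fun h => hs.ge.2.1 (h ▸ hs.ge.1)
  have h2 : g ≠ f := fun h => hs.gf.2.1 (h ▸ hs.gf.1)
  have h3 : k ≠ e := fun h => hs.he.2.1 (h ▸ hs.he.1)
  have h4 : k ≠ f := fun h => hs.hf.2.1 (h ▸ hs.hf.1)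
  refine ⟨_, _, hl, ?_⟩
  rw [ncard_insert_of_notMem (by simp [hs.ne, h1, h2]), ncard_insert_of_notMem (by simp [h3, h4]),
    ncard_pair hef]

theorem zi_line (h : Line M I S) (h2 : 2 ≤ S.ncard) (hJ : Disjoint J (I ∪ S)) :
    rk M (M.E \ J) = rk M M.E := by
  obtain ⟨p, hp, q, hq, hne⟩ := (one_lt_ncard S.toFinite).1 (by omega)
  have h1 := h.pair p hp q hq hne
  have h3 := rk_mono M (show I ∪ {p, q} ⊆ M.E \ J from subset_sdiff.2
    ⟨union_subset h.ind.subset_ground ((pair_subset hp hq).trans h.sub),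
      hJ.symm.mono_left (union_subset_union_right _ (pair_subset hp hq))⟩)
  have h4 := rk_le_rank M (M.E \ J)
  have h5 := h.rank
  omega

theorem Line.delete (h : Line M I S) (h2 : 2 ≤ S.ncard) (hJ : Disjoint J (I ∪ S)) :
    Line (M ＼ J) I S := by
  have hI : Disjoint I J := (hJ.mono_right subset_union_left).symm
  have hS : Disjoint S J := (hJ.mono_right subset_union_right).symm
  refine ⟨Matroid.delete_indep_iff.2 ⟨h.ind, hI⟩, ?_, subset_sdiff.2 ⟨h.sub, hS⟩,
    fun p hp q hq hne => ?_⟩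
  · rw [Matroid.delete_ground, rk_delete disjoint_sdiff_left, zi_line h h2 hJ, h.rank]
  · rw [rk_delete (hJ.symm.mono_left (union_subset_union_right _ (pair_subset hp hq))),
      h.pair p hp q hq hne]

theorem Line.op (h : Line M I S) (h2 : 2 ≤ S.ncard) (hJ : J ⊆ M.E \ (I ∪ S)) : Op M I J := by
  have hd : Disjoint J (I ∪ S) := (subset_sdiff.1 hJ).2
  exact ⟨h.ind, (coindep_iff_rk (hJ.trans sdiff_subset)).2 (zi_line h h2 hd),
    (hd.mono_right subset_union_left).symm⟩

theorem Up.of_dual (hT : U2 M T) (h : Up M✶ (duT M T)) : Up M T := by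
  have _ := hT
  intro F _ x U W ho φ hφ
  obtain ⟨v, hv⟩ := h F x W U ho.dual φ.flip hφ.flip
  refine ⟨(-1 : F) • v, hv.flip.congr fun u hu w hw => ?_⟩
  have h1 := ho.dfm_dual v w hw u hu
  rw [dfm_smul]
  simp only [LinearMap.neg_apply, LinearMap.flip_apply] at h1
  simp only [LinearMap.sub_apply, LinearMap.flip_apply, LinearMap.smul_apply, h1, smul_eq_mul,
    neg_one_mul]

theorem OneT.of_dual (hT : U2 M T) (h : OneT M✶ (duT M T)) : OneT M T := by
  exact fun hr m n hm hn => h (fun h' => hr (hasR_dual_iff.1 h')) m n (hm.dual hT) (hn.dual hT)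

theorem Ex.of_dual (h : Ex M✶ (duT M T)) : Ex M T := by
  intro hr F _ x y U W ht ho
  obtain ⟨φ, h1, h2⟩ := h hr.dual F y x W U ht.symm ho.dual
  exact ⟨φ.flip, h1.flip, fun h3 => h2 (by simpa only [LinearMap.flip_flip] using h3.flip)⟩

theorem NZ.of_dual (h : NZ M✶ (duT M T)) : NZ M T := by
  intro F _ x y U W ho φ hφ I J hf hg
  simpa only [LinearMap.flip_flip] using
    (h F y x W U ho.dual φ.flip hφ.flip J I hf.dual hg.flip).flip

theorem GoodT.of_dual (hT : U2 M T) (h : GoodT M✶ (duT M T)) : GoodT M T := by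
  exact ⟨h.up.of_dual hT, h.one.of_dual hT, h.ex.of_dual⟩

theorem GoodM.of_dual (h : GoodM M✶) : GoodM M := by
  exact fun T hT => (h _ hT.dual).of_dual hT

theorem GoodM.dual (h : GoodM M) : GoodM M✶ := by
  exact GoodM.of_dual (by rwa [Matroid.dual_dual])

theorem HG.minor (h : HG M) (ho : Op M I J) : HG (mn M I J) := by
  intro I' J' ho' hc
  rw [ho.mn_mn ho'] at hc ⊢
  exact h _ _ (ho.union ho') hc

theorem HG.dual (h : HG M) : HG M✶ := by
  intro I J ho hc
  have ho' : Op M J I := by simpa only [Matroid.dual_dual] using ho.dual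
  rw [← mn_dual ho'.dis] at hc ⊢
  exact (h J I ho' (by simpa only [Matroid.dual_dual] using hc.dual)).dual

theorem HG.good (h : HG M) (hc : Con3 M) : GoodM M := by
  have := h ∅ ∅ (op_empty M)
  rw [mn_empty] at this
  exact this hc

theorem HG.ihm (h : HG M) : IHm M := by
  exact fun I J ho _ hc => h I J ho hc

theorem IHm.dual (h : IHm M) : IHm M✶ := by
  intro I J ho hne hc
  have ho' : Op M J I := by simpa only [Matroid.dual_dual] using ho.dual
  rw [← mn_dual ho'.dis] at hc ⊢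
  exact (h J I ho' (by rwa [union_comm]) (by simpa only [Matroid.dual_dual] using hc.dual)).dual

theorem IHm.hg (h : IHm M) (ho : Op M I J) (hne : (I ∪ J).Nonempty) : HG (mn M I J) := by
  intro I' J' ho' hc
  rw [ho.mn_mn ho'] at hc ⊢
  exact h _ _ (ho.union ho')
    (hne.mono (union_subset_union subset_union_left subset_union_left)) hc

theorem IHm.hg_self (h : IHm M) (hg : Con3 M → GoodM M) : HG M := by
  intro I J ho hc
  rcases (I ∪ J).eq_empty_or_nonempty with h0 | h0
  · obtain ⟨rfl, rfl⟩ := union_empty_iff.1 h0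
    rw [mn_empty] at hc ⊢
    exact hg hc
  · exact h I J ho h0 hc

theorem IHr.hg (h : IHr r) (hr : rk M M.E < r) : HG M := by
  intro I J ho hc
  have := ho.rank
  exact h E _ hc (by omega)

theorem IHr.mono {r' : ℕ} (h : IHr r) (hr : r' ≤ r) : IHr r' := by
  exact fun E' _ M' hc h' => h E' M' hc (h'.trans_le hr)

theorem Conn.conL (h : Conn M) : ConL M := by
  intro X hX hl
  rcases conn_iff.1 h X hX hl with rfl | rfl <;> simp

theorem zi_v3 (h : V3 M) : V3L M := by
  intro X hX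
  have h1 := Conn.conL h.1 X hX
  have h2 := h.2 X hX
  omega

theorem Con3.v3L (h : Con3 M) : V3L M := by
  exact zi_v3 h.v3

theorem V3.v3L (h : V3 M) : V3L M := by
  exact zi_v3 h

theorem V3L.conL (h : V3L M) : ConL M := by
  intro X hX hl
  have := h X hX
  omega

/-- Without loops and parallel pairs. -/
theorem V3L.con3 (h : V3L M) (hs : ∀ e ∈ M.E, ∀ f, e ≠ f → e ∉ M.closure {f}) : Con3 M := by
  have key : ∀ Y ⊆ M.E, rk M Y ≤ 1 → Y.ncard ≤ rk M Y ∨ (M.E \ Y).ncard = 0 := by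
    intro Y hY hr
    by_contra hc
    obtain ⟨h1, h2⟩ := not_or.1 hc
    obtain ⟨z, hz⟩ := nonempty_of_ncard_ne_zero h2
    have h3 : ∀ a ∈ Y, 1 ≤ rk M {a} := fun a ha => by
      have h4 := rk_insert_of_notMem (hY ha) (hs a (hY ha) z fun h => hz.2 (h ▸ ha))
      have h5 := rk_union_le M {a} {z}
      rw [singleton_union] at h5
      omega
    obtain ⟨c, hc⟩ := nonempty_of_ncard_ne_zero (s := Y) (by omega)
    have h4 := h3 c hc
    have h5 := rk_mono M (singleton_subset_iff.2 hc)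
    obtain ⟨a, ha, b, hb, hab⟩ := (one_lt_ncard Y.toFinite).1 (by omega)
    have h6 := rk_insert_of_notMem (hY ha) (hs a (hY ha) b hab)
    have h7 := h3 b hb
    have h8 := rk_mono M (pair_subset ha hb)
    omega
  intro X hX hl
  have h1 := h X hX
  have h2 := key X hX
  have h3 := key (M.E \ X) sdiff_subset
  rw [sdiff_sdiff_cancel_left hX] at h3
  omega

theorem zi_par (hp : e ∈ M.closure {f}) {Z : Set E} (hZ : f ∈ M.E → f ∈ Z) :
    rk M (insert e Z) = rk M Z := by
  rw [← M.closure_inter_ground] at hp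
  refine rk_insert_of_mem (M.closure_subset_closure ?_ hp)
  rintro z ⟨rfl, hz⟩
  exact hZ hz

theorem zi_rest (hne : e ≠ f) (hp : e ∈ M.closure {f}) : rk M (M.E \ {e}) = rk M M.E := by
  have h := zi_par hp (Z := M.E \ {e}) fun hf => ⟨hf, hne.symm⟩
  rw [insert_sdiff_singleton, insert_eq_of_mem (M.closure_subset_ground _ hp)] at h
  exact h.symm

/-- Deleting a loop or one element of a parallel pair. -/
theorem V3L.delete (h : V3L M) (hne : e ≠ f) (hp : e ∈ M.closure {f}) : V3L (M ＼ {e}) := by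
  intro X hX
  have he : e ∈ M.E := M.closure_subset_ground _ hp
  have d1 : Disjoint X {e} := (subset_sdiff.1 hX).2
  have h1 := lam_add (M ＼ {e}) X
  have h2 := zi_rest hne hp
  rw [Matroid.delete_ground, rk_delete disjoint_sdiff_left] at h1
  rw [Matroid.delete_ground]
  rw [rk_delete d1, rk_delete (disjoint_sdiff_left.mono_left sdiff_subset)] at h1 ⊢
  by_cases hfX : f ∈ X
  · have h3 := lam_add M (insert e X)
    have h4 := zi_par hp (Z := X) fun _ => hfX
    have h5 : M.E \ insert e X = (M.E \ {e}) \ X := by grind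
    have h6 := h (insert e X) (insert_subset he (hX.trans sdiff_subset))
    rw [h5] at h3 h6
    omega
  · have h3 := lam_add M X
    have h4 := zi_par hp (Z := (M.E \ {e}) \ X) fun hf => ⟨⟨hf, hne.symm⟩, hfX⟩
    have h5 : insert e ((M.E \ {e}) \ X) = M.E \ X := by
      rw [Set.sdiff_sdiff_comm, insert_sdiff_singleton,
        insert_eq_of_mem (show e ∈ M.E \ X from ⟨he, fun h => (hX h).2 rfl⟩)]
    have h6 := h X (hX.trans sdiff_subset)
    rw [h5] at h4
    omega

theorem op_par (hne : e ≠ f) (hp : e ∈ M.closure {f}) : Op M ∅ {e} := by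
  exact op_del (M.closure_subset_ground _ hp) (zi_rest hne hp)

end Pool.Agent.Lib.MP_10bdcf_co.G
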