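import Pool.Agent.Lib.MP_10bdcf_co.RB
import Pool.Agent.Lib.MP_10bdcf_co.ZI

/-!
Coordinates for a matroid of rank four.
-/

namespace Pool.Agent.Lib.MP_10bdcf_co.G

open scoped Matroid
open Set

set_option linter.unusedSectionVars false

variable {E : Type} [Fintype E] {M : Matroid E} {T : Set E → Matrix E E R0} {v : E → V4}
  {a b c d u w x x' y z : E}

/-- Coordinates of a matroid of rank four. -/
structure Cf4 (M : Matroid E) (v : E → V4) : Prop where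
  inP : ∀ p q r s, InP (dt (v p) (v q) (v r) (v s))
  ne : ∀ p q r s, dt (v p) (v q) (v r) (v s) ≠ 0 ↔ rk M {p, q, r, s} = 4

/-- Coordinates in which five points are in normal position. -/
structure Std (M : Matroid E) (v : E → V4) (a b c u w : E) : Prop extends Cf4 M v where
  va : v a = (1, 0, 0, 0)
  vb : v b = (0, 1, 0, 0)
  vc : v c = (0, 0, 1, 0)
  vu : v u = (0, 0, 0, 1)
  vw : v w = (1, 1, 1, 1)
  inn : ∀ x, rk M {a, b, c, x} ≠ 4 → rk M {b, c, u, x} = 4 → ∃ s t, v x = (1, s, t, 0)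
  out : ∀ y, rk M {a, b, c, y} = 4 → (v y).2.2.2 = 1

theorem rc_le3 {S : Set E} (x y z : E) (h : S ⊆ {x, y, z}) : rk M S ≤ 3 :=
  (rk_le_ncard M S).trans ((ncard_le_ncard h).trans (by
    have h1 := ncard_insert_le x {y, z}
    have h2 := ncard_insert_le y {z}
    rw [ncard_singleton] at h2
    omega))

/-- A column in the rows `a b c u`. -/
def rcCol (A : Matrix E E R0) (a b c u e : E) : V4 := (A a e, A b e, A c e, A u e)

theorem rc_piv (hT : U2 M T) {B : Set E} (hB : M.IsBase B) {p : E} (h0 : T B a p ≠ 0) (hb : b ∈ B)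
    (hc : c ∈ B) (hu : u ∈ B) (h1 : a ≠ b) (h2 : a ≠ c) (h3 : a ≠ u) (q r s : E) :
    dt (rcCol (T B) a b c u p) (rcCol (T B) a b c u q) (rcCol (T B) a b c u r)
      (rcCol (T B) a b c u s) = T B a p * d3 (T (ex B a p)) b c u q r s := by
  refine mul_left_cancel₀ (mul_ne_zero h0 h0) ?_
  have e1 := um_piv hT hB h0 hb h1
  have e2 := um_piv hT hB h0 hc h2
  have e3 := um_piv hT hB h0 hu h3
  have e4 : T B a p * T B a p * (T B a p * d3 (T (ex B a p)) b c u q r s) =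
      d2 (T B) a b p q * (d2 (T B) a c p r * d2 (T B) a u p s -
        d2 (T B) a c p s * d2 (T B) a u p r) -
      d2 (T B) a b p r * (d2 (T B) a c p q * d2 (T B) a u p s -
        d2 (T B) a c p s * d2 (T B) a u p q) +
      d2 (T B) a b p s * (d2 (T B) a c p q * d2 (T B) a u p r -
        d2 (T B) a c p r * d2 (T B) a u p q) := by
    simp only [e1, e2, e3]
    simp only [d3, d2]
    ring
  rw [e4]
  simp only [d2, dt, rcCol]
  ring

theorem rc_swap (p q r s : V4) : dt p q r s = -dt q p r s ∧ dt p q r s = -dt r q p s ∧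
    dt p q r s = -dt s q r p := by
  simp only [dt]
  refine ⟨?_, ?_, ?_⟩ <;> ring

theorem U2.exists_cf4 (hT : U2 M T) (hr : rk M M.E = 4) (hB : rk M {a, b, c, u} = 4) :
    ∃ v, Cf4 M v ∧ v a = (1, 0, 0, 0) ∧ v b = (0, 1, 0, 0) ∧ v c = (0, 0, 1, 0) ∧
      v u = (0, 0, 0, 1) := by
  have n1 : a ≠ b := fun e => by have := rc_le3 (M := M) (S := {a, b, c, u}) a c u (by grind); omega
  have n2 : a ≠ c := fun e => by have := rc_le3 (M := M) (S := {a, b, c, u}) a b u (by grind); omega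
  have n3 : a ≠ u := fun e => by have := rc_le3 (M := M) (S := {a, b, c, u}) a b c (by grind); omega
  have n4 : b ≠ c := fun e => by have := rc_le3 (M := M) (S := {a, b, c, u}) a b u (by grind); omega
  have n5 : b ≠ u := fun e => by have := rc_le3 (M := M) (S := {a, b, c, u}) a b c (by grind); omega
  have n6 : c ≠ u := fun e => by have := rc_le3 (M := M) (S := {a, b, c, u}) a b c (by grind); omega
  have hb : M.IsBase {a, b, c, u} := um_base (by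
    have h1 := ncard_insert_le a {b, c, u}
    have h2 := ncard_insert_le b {c, u}
    have h3 := ncard_insert_le c {u}
    rw [ncard_singleton] at h3
    omega) (by omega)
  generalize hK : ({a, b, c, u} : Set E) = K at hb
  have ma : a ∈ K := by simp [← hK]
  have mb : b ∈ K := by simp [← hK]
  have mc : c ∈ K := by simp [← hK]
  have mu : u ∈ K := by simp [← hK]
  have key : ∀ p q r s, T K a p ≠ 0 → InP (dt (rcCol (T K) a b c u p) (rcCol (T K) a b c u q)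
      (rcCol (T K) a b c u r) (rcCol (T K) a b c u s)) ∧ (dt (rcCol (T K) a b c u p)
      (rcCol (T K) a b c u q) (rcCol (T K) a b c u r) (rcCol (T K) a b c u s) ≠ 0 ↔
        rk M {p, q, r, s} = 4) := fun p q r s h0 => by
    have h1 := ((hT.supp K hb a p).1 h0).2
    have m1 := um_ne hT hb h0 mb n1
    have m2 := um_ne hT hb h0 mc n2
    have m3 := um_ne hT hb h0 mu n3
    have h2 : ex K a p \ {b, c, u} ∪ {q, r, s} = {p, q, r, s} := by
      ext x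
      simp only [← hK, mem_union, mem_sdiff, mem_ex, mem_singleton_iff, mem_insert_iff]
      grind
    rw [rc_piv hT hb h0 mb mc mu n1 n2 n3, mul_ne_zero_iff_left h0,
      hT.d3_ne h1 (mem_ex.2 (Or.inr ⟨mb, n1.symm⟩)) (mem_ex.2 (Or.inr ⟨mc, n2.symm⟩))
        (mem_ex.2 (Or.inr ⟨mu, n3.symm⟩)) n4 n5 n6, h2, hr]
    exact ⟨(hT.inP hb a p).mul (hT.d3_inP h1 _ _ _ _ _ _), Iff.rfl⟩
  have all : ∀ p q r s, InP (dt (rcCol (T K) a b c u p) (rcCol (T K) a b c u q)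
      (rcCol (T K) a b c u r) (rcCol (T K) a b c u s)) ∧ (dt (rcCol (T K) a b c u p)
      (rcCol (T K) a b c u q) (rcCol (T K) a b c u r) (rcCol (T K) a b c u s) ≠ 0 ↔
        rk M {p, q, r, s} = 4) := fun p q r s => by
    by_cases hp : T K a p = 0
    swap
    · exact key p q r s hp
    by_cases hq : T K a q = 0
    swap
    · rw [(rc_swap _ _ _ _).1, neg_ne_zero, insert_comm]
      exact (key q p r s hq).imp_left InP.neg
    by_cases hr' : T K a r = 0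
    swap
    · rw [(rc_swap _ _ _ _).2.1, neg_ne_zero, show ({p, q, r, s} : Set E) = {r, q, p, s} by grind]
      exact (key r q p s hr').imp_left InP.neg
    by_cases hs : T K a s = 0
    swap
    · rw [(rc_swap _ _ _ _).2.2, neg_ne_zero, show ({p, q, r, s} : Set E) = {s, q, r, p} by grind]
      exact (key s q r p hs).imp_left InP.neg
    have h5 := um_low hT hb ma hp (um_low hT hb ma hq (um_low hT hb ma hr'
      (um_low hT hb ma hs (um_low0 hb ma))))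
    have h6 : rk M {p, q, r, s} ≤ rk M (K \ {a} ∪ insert p (insert q (insert r (insert s ∅)))) :=
      rk_mono M (by grind)
    have h7 : dt (rcCol (T K) a b c u p) (rcCol (T K) a b c u q) (rcCol (T K) a b c u r)
        (rcCol (T K) a b c u s) = 0 := by
      simp only [dt, rcCol, hp, hq, hr', hs]
      ring
    exact ⟨Or.inl h7, fun h => absurd h7 h, fun h => by omega⟩
  refine ⟨rcCol (T K) a b c u, ⟨fun p q r s => (all p q r s).1, fun p q r s => (all p q r s).2⟩,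
    ?_, ?_, ?_, ?_⟩
  · rw [rcCol, hT.diag K hb a ma, hT.off hb ma n1.symm, hT.off hb ma n2.symm, hT.off hb ma n3.symm]
  · rw [rcCol, hT.diag K hb b mb, hT.off hb mb n1, hT.off hb mb n4.symm, hT.off hb mb n5.symm]
  · rw [rcCol, hT.diag K hb c mc, hT.off hb mc n2, hT.off hb mc n4, hT.off hb mc n6.symm]
  · rw [rcCol, hT.diag K hb u mu, hT.off hb mu n3, hT.off hb mu n5, hT.off hb mu n6]

theorem Cf4.scale (h : Cf4 M v) {ρ : V4} {κ : E → R0} (h1 : InG ρ.1) (h2 : InG ρ.2.1)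
    (h3 : InG ρ.2.2.1) (h4 : InG ρ.2.2.2) (hκ : ∀ e, InG (κ e)) :
    Cf4 M fun e => (ρ.1 * (v e).1 * κ e, ρ.2.1 * (v e).2.1 * κ e, ρ.2.2.1 * (v e).2.2.1 * κ e,
      ρ.2.2.2 * (v e).2.2.2 * κ e) := by
  have hG := fun p q r s => ((((((h1.mul h2).mul h3).mul h4).mul (hκ p)).mul (hκ q)).mul
    (hκ r)).mul (hκ s)
  have e : ∀ p q r s, dt
      (ρ.1 * (v p).1 * κ p, ρ.2.1 * (v p).2.1 * κ p, ρ.2.2.1 * (v p).2.2.1 * κ p,
        ρ.2.2.2 * (v p).2.2.2 * κ p)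
      (ρ.1 * (v q).1 * κ q, ρ.2.1 * (v q).2.1 * κ q, ρ.2.2.1 * (v q).2.2.1 * κ q,
        ρ.2.2.2 * (v q).2.2.2 * κ q)
      (ρ.1 * (v r).1 * κ r, ρ.2.1 * (v r).2.1 * κ r, ρ.2.2.1 * (v r).2.2.1 * κ r,
        ρ.2.2.2 * (v r).2.2.2 * κ r)
      (ρ.1 * (v s).1 * κ s, ρ.2.1 * (v s).2.1 * κ s, ρ.2.2.1 * (v s).2.2.1 * κ s,
        ρ.2.2.2 * (v s).2.2.2 * κ s) = ρ.1 * ρ.2.1 * ρ.2.2.1 * ρ.2.2.2 * κ p * κ q * κ r * κ s *
        dt (v p) (v q) (v r) (v s) := fun p q r s => by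
    simp only [dt]
    ring
  refine ⟨fun p q r s => ?_, fun p q r s => ?_⟩
  · rw [e]
    exact InP.mul (Or.inr (hG p q r s)) (h.inP p q r s)
  · rw [e, mul_ne_zero_iff_left (hG p q r s).ne_zero, h.ne]

theorem U2.exists_std (hT : U2 M T) (hr : rk M M.E = 4) (h1 : rk M {a, b, c, u} = 4)
    (h2 : rk M {a, b, c, w} = 4) (h3 : rk M {a, b, u, w} = 4) (h4 : rk M {a, c, u, w} = 4)
    (h5 : rk M {b, c, u, w} = 4) : ∃ v, Std M v a b c u w := by
  obtain ⟨v, h, va, vb, vc, vu⟩ := hT.exists_cf4 hr h1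
  have c1 : ∀ e, InP (v e).1 ∧ ((v e).1 ≠ 0 ↔ rk M {b, c, u, e} = 4) := fun e => by
    have e1 : (v e).1 = dt (v e) (v b) (v c) (v u) := by simp [dt, vb, vc, vu]
    rw [e1, show ({b, c, u, e} : Set E) = {e, b, c, u} by grind]
    exact ⟨h.inP _ _ _ _, h.ne _ _ _ _⟩
  have c2 : ∀ e, InP (v e).2.1 ∧ ((v e).2.1 ≠ 0 ↔ rk M {a, c, u, e} = 4) := fun e => by
    have e1 : (v e).2.1 = dt (v a) (v e) (v c) (v u) := by simp [dt, va, vc, vu]
    rw [e1, show ({a, c, u, e} : Set E) = {a, e, c, u} by grind]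
    exact ⟨h.inP _ _ _ _, h.ne _ _ _ _⟩
  have c3 : ∀ e, InP (v e).2.2.1 ∧ ((v e).2.2.1 ≠ 0 ↔ rk M {a, b, u, e} = 4) := fun e => by
    have e1 : (v e).2.2.1 = dt (v a) (v b) (v e) (v u) := by simp [dt, va, vb, vu]
    rw [e1, pair_comm u e]
    exact ⟨h.inP _ _ _ _, h.ne _ _ _ _⟩
  have c4 : ∀ e, InP (v e).2.2.2 ∧ ((v e).2.2.2 ≠ 0 ↔ rk M {a, b, c, e} = 4) := fun e => by
    have e1 : (v e).2.2.2 = dt (v a) (v b) (v c) (v e) := by simp [dt, va, vb, vc]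
    rw [e1]
    exact ⟨h.inP _ _ _ _, h.ne _ _ _ _⟩
  obtain ⟨r1, g1, f1⟩ := ((c1 w).1.resolve_left ((c1 w).2.2 h5)).exists_inv
  obtain ⟨r2, g2, f2⟩ := ((c2 w).1.resolve_left ((c2 w).2.2 h4)).exists_inv
  obtain ⟨r3, g3, f3⟩ := ((c3 w).1.resolve_left ((c3 w).2.2 h3)).exists_inv
  obtain ⟨r4, g4, f4⟩ := ((c4 w).1.resolve_left ((c4 w).2.2 h2)).exists_inv
  have ex : ∀ e, ∃ κ, InG κ ∧ ((v e).2.2.2 ≠ 0 → r4 * (v e).2.2.2 * κ = 1) ∧
      ((v e).2.2.2 = 0 → ((v e).1 ≠ 0 → r1 * (v e).1 * κ = 1) ∧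
        ((v e).1 = 0 → ((v e).2.1 ≠ 0 → r2 * (v e).2.1 * κ = 1) ∧
          ((v e).2.1 = 0 → (v e).2.2.1 ≠ 0 → r3 * (v e).2.2.1 * κ = 1))) := fun e => by
    by_cases k4 : (v e).2.2.2 = 0
    swap
    · obtain ⟨κ, k, k'⟩ := (g4.mul ((c4 e).1.resolve_left k4)).exists_inv
      exact ⟨κ, k, fun _ => k', fun h => absurd h k4⟩
    by_cases k1 : (v e).1 = 0
    swap
    · obtain ⟨κ, k, k'⟩ := (g1.mul ((c1 e).1.resolve_left k1)).exists_inv
      exact ⟨κ, k, fun h => absurd k4 h, fun _ => ⟨fun _ => k', fun h => absurd h k1⟩⟩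
    by_cases k2 : (v e).2.1 = 0
    swap
    · obtain ⟨κ, k, k'⟩ := (g2.mul ((c2 e).1.resolve_left k2)).exists_inv
      exact ⟨κ, k, fun h => absurd k4 h, fun _ => ⟨fun h => absurd k1 h,
        fun _ => ⟨fun _ => k', fun h => absurd h k2⟩⟩⟩
    by_cases k3 : (v e).2.2.1 = 0
    · exact ⟨1, InG.one, by simp [k1, k2, k3, k4]⟩
    · obtain ⟨κ, k, k'⟩ := (g3.mul ((c3 e).1.resolve_left k3)).exists_inv
      exact ⟨κ, k, fun h => absurd k4 h, fun _ => ⟨fun h => absurd k1 h,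
        fun _ => ⟨fun h => absurd k2 h, fun _ _ => k'⟩⟩⟩
  choose κ k0 k4 k1 using ex
  have ka := (k1 a (by rw [va])).1 (by simp [va])
  have kb := ((k1 b (by rw [vb])).2 (by rw [vb])).1 (by simp [vb])
  have kc := ((k1 c (by rw [vc])).2 (by rw [vc])).2 (by rw [vc]) (by simp [vc])
  have ku := k4 u (by simp [vu])
  have kw := k4 w ((c4 w).2.2 h2)
  rw [mul_comm r4, f4, one_mul] at kw
  refine ⟨_, h.scale (ρ := (r1, r2, r3, r4)) g1 g2 g3 g4 k0, ?_, ?_, ?_, ?_, ?_, fun x hx hx' => ?_,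
    fun y hy => k4 y ((c4 y).2.2 hy)⟩
  · simpa [va] using ka
  · simpa [vb] using kb
  · simpa [vc] using kc
  · simpa [vu] using ku
  · simp only [kw, mul_one, mul_comm _ (v w).1, mul_comm _ (v w).2.1, mul_comm _ (v w).2.2.1,
      mul_comm _ (v w).2.2.2, f1, f2, f3, f4]
  · have e1 : (v x).2.2.2 = 0 := not_not.1 fun h => hx ((c4 x).2.1 h)
    exact ⟨_, _, Prod.ext ((k1 x e1).1 ((c1 x).2.2 hx')) (Prod.ext rfl (Prod.ext rfl (by simp [e1])))⟩

theorem Std.aut (h : Std M v a b c u w) (φ : R0 ≃+* R0) (hφ : ∀ z, InG (φ z) ↔ InG z) :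
    Std M (fun e => (φ (v e).1, φ (v e).2.1, φ (v e).2.2.1, φ (v e).2.2.2)) a b c u w := by
  have e : ∀ p q r s : V4, dt (φ p.1, φ p.2.1, φ p.2.2.1, φ p.2.2.2)
      (φ q.1, φ q.2.1, φ q.2.2.1, φ q.2.2.2) (φ r.1, φ r.2.1, φ r.2.2.1, φ r.2.2.2)
      (φ s.1, φ s.2.1, φ s.2.2.1, φ s.2.2.2) = φ (dt p q r s) := fun p q r s => by simp [dt]
  refine ⟨⟨fun p q r s => ?_, fun p q r s => ?_⟩, by simp [h.va], by simp [h.vb], by simp [h.vc],
    by simp [h.vu], by simp [h.vw], fun x h1 h2 => ?_, fun y h1 => by simp [h.out y h1]⟩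
  · rw [e]
    exact (h.inP p q r s).imp (fun h0 => by rw [h0, map_zero]) (hφ _).2
  · rw [e, EmbeddingLike.map_ne_zero_iff, h.ne]
  · obtain ⟨s, t, h3⟩ := h.inn x h1 h2
    exact ⟨φ s, φ t, by simp [h3]⟩

theorem Std.cf (h : Std M v a b c u w) : Cf (range v) := by
  refine ⟨?_, ⟨a, h.va⟩, ⟨b, h.vb⟩, ⟨c, h.vc⟩, ⟨u, h.vu⟩, ⟨w, h.vw⟩⟩
  rintro _ ⟨p, rfl⟩ _ ⟨q, rfl⟩ _ ⟨r, rfl⟩ _ ⟨s, rfl⟩
  exact h.inP p q r s

theorem Std.nt (h : Std M v a b c u w) (hr : rk M M.E = 4) (h3 : rk M {x, y, z} = 3) :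
    Nt (v x) (v y) (v z) := by
  have h0 : rk M {a, b, c, u} = 4 := (h.ne _ _ _ _).1 (by simp [dt, h.va, h.vb, h.vc, h.vu])
  rw [Nt, ← h.va, ← h.vb, ← h.vc, ← h.vu, h.ne, h.ne, h.ne, h.ne]
  have e1 := rk_submod' M (X := {x, y, z, a}) (Y := {x, y, z, b}) (P := {x, y, z})
    (Q := {x, y, z, a, b}) (by grind) (by grind) (by grind)
  have e2 := rk_submod' M (X := {x, y, z, c}) (Y := {x, y, z, u}) (P := {x, y, z})
    (Q := {x, y, z, c, u}) (by grind) (by grind) (by grind)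
  have e3 := rk_submod' M (X := {x, y, z, a, b}) (Y := {x, y, z, c, u}) (P := {x, y, z})
    (Q := {a, b, c, u}) (by grind) (by grind) (by grind)
  have e4 := rk_le_rank M {x, y, z, a}
  have e5 := rk_le_rank M {x, y, z, b}
  have e6 := rk_le_rank M {x, y, z, c}
  have e7 := rk_le_rank M {x, y, z, u}
  omega

/-- Any three elements are independent. -/
def G4 (M : Matroid E) : Prop :=
  ∀ p ∈ M.E, ∀ q ∈ M.E, ∀ r ∈ M.E, p ≠ q → p ≠ r → q ≠ r → rk M {p, q, r} = 3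

theorem rc_nt {ι : Type} {p : ι → E} (hi : Function.Injective p) (hE : ∀ i, p i ∈ M.E)
    (hr : rk M M.E = 4) (hg : G4 M) {i0 i1 i2 i3 i4 : ι}
    (h : Std M v (p i0) (p i1) (p i2) (p i3) (p i4)) (hd : [i0, i1, i2, i3, i4].Nodup) :
    (∀ k, k ∉ [i0, i1, i2, i3, i4] → Nt1 (v (p k))) ∧ ∀ k l, k ∉ [i0, i1, i2, i3, i4] →
      l ∉ [i0, i1, i2, i3, i4] → k ≠ l → Nt2 (v (p k)) (v (p l)) := by
  have key : ∀ i j k, i ≠ j → i ≠ k → j ≠ k → Nt (v (p i)) (v (p j)) (v (p k)) :=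
    fun i j k h1 h2 h3 => h.nt hr (hg _ (hE i) _ (hE j) _ (hE k) (hi.ne h1) (hi.ne h2) (hi.ne h3))
  refine ⟨fun k hk => ?_, fun k l hk hl hkl => ?_⟩
  · rw [Nt1, ← h.va, ← h.vb, ← h.vc, ← h.vu, ← h.vw]
    refine ⟨?_, ?_, ?_, ?_, ?_, ?_, ?_, ?_, ?_, ?_⟩ <;> apply key <;> grind
  · rw [Nt2, ← h.va, ← h.vb, ← h.vc, ← h.vu, ← h.vw]
    refine ⟨?_, ?_, ?_, ?_, ?_⟩ <;> apply key <;> grind

theorem rc_nf {ι : Type} {p : ι → E} (hi : Function.Injective p) (hE : ∀ i, p i ∈ M.E)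
    (hT : U2 M T) (hr : rk M M.E = 4) (hg : G4 M) {i0 i1 i2 i3 i4 : ι}
    (hd : [i0, i1, i2, i3, i4].Nodup) (h1 : rk M {p i0, p i1, p i2, p i3} = 4)
    (h2 : rk M {p i0, p i1, p i2, p i4} = 4) (h3 : rk M {p i0, p i1, p i3, p i4} = 4)
    (h4 : rk M {p i0, p i2, p i3, p i4} = 4) (h5 : rk M {p i1, p i2, p i3, p i4} = 4) {k : ι}
    (hk : k ∉ [i0, i1, i2, i3, i4]) (hx : rk M {p i0, p i1, p i2, p k} = 3) :
    ∃ v s t, Std M v (p i0) (p i1) (p i2) (p i3) (p i4) ∧ v (p k) = (1, s, t, 0) ∧ Nf s t ∧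
      ∀ l, l ∉ [i0, i1, i2, i3, i4] → rk M {p i0, p i1, p i2, p l} = 3 →
        ∃ s' t', v (p l) = (1, s', t', 0) := by
  have key : ∀ l, l ∉ [i0, i1, i2, i3, i4] → rk M {p i0, p i1, p i2, p l} = 3 →
      rk M {p i1, p i2, p i3, p l} = 4 := fun l hl e => by
    have e1 := hg _ (hE i1) _ (hE i2) _ (hE l) (hi.ne (by grind)) (hi.ne (by grind))
      (hi.ne (by grind))
    have e2 := rk_submod' M (X := {p i0, p i1, p i2, p l}) (Y := {p i1, p i2, p i3, p l})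
      (P := {p i1, p i2, p l}) (Q := {p i0, p i1, p i2, p i3}) (by grind) (by grind) (by grind)
    have e3 := rk_le_rank M {p i1, p i2, p i3, p l}
    omega
  obtain ⟨v, h⟩ := hT.exists_std hr h1 h2 h3 h4 h5
  obtain ⟨s, t, e⟩ := h.inn _ (by omega) (key k hk hx)
  obtain ⟨φ, h6, h7⟩ := h.cf.exists_aut ⟨_, e⟩ (e ▸ (rc_nt hi hE hr hg h hd).1 k hk)
  exact ⟨_, φ s, φ t, h.aut φ h7, by simp [e], h6,
    fun l hl e' => (h.aut φ h7).inn _ (by omega) (key l hl e')⟩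

theorem r4_one (hT : U2 M T) (hr : rk M M.E = 4) (hg : G4 M) (p : Fin 8 → E)
    (hi : Function.Injective p) (hE : ∀ i, p i ∈ M.E)
    (h1 : rk M {p 0, p 1, p 2, p 3} = 4) (h2 : rk M {p 0, p 1, p 2, p 4} = 4)
    (h3 : rk M {p 0, p 1, p 3, p 4} = 4) (h4 : rk M {p 0, p 2, p 3, p 4} = 4)
    (h5 : rk M {p 1, p 2, p 3, p 4} = 4) (hx : rk M {p 0, p 1, p 2, p 5} = 3)
    (hy : rk M {p 0, p 1, p 2, p 6} = 4) (hz : rk M {p 0, p 1, p 2, p 7} = 4)
    (h : ∀ X ⊆ M.E, X.ncard = 5 → rk M X = 4) : False := by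
  obtain ⟨v, s, t, hs, e, hn, -⟩ := rc_nf hi hE hT hr hg (by decide) h1 h2 h3 h4 h5 (by decide) hx
  obtain ⟨n1, n2⟩ := rc_nt hi hE hr hg hs (by decide)
  have k1 : ∀ i k : Fin 8, [i, 3, 4, 5, k].Nodup → dt (v (p i)) (v (p 3)) (v (p 4)) (v (p 5)) ≠ 0 ∨
      dt (v (p i)) (v (p 3)) (v (p 4)) (v (p k)) ≠ 0 := fun i k hd => by
    rw [hs.ne, hs.ne]
    clear n1 n2 hn e
    have e1 := h {p i, p 3, p 4, p 5, p k} (by simp [insert_subset_iff, hE]) (by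
      rw [ncard_insert_of_notMem, ncard_insert_of_notMem, ncard_insert_of_notMem, ncard_pair] <;>
      simp only [mem_insert_iff, mem_singleton_iff, hi.eq_iff, ne_eq] <;> grind)
    have e2 := hg _ (hE i) _ (hE 3) _ (hE 4) (hi.ne (by grind)) (hi.ne (by grind))
      (hi.ne (by decide))
    have e3 := rk_submod' M (X := {p i, p 3, p 4, p 5}) (Y := {p i, p 3, p 4, p k})
      (P := {p i, p 3, p 4}) (Q := {p i, p 3, p 4, p 5, p k}) (by grind) (by grind) (by grind)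
    have e4 := rk_le_rank M {p i, p 3, p 4, p 5}
    have e5 := rk_le_rank M {p i, p 3, p 4, p k}
    omega
  have k2 : ∀ k : Fin 8, 5 < k → Np2 (1, s, t, 0) (v (p k)) := fun k hk => by
    rw [← e, Np2, ← hs.va, ← hs.vb, ← hs.vc, ← hs.vu, ← hs.vw]
    simp only [List.mem_cons, List.not_mem_nil, or_false, forall_eq_or_imp, forall_eq]
    exact ⟨k1 0 k (by revert k; decide), k1 1 k (by revert k; decide), k1 2 k (by revert k; decide)⟩
  exact hs.cf.one_nf hn ⟨_, e⟩ ⟨p 6, rfl⟩ ⟨p 7, rfl⟩ (hs.out _ hy) (hs.out _ hz) (n1 6 (by decide))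
    (n1 7 (by decide)) (e ▸ n2 5 6 (by decide) (by decide) (by decide))
    (e ▸ n2 5 7 (by decide) (by decide) (by decide)) (n2 6 7 (by decide) (by decide) (by decide))
    (k2 6 (by decide)) (k2 7 (by decide))

theorem r4_two (hT : U2 M T) (hr : rk M M.E = 4) (hg : G4 M) (p : Fin 9 → E)
    (hi : Function.Injective p) (hE : ∀ i, p i ∈ M.E)
    (h1 : rk M {p 0, p 1, p 2, p 3} = 4) (h2 : rk M {p 0, p 1, p 2, p 4} = 4)
    (h3 : rk M {p 0, p 1, p 3, p 4} = 4) (h4 : rk M {p 0, p 2, p 3, p 4} = 4)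
    (h5 : rk M {p 1, p 2, p 3, p 4} = 4) (hx : rk M {p 0, p 1, p 2, p 5} = 3)
    (hy : rk M {p 0, p 1, p 2, p 6} = 4) (hz : rk M {p 0, p 1, p 2, p 7} = 4)
    (hx' : rk M {p 0, p 1, p 2, p 8} = 3) : False := by
  obtain ⟨v, s, t, hs, e, hn, h6⟩ := rc_nf hi hE hT hr hg (by decide) h1 h2 h3 h4 h5 (by decide) hx
  obtain ⟨n1, n2⟩ := rc_nt hi hE hr hg hs (by decide)
  obtain ⟨s', t', e'⟩ := h6 8 (by decide) hx'
  exact hs.cf.two_nf hn ⟨_, e⟩ ⟨_, e'⟩ ⟨p 6, rfl⟩ ⟨p 7, rfl⟩ (hs.out _ hy) (hs.out _ hz)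
    (e' ▸ n1 8 (by decide)) (n1 6 (by decide)) (n1 7 (by decide))
    (e ▸ e' ▸ n2 5 8 (by decide) (by decide) (by decide))
    (e ▸ n2 5 6 (by decide) (by decide) (by decide))
    (e ▸ n2 5 7 (by decide) (by decide) (by decide)) (n2 6 7 (by decide) (by decide) (by decide))

end Pool.Agent.Lib.MP_10bdcf_co.G
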