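import Pool.Agent.Lib.MP_10bdcf_co.RC

/-!
A 3-connected matroid without triangles and triads has rank at least five.
-/

namespace Pool.Agent.Lib.MP_10bdcf_co.G

open scoped Matroid
open Set

set_option linter.unusedSectionVars false

variable {E : Type} [Fintype E] {M : Matroid E} {T : Set E → Matrix E E R0}
  {a b c d u w x y z : E}

theorem rd_sub (M : Matroid E) (P Q X Y : Set E) (h : P ⊆ X ∧ P ⊆ Y ∧ Q ⊆ X ∪ Y) :
    rk M P + rk M Q ≤ rk M X + rk M Y := rk_submod' M h.1 h.2.1 h.2.2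

theorem rd_mono (M : Matroid E) (X Y : Set E) (h : X ⊆ Y) : rk M X ≤ rk M Y := rk_mono M h

/-- Rank facts on four points of a plane and four points outside. -/
structure RdCfg (M : Matroid E) (P O : Set E) : Prop where
  t1 : ∀ p ∈ P, ∀ o ∈ O, ∀ o' ∈ O, o ≠ o' → rk M {p, o, o'} = 3
  t2 : ∀ p ∈ P, ∀ q ∈ P, p ≠ q → ∀ o ∈ O, rk M {p, q, o} = 3
  t3 : ∀ p ∈ O, ∀ q ∈ O, ∀ r ∈ O, p ≠ q → p ≠ r → q ≠ r → rk M {p, q, r} = 3
  t4 : ∀ p ∈ P, ∀ q ∈ P, ∀ r ∈ P, p ≠ q → p ≠ r → q ≠ r → ∀ o ∈ O, rk M {p, q, r, o} = 4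

theorem rd_t4 {P : Set E} (hr : rk M M.E = 4) (ha : a ∈ P) (hb : b ∈ P) (hc : c ∈ P)
    (h1 : rk M {a, b, c} = 3) (h3 : rk M P = 3) (h4 : rk M (insert u P) = 4) :
    rk M {a, b, c, u} = 4 := by
  have e1 := rd_sub M {a, b, c} (insert u P) {a, b, c, u} P (by simp [insert_subset_iff, ha, hb, hc])
  have e2 := rk_le_rank M {a, b, c, u}
  omega

theorem rd_match {P O : Set E} (hr : rk M M.E = 4) (h : RdCfg M P O) (ha : a ∈ P) (hb : b ∈ P)
    (hc : c ∈ P) (hd : d ∈ P) (ab : a ≠ b) (ac : a ≠ c) (ad : a ≠ d) (bc : b ≠ c) (bd : b ≠ d)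
    (cd : c ≠ d) (hu : u ∈ O) (hw : w ∈ O) (uw : u ≠ w) :
    (rk M {a, b, u, w} = 4 ∧ rk M {a, c, u, w} = 4 ∧ rk M {b, c, u, w} = 4) ∨
    (rk M {a, b, u, w} = 4 ∧ rk M {a, d, u, w} = 4 ∧ rk M {b, d, u, w} = 4) ∨
    (rk M {a, c, u, w} = 4 ∧ rk M {a, d, u, w} = 4 ∧ rk M {c, d, u, w} = 4) ∨
    (rk M {b, c, u, w} = 4 ∧ rk M {b, d, u, w} = 4 ∧ rk M {c, d, u, w} = 4) ∨
    (rk M {a, b, u, w} ≤ 3 ∧ rk M {c, d, u, w} ≤ 3) ∨
    (rk M {a, c, u, w} ≤ 3 ∧ rk M {b, d, u, w} ≤ 3) ∨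
    (rk M {a, d, u, w} ≤ 3 ∧ rk M {b, c, u, w} ≤ 3) := by
  have a1 := h.t1 a ha u hu w hw uw
  have a2 := h.t1 b hb u hu w hw uw
  have a3 := h.t1 c hc u hu w hw uw
  have a4 := h.t1 d hd u hu w hw uw
  have b1 := h.t4 a ha b hb c hc ab ac bc u hu
  have b2 := h.t4 a ha b hb d hd ab ad bd u hu
  have b3 := h.t4 a ha c hc d hd ac ad cd u hu
  have b4 := h.t4 b hb c hc d hd bc bd cd u hu
  have c1 := rk_le_rank M {a, b, u, w}
  have c2 := rk_le_rank M {a, c, u, w}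
  have c3 := rk_le_rank M {a, d, u, w}
  have c4 := rk_le_rank M {b, c, u, w}
  have c5 := rk_le_rank M {b, d, u, w}
  have c6 := rk_le_rank M {c, d, u, w}
  have d1 := rd_sub M {a, u, w} {a, b, c, u} {a, b, u, w} {a, c, u, w} (by simp [insert_subset_iff])
  have d2 := rd_sub M {a, u, w} {a, b, d, u} {a, b, u, w} {a, d, u, w} (by simp [insert_subset_iff])
  have d3 := rd_sub M {a, u, w} {a, c, d, u} {a, c, u, w} {a, d, u, w} (by simp [insert_subset_iff])
  have d4 := rd_sub M {b, u, w} {a, b, c, u} {a, b, u, w} {b, c, u, w} (by simp [insert_subset_iff])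
  have d5 := rd_sub M {b, u, w} {a, b, d, u} {a, b, u, w} {b, d, u, w} (by simp [insert_subset_iff])
  have d6 := rd_sub M {b, u, w} {b, c, d, u} {b, c, u, w} {b, d, u, w} (by simp [insert_subset_iff])
  have d7 := rd_sub M {c, u, w} {a, b, c, u} {a, c, u, w} {b, c, u, w} (by simp [insert_subset_iff])
  have d8 := rd_sub M {c, u, w} {a, c, d, u} {a, c, u, w} {c, d, u, w} (by simp [insert_subset_iff])
  have d9 := rd_sub M {c, u, w} {b, c, d, u} {b, c, u, w} {c, d, u, w} (by simp [insert_subset_iff])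
  have e1 := rd_sub M {d, u, w} {a, b, d, u} {a, d, u, w} {b, d, u, w} (by simp [insert_subset_iff])
  have e2 := rd_sub M {d, u, w} {a, c, d, u} {a, d, u, w} {c, d, u, w} (by simp [insert_subset_iff])
  have e3 := rd_sub M {d, u, w} {b, c, d, u} {b, d, u, w} {c, d, u, w} (by simp [insert_subset_iff])
  omega

theorem rd_same {P O : Set E} (h : RdCfg M P O) (ha : a ∈ P) (hb : b ∈ P)
    (hc : c ∈ P) (hd : d ∈ P) (ab : a ≠ b) (ac : a ≠ c) (bc : b ≠ c) (cd : c ≠ d) (hu : u ∈ O)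
    (hw : w ∈ O) (hy : y ∈ O) (uw : u ≠ w) (uy : u ≠ y) (wy : w ≠ y)
    (h1 : rk M {a, b, u, w} ≤ 3 ∧ rk M {c, d, u, w} ≤ 3)
    (h2 : rk M {a, b, u, y} ≤ 3 ∧ rk M {c, d, u, y} ≤ 3) : False := by
  have a1 := h.t2 a ha b hb ab u hu
  have a2 := h.t2 c hc d hd cd u hu
  have a3 := h.t3 u hu w hw y hy uw uy wy
  have a4 := h.t4 a ha b hb c hc ab ac bc u hu
  have d1 := rd_sub M {a, b, u} {a, b, u, w, y} {a, b, u, w} {a, b, u, y}
    (by simp [insert_subset_iff])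
  have d2 := rd_sub M {c, d, u} {c, d, u, w, y} {c, d, u, w} {c, d, u, y}
    (by simp [insert_subset_iff])
  have d3 := rd_sub M {u, w, y} {a, b, c, u} {a, b, u, w, y} {c, d, u, w, y}
    (by simp [insert_subset_iff])
  omega

theorem rd_fin {P O : Set E} (hT : U2 M T) (hr : rk M M.E = 4) (hP : P ⊆ M.E) (hO : O ⊆ M.E)
    (h : RdCfg M P O) (ha : a ∈ P) (hb : b ∈ P) (hc : c ∈ P) (hd : d ∈ P)
    (ac : a ≠ c) (ad : a ≠ d) (bc : b ≠ c) (bd : b ≠ d) (cd : c ≠ d) (hu : u ∈ O) (hw : w ∈ O)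
    (hy : y ∈ O) (hz : z ∈ O) (uw : u ≠ w) (uy : u ≠ y) (uz : u ≠ z)
    (h1 : rk M {a, b, u, w} ≤ 3 ∧ rk M {c, d, u, w} ≤ 3)
    (h2 : rk M {a, c, u, y} ≤ 3 ∧ rk M {b, d, u, y} ≤ 3)
    (h3 : rk M {a, d, u, z} ≤ 3 ∧ rk M {b, c, u, z} ≤ 3) : False := by
  have a1 := h.t1 a ha u hu w hw uw
  have a2 := h.t1 b hb u hu w hw uw
  have a3 := h.t1 c hc u hu y hy uy
  have a4 := h.t1 d hd u hu y hy uy
  have a5 := h.t1 a ha u hu z hz uz
  have a6 := h.t1 b hb u hu z hz uz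
  have a7 := h.t1 c hc u hu z hz uz
  have b3 := h.t4 a ha c hc d hd ac ad cd u hu
  have b4 := h.t4 b hb c hc d hd bc bd cd u hu
  have u1 := rk_singleton_le M u
  have u2 := rk_insert_le M a {u}
  have u3 := rk_insert_le M b {u}
  have u4 := rk_insert_le M w {a, u}
  have u5 := rk_insert_le M w {b, u}
  have u6 := rd_mono M {a, u, w} {w, a, u} (by simp [insert_subset_iff])
  have u7 := rd_mono M {b, u, w} {w, b, u} (by simp [insert_subset_iff])
  have le : ∀ X, rk M X ≤ 4 := fun X => hr ▸ rk_le_rank M X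
  have k1 : rk M ({u} ∪ {c, y, z}) = rk M {u} + 3 := by
    have d1 := rd_sub M {c, u, y} {a, c, u, y, z} {a, c, u, y} ({u} ∪ {c, y, z})
      (by simp [insert_subset_iff])
    have d2 := rd_sub M {a, u, z} {a, c, d, u} {a, c, u, y, z} {a, d, u, z}
      (by simp [insert_subset_iff])
    have := le ({u} ∪ {c, y, z})
    omega
  have eq : ∀ X Y : Set E, X ⊆ Y ∧ Y ⊆ X → rk M X = rk M Y := fun X Y h => by
    rw [Subset.antisymm h.1 h.2]
  refine no_K4h hT (X := {u}) (a := c) (b := y) (c := z) (d := d) (e := a) (f := b) (z := w)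
    (by simp [insert_subset_iff, hP ha, hP hb, hP hc, hP hd, hO hw, hO hy, hO hz])
    ?_ k1 ?_ ?_ ?_ ?_ ?_ ?_ ?_ ?_ ?_ ?_ ?_ ?_
  · have d1 := rd_mono M ({u} ∪ {c, y, z}) ({u} ∪ {c, y, z, d}) (by simp [insert_subset_iff])
    have := le ({u} ∪ {c, y, z, d})
    omega
  · have d1 := rd_sub M {c, u, y} {a, c, d, u} {a, c, u, y} ({u} ∪ {c, y, d})
      (by simp [insert_subset_iff])
    have := le ({u} ∪ {c, y, d})
    omega
  · have d1 := rd_sub M {c, u, z} {b, c, d, u} {b, c, u, z} ({u} ∪ {c, z, d})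
      (by simp [insert_subset_iff])
    have := le ({u} ∪ {c, z, d})
    omega
  · have d1 := rd_sub M {d, u, y} {b, d, u, y, z} {b, d, u, y} ({u} ∪ {y, z, d})
      (by simp [insert_subset_iff])
    have d2 := rd_sub M {b, u, z} {b, c, d, u} {b, d, u, y, z} {b, c, u, z}
      (by simp [insert_subset_iff])
    have := le ({u} ∪ {y, z, d})
    omega
  · have := eq ({u} ∪ {a}) {a, u} (by simp [insert_subset_iff])
    omega
  · have d1 := eq ({u} ∪ {c, y, a}) {a, c, u, y} (by simp [insert_subset_iff])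
    have d2 := rd_mono M {c, u, y} {a, c, u, y} (by simp [insert_subset_iff])
    omega
  · have d1 := eq ({u} ∪ {z, d, a}) {a, d, u, z} (by simp [insert_subset_iff])
    have d2 := rd_mono M {a, u, z} {a, d, u, z} (by simp [insert_subset_iff])
    omega
  · have := eq ({u} ∪ {b}) {b, u} (by simp [insert_subset_iff])
    omega
  · have d1 := eq ({u} ∪ {c, z, b}) {b, c, u, z} (by simp [insert_subset_iff])
    have d2 := rd_mono M {b, u, z} {b, c, u, z} (by simp [insert_subset_iff])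
    omega
  · have d1 := eq ({u} ∪ {y, d, b}) {b, d, u, y} (by simp [insert_subset_iff])
    have d2 := rd_mono M {d, u, y} {b, d, u, y} (by simp [insert_subset_iff])
    omega
  · have d1 := eq ({u} ∪ {a, b, w}) {a, b, u, w} (by simp [insert_subset_iff])
    have d2 := rd_mono M {a, u, w} {a, b, u, w} (by simp [insert_subset_iff])
    omega
  · have := eq ({u} ∪ {a, w}) {a, u, w} (by simp [insert_subset_iff])
    omega
  · have := eq ({u} ∪ {b, w}) {b, u, w} (by simp [insert_subset_iff])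
    omega

/-- Four points of a plane and four points outside: there is a spanning circuit. -/
theorem r4_arc (hT : U2 M T) (hr : rk M M.E = 4) (hg : G4 M) {P O : Set E} (hP : P ⊆ M.E)
    (hO : O ⊆ M.E) (h1 : P.ncard = 4) (h2 : O.ncard = 4) (h3 : rk M P = 3)
    (h4 : ∀ o ∈ O, rk M (insert o P) = 4) :
    ∃ a b c x u w y z, P = {a, b, c, x} ∧ O = {u, w, y, z} ∧ rk M {a, b, u, w} = 4 ∧
      rk M {a, c, u, w} = 4 ∧ rk M {b, c, u, w} = 4 := by
  have hne : ∀ p ∈ P, ∀ o ∈ O, p ≠ o := fun p hp o ho e => by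
    have := h4 o ho
    rw [← e, insert_eq_of_mem hp] at this
    omega
  have h : RdCfg M P O :=
    ⟨fun p hp o ho o' ho' e => hg p (hP hp) o (hO ho) o' (hO ho') (hne p hp o ho) (hne p hp o' ho') e,
      fun p hp q hq e o ho => hg p (hP hp) q (hP hq) o (hO ho) e (hne p hp o ho) (hne q hq o ho),
      fun p hp q hq r hr => hg p (hO hp) q (hO hq) r (hO hr),
      fun p hp q hq r hr' e1 e2 e3 o ho => rd_t4 hr hp hq hr'
        (hg p (hP hp) q (hP hq) r (hP hr') e1 e2 e3) h3 (h4 o ho)⟩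
  obtain ⟨a, b, c, d, ab, ac, ad, bc, bd, cd, eP⟩ := ncard_eq_four.1 h1
  obtain ⟨u, w, y, z, uw, uy, uz, wy, wz, yz, eO⟩ := ncard_eq_four.1 h2
  have ha : a ∈ P := by simp [eP]
  have hb : b ∈ P := by simp [eP]
  have hc : c ∈ P := by simp [eP]
  have hd : d ∈ P := by simp [eP]
  have hu : u ∈ O := by simp [eO]
  have hw : w ∈ O := by simp [eO]
  have hy : y ∈ O := by simp [eO]
  have hz : z ∈ O := by simp [eO]
  by_contra hcon
  have hM : ∀ w y z, O = {u, w, y, z} → u ≠ w →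
      (rk M {a, b, u, w} ≤ 3 ∧ rk M {c, d, u, w} ≤ 3) ∨
      (rk M {a, c, u, w} ≤ 3 ∧ rk M {b, d, u, w} ≤ 3) ∨
      (rk M {a, d, u, w} ≤ 3 ∧ rk M {b, c, u, w} ≤ 3) := by
    intro w y z eO uw
    rcases rd_match hr h ha hb hc hd ab ac ad bc bd cd hu (show w ∈ O by simp [eO]) uw with
      h5 | h5 | h5 | h5 | h5
    · exact absurd ⟨a, b, c, d, u, w, y, z, eP, eO, h5⟩ hcon
    · exact absurd ⟨a, b, d, c, u, w, y, z, by rw [eP, pair_comm c d], eO, h5⟩ hcon
    · exact absurd ⟨a, c, d, b, u, w, y, z, by rw [eP, insert_comm b c, pair_comm b d], eO, h5⟩ hcon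
    · exact absurd ⟨b, c, d, a, u, w, y, z,
        by rw [eP, insert_comm a b, insert_comm a c, pair_comm a d], eO, h5⟩ hcon
    · exact h5
  have s1 := fun o o' (ho : o ∈ O) (ho' : o' ∈ O) =>
    rd_same h ha hb hc hd ab ac bc cd hu ho ho'
  have s2 := fun o o' (ho : o ∈ O) (ho' : o' ∈ O) =>
    rd_same h ha hc hb hd ac ab bc.symm bd hu ho ho'
  have s3 := fun o o' (ho : o ∈ O) (ho' : o' ∈ O) =>
    rd_same h ha hd hb hc ad ab bd.symm bc hu ho ho'
  have fin := fun o o' o'' (ho : o ∈ O) (ho' : o' ∈ O) (ho'' : o'' ∈ O) =>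
    rd_fin hT hr hP hO h ha hb hc hd ac ad bc bd cd hu ho ho' ho''
  rcases hM w y z eO uw with m1 | m1 | m1 <;>
    rcases hM y w z (by rw [eO, insert_comm w y]) uy with m2 | m2 | m2 <;>
    rcases hM z w y (by rw [eO, pair_comm y z, insert_comm w z]) uz with m3 | m3 | m3 <;>
    first
      | exact s1 w y hw hy uw uy wy m1 m2
      | exact s1 w z hw hz uw uz wz m1 m3
      | exact s1 y z hy hz uy uz yz m2 m3
      | exact s2 w y hw hy uw uy wy m1 m2
      | exact s2 w z hw hz uw uz wz m1 m3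
      | exact s2 y z hy hz uy uz yz m2 m3
      | exact s3 w y hw hy uw uy wy m1 m2
      | exact s3 w z hw hz uw uz wz m1 m3
      | exact s3 y z hy hz uy uz yz m2 m3
      | exact fin w y z hw hy hz uw uy uz m1 m2 m3
      | exact fin w z y hw hz hy uw uz uy m1 m3 m2
      | exact fin y w z hy hw hz uy uw uz m2 m1 m3
      | exact fin y z w hy hz hw uy uz uw m2 m3 m1
      | exact fin z w y hz hw hy uz uw uy m3 m1 m2
      | exact fin z y w hz hy hw uz uy uw m3 m2 m1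

theorem G4.indep (hg : G4 M) (hn : 3 ≤ M.E.ncard) {X : Set E} (hX : X ⊆ M.E) (h3 : X.ncard ≤ 3) :
    M.Indep X := by
  obtain ⟨Y, h1, h2, h4⟩ := exists_subsuperset_card_eq hX h3 hn
  refine Matroid.Indep.subset (indep_iff_rk.2 ?_) h1
  obtain ⟨p, q, r, e1, e2, e3, rfl⟩ := ncard_eq_three.1 h4
  rw [h4]
  exact hg p (h2 (by simp)) q (h2 (by simp)) r (h2 (by simp)) e1 e2 e3

theorem rd_three (hg : G4 M) {X : Set E} (hX : X ⊆ M.E) (h3 : 3 ≤ X.ncard) : 3 ≤ rk M X := by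
  obtain ⟨Y, h1, h2⟩ := exists_subset_card_eq h3
  have h4 := rk_indep (hg.indep (h3.trans (ncard_le_ncard hX)) (h1.trans hX) h2.le)
  have h5 := rk_mono M h1
  omega

theorem r4_exists_plane (hT : U2 M T) (hr : rk M M.E = 4) (hg : G4 M) (hn : 7 ≤ M.E.ncard) :
    ∃ P ⊆ M.E, P.ncard = 4 ∧ rk M P = 3 := by
  by_contra hcon
  obtain ⟨p, hi, hp⟩ := un_pts hn
  have h1 : rk M {p 6} = 1 := by
    simpa using rk_indep (hg.indep (by omega) (singleton_subset_iff.2 (hp 6)) (by simp))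
  have h3 : ∀ i j l : Fin 6, i < j → j < l →
      rk M ({p 6} ∪ {p i.castSucc, p j.castSucc, p l.castSucc}) = 4 := by
    intro i j l ij jl
    have hs : ({p 6} ∪ {p i.castSucc, p j.castSucc, p l.castSucc} : Set E) ⊆ M.E := by
      simp [insert_subset_iff, hp]
    have n1 : ∀ i : Fin 6, p 6 ≠ p i.castSucc := fun i => hi.ne (Fin.castSucc_lt_last i).ne'
    have n2 : ∀ {i j : Fin 6}, i < j → p i.castSucc ≠ p j.castSucc := fun h =>
      hi.ne (Fin.castSucc_lt_castSucc_iff.2 h).ne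
    have hc : ({p 6} ∪ {p i.castSucc, p j.castSucc, p l.castSucc} : Set E).ncard = 4 :=
      ncard_eq_four.2 ⟨_, _, _, _, n1 i, n1 j, n1 l, n2 ij, n2 (ij.trans jl), n2 jl, rfl⟩
    have e1 := rd_three hg hs (by omega)
    have e2 := rk_le_rank M ({p 6} ∪ {p i.castSucc, p j.castSucc, p l.castSucc})
    have e3 : rk M ({p 6} ∪ {p i.castSucc, p j.castSucc, p l.castSucc}) ≠ 3 := fun h =>
      hcon ⟨_, hs, hc, h⟩
    omega
  refine no_P6 hT (X := {p 6}) (fun i => p i.castSucc) (fun i => hp _) ?_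
    fun i j l ij jl _ => by rw [h1, h3 i j l ij jl]
  have e1 := h3 0 1 2 (by decide) (by decide)
  have e2 := rd_mono M ({p 6} ∪ {p (0 : Fin 6).castSucc, p (1 : Fin 6).castSucc,
    p (2 : Fin 6).castSucc}) ({p 6} ∪ range fun i : Fin 6 => p i.castSucc)
    (union_subset_union_right _ (insert_subset ⟨0, rfl⟩ (insert_subset ⟨1, rfl⟩
      (singleton_subset_iff.2 ⟨2, rfl⟩))))
  have e3 := rk_le_rank M ({p 6} ∪ range fun i : Fin 6 => p i.castSucc)
  omega

theorem rd_inj {n : ℕ} (p : Fin n → E) {S : Set E} (hS : S ⊆ range p) (hn : S.ncard = n) :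
    Function.Injective p := by
  refine injOn_univ.1 (injOn_of_ncard_image_eq (le_antisymm ncard_image_le ?_))
  rw [image_univ, ncard_univ, Nat.card_fin]
  exact hn.ge.trans (ncard_le_ncard hS)

theorem rd_eight (hT : U2 M T) (hr : rk M M.E = 4) (hg : G4 M)
    (hc : ∀ X ⊆ M.E, X.ncard ≤ 3 → rk M (M.E \ X) = 4) {P : Set E} (hP : P ⊆ M.E)
    (h1 : P.ncard = 4) (h3 : rk M P = 3) : ∃ a b c x u w y z, P = {a, b, c, x} ∧
      (P ∪ {u, w, y, z}).ncard = 8 ∧ P ∪ {u, w, y, z} ⊆ M.E ∧ rk M {a, b, c} = 3 ∧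
      (∀ o ∈ ({u, w, y, z} : Set E), rk M {a, b, c, o} = 4) ∧ rk M {a, b, u, w} = 4 ∧
      rk M {a, c, u, w} = 4 ∧ rk M {b, c, u, w} = 4 := by
  have h4 : 4 ≤ (M.E \ M.closure P).ncard := by
    by_contra h
    have e1 := hc _ sdiff_subset (show (M.E \ M.closure P).ncard ≤ 3 by omega)
    rw [sdiff_sdiff_cancel_left (M.closure_subset_ground P), rk_closure] at e1
    omega
  obtain ⟨O, hO, h2⟩ := exists_subset_card_eq h4
  have h5 : ∀ o ∈ O, rk M (insert o P) = 4 := fun o ho => by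
    rw [rk_insert_of_notMem (hO ho).1 (hO ho).2, h3]
  have h6 : (P ∪ O).ncard = 8 := by
    rw [ncard_union_eq (disjoint_left.2 fun p hp ho =>
      (hO ho).2 (M.mem_closure_of_mem' hp (hP hp))), h1, h2]
  obtain ⟨a, b, c, x, u, w, y, z, rfl, rfl, e1, e2, e3⟩ :=
    r4_arc hT hr hg hP (hO.trans sdiff_subset) h1 h2 h3 h5
  have hi := rd_inj ![a, b, c, x] (S := {a, b, c, x}) (insert_subset ⟨0, rfl⟩ (insert_subset ⟨1, rfl⟩
    (insert_subset ⟨2, rfl⟩ (singleton_subset_iff.2 ⟨3, rfl⟩)))) h1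
  have h7 : rk M {a, b, c} = 3 := hg a (hP (by simp)) b (hP (by simp)) c (hP (by simp))
    (hi.ne (show (0 : Fin 4) ≠ 1 by decide)) (hi.ne (show (0 : Fin 4) ≠ 2 by decide))
    (hi.ne (show (1 : Fin 4) ≠ 2 by decide))
  exact ⟨a, b, c, x, u, w, y, z, rfl, h6, union_subset hP (hO.trans sdiff_subset), h7,
    fun o ho => rd_t4 hr (by simp) (by simp) (by simp) h7 h3 (h5 o ho), e1, e2, e3⟩

theorem rank_four_false (hT : U2 M T) (hr : rk M M.E = 4) (hg : G4 M)
    (hc : ∀ X ⊆ M.E, X.ncard ≤ 3 → rk M (M.E \ X) = 4) : False := by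
  have hn : 7 ≤ M.E.ncard := by
    have e1 := rk_le_ncard M M.E
    obtain ⟨X, h1, h2⟩ := exists_subset_card_eq (show 3 ≤ M.E.ncard by omega)
    have e2 := hc X h1 h2.le
    have e3 := rk_le_ncard M (M.E \ X)
    have e4 := ncard_sdiff_add_ncard_of_subset h1
    omega
  by_cases h5 : ∀ X ⊆ M.E, X.ncard = 5 → rk M X = 4
  · obtain ⟨P, hP, h1, h3⟩ := r4_exists_plane hT hr hg hn
    obtain ⟨a, b, c, x, u, w, y, z, rfl, e1, e2, -, e4, e5, e6, e7⟩ := rd_eight hT hr hg hc hP h1 h3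
    refine r4_one hT hr hg ![a, b, c, u, w, x, y, z] (rd_inj _ ?_ e1) (fun i => e2 ?_)
      (e4 u (by simp)) (e4 w (by simp)) e5 e6 e7 h3 (e4 y (by simp)) (e4 z (by simp)) h5
    · simp [insert_subset_iff]
    · fin_cases i <;> simp
  · push Not at h5
    obtain ⟨X, hX, h1, h2⟩ := h5
    obtain ⟨x', hx'⟩ := nonempty_of_ncard_ne_zero (show X.ncard ≠ 0 by omega)
    have c1 : (X \ {x'}).ncard = 4 := by
      have := ncard_sdiff_singleton_add_one hx'
      omega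
    have c2 := rk_le_rank M X
    have c3 := rd_three hg (X := X \ {x'}) (sdiff_subset.trans hX) (by omega)
    have c4 := rd_mono M (X \ {x'}) X sdiff_subset
    have h3 : rk M (X \ {x'}) = 3 := by omega
    obtain ⟨a, b, c, x, u, w, y, z, e0, e1, e2, e3, e4, e5, e6, e7⟩ :=
      rd_eight hT hr hg hc (sdiff_subset.trans hX) c1 h3
    have hs : ({a, b, c, x} : Set E) ⊆ X := e0 ▸ sdiff_subset
    have c5 := rd_mono M {a, b, c, x'} X (insert_subset (hs (by simp)) (insert_subset (hs (by simp))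
      (insert_subset (hs (by simp)) (singleton_subset_iff.2 hx'))))
    have c6 := rd_mono M {a, b, c} {a, b, c, x'} (by simp [insert_subset_iff])
    have c7 : (insert x' (X \ {x'} ∪ {u, w, y, z})).ncard = 9 := by
      rw [ncard_insert_of_notMem, e1]
      rintro (h | h)
      · exact h.2 rfl
      · have := e4 x' h
        omega
    have c8 := insert_subset (hX hx') e2
    rw [e0] at c7 c8 h3
    refine r4_two hT hr hg ![a, b, c, u, w, x, y, z, x'] (rd_inj _ ?_ c7) (fun i => c8 ?_)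
      (e4 u (by simp)) (e4 w (by simp)) e5 e6 e7 h3 (e4 y (by simp)) (e4 z (by simp))
      (show rk M {a, b, c, x'} = 3 by omega)
    · simp [insert_subset_iff]
    · fin_cases i <;> simp

theorem rank_three_false (hT : U2 M T) (hr : rk M M.E = 3) (hg : G4 M) (hn : 6 ≤ M.E.ncard) :
    False := by
  obtain ⟨p, hi, hp⟩ := un_pts hn
  have h3 : ∀ i j l : Fin 6, i < j → j < l → rk M {p i, p j, p l} = 3 := fun i j l ij jl =>
    hg _ (hp i) _ (hp j) _ (hp l) (hi.ne ij.ne) (hi.ne (ij.trans jl).ne) (hi.ne jl.ne)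
  refine no_P6 hT (X := ∅) p hp ?_ fun i j l ij jl _ => by
    rw [empty_union, rk_empty, h3 i j l ij jl]
  have e1 := h3 0 1 2 (by decide) (by decide)
  have e2 := rd_mono M {p 0, p 1, p 2} (range p) (by simp [insert_subset_iff])
  have e3 := rk_le_rank M (range p)
  rw [empty_union, rk_empty]
  omega

theorem Con3.g4 (hc : Con3 M) (hn : 4 ≤ M.E.ncard) (ht : NoTri M) : G4 M := by
  intro p hp q hq r hr e1 e2 e3
  have h1 := rk_indep (hc.indep hn (X := {p, q}) (by simp [insert_subset_iff, hp, hq])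
    (ncard_pair e1).le)
  have h2 := rd_mono M {p, q} {p, q, r} (by simp [insert_subset_iff])
  have h3 := rk_le_ncard M {p, q, r}
  have h4 : rk M {p, q, r} ≠ 2 := fun h =>
    noTri_iff.1 ht p q r ((hc.tri_iff hn).2 ⟨e1, e2, e3, hp, hq, hr, h⟩)
  rw [ncard_pair e1] at h1
  rw [cb_three e1 e2 e3] at h3
  omega

theorem rank_five (hT : U2 M T) (hc : Con3 M) (hn : 5 ≤ M.E.ncard) (h1 : NoTri M)
    (h2 : NoTri M✶) : 5 ≤ rk M M.E := by
  have g1 := hc.g4 (by omega) h1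
  have g2 := Con3.g4 (M := M✶) hc.dual (show 4 ≤ M.E.ncard by omega) h2
  have e1 := rd_three g1 Subset.rfl (by omega)
  have e2 : 3 ≤ rk M✶ M.E := rd_three g2 Subset.rfl (by omega)
  have e3 := rk_dual_ground M
  by_contra h
  rcases (show rk M M.E = 3 ∨ rk M M.E = 4 by omega) with h3 | h4
  · exact rank_three_false hT h3 g1 (by omega)
  · exact rank_four_false hT h4 g1 fun X hX h5 => by
      rw [rk_coindep (g2.indep (show 3 ≤ M.E.ncard by omega) hX h5), h4]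

theorem corank_five (hT : U2 M T) (hc : Con3 M) (hn : 5 ≤ M.E.ncard) (h1 : NoTri M)
    (h2 : NoTri M✶) : 5 ≤ rk M✶ M.E :=
  rank_five (M := M✶) hT.dual hc.dual hn h2 (by rwa [Matroid.dual_dual])

end Pool.Agent.Lib.MP_10bdcf_co.G
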