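import Pool.Agent.Lib.MP_10bdcf_co.Quat

/-!
Specialisation of rational functions at alpha_1 = zeta (a primitive sixth root of unity).
-/

namespace Pool.Agent.Lib.MP_10bdcf_co

open scoped Quaternion
open Matrix

/-- A primitive sixth root of unity. -/
noncomputable def zeta : ℂ := ⟨1 / 2, Real.sqrt 3 / 2⟩

/-- Evaluation of polynomials at `(zeta, b)`. -/
noncomputable def ev (b : ℂ) : MvPolynomial (Fin 2) ℚ →+* ℂ :=
  MvPolynomial.eval₂Hom (algebraMap ℚ ℂ) ![zeta, b]

/-- The rational function `x` is defined at `(zeta, b)` and has the value `z` there. -/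
def Val (b : ℂ) (x : K2) (z : ℂ) : Prop :=
  ∃ P Q : MvPolynomial (Fin 2) ℚ, ev b Q ≠ 0 ∧
    x * algebraMap _ K2 Q = algebraMap _ K2 P ∧ z * ev b Q = ev b P

theorem Val.poly (b : ℂ) (P : MvPolynomial (Fin 2) ℚ) : Val b (algebraMap _ K2 P) (ev b P) :=
  ⟨P, 1, by simp, by simp, by simp⟩

theorem Val.zero (b : ℂ) : Val b 0 0 := by simpa using Val.poly b 0

theorem Val.one (b : ℂ) : Val b 1 1 := by simpa using Val.poly b 1

theorem Val.al (b : ℂ) : Val b al zeta := by
  simpa [ev, MP_10bdcf_co.al] using Val.poly b (MvPolynomial.X 0)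

theorem Val.be (b : ℂ) : Val b be b := by
  simpa [ev, MP_10bdcf_co.be] using Val.poly b (MvPolynomial.X 1)

theorem Val.add {b : ℂ} {x y : K2} {z w : ℂ} (h : Val b x z) (h' : Val b y w) :
    Val b (x + y) (z + w) := by
  obtain ⟨P, Q, h1, h2, h3⟩ := h
  obtain ⟨P', Q', h1', h2', h3'⟩ := h'
  refine ⟨P * Q' + P' * Q, Q * Q', by simp [h1, h1'], ?_, ?_⟩
  · simp only [map_mul, map_add, ← h2, ← h2']; ring
  · simp only [map_mul, map_add, ← h3, ← h3']; ring

theorem Val.mul {b : ℂ} {x y : K2} {z w : ℂ} (h : Val b x z) (h' : Val b y w) :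
    Val b (x * y) (z * w) := by
  obtain ⟨P, Q, h1, h2, h3⟩ := h
  obtain ⟨P', Q', h1', h2', h3'⟩ := h'
  refine ⟨P * P', Q * Q', by simp [h1, h1'], ?_, ?_⟩
  · simp only [map_mul, ← h2, ← h2']; ring
  · simp only [map_mul, ← h3, ← h3']; ring

theorem Val.neg {b : ℂ} {x : K2} {z : ℂ} (h : Val b x z) : Val b (-x) (-z) := by
  obtain ⟨P, Q, h1, h2, h3⟩ := h
  refine ⟨-P, Q, h1, ?_, ?_⟩
  · simp only [map_neg, ← h2]; ring
  · simp only [map_neg, ← h3]; ring

theorem Val.sub {b : ℂ} {x y : K2} {z w : ℂ} (h : Val b x z) (h' : Val b y w) :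
    Val b (x - y) (z - w) := by
  simpa [sub_eq_add_neg] using h.add h'.neg

theorem Val.inv {b : ℂ} {x : K2} {z : ℂ} (h : Val b x z) (hz : z ≠ 0) : Val b x⁻¹ z⁻¹ := by
  obtain ⟨P, Q, h1, h2, h3⟩ := h
  have hP : ev b P ≠ 0 := by rw [← h3]; exact mul_ne_zero hz h1
  have hx : x ≠ 0 := by
    rintro rfl
    rw [zero_mul, eq_comm, FaithfulSMul.algebraMap_eq_zero_iff] at h2
    simp [h2] at hP
  refine ⟨Q, P, hP, ?_, ?_⟩
  · rw [← h2]; field_simp
  · rw [← h3]; field_simp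

theorem Val.unique {b : ℂ} {x : K2} {z w : ℂ} (h : Val b x z) (h' : Val b x w) : z = w := by
  obtain ⟨P, Q, h1, h2, h3⟩ := h
  obtain ⟨P', Q', h1', h2', h3'⟩ := h'
  have e : P * Q' = P' * Q := by
    apply FaithfulSMul.algebraMap_injective (MvPolynomial (Fin 2) ℚ) K2
    simp only [map_mul, ← h2, ← h2']; ring
  have e' := congrArg (ev b) e
  simp only [map_mul, ← h3, ← h3'] at e'
  have : (z - w) * (ev b Q * ev b Q') = 0 := by linear_combination e'
  rcases mul_eq_zero.mp this with h | h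
  · exact sub_eq_zero.mp h
  · exact absurd h (mul_ne_zero h1 h1')

theorem Val.sum {b : ℂ} {ι : Type} (s : Finset ι) {x : ι → K2} {z : ι → ℂ}
    (h : ∀ i ∈ s, Val b (x i) (z i)) : Val b (∑ i ∈ s, x i) (∑ i ∈ s, z i) := by
  classical
  induction s using Finset.induction_on with
  | empty => simpa using Val.zero b
  | insert a s ha ih =>
    rw [Finset.sum_insert ha, Finset.sum_insert ha]
    exact (h a (by simp)).add (ih fun i hi => h i (by simp [hi]))

theorem Val.prod {b : ℂ} {ι : Type} (s : Finset ι) {x : ι → K2} {z : ι → ℂ}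
    (h : ∀ i ∈ s, Val b (x i) (z i)) : Val b (∏ i ∈ s, x i) (∏ i ∈ s, z i) := by
  classical
  induction s using Finset.induction_on with
  | empty => simpa using Val.one b
  | insert a s ha ih =>
    rw [Finset.prod_insert ha, Finset.prod_insert ha]
    exact (h a (by simp)).mul (ih fun i hi => h i (by simp [hi]))

theorem Val.det {b : ℂ} {r : ℕ} {X : Matrix (Fin r) (Fin r) K2} {Z : Matrix (Fin r) (Fin r) ℂ}
    (h : ∀ i j, Val b (X i j) (Z i j)) : Val b X.det Z.det := by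
  rw [Matrix.det_apply, Matrix.det_apply]
  refine Val.sum _ fun σ _ => ?_
  have hp := Val.prod (b := b) Finset.univ (x := fun i => X (σ i) i) (z := fun i => Z (σ i) i)
    fun i _ => h _ _
  rcases Int.units_eq_one_or (Equiv.Perm.sign σ) with hs | hs
  · simpa [hs] using hp
  · simpa [hs] using hp.neg

theorem sq3 : Real.sqrt 3 * Real.sqrt 3 = 3 := Real.mul_self_sqrt (by norm_num)

theorem norm_zeta : ‖zeta‖ = 1 := by
  rw [← sq_eq_sq₀ (norm_nonneg _) zero_le_one, Complex.sq_norm, Complex.normSq_apply]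
  simp only [zeta]
  linear_combination sq3 / 4

theorem norm_zeta_sub : ‖zeta - 1‖ = 1 := by
  rw [← sq_eq_sq₀ (norm_nonneg _) zero_le_one, Complex.sq_norm, Complex.normSq_apply]
  simp only [zeta, Complex.sub_re, Complex.sub_im, Complex.one_re, Complex.one_im]
  linear_combination sq3 / 4

theorem val_G1 {g : K2ˣ} (hg : g ∈ G1) : ∃ z : ℂ, ‖z‖ = 1 ∧ ∀ b, Val b (g : K2) z := by
  induction hg using Subgroup.closure_induction with
  | mem u hu =>
    rcases hu with h | ⟨x, hx, y, hy, hxy, h⟩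
    · exact ⟨-1, by simp, fun b => h ▸ (Val.one b).neg⟩
    · simp only [Set.mem_insert_iff, Set.mem_singleton_iff] at hx hy
      rw [h]
      rcases hx with rfl | rfl | rfl <;> rcases hy with rfl | rfl | rfl
      · exact absurd rfl hxy
      · exact ⟨0 - 1, by simp, fun b => (Val.zero b).sub (Val.one b)⟩
      · exact ⟨0 - zeta, by simp [norm_zeta], fun b => (Val.zero b).sub (Val.al b)⟩
      · exact ⟨1 - 0, by simp, fun b => (Val.one b).sub (Val.zero b)⟩
      · exact absurd rfl hxy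
      · exact ⟨1 - zeta, by rw [norm_sub_rev, norm_zeta_sub],
          fun b => (Val.one b).sub (Val.al b)⟩
      · exact ⟨zeta - 0, by simp [norm_zeta], fun b => (Val.al b).sub (Val.zero b)⟩
      · exact ⟨zeta - 1, norm_zeta_sub, fun b => (Val.al b).sub (Val.one b)⟩
      · exact absurd rfl hxy
  | one => exact ⟨1, by simp, fun b => by simpa using Val.one b⟩
  | mul u w _ _ hu hw =>
    obtain ⟨z, hz, hu⟩ := hu
    obtain ⟨z', hz', hw⟩ := hw
    exact ⟨z * z', by simp [hz, hz'], fun b => by simpa using (hu b).mul (hw b)⟩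
  | inv u _ hu =>
    obtain ⟨z, hz, hu⟩ := hu
    refine ⟨z⁻¹, by simp [hz], fun b => ?_⟩
    have := (hu b).inv (by rintro rfl; simp at hz)
    simpa using this

/-- The fourth vertex of a regular tetrahedron on `0, 1, zeta`. -/
noncomputable def qq : ℍ[ℝ] := ⟨1 / 2, Real.sqrt 3 / 6, Real.sqrt 6 / 3, 0⟩

theorem sq6 : Real.sqrt 6 * Real.sqrt 6 = 6 := Real.mul_self_sqrt (by norm_num)

theorem norm_eq_one_of {x : ℍ[ℝ]} (h : x.re ^ 2 + x.imI ^ 2 + x.imJ ^ 2 + x.imK ^ 2 = 1) :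
    ‖x‖ = 1 := by
  rw [← sq_eq_sq₀ (norm_nonneg _) zero_le_one, sq, ← Quaternion.normSq_eq_norm_mul_self,
    Quaternion.normSq_def', h, one_pow]

theorem norm_qq_sub {x : ℂ} (hx : x = 0 ∨ x = 1 ∨ x = zeta) : ‖qq - (x : ℍ[ℝ])‖ = 1 := by
  apply norm_eq_one_of
  have h1 : (qq - (x : ℍ[ℝ])).re = 1 / 2 - x.re := rfl
  have h2 : (qq - (x : ℍ[ℝ])).imI = Real.sqrt 3 / 6 - x.im := rfl
  have h3 : (qq - (x : ℍ[ℝ])).imJ = Real.sqrt 6 / 3 - 0 := rfl
  have h4 : (qq - (x : ℍ[ℝ])).imK = 0 - 0 := rfl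
  rw [h1, h2, h3, h4]
  rcases hx with rfl | rfl | rfl
  · simp only [Complex.zero_re, Complex.zero_im]
    linear_combination sq3 / 36 + sq6 / 9
  · simp only [Complex.one_re, Complex.one_im]
    linear_combination sq3 / 36 + sq6 / 9
  · simp only [zeta]
    linear_combination sq3 / 9 + sq6 / 9

theorem lin_cases {l : K2} (hl : l ∈ ({1, be, be - 1, be - al} : Set K2)) :
    l = 1 ∨ ∃ x : ℂ, (x = 0 ∨ x = 1 ∨ x = zeta) ∧ ∀ b, Val b l (b - x) := by
  simp only [Set.mem_insert_iff, Set.mem_singleton_iff] at hl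
  rcases hl with rfl | rfl | rfl | rfl
  · exact Or.inl rfl
  · exact Or.inr ⟨0, by simp, fun b => by simpa using Val.be b⟩
  · exact Or.inr ⟨1, by simp, fun b => (Val.be b).sub (Val.one b)⟩
  · exact Or.inr ⟨zeta, by simp, fun b => (Val.be b).sub (Val.al b)⟩

/-- The quotients of the four linear forms, in a coordinate with its pole at the zero of `l0`. -/
theorem ratio {l0 : K2} (hl0 : l0 ∈ ({1, be, be - 1, be - al} : Set K2)) :
    ∃ (q : ℍ[ℝ]) (bet : ℂ → ℂ), ∀ l ∈ ({1, be, be - 1, be - al} : Set K2), ∃ s t : ℂ,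
      (∀ T, T ≠ 0 → Val (bet T) (l * l0⁻¹) (s + T * t)) ∧ ‖(s : ℍ[ℝ]) + q * t‖ = 1 := by
  rcases lin_cases hl0 with rfl | ⟨x0, hx0, h0⟩
  · refine ⟨qq, id, fun l hl => ?_⟩
    rcases lin_cases hl with rfl | ⟨x, hx, h⟩
    · exact ⟨1, 0, fun T _ => by simpa using Val.one T, by simp⟩
    · refine ⟨-x, 1, fun T _ => ?_, ?_⟩
      · have := h T
        rw [show T - x = -x + T * 1 by ring] at this
        simpa using this
      · have e : ((-x : ℂ) : ℍ[ℝ]) = -(x : ℍ[ℝ]) := map_neg Quaternion.ofComplex x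
        rw [e, Quaternion.coeComplex_one, mul_one, neg_add_eq_sub]
        exact norm_qq_sub hx
  · have hn := norm_qq_sub hx0
    have hne : qq - (x0 : ℍ[ℝ]) ≠ 0 := by intro h; rw [h] at hn; simp at hn
    refine ⟨(qq - x0)⁻¹, fun T => x0 + T⁻¹, fun l hl => ?_⟩
    have hinv : ∀ T : ℂ, T ≠ 0 → Val (x0 + T⁻¹) l0⁻¹ T := by
      intro T hT
      have := (h0 (x0 + T⁻¹)).inv (by simpa using hT)
      simpa using this
    rcases lin_cases hl with rfl | ⟨x, hx, h⟩
    · refine ⟨0, 1, fun T hT => by simpa using hinv T hT, ?_⟩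
      simp [hn]
    · refine ⟨1, x0 - x, fun T hT => ?_, ?_⟩
      · have := (h (x0 + T⁻¹)).mul (hinv T hT)
        rw [show (x0 + T⁻¹ - x) * T = 1 + T * (x0 - x) by field_simp; ring] at this
        exact this
      · have e : ((x0 - x : ℂ) : ℍ[ℝ]) = (x0 : ℍ[ℝ]) - x := map_sub Quaternion.ofComplex x0 x
        have e2 : ((1 : ℂ) : ℍ[ℝ]) + (qq - x0)⁻¹ * ((x0 : ℍ[ℝ]) - x) =
            (qq - x0)⁻¹ * (qq - x) := by
          rw [Quaternion.coeComplex_one, ← inv_mul_cancel₀ hne, ← mul_add]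
          congr 1
          abel
        rw [e, e2, norm_mul, norm_inv, hn, norm_qq_sub hx]
        simp

end Pool.Agent.Lib.MP_10bdcf_co
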