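import Pool.Agent.Lib.MP_10bdcf_co.XC2

/-!
Reduction of the linking statement to pairs of hyperplane bases.
-/

namespace Pool.Agent.Lib.MP_10bdcf_co.G

open scoped Matroid
open Set

set_option linter.unusedSectionVars false

variable {E : Type} [Fintype E] {M : Matroid E} {T : Set E → Matrix E E R0}
  {X Z Z' Z1 Z2 I J : Set E} {e f g x y : E}

/-- A basis, outside the triangle, of a hyperplane that contains `e` and not `f`. -/
structure Zb (M : Matroid E) (e f g : E) (Z : Set E) : Prop where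
  sub : Z ⊆ M.E \ {e, f, g}
  base : M.IsBase (insert f Z)
  mem : e ∈ M.closure Z

/-- A step of length less than `d`. -/
def ZStep (M : Matroid E) (e f g : E) (d : ℕ) (Z Z' : Set E) : Prop :=
  Zb M e f g Z ∧ Zb M e f g Z' ∧ (Z \ Z').ncard < d

/-- Two hyperplane bases that are not joined by shorter steps. -/
structure Core (M : Matroid E) (e f g : E) (Z1 Z2 : Set E) : Prop where
  tri : Tri M e f g
  left : Zb M e f g Z1
  right : Zb M e f g Z2
  two : 2 ≤ (Z1 \ Z2).ncard
  far : ¬ Relation.ReflTransGen (ZStep M e f g (Z1 \ Z2).ncard) Z1 Z2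

theorem ta1_f (h : Zb M e f g Z) : f ∉ Z := fun h' => (h.sub h').2 (by simp)

theorem ta1_fE (h : Zb M e f g Z) : f ∈ M.E := h.base.subset_ground (mem_insert _ _)

theorem ta1_ind (h : Zb M e f g Z) : M.Indep Z := h.base.indep.subset (subset_insert _ _)

theorem ta1_rk (h : Zb M e f g Z) : rk M Z = Z.ncard := rk_indep (ta1_ind h)

theorem ta1_base (hZ : M.Indep Z) (hf : f ∈ M.E) (h : f ∉ M.closure Z)
    (hc : Z.ncard + 1 = rk M M.E) : M.IsBase (insert f Z) := by
  have h1 := ncard_insert_of_notMem (fun h' => h (M.subset_closure Z hZ.subset_ground h'))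
  have h2 := rk_insert_of_notMem hf h
  have h3 := rk_indep hZ
  exact isBase_iff_rk.2 ⟨by omega, by omega⟩

theorem Zb.notMem (h : Zb M e f g Z) : f ∉ M.closure Z := by
  intro hf
  have h1 := rk_insert_of_mem hf
  have h2 := rk_indep h.base.indep
  have h3 := ta1_rk h
  rw [ncard_insert_of_notMem (ta1_f h)] at h2
  omega

theorem Zb.fam (h : Zb M e f g Z) : XFam M e f g Z := by
  exact ⟨h.sub, h.mem, h.notMem⟩

theorem Zb.card (h : Zb M e f g Z) : Z.ncard + 1 = rk M M.E := by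
  rw [rk_base h.base, ncard_insert_of_notMem (ta1_f h)]

theorem Zb.dist (h : Zb M e f g Z) (h' : Zb M e f g Z') : (Z \ Z').ncard = (Z' \ Z).ncard := by
  have h1 := h.card
  have h2 := h'.card
  have h3 := ncard_inter_add_ncard_sdiff_eq_ncard Z Z'
  have h4 := ncard_inter_add_ncard_sdiff_eq_ncard Z' Z
  rw [inter_comm] at h4
  omega

/-- The roles of `f` and `g` can be exchanged. -/
theorem Zb.swap (ht : Tri M e f g) (h : Zb M e f g Z) : Zb M e g f Z := by
  refine ⟨pair_comm f g ▸ h.sub, ta1_base (ta1_ind h) (xc2_E ht).2.2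
    (fun hg => h.notMem (xc1_tri ht.swap12 h.mem hg)) h.card, h.mem⟩

theorem exists_zb (hr : rk M (M.E \ {e, f, g}) = rk M M.E) (ht : Tri M e f g)
    (hX : XFam M e f g X) : ∃ X' Z, XFam M e f g X' ∧ Zb M e f g Z ∧ X ⊆ X' ∧ Z ⊆ X' := by
  obtain ⟨X', h1, h2⟩ := Finite.exists_le_maximal hX
  obtain ⟨a1, a2, a3⟩ := h2.1
  have hE : X' ⊆ M.E := a1.trans sdiff_subset
  have hf := (xc2_E ht).2.1
  have h3 : M.E \ {e, f, g} ⊆ M.closure (insert f X') := fun z hz => by
    by_cases h4 : z ∈ M.closure X'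
    · exact M.closure_subset_closure (subset_insert _ _) h4
    refine Matroid.mem_closure_insert a3 (by_contra fun h5 => h4 ?_)
    exact M.subset_closure X' hE (h2.2 ⟨insert_subset hz a1,
      M.closure_subset_closure (subset_insert _ _) a2, h5⟩ (subset_insert _ _) (mem_insert _ _))
  have h4 := rk_mono M h3
  have h5 := rk_le_rank M (insert f X')
  rw [rk_closure, rk_insert_of_notMem hf a3] at h4
  rw [rk_insert_of_notMem hf a3] at h5
  obtain ⟨Z, hZ⟩ := M.exists_isBasis X' hE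
  have h6 := rk_basis hZ
  refine ⟨X', Z, h2.1, ⟨hZ.subset.trans a1, ta1_base hZ.indep hf ?_ (by omega), ?_⟩, h1, hZ.subset⟩
  · rwa [hZ.closure_eq_closure]
  · rwa [hZ.closure_eq_closure]

theorem zb_near (h : Zb M e f g Z) (h' : Zb M e f g Z') (hd : (Z \ Z').ncard ≤ 1) :
    XFam M e f g (Z ∪ Z') ∨ XFam M e f g (Z ∩ Z') := by
  by_cases hf : f ∈ M.closure (Z ∪ Z')
  swap
  · exact Or.inl ⟨union_subset h.sub h'.sub, M.closure_subset_closure subset_union_left h.mem, hf⟩
  refine Or.inr ⟨inter_subset_left.trans h.sub, ?_,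
    fun h1 => h.notMem (M.closure_subset_closure inter_subset_left h1)⟩
  have h1 := rk_submod' M (X := insert e Z) (Y := insert e Z') (P := insert e (Z ∩ Z'))
    (Q := Z ∪ Z') (insert_subset_insert inter_subset_left) (insert_subset_insert inter_subset_right)
    (union_subset_union (subset_insert _ _) (subset_insert _ _))
  have h2 := rk_mono M (insert_subset_insert (a := f) (subset_union_left (s := Z) (t := Z')))
  have h3 := rk_mono M (subset_insert e (Z ∩ Z'))
  have h4 := rk_indep ((ta1_ind h).subset (inter_subset_left (t := Z')))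
  have h5 := ncard_inter_add_ncard_sdiff_eq_ncard Z Z'
  have h6 := h.card
  have h7 := h'.card
  rw [rk_insert_of_mem h.mem, rk_insert_of_mem h'.mem, ta1_rk h, ta1_rk h'] at h1
  rw [rk_insert_of_mem hf, rk_insert_of_notMem (ta1_fE h) h.notMem, ta1_rk h] at h2
  rw [mem_closure_iff_rk (M.closure_subset_ground _ h.mem)]
  omega

theorem xLinked_of_noCore (hr : rk M (M.E \ {e, f, g}) = rk M M.E) (ht : Tri M e f g)
    (h : ∀ Z1 Z2, ¬ Core M e f g Z1 Z2) : XLinked M e f g := by
  intro α μ hμ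
  have key : ∀ d Z Z', Zb M e f g Z → Zb M e f g Z' → (Z \ Z').ncard = d → μ Z = μ Z' := by
    intro d
    induction d using Nat.strong_induction_on with
    | _ d ih =>
      intro Z Z' hZ hZ' hd
      by_cases h1 : (Z \ Z').ncard ≤ 1
      · rcases zb_near hZ hZ' h1 with h2 | h2
        · rw [hμ _ _ hZ.fam h2 subset_union_left, hμ _ _ hZ'.fam h2 subset_union_right]
        · rw [← hμ _ _ h2 hZ.fam inter_subset_left, hμ _ _ h2 hZ'.fam inter_subset_right]
      have h2 : Relation.ReflTransGen (ZStep M e f g d) Z Z' :=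
        by_contra fun h3 => h Z Z' ⟨ht, hZ, hZ', by omega, hd ▸ h3⟩
      clear hd h1 hZ'
      induction h2 with
      | refl => rfl
      | tail _ h3 h4 => exact h4.trans (ih _ h3.2.2 _ _ h3.1 h3.2.1 rfl)
  intro X X' hX hX'
  obtain ⟨Y, Z, a1, a2, a3, a4⟩ := exists_zb hr ht hX
  obtain ⟨Y', Z', b1, b2, b3, b4⟩ := exists_zb hr ht hX'
  rw [hμ _ _ hX a1 a3, hμ _ _ hX' b1 b3, ← hμ _ _ a2.fam a1 a4, ← hμ _ _ b2.fam b1 b4]
  exact key _ _ _ a2 b2 rfl

theorem Core.symm (h : Core M e f g Z1 Z2) : Core M e f g Z2 Z1 := by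
  have hd := h.left.dist h.right
  refine ⟨h.tri, h.right, h.left, hd ▸ h.two, fun h1 => h.far ?_⟩
  rw [hd]
  exact Relation.ReflTransGen.mono (fun a b c => ⟨c.2.1, c.1, c.1.dist c.2.1 ▸ c.2.2⟩) _ _
    (Relation.reflTransGen_swap.2 h1)

theorem Core.swap (h : Core M e f g Z1 Z2) : Core M e g f Z1 Z2 := by
  refine ⟨h.tri.swap23, h.left.swap h.tri, h.right.swap h.tri, h.two, fun h1 => h.far ?_⟩
  exact Relation.ReflTransGen.mono
    (fun a b c => ⟨c.1.swap h.tri.swap23, c.2.1.swap h.tri.swap23, c.2.2⟩) _ _ h1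

theorem Core.no_mid (h : Core M e f g Z1 Z2) (hZ : Zb M e f g Z)
    (h1 : (Z1 \ Z).ncard < (Z1 \ Z2).ncard) (h2 : (Z \ Z2).ncard < (Z1 \ Z2).ncard) : False := by
  exact h.far (Relation.ReflTransGen.head ⟨h.left, hZ, h1⟩
    (Relation.ReflTransGen.single ⟨hZ, h.right, h2⟩))

/-- A proper exchange between the two sets is not a hyperplane basis through `e`. -/
theorem Core.proper (h : Core M e f g Z1 Z2) (hI : I ⊆ Z1 \ Z2) (hJ : J ⊆ Z2 \ Z1)
    (h0 : I.Nonempty) (h1 : I.ncard < (Z1 \ Z2).ncard) (hb : M.IsBase (insert f (Z1 \ I ∪ J))) :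
    e ∉ M.closure (Z1 \ I ∪ J) := by
  intro he
  refine h.no_mid ⟨union_subset (sdiff_subset.trans h.left.sub)
    ((hJ.trans sdiff_subset).trans h.right.sub), hb, he⟩ ((ncard_le_ncard ?_).trans_lt h1)
    (ncard_lt_ncard ⟨?_, fun h2 => ?_⟩)
  · exact fun z hz => by_contra fun h2 => hz.2 (Or.inl ⟨hz.1, h2⟩)
  · rintro z ⟨h2 | h2, h3⟩
    · exact ⟨h2.1, h3⟩
    · exact absurd (hJ h2).1 h3
  · obtain ⟨z, hz⟩ := h0
    rcases (h2 (hI hz)).1 with h3 | h3
    · exact h3.2 hz
    · exact (hJ h3).2 (hI hz).1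

theorem Core.e_notMem (h : Core M e f g Z1 Z2) (hx : x ∈ Z1 \ Z2) :
    e ∉ M.closure (Z1 \ {x}) := by
  have hxf : x ≠ f := fun h1 => ta1_f h.left (h1 ▸ hx.1)
  obtain ⟨y, hy, hb⟩ := h.left.base.exchange h.right.base (e := x)
    ⟨mem_insert_of_mem _ hx.1, fun h1 => h1.elim hxf hx.2⟩
  have h1 : y ∈ Z2 \ Z1 := ⟨hy.1.resolve_left fun h1 => hy.2 (Or.inl h1),
    fun h1 => hy.2 (Or.inr h1)⟩
  have h2 : insert y (insert f Z1 \ {x}) = insert f (Z1 \ {x} ∪ {y}) := by
    rw [insert_sdiff_of_notMem _ (notMem_singleton_iff.2 hxf.symm), insert_comm, union_singleton]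
  exact fun he => h.proper (singleton_subset_iff.2 hx) (singleton_subset_iff.2 h1)
    (singleton_nonempty x) (by rw [ncard_singleton]; exact h.two) (h2 ▸ hb)
    (M.closure_subset_closure subset_union_left he)

theorem Core.y_notMem (h : Core M e f g Z1 Z2) (hy : y ∈ Z2 \ Z1) : y ∉ M.closure Z1 := by
  intro hc
  have i1 := ta1_ind h.left
  have hyE : y ∈ M.E := M.closure_subset_ground _ hc
  obtain ⟨x, hx, h1⟩ : ∃ x ∈ Z1 \ Z2, y ∉ M.closure (Z1 \ {x}) := by
    by_contra! h1
    have h2 := Matroid.closure_biInter_eq_biInter_closure_of_biUnion_indep (M := M) (A := Z1 \ Z2)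
      (nonempty_of_ncard_ne_zero (by have := h.two; omega)) (I := fun x => Z1 \ {x})
      (i1.subset (iUnion₂_subset fun _ _ => sdiff_subset))
    have h3 : (⋂ x ∈ Z1 \ Z2, Z1 \ {x}) ⊆ Z2 \ {y} := fun z hz => by
      obtain ⟨w, hw⟩ := nonempty_of_ncard_ne_zero (s := Z1 \ Z2) (by have := h.two; omega)
      have h4 := (mem_iInter₂.1 hz w hw).1
      exact ⟨by_contra fun h5 => (mem_iInter₂.1 hz z ⟨h4, h5⟩).2 rfl, fun h5 => hy.2 (h5 ▸ h4)⟩
    exact (ta1_ind h.right).notMem_closure_sdiff_of_mem hy.1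
      (M.closure_subset_closure h3 (h2 ▸ mem_iInter₂.2 h1))
  have e1 : insert x (Z1 \ {x}) = Z1 := insert_sdiff_self_of_mem hx.1
  have h2 : x ∈ M.closure (insert y (Z1 \ {x})) := Matroid.mem_closure_insert h1 (e1.symm ▸ hc)
  have h3 : M.Indep (insert y (Z1 \ {x})) :=
    ((i1.subset sdiff_subset).insert_indep_iff_of_notMem fun h3 => hy.2 h3.1).2 ⟨hyE, h1⟩
  have h4 : M.closure (insert y (Z1 \ {x})) ⊆ M.closure Z1 :=
    M.closure_subset_closure_of_subset_closure
      (insert_subset hc (sdiff_subset.trans (M.subset_closure _ i1.subset_ground)))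
  have h5 : M.closure Z1 ⊆ M.closure (insert y (Z1 \ {x})) :=
    M.closure_subset_closure_of_subset_closure (e1.superset.trans (insert_subset h2
      ((subset_insert _ _).trans (M.subset_closure _ h3.subset_ground))))
  have h6 := ncard_insert_of_notMem (a := y) (s := Z1 \ {x}) fun h3 => hy.2 h3.1
  have h7 := ncard_sdiff_singleton_add_one hx.1
  have h8 := h.left.card
  have h9 := ta1_base h3 (ta1_fE h.left) (fun h9 => h.left.notMem (h4 h9)) (by omega)
  refine h.proper (singleton_subset_iff.2 hx) (singleton_subset_iff.2 hy)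
    (singleton_nonempty x) (by rw [ncard_singleton]; exact h.two) ?_ ?_
  · rwa [union_singleton]
  · rw [union_singleton]
    exact h5 h.left.mem

end Pool.Agent.Lib.MP_10bdcf_co.G
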