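import Mathlib

/-!
Colourings of a rectangle without properly coloured short cycles.
-/

namespace Pool.Agent.Lib.MP_10bdcf_co.G

open Set

set_option linter.unusedSectionVars false

variable {E α β : Type}

/-- The transposed colouring. -/
def tp (Z : E → E → α) : E → E → α := fun y x => Z x y

@[simp] theorem tp_apply (Z : E → E → α) (y x : E) : tp Z y x = Z x y := rfl

/-- A properly coloured cycle of length four. -/
def PC4 (Z : E → E → α) (x x' y y' : E) : Prop :=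
  Z x y ≠ Z x y' ∧ Z x' y ≠ Z x' y' ∧ Z x y ≠ Z x' y ∧ Z x y' ≠ Z x' y'

/-- No properly coloured cycle of length four. -/
def No4 (R C : Set E) (Z : E → E → α) : Prop :=
  ∀ x ∈ R, ∀ x' ∈ R, ∀ y ∈ C, ∀ y' ∈ C, ¬ PC4 Z x x' y y'

/-- No block with rows `a a b`, `a d d`, `b d b` in three different colours. -/
def No6 (R C : Set E) (Z : E → E → α) : Prop :=
  ∀ x ∈ R, ∀ x' ∈ R, ∀ x'' ∈ R, ∀ y ∈ C, ∀ y' ∈ C, ∀ y'' ∈ C, Z x y' = Z x y → Z x' y = Z x y →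
    Z x'' y = Z x y'' → Z x'' y'' = Z x y'' → Z x' y'' = Z x' y' → Z x'' y' = Z x' y' →
    Z x y = Z x y'' ∨ Z x y = Z x' y' ∨ Z x y'' = Z x' y'

/-- No line is constant, and parallel lines differ in two places. -/
structure GG (R C : Set E) (Z : E → E → α) : Prop where
  r1 : ∀ x ∈ R, ∃ y ∈ C, ∃ y' ∈ C, Z x y ≠ Z x y'
  c1 : ∀ y ∈ C, ∃ x ∈ R, ∃ x' ∈ R, Z x y ≠ Z x' y
  r2 : ∀ x ∈ R, ∀ x' ∈ R, x ≠ x' → ∀ y0, ∃ y ∈ C, y ≠ y0 ∧ Z x y ≠ Z x' y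
  c2 : ∀ y ∈ C, ∀ y' ∈ C, y ≠ y' → ∀ x0, ∃ x ∈ R, x ≠ x0 ∧ Z x y ≠ Z x y'

/-- The rows `x1`, `x2` differ in a maximal set of columns. -/
def Mx (R C : Set E) (Z : E → E → α) (x1 x2 y1 y2 : E) : Prop :=
  ∀ n ∈ R, ∀ m ∈ C, Z x1 m = Z x2 m → Z n m ≠ Z x1 m →
    (PC4 Z n x2 y1 y2 → ∃ m' ∈ C, Z x1 m' ≠ Z x2 m' ∧ Z n m' = Z x2 m') ∧
      (PC4 Z x1 n y1 y2 → ∃ m' ∈ C, Z x1 m' ≠ Z x2 m' ∧ Z n m' = Z x1 m')

/-- The columns where `x1`, `x2` agree are constant on the rows where `y1`, `y2` differ. -/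
def Sp (R C : Set E) (Z : E → E → α) (x1 x2 y1 y2 : E) : Prop :=
  ∀ n ∈ R, ∀ m ∈ C, Z n y1 ≠ Z n y2 → Z x1 m = Z x2 m → Z n m = Z x1 m

/-- Two colourings with the same colour classes. -/
def Eqv (R C : Set E) (Z : E → E → α) (W : E → E → β) : Prop :=
  ∀ x ∈ R, ∀ y ∈ C, ∀ x' ∈ R, ∀ y' ∈ C, Z x y = Z x' y' ↔ W x y = W x' y'

variable {R C R' C' : Set E} {Z : E → E → α} {W : E → E → β} {x1 x2 y1 y2 : E}

theorem PC4.tp (h : PC4 Z x1 x2 y1 y2) : PC4 (tp Z) y1 y2 x1 x2 := by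
  exact ⟨h.2.2.1, h.2.2.2, h.1, h.2.1⟩

theorem PC4.row (h : PC4 Z x1 x2 y1 y2) : PC4 Z x2 x1 y1 y2 := by
  exact ⟨h.2.1, h.1, h.2.2.1.symm, h.2.2.2.symm⟩

theorem PC4.col (h : PC4 Z x1 x2 y1 y2) : PC4 Z x1 x2 y2 y1 := by
  exact ⟨h.1.symm, h.2.1.symm, h.2.2.2, h.2.2.1⟩

theorem No4.tp (h : No4 R C Z) : No4 C R (tp Z) := by
  exact fun y hy y' hy' x hx x' hx' h4 => h x hx x' hx' y hy y' hy' h4.tp

theorem No6.tp (h : No6 R C Z) : No6 C R (tp Z) := by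
  intro y hy y' hy' y'' hy'' x hx x' hx' x'' hx'' a1 a2 a3 a4 a5 a6
  simp only [tp_apply] at *
  have := h x hx x' hx' x'' hx'' y hy y' hy' y'' hy'' a2 a1 a3.symm (a4.trans a3.symm) a6 a5
  rwa [a3] at this

theorem No6.mono (h : No6 R C Z) (hR : R' ⊆ R) (hC : C' ⊆ C) : No6 R' C' Z := by
  exact fun x hx x' hx' x'' hx'' y hy y' hy' y'' hy'' =>
    h x (hR hx) x' (hR hx') x'' (hR hx'') y (hC hy) y' (hC hy') y'' (hC hy'')

theorem GG.tp (h : GG R C Z) : GG C R (tp Z) := by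
  exact ⟨h.c1, h.r1, h.c2, h.r2⟩

theorem Mx.row (h : Mx R C Z x1 x2 y1 y2) : Mx R C Z x2 x1 y1 y2 := by
  intro n hn m hm a1 a2
  obtain ⟨b1, b2⟩ := h n hn m hm a1.symm (a1 ▸ a2)
  refine ⟨fun c => ?_, fun c => ?_⟩
  · obtain ⟨m', d1, d2, d3⟩ := b2 c.row
    exact ⟨m', d1, d2.symm, d3⟩
  · obtain ⟨m', d1, d2, d3⟩ := b1 c.row
    exact ⟨m', d1, d2.symm, d3⟩

theorem Mx.col (h : Mx R C Z x1 x2 y1 y2) : Mx R C Z x1 x2 y2 y1 := by
  intro n hn m hm a1 a2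
  obtain ⟨b1, b2⟩ := h n hn m hm a1 a2
  exact ⟨fun c => b1 c.col, fun c => b2 c.col⟩

theorem Sp.row (h : Sp R C Z x1 x2 y1 y2) : Sp R C Z x2 x1 y1 y2 := by
  exact fun n hn m hm a1 a2 => (h n hn m hm a1 a2.symm).trans a2.symm

theorem Sp.col (h : Sp R C Z x1 x2 y1 y2) : Sp R C Z x1 x2 y2 y1 := by
  exact fun n hn m hm a1 a2 => h n hn m hm a1.symm a2

theorem Eqv.symm (h : Eqv R C Z W) : Eqv R C W Z := by
  exact fun x hx y hy x' hx' y' hy' => (h x hx y hy x' hx' y' hy').symm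

theorem Eqv.tp (h : Eqv R C Z W) : Eqv C R (tp Z) (tp W) := by
  exact fun y hy x hx y' hy' x' hx' => h x hx y hy x' hx' y' hy'

theorem Eqv.gg (h : Eqv R C Z W) (hG : GG R C Z) : GG R C W := by
  refine ⟨fun x hx => ?_, fun y hy => ?_, fun x hx x' hx' e y0 => ?_, fun y hy y' hy' e x0 => ?_⟩
  · obtain ⟨y, hy, y', hy', a⟩ := hG.r1 x hx
    exact ⟨y, hy, y', hy', (h x hx y hy x hx y' hy').not.1 a⟩
  · obtain ⟨x, hx, x', hx', a⟩ := hG.c1 y hy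
    exact ⟨x, hx, x', hx', (h x hx y hy x' hx' y hy).not.1 a⟩
  · obtain ⟨y, hy, b, a⟩ := hG.r2 x hx x' hx' e y0
    exact ⟨y, hy, b, (h x hx y hy x' hx' y hy).not.1 a⟩
  · obtain ⟨x, hx, b, a⟩ := hG.c2 y hy y' hy' e x0
    exact ⟨x, hx, b, (h x hx y hy x hx y' hy').not.1 a⟩

theorem Eqv.no6 (h : Eqv R C Z W) (h6 : No6 R C Z) : No6 R C W := by
  intro x hx x' hx' x'' hx'' y hy y' hy' y'' hy''
  rw [← h x hx y' hy' x hx y hy, ← h x' hx' y hy x hx y hy, ← h x'' hx'' y hy x hx y'' hy'',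
    ← h x'' hx'' y'' hy'' x hx y'' hy'', ← h x' hx' y'' hy'' x' hx' y' hy',
    ← h x'' hx'' y' hy' x' hx' y' hy', ← h x hx y hy x hx y'' hy'', ← h x hx y hy x' hx' y' hy',
    ← h x hx y'' hy'' x' hx' y' hy']
  exact h6 x hx x' hx' x'' hx'' y hy y' hy' y'' hy''

theorem Eqv.pc4 (h : Eqv R C Z W) (a1 : x1 ∈ R) (a2 : x2 ∈ R) (b1 : y1 ∈ C) (b2 : y2 ∈ C)
    (h4 : PC4 Z x1 x2 y1 y2) : PC4 W x1 x2 y1 y2 := by
  exact ⟨(h _ a1 _ b1 _ a1 _ b2).not.1 h4.1, (h _ a2 _ b1 _ a2 _ b2).not.1 h4.2.1,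
    (h _ a1 _ b1 _ a2 _ b1).not.1 h4.2.2.1, (h _ a1 _ b2 _ a2 _ b2).not.1 h4.2.2.2⟩

theorem Eqv.mx (h : Eqv R C Z W) (a1 : x1 ∈ R) (a2 : x2 ∈ R) (b1 : y1 ∈ C) (b2 : y2 ∈ C)
    (hm : Mx R C Z x1 x2 y1 y2) : Mx R C W x1 x2 y1 y2 := by
  intro n hn m hm' c1 c2
  obtain ⟨d1, d2⟩ := hm n hn m hm' ((h _ a1 _ hm' _ a2 _ hm').2 c1)
    ((h _ hn _ hm' _ a1 _ hm').not.2 c2)
  refine ⟨fun c => ?_, fun c => ?_⟩
  · obtain ⟨m', e1, e2, e3⟩ := d1 (h.symm.pc4 hn a2 b1 b2 c)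
    exact ⟨m', e1, (h _ a1 _ e1 _ a2 _ e1).not.1 e2, (h _ hn _ e1 _ a2 _ e1).1 e3⟩
  · obtain ⟨m', e1, e2, e3⟩ := d2 (h.symm.pc4 a1 hn b1 b2 c)
    exact ⟨m', e1, (h _ a1 _ e1 _ a2 _ e1).not.1 e2, (h _ hn _ e1 _ a1 _ e1).1 e3⟩

theorem Eqv.sp (h : Eqv R C Z W) (a1 : x1 ∈ R) (a2 : x2 ∈ R) (b1 : y1 ∈ C) (b2 : y2 ∈ C)
    (hm : Sp R C Z x1 x2 y1 y2) : Sp R C W x1 x2 y1 y2 := by
  intro n hn m hm' c1 c2
  exact (h _ hn _ hm' _ a1 _ hm').1 (hm n hn m hm' ((h _ hn _ b1 _ hn _ b2).not.2 c1)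
    ((h _ a1 _ hm' _ a2 _ hm').2 c2))

variable [Finite E]

theorem ty_no4_mono (h : No4 R C Z) (hR : R' ⊆ R) (hC : C' ⊆ C) : No4 R' C' Z :=
  fun x hx x' hx' y hy y' hy' => h x (hR hx) x' (hR hx') y (hC hy) y' (hC hy')

/-- Some line is constant. -/
def TyConst (R C : Set E) (Z : E → E → α) : Prop :=
  (∃ x ∈ R, ∀ y ∈ C, ∀ y' ∈ C, Z x y = Z x y') ∨ ∃ y ∈ C, ∀ x ∈ R, ∀ x' ∈ R, Z x y = Z x' y

theorem ty_third (h3 : 2 < R.ncard) (r s : E) : ∃ t ∈ R, t ≠ r ∧ t ≠ s := by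
  by_contra hn
  push Not at hn
  have h1 : R ⊆ {r, s} := fun t ht => by
    by_cases e : t = r
    · exact Or.inl e
    · exact Or.inr (hn t ht e)
  have h2 := ncard_le_ncard h1 (toFinite _)
  have h4 := ncard_insert_le r ({s} : Set E)
  rw [ncard_singleton] at h4
  omega

theorem ty_big (h3 : 2 < R.ncard) (hle : C.ncard ≤ R.ncard) (h4 : No4 R C Z) (h6 : No6 R C Z)
    (ih : ∀ r ∈ R, TyConst (R \ {r}) C Z) : TyConst R C Z := by
  by_contra hn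
  obtain ⟨n1, n2⟩ := not_or.1 hn
  have h1 : ∀ r, ∃ y, r ∈ R → y ∈ C ∧ ∀ x ∈ R, x ≠ r → ∀ x' ∈ R, x' ≠ r → Z x y = Z x' y := by
    intro r
    by_cases hr : r ∈ R
    · rcases ih r hr with ⟨x, hx, h⟩ | ⟨y, hy, h⟩
      · exact absurd ⟨x, hx.1, h⟩ n1
      · exact ⟨y, fun _ => ⟨hy, fun x hx e x' hx' e' => h x ⟨hx, e⟩ x' ⟨hx', e'⟩⟩⟩
    · exact ⟨r, fun h => absurd h hr⟩
  choose j hj using h1
  have hne : ∀ r ∈ R, ∀ x ∈ R, x ≠ r → Z r (j r) ≠ Z x (j r) := by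
    intro r hr x hx e h
    have a : ∀ z ∈ R, Z z (j r) = Z x (j r) := fun z hz => by
      by_cases e' : z = r
      · rw [e', h]
      · exact (hj r hr).2 z hz e' x hx e
    exact n2 ⟨j r, (hj r hr).1, fun z hz z' hz' => (a z hz).trans (a z' hz').symm⟩
  have hinj : InjOn j R := by
    intro r hr s hs e
    by_contra h
    obtain ⟨t, ht, t1, t2⟩ := ty_third h3 r s
    refine hne r hr t ht t1 ?_
    rw [e]
    exact (hj s hs).2 r hr h t ht t2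
  have hsur : j '' R = C := by
    refine eq_of_subset_of_ncard_le ?_ ?_ (toFinite _)
    · rintro _ ⟨r, hr, rfl⟩
      exact (hj r hr).1
    · rwa [hinj.ncard_image]
  have tot : ∀ r ∈ R, ∀ s ∈ R, r ≠ s → Z r (j s) ≠ Z r (j r) → Z s (j r) = Z s (j s) := by
    intro r hr s hs e h
    by_contra h'
    exact h4 r hr s hs _ (hj r hr).1 _ (hj s hs).1
      ⟨h.symm, h', hne r hr s hs e.symm, (hne s hs r hr e).symm⟩
  have tra : ∀ r ∈ R, ∀ s ∈ R, ∀ t ∈ R, r ≠ s → s ≠ t → r ≠ t → Z r (j s) = Z r (j r) →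
      Z s (j t) = Z s (j s) → Z r (j t) = Z r (j r) := by
    intro r hr s hs t ht e1 e2 e3 a1 a2
    by_contra h
    have a3 := tot r hr t ht e3 h
    have b1 := (hj s hs).2 r hr e1 t ht e2.symm
    rcases h6 t ht s hs r hr _ (hj r hr).1 _ (hj t ht).1 _ (hj s hs).1 a3.symm
      ((hj r hr).2 s hs e1.symm t ht e3.symm) (a1.symm.trans b1) b1 a2.symm
      ((hj t ht).2 r hr e3 s hs e2) with c | c | c
    · exact hne r hr t ht e3.symm (a1.symm.trans (b1.trans c.symm))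
    · exact hne t ht s hs e2 (a3.symm.trans c)
    · exact hne s hs t ht e2.symm (a2.symm.trans c.symm)
  obtain ⟨r, hr, hmax⟩ := exists_max_image R (fun r => {s ∈ R | Z r (j s) = Z r (j r)}.ncard)
    (toFinite _) ((ncard_pos (toFinite _)).1 (by omega))
  have hall : ∀ t ∈ R, Z r (j t) = Z r (j r) := by
    intro t ht
    by_contra h
    have e : r ≠ t := fun e => h (e ▸ rfl)
    have a := tot r hr t ht e h
    refine absurd (hmax t ht) (not_le.2 (ncard_lt_ncard ⟨?_, fun h' => h (h' ⟨ht, rfl⟩).2⟩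
      (toFinite _)))
    rintro s ⟨hs, b⟩
    refine ⟨hs, ?_⟩
    by_cases e' : r = s
    · exact e' ▸ a
    · exact tra t ht r hr s hs e.symm e' (fun e'' => h (e'' ▸ b)) a b
  refine n1 ⟨r, hr, fun y hy y' hy' => ?_⟩
  rw [← hsur] at hy hy'
  obtain ⟨s, hs, rfl⟩ := hy
  obtain ⟨s', hs', rfl⟩ := hy'
  exact (hall s hs).trans (hall s' hs').symm

theorem ty_pair {r s : E} (h2 : R.ncard ≤ 2) (hr : r ∈ R) (hs : s ∈ R) (e : r ≠ s) :
    R = {r, s} := by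
  refine (eq_of_subset_of_ncard_le ?_ ?_ (toFinite _)).symm
  · rintro t (rfl | rfl) <;> assumption
  · rwa [ncard_pair e]

theorem ty_small (hR : R.Nonempty) (hC : C.Nonempty) (h2 : R.ncard ≤ 2) (h2' : C.ncard ≤ 2)
    (h4 : No4 R C Z) : TyConst R C Z := by
  by_contra hn
  obtain ⟨n1, n2⟩ := not_or.1 hn
  push Not at n1 n2
  obtain ⟨x0, hx0⟩ := hR
  obtain ⟨y0, hy0⟩ := hC
  obtain ⟨y, hy, y', hy', a⟩ := n1 x0 hx0
  obtain ⟨x, hx, x', hx', b⟩ := n2 y0 hy0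
  have e1 := ty_pair h2 hx hx' (fun e => b (e ▸ rfl))
  have e2 := ty_pair h2' hy hy' (fun e => a (e ▸ rfl))
  have r : ∀ z ∈ R, Z z y ≠ Z z y' := by
    intro z hz h
    obtain ⟨u, hu, u', hu', c⟩ := n1 z hz
    rw [e2] at hu hu'
    rcases hu with rfl | rfl <;> rcases hu' with rfl | rfl
    · exact c rfl
    · exact c h
    · exact c h.symm
    · exact c rfl
  have c : ∀ z ∈ C, Z x z ≠ Z x' z := by
    intro z hz h
    obtain ⟨u, hu, u', hu', c⟩ := n2 z hz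
    rw [e1] at hu hu'
    rcases hu with rfl | rfl <;> rcases hu' with rfl | rfl
    · exact c rfl
    · exact c h
    · exact c h.symm
    · exact c rfl
  exact h4 x hx x' hx' y hy y' hy' ⟨r x hx, r x' hx', c y hy, c y' hy'⟩

theorem ty_const (n : ℕ) : ∀ (R C : Set E) (Z : E → E → α), R.ncard + C.ncard ≤ n →
    R.Nonempty → C.Nonempty → No4 R C Z → No6 R C Z → TyConst R C Z := by
  induction n with
  | zero =>
    intro R C Z h hR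
    have := (ncard_pos (toFinite R)).2 hR
    omega
  | succ n ih =>
    have key : ∀ (R C : Set E) (Z : E → E → α), R.ncard + C.ncard ≤ n + 1 →
        R.Nonempty → C.Nonempty → No4 R C Z → No6 R C Z → C.ncard ≤ R.ncard → TyConst R C Z := by
      intro R C Z h hR hC h4 h6 hle
      by_cases h3 : 2 < R.ncard
      · refine ty_big h3 hle h4 h6 fun r hr => ih _ _ _ ?_ ?_ hC
          (ty_no4_mono h4 sdiff_subset subset_rfl) (h6.mono sdiff_subset subset_rfl)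
        · have := ncard_sdiff_singleton_lt_of_mem hr (toFinite R)
          omega
        · obtain ⟨t, ht, t1, -⟩ := ty_third h3 r r
          exact ⟨t, ht, t1⟩
      · exact ty_small hR hC (by omega) (by omega) h4
    intro R C Z h hR hC h4 h6
    rcases le_total C.ncard R.ncard with hle | hle
    · exact key R C Z h hR hC h4 h6 hle
    · exact (key C R (tp Z) (by omega) hC hR h4.tp h6.tp hle).symm

/-- Without the two patterns some line is constant. -/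
theorem exists_const (hR : R.Nonempty) (hC : C.Nonempty) (h4 : No4 R C Z) (h6 : No6 R C Z) :
    (∃ x ∈ R, ∀ y ∈ C, ∀ y' ∈ C, Z x y = Z x y') ∨ ∃ y ∈ C, ∀ x ∈ R, ∀ x' ∈ R, Z x y = Z x' y := by
  exact ty_const _ R C Z le_rfl hR hC h4 h6

/-- Two parallel lines differ in at most one place. -/
def TyTwo (R C : Set E) (Z : E → E → α) : Prop :=
  (∃ x ∈ R, ∃ x' ∈ R, x ≠ x' ∧ ∃ y0, ∀ y ∈ C, y ≠ y0 → Z x y = Z x' y) ∨
    ∃ y ∈ C, ∃ y' ∈ C, y ≠ y' ∧ ∃ x0, ∀ x ∈ R, x ≠ x0 → Z x y = Z x y'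

theorem ty_two (n : ℕ) : ∀ (R C : Set E) (Z : E → E → α), R.ncard + C.ncard ≤ n →
    R.Nonempty → C.Nonempty → No4 R C Z → No6 R C Z → ¬ (R.Subsingleton ∧ C.Subsingleton) →
    TyTwo R C Z := by
  induction n with
  | zero =>
    intro R C Z h hR
    have := (ncard_pos (toFinite R)).2 hR
    omega
  | succ n ih =>
    have k1 : ∀ (R C : Set E) (Z : E → E → α), C.Nonempty → C.Subsingleton → ¬ R.Subsingleton →
        TyTwo R C Z := by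
      rintro R C Z ⟨y0, hy0⟩ h1 h2
      obtain ⟨x, hx, x', hx', e⟩ := not_subsingleton_iff.1 h2
      exact Or.inl ⟨x, hx, x', hx', e, y0, fun y hy e' => absurd (h1 hy hy0) e'⟩
    have k2 : ∀ (R C : Set E) (Z : E → E → α), R.ncard + C.ncard ≤ n + 1 → C.Nonempty →
        No4 R C Z → No6 R C Z → ¬ R.Subsingleton → ¬ C.Subsingleton →
        (∃ x ∈ R, ∀ y ∈ C, ∀ y' ∈ C, Z x y = Z x y') → TyTwo R C Z := by
      rintro R C Z h hC h4 h6 h1 h2 ⟨r, hr, hc⟩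
      have a := ncard_sdiff_singleton_lt_of_mem hr (toFinite R)
      obtain ⟨t, ht, t1⟩ := (not_subsingleton_iff.1 h1).exists_ne r
      rcases ih (R \ {r}) C Z (by omega) ⟨t, ht, t1⟩ hC (ty_no4_mono h4 sdiff_subset subset_rfl)
        (h6.mono sdiff_subset subset_rfl) (fun h3 => h2 h3.2) with
        ⟨x, hx, x', hx', e, b⟩ | ⟨y, hy, y', hy', e, x0, b⟩
      · exact Or.inl ⟨x, hx.1, x', hx'.1, e, b⟩
      · refine Or.inr ⟨y, hy, y', hy', e, x0, fun x hx e' => ?_⟩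
        by_cases e'' : x = r
        · rw [e'']; exact hc y hy y' hy'
        · exact b x ⟨hx, e''⟩ e'
    intro R C Z h hR hC h4 h6 hn
    by_cases h1 : C.Subsingleton
    · exact k1 R C Z hC h1 fun h2 => hn ⟨h2, h1⟩
    by_cases h2 : R.Subsingleton
    · exact (k1 C R (tp Z) hR h2 h1).symm
    rcases exists_const hR hC h4 h6 with a | a
    · exact k2 R C Z h hC h4 h6 h2 h1 a
    · exact (k2 C R (tp Z) (by omega) hR h4.tp h6.tp h1 h2 a).symm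

/-- A block without the two patterns whose lines agree outside the block is a single entry. -/
theorem GG.block (hG : GG R C Z) (h6 : No6 R C Z) (hR : R' ⊆ R) (hC : C' ⊆ C) (hR' : R'.Nonempty)
    (hC' : C'.Nonempty) (h4 : No4 R' C' Z)
    (h1 : ∀ x ∈ R', ∀ x' ∈ R', ∀ y ∈ C, y ∉ C' → Z x y = Z x' y)
    (h2 : ∀ y ∈ C', ∀ y' ∈ C', ∀ x ∈ R, x ∉ R' → Z x y = Z x y') :
    R'.Subsingleton ∧ C'.Subsingleton := by
  by_contra hn
  rcases ty_two _ R' C' Z le_rfl hR' hC' h4 (h6.mono hR hC) hn with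
    ⟨x, hx, x', hx', e, y0, b⟩ | ⟨y, hy, y', hy', e, x0, b⟩
  · obtain ⟨y, hy, c1, c2⟩ := hG.r2 x (hR hx) x' (hR hx') e y0
    by_cases d : y ∈ C'
    · exact c2 (b y d c1)
    · exact c2 (h1 x hx x' hx' y hy d)
  · obtain ⟨x, hx, c1, c2⟩ := hG.c2 y (hC hy) y' (hC hy') e x0
    by_cases d : x ∈ R'
    · exact c2 (b x d c1)
    · exact c2 (h2 y hy y' hy' x hx d)

/-- A class of columns such that the rows not constant on it agree elsewhere. -/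
theorem GG.cols (hG : GG R C Z) (h6 : No6 R C Z) (hC : C' ⊆ C) (h4 : No4 R C' Z)
    (h1 : ∀ x ∈ R, ∀ x' ∈ R, (∃ y ∈ C', ∃ y' ∈ C', Z x y ≠ Z x y') →
      (∃ y ∈ C', ∃ y' ∈ C', Z x' y ≠ Z x' y') → ∀ y ∈ C, y ∉ C' → Z x y = Z x' y) :
    C'.Subsingleton := by
  intro y hy y' hy'
  by_contra e
  obtain ⟨x, hx, -, c⟩ := hG.c2 y (hC hy) y' (hC hy') e y
  refine e ((hG.block (R' := {x ∈ R | ∃ y ∈ C', ∃ y' ∈ C', Z x y ≠ Z x y'}) h6 (sep_subset _ _) hC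
    ⟨x, hx, y, hy, y', hy', c⟩ ⟨y, hy⟩ (ty_no4_mono h4 (sep_subset _ _) subset_rfl)
    (fun a ha a' ha' => h1 a ha.1 a' ha'.1 ha.2 ha'.2) fun b hb b' hb' a ha d => ?_).2 hy hy')
  by_contra f
  exact d ⟨ha, b, hb, b', hb', f⟩

/-- A class of rows such that the columns not constant on it agree elsewhere. -/
theorem GG.rows (hG : GG R C Z) (h6 : No6 R C Z) (hR : R' ⊆ R) (h4 : No4 R' C Z)
    (h1 : ∀ y ∈ C, ∀ y' ∈ C, (∃ x ∈ R', ∃ x' ∈ R', Z x y ≠ Z x' y) →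
      (∃ x ∈ R', ∃ x' ∈ R', Z x y' ≠ Z x' y') → ∀ x ∈ R, x ∉ R' → Z x y = Z x y') :
    R'.Subsingleton :=
  hG.tp.cols h6.tp hR h4.tp h1

theorem ty_mx
    (h1 : ∀ n ∈ R, PC4 Z n x2 y1 y2 →
      {m ∈ C | Z n m ≠ Z x2 m}.ncard ≤ {m ∈ C | Z x1 m ≠ Z x2 m}.ncard)
    (h2 : ∀ n ∈ R, PC4 Z x1 n y1 y2 →
      {m ∈ C | Z x1 m ≠ Z n m}.ncard ≤ {m ∈ C | Z x1 m ≠ Z x2 m}.ncard) :
    Mx R C Z x1 x2 y1 y2 := by
  intro n hn m hm a1 a2
  refine ⟨fun c => ?_, fun c => ?_⟩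
  · by_contra h
    push Not at h
    refine absurd (h1 n hn c) (not_le.2 (ncard_lt_ncard
      ⟨fun m' hm' => ⟨hm'.1, h m' hm'.1 hm'.2⟩, fun h' => ?_⟩ (toFinite _)))
    exact (h' ⟨hm, a1 ▸ a2⟩).2 a1
  · by_contra h
    push Not at h
    refine absurd (h2 n hn c) (not_le.2 (ncard_lt_ncard
      ⟨fun m' hm' => ⟨hm'.1, (h m' hm'.1 hm'.2).symm⟩, fun h' => ?_⟩ (toFinite _)))
    exact (h' ⟨hm, a2.symm⟩).2 a1

/-- A properly coloured cycle that is maximal in both directions. -/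
theorem GG.exists_seed (hG : GG R C Z) (h6 : No6 R C Z) (hR : R.Nonempty) :
    ∃ x1 ∈ R, ∃ x2 ∈ R, ∃ y1 ∈ C, ∃ y2 ∈ C,
      PC4 Z x1 x2 y1 y2 ∧ Mx R C Z x1 x2 y1 y2 ∧ Mx C R (G.tp Z) y1 y2 x1 x2 := by
  have hC : C.Nonempty := by
    obtain ⟨x, hx⟩ := hR
    obtain ⟨y, hy, -⟩ := hG.r1 x hx
    exact ⟨y, hy⟩
  have h4 : ¬ No4 R C Z := by
    intro h4
    rcases exists_const hR hC h4 h6 with ⟨x, hx, h⟩ | ⟨y, hy, h⟩
    · obtain ⟨y, hy, y', hy', a⟩ := hG.r1 x hx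
      exact a (h y hy y' hy')
    · obtain ⟨x, hx, x', hx', a⟩ := hG.c1 y hy
      exact a (h x hx x' hx')
  have hne : {q : E × E × E × E | q.1 ∈ R ∧ q.2.1 ∈ R ∧ q.2.2.1 ∈ C ∧ q.2.2.2 ∈ C ∧
      PC4 Z q.1 q.2.1 q.2.2.1 q.2.2.2}.Nonempty := by
    by_contra hn
    exact h4 fun x hx x' hx' y hy y' hy' h => hn ⟨(x, x', y, y'), hx, hx', hy, hy', h⟩
  obtain ⟨⟨x1, x2, y1, y2⟩, ⟨a1, a2, b1, b2, h⟩, hmax⟩ := exists_max_image _
    (fun q : E × E × E × E => {m ∈ C | Z q.1 m ≠ Z q.2.1 m}.ncard +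
      {n ∈ R | Z n q.2.2.1 ≠ Z n q.2.2.2}.ncard) (toFinite _) hne
  refine ⟨x1, a1, x2, a2, y1, b1, y2, b2, h, ty_mx (fun n hn c => ?_) fun n hn c => ?_,
    ty_mx (fun n hn c => ?_) fun n hn c => ?_⟩
  · exact Nat.le_of_add_le_add_right (hmax (n, x2, y1, y2) ⟨hn, a2, b1, b2, c⟩)
  · exact Nat.le_of_add_le_add_right (hmax (x1, n, y1, y2) ⟨a1, hn, b1, b2, c⟩)
  · exact Nat.le_of_add_le_add_left (hmax (x1, x2, n, y2) ⟨a1, a2, hn, b2, c.tp⟩)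
  · exact Nat.le_of_add_le_add_left (hmax (x1, x2, y1, n) ⟨a1, a2, b1, hn, c.tp⟩)

end Pool.Agent.Lib.MP_10bdcf_co.G
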