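import Pool.Agent.Lib.MP_10bdcf_co.UM

/-!
Single element extensions of a system over the partial field, and a larger type of elements.
-/

namespace Pool.Agent.Lib.MP_10bdcf_co.G

open scoped Matroid
open Set

set_option linter.unusedSectionVars false

variable {E : Type} [Fintype E] {M : Matroid E} {T : Set E → Matrix E E R0}

/-- `M'` is `M` with the new element `z`, the combination of the old elements with the
coefficients `c`. -/
structure Ext (M : Matroid E) (T : Set E → Matrix E E R0) (z : E) (c : E → R0) (M' : Matroid E)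
    (T' : Set E → Matrix E E R0) : Prop where
  tab : U2 M' T'
  ground : M'.E = insert z M.E
  del : M' ＼ {z} = M
  base : ∀ B, M.IsBase B → M'.IsBase B
  old : ∀ B, M.IsBase B → ∀ b e, e ≠ z → T' B b e = T B b e
  new : ∀ B, M.IsBase B → ∀ b, T' B b z = ∑ e, T B b e * c e

section generic
variable {R : Type} [Ring R] {S0 S S' : Matrix E E R} {B B' : Set E} {b : E}

theorem ux_exch [Nontrivial R] (h : Good S0 B S) (h' : Good S0 B' S') (hb : b ∈ B)
    (hb' : b ∉ B') : ∃ y, y ∈ B' ∧ y ∉ B ∧ S b y ≠ 0 := by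
  by_contra hne
  push Not at hne
  have h1 := congrFun (congrFun (h'.mul h) b) b
  rw [h.diag b hb, Matrix.mul_apply] at h1
  refine one_ne_zero (h1.symm.trans (Finset.sum_eq_zero fun y _ => ?_))
  by_cases hy : y ∈ B'
  · by_cases hyB : y ∈ B
    · rw [h.off b y hyB fun e' => hb' (e' ▸ hy), zero_mul]
    · rw [hne y hy hyB, zero_mul]
  · rw [h'.row y hy, mul_zero]

theorem ux_map {F : Type} [Ring F] (h : Good S0 B S) (x : R →+* F) :
    Good (S0.map x) B (S.map x) :=
  ⟨fun b hb e => by simp [h.row b hb], fun b hb => by simp [h.diag b hb],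
    fun b e he hbe => by simp [h.off b e he hbe], by rw [← Matrix.map_mul, h.left],
    by rw [← Matrix.map_mul, h.right]⟩

theorem ux_pivot {F : Type} [Field F] {S0 S : Matrix E E F} (h : Good S0 B S) {y : E}
    (hb : b ∈ B) (hy : y ∉ B) (h0 : S b y ≠ 0) : Good S0 (ex B b y) (piv S b y (S b y)⁻¹) :=
  h.pivot hb hy (inv_mul_cancel₀ h0) (mul_inv_cancel₀ h0)

end generic

open Classical in
/-- The tableau of an old base with the new column. -/
noncomputable def uxT (T : Set E → Matrix E E R0) (z : E) (c : E → R0) (B : Set E) :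
    Matrix E E R0 :=
  Matrix.of fun b e => if e = z then ∑ w, T B b w * c w else T B b e

/-- A rational point. -/
noncomputable def uxQ : R0 →+* ℚ := pt (2 : ℚ) 3 (by norm_num)

variable {z : E} {c : E → R0} {X B : Set E}

theorem ux_old (B : Set E) (b : E) {e : E} (he : e ≠ z) : uxT T z c B b e = T B b e := by
  simp [uxT, he]

theorem ux_new (B : Set E) (b : E) : uxT T z c B b z = ∑ w, T B b w * c w := by
  simp [uxT]

theorem ux_mul (hT : U2 M T) (hz : z ∉ M.E) (hX : M.IsBase X) (hB : M.IsBase B) :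
    uxT T z c B * uxT T z c X = uxT T z c B := by
  have key : ∀ b w (u : R0), (u = 0 ∨ w ≠ z) → uxT T z c B b w * u = T B b w * u := by
    rintro b w u (rfl | hw)
    · simp
    · rw [ux_old _ _ hw]
  have hzX : z ∉ X := fun h => hz (hX.subset_ground h)
  ext b e
  rw [Matrix.mul_apply]
  by_cases he : e = z
  · subst he
    simp only [ux_new]
    rw [Finset.sum_congr rfl fun w _ => key b w _ ?_]
    · simp only [Finset.mul_sum, ← mul_assoc]
      rw [Finset.sum_comm]
      exact Finset.sum_congr rfl fun w _ => by rw [← Finset.sum_mul, ← hT.mul_apply hX hB]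
    · by_cases hw : w = e
      · subst hw
        exact Or.inl (Finset.sum_eq_zero fun y _ => by rw [hT.row hX hzX, zero_mul])
      · exact Or.inr hw
  · simp only [ux_old _ _ he]
    rw [hT.mul_apply hX hB b e]
    refine Finset.sum_congr rfl fun w _ => key b w _ ?_
    by_cases hw : w = z
    · exact Or.inl (by rw [hw, hT.row hX hzX])
    · exact Or.inr hw

theorem ux_good (hT : U2 M T) (hz : z ∉ M.E) (hX : M.IsBase X) (hB : M.IsBase B) :
    Good (uxT T z c X) B (uxT T z c B) := by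
  have hne : ∀ e ∈ B, e ≠ z := fun e he h => hz (hB.subset_ground (h ▸ he))
  refine ⟨fun b hb e => ?_, fun b hb => ?_, fun b e he hbe => ?_, ux_mul hT hz hX hB,
    ux_mul hT hz hB hX⟩
  · by_cases he : e = z
    · rw [he, ux_new]
      exact Finset.sum_eq_zero fun y _ => by rw [hT.row hB hb, zero_mul]
    · rw [ux_old _ _ he, hT.row hB hb]
  · rw [ux_old _ _ (hne b hb), hT.diag B hB b hb]
  · rw [ux_old _ _ (hne e he), hT.off hB he hbe]

/-- A base of the extension that avoids the new element is an old base. -/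
theorem ux_base (hT : U2 M T) (hz : z ∉ M.E) (hX : M.IsBase X) {S : Matrix E E ℚ}
    (hS : Good ((uxT T z c X).map uxQ) B S) (hzB : z ∉ B) : M.IsBase B := by
  have key : ∀ n, ∀ Y, M.IsBase Y → (Y \ B).ncard = n → M.IsBase B := by
    intro n
    induction n using Nat.strong_induction_on with
    | _ n ih =>
      intro Y hY hn
      have hg := ux_map (ux_good (c := c) hT hz hX hY) uxQ
      by_cases h : ∃ b ∈ Y, b ∉ B
      · obtain ⟨b, hb, hbB⟩ := h
        obtain ⟨y, hy, hyY, h0⟩ := ux_exch hg hS hb hbB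
        have hyz : y ≠ z := fun e' => hzB (e' ▸ hy)
        rw [Matrix.map_apply, ux_old _ _ hyz] at h0
        have h1 := ((hT.supp Y hY b y).1 fun e' => h0 (by rw [e', map_zero])).2
        refine ih _ ?_ _ h1 rfl
        rw [← hn]
        refine ncard_lt_ncard ⟨fun w hw => ?_, fun hw => ?_⟩ (toFinite _)
        · rcases mem_ex.1 hw.1 with rfl | h2
          · exact absurd hy hw.2
          · exact ⟨h2.1, hw.2⟩
        · rcases mem_ex.1 (hw ⟨hb, hbB⟩).1 with rfl | h2
          · exact hbB hy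
          · exact h2.2 rfl
      · push Not at h
        have h2 : B ⊆ Y := fun b hb => by
          by_contra hbY
          obtain ⟨y, hy, hyB, -⟩ := ux_exch hS hg hb hbY
          exact hyB (h y hy)
        rwa [Subset.antisymm h2 h]
  exact key _ X hX rfl

theorem ux_inP (hT : U2 M T) (hc : ∀ B, M.IsBase B → ∀ b, InP (∑ e, T B b e * c e))
    (hB : M.IsBase B) (b e : E) : InP (uxT T z c B b e) := by
  by_cases he : e = z
  · rw [he, ux_new]; exact hc B hB b
  · rw [ux_old _ _ he]; exact hT.inP hB b e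

/-- The entries after the pivot on the new column. -/
theorem ux_piv (hT : U2 M T) (hz : z ∉ M.E) (hc : ∀ B, M.IsBase B → ∀ b, InP (∑ e, T B b e * c e))
    (hB : M.IsBase B) {g : E} (hg : g ∈ B) {v : R0} (hv : InG v) (h1 : uxT T z c B g z * v = 1)
    (x w : E) : InP (piv (uxT T z c B) g z v x w) := by
  have hp := ux_inP (z := z) hT hc hB
  have hgood := ux_good (c := c) hT hz hB hB
  simp only [piv, Matrix.of_apply]
  split_ifs with hxz hxg
  · exact InP.mul (Or.inr hv) (hp g w)
  · exact Or.inl rfl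
  by_cases h0 : uxT T z c B g w = 0
  · rw [h0, mul_zero, sub_zero]; exact hp x w
  by_cases hw : w = z
  · left
    rw [hw]
    linear_combination (-uxT T z c B x z) * h1
  by_cases hwB : w ∈ B
  · have hwg : w = g := by
      by_contra hne
      exact h0 (hgood.off g w hwB (Ne.symm hne))
    rw [hwg, hgood.off x g hg hxg, zero_sub]
    exact (((hp x z).mul (Or.inr hv)).mul (hp g g)).neg
  by_cases hx : x ∈ B
  · rw [ux_old _ _ hw] at h0
    have ha : Adj M B g w := (hT.ne_zero_iff hB hwB).1 h0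
    have h2 := hT.inv_mul hB ha
    have h3 : ∑ e, T (ex B g w) x e * c e = uxT T z c B x z -
        T B x w * T (ex B g w) w g * uxT T z c B g z := by
      simp only [ux_new, hT.pivot_old hB ha hx hxg, sub_mul, Finset.sum_sub_distrib,
        Finset.mul_sum, mul_assoc]
    have h4 := (((hc _ ha.2.2 x).mul (Or.inr hv)).mul (hT.inP hB g w)).neg
    rw [ux_old _ _ hw, ux_old _ _ hw]
    have h5 : T B x w - uxT T z c B x z * v * T B g w =
        -((∑ e, T (ex B g w) x e * c e) * v * T B g w) := by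
      rw [h3]
      linear_combination (-T B x w * uxT T z c B g z * v) * h2 - T B x w * h1
    rwa [h5]
  · left
    rw [hgood.row x hx, hgood.row x hx]
    ring

/-- Every base of the extension has a tableau over the partial field. -/
theorem ux_lift (hT : U2 M T) (hz : z ∉ M.E)
    (hc : ∀ B, M.IsBase B → ∀ b, InP (∑ e, T B b e * c e)) (hX : M.IsBase X) {S : Matrix E E ℚ}
    (hS : Good ((uxT T z c X).map uxQ) B S) :
    ∃ S', Good (uxT T z c X) B S' ∧ ∀ b e, InP (S' b e) := by
  by_cases hzB : z ∈ B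
  · have hzX : z ∉ X := fun h => hz (hX.subset_ground h)
    obtain ⟨y, hy, hyB, h0⟩ := ux_exch hS (ux_map (ux_good (c := c) hT hz hX hX) uxQ) hzB hzX
    have hp := ux_pivot hS hzB hyB h0
    have hz0 : z ∉ ex B z y := fun h => by
      rcases mem_ex.1 h with rfl | h
      · exact hzX hy
      · exact h.2 rfl
    have hB0 := ux_base hT hz hX hp hz0
    have hg := ux_good (c := c) hT hz hX hB0
    have h1 := congrFun (congrFun (hp.unique (ux_map hg uxQ)) y) z
    simp only [piv, Matrix.of_apply, if_true, hS.diag z hzB, mul_one, Matrix.map_apply] at h1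
    have h2 : InG (uxT T z c (ex B z y) y z) := (ux_inP hT hc hB0 y z).resolve_left fun e' =>
      inv_ne_zero h0 (by rw [h1, e', map_zero])
    obtain ⟨v, hv, h3⟩ := h2.exists_inv
    have hy0 : y ∈ ex B z y := mem_ex.2 (Or.inl rfl)
    have h4 := hg.pivot hy0 hz0 (by rw [mul_comm, h3]) h3
    rw [ex_ex hzB hyB] at h4
    exact ⟨_, h4, ux_piv hT hz hc hB0 hy0 hv h3⟩
  · have hB := ux_base hT hz hX hS hzB
    exact ⟨_, ux_good hT hz hX hB, ux_inP hT hc hB⟩

theorem U2.extend (hT : U2 M T) {z : E} (hz : z ∉ M.E) (c : E → R0)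
    (hc : ∀ B, M.IsBase B → ∀ b, InP (∑ e, T B b e * c e)) : ∃ M' T', Ext M T z c M' T' := by
  classical
  obtain ⟨X, hX⟩ := M.exists_isBase
  have hold : ∀ B, M.IsBase B → ∃ S, Good ((uxT T z c X).map uxQ) B S := fun B hB =>
    ⟨_, ux_map (ux_good hT hz hX hB) uxQ⟩
  let M' : Matroid E := Matroid.ofIsBaseOfFinite (E := insert z M.E) (toFinite _)
    (fun B => ∃ S, Good ((uxT T z c X).map uxQ) B S) ⟨X, hold X hX⟩
    (by
      rintro B B' ⟨S, hS⟩ ⟨S', hS'⟩ b ⟨hb, hb'⟩
      obtain ⟨y, hy, hyB, h0⟩ := ux_exch hS hS' hb hb'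
      exact ⟨y, ⟨hy, hyB⟩, _, ux_pivot hS hb hyB h0⟩)
    (by
      rintro B ⟨S, hS⟩ b hb
      by_contra hbE
      rw [mem_insert_iff, not_or] at hbE
      have h1 := congrFun (congrFun hS.left b) b
      rw [hS.diag b hb, Matrix.mul_apply] at h1
      refine one_ne_zero (h1.symm.trans (Finset.sum_eq_zero fun y _ => ?_))
      rw [Matrix.map_apply, ux_old _ _ hbE.1, hT.col hX y hbE.2, map_zero, mul_zero])
  have hM : ∀ B, M'.IsBase B ↔ ∃ S, Good ((uxT T z c X).map uxQ) B S := fun B => Iff.rfl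
  have hex : ∀ B, ∃ S', M'.IsBase B → Good (uxT T z c X) B S' ∧ ∀ b e, InP (S' b e) := fun B => by
    by_cases hB : M'.IsBase B
    · obtain ⟨S, hS⟩ := (hM B).1 hB
      obtain ⟨S', h⟩ := ux_lift hT hz hc hX hS
      exact ⟨S', fun _ => h⟩
    · exact ⟨0, fun h => absurd h hB⟩
  choose T' hT' using hex
  have heq : ∀ B, M.IsBase B → T' B = uxT T z c B := fun B hB =>
    (hT' B (hold B hB)).1.unique (ux_good hT hz hX hB)
  refine ⟨M', T', tabP_of_good T' (fun B hB => (hT' B hB).1) (fun B hB b e hb he ha => ?_)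
    (fun B hB b e hb he ha => ?_) InG.one, rfl, ?_, hold, fun B hB b e he => ?_, fun B hB b => ?_⟩
  · obtain ⟨S, hS⟩ := (hM _).1 ha.2.2
    have hb' : b ∉ ex B b e := fun h => by
      rcases mem_ex.1 h with rfl | h
      · exact he hb
      · exact h.2 rfl
    obtain ⟨y, hy, hyB, h0⟩ := ux_exch (ux_map (hT' B hB).1 uxQ) hS hb hb'
    have hye : y = e := (mem_ex.1 hy).resolve_right fun h => hyB h.1
    have h1 : T' B b e ≠ 0 := fun e' => h0 (by rw [Matrix.map_apply, hye, e', map_zero])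
    exact ⟨((hT' B hB).2 b e).resolve_left h1, h1⟩
  · by_contra h0
    have h1 := (((hT' B hB).2 b e).resolve_left h0).map_ne_zero uxQ
    exact ha ⟨hb, he, (hM _).2 ⟨_, ux_pivot (ux_map (hT' B hB).1 uxQ) hb he h1⟩⟩
  · have hco : M'.Coindep {z} := by
      refine Matroid.coindep_iff_exists'.2 ⟨⟨X, hold X hX, fun w hw => ⟨Or.inr (hX.subset_ground hw),
        fun e' => hz ?_⟩⟩, singleton_subset_iff.2 (mem_insert _ _)⟩
      exact (mem_singleton_iff.1 e') ▸ hX.subset_ground hw
    refine Matroid.ext_isBase (insert_sdiff_self_of_notMem hz) fun B _ => ?_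
    rw [hco.delete_isBase_iff, disjoint_singleton_right]
    exact ⟨fun ⟨⟨S, hS⟩, h⟩ => ux_base hT hz hX hS h,
      fun h => ⟨hold B h, fun h' => hz (h.subset_ground h')⟩⟩
  · rw [heq B hB, ux_old _ _ he]
  · rw [heq B hB, ux_new]

/-- The same matroid inside a larger type. -/
theorem U2.exists_inl (hT : U2 M T) (ι : Type) [Fintype ι] :
    ∃ (M' : Matroid (E ⊕ ι)) (T' : Set (E ⊕ ι) → Matrix (E ⊕ ι) (E ⊕ ι) R0), U2 M' T' ∧
      M'.E = Sum.inl '' M.E ∧ (∀ X, rk M' X = rk M (Sum.inl ⁻¹' X)) ∧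
      (∀ B, M'.IsBase B ↔ ∃ B0, M.IsBase B0 ∧ B = Sum.inl '' B0) ∧
      ∀ B b e, T' (Sum.inl '' B) (Sum.inl b) (Sum.inl e) = T B b e := by
  have hi : Function.Injective (Sum.inl : E → E ⊕ ι) := Sum.inl_injective
  have hp : ∀ B : Set E, Sum.inl ⁻¹' (Sum.inl '' B : Set (E ⊕ ι)) = B := fun B =>
    preimage_image_eq B hi
  have hb : ∀ B, (M.map (Sum.inl : E → E ⊕ ι) hi.injOn).IsBase B ↔
      ∃ B0, M.IsBase B0 ∧ B = Sum.inl '' B0 := fun B => M.map_isBase_iff _ _
  refine ⟨M.map Sum.inl hi.injOn, fun B => Matrix.fromBlocks (T (Sum.inl ⁻¹' B)) 0 0 0,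
    ⟨fun B hB p q => ?_, fun B hB p q => ?_, fun B hB p hp' => ?_, fun B B' hB hB' => ?_⟩, rfl,
    fun X => ?_, hb, fun B b e => by simp [hp]⟩
  · obtain ⟨B0, h0, rfl⟩ := (hb B).1 hB
    rcases p with b | b <;> rcases q with e | e
    · simpa [hp] using hT.mem B0 h0 b e
    all_goals simp
  · obtain ⟨B0, h0, rfl⟩ := (hb B).1 hB
    rcases p with b | b <;> rcases q with e | e
    · have h1 : ex (Sum.inl '' B0 : Set (E ⊕ ι)) (Sum.inl b) (Sum.inl e) = Sum.inl '' ex B0 b e := by
        rw [ex, ex, image_insert_eq, image_sdiff hi, image_singleton]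
      rw [hp, Matrix.fromBlocks_apply₁₁, hT.supp B0 h0, h1, hb, hi.mem_set_image]
      refine and_congr_right fun _ => ⟨fun h => ⟨_, h, rfl⟩, ?_⟩
      rintro ⟨B1, h2, h3⟩
      rwa [hi.image_injective h3]
    · have : ¬ (M.map (Sum.inl : E → E ⊕ ι) hi.injOn).IsBase
          (ex (Sum.inl '' B0) (Sum.inl b) (Sum.inr e)) := fun h => by
        simpa using h.subset_ground (mem_ex.2 (Or.inl rfl))
      simp only [Matrix.fromBlocks_apply₁₂, Matrix.zero_apply, ne_eq, not_true_eq_false, this,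
        and_false]
    all_goals simp
  · obtain ⟨B0, h0, rfl⟩ := (hb B).1 hB
    obtain ⟨b, hb0, rfl⟩ := hp'
    rw [hp, Matrix.fromBlocks_apply₁₁, hT.diag B0 h0 b hb0]
  · obtain ⟨B0, h0, rfl⟩ := (hb B).1 hB
    obtain ⟨B1, h1, rfl⟩ := (hb B').1 hB'
    simp [hp, Matrix.fromBlocks_multiply, hT.mul B0 B1 h0 h1]
  · rw [← rk_inter_ground, ← rk_inter_ground M, Matroid.map_ground, ← image_preimage_inter, rk, rk,
      M.eRk_map hi.injOn inter_subset_right]

end Pool.Agent.Lib.MP_10bdcf_co.G
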