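import Pool.Agent.Lib.MP_10bdcf_co.ZM2
import Pool.Agent.Lib.MP_10bdcf_co.UX

/-!
Independence of the chosen system off the bases and of the chosen spaces.
-/

namespace Pool.Agent.Lib.MP_10bdcf_co.G

open scoped Matroid
open Set

set_option linter.unusedSectionVars false

variable {E F : Type} [Fintype E] [Field F] {M N : Matroid E} {T T' : Set E → Matrix E E R0}
  {x y : R0 →+* F} {U W U' W' : Sb F E} {φ : Fm F E} {I J I' J' : Set E} {p : E} {v : F × F}

theorem U2.congr (h : U2 M T) (he : ∀ B, M.IsBase B → T' B = T B) : U2 M T' := by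
  refine ⟨fun B hB => ?_, fun B hB => ?_, fun B hB => ?_, fun B B' hB hB' => ?_⟩
  · rw [he B hB]; exact h.mem B hB
  · rw [he B hB]; exact h.supp B hB
  · rw [he B hB]; exact h.diag B hB
  · rw [he B hB, he B' hB']; exact h.mul B B' hB hB'

theorem Obj.congr (h : Obj M T x y U W) (he : ∀ B, M.IsBase B → T' B = T B) :
    Obj M T' x y U W := by
  refine ⟨h.tab.congr he, ⟨fun u hu B hB b => ?_, h.cyc.ext, h.cyc.inj⟩,
    ⟨fun w hw B hB e heE => ?_, h.coc.ext, h.coc.inj⟩, h.out⟩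
  · simpa only [spec, he B hB] using h.cyc.ker u hu B hB b
  · simpa only [spec, he B hB] using h.coc.row w hw B hB e heE

theorem dfm_congr (he : ∀ B, M.IsBase B → T' B = T B) (x : R0 →+* F) (v : F × F) :
    dfm M T' x v = dfm M T x v := by
  rw [dfm, dfm, he _ (bs_isBase M)]

theorem isCr_congr (he : ∀ B, M.IsBase B → T' B = T B) {m : Mo} : IsCr M T' m ↔ IsCr M T m := by
  refine exists_congr fun B => exists₄_congr fun g h e f => and_congr_right fun hs => ?_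
  rw [he B hs.base]

theorem kv_congr (he : ∀ B, M.IsBase B → T' B = T B) : Kv M T' x v ↔ Kv M T x v := by
  exact forall_congr' fun m => by rw [isCr_congr he]

theorem Up.congr (h : Up M T) (he : ∀ B, M.IsBase B → T' B = T B) : Up M T' := by
  intro F _ x U W ho φ hφ
  rw [show dfm M T' x = dfm M T x from funext (dfm_congr he x)]
  exact h F x U W (ho.congr fun B hB => (he B hB).symm) φ hφ

theorem OneT.congr (h : OneT M T) (he : ∀ B, M.IsBase B → T' B = T B) : OneT M T' := by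
  exact fun h1 m n hm hn => h h1 m n ((isCr_congr he).1 hm) ((isCr_congr he).1 hn)

theorem Ex.congr (h : Ex M T) (he : ∀ B, M.IsBase B → T' B = T B) : Ex M T' := by
  exact fun hR F _ x y U W ht ho => h hR F x y U W ht (ho.congr fun B hB => (he B hB).symm)

theorem GoodT.congr (h : GoodT M T) (he : ∀ B, M.IsBase B → T' B = T B) : GoodT M T' := by
  exact ⟨h.up.congr he, h.one.congr he, h.ex.congr he⟩

theorem mnT_mnT (I J I' J' : Set E) (T : Set E → Matrix E E R0) :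
    mnT I' J' (mnT I J T) = mnT (I ∪ I') (J ∪ J') T := by
  funext B
  ext b e
  simp only [mnT, delT, conT, Matrix.of_apply, mem_union, not_or]
  rw [union_assoc, union_comm I' I]
  by_cases h1 : e ∈ J <;> by_cases h2 : e ∈ J' <;> by_cases h3 : e ∈ I <;> by_cases h4 : e ∈ I' <;>
    by_cases h5 : b ∈ I <;> by_cases h6 : b ∈ I' <;> simp [h1, h2, h3, h4, h5, h6]

theorem mnT_empty (T : Set E → Matrix E E R0) : mnT ∅ ∅ T = T := by
  funext B
  ext b e
  simp [mnT, delT, conT]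

theorem mnT_apply (T : Set E → Matrix E E R0) (K : Set E) {b e : E} (hb : b ∉ I) (he : e ∉ I)
    (he' : e ∉ J) : mnT I J T K b e = T (K ∪ I) b e := by
  rw [mnT, delT_apply _ _ _ he', conT_apply _ _ hb he]

/-- A smaller minor is a minor of a larger one. -/
theorem Op.mn_sdiff (ho : Op M I' J') (hI : I ⊆ I') (hJ : J ⊆ J') :
    mn (mn M I J) (I' \ I) (J' \ J) = mn M I' J' ∧
      mnT (I' \ I) (J' \ J) (mnT I J T) = mnT I' J' T := by
  rw [(ho.mono hI hJ).mn_mn (ho.sdiff hI hJ), mnT_mnT, union_sdiff_cancel hI,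
    union_sdiff_cancel hJ]
  exact ⟨rfl, rfl⟩

theorem Kv.minor2 (h : Kv (mn M I J) (mnT I J T) x v) (ho : Op M I' J') (hI : I ⊆ I')
    (hJ : J ⊆ J') : Kv (mn M I' J') (mnT I' J' T) x v := by
  have := h.minor (ho.sdiff hI hJ)
  rwa [(ho.mn_sdiff (T := T) hI hJ).2, (ho.mn_sdiff (T := T) hI hJ).1] at this

theorem HasR.of_minor2 (h : HasR (mn M I' J')) (ho : Op M I' J') (hI : I ⊆ I') (hJ : J ⊆ J') :
    HasR (mn M I J) := by
  refine HasR.of_minor (ho.sdiff hI hJ) ?_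
  rwa [(ho.mn_sdiff (T := fun _ => 0) hI hJ).1]

theorem HasSite.of_minor2 (h : HasSite (mn M I' J')) (ho : Op M I' J') (hI : I ⊆ I')
    (hJ : J ⊆ J') : HasSite (mn M I J) := by
  refine HasSite.of_minor (ho.sdiff hI hJ) ?_
  rwa [(ho.mn_sdiff (T := fun _ => 0) hI hJ).1]

theorem kv_of_noSite (h : ¬ HasSite M) : Kv M T x v := by
  rintro m ⟨B, g, k, e, f, hs, -⟩
  exact absurd ⟨B, g, k, e, f, hs⟩ h

theorem xg3_match (h : Obj M T x y U W) (h' : Obj M T x y U' W') {w : E → F} (hw : w ∈ W) :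
    ∃ w' ∈ W', ∀ e ∈ M.E, w' e = w e := by
  have hB := bs_isBase M
  obtain ⟨w', hw', k⟩ := h'.coc.ext _ hB w
  refine ⟨w', hw', fun e he => ?_⟩
  rw [h'.coc.row w' hw' _ hB e he, h.coc.row w hw _ hB e he]
  refine Finset.sum_congr rfl fun b _ => ?_
  by_cases hb : b ∈ bs M
  · rw [k b hb]
  · rw [(h.tab.spec y).row hB hb, mul_zero, mul_zero]

theorem Obj.match_left (h : Obj M T x y U W) (h' : Obj M T x y U' W') {u : E → F} (hu : u ∈ U) :
    ∃ u' ∈ U', ∀ e ∈ M.E, u' e = u e := by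
  exact xg3_match h.dual h'.dual hu

theorem Obj.match_right (h : Obj M T x y U W) (h' : Obj M T x y U' W') {w : E → F} (hw : w ∈ W) :
    ∃ w' ∈ W', ∀ e ∈ M.E, w' e = w e := by
  exact xg3_match h h' hw

theorem xg3_proj {S : Set E} (hi : ∀ u ∈ U, (∀ e ∈ S, u e = 0) → u = 0) :
    ∃ P : (E → F) →ₗ[F] (E → F), ∀ u ∈ U, ∀ u', (∀ e ∈ S, u' e = u e) → P u' = u := by
  let r : (E → F) →ₗ[F] (S → F) := LinearMap.funLeft F F Subtype.val
  obtain ⟨g, hg⟩ := (r ∘ₗ U.subtype).exists_leftInverse_of_injective (LinearMap.ker_eq_bot'.2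
    fun u hu => Subtype.ext (hi u u.2 fun e he => congrFun hu ⟨e, he⟩))
  refine ⟨U.subtype ∘ₗ g ∘ₗ r, fun u hu u' k => ?_⟩
  have k1 : r u' = r u := funext fun e => k e e.2
  exact (congrArg (fun z => U.subtype (g z)) k1).trans
    (congrArg Subtype.val (LinearMap.congr_fun hg ⟨u, hu⟩))

theorem xg3_dfm (hT : U2 M T) (x : R0 →+* F) (v : F × F) {u u' w w' : E → F}
    (a : ∀ e ∈ M.E, u' e = u e) (b : ∀ e ∈ M.E, w' e = w e) :
    dfm M T x v u' w' = dfm M T x v u w := by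
  have hB := bs_isBase M
  simp only [dfm, mf_apply, Matrix.map_apply]
  refine Finset.sum_congr rfl fun g _ => Finset.sum_congr rfl fun e _ => ?_
  by_cases hg : g ∈ bs M
  · by_cases he : e ∈ M.E
    · rw [a e he, b g (hB.subset_ground hg)]
    · simp [hT.col hB g he]
  · simp [hT.row hB hg]

theorem xg3_move (h : Obj M T x y U W) (h' : Obj M T x y U' W') {φ' : Fm F E}
    (hr : ∀ u ∈ U, ∀ u' ∈ U', ∀ w ∈ W, ∀ w' ∈ W', (∀ e ∈ M.E, u' e = u e) →
      (∀ e ∈ M.E, w' e = w e) → φ' u' w' = φ u w) :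
    (Val φ' U' W' → Val φ U W) ∧ (Gauge φ' U' W' → Gauge φ U W) := by
  refine ⟨fun hv u hu w hw hd => ?_, fun ⟨γ, hγ⟩ => ⟨γ, fun u hu w hw => ?_⟩⟩
  all_goals
    obtain ⟨u', hu', a⟩ := h.match_left h' hu
    obtain ⟨w', hw', b⟩ := h.match_right h' hw
    rw [← hr u hu u' hu' w hw w' hw' a b]
  · exact hv u' hu' w' hw' (h'.pair.dis hu' hw' fun z hz => by rw [a z hz, b z hz]; exact hd z)
  · rw [hγ u' hu' w' hw', gf_apply, gf_apply]
    refine Finset.sum_congr rfl fun e _ => ?_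
    by_cases he : e ∈ M.E
    · rw [a e he, b e he]
    · have k1 : u e * w e = 0 := mul_eq_zero.2 ((h.out e he).imp (· u hu) (· w hw))
      have k2 : u' e * w' e = 0 := mul_eq_zero.2 ((h'.out e he).imp (· u' hu') (· w' hw'))
      rw [k1, k2]

theorem xg3_iff (h : Obj M T x y U W) (h' : Obj M T x y U' W') {φ' : Fm F E}
    (hr : ∀ u ∈ U, ∀ u' ∈ U', ∀ w ∈ W, ∀ w' ∈ W', (∀ e ∈ M.E, u' e = u e) →
      (∀ e ∈ M.E, w' e = w e) → φ' u' w' = φ u w) :
    (Val φ' U' W' ↔ Val φ U W) ∧ (Gauge φ' U' W' ↔ Gauge φ U W) :=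
  have k := xg3_move h' h fun u' hu' u hu w' hw' w hw a b =>
    (hr u hu u' hu' w hw w' hw' (fun e he => (a e he).symm) fun e he => (b e he).symm).symm
  ⟨⟨(xg3_move h h' hr).1, k.1⟩, (xg3_move h h' hr).2, k.2⟩

/-- Forms can be moved between two pairs of spaces of the same system. -/
theorem Obj.transfer (h : Obj M T x y U W) (h' : Obj M T x y U' W') (φ : Fm F E) :
    ∃ φ' : Fm F E, (Val φ' U' W' ↔ Val φ U W) ∧ (Gauge φ' U' W' ↔ Gauge φ U W) ∧
      ∀ v, Gauge (φ' - dfm M T x v) U' W' ↔ Gauge (φ - dfm M T x v) U W := by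
  obtain ⟨P, hP⟩ := xg3_proj h.cyc.inj
  obtain ⟨Q, hQ⟩ := xg3_proj h.coc.inj
  have k : ∀ u ∈ U, ∀ u' ∈ U', ∀ w ∈ W, ∀ w' ∈ W', (∀ e ∈ M.E, u' e = u e) →
      (∀ e ∈ M.E, w' e = w e) → φ.compl₁₂ P Q u' w' = φ u w := fun u hu u' _ w hw w' _ a b => by
    rw [LinearMap.compl₁₂_apply, hP u hu u' a, hQ w hw w' b]
  refine ⟨φ.compl₁₂ P Q, (xg3_iff h h' k).1, (xg3_iff h h' k).2,
    fun v => (xg3_iff h h' fun u hu u' hu' w hw w' hw' a b => ?_).2⟩
  simp only [LinearMap.sub_apply]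
  rw [k u hu u' hu' w hw w' hw' a b, xg3_dfm h.tab x v a b]

theorem up_of_one (h : ∀ (F : Type) [Field F] (x : R0 →+* F), ∃ U W : Sb F E, Obj M T x x U W ∧
    ∀ φ, Val φ U W → ∃ v, Gauge (φ - dfm M T x v) U W) : Up M T := by
  intro F _ x U W ho φ hφ
  obtain ⟨U0, W0, ho0, H⟩ := h F x
  obtain ⟨φ', a, -, c⟩ := ho.transfer ho0 φ
  obtain ⟨v, hv⟩ := H φ' (a.2 hφ)
  exact ⟨v, (c v).1 hv⟩

theorem ex_of_one (h : HasR M → ∀ (F : Type) [Field F] (x y : R0 →+* F), Tw x y →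
    ∃ U W : Sb F E, Obj M T x y U W ∧ ∃ φ, Val φ U W ∧ ¬ Gauge φ U W) : Ex M T := by
  intro hR F _ x y U W ht ho
  obtain ⟨U0, W0, ho0, φ, a, b⟩ := h hR F x y ht
  obtain ⟨φ', c, d, -⟩ := ho0.transfer ho φ
  exact ⟨φ', c.2 a, fun k => b (d.1 k)⟩

theorem v3L_of_delete (h : V3L (N ＼ {p})) (hp : rk N (N.E \ {p}) = rk N N.E) : V3L N := by
  intro X hX
  have h1 := h (X \ {p}) (sdiff_subset_sdiff_left hX)
  have h2 := lam_add (N ＼ {p}) (X \ {p})
  have h3 := lam_add N X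
  have h4 : rk (N ＼ {p}) (N ＼ {p}).E = rk N N.E := (rk_delete disjoint_sdiff_left).trans hp
  have h5 : rk (N ＼ {p}) (X \ {p}) ≤ rk N X := by
    rw [rk_delete disjoint_sdiff_left]
    exact rk_mono N sdiff_subset
  have h6 : rk (N ＼ {p}) ((N ＼ {p}).E \ (X \ {p})) ≤ rk N (N.E \ X) := by
    rw [rk_delete']
    exact rk_mono N fun z hz => ⟨hz.1.1.1, fun k => hz.1.2 ⟨k, hz.2⟩⟩
  omega

/-- Deleting a set of loops and parallel copies. -/
theorem par_set (hJ : ∀ e ∈ J, ∃ f, f ∉ J ∧ e ∈ N.closure {f}) :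
    Op N ∅ J ∧ (V3L N → V3L (mn N ∅ J)) ∧ (HasR N → HasR (mn N ∅ J)) := by
  induction J, J.toFinite using Set.Finite.induction_on with
  | empty => rw [mn_empty]; exact ⟨op_empty N, id, id⟩
  | @insert e s he _ ih =>
    obtain ⟨a, b, c⟩ := ih fun z hz =>
      (hJ z (Or.inr hz)).imp fun f hf => ⟨fun k => hf.1 (Or.inr k), hf.2⟩
    obtain ⟨f, hf, hp⟩ := hJ e (Or.inl rfl)
    have hne : e ≠ f := fun k => hf (Or.inl k.symm)
    have hp' : e ∈ (mn N ∅ s).closure {f} := by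
      rw [mn_empty_left, Matroid.delete_closure_eq,
        (disjoint_singleton_left.2 fun k => hf (Or.inr k)).sdiff_eq_left]
      exact ⟨hp, he⟩
    have k1 := a.union (op_par hne hp')
    have k2 := a.mn_mn (op_par hne hp')
    rw [empty_union, union_singleton] at k1 k2
    rw [← k2]
    refine ⟨k1, fun hv => ?_, fun hr => (c hr).delete_par hne hp'⟩
    rw [mn_empty_left (mn N ∅ s)]
    exact (b hv).delete hne hp'

end Pool.Agent.Lib.MP_10bdcf_co.G
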