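import Pool.Agent.Lib.MP_10bdcf_co.XG2
import Pool.Agent.Lib.MP_10bdcf_co.XG3
import Pool.Agent.Lib.MP_10bdcf_co.UP

/-!
Traces of hyperplanes and positions of points on a line.
-/

namespace Pool.Agent.Lib.MP_10bdcf_co.G

open scoped Matroid
open Set

set_option linter.unusedSectionVars false

variable {E F : Type} [Fintype E] [Field F] {N : Matroid E} {T : Set E → Matrix E E R0}
  {x : R0 →+* F} {I J K : Set E} {s1 s2 h h' p b z : E} {t t' w : R0} {v : F × F} {r : ℕ}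

/-- A hyperplane meets the line `s1 s2` in the point `s1 - t s2`. -/
def Tr (N : Matroid E) (T : Set E → Matrix E E R0) (s1 s2 : E) (t : R0) : Prop :=
  InG t ∧ ∃ K b, N.IsBase K ∧ T K b s2 ≠ 0 ∧ T K b s1 = t * T K b s2

/-- The element `h` is the point `s1 - t s2`. -/
def Pos (N : Matroid E) (T : Set E → Matrix E E R0) (s1 s2 h : E) (t : R0) : Prop :=
  InG t ∧ ∃ l, InG l ∧ ∀ K, N.IsBase K → ∀ b, T K b h = l * (T K b s1 - t * T K b s2)

theorem tr_congr {T' : Set E → Matrix E E R0} (he : ∀ B, N.IsBase B → T' B = T B) :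
    Tr N T' s1 s2 t ↔ Tr N T s1 s2 t := by
  constructor
  · rintro ⟨h1, K, b, hK, h2, h3⟩
    exact ⟨h1, K, b, hK, he K hK ▸ h2, he K hK ▸ h3⟩
  · rintro ⟨h1, K, b, hK, h2, h3⟩
    exact ⟨h1, K, b, hK, (he K hK).symm ▸ h2, (he K hK).symm ▸ h3⟩

theorem xd3_mul_ne {a c : R0} (ha : InG a) (hc : c ≠ 0) : a * c ≠ 0 := fun h0 =>
  hc (ha.isUnit.mul_right_eq_zero.1 h0)

theorem xd3_mnT {e : E} (h0 : mnT I J T K b e ≠ 0) : b ∉ I ∧ e ∉ I ∧ e ∉ J := by
  refine ⟨fun h1 => h0 ?_, fun h1 => h0 ?_, fun h1 => h0 ?_⟩ <;> simp [mnT, delT, conT, h1]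

theorem xd3_zero (hT : U2 N T) (hK : N.IsBase K) (hb : b ∈ K) {e : E} (he : e ∈ N.E) :
    T K b e = 0 ↔ e ∈ N.closure (K \ {b}) := by
  have h1 := hT.d1_ne (e := e) hK hb
  have h2 := um_rk_del hK hb
  rw [union_singleton] at h1
  constructor
  · intro h0
    by_contra hc
    exact h1.2 (by rw [rk_insert_of_notMem he hc, h2]) h0
  · intro hc
    by_contra h0
    have := h1.1 h0
    rw [rk_insert_of_mem hc] at this
    omega

/-- A row that vanishes on a set vanishes on its closure. -/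
theorem xd3_cl (hT : U2 N T) (hK : N.IsBase K) {X : Set E} (hh : h ∈ N.closure X)
    (h0 : ∀ e ∈ X, T K b e = 0) : T K b h = 0 := by
  by_cases hb : b ∈ K
  · rw [xd3_zero hT hK hb (N.closure_subset_ground X hh)]
    rw [← N.closure_inter_ground] at hh
    exact N.closure_subset_closure_of_subset_closure
      (fun e he => (xd3_zero hT hK hb he.2).1 (h0 e he.1)) hh
  · exact hT.row hK hb h

/-- A row that separates a point from a set. -/
theorem xd3_row (hT : U2 N T) {X : Set E} (hE : h ∈ N.E) (hh : h ∉ N.closure X) :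
    ∃ K, N.IsBase K ∧ T K h h = 1 ∧ ∀ e ∈ X, T K h e = 0 := by
  obtain ⟨Y, hY⟩ := N.exists_isBasis' X
  rw [← hY.closure_eq_closure] at hh
  have hY' : h ∉ Y := fun h' => hh (N.subset_closure Y hY.indep.subset_ground h')
  obtain ⟨K, hK, hs⟩ := ((hY.indep.insert_indep_iff_of_notMem hY').2 ⟨hE, hh⟩).exists_isBase_superset
  refine ⟨K, hK, hT.diag K hK h (hs (mem_insert _ _)), fun e he => ?_⟩
  by_cases heE : e ∈ N.E
  · refine xd3_cl hT hK (X := Y) ?_ fun z hz =>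
      hT.off hK (hs (mem_insert_of_mem _ hz)) fun e' => hY' (e' ▸ hz)
    rw [hY.closure_eq_closure]
    exact N.inter_ground_subset_closure X ⟨he, heE⟩
  · exact hT.col hK h heE

theorem xd3_ne (hr : rk N {s1, s2} = 2) : s1 ≠ s2 := by
  rintro rfl
  have := rk_singleton_le N s1
  rw [pair_eq_singleton] at hr
  omega

theorem xd3_one (hr : rk N {s1, s2} = 2) : rk N {s2} = 1 := by
  have h1 := rk_singleton_le N s2
  have h2 := rk_insert_le N s1 {s2}
  omega

/-- A base through two independent points. -/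
theorem xd3_base (hT : U2 N T) (hr : rk N {s1, s2} = 2) : ∃ K, N.IsBase K ∧ s1 ∈ K ∧ s2 ∈ K ∧
    T K s1 s1 = 1 ∧ T K s1 s2 = 0 ∧ T K s2 s1 = 0 ∧ T K s2 s2 = 1 := by
  have hne := xd3_ne hr
  obtain ⟨K, hK, hs⟩ :=
    (indep_iff_rk.2 (hr.trans (ncard_pair hne).symm)).exists_isBase_superset
  have h1 : s1 ∈ K := hs (by simp)
  have h2 : s2 ∈ K := hs (by simp)
  exact ⟨K, hK, h1, h2, hT.diag K hK s1 h1, hT.off hK h2 hne, hT.off hK h1 hne.symm,
    hT.diag K hK s2 h2⟩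

theorem xd3_mem (hr : rk N {s1, s2} = 2) : s1 ∈ N.E ∧ s2 ∈ N.E := by
  have := (indep_iff_rk.2 (hr.trans (ncard_pair (xd3_ne hr)).symm)).subset_ground
  exact ⟨this (by simp), this (by simp)⟩

/-- Two points are independent if a row separates them. -/
theorem xd3_two (hT : U2 N T) (hK : N.IsBase K) (h1 : rk N {h'} = 1) (h2 : T K b h ≠ 0)
    (h3 : T K b h' = 0) : rk N {h, h'} = 2 := by
  have hE : h ∈ N.E := by_contra fun hc => h2 (hT.col hK b hc)
  have : h ∉ N.closure {h'} := fun hc => h2 (xd3_cl hT hK hc fun e he => by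
    rw [mem_singleton_iff.1 he, h3])
  rw [rk_insert_of_notMem hE this, h1]

/-- The coordinates of a point of the line. -/
theorem xd3_coord (hT : U2 N T) (hr : rk N {s1, s2} = 2) (h0 : h ∈ N.closure {s1, s2}) :
    ∃ α β, InP α ∧ InP β ∧ ∀ K, N.IsBase K → ∀ b, T K b h = T K b s1 * α + T K b s2 * β := by
  obtain ⟨K0, hK0, m1, m2, -⟩ := xd3_base hT hr
  refine ⟨T K0 s1 h, T K0 s2 h, hT.inP hK0 _ _, hT.inP hK0 _ _, fun K hK b => ?_⟩
  rw [hT.mul_apply hK0 hK b h]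
  refine Finset.sum_eq_add_of_mem s1 s2 (Finset.mem_univ _) (Finset.mem_univ _) (xd3_ne hr)
    fun c _ hc => ?_
  rw [xd3_cl hT hK0 h0 (b := c), mul_zero]
  rintro e (rfl | rfl)
  exacts [hT.off hK0 m1 hc.1, hT.off hK0 m2 hc.2]

theorem Tr.of_minor (ho : Op N I J) (ht : Tr (mn N I J) (mnT I J T) s1 s2 t) : Tr N T s1 s2 t := by
  obtain ⟨h1, K, b, hK, h2, h3⟩ := ht
  have h4 : mnT I J T K b s1 ≠ 0 := by rw [h3]; exact xd3_mul_ne h1 h2
  obtain ⟨a1, a2, a3⟩ := xd3_mnT h2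
  obtain ⟨-, a4, a5⟩ := xd3_mnT h4
  rw [mnT_apply T K a1 a2 a3] at h2 h3
  rw [mnT_apply T K a1 a4 a5] at h3
  exact ⟨h1, K ∪ I, b, (ho.isBase_iff.1 hK).1, h2, h3⟩

theorem Tr.of_minor2 {I' J' : Set E} (ho : Op N I' J') (hI : I ⊆ I') (hJ : J ⊆ J')
    (ht : Tr (mn N I' J') (mnT I' J' T) s1 s2 t) : Tr (mn N I J) (mnT I J T) s1 s2 t := by
  obtain ⟨e1, e2⟩ := ho.mn_sdiff (T := T) hI hJ
  rw [← e1, ← e2] at ht
  exact ht.of_minor (ho.sdiff hI hJ)

theorem Pos.minor (hT : U2 N T) (ho : Op N I J) (hd : Disjoint {s1, s2, h} (I ∪ J))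
    (hp : Pos N T s1 s2 h t) : Pos (mn N I J) (mnT I J T) s1 s2 h t := by
  obtain ⟨h1, l, h2, h3⟩ := hp
  have a1 := disjoint_left.1 hd (show s1 ∈ ({s1, s2, h} : Set E) by simp)
  have a2 := disjoint_left.1 hd (show s2 ∈ ({s1, s2, h} : Set E) by simp)
  have a3 := disjoint_left.1 hd (show h ∈ ({s1, s2, h} : Set E) by simp)
  rw [mem_union, not_or] at a1 a2 a3
  refine ⟨h1, l, h2, fun K hK b => ?_⟩
  by_cases hb : b ∈ I
  · have z : ∀ e, mnT I J T K b e = 0 := fun e => by_contra fun hc => (xd3_mnT hc).1 hb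
    simp [z]
  · rw [mnT_apply T K hb a1.1 a1.2, mnT_apply T K hb a2.1 a2.2, mnT_apply T K hb a3.1 a3.2]
    exact h3 _ (ho.isBase_iff.1 hK).1 b

theorem Pos.minor2 {I' J' : Set E} (hT : U2 N T) (ho : Op N I' J') (hI : I ⊆ I') (hJ : J ⊆ J')
    (hd : Disjoint {s1, s2, h} (I' ∪ J')) (hp : Pos (mn N I J) (mnT I J T) s1 s2 h t) :
    Pos (mn N I' J') (mnT I' J' T) s1 s2 h t := by
  obtain ⟨e1, e2⟩ := ho.mn_sdiff (T := T) hI hJ
  rw [← e1, ← e2]
  exact hp.minor (hT.minor (ho.mono hI hJ)) (ho.sdiff hI hJ)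
    (hd.mono_right (union_subset_union sdiff_subset sdiff_subset))

theorem Pos.ranks (hT : U2 N T) (hr : rk N {s1, s2} = 2) (hp : Pos N T s1 s2 h t) :
    h ∈ N.closure {s1, s2} ∧ rk N {h, s1} = 2 ∧ rk N {h, s2} = 2 := by
  obtain ⟨h1, l, h2, h3⟩ := hp
  obtain ⟨K, hK, -, -, e1, e2, e3, e4⟩ := xd3_base hT hr
  have a1 : T K s1 h ≠ 0 := by
    rw [h3 K hK, e1, e2]
    simpa using h2.ne_zero
  have a2 : T K s2 h ≠ 0 := by
    rw [h3 K hK, e3, e4, mul_one, zero_sub]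
    exact (h2.mul h1.neg).ne_zero
  refine ⟨by_contra fun hc => ?_, xd3_two hT hK (xd3_one (pair_comm s1 s2 ▸ hr)) a2 e3,
    xd3_two hT hK (xd3_one hr) a1 e2⟩
  obtain ⟨K', hK', b1, b2⟩ := xd3_row hT (by_contra fun hc => a1 (hT.col hK _ hc)) hc
  rw [h3 K' hK', b2 s1 (by simp), b2 s2 (by simp)] at b1
  simp at b1

/-- A row through the point `h`. -/
theorem xd3_hit (hT : U2 N T) (hr : rk N {s1, s2} = 2) (hp : Pos N T s1 s2 h t) :
    ∃ K, N.IsBase K ∧ T K s2 s2 = 1 ∧ T K s2 s1 = t ∧ T K s2 h = 0 := by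
  obtain ⟨K, hK, -, -, -, -, e3, e4⟩ := xd3_base hT (hp.ranks hT hr).2.2
  obtain ⟨-, l, h2, h3⟩ := hp
  refine ⟨K, hK, e4, ?_, e3⟩
  rw [h3 K hK, e4, mul_one] at e3
  exact sub_eq_zero.1 (h2.isUnit.mul_right_eq_zero.1 e3)

theorem Pos.tr (hT : U2 N T) (hr : rk N {s1, s2} = 2) (hp : Pos N T s1 s2 h t) :
    Tr N T s1 s2 t := by
  obtain ⟨K, hK, e1, e2, -⟩ := xd3_hit hT hr hp
  exact ⟨hp.1, K, s2, hK, by rw [e1]; exact one_ne_zero, by rw [e1, e2, mul_one]⟩

theorem exists_pos (hT : U2 N T) (hr : rk N {s1, s2} = 2) (h0 : h ∈ N.closure {s1, s2})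
    (h1 : rk N {h, s1} = 2) (h2 : rk N {h, s2} = 2) : ∃ t, Pos N T s1 s2 h t := by
  obtain ⟨α, β, hα, hβ, e⟩ := xd3_coord hT hr h0
  have a1 : InG α := hα.resolve_left fun hc => by
    obtain ⟨K, hK, -, -, e1, e2, -⟩ := xd3_base hT h2
    rw [e K hK, hc, e2] at e1
    simp at e1
  have a2 : InG β := hβ.resolve_left fun hc => by
    obtain ⟨K, hK, -, -, e1, e2, -⟩ := xd3_base hT h1
    rw [e K hK, hc, e2] at e1
    simp at e1
  obtain ⟨α', a3, a4⟩ := a1.exists_inv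
  refine ⟨-(α' * β), (a3.mul a2).neg, α, a1, fun K hK b => ?_⟩
  rw [e K hK]
  linear_combination (-(T K b s2 * β)) * a4

/-- A row that vanishes at a point of the line gives the position of the point. -/
theorem pos_of_row (hT : U2 N T) (hr : rk N {s1, s2} = 2) (h0 : h ∈ N.closure {s1, s2})
    (hn : rk N {h} = 1) (hK : N.IsBase K) (ht : InG t) (h1 : T K b s2 ≠ 0)
    (h2 : T K b s1 = t * T K b s2) (h3 : T K b h = 0) : Pos N T s1 s2 h t := by
  obtain ⟨α, β, hα, -, e⟩ := xd3_coord hT hr h0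
  have a0 : β = -(t * α) := by
    have hu := ((hT.inP hK b s2).resolve_left h1).isUnit
    rw [e K hK, h2] at h3
    have : T K b s2 * (β + t * α) = 0 := by linear_combination h3
    exact eq_neg_of_add_eq_zero_left (hu.mul_right_eq_zero.1 this)
  have a1 : InG α := hα.resolve_left fun hc => by
    obtain ⟨K', hK', hs⟩ :=
      (indep_iff_rk.2 (hn.trans (ncard_singleton h).symm)).exists_isBase_superset
    have := hT.diag K' hK' h (hs rfl)
    rw [e K' hK', a0, hc] at this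
    simp at this
  refine ⟨ht, α, a1, fun K' hK' b' => ?_⟩
  rw [e K' hK', a0]
  ring

theorem Pos.unique (hT : U2 N T) (hr : rk N {s1, s2} = 2) (hp : Pos N T s1 s2 h t)
    (hp' : Pos N T s1 s2 h t') : t = t' := by
  obtain ⟨K, hK, e1, e2, e3⟩ := xd3_hit hT hr hp
  obtain ⟨-, l, h2, h3⟩ := hp'
  rw [h3 K hK, e1, e2, mul_one] at e3
  exact sub_eq_zero.1 (h2.isUnit.mul_right_eq_zero.1 e3)

theorem Pos.inP (hT : U2 N T) (hr : rk N {s1, s2} = 2) (hp : Pos N T s1 s2 h t)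
    (hp' : Pos N T s1 s2 h' t') : InP (t - t') := by
  obtain ⟨K, hK, e1, e2, -⟩ := xd3_hit hT hr hp
  obtain ⟨-, l, h2, h3⟩ := hp'
  have := hT.inP hK s2 h'
  rw [h3 K hK, e1, e2, mul_one] at this
  exact InP.of_mul_left h2 this

theorem Pos.par (hT : U2 N T) (hr : rk N {s1, s2} = 2) (hp : Pos N T s1 s2 h t)
    (hp' : Pos N T s1 s2 h' t) : h ∈ N.closure {h'} := by
  by_contra hc
  obtain ⟨K, hK, b1, b2⟩ := xd3_row hT (N.closure_subset_ground _ (hp.ranks hT hr).1) hc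
  obtain ⟨-, l, -, h3⟩ := hp
  obtain ⟨-, l', h2, h4⟩ := hp'
  have := b2 h' rfl
  rw [h4 K hK] at this
  rw [h3 K hK, h2.isUnit.mul_right_eq_zero.1 this] at b1
  simp at b1

theorem Pos.rk_two (hT : U2 N T) (hr : rk N {s1, s2} = 2) (hp : Pos N T s1 s2 h t)
    (hp' : Pos N T s1 s2 h' t') (hne : t ≠ t') : rk N {h, h'} = 2 := by
  obtain ⟨K, hK, e1, e2, e3⟩ := xd3_hit hT hr hp'
  refine xd3_two hT hK (xd3_one (pair_comm h' s1 ▸ (hp'.ranks hT hr).2.1)) ?_ e3
  obtain ⟨-, l, h2, h3⟩ := hp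
  rw [h3 K hK, e1, e2, mul_one]
  exact xd3_mul_ne h2 (sub_ne_zero.2 hne.symm)

theorem Pos.hasSite (hT : U2 N T) (hr : rk N {s1, s2} = 2) (hp : Pos N T s1 s2 h t)
    (hp' : Pos N T s1 s2 h' t') (hne : t ≠ t') : HasSite N := by
  obtain ⟨a1, a2, a3⟩ := hp.ranks hT hr
  obtain ⟨b1, b2, b3⟩ := hp'.ranks hT hr
  have c := hp.rk_two hT hr hp' hne
  have hS : ({s1, s2, h, h'} : Set E) ⊆ N.closure {s1, s2} := by
    have := N.subset_closure {s1, s2} (pair_subset (xd3_mem hr).1 (xd3_mem hr).2)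
    rintro z (rfl | rfl | rfl | rfl)
    exacts [this (by simp), this (by simp), a1, b1]
  obtain ⟨I, hl, -⟩ := exists_line (M := N) (S := {s1, s2, h, h'}) (X := ∅)
    (hS.trans (N.closure_subset_ground _)) (by
      have h1 := rk_mono N hS
      have h2 := rk_mono N (show ({s1, s2} : Set E) ⊆ {s1, s2, h, h'} by
        rintro z (rfl | rfl) <;> simp)
      rw [rk_closure] at h1
      rw [empty_union, rk_empty]
      omega) (by
      rw [rk_empty]
      rintro p (rfl | rfl | rfl | rfl) q (rfl | rfl | rfl | rfl) hpq <;> rw [empty_union] <;>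
        first | exact absurd rfl hpq | assumption | (rw [pair_comm]; assumption))
  exact ⟨_, _, _, _, _, hl.site hT (g := s1) (h := s2) (e := h) (f := h') (by simp) (by simp)
    (by simp) (by simp) (xd3_ne hr) (xd3_ne a2).symm (xd3_ne b2).symm (xd3_ne a3).symm
    (xd3_ne b3).symm (xd3_ne c)⟩

/-- A tangent vector that kills the cross ratios kills the quotients of traces. -/
theorem Kv.tr (hv : Kv N T x v) (hT : U2 N T) (h1 : Tr N T s1 s2 t) (h2 : Tr N T s1 s2 t') :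
    x t' * der x v t = x t * der x v t' := by
  obtain ⟨U, W, ho, -⟩ := hT.exists_obj x x
  obtain ⟨γ, hγ⟩ := ho.k_iff.2 hv
  have key : ∀ K, N.IsBase K → ∀ b e, der x v (T K b e) = (γ e - γ b) * x (T K b e) := by
    intro K hK b e
    by_cases h0 : T K b e = 0
    · simp [h0]
    by_cases he : e ∈ K
    · obtain rfl : b = e := by_contra fun hc => h0 (hT.off hK he hc)
      simp [hT.diag K hK b he]
    · obtain ⟨u, hu, w, hw, e1, e2⟩ := ze_pair ho hK ((hT.ne_zero_iff hK he).1 h0)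
      rw [← e2, ← ho.dfm_base hK v u hu w hw, hγ u hu w hw, e1, sub_mul]
  have k2 : ∀ t, Tr N T s1 s2 t → der x v t = (γ s1 - γ s2) * x t := by
    rintro t ⟨-, K, b, hK, a1, a2⟩
    have a3 := key K hK b s1
    rw [a2, der_mul, key K hK b s2, map_mul] at a3
    refine mul_right_cancel₀ (((hT.inP hK b s2).resolve_left a1).map_ne_zero x) ?_
    linear_combination a3
  rw [k2 t h1, k2 t' h2]
  ring

/-- The quotient of two group elements with a difference in the group. -/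
theorem exists_quot (h1 : InG t) (h2 : InG t') (h3 : InG (t - t')) :
    ∃ q, Fund q ∧ t' = q * t := by
  obtain ⟨u, a1, a2⟩ := h1.exists_inv
  refine ⟨t' * u, ⟨h2.mul a1, ?_⟩, by linear_combination (-t') * a2⟩
  rw [show 1 - t' * u = (t - t') * u by linear_combination -a2]
  exact h3.mul a1

theorem der_quot {q : R0} (h1 : InG t) (x : R0 →+* F) (v : F × F) :
    x t * der x v (q * t) = x (q * t) * der x v t ↔ der x v q = 0 := by
  have h0 := h1.map_ne_zero x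
  rw [der_mul, map_mul]
  refine ⟨fun h => ?_, fun h => by rw [h]; ring⟩
  refine mul_left_cancel₀ (mul_ne_zero h0 h0) ?_
  linear_combination h

/-- Three numbers with differences in the group. -/
theorem eq_zero_of_three {t1 t2 t3 : R0} (h1 : InG t1) (h2 : InG t2) (h3 : InG t3)
    (h12 : InG (t1 - t2)) (h13 : InG (t1 - t3)) (h23 : InG (t2 - t3))
    (e2 : x t1 * der x v t2 = x t2 * der x v t1) (e3 : x t1 * der x v t3 = x t3 * der x v t1) :
    v = 0 := by
  obtain ⟨q2, a2, rfl⟩ := exists_quot h1 h2 h12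
  obtain ⟨q3, a3, rfl⟩ := exists_quot h1 h3 h13
  refine der_pair x ⟨a2, a3, InG.of_mul_left h1 ?_⟩ ((der_quot h1 x v).1 e2) ((der_quot h1 x v).1 e3)
  rwa [show t1 * (q2 - q3) = q2 * t1 - q3 * t1 by ring]

/-- Two numbers with a difference in the group determine a line of tangent vectors. -/
theorem line_of_two {v' : F × F} (h1 : InG t) (h2 : InG t') (h3 : InG (t - t')) (hv : v ≠ 0)
    (e1 : x t * der x v t' = x t' * der x v t) (e2 : x t * der x v' t' = x t' * der x v' t) :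
    ∃ c : F, v' = c • v := by
  obtain ⟨q, a, rfl⟩ := exists_quot h1 h2 h3
  obtain ⟨w, -, hw⟩ := a.der_line x
  obtain ⟨c, rfl⟩ := (hw v).1 ((der_quot h1 x v).1 e1)
  obtain ⟨c', rfl⟩ := (hw v').1 ((der_quot h1 x v').1 e2)
  have hc : c ≠ 0 := fun h0 => hv (by rw [h0, zero_smul])
  exact ⟨c' / c, by rw [smul_smul, div_mul_cancel₀ _ hc]⟩

theorem exists_third (h1 : InG t) (h2 : InG t') (h3 : InP (t - t')) :
    ∃ w, InG w ∧ InG (t - w) ∧ InG (t' - w) := by
  rcases h3 with h3 | h3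
  · obtain rfl := sub_eq_zero.1 h3
    obtain ⟨m, hm, -⟩ := exists_ty 0
    obtain ⟨a1, a2⟩ := fund_iff_mo.2 ⟨m, hm, rfl⟩
    have : InG (t - mo m * t) := by
      rw [show t - mo m * t = (1 - mo m) * t by ring]
      exact a2.mul h1
    exact ⟨_, a1.mul h1, this, this⟩
  · obtain ⟨q, a, rfl⟩ := exists_quot h1 h2 h3
    obtain ⟨q', -, ⟨a1, a2⟩, a3⟩ := a.exists_cp
    refine ⟨q' * t, a1.mul h1, ?_, ?_⟩
    · rw [show t - q' * t = (1 - q') * t by ring]
      exact a2.mul h1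
    · rw [← sub_mul]
      exact a3.mul h1

end Pool.Agent.Lib.MP_10bdcf_co.G
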