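import Pool.Agent.Lib.MP_10bdcf_co.TA1
import Pool.Agent.Lib.MP_10bdcf_co.TY
import Pool.Agent.Lib.MP_10bdcf_co.XD3

/-!
The normalised tableau of two hyperplane bases that are far apart.
-/

namespace Pool.Agent.Lib.MP_10bdcf_co.G

open scoped Matroid
open Set

set_option linter.unusedSectionVars false

variable {E : Type} [Fintype E] {M : Matroid E} {T : Set E → Matrix E E R0}
  {B Z1 Z2 : Set E} {e f g x y z : E}

/-- Rescaling the elements. -/
theorem U2.rescale (hT : U2 M T) (σ τ : E → R0) (hσ : ∀ z, InG (σ z)) (hτ : ∀ z, σ z * τ z = 1) :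
    U2 M fun B => Matrix.of fun b w => τ b * T B b w * σ w := by
  have hτ' : ∀ z, InG (τ z) := fun z => by
    obtain ⟨b, h1, h2⟩ := (hσ z).exists_inv
    have : τ z = b := by linear_combination (-τ z) * h2 + b * hτ z
    exact this ▸ h1
  refine ⟨fun B hB b w => ?_, fun B hB b w => ?_, fun B hB b hb => ?_, fun B B' hB hB' => ?_⟩
  · rcases hT.mem B hB b w with h | h
    · exact Or.inl (by rw [Matrix.of_apply, h, mul_zero, zero_mul])
    · exact Or.inr (((hτ' b).mul h).mul (hσ w))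
  · rw [← hT.supp B hB, Matrix.of_apply, Ne, Ne, (hσ w).isUnit.mul_left_eq_zero,
      (hτ' b).isUnit.mul_right_eq_zero]
  · rw [Matrix.of_apply, hT.diag B hB b hb, mul_one, mul_comm, hτ]
  · ext x w
    simp only [Matrix.mul_apply, Matrix.of_apply]
    rw [hT.mul_apply hB hB' x w, Finset.mul_sum, Finset.sum_mul]
    refine Finset.sum_congr rfl fun b _ => ?_
    linear_combination (τ x * T B' x b * T B b w * σ w) * hτ b

/-- A normalised system. -/
structure CoreN (M : Matroid E) (T : Set E → Matrix E E R0) (e f g : E) (Z1 Z2 : Set E) :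
    Prop where
  tab : U2 M T
  core : Core M e f g Z1 Z2
  sum : ∀ B, M.IsBase B → ∀ z, T B z g = T B z e + T B z f
  col : ∀ x ∈ Z1 \ Z2, T (insert f Z1) x e = 1
  row : ∀ y ∈ Z2 \ Z1, T (insert f Z1) f y = 1

theorem ta3_ne (h : Zb M e f g Z1) (hz : z ∈ Z1) : z ≠ e ∧ z ≠ f ∧ z ≠ g := by
  have := (h.sub hz).2
  simp only [mem_insert_iff, mem_singleton_iff, not_or] at this
  exact this

theorem ta3_fe (hT : U2 M T) (h : Zb M e f g Z1) : T (insert f Z1) f e = 0 :=
  xd3_cl hT h.base h.mem fun _ hz =>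
    hT.off h.base (mem_insert_of_mem _ hz) (ta3_ne h hz).2.1.symm

theorem ta3_col (hT : U2 M T) (h : Core M e f g Z1 Z2) (hx : x ∈ Z1 \ Z2) :
    InG (T (insert f Z1) x e) := by
  refine (hT.inP h.left.base x e).resolve_left fun h0 => h.e_notMem hx ?_
  rw [xd3_zero hT h.left.base (mem_insert_of_mem _ hx.1) (xc2_E h.tri).1] at h0
  have h1 : M.Indep ((insert f Z1 \ {x}) ∪ Z1) :=
    h.left.base.indep.subset (union_subset sdiff_subset (subset_insert _ _))
  have h2 : e ∈ M.closure ((insert f Z1 \ {x}) ∩ Z1) := by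
    rw [h1.closure_inter_eq_inter_closure]
    exact ⟨h0, h.left.mem⟩
  exact M.closure_subset_closure (fun z hz => mem_sdiff_of_mem hz.2 hz.1.2) h2

theorem ta3_row (hT : U2 M T) (h : Core M e f g Z1 Z2) (hy : y ∈ Z2 \ Z1) :
    InG (T (insert f Z1) f y) := by
  refine (hT.inP h.left.base f y).resolve_left fun h0 => h.y_notMem hy ?_
  rw [xd3_zero hT h.left.base (mem_insert _ _) (h.right.sub hy.1).1] at h0
  exact M.closure_subset_closure (fun z hz => hz.1.resolve_left hz.2) h0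

theorem Core.exists_coreN (hT : U2 M T) (h : Core M e f g Z1 Z2) :
    ∃ T', CoreN M T' e f g Z1 Z2 := by
  have ht := h.tri
  obtain ⟨t, h1, l, h2, h3⟩ := exists_pos hT ht.rk_pair (xc1_rot ht).mem_closure
    (xc1_rot ht).rk_pair (xc1_rot ht).swap23.rk_pair
  have key : ∀ z, ∃ s, InG s ∧ (z = g → s = 1) ∧ (z = e → s = l) ∧ (z = f → s = -(l * t)) ∧
      (z ∈ Z1 \ Z2 → s = T (insert f Z1) z e * l) ∧
        (z ∈ Z2 \ Z1 → T (insert f Z1) f z * s = -(l * t)) := fun z => by
    by_cases c1 : z ∈ Z1 \ Z2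
    · obtain ⟨a1, a2, a3⟩ := ta3_ne h.left c1.1
      exact ⟨_, (ta3_col hT h c1).mul h2, fun a => absurd a a3, fun a => absurd a a1,
        fun a => absurd a a2, fun _ => rfl, fun a => absurd c1.1 a.2⟩
    by_cases c2 : z ∈ Z2 \ Z1
    · obtain ⟨a1, a2, a3⟩ := ta3_ne h.right c2.1
      obtain ⟨b, b1, b2⟩ := (ta3_row hT h c2).exists_inv
      exact ⟨_, b1.mul (h2.mul h1).neg, fun a => absurd a a3, fun a => absurd a a1,
        fun a => absurd a a2, fun a => absurd a c1, fun _ => by rw [← mul_assoc, b2, one_mul]⟩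
    by_cases c3 : z = e
    · exact ⟨l, h2, fun a => absurd (c3.symm.trans a) ht.2.1, fun _ => rfl,
        fun a => absurd (c3.symm.trans a) ht.1, fun a => absurd a c1, fun a => absurd a c2⟩
    by_cases c4 : z = f
    · exact ⟨_, (h2.mul h1).neg, fun a => absurd (c4.symm.trans a) ht.2.2.1, fun a => absurd a c3,
        fun _ => rfl, fun a => absurd a c1, fun a => absurd a c2⟩
    · exact ⟨1, InG.one, fun _ => rfl, fun a => absurd a c3, fun a => absurd a c4,
        fun a => absurd a c1, fun a => absurd a c2⟩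
  choose σ s0 s1 s2 s3 s4 s5 using key
  choose τ _ hτ using fun z => (s0 z).exists_inv
  refine ⟨_, hT.rescale σ τ s0 hτ, h, fun B hB z => ?_, fun x hx => ?_, fun y hy => ?_⟩
  · simp only [Matrix.of_apply]
    rw [s1 g rfl, s2 e rfl, s3 f rfl, h3 B hB]
    ring
  · simp only [Matrix.of_apply]
    rw [s2 e rfl, mul_assoc, ← s4 x hx, mul_comm, hτ]
  · simp only [Matrix.of_apply]
    rw [mul_assoc, s5 y hy, ← s3 f rfl, mul_comm, hτ]

theorem CoreN.fe (h : CoreN M T e f g Z1 Z2) : T (insert f Z1) f e = 0 := by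
  exact ta3_fe h.tab h.core.left

theorem CoreN.fg (h : CoreN M T e f g Z1 Z2) : T (insert f Z1) f g = 1 := by
  rw [h.sum _ h.core.left.base, h.fe, h.tab.diag _ h.core.left.base f (mem_insert _ _), zero_add]

theorem CoreN.zg (h : CoreN M T e f g Z1 Z2) (hz : z ∈ Z1) :
    T (insert f Z1) z g = T (insert f Z1) z e := by
  rw [h.sum _ h.core.left.base,
    h.tab.off h.core.left.base (mem_insert _ _) (ta3_ne h.core.left hz).2.1, add_zero]

/-- The tableau at the base with `g` in the place of `f`. -/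
theorem CoreN.at_g (h : CoreN M T e f g Z1 Z2) (hz : z ∈ Z1) (w : E) :
    T (insert g Z1) z w = T (insert f Z1) z w - T (insert f Z1) z e * T (insert f Z1) f w := by
  have hb := h.core.left.base
  have e1 : ex (insert f Z1) f g = insert g Z1 := by
    rw [ex, insert_sdiff_self_of_notMem (ta1_f h.core.left)]
  have ha : Adj M (insert f Z1) f g := by
    refine ⟨mem_insert _ _, ?_, e1 ▸ (h.core.left.swap h.core.tri).base⟩
    rintro (a | a)
    · exact h.core.tri.2.2.1 a.symm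
    · exact (ta3_ne h.core.left a).2.2 rfl
  have h1 := h.tab.pivot_old hb ha (mem_insert_of_mem _ hz) (ta3_ne h.core.left hz).2.1 w
  have h2 := h.tab.inv_mul hb ha
  rw [h.fg, mul_one] at h2
  rw [h2, mul_one, e1, h.zg hz] at h1
  exact h1

theorem CoreN.left (h : CoreN M T e f g Z1 Z2) : ∃ α : E → R0, (∀ x ∈ Z1 \ Z2, InG (α x)) ∧
    (∀ x, x ∉ Z1 \ Z2 → α x = 0) ∧ ∑ x, α x = 0 ∧
      ∀ y ∈ Z2 \ Z1, ∑ x, α x * T (insert f Z1) x y = 1 := by
  classical
  have b1 := h.core.left.base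
  have b2 := h.core.right.base
  set α : E → R0 := fun x => if x ∈ Z1 \ Z2 then -T (insert f Z2) f x else 0 with hα
  have a1 : ∀ x ∈ Z1 \ Z2, α x = -T (insert f Z2) f x := fun x hx => if_pos hx
  have a2 : ∀ x, x ∉ Z1 \ Z2 → α x = 0 := fun x hx => if_neg hx
  have key : ∀ w, T (insert f Z2) f w =
      T (insert f Z1) f w - ∑ x, α x * T (insert f Z1) x w := fun w => by
    have h1 : T (insert f Z1) f w = ∑ x, if x = f then T (insert f Z1) f w else 0 := by simp
    rw [h.tab.mul_apply b1 b2 f w, h1, ← Finset.sum_sub_distrib]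
    refine Finset.sum_congr rfl fun b _ => ?_
    by_cases c1 : b = f
    · rw [if_pos c1, c1, h.tab.diag _ b2 f (mem_insert _ _),
        a2 f fun a => ta1_f h.core.left a.1]
      ring
    rw [if_neg c1]
    by_cases c2 : b ∈ Z1
    swap
    · rw [h.tab.row b1 fun a => a.elim c1 c2]
      ring
    by_cases c3 : b ∈ Z2
    · rw [h.tab.off b2 (mem_insert_of_mem _ c3) (Ne.symm c1), a2 b fun a => a.2 c3]
      ring
    · rw [a1 b ⟨c2, c3⟩]
      ring
  refine ⟨α, fun x hx => ?_, a2, ?_, fun y hy => ?_⟩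
  · rw [a1 x hx]
    exact (ta3_row h.tab h.core.symm hx).neg
  · have h1 := key e
    rw [h.fe, ta3_fe h.tab h.core.right, zero_sub, eq_comm, neg_eq_zero] at h1
    rw [← h1]
    refine Finset.sum_congr rfl fun b _ => ?_
    by_cases c : b ∈ Z1 \ Z2
    · rw [h.col b c, mul_one]
    · rw [a2 b c, zero_mul]
  · have h1 := key y
    rw [h.row y hy, h.tab.off b2 (mem_insert_of_mem _ hy.1) (ta3_ne h.core.right hy.1).2.1.symm,
      eq_comm, sub_eq_zero] at h1
    exact h1.symm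

theorem CoreN.right (h : CoreN M T e f g Z1 Z2) : ∃ β : E → R0, (∀ y ∈ Z2 \ Z1, InG (β y)) ∧
    (∀ y, y ∉ Z2 \ Z1 → β y = 0) ∧ ∑ y, β y = 0 ∧
      ∀ x ∈ Z1 \ Z2, ∑ y, T (insert f Z1) x y * β y = 1 := by
  classical
  have b1 := h.core.left.base
  have b2 := h.core.right.base
  set β : E → R0 := fun y => if y ∈ Z2 \ Z1 then T (insert f Z2) y e else 0 with hβ
  have a1 : ∀ y ∈ Z2 \ Z1, β y = T (insert f Z2) y e := fun y hy => if_pos hy
  have a2 : ∀ y, y ∉ Z2 \ Z1 → β y = 0 := fun y hy => if_neg hy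
  have key : ∀ b, b ∉ Z2 → T (insert f Z1) b e = ∑ y, T (insert f Z1) b y * β y := fun b hb => by
    rw [h.tab.mul_apply b2 b1 b e]
    refine Finset.sum_congr rfl fun y _ => ?_
    by_cases c1 : y = f
    · rw [c1, ta3_fe h.tab h.core.right, a2 f fun a => ta1_f h.core.right a.1]
    by_cases c2 : y ∈ Z2
    swap
    · rw [h.tab.row b2 fun a => a.elim c1 c2, a2 y fun a => c2 a.1]
    by_cases c3 : y ∈ Z1
    · rw [h.tab.off b1 (mem_insert_of_mem _ c3) fun a : b = y => hb (a ▸ c2), zero_mul, zero_mul]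
    · rw [a1 y ⟨c2, c3⟩]
  refine ⟨β, fun y hy => ?_, a2, ?_, fun x hx => ?_⟩
  · rw [a1 y hy]
    exact ta3_col h.tab h.core.symm hy
  · rw [← h.fe, key f (ta1_f h.core.right)]
    refine Finset.sum_congr rfl fun y _ => ?_
    by_cases c : y ∈ Z2 \ Z1
    · rw [h.row y c, one_mul]
    · rw [a2 y c, mul_zero]
  · rw [← key x hx.2, h.col x hx]

theorem ta3_const {C : Set E} {β u : E → R0} (hC : C.Nonempty) (h0 : ∀ y, y ∉ C → β y = 0)
    (h1 : ∑ y, β y = 0) (h2 : ∑ y, u y * β y = 1) : ∃ y ∈ C, ∃ y' ∈ C, u y ≠ u y' := by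
  by_contra! hc
  obtain ⟨y0, hy0⟩ := hC
  have : ∑ y, u y * β y = u y0 * ∑ y, β y := by
    rw [Finset.mul_sum]
    refine Finset.sum_congr rfl fun y _ => ?_
    by_cases c : y ∈ C
    · rw [hc y c y0 hy0]
    · rw [h0 y c, mul_zero, mul_zero]
  rw [h1, h2, mul_zero] at this
  exact one_ne_zero this

theorem ta3_two {C : Set E} {β u v : E → R0} (hG : ∀ y ∈ C, InG (β y)) (h0 : ∀ y, y ∉ C → β y = 0)
    (h1 : ∑ y, u y * β y = 1) (h2 : ∑ y, v y * β y = 1) {y0 : E}
    (h3 : ∀ y ∈ C, y ≠ y0 → u y = v y) : ∀ y ∈ C, u y = v y := by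
  intro y hy
  by_cases c : y = y0
  swap
  · exact h3 y hy c
  have h4 : ∑ z, (u z - v z) * β z = (u y - v y) * β y := by
    refine Finset.sum_eq_single y (fun z _ hz => ?_) (by simp)
    by_cases d : z ∈ C
    · rw [h3 z d (c ▸ hz), sub_self, zero_mul]
    · rw [h0 z d, mul_zero]
  simp only [sub_mul, Finset.sum_sub_distrib, h1, h2, sub_self] at h4
  rw [← sub_mul, eq_comm, (hG y hy).isUnit.mul_left_eq_zero, sub_eq_zero] at h4
  exact h4

theorem CoreN.gg (h : CoreN M T e f g Z1 Z2) :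
    GG (Z1 \ Z2) (Z2 \ Z1) fun x y => T (insert f Z1) x y := by
  have b1 := h.core.left.base
  have b2 := h.core.right.base
  obtain ⟨α, a1, a2, a3, a4⟩ := h.left
  obtain ⟨β, c1, c2, c3, c4⟩ := h.right
  have a5 : ∀ y ∈ Z2 \ Z1, ∑ x, T (insert f Z1) x y * α x = 1 := fun y hy => by
    rw [← a4 y hy]
    exact Finset.sum_congr rfl fun x _ => mul_comm _ _
  have n1 : (Z1 \ Z2).Nonempty := nonempty_of_ncard_ne_zero (by have := h.core.two; omega)
  have n2 : (Z2 \ Z1).Nonempty := nonempty_of_ncard_ne_zero (by have := h.core.symm.two; omega)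
  refine ⟨fun x hx => ta3_const n2 c2 c3 (c4 x hx), fun y hy => ta3_const n1 a2 a3 (a5 y hy),
    fun x hx x' hx' hne y0 => ?_, fun y hy y' hy' hne x0 => ?_⟩
  · by_contra! hc
    have h1 := ta3_two c1 c2 (c4 x hx) (c4 x' hx') hc
    have h2 : T (insert f Z1) x x = T (insert f Z1) x' x := by
      rw [h.tab.mul_apply b2 b1 x x, h.tab.mul_apply b2 b1 x' x]
      refine Finset.sum_congr rfl fun y _ => ?_
      by_cases d1 : y ∈ insert f Z2
      swap
      · rw [h.tab.row b2 d1, mul_zero, mul_zero]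
      by_cases d2 : y ∈ insert f Z1
      · have d3 : ∀ z ∈ Z1 \ Z2, z ≠ y := fun z hz a =>
          (a ▸ d1 : z ∈ insert f Z2).elim (ta3_ne h.core.left hz.1).2.1 hz.2
        rw [h.tab.off b1 d2 (d3 x hx), h.tab.off b1 d2 (d3 x' hx')]
      · rw [h1 y ⟨d1.resolve_left fun a => d2 (Or.inl a), fun a => d2 (Or.inr a)⟩]
    rw [h.tab.diag _ b1 x (mem_insert_of_mem _ hx.1),
      h.tab.off b1 (mem_insert_of_mem _ hx.1) hne.symm] at h2
    exact one_ne_zero h2
  · by_contra! hc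
    have h1 := ta3_two a1 a2 (a5 y hy) (a5 y' hy') hc
    have h2 : T (insert f Z2) y y = T (insert f Z2) y y' := by
      rw [h.tab.mul_apply b1 b2 y y, h.tab.mul_apply b1 b2 y y']
      refine Finset.sum_congr rfl fun x _ => ?_
      by_cases d1 : x ∈ insert f Z1
      swap
      · rw [h.tab.row b1 d1, h.tab.row b1 d1]
      by_cases d2 : x ∈ insert f Z2
      · have d3 : y ≠ x := fun a =>
          (a ▸ d1 : y ∈ insert f Z1).elim (ta3_ne h.core.right hy.1).2.1 hy.2
        rw [h.tab.off b2 d2 d3, zero_mul, zero_mul]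
      · rw [h1 x ⟨d1.resolve_left fun a => d2 (Or.inl a), fun a => d2 (Or.inr a)⟩]
    rw [h.tab.diag _ b2 y (mem_insert_of_mem _ hy.1),
      h.tab.off b2 (mem_insert_of_mem _ hy'.1) hne] at h2
    exact one_ne_zero h2

end Pool.Agent.Lib.MP_10bdcf_co.G
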