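import Pool.Agent.Lib.MP_10bdcf_co.TA3

/-!
The small minors of the core matrix.
-/

namespace Pool.Agent.Lib.MP_10bdcf_co.G

open scoped Matroid
open Set

set_option linter.unusedSectionVars false

variable {E : Type} [Fintype E] {M : Matroid E} {T : Set E → Matrix E E R0}
  {Z1 Z2 : Set E} {e f g : E}

/-- Subtract one from every entry. -/
noncomputable def m1 (Y : Matrix E E R0) : Matrix E E R0 := Matrix.of fun a b => Y a b - 1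

/-- The conditions on a core matrix with rows `R` and columns `C`. -/
structure CM (R C : Set E) (Y : Matrix E E R0) : Prop where
  gg : GG R C fun x y => Y x y
  card : R.ncard = C.ncard
  two : 2 ≤ R.ncard
  ent : ∀ x ∈ R, ∀ y ∈ C, InP (Y x y)
  ent1 : ∀ x ∈ R, ∀ y ∈ C, InP (Y x y - 1)
  rowd : ∀ x ∈ R, ∀ y ∈ C, ∀ y' ∈ C, InP (Y x y - Y x y')
  cold : ∀ x ∈ R, ∀ x' ∈ R, ∀ y ∈ C, InP (Y x y - Y x' y)
  m2 : ∀ x ∈ R, ∀ x' ∈ R, ∀ y ∈ C, ∀ y' ∈ C, InP (d2 Y x x' y y')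
  g2 : ∀ x ∈ R, ∀ x' ∈ R, ∀ y ∈ C, ∀ y' ∈ C, InP (d2 (m1 Y) x x' y y')
  b2 : ∀ x ∈ R, ∀ x' ∈ R, ∀ y ∈ C, ∀ y' ∈ C, InP (d2 (m1 Y) x x' y y' - d2 Y x x' y y')
  m32 : ∀ x ∈ R, ∀ x' ∈ R, ∀ x'' ∈ R, ∀ y ∈ C, ∀ y' ∈ C,
    InP ((Y x' y - Y x y) * (Y x'' y' - Y x y') - (Y x' y' - Y x y') * (Y x'' y - Y x y))
  m23 : ∀ x ∈ R, ∀ x' ∈ R, ∀ y ∈ C, ∀ y' ∈ C, ∀ y'' ∈ C,
    InP ((Y x y' - Y x y) * (Y x' y'' - Y x' y) - (Y x' y' - Y x' y) * (Y x y'' - Y x y))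
  m3 : ∀ x ∈ R, ∀ x' ∈ R, ∀ x'' ∈ R, ∀ y ∈ C, ∀ y' ∈ C, ∀ y'' ∈ C, InP (d3 Y x x' x'' y y' y'')
  g3 : ∀ x ∈ R, ∀ x' ∈ R, ∀ x'' ∈ R, ∀ y ∈ C, ∀ y' ∈ C, ∀ y'' ∈ C,
    InP (d3 (m1 Y) x x' x'' y y' y'')
  b3 : ∀ x ∈ R, ∀ x' ∈ R, ∀ x'' ∈ R, ∀ y ∈ C, ∀ y' ∈ C, ∀ y'' ∈ C,
    InP (d3 (m1 Y) x x' x'' y y' y'' - d3 Y x x' x'' y y' y'')
  p2 : 3 ≤ R.ncard → ∀ x ∈ R, ∀ x' ∈ R, ∀ y ∈ C, ∀ y' ∈ C,
    d2 (m1 Y) x x' y y' = d2 Y x x' y y' → d2 Y x x' y y' = 0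
  p3 : 4 ≤ R.ncard → ∀ x ∈ R, ∀ x' ∈ R, ∀ x'' ∈ R, ∀ y ∈ C, ∀ y' ∈ C, ∀ y'' ∈ C,
    d3 (m1 Y) x x' x'' y y' y'' = d3 Y x x' x'' y y' y'' → d3 Y x x' x'' y y' y'' = 0
  f2 : R.ncard = 2 → ∀ x ∈ R, ∀ x' ∈ R, ∀ y ∈ C, ∀ y' ∈ C, x ≠ x' → y ≠ y' →
    d2 (m1 Y) x x' y y' = d2 Y x x' y y' ∧ d2 Y x x' y y' ≠ 0
  f3 : R.ncard = 3 → ∀ x ∈ R, ∀ x' ∈ R, ∀ x'' ∈ R, ∀ y ∈ C, ∀ y' ∈ C, ∀ y'' ∈ C, x ≠ x' →
    x ≠ x'' → x' ≠ x'' → y ≠ y' → y ≠ y'' → y' ≠ y'' →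
    d3 (m1 Y) x x' x'' y y' y'' = d3 Y x x' x'' y y' y'' ∧ d3 Y x x' x'' y y' y'' ≠ 0

section
variable {I J : Set E} {x x' x'' y y' y'' : E}

theorem ta4_proper (h : Core M e f g Z1 Z2) (hI : I ⊆ Z1 \ Z2) (hJ : J ⊆ Z2 \ Z1)
    (h0 : I.Nonempty) (h1 : I.ncard < (Z1 \ Z2).ncard) (h2 : J.ncard ≤ I.ncard)
    (h3 : rk M (insert f (Z1 \ I ∪ J)) = rk M M.E) : rk M (insert e (Z1 \ I ∪ J)) = rk M M.E := by
  have a1 := ncard_insert_le f (Z1 \ I ∪ J)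
  have a2 := ncard_union_le (Z1 \ I) J
  have a3 := ncard_sdiff_add_ncard_of_subset (hI.trans sdiff_subset)
  have a4 := h.left.card
  have a5 := rk_insert_of_notMem (xc2_E h.tri).1 (h.proper hI hJ h0 h1 (um_base (by omega) h3))
  have a6 := rk_insert_le M f (Z1 \ I ∪ J)
  have a7 := rk_le_rank M (insert e (Z1 \ I ∪ J))
  omega

theorem ta4_full (h : Core M e f g Z1 Z2) (hI : I ⊆ Z1 \ Z2) (hJ : J ⊆ Z2 \ Z1)
    (h1 : (Z1 \ Z2).ncard = I.ncard) (h2 : (Z1 \ Z2).ncard = J.ncard) :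
    rk M (insert f (Z1 \ I ∪ J)) = rk M M.E ∧ rk M (insert e (Z1 \ I ∪ J)) ≠ rk M M.E := by
  have a1 := eq_of_subset_of_ncard_le hI h1.le
  have a2 := eq_of_subset_of_ncard_le hJ ((h.left.dist h.right).symm.trans h2).le
  have a3 : Z1 \ I ∪ J = Z2 := by
    rw [a1, a2, sdiff_sdiff_right_self, inter_comm, inter_union_sdiff]
  have a4 := h.right.card
  rw [a3, rk_insert_of_mem h.right.mem, ta1_rk h.right, rk_indep h.right.base.indep,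
    rk_base h.right.base]
  exact ⟨rfl, by rw [← rk_base h.right.base]; omega⟩

theorem ta4_ne (h : Core M e f g Z1 Z2) (hx : x ∈ Z1) : x ≠ e ∧ x ≠ f :=
  ⟨fun k => (h.left.sub hx).2 (Or.inl k), fun k => (h.left.sub hx).2 (Or.inr (Or.inl k))⟩

theorem ta4_b2 (h : CoreN M T e f g Z1 Z2) (hx : x ∈ Z1 \ Z2) (hx' : x' ∈ Z1 \ Z2)
    (hy : y ∈ Z2 \ Z1) (hy' : y' ∈ Z2 \ Z1) :
    d2 (m1 (T (insert f Z1))) x x' y y' - d2 (T (insert f Z1)) x x' y y' =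
      d3 (T (insert f Z1)) x x' f y y' e := by
  simp only [d3, d2, m1, Matrix.of_apply, h.col x hx, h.col x' hx', h.row y hy, h.row y' hy', h.fe]
  ring

theorem ta4_piv (h : CoreN M T e f g Z1 Z2) (hx : x ∈ Z1 \ Z2) :
    M.IsBase (ex (insert f Z1) x e) :=
  ((h.tab.supp _ h.core.left.base x e).1 (by rw [h.col x hx]; exact one_ne_zero)).2

theorem ta4_b3 (h : CoreN M T e f g Z1 Z2) (hx : x ∈ Z1 \ Z2) (hx' : x' ∈ Z1 \ Z2)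
    (hx'' : x'' ∈ Z1 \ Z2) (hy : y ∈ Z2 \ Z1) (hy' : y' ∈ Z2 \ Z1) (hy'' : y'' ∈ Z2 \ Z1)
    (h1 : x ≠ x') (h2 : x ≠ x'') :
    d3 (m1 (T (insert f Z1))) x x' x'' y y' y'' - d3 (T (insert f Z1)) x x' x'' y y' y'' =
      -d3 (T (ex (insert f Z1) x e)) x' x'' f y y' y'' := by
  have h0 : T (insert f Z1) x e ≠ 0 := by rw [h.col x hx]; exact one_ne_zero
  have key : ∀ z ∈ insert f Z1, x ≠ z → ∀ w, T (ex (insert f Z1) x e) z w =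
      T (insert f Z1) z w - T (insert f Z1) x w * T (insert f Z1) z e := fun z hz hne w => by
    have := um_piv h.tab h.core.left.base h0 hz hne w
    rw [d2, h.col x hx, one_mul, one_mul] at this
    exact this.symm
  simp only [d3, d2, m1, Matrix.of_apply, key x' (Or.inr hx'.1) h1, key x'' (Or.inr hx''.1) h2,
    key f (Or.inl rfl) (ta4_ne h.core hx.1).2, h.col x' hx', h.col x'' hx'', h.row y hy,
    h.row y' hy', h.row y'' hy'', h.fe]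
  ring

theorem ta4_e2 (h : CoreN M T e f g Z1 Z2) (hx : x ∈ Z1 \ Z2) (hx' : x' ∈ Z1 \ Z2)
    (hy : y ∈ Z2 \ Z1) (hy' : y' ∈ Z2 \ Z1) (h1 : x ≠ x') :
    (d2 (T (insert f Z1)) x x' y y' ≠ 0 ↔
      rk M (insert f (Z1 \ {x, x'} ∪ {y, y'})) = rk M M.E) ∧
    (d2 (m1 (T (insert f Z1))) x x' y y' ≠ d2 (T (insert f Z1)) x x' y y' ↔
      rk M (insert e (Z1 \ {x, x'} ∪ {y, y'})) = rk M M.E) := by
  have a1 := (ta4_ne h.core hx.1).2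
  have a2 := (ta4_ne h.core hx'.1).2
  have a3 := ta1_f h.core.left
  have e1 : insert f Z1 \ {x, x'} ∪ {y, y'} = insert f (Z1 \ {x, x'} ∪ {y, y'}) := by
    ext z
    simp only [mem_union, mem_sdiff, mem_singleton_iff, mem_insert_iff]
    grind
  have e2 : insert f Z1 \ {x, x', f} ∪ {y, y', e} = insert e (Z1 \ {x, x'} ∪ {y, y'}) := by
    ext z
    simp only [mem_union, mem_sdiff, mem_singleton_iff, mem_insert_iff]
    grind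
  rw [← e1, ← e2, ← sub_ne_zero (a := d2 (m1 _) x x' y y'), ta4_b2 h hx hx' hy hy']
  exact ⟨h.tab.d2_ne h.core.left.base (Or.inr hx.1) (Or.inr hx'.1) h1,
    h.tab.d3_ne h.core.left.base (Or.inr hx.1) (Or.inr hx'.1) (Or.inl rfl) h1 a1 a2⟩

theorem ta4_e3 (h : CoreN M T e f g Z1 Z2) (hx : x ∈ Z1 \ Z2) (hx' : x' ∈ Z1 \ Z2)
    (hx'' : x'' ∈ Z1 \ Z2) (hy : y ∈ Z2 \ Z1) (hy' : y' ∈ Z2 \ Z1) (hy'' : y'' ∈ Z2 \ Z1)
    (h1 : x ≠ x') (h2 : x ≠ x'') (h3 : x' ≠ x'') :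
    (d3 (T (insert f Z1)) x x' x'' y y' y'' ≠ 0 ↔
      rk M (insert f (Z1 \ {x, x', x''} ∪ {y, y', y''})) = rk M M.E) ∧
    (d3 (m1 (T (insert f Z1))) x x' x'' y y' y'' ≠ d3 (T (insert f Z1)) x x' x'' y y' y'' ↔
      rk M (insert e (Z1 \ {x, x', x''} ∪ {y, y', y''})) = rk M M.E) := by
  have a1 := ta4_ne h.core hx.1
  have a2 := ta4_ne h.core hx'.1
  have a3 := ta4_ne h.core hx''.1
  have a4 := ta1_f h.core.left
  have a5 := h.core.tri.1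
  have e1 : insert f Z1 \ {x, x', x''} ∪ {y, y', y''} =
      insert f (Z1 \ {x, x', x''} ∪ {y, y', y''}) := by
    ext z
    simp only [mem_union, mem_sdiff, mem_singleton_iff, mem_insert_iff]
    grind
  have e2 : ex (insert f Z1) x e \ {x', x'', f} ∪ {y, y', y''} =
      insert e (Z1 \ {x, x', x''} ∪ {y, y', y''}) := by
    ext z
    simp only [mem_union, mem_sdiff, mem_ex, mem_singleton_iff, mem_insert_iff]
    grind
  rw [← e1, ← e2, ← sub_ne_zero (a := d3 (m1 _) x x' x'' y y' y''),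
    ta4_b3 h hx hx' hx'' hy hy' hy'' h1 h2, neg_ne_zero]
  exact ⟨h.tab.d3_ne h.core.left.base (Or.inr hx.1) (Or.inr hx'.1) (Or.inr hx''.1) h1 h2 h3,
    h.tab.d3_ne (ta4_piv h hx) (mem_ex.2 (Or.inr ⟨Or.inr hx'.1, h1.symm⟩))
      (mem_ex.2 (Or.inr ⟨Or.inr hx''.1, h2.symm⟩)) (mem_ex.2 (Or.inr ⟨Or.inl rfl, a1.2.symm⟩)) h3
      a2.2 a3.2⟩

theorem ta4_m1 (h : CoreN M T e f g Z1 Z2) (hx : x ∈ Z1 \ Z2) (hy : y ∈ Z2 \ Z1) :
    m1 (T (insert f Z1)) x y = T (insert g Z1) x y := by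
  rw [h.at_g hx.1, h.col x hx, h.row y hy, one_mul]
  rfl

theorem ta4_sub2 {S : Set E} (hx : x ∈ S) (hx' : x' ∈ S) : {x, x'} ⊆ S :=
  insert_subset hx (singleton_subset_iff.2 hx')

theorem ta4_sub3 {S : Set E} (hx : x ∈ S) (hx' : x' ∈ S) (hx'' : x'' ∈ S) : {x, x', x''} ⊆ S :=
  insert_subset hx (ta4_sub2 hx' hx'')

theorem ta4_le2 (y y' : E) : ({y, y'} : Set E).ncard ≤ 2 := by
  have := ncard_insert_le y {y'}
  rwa [ncard_singleton] at this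

theorem ta4_le3 (y y' y'' : E) : ({y, y', y''} : Set E).ncard ≤ 3 :=
  (ncard_insert_le y {y', y''}).trans (Nat.succ_le_succ (ta4_le2 y' y''))

end

theorem CoreN.cm (h : CoreN M T e f g Z1 Z2) : CM (Z1 \ Z2) (Z2 \ Z1) (T (insert f Z1)) := by
  have hT := h.tab
  have hB := h.core.left.base
  have hG := (h.core.left.swap h.core.tri).base
  refine ⟨h.gg, h.core.left.dist h.core.right, h.core.two, fun x _ y _ => hT.inP hB x y,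
    fun x hx y hy => ?_, fun x _ y hy y' hy' => ?_, fun x hx x' hx' y _ => ?_,
    fun x _ x' _ y _ y' _ => hT.d2_inP hB x x' y y', fun x hx x' hx' y hy y' hy' => ?_,
    fun x hx x' hx' y hy y' hy' => ?_, fun x hx x' hx' x'' hx'' y _ y' _ => ?_,
    fun x _ x' _ y hy y' hy' y'' hy'' => ?_,
    fun x _ x' _ x'' _ y _ y' _ y'' _ => hT.d3_inP hB x x' x'' y y' y'',
    fun x hx x' hx' x'' hx'' y hy y' hy' y'' hy'' => ?_,
    fun x hx x' hx' x'' hx'' y hy y' hy' y'' hy'' => ?_, fun h3 x hx x' hx' y hy y' hy' h4 => ?_,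
    fun h3 x hx x' hx' x'' hx'' y hy y' hy' y'' hy'' h4 => ?_,
    fun h3 x hx x' hx' y hy y' hy' n1 n2 => ?_,
    fun h3 x hx x' hx' x'' hx'' y hy y' hy' y'' hy'' n1 n2 n3 n4 n5 n6 => ?_⟩
  · have a := hT.inP hG x y
    rwa [← ta4_m1 h hx hy] at a
  · have a := hT.d2_inP hB x f y y'
    rwa [d2, h.row y hy, h.row y' hy', mul_one, mul_one] at a
  · have a := hT.d2_inP hB x x' y e
    rwa [d2, h.col x hx, h.col x' hx', mul_one, one_mul] at a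
  · rw [d2, ta4_m1 h hx hy, ta4_m1 h hx hy', ta4_m1 h hx' hy, ta4_m1 h hx' hy']
    exact hT.d2_inP hG x x' y y'
  · rw [ta4_b2 h hx hx' hy hy']
    exact hT.d3_inP hB x x' f y y' e
  · refine Eq.subst (motive := InP) ?_ (hT.d3_inP hB x x' x'' y y' e)
    simp only [d3, d2, h.col x hx, h.col x' hx', h.col x'' hx'']
    ring
  · refine Eq.subst (motive := InP) ?_ (hT.d3_inP hB x x' f y y' y'')
    simp only [d3, d2, h.row y hy, h.row y' hy', h.row y'' hy'']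
    ring
  · rw [d3, d2, d2, d2, ta4_m1 h hx hy, ta4_m1 h hx hy', ta4_m1 h hx hy'', ta4_m1 h hx' hy,
      ta4_m1 h hx' hy', ta4_m1 h hx' hy'', ta4_m1 h hx'' hy, ta4_m1 h hx'' hy', ta4_m1 h hx'' hy'']
    exact hT.d3_inP hG x x' x'' y y' y''
  · by_cases n1 : x = x'
    · exact Or.inl (by simp only [d3, d2, n1]; ring)
    by_cases n2 : x = x''
    · exact Or.inl (by simp only [d3, d2, n2]; ring)
    rw [ta4_b3 h hx hx' hx'' hy hy' hy'' n1 n2]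
    exact (hT.d3_inP (ta4_piv h hx) x' x'' f y y' y'').neg
  · by_contra h5
    have n1 : x ≠ x' := fun k => h5 (by rw [d2, k]; ring)
    obtain ⟨a1, a2⟩ := ta4_e2 h hx hx' hy hy' n1
    have a3 := ncard_pair n1
    exact a2.2 (ta4_proper h.core (ta4_sub2 hx hx') (ta4_sub2 hy hy') (insert_nonempty _ _)
      (by omega) ((ta4_le2 y y').trans a3.ge) (a1.1 h5)) h4
  · by_contra h5
    have n1 : x ≠ x' := fun k => h5 (by simp only [d3, d2, k]; ring)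
    have n2 : x ≠ x'' := fun k => h5 (by simp only [d3, d2, k]; ring)
    have n3 : x' ≠ x'' := fun k => h5 (by simp only [d3, d2, k]; ring)
    obtain ⟨a1, a2⟩ := ta4_e3 h hx hx' hx'' hy hy' hy'' n1 n2 n3
    have a3 := cb_three n1 n2 n3
    exact a2.2 (ta4_proper h.core (ta4_sub3 hx hx' hx'') (ta4_sub3 hy hy' hy'')
      (insert_nonempty _ _) (by omega) ((ta4_le3 y y' y'').trans a3.ge) (a1.1 h5)) h4
  · obtain ⟨a1, a2⟩ := ta4_e2 h hx hx' hy hy' n1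
    obtain ⟨b1, b2⟩ := ta4_full h.core (ta4_sub2 hx hx') (ta4_sub2 hy hy')
      (h3.trans (ncard_pair n1).symm) (h3.trans (ncard_pair n2).symm)
    exact ⟨by_contra fun k => b2 (a2.1 k), a1.2 b1⟩
  · obtain ⟨a1, a2⟩ := ta4_e3 h hx hx' hx'' hy hy' hy'' n1 n2 n3
    obtain ⟨b1, b2⟩ := ta4_full h.core (ta4_sub3 hx hx' hx'') (ta4_sub3 hy hy' hy'')
      (h3.trans (cb_three n1 n2 n3).symm) (h3.trans (cb_three n4 n5 n6).symm)
    exact ⟨by_contra fun k => b2 (a2.1 k), a1.2 b1⟩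

end Pool.Agent.Lib.MP_10bdcf_co.G
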