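import Pool.Agent.Lib.MP_10bdcf_co.UP

/-!
The normalised core matrix.
-/

namespace Pool.Agent.Lib.MP_10bdcf_co.G

variable {ι κ : Type}

/-- The determinant of the block with rows `i k` and columns `j l`. -/
noncomputable def m2 (Y : ι → κ → R0) (i k : ι) (j l : κ) : R0 := Y i j * Y k l - Y i l * Y k j

/-- The determinant of the block with rows `i k m` and columns `j l n`. -/
noncomputable def m3 (Y : ι → κ → R0) (i k m : ι) (j l n : κ) : R0 :=
  Y i j * m2 Y k m l n - Y i l * m2 Y k m j n + Y i n * m2 Y k m j l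

/-- Subtract one from every entry. -/
noncomputable def sb (Y : ι → κ → R0) : ι → κ → R0 := fun i j => Y i j - 1

/-- The conditions on a normalised core matrix. Indices need not be distinct. -/
structure CoreY [Fintype ι] (Y : ι → κ → R0) : Prop where
  ent : ∀ i j, InP (Y i j)
  ent1 : ∀ i j, InP (Y i j - 1)
  rowd : ∀ i j l, InP (Y i j - Y i l)
  cold : ∀ i k j, InP (Y i j - Y k j)
  d2 : ∀ i k j l, InP (m2 Y i k j l)
  d2g : ∀ i k j l, InP (m2 (sb Y) i k j l)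
  b2 : ∀ i k j l, InP (m2 (sb Y) i k j l - m2 Y i k j l)
  d3 : ∀ i k m j l n, InP (m3 Y i k m j l n)
  d3g : ∀ i k m j l n, InP (m3 (sb Y) i k m j l n)
  b3 : ∀ i k m j l n, InP (m3 (sb Y) i k m j l n - m3 Y i k m j l n)
  p2 : 2 < Fintype.card ι → ∀ i k j l, m2 (sb Y) i k j l = m2 Y i k j l → m2 Y i k j l = 0
  p3 : 3 < Fintype.card ι → ∀ i k m j l n,
    m3 (sb Y) i k m j l n = m3 Y i k m j l n → m3 Y i k m j l n = 0
  r1 : ∀ i, ∃ j l, Y i j ≠ Y i l
  c1 : ∀ j, ∃ i k, Y i j ≠ Y k j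
  r2 : ∀ i k, i ≠ k → ∃ j l, j ≠ l ∧ Y i j ≠ Y k j ∧ Y i l ≠ Y k l
  c2 : ∀ j l, j ≠ l → ∃ i k, i ≠ k ∧ Y i j ≠ Y i l ∧ Y k j ≠ Y k l

theorem m2_sb (Y : ι → κ → R0) (i k : ι) (j l : κ) :
    m2 (sb Y) i k j l - m2 Y i k j l = Y i l + Y k j - Y i j - Y k l := by
  simp only [m2, sb]
  ring

theorem m3_sb (Y : ι → κ → R0) (i k m : ι) (j l n : κ) :
    m3 (sb Y) i k m j l n - m3 Y i k m j l n =
      -((Y k j - Y i j - (Y k n - Y i n)) * (Y m l - Y i l - (Y m n - Y i n)) -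
        (Y k l - Y i l - (Y k n - Y i n)) * (Y m j - Y i j - (Y m n - Y i n))) := by
  simp only [m3, m2, sb]
  ring

end Pool.Agent.Lib.MP_10bdcf_co.G
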