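import Pool.Agent.Lib.MP_10bdcf_co.TN

/-!
The two cores.
-/

namespace Pool.Agent.Lib.MP_10bdcf_co.G

open Set

variable {E : Type}

/-- The entries of the two cores at the proxy point. -/
def cm (d i j : ℕ) : ℕ :=
  bif i.beq 0 then (bif (j + 1).beq d then (bif d.beq 2 then 123457 else 641413) else 0)
  else bif (i + 1).beq d then (bif j.beq 0 then (bif d.beq 2 then 876547 else 234573) else 1)
  else bif j.beq 0 then 0 else bif j.beq 1 then 123457 else 1

/-- The matrix is one of the two cores up to the automorphism `φ` and the numbering `x`, `y`. -/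
structure Canon (R C : Set E) (Y : Matrix E E R0) (φ : R0 ≃+* R0) (d : ℕ) (x y : ℕ → E) : Prop where
  aut : ∀ z, InG (φ z) ↔ InG z
  hd : d = 2 ∨ d = 3
  card : R.ncard = d
  rows : ∀ z, z ∈ R ↔ ∃ i < d, z = x i
  cols : ∀ z, z ∈ C ↔ ∃ j < d, z = y j
  injx : ∀ i < d, ∀ j < d, x i = x j → i = j
  injy : ∀ i < d, ∀ j < d, y i = y j → i = j
  ent : ∀ i < d, ∀ j < d, tvl (φ (Y (x i) (y j))) = cm d i j

end Pool.Agent.Lib.MP_10bdcf_co.G
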