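import Pool.Agent.Lib.MP_10bdcf_co.TA1
import Pool.Agent.Lib.MP_10bdcf_co.LA
import Pool.Agent.Lib.MP_10bdcf_co.XD3

/-!
A shortest path between two parts of a core.
-/

namespace Pool.Agent.Lib.MP_10bdcf_co.G

open scoped Matroid
open Set

set_option linter.unusedSectionVars false
set_option linter.unusedVariables false

variable {E : Type} [Fintype E] {M : Matroid E} {T : Set E → Matrix E E R0}
  {Z Z1 Z2 A B : Set E} {e f g : E}

/-- Arcs: from a column to a row in the base with `f`, from a row to a column in the base with `g`. -/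
def Arc (M : Matroid E) (e f g : E) (Z : Set E) (u w : E) : Prop :=
  u ∈ M.E \ {e, f, g} ∧ w ∈ M.E \ {e, f, g} ∧ (Adj M (insert f Z) w u ∨ Adj M (insert g Z) u w)

/-- A path from `A` to `B`. -/
structure Way (M : Matroid E) (e f g : E) (Z A B : Set E) (v : ℕ → E) (k : ℕ) : Prop where
  start : v 0 ∈ A
  stop : v k ∈ B
  arc : ∀ j < k, Arc M e f g Z (v j) (v (j + 1))

/-- A path without shortcuts whose inner points see the core `X`, `Y`. -/
structure Geo (M : Matroid E) (e f g : E) (Z X Y A B : Set E) (v : ℕ → E) (k : ℕ) : Prop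
    extends Way M e f g Z A B v k where
  ns : ∀ i j, i + 2 ≤ j → j ≤ k → ∀ z w, (z = v i ∨ (i = 0 ∧ z ∈ A)) →
    (w = v j ∨ (j = k ∧ w ∈ B)) → ¬ Arc M e f g Z z w
  out : ∀ i, 0 < i → i < k → v i ∉ A ∪ B
  inj : ∀ i j, 0 < i → i < j → j < k → v i ≠ v j
  row : ∀ i, 0 < i → i < k → v i ∈ Z → ∃ y ∈ insert g Y, Adj M (insert f Z) (v i) y
  col : ∀ i, 0 < i → i < k → v i ∉ Z → ∃ x ∈ insert f X, Adj M (insert f Z) x (v i)

theorem tw_ne {u : E} (h : u ∈ M.E \ {e, f, g}) : u ≠ e ∧ u ≠ f ∧ u ≠ g := by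
  have := h.2
  simp only [mem_insert_iff, mem_singleton_iff, not_or] at this
  exact this

theorem Arc.mem_iff {u w : E} (h : Arc M e f g Z u w) : w ∈ Z ↔ u ∉ Z := by
  rcases h.2.2 with h1 | h1
  · exact iff_of_true (h1.1.resolve_left (tw_ne h.2.1).2.1) fun a => h1.2.1 (Or.inr a)
  · exact iff_of_false (fun a => h1.2.1 (Or.inr a))
      fun a => a (h1.1.resolve_left (tw_ne h.1).2.2)

theorem tw_row {u w : E} (h : Arc M e f g Z u w) (hu : u ∈ Z) : Adj M (insert g Z) u w :=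
  h.2.2.resolve_left fun a => a.2.1 (Or.inr hu)

theorem tw_col {u w : E} (h : Arc M e f g Z u w) (hu : u ∉ Z) : Adj M (insert f Z) w u :=
  h.2.2.resolve_right fun a => hu (a.1.resolve_left (tw_ne h.1).2.2)

/-- Walks of a given length. -/
inductive TwLen (R : E → E → Prop) : ℕ → E → E → Prop
  | zero (a : E) : TwLen R 0 a a
  | succ {n : ℕ} {a b c : E} : TwLen R n a b → R b c → TwLen R (n + 1) a c

theorem TwLen.trans {R : E → E → Prop} {m n : ℕ} {a b c : E} (h : TwLen R m a b)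
    (h' : TwLen R n b c) : TwLen R (m + n) a c := by
  induction h' with
  | zero => exact h
  | succ _ h2 ih => exact (ih h).succ h2

theorem tw_len {R : E → E → Prop} {v : ℕ → E} {i j : ℕ} (hij : i ≤ j)
    (h : ∀ l, i ≤ l → l < j → R (v l) (v (l + 1))) : TwLen R (j - i) (v i) (v j) := by
  induction hij with
  | refl => rw [Nat.sub_self]; exact TwLen.zero _
  | @step l hl ih =>
    rw [Nat.succ_sub hl]
    exact (ih fun a b c => h a b (c.trans (Nat.lt_succ_self l))).succ (h l hl (Nat.lt_succ_self l))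

theorem TwLen.path {R : E → E → Prop} {n : ℕ} {a b : E} (h : TwLen R n a b) :
    ∃ v : ℕ → E, v 0 = a ∧ v n = b ∧ ∀ j < n, R (v j) (v (j + 1)) := by
  induction h with
  | zero a => exact ⟨fun _ => a, rfl, rfl, fun _ h => absurd h (Nat.not_lt_zero _)⟩
  | @succ n a b c _ h2 ih =>
    obtain ⟨v, h3, h4, h5⟩ := ih
    refine ⟨fun j => if j = n + 1 then c else v j, by simpa using h3, by simp, fun j hj => ?_⟩
    by_cases h6 : j = n
    · subst h6
      simpa [h4] using h2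
    · simpa [h6, hj.ne] using h5 j (by omega)

theorem tw_rk {W : Set E} {p : E} (hb : M.IsBase (insert p Z)) (hp : p ∈ M.E) (hW : W ⊆ M.E)
    (hK : p ∉ W) (h : ∀ u ∈ W, ∀ w, Adj M (insert p Z) w u → w = p ∨ w ∈ W) :
    rk M (insert p W) ≤ (W ∩ Z).ncard + 1 := by
  have h1 : insert p W ⊆ M.closure (insert p (W ∩ Z)) := by
    refine insert_subset (M.mem_closure_of_mem' (mem_insert _ _) hp) fun u hu => ?_
    by_cases h2 : u ∈ Z
    · exact M.mem_closure_of_mem' (Or.inr ⟨hu, h2⟩) (hW hu)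
    refine M.closure_subset_closure (fun w hw => ?_)
      (la_mem_closure hb (hW hu) fun a => a.elim (fun a => hK (a ▸ hu)) h2)
    exact (h u hu w hw).elim Or.inl fun a => hw.1.imp id fun b => ⟨a, b⟩
  have h2 := rk_mono M h1
  have h3 := rk_insert_le M p (W ∩ Z)
  have h4 := rk_le_ncard M (W ∩ Z)
  rw [rk_closure] at h2
  omega

theorem tw_exists (ht : Tri M e f g) (hc : Con3 (M ＼ {e})) (hZ : Zb M e f g Z)
    (hA : A ⊆ M.E \ {e, f, g}) (hB : B ⊆ M.E \ {e, f, g}) (nA : A.Nonempty) (nB : B.Nonempty) :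
    ∃ k, ∃ a ∈ A, ∃ b ∈ B, TwLen (Arc M e f g Z) k a b := by
  by_contra! hn
  obtain ⟨W, hW⟩ : ∃ W : Set E, ∀ z, z ∈ W ↔ ∃ k, ∃ a ∈ A, TwLen (Arc M e f g Z) k a z :=
    ⟨{z | _}, fun _ => Iff.rfl⟩
  have w1 : A ⊆ W := fun a ha => (hW a).2 ⟨0, a, ha, TwLen.zero a⟩
  have w2 : ∀ u ∈ W, ∀ w, Arc M e f g Z u w → w ∈ W := fun u hu w h => by
    obtain ⟨k, a, h1, h2⟩ := (hW u).1 hu
    exact (hW w).2 ⟨_, a, h1, h2.succ h⟩
  have w3 : W ⊆ M.E \ {e, f, g} := fun z hz => by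
    obtain ⟨k, a, h1, h2⟩ := (hW z).1 hz
    cases h2 with
    | zero => exact hA h1
    | succ _ h3 => exact h3.2.1
  obtain ⟨V, hV⟩ : ∃ V, V = (M.E \ {e, f, g}) \ W := ⟨_, rfl⟩
  have v1 : B ⊆ V := fun b hb => hV ▸ ⟨hB hb, fun h => by
    obtain ⟨k, a, h1, h2⟩ := (hW b).1 h
    exact hn k a h1 b hb h2⟩
  have v3 : V ⊆ M.E \ {e, f, g} := hV ▸ sdiff_subset
  obtain ⟨he, hf, hg⟩ := xc2_E ht
  have fW : f ∉ W := fun h => (tw_ne (w3 h)).2.1 rfl
  have gV : g ∉ V := fun h => (tw_ne (v3 h)).2.2 rfl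
  have r1 := tw_rk hZ.base hf (w3.trans sdiff_subset) fW fun u hu w h =>
    h.1.imp id fun a => w2 u hu w ⟨w3 hu, hZ.sub a, Or.inl h⟩
  have r2 := tw_rk (hZ.swap ht).base hg (v3.trans sdiff_subset) gV fun u hu w h =>
    h.1.imp id fun a => hV ▸ ⟨hZ.sub a, fun b =>
      (hV ▸ hu).2 (w2 w b u ⟨hZ.sub a, v3 hu, Or.inr h⟩)⟩
  have c1 : (W ∩ Z).ncard + (V ∩ Z).ncard = Z.ncard := by
    rw [← ncard_inter_add_ncard_sdiff_eq_ncard Z W, inter_comm]
    congr 2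
    rw [hV]
    exact Subset.antisymm (fun z hz => ⟨hz.2, hz.1.2⟩) fun z hz => ⟨⟨hZ.sub hz.1, hz.2⟩, hz.1⟩
  have e1 : (M ＼ {e}).E \ insert f W = insert g V := by
    have := ht.1
    have := ht.2.1
    have := ht.2.2.1
    have := fun h : g ∈ W => (tw_ne (w3 h)).2.2 rfl
    rw [hV, Matroid.delete_ground]
    grind
  have d1 : Disjoint (insert f W) {e} := disjoint_singleton_right.2 fun h =>
    h.elim ht.1 fun a => (tw_ne (w3 a)).1 rfl
  have d2 : Disjoint (insert g V) {e} := disjoint_singleton_right.2 fun h =>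
    h.elim ht.2.1 fun a => (tw_ne (v3 a)).1 rfl
  have l1 := lam_add (M ＼ {e}) (insert f W)
  have l2 := rk_mono M (show insert f Z ⊆ M.E \ {e} from insert_subset ⟨hf, ht.1.symm⟩
    fun z hz => ⟨(hZ.sub hz).1, (tw_ne (hZ.sub hz)).1⟩)
  rw [e1, rk_delete d1, rk_delete d2, Matroid.delete_ground, rk_delete disjoint_sdiff_left] at l1
  rw [rk_indep hZ.base.indep, ncard_insert_of_notMem (ta1_f hZ)] at l2
  have l3 := hc (insert f W) (subset_sdiff.2 ⟨insert_subset hf (w3.trans sdiff_subset), d1⟩)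
    (by omega)
  rw [e1, ncard_insert_of_notMem fW, ncard_insert_of_notMem gV] at l3
  have l4 := (ncard_pos (toFinite W)).2 (nA.mono w1)
  have l5 := (ncard_pos (toFinite V)).2 (nB.mono v1)
  omega

/-- The digraph is strongly connected. -/
theorem exists_way (ht : Tri M e f g) (hc : Con3 (M ＼ {e})) (hZ : Zb M e f g Z)
    (hA : A ⊆ M.E \ {e, f, g}) (hB : B ⊆ M.E \ {e, f, g}) (nA : A.Nonempty) (nB : B.Nonempty) :
    ∃ v k, Way M e f g Z A B v k := by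
  obtain ⟨k, a, ha, b, hb, h⟩ := tw_exists ht hc hZ hA hB nA nB
  obtain ⟨v, rfl, rfl, h3⟩ := h.path
  exact ⟨v, k, ha, hb, h3⟩

theorem tw_ex {p n m : E} (hp : p ≠ n) : insert p (ex Z n m) = ex (insert p Z) n m := by
  rw [ex, ex, insert_sdiff_of_notMem _ (notMem_singleton_iff.2 hp), insert_comm]

variable {n m : E}

theorem tw_keep (hT : U2 M T) (ht : Tri M e f g) (hZ : Zb M e f g Z) (hn : n ∈ Z)
    (hm : m ∈ M.E \ {e, f, g}) (a1 : Adj M (insert f Z) n m) (a2 : Adj M (insert g Z) n m)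
    {u w : E} (h : Arc M e f g Z u w) (un : u ≠ n) (um : u ≠ m) (wn : w ≠ n) (wm : w ≠ m)
    (hs : (¬ Arc M e f g Z u n ∧ ¬ Arc M e f g Z u m) ∨
      (¬ Arc M e f g Z n w ∧ ¬ Arc M e f g Z m w)) : Arc M e f g (ex Z n m) u w := by
  have hn' := hZ.sub hn
  refine ⟨h.1, h.2.1, ?_⟩
  rw [tw_ex (tw_ne hn').2.1.symm, tw_ex (tw_ne hn').2.2.symm]
  refine h.2.2.imp (fun a => ?_) fun a => ?_
  · exact (hT.adj_pivot_same hZ.base a1 a.1 wn un um (hs.symm.imp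
      (fun b c => b.2 ⟨hm, h.2.1, Or.inl c⟩) fun b c => b.1 ⟨h.1, hn', Or.inl c⟩)).2 a
  · exact (hT.adj_pivot_same (hZ.swap ht).base a2 a.1 un wn wm (hs.imp
      (fun b c => b.2 ⟨h.1, hm, Or.inr c⟩) fun b c => b.1 ⟨hn', h.2.1, Or.inr c⟩)).2 a

theorem tw_new (hT : U2 M T) (ht : Tri M e f g) (hZ : Zb M e f g Z) (hn : n ∈ Z) (hm : m ∉ Z)
    (a1 : Adj M (insert f Z) n m) (a2 : Adj M (insert g Z) n m) {p q : E} (pn : p ≠ n) (qn : q ≠ n)
    (h : (Arc M e f g Z p n ∧ Arc M e f g Z m q) ∨ (Arc M e f g Z p m ∧ Arc M e f g Z n q))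
    (hs : ¬ Arc M e f g Z p q) : Arc M e f g (ex Z n m) p q := by
  have hn' := hZ.sub hn
  have hp : p ∈ M.E \ {e, f, g} := h.elim (fun a => a.1.1) fun a => a.1.1
  have hq : q ∈ M.E \ {e, f, g} := h.elim (fun a => a.2.2.1) fun a => a.2.2.1
  refine ⟨hp, hq, ?_⟩
  rw [tw_ex (tw_ne hn').2.1.symm, tw_ex (tw_ne hn').2.2.symm]
  refine h.imp (fun a => ?_) fun a => ?_
  · exact hT.adj_pivot_new hZ.base a1 (tw_col a.2 hm) qn (tw_col a.1 (a.1.mem_iff.1 hn))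
      fun c => hs ⟨hp, hq, Or.inl c⟩
  · exact hT.adj_pivot_new (hZ.swap ht).base a2
      (tw_row a.1 (by_contra fun c => hm (a.1.mem_iff.2 c))) pn (tw_row a.2 hn)
      fun c => hs ⟨hp, hq, Or.inr c⟩

/-- A pivot on two consecutive inner points shortens a path without shortcuts. -/
theorem tw_short (hT : U2 M T) (ht : Tri M e f g) (hZ : Zb M e f g Z) {v : ℕ → E} {k i : ℕ}
    (hv : Way M e f g Z A B v k) (ns : ∀ i j, i + 2 ≤ j → j ≤ k → ¬ Arc M e f g Z (v i) (v j))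
    (inj : ∀ i j, 0 < i → i < k → j ≤ k → j ≠ i → v j ≠ v i) (hi : i + 2 < k)
    (hnm : (n = v (i + 1) ∧ m = v (i + 2)) ∨ (m = v (i + 1) ∧ n = v (i + 2))) (hn : n ∈ Z)
    (hm : m ∉ Z) (a1 : Adj M (insert f Z) n m) (a2 : Adj M (insert g Z) n m) :
    TwLen (Arc M e f g (ex Z n m)) (i + 1 + (k - (i + 3))) (v 0) (v k) := by
  have hm' : m ∈ M.E \ {e, f, g} := hnm.elim (fun a => a.2 ▸ (hv.arc (i + 1) (by omega)).2.1)
    fun a => a.1 ▸ (hv.arc (i + 1) (by omega)).1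
  have ne : ∀ j ≤ k, j ≠ i + 1 → j ≠ i + 2 → v j ≠ n ∧ v j ≠ m := fun j h1 h2 h3 => by
    have b1 := inj (i + 1) j (by omega) (by omega) h1 h2
    have b2 := inj (i + 2) j (by omega) (by omega) h1 h3
    rcases hnm with ⟨rfl, rfl⟩ | ⟨rfl, rfl⟩
    exacts [⟨b1, b2⟩, ⟨b2, b1⟩]
  refine ((tw_len i.zero_le fun l _ h => ?_).succ ?_).trans (tw_len (by omega) fun l h h' => ?_)
  · have b1 := ns l (i + 1) (by omega) (by omega)
    have b2 := ns l (i + 2) (by omega) (by omega)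
    have b3 := ne l (by omega) (by omega) (by omega)
    have b4 := ne (l + 1) (by omega) (by omega) (by omega)
    refine tw_keep hT ht hZ hn hm' a1 a2 (hv.arc l (by omega)) b3.1 b3.2 b4.1 b4.2 (Or.inl ?_)
    rcases hnm with ⟨rfl, rfl⟩ | ⟨rfl, rfl⟩
    exacts [⟨b1, b2⟩, ⟨b2, b1⟩]
  · refine tw_new hT ht hZ hn hm a1 a2 (ne i (by omega) (by omega) (by omega)).1
      (ne (i + 3) (by omega) (by omega) (by omega)).1 ?_ (ns i (i + 3) (by omega) (by omega))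
    have b1 := hv.arc i (by omega)
    have b2 := hv.arc (i + 2) (by omega)
    rcases hnm with ⟨rfl, rfl⟩ | ⟨rfl, rfl⟩
    exacts [Or.inl ⟨b1, b2⟩, Or.inr ⟨b1, b2⟩]
  · have b1 := ns (i + 1) (l + 1) (by omega) (by omega)
    have b2 := ns (i + 2) (l + 1) (by omega) (by omega)
    have b3 := ne l (by omega) (by omega) (by omega)
    have b4 := ne (l + 1) (by omega) (by omega) (by omega)
    refine tw_keep hT ht hZ hn hm' a1 a2 (hv.arc l (by omega)) b3.1 b3.2 b4.1 b4.2 (Or.inr ?_)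
    rcases hnm with ⟨rfl, rfl⟩ | ⟨rfl, rfl⟩
    exacts [⟨b1, b2⟩, ⟨b2, b1⟩]

theorem tw_core (h : Core M e f g Z1 Z2) (n1 : n ∈ Z1) (n2 : n ∈ Z2) (m1 : m ∉ Z1) (m2 : m ∉ Z2)
    (b1 : Zb M e f g (ex Z1 n m)) (b2 : Zb M e f g (ex Z2 n m)) :
    Core M e f g (ex Z1 n m) (ex Z2 n m) ∧ ex Z1 n m \ ex Z2 n m = Z1 \ Z2 ∧
      ex Z2 n m \ ex Z1 n m = Z2 \ Z1 := by
  have e1 : ex Z1 n m \ ex Z2 n m = Z1 \ Z2 := by
    ext z
    simp only [mem_sdiff, mem_ex]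
    grind
  have e2 : ex Z2 n m \ ex Z1 n m = Z2 \ Z1 := by
    ext z
    simp only [mem_sdiff, mem_ex]
    grind
  have := h.two
  refine ⟨⟨h.tri, b1, b2, e1 ▸ h.two, fun h1 => h.far ?_⟩, e1, e2⟩
  rw [e1] at h1
  have s1 : Z1 \ ex Z1 n m ⊆ {n} :=
    fun z hz => by_contra fun a => hz.2 (mem_ex.2 (Or.inr ⟨hz.1, a⟩))
  have s2 : ex Z2 n m \ Z2 ⊆ {m} := fun z hz => (mem_ex.1 hz.1).resolve_right fun a => hz.2 a.1
  have s3 := ncard_le_ncard s1
  have s4 := ncard_le_ncard s2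
  rw [ncard_singleton] at s3 s4
  exact (Relation.ReflTransGen.head ⟨h.left, b1, by omega⟩ h1).tail ⟨b2, h.right, by omega⟩

theorem tw_adj {K : Set E} (hT : U2 M T) (hK : M.IsBase K) (hn : n ∈ K) (hm : m ∉ K)
    (hE : m ∈ M.E) : Adj M K n m ↔ m ∉ M.closure (K \ {n}) := by
  rw [← hT.ne_zero_iff hK hm, Ne, xd3_zero hT hK hn hE]

theorem tw_zb (hZ : Zb M e f g Z) (hn : n ∈ Z) (hm : m ∈ M.E \ {e, f, g})
    (a : Adj M (insert f Z) n m) (he : e ∈ M.closure (ex Z n m)) : Zb M e f g (ex Z n m) :=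
  ⟨insert_subset hm (sdiff_subset.trans hZ.sub), (tw_ex (tw_ne (hZ.sub hn)).2.1.symm).symm ▸ a.2.2,
    he⟩

theorem tw_drop (hZ : Zb M e f g Z) (he : e ∈ M.closure (insert f Z \ {n})) :
    e ∈ M.closure (ex Z n m) := by
  have h1 : M.Indep ((insert f Z \ {n}) ∪ Z) :=
    hZ.base.indep.subset (union_subset sdiff_subset (subset_insert _ _))
  have h2 : e ∈ M.closure ((insert f Z \ {n}) ∩ Z) := by
    rw [h1.closure_inter_eq_inter_closure]
    exact ⟨he, hZ.mem⟩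
  exact M.closure_subset_closure (fun z hz => mem_ex.2 (Or.inr ⟨hz.2, hz.1.2⟩)) h2

/-- The pivot at a zero row. -/
theorem tw_zrow (hT : U2 M T) (h : Core M e f g Z1 Z2) (n1 : n ∈ Z1) (n2 : n ∈ Z2) (m2 : m ∉ Z2)
    (hm : m ∈ M.E \ {e, f, g}) (a : Adj M (insert f Z1) n m)
    (h0 : ∀ y ∈ insert e (Z2 \ Z1), y ∈ M.closure (insert f Z1 \ {n})) :
    Zb M e f g (ex Z1 n m) ∧ Zb M e f g (ex Z2 n m) := by
  have s1 : insert f Z2 \ {n} ⊆ M.closure (insert f Z1 \ {n}) := fun z hz => by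
    by_cases c : z ∈ insert f Z1
    · exact M.mem_closure_of_mem' ⟨c, hz.2⟩ (h.left.base.subset_ground c)
    · exact h0 z (Or.inr ⟨hz.1.resolve_left fun b => c (Or.inl b), fun b => c (Or.inr b)⟩)
  have s2 := M.closure_subset_closure_of_subset_closure s1
  have a2 : Adj M (insert f Z2) n m :=
    (tw_adj hT h.right.base (Or.inr n2) (fun b => b.elim (tw_ne hm).2.1 m2) hm.1).2 fun b =>
      (tw_adj hT h.left.base a.1 a.2.1 hm.1).1 a (s2 b)
  refine ⟨tw_zb h.left n1 hm a (tw_drop h.left (h0 e (Or.inl rfl))),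
    tw_zb h.right n2 hm a2 (tw_drop h.right ?_)⟩
  have r1 := rk_mono M (insert_subset (h0 e (Or.inl rfl)) s1)
  have r2 := rk_mono M (subset_insert e (insert f Z2 \ {n}))
  have r3 := um_rk_del h.left.base a.1
  have r4 := um_rk_del h.right.base a2.1
  rw [rk_closure] at r1
  rw [mem_closure_iff_rk (xc2_E h.tri).1]
  omega

theorem tw_same (hZ : Zb M e f g Z) (hn : n ∈ Z) (h1 : m ∈ M.closure Z)
    (h2 : m ∉ M.closure (Z \ {n})) : e ∈ M.closure (ex Z n m) := by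
  have e1 : insert n (Z \ {n}) = Z := insert_sdiff_self_of_mem hn
  have h3 : n ∈ M.closure (ex Z n m) := Matroid.mem_closure_insert h2 (e1.symm ▸ h1)
  refine M.closure_subset_closure_of_subset_closure (fun z hz => ?_) hZ.mem
  by_cases c : z = n
  · exact c ▸ h3
  · exact M.mem_closure_of_mem' (mem_ex.2 (Or.inr ⟨hz, c⟩)) (hZ.sub hz).1

/-- The pivot at a zero column. -/
theorem tw_zcol (hT : U2 M T) (h : Core M e f g Z1 Z2) (n1 : n ∈ Z1) (n2 : n ∈ Z2) (m2 : m ∉ Z2)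
    (hm : m ∈ M.E \ {e, f, g}) (a : Adj M (insert f Z1) n m)
    (h0 : ∀ x ∈ insert f (Z1 \ Z2), ¬ Adj M (insert f Z1) x m) :
    Zb M e f g (ex Z1 n m) ∧ Zb M e f g (ex Z2 n m) := by
  have c0 : m ∈ M.closure (Z1 ∩ Z2) := by
    refine M.closure_subset_closure (fun z hz => ?_) (la_mem_closure h.left.base hm.1 a.2.1)
    have c1 : z ∈ Z1 := hz.1.resolve_left fun b => h0 z (Or.inl b) hz
    exact ⟨c1, by_contra fun b => h0 z (Or.inr ⟨c1, b⟩) hz⟩
  have c1 := (tw_adj hT h.left.base a.1 a.2.1 hm.1).1 a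
  have c2 : m ∉ M.closure (insert f Z2 \ {n}) := fun b => by
    have h1 : M.Indep ((insert f Z2 \ {n}) ∪ Z1 ∩ Z2) := h.right.base.indep.subset
      (union_subset sdiff_subset (inter_subset_right.trans (subset_insert _ _)))
    have h2 : m ∈ M.closure ((insert f Z2 \ {n}) ∩ (Z1 ∩ Z2)) := by
      rw [h1.closure_inter_eq_inter_closure]
      exact ⟨b, c0⟩
    exact c1 (M.closure_subset_closure (fun z hz => mem_sdiff_of_mem (Or.inr hz.2.1) hz.1.2) h2)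
  have a2 : Adj M (insert f Z2) n m :=
    (tw_adj hT h.right.base (Or.inr n2) (fun b => b.elim (tw_ne hm).2.1 m2) hm.1).2 c2
  exact ⟨tw_zb h.left n1 hm a (tw_same h.left n1 (M.closure_subset_closure inter_subset_left c0)
      fun b => c1 (M.closure_subset_closure (sdiff_subset_sdiff_left (subset_insert _ _)) b)),
    tw_zb h.right n2 hm a2 (tw_same h.right n2 (M.closure_subset_closure inter_subset_right c0)
      fun b => c2 (M.closure_subset_closure (sdiff_subset_sdiff_left (subset_insert _ _)) b))⟩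

/-- Adjacency in the base with `g`, read in the base with `f`. -/
theorem tw_fg (hT : U2 M T) (ht : Tri M e f g) (hZ : Zb M e f g Z) (hn : n ∈ Z)
    (hm : m ∈ M.E \ {e, f, g}) (h : ¬ Adj M (insert f Z) n g ∨ ¬ Adj M (insert f Z) f m) :
    Adj M (insert g Z) n m ↔ Adj M (insert f Z) n m := by
  have e1 : ex (insert f Z) f g = insert g Z := by
    rw [ex, insert_sdiff_self_of_notMem (ta1_f hZ)]
  have a : Adj M (insert f Z) f g := ⟨Or.inl rfl,
    fun b => b.elim ht.2.2.1.symm (ta1_f (hZ.swap ht)), e1.symm ▸ (hZ.swap ht).base⟩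
  rw [← e1]
  exact hT.adj_pivot_same hZ.base a (Or.inr hn) (tw_ne (hZ.sub hn)).2.1 (tw_ne hm).2.1
    (tw_ne hm).2.2 h

/-- A shortest path over all cores with the same matrix. -/
theorem Core.exists_geo (h : Core M e f g Z1 Z2) (hT : U2 M T) (hc : Con3 (M ＼ {e}))
    (hs : ∀ B, M.IsBase B → ∀ z, T B z g = T B z e + T B z f) (hAB : A ∪ B = (Z1 \ Z2) ∪ (Z2 \ Z1))
    (hd : Disjoint A B) (nA : A.Nonempty) (nB : B.Nonempty) :
    ∃ W1 W2 v k, Core M e f g W1 W2 ∧ W1 \ W2 = Z1 \ Z2 ∧ W2 \ W1 = Z2 \ Z1 ∧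
      (∀ x ∈ insert f (Z1 \ Z2), ∀ y ∈ insert e (Z2 \ Z1),
        T (insert f W1) x y = T (insert f Z1) x y) ∧
      Geo M e f g W1 (Z1 \ Z2) (Z2 \ Z1) A B v k := by
  classical
  have ht := h.tri
  have sAB : A ∪ B ⊆ M.E \ {e, f, g} :=
    hAB ▸ union_subset (sdiff_subset.trans h.left.sub) (sdiff_subset.trans h.right.sub)
  have ex0 : ∃ k, ∃ W1 W2, Core M e f g W1 W2 ∧ W1 \ W2 = Z1 \ Z2 ∧ W2 \ W1 = Z2 \ Z1 ∧
      (∀ x ∈ insert f (Z1 \ Z2), ∀ y ∈ insert e (Z2 \ Z1),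
        T (insert f W1) x y = T (insert f Z1) x y) ∧
      ∃ a ∈ A, ∃ b ∈ B, TwLen (Arc M e f g W1) k a b := by
    obtain ⟨k, hk⟩ := tw_exists ht hc h.left (subset_union_left.trans sAB)
      (subset_union_right.trans sAB) nA nB
    exact ⟨k, Z1, Z2, h, rfl, rfl, fun _ _ _ _ => rfl, hk⟩
  obtain ⟨W1, W2, hW, eX, eY, hE, a, ha, b, hb, hl⟩ := Nat.find_spec ex0
  have hmin := fun j => Nat.find_min' ex0 (m := j)
  generalize Nat.find ex0 = k at hl hmin
  obtain ⟨v, rfl, rfl, harc⟩ := hl.path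
  have hv : Way M e f g W1 A B v k := ⟨ha, hb, harc⟩
  have mn : ∀ j, ∀ a ∈ A, ∀ b ∈ B, TwLen (Arc M e f g W1) j a b → k ≤ j := fun j a ha b hb hl =>
    hmin j ⟨W1, W2, hW, eX, eY, hE, a, ha, b, hb, hl⟩
  have seg : ∀ i j, i ≤ j → j ≤ k → TwLen (Arc M e f g W1) (j - i) (v i) (v j) :=
    fun i j h1 h2 => tw_len h1 fun l _ h3 => harc l (by omega)
  have ns : ∀ i j, i + 2 ≤ j → j ≤ k → ∀ z w, (z = v i ∨ (i = 0 ∧ z ∈ A)) →
      (w = v j ∨ (j = k ∧ w ∈ B)) → ¬ Arc M e f g W1 z w := fun i j h1 h2 z w hz hw hzw => by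
    obtain ⟨a, a1, a2⟩ : ∃ a ∈ A, TwLen (Arc M e f g W1) (i - 0) a z := by
      rcases hz with rfl | ⟨rfl, hz⟩
      exacts [⟨_, ha, seg 0 i i.zero_le (by omega)⟩, ⟨z, hz, TwLen.zero z⟩]
    obtain ⟨b, b1, b2⟩ : ∃ b ∈ B, TwLen (Arc M e f g W1) (k - j) w b := by
      rcases hw with rfl | ⟨rfl, hw⟩
      exacts [⟨_, hb, seg j k h2 le_rfl⟩, ⟨w, hw, (Nat.sub_self j).symm ▸ TwLen.zero w⟩]
    have := mn _ a a1 b b1 ((a2.succ hzw).trans b2)
    omega
  have out : ∀ i, 0 < i → i < k → v i ∉ A ∪ B := fun i h1 h2 h3 => by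
    rcases h3 with h3 | h3
    · have := mn _ _ h3 _ hb (seg i k h2.le le_rfl)
      omega
    · have := mn _ _ ha _ h3 (seg 0 i h1.le h2.le)
      omega
  have inj : ∀ i j, 0 < i → i < j → j < k → v i ≠ v j := fun i j h1 h2 h3 h4 => by
    have := mn _ _ ha _ hb ((seg 0 i h1.le (by omega)).trans (h4 ▸ seg j k h3.le le_rfl))
    omega
  have inj' : ∀ i j, 0 < i → i < k → j ≤ k → j ≠ i → v j ≠ v i := fun i j h1 h2 h3 h4 h5 => by
    rcases Nat.eq_zero_or_pos j with rfl | h6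
    · exact out i h1 h2 (Or.inl (h5 ▸ ha))
    rcases h3.eq_or_lt with rfl | h7
    · exact out i h1 h2 (Or.inr (h5 ▸ hb))
    rcases h4.lt_or_gt with h8 | h8
    exacts [inj j i h6 h8 h2 h5, inj i j h1 h8 h7 h5.symm]
  have both : ∀ i, 0 < i → i < k → (v i ∈ W1 ↔ v i ∈ W2) := fun i h1 h2 => by
    have := out i h1 h2
    rw [hAB, ← eX, ← eY] at this
    exact ⟨fun c => by_contra fun d => this (Or.inl ⟨c, d⟩),
      fun c => by_contra fun d => this (Or.inr ⟨c, d⟩)⟩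
  have fin : ∀ i n m, i + 2 < k →
      ((n = v (i + 1) ∧ m = v (i + 2)) ∨ (m = v (i + 1) ∧ n = v (i + 2))) → n ∈ W1 → n ∈ W2 →
      m ∉ W1 → m ∉ W2 → Adj M (insert f W1) n m → Adj M (insert g W1) n m →
      Zb M e f g (ex W1 n m) ∧ Zb M e f g (ex W2 n m) →
      (∀ x ∈ insert f (W1 \ W2), ∀ y ∈ insert e (W2 \ W1),
        T (insert f W1) x m = 0 ∨ T (insert f W1) n y = 0) → False :=
    fun i n m h1 h2 n1 n2 m1 m2 a1 a2 hz h0 => by
      obtain ⟨c1, c2, c3⟩ := tw_core hW n1 n2 m1 m2 hz.1 hz.2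
      have nf := (tw_ne (hW.left.sub n1)).2.1
      have := hmin _ ⟨_, _, c1, c2.trans eX, c3.trans eY, fun x hx y hy => ?_, _, ha, _, hb,
        tw_short hT ht hW.left hv (fun i j h3 h4 => ns i j h3 h4 _ _ (Or.inl rfl) (Or.inl rfl))
          inj' h1 h2 n1 m1 a1 a2⟩
      · omega
      rw [← hE x hx y hy]
      rw [← eX] at hx
      rw [← eY] at hy
      rw [tw_ex nf.symm, hT.pivot_old hW.left.base a1 (hx.imp id fun c => c.1)
        fun c => hx.elim (fun d => nf (c.symm.trans d)) fun d => d.2 (c ▸ n2)]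
      rcases h0 x hx y hy with h3 | h3 <;> simp [h3]
  refine ⟨W1, W2, v, k, hW, eX, eY, hE, hv, ns, out, inj, fun i h1 h2 h3 => ?_,
    fun i h1 h2 h3 => ?_⟩
  · by_contra! h0
    obtain ⟨i, rfl⟩ : ∃ j, i = j + 1 := ⟨i - 1, by omega⟩
    have c0 := harc (i + 1) h2
    have a2 := tw_row c0 h3
    have a1 := (tw_fg hT ht hW.left h3 c0.2.1 (Or.inl (h0 g (Or.inl rfl)))).1 a2
    have m1 : v (i + 2) ∉ W1 := fun c => a1.2.1 (Or.inr c)
    have h4 : i + 2 < k := by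
      refine lt_of_le_of_ne h2 fun c => h0 (v (i + 2)) (Or.inr ?_) a1
      have c1 : v (i + 2) ∈ A ∪ B := Or.inr (c ▸ hb)
      rw [hAB] at c1
      exact c1.resolve_left fun d => m1 (eX ▸ d).1
    have n2 := (both _ h1 h2).1 h3
    have m2 := mt (both _ (by omega) h4).2 m1
    have z0 : ∀ y ∈ insert e (W2 \ W1), T (insert f W1) (v (i + 1)) y = 0 := fun y hy => by
      rcases hy with rfl | hy
      · have c1 := hs _ hW.left.base (v (i + 1))
        rw [hT.eq_zero hW.left.base (fun c => c.elim ht.2.2.1.symm (ta1_f (hW.left.swap ht)))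
          (h0 g (Or.inl rfl)), hT.off hW.left.base (mem_insert _ _)
          (tw_ne (hW.left.sub h3)).2.1, add_zero] at c1
        exact c1.symm
      · exact hT.eq_zero hW.left.base (fun c => c.elim (tw_ne (hW.right.sub hy.1)).2.1 hy.2)
          (h0 y (Or.inr (eY ▸ hy)))
    exact fin i _ _ h4 (Or.inl ⟨rfl, rfl⟩) h3 n2 m1 m2 a1 a2
      (tw_zrow hT hW h3 n2 m2 c0.2.1 a1 fun y hy => (xd3_zero hT hW.left.base a1.1
        (hy.elim (fun c => c ▸ (xc2_E ht).1) fun c => (hW.right.sub c.1).1)).1 (z0 y hy))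
      fun _ _ y hy => Or.inr (z0 y hy)
  · by_contra! h0
    obtain ⟨i, rfl⟩ : ∃ j, i = j + 1 := ⟨i - 1, by omega⟩
    have c0 := harc (i + 1) h2
    have a1 := tw_col c0 h3
    have n1 : v (i + 2) ∈ W1 := c0.mem_iff.2 h3
    have a2 := (tw_fg hT ht hW.left n1 c0.1 (Or.inr (h0 f (Or.inl rfl)))).2 a1
    have h4 : i + 2 < k := by
      refine lt_of_le_of_ne h2 fun c => h0 (v (i + 2)) (Or.inr ?_) a1
      have c1 : v (i + 2) ∈ A ∪ B := Or.inr (c ▸ hb)
      rw [hAB] at c1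
      exact c1.resolve_right fun d => (eY ▸ d).2 n1
    have n2 := (both _ (by omega) h4).1 n1
    have m2 := mt (both _ h1 h2).2 h3
    rw [← eX] at h0
    exact fin i _ _ h4 (Or.inr ⟨rfl, rfl⟩) n1 n2 h3 m2 a1 a2
      (tw_zcol hT hW n1 n2 m2 c0.1 a1 h0)
      fun x hx _ _ => Or.inl (hT.eq_zero hW.left.base a1.2.1 (h0 x hx))

end Pool.Agent.Lib.MP_10bdcf_co.G
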