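import Pool.Agent.Lib.MP_10bdcf_co.TK0
import Pool.Agent.Lib.MP_10bdcf_co.TW
import Pool.Agent.Lib.MP_10bdcf_co.TA3

/-!
Soundness of the checker.
-/

namespace Pool.Agent.Lib.MP_10bdcf_co.G

open scoped Matroid
open Set

set_option linter.unusedSectionVars false

variable {E : Type} [Fintype E] {M : Matroid E} {T : Set E → Matrix E E R0} {Z1 Z2 : Set E}
  {e f g : E} {d k : ℕ} {s : Bool} {el : ℕ → E}

/-- A labelled core with the first `k` inner points of a shortest path. -/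
structure Sc (M : Matroid E) (T : Set E → Matrix E E R0) (e f g : E) (Z1 Z2 : Set E) (d k : ℕ)
    (s : Bool) (el : ℕ → E) : Prop where
  nm : CoreN M T e f g Z1 Z2
  card : (Z1 \ Z2).ncard = d
  hd : d = 2 ∨ d = 3
  hk : k ≤ 4
  e6 : el 6 = e
  e7 : el 7 = f
  e8 : el 8 = g
  inj : ∀ i j, inQ d k i = true → inQ d k j = true → el i = el j → i = j
  gr : ∀ l, inQ d k l = true → el l ∈ M.E \ {e, f, g}
  r1 : ∀ l, inQ d k l = true → (el l ∈ Z1 ↔ isRow s l = true)
  r2 : ∀ l, inQ d k l = true → (el l ∈ Z2 ↔ isRow' s l = true)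
  out : ∀ z, (∀ l, inQ d k l = true → z ≠ el l) → (z ∈ Z1 ↔ z ∈ Z2)
  ent : ∀ i < d, ∀ j < d, tvl (T (insert f Z1) (el i) (el (3 + j))) = cm d i j
  ns : ∀ u w, inQ d k u = true → inQ d k w = true → kpos d k u + 2 ≤ kpos d k w →
    ¬ Arc M e f g Z1 (el u) (el w)
  gp : ∀ i, i < k ∨ (i = k ∧ k < 4) → ∃ u w, inQ d k u = true ∧ inQ d k w = true ∧
    kpos d k u = i ∧ kpos d k w = i + 1 ∧ Arc M e f g Z1 (el u) (el w)
  nr : ∀ l, 9 ≤ l → l < 9 + k → isRow s l = true → T (insert f Z1) (el l) g = 1 ∨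
    (T (insert f Z1) (el l) g = 0 ∧ ∃ j < d, T (insert f Z1) (el l) (el (3 + j)) = 1)
  nc : ∀ l, 9 ≤ l → l < 9 + k → isRow s l = false → T (insert f Z1) f (el l) = 1 ∨
    (T (insert f Z1) f (el l) = 0 ∧ ∃ i < d, T (insert f Z1) (el i) (el l) = 1)

theorem tk_blt {a b : ℕ} (h : a < b) : a.blt b = true := by simpa using h

theorem tk_ble {a b : ℕ} (h : a ≤ b) : a.ble b = true := by simpa using h

theorem tk_nble {a b : ℕ} (h : ¬ a ≤ b) : a.ble b = false := by simpa [← Bool.not_eq_true] using h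

theorem tk_nbeq {a b : ℕ} (h : a ≠ b) : a.beq b = false := by simpa [← Bool.not_eq_true] using h

theorem tk_inL {l : ℕ} : inL d k l = true ↔ l < d ∨ (3 ≤ l ∧ l < 3 + d) ∨ (6 ≤ l ∧ l < 9 + k) := by
  simp [inL, or_assoc]

theorem tk_inQ {l : ℕ} : inQ d k l = true ↔ l < d ∨ (3 ≤ l ∧ l < 3 + d) ∨ (9 ≤ l ∧ l < 9 + k) := by
  simp [inQ, or_assoc]

theorem tk_row {l : ℕ} (hl : l < 9) : isRow s l = true ↔ l < 3 ∨ l = 7 := by
  simp [isRow, tk_blt hl]

theorem tk_isZ {o : Option ℕ} (h : isZ o = true) : o = some 0 := by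
  cases o with
  | none => simp [isZ] at h
  | some a => simpa [isZ] using h

theorem tk_elim {o : Option ℕ} {F : ℕ → Bool} (h : o.elim false F = true) :
    ∃ a, o = some a ∧ F a = true := by
  cases o with
  | none => simp at h
  | some a => exact ⟨a, rfl, h⟩

theorem tk_lkp {n v : ℕ} {kn : List (ℕ × ℕ)} (h : lkp n kn = some v) : (n, v) ∈ kn := by
  induction kn with
  | nil => simp [lkp] at h
  | cons p t ih =>
    by_cases hp : p.1 = n
    · simp only [lkp, hp, Nat.beq_refl, cond_true, Option.some.injEq] at h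
      exact List.mem_cons.2 (Or.inl (by rw [← hp, ← h]))
    · rw [lkp, tk_nbeq hp, cond_false] at h
      exact List.mem_cons_of_mem _ (ih h)

theorem tk_ok {a b : R0} (ha : InP a) (hb : InP b) (hab : InP (a - b)) :
    x0 b = 0 ∨ ∃ s ∈ pvL, (s : Fp) * x0 b = x0 a := by
  have h := okD_of ha hb hab
  simp only [okD, Bool.or_eq_true, beq_iff_eq, List.any_eq_true, ZMod.val_eq_zero] at h
  refine h.imp_right fun ⟨s, hs, h⟩ => ⟨s, hs, ?_⟩
  have := congrArg (Nat.cast : ℕ → Fp) h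
  rwa [ZMod.natCast_mod, Nat.cast_mul, ZMod.natCast_zmod_val, ZMod.natCast_zmod_val] at this

theorem tk_blk (hT : U2 M T) {B : Set E} (hB : M.IsBase B) (a b c w : E) :
    x0 (T B a w) * x0 (T B b c) = 0 ∨
      ∃ s ∈ pvL, (s : Fp) * (x0 (T B a w) * x0 (T B b c)) = x0 (T B a c) * x0 (T B b w) := by
  simpa only [map_mul] using tk_ok ((hT.inP hB a c).mul (hT.inP hB b w))
    ((hT.inP hB a w).mul (hT.inP hB b c)) (hT.d2_inP hB a b c w)

namespace Sc

variable (h : Sc M T e f g Z1 Z2 d k s el)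
include h

theorem cases {l : ℕ} (hl : inL d k l = true) : inQ d k l = true ∨ l = 6 ∨ l = 7 ∨ l = 8 := by
  rw [tk_inL] at hl
  rw [tk_inQ]
  omega

theorem qL {l : ℕ} (hl : inQ d k l = true) : inL d k l = true := by
  rw [tk_inQ] at hl
  rw [tk_inL]
  omega

theorem lt13 {l : ℕ} (hl : inL d k l = true) : l < 13 := by
  have := h.hd
  have := h.hk
  rw [tk_inL] at hl
  omega

theorem injL {i j : ℕ} (hi : inL d k i = true) (hj : inL d k j = true) (he : el i = el j) :
    i = j := by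
  obtain ⟨t1, t2, t3, -⟩ := h.nm.core.tri
  have q := fun l hl => tw_ne (h.gr l hl)
  have e6 := h.e6
  have e7 := h.e7
  have e8 := h.e8
  rcases h.cases hi with a | rfl | rfl | rfl <;> rcases h.cases hj with b | rfl | rfl | rfl
  · exact h.inj _ _ a b he
  all_goals first | rfl | (exfalso; grind)

theorem memB {l : ℕ} (hl : inL d k l = true) : el l ∈ insert f Z1 ↔ isRow s l = true := by
  obtain ⟨t1, t2, t3, -⟩ := h.nm.core.tri
  have q := fun z hz => tw_ne (h.nm.core.left.sub (a := z) hz)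
  rcases h.cases hl with a | rfl | rfl | rfl
  · rw [← h.r1 l a, mem_insert_iff, or_iff_right (tw_ne (h.gr l a)).2.1]
  · rw [h.e6, tk_row (by omega)]
    exact iff_of_false (fun h' => h'.elim t1 fun h' => (q _ h').1 rfl) (by omega)
  · rw [h.e7, tk_row (by omega)]
    exact iff_of_true (mem_insert _ _) (by omega)
  · rw [h.e8, tk_row (by omega)]
    exact iff_of_false (fun h' => h'.elim t3.symm fun h' => (q _ h').2.2 rfl) (by omega)

theorem memX {i : ℕ} (hi : i < d) : el i ∈ Z1 \ Z2 := by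
  have := h.hd
  have a : inQ d k i = true := tk_inQ.2 (Or.inl hi)
  refine ⟨(h.r1 i a).2 ((tk_row (by omega)).2 (by omega)), fun h' => ?_⟩
  have := (h.r2 i a).1 h'
  rw [isRow', tk_blt (by omega), cond_true, Nat.ble_eq] at this
  omega

theorem memY {j : ℕ} (h3 : 3 ≤ j) (hj : j < 3 + d) : el j ∈ Z2 \ Z1 := by
  have := h.hd
  have a : inQ d k j = true := tk_inQ.2 (Or.inr (Or.inl ⟨h3, hj⟩))
  refine ⟨(h.r2 j a).2 ?_, fun h' => ?_⟩
  · rw [isRow', tk_blt (by omega), cond_true, Nat.ble_eq]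
    exact h3
  · have := (tk_row (by omega)).1 ((h.r1 j a).1 h')
    omega

end Sc

/-- The listed entries are correct. -/
def KnS (T : Set E → Matrix E E R0) (B : Set E) (el : ℕ → E) (kn : List (ℕ × ℕ)) : Prop :=
  ∀ p ∈ kn, (p.2 : Fp) = x0 (T B (el (p.1 / 16)) (el (p.1 % 16)))

theorem KnS.cons {B : Set E} {kn : List (ℕ × ℕ)} (hk : KnS T B el kn) {n i j v : ℕ} (hj : j < 16)
    (hn : n = 16 * i + j) (hv : (v : Fp) = x0 (T B (el i) (el j))) : KnS T B el ((n, v) :: kn) := by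
  intro p hp
  rcases List.mem_cons.1 hp with rfl | hp
  · rwa [show n / 16 = i by omega, show n % 16 = j by omega]
  · exact hk p hp

namespace Sc

variable (h : Sc M T e f g Z1 Z2 d k s el) {kn : List (ℕ × ℕ)} {i j v : ℕ}
include h

theorem lk_ok (hk : KnS T (insert f Z1) el kn) (hi : inL d k i = true) (hr : isRow s i = true)
    (hj : inL d k j = true) (hc : isRow s j = false) (h6 : j = 6 → i = 7)
    (hv : lk d kn i j = some v) : (v : Fp) = x0 (T (insert f Z1) (el i) (el j)) := by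
  have hd := h.hd
  have l13 := h.lt13 hj
  by_cases hs : i < 8 ∧ j < 9
  swap
  · have : (i.blt 8 && j.blt 9) = false := by simpa [← Bool.not_eq_true] using hs
    rw [lk, this, cond_false, evN_eq] at hv
    have := hk _ (tk_lkp hv)
    rwa [show (16 * i + j) / 16 = i by omega, show (16 * i + j) % 16 = j by omega] at this
  have r1 := (tk_row (by omega)).1 hr
  have r2 : ¬ (j < 3 ∨ j = 7) := fun h' => by simp [(tk_row hs.2).2 h'] at hc
  rw [tk_inL] at hi hj
  rw [lk, tk_blt hs.1, tk_blt hs.2, Bool.and_self, cond_true, Option.some.injEq] at hv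
  subst hv
  by_cases h8 : j = 8
  · subst h8
    rcases r1 with r1 | rfl
    · have := h.memX (i := i) (by omega)
      simp [h.e8, h.nm.zg this.1, h.nm.col _ this]
    · simp [h.e8, h.e7, h.nm.fg]
  rw [tk_nbeq h8, cond_false]
  rcases r1 with r1 | rfl
  · have := h.ent i (by omega) (j - 3) (by omega)
    rw [show 3 + (j - 3) = j by omega] at this
    rw [tk_blt r1, cond_true, ← this, tvl, ZMod.natCast_zmod_val]
  · rw [show Nat.blt 7 3 = false from rfl, cond_false]
    by_cases h6 : j = 6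
    · subst h6
      simp [h.e6, h.e7, h.nm.fe]
    · have := h.nm.row _ (h.memY (j := j) (by omega) (by omega))
      simp [tk_nbeq h6, h.e7, this]

theorem frc_ok (hk : KnS T (insert f Z1) el kn) (hi : inL d k i = true) (hr : isRow s i = true)
    (hj : inL d k j = true) (hc : isRow s j = false) (hv : frc d k kn i j = some v) :
    (v : Fp) = x0 (T (insert f Z1) (el i) (el j)) := by
  by_cases h0 : i = 7 ∨ j = 6 ∨ j = 8
  · have : (i.beq 7 || j.beq 6 || j.beq 8) = true := by simpa [or_assoc] using h0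
    simp [frc, this] at hv
  have h1 : (i.beq 7 || j.beq 6 || j.beq 8) = false := by simpa [← Bool.not_eq_true, or_assoc] using h0
  have qi : inQ d k i = true := by
    rcases h.cases hi with a | rfl | rfl | rfl
    exacts [a, absurd hr Bool.false_ne_true, by omega, absurd hr Bool.false_ne_true]
  have qj : inQ d k j = true := by
    rcases h.cases hj with a | rfl | rfl | rfl
    exacts [a, by omega, absurd hc.symm Bool.false_ne_true, by omega]
  have zi := (h.r1 i qi).2 hr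
  have zj : el j ∉ Z1 := fun h' => by simp [(h.r1 j qj).1 h'] at hc
  have nj := tw_ne (h.gr j qj)
  rw [frc, h1, cond_false] at hv
  by_cases h2 : kpos d k j + 2 ≤ kpos d k i
  · rw [tk_ble h2, cond_true, Option.some.injEq] at hv
    rw [← hv, h.nm.tab.eq_zero h.nm.core.left.base (fun h' => h'.elim nj.2.1 zj)
      fun a => h.ns j i qj qi h2 ⟨h.gr j qj, h.gr i qi, Or.inl a⟩]
    simp
  rw [tk_nble h2, cond_false] at hv
  by_cases h3 : kpos d k i + 2 ≤ kpos d k j
  swap
  · simp [tk_nble h3] at hv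
  rw [tk_ble h3, cond_true] at hv
  obtain ⟨a, ha, hv⟩ := Option.bind_eq_some_iff.1 hv
  obtain ⟨b, hb, hv⟩ := Option.bind_eq_some_iff.1 hv
  have e1 := h.lk_ok hk hi hr (tk_inL.2 (by omega)) rfl (by omega) ha
  have e2 := h.lk_ok hk (tk_inL.2 (by omega)) rfl hj hc (by omega) hb
  have e3 := h.nm.at_g zi (el j)
  rw [h.nm.tab.eq_zero (h.nm.core.left.swap h.nm.core.tri).base (fun h' => h'.elim nj.2.2 zj)
    fun a => h.ns i j qi qj h3 ⟨h.gr i qi, h.gr j qj, Or.inr a⟩, eq_comm, sub_eq_zero] at e3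
  rw [← Option.some.inj hv, mlm_cast, e1, e2, e3, h.e8, h.e7, h.nm.zg zi, map_mul]

theorem tb0_ok (hk : KnS T (insert f Z1) el kn) (hi : inL d k i = true) (hr : isRow s i = true)
    (hj : inL d k j = true) (hv : tb0 d k s kn i j = some v) :
    (v : Fp) = x0 (T (insert f Z1) (el i) (el j)) := by
  have hB := h.nm.core.left.base
  cases hc : isRow s j
  swap
  · rw [tb0, hc, cond_true, Option.some.injEq] at hv
    subst hv
    by_cases hij : i = j
    · subst hij
      simp [h.nm.tab.diag _ hB _ ((h.memB hi).2 hr)]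
    · simp [tk_nbeq hij,
        h.nm.tab.off hB ((h.memB hj).2 hc) fun h' => hij (h.injL hi hj h')]
  rw [tb0, hc, cond_false] at hv
  cases hl : lk d kn i (bif j.beq 6 && !i.beq 7 then 8 else j) with
  | none => exact h.frc_ok hk hi hr hj hc (by simpa [hl] using hv)
  | some a =>
    rw [hl, Option.elim_some, Option.some.injEq] at hv
    subst hv
    by_cases h6 : j = 6 ∧ i ≠ 7
    · obtain ⟨rfl, h7⟩ := h6
      rw [tk_nbeq h7] at hl
      change lk d kn i 8 = some a at hl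
      have zi : el i ∈ Z1 := ((h.memB hi).2 hr).resolve_left fun h' =>
        h7 (h.injL hi (tk_inL.2 (by omega)) (h'.trans h.e7.symm))
      rw [h.lk_ok hk hi hr (tk_inL.2 (by omega)) rfl (by omega) hl, h.e8, h.e6,
        h.nm.zg zi]
    · have : (j.beq 6 && !i.beq 7) = false := by simpa [← Bool.not_eq_true] using h6
      rw [this] at hl
      exact h.lk_ok (j := j) hk hi hr hj hc (by omega) hl

end Sc

/-- The state of the checker describes the tableau of the base `B` up to scaling of the rows. -/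
structure St (M : Matroid E) (T : Set E → Matrix E E R0) (B0 : Set E) (d k : ℕ) (el : ℕ → E)
    (r : ℕ) (B : Set E) (b : ℕ → Bool) (A : ℕ → ℕ → Option ℕ) : Prop where
  base : M.IsBase B
  sub : ∀ l, b l = true → inL d k l = true
  mem : ∀ l, inL d k l = true → (el l ∈ B ↔ b l = true)
  out : ∀ z, (∀ l, inL d k l = true → z ≠ el l) → (z ∈ B ↔ z ∈ B0)
  val : ∀ i, b i = true → ∃ ρ : Fp, ρ ≠ 0 ∧ (i = r → el r ∈ B0 → ρ = 1) ∧
    ∀ j, inL d k j = true → ∀ v, A i j = some v → (v : Fp) = ρ * x0 (T B (el i) (el j))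
  fix : inL d k r = true → el r ∈ B0 → b r = true ∧ ∀ w, T B (el r) w = T B0 (el r) w

/-- The set `Z` is the base described by `b` without `f`. -/
structure Rp (f : E) (Z1 : Set E) (d k : ℕ) (el : ℕ → E) (b : ℕ → Bool) (Z : Set E) : Prop where
  mem : ∀ l, inL d k l = true → l ≠ 7 → (el l ∈ Z ↔ b l = true)
  nf : f ∉ Z
  out : ∀ z, (∀ l, inL d k l = true → z ≠ el l) → (z ∈ Z ↔ z ∈ Z1)

namespace Sc

variable (h : Sc M T e f g Z1 Z2 d k s el) {kn : List (ℕ × ℕ)} {r : ℕ} {B : Set E} {b : ℕ → Bool}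
  {A : ℕ → ℕ → Option ℕ}
include h

theorem st0 (hk : KnS T (insert f Z1) el kn) (r : ℕ) : St M T (insert f Z1) d k el r (insert f Z1)
    (fun l => inL d k l && isRow s l) (tb0 d k s kn) := by
  refine ⟨h.nm.core.left.base, fun l hl => (Bool.and_eq_true_iff.1 hl).1,
    fun l hl => by simp [h.memB hl, hl], fun _ _ => Iff.rfl, fun i hi => ?_,
    fun h1 h2 => ⟨by simp [h1, (h.memB h1).1 h2], fun _ => rfl⟩⟩
  obtain ⟨h1, h2⟩ := Bool.and_eq_true_iff.1 hi
  exact ⟨1, one_ne_zero, fun _ _ => rfl, fun j hj v hv => by rw [one_mul, h.tb0_ok hk h1 h2 hj hv]⟩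

theorem piv (hs : St M T (insert f Z1) d k el r B b A) {a y p : ℕ} (ha : b a = true)
    (hy : b y = false) (hL : inL d k y = true) (hr : b r = true → r ≠ a ∧ A r y = some 0)
    (hp : A a y = some p) (hp0 : (p : Fp) ≠ 0) :
    St M T (insert f Z1) d k el r (ex B (el a) (el y))
      (fun l => l.beq y || (!l.beq a && b l)) (pvA A a y p) := by
  have hT := h.nm.tab
  have aL := hs.sub a ha
  obtain ⟨ρ, r0, -, rv⟩ := hs.val a ha
  have e1 := rv y hL p hp
  have yB : el y ∉ B := fun h' => by simp [(hs.mem y hL).1 h'] at hy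
  have adj : Adj M B (el a) (el y) := (hT.ne_zero_iff hs.base yB).1 fun h' => hp0 (by simp [e1, h'])
  have e2 := congrArg x0 (hT.inv_mul hs.base adj)
  rw [map_mul, map_one] at e2
  have old : ∀ i, b i = true → i ≠ a → ∀ w, T (ex B (el a) (el y)) (el i) w = T B (el i) w -
      T B (el i) (el y) * T (ex B (el a) (el y)) (el y) (el a) * T B (el a) w := fun i hi hia =>
    hT.pivot_old hs.base adj ((hs.mem i (hs.sub i hi)).2 hi)
      fun h' => hia (h.injL (hs.sub i hi) aL h')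
  have zer : ∀ i, b i = true → A i y = some 0 → T B (el i) (el y) = 0 := fun i hi h0 => by
    obtain ⟨σ, s0, -, sv⟩ := hs.val i hi
    have := sv y hL 0 h0
    rw [Nat.cast_zero, eq_comm, mul_eq_zero, or_iff_right s0] at this
    exact ((hT.inP hs.base _ _).map_eq_zero x0).1 this
  refine ⟨adj.2.2, fun l hl => ?_, fun l hl => ?_, fun z hz => ?_, fun i hi => ?_, fun h1 h2 => ?_⟩
  · simp only [Bool.or_eq_true, Nat.beq_eq, Bool.and_eq_true] at hl
    exact hl.elim (fun h' => h' ▸ hL) fun h' => hs.sub l h'.2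
  · simp only [mem_ex, Bool.or_eq_true, Nat.beq_eq, Bool.and_eq_true, Bool.not_eq_true',
      ← Bool.not_eq_true, hs.mem l hl]
    have i1 : el l = el y ↔ l = y := ⟨h.injL hl hL, fun h' => h' ▸ rfl⟩
    have i2 : el l = el a ↔ l = a := ⟨h.injL hl aL, fun h' => h' ▸ rfl⟩
    rw [i1, Ne, i2, and_comm]
  · rw [mem_ex, ← hs.out z hz]
    simp [hz y hL, hz a aL]
  · by_cases hiy : i = y
    · subst hiy
      refine ⟨p, hp0, fun h1 h2 => ?_, fun j hj v hv => ?_⟩
      · subst h1
        simp [(hs.fix hL h2).1] at hy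
      · rw [pvA, Nat.beq_refl, cond_true] at hv
        rw [rv j hj v hv, e1, hT.pivot_new hs.base adj, map_mul]
        linear_combination (-ρ * x0 (T B (el a) (el j))) * e2
    simp only [tk_nbeq hiy, Bool.false_or, Bool.and_eq_true, Bool.not_eq_true',
      ← Bool.not_eq_true, Nat.beq_eq] at hi
    obtain ⟨σ, s0, s1, sv⟩ := hs.val i hi.2
    cases hz : isZ (A i y)
    swap
    · refine ⟨σ, s0, s1, fun j hj v hv => ?_⟩
      rw [pvA, tk_nbeq hiy, cond_false, hz, cond_true] at hv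
      rw [sv j hj v hv, old i hi.2 hi.1, zer i hi.2 (tk_isZ hz)]
      simp
    refine ⟨σ * p, mul_ne_zero s0 hp0, fun h1 _ => ?_, fun j hj v hv => ?_⟩
    · subst h1
      simp [(hr hi.2).2, isZ] at hz
    rw [pvA, tk_nbeq hiy, cond_false, hz, cond_false] at hv
    obtain ⟨x, hx, hv⟩ := Option.bind_eq_some_iff.1 hv
    obtain ⟨w, hw, hv⟩ := Option.bind_eq_some_iff.1 hv
    have e3 := sv j hj x hx
    have e4 := rv j hj w hw
    rw [old i hi.2 hi.1, map_sub, map_mul, map_mul]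
    by_cases w0 : w = 0
    · subst w0
      rw [Nat.cast_zero, eq_comm, mul_eq_zero, or_iff_right r0] at e4
      rw [← Option.some.inj hv, mlm_cast, e3, e4]
      ring
    · rw [tk_nbeq w0, cond_false] at hv
      obtain ⟨u, hu, hv⟩ := Option.bind_eq_some_iff.1 hv
      rw [← Option.some.inj hv, sbm_cast, mlm_cast, mlm_cast, e3, e4, sv y hL u hu, e1]
      linear_combination (σ * ρ * x0 (T B (el i) (el y)) * x0 (T B (el a) (el j))) * e2
  · obtain ⟨h3, h4⟩ := hs.fix h1 h2
    obtain ⟨h5, h6⟩ := hr h3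
    refine ⟨by simp [tk_nbeq h5, h3], fun w => ?_⟩
    rw [old r h3 h5, zer r h3 h6, h4]
    simp

theorem run_ok {F : (ℕ → Bool) → (ℕ → ℕ → Option ℕ) → Bool} (m : ℕ) : ∀ n B b A,
    St M T (insert f Z1) d k el r B b A → krun d k r F m n b A = true →
      ∃ B b A, St M T (insert f Z1) d k el r B b A ∧ F b A = true := by
  induction m with
  | zero => intro n B b A _ h1; simp [krun] at h1
  | succ m ih =>
    intro n B b A hs h1
    rw [krun] at h1
    cases hn : n.beq 0
    swap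
    · rw [hn, cond_true] at h1
      exact ⟨B, b, A, hs, h1⟩
    simp only [hn, cond_false, evN_eq, Bool.and_eq_true, Bool.not_eq_true', Bool.or_eq_true] at h1
    obtain ⟨⟨⟨⟨a1, a2⟩, a3⟩, a4⟩, a5⟩ := h1
    obtain ⟨p, hp, a5⟩ := tk_elim a5
    simp only [Bool.and_eq_true, Bool.not_eq_true', ← Bool.not_eq_true, Nat.beq_eq] at a5
    refine ih _ _ _ _ (h.piv hs a1 a2 a3 (fun h' => ?_) hp fun h' => a5.1 ?_) a5.2
    · obtain a4 := a4.resolve_left (by simp [h'])
      exact ⟨fun h'' => by simp [h''] at a4, tk_isZ a4.2⟩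
    · exact Nat.mod_eq_zero_of_dvd ((ZMod.natCast_eq_zero_iff _ _).1 h')

theorem bad_no (hs : St M T (insert f Z1) d k el r B b A) (a c u w : ℕ) :
    badB d k a c u w b A ≠ true := by
  intro h1
  simp only [badB, Bool.and_eq_true] at h1
  obtain ⟨⟨⟨⟨a1, a2⟩, a3⟩, a4⟩, h1⟩ := h1
  obtain ⟨p1, e1, h1⟩ := tk_elim h1
  obtain ⟨p2, e2, h1⟩ := tk_elim h1
  obtain ⟨p3, e3, h1⟩ := tk_elim h1
  obtain ⟨p4, e4, h1⟩ := tk_elim h1
  obtain ⟨ρ, -, -, rv⟩ := hs.val a a1
  obtain ⟨σ, -, -, sv⟩ := hs.val c a2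
  rw [okE_of_eq] at h1
  · exact nomatch h1
  rw [mlm_cast, mlm_cast, rv u a3 _ e1, sv w a4 _ e2, rv w a4 _ e3, sv u a3 _ e4]
  rcases tk_blk h.nm.tab hs.base (el a) (el c) (el u) (el w) with h2 | ⟨t, ht, h2⟩
  · exact Or.inl (by linear_combination ρ * σ * h2)
  · exact Or.inr ⟨t, ht, by linear_combination ρ * σ * h2⟩

theorem near_ok {b' : ℕ → Bool} {Z Z' : Set E} (h1 : Rp f Z1 d k el b Z) (h2 : Rp f Z1 d k el b' Z')
    (hn : knear d b b' = true) : (Z \ Z').ncard < (Z1 \ Z2).ncard := by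
  classical
  rw [knear, Nat.blt_eq, List.countP_eq_length_filter] at hn
  have : Z \ Z' ⊆ ((((List.range 13).filter fun l => b l && !b' l).map el).toFinset : Set E) := by
    intro z hz
    by_contra hc
    refine hz.2 ((h2.out z fun l hl he => hc ?_).2 ((h1.out z fun l hl he => hc ?_).1 hz.1)) <;>
    · subst he
      have h7 : l ≠ 7 := fun h' => h1.nf (h.e7 ▸ h' ▸ hz.1)
      simp only [List.coe_toFinset, List.mem_map, List.mem_filter, List.mem_range, mem_ofPred_eq]
      exact ⟨l, ⟨h.lt13 hl, by simp [(h1.mem l hl h7).1 hz.1, ← Bool.not_eq_true,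
        ← h2.mem l hl h7, hz.2]⟩, rfl⟩
  refine (ncard_le_ncard this).trans_lt ?_
  rw [ncard_coe_finset, h.card]
  exact (List.toFinset_card_le _).trans_lt (by simpa using hn)

theorem rp1 : Rp f Z1 d k el (fun l => inL d k l && isRow s l) Z1 := by
  refine ⟨fun l hl h7 => ?_, ta1_f h.nm.core.left, fun _ _ => Iff.rfl⟩
  have : el l ≠ f := fun h' => h7 (h.injL hl (tk_inL.2 (by omega)) (h'.trans h.e7.symm))
  simp [hl, ← h.memB hl, this]

theorem rp2 : Rp f Z1 d k el (fun l => inL d k l && isRow' s l) Z2 := by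
  refine ⟨fun l hl h7 => ?_, ta1_f h.nm.core.right,
    fun z hz => (h.out z fun l hl => hz l (h.qL hl)).symm⟩
  have q := fun z hz => tw_ne (h.nm.core.right.sub (a := z) hz)
  rcases h.cases hl with a | rfl | rfl | rfl
  · simp [hl, h.r2 l a]
  · exact iff_of_false (fun h' => (q _ h').1 h.e6) (by simp [show isRow' s 6 = false from rfl])
  · omega
  · exact iff_of_false (fun h' => (q _ h').2.2 h.e8) (by simp [show isRow' s 8 = false from rfl])

theorem chn_no (hk : KnS T (insert f Z1) el kn) (m : ℕ) : ∀ n b Z, Rp f Z1 d k el b Z →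
    Zb M e f g Z → Relation.ReflTransGen (ZStep M e f g (Z1 \ Z2).ncard) Z1 Z →
      chn d k s (tb0 d k s kn) m n b ≠ true := by
  induction m with
  | zero => intro n b Z _ _ _ h1; simp [chn] at h1
  | succ m ih =>
    intro n b Z hp hZ hr h1
    rw [chn] at h1
    cases hn : n.beq 0
    swap
    · rw [hn, cond_true] at h1
      exact h.nm.core.far (hr.tail ⟨hZ, h.nm.core.right, h.near_ok hp h.rp2 h1⟩)
    rw [hn, cond_false] at h1
    obtain ⟨B, b', A', hs, h2⟩ := h.run_ok _ _ _ _ _ (h.st0 hk 15) h1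
    simp only [Bool.and_eq_true, Bool.not_eq_true'] at h2
    obtain ⟨⟨⟨⟨⟨a7, a6⟩, a8⟩, a0⟩, a1⟩, a2⟩ := h2
    have L7 : inL d k 7 = true := tk_inL.2 (by omega)
    have fB : f ∈ B := h.e7 ▸ (hs.mem 7 L7).2 a7
    have p' : Rp f Z1 d k el b' (B \ {f}) := by
      refine ⟨fun l hl h7 => ?_, fun h' => h'.2 rfl, fun z hz => ?_⟩
      · have : el l ≠ f := fun h' => h7 (h.injL hl L7 (h'.trans h.e7.symm))
        simp [← hs.mem l hl, this]
      · have : z ≠ f := h.e7 ▸ hz 7 L7
        simp [hs.out z hz, this]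
    have z' : Zb M e f g (B \ {f}) := by
      refine ⟨fun z hz => ?_, by rw [insert_sdiff_self_of_mem fB]; exact hs.base, ?_⟩
      · by_cases hl : ∀ l, inL d k l = true → z ≠ el l
        · exact h.nm.core.left.sub ((p'.out z hl).1 hz)
        push Not at hl
        obtain ⟨l, hl, rfl⟩ := hl
        have := (hs.mem l hl).1 hz.1
        rcases h.cases hl with a | rfl | rfl | rfl
        exacts [h.gr l a, by simp [a6] at this, absurd h.e7 hz.2, by simp [a8] at this]
      · obtain ⟨ρ, r0, -, rv⟩ := hs.val 7 a7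
        have := rv 6 (tk_inL.2 (by omega)) 0 (tk_isZ a0)
        rw [Nat.cast_zero, eq_comm, mul_eq_zero, or_iff_right r0, h.e7, h.e6] at this
        exact (xd3_zero h.nm.tab hs.base fB (xc2_E h.nm.core.tri).1).1
          (((h.nm.tab.inP hs.base _ _).map_eq_zero x0).1 this)
    exact ih _ _ _ p' z' (hr.tail ⟨hZ, z', h.near_ok hp p' a1⟩) a2

theorem noA_no (hk : KnS T (insert f Z1) el kn) {u w : ℕ} (hu : inQ d k u = true)
    (hw : inQ d k w = true) (ha : Arc M e f g Z1 (el u) (el w)) :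
    noA s (tb0 d k s kn) u w ≠ true := by
  intro h1
  have hT := h.nm.tab
  simp only [noA, Bool.and_eq_true, Bool.or_eq_true, Bool.not_eq_true'] at h1
  have hm := ha.mem_iff
  rw [h.r1 u hu, h.r1 w hw] at hm
  cases ru : isRow s u
  · have rw' : isRow s w = true := by simpa [ru] using hm
    have := h.tb0_ok hk (h.qL hw) rw' (h.qL hu) (tk_isZ (h1.1.resolve_left (by simp [ru, rw'])))
    exact hT.ne_zero h.nm.core.left.base (tw_col ha (by simp [h.r1 u hu, ru]))
      (((hT.inP h.nm.core.left.base _ _).map_eq_zero x0).1 (by simpa using this.symm))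
  · have rw' : isRow s w = false := by simpa [ru] using hm
    have zu := (h.r1 u hu).2 ru
    obtain ⟨x, e1, h2⟩ := tk_elim (h1.2.resolve_left (by simp [ru, rw']))
    obtain ⟨a, e2, h2⟩ := tk_elim h2
    obtain ⟨c, e3, h2⟩ := tk_elim h2
    have q1 := h.tb0_ok hk (h.qL hu) ru (h.qL hw) e1
    have q2 := h.tb0_ok hk (h.qL hu) ru (tk_inL.2 (by omega)) e2
    have q3 := h.tb0_ok hk (tk_inL.2 (by omega)) rfl (h.qL hw) e3
    have gB := (h.nm.core.left.swap h.nm.core.tri).base
    refine hT.ne_zero gB (tw_row ha zu) (((hT.inP gB _ _).map_eq_zero x0).1 ?_)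
    rw [h.e8, h.nm.zg zu] at q2
    rw [h.e7] at q3
    rw [h.nm.at_g zu, map_sub, map_mul, ← q1, ← q2, ← q3, Nat.eq_of_beq_eq_true h2, mlm_cast,
      sub_self]

theorem leaf_no (hk : KnS T (insert f Z1) el kn) (c : ℕ) : kleaf d k s kn c ≠ true := by
  intro h1
  rw [kleaf] at h1
  cases h0 : (c % 16).beq 0
  swap
  · simp only [h0, cond_true, evN_eq] at h1
    obtain ⟨B, b, A, hs, h2⟩ := h.run_ok _ _ _ _ _ (h.st0 hk 15) h1
    exact h.bad_no hs _ _ _ _ h2
  rw [h0, cond_false] at h1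
  cases h0 : (c % 16).beq 1
  swap
  · simp only [h0, cond_true, Bool.and_eq_true, Bool.or_eq_true, Nat.blt_eq, Nat.beq_eq,
      List.all_eq_true, List.mem_range, Bool.not_eq_true', ← Bool.not_eq_true] at h1
    obtain ⟨u, w, hu, hw, p1, p2, ha⟩ := h.gp _ h1.1
    have := (h1.2 u (h.lt13 (h.qL hu))).resolve_left (by simp [hu, p1]) w (h.lt13 (h.qL hw))
    exact h.noA_no hk hu hw ha (this.resolve_left (by simp [hw, p2]))
  rw [h0, cond_false] at h1
  cases h0 : (c % 16).beq 2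
  · rw [h0, cond_false] at h1
    exact h.chn_no hk _ _ _ _ h.rp1 h.nm.core.left .refl h1
  simp only [h0, cond_true, Bool.and_eq_true, Bool.not_eq_true'] at h1
  obtain ⟨⟨⟨⟨⟨a1, a2⟩, a3⟩, a4⟩, a5⟩, h1⟩ := h1
  obtain ⟨a, e1, h1⟩ := tk_elim h1
  obtain ⟨a', e2, h1⟩ := tk_elim h1
  have q := (h.lk_ok hk a1 a2 a3 a4 (fun h' => by simp [h'] at a5) e1).trans
    (h.frc_ok hk a1 a2 a3 a4 e2).symm
  simp [(ZMod.natCast_eq_natCast_iff' _ _ _).1 q] at h1

theorem chk_no (t : Ct) : ∀ kn, KnS T (insert f Z1) el kn → chk d k s t kn ≠ true := by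
  have hd := h.hd
  have hk4 := h.hk
  induction t with
  | no => intro kn _ h1; simp [chk] at h1
  | lf c t ih =>
    intro kn hk h1
    rw [chk, Bool.or_eq_true] at h1
    exact h1.elim (h.leaf_no hk c) (ih kn hk)
  | sel v t t' ih ih' =>
    intro kn hk h1
    rw [chk] at h1
    cases h0 : (kn.headD (0, 0)).2.beq v <;> rw [h0] at h1
    exacts [ih' kn hk h1, ih kn hk h1]
  | br c t0 t ih =>
    intro kn hk h1
    simp only [chk, Bool.and_eq_true, evN_eq, List.all_eq_true] at h1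
    obtain ⟨⟨⟨⟨a1, a2⟩, a3⟩, a4⟩, a5⟩ := h1
    obtain ⟨B, b, A, hs, h2⟩ := h.run_ok _ _ _ _ _ (h.st0 hk _) a4
    simp only [refB, Bool.and_eq_true] at h2
    obtain ⟨⟨b1, b2⟩, h2⟩ := h2
    obtain ⟨u, e1, h2⟩ := tk_elim h2
    obtain ⟨w, e2, h2⟩ := tk_elim h2
    obtain ⟨z, e3, h2⟩ := tk_elim h2
    simp only [Bool.and_eq_true, Bool.not_eq_true', ← Bool.not_eq_true, Nat.beq_eq] at h2
    obtain ⟨f1, f2⟩ := hs.fix a1 ((h.memB a1).2 a2)
    obtain ⟨ρ, -, r1, rv⟩ := hs.val _ f1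
    obtain ⟨σ, -, -, sv⟩ := hs.val _ b1
    obtain rfl := r1 rfl ((h.memB a1).2 a2)
    have q1 := rv _ b2 _ e1
    have q2 := sv _ a3 _ e2
    have q3 := sv _ b2 _ e3
    have q4 := congrArg (Nat.cast : ℕ → Fp) h2.2
    have q5 : (u : Fp) * w ≠ 0 := fun h' => h2.1 (Nat.mod_eq_zero_of_dvd
      ((ZMod.natCast_eq_zero_iff _ _).1 (by rw [Nat.cast_mul, h'])))
    rw [mlm_cast, mlm_cast] at q4
    have q6 : (z : Fp) ≠ 0 := fun h' => q5 (by rw [← q4, h', mul_zero])
    rcases tk_blk h.nm.tab hs.base (el (c % 16)) (el (c / 256 % 16)) (el (c / 16 % 16))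
      (el (c / 4096 % 16)) with h3 | ⟨v, hv, h3⟩
    · exact q5 (by rw [q1, q2]; linear_combination σ * h3)
    · refine ih _ (hk.cons (by omega) rfl ?_) (a5 v hv)
      rw [mlm_cast, ← f2]
      refine mul_right_cancel₀ q6 ?_
      rw [mul_assoc, q4, q1, q2, q3]
      linear_combination σ * h3
  | nrm l t t0 t1 t2 ih ih0 ih1 ih2 =>
    intro kn hk h1
    simp only [chk, Bool.and_eq_true, Nat.ble_eq, Nat.blt_eq] at h1
    obtain ⟨⟨a1, a2⟩, h1⟩ := h1
    cases hr : isRow s l <;>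
      simp only [hr, cond_true, cond_false, Bool.and_eq_true, Bool.or_eq_true, Nat.beq_eq] at h1 <;>
      obtain ⟨⟨⟨b1, b2⟩, b3⟩, b4⟩ := h1
    · rcases h.nc l a1 a2 hr with h2 | ⟨h2, i, hi, h3⟩
      · exact ih _ (hk.cons (i := 7) (j := l) (by omega) (by omega) (by simp [h.e7, h2])) b1
      have k2 := hk.cons (n := 112 + l) (i := 7) (j := l) (v := 0) (by omega) (by omega)
        (by simp [h.e7, h2])
      obtain rfl | rfl | rfl : i = 0 ∨ i = 1 ∨ i = 2 := by omega
      · exact ih0 _ (k2.cons (i := 0) (j := l) (by omega) (by omega) (by simp [h3])) b2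
      · exact ih1 _ (k2.cons (i := 1) (j := l) (by omega) (by omega) (by simp [h3])) b3
      · exact ih2 _ (k2.cons (i := 2) (j := l) (by omega) (by omega) (by simp [h3]))
          (b4.resolve_left (by omega))
    · rcases h.nr l a1 a2 hr with h2 | ⟨h2, j, hj, h3⟩
      · exact ih _ (hk.cons (i := l) (j := 8) (by omega) rfl (by simp [h.e8, h2])) b1
      have k2 := hk.cons (i := l) (j := 8) (v := 0) (by omega) rfl (by simp [h.e8, h2])
      obtain rfl | rfl | rfl : j = 0 ∨ j = 1 ∨ j = 2 := by omega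
      · exact ih0 _ (k2.cons (i := l) (j := 3) (by omega) rfl (by simp [h3])) b2
      · exact ih1 _ (k2.cons (i := l) (j := 4) (by omega) rfl (by simp [h3])) b3
      · exact ih2 _ (k2.cons (i := l) (j := 5) (by omega) rfl (by simp [h3]))
          (b4.resolve_left (by omega))

end Sc

theorem Sc.not_chk (h : Sc M T e f g Z1 Z2 d k s el) (t : Ct) : chk d k s t [] = false :=
  Bool.eq_false_iff.2 (h.chk_no t [] fun _ hp => nomatch hp)

end Pool.Agent.Lib.MP_10bdcf_co.G
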