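import Pool.Agent.Lib.MP_10bdcf_co.TC0

/-!
A checker for partially known tableaux.
-/

namespace Pool.Agent.Lib.MP_10bdcf_co.G

/-- Labels in use: rows of the core, columns of the core, the triangle, the path. -/
def inL (d k l : ℕ) : Bool := l.blt d || (Nat.ble 3 l && l.blt (3 + d)) || (Nat.ble 6 l && l.blt (9 + k))

/-- Labels in use off the triangle. -/
def inQ (d k l : ℕ) : Bool := l.blt d || (Nat.ble 3 l && l.blt (3 + d)) || (Nat.ble 9 l && l.blt (9 + k))

/-- Labels of the first base. -/
def isRow (s : Bool) (l : ℕ) : Bool :=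
  bif l.blt 9 then l.blt 3 || l.beq 7 else bif s then (l % 2).beq 1 else (l % 2).beq 0

/-- Labels of the second base. -/
def isRow' (s : Bool) (l : ℕ) : Bool := bif l.blt 6 then Nat.ble 3 l else isRow s l

/-- Position along the path. -/
def kpos (d k l : ℕ) : ℕ :=
  bif Nat.ble 9 l then l - 8 else bif (l + 1).beq d || l.beq 3 then 0 else k + 1

/-- Search in a list of pairs. -/
def lkp (n : ℕ) : List (ℕ × ℕ) → Option ℕ
  | [] => none
  | p :: t => bif p.1.beq n then some p.2 else lkp n t

/-- Known entries. -/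
def lk (d : ℕ) (kn : List (ℕ × ℕ)) (i j : ℕ) : Option ℕ :=
  bif i.blt 8 && j.blt 9 then
    some (bif j.beq 8 then 1 else bif i.blt 3 then cm d i (j - 3) else bif j.beq 6 then 0 else 1)
  else evN (16 * i + j) fun n => lkp n kn

/-- Entries forced by the absence of shortcuts. -/
def frc (d k : ℕ) (kn : List (ℕ × ℕ)) (i j : ℕ) : Option ℕ :=
  bif i.beq 7 || j.beq 6 || j.beq 8 then none
  else bif Nat.ble (kpos d k j + 2) (kpos d k i) then some 0
  else bif Nat.ble (kpos d k i + 2) (kpos d k j) then
    (lk d kn i 8).bind fun a => (lk d kn 7 j).bind fun b => some (mlm a b)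
  else none

/-- The first tableau, as far as it is known. -/
def tb0 (d k : ℕ) (s : Bool) (kn : List (ℕ × ℕ)) (i j : ℕ) : Option ℕ :=
  bif isRow s j then some (bif i.beq j then 1 else 0)
  else (lk d kn i (bif j.beq 6 && !i.beq 7 then 8 else j)).elim (frc d k kn i j) some

/-- The entry is known to vanish. -/
def isZ (o : Option ℕ) : Bool := o.elim false fun a => a.beq 0

/-- A pivot without division. -/
def pvA (A : ℕ → ℕ → Option ℕ) (g y p : ℕ) (i j : ℕ) : Option ℕ :=
  bif i.beq y then A g j else bif isZ (A i y) then A i j else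
    (A i j).bind fun x => (A g j).bind fun w =>
      bif w.beq 0 then some (mlm x p) else (A i y).bind fun u => some (sbm (mlm x p) (mlm u w))

/-- A sequence of pivots that do not change the row `r`, then a test. -/
def krun (d k r : ℕ) (F : (ℕ → Bool) → (ℕ → ℕ → Option ℕ) → Bool) :
    ℕ → ℕ → (ℕ → Bool) → (ℕ → ℕ → Option ℕ) → Bool
  | 0, _, _, _ => false
  | m + 1, n, b, A =>
    bif n.beq 0 then F b A else
      evN (n % 16) fun g => evN (n / 16 % 16) fun y =>
        b g && !b y && inL d k y && (!b r || (!r.beq g && isZ (A r y))) &&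
          (A g y).elim false fun p => evN p fun p => !(p % 1000003).beq 0 &&
            krun d k r F m (n / 256) (fun l => l.beq y || (!l.beq g && b l)) (pvA A g y p)

/-- A block that is not allowed. -/
def badB (d k g h e f : ℕ) (b : ℕ → Bool) (A : ℕ → ℕ → Option ℕ) : Bool :=
  b g && b h && inL d k e && inL d k f &&
    (A g e).elim false fun p => (A h f).elim false fun q => (A g f).elim false fun u =>
      (A h e).elim false fun w => !okE (mlm p q) (mlm u w)

/-- Two bases are close. -/
def knear (d : ℕ) (b b' : ℕ → Bool) : Bool :=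
  ((List.range 13).countP fun l => b l && !b' l).blt d

/-- A chain of close bases. -/
def chn (d k : ℕ) (s : Bool) (A : ℕ → ℕ → Option ℕ) : ℕ → ℕ → (ℕ → Bool) → Bool
  | 0, _, _ => false
  | m + 1, n, b =>
    bif n.beq 0 then knear d b fun l => inL d k l && isRow' s l else
      krun d k 15 (fun b' A' => b' 7 && !b' 6 && !b' 8 && isZ (A' 7 6) && knear d b b' &&
        chn d k s A m (n / 2 ^ 32) b') 5 (n % 2 ^ 32) (fun l => inL d k l && isRow s l) A

/-- There is no arc from `u` to `w`. -/
def noA (s : Bool) (A : ℕ → ℕ → Option ℕ) (u w : ℕ) : Bool :=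
  (!isRow s w || isRow s u || isZ (A w u)) &&
    (!isRow s u || isRow s w || (A u w).elim false fun x => (A u 8).elim false fun a =>
      (A 7 w).elim false fun c => x.beq (mlm a c))

/-- The tests that close a branch. -/
def kleaf (d k : ℕ) (s : Bool) (kn : List (ℕ × ℕ)) (c : ℕ) : Bool :=
  bif (c % 16).beq 0 then
    evN (c / 16 % 16) fun g => evN (c / 256 % 16) fun h => evN (c / 4096 % 16) fun e =>
      evN (c / 65536 % 16) fun f => krun d k 15 (badB d k g h e f) 5
        (c / 1048576) (fun l => inL d k l && isRow s l) (tb0 d k s kn)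
  else bif (c % 16).beq 1 then
    ((c / 16).blt k || ((c / 16).beq k && k.blt 4)) && (List.range 13).all fun u =>
      !inQ d k u || !(kpos d k u).beq (c / 16) || (List.range 13).all fun w =>
        !inQ d k w || !(kpos d k w).beq (c / 16 + 1) || noA s (tb0 d k s kn) u w
  else bif (c % 16).beq 2 then
    inL d k (c / 16 % 16) && isRow s (c / 16 % 16) && inL d k (c / 256) && !isRow s (c / 256) &&
      !(c / 256).beq 6 && (lk d kn (c / 16 % 16) (c / 256)).elim false fun a =>
        (frc d k kn (c / 16 % 16) (c / 256)).elim false fun a' => !(a % 1000003).beq (a' % 1000003)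
  else chn d k s (tb0 d k s kn) 6 (c / 16) fun l => inL d k l && isRow s l

/-- The reference block for a branching. -/
def refB (d k i j r c t : ℕ) (b : ℕ → Bool) (A : ℕ → ℕ → Option ℕ) : Bool :=
  b r && inL d k c && (A i c).elim false fun u => (A r j).elim false fun w =>
    (A r c).elim false fun z => !(mlm u w).beq 0 && (mlm t z).beq (mlm u w)

/-- Certificates. -/
inductive Ct
  | no : Ct
  | lf : ℕ → Ct → Ct
  | sel : ℕ → Ct → Ct → Ct
  | br : ℕ → ℕ → Ct → Ct
  | nrm : ℕ → Ct → Ct → Ct → Ct → Ct

/-- The checker. -/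
def chk (d k : ℕ) (s : Bool) : Ct → List (ℕ × ℕ) → Bool
  | .no, _ => false
  | .lf c t, kn => kleaf d k s kn c || chk d k s t kn
  | .sel v t t', kn => bif (kn.headD (0, 0)).2.beq v then chk d k s t kn else chk d k s t' kn
  | .br c t0 t, kn =>
    inL d k (c % 16) && isRow s (c % 16) && inL d k (c / 16 % 16) &&
      krun d k (c % 16) (refB d k (c % 16) (c / 16 % 16) (c / 256 % 16) (c / 4096 % 16) t0) 5
        (c / 65536) (fun l => inL d k l && isRow s l) (tb0 d k s kn) &&
      evN (16 * (c % 16) + c / 16 % 16) fun n => pvL.all fun v => evN (mlm v t0) fun w => chk d k s t ((n, w) :: kn)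
  | .nrm l t t0 t1 t2, kn =>
    Nat.ble 9 l && l.blt (9 + k) &&
      bif isRow s l then
        chk d k s t ((16 * l + 8, 1) :: kn) && chk d k s t0 ((16 * l + 3, 1) :: (16 * l + 8, 0) :: kn) &&
          chk d k s t1 ((16 * l + 4, 1) :: (16 * l + 8, 0) :: kn) &&
          (d.beq 2 || chk d k s t2 ((16 * l + 5, 1) :: (16 * l + 8, 0) :: kn))
      else
        chk d k s t ((112 + l, 1) :: kn) && chk d k s t0 ((l, 1) :: (112 + l, 0) :: kn) &&
          chk d k s t1 ((16 + l, 1) :: (112 + l, 0) :: kn) &&
          (d.beq 2 || chk d k s t2 ((32 + l, 1) :: (112 + l, 0) :: kn))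

end Pool.Agent.Lib.MP_10bdcf_co.G
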