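import Pool.Agent.Lib.MP_10bdcf_co.TK0

/-!
Certificates for the checker.
-/

namespace Pool.Agent.Lib.MP_10bdcf_co.G

/-- A certificate. -/
def ct20r : Ct :=
  (.lf 1 .no)

theorem ct20r_ok : chk 2 0 true ct20r [] = true := by decide +kernel

/-- A certificate. -/
def ct20c : Ct :=
  (.lf 1 .no)

theorem ct20c_ok : chk 2 0 false ct20c [] = true := by decide +kernel

/-- A certificate. -/
def ct21r : Ct :=
  (.nrm 9 (.br 24889 876547 (.sel 876547 (.br 24649 123457 (.sel 0 (.lf 67647856 .no) (.sel 1 (.lf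
  17 .no) (.sel 538334 (.lf 276752 .no) (.lf 276848 .no))))) (.sel 1 (.br 24649 123457 (.sel 0
  (.lf 67516688 .no) (.sel 1 (.lf 17 .no) (.sel 585108 (.lf 411920 .no) (.lf 276752 .no))))) (.sel
  234573 (.br 24649 123457 (.sel 0 (.lf 67516688 .no) (.sel 1 (.lf 17 .no) (.sel 127134 (.lf
  411920 .no) (.lf 276752 .no))))) (.sel 264046 (.br 24649 123457 (.sel 0 (.lf 67516688 .no) (.sel
  1 (.lf 17 .no) (.sel 963486 (.lf 411920 .no) (.lf 276752 .no))))) (.sel 621821 (.br 24649 123457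
  (.sel 0 (.lf 67516688 .no) (.sel 1 (.lf 17 .no) (.sel 350175 (.lf 411920 .no) (.lf 276752
  .no))))) (.sel 641413 (.br 24649 123457 (.sel 0 (.lf 67516688 .no) (.sel 1 (.lf 17 .no) (.sel
  751722 (.lf 411920 .no) (.lf 276752 .no))))) (.sel 0 (.lf 1 .no) (.lf 538992 .no))))))))) (.br
  12617 585109 (.sel 1 (.lf 1007152651043731 .no) (.sel 0 (.lf 17 .no) (.sel 227529 (.lf 67647856
  .no) (.sel 361707 (.lf 67647856 .no) (.sel 393132 (.lf 67647856 .no) (.sel 585109 (.lf 67647856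
  .no) (.sel 971996 (.lf 67647856 .no) (.lf 276848 .no))))))))) (.br 16697 876547 (.sel 1 (.lf
  1007152651043731 .no) (.sel 0 (.lf 1 .no) (.sel 234573 (.lf 67647856 .no) (.sel 264046 (.lf
  67647856 .no) (.sel 621821 (.lf 67647856 .no) (.sel 641413 (.lf 67647856 .no) (.sel 876547 (.lf
  67647856 .no) (.lf 276848 .no))))))))) .no)

theorem ct21r_ok : chk 2 1 true ct21r [] = true := by decide +kernel

/-- A certificate. -/
def ct21c : Ct :=
  (.nrm 9 (.br 18320 123457 (.sel 123457 (.br 16529 1 (.sel 0 (.lf 134821648 .no) (.sel 1 (.lf 1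
  .no) (.sel 123457 (.lf 603920 .no) (.sel 358591 (.lf 603920 .no) (.sel 378183 (.lf 603920 .no)
  (.sel 735958 (.lf 603920 .no) (.sel 765431 (.lf 603920 .no) (.lf 622848 .no))))))))) (.sel
  735958 (.br 16529 29814 (.sel 0 (.lf 67712784 .no) (.sel 1 (.lf 1 .no) (.sel 293859 (.lf 614656
  .no) (.lf 603920 .no))))) (.sel 1 (.br 16529 307687 (.sel 0 (.lf 67712784 .no) (.sel 1 (.lf 1
  .no) (.sel 307686 (.lf 614656 .no) (.lf 603920 .no))))) (.sel 765431 (.br 16529 461561 (.sel 0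
  (.lf 67712784 .no) (.sel 1 (.lf 1 .no) (.sel 696133 (.lf 614656 .no) (.lf 603920 .no))))) (.sel
  378183 (.br 16529 643638 (.sel 0 (.lf 67712784 .no) (.sel 1 (.lf 1 .no) (.sel 265455 (.lf 614656
  .no) (.lf 603920 .no))))) (.sel 358591 (.br 16529 458018 (.sel 0 (.lf 67712784 .no) (.sel 1 (.lf
  1 .no) (.sel 99427 (.lf 614656 .no) (.lf 603920 .no))))) (.sel 0 (.lf 17 .no) (.lf 624384
  .no))))))))) (.br 16529 307687 (.sel 1 (.lf 2555265022953731 .no) (.sel 0 (.lf 1 .no) (.sel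
  29814 (.lf 134821648 .no) (.sel 307687 (.lf 134821648 .no) (.sel 458018 (.lf 134821648 .no)
  (.sel 461561 (.lf 134821648 .no) (.sel 643638 (.lf 134821648 .no) (.lf 622848 .no))))))))) (.br
  16784 123457 (.sel 1 (.lf 2555265022953731 .no) (.sel 0 (.lf 17 .no) (.sel 123457 (.lf 134821648
  .no) (.sel 358591 (.lf 134821648 .no) (.sel 378183 (.lf 134821648 .no) (.sel 735958 (.lf
  134821648 .no) (.sel 765431 (.lf 134821648 .no) (.lf 622848 .no))))))))) .no)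

theorem ct21c_ok : chk 2 1 false ct21c [] = true := by decide +kernel

/-- A certificate. -/
def ct22r : Ct :=
  (.nrm 9 (.br 16697 876547 (.sel 876547 (.nrm 10 (.br 16800 123457 (.sel 123457 (.br 16553 1
  (.sel 0 (.lf 134887792 .no) (.sel 1 (.lf 17 .no) (.sel 123457 (.lf 670064 .no) (.sel 358591 (.lf
  670064 .no) (.sel 378183 (.lf 670064 .no) (.sel 735958 (.lf 670064 .no) (.sel 765431 (.lf 670064
  .no) (.lf 682240 .no))))))))) (.sel 735958 (.br 16553 29814 (.sel 0 (.lf 67778928 .no) (.sel 1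
  (.lf 17 .no) (.sel 293859 (.lf 682240 .no) (.lf 670064 .no))))) (.sel 1 (.br 16553 307687 (.sel
  0 (.lf 67778928 .no) (.sel 1 (.lf 17 .no) (.sel 307686 (.lf 682240 .no) (.lf 670064 .no)))))
  (.sel 765431 (.br 16553 461561 (.sel 0 (.lf 67778928 .no) (.sel 1 (.lf 17 .no) (.sel 696133 (.lf
  682240 .no) (.lf 670064 .no))))) (.sel 378183 (.br 16553 643638 (.sel 0 (.lf 67778928 .no) (.sel
  1 (.lf 17 .no) (.sel 265455 (.lf 682240 .no) (.lf 670064 .no))))) (.sel 358591 (.br 16553 458018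
  (.sel 0 (.lf 67778928 .no) (.sel 1 (.lf 17 .no) (.sel 99427 (.lf 682240 .no) (.lf 670064
  .no))))) (.sel 0 (.lf 33 .no) (.lf 689920 .no))))))))) (.br 16553 307687 (.sel 1 (.lf
  4325687701286072503765507 .no) (.sel 0 (.lf 17 .no) (.sel 29814 (.lf 134887792 .no) (.sel 307687
  (.lf 134887792 .no) (.sel 458018 (.lf 134887792 .no) (.sel 461561 (.lf 134887792 .no) (.sel
  643638 (.lf 134887792 .no) (.lf 682240 .no))))))))) (.lf 2578 .no) .no) (.sel 1 (.nrm 10 (.br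
  12713 585109 (.sel 585109 (.br 16800 123457 (.sel 0 (.lf 67791216 .no) (.sel 1 (.lf 674048 .no)
  (.sel 585108 (.lf 680192 .no) (.lf 682240 .no))))) (.sel 0 (.lf 52062576 .no) (.sel 1 (.lf 17
  .no) (.sel 227529 (.lf 52062576 .no) (.sel 361707 (.lf 52062576 .no) (.sel 393132 (.lf 52062576
  .no) (.sel 971996 (.lf 52062576 .no) (.lf 674160 .no))))))))) (.br 16553 307687 (.sel 0 (.lf 17
  .no) (.sel 1 (.lf 67778832 .no) (.sel 29814 (.lf 67778832 .no) (.sel 307687 (.lf 101333264 .no)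
  (.sel 458018 (.lf 67778832 .no) (.sel 461561 (.lf 67778832 .no) (.sel 643638 (.lf 67778832 .no)
  (.lf 682240 .no))))))))) (.lf 2578 .no) .no) (.sel 234573 (.nrm 10 (.br 12713 361707 (.sel
  361707 (.br 16800 123457 (.sel 0 (.lf 67791216 .no) (.sel 1 (.lf 674048 .no) (.sel 127134 (.lf
  680192 .no) (.lf 682240 .no))))) (.sel 234573 (.br 16800 123457 (.sel 0 (.lf 33 .no) (.sel 1
  (.lf 674048 .no) (.sel 358029 (.lf 680192 .no) (.sel 358591 (.lf 674048 .no) (.sel 591984 (.lf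
  680192 .no) (.lf 682240 .no))))))) (.sel 0 (.lf 52062576 .no) (.sel 1 (.lf 17 .no) (.sel 28008
  (.lf 670064 .no) (.sel 461561 (.lf 670064 .no) (.sel 585109 (.lf 670064 .no) (.lf 674160
  .no))))))))) (.br 16553 307687 (.sel 0 (.lf 17 .no) (.sel 1 (.lf 67778832 .no) (.sel 29814 (.lf
  67778832 .no) (.sel 307687 (.lf 101333264 .no) (.sel 458018 (.lf 67778832 .no) (.sel 461561 (.lf
  101333264 .no) (.sel 643638 (.lf 67778832 .no) (.lf 682240 .no))))))))) (.lf 2578 .no) .no)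
  (.sel 264046 (.nrm 10 (.br 12713 227529 (.sel 227529 (.br 16800 123457 (.sel 0 (.lf 67791216
  .no) (.sel 1 (.lf 674048 .no) (.sel 963486 (.lf 680192 .no) (.lf 682240 .no))))) (.sel 264046
  (.br 16800 123457 (.sel 0 (.lf 33 .no) (.sel 1 (.lf 674048 .no) (.sel 229228 (.lf 680192 .no)
  (.sel 378183 (.lf 674048 .no) (.sel 387502 (.lf 680192 .no) (.lf 682240 .no))))))) (.sel 0 (.lf
  52062576 .no) (.sel 1 (.lf 17 .no) (.sel 29814 (.lf 670064 .no) (.sel 585109 (.lf 670064 .no)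
  (.sel 606872 (.lf 670064 .no) (.lf 674160 .no))))))))) (.br 16553 307687 (.sel 0 (.lf 17 .no)
  (.sel 1 (.lf 67778832 .no) (.sel 29814 (.lf 101333264 .no) (.sel 307687 (.lf 101333264 .no)
  (.sel 458018 (.lf 67778832 .no) (.sel 461561 (.lf 67778832 .no) (.sel 643638 (.lf 67778832 .no)
  (.lf 682240 .no))))))))) (.lf 2578 .no) .no) (.sel 621821 (.nrm 10 (.br 12713 971996 (.sel
  971996 (.br 16800 123457 (.sel 0 (.lf 67791216 .no) (.sel 1 (.lf 674048 .no) (.sel 350175 (.lf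
  680192 .no) (.lf 682240 .no))))) (.sel 621821 (.br 16800 123457 (.sel 0 (.lf 33 .no) (.sel 1
  (.lf 674048 .no) (.sel 735958 (.lf 674048 .no) (.sel 745277 (.lf 680192 .no) (.sel 924896 (.lf
  680192 .no) (.lf 682240 .no))))))) (.sel 0 (.lf 52062576 .no) (.sel 1 (.lf 17 .no) (.sel 585109
  (.lf 670064 .no) (.sel 638297 (.lf 670064 .no) (.sel 643638 (.lf 670064 .no) (.lf 674160
  .no))))))))) (.br 16553 307687 (.sel 0 (.lf 17 .no) (.sel 1 (.lf 67778832 .no) (.sel 29814 (.lf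
  67778832 .no) (.sel 307687 (.lf 101333264 .no) (.sel 458018 (.lf 67778832 .no) (.sel 461561 (.lf
  67778832 .no) (.sel 643638 (.lf 101333264 .no) (.lf 682240 .no))))))))) (.lf 2578 .no) .no)
  (.sel 641413 (.nrm 10 (.br 12713 393132 (.sel 393132 (.br 16800 123457 (.sel 0 (.lf 67791216
  .no) (.sel 1 (.lf 674048 .no) (.sel 751722 (.lf 680192 .no) (.lf 682240 .no))))) (.sel 641413
  (.br 16800 123457 (.sel 0 (.lf 33 .no) (.sel 1 (.lf 674048 .no) (.sel 687183 (.lf 680192 .no)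
  (.sel 764869 (.lf 680192 .no) (.sel 765431 (.lf 674048 .no) (.lf 682240 .no))))))) (.sel 0 (.lf
  52062576 .no) (.sel 1 (.lf 17 .no) (.sel 458018 (.lf 670064 .no) (.sel 585109 (.lf 670064 .no)
  (.sel 772475 (.lf 670064 .no) (.lf 674160 .no))))))))) (.br 16553 307687 (.sel 0 (.lf 17 .no)
  (.sel 1 (.lf 67778832 .no) (.sel 29814 (.lf 67778832 .no) (.sel 307687 (.lf 101333264 .no) (.sel
  458018 (.lf 101333264 .no) (.sel 461561 (.lf 67778832 .no) (.sel 643638 (.lf 67778832 .no) (.lf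
  682240 .no))))))))) (.lf 2578 .no) .no) (.sel 0 (.lf 1 .no) (.lf 538992 .no))))))))) (.nrm 10
  (.br 16800 123457 (.sel 123457 (.br 12713 585109 (.sel 1 (.lf 3749558988412248020485011 .no)
  (.sel 0 (.lf 17 .no) (.sel 227529 (.lf 134887792 .no) (.sel 361707 (.lf 134887792 .no) (.sel
  393132 (.lf 134887792 .no) (.sel 585109 (.lf 134887792 .no) (.sel 971996 (.lf 134887792 .no)
  (.lf 670064 .no))))))))) (.sel 735958 (.br 12713 585109 (.sel 0 (.lf 17 .no) (.sel 1 (.lf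
  67778832 .no) (.sel 227529 (.lf 67778928 .no) (.sel 361707 (.lf 67778832 .no) (.sel 393132 (.lf
  67778832 .no) (.sel 585109 (.lf 67778928 .no) (.sel 971996 (.lf 67778832 .no) (.lf 670064
  .no))))))))) (.sel 1 (.br 12713 585109 (.sel 0 (.lf 17 .no) (.sel 1 (.lf 67778832 .no) (.sel
  227529 (.lf 67778832 .no) (.sel 361707 (.lf 67778832 .no) (.sel 393132 (.lf 67778832 .no) (.sel
  585109 (.lf 67778928 .no) (.sel 971996 (.lf 67778832 .no) (.lf 670064 .no))))))))) (.sel 765431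
  (.br 12713 585109 (.sel 0 (.lf 17 .no) (.sel 1 (.lf 67778832 .no) (.sel 227529 (.lf 67778832
  .no) (.sel 361707 (.lf 67778928 .no) (.sel 393132 (.lf 67778832 .no) (.sel 585109 (.lf 67778928
  .no) (.sel 971996 (.lf 67778832 .no) (.lf 670064 .no))))))))) (.sel 378183 (.br 12713 585109
  (.sel 0 (.lf 17 .no) (.sel 1 (.lf 67778832 .no) (.sel 227529 (.lf 67778832 .no) (.sel 361707
  (.lf 67778832 .no) (.sel 393132 (.lf 67778832 .no) (.sel 585109 (.lf 67778928 .no) (.sel 971996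
  (.lf 67778928 .no) (.lf 670064 .no))))))))) (.sel 358591 (.br 12713 585109 (.sel 0 (.lf 17 .no)
  (.sel 1 (.lf 67778832 .no) (.sel 227529 (.lf 67778832 .no) (.sel 361707 (.lf 67778832 .no) (.sel
  393132 (.lf 67778928 .no) (.sel 585109 (.lf 67778928 .no) (.sel 971996 (.lf 67778832 .no) (.lf
  670064 .no))))))))) (.sel 0 (.lf 33 .no) (.lf 689920 .no))))))))) (.br 4207017 107207 (.sel 0
  (.lf 17 .no) (.sel 414894 (.lf 67778928 .no) (.sel 692316 (.lf 101333264 .no) (.lf 142227712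
  .no))))) (.lf 2578 .no) .no) (.lf 1170 .no) .no)

theorem ct22r_ok : chk 2 2 true ct22r [] = true := by decide +kernel

/-- A certificate. -/
def ct22c : Ct :=
  (.nrm 9 (.br 14225 876547 (.sel 0 (.nrm 10 (.br 34714 1 (.sel 692317 (.br 24650 123457 (.sel 0
  (.lf 67725936 .no) (.sel 1 (.lf 67725936 .no) (.sel 123456 (.lf 412176 .no) (.lf 608880 .no)))))
  (.sel 0 (.lf 17 .no) (.sel 123457 (.lf 52005488 .no) (.lf 51997296 .no))))) (.lf 930 .no) (.br
  18330 1 (.sel 0 (.lf 17 .no) (.sel 1 (.lf 13221071472 .no) (.sel 356366 (.lf 67734128 .no) (.sel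
  538443 (.lf 67734128 .no) (.sel 541986 (.lf 67734128 .no) (.sel 692317 (.lf 67734128 .no) (.sel
  970190 (.lf 67734128 .no) (.lf 68762224 .no))))))))) .no) (.sel 876547 (.nrm 10 (.br 24650
  123457 (.sel 0 (.br 24986 876547 (.sel 0 (.lf 17 .no) (.sel 1 (.lf 67725840 .no) (.sel 234573
  (.lf 67725840 .no) (.sel 264046 (.lf 67725840 .no) (.sel 621821 (.lf 67725840 .no) (.sel 641413
  (.lf 67725840 .no) (.sel 876547 (.lf 67734128 .no) (.lf 625264 .no))))))))) (.sel 123457 (.br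
  16794 538334 (.sel 0 (.lf 17 .no) (.sel 123457 (.lf 616976 .no) (.sel 876547 (.lf 608880 .no)
  (.lf 625264 .no))))) (.sel 735958 (.br 16794 841729 (.sel 0 (.lf 17 .no) (.sel 735958 (.lf
  616976 .no) (.sel 876547 (.lf 608880 .no) (.lf 625264 .no))))) (.sel 765431 (.br 16794 233955
  (.sel 0 (.lf 17 .no) (.sel 765431 (.lf 616976 .no) (.sel 876547 (.lf 608880 .no) (.lf 625264
  .no))))) (.sel 378183 (.br 16794 179619 (.sel 0 (.lf 17 .no) (.sel 378183 (.lf 616976 .no) (.sel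
  876547 (.lf 608880 .no) (.lf 625264 .no))))) (.sel 358591 (.br 16794 922317 (.sel 0 (.lf 17 .no)
  (.sel 358591 (.lf 616976 .no) (.sel 876547 (.lf 608880 .no) (.lf 625264 .no))))) (.sel 1 (.lf 33
  .no) (.lf 543344 .no))))))))) (.lf 930 .no) (.br 16794 876547 (.sel 1 (.lf
  10974779708902650173981859 .no) (.sel 0 (.lf 17 .no) (.sel 234573 (.lf 67734128 .no) (.sel
  264046 (.lf 67734128 .no) (.sel 621821 (.lf 67734128 .no) (.sel 641413 (.lf 67734128 .no) (.sel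
  876547 (.lf 67734128 .no) (.lf 608880 .no))))))))) .no) (.sel 234573 (.nrm 10 (.br 24986 234573
  (.sel 234573 (.br 24650 123457 (.sel 0 (.lf 67725936 .no) (.sel 1 (.lf 33 .no) (.sel 358029 (.lf
  412176 .no) (.sel 358591 (.lf 67725936 .no) (.sel 591984 (.lf 412176 .no) (.lf 608880 .no)))))))
  (.sel 538443 (.br 24650 123457 (.sel 0 (.lf 67725840 .no) (.sel 1 (.lf 67725936 .no) (.sel
  735958 (.lf 608880 .no) (.lf 608784 .no))))) (.sel 0 (.lf 17 .no) (.sel 1 (.lf 51997296 .no)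
  (.sel 358591 (.lf 51997296 .no) (.sel 361707 (.lf 51997296 .no) (.sel 876547 (.lf 51997296 .no)
  (.lf 625264 .no))))))))) (.lf 930 .no) (.br 16794 234573 (.sel 0 (.lf 17 .no) (.sel 1 (.lf
  13221071472 .no) (.sel 234573 (.lf 67734128 .no) (.sel 358591 (.lf 67725840 .no) (.sel 361707
  (.lf 51989104 .no) (.sel 538443 (.lf 67725840 .no) (.sel 876547 (.lf 67725840 .no) (.lf 608880
  .no))))))))) .no) (.sel 264046 (.nrm 10 (.br 24986 264046 (.sel 264046 (.br 24650 123457 (.sel 0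
  (.lf 67725936 .no) (.sel 1 (.lf 33 .no) (.sel 229228 (.lf 412176 .no) (.sel 378183 (.lf 67725936
  .no) (.sel 387502 (.lf 412176 .no) (.lf 608880 .no))))))) (.sel 970190 (.br 24650 123457 (.sel 0
  (.lf 67725840 .no) (.sel 1 (.lf 67725936 .no) (.sel 387502 (.lf 412176 .no) (.lf 608880 .no)))))
  (.sel 0 (.lf 17 .no) (.sel 1 (.lf 51997296 .no) (.sel 227529 (.lf 51997296 .no) (.sel 378183
  (.lf 51997296 .no) (.sel 876547 (.lf 51997296 .no) (.lf 625264 .no))))))))) (.lf 930 .no) (.br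
  16794 264046 (.sel 0 (.lf 17 .no) (.sel 1 (.lf 13221071472 .no) (.sel 227529 (.lf 51989104 .no)
  (.sel 264046 (.lf 67734128 .no) (.sel 378183 (.lf 67725840 .no) (.sel 876547 (.lf 67725840 .no)
  (.sel 970190 (.lf 67725840 .no) (.lf 608880 .no))))))))) .no) (.sel 621821 (.nrm 10 (.br 24986
  621821 (.sel 621821 (.br 24650 123457 (.sel 0 (.lf 67725936 .no) (.sel 1 (.lf 33 .no) (.sel
  735958 (.lf 67725936 .no) (.sel 745277 (.lf 412176 .no) (.sel 924896 (.lf 412176 .no) (.lf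
  608880 .no))))))) (.sel 356366 (.br 24650 123457 (.sel 0 (.lf 67725840 .no) (.sel 1 (.lf
  67725936 .no) (.sel 745277 (.lf 412176 .no) (.lf 608880 .no))))) (.sel 0 (.lf 17 .no) (.sel 1
  (.lf 51997296 .no) (.sel 735958 (.lf 51997296 .no) (.sel 876547 (.lf 51997296 .no) (.sel 971996
  (.lf 51997296 .no) (.lf 625264 .no))))))))) (.lf 930 .no) (.br 16794 621821 (.sel 0 (.lf 17 .no)
  (.sel 1 (.lf 13221071472 .no) (.sel 356366 (.lf 67725840 .no) (.sel 621821 (.lf 67734128 .no)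
  (.sel 735958 (.lf 67725840 .no) (.sel 876547 (.lf 67725840 .no) (.sel 971996 (.lf 51989104 .no)
  (.lf 608880 .no))))))))) .no) (.sel 641413 (.nrm 10 (.br 24986 641413 (.sel 641413 (.br 24650
  123457 (.sel 0 (.lf 67725936 .no) (.sel 1 (.lf 33 .no) (.sel 687183 (.lf 412176 .no) (.sel
  764869 (.lf 412176 .no) (.sel 765431 (.lf 67725936 .no) (.lf 608880 .no))))))) (.sel 541986 (.br
  24650 123457 (.sel 0 (.lf 67725840 .no) (.sel 1 (.lf 67725936 .no) (.sel 764869 (.lf 412176 .no)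
  (.lf 608880 .no))))) (.sel 0 (.lf 17 .no) (.sel 1 (.lf 51997296 .no) (.sel 393132 (.lf 51997296
  .no) (.sel 765431 (.lf 51997296 .no) (.sel 876547 (.lf 51997296 .no) (.lf 625264 .no)))))))))
  (.lf 930 .no) (.br 16794 641413 (.sel 0 (.lf 17 .no) (.sel 1 (.lf 13221071472 .no) (.sel 393132
  (.lf 51989104 .no) (.sel 541986 (.lf 67725840 .no) (.sel 641413 (.lf 67734128 .no) (.sel 765431
  (.lf 67725840 .no) (.sel 876547 (.lf 67725840 .no) (.lf 608880 .no))))))))) .no) (.sel 1 (.lf 1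
  .no) (.lf 608016 .no))))))))) (.lf 2306 .no) (.nrm 10 (.br 24650 123457 (.sel 0 (.br 24986 1
  (.sel 0 (.lf 17 .no) (.sel 1 (.lf 13221071472 .no) (.sel 28008 (.lf 52005488 .no) (.sel 414895
  (.lf 52005488 .no) (.sel 606872 (.lf 52005488 .no) (.sel 638297 (.lf 52005488 .no) (.sel 772475
  (.lf 52005488 .no) (.lf 152586752 .no))))))))) (.sel 123457 (.br 16794 123457 (.sel 1 (.lf
  5605744165784012126685459 .no) (.sel 0 (.lf 17 .no) (.sel 123457 (.lf 52005488 .no) (.sel 358591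
  (.lf 52005488 .no) (.sel 378183 (.lf 52005488 .no) (.sel 735958 (.lf 52005488 .no) (.sel 765431
  (.lf 52005488 .no) (.lf 616976 .no))))))))) (.sel 735958 (.br 16794 735958 (.sel 0 (.lf 17 .no)
  (.sel 1 (.lf 13221071472 .no) (.sel 29814 (.lf 67725840 .no) (.sel 123457 (.lf 67725840 .no)
  (.sel 621821 (.lf 67725840 .no) (.sel 735958 (.lf 52005488 .no) (.sel 772475 (.lf 51989104 .no)
  (.lf 616976 .no))))))))) (.sel 765431 (.br 16794 765431 (.sel 0 (.lf 17 .no) (.sel 1 (.lf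
  13221071472 .no) (.sel 123457 (.lf 67725840 .no) (.sel 461561 (.lf 67725840 .no) (.sel 638297
  (.lf 51989104 .no) (.sel 641413 (.lf 67725840 .no) (.sel 765431 (.lf 52005488 .no) (.lf 616976
  .no))))))))) (.sel 378183 (.br 16794 378183 (.sel 0 (.lf 17 .no) (.sel 1 (.lf 13221071472 .no)
  (.sel 28008 (.lf 51989104 .no) (.sel 123457 (.lf 67725840 .no) (.sel 264046 (.lf 67725840 .no)
  (.sel 378183 (.lf 52005488 .no) (.sel 643638 (.lf 67725840 .no) (.lf 616976 .no))))))))) (.sel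
  358591 (.br 16794 358591 (.sel 0 (.lf 17 .no) (.sel 1 (.lf 13221071472 .no) (.sel 123457 (.lf
  67725840 .no) (.sel 234573 (.lf 67725840 .no) (.sel 358591 (.lf 52005488 .no) (.sel 458018 (.lf
  67725840 .no) (.sel 606872 (.lf 51989104 .no) (.lf 616976 .no))))))))) (.sel 1 (.lf 33 .no) (.lf
  543344 .no))))))))) (.lf 930 .no) (.br 16794 1 (.sel 0 (.lf 17 .no) (.sel 1 (.lf 13221071472
  .no) (.sel 227529 (.lf 51989104 .no) (.sel 361707 (.lf 51989104 .no) (.sel 393132 (.lf 51989104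
  .no) (.sel 585109 (.lf 51989104 .no) (.sel 971996 (.lf 51989104 .no) (.lf 152586752 .no)))))))))
  .no) .no)

theorem ct22c_ok : chk 2 2 false ct22c [] = true := by decide +kernel

/-- A certificate. -/
def ct23r : Ct :=
  (.nrm 9 (.br 16697 876547 (.sel 876547 (.nrm 10 (.br 12713 1 (.sel 0 (.nrm 11 (.br 25003 1 (.sel
  0 (.lf 33 .no) (.sel 123457 (.lf 58362768 .no) (.sel 692317 (.lf 52063088 .no) (.lf 175520656
  .no))))) (.lf 946 .no) (.br 16811 1 (.sel 0 (.lf 33 .no) (.sel 1 (.lf 14831750032 .no) (.sel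
  227529 (.lf 58346384 .no) (.sel 361707 (.lf 58346384 .no) (.sel 393132 (.lf 58346384 .no) (.sel
  585109 (.lf 58346384 .no) (.sel 971996 (.lf 58346384 .no) (.lf 68848384 .no))))))))) .no) (.sel
  234573 (.nrm 11 (.br 25003 1 (.sel 0 (.lf 33 .no) (.sel 1 (.lf 58354576 .no) (.sel 234573 (.lf
  52063088 .no) (.sel 358591 (.lf 58354576 .no) (.sel 361707 (.lf 52063088 .no) (.sel 538443 (.lf
  52063088 .no) (.sel 876547 (.lf 52063088 .no) (.lf 691088 .no))))))))) (.lf 946 .no) (.br 16811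
  1 (.sel 0 (.lf 33 .no) (.sel 1 (.lf 14831750032 .no) (.sel 234573 (.lf 67791632 .no) (.sel
  358591 (.lf 67791632 .no) (.sel 361707 (.lf 58346384 .no) (.sel 538443 (.lf 67791632 .no) (.sel
  876547 (.lf 67791632 .no) (.lf 674704 .no))))))))) .no) (.sel 264046 (.nrm 11 (.br 25003 1 (.sel
  0 (.lf 33 .no) (.sel 1 (.lf 58354576 .no) (.sel 227529 (.lf 52063088 .no) (.sel 264046 (.lf
  52063088 .no) (.sel 378183 (.lf 58354576 .no) (.sel 876547 (.lf 52063088 .no) (.sel 970190 (.lf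
  52063088 .no) (.lf 691088 .no))))))))) (.lf 946 .no) (.br 16811 1 (.sel 0 (.lf 33 .no) (.sel 1
  (.lf 14831750032 .no) (.sel 227529 (.lf 58346384 .no) (.sel 264046 (.lf 67791632 .no) (.sel
  378183 (.lf 67791632 .no) (.sel 876547 (.lf 67791632 .no) (.sel 970190 (.lf 67791632 .no) (.lf
  674704 .no))))))))) .no) (.sel 876547 (.nrm 11 (.br 25003 1 (.sel 1 (.br 24651 123457 (.sel 0
  (.lf 67791728 .no) (.sel 1 (.lf 49 .no) (.sel 585108 (.lf 412432 .no) (.lf 674704 .no))))) (.sel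
  0 (.lf 33 .no) (.sel 234573 (.lf 52063088 .no) (.sel 264046 (.lf 52063088 .no) (.sel 621821 (.lf
  52063088 .no) (.sel 641413 (.lf 52063088 .no) (.sel 876547 (.lf 52063088 .no) (.lf 691088
  .no))))))))) (.lf 946 .no) (.br 16811 1 (.sel 1 (.lf 18578687209733098546959343276786867 .no)
  (.sel 0 (.lf 33 .no) (.sel 234573 (.lf 67791632 .no) (.sel 264046 (.lf 67791632 .no) (.sel
  621821 (.lf 67791632 .no) (.sel 641413 (.lf 67791632 .no) (.sel 876547 (.lf 67791632 .no) (.lf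
  674704 .no))))))))) .no) (.sel 621821 (.nrm 11 (.br 25003 1 (.sel 0 (.lf 33 .no) (.sel 1 (.lf
  58354576 .no) (.sel 356366 (.lf 52063088 .no) (.sel 621821 (.lf 52063088 .no) (.sel 735958 (.lf
  58354576 .no) (.sel 876547 (.lf 52063088 .no) (.sel 971996 (.lf 52063088 .no) (.lf 691088
  .no))))))))) (.lf 946 .no) (.br 16811 1 (.sel 0 (.lf 33 .no) (.sel 1 (.lf 14831750032 .no) (.sel
  356366 (.lf 67791632 .no) (.sel 621821 (.lf 67791632 .no) (.sel 735958 (.lf 67791632 .no) (.sel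
  876547 (.lf 67791632 .no) (.sel 971996 (.lf 58346384 .no) (.lf 674704 .no))))))))) .no) (.sel
  641413 (.nrm 11 (.br 25003 1 (.sel 0 (.lf 33 .no) (.sel 1 (.lf 58354576 .no) (.sel 393132 (.lf
  52063088 .no) (.sel 541986 (.lf 52063088 .no) (.sel 641413 (.lf 52063088 .no) (.sel 765431 (.lf
  58354576 .no) (.sel 876547 (.lf 52063088 .no) (.lf 691088 .no))))))))) (.lf 946 .no) (.br 16811
  1 (.sel 0 (.lf 33 .no) (.sel 1 (.lf 14831750032 .no) (.sel 393132 (.lf 58346384 .no) (.sel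
  541986 (.lf 67791632 .no) (.sel 641413 (.lf 67791632 .no) (.sel 765431 (.lf 67791632 .no) (.sel
  876547 (.lf 67791632 .no) (.lf 674704 .no))))))))) .no) (.sel 1 (.lf 17 .no) (.lf 670064
  .no))))))))) (.lf 2562 .no) (.lf 2578 .no) .no) (.sel 1 (.nrm 10 (.br 12713 585109 (.sel 0 (.lf
  52062576 .no) (.sel 1 (.lf 17 .no) (.sel 227529 (.lf 67791216 .no) (.sel 361707 (.lf 67791216
  .no) (.sel 393132 (.lf 67791216 .no) (.sel 585109 (.lf 67791216 .no) (.sel 971996 (.lf 67791216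
  .no) (.lf 674160 .no))))))))) (.lf 2562 .no) (.lf 2578 .no) .no) (.sel 234573 (.nrm 10 (.br
  12713 361707 (.sel 234573 (.nrm 11 (.br 25003 1 (.sel 1 (.br 24651 123457 (.sel 0 (.lf 67791728
  .no) (.sel 1 (.lf 49 .no) (.sel 963486 (.lf 412432 .no) (.lf 674704 .no))))) (.sel 358591 (.br
  24651 123457 (.sel 0 (.lf 67791632 .no) (.sel 1 (.lf 67791728 .no) (.sel 358591 (.lf 58084240
  .no) (.sel 371738 (.lf 412432 .no) (.sel 963486 (.lf 412432 .no) (.lf 674704 .no))))))) (.sel 0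
  (.lf 33 .no) (.sel 234573 (.lf 52063088 .no) (.sel 361707 (.lf 52063088 .no) (.sel 538443 (.lf
  52063088 .no) (.sel 876547 (.lf 52063088 .no) (.lf 691088 .no))))))))) (.lf 946 .no) (.br 16811
  1 (.sel 0 (.lf 33 .no) (.sel 1 (.lf 13221129104 .no) (.sel 234573 (.lf 67791632 .no) (.sel
  358591 (.lf 67791632 .no) (.sel 361707 (.lf 52054928 .no) (.sel 538443 (.lf 67791632 .no) (.sel
  876547 (.lf 67791632 .no) (.lf 674704 .no))))))))) .no) (.sel 0 (.lf 52062576 .no) (.sel 1 (.lf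
  17 .no) (.sel 28008 (.lf 670064 .no) (.sel 361707 (.lf 67791216 .no) (.sel 461561 (.lf 670064
  .no) (.sel 585109 (.lf 670064 .no) (.lf 674160 .no))))))))) (.lf 2562 .no) (.lf 2578 .no) .no)
  (.sel 264046 (.nrm 10 (.br 12713 227529 (.sel 264046 (.nrm 11 (.br 25003 1 (.sel 1 (.br 24651
  123457 (.sel 0 (.lf 67791728 .no) (.sel 1 (.lf 49 .no) (.sel 127134 (.lf 412432 .no) (.lf 674704
  .no))))) (.sel 378183 (.br 24651 123457 (.sel 0 (.lf 67791632 .no) (.sel 1 (.lf 67791728 .no)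
  (.sel 127134 (.lf 412432 .no) (.sel 378183 (.lf 58084240 .no) (.sel 773285 (.lf 412432 .no) (.lf
  674704 .no))))))) (.sel 0 (.lf 33 .no) (.sel 227529 (.lf 52063088 .no) (.sel 264046 (.lf
  52063088 .no) (.sel 876547 (.lf 52063088 .no) (.sel 970190 (.lf 52063088 .no) (.lf 691088
  .no))))))))) (.lf 946 .no) (.br 16811 1 (.sel 0 (.lf 33 .no) (.sel 1 (.lf 13221129104 .no) (.sel
  227529 (.lf 52054928 .no) (.sel 264046 (.lf 67791632 .no) (.sel 378183 (.lf 67791632 .no) (.sel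
  876547 (.lf 67791632 .no) (.sel 970190 (.lf 67791632 .no) (.lf 674704 .no))))))))) .no) (.sel 0
  (.lf 52062576 .no) (.sel 1 (.lf 17 .no) (.sel 29814 (.lf 670064 .no) (.sel 227529 (.lf 67791216
  .no) (.sel 585109 (.lf 670064 .no) (.sel 606872 (.lf 670064 .no) (.lf 674160 .no))))))))) (.lf
  2562 .no) (.lf 2578 .no) .no) (.sel 621821 (.nrm 10 (.br 12713 971996 (.sel 621821 (.nrm 11 (.br
  25003 1 (.sel 1 (.br 24651 123457 (.sel 0 (.lf 67791728 .no) (.sel 1 (.lf 49 .no) (.sel 751722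
  (.lf 412432 .no) (.lf 674704 .no))))) (.sel 735958 (.br 24651 123457 (.sel 0 (.lf 67791632 .no)
  (.sel 1 (.lf 67791728 .no) (.sel 159974 (.lf 412432 .no) (.sel 735958 (.lf 58084240 .no) (.sel
  751722 (.lf 412432 .no) (.lf 674704 .no))))))) (.sel 0 (.lf 33 .no) (.sel 356366 (.lf 52063088
  .no) (.sel 621821 (.lf 52063088 .no) (.sel 876547 (.lf 52063088 .no) (.sel 971996 (.lf 52063088
  .no) (.lf 691088 .no))))))))) (.lf 946 .no) (.br 16811 1 (.sel 0 (.lf 33 .no) (.sel 1 (.lf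
  13221129104 .no) (.sel 356366 (.lf 67791632 .no) (.sel 621821 (.lf 67791632 .no) (.sel 735958
  (.lf 67791632 .no) (.sel 876547 (.lf 67791632 .no) (.sel 971996 (.lf 52054928 .no) (.lf 674704
  .no))))))))) .no) (.sel 0 (.lf 52062576 .no) (.sel 1 (.lf 17 .no) (.sel 585109 (.lf 670064 .no)
  (.sel 638297 (.lf 670064 .no) (.sel 643638 (.lf 670064 .no) (.sel 971996 (.lf 67791216 .no) (.lf
  674160 .no))))))))) (.lf 2562 .no) (.lf 2578 .no) .no) (.sel 641413 (.nrm 10 (.br 12713 393132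
  (.sel 641413 (.nrm 11 (.br 25003 1 (.sel 1 (.br 24651 123457 (.sel 0 (.lf 67791728 .no) (.sel 1
  (.lf 49 .no) (.sel 350175 (.lf 412432 .no) (.lf 674704 .no))))) (.sel 765431 (.br 24651 123457
  (.sel 0 (.lf 67791632 .no) (.sel 1 (.lf 67791728 .no) (.sel 350175 (.lf 412432 .no) (.sel 765431
  (.lf 58084240 .no) (.sel 996326 (.lf 412432 .no) (.lf 674704 .no))))))) (.sel 0 (.lf 33 .no)
  (.sel 393132 (.lf 52063088 .no) (.sel 541986 (.lf 52063088 .no) (.sel 641413 (.lf 52063088 .no)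
  (.sel 876547 (.lf 52063088 .no) (.lf 691088 .no))))))))) (.lf 946 .no) (.br 16811 1 (.sel 0 (.lf
  33 .no) (.sel 1 (.lf 13221129104 .no) (.sel 393132 (.lf 52054928 .no) (.sel 541986 (.lf 67791632
  .no) (.sel 641413 (.lf 67791632 .no) (.sel 765431 (.lf 67791632 .no) (.sel 876547 (.lf 67791632
  .no) (.lf 674704 .no))))))))) .no) (.sel 0 (.lf 52062576 .no) (.sel 1 (.lf 17 .no) (.sel 393132
  (.lf 67791216 .no) (.sel 458018 (.lf 670064 .no) (.sel 585109 (.lf 670064 .no) (.sel 772475 (.lf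
  670064 .no) (.lf 674160 .no))))))))) (.lf 2562 .no) (.lf 2578 .no) .no) (.sel 0 (.lf 1 .no) (.lf
  538992 .no))))))))) (.nrm 10 (.br 12713 585109 (.sel 585109 (.nrm 11 (.br 25003 1 (.sel 1 (.br
  24651 123457 (.sel 0 (.lf 67791728 .no) (.sel 1 (.lf 49 .no) (.sel 123457 (.lf 58346384 .no)
  (.sel 358591 (.lf 67791728 .no) (.sel 378183 (.lf 67791728 .no) (.sel 735958 (.lf 67791728 .no)
  (.sel 765431 (.lf 67791728 .no) (.lf 543504 .no))))))))) (.sel 0 (.lf 33 .no) (.sel 123457 (.lf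
  58362768 .no) (.sel 358591 (.lf 58362768 .no) (.sel 378183 (.lf 58362768 .no) (.sel 735958 (.lf
  58362768 .no) (.sel 765431 (.lf 58362768 .no) (.lf 52063088 .no))))))))) (.lf 946 .no) (.br
  16811 1 (.sel 0 (.lf 33 .no) (.sel 1 (.lf 14831750032 .no) (.sel 227529 (.lf 58346384 .no) (.sel
  361707 (.lf 58346384 .no) (.sel 393132 (.lf 58346384 .no) (.sel 585109 (.lf 58346384 .no) (.sel
  971996 (.lf 58346384 .no) (.lf 68848384 .no))))))))) .no) (.sel 361707 (.nrm 11 (.br 25003 1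
  (.sel 1 (.br 24651 123457 (.sel 0 (.lf 67791728 .no) (.sel 1 (.lf 49 .no) (.sel 123457 (.lf
  52054928 .no) (.sel 358591 (.lf 67791728 .no) (.sel 378183 (.lf 67791728 .no) (.sel 735958 (.lf
  67791728 .no) (.sel 765431 (.lf 67791728 .no) (.lf 543504 .no))))))))) (.sel 765431 (.br 24651
  123457 (.sel 0 (.lf 67791632 .no) (.sel 1 (.lf 67791728 .no) (.sel 123457 (.lf 58346384 .no)
  (.sel 358591 (.lf 674576 .no) (.sel 378183 (.lf 674576 .no) (.sel 735958 (.lf 674576 .no) (.sel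
  765431 (.lf 14831741840 .no) (.lf 543504 .no))))))))) (.sel 0 (.lf 33 .no) (.sel 414895 (.lf
  52063088 .no) (.sel 538443 (.lf 52063088 .no) (.sel 638297 (.lf 52063088 .no) (.sel 971996 (.lf
  52063088 .no) (.lf 60459888 .no))))))))) (.lf 946 .no) (.br 16811 1 (.sel 0 (.lf 33 .no) (.sel 1
  (.lf 13221129104 .no) (.sel 227529 (.lf 52054928 .no) (.sel 361707 (.lf 52054928 .no) (.sel
  393132 (.lf 52054928 .no) (.sel 585109 (.lf 52054928 .no) (.sel 971996 (.lf 52054928 .no) (.lf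
  68848384 .no))))))))) .no) (.sel 227529 (.nrm 11 (.br 25003 1 (.sel 1 (.br 24651 123457 (.sel 0
  (.lf 67791728 .no) (.sel 1 (.lf 49 .no) (.sel 123457 (.lf 52054928 .no) (.sel 358591 (.lf
  67791728 .no) (.sel 378183 (.lf 67791728 .no) (.sel 735958 (.lf 67791728 .no) (.sel 765431 (.lf
  67791728 .no) (.lf 543504 .no))))))))) (.sel 735958 (.br 24651 123457 (.sel 0 (.lf 67791632 .no)
  (.sel 1 (.lf 67791728 .no) (.sel 123457 (.lf 58346384 .no) (.sel 358591 (.lf 674576 .no) (.sel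
  378183 (.lf 674576 .no) (.sel 735958 (.lf 14831741840 .no) (.sel 765431 (.lf 674576 .no) (.lf
  543504 .no))))))))) (.sel 0 (.lf 33 .no) (.sel 393132 (.lf 52063088 .no) (.sel 414895 (.lf
  52063088 .no) (.sel 772475 (.lf 52063088 .no) (.sel 970190 (.lf 52063088 .no) (.lf 60459888
  .no))))))))) (.lf 946 .no) (.br 16811 1 (.sel 0 (.lf 33 .no) (.sel 1 (.lf 13221129104 .no) (.sel
  227529 (.lf 52054928 .no) (.sel 361707 (.lf 52054928 .no) (.sel 393132 (.lf 52054928 .no) (.sel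
  585109 (.lf 52054928 .no) (.sel 971996 (.lf 52054928 .no) (.lf 68848384 .no))))))))) .no) (.sel
  1 (.nrm 11 (.br 24651 123457 (.sel 0 (.br 25003 1 (.sel 0 (.lf 33 .no) (.sel 414895 (.lf
  52063088 .no) (.sel 876547 (.lf 67791632 .no) (.lf 75131648 .no))))) (.sel 123457 (.br 16811
  123457 (.sel 123457 (.lf 24401006416728044696871624289289107 .no) (.sel 0 (.lf 33 .no) (.sel 1
  (.lf 52054928 .no) (.sel 358591 (.lf 52054928 .no) (.sel 378183 (.lf 52054928 .no) (.sel 735958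
  (.lf 52054928 .no) (.sel 765431 (.lf 52054928 .no) (.lf 690960 .no))))))))) (.sel 735958 (.br
  16811 735958 (.sel 0 (.lf 33 .no) (.sel 1 (.lf 67791728 .no) (.sel 29814 (.lf 67791632 .no)
  (.sel 123457 (.lf 67791632 .no) (.sel 621821 (.lf 67791632 .no) (.sel 735958 (.lf 13221129104
  .no) (.sel 772475 (.lf 52063088 .no) (.lf 690960 .no))))))))) (.sel 765431 (.br 16811 765431
  (.sel 0 (.lf 33 .no) (.sel 1 (.lf 67791728 .no) (.sel 123457 (.lf 67791632 .no) (.sel 461561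
  (.lf 67791632 .no) (.sel 638297 (.lf 52063088 .no) (.sel 641413 (.lf 67791632 .no) (.sel 765431
  (.lf 13221129104 .no) (.lf 690960 .no))))))))) (.sel 378183 (.br 16811 378183 (.sel 0 (.lf 33
  .no) (.sel 1 (.lf 67791728 .no) (.sel 28008 (.lf 52063088 .no) (.sel 123457 (.lf 67791632 .no)
  (.sel 264046 (.lf 67791632 .no) (.sel 378183 (.lf 13221129104 .no) (.sel 643638 (.lf 67791632
  .no) (.lf 690960 .no))))))))) (.sel 358591 (.br 16811 358591 (.sel 0 (.lf 33 .no) (.sel 1 (.lf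
  67791728 .no) (.sel 123457 (.lf 67791632 .no) (.sel 234573 (.lf 67791632 .no) (.sel 358591 (.lf
  13221129104 .no) (.sel 458018 (.lf 67791632 .no) (.sel 606872 (.lf 52063088 .no) (.lf 690960
  .no))))))))) (.sel 1 (.lf 49 .no) (.lf 412432 .no))))))))) (.lf 946 .no) (.br 16811 1 (.sel 0
  (.lf 33 .no) (.sel 1 (.lf 13221129104 .no) (.sel 227529 (.lf 52054928 .no) (.sel 361707 (.lf
  52054928 .no) (.sel 393132 (.lf 52054928 .no) (.sel 585109 (.lf 52054928 .no) (.sel 971996 (.lf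
  52054928 .no) (.lf 68848384 .no))))))))) .no) (.sel 971996 (.nrm 11 (.br 25003 1 (.sel 1 (.br
  24651 123457 (.sel 0 (.lf 67791728 .no) (.sel 1 (.lf 49 .no) (.sel 123457 (.lf 52054928 .no)
  (.sel 358591 (.lf 67791728 .no) (.sel 378183 (.lf 67791728 .no) (.sel 735958 (.lf 67791728 .no)
  (.sel 765431 (.lf 67791728 .no) (.lf 543504 .no))))))))) (.sel 378183 (.br 24651 123457 (.sel 0
  (.lf 67791632 .no) (.sel 1 (.lf 67791728 .no) (.sel 123457 (.lf 58346384 .no) (.sel 358591 (.lf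
  674576 .no) (.sel 378183 (.lf 14831741840 .no) (.sel 735958 (.lf 674576 .no) (.sel 765431 (.lf
  674576 .no) (.lf 543504 .no))))))))) (.sel 0 (.lf 33 .no) (.sel 28008 (.lf 52063088 .no) (.sel
  356366 (.lf 52063088 .no) (.sel 361707 (.lf 52063088 .no) (.sel 414895 (.lf 52063088 .no) (.lf
  60459888 .no))))))))) (.lf 946 .no) (.br 16811 1 (.sel 0 (.lf 33 .no) (.sel 1 (.lf 13221129104
  .no) (.sel 227529 (.lf 52054928 .no) (.sel 361707 (.lf 52054928 .no) (.sel 393132 (.lf 52054928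
  .no) (.sel 585109 (.lf 52054928 .no) (.sel 971996 (.lf 52054928 .no) (.lf 68848384 .no)))))))))
  .no) (.sel 393132 (.nrm 11 (.br 25003 1 (.sel 1 (.br 24651 123457 (.sel 0 (.lf 67791728 .no)
  (.sel 1 (.lf 49 .no) (.sel 123457 (.lf 52054928 .no) (.sel 358591 (.lf 67791728 .no) (.sel
  378183 (.lf 67791728 .no) (.sel 735958 (.lf 67791728 .no) (.sel 765431 (.lf 67791728 .no) (.lf
  543504 .no))))))))) (.sel 358591 (.br 24651 123457 (.sel 0 (.lf 67791632 .no) (.sel 1 (.lf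
  67791728 .no) (.sel 123457 (.lf 58346384 .no) (.sel 358591 (.lf 14831741840 .no) (.sel 378183
  (.lf 674576 .no) (.sel 735958 (.lf 674576 .no) (.sel 765431 (.lf 674576 .no) (.lf 543504
  .no))))))))) (.sel 0 (.lf 33 .no) (.sel 227529 (.lf 52063088 .no) (.sel 414895 (.lf 52063088
  .no) (.sel 541986 (.lf 52063088 .no) (.sel 606872 (.lf 52063088 .no) (.lf 60459888 .no)))))))))
  (.lf 946 .no) (.br 16811 1 (.sel 0 (.lf 33 .no) (.sel 1 (.lf 13221129104 .no) (.sel 227529 (.lf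
  52054928 .no) (.sel 361707 (.lf 52054928 .no) (.sel 393132 (.lf 52054928 .no) (.sel 585109 (.lf
  52054928 .no) (.sel 971996 (.lf 52054928 .no) (.lf 68848384 .no))))))))) .no) (.sel 0 (.lf 17
  .no) (.lf 670064 .no))))))))) (.lf 2562 .no) (.lf 2578 .no) .no) (.lf 1170 .no) .no)

theorem ct23r_ok : chk 2 3 true ct23r [] = true := by decide +kernel

/-- A certificate. -/
def ct23c : Ct :=
  (.nrm 9 (.br 14225 876547 (.sel 0 (.nrm 10 (.br 18330 1 (.sel 0 (.lf 17 .no) (.sel 123457 (.lf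
  67725936 .no) (.sel 692317 (.lf 67725936 .no) (.lf 51997296 .no))))) (.lf 930 .no) (.lf 1186
  .no) .no) (.sel 876547 (.nrm 10 (.br 16794 876547 (.sel 876547 (.nrm 11 (.br 16826 1 (.sel 0
  (.br 16816 123457 (.sel 0 (.lf 49 .no) (.sel 1 (.lf 67857008 .no) (.sel 123457 (.lf 134978160
  .no) (.sel 358591 (.lf 67857008 .no) (.sel 378183 (.lf 67857008 .no) (.sel 735958 (.lf 67857008
  .no) (.sel 765431 (.lf 67857008 .no) (.lf 753920 .no))))))))) (.sel 1 (.lf 33 .no) (.sel 234573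
  (.lf 52128368 .no) (.sel 264046 (.lf 52128368 .no) (.sel 621821 (.lf 52128368 .no) (.sel 641413
  (.lf 52128368 .no) (.sel 876547 (.lf 52128368 .no) (.lf 760432 .no))))))))) (.br 16570 307687
  (.sel 1 (.lf 47136319930541282548252241026878211 .no) (.sel 0 (.lf 33 .no) (.sel 29814 (.lf
  134978160 .no) (.sel 307687 (.lf 134978160 .no) (.sel 458018 (.lf 134978160 .no) (.sel 461561
  (.lf 134978160 .no) (.sel 643638 (.lf 134978160 .no) (.lf 748032 .no))))))))) (.lf 2834 .no)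
  .no) (.sel 1 (.nrm 11 (.br 16826 1 (.sel 0 (.lf 102472304 .no) (.sel 1 (.lf 33 .no) (.sel 227529
  (.lf 52128368 .no) (.sel 361707 (.lf 52128368 .no) (.sel 393132 (.lf 52128368 .no) (.sel 585109
  (.lf 52128368 .no) (.sel 971996 (.lf 52128368 .no) (.lf 760336 .no))))))))) (.br 16570 307687
  (.sel 0 (.lf 33 .no) (.sel 1 (.lf 67869200 .no) (.sel 29814 (.lf 67869200 .no) (.sel 307687 (.lf
  101423632 .no) (.sel 458018 (.lf 67869200 .no) (.sel 461561 (.lf 67869200 .no) (.sel 643638 (.lf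
  67869200 .no) (.lf 748032 .no))))))))) (.lf 2834 .no) .no) (.sel 234573 (.nrm 11 (.br 16826 1
  (.sel 0 (.lf 102472304 .no) (.sel 1 (.lf 33 .no) (.sel 28008 (.lf 760432 .no) (.sel 234573 (.lf
  52128368 .no) (.sel 361707 (.lf 52128368 .no) (.sel 461561 (.lf 760432 .no) (.sel 585109 (.lf
  760432 .no) (.lf 760336 .no))))))))) (.br 16570 307687 (.sel 0 (.lf 33 .no) (.sel 1 (.lf
  67869200 .no) (.sel 29814 (.lf 67869200 .no) (.sel 307687 (.lf 101423632 .no) (.sel 458018 (.lf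
  67869200 .no) (.sel 461561 (.lf 101423632 .no) (.sel 643638 (.lf 67869200 .no) (.lf 748032
  .no))))))))) (.lf 2834 .no) .no) (.sel 264046 (.nrm 11 (.br 16826 1 (.sel 0 (.lf 102472304 .no)
  (.sel 1 (.lf 33 .no) (.sel 29814 (.lf 760432 .no) (.sel 227529 (.lf 52128368 .no) (.sel 264046
  (.lf 52128368 .no) (.sel 585109 (.lf 760432 .no) (.sel 606872 (.lf 760432 .no) (.lf 760336
  .no))))))))) (.br 16570 307687 (.sel 0 (.lf 33 .no) (.sel 1 (.lf 67869200 .no) (.sel 29814 (.lf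
  101423632 .no) (.sel 307687 (.lf 101423632 .no) (.sel 458018 (.lf 67869200 .no) (.sel 461561
  (.lf 67869200 .no) (.sel 643638 (.lf 67869200 .no) (.lf 748032 .no))))))))) (.lf 2834 .no) .no)
  (.sel 621821 (.nrm 11 (.br 16826 1 (.sel 0 (.lf 102472304 .no) (.sel 1 (.lf 33 .no) (.sel 585109
  (.lf 760432 .no) (.sel 621821 (.lf 52128368 .no) (.sel 638297 (.lf 760432 .no) (.sel 643638 (.lf
  760432 .no) (.sel 971996 (.lf 52128368 .no) (.lf 760336 .no))))))))) (.br 16570 307687 (.sel 0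
  (.lf 33 .no) (.sel 1 (.lf 67869200 .no) (.sel 29814 (.lf 67869200 .no) (.sel 307687 (.lf
  101423632 .no) (.sel 458018 (.lf 67869200 .no) (.sel 461561 (.lf 67869200 .no) (.sel 643638 (.lf
  101423632 .no) (.lf 748032 .no))))))))) (.lf 2834 .no) .no) (.sel 641413 (.nrm 11 (.br 16826 1
  (.sel 0 (.lf 102472304 .no) (.sel 1 (.lf 33 .no) (.sel 393132 (.lf 52128368 .no) (.sel 458018
  (.lf 760432 .no) (.sel 585109 (.lf 760432 .no) (.sel 641413 (.lf 52128368 .no) (.sel 772475 (.lf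
  760432 .no) (.lf 760336 .no))))))))) (.br 16570 307687 (.sel 0 (.lf 33 .no) (.sel 1 (.lf
  67869200 .no) (.sel 29814 (.lf 67869200 .no) (.sel 307687 (.lf 101423632 .no) (.sel 458018 (.lf
  101423632 .no) (.sel 461561 (.lf 67869200 .no) (.sel 643638 (.lf 67869200 .no) (.lf 748032
  .no))))))))) (.lf 2834 .no) .no) (.sel 0 (.lf 17 .no) (.lf 625264 .no))))))))) (.lf 930 .no)
  (.lf 1186 .no) .no) (.sel 234573 (.nrm 10 (.br 16794 234573 (.sel 234573 (.nrm 11 (.br 16826 1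
  (.sel 0 (.br 16816 123457 (.sel 0 (.lf 49 .no) (.sel 1 (.lf 67857008 .no) (.sel 123457 (.lf
  101423728 .no) (.sel 358591 (.lf 67857008 .no) (.sel 378183 (.lf 67857008 .no) (.sel 735958 (.lf
  67857008 .no) (.sel 765431 (.lf 67857008 .no) (.lf 753920 .no))))))))) (.sel 358591 (.br 16816
  123457 (.sel 0 (.lf 67857008 .no) (.sel 123457 (.lf 101423728 .no) (.sel 358591 (.lf 101422864
  .no) (.sel 371738 (.lf 745728 .no) (.sel 436277 (.lf 745728 .no) (.sel 585126 (.lf 745728 .no)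
  (.sel 591984 (.lf 745728 .no) (.lf 739840 .no))))))))) (.sel 1 (.lf 33 .no) (.sel 234573 (.lf
  52128368 .no) (.sel 361707 (.lf 52128368 .no) (.sel 538443 (.lf 52128368 .no) (.sel 876547 (.lf
  52128368 .no) (.lf 760432 .no))))))))) (.br 16570 307687 (.sel 0 (.lf 33 .no) (.sel 1 (.lf
  13221206640 .no) (.sel 29814 (.lf 67869296 .no) (.sel 307687 (.lf 134978160 .no) (.sel 458018
  (.lf 67869296 .no) (.sel 461561 (.lf 13254761072 .no) (.sel 643638 (.lf 67869296 .no) (.lf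
  748032 .no))))))))) (.lf 2834 .no) .no) (.sel 0 (.lf 17 .no) (.sel 1 (.lf 51997296 .no) (.sel
  358591 (.lf 67725936 .no) (.sel 361707 (.lf 67725936 .no) (.sel 538443 (.lf 67725936 .no) (.sel
  876547 (.lf 51989104 .no) (.lf 608880 .no))))))))) (.lf 930 .no) (.lf 1186 .no) .no) (.sel
  264046 (.nrm 10 (.br 16794 264046 (.sel 264046 (.nrm 11 (.br 16826 1 (.sel 0 (.br 16816 123457
  (.sel 0 (.lf 49 .no) (.sel 1 (.lf 67857008 .no) (.sel 123457 (.lf 101423728 .no) (.sel 358591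
  (.lf 67857008 .no) (.sel 378183 (.lf 67857008 .no) (.sel 735958 (.lf 67857008 .no) (.sel 765431
  (.lf 67857008 .no) (.lf 753920 .no))))))))) (.sel 378183 (.br 16816 123457 (.sel 0 (.lf 67857008
  .no) (.sel 123457 (.lf 101423728 .no) (.sel 198564 (.lf 745728 .no) (.sel 229228 (.lf 745728
  .no) (.sel 378183 (.lf 101422864 .no) (.sel 585126 (.lf 745728 .no) (.sel 773285 (.lf 745728
  .no) (.lf 739840 .no))))))))) (.sel 1 (.lf 33 .no) (.sel 227529 (.lf 52128368 .no) (.sel 264046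
  (.lf 52128368 .no) (.sel 876547 (.lf 52128368 .no) (.sel 970190 (.lf 52128368 .no) (.lf 760432
  .no))))))))) (.br 16570 307687 (.sel 0 (.lf 33 .no) (.sel 1 (.lf 13221206640 .no) (.sel 29814
  (.lf 13254761072 .no) (.sel 307687 (.lf 134978160 .no) (.sel 458018 (.lf 67869296 .no) (.sel
  461561 (.lf 67869296 .no) (.sel 643638 (.lf 67869296 .no) (.lf 748032 .no))))))))) (.lf 2834
  .no) .no) (.sel 0 (.lf 17 .no) (.sel 1 (.lf 51997296 .no) (.sel 227529 (.lf 67725936 .no) (.sel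
  378183 (.lf 67725936 .no) (.sel 876547 (.lf 51989104 .no) (.sel 970190 (.lf 67725936 .no) (.lf
  608880 .no))))))))) (.lf 930 .no) (.lf 1186 .no) .no) (.sel 621821 (.nrm 10 (.br 16794 621821
  (.sel 621821 (.nrm 11 (.br 16826 1 (.sel 0 (.br 16816 123457 (.sel 0 (.lf 49 .no) (.sel 1 (.lf
  67857008 .no) (.sel 123457 (.lf 101423728 .no) (.sel 358591 (.lf 67857008 .no) (.sel 378183 (.lf
  67857008 .no) (.sel 735958 (.lf 67857008 .no) (.sel 765431 (.lf 67857008 .no) (.lf 753920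
  .no))))))))) (.sel 735958 (.br 16816 123457 (.sel 0 (.lf 67857008 .no) (.sel 123457 (.lf
  101423728 .no) (.sel 159974 (.lf 745728 .no) (.sel 585126 (.lf 745728 .no) (.sel 735958 (.lf
  101422864 .no) (.sel 894232 (.lf 745728 .no) (.sel 924896 (.lf 745728 .no) (.lf 739840
  .no))))))))) (.sel 1 (.lf 33 .no) (.sel 356366 (.lf 52128368 .no) (.sel 621821 (.lf 52128368
  .no) (.sel 876547 (.lf 52128368 .no) (.sel 971996 (.lf 52128368 .no) (.lf 760432 .no)))))))))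
  (.br 16570 307687 (.sel 0 (.lf 33 .no) (.sel 1 (.lf 13221206640 .no) (.sel 29814 (.lf 67869296
  .no) (.sel 307687 (.lf 134978160 .no) (.sel 458018 (.lf 67869296 .no) (.sel 461561 (.lf 67869296
  .no) (.sel 643638 (.lf 13254761072 .no) (.lf 748032 .no))))))))) (.lf 2834 .no) .no) (.sel 0
  (.lf 17 .no) (.sel 1 (.lf 51997296 .no) (.sel 356366 (.lf 67725936 .no) (.sel 735958 (.lf
  67725936 .no) (.sel 876547 (.lf 51989104 .no) (.sel 971996 (.lf 67725936 .no) (.lf 608880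
  .no))))))))) (.lf 930 .no) (.lf 1186 .no) .no) (.sel 641413 (.nrm 10 (.br 16794 641413 (.sel
  641413 (.nrm 11 (.br 16826 1 (.sel 0 (.br 16816 123457 (.sel 0 (.lf 49 .no) (.sel 1 (.lf
  67857008 .no) (.sel 123457 (.lf 101423728 .no) (.sel 358591 (.lf 67857008 .no) (.sel 378183 (.lf
  67857008 .no) (.sel 735958 (.lf 67857008 .no) (.sel 765431 (.lf 67857008 .no) (.lf 753920
  .no))))))))) (.sel 765431 (.br 16816 123457 (.sel 0 (.lf 67857008 .no) (.sel 123457 (.lf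
  101423728 .no) (.sel 531476 (.lf 745728 .no) (.sel 585126 (.lf 745728 .no) (.sel 687183 (.lf
  745728 .no) (.sel 765431 (.lf 101422864 .no) (.sel 996326 (.lf 745728 .no) (.lf 739840
  .no))))))))) (.sel 1 (.lf 33 .no) (.sel 393132 (.lf 52128368 .no) (.sel 541986 (.lf 52128368
  .no) (.sel 641413 (.lf 52128368 .no) (.sel 876547 (.lf 52128368 .no) (.lf 760432 .no)))))))))
  (.br 16570 307687 (.sel 0 (.lf 33 .no) (.sel 1 (.lf 13221206640 .no) (.sel 29814 (.lf 67869296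
  .no) (.sel 307687 (.lf 134978160 .no) (.sel 458018 (.lf 13254761072 .no) (.sel 461561 (.lf
  67869296 .no) (.sel 643638 (.lf 67869296 .no) (.lf 748032 .no))))))))) (.lf 2834 .no) .no) (.sel
  0 (.lf 17 .no) (.sel 1 (.lf 51997296 .no) (.sel 393132 (.lf 67725936 .no) (.sel 541986 (.lf
  67725936 .no) (.sel 765431 (.lf 67725936 .no) (.sel 876547 (.lf 51989104 .no) (.lf 625264
  .no))))))))) (.lf 930 .no) (.lf 1186 .no) .no) (.sel 1 (.lf 1 .no) (.lf 608016 .no))))))))) (.lf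
  2306 .no) (.nrm 10 (.br 16794 1 (.sel 1 (.nrm 11 (.br 16816 123457 (.sel 123457 (.br 16570 1
  (.sel 123457 (.lf 16124515648971302890124481122011411 .no) (.sel 0 (.lf 13288315504 .no) (.sel 1
  (.lf 33 .no) (.sel 358591 (.lf 13288315504 .no) (.sel 378183 (.lf 13288315504 .no) (.sel 735958
  (.lf 13288315504 .no) (.sel 765431 (.lf 13288315504 .no) (.lf 748032 .no))))))))) (.sel 735958
  (.br 16570 29814 (.sel 0 (.lf 67857008 .no) (.sel 1 (.lf 33 .no) (.sel 29814 (.lf 52128368 .no)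
  (.sel 114137 (.lf 739856 .no) (.sel 491374 (.lf 739856 .no) (.sel 735958 (.lf 13221206640 .no)
  (.sel 785989 (.lf 739856 .no) (.lf 748032 .no))))))))) (.sel 1 (.br 16570 307687 (.sel 0 (.lf
  67857008 .no) (.sel 1 (.lf 33 .no) (.sel 29814 (.lf 67857008 .no) (.sel 307687 (.lf 52128368
  .no) (.sel 458018 (.lf 67857008 .no) (.sel 461561 (.lf 67857008 .no) (.sel 643638 (.lf 67857008
  .no) (.lf 748032 .no))))))))) (.sel 765431 (.br 16570 461561 (.sel 0 (.lf 67857008 .no) (.sel 1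
  (.lf 33 .no) (.sel 37915 (.lf 739856 .no) (.sel 124018 (.lf 739856 .no) (.sel 461561 (.lf
  52128368 .no) (.sel 491374 (.lf 739856 .no) (.sel 765431 (.lf 13221206640 .no) (.lf 748032
  .no))))))))) (.sel 378183 (.br 16570 643638 (.sel 0 (.lf 67857008 .no) (.sel 1 (.lf 33 .no)
  (.sel 101652 (.lf 739856 .no) (.sel 114137 (.lf 739856 .no) (.sel 219518 (.lf 739856 .no) (.sel
  378183 (.lf 13221206640 .no) (.sel 643638 (.lf 52128368 .no) (.lf 748032 .no))))))))) (.sel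
  358591 (.br 16570 458018 (.sel 0 (.lf 67857008 .no) (.sel 1 (.lf 33 .no) (.sel 101652 (.lf
  739856 .no) (.sel 124018 (.lf 739856 .no) (.sel 358591 (.lf 13221206640 .no) (.sel 458018 (.lf
  52128368 .no) (.sel 639918 (.lf 739856 .no) (.lf 748032 .no))))))))) (.sel 0 (.lf 49 .no) (.lf
  753920 .no))))))))) (.br 16570 307687 (.sel 0 (.lf 33 .no) (.sel 1 (.lf 13221206640 .no) (.sel
  29814 (.lf 13221206640 .no) (.sel 307687 (.lf 13288315504 .no) (.sel 458018 (.lf 13221206640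
  .no) (.sel 461561 (.lf 13221206640 .no) (.sel 643638 (.lf 13221206640 .no) (.lf 748032
  .no))))))))) (.lf 2834 .no) .no) (.sel 29814 (.nrm 11 (.br 16826 1 (.sel 0 (.br 16816 123457
  (.sel 0 (.lf 49 .no) (.sel 1 (.lf 67869200 .no) (.sel 123457 (.lf 101423632 .no) (.sel 358591
  (.lf 67869200 .no) (.sel 378183 (.lf 67857008 .no) (.sel 735958 (.lf 67869200 .no) (.sel 765431
  (.lf 67869200 .no) (.lf 753920 .no))))))))) (.sel 735958 (.br 16816 123457 (.sel 0 (.lf 67857008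
  .no) (.sel 123457 (.lf 101423632 .no) (.sel 159974 (.lf 745728 .no) (.sel 585126 (.lf 745728
  .no) (.sel 735958 (.lf 67869200 .no) (.sel 894232 (.lf 745728 .no) (.sel 924896 (.lf 745728 .no)
  (.lf 739840 .no))))))))) (.sel 1 (.lf 33 .no) (.sel 29814 (.lf 52128368 .no) (.sel 227529 (.lf
  52128368 .no) (.sel 307687 (.lf 52128368 .no) (.sel 538443 (.lf 52128368 .no) (.lf 760336
  .no))))))))) (.br 16570 307687 (.sel 0 (.lf 33 .no) (.sel 1 (.lf 67869200 .no) (.sel 29814 (.lf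
  67869200 .no) (.sel 307687 (.lf 101423632 .no) (.sel 458018 (.lf 67869200 .no) (.sel 461561 (.lf
  67869200 .no) (.sel 643638 (.lf 67869200 .no) (.lf 748032 .no))))))))) (.lf 2834 .no) .no) (.sel
  307687 (.nrm 11 (.br 16826 1 (.sel 0 (.br 16816 123457 (.sel 0 (.lf 49 .no) (.sel 1 (.lf
  67869200 .no) (.sel 123457 (.lf 101423632 .no) (.sel 358591 (.lf 67869200 .no) (.sel 378183 (.lf
  67869200 .no) (.sel 735958 (.lf 67869200 .no) (.sel 765431 (.lf 67869200 .no) (.lf 753920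
  .no))))))))) (.sel 1 (.lf 33 .no) (.sel 29814 (.lf 52128368 .no) (.sel 307687 (.lf 52128368 .no)
  (.sel 458018 (.lf 52128368 .no) (.sel 461561 (.lf 52128368 .no) (.sel 643638 (.lf 52128368 .no)
  (.lf 760336 .no))))))))) (.br 16570 307687 (.sel 0 (.lf 33 .no) (.sel 1 (.lf 67869200 .no) (.sel
  29814 (.lf 67869200 .no) (.sel 307687 (.lf 101423632 .no) (.sel 458018 (.lf 67869200 .no) (.sel
  461561 (.lf 67869200 .no) (.sel 643638 (.lf 67869200 .no) (.lf 748032 .no))))))))) (.lf 2834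
  .no) .no) (.sel 461561 (.nrm 11 (.br 16826 1 (.sel 0 (.br 16816 123457 (.sel 0 (.lf 49 .no)
  (.sel 1 (.lf 67869200 .no) (.sel 123457 (.lf 101423632 .no) (.sel 358591 (.lf 67857008 .no)
  (.sel 378183 (.lf 67869200 .no) (.sel 735958 (.lf 67869200 .no) (.sel 765431 (.lf 67869200 .no)
  (.lf 753920 .no))))))))) (.sel 765431 (.br 16816 123457 (.sel 0 (.lf 67857008 .no) (.sel 123457
  (.lf 101423632 .no) (.sel 531476 (.lf 745728 .no) (.sel 585126 (.lf 745728 .no) (.sel 687183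
  (.lf 745728 .no) (.sel 765431 (.lf 67869200 .no) (.sel 996326 (.lf 745728 .no) (.lf 739840
  .no))))))))) (.sel 1 (.lf 33 .no) (.sel 307687 (.lf 52128368 .no) (.sel 361707 (.lf 52128368
  .no) (.sel 461561 (.lf 52128368 .no) (.sel 970190 (.lf 52128368 .no) (.lf 760336 .no)))))))))
  (.br 16570 307687 (.sel 0 (.lf 33 .no) (.sel 1 (.lf 67869200 .no) (.sel 29814 (.lf 67869200 .no)
  (.sel 307687 (.lf 101423632 .no) (.sel 458018 (.lf 67869200 .no) (.sel 461561 (.lf 67869200 .no)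
  (.sel 643638 (.lf 67869200 .no) (.lf 748032 .no))))))))) (.lf 2834 .no) .no) (.sel 643638 (.nrm
  11 (.br 16826 1 (.sel 0 (.br 16816 123457 (.sel 0 (.lf 49 .no) (.sel 1 (.lf 67869200 .no) (.sel
  123457 (.lf 101423632 .no) (.sel 358591 (.lf 67869200 .no) (.sel 378183 (.lf 67869200 .no) (.sel
  735958 (.lf 67857008 .no) (.sel 765431 (.lf 67869200 .no) (.lf 753920 .no))))))))) (.sel 378183
  (.br 16816 123457 (.sel 0 (.lf 67857008 .no) (.sel 123457 (.lf 101423632 .no) (.sel 198564 (.lf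
  745728 .no) (.sel 229228 (.lf 745728 .no) (.sel 378183 (.lf 67869200 .no) (.sel 585126 (.lf
  745728 .no) (.sel 773285 (.lf 745728 .no) (.lf 739840 .no))))))))) (.sel 1 (.lf 33 .no) (.sel
  307687 (.lf 52128368 .no) (.sel 541986 (.lf 52128368 .no) (.sel 643638 (.lf 52128368 .no) (.sel
  971996 (.lf 52128368 .no) (.lf 760336 .no))))))))) (.br 16570 307687 (.sel 0 (.lf 33 .no) (.sel
  1 (.lf 67869200 .no) (.sel 29814 (.lf 67869200 .no) (.sel 307687 (.lf 101423632 .no) (.sel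
  458018 (.lf 67869200 .no) (.sel 461561 (.lf 67869200 .no) (.sel 643638 (.lf 67869200 .no) (.lf
  748032 .no))))))))) (.lf 2834 .no) .no) (.sel 458018 (.nrm 11 (.br 16826 1 (.sel 0 (.br 16816
  123457 (.sel 0 (.lf 49 .no) (.sel 1 (.lf 67869200 .no) (.sel 123457 (.lf 101423632 .no) (.sel
  358591 (.lf 67869200 .no) (.sel 378183 (.lf 67869200 .no) (.sel 735958 (.lf 67869200 .no) (.sel
  765431 (.lf 67857008 .no) (.lf 753920 .no))))))))) (.sel 358591 (.br 16816 123457 (.sel 0 (.lf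
  67857008 .no) (.sel 123457 (.lf 101423632 .no) (.sel 358591 (.lf 67869200 .no) (.sel 371738 (.lf
  745728 .no) (.sel 436277 (.lf 745728 .no) (.sel 585126 (.lf 745728 .no) (.sel 591984 (.lf 745728
  .no) (.lf 739840 .no))))))))) (.sel 1 (.lf 33 .no) (.sel 307687 (.lf 52128368 .no) (.sel 356366
  (.lf 52128368 .no) (.sel 393132 (.lf 52128368 .no) (.sel 458018 (.lf 52128368 .no) (.lf 760336
  .no))))))))) (.br 16570 307687 (.sel 0 (.lf 33 .no) (.sel 1 (.lf 67869200 .no) (.sel 29814 (.lf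
  67869200 .no) (.sel 307687 (.lf 101423632 .no) (.sel 458018 (.lf 67869200 .no) (.sel 461561 (.lf
  67869200 .no) (.sel 643638 (.lf 67869200 .no) (.lf 748032 .no))))))))) (.lf 2834 .no) .no) (.sel
  0 (.lf 17 .no) (.lf 152582768 .no))))))))) (.lf 930 .no) (.lf 1186 .no) .no) .no)

theorem ct23c_ok : chk 2 3 false ct23c [] = true := by decide +kernel

/-- A certificate. -/
def ct24r : Ct :=
  (.nrm 9 (.br 16697 876547 (.sel 876547 (.nrm 10 (.br 12713 1 (.sel 0 (.nrm 11 (.br 16811 1 (.sel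
  0 (.lf 33 .no) (.sel 123457 (.lf 67791728 .no) (.sel 692317 (.lf 67791728 .no) (.lf 175520656
  .no))))) (.lf 946 .no) (.lf 1202 .no) .no) (.sel 234573 (.nrm 11 (.br 16811 1 (.sel 0 (.lf 33
  .no) (.sel 1 (.lf 58354576 .no) (.sel 234573 (.lf 52063088 .no) (.sel 358591 (.lf 67791728 .no)
  (.sel 361707 (.lf 67791728 .no) (.sel 538443 (.lf 67791728 .no) (.sel 876547 (.lf 52063088 .no)
  (.lf 674704 .no))))))))) (.lf 946 .no) (.lf 1202 .no) .no) (.sel 264046 (.nrm 11 (.br 16811 1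
  (.sel 0 (.lf 33 .no) (.sel 1 (.lf 58354576 .no) (.sel 227529 (.lf 67791728 .no) (.sel 264046
  (.lf 52063088 .no) (.sel 378183 (.lf 67791728 .no) (.sel 876547 (.lf 52063088 .no) (.sel 970190
  (.lf 67791728 .no) (.lf 674704 .no))))))))) (.lf 946 .no) (.lf 1202 .no) .no) (.sel 876547 (.nrm
  11 (.br 16811 1 (.sel 1 (.nrm 12 (.br 16843 1 (.sel 0 (.lf 175926160 .no) (.sel 1 (.lf 49 .no)
  (.sel 227529 (.lf 52194160 .no) (.sel 361707 (.lf 52194160 .no) (.sel 393132 (.lf 52194160 .no)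
  (.sel 585109 (.lf 52194160 .no) (.sel 971996 (.lf 52194160 .no) (.lf 830352 .no))))))))) (.br
  16587 307687 (.sel 0 (.lf 49 .no) (.sel 1 (.lf 67939216 .no) (.sel 29814 (.lf 67939216 .no)
  (.sel 307687 (.lf 101493648 .no) (.sel 458018 (.lf 67939216 .no) (.sel 461561 (.lf 67939216 .no)
  (.sel 643638 (.lf 67939216 .no) (.lf 822016 .no))))))))) (.lf 3090 .no) .no) (.sel 0 (.lf 33
  .no) (.sel 234573 (.lf 52063088 .no) (.sel 264046 (.lf 52063088 .no) (.sel 621821 (.lf 52063088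
  .no) (.sel 641413 (.lf 52063088 .no) (.sel 876547 (.lf 52063088 .no) (.lf 674704 .no)))))))))
  (.lf 946 .no) (.lf 1202 .no) .no) (.sel 621821 (.nrm 11 (.br 16811 1 (.sel 0 (.lf 33 .no) (.sel
  1 (.lf 58354576 .no) (.sel 356366 (.lf 67791728 .no) (.sel 621821 (.lf 52063088 .no) (.sel
  735958 (.lf 67791728 .no) (.sel 876547 (.lf 52063088 .no) (.sel 971996 (.lf 67791728 .no) (.lf
  674704 .no))))))))) (.lf 946 .no) (.lf 1202 .no) .no) (.sel 641413 (.nrm 11 (.br 16811 1 (.sel 0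
  (.lf 33 .no) (.sel 1 (.lf 58354576 .no) (.sel 393132 (.lf 67791728 .no) (.sel 541986 (.lf
  67791728 .no) (.sel 641413 (.lf 52063088 .no) (.sel 765431 (.lf 67791728 .no) (.sel 876547 (.lf
  52063088 .no) (.lf 674704 .no))))))))) (.lf 946 .no) (.lf 1202 .no) .no) (.sel 1 (.lf 17 .no)
  (.lf 670064 .no))))))))) (.lf 2562 .no) (.lf 2578 .no) .no) (.sel 1 (.nrm 10 (.br 12713 585109
  (.sel 0 (.lf 52062576 .no) (.sel 1 (.lf 17 .no) (.sel 227529 (.lf 67791216 .no) (.sel 361707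
  (.lf 67791216 .no) (.sel 393132 (.lf 67791216 .no) (.sel 585109 (.lf 67791216 .no) (.sel 971996
  (.lf 67791216 .no) (.lf 674160 .no))))))))) (.lf 2562 .no) (.lf 2578 .no) .no) (.sel 234573
  (.nrm 10 (.br 12713 361707 (.sel 234573 (.nrm 11 (.br 16811 1 (.sel 1 (.nrm 12 (.br 16843 1
  (.sel 0 (.lf 175926160 .no) (.sel 1 (.lf 49 .no) (.sel 29814 (.lf 52194160 .no) (.sel 227529
  (.lf 52194160 .no) (.sel 264046 (.lf 52194160 .no) (.sel 585109 (.lf 52194160 .no) (.sel 606872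
  (.lf 52194160 .no) (.lf 830352 .no))))))))) (.br 16587 307687 (.sel 0 (.lf 49 .no) (.sel 1 (.lf
  67939216 .no) (.sel 29814 (.lf 101493648 .no) (.sel 307687 (.lf 101493648 .no) (.sel 458018 (.lf
  67939216 .no) (.sel 461561 (.lf 67939216 .no) (.sel 643638 (.lf 67939216 .no) (.lf 822016
  .no))))))))) (.lf 3090 .no) .no) (.sel 0 (.lf 33 .no) (.sel 234573 (.lf 52063088 .no) (.sel
  358591 (.lf 67791728 .no) (.sel 361707 (.lf 67791728 .no) (.sel 538443 (.lf 67791728 .no) (.sel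
  876547 (.lf 52063088 .no) (.lf 674704 .no))))))))) (.lf 946 .no) (.lf 1202 .no) .no) (.sel 0
  (.lf 52062576 .no) (.sel 1 (.lf 17 .no) (.sel 28008 (.lf 670064 .no) (.sel 361707 (.lf 67791216
  .no) (.sel 461561 (.lf 670064 .no) (.sel 585109 (.lf 670064 .no) (.lf 674160 .no))))))))) (.lf
  2562 .no) (.lf 2578 .no) .no) (.sel 264046 (.nrm 10 (.br 12713 227529 (.sel 264046 (.nrm 11 (.br
  16811 1 (.sel 1 (.nrm 12 (.br 16843 1 (.sel 0 (.lf 175926160 .no) (.sel 1 (.lf 49 .no) (.sel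
  28008 (.lf 52194160 .no) (.sel 234573 (.lf 52194160 .no) (.sel 361707 (.lf 52194160 .no) (.sel
  461561 (.lf 52194160 .no) (.sel 585109 (.lf 52194160 .no) (.lf 830352 .no))))))))) (.br 16587
  307687 (.sel 0 (.lf 49 .no) (.sel 1 (.lf 67939216 .no) (.sel 29814 (.lf 67939216 .no) (.sel
  307687 (.lf 101493648 .no) (.sel 458018 (.lf 67939216 .no) (.sel 461561 (.lf 101493648 .no)
  (.sel 643638 (.lf 67939216 .no) (.lf 822016 .no))))))))) (.lf 3090 .no) .no) (.sel 0 (.lf 33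
  .no) (.sel 227529 (.lf 67791728 .no) (.sel 264046 (.lf 52063088 .no) (.sel 378183 (.lf 67791728
  .no) (.sel 876547 (.lf 52063088 .no) (.sel 970190 (.lf 67791728 .no) (.lf 674704 .no)))))))))
  (.lf 946 .no) (.lf 1202 .no) .no) (.sel 0 (.lf 52062576 .no) (.sel 1 (.lf 17 .no) (.sel 29814
  (.lf 670064 .no) (.sel 227529 (.lf 67791216 .no) (.sel 585109 (.lf 670064 .no) (.sel 606872 (.lf
  670064 .no) (.lf 674160 .no))))))))) (.lf 2562 .no) (.lf 2578 .no) .no) (.sel 621821 (.nrm 10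
  (.br 12713 971996 (.sel 621821 (.nrm 11 (.br 16811 1 (.sel 1 (.nrm 12 (.br 16843 1 (.sel 0 (.lf
  175926160 .no) (.sel 1 (.lf 49 .no) (.sel 393132 (.lf 52194160 .no) (.sel 458018 (.lf 52194160
  .no) (.sel 585109 (.lf 52194160 .no) (.sel 641413 (.lf 52194160 .no) (.sel 772475 (.lf 52194160
  .no) (.lf 830352 .no))))))))) (.br 16587 307687 (.sel 0 (.lf 49 .no) (.sel 1 (.lf 67939216 .no)
  (.sel 29814 (.lf 67939216 .no) (.sel 307687 (.lf 101493648 .no) (.sel 458018 (.lf 101493648 .no)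
  (.sel 461561 (.lf 67939216 .no) (.sel 643638 (.lf 67939216 .no) (.lf 822016 .no))))))))) (.lf
  3090 .no) .no) (.sel 0 (.lf 33 .no) (.sel 356366 (.lf 67791728 .no) (.sel 621821 (.lf 52063088
  .no) (.sel 735958 (.lf 67791728 .no) (.sel 876547 (.lf 52063088 .no) (.sel 971996 (.lf 67791728
  .no) (.lf 674704 .no))))))))) (.lf 946 .no) (.lf 1202 .no) .no) (.sel 0 (.lf 52062576 .no) (.sel
  1 (.lf 17 .no) (.sel 585109 (.lf 670064 .no) (.sel 638297 (.lf 670064 .no) (.sel 643638 (.lf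
  670064 .no) (.sel 971996 (.lf 67791216 .no) (.lf 674160 .no))))))))) (.lf 2562 .no) (.lf 2578
  .no) .no) (.sel 641413 (.nrm 10 (.br 12713 393132 (.sel 641413 (.nrm 11 (.br 16811 1 (.sel 1
  (.nrm 12 (.br 16843 1 (.sel 0 (.lf 175926160 .no) (.sel 1 (.lf 49 .no) (.sel 585109 (.lf
  52194160 .no) (.sel 621821 (.lf 52194160 .no) (.sel 638297 (.lf 52194160 .no) (.sel 643638 (.lf
  52194160 .no) (.sel 971996 (.lf 52194160 .no) (.lf 830352 .no))))))))) (.br 16587 307687 (.sel 0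
  (.lf 49 .no) (.sel 1 (.lf 67939216 .no) (.sel 29814 (.lf 67939216 .no) (.sel 307687 (.lf
  101493648 .no) (.sel 458018 (.lf 67939216 .no) (.sel 461561 (.lf 67939216 .no) (.sel 643638 (.lf
  101493648 .no) (.lf 822016 .no))))))))) (.lf 3090 .no) .no) (.sel 0 (.lf 33 .no) (.sel 393132
  (.lf 67791728 .no) (.sel 541986 (.lf 67791728 .no) (.sel 641413 (.lf 52063088 .no) (.sel 765431
  (.lf 67791728 .no) (.sel 876547 (.lf 52063088 .no) (.lf 674704 .no))))))))) (.lf 946 .no) (.lf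
  1202 .no) .no) (.sel 0 (.lf 52062576 .no) (.sel 1 (.lf 17 .no) (.sel 393132 (.lf 67791216 .no)
  (.sel 458018 (.lf 670064 .no) (.sel 585109 (.lf 670064 .no) (.sel 772475 (.lf 670064 .no) (.lf
  674160 .no))))))))) (.lf 2562 .no) (.lf 2578 .no) .no) (.sel 0 (.lf 1 .no) (.lf 538992
  .no))))))))) (.nrm 10 (.br 12713 585109 (.sel 585109 (.nrm 11 (.br 16811 1 (.sel 0 (.lf 33 .no)
  (.sel 1 (.lf 14831741840 .no) (.sel 28008 (.lf 67791728 .no) (.sel 414895 (.lf 67791728 .no)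
  (.sel 606872 (.lf 67791728 .no) (.sel 638297 (.lf 67791728 .no) (.sel 772475 (.lf 67791728 .no)
  (.lf 60459888 .no))))))))) (.lf 946 .no) (.lf 1202 .no) .no) (.sel 361707 (.nrm 11 (.br 16811 1
  (.sel 0 (.lf 33 .no) (.sel 1 (.lf 14831741840 .no) (.sel 414895 (.lf 67791728 .no) (.sel 538443
  (.lf 67791728 .no) (.sel 638297 (.lf 67791728 .no) (.sel 765431 (.lf 67791728 .no) (.sel 971996
  (.lf 67791728 .no) (.lf 60459888 .no))))))))) (.lf 946 .no) (.lf 1202 .no) .no) (.sel 227529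
  (.nrm 11 (.br 16811 1 (.sel 0 (.lf 33 .no) (.sel 1 (.lf 14831741840 .no) (.sel 393132 (.lf
  67791728 .no) (.sel 414895 (.lf 67791728 .no) (.sel 735958 (.lf 67791728 .no) (.sel 772475 (.lf
  67791728 .no) (.sel 970190 (.lf 67791728 .no) (.lf 60459888 .no))))))))) (.lf 946 .no) (.lf 1202
  .no) .no) (.sel 1 (.nrm 11 (.br 16811 1 (.sel 1 (.nrm 12 (.br 16843 1 (.sel 0 (.br 16832 123457
  (.sel 0 (.lf 11489373875088 .no) (.sel 1 (.lf 67922800 .no) (.sel 123457 (.lf 101493616 .no)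
  (.sel 358591 (.lf 67922800 .no) (.sel 378183 (.lf 67922800 .no) (.sel 735958 (.lf 67922800 .no)
  (.sel 765431 (.lf 67922800 .no) (.lf 811264 .no))))))))) (.sel 1 (.lf 49 .no) (.sel 29814 (.lf
  52194160 .no) (.sel 307687 (.lf 52194160 .no) (.sel 458018 (.lf 52194160 .no) (.sel 461561 (.lf
  52194160 .no) (.sel 643638 (.lf 52194160 .no) (.lf 203045776 .no))))))))) (.br 16587 307687
  (.sel 0 (.lf 49 .no) (.sel 1 (.lf 13221276560 .no) (.sel 29814 (.lf 13221276560 .no) (.sel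
  307687 (.lf 13254830960 .no) (.sel 458018 (.lf 13221276560 .no) (.sel 461561 (.lf 13221276560
  .no) (.sel 643638 (.lf 13221276560 .no) (.lf 813824 .no))))))))) (.lf 3090 .no) .no) (.sel 0
  (.lf 33 .no) (.sel 123457 (.lf 67791728 .no) (.sel 358591 (.lf 67791728 .no) (.sel 378183 (.lf
  67791728 .no) (.sel 735958 (.lf 67791728 .no) (.sel 765431 (.lf 67791728 .no) (.lf 169229200
  .no))))))))) (.lf 946 .no) (.lf 1202 .no) .no) (.sel 971996 (.nrm 11 (.br 16811 1 (.sel 0 (.lf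
  33 .no) (.sel 1 (.lf 14831741840 .no) (.sel 28008 (.lf 67791728 .no) (.sel 356366 (.lf 67791728
  .no) (.sel 361707 (.lf 67791728 .no) (.sel 378183 (.lf 67791728 .no) (.sel 414895 (.lf 67791728
  .no) (.lf 60459888 .no))))))))) (.lf 946 .no) (.lf 1202 .no) .no) (.sel 393132 (.nrm 11 (.br
  16811 1 (.sel 0 (.lf 33 .no) (.sel 1 (.lf 14831741840 .no) (.sel 227529 (.lf 67791728 .no) (.sel
  358591 (.lf 67791728 .no) (.sel 414895 (.lf 67791728 .no) (.sel 541986 (.lf 67791728 .no) (.sel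
  606872 (.lf 67791728 .no) (.lf 60459888 .no))))))))) (.lf 946 .no) (.lf 1202 .no) .no) (.sel 0
  (.lf 17 .no) (.lf 670064 .no))))))))) (.lf 2562 .no) (.lf 2578 .no) .no) (.lf 1170 .no) .no)

theorem ct24r_ok : chk 2 4 true ct24r [] = true := by decide +kernel

/-- A certificate. -/
def ct24c : Ct :=
  (.nrm 9 (.br 14225 876547 (.sel 0 (.nrm 10 (.br 18330 1 (.sel 0 (.lf 17 .no) (.sel 123457 (.lf
  67725936 .no) (.sel 692317 (.lf 67725936 .no) (.lf 51997296 .no))))) (.lf 930 .no) (.lf 1186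
  .no) .no) (.sel 876547 (.nrm 10 (.br 16794 876547 (.sel 876547 (.nrm 11 (.br 16826 1 (.sel 0
  (.nrm 12 (.br 25020 1 (.sel 0 (.lf 49 .no) (.sel 123457 (.lf 142318752 .no) (.sel 692317 (.lf
  52128880 .no) (.lf 159083680 .no))))) (.lf 962 .no) (.br 16828 1 (.sel 0 (.lf 49 .no) (.sel 1
  (.lf 36306656416 .no) (.sel 227529 (.lf 75209888 .no) (.sel 361707 (.lf 75209888 .no) (.sel
  393132 (.lf 75209888 .no) (.sel 585109 (.lf 75209888 .no) (.sel 971996 (.lf 75209888 .no) (.lf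
  75205632 .no))))))))) .no) (.sel 1 (.lf 33 .no) (.sel 234573 (.lf 52128368 .no) (.sel 264046
  (.lf 52128368 .no) (.sel 621821 (.lf 52128368 .no) (.sel 641413 (.lf 52128368 .no) (.sel 876547
  (.lf 52128368 .no) (.lf 760432 .no))))))))) (.lf 2818 .no) (.lf 2834 .no) .no) (.sel 1 (.nrm 11
  (.br 16826 1 (.sel 0 (.lf 102472304 .no) (.sel 1 (.lf 33 .no) (.sel 227529 (.lf 67857008 .no)
  (.sel 361707 (.lf 67857008 .no) (.sel 393132 (.lf 67857008 .no) (.sel 585109 (.lf 67857008 .no)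
  (.sel 971996 (.lf 67857008 .no) (.lf 760336 .no))))))))) (.lf 2818 .no) (.lf 2834 .no) .no)
  (.sel 234573 (.nrm 11 (.br 16826 1 (.sel 0 (.lf 102472304 .no) (.sel 1 (.lf 33 .no) (.sel 28008
  (.lf 760432 .no) (.sel 234573 (.lf 52128368 .no) (.sel 361707 (.lf 67857008 .no) (.sel 461561
  (.lf 760432 .no) (.sel 585109 (.lf 760432 .no) (.lf 760336 .no))))))))) (.lf 2818 .no) (.lf 2834
  .no) .no) (.sel 264046 (.nrm 11 (.br 16826 1 (.sel 0 (.lf 102472304 .no) (.sel 1 (.lf 33 .no)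
  (.sel 29814 (.lf 760432 .no) (.sel 227529 (.lf 67857008 .no) (.sel 264046 (.lf 52128368 .no)
  (.sel 585109 (.lf 760432 .no) (.sel 606872 (.lf 760432 .no) (.lf 760336 .no))))))))) (.lf 2818
  .no) (.lf 2834 .no) .no) (.sel 621821 (.nrm 11 (.br 16826 1 (.sel 0 (.lf 102472304 .no) (.sel 1
  (.lf 33 .no) (.sel 585109 (.lf 760432 .no) (.sel 621821 (.lf 52128368 .no) (.sel 638297 (.lf
  760432 .no) (.sel 643638 (.lf 760432 .no) (.sel 971996 (.lf 67857008 .no) (.lf 760336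
  .no))))))))) (.lf 2818 .no) (.lf 2834 .no) .no) (.sel 641413 (.nrm 11 (.br 16826 1 (.sel 0 (.lf
  102472304 .no) (.sel 1 (.lf 33 .no) (.sel 393132 (.lf 67857008 .no) (.sel 458018 (.lf 760432
  .no) (.sel 585109 (.lf 760432 .no) (.sel 641413 (.lf 52128368 .no) (.sel 772475 (.lf 760432 .no)
  (.lf 760336 .no))))))))) (.lf 2818 .no) (.lf 2834 .no) .no) (.sel 0 (.lf 17 .no) (.lf 625264
  .no))))))))) (.lf 930 .no) (.lf 1186 .no) .no) (.sel 234573 (.nrm 10 (.br 16794 234573 (.sel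
  234573 (.nrm 11 (.br 16826 1 (.sel 0 (.nrm 12 (.br 25020 1 (.sel 0 (.lf 49 .no) (.sel 356366
  (.lf 52128880 .no) (.sel 765431 (.lf 142318752 .no) (.lf 159083680 .no))))) (.lf 962 .no) (.br
  16828 1 (.sel 0 (.lf 49 .no) (.sel 1 (.lf 36306656416 .no) (.sel 227529 (.lf 75209888 .no) (.sel
  361707 (.lf 75209888 .no) (.sel 393132 (.lf 75209888 .no) (.sel 585109 (.lf 75209888 .no) (.sel
  971996 (.lf 75209888 .no) (.lf 75205632 .no))))))))) .no) (.sel 1 (.lf 33 .no) (.sel 234573 (.lf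
  52128368 .no) (.sel 358591 (.lf 67857008 .no) (.sel 361707 (.lf 67857008 .no) (.sel 538443 (.lf
  67857008 .no) (.sel 876547 (.lf 52128368 .no) (.lf 760432 .no))))))))) (.lf 2818 .no) (.lf 2834
  .no) .no) (.sel 0 (.lf 17 .no) (.sel 1 (.lf 51997296 .no) (.sel 358591 (.lf 67725936 .no) (.sel
  361707 (.lf 67725936 .no) (.sel 538443 (.lf 67725936 .no) (.sel 876547 (.lf 51989104 .no) (.lf
  608880 .no))))))))) (.lf 930 .no) (.lf 1186 .no) .no) (.sel 264046 (.nrm 10 (.br 16794 264046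
  (.sel 264046 (.nrm 11 (.br 16826 1 (.sel 0 (.nrm 12 (.br 25020 1 (.sel 0 (.lf 49 .no) (.sel
  541986 (.lf 52128880 .no) (.sel 735958 (.lf 142318752 .no) (.lf 159083680 .no))))) (.lf 962 .no)
  (.br 16828 1 (.sel 0 (.lf 49 .no) (.sel 1 (.lf 36306656416 .no) (.sel 227529 (.lf 75209888 .no)
  (.sel 361707 (.lf 75209888 .no) (.sel 393132 (.lf 75209888 .no) (.sel 585109 (.lf 75209888 .no)
  (.sel 971996 (.lf 75209888 .no) (.lf 75205632 .no))))))))) .no) (.sel 1 (.lf 33 .no) (.sel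
  227529 (.lf 67857008 .no) (.sel 264046 (.lf 52128368 .no) (.sel 378183 (.lf 67857008 .no) (.sel
  876547 (.lf 52128368 .no) (.sel 970190 (.lf 67857008 .no) (.lf 760432 .no))))))))) (.lf 2818
  .no) (.lf 2834 .no) .no) (.sel 0 (.lf 17 .no) (.sel 1 (.lf 51997296 .no) (.sel 227529 (.lf
  67725936 .no) (.sel 378183 (.lf 67725936 .no) (.sel 876547 (.lf 51989104 .no) (.sel 970190 (.lf
  67725936 .no) (.lf 608880 .no))))))))) (.lf 930 .no) (.lf 1186 .no) .no) (.sel 621821 (.nrm 10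
  (.br 16794 621821 (.sel 621821 (.nrm 11 (.br 16826 1 (.sel 0 (.nrm 12 (.br 25020 1 (.sel 0 (.lf
  49 .no) (.sel 378183 (.lf 142318752 .no) (.sel 538443 (.lf 52128880 .no) (.lf 159083680 .no)))))
  (.lf 962 .no) (.br 16828 1 (.sel 0 (.lf 49 .no) (.sel 1 (.lf 36306656416 .no) (.sel 227529 (.lf
  75209888 .no) (.sel 361707 (.lf 75209888 .no) (.sel 393132 (.lf 75209888 .no) (.sel 585109 (.lf
  75209888 .no) (.sel 971996 (.lf 75209888 .no) (.lf 75205632 .no))))))))) .no) (.sel 1 (.lf 33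
  .no) (.sel 356366 (.lf 67857008 .no) (.sel 621821 (.lf 52128368 .no) (.sel 735958 (.lf 67857008
  .no) (.sel 876547 (.lf 52128368 .no) (.sel 971996 (.lf 67857008 .no) (.lf 760432 .no)))))))))
  (.lf 2818 .no) (.lf 2834 .no) .no) (.sel 0 (.lf 17 .no) (.sel 1 (.lf 51997296 .no) (.sel 356366
  (.lf 67725936 .no) (.sel 735958 (.lf 67725936 .no) (.sel 876547 (.lf 51989104 .no) (.sel 971996
  (.lf 67725936 .no) (.lf 608880 .no))))))))) (.lf 930 .no) (.lf 1186 .no) .no) (.sel 641413 (.nrm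
  10 (.br 16794 641413 (.sel 641413 (.nrm 11 (.br 16826 1 (.sel 0 (.nrm 12 (.br 25020 1 (.sel 0
  (.lf 49 .no) (.sel 358591 (.lf 142318752 .no) (.sel 970190 (.lf 52128880 .no) (.lf 159083680
  .no))))) (.lf 962 .no) (.br 16828 1 (.sel 0 (.lf 49 .no) (.sel 1 (.lf 36306656416 .no) (.sel
  227529 (.lf 75209888 .no) (.sel 361707 (.lf 75209888 .no) (.sel 393132 (.lf 75209888 .no) (.sel
  585109 (.lf 75209888 .no) (.sel 971996 (.lf 75209888 .no) (.lf 75205632 .no))))))))) .no) (.sel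
  1 (.lf 33 .no) (.sel 393132 (.lf 67857008 .no) (.sel 541986 (.lf 67857008 .no) (.sel 641413 (.lf
  52128368 .no) (.sel 765431 (.lf 67857008 .no) (.sel 876547 (.lf 52128368 .no) (.lf 760432
  .no))))))))) (.lf 2818 .no) (.lf 2834 .no) .no) (.sel 0 (.lf 17 .no) (.sel 1 (.lf 51997296 .no)
  (.sel 393132 (.lf 67725936 .no) (.sel 541986 (.lf 67725936 .no) (.sel 765431 (.lf 67725936 .no)
  (.sel 876547 (.lf 51989104 .no) (.lf 625264 .no))))))))) (.lf 930 .no) (.lf 1186 .no) .no) (.sel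
  1 (.lf 1 .no) (.lf 608016 .no))))))))) (.lf 2306 .no) (.nrm 10 (.br 16794 1 (.sel 1 (.nrm 11
  (.br 16826 1 (.sel 0 (.nrm 12 (.br 25020 1 (.sel 1 (.br 24652 123457 (.sel 1 (.lf 10389862182048
  .no) (.sel 0 (.lf 67857520 .no) (.sel 123457 (.lf 75197600 .no) (.sel 358591 (.lf 67857520 .no)
  (.sel 378183 (.lf 67857520 .no) (.sel 735958 (.lf 67857520 .no) (.sel 765431 (.lf 67857520 .no)
  (.lf 543904 .no))))))))) (.sel 0 (.lf 49 .no) (.sel 123457 (.lf 36290927776 .no) (.sel 358591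
  (.lf 36290927776 .no) (.sel 378183 (.lf 36290927776 .no) (.sel 735958 (.lf 36290927776 .no)
  (.sel 765431 (.lf 36290927776 .no) (.lf 186006640 .no))))))))) (.lf 962 .no) (.br 16828 1 (.sel
  1 (.lf 9290350566560 .no) (.sel 0 (.lf 49 .no) (.sel 227529 (.lf 19111046304 .no) (.sel 361707
  (.lf 19111046304 .no) (.sel 393132 (.lf 19111046304 .no) (.sel 585109 (.lf 19111046304 .no)
  (.sel 971996 (.lf 19111046304 .no) (.lf 75205632 .no))))))))) .no) (.sel 1 (.lf 33 .no) (.sel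
  123457 (.lf 67857008 .no) (.sel 358591 (.lf 67857008 .no) (.sel 378183 (.lf 67857008 .no) (.sel
  735958 (.lf 67857008 .no) (.sel 765431 (.lf 67857008 .no) (.lf 52128368 .no))))))))) (.lf 2818
  .no) (.lf 2834 .no) .no) (.sel 29814 (.nrm 11 (.br 16826 1 (.sel 0 (.lf 26106108528 .no) (.sel 1
  (.lf 33 .no) (.sel 29814 (.lf 67857008 .no) (.sel 227529 (.lf 67857008 .no) (.sel 307687 (.lf
  67857008 .no) (.sel 538443 (.lf 67857008 .no) (.sel 735958 (.lf 67857008 .no) (.lf 760336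
  .no))))))))) (.lf 2818 .no) (.lf 2834 .no) .no) (.sel 307687 (.nrm 11 (.br 16826 1 (.sel 0 (.lf
  26106108528 .no) (.sel 1 (.lf 33 .no) (.sel 29814 (.lf 67857008 .no) (.sel 307687 (.lf 67857008
  .no) (.sel 458018 (.lf 67857008 .no) (.sel 461561 (.lf 67857008 .no) (.sel 643638 (.lf 67857008
  .no) (.lf 760336 .no))))))))) (.lf 2818 .no) (.lf 2834 .no) .no) (.sel 461561 (.nrm 11 (.br
  16826 1 (.sel 0 (.lf 26106108528 .no) (.sel 1 (.lf 33 .no) (.sel 307687 (.lf 67857008 .no) (.sel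
  361707 (.lf 67857008 .no) (.sel 461561 (.lf 67857008 .no) (.sel 765431 (.lf 67857008 .no) (.sel
  970190 (.lf 67857008 .no) (.lf 760336 .no))))))))) (.lf 2818 .no) (.lf 2834 .no) .no) (.sel
  643638 (.nrm 11 (.br 16826 1 (.sel 0 (.lf 26106108528 .no) (.sel 1 (.lf 33 .no) (.sel 307687
  (.lf 67857008 .no) (.sel 378183 (.lf 67857008 .no) (.sel 541986 (.lf 67857008 .no) (.sel 643638
  (.lf 67857008 .no) (.sel 971996 (.lf 67857008 .no) (.lf 760336 .no))))))))) (.lf 2818 .no) (.lf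
  2834 .no) .no) (.sel 458018 (.nrm 11 (.br 16826 1 (.sel 0 (.lf 26106108528 .no) (.sel 1 (.lf 33
  .no) (.sel 307687 (.lf 67857008 .no) (.sel 356366 (.lf 67857008 .no) (.sel 358591 (.lf 67857008
  .no) (.sel 393132 (.lf 67857008 .no) (.sel 458018 (.lf 67857008 .no) (.lf 760336 .no)))))))))
  (.lf 2818 .no) (.lf 2834 .no) .no) (.sel 0 (.lf 17 .no) (.lf 152582768 .no))))))))) (.lf 930
  .no) (.lf 1186 .no) .no) .no)

theorem ct24c_ok : chk 2 4 false ct24c [] = true := by decide +kernel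

theorem exists_ct2 (k : ℕ) (hk : k ≤ 4) (s : Bool) : ∃ t, chk 2 k s t [] = true := by
  interval_cases k <;> cases s
  exacts [⟨_, ct20c_ok⟩, ⟨_, ct20r_ok⟩, ⟨_, ct21c_ok⟩, ⟨_, ct21r_ok⟩, ⟨_, ct22c_ok⟩, ⟨_, ct22r_ok⟩, ⟨_,
    ct23c_ok⟩, ⟨_, ct23r_ok⟩, ⟨_, ct24c_ok⟩, ⟨_, ct24r_ok⟩]

end Pool.Agent.Lib.MP_10bdcf_co.G
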