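import Pool.Agent.Lib.MP_10bdcf_co.TK0

/-!
Certificates for the checker.
-/

namespace Pool.Agent.Lib.MP_10bdcf_co.G

/-- A certificate. -/
def ct30r : Ct :=
  (.lf 1 .no)

theorem ct30r_ok : chk 3 0 true ct30r [] = true := by decide +kernel

/-- A certificate. -/
def ct30c : Ct :=
  (.lf 1 .no)

theorem ct30c_ok : chk 3 0 false ct30c [] = true := by decide +kernel

/-- A certificate. -/
def ct31r : Ct :=
  (.nrm 9 (.br 25145 234573 (.sel 234573 (.br 24905 123457 (.sel 1 (.br 24665 641413 (.sel 0 (.lf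
  84298000 .no) (.sel 1 (.lf 17 .no) (.sel 849672 (.lf 416016 .no) (.lf 346384 .no))))) (.sel 0
  (.lf 68565360 .no) (.sel 358029 (.lf 276768 .no) (.sel 358591 (.lf 68565360 .no) (.sel 591984
  (.lf 276768 .no) (.lf 276848 .no))))))) (.sel 538443 (.br 24905 123457 (.sel 0 (.lf 68565280
  .no) (.sel 1 (.lf 68565360 .no) (.sel 735958 (.lf 276848 .no) (.lf 276768 .no))))) (.sel 361707
  (.br 24905 123457 (.sel 0 (.lf 68565280 .no) (.sel 1 (.lf 68565360 .no) (.sel 127134 (.lf 276768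
  .no) (.lf 276848 .no))))) (.sel 1 (.br 24905 123457 (.sel 1 (.br 24665 641413 (.sel 0 (.lf
  84298000 .no) (.sel 1 (.lf 17 .no) (.sel 849672 (.lf 416016 .no) (.lf 346384 .no))))) (.sel 0
  (.lf 68565280 .no) (.sel 963486 (.lf 411936 .no) (.lf 276768 .no))))) (.sel 876547 (.br 24905
  123457 (.sel 1 (.lf 234515 .no) (.sel 0 (.lf 68565280 .no) (.sel 538334 (.lf 276768 .no) (.lf
  276848 .no))))) (.sel 358591 (.br 24905 123457 (.sel 358591 (.br 24665 641413 (.sel 1 (.lf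
  234755 .no) (.sel 0 (.lf 84298000 .no) (.sel 239071 (.lf 346384 .no) (.lf 346480 .no))))) (.sel
  0 (.lf 68565360 .no) (.sel 1 (.lf 68565360 .no) (.sel 371738 (.lf 411936 .no) (.sel 963486 (.lf
  411936 .no) (.lf 276768 .no))))))) (.sel 0 (.lf 1 .no) (.lf 538992 .no))))))))) (.br 12873
  227529 (.sel 0 (.br 12889 227529 (.sel 0 (.lf 17 .no) (.sel 1 (.lf 68499744 .no) (.sel 29814
  (.lf 84293920 .no) (.sel 227529 (.lf 84425072 .no) (.sel 264046 (.lf 84293920 .no) (.sel 585109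
  (.lf 84293920 .no) (.sel 606872 (.lf 68499744 .no) (.lf 342384 .no))))))))) (.sel 1 (.lf 234515
  .no) (.sel 264046 (.br 16729 277873 (.sel 0 (.lf 257854168411145107 .no) (.sel 264046 (.lf
  84293920 .no) (.sel 505402 (.lf 346400 .no) (.lf 342304 .no))))) (.sel 29814 (.lf 68565280 .no)
  (.sel 227529 (.lf 68696432 .no) (.sel 585109 (.lf 68565280 .no) (.sel 606872 (.lf 68565280 .no)
  (.lf 276848 .no))))))))) (.br 16953 234573 (.sel 361707 (.br 16729 307687 (.sel 0 (.lf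
  257854168411145107 .no) (.sel 1 (.lf 84293920 .no) (.sel 892796 (.lf 346400 .no) (.lf 342304
  .no))))) (.sel 1 (.lf 234515 .no) (.sel 0 (.lf 1 .no) (.sel 234573 (.lf 68696432 .no) (.sel
  358591 (.lf 68565280 .no) (.sel 538443 (.lf 68565280 .no) (.sel 876547 (.lf 68565280 .no) (.lf
  276848 .no))))))))) (.br 21049 234573 (.sel 538443 (.br 20809 123457 (.sel 0 (.lf 68499744 .no)
  (.sel 1 (.lf 68565280 .no) (.sel 735958 (.lf 276848 .no) (.lf 276768 .no))))) (.sel 1 (.lf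
  234755 .no) (.sel 0 (.lf 1 .no) (.sel 234573 (.lf 84425072 .no) (.sel 358591 (.lf 84293920 .no)
  (.sel 361707 (.lf 84293920 .no) (.sel 876547 (.lf 84293920 .no) (.lf 342384 .no))))))))))

theorem ct31r_ok : chk 3 1 true ct31r [] = true := by decide +kernel

/-- A certificate. -/
def ct31c : Ct :=
  (.nrm 9 (.br 14226 234573 (.sel 0 (.br 22416 641413 (.sel 0 (.br 18321 123457 (.sel 0 (.lf 17
  .no) (.sel 1 (.lf 68761376 .no) (.sel 123457 (.lf 85538592 .no) (.sel 358591 (.lf 68773664 .no)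
  (.sel 378183 (.lf 84502288 .no) (.sel 735958 (.lf 84502288 .no) (.sel 765431 (.lf 84502288 .no)
  (.lf 612112 .no))))))))) (.sel 1 (.lf 84490016 .no) (.sel 393132 (.lf 84490016 .no) (.sel 541986
  (.lf 84490016 .no) (.sel 641413 (.lf 101267232 .no) (.sel 765431 (.lf 84490016 .no) (.sel 876547
  (.lf 84502304 .no) (.lf 624384 .no))))))))) (.sel 234573 (.br 21136 720278 (.sel 0 (.br 17041
  591984 (.sel 0 (.lf 17 .no) (.sel 123457 (.lf 610832 .no) (.sel 234573 (.lf 608016 .no) (.lf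
  612112 .no))))) (.sel 234573 (.lf 612096 .no) (.sel 641413 (.lf 614912 .no) (.lf 624384 .no)))))
  (.sel 538443 (.br 21136 303870 (.sel 0 (.lf 84502304 .no) (.sel 538443 (.lf 612096 .no) (.sel
  641413 (.lf 614912 .no) (.sel 692317 (.lf 612096 .no) (.sel 765431 (.lf 614912 .no) (.lf 624384
  .no))))))) (.sel 361707 (.br 21136 875985 (.sel 0 (.lf 84502304 .no) (.sel 234573 (.lf 612096
  .no) (.sel 361707 (.lf 612096 .no) (.sel 393132 (.lf 614912 .no) (.sel 641413 (.lf 614912 .no)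
  (.lf 624384 .no))))))) (.sel 876547 (.br 21136 954233 (.sel 876547 (.br 20625 621821 (.sel 0
  (.lf 84492816 .no) (.sel 876547 (.lf 608016 .no) (.sel 924896 (.lf 614656 .no) (.lf 606736
  .no))))) (.sel 0 (.lf 84502304 .no) (.sel 641413 (.lf 101267232 .no) (.lf 624384 .no))))) (.sel
  358591 (.br 21136 239071 (.sel 0 (.lf 599299 .no) (.sel 358591 (.lf 612096 .no) (.sel 641413
  (.lf 614912 .no) (.lf 624384 .no))))) (.sel 1 (.lf 1 .no) (.lf 608032 .no))))))))) (.br 20626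
  971996 (.sel 638297 (.br 20625 971996 (.sel 0 (.lf 84492816 .no) (.sel 350175 (.lf 614656 .no)
  (.sel 638297 (.lf 84494096 .no) (.lf 606736 .no))))) (.sel 1 (.lf 599299 .no) (.sel 0 (.lf 1
  .no) (.sel 585109 (.lf 84490016 .no) (.sel 621821 (.lf 84490016 .no) (.sel 643638 (.lf 84490016
  .no) (.sel 971996 (.lf 134821664 .no) (.lf 614912 .no))))))))) (.br 16786 307687 (.sel 461561
  (.br 20880 641413 (.sel 0 (.lf 658674535247120659 .no) (.sel 1 (.lf 610816 .no) (.sel 337543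
  (.lf 614656 .no) (.sel 765431 (.lf 610816 .no) (.sel 849672 (.lf 614656 .no) (.lf 623104
  .no))))))) (.sel 1 (.lf 599059 .no) (.sel 0 (.lf 1 .no) (.sel 29814 (.lf 68761376 .no) (.sel
  307687 (.lf 85538592 .no) (.sel 458018 (.lf 68761376 .no) (.sel 643638 (.lf 68761376 .no) (.lf
  610832 .no))))))))) (.br 21136 641413 (.sel 0 (.br 17041 123457 (.sel 1 (.lf 599059 .no) (.sel
  378183 (.lf 658674535247120659 .no) (.sel 0 (.lf 17 .no) (.sel 123457 (.lf 85538592 .no) (.sel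
  358591 (.lf 68761376 .no) (.sel 735958 (.lf 68761376 .no) (.sel 765431 (.lf 68761376 .no) (.lf
  614928 .no))))))))) (.sel 541986 (.br 20625 643638 (.sel 0 (.lf 84492816 .no) (.sel 1 (.lf
  84494096 .no) (.sel 378183 (.lf 614656 .no) (.lf 606736 .no))))) (.sel 1 (.lf 599299 .no) (.sel
  393132 (.lf 84490016 .no) (.sel 641413 (.lf 134821664 .no) (.sel 765431 (.lf 84490016 .no) (.sel
  876547 (.lf 84490016 .no) (.lf 614912 .no))))))))))

theorem ct31c_ok : chk 3 1 false ct31c [] = true := by decide +kernel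

/-- A certificate. -/
def ct32r : Ct :=
  (.nrm 9 (.br 16953 234573 (.sel 234573 (.nrm 10 (.br 21152 641413 (.sel 0 (.br 17057 123457
  (.sel 123457 (.br 16809 1 (.sel 0 (.lf 85604720 .no) (.sel 1 (.lf 17 .no) (.sel 123457 (.lf
  670064 .no) (.sel 358591 (.lf 85604720 .no) (.sel 378183 (.lf 670064 .no) (.sel 735958 (.lf
  670064 .no) (.sel 765431 (.lf 670064 .no) (.lf 678160 .no))))))))) (.sel 1 (.br 16809 307687
  (.sel 0 (.lf 68827504 .no) (.sel 1 (.lf 17 .no) (.sel 846129 (.lf 678160 .no) (.lf 670064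
  .no))))) (.sel 0 (.lf 33 .no) (.sel 358591 (.lf 102381344 .no) (.sel 378183 (.lf 84567824 .no)
  (.sel 735958 (.lf 84567824 .no) (.sel 765431 (.lf 84567824 .no) (.lf 680464 .no))))))))) (.sel
  641413 (.br 20649 1 (.sel 0 (.lf 101333360 .no) (.sel 1 (.lf 17 .no) (.sel 234573 (.lf 682240
  .no) (.sel 358591 (.lf 682240 .no) (.sel 361707 (.lf 682240 .no) (.sel 538443 (.lf 682240 .no)
  (.sel 876547 (.lf 101333360 .no) (.lf 670064 .no))))))))) (.sel 1 (.br 20649 971996 (.sel 0 (.lf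
  84556144 .no) (.sel 1 (.lf 17 .no) (.sel 333699 (.lf 682240 .no) (.lf 670064 .no))))) (.sel
  765431 (.lf 207363 .no) (.sel 393132 (.lf 101332768 .no) (.sel 541986 (.lf 101332768 .no) (.sel
  876547 (.lf 101332768 .no) (.lf 689920 .no))))))))) (.br 20649 971996 (.sel 638297 (.br 20641
  971996 (.sel 0 (.lf 84560144 .no) (.sel 350175 (.lf 680192 .no) (.sel 638297 (.lf 84558352 .no)
  (.lf 674064 .no))))) (.sel 1 (.lf 257854168411837699 .no) (.sel 0 (.lf 17 .no) (.sel 585109 (.lf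
  84556144 .no) (.sel 621821 (.lf 84556144 .no) (.sel 643638 (.lf 84556144 .no) (.sel 971996 (.lf
  134887792 .no) (.lf 682240 .no))))))))) (.br 16809 307687 (.sel 461561 (.br 20896 641413 (.sel 0
  (.lf 762257326676642323 .no) (.sel 1 (.lf 678144 .no) (.sel 337543 (.lf 680192 .no) (.sel 765431
  (.lf 678144 .no) (.sel 849672 (.lf 680192 .no) (.lf 682240 .no))))))) (.sel 1 (.lf
  257854168411837459 .no) (.sel 0 (.lf 17 .no) (.sel 29814 (.lf 68827504 .no) (.sel 307687 (.lf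
  85604720 .no) (.sel 458018 (.lf 68827504 .no) (.sel 643638 (.lf 68827504 .no) (.lf 678160
  .no))))))))) (.lf 2594 .no)) (.sel 1 (.nrm 10 (.br 12969 227529 (.sel 227529 (.br 21152 641413
  (.sel 0 (.lf 84568432 .no) (.sel 1 (.lf 678144 .no) (.sel 620660 (.lf 680448 .no) (.lf 682240
  .no))))) (.sel 0 (.lf 53111152 .no) (.sel 1 (.lf 17 .no) (.sel 29814 (.lf 53111152 .no) (.sel
  264046 (.lf 53111152 .no) (.sel 585109 (.lf 53111152 .no) (.sel 606872 (.lf 53111152 .no) (.lf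
  674160 .no))))))))) (.br 20649 971996 (.sel 0 (.lf 17 .no) (.sel 1 (.lf 84556064 .no) (.sel
  585109 (.lf 101333280 .no) (.sel 621821 (.lf 84556064 .no) (.sel 638297 (.lf 84556064 .no) (.sel
  643638 (.lf 84556064 .no) (.sel 971996 (.lf 101333280 .no) (.lf 682240 .no))))))))) (.br 16809
  307687 (.sel 0 (.lf 17 .no) (.sel 1 (.lf 68827424 .no) (.sel 29814 (.lf 85604640 .no) (.sel
  307687 (.lf 85604640 .no) (.sel 458018 (.lf 68827424 .no) (.sel 461561 (.lf 68827424 .no) (.sel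
  643638 (.lf 68827424 .no) (.lf 678160 .no))))))))) (.lf 2594 .no)) (.sel 0 (.lf 1 .no) (.sel
  358591 (.lf 68565360 .no) (.sel 361707 (.lf 84294000 .no) (.sel 538443 (.lf 84294000 .no) (.sel
  876547 (.lf 84294000 .no) (.lf 538992 .no))))))))) (.nrm 10 (.br 21152 641413 (.sel 0 (.br 17057
  123457 (.sel 123457 (.br 12969 227529 (.sel 1 (.lf 228017820880050707 .no) (.sel 264046 (.lf
  259543018271409043 .no) (.sel 0 (.lf 17 .no) (.sel 29814 (.lf 85604640 .no) (.sel 227529 (.lf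
  85604720 .no) (.sel 585109 (.lf 85604640 .no) (.sel 606872 (.lf 85604640 .no) (.lf 670064
  .no))))))))) (.sel 1 (.br 12969 227529 (.sel 0 (.lf 17 .no) (.sel 1 (.lf 68827424 .no) (.sel
  29814 (.lf 68827504 .no) (.sel 227529 (.lf 68827504 .no) (.sel 264046 (.lf 68827424 .no) (.sel
  585109 (.lf 68827424 .no) (.sel 606872 (.lf 68827424 .no) (.lf 670064 .no))))))))) (.sel 0 (.lf
  33 .no) (.sel 358591 (.lf 102381344 .no) (.sel 378183 (.lf 84567824 .no) (.sel 735958 (.lf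
  84567824 .no) (.sel 765431 (.lf 84567824 .no) (.lf 680464 .no))))))))) (.sel 641413 (.br 20641 1
  (.sel 1 (.br 12969 227529 (.sel 0 (.lf 17 .no) (.sel 1 (.lf 68827424 .no) (.sel 29814 (.lf
  101333280 .no) (.sel 227529 (.lf 134887792 .no) (.sel 264046 (.lf 101333280 .no) (.sel 585109
  (.lf 101333280 .no) (.sel 606872 (.lf 68827424 .no) (.lf 670064 .no))))))))) (.sel 0 (.lf
  101335568 .no) (.sel 123457 (.lf 680192 .no) (.sel 358591 (.lf 680192 .no) (.sel 378183 (.lf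
  680192 .no) (.sel 735958 (.lf 680192 .no) (.sel 765431 (.lf 101335568 .no) (.lf 673552
  .no))))))))) (.sel 1 (.br 12969 227529 (.sel 0 (.lf 17 .no) (.sel 1 (.lf 84556064 .no) (.sel
  29814 (.lf 84556064 .no) (.sel 227529 (.lf 84556144 .no) (.sel 264046 (.lf 84556064 .no) (.sel
  585109 (.lf 84556144 .no) (.sel 606872 (.lf 84556064 .no) (.lf 670064 .no))))))))) (.sel 765431
  (.lf 207363 .no) (.sel 393132 (.lf 101332768 .no) (.sel 541986 (.lf 101332768 .no) (.sel 876547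
  (.lf 101332768 .no) (.lf 689920 .no))))))))) (.br 5255849 385587 (.sel 0 (.lf 17 .no) (.sel
  28007 (.lf 101333280 .no) (.sel 772474 (.lf 84556144 .no) (.lf 60458752 .no))))) (.br 4272809
  494601 (.sel 0 (.lf 17 .no) (.sel 692316 (.lf 85604640 .no) (.sel 772474 (.lf 68827504 .no) (.lf
  58362128 .no))))) (.lf 2594 .no)) (.lf 1170 .no) (.lf 1426 .no))

theorem ct32r_ok : chk 3 2 true ct32r [] = true := by decide +kernel

/-- A certificate. -/
def ct32c : Ct :=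
  (.nrm 9 (.br 14226 234573 (.sel 0 (.nrm 10 (.br 34714 1 (.sel 356366 (.br 24906 123457 (.sel 0
  (.lf 68774512 .no) (.sel 1 (.lf 68774512 .no) (.sel 745277 (.lf 412192 .no) (.lf 608880 .no)))))
  (.sel 0 (.lf 17 .no) (.sel 765431 (.lf 53054064 .no) (.lf 158743072 .no))))) (.lf 930 .no) (.br
  18330 1 (.sel 0 (.lf 17 .no) (.sel 1 (.lf 13490555504 .no) (.sel 28008 (.lf 68782704 .no) (.sel
  356366 (.lf 68782704 .no) (.sel 458018 (.lf 68782704 .no) (.sel 621821 (.lf 68782704 .no) (.sel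
  692317 (.lf 68782704 .no) (.lf 53037680 .no))))))))) (.br 22426 1 (.sel 0 (.lf 17 .no) (.sel 1
  (.lf 13506284144 .no) (.sel 29814 (.lf 53041776 .no) (.sel 227529 (.lf 53041776 .no) (.sel
  307687 (.lf 53041776 .no) (.sel 538443 (.lf 53041776 .no) (.sel 735958 (.lf 53041776 .no) (.lf
  84511344 .no)))))))))) (.sel 234573 (.nrm 10 (.br 24906 123457 (.sel 0 (.br 25242 234573 (.sel 0
  (.lf 17 .no) (.sel 1 (.lf 68774432 .no) (.sel 234573 (.lf 68774512 .no) (.sel 358591 (.lf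
  68774512 .no) (.sel 361707 (.lf 68774432 .no) (.sel 538443 (.lf 68774432 .no) (.sel 876547 (.lf
  68774432 .no) (.lf 625264 .no))))))))) (.sel 123457 (.br 17050 591984 (.sel 0 (.lf 17 .no) (.sel
  123457 (.lf 616992 .no) (.sel 234573 (.lf 608880 .no) (.lf 625264 .no))))) (.sel 1 (.br 24666
  641413 (.sel 0 (.lf 84298256 .no) (.sel 1 (.lf 33 .no) (.sel 849672 (.lf 416272 .no) (.lf 346640
  .no))))) (.sel 765431 (.lf 303907 .no) (.sel 358591 (.lf 52841072 .no) (.sel 378183 (.lf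
  52841072 .no) (.sel 735958 (.lf 52841072 .no) (.lf 543344 .no))))))))) (.lf 930 .no) (.br 17050
  234573 (.sel 361707 (.br 16730 307687 (.sel 0 (.lf 694703332266083491 .no) (.sel 1 (.lf 84503072
  .no) (.sel 892796 (.lf 346656 .no) (.lf 612896 .no))))) (.sel 1 (.lf 658674535247750163 .no)
  (.sel 0 (.lf 17 .no) (.sel 234573 (.lf 68782704 .no) (.sel 358591 (.lf 68774432 .no) (.sel
  538443 (.lf 68774432 .no) (.sel 876547 (.lf 68774432 .no) (.lf 608880 .no))))))))) (.br 21146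
  234573 (.sel 538443 (.br 20810 123457 (.sel 0 (.lf 68770336 .no) (.sel 1 (.lf 68774432 .no)
  (.sel 735958 (.lf 608880 .no) (.lf 608800 .no))))) (.sel 1 (.lf 658674535247750403 .no) (.sel 0
  (.lf 17 .no) (.sel 234573 (.lf 84511344 .no) (.sel 358591 (.lf 84503072 .no) (.sel 361707 (.lf
  84503072 .no) (.sel 876547 (.lf 84503072 .no) (.lf 612976 .no)))))))))) (.sel 1 (.lf 1 .no)
  (.sel 358591 (.lf 68773664 .no) (.sel 361707 (.lf 84502304 .no) (.sel 538443 (.lf 84502304 .no)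
  (.sel 876547 (.lf 84502304 .no) (.lf 608032 .no))))))))) (.lf 2306 .no) (.lf 2322 .no) (.nrm 10
  (.br 24906 123457 (.sel 0 (.br 25242 1 (.sel 0 (.lf 17 .no) (.sel 1 (.lf 13490555504 .no) (.sel
  28008 (.lf 53054064 .no) (.sel 414895 (.lf 53054064 .no) (.sel 606872 (.lf 53054064 .no) (.sel
  638297 (.lf 53054064 .no) (.sel 772475 (.lf 53054064 .no) (.lf 102320672 .no))))))))) (.sel
  123457 (.br 24666 641413 (.sel 1 (.br 17050 123457 (.sel 1 (.lf 334151479286407971 .no) (.sel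
  378183 (.lf 694439449475418403 .no) (.sel 0 (.lf 17 .no) (.sel 123457 (.lf 53041776 .no) (.sel
  358591 (.lf 53037680 .no) (.sel 735958 (.lf 53037680 .no) (.sel 765431 (.lf 53037680 .no) (.lf
  612896 .no))))))))) (.sel 0 (.lf 84298272 .no) (.sel 687183 (.lf 346640 .no) (.sel 764869 (.lf
  346640 .no) (.sel 765431 (.lf 84298272 .no) (.lf 346656 .no))))))) (.sel 1 (.br 24666 641413
  (.sel 0 (.lf 84298256 .no) (.sel 1 (.lf 33 .no) (.sel 849672 (.lf 416272 .no) (.lf 346640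
  .no))))) (.sel 765431 (.lf 303907 .no) (.sel 358591 (.lf 52841072 .no) (.sel 378183 (.lf
  52841072 .no) (.sel 735958 (.lf 52841072 .no) (.lf 543344 .no))))))))) (.lf 930 .no) (.br 17050
  1 (.sel 0 (.lf 17 .no) (.sel 1 (.lf 13490547312 .no) (.sel 227529 (.lf 53037680 .no) (.sel
  361707 (.lf 53037680 .no) (.sel 393132 (.lf 53037680 .no) (.sel 585109 (.lf 53037680 .no) (.sel
  971996 (.lf 13490547312 .no) (.lf 102320672 .no))))))))) (.br 21146 1 (.sel 0 (.lf 17 .no) (.sel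
  1 (.lf 13506275952 .no) (.sel 29814 (.lf 53041776 .no) (.sel 227529 (.lf 53041776 .no) (.sel
  307687 (.lf 13506275952 .no) (.sel 538443 (.lf 53041776 .no) (.sel 735958 (.lf 53041776 .no)
  (.lf 162025984 .no)))))))))))

theorem ct32c_ok : chk 3 2 false ct32c [] = true := by decide +kernel

/-- A certificate. -/
def ct33r : Ct :=
  (.nrm 9 (.br 16953 234573 (.sel 234573 (.nrm 10 (.br 12969 1 (.sel 0 (.nrm 11 (.br 25259 1 (.sel
  0 (.lf 33 .no) (.sel 356366 (.lf 53111664 .no) (.sel 765431 (.lf 58362768 .no) (.lf 175520656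
  .no))))) (.lf 946 .no) (.br 17067 1 (.sel 0 (.lf 33 .no) (.sel 1 (.lf 14832798608 .no) (.sel
  227529 (.lf 58346384 .no) (.sel 361707 (.lf 58346384 .no) (.sel 393132 (.lf 58346384 .no) (.sel
  585109 (.lf 58346384 .no) (.sel 971996 (.lf 58346384 .no) (.lf 135940896 .no))))))))) (.br 21163
  1 (.sel 0 (.lf 33 .no) (.sel 1 (.lf 14848527248 .no) (.sel 28008 (.lf 84568864 .no) (.sel 356366
  (.lf 84568864 .no) (.sel 458018 (.lf 84568864 .no) (.sel 621821 (.lf 84568864 .no) (.sel 692317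
  (.lf 84568864 .no) (.lf 175455120 .no)))))))))) (.sel 234573 (.nrm 11 (.br 25259 1 (.sel 1 (.br
  24907 123457 (.sel 1 (.br 24667 641413 (.sel 0 (.lf 84298512 .no) (.sel 1 (.lf 49 .no) (.sel
  620660 (.lf 346896 .no) (.lf 678800 .no))))) (.sel 0 (.lf 68840304 .no) (.sel 963486 (.lf 412448
  .no) (.lf 674704 .no))))) (.sel 0 (.lf 33 .no) (.sel 234573 (.lf 53111664 .no) (.sel 358591 (.lf
  53111664 .no) (.sel 361707 (.lf 53111664 .no) (.sel 538443 (.lf 53111664 .no) (.sel 876547 (.lf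
  53111664 .no) (.lf 691088 .no))))))))) (.lf 946 .no) (.br 17067 1 (.sel 1 (.lf
  762257326677341203 .no) (.sel 0 (.lf 33 .no) (.sel 234573 (.lf 68840224 .no) (.sel 358591 (.lf
  68840224 .no) (.sel 361707 (.lf 13490613104 .no) (.sel 538443 (.lf 68840224 .no) (.sel 876547
  (.lf 68840224 .no) (.lf 674704 .no))))))))) (.br 21163 1 (.sel 1 (.lf 762257326677341443 .no)
  (.sel 0 (.lf 33 .no) (.sel 234573 (.lf 84568864 .no) (.sel 358591 (.lf 84568864 .no) (.sel
  361707 (.lf 84568864 .no) (.sel 538443 (.lf 13506341744 .no) (.sel 876547 (.lf 84568864 .no)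
  (.lf 678800 .no)))))))))) (.sel 1 (.lf 17 .no) (.sel 358591 (.lf 68839792 .no) (.sel 361707 (.lf
  84568432 .no) (.sel 538443 (.lf 84568432 .no) (.sel 876547 (.lf 84568432 .no) (.lf 670064
  .no))))))))) (.lf 2562 .no) (.lf 2578 .no) (.lf 2594 .no)) (.sel 1 (.nrm 10 (.br 12969 227529
  (.sel 0 (.lf 53111152 .no) (.sel 1 (.lf 17 .no) (.sel 29814 (.lf 84568432 .no) (.sel 227529 (.lf
  84568432 .no) (.sel 264046 (.lf 84568432 .no) (.sel 585109 (.lf 84568432 .no) (.sel 606872 (.lf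
  68839792 .no) (.lf 674160 .no))))))))) (.lf 2562 .no) (.lf 2578 .no) (.lf 2594 .no)) (.sel 0
  (.lf 1 .no) (.sel 358591 (.lf 68565360 .no) (.sel 361707 (.lf 84294000 .no) (.sel 538443 (.lf
  84294000 .no) (.sel 876547 (.lf 84294000 .no) (.lf 538992 .no))))))))) (.nrm 10 (.br 12969
  227529 (.sel 227529 (.nrm 11 (.br 25259 1 (.sel 1 (.br 24907 123457 (.sel 0 (.lf 68840304 .no)
  (.sel 1 (.lf 14832790416 .no) (.sel 123457 (.lf 58346384 .no) (.sel 358591 (.lf 68840304 .no)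
  (.sel 378183 (.lf 68840304 .no) (.sel 735958 (.lf 68840304 .no) (.sel 765431 (.lf 68840304 .no)
  (.lf 674592 .no))))))))) (.sel 0 (.lf 33 .no) (.sel 393132 (.lf 53111664 .no) (.sel 414895 (.lf
  53111664 .no) (.sel 735958 (.lf 53111664 .no) (.sel 772475 (.lf 53111664 .no) (.sel 970190 (.lf
  53111664 .no) (.lf 60459888 .no))))))))) (.lf 946 .no) (.br 17067 1 (.sel 0 (.lf 33 .no) (.sel 1
  (.lf 14832798608 .no) (.sel 227529 (.lf 58346384 .no) (.sel 361707 (.lf 58346384 .no) (.sel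
  393132 (.lf 14832798608 .no) (.sel 585109 (.lf 58346384 .no) (.sel 971996 (.lf 58346384 .no)
  (.lf 135940896 .no))))))))) (.br 21163 1 (.sel 0 (.lf 33 .no) (.sel 1 (.lf 14848527248 .no)
  (.sel 393132 (.lf 84568864 .no) (.sel 414895 (.lf 84568864 .no) (.sel 735958 (.lf 14848527248
  .no) (.sel 772475 (.lf 84568864 .no) (.sel 970190 (.lf 84568864 .no) (.lf 175455120
  .no)))))))))) (.sel 1 (.nrm 11 (.br 24907 123457 (.sel 0 (.br 25259 1 (.sel 0 (.lf 33 .no) (.sel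
  414895 (.lf 53111664 .no) (.sel 876547 (.lf 68840224 .no) (.lf 68840304 .no))))) (.sel 123457
  (.br 24667 641413 (.sel 1 (.br 17067 123457 (.sel 123457 (.lf 771000643141407523 .no) (.sel 0
  (.lf 33 .no) (.sel 1 (.lf 53103504 .no) (.sel 358591 (.lf 53111664 .no) (.sel 378183 (.lf
  84568944 .no) (.sel 735958 (.lf 84568944 .no) (.sel 765431 (.lf 84568944 .no) (.lf 690976
  .no))))))))) (.sel 0 (.lf 84298528 .no) (.sel 687183 (.lf 346896 .no) (.sel 764869 (.lf 346896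
  .no) (.sel 765431 (.lf 84298528 .no) (.lf 346912 .no))))))) (.sel 1 (.br 24667 641413 (.sel 0
  (.lf 84298512 .no) (.sel 1 (.lf 49 .no) (.sel 849672 (.lf 416528 .no) (.lf 346896 .no))))) (.sel
  765431 (.lf 308003 .no) (.sel 358591 (.lf 52841328 .no) (.sel 378183 (.lf 52841328 .no) (.sel
  735958 (.lf 52841328 .no) (.lf 543520 .no))))))))) (.lf 946 .no) (.br 17067 1 (.sel 0 (.lf 33
  .no) (.sel 1 (.lf 13490613136 .no) (.sel 227529 (.lf 53103504 .no) (.sel 361707 (.lf 53103504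
  .no) (.sel 393132 (.lf 53103504 .no) (.sel 585109 (.lf 53103504 .no) (.sel 971996 (.lf 53103504
  .no) (.lf 135940896 .no))))))))) (.br 21163 1 (.sel 0 (.lf 33 .no) (.sel 1 (.lf 13506341776 .no)
  (.sel 29814 (.lf 53107600 .no) (.sel 227529 (.lf 53107600 .no) (.sel 307687 (.lf 53107600 .no)
  (.sel 538443 (.lf 53107600 .no) (.sel 735958 (.lf 53107600 .no) (.lf 96110336 .no))))))))))
  (.sel 0 (.lf 17 .no) (.sel 29814 (.lf 13506341232 .no) (.sel 264046 (.lf 13490612592 .no) (.sel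
  585109 (.lf 13506341232 .no) (.sel 606872 (.lf 13506341232 .no) (.lf 670064 .no))))))))) (.lf
  2562 .no) (.lf 2578 .no) (.lf 2594 .no)) (.lf 1170 .no) (.lf 1426 .no))

theorem ct33r_ok : chk 3 3 true ct33r [] = true := by decide +kernel

/-- A certificate. -/
def ct33c : Ct :=
  (.nrm 9 (.br 14226 234573 (.sel 0 (.nrm 10 (.br 18330 1 (.sel 0 (.lf 17 .no) (.sel 356366 (.lf
  84503152 .no) (.sel 765431 (.lf 84503152 .no) (.lf 158743072 .no))))) (.lf 930 .no) (.lf 1186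
  .no) (.lf 1442 .no)) (.sel 234573 (.nrm 10 (.br 17050 234573 (.sel 234573 (.nrm 11 (.br 17082 1
  (.sel 0 (.br 21168 641413 (.sel 0 (.br 17073 123457 (.sel 0 (.lf 49 .no) (.sel 1 (.lf 68905584
  .no) (.sel 123457 (.lf 85695088 .no) (.sel 358591 (.lf 68905584 .no) (.sel 378183 (.lf 84633360
  .no) (.sel 735958 (.lf 84633360 .no) (.sel 765431 (.lf 84633360 .no) (.lf 754192 .no)))))))))
  (.sel 1 (.lf 84634224 .no) (.sel 393132 (.lf 84634224 .no) (.sel 541986 (.lf 84634224 .no) (.sel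
  641413 (.lf 101403248 .no) (.sel 765431 (.lf 84634224 .no) (.sel 876547 (.lf 84634224 .no) (.lf
  745984 .no))))))))) (.sel 1 (.lf 33 .no) (.sel 234573 (.lf 53176944 .no) (.sel 358591 (.lf
  53176944 .no) (.sel 361707 (.lf 53176944 .no) (.sel 538443 (.lf 53176944 .no) (.sel 876547 (.lf
  53176944 .no) (.lf 760432 .no))))))))) (.br 20666 971996 (.sel 1 (.lf 694703332266845443 .no)
  (.sel 0 (.lf 33 .no) (.sel 585109 (.lf 84646512 .no) (.sel 621821 (.lf 84646512 .no) (.sel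
  638297 (.lf 13506407024 .no) (.sel 643638 (.lf 84646512 .no) (.sel 971996 (.lf 134978160 .no)
  (.lf 748032 .no))))))))) (.br 16826 307687 (.sel 1 (.lf 694703332266845203 .no) (.sel 0 (.lf 33
  .no) (.sel 29814 (.lf 68917872 .no) (.sel 307687 (.lf 85695088 .no) (.sel 458018 (.lf 68917872
  .no) (.sel 461561 (.lf 13490678384 .no) (.sel 643638 (.lf 68917872 .no) (.lf 743952 .no)))))))))
  (.lf 2850 .no)) (.sel 1 (.nrm 11 (.br 17082 1 (.sel 0 (.lf 103520880 .no) (.sel 1 (.lf 33 .no)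
  (.sel 29814 (.lf 53176944 .no) (.sel 227529 (.lf 53176944 .no) (.sel 264046 (.lf 53176944 .no)
  (.sel 585109 (.lf 53176944 .no) (.sel 606872 (.lf 53176944 .no) (.lf 760352 .no))))))))) (.br
  20666 971996 (.sel 0 (.lf 33 .no) (.sel 1 (.lf 84646432 .no) (.sel 585109 (.lf 101423648 .no)
  (.sel 621821 (.lf 84646432 .no) (.sel 638297 (.lf 84646432 .no) (.sel 643638 (.lf 84646432 .no)
  (.sel 971996 (.lf 101423648 .no) (.lf 748032 .no))))))))) (.br 16826 307687 (.sel 0 (.lf 33 .no)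
  (.sel 1 (.lf 68917792 .no) (.sel 29814 (.lf 85695008 .no) (.sel 307687 (.lf 85695008 .no) (.sel
  458018 (.lf 68917792 .no) (.sel 461561 (.lf 68917792 .no) (.sel 643638 (.lf 68917792 .no) (.lf
  743952 .no))))))))) (.lf 2850 .no)) (.sel 0 (.lf 17 .no) (.sel 358591 (.lf 68774512 .no) (.sel
  361707 (.lf 84503152 .no) (.sel 538443 (.lf 84503152 .no) (.sel 876547 (.lf 84503152 .no) (.lf
  612976 .no))))))))) (.lf 930 .no) (.lf 1186 .no) (.lf 1442 .no)) (.sel 1 (.lf 1 .no) (.sel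
  358591 (.lf 68773664 .no) (.sel 361707 (.lf 84502304 .no) (.sel 538443 (.lf 84502304 .no) (.sel
  876547 (.lf 84502304 .no) (.lf 608032 .no))))))))) (.lf 2306 .no) (.lf 2322 .no) (.nrm 10 (.br
  17050 1 (.sel 1 (.nrm 11 (.br 21168 641413 (.sel 0 (.br 17073 123457 (.sel 123457 (.br 16826 1
  (.sel 123457 (.lf 838554637551903523 .no) (.sel 0 (.lf 13507467888 .no) (.sel 1 (.lf 33 .no)
  (.sel 358591 (.lf 53176944 .no) (.sel 378183 (.lf 84634224 .no) (.sel 735958 (.lf 84634224 .no)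
  (.sel 765431 (.lf 84634224 .no) (.lf 743952 .no))))))))) (.sel 1 (.br 16826 307687 (.sel 0 (.lf
  68905584 .no) (.sel 1 (.lf 33 .no) (.sel 29814 (.lf 84634224 .no) (.sel 307687 (.lf 84634224
  .no) (.sel 458018 (.lf 68905584 .no) (.sel 461561 (.lf 84634224 .no) (.sel 643638 (.lf 84634224
  .no) (.lf 743952 .no))))))))) (.sel 0 (.lf 49 .no) (.sel 358591 (.lf 102446880 .no) (.sel 378183
  (.lf 84633360 .no) (.sel 735958 (.lf 84633360 .no) (.sel 765431 (.lf 84633360 .no) (.lf 754192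
  .no))))))))) (.sel 641413 (.br 20657 1 (.sel 1 (.br 20666 1 (.sel 0 (.lf 101403152 .no) (.sel 1
  (.lf 33 .no) (.sel 29814 (.lf 748032 .no) (.sel 307687 (.lf 748032 .no) (.sel 458018 (.lf 748032
  .no) (.sel 461561 (.lf 748032 .no) (.sel 643638 (.lf 748032 .no) (.lf 739856 .no))))))))) (.sel
  0 (.lf 101401104 .no) (.sel 123457 (.lf 745728 .no) (.sel 358591 (.lf 745728 .no) (.sel 378183
  (.lf 745728 .no) (.sel 735958 (.lf 745728 .no) (.sel 765431 (.lf 101401104 .no) (.lf 737808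
  .no))))))))) (.sel 1 (.br 20666 971996 (.sel 0 (.lf 84634224 .no) (.sel 1 (.lf 33 .no) (.sel
  585109 (.lf 84634224 .no) (.sel 621821 (.lf 84634224 .no) (.sel 638297 (.lf 84634224 .no) (.sel
  643638 (.lf 84634224 .no) (.sel 971996 (.lf 101403248 .no) (.lf 743968 .no))))))))) (.sel 765431
  (.lf 207619 .no) (.sel 393132 (.lf 101398304 .no) (.sel 541986 (.lf 101398304 .no) (.sel 876547
  (.lf 101398304 .no) (.lf 745984 .no))))))))) (.br 20666 971996 (.sel 0 (.lf 33 .no) (.sel 1 (.lf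
  13506419312 .no) (.sel 585109 (.lf 13506407024 .no) (.sel 621821 (.lf 13556750960 .no) (.sel
  638297 (.lf 13506407024 .no) (.sel 643638 (.lf 13506407024 .no) (.sel 971996 (.lf 13523176048
  .no) (.lf 748032 .no))))))))) (.br 16826 307687 (.sel 0 (.lf 33 .no) (.sel 1 (.lf 13490690672
  .no) (.sel 29814 (.lf 13490678384 .no) (.sel 307687 (.lf 13507467888 .no) (.sel 458018 (.lf
  13507467888 .no) (.sel 461561 (.lf 13490678384 .no) (.sel 643638 (.lf 13490678384 .no) (.lf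
  743952 .no))))))))) (.lf 2850 .no)) (.sel 643638 (.nrm 11 (.br 17082 1 (.sel 0 (.br 21168 641413
  (.sel 0 (.lf 26391321200 .no) (.sel 1 (.lf 84646432 .no) (.sel 393132 (.lf 84634224 .no) (.sel
  541986 (.lf 84646432 .no) (.sel 641413 (.lf 101423648 .no) (.sel 765431 (.lf 84646432 .no) (.sel
  876547 (.lf 84646432 .no) (.lf 745984 .no))))))))) (.sel 1 (.lf 33 .no) (.sel 307687 (.lf
  53176944 .no) (.sel 378183 (.lf 53176944 .no) (.sel 541986 (.lf 53176944 .no) (.sel 643638 (.lf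
  53176944 .no) (.sel 971996 (.lf 53176944 .no) (.lf 760352 .no))))))))) (.br 20666 971996 (.sel 0
  (.lf 33 .no) (.sel 1 (.lf 84646432 .no) (.sel 585109 (.lf 84646432 .no) (.sel 621821 (.lf
  84646432 .no) (.sel 638297 (.lf 84646432 .no) (.sel 643638 (.lf 84646432 .no) (.sel 971996 (.lf
  101423648 .no) (.lf 748032 .no))))))))) (.br 16826 307687 (.sel 0 (.lf 33 .no) (.sel 1 (.lf
  68917792 .no) (.sel 29814 (.lf 68917792 .no) (.sel 307687 (.lf 85695008 .no) (.sel 458018 (.lf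
  68917792 .no) (.sel 461561 (.lf 68917792 .no) (.sel 643638 (.lf 68917792 .no) (.lf 743952
  .no))))))))) (.lf 2850 .no)) (.sel 0 (.lf 17 .no) (.sel 307687 (.lf 13506275952 .no) (.sel
  378183 (.lf 13490547312 .no) (.sel 541986 (.lf 13506275952 .no) (.sel 971996 (.lf 13506275952
  .no) (.lf 58284576 .no))))))))) (.lf 930 .no) (.lf 1186 .no) (.lf 1442 .no)))

theorem ct33c_ok : chk 3 3 false ct33c [] = true := by decide +kernel

/-- A certificate. -/
def ct34r : Ct :=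
  (.nrm 9 (.br 16953 234573 (.sel 234573 (.nrm 10 (.br 12969 1 (.sel 0 (.nrm 11 (.br 17067 1 (.sel
  0 (.lf 33 .no) (.sel 356366 (.lf 84568944 .no) (.sel 765431 (.lf 84568944 .no) (.lf 175520656
  .no))))) (.lf 946 .no) (.lf 1202 .no) (.lf 1458 .no)) (.sel 234573 (.nrm 11 (.br 17067 1 (.sel 1
  (.nrm 12 (.br 17099 1 (.sel 0 (.lf 175926160 .no) (.sel 1 (.lf 49 .no) (.sel 29814 (.lf 53242736
  .no) (.sel 227529 (.lf 53242736 .no) (.sel 264046 (.lf 53242736 .no) (.sel 585109 (.lf 53242736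
  .no) (.sel 606872 (.lf 53242736 .no) (.lf 830352 .no))))))))) (.br 20683 971996 (.sel 0 (.lf 49
  .no) (.sel 1 (.lf 84716432 .no) (.sel 585109 (.lf 101493648 .no) (.sel 621821 (.lf 84716432 .no)
  (.sel 638297 (.lf 84716432 .no) (.sel 643638 (.lf 84716432 .no) (.sel 971996 (.lf 101493648 .no)
  (.lf 822016 .no))))))))) (.br 16843 307687 (.sel 0 (.lf 49 .no) (.sel 1 (.lf 68987792 .no) (.sel
  29814 (.lf 85765008 .no) (.sel 307687 (.lf 85765008 .no) (.sel 458018 (.lf 68987792 .no) (.sel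
  461561 (.lf 68987792 .no) (.sel 643638 (.lf 68987792 .no) (.lf 822032 .no))))))))) (.lf 3106
  .no)) (.sel 0 (.lf 33 .no) (.sel 234573 (.lf 53111664 .no) (.sel 358591 (.lf 68840304 .no) (.sel
  361707 (.lf 84568944 .no) (.sel 538443 (.lf 84568944 .no) (.sel 876547 (.lf 84568944 .no) (.lf
  678800 .no))))))))) (.lf 946 .no) (.lf 1202 .no) (.lf 1458 .no)) (.sel 1 (.lf 17 .no) (.sel
  358591 (.lf 68839792 .no) (.sel 361707 (.lf 84568432 .no) (.sel 538443 (.lf 84568432 .no) (.sel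
  876547 (.lf 84568432 .no) (.lf 670064 .no))))))))) (.lf 2562 .no) (.lf 2578 .no) (.lf 2594 .no))
  (.sel 1 (.nrm 10 (.br 12969 227529 (.sel 0 (.lf 53111152 .no) (.sel 1 (.lf 17 .no) (.sel 29814
  (.lf 84568432 .no) (.sel 227529 (.lf 84568432 .no) (.sel 264046 (.lf 84568432 .no) (.sel 585109
  (.lf 84568432 .no) (.sel 606872 (.lf 68839792 .no) (.lf 674160 .no))))))))) (.lf 2562 .no) (.lf
  2578 .no) (.lf 2594 .no)) (.sel 0 (.lf 1 .no) (.sel 358591 (.lf 68565360 .no) (.sel 361707 (.lf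
  84294000 .no) (.sel 538443 (.lf 84294000 .no) (.sel 876547 (.lf 84294000 .no) (.lf 538992
  .no))))))))) (.nrm 10 (.br 12969 227529 (.sel 227529 (.nrm 11 (.br 17067 1 (.sel 0 (.lf 33 .no)
  (.sel 1 (.lf 14848519056 .no) (.sel 393132 (.lf 84568944 .no) (.sel 414895 (.lf 84568944 .no)
  (.sel 735958 (.lf 84568944 .no) (.sel 772475 (.lf 84568944 .no) (.sel 970190 (.lf 84568944 .no)
  (.lf 60459888 .no))))))))) (.lf 946 .no) (.lf 1202 .no) (.lf 1458 .no)) (.sel 1 (.nrm 11 (.br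
  17067 1 (.sel 1 (.nrm 12 (.br 17099 1 (.sel 0 (.br 21184 641413 (.sel 0 (.lf 7091612593040 .no)
  (.sel 1 (.lf 84700016 .no) (.sel 393132 (.lf 84700016 .no) (.sel 541986 (.lf 84700016 .no) (.sel
  641413 (.lf 101469040 .no) (.sel 765431 (.lf 84700016 .no) (.sel 876547 (.lf 84700016 .no) (.lf
  820992 .no))))))))) (.sel 1 (.lf 49 .no) (.sel 123457 (.lf 53259152 .no) (.sel 461561 (.lf
  53259152 .no) (.sel 638297 (.lf 53259152 .no) (.sel 641413 (.lf 53259152 .no) (.sel 765431 (.lf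
  53259152 .no) (.lf 112998176 .no))))))))) (.br 20683 971996 (.sel 0 (.lf 49 .no) (.sel 1 (.lf
  13506489232 .no) (.sel 585109 (.lf 13506472816 .no) (.sel 621821 (.lf 13506489232 .no) (.sel
  638297 (.lf 13506472816 .no) (.sel 643638 (.lf 13506472816 .no) (.sel 971996 (.lf 13523241840
  .no) (.lf 822016 .no))))))))) (.br 16843 307687 (.sel 0 (.lf 49 .no) (.sel 1 (.lf 13490760592
  .no) (.sel 29814 (.lf 13490744176 .no) (.sel 307687 (.lf 13507537808 .no) (.sel 458018 (.lf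
  13490760592 .no) (.sel 461561 (.lf 13490744176 .no) (.sel 643638 (.lf 13490744176 .no) (.lf
  822032 .no))))))))) (.lf 3106 .no)) (.sel 0 (.lf 33 .no) (.sel 123457 (.lf 68840304 .no) (.sel
  234573 (.lf 53111664 .no) (.sel 358591 (.lf 68840304 .no) (.sel 458018 (.lf 68840304 .no) (.sel
  606872 (.lf 68840304 .no) (.lf 84568944 .no))))))))) (.lf 946 .no) (.lf 1202 .no) (.lf 1458
  .no)) (.sel 0 (.lf 17 .no) (.sel 29814 (.lf 13506341232 .no) (.sel 264046 (.lf 13490612592 .no)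
  (.sel 585109 (.lf 13506341232 .no) (.sel 606872 (.lf 13506341232 .no) (.lf 670064 .no)))))))))
  (.lf 2562 .no) (.lf 2578 .no) (.lf 2594 .no)) (.lf 1170 .no) (.lf 1426 .no))

theorem ct34r_ok : chk 3 4 true ct34r [] = true := by decide +kernel

/-- A certificate. -/
def ct34c : Ct :=
  (.nrm 9 (.br 14226 234573 (.sel 0 (.nrm 10 (.br 18330 1 (.sel 0 (.lf 17 .no) (.sel 356366 (.lf
  84503152 .no) (.sel 765431 (.lf 84503152 .no) (.lf 158743072 .no))))) (.lf 930 .no) (.lf 1186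
  .no) (.lf 1442 .no)) (.sel 234573 (.nrm 10 (.br 17050 234573 (.sel 234573 (.nrm 11 (.br 17082 1
  (.sel 0 (.nrm 12 (.br 25276 1 (.sel 0 (.lf 49 .no) (.sel 356366 (.lf 53177456 .no) (.sel 765431
  (.lf 142318752 .no) (.lf 159083680 .no))))) (.lf 962 .no) (.br 17084 1 (.sel 0 (.lf 49 .no)
  (.sel 1 (.lf 36307704992 .no) (.sel 227529 (.lf 75209888 .no) (.sel 361707 (.lf 75209888 .no)
  (.sel 393132 (.lf 75209888 .no) (.sel 585109 (.lf 75209888 .no) (.sel 971996 (.lf 75209888 .no)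
  (.lf 136006688 .no))))))))) (.br 21180 1 (.sel 0 (.lf 49 .no) (.sel 1 (.lf 36323433632 .no)
  (.sel 29814 (.lf 91987104 .no) (.sel 227529 (.lf 91987104 .no) (.sel 307687 (.lf 91987104 .no)
  (.sel 538443 (.lf 91987104 .no) (.sel 735958 (.lf 91987104 .no) (.lf 84642848 .no))))))))))
  (.sel 1 (.lf 33 .no) (.sel 234573 (.lf 53176944 .no) (.sel 358591 (.lf 68905584 .no) (.sel
  361707 (.lf 84634224 .no) (.sel 538443 (.lf 84634224 .no) (.sel 876547 (.lf 84634224 .no) (.lf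
  760432 .no))))))))) (.lf 2818 .no) (.lf 2834 .no) (.lf 2850 .no)) (.sel 1 (.nrm 11 (.br 17082 1
  (.sel 0 (.lf 103520880 .no) (.sel 1 (.lf 33 .no) (.sel 29814 (.lf 84634224 .no) (.sel 227529
  (.lf 84634224 .no) (.sel 264046 (.lf 84634224 .no) (.sel 585109 (.lf 84634224 .no) (.sel 606872
  (.lf 68905584 .no) (.lf 760352 .no))))))))) (.lf 2818 .no) (.lf 2834 .no) (.lf 2850 .no)) (.sel
  0 (.lf 17 .no) (.sel 358591 (.lf 68774512 .no) (.sel 361707 (.lf 84503152 .no) (.sel 538443 (.lf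
  84503152 .no) (.sel 876547 (.lf 84503152 .no) (.lf 612976 .no))))))))) (.lf 930 .no) (.lf 1186
  .no) (.lf 1442 .no)) (.sel 1 (.lf 1 .no) (.sel 358591 (.lf 68773664 .no) (.sel 361707 (.lf
  84502304 .no) (.sel 538443 (.lf 84502304 .no) (.sel 876547 (.lf 84502304 .no) (.lf 608032
  .no))))))))) (.lf 2306 .no) (.lf 2322 .no) (.nrm 10 (.br 17050 1 (.sel 1 (.nrm 11 (.br 17082 1
  (.sel 0 (.nrm 12 (.br 25276 1 (.sel 1 (.br 24908 123457 (.sel 1 (.lf 7091596795040 .no) (.sel 0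
  (.lf 68906096 .no) (.sel 123457 (.lf 75197600 .no) (.sel 358591 (.lf 68906096 .no) (.sel 378183
  (.lf 68906096 .no) (.sel 735958 (.lf 68906096 .no) (.sel 765431 (.lf 68906096 .no) (.lf 543904
  .no))))))))) (.sel 0 (.lf 49 .no) (.sel 123457 (.lf 36291976352 .no) (.sel 461561 (.lf
  36291976352 .no) (.sel 638297 (.lf 36291976352 .no) (.sel 641413 (.lf 36291976352 .no) (.sel
  765431 (.lf 36291976352 .no) (.lf 192298016 .no))))))))) (.lf 962 .no) (.br 17084 1 (.sel 1 (.lf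
  9290620050592 .no) (.sel 393132 (.lf 9290620050592 .no) (.sel 0 (.lf 49 .no) (.sel 227529 (.lf
  13490678896 .no) (.sel 361707 (.lf 13490678896 .no) (.sel 585109 (.lf 19112094880 .no) (.sel
  971996 (.lf 13490678896 .no) (.lf 136006688 .no))))))))) (.br 21180 1 (.sel 1 (.lf 9290635779232
  .no) (.sel 735958 (.lf 9290635779232 .no) (.sel 0 (.lf 49 .no) (.sel 29814 (.lf 13507456112 .no)
  (.sel 227529 (.lf 13506407536 .no) (.sel 307687 (.lf 13506407536 .no) (.sel 538443 (.lf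
  13506407536 .no) (.lf 84642848 .no)))))))))) (.sel 1 (.lf 33 .no) (.sel 123457 (.lf 68905584
  .no) (.sel 461561 (.lf 84634224 .no) (.sel 638297 (.lf 84634224 .no) (.sel 641413 (.lf 84634224
  .no) (.sel 765431 (.lf 84634224 .no) (.lf 53176944 .no))))))))) (.lf 2818 .no) (.lf 2834 .no)
  (.lf 2850 .no)) (.sel 643638 (.nrm 11 (.br 17082 1 (.sel 0 (.lf 26391321200 .no) (.sel 1 (.lf 33
  .no) (.sel 307687 (.lf 84634224 .no) (.sel 378183 (.lf 84634224 .no) (.sel 541986 (.lf 84634224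
  .no) (.sel 643638 (.lf 84634224 .no) (.sel 971996 (.lf 84634224 .no) (.lf 760352 .no)))))))))
  (.lf 2818 .no) (.lf 2834 .no) (.lf 2850 .no)) (.sel 0 (.lf 17 .no) (.sel 307687 (.lf 13506275952
  .no) (.sel 378183 (.lf 13490547312 .no) (.sel 541986 (.lf 13506275952 .no) (.sel 971996 (.lf
  13506275952 .no) (.lf 58284576 .no))))))))) (.lf 930 .no) (.lf 1186 .no) (.lf 1442 .no)))

theorem ct34c_ok : chk 3 4 false ct34c [] = true := by decide +kernel

theorem exists_ct3 (k : ℕ) (hk : k ≤ 4) (s : Bool) : ∃ t, chk 3 k s t [] = true := by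
  interval_cases k <;> cases s
  exacts [⟨_, ct30c_ok⟩, ⟨_, ct30r_ok⟩, ⟨_, ct31c_ok⟩, ⟨_, ct31r_ok⟩, ⟨_, ct32c_ok⟩, ⟨_, ct32r_ok⟩, ⟨_,
    ct33c_ok⟩, ⟨_, ct33r_ok⟩, ⟨_, ct34c_ok⟩, ⟨_, ct34r_ok⟩]

end Pool.Agent.Lib.MP_10bdcf_co.G
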