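import Pool.Agent.Lib.MP_10bdcf_co.TP

/-!
The three types of properly coloured cycles in the numerical shadow of a large core.
-/

namespace Pool.Agent.Lib.MP_10bdcf_co.G

open Set

set_option linter.unusedSectionVars false

variable {E : Type} [Finite E] {R C : Set E} {V : E → E → ℕ} {x1 x2 y1 y2 : E}

/-- No second column fits the entry `t`; `f` selects the entry of the seed that is repeated. -/
def trNo (tab : List (ℕ × ℕ × ℕ × ℕ × ℕ)) (t : ℕ × ℕ × ℕ × ℕ × ℕ) (f : Bool) : Bool :=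
  tab.all fun u => !(u.1 == t.1 && u.2.1 == t.2.1 && u.2.2.1 != u.2.2.2.1 &&
    u.2.2.2.2 == (bif f then u.2.2.1 else u.2.2.2.1) &&
    g22 t.2.2.1 u.2.2.1 t.2.2.2.2 u.2.2.2.2 && g22 t.2.2.2.1 u.2.2.2.1 t.2.2.2.2 u.2.2.2.2)

theorem tr_sp {p q r s : ℕ} (h : N5 R C V) (d : Sd R C V x1 x2 y1 y2 p q r s)
    (hm : Mx R C V x1 x2 y1 y2) (tab : List (ℕ × ℕ × ℕ × ℕ × ℕ))
    (hin : ∀ n ∈ R, ∀ m ∈ C, (V n y1, V n y2, V x1 m, V x2 m, V n m) ∈ tab) (n1 : p ≠ q)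
    (n2 : r ≠ s)
    (H : ∀ t ∈ tab, t.1 ≠ t.2.1 → t.2.2.1 = t.2.2.2.1 → t.2.2.2.2 ≠ t.2.2.1 →
      qq p r t.1 q s t.2.1 t.2.2.1 t.2.2.2.1 t.2.2.2.2 ∨
      qq t.1 r p t.2.2.2.2 t.2.2.2.1 t.2.2.1 t.2.1 s q ∨
      (t.1 != r && t.2.1 != s && trNo tab t false) = true ∨
      (p != t.1 && q != t.2.1 && trNo tab t true) = true) : Sp R C V x1 x2 y1 y2 := by
  obtain ⟨a1, a2, b1, b2, rfl, rfl, rfl, rfl⟩ := d
  intro n hn m hm' c1 c2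
  by_contra c3
  have no : ∀ f, trNo tab (V n y1, V n y2, V x1 m, V x2 m, V n m) f = true → ∀ m' ∈ C,
      V x1 m' ≠ V x2 m' → V n m' = (bif f then V x1 m' else V x2 m') → False := by
    intro f hf m' hm' e1 e2
    have := List.all_eq_true.1 hf _ (hin n hn m' hm')
    simp only [h.s22 _ a1 _ hn _ ‹m ∈ C› _ hm', h.s22 _ a2 _ hn _ ‹m ∈ C› _ hm', beq_self_eq_true,
      Bool.true_and, Bool.and_true, ← e2, Bool.not_eq_true', bne_eq_false_iff_eq] at this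
    exact e1 this
  rcases H _ (hin n hn m hm') c1 c2 c3 with e | e | e | e
  · exact h.nt _ a1 _ a2 _ hn _ b1 _ b2 _ hm' e
  · exact h.nt _ hn _ a2 _ a1 _ b1 _ hm' _ b2 e
  · simp only [Bool.and_eq_true, bne_iff_ne] at e
    obtain ⟨m', u1, u2, u3⟩ := (hm n hn m hm' c2 c3).1 ⟨c1, n2, e.1.1, e.1.2⟩
    exact no false e.2 m' u1 u2 u3
  · simp only [Bool.and_eq_true, bne_iff_ne] at e
    obtain ⟨m', u1, u2, u3⟩ := (hm n hn m hm' c2 c3).2 ⟨n1, c1, e.1.1, e.1.2⟩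
    exact no true e.2 m' u1 u2 u3

theorem N5.spI (h : N5 R C V) (d : Sd R C V x1 x2 y1 y2 0 123457 234573 1)
    (hm : Mx R C V x1 x2 y1 y2) : Sp R C V x1 x2 y1 y2 := by
  exact tr_sp h d hm tabI (fun n hn m hm => h.toN4.inI d hn hm) (by decide) (by decide)
    (by decide +kernel)

theorem N5.spC (h : N5 R C V) (d : Sd R C V x1 x2 y1 y2 0 123457 638297 765431)
    (hm : Mx R C V x1 x2 y1 y2) : Sp R C V x1 x2 y1 y2 := by
  exact tr_sp h d hm tabC (fun n hn m hm => h.toN4.inC d hn hm) (by decide) (by decide)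
    (by decide +kernel)

theorem N5.spO (h : N5 R C V) (d : Sd R C V x1 x2 y1 y2 0 123457 414895 0)
    (hm : Mx R C V x1 x2 y1 y2) : Sp R C V x1 x2 y1 y2 := by
  exact tr_sp h d hm tabO (fun n hn m hm => h.toN4.inO d hn hm) (by decide) (by decide)
    (by decide +kernel)

/-- The entries of a table whose row type and column type have two different values. -/
def trF (tab : List (ℕ × ℕ × ℕ × ℕ × ℕ)) : List (ℕ × ℕ × ℕ × ℕ × ℕ) :=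
  tab.filter fun t => t.1 != t.2.1 && t.2.2.1 != t.2.2.2.1

theorem tr_special {p q r s : ℕ} (h : N4 R C V) (d : Sd R C V x1 x2 y1 y2 p q r s)
    (h1 : Sp R C V x1 x2 y1 y2) (h2 : Sp C R (tp V) y1 y2 x1 x2)
    (tab : List (ℕ × ℕ × ℕ × ℕ × ℕ))
    (hin : ∀ n ∈ R, ∀ m ∈ C, (V n y1, V n y2, V x1 m, V x2 m, V n m) ∈ tab) (K : List ℕ)
    (n1 : p ≠ q) (n2 : q ≠ s) (n3 : q ∉ K)
    (H1 : ∀ t ∈ tab, (t.1 = t.2.1 → t.2.1 ∈ K) ∧ (t.2.2.1 = t.2.2.2.1 → t.2.2.1 ∈ K) ∧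
      (t.1 = t.2.1 → t.2.2.1 = t.2.2.2.1 → t.2.2.2.2 = t.2.1 ∨ t.2.2.2.2 = t.2.2.1))
    (H2 : ∀ a ∈ K, ∀ b ∈ K, ∀ c ∈ K, ∀ e ∈ K, g22 a b c e = true →
      a = b ∨ c = e ∨ a = c ∨ b = e) :
    ∀ n ∈ R, ∀ m ∈ C, (V n y1, V n y2, V x1 m, V x2 m, V n m) ∈ trF tab := by
  obtain ⟨a1, a2, b1, b2, rfl, rfl, rfl, rfl⟩ := d
  obtain ⟨e1, e2⟩ := h.gg.special h.toNC.no6 (SR := {n ∈ R | V n y1 = V n y2})
    (SC := {m ∈ C | V x1 m = V x2 m}) (sep_subset _ _) (sep_subset _ _) a1 (fun e => n1 e.2) b2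
    (fun e => n2 e.2) (· ∈ K)
    (fun n hn m hm e => (h2 m hm n hn.1 (fun u => e ⟨hm, u⟩) hn.2).trans hn.2)
    (fun n hn e m hm => h1 n hn m hm.1 (fun u => e ⟨hn, u⟩) hm.2)
    (fun n hn m hm => (H1 _ (hin n hn.1 m hm.1)).2.2 hn.2 hm.2)
    (fun n hn => (H1 _ (hin n hn.1 _ b1)).1 hn.2) (fun m hm => (H1 _ (hin _ a1 m hm.1)).2.1 hm.2)
    n3 (fun x hx x' hx' y hy y' hy' k1 k2 k3 k4 p =>
      (H2 _ k1 _ k2 _ k3 _ k4 (h.s22 x hx x' hx' y hy y' hy')).elim p.1 fun u => u.elim p.2.1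
        fun u => u.elim p.2.2.1 p.2.2.2)
  intro n hn m hm
  refine List.mem_filter.2 ⟨hin n hn m hm, ?_⟩
  simp only [Bool.and_eq_true, bne_iff_ne]
  exact ⟨fun u => (eq_empty_iff_forall_notMem.1 e1 n) ⟨hn, u⟩,
    fun u => (eq_empty_iff_forall_notMem.1 e2 m) ⟨hm, u⟩⟩

theorem tr_chain {A B c : ℕ} (h : N4 R C V) (d : Sd R C V x1 x2 y1 y2 0 A B c)
    (tab : List (ℕ × ℕ × ℕ × ℕ × ℕ))
    (hin : ∀ n ∈ R, ∀ m ∈ C, (V n y1, V n y2, V x1 m, V x2 m, V n m) ∈ tab)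
    (n0 : 0 ≠ c ∧ 0 ≠ A ∧ 0 ≠ B ∧ c ≠ A ∧ c ≠ B ∧ A ≠ B)
    (H1 : ∀ t ∈ tab, t.2.2.2.2 ∈ [0, c, A, B] ∧
      (t.2.2.2.2 = A → t.1 = 0 ∧ t.2.2.2.1 = c ∧ (t.2.1 = A ∨ t.2.2.1 = A)) ∧
      (t.2.2.2.2 = B → t.2.1 = c ∧ t.2.2.1 = 0 ∧ (t.1 = B ∨ t.2.2.2.1 = B)))
    (H2 : g32 0 A B c B A = false) (H3 : g23 0 A A B c B = false)
    (H4 : ∀ a ∈ [0, c, A, B], ∀ b ∈ [0, c, A, B], ∀ e ∈ [0, c, A, B], ∀ f ∈ [0, c, A, B],
      (a != b && e != f && a != e && b != f && g22 a b e f) = true →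
        (a, b, e, f) ∈ [(A, 0, c, B), (A, c, 0, B), (B, 0, c, A), (B, c, 0, A), (0, A, B, c),
          (0, B, A, c), (c, A, B, 0), (c, B, A, 0)]) :
    False := by
  obtain ⟨n1, n2, n3, n4, n5, n6⟩ := n0
  have hv := fun n hn m hm => (H1 _ (hin n hn m hm)).1
  have := h.gg.chain h.toNC.no6 d.a1 d.a2 d.b1 d.b2 n1 n2 n3 n4 n5 n6 d.e11 d.e12 d.e21 d.e22
    (fun n hn m hm => by simpa only [List.mem_cons, List.not_mem_nil, or_false] using hv n hn m hm)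
    (fun n hn m hm => (H1 _ (hin n hn m hm)).2.1) (fun n hn m hm => (H1 _ (hin n hn m hm)).2.2)
    (fun n hn m hm m' hm' e1 e2 e3 e4 e5 e6 => by
      have := h.toNC.g32 ⟨d.a1, d.a2, hm, hm', e1, e2, e3, e4⟩ hn
      rw [e5, e6, H2] at this
      exact Bool.false_ne_true this)
    (fun n hn n' hn' m hm e1 e2 e3 e4 e5 e6 => by
      have := h.toNC.g23 ⟨hn, hn', d.b1, d.b2, e1, e2, e3, e4⟩ hm
      rw [e5, e6, H3] at this
      exact Bool.false_ne_true this)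
    (fun x hx x' hx' y hy y' hy' p => by
      have := H4 _ (hv x hx y hy) _ (hv x hx y' hy') _ (hv x' hx' y hy) _ (hv x' hx' y' hy') (by
        simp only [Bool.and_eq_true, bne_iff_ne]
        exact ⟨⟨⟨⟨p.1, p.2.1⟩, p.2.2.1⟩, p.2.2.2⟩, h.s22 x hx x' hx' y hy y' hy'⟩)
      simp only [List.mem_cons, List.not_mem_nil, or_false, Prod.mk.injEq] at this
      unfold Pr
      omega)
  have := h.bigR
  omega

theorem N4.finI (h : N4 R C V) (d : Sd R C V x1 x2 y1 y2 0 123457 234573 1)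
    (h1 : Sp R C V x1 x2 y1 y2) (h2 : Sp C R (tp V) y1 y2 x1 x2) : False := by
  exact tr_chain h d (trF tabI) (tr_special h d h1 h2 tabI (fun n hn m hm => h.inI d hn hm)
    [0, 1, 358591] (by decide) (by decide) (by decide) (by decide +kernel) (by decide +kernel))
    (by decide) (by decide +kernel) (by decide +kernel) (by decide +kernel) (by decide +kernel)

theorem tr_colC : ∀ t ∈ trF tabC, (t.2.2.1 = 735958 → t.2.2.2.1 = 0) ∧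
    (g23 0 735958 t.2.2.1 638297 0 t.2.2.2.1 = true → (t.2.2.1 = 0 ∧ t.2.2.2.1 = 638297) ∨
      (t.2.2.1 = 123457 ∧ t.2.2.2.1 = 765431) ∨ (t.2.2.1 = 735958 ∧ t.2.2.2.1 = 0)) := by
  decide +kernel

theorem tr_rowC : ∀ t ∈ trF tabC, (t.1 = 414895 → t.2.1 = 0) ∧
    (g32 638297 765431 414895 0 t.1 t.2.1 = true → (t.1 = 0 ∧ t.2.1 = 123457) ∨
      (t.1 = 638297 ∧ t.2.1 = 765431) ∨ (t.1 = 414895 ∧ t.2.1 = 0)) := by
  decide +kernel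

theorem N4.finC (h : N4 R C V) (d : Sd R C V x1 x2 y1 y2 0 123457 638297 765431)
    (h1 : Sp R C V x1 x2 y1 y2) (h2 : Sp C R (tp V) y1 y2 x1 x2) : False := by
  have hin := tr_special h d h1 h2 tabC (fun n hn m hm => h.inC d hn hm)
    [0, 1, 765431] (by decide) (by decide) (by decide) (by decide +kernel) (by decide +kernel)
  by_cases c1 : ∃ y3 ∈ C, V x1 y3 = 735958
  · obtain ⟨y3, b3, e3⟩ := c1
    have e4 : V x2 y3 = 0 := (tr_colC _ (hin _ d.a1 _ b3)).1 e3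
    have := h.gg.three h.toNC.no6 (J := {m ∈ C | V x1 m = 0 ∧ V x2 m = 638297})
      (L := {m ∈ C | V x1 m = 123457 ∧ V x2 m = 765431})
      (K := {m ∈ C | V x1 m = 735958 ∧ V x2 m = 0}) (sep_subset _ _) (sep_subset _ _)
      (sep_subset _ _)
      (fun m hm => ((tr_colC _ (hin _ d.a1 _ hm)).2
        (h.toNC.g23 ⟨d.a1, d.a2, d.b1, b3, d.e11, e3, d.e21, e4⟩ hm)).imp (fun u => ⟨hm, u⟩)
        (Or.imp (fun u => ⟨hm, u⟩) fun u => ⟨hm, u⟩))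
      ⟨y1, d.b1, d.e11, d.e21⟩ ⟨y2, d.b2, d.e12, d.e22⟩ ⟨y3, b3, e3, e4⟩ row23
      (fun n hn j hj l hl k hk => row23_tab _
        (h.inC ⟨d.a1, d.a2, hj.1, hl.1, hj.2.1, hl.2.1, hj.2.2, hl.2.2⟩ hn hk.1) hk.2.1 hk.2.2)
      (fun a b c e => g22 a b c e = true) h.s22 (b1 := 765431) (c1 := 0) (a2 := 0) (c2 := 0)
      (a3 := 0) (b3 := 123457) (by decide +kernel) (by decide +kernel) (by decide +kernel)
      (by decide +kernel) (by decide +kernel) (by decide +kernel)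
    have := h.bigC
    omega
  by_cases c2 : ∃ x3 ∈ R, V x3 y1 = 414895
  · obtain ⟨x3, a3, e3⟩ := c2
    have e4 : V x3 y2 = 0 := (tr_rowC _ (hin _ a3 _ d.b1)).1 e3
    have := h.gg.tp.three h.toNC.no6.tp (J := {n ∈ R | V n y1 = 0 ∧ V n y2 = 123457})
      (L := {n ∈ R | V n y1 = 638297 ∧ V n y2 = 765431})
      (K := {n ∈ R | V n y1 = 414895 ∧ V n y2 = 0}) (sep_subset _ _) (sep_subset _ _)
      (sep_subset _ _)
      (fun n hn => ((tr_rowC _ (hin _ hn _ d.b1)).2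
        (h.toNC.g32 ⟨d.a2, a3, d.b1, d.b2, d.e21, d.e22, e3, e4⟩ hn)).imp (fun u => ⟨hn, u⟩)
        (Or.imp (fun u => ⟨hn, u⟩) fun u => ⟨hn, u⟩))
      ⟨x1, d.a1, d.e11, d.e12⟩ ⟨x2, d.a2, d.e21, d.e22⟩ ⟨x3, a3, e3, e4⟩ col32
      (fun m hm j hj l hl k hk => col32_tab _
        (h.inC ⟨hj.1, hl.1, d.b1, d.b2, hj.2.1, hj.2.2, hl.2.1, hl.2.2⟩ hk.1 hm) hk.2.1 hk.2.2)
      (fun a b c e => g22 a c b e = true)
      (fun y hy y' hy' x hx x' hx' => h.s22 x hx x' hx' y hy y' hy') (b1 := 765431) (c1 := 0)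
      (a2 := 0) (c2 := 0) (a3 := 0) (b3 := 638297) (by decide +kernel) (by decide +kernel)
      (by decide +kernel) (by decide +kernel) (by decide +kernel) (by decide +kernel)
    have := h.bigR
    omega
  refine tr_chain h d ((trF tabC).filter fun t => t.1 != 414895 && t.2.2.1 != 735958)
    (fun n hn m hm => List.mem_filter.2 ⟨hin n hn m hm, ?_⟩) (by decide) (by decide +kernel)
    (by decide +kernel) (by decide +kernel) (by decide +kernel)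
  simp only [Bool.and_eq_true, bne_iff_ne]
  exact ⟨fun u => c2 ⟨n, hn, u⟩, fun u => c1 ⟨m, hm, u⟩⟩

theorem tr_A : ∀ t ∈ trF tabO, (t.1 = 0 → t.2.2.2.2 = t.2.2.1 ∨ t.2.2.1 = 123457) ∧
    (t.2.2.1 = 123457 → (t.1 = 0 → t.2.2.2.2 ∈ [0, 123457]) ∧ (t.1 ≠ 0 → t.2.2.2.2 = t.2.1)) := by
  decide +kernel

theorem tr_B : ∀ t ∈ trF tabO, (t.2.1 = 0 → t.2.2.2.2 = t.2.2.2.1 ∨ t.2.2.2.1 = 414895) ∧
    (t.2.2.2.1 = 414895 → (t.2.1 = 0 → t.2.2.2.2 ∈ [0, 414895]) ∧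
      (t.2.1 ≠ 0 → t.2.2.2.2 = t.1)) := by
  decide +kernel

theorem tr_T : ∀ t ∈ trF tabO, t.1 ≠ 0 → t.2.1 ≠ 0 → ∀ u ∈ trF tabO, u.1 ≠ 0 → u.2.1 ≠ 0 →
    t.2.2.1 = u.2.2.1 → g22 t.1 t.2.1 u.1 u.2.1 = true → t.2.2.2.2 = u.2.2.2.2 := by
  decide +kernel

theorem tr_rows (h : N4 R C V) {S : Set E} (hS : S ⊆ R) (P : E → Prop) (f g : E → ℕ) (K : List ℕ)
    (k1 : ∀ n ∈ S, ∀ m ∈ C, V n m = f m ∨ P m) (k2 : ∀ n ∈ S, ∀ m ∈ C, P m → V n m ∈ K)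
    (k3 : ∀ n ∈ R, n ∉ S → ∀ m ∈ C, P m → V n m = g n)
    (H : ∀ a ∈ K, ∀ b ∈ K, ∀ c ∈ K, ∀ e ∈ K, g22 a b c e = true →
      a = b ∨ c = e ∨ a = c ∨ b = e) : S.Subsingleton := by
  have key : ∀ m ∈ C, ∀ x ∈ S, ∀ x' ∈ S, V x m ≠ V x' m → P m := fun m hm x hx x' hx' e =>
    (k1 x hx m hm).elim (fun u => (k1 x' hx' m hm).elim (fun v => (e (u.trans v.symm)).elim) id) id
  refine h.gg.rows h.toNC.no6 hS (fun x hx x' hx' y hy y' hy' p => ?_) ?_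
  · have u := key y hy x hx x' hx' p.2.2.1
    have v := key y' hy' x hx x' hx' p.2.2.2
    exact (H _ (k2 x hx y hy u) _ (k2 x hx y' hy' v) _ (k2 x' hx' y hy u) _ (k2 x' hx' y' hy' v)
      (h.s22 x (hS hx) x' (hS hx') y hy y' hy')).elim p.1 fun u => u.elim p.2.1
        fun u => u.elim p.2.2.1 p.2.2.2
  · rintro y hy y' hy' ⟨a, ha, a', ha', e⟩ ⟨b, hb, b', hb', e'⟩ x hx hx'
    exact (k3 x hx hx' y hy (key y hy a ha a' ha' e)).trans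
      (k3 x hx hx' y' hy' (key y' hy' b hb b' hb' e')).symm

theorem N4.finO (h : N4 R C V) (d : Sd R C V x1 x2 y1 y2 0 123457 414895 0)
    (h1 : Sp R C V x1 x2 y1 y2) (h2 : Sp C R (tp V) y1 y2 x1 x2) : False := by
  have hin := tr_special h d h1 h2 tabO (fun n hn m hm => h.inO d hn hm)
    [0, 1] (by decide) (by decide) (by decide) (by decide +kernel) (by decide +kernel)
  have sA := tr_rows h (S := {n ∈ R | V n y1 = 0}) (sep_subset _ _) (fun m => V x1 m = 123457)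
    (V x1) (fun n => V n y2) [0, 123457] (fun n hn m hm => (tr_A _ (hin n hn.1 m hm)).1 hn.2)
    (fun n hn m hm e => ((tr_A _ (hin n hn.1 m hm)).2 e).1 hn.2)
    (fun n hn hn' m hm e => ((tr_A _ (hin n hn m hm)).2 e).2 fun u => hn' ⟨hn, u⟩)
    (by decide +kernel)
  have sB := tr_rows h (S := {n ∈ R | V n y2 = 0}) (sep_subset _ _) (fun m => V x2 m = 414895)
    (V x2) (fun n => V n y1) [0, 414895] (fun n hn m hm => (tr_B _ (hin n hn.1 m hm)).1 hn.2)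
    (fun n hn m hm e => ((tr_B _ (hin n hn.1 m hm)).2 e).1 hn.2)
    (fun n hn hn' m hm e => ((tr_B _ (hin n hn m hm)).2 e).2 fun u => hn' ⟨hn, u⟩)
    (by decide +kernel)
  have sT : {n ∈ R | V n y1 ≠ 0 ∧ V n y2 ≠ 0}.Subsingleton := by
    intro n hn n' hn'
    by_contra e
    obtain ⟨m, hm, -, u⟩ := h.gg.r2 n hn.1 n' hn'.1 e n
    exact u (tr_T _ (hin n hn.1 m hm) hn.2.1 hn.2.2 _ (hin n' hn'.1 m hm) hn'.2.1 hn'.2.2 rfl
      (h.s22 n hn.1 n' hn'.1 y1 d.b1 y2 d.b2))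
  have sub : R ⊆ {n ∈ R | V n y1 = 0} ∪ ({n ∈ R | V n y2 = 0} ∪
      {n ∈ R | V n y1 ≠ 0 ∧ V n y2 ≠ 0}) := fun n hn =>
    (em (V n y1 = 0)).elim (fun u => Or.inl ⟨hn, u⟩) fun u =>
      Or.inr ((em (V n y2 = 0)).imp (fun v => ⟨hn, v⟩) fun v => ⟨hn, u, v⟩)
  have c0 := ncard_le_ncard sub
  have c1 := ncard_union_le {n ∈ R | V n y1 = 0} ({n ∈ R | V n y2 = 0} ∪
    {n ∈ R | V n y1 ≠ 0 ∧ V n y2 ≠ 0})
  have c2 := ncard_union_le {n ∈ R | V n y2 = 0} {n ∈ R | V n y1 ≠ 0 ∧ V n y2 ≠ 0}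
  have c3 := ncard_le_one_iff_subsingleton.2 sA
  have c4 := ncard_le_one_iff_subsingleton.2 sB
  have c5 := ncard_le_one_iff_subsingleton.2 sT
  have := h.bigR
  omega

end Pool.Agent.Lib.MP_10bdcf_co.G
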