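import Pool.Agent.Lib.MP_10bdcf_co.TS
import Pool.Agent.Lib.MP_10bdcf_co.TR
import Pool.Agent.Lib.MP_10bdcf_co.TC0

/-!
Classification of the core matrices.
-/

namespace Pool.Agent.Lib.MP_10bdcf_co.G

open Set

set_option linter.unusedSectionVars false

variable {E : Type} [Fintype E] {R C : Set E} {Y : Matrix E E R0} {x1 x2 y1 y2 : E}

theorem tt_fund_map (φ : R0 ≃+* R0) (hφ : ∀ z, InG (φ z) ↔ InG z) {p : R0} :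
    Fund (φ p) ↔ Fund p := by
  have e1 : 1 - φ p = φ (1 - p) := by rw [map_sub, map_one]
  rw [Fund, Fund, e1, hφ, hφ]

theorem tt_fund_sub {p : R0} (h : Fund (1 - p)) : Fund p :=
  ⟨by have := h.2; rwa [sub_sub_cancel] at this, h.1⟩

theorem tt_zero (h : CM R C Y) (φ : R0 ≃+* R0) (hφ : ∀ z, InG (φ z) ↔ InG z) (a1 : x1 ∈ R)
    (b1 : y1 ∈ C) (e : Y x1 y1 = 0) : nv (Y.map φ) x1 y1 = 0 :=
  ((h.aut φ hφ).nv_zero a1 b1).2 (by rw [Matrix.map_apply, e, map_zero])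

theorem tt_one (h : CM R C Y) (φ : R0 ≃+* R0) (hφ : ∀ z, InG (φ z) ↔ InG z) (a1 : x1 ∈ R)
    (b1 : y1 ∈ C) (e : Y x1 y1 = 1) : nv (Y.map φ) x1 y1 = 1 :=
  ((h.aut φ hφ).nv_one a1 b1).2 (by rw [Matrix.map_apply, e, map_one])

theorem tt_fund (h : CM R C Y) (φ : R0 ≃+* R0) (hφ : ∀ z, InG (φ z) ↔ InG z) (a1 : x1 ∈ R)
    (b1 : y1 ∈ C) (e : Fund (Y x1 y1)) : 1 < nv (Y.map φ) x1 y1 :=
  ((h.aut φ hφ).nv_fund a1 b1).2 ((tt_fund_map φ hφ).2 e)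

theorem tt_eq (h : CM R C Y) (φ : R0 ≃+* R0) (hφ : ∀ z, InG (φ z) ↔ InG z) (a1 : x1 ∈ R)
    (b1 : y1 ∈ C) (a2 : x2 ∈ R) (b2 : y2 ∈ C) :
    nv Y x1 y1 = nv Y x2 y2 ↔ nv (Y.map φ) x1 y1 = nv (Y.map φ) x2 y2 :=
  (h.eqv_nv _ a1 _ b1 _ a2 _ b2).symm.trans
    ((eqv_map R C Y φ _ a1 _ b1 _ a2 _ b2).trans ((h.aut φ hφ).eqv_nv _ a1 _ b1 _ a2 _ b2))

theorem tt_nq (h : CM R C Y) (h4 : 4 ≤ R.ncard) : ∀ x ∈ R, ∀ x' ∈ R, ∀ x'' ∈ R, ∀ y ∈ C, ∀ y' ∈ C,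
    ∀ y'' ∈ C, ¬ qq (nv Y x y) (nv Y x y') (nv Y x y'') (nv Y x' y) (nv Y x' y') (nv Y x' y'')
      (nv Y x'' y) (nv Y x'' y') (nv Y x'' y'') := by
  rintro x a1 x' a2 x'' a3 y b1 y' b2 y'' b3 ⟨q1, q2, q3, q4, q5, q6, q7, q8, q9⟩
  rw [h.nv_zero a1 b1] at q1
  rw [h.nv_zero a1 b3] at q2
  rw [h.nv_one a2 b2] at q3
  rw [h.nv_one a2 b3] at q4
  rw [h.nv_fund a1 b2] at q6
  rw [h.nv_fund a2 b1] at q7
  rw [h.nv_fund a3 b1] at q8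
  obtain ⟨φ, hφ, d⟩ := h.normI (by omega) a1 a2 b1 b2 q1 q6 q7 q3
  exact ((h.aut φ hφ).n4 h4).noQ d a3 b3 ⟨tt_zero h φ hφ a1 b1 q1, tt_zero h φ hφ a1 b3 q2,
    tt_one h φ hφ a2 b2 q3, tt_one h φ hφ a2 b3 q4, (tt_eq h φ hφ a3 b1 a3 b2).1 q5,
    tt_fund h φ hφ a1 b2 q6, tt_fund h φ hφ a2 b1 q7, tt_fund h φ hφ a3 b1 q8,
    fun e => q9 ((tt_eq h φ hφ a3 b3 a3 b1).2 e)⟩

theorem CM.n5 (h : CM R C Y) (h4 : 4 ≤ R.ncard) : N5 R C (nv Y) :=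
  ⟨h.n4 h4, tt_nq h h4, fun x a1 x' a2 x'' a3 y b1 y' b2 y'' b3 =>
    tt_nq h.tp (h.card ▸ h4) y b1 y' b2 y'' b3 x a1 x' a2 x'' a3⟩

theorem CM.sp (h : CM R C Y) (h4 : 4 ≤ R.ncard) (a1 : x1 ∈ R) (a2 : x2 ∈ R) (b1 : y1 ∈ C)
    (b2 : y2 ∈ C) (hp : PC4 (fun a b => Y a b) x1 x2 y1 y2)
    (hm : Mx R C (fun a b => Y a b) x1 x2 y1 y2) : Sp R C (fun a b => Y a b) x1 x2 y1 y2 := by
  refine seed_wlog (R := R) (C := C) (by omega)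
    (P := fun Y x1 x2 y1 y2 => CM R C Y → Mx R C (fun a b => Y a b) x1 x2 y1 y2 →
      Sp R C (fun a b => Y a b) x1 x2 y1 y2)
    (fun Y x1 x2 y1 y2 H h hm => (H h hm.row).row) (fun Y x1 x2 y1 y2 H h hm => (H h hm.col).col)
    (fun Y x1 x2 y1 y2 a1 a2 b1 b2 H h hm => (eqv_mir R C Y).symm.sp a1 a2 b1 b2
      (H h.mir ((eqv_mir R C Y).mx a1 a2 b1 b2 hm)))
    (fun Y x1 x2 y1 y2 φ a1 a2 b1 b2 hφ H h hm => (eqv_map R C Y φ).symm.sp a1 a2 b1 b2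
      (H (h.aut φ hφ) ((eqv_map R C Y φ).mx a1 a2 b1 b2 hm)))
    (fun Y x1 x2 y1 y2 h d _ hm => h.eqv_nv.symm.sp d.a1 d.a2 d.b1 d.b2
      ((h.n5 h4).spI d (h.eqv_nv.mx d.a1 d.a2 d.b1 d.b2 hm)))
    (fun Y x1 x2 y1 y2 h d _ hm => h.eqv_nv.symm.sp d.a1 d.a2 d.b1 d.b2
      ((h.n5 h4).spC d (h.eqv_nv.mx d.a1 d.a2 d.b1 d.b2 hm)))
    (fun Y x1 x2 y1 y2 h d _ hm => h.eqv_nv.symm.sp d.a1 d.a2 d.b1 d.b2
      ((h.n5 h4).spO d (h.eqv_nv.mx d.a1 d.a2 d.b1 d.b2 hm)))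
    Y x1 x2 y1 y2 h a1 a2 b1 b2 hp h hm

theorem tt_seed (h : CM R C Y) (h3 : 3 ≤ R.ncard) : ∃ x1 ∈ R, ∃ x2 ∈ R, ∃ y1 ∈ C, ∃ y2 ∈ C,
    PC4 (fun a b => Y a b) x1 x2 y1 y2 ∧ Mx R C (fun a b => Y a b) x1 x2 y1 y2 ∧
      Mx C R (G.tp fun a b => Y a b) y1 y2 x1 x2 :=
  h.gg.exists_seed (h.eqv_nv.symm.no6 (h.nc h3).no6) (nonempty_of_ncard_ne_zero (by omega))

theorem CM.le_three (h : CM R C Y) : R.ncard ≤ 3 := by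
  by_contra h0
  have h4 : 4 ≤ R.ncard := by omega
  obtain ⟨x1, a1, x2, a2, y1, b1, y2, b2, hp, m1, m2⟩ := tt_seed h (by omega)
  have s1 := h.sp h4 a1 a2 b1 b2 hp m1
  have s2 : Sp C R (G.tp fun a b => Y a b) y1 y2 x1 x2 :=
    h.tp.sp (h.card ▸ h4) b1 b2 a1 a2 hp.tp m2
  exact seed_wlog (R := R) (C := C) (by omega)
    (P := fun Y x1 x2 y1 y2 => CM R C Y → Sp R C (fun a b => Y a b) x1 x2 y1 y2 →
      Sp C R (G.tp fun a b => Y a b) y1 y2 x1 x2 → False)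
    (fun Y x1 x2 y1 y2 H h s1 s2 => H h s1.row s2.col)
    (fun Y x1 x2 y1 y2 H h s1 s2 => H h s1.col s2.row)
    (fun Y x1 x2 y1 y2 a1 a2 b1 b2 H h s1 s2 => H h.mir ((eqv_mir R C Y).sp a1 a2 b1 b2 s1)
      ((eqv_mir R C Y).tp.sp b1 b2 a1 a2 s2))
    (fun Y x1 x2 y1 y2 φ a1 a2 b1 b2 hφ H h s1 s2 => H (h.aut φ hφ)
      ((eqv_map R C Y φ).sp a1 a2 b1 b2 s1) ((eqv_map R C Y φ).tp.sp b1 b2 a1 a2 s2))
    (fun Y x1 x2 y1 y2 h d _ s1 s2 => (h.n4 h4).finI d (h.eqv_nv.sp d.a1 d.a2 d.b1 d.b2 s1)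
      (h.eqv_nv.tp.sp d.b1 d.b2 d.a1 d.a2 s2))
    (fun Y x1 x2 y1 y2 h d _ s1 s2 => (h.n4 h4).finC d (h.eqv_nv.sp d.a1 d.a2 d.b1 d.b2 s1)
      (h.eqv_nv.tp.sp d.b1 d.b2 d.a1 d.a2 s2))
    (fun Y x1 x2 y1 y2 h d _ s1 s2 => (h.n4 h4).finO d (h.eqv_nv.sp d.a1 d.a2 d.b1 d.b2 s1)
      (h.eqv_nv.tp.sp d.b1 d.b2 d.a1 d.a2 s2))
    Y x1 x2 y1 y2 h a1 a2 b1 b2 hp h s1 s2

/-- The pattern of zeros and ones of the core of order three. -/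
def Pat3 (R C : Set E) (Y : Matrix E E R0) : Prop :=
  ∃ a ∈ R, ∃ b ∈ R, ∃ c ∈ R, ∃ u ∈ C, ∃ v ∈ C, ∃ w ∈ C, Y a u = 0 ∧ Y a v = 0 ∧ Fund (Y a w) ∧
    Y b u = 0 ∧ Fund (Y b v) ∧ Y b w = 1 ∧ Fund (Y c u) ∧ Y c v = 1 ∧ Y c w = 1

theorem tt_full (h : CM R C Y) (h3 : R.ncard = 3) {p q r s : ℕ}
    (d : Sd R C (nv Y) x1 x2 y1 y2 p q r s) (hq : p ≠ q) (hr : p ≠ r) : ∃ n ∈ R, ∃ m ∈ C,
      p33 p q (nv Y x1 m) r s (nv Y x2 m) (nv Y n y1) (nv Y n y2) (nv Y n m) = false := by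
  obtain ⟨a1, a2, b1, b2, rfl, rfl, rfl, rfl⟩ := d
  have hc := h.card
  obtain ⟨n, hn, n1, n2⟩ := ty_third (R := R) (by omega) x1 x2
  obtain ⟨m, hm, m1, m2⟩ := ty_third (R := C) (by omega) y1 y2
  exact ⟨n, hn, m, hm, h.full h3 _ a1 _ a2 _ hn _ b1 _ b2 _ hm (fun e => hr (by rw [e])) n1.symm
    n2.symm (fun e => hq (by rw [e])) m1.symm m2.symm⟩

theorem tt_pat_mir (H : Pat3 R C (mir Y)) : Pat3 R C Y := by
  obtain ⟨a, ha, b, hb, c, hc, u, hu, v, hv, w, hw, e1, e2, e3, e4, e5, e6, e7, e8, e9⟩ := H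
  simp only [mir, Matrix.of_apply, sub_eq_zero, sub_eq_self] at e1 e2 e3 e4 e5 e6 e7 e8 e9
  exact ⟨c, hc, b, hb, a, ha, w, hw, v, hv, u, hu, e9, e8, tt_fund_sub e7, e6, tt_fund_sub e5,
    e4.symm, tt_fund_sub e3, e2.symm, e1.symm⟩

theorem tt_pat_map (φ : R0 ≃+* R0) (hφ : ∀ z, InG (φ z) ↔ InG z) (H : Pat3 R C (Y.map φ)) :
    Pat3 R C Y := by
  obtain ⟨a, ha, b, hb, c, hc, u, hu, v, hv, w, hw, e1, e2, e3, e4, e5, e6, e7, e8, e9⟩ := H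
  simp only [Matrix.map_apply, tt_fund_map φ hφ, map_eq_zero_iff φ φ.injective,
    map_eq_one_iff φ φ.injective] at e1 e2 e3 e4 e5 e6 e7 e8 e9
  exact ⟨a, ha, b, hb, c, hc, u, hu, v, hv, w, hw, e1, e2, e3, e4, e5, e6, e7, e8, e9⟩

theorem tt_patI (h : CM R C Y) (h3 : R.ncard = 3)
    (d : Sd R C (nv Y) x1 x2 y1 y2 0 123457 234573 1) : Pat3 R C Y := by
  obtain ⟨n, hn, m, hm, hp⟩ := tt_full h h3 d (by decide) (by decide)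
  obtain ⟨f0, hf⟩ := (h.nc h3.ge).fulI d hn hm hp
  obtain ⟨a1, a2, b1, b2, e11, e12, e21, e22⟩ := d
  have g0 : Fund (Y n m) := (h.nv_fund hn hm).1 (by omega)
  have g1 : Fund (Y x1 y2) := (h.nv_fund a1 b2).1 (by omega)
  have g2 : Fund (Y x2 y1) := (h.nv_fund a2 b1).1 (by omega)
  rw [h.nv_zero a1 b1] at e11
  rw [h.nv_one a2 b2] at e22
  rcases hf with ⟨f1, f2, f3, f4⟩ | ⟨f1, f2, f3, f4⟩ | ⟨f1, f2, f3, f4⟩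
  · exact ⟨n, hn, x1, a1, x2, a2, y1, b1, y2, b2, m, hm, (h.nv_zero hn b1).1 f1,
      (h.nv_zero hn b2).1 f2, g0, e11, g1, (h.nv_one a1 hm).1 f3, g2, e22, (h.nv_one a2 hm).1 f4⟩
  · exact ⟨x1, a1, n, hn, x2, a2, y1, b1, m, hm, y2, b2, e11, (h.nv_zero a1 hm).1 f3, g1,
      (h.nv_zero hn b1).1 f1, g0, (h.nv_one hn b2).1 f2, g2, (h.nv_one a2 hm).1 f4, e22⟩
  · exact ⟨x1, a1, x2, a2, n, hn, m, hm, y1, b1, y2, b2, (h.nv_zero a1 hm).1 f3, e11, g1,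
      (h.nv_zero a2 hm).1 f4, g2, e22, g0, (h.nv_one hn b1).1 f1, (h.nv_one hn b2).1 f2⟩

theorem CM.pat3 (h : CM R C Y) (h3 : R.ncard = 3) : Pat3 R C Y := by
  obtain ⟨x1, a1, x2, a2, y1, b1, y2, b2, hp, -, -⟩ := tt_seed h h3.ge
  refine seed_wlog (R := R) (C := C) h3.ge (P := fun Y _ _ _ _ => Pat3 R C Y)
    (fun _ _ _ _ _ H => H) (fun _ _ _ _ _ H => H) (fun _ _ _ _ _ _ _ _ _ H => tt_pat_mir H)
    (fun _ _ _ _ _ φ _ _ _ _ hφ H => tt_pat_map φ hφ H) (fun Y x1 x2 y1 y2 h d => tt_patI h h3 d)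
    (fun Y x1 x2 y1 y2 h d => ?_) (fun Y x1 x2 y1 y2 h d => ?_) Y x1 x2 y1 y2 h a1 a2 b1 b2 hp
  · obtain ⟨n, hn, m, hm, hp⟩ := tt_full h h3 d (by decide) (by decide)
    rw [(h.nc h3.ge).fulC d hn hm] at hp
    exact absurd hp (by decide)
  · obtain ⟨n, hn, m, hm, hp⟩ := tt_full h h3 d (by decide) (by decide)
    rw [(h.nc h3.ge).fulO d hn hm] at hp
    exact absurd hp (by decide)

/-- The numbering of up to three elements. -/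
def ttF (a b c : E) (i : ℕ) : E := if i = 0 then a else if i = 1 then b else c

theorem tt_num2 {a b : E} (h2 : R.ncard = 2) (ha : a ∈ R) (hb : b ∈ R) (n1 : a ≠ b) :
    (∀ z, z ∈ R ↔ ∃ i < 2, z = ttF a b b i) ∧
      ∀ i < 2, ∀ j < 2, ttF a b b i = ttF a b b j → i = j := by
  have e := ty_pair h2.le ha hb n1
  refine ⟨fun z => ⟨fun hz => ?_, ?_⟩, fun i hi j hj he => ?_⟩
  · rw [e] at hz
    rcases hz with hz | hz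
    · exact ⟨0, by omega, hz⟩
    · exact ⟨1, by omega, hz⟩
  · rintro ⟨i, hi, rfl⟩
    interval_cases i
    · exact ha
    · exact hb
  · interval_cases i <;> interval_cases j
    · rfl
    · exact absurd he n1
    · exact absurd he n1.symm
    · rfl

theorem tt_num3 {a b c : E} (h3 : R.ncard = 3) (ha : a ∈ R) (hb : b ∈ R) (hc : c ∈ R) (n1 : a ≠ b)
    (n2 : a ≠ c) (n3 : b ≠ c) : (∀ z, z ∈ R ↔ ∃ i < 3, z = ttF a b c i) ∧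
      ∀ i < 3, ∀ j < 3, ttF a b c i = ttF a b c j → i = j := by
  have e : {a, b, c} = R :=
    eq_of_subset_of_ncard_le (ta4_sub3 ha hb hc) (h3.trans (cb_three n1 n2 n3).symm).le
  refine ⟨fun z => ⟨fun hz => ?_, ?_⟩, fun i hi j hj he => ?_⟩
  · rw [← e] at hz
    rcases hz with hz | hz | hz
    · exact ⟨0, by omega, hz⟩
    · exact ⟨1, by omega, hz⟩
    · exact ⟨2, by omega, hz⟩
  · rintro ⟨i, hi, rfl⟩
    interval_cases i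
    · exact ha
    · exact hb
    · exact hc
  · interval_cases i <;> interval_cases j
    · rfl
    · exact absurd he n1
    · exact absurd he n2
    · exact absurd he n1.symm
    · rfl
    · exact absurd he n3
    · exact absurd he n2.symm
    · exact absurd he n3.symm
    · rfl

theorem tt_two (h : CM R C Y) (h2 : R.ncard = 2) (a1 : x1 ∈ R) (a2 : x2 ∈ R) (b1 : y1 ∈ C)
    (b2 : y2 ∈ C) (n1 : x1 ≠ x2) (n2 : y1 ≠ y2) (e11 : Y x1 y1 = 0) (e22 : Y x2 y2 = 1) :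
    ∃ φ x y, Canon R C Y φ 2 x y := by
  obtain ⟨f1, f2⟩ := h.f2 h2 _ a1 _ a2 _ b1 _ b2 n1 n2
  simp only [d2, m1, Matrix.of_apply, e11, e22] at f1 f2
  have e21 : Y x2 y1 = 1 - Y x1 y2 := by linear_combination f1
  have g1 : InG (Y x1 y2) := (h.ent _ a1 _ b2).resolve_left fun e => f2 (by rw [e]; ring)
  have g2 : InG (Y x2 y1) := (h.ent _ a2 _ b1).resolve_left fun e => f2 (by rw [e]; ring)
  obtain ⟨q, hq⟩ := Fund.exists_cp (⟨g1, e21 ▸ g2⟩ : Fund (Y x1 y2))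
  obtain ⟨φ, p1, -, hφ⟩ := hq.aut
  obtain ⟨r1, r2⟩ := tt_num2 h2 a1 a2 n1
  obtain ⟨c1, c2⟩ := tt_num2 (h.card ▸ h2) b1 b2 n2
  refine ⟨φ, ttF x1 x2 x2, ttF y1 y2 y2, hφ, Or.inl rfl, h2, r1, c1, r2, c2, fun i hi j hj => ?_⟩
  have k1 : tvl (φ (Y x1 y1)) = 0 := by rw [e11, map_zero, tvl_zero]
  have k2 : tvl (φ (Y x1 y2)) = 123457 := by rw [p1, tvl_a0]
  have k3 : tvl (φ (Y x2 y1)) = 876547 := by
    rw [e21, map_sub, map_one, p1, ← tvl_sub, tvl_one, tvl_a0]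
    rfl
  have k4 : tvl (φ (Y x2 y2)) = 1 := by rw [e22, map_one, tvl_one]
  interval_cases i <;> interval_cases j
  · exact k1
  · exact k2
  · exact k3
  · exact k4

theorem CM.canon2 (h : CM R C Y) (h2 : R.ncard = 2) : ∃ φ x y, Canon R C Y φ 2 x y := by
  obtain ⟨x1, x2, n1, eR⟩ := ncard_eq_two.1 h2
  obtain ⟨y1, y2, n2, eC⟩ := ncard_eq_two.1 (h.card ▸ h2 : C.ncard = 2)
  have a1 : x1 ∈ R := eR ▸ Or.inl rfl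
  have a2 : x2 ∈ R := eR ▸ Or.inr rfl
  have b1 : y1 ∈ C := eC ▸ Or.inl rfl
  have b2 : y2 ∈ C := eC ▸ Or.inr rfl
  obtain ⟨f1, f2⟩ := h.f2 h2 _ a1 _ a2 _ b1 _ b2 n1 n2
  have e1 : Y x2 y2 = Y x1 y2 - (Y x1 y1 - Y x2 y1) := by
    simp only [d2, m1, Matrix.of_apply] at f1
    linear_combination -f1
  have he : nv Y x2 y2 = sbm (nv Y x1 y2) (sbm (nv Y x1 y1) (nv Y x2 y1)) := by
    simp only [nv]
    rw [tvl_sub, tvl_sub, ← e1]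
  have hd : dt2 (nv Y x1 y1) (nv Y x1 y2) (nv Y x2 y1) (nv Y x2 y2) ≠ 0 := by
    simp only [nv, dt2]
    rw [tvl_mul, tvl_mul, tvl_sub]
    exact fun e => f2 ((vl_eq_zero (h.m2 _ a1 _ a2 _ b1 _ b2)).1 e)
  rcases two_tab (tvl_mem (h.inS a1 b1)) (tvl_mem (h.inS a1 b2)) (tvl_mem (h.inS a2 b1))
    (tvl_mem (h.inS a2 b2)) (h.h22 _ a1 _ a2 _ b1 _ b2) he hd with
    ⟨k1, k2⟩ | ⟨k1, k2⟩ | ⟨k1, k2⟩ | ⟨k1, k2⟩
  · exact tt_two h h2 a1 a2 b1 b2 n1 n2 ((h.nv_zero a1 b1).1 k1) ((h.nv_one a2 b2).1 k2)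
  · exact tt_two h h2 a2 a1 b2 b1 n1.symm n2.symm ((h.nv_zero a2 b2).1 k2) ((h.nv_one a1 b1).1 k1)
  · exact tt_two h h2 a1 a2 b2 b1 n1 n2.symm ((h.nv_zero a1 b2).1 k1) ((h.nv_one a2 b1).1 k2)
  · exact tt_two h h2 a2 a1 b1 b2 n1.symm n2 ((h.nv_zero a2 b1).1 k2) ((h.nv_one a1 b2).1 k1)

theorem CM.canon3 (h : CM R C Y) (h3 : R.ncard = 3) : ∃ φ x y, Canon R C Y φ 3 x y := by
  obtain ⟨a, ha, b, hb, c, hc, u, hu, v, hv, w, hw, e1, e2, e3, e4, e5, e6, e7, e8, e9⟩ :=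
    h.pat3 h3
  have n1 : a ≠ b := fun e => e5.1.ne_zero (e ▸ e2)
  have n2 : a ≠ c := fun e => e7.1.ne_zero (e ▸ e1)
  have n3 : b ≠ c := fun e => e7.1.ne_zero (e ▸ e4)
  have m1 : u ≠ v := fun e => e5.1.ne_zero (e ▸ e4)
  have m2 : u ≠ w := fun e => e3.1.ne_zero (e ▸ e1)
  have m3 : v ≠ w := fun e => e3.1.ne_zero (e ▸ e2)
  obtain ⟨φ, hφ, d⟩ := h.normI h3.ge hb hc hu hv e4 e5 e7 e8
  have h' := h.aut φ hφ
  have hp := h'.full h3 _ hb _ hc _ ha _ hu _ hv _ hw n3 n1.symm n2.symm m1 m2 m3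
  rw [d.e11, d.e12, d.e21, d.e22] at hp
  have k3 := ((h'.nc h3.ge).fulI d ha hw hp).1
  obtain ⟨r1, r2⟩ := tt_num3 h3 ha hb hc n1 n2 n3
  obtain ⟨c1, c2⟩ := tt_num3 (h.card ▸ h3) hu hv hw m1 m2 m3
  refine ⟨φ, ttF a b c, ttF u v w, hφ, Or.inr rfl, h3, r1, c1, r2, c2, fun i hi j hj => ?_⟩
  interval_cases i <;> interval_cases j
  · exact tt_zero h φ hφ ha hu e1
  · exact tt_zero h φ hφ ha hv e2
  · exact k3
  · exact d.e11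
  · exact d.e12
  · exact tt_one h φ hφ hb hw e6
  · exact d.e21
  · exact d.e22
  · exact tt_one h φ hφ hc hw e9

theorem CM.canon (h : CM R C Y) : ∃ φ d x y, Canon R C Y φ d x y := by
  have h1 := h.two
  have h2 := h.le_three
  obtain h3 | h3 : R.ncard = 2 ∨ R.ncard = 3 := by omega
  · obtain ⟨φ, x, y, h4⟩ := h.canon2 h3
    exact ⟨φ, 2, x, y, h4⟩
  · obtain ⟨φ, x, y, h4⟩ := h.canon3 h3
    exact ⟨φ, 3, x, y, h4⟩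

end Pool.Agent.Lib.MP_10bdcf_co.G
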