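import Pool.Agent.Lib.MP_10bdcf_co.TK
import Pool.Agent.Lib.MP_10bdcf_co.TK2
import Pool.Agent.Lib.MP_10bdcf_co.TK3
import Pool.Agent.Lib.MP_10bdcf_co.TT

/-!
There is no core, so the sets that span one point of a triangle are linked.
-/

namespace Pool.Agent.Lib.MP_10bdcf_co.G

open scoped Matroid
open Set

set_option linter.unusedSectionVars false

variable {E : Type} [Fintype E] {M : Matroid E} {T : Set E → Matrix E E R0} {Z1 Z2 : Set E}
  {e f g : E} {d k : ℕ} {s : Bool} {el : ℕ → E}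

theorem Sc.false (h : Sc M T e f g Z1 Z2 d k s el) : False := by
  obtain ⟨t, ht⟩ : ∃ t, chk d k s t [] = true := by
    rcases h.hd with rfl | rfl
    exacts [exists_ct2 k h.hk s, exists_ct3 k h.hk s]
  rw [h.not_chk t] at ht
  exact Bool.false_ne_true ht

theorem tl_map (h : CoreN M T e f g Z1 Z2) (φ : R0 ≃+* R0) (aut : ∀ z, InG (φ z) ↔ InG z) :
    CoreN M (fun B => (T B).map (φ : R0 →+* R0)) e f g Z1 Z2 :=
  ⟨h.tab.map (φ : R0 →+* R0) fun a ha => ⟨(aut a).2 ha, ((aut a).2 ha).ne_zero⟩, h.core,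
    fun B hB z => by simp only [Matrix.map_apply, h.sum B hB z, map_add],
    fun x hx => by simp only [Matrix.map_apply, h.col x hx, map_one],
    fun y hy => by simp only [Matrix.map_apply, h.row y hy, map_one]⟩

theorem tl_norm (h : CoreN M T e f g Z1 Z2) : ∃ T', CoreN M T' e f g Z1 Z2 ∧
    (∀ x ∈ Z1 \ Z2, ∀ y ∈ Z2 \ Z1, T' (insert f Z1) x y = T (insert f Z1) x y) ∧
    (∀ z ∈ Z1, z ∈ Z2 → (∃ y ∈ insert g (Z2 \ Z1), Adj M (insert f Z1) z y) →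
      T' (insert f Z1) z g = 1 ∨
        (T' (insert f Z1) z g = 0 ∧ ∃ y ∈ Z2 \ Z1, T' (insert f Z1) z y = 1)) ∧
    (∀ z ∈ M.E \ {e, f, g}, z ∉ Z1 → z ∉ Z2 → (∃ x ∈ insert f (Z1 \ Z2), Adj M (insert f Z1) x z) →
      T' (insert f Z1) f z = 1 ∨
        (T' (insert f Z1) f z = 0 ∧ ∃ x ∈ Z1 \ Z2, T' (insert f Z1) x z = 1)) := by
  have hB := h.core.left.base
  have key : ∀ z, ∃ s, InG s ∧ (z ∉ M.E \ {e, f, g} ∨ ¬ (z ∈ Z1 ↔ z ∈ Z2) → s = 1) ∧
      (z ∈ Z1 → z ∈ Z2 → (∃ y ∈ insert g (Z2 \ Z1), Adj M (insert f Z1) z y) →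
        T (insert f Z1) z g = s ∨
          (T (insert f Z1) z g = 0 ∧ ∃ y ∈ Z2 \ Z1, T (insert f Z1) z y = s)) ∧
      (z ∈ M.E \ {e, f, g} → z ∉ Z1 → z ∉ Z2 →
        (∃ x ∈ insert f (Z1 \ Z2), Adj M (insert f Z1) x z) → T (insert f Z1) f z * s = 1 ∨
          (T (insert f Z1) f z = 0 ∧ ∃ x ∈ Z1 \ Z2, T (insert f Z1) x z * s = 1)) := fun z => by
    by_cases c1 : z ∈ Z1 ∧ z ∈ Z2 ∧ ∃ y ∈ insert g (Z2 \ Z1), Adj M (insert f Z1) z y
    · obtain ⟨a1, a2, y, a3, a4⟩ := c1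
      have a5 : ¬ (z ∉ M.E \ {e, f, g} ∨ ¬ (z ∈ Z1 ↔ z ∈ Z2)) :=
        fun c => c.elim (fun c => c (h.core.left.sub a1)) fun c => c (iff_of_true a1 a2)
      rcases h.tab.inP hB z g with c | c
      · exact ⟨_, h.tab.prop hB a4, fun c => absurd c a5, fun _ _ _ => Or.inr ⟨c, y,
          a3.resolve_left fun b => h.tab.ne_zero hB a4 (b ▸ c), rfl⟩, fun _ b => absurd a1 b⟩
      · exact ⟨_, c, fun c => absurd c a5, fun _ _ _ => Or.inl rfl, fun _ b => absurd a1 b⟩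
    by_cases c2 : z ∈ M.E \ {e, f, g} ∧ z ∉ Z1 ∧ z ∉ Z2 ∧
        ∃ x ∈ insert f (Z1 \ Z2), Adj M (insert f Z1) x z
    · obtain ⟨a0, a1, a2, x, a3, a4⟩ := c2
      have a5 : ¬ (z ∉ M.E \ {e, f, g} ∨ ¬ (z ∈ Z1 ↔ z ∈ Z2)) :=
        fun c => c.elim (fun c => c a0) fun c => c (iff_of_false a1 a2)
      rcases h.tab.inP hB f z with c | c
      · obtain ⟨b, b1, b2⟩ := (h.tab.prop hB a4).exists_inv
        exact ⟨b, b1, fun c => absurd c a5, fun b => absurd b a1, fun _ _ _ _ => Or.inr ⟨c, x,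
          a3.resolve_left fun b => h.tab.ne_zero hB a4 (b ▸ c), b2⟩⟩
      · obtain ⟨b, b1, b2⟩ := c.exists_inv
        exact ⟨b, b1, fun c => absurd c a5, fun b => absurd b a1, fun _ _ _ _ => Or.inl b2⟩
    · exact ⟨1, InG.one, fun _ => rfl, fun a b c => absurd ⟨a, b, c⟩ c1,
        fun a b c d => absurd ⟨a, b, c, d⟩ c2⟩
  choose σ s0 s1 s2 s3 using key
  choose τ _ hτ using fun z => (s0 z).exists_inv
  have t1 : ∀ z, σ z = 1 → τ z = 1 := fun z a => by rw [← hτ z, a, one_mul]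
  have se : σ e = 1 := s1 e (Or.inl fun c => c.2 (by simp))
  have sf : σ f = 1 := s1 f (Or.inl fun c => c.2 (by simp))
  have sg : σ g = 1 := s1 g (Or.inl fun c => c.2 (by simp))
  have sx : ∀ x ∈ Z1 \ Z2, σ x = 1 := fun x hx => s1 x (Or.inr fun c => hx.2 (c.1 hx.1))
  have sy : ∀ y ∈ Z2 \ Z1, σ y = 1 := fun y hy => s1 y (Or.inr fun c => hy.2 (c.2 hy.1))
  refine ⟨_, ⟨h.tab.rescale σ τ s0 hτ, h.core, fun B hB z => ?_, fun x hx => ?_, fun y hy => ?_⟩,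
    fun x hx y hy => ?_, fun z a1 a2 a3 => ?_, fun z a0 a1 a2 a3 => ?_⟩ <;>
    simp only [Matrix.of_apply]
  · rw [se, sf, sg, h.sum B hB]
    ring
  · rw [se, t1 x (sx x hx), h.col x hx, mul_one, mul_one]
  · rw [t1 f sf, sy y hy, h.row y hy, mul_one, mul_one]
  · rw [t1 x (sx x hx), sy y hy, mul_one, one_mul]
  · refine (s2 z a1 a2 a3).imp (fun c => ?_) fun ⟨c, y, c1, c2⟩ => ⟨?_, y, c1, ?_⟩
    · rw [c, sg, mul_one, mul_comm, hτ]
    · rw [c, mul_zero, zero_mul]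
    · rw [c2, sy y c1, mul_one, mul_comm, hτ]
  · refine (s3 z a0 a1 a2 a3).imp (fun c => ?_) fun ⟨c, x, c1, c2⟩ => ⟨?_, x, c1, ?_⟩
    · rw [t1 f sf, one_mul, c]
    · rw [c, mul_zero, zero_mul]
    · rw [t1 x (sx x c1), one_mul, c2]

theorem tl_inQ (d k l : ℕ) :
    inQ d k l = true ↔ l < d ∨ (3 ≤ l ∧ l < 3 + d) ∨ (9 ≤ l ∧ l < 9 + k) := by
  simp only [inQ, Bool.or_eq_true, Bool.and_eq_true, Nat.blt_eq, Nat.ble_eq, or_assoc]

theorem tl_kpos (d k l : ℕ) :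
    kpos d k l = if 9 ≤ l then l - 8 else if l + 1 = d ∨ l = 3 then 0 else k + 1 := by
  simp only [kpos, Bool.cond_eq_ite, Bool.or_eq_true, Nat.ble_eq, Nat.beq_eq]

theorem tl_isRow (s : Bool) (l : ℕ) : isRow s l = true ↔
    if l < 9 then l < 3 ∨ l = 7 else if s = true then l % 2 = 1 else l % 2 = 0 := by
  simp only [isRow, Bool.cond_eq_ite, Nat.blt_eq]
  split_ifs <;> simp only [Bool.or_eq_true, Nat.blt_eq, Nat.beq_eq]

theorem tl_isRow' (s : Bool) (l : ℕ) : isRow' s l = true ↔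
    if l < 6 then 3 ≤ l else isRow s l = true := by
  simp only [isRow', Bool.cond_eq_ite, Nat.blt_eq]
  split_ifs <;> simp only [Nat.ble_eq]

/-- The labelling. -/
def tlEl (x y v : ℕ → E) (e f g : E) (l : ℕ) : E :=
  if l < 3 then x l else if l < 6 then y (l - 3) else if l = 6 then e else if l = 7 then f
  else if l = 8 then g else v (l - 8)

theorem Core.exists_sc (h : Core M e f g Z1 Z2) (hT : U2 M T) (hc : Con3 (M ＼ {e})) :
    ∃ T' W1 W2 d k s el, Sc M T' e f g W1 W2 d k s el := by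
  classical
  obtain ⟨T0, h0⟩ := h.exists_coreN hT
  obtain ⟨φ, d, x, y, hC⟩ := h0.cm.canon
  have h1 := tl_map h0 φ hC.aut
  have d2 : 2 ≤ d ∧ d ≤ 3 := by rcases hC.hd with a | a <;> omega
  have hx : ∀ i < d, x i ∈ Z1 \ Z2 := fun i hi => (hC.rows _).2 ⟨i, hi, rfl⟩
  have hy : ∀ i < d, y i ∈ Z2 \ Z1 := fun i hi => (hC.cols _).2 ⟨i, hi, rfl⟩
  have xy : ∀ i < d, ∀ j < d, x i ≠ y j := fun i hi j hj a => (hy j hj).2 (a ▸ (hx i hi).1)
  obtain ⟨A, hA⟩ : ∃ A : Set E, A = {x (d - 1), y 0} := ⟨_, rfl⟩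
  obtain ⟨B, hB⟩ : ∃ B : Set E, B = ((Z1 \ Z2) ∪ (Z2 \ Z1)) \ A := ⟨_, rfl⟩
  have sA : A ⊆ (Z1 \ Z2) ∪ (Z2 \ Z1) := hA ▸ insert_subset (Or.inl (hx _ (by omega)))
    (singleton_subset_iff.2 (Or.inr (hy _ (by omega))))
  have hAB : A ∪ B = (Z1 \ Z2) ∪ (Z2 \ Z1) := hB ▸ union_sdiff_cancel sA
  have hd : Disjoint A B := hB ▸ disjoint_sdiff_right
  have xA : ∀ i < d, x i ∈ A ↔ i + 1 = d := fun i hi => by
    rw [hA]
    refine ⟨fun a => a.elim (fun a => ?_) fun a => absurd a (xy i hi 0 (by omega)),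
      fun a => Or.inl (by rw [← a]; rfl)⟩
    have := hC.injx i hi _ (by omega) a
    omega
  have yA : ∀ i < d, y i ∈ A ↔ i = 0 := fun i hi => by
    rw [hA]
    exact ⟨fun a => a.elim (fun a => absurd a.symm (xy _ (by omega) i hi))
      fun a => hC.injy i hi 0 (by omega) a, fun a => Or.inr (by rw [a]; rfl)⟩
  obtain ⟨W1, W2, v, p, hW, eX, eY, hE, hG⟩ := h.exists_geo h1.tab hc h1.sum hAB hd
    ⟨_, (xA (d - 1) (by omega)).2 (by omega)⟩
    ⟨x 0, hB ▸ ⟨Or.inl (hx 0 (by omega)), fun a => by have := (xA 0 (by omega)).1 a; omega⟩⟩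
  have h2 : CoreN M _ e f g W1 W2 := ⟨h1.tab, hW, h1.sum,
    fun z hz => (hE z (Or.inr (eX ▸ hz)) e (Or.inl rfl)).trans (h1.col z (eX ▸ hz)),
    fun z hz => (hE f (Or.inl rfl) z (Or.inr (eY ▸ hz))).trans (h1.row z (eY ▸ hz))⟩
  obtain ⟨T2, h3, n1, n2, n3⟩ := tl_norm h2
  have p0 : 0 < p := Nat.pos_of_ne_zero fun a => disjoint_left.1 hd hG.start (a ▸ hG.stop)
  obtain ⟨k, k1, k2, k3⟩ : ∃ k, k ≤ 4 ∧ k < p ∧ (k < 4 → p = k + 1) :=
    ⟨min 4 (p - 1), by omega, by omega, by omega⟩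
  obtain ⟨s, hs⟩ : ∃ s : Bool, (s = true ↔ v 1 ∈ W1) := ⟨decide (v 1 ∈ W1), by simp⟩
  obtain ⟨el, hel⟩ : ∃ el, el = tlEl x y v e f g := ⟨_, rfl⟩
  have l1 : ∀ i < d, el i = x i := fun i hi => by rw [hel, tlEl, if_pos (by omega)]
  have l2 : ∀ i < d, el (3 + i) = y i := fun i hi => by
    rw [hel, tlEl, if_neg (by omega), if_pos (by omega), Nat.add_sub_cancel_left]
  have l3 : ∀ i, el (9 + i) = v (i + 1) := fun i => by
    rw [hel, tlEl, if_neg (by omega), if_neg (by omega), if_neg (by omega), if_neg (by omega),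
      if_neg (by omega), show 9 + i - 8 = i + 1 by omega]
  have cs : ∀ l, inQ d k l = true → l < d ∨ (∃ i < d, l = 3 + i) ∨ ∃ i < k, l = 9 + i :=
    fun l hl => ((tl_inQ d k l).1 hl).imp id (Or.imp (fun a => ⟨l - 3, by omega, by omega⟩)
      fun a => ⟨l - 9, by omega, by omega⟩)
  rw [← eX] at hx
  rw [← eY] at hy
  have vo : ∀ i < k, v (i + 1) ∉ (W1 \ W2) ∪ (W2 \ W1) := fun i hi => by
    rw [eX, eY, ← hAB]
    exact hG.out _ (by omega) (by omega)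
  have vb : ∀ i < k, (v (i + 1) ∈ W1 ↔ v (i + 1) ∈ W2) := fun i hi =>
    ⟨fun a => by_contra fun b => vo i hi (Or.inl ⟨a, b⟩),
      fun a => by_contra fun b => vo i hi (Or.inr ⟨a, b⟩)⟩
  have vr : ∀ i < k, (v (i + 1) ∈ W1 ↔ isRow s (9 + i) = true) := fun i hi => by
    induction i with
    | zero => rw [← hs, tl_isRow]; cases s <;> simp
    | succ i ih =>
      rw [(hG.arc (i + 1) (by omega)).mem_iff, ih (by omega), tl_isRow, tl_isRow,
        if_neg (by omega), if_neg (show ¬ 9 + (i + 1) < 9 by omega)]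
      split_ifs <;> omega
  have cl : ∀ l, inQ d k l = true → (kpos d k l = 0 ∧ el l ∈ A) ∨ (kpos d k l = k + 1 ∧ el l ∈ B) ∨
      (kpos d k l ≤ k ∧ el l = v (kpos d k l)) := fun l hl => by
    rw [tl_kpos]
    rcases cs l hl with a | ⟨i, a, rfl⟩ | ⟨i, a, rfl⟩
    · rw [if_neg (by omega), l1 l a]
      by_cases c : l + 1 = d
      · exact Or.inl ⟨if_pos (Or.inl c), (xA l a).2 c⟩
      · exact Or.inr (Or.inl ⟨if_neg (by omega), hB ▸ ⟨Or.inl (eX ▸ hx l a), mt (xA l a).1 c⟩⟩)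
    · rw [if_neg (by omega), l2 i a]
      by_cases c : i = 0
      · exact Or.inl ⟨if_pos (by omega), (yA i a).2 c⟩
      · exact Or.inr (Or.inl ⟨if_neg (by omega), hB ▸ ⟨Or.inr (eY ▸ hy i a), mt (yA i a).1 c⟩⟩)
    · rw [if_pos (by omega), l3, show 9 + i - 8 = i + 1 by omega]
      exact Or.inr (Or.inr ⟨a, rfl⟩)
  have lab : ∀ z ∈ (Z1 \ Z2) ∪ (Z2 \ Z1), ∃ l < 6, inQ d k l = true ∧ el l = z := fun z hz => by
    rcases hz with hz | hz
    · obtain ⟨i, a, rfl⟩ := (hC.rows z).1 hz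
      exact ⟨i, by omega, (tl_inQ d k i).2 (Or.inl a), l1 i a⟩
    · obtain ⟨i, a, rfl⟩ := (hC.cols z).1 hz
      exact ⟨3 + i, by omega, (tl_inQ d k _).2 (by omega), l2 i a⟩
  have lab' : ∀ z ∈ A ∪ B, ∃ l, inQ d k l = true ∧ el l = z ∧ (z ∈ A → kpos d k l = 0) ∧
      (z ∈ B → kpos d k l = k + 1) := fun z hz => by
    obtain ⟨l, a1, a2, rfl⟩ := lab z (hAB ▸ hz)
    have a3 := tl_kpos d k l
    rw [if_neg (by omega)] at a3
    refine ⟨l, a2, rfl, ?_⟩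
    rcases cl l a2 with a | a | a
    · exact ⟨fun _ => a.1, fun b => (disjoint_left.1 hd a.2 b).elim⟩
    · exact ⟨fun b => (disjoint_left.1 hd b a.2).elim, fun _ => a.1⟩
    · have a4 : kpos d k l = 0 := by split_ifs at a3 <;> omega
      exact ⟨fun _ => a4, fun b => (disjoint_left.1 hd hG.start (a4 ▸ a.2 ▸ b)).elim⟩
  have pth : ∀ i < k, inQ d k (9 + i) = true ∧ kpos d k (9 + i) = i + 1 := fun i hi =>
    ⟨(tl_inQ d k _).2 (by omega), by rw [tl_kpos, if_pos (by omega)]; omega⟩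
  have r1 : ∀ l, inQ d k l = true → (el l ∈ W1 ↔ isRow s l = true) := fun l hl => by
    rcases cs l hl with a | ⟨i, a, rfl⟩ | ⟨i, a, rfl⟩
    · rw [l1 l a, tl_isRow, if_pos (by omega)]
      exact iff_of_true (hx l a).1 (by omega)
    · rw [l2 i a, tl_isRow, if_pos (by omega)]
      exact iff_of_false (hy i a).2 (by omega)
    · rw [l3, vr i a]
  refine ⟨T2, W1, W2, d, k, s, el, h3, eX ▸ hC.card, hC.hd, k1, by simp [hel, tlEl],
    by simp [hel, tlEl], by simp [hel, tlEl], fun i j hi hj a => ?_, fun l hl => ?_, r1,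
    fun l hl => ?_, fun z hz => ?_, fun i hi j hj => ?_, fun u w hu hw a => ?_, fun i hi => ?_,
    fun l a1 a2 a3 => ?_, fun l a1 a2 a3 => ?_⟩
  · rcases cs i hi with b | ⟨i, b, rfl⟩ | ⟨i, b, rfl⟩ <;>
      rcases cs j hj with c | ⟨j, c, rfl⟩ | ⟨j, c, rfl⟩
    · exact hC.injx i b j c (by rwa [l1 i b, l1 j c] at a)
    · exact absurd (by rwa [l1 i b, l2 j c] at a) (xy i b j c)
    · rw [l1 i b, l3] at a
      exact absurd (Or.inl (a ▸ hx i b)) (vo j c)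
    · exact absurd (by rw [l2 i b, l1 j c] at a; exact a.symm) (xy j c i b)
    · rw [hC.injy i b j c (by rwa [l2 i b, l2 j c] at a)]
    · rw [l2 i b, l3] at a
      exact absurd (Or.inr (a ▸ hy i b)) (vo j c)
    · rw [l1 j c, l3] at a
      exact absurd (Or.inl (a ▸ hx j c)) (vo i b)
    · rw [l2 j c, l3] at a
      exact absurd (Or.inr (a ▸ hy j c)) (vo i b)
    · rw [l3, l3] at a
      rcases lt_trichotomy i j with t | t | t
      · exact absurd a (hG.inj _ _ (by omega) (by omega) (by omega))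
      · rw [t]
      · exact absurd a.symm (hG.inj _ _ (by omega) (by omega) (by omega))
  · rcases cs l hl with a | ⟨i, a, rfl⟩ | ⟨i, a, rfl⟩
    · exact l1 l a ▸ hW.left.sub (hx l a).1
    · exact l2 i a ▸ hW.right.sub (hy i a).1
    · exact l3 i ▸ (hG.arc i (by omega)).2.1
  · rw [tl_isRow']
    rcases cs l hl with a | ⟨i, a, rfl⟩ | ⟨i, a, rfl⟩
    · rw [l1 l a, if_pos (by omega)]
      exact iff_of_false (hx l a).2 (by omega)
    · rw [l2 i a, if_pos (by omega)]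
      exact iff_of_true (hy i a).1 (by omega)
    · rw [l3, if_neg (by omega), ← vb i a, vr i a]
  · have : z ∉ (W1 \ W2) ∪ (W2 \ W1) := fun a => by
      rw [eX, eY] at a
      obtain ⟨l, -, b, c⟩ := lab z a
      exact hz l b c.symm
    exact ⟨fun a => by_contra fun b => this (Or.inl ⟨a, b⟩),
      fun a => by_contra fun b => this (Or.inr ⟨a, b⟩)⟩
  · rw [l1 i hi, l2 j hj, n1 _ (hx i hi) _ (hy j hj),
      hE _ (Or.inr (eX ▸ hx i hi)) _ (Or.inr (eY ▸ hy j hj))]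
    exact hC.ent i hi j hj
  · have b : el u = v (kpos d k u) ∨ (kpos d k u = 0 ∧ el u ∈ A) := by
      have := cl w hw
      rcases cl u hu with c | c | c
      exacts [Or.inr c, by omega, Or.inl c.2]
    rcases cl w hw with c | c | c
    · omega
    · exact hG.ns _ p (by omega) le_rfl _ _ b (Or.inr ⟨rfl, c.2⟩)
    · exact hG.ns _ _ a (by omega) _ _ b (Or.inl c.2)
  · obtain ⟨u, u1, u2, u3⟩ : ∃ u, inQ d k u = true ∧ kpos d k u = i ∧ el u = v i := by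
      rcases i with _ | i
      · obtain ⟨l, b1, b2, b3, -⟩ := lab' _ (Or.inl hG.start)
        exact ⟨l, b1, b3 hG.start, b2⟩
      · exact ⟨9 + i, (pth i (by omega)).1, (pth i (by omega)).2, l3 i⟩
    obtain ⟨w, w1, w2, w3⟩ : ∃ w, inQ d k w = true ∧ kpos d k w = i + 1 ∧ el w = v (i + 1) := by
      rcases hi with hi | ⟨rfl, hi⟩
      · exact ⟨9 + i, (pth i hi).1, (pth i hi).2, l3 i⟩
      · obtain ⟨l, b1, b2, -, b3⟩ := lab' _ (Or.inr hG.stop)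
        exact ⟨l, b1, b3 hG.stop, k3 hi ▸ b2⟩
    exact ⟨u, w, u1, w1, u2, w2, u3 ▸ w3 ▸ hG.arc i (by omega)⟩
  · obtain ⟨i, rfl⟩ : ∃ i, l = 9 + i := ⟨l - 9, by omega⟩
    have b1 := (vr i (by omega)).2 a3
    rw [l3]
    refine (n2 _ b1 ((vb i (by omega)).1 b1) (eY ▸ hG.row _ (by omega) (by omega) b1)).imp id
      fun ⟨c, z, c1, c2⟩ => ⟨c, ?_⟩
    obtain ⟨j, c3, rfl⟩ := (hC.cols z).1 (eY ▸ c1)
    exact ⟨j, c3, l2 j c3 ▸ c2⟩
  · obtain ⟨i, rfl⟩ : ∃ i, l = 9 + i := ⟨l - 9, by omega⟩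
    have b1 : v (i + 1) ∉ W1 := fun b => by
      rw [(vr i (by omega)).1 b] at a3
      exact Bool.noConfusion a3
    rw [l3]
    refine (n3 _ (hG.arc i (by omega)).2.1 b1 (mt (vb i (by omega)).2 b1)
      (eX ▸ hG.col _ (by omega) (by omega) b1)).imp id fun ⟨c, z, c1, c2⟩ => ⟨c, ?_⟩
    obtain ⟨j, c3, rfl⟩ := (hC.rows z).1 (eX ▸ c1)
    exact ⟨j, c3, l1 j c3 ▸ c2⟩

theorem tlemma (hT : U2 M T) (ht : Tri M e f g) (hc : Con3 (M ＼ {e}))
    (hr : rk M (M.E \ {e, f, g}) = rk M M.E) : XLinked M e f g :=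
  xLinked_of_noCore hr ht fun _ _ h =>
    let ⟨_, _, _, _, _, _, _, h'⟩ := h.exists_sc hT hc
    h'.false

end Pool.Agent.Lib.MP_10bdcf_co.G
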