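import Pool.Agent.Lib.MP_10bdcf_co.UP
import Pool.Agent.Lib.MP_10bdcf_co.TY

/-!
Arithmetic modulo the proxy prime and the local tests on small blocks.
-/

namespace Pool.Agent.Lib.MP_10bdcf_co.G

open Set

/-- Product modulo the prime. -/
def mlm (a b : ℕ) : ℕ := a * b % 1000003

/-- Difference modulo the prime. -/
def sbm (a b : ℕ) : ℕ := (a + 1000002 * b) % 1000003

theorem mlm_cast (a b : ℕ) : ((mlm a b : ℕ) : Fp) = a * b := by
  simp [mlm]

theorem sbm_cast (a b : ℕ) : ((sbm a b : ℕ) : Fp) = a - b := by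
  have h : ((1000002 : ℕ) : Fp) = -1 := by decide
  rw [sbm, ZMod.natCast_mod, Nat.cast_add, Nat.cast_mul, h]
  ring

theorem mlm_val (a b : Fp) : mlm a.val b.val = (a * b).val := (ZMod.val_mul a b).symm

theorem sbm_val (a b : Fp) : sbm a.val b.val = (a - b).val := by
  have h : ((sbm a.val b.val : ℕ) : Fp) = a - b := by simp [sbm_cast]
  rw [← h, ZMod.val_natCast, sbm, Nat.mod_mod]

/-- Evaluate the argument first. -/
def evN {β : Type} (n : ℕ) (F : ℕ → β) : β := Nat.rec (F 0) (fun m _ => F m.succ) n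

@[simp] theorem evN_eq {β : Type} (n : ℕ) (F : ℕ → β) : evN n F = F n := by cases n <;> rfl

/-- The test for a difference through the five values of the anharmonic invariant. -/
def okE (a b : ℕ) : Bool :=
  evN a fun a => evN b fun b => evN (a.mul b) fun c =>
    evN ((c.mul (a.add (Nat.mul 1000002 b))).pow 2) fun D =>
      evN ((((a.mul a).add (b.mul b)).add (Nat.mul 1000002 c)).pow 3) fun N =>
        (((((((D.mul (N.add (Nat.mul 979252 D))).mul (N.add (Nat.mul 910343 D))).mul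
          (N.add (Nat.mul 855709 D))).mul (N.add (Nat.mul 582472 D))).mul
            (N.add (Nat.mul 57072 D))).mod 1000003).beq 0)

theorem okE_aux : ∀ s ∈ pvL, ((s : Fp) * (s - 1)) ^ 2 * ((s * s + 1 - s) ^ 3 + 979252 * (s * (s - 1)) ^ 2) *
    ((s * s + 1 - s) ^ 3 + 910343 * (s * (s - 1)) ^ 2) *
    ((s * s + 1 - s) ^ 3 + 855709 * (s * (s - 1)) ^ 2) *
    ((s * s + 1 - s) ^ 3 + 582472 * (s * (s - 1)) ^ 2) *
    ((s * s + 1 - s) ^ 3 + 57072 * (s * (s - 1)) ^ 2) = 0 := by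
  decide +kernel

theorem okE_of_eq {a b : ℕ} (h : (b : Fp) = 0 ∨ ∃ s ∈ pvL, (s : Fp) * b = a) : okE a b = true := by
  have h1 : (1000002 : Fp) = -1 := by decide
  simp only [okE, evN_eq, Nat.beq_eq, Nat.mul_eq, Nat.add_eq, Nat.pow_eq]
  refine Nat.mod_eq_zero_of_dvd ((ZMod.natCast_eq_zero_iff _ _).1 ?_)
  push_cast
  rw [h1]
  rcases h with h | ⟨s, hs, h⟩
  · simp [h]
  · have h2 := okE_aux s hs
    have e1 : ((a : Fp) * b * (a + -1 * b)) ^ 2 = b ^ 6 * (s * (s - 1)) ^ 2 := by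
      rw [← h]; ring
    have e2 : ((a : Fp) * a + b * b + -1 * (a * b)) ^ 3 = b ^ 6 * (s * s + 1 - s) ^ 3 := by
      rw [← h]; ring
    rw [e1, e2]
    generalize ((s : Fp) * (s - 1)) ^ 2 = D at h2 ⊢
    generalize ((s : Fp) * s + 1 - s) ^ 3 = N at h2 ⊢
    generalize (b : Fp) ^ 6 = c
    linear_combination c ^ 6 * h2

/-- The value at the proxy point as a natural number. -/
noncomputable def tvl (z : R0) : ℕ := (x0 z).val

theorem okE_of {a b : R0} (ha : InP a) (hb : InP b) (hab : InP (a - b)) :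
    okE (tvl a) (tvl b) = true := by
  have h := okD_of ha hb hab
  simp only [okD, Bool.or_eq_true, beq_iff_eq, List.any_eq_true] at h
  refine okE_of_eq (h.imp (fun h => by rw [tvl, h, Nat.cast_zero]) fun ⟨s, hs, h⟩ => ⟨s, hs, ?_⟩)
  rw [tvl, tvl, ← h, ZMod.natCast_mod, Nat.cast_mul]

theorem tvl_zero : tvl 0 = 0 := by simp [tvl]

theorem tvl_one : tvl 1 = 1 := by simp [tvl, ZMod.val_one]

theorem tvl_a0 : tvl a0 = 123457 := by rw [tvl, up_a0]; rfl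

theorem tvl_b0 : tvl b0 = 765431 := by rw [tvl, up_b0]; rfl

theorem tvl_mul (a b : R0) : mlm (tvl a) (tvl b) = tvl (a * b) := by rw [tvl, tvl, mlm_val, tvl, map_mul]

theorem tvl_sub (a b : R0) : sbm (tvl a) (tvl b) = tvl (a - b) := by rw [tvl, tvl, sbm_val, tvl, map_sub]

theorem tvl_mem {z : R0} (h : InS z) : tvl z ∈ pvL := inS_x0 h

theorem tvl_inj {z z' : R0} (h : InS z) (h' : InS z') : tvl z = tvl z' ↔ z = z' :=
  ⟨fun he => inS_inj h h' (ZMod.val_injective _ he), fun he => he ▸ rfl⟩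

theorem vl_eq_zero {z : R0} (h : InP z) : tvl z = 0 ↔ z = 0 := by
  rw [tvl, ZMod.val_eq_zero, h.map_eq_zero]

theorem vl_eq_iff {z z' : R0} (h : InP (z - z')) : tvl z = tvl z' ↔ z = z' := by
  rw [← sub_eq_zero (a := z), ← h.map_eq_zero x0, map_sub, sub_eq_zero]
  exact (ZMod.val_injective _).eq_iff

/-- Determinant of order two. -/
def dt2 (p q r s : ℕ) : ℕ := sbm (mlm p s) (mlm q r)

/-- Determinant of order two after subtracting ones. -/
def dg2 (p q r s : ℕ) : ℕ := dt2 (sbm p 1) (sbm q 1) (sbm r 1) (sbm s 1)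

/-- The tests on a block with rows `p q`, `r s`. -/
def h22 (p q r s : ℕ) : Bool :=
  okE p q && okE r s && okE p r && okE q s && okE (mlm p s) (mlm q r) &&
    okE (mlm (sbm p 1) (sbm s 1)) (mlm (sbm q 1) (sbm r 1)) && okE (dg2 p q r s) (dt2 p q r s) &&
    okE (sbm q p) (sbm s r) && okE (sbm r p) (sbm s q)

/-- The tests on a proper block with rows `p q`, `r s`. -/
def g22 (p q r s : ℕ) : Bool :=
  h22 p q r s && (!(dg2 p q r s).beq (dt2 p q r s) || (dt2 p q r s).beq 0)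

/-- The test on a block with rows `p q`, `r s`, `u w`. -/
def t32 (p q r s u w : ℕ) : Bool := okE (mlm (sbm r p) (sbm w q)) (mlm (sbm s q) (sbm u p))

/-- Determinant of order three. -/
def dt3 (a b c d e f g h i : ℕ) : ℕ :=
  sbm (sbm (mlm a (dt2 e f h i)) (mlm b (dt2 d f g i))) (mlm c (dt2 e d h g))

/-- Determinant of order three after subtracting ones. -/
def dg3 (a b c d e f g h i : ℕ) : ℕ :=
  dt3 (sbm a 1) (sbm b 1) (sbm c 1) (sbm d 1) (sbm e 1) (sbm f 1) (sbm g 1) (sbm h 1) (sbm i 1)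

/-- The test on a block of order three. -/
def t33 (a b c d e f g h i : ℕ) : Bool := okE (dg3 a b c d e f g h i) (dt3 a b c d e f g h i)

/-- A proper block of order three. -/
def p33 (a b c d e f g h i : ℕ) : Bool :=
  !(dg3 a b c d e f g h i).beq (dt3 a b c d e f g h i) || (dt3 a b c d e f g h i).beq 0

/-- Tests for a new row `u w` below the rows `p q`, `r s`. -/
def g32 (p q r s u w : ℕ) : Bool := g22 p q u w && g22 r s u w && t32 p q r s u w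

/-- Tests for a new column in the rows `p r u`, `q s w`. -/
def g23 (p r u q s w : ℕ) : Bool := g22 p u q w && g22 r u s w && t32 p q r s u w

/-- Tests for the last entry of a block of order three. -/
def g33 (a b c d e f g h i : ℕ) : Bool :=
  g22 a c g i && g22 b c h i && g22 d f g i && g22 e f h i && t32 a c d f g i && t32 b c e f h i &&
    t32 a g b h c i && t32 d g e h f i && t33 a b c d e f g h i

/-- The pattern with rows `0 A 0`, `B 1 1`, `p p r`. -/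
def qq (a b c d e f g h i : ℕ) : Prop :=
  a = 0 ∧ c = 0 ∧ e = 1 ∧ f = 1 ∧ g = h ∧ 1 < b ∧ 1 < d ∧ 1 < g ∧ i ≠ g

instance (a b c d e f g h i : ℕ) : Decidable (qq a b c d e f g h i) := by
  unfold qq; infer_instance

variable {E : Type}

/-- The numerical shadow of a core with at least three rows. -/
structure NC (R C : Set E) (V : E → E → ℕ) : Prop where
  gg : GG R C V
  mem : ∀ x ∈ R, ∀ y ∈ C, V x y ∈ pvL
  s22 : ∀ x ∈ R, ∀ x' ∈ R, ∀ y ∈ C, ∀ y' ∈ C, g22 (V x y) (V x y') (V x' y) (V x' y') = true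
  s32 : ∀ x ∈ R, ∀ x' ∈ R, ∀ x'' ∈ R, ∀ y ∈ C, ∀ y' ∈ C,
    t32 (V x y) (V x y') (V x' y) (V x' y') (V x'' y) (V x'' y') = true
  s23 : ∀ x ∈ R, ∀ x' ∈ R, ∀ y ∈ C, ∀ y' ∈ C, ∀ y'' ∈ C,
    t32 (V x y) (V x' y) (V x y') (V x' y') (V x y'') (V x' y'') = true
  s33 : ∀ x ∈ R, ∀ x' ∈ R, ∀ x'' ∈ R, ∀ y ∈ C, ∀ y' ∈ C, ∀ y'' ∈ C,
    t33 (V x y) (V x y') (V x y'') (V x' y) (V x' y') (V x' y'') (V x'' y) (V x'' y')
      (V x'' y'') = true

/-- The numerical shadow of a core with at least four rows. -/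
structure N4 (R C : Set E) (V : E → E → ℕ) : Prop extends NC R C V where
  pr : ∀ x ∈ R, ∀ x' ∈ R, ∀ x'' ∈ R, ∀ y ∈ C, ∀ y' ∈ C, ∀ y'' ∈ C,
    p33 (V x y) (V x y') (V x y'') (V x' y) (V x' y') (V x' y'') (V x'' y) (V x'' y')
      (V x'' y'') = true
  bigR : 4 ≤ R.ncard
  bigC : 4 ≤ C.ncard

/-- The same without the pattern `qq` and its transpose. -/
structure N5 (R C : Set E) (V : E → E → ℕ) : Prop extends N4 R C V where
  nq : ∀ x ∈ R, ∀ x' ∈ R, ∀ x'' ∈ R, ∀ y ∈ C, ∀ y' ∈ C, ∀ y'' ∈ C,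
    ¬ qq (V x y) (V x y') (V x y'') (V x' y) (V x' y') (V x' y'') (V x'' y) (V x'' y') (V x'' y'')
  nt : ∀ x ∈ R, ∀ x' ∈ R, ∀ x'' ∈ R, ∀ y ∈ C, ∀ y' ∈ C, ∀ y'' ∈ C,
    ¬ qq (V x y) (V x' y) (V x'' y) (V x y') (V x' y') (V x'' y') (V x y'') (V x' y'') (V x'' y'')

/-- A block with given entries. -/
structure Sd (R C : Set E) (V : E → E → ℕ) (x1 x2 y1 y2 : E) (p q r s : ℕ) : Prop where
  a1 : x1 ∈ R
  a2 : x2 ∈ R
  b1 : y1 ∈ C
  b2 : y2 ∈ C
  e11 : V x1 y1 = p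
  e12 : V x1 y2 = q
  e21 : V x2 y1 = r
  e22 : V x2 y2 = s

variable {R C : Set E} {V : E → E → ℕ} {x1 x2 y1 y2 n m : E} {p q r s : ℕ}

theorem NC.g32 (h : NC R C V) (d : Sd R C V x1 x2 y1 y2 p q r s) (hn : n ∈ R) :
    g32 p q r s (V n y1) (V n y2) = true := by
  obtain ⟨a1, a2, b1, b2, rfl, rfl, rfl, rfl⟩ := d
  simp only [G.g32, Bool.and_eq_true]
  exact ⟨⟨h.s22 _ a1 _ hn _ b1 _ b2, h.s22 _ a2 _ hn _ b1 _ b2⟩, h.s32 _ a1 _ a2 _ hn _ b1 _ b2⟩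

theorem NC.g23 (h : NC R C V) (d : Sd R C V x1 x2 y1 y2 p q r s) (hm : m ∈ C) :
    g23 p q (V x1 m) r s (V x2 m) = true := by
  obtain ⟨a1, a2, b1, b2, rfl, rfl, rfl, rfl⟩ := d
  simp only [G.g23, Bool.and_eq_true]
  exact ⟨⟨h.s22 _ a1 _ a2 _ b1 _ hm, h.s22 _ a1 _ a2 _ b2 _ hm⟩, h.s23 _ a1 _ a2 _ b1 _ b2 _ hm⟩

theorem NC.g33 (h : NC R C V) (d : Sd R C V x1 x2 y1 y2 p q r s) (hn : n ∈ R) (hm : m ∈ C) :
    g33 p q (V x1 m) r s (V x2 m) (V n y1) (V n y2) (V n m) = true := by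
  obtain ⟨a1, a2, b1, b2, rfl, rfl, rfl, rfl⟩ := d
  simp only [G.g33, Bool.and_eq_true]
  exact ⟨⟨⟨⟨⟨⟨⟨⟨h.s22 _ a1 _ hn _ b1 _ hm, h.s22 _ a1 _ hn _ b2 _ hm⟩, h.s22 _ a2 _ hn _ b1 _ hm⟩,
    h.s22 _ a2 _ hn _ b2 _ hm⟩, h.s32 _ a1 _ a2 _ hn _ b1 _ hm⟩, h.s32 _ a1 _ a2 _ hn _ b2 _ hm⟩,
    h.s23 _ a1 _ hn _ b1 _ b2 _ hm⟩, h.s23 _ a2 _ hn _ b1 _ b2 _ hm⟩,
    h.s33 _ a1 _ a2 _ hn _ b1 _ b2 _ hm⟩

theorem N4.p33 (h : N4 R C V) (d : Sd R C V x1 x2 y1 y2 p q r s) (hn : n ∈ R) (hm : m ∈ C) :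
    p33 p q (V x1 m) r s (V x2 m) (V n y1) (V n y2) (V n m) = true := by
  obtain ⟨a1, a2, b1, b2, rfl, rfl, rfl, rfl⟩ := d
  exact h.pr _ a1 _ a2 _ hn _ b1 _ b2 _ hm

end Pool.Agent.Lib.MP_10bdcf_co.G
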