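import Pool.Agent.Lib.MP_10bdcf_co.TN

/-!
Finite tables for the local tests.
-/

namespace Pool.Agent.Lib.MP_10bdcf_co.G

theorem t6_aux : (pvL.all fun a => pvL.all fun b => a.beq b || !okE a b || pvL.all fun d =>
    a.beq d || b.beq d || !okE a d || !okE b d || !t33 a a b a d d b d b) = true := by
  decide +kernel

theorem t6_tab {a b d : ℕ} (ha : a ∈ pvL) (hb : b ∈ pvL) (hd : d ∈ pvL) (h1 : okE a b = true)
    (h2 : okE a d = true) (h3 : okE b d = true) (h4 : t33 a a b a d d b d b = true) :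
    a = b ∨ a = d ∨ b = d := by
  have := t6_aux
  simp only [List.all_eq_true, Bool.or_eq_true, Nat.beq_eq, Bool.not_eq_true'] at this
  rcases this a ha b hb with (h | h) | h
  · exact Or.inl h
  · simp [h] at h1
  · have := h d hd
    simp only [h2, h3, h4, Bool.true_eq_false, or_false] at this
    exact Or.inr this

theorem pc_aux : (pvL.all fun p => pvL.all fun q => p.beq q || !okE p q || pvL.all fun r =>
    p.beq r || !okE p r || (Nat.ble p 1 && Nat.blt 1 q && Nat.blt 1 r) || pvL.all fun s =>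
      r.beq s || q.beq s || !okE r s || !okE q s || !g22 p q r s ||
        (Nat.ble s 1 && Nat.blt 1 q && Nat.blt 1 r) || (Nat.ble q 1 && Nat.blt 1 p && Nat.blt 1 s) ||
        (Nat.ble r 1 && Nat.blt 1 p && Nat.blt 1 s)) = true := by
  decide +kernel

theorem pc_tab {p q r s : ℕ} (hp : p ∈ pvL) (hq : q ∈ pvL) (hr : r ∈ pvL) (hs : s ∈ pvL)
    (h : g22 p q r s = true) (n1 : p ≠ q) (n2 : r ≠ s) (n3 : p ≠ r) (n4 : q ≠ s) :
    (p ≤ 1 ∧ 1 < q ∧ 1 < r) ∨ (s ≤ 1 ∧ 1 < q ∧ 1 < r) ∨ (q ≤ 1 ∧ 1 < p ∧ 1 < s) ∨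
      (r ≤ 1 ∧ 1 < p ∧ 1 < s) := by
  have h' := h
  simp only [g22, h22, Bool.and_eq_true] at h'
  obtain ⟨⟨⟨⟨⟨⟨⟨⟨⟨o1, o2⟩, o3⟩, o4⟩, -⟩, -⟩, -⟩, -⟩, -⟩, -⟩ := h'
  have := pc_aux
  simp only [List.all_eq_true, Bool.or_eq_true, Nat.beq_eq, Bool.not_eq_true', Bool.and_eq_true,
    Nat.ble_eq, Nat.blt_eq] at this
  rcases this p hp q hq with (h1 | h1) | h1
  · exact absurd h1 n1
  · simp [h1] at o1
  rcases h1 r hr with ((h2 | h2) | h2) | h2
  · exact absurd h2 n3
  · simp [h2] at o3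
  · omega
  · have := h2 s hs
    simp only [o2, o4, h, Bool.true_eq_false, or_false] at this
    omega

theorem two_aux : (pvL.all fun p => pvL.all fun q => !okE p q || pvL.all fun r => !okE p r ||
    evN (sbm q (sbm p r)) fun s => !okE r s || !h22 p q r s || !pvL.contains s ||
      (dt2 p q r s).beq 0 || (p.beq 0 && s.beq 1) || (p.beq 1 && s.beq 0) ||
      (q.beq 0 && r.beq 1) || (q.beq 1 && r.beq 0)) = true := by
  decide +kernel

theorem two_tab {p q r s : ℕ} (hp : p ∈ pvL) (hq : q ∈ pvL) (hr : r ∈ pvL) (hs : s ∈ pvL)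
    (h : h22 p q r s = true) (he : s = sbm q (sbm p r)) (hd : dt2 p q r s ≠ 0) :
    (p = 0 ∧ s = 1) ∨ (p = 1 ∧ s = 0) ∨ (q = 0 ∧ r = 1) ∨ (q = 1 ∧ r = 0) := by
  have h' := h
  simp only [h22, Bool.and_eq_true] at h'
  obtain ⟨⟨⟨⟨⟨⟨⟨⟨o1, o2⟩, o3⟩, -⟩, -⟩, -⟩, -⟩, -⟩, -⟩ := h'
  have := two_aux
  simp only [List.all_eq_true, Bool.or_eq_true, Nat.beq_eq, Bool.not_eq_true', Bool.and_eq_true,
    evN_eq] at this
  rcases this p hp q hq with h1 | h1
  · simp [h1] at o1
  rcases h1 r hr with h2 | h2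
  · simp [h2] at o3
  · rw [← he, List.contains_iff_mem.2 hs, h, o2] at h2
    simp only [Bool.true_eq_false, false_or, hd] at h2
    omega

theorem bC_tab : ∀ r ∈ pvL, g22 0 123457 r 765431 = true → r ≠ 0 → r ≠ 765431 → r = 638297 := by
  decide +kernel

theorem bO_tab : ∀ r ∈ pvL, g22 0 123457 r 0 = true → r ≠ 0 → r = 414895 := by
  decide +kernel

/-- Row types. -/
def rowI : List (ℕ × ℕ) :=
  [(0, 0), (0, 1), (0, 123457), (1, 1), (234573, 1), (358591, 358591)]

/-- Column types. -/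
def colI : List (ℕ × ℕ) :=
  [(0, 0), (0, 1), (0, 234573), (1, 1), (123457, 1), (358591, 358591)]

/-- Row type, column type and entry. -/
def tabI : List (ℕ × ℕ × ℕ × ℕ × ℕ) :=
  [(0, 0, 0, 0, 0), (0, 0, 0, 1, 0), (0, 0, 0, 234573, 0), (0, 0, 1, 1, 0), (0, 0, 1, 1, 1),
   (0, 0, 123457, 1, 0), (0, 0, 123457, 1, 1), (0, 0, 123457, 1, 123457),
   (0, 0, 358591, 358591, 0), (0, 0, 358591, 358591, 358591), (0, 1, 0, 0, 0), (0, 1, 0, 1, 0),
   (0, 1, 0, 1, 1), (0, 1, 0, 234573, 0), (0, 1, 0, 234573, 1), (0, 1, 0, 234573, 234573),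
   (0, 1, 1, 1, 1), (0, 1, 123457, 1, 0), (0, 1, 123457, 1, 1), (0, 1, 123457, 1, 123457),
   (0, 1, 358591, 358591, 458018), (0, 1, 358591, 358591, 358591), (0, 123457, 0, 0, 0),
   (0, 123457, 0, 1, 0), (0, 123457, 0, 1, 1), (0, 123457, 0, 1, 123457),
   (0, 123457, 0, 234573, 0), (0, 123457, 1, 1, 0), (0, 123457, 1, 1, 1),
   (0, 123457, 1, 1, 123457), (0, 123457, 123457, 1, 0), (0, 123457, 123457, 1, 1),
   (0, 123457, 123457, 1, 123457), (0, 123457, 358591, 358591, 358591), (1, 1, 0, 0, 0),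
   (1, 1, 0, 0, 1), (1, 1, 0, 1, 1), (1, 1, 0, 234573, 0), (1, 1, 0, 234573, 1),
   (1, 1, 0, 234573, 234573), (1, 1, 1, 1, 1), (1, 1, 123457, 1, 1), (1, 1, 358591, 358591, 1),
   (1, 1, 358591, 358591, 358591), (234573, 1, 0, 0, 0), (234573, 1, 0, 0, 1),
   (234573, 1, 0, 0, 234573), (234573, 1, 0, 1, 0), (234573, 1, 0, 1, 1),
   (234573, 1, 0, 1, 234573), (234573, 1, 0, 234573, 0), (234573, 1, 0, 234573, 1),
   (234573, 1, 0, 234573, 234573), (234573, 1, 1, 1, 1), (234573, 1, 123457, 1, 1),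
   (234573, 1, 358591, 358591, 358591), (358591, 358591, 0, 0, 0),
   (358591, 358591, 0, 0, 358591), (358591, 358591, 0, 1, 606872),
   (358591, 358591, 0, 1, 358591), (358591, 358591, 0, 234573, 358591),
   (358591, 358591, 1, 1, 1), (358591, 358591, 1, 1, 358591),
   (358591, 358591, 123457, 1, 358591), (358591, 358591, 358591, 358591, 358591)]

/-- Row type, column type and entry of the blocks that are not proper. -/
def fulI : List (ℕ × ℕ × ℕ × ℕ × ℕ) :=
  [(0, 0, 1, 1, 641413), (0, 1, 0, 1, 641413), (1, 1, 0, 0, 641413)]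

theorem rowI_tab : ∀ u ∈ pvL, ∀ w ∈ pvL, g32 0 123457 234573 1 u w = true → (u, w) ∈ rowI := by
  decide +kernel

theorem colI_tab : ∀ u ∈ pvL, ∀ w ∈ pvL, g23 0 123457 u 234573 1 w = true → (u, w) ∈ colI := by
  decide +kernel

theorem tabI_tab : ∀ n ∈ rowI, ∀ m ∈ colI, ∀ z ∈ pvL,
    g33 0 123457 m.1 234573 1 m.2 n.1 n.2 z = true →
      (n.1, n.2, m.1, m.2, z) ∈
        bif p33 0 123457 m.1 234573 1 m.2 n.1 n.2 z then tabI else fulI := by
  decide +kernel

/-- Row types. -/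
def rowC : List (ℕ × ℕ) :=
  [(0, 0), (0, 765431), (0, 123457), (1, 1), (765431, 765431), (638297, 765431), (414895, 0)]

/-- Column types. -/
def colC : List (ℕ × ℕ) :=
  [(0, 0), (0, 765431), (0, 638297), (1, 1), (735958, 0), (765431, 765431), (123457, 765431)]

/-- Row type, column type and entry. -/
def tabC : List (ℕ × ℕ × ℕ × ℕ × ℕ) :=
  [(0, 0, 0, 0, 0), (0, 0, 0, 765431, 0), (0, 0, 0, 638297, 0), (0, 0, 0, 638297, 414895),
   (0, 0, 1, 1, 0), (0, 0, 1, 1, 1), (0, 0, 735958, 0, 0), (0, 0, 765431, 765431, 0),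
   (0, 0, 765431, 765431, 765431), (0, 0, 123457, 765431, 0), (0, 0, 123457, 765431, 765431),
   (0, 0, 123457, 765431, 123457), (0, 765431, 0, 0, 0), (0, 765431, 0, 765431, 0),
   (0, 765431, 0, 765431, 765431), (0, 765431, 0, 638297, 0), (0, 765431, 0, 638297, 765431),
   (0, 765431, 0, 638297, 638297), (0, 765431, 1, 1, 1), (0, 765431, 1, 1, 461561),
   (0, 765431, 735958, 0, 0), (0, 765431, 765431, 765431, 765431),
   (0, 765431, 123457, 765431, 0), (0, 765431, 123457, 765431, 765431),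
   (0, 765431, 123457, 765431, 123457), (0, 123457, 0, 0, 0), (0, 123457, 0, 0, 735958),
   (0, 123457, 0, 765431, 0), (0, 123457, 0, 765431, 765431), (0, 123457, 0, 765431, 123457),
   (0, 123457, 0, 638297, 0), (0, 123457, 1, 1, 1), (0, 123457, 735958, 0, 0),
   (0, 123457, 735958, 0, 735958), (0, 123457, 765431, 765431, 0),
   (0, 123457, 765431, 765431, 765431), (0, 123457, 765431, 765431, 123457),
   (0, 123457, 123457, 765431, 0), (0, 123457, 123457, 765431, 765431),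
   (0, 123457, 123457, 765431, 123457), (1, 1, 0, 0, 0), (1, 1, 0, 0, 1), (1, 1, 0, 765431, 1),
   (1, 1, 0, 765431, 641413), (1, 1, 0, 638297, 1), (1, 1, 1, 1, 1), (1, 1, 735958, 0, 1),
   (1, 1, 765431, 765431, 1), (1, 1, 765431, 765431, 765431), (1, 1, 123457, 765431, 1),
   (765431, 765431, 0, 0, 0), (765431, 765431, 0, 0, 765431),
   (765431, 765431, 0, 765431, 765431), (765431, 765431, 0, 638297, 0),
   (765431, 765431, 0, 638297, 765431), (765431, 765431, 0, 638297, 638297),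
   (765431, 765431, 1, 1, 1), (765431, 765431, 1, 1, 765431),
   (765431, 765431, 765431, 765431, 765431), (765431, 765431, 123457, 765431, 765431),
   (638297, 765431, 0, 0, 0), (638297, 765431, 0, 0, 765431), (638297, 765431, 0, 0, 638297),
   (638297, 765431, 0, 765431, 0), (638297, 765431, 0, 765431, 765431),
   (638297, 765431, 0, 765431, 638297), (638297, 765431, 0, 638297, 0),
   (638297, 765431, 0, 638297, 765431), (638297, 765431, 0, 638297, 638297),
   (638297, 765431, 1, 1, 1), (638297, 765431, 735958, 0, 0),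
   (638297, 765431, 765431, 765431, 765431), (638297, 765431, 123457, 765431, 765431),
   (414895, 0, 0, 0, 0), (414895, 0, 0, 765431, 0), (414895, 0, 0, 638297, 0),
   (414895, 0, 0, 638297, 414895), (414895, 0, 1, 1, 1), (414895, 0, 735958, 0, 772475),
   (414895, 0, 123457, 765431, 0)]

/-- Row type, column type and entry of the blocks that are not proper. -/
def fulC : List (ℕ × ℕ × ℕ × ℕ × ℕ) :=
  []

theorem rowC_tab : ∀ u ∈ pvL, ∀ w ∈ pvL, g32 0 123457 638297 765431 u w = true → (u, w) ∈ rowC := by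
  decide +kernel

theorem colC_tab : ∀ u ∈ pvL, ∀ w ∈ pvL, g23 0 123457 u 638297 765431 w = true → (u, w) ∈ colC := by
  decide +kernel

theorem tabC_tab : ∀ n ∈ rowC, ∀ m ∈ colC, ∀ z ∈ pvL,
    g33 0 123457 m.1 638297 765431 m.2 n.1 n.2 z = true →
      (n.1, n.2, m.1, m.2, z) ∈
        bif p33 0 123457 m.1 638297 765431 m.2 n.1 n.2 z then tabC else fulC := by
  decide +kernel

/-- Row types. -/
def rowO : List (ℕ × ℕ) :=
  [(0, 0), (0, 123457), (1, 1), (28008, 378183), (606872, 358591), (638297, 765431),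
   (772475, 735958), (414895, 0)]

/-- Column types. -/
def colO : List (ℕ × ℕ) :=
  [(0, 0), (0, 414895), (1, 1), (735958, 772475), (765431, 638297), (378183, 28008),
   (123457, 0), (358591, 606872)]

/-- Row type, column type and entry. -/
def tabO : List (ℕ × ℕ × ℕ × ℕ × ℕ) :=
  [(0, 0, 0, 0, 0), (0, 0, 0, 414895, 0), (0, 0, 0, 414895, 414895), (0, 0, 1, 1, 0),
   (0, 0, 1, 1, 1), (0, 0, 735958, 772475, 0), (0, 0, 735958, 772475, 735958),
   (0, 0, 735958, 772475, 772475), (0, 0, 765431, 638297, 0), (0, 0, 765431, 638297, 765431),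
   (0, 0, 765431, 638297, 638297), (0, 0, 378183, 28008, 0), (0, 0, 378183, 28008, 28008),
   (0, 0, 378183, 28008, 378183), (0, 0, 123457, 0, 0), (0, 0, 123457, 0, 123457),
   (0, 0, 358591, 606872, 0), (0, 0, 358591, 606872, 606872), (0, 0, 358591, 606872, 358591),
   (0, 123457, 0, 0, 0), (0, 123457, 0, 0, 123457), (0, 123457, 0, 414895, 0),
   (0, 123457, 1, 1, 1), (0, 123457, 735958, 772475, 735958),
   (0, 123457, 765431, 638297, 765431), (0, 123457, 378183, 28008, 378183),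
   (0, 123457, 123457, 0, 0), (0, 123457, 123457, 0, 123457),
   (0, 123457, 358591, 606872, 358591), (1, 1, 0, 0, 0), (1, 1, 0, 0, 1), (1, 1, 0, 414895, 1),
   (1, 1, 1, 1, 1), (1, 1, 735958, 772475, 1), (1, 1, 765431, 638297, 1),
   (1, 1, 378183, 28008, 1), (1, 1, 123457, 0, 1), (1, 1, 358591, 606872, 1),
   (28008, 378183, 0, 0, 0), (28008, 378183, 0, 0, 28008), (28008, 378183, 0, 0, 378183),
   (28008, 378183, 0, 414895, 28008), (28008, 378183, 1, 1, 1),
   (28008, 378183, 123457, 0, 378183), (28008, 378183, 358591, 606872, 0),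
   (606872, 358591, 0, 0, 0), (606872, 358591, 0, 0, 606872), (606872, 358591, 0, 0, 358591),
   (606872, 358591, 0, 414895, 606872), (606872, 358591, 1, 1, 1),
   (606872, 358591, 378183, 28008, 0), (606872, 358591, 123457, 0, 358591),
   (638297, 765431, 0, 0, 0), (638297, 765431, 0, 0, 765431), (638297, 765431, 0, 0, 638297),
   (638297, 765431, 0, 414895, 638297), (638297, 765431, 1, 1, 1),
   (638297, 765431, 735958, 772475, 0), (638297, 765431, 123457, 0, 765431),
   (772475, 735958, 0, 0, 0), (772475, 735958, 0, 0, 735958), (772475, 735958, 0, 0, 772475),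
   (772475, 735958, 0, 414895, 772475), (772475, 735958, 1, 1, 1),
   (772475, 735958, 765431, 638297, 0), (772475, 735958, 123457, 0, 735958),
   (414895, 0, 0, 0, 0), (414895, 0, 0, 0, 414895), (414895, 0, 0, 414895, 0),
   (414895, 0, 0, 414895, 414895), (414895, 0, 1, 1, 1), (414895, 0, 735958, 772475, 772475),
   (414895, 0, 765431, 638297, 638297), (414895, 0, 378183, 28008, 28008),
   (414895, 0, 123457, 0, 0), (414895, 0, 358591, 606872, 606872)]

/-- Row type, column type and entry of the blocks that are not proper. -/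
def fulO : List (ℕ × ℕ × ℕ × ℕ × ℕ) :=
  []

theorem rowO_tab : ∀ u ∈ pvL, ∀ w ∈ pvL, g32 0 123457 414895 0 u w = true → (u, w) ∈ rowO := by
  decide +kernel

theorem colO_tab : ∀ u ∈ pvL, ∀ w ∈ pvL, g23 0 123457 u 414895 0 w = true → (u, w) ∈ colO := by
  decide +kernel

theorem tabO_tab : ∀ n ∈ rowO, ∀ m ∈ colO, ∀ z ∈ pvL,
    g33 0 123457 m.1 414895 0 m.2 n.1 n.2 z = true →
      (n.1, n.2, m.1, m.2, z) ∈
        bif p33 0 123457 m.1 414895 0 m.2 n.1 n.2 z then tabO else fulO := by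
  decide +kernel

end Pool.Agent.Lib.MP_10bdcf_co.G
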