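import Pool.Agent.Lib.MP_10bdcf_co.TY

/-!
Three structural lemmas on colourings of a rectangle.
-/

namespace Pool.Agent.Lib.MP_10bdcf_co.G

open Set

variable {E α : Type} [Finite E] {R C : Set E} {Z : E → E → α}

/-- Lines that are constant off a special block do not exist. -/
theorem GG.special (hG : GG R C Z) (h6 : No6 R C Z) {SR SC : Set E} (hSR : SR ⊆ R) (hSC : SC ⊆ C)
    {x0 y0 : E} (hx : x0 ∈ R) (hx' : x0 ∉ SR) (hy : y0 ∈ C) (hy' : y0 ∉ SC) (K : α → Prop)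
    (h1 : ∀ n ∈ SR, ∀ m ∈ C, m ∉ SC → Z n m = Z n y0)
    (h2 : ∀ n ∈ R, n ∉ SR → ∀ m ∈ SC, Z n m = Z x0 m)
    (h3 : ∀ n ∈ SR, ∀ m ∈ SC, Z n m = Z n y0 ∨ Z n m = Z x0 m)
    (k1 : ∀ n ∈ SR, K (Z n y0)) (k2 : ∀ m ∈ SC, K (Z x0 m)) (k0 : ¬ K (Z x0 y0))
    (h4 : ∀ x ∈ R, ∀ x' ∈ R, ∀ y ∈ C, ∀ y' ∈ C, K (Z x y) → K (Z x y') → K (Z x' y) →
      K (Z x' y') → ¬ PC4 Z x x' y y') : SR = ∅ ∧ SC = ∅ := by
  have k3 : ∀ n ∈ insert x0 SR, ∀ m ∈ insert y0 SC, Z n m = Z n y0 ∨ Z n m = Z x0 m := by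
    rintro n (rfl | hn) m hm
    · exact .inr rfl
    · rcases hm with rfl | hm
      · exact .inl rfl
      · exact h3 n hn m hm
  have k4 : ∀ n ∈ insert x0 SR, ∀ m ∈ insert y0 SC, (n = x0 ∧ m = y0) ∨ K (Z n m) := by
    rintro n (rfl | hn) m (rfl | hm)
    · exact .inl ⟨rfl, rfl⟩
    · exact .inr (k2 m hm)
    · exact .inr (k1 n hn)
    · rcases h3 n hn m hm with e | e
      · exact .inr (e ▸ k1 n hn)
      · exact .inr (e ▸ k2 m hm)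
  have hR : insert x0 SR ⊆ R := insert_subset hx hSR
  have hC : insert y0 SC ⊆ C := insert_subset hy hSC
  have n4 : No4 (insert x0 SR) (insert y0 SC) Z := by
    intro x a x' a' y b y' b' p
    rcases k4 x a y b with ⟨rfl, rfl⟩ | e1
    · exact (k3 x' a' y' b').elim (fun e => p.2.1 e.symm) fun e => p.2.2.2 e.symm
    rcases k4 x a y' b' with ⟨rfl, rfl⟩ | e2
    · exact (k3 x' a' y b).elim p.2.1 fun e => p.2.2.1 e.symm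
    rcases k4 x' a' y b with ⟨rfl, rfl⟩ | e3
    · exact (k3 x a y' b').elim (fun e => p.1 e.symm) p.2.2.2
    rcases k4 x' a' y' b' with ⟨rfl, rfl⟩ | e4
    · exact (k3 x a y b).elim p.1 p.2.2.1
    exact h4 x (hR a) x' (hR a') y (hC b) y' (hC b') e1 e2 e3 e4 p
  have row : ∀ n ∈ SR, (∀ m ∈ SC, Z n m = Z n y0) → False := by
    intro n hn h
    obtain ⟨y, b, y', b', e⟩ := hG.r1 n (hSR hn)
    have : ∀ m ∈ C, Z n m = Z n y0 := fun m hm => (em (m ∈ SC)).elim (h m) (h1 n hn m hm)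
    exact e ((this y b).trans (this y' b').symm)
  have col : ∀ m ∈ SC, (∀ n ∈ SR, Z n m = Z x0 m) → False := by
    intro m hm h
    obtain ⟨x, a, x', a', e⟩ := hG.c1 m (hSC hm)
    have : ∀ n ∈ R, Z n m = Z x0 m := fun n hn =>
      (em (n ∈ SR)).elim (h n) fun hn' => h2 n hn hn' m hm
    exact e ((this x a).trans (this x' a').symm)
  simp only [eq_empty_iff_forall_notMem]
  rcases exists_const (insert_nonempty _ _) (insert_nonempty _ _) n4 (h6.mono hR hC) with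
    ⟨x, rfl | a, h⟩ | ⟨y, rfl | b, h⟩
  · have : ∀ m, m ∉ SC := fun m hm => k0 (h m (.inr hm) y0 (.inl rfl) ▸ k2 m hm)
    exact ⟨fun n hn => row n hn fun m hm => (this m hm).elim, this⟩
  · exact (row x a fun m hm => h m (.inr hm) y0 (.inl rfl)).elim
  · have : ∀ n, n ∉ SR := fun n hn => k0 (h n (.inr hn) x0 (.inl rfl) ▸ k1 n hn)
    exact ⟨this, fun m hm => col m hm fun n hn => (this n hn).elim⟩
  · exact (col y b fun n hn => h n (.inr hn) x0 (.inl rfl)).elim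

/-- The pair `a`, `b` is the pair `u`, `v` in some order. -/
def Pr (a b u v : α) : Prop := (a = u ∧ b = v) ∨ (a = v ∧ b = u)

/-- Four colours force two rows. -/
theorem GG.chain (hG : GG R C Z) (h6 : No6 R C Z) {x1 x2 y1 y2 : E} (a1 : x1 ∈ R) (a2 : x2 ∈ R)
    (b1 : y1 ∈ C) (b2 : y2 ∈ C) {c0 c1 A B : α} (n1 : c0 ≠ c1) (n2 : c0 ≠ A) (n3 : c0 ≠ B)
    (n4 : c1 ≠ A) (n5 : c1 ≠ B) (n6 : A ≠ B) (s1 : Z x1 y1 = c0) (s2 : Z x1 y2 = A)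
    (s3 : Z x2 y1 = B) (s4 : Z x2 y2 = c1)
    (hv : ∀ n ∈ R, ∀ m ∈ C, Z n m = c0 ∨ Z n m = c1 ∨ Z n m = A ∨ Z n m = B)
    (fA : ∀ n ∈ R, ∀ m ∈ C, Z n m = A → Z n y1 = c0 ∧ Z x2 m = c1 ∧ (Z n y2 = A ∨ Z x1 m = A))
    (fB : ∀ n ∈ R, ∀ m ∈ C, Z n m = B → Z n y2 = c1 ∧ Z x1 m = c0 ∧ (Z n y1 = B ∨ Z x2 m = B))
    (hr : ∀ n ∈ R, ∀ m ∈ C, ∀ m' ∈ C, Z x1 m = c0 → Z x1 m' = A → Z x2 m = B → Z x2 m' = c1 →
      Z n m = B → Z n m' = A → False)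
    (hc : ∀ n ∈ R, ∀ n' ∈ R, ∀ m ∈ C, Z n y1 = c0 → Z n y2 = A → Z n' y1 = B → Z n' y2 = c1 →
      Z n m = A → Z n' m = B → False)
    (h4 : ∀ x ∈ R, ∀ x' ∈ R, ∀ y ∈ C, ∀ y' ∈ C, PC4 Z x x' y y' →
      (Pr (Z x y) (Z x' y') A B ∧ Pr (Z x y') (Z x' y) c0 c1) ∨
        (Pr (Z x y) (Z x' y') c0 c1 ∧ Pr (Z x y') (Z x' y) A B)) : R.ncard ≤ 2 := by
  have rAB : ∀ n ∈ R, ∀ m ∈ C, ∀ m' ∈ C, Z n m = A → Z n m' ≠ B := by
    intro n hn m hm m' hm' eA eB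
    obtain ⟨f1, f2, f3⟩ := fA n hn m hm eA
    obtain ⟨g1, g2, g3⟩ := fB n hn m' hm' eB
    exact hr n hn m' hm' m hm g2 (f3.resolve_left fun e => n4 (g1.symm.trans e))
      (g3.resolve_left fun e => n3 (f1.symm.trans e)) f2 eB eA
  have cAB : ∀ n ∈ R, ∀ n' ∈ R, ∀ m ∈ C, Z n m = A → Z n' m ≠ B := by
    intro n hn n' hn' m hm eA eB
    obtain ⟨f1, f2, f3⟩ := fA n hn m hm eA
    obtain ⟨g1, g2, g3⟩ := fB n' hn' m hm eB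
    exact hc n hn n' hn' m hm f1 (f3.resolve_right fun e => n2 (g2.symm.trans e))
      (g3.resolve_right fun e => n5 (f2.symm.trans e)) g1 eA eB
  have anti : ∀ x ∈ R, ∀ x' ∈ R, ∀ y ∈ C, ∀ y' ∈ C, Z x y' = Z x' y → Z x y ≠ Z x y' →
      Z x' y' = Z x y' := by
    intro x a x' a' y b y' b' e e1
    by_contra e2
    have := h4 x a x' a' y b y' b' ⟨e1, fun h => e2 (h.symm.trans e.symm), e ▸ e1, Ne.symm e2⟩
    rw [← e] at this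
    rcases this with ⟨-, ⟨u, v⟩ | ⟨u, v⟩⟩ | ⟨-, ⟨u, v⟩ | ⟨u, v⟩⟩
    · exact n1 (u.symm.trans v)
    · exact n1 (v.symm.trans u)
    · exact n6 (u.symm.trans v)
    · exact n6 (v.symm.trans u)
  have cross : ∀ n ∈ R, ∀ m ∈ C, ∀ n' ∈ R, ∀ m' ∈ C, Z n m = A → Z n' m' = B → Z n' m = c1 := by
    intro n hn m hm n' hn' m' hm' eA eB
    have u1 : Z n m' ≠ A := fun e => cAB n hn n' hn' m' hm' e eB
    have u2 : Z n m' ≠ B := rAB n hn m hm m' hm' eA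
    have u3 : Z n' m ≠ A := fun e => rAB n' hn' m hm m' hm' e eB
    have u4 : Z n' m ≠ B := cAB n hn n' hn' m hm eA
    obtain ⟨-, -, f3⟩ := fA n hn m hm eA
    obtain ⟨g1, g2, -⟩ := fB n' hn' m' hm' eB
    rcases h4 n hn n' hn' m hm m' hm' ⟨eA ▸ u1.symm, eB ▸ u4, eA ▸ u3.symm, eB ▸ u2⟩ with
      ⟨-, ⟨-, v⟩ | ⟨u, v⟩⟩ | ⟨-, ⟨u, -⟩ | ⟨u, -⟩⟩
    · exact v
    · rcases f3 with f3 | f3
      · have := anti n hn n' hn' y2 b2 m' hm' (u.trans g1.symm) (by rw [f3, u]; exact n4.symm)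
        exact (n5 (u.symm.trans (this.symm.trans eB))).elim
      · have := anti x1 a1 n' hn' m hm m' hm' (g2.trans v.symm) (by rw [f3, g2]; exact n2.symm)
        exact (n3 (g2.symm.trans (this.symm.trans eB))).elim
    · exact (u1 u).elim
    · exact (u2 u).elim
  let R1 := {n ∈ R | ∃ m ∈ C, (∃ n0 ∈ R, Z n0 m = A) ∧ Z n m ≠ c1}
  let C2 := {m ∈ C | ∃ n ∈ R, (∃ m0 ∈ C, Z n m0 = A) ∧ Z n m ≠ c0}
  have inR : ∀ n ∈ R, ∀ m ∈ C, Z n m = A → n ∈ R1 := fun n hn m hm e =>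
    ⟨hn, m, hm, ⟨n, hn, e⟩, e ▸ n4.symm⟩
  have k0 : ∀ n ∈ R1, ∀ m ∈ C, m ∉ C2 → Z n m = c0 := by
    rintro n ⟨hn, m, hm, ⟨n0, hn0, e0⟩, e⟩ m' hm' h
    have w : ∀ x ∈ R, Z x m = A → Z x m' = c0 := fun x a u => by
      by_contra v
      exact h ⟨hm', x, a, ⟨m, hm, u⟩, v⟩
    rcases hv n hn m hm with u | u | u | u
    · have v := w n0 hn0 e0
      exact (anti n0 hn0 n hn m hm m' hm' (v.trans u.symm) (by rw [e0, v]; exact n2.symm)).trans v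
    · exact (e u).elim
    · exact w n hn u
    · exact (cAB n0 hn0 n hn m hm e0 u).elim
  have k1 : ∀ n ∈ R, n ∉ R1 → ∀ m ∈ C2, Z n m = c1 := by
    rintro n' hn' h m ⟨hm, n, hn, ⟨m0, hm0, e0⟩, e⟩
    have w : ∀ y ∈ C, Z n y = A → Z n' y = c1 := fun y b u => by
      by_contra v
      exact h ⟨hn', y, b, ⟨n, hn, u⟩, v⟩
    rcases hv n hn m hm with u | u | u | u
    · exact (e u).elim
    · exact (anti n hn n' hn' m0 hm0 m hm (u.trans (w m0 hm0 e0).symm)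
        (by rw [e0, u]; exact n4.symm)).trans u
    · exact w m hm u
    · exact (rAB n hn m0 hm0 m hm e0 u).elim
  have noB : ∀ n ∈ R1, ∀ m ∈ C, Z n m ≠ B := by
    rintro n ⟨hn, m, hm, ⟨n0, hn0, e0⟩, e⟩ m' hm' u
    exact e (cross n0 hn0 m hm n hn m' hm' e0 u)
  have p1 : x1 ∈ R1 := inR x1 a1 y2 b2 s2
  have p2 : x2 ∉ R1 := fun h => noB x2 h y1 b1 s3
  have p3 : y2 ∈ C2 := ⟨b2, x1, a1, ⟨y2, b2, s2⟩, s2 ▸ n2.symm⟩
  have p4 : y1 ∉ C2 := by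
    rintro ⟨-, n, hn, ⟨m, hm, e0⟩, e⟩
    exact e (fA n hn m hm e0).1
  have t1 := (hG.block h6 (R' := R1) (C' := C2) (sep_subset _ _) (sep_subset _ _) ⟨_, p1⟩ ⟨_, p3⟩
    (fun x a x' a' y b y' b' p => by
      rcases h4 x a.1 x' a'.1 y b.1 y' b'.1 p with ⟨⟨-, u⟩ | ⟨u, -⟩, -⟩ | ⟨-, ⟨-, u⟩ | ⟨u, -⟩⟩
      exacts [noB _ a' _ b'.1 u, noB _ a _ b.1 u, noB _ a' _ b.1 u, noB _ a _ b'.1 u])
    (fun x a x' a' y b h => (k0 x a y b h).trans (k0 x' a' y b h).symm)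
    fun y b y' b' x a h => (k1 x a h y b).trans (k1 x a h y' b').symm).1
  have t2 := (hG.block h6 (R' := R \ R1) (C' := C \ C2) sdiff_subset sdiff_subset ⟨_, a2, p2⟩
    ⟨_, b1, p4⟩
    (fun x a x' a' y b y' b' p => by
      rcases h4 x a.1 x' a'.1 y b.1 y' b'.1 p with ⟨⟨u, -⟩ | ⟨-, u⟩, -⟩ | ⟨-, ⟨u, -⟩ | ⟨-, u⟩⟩
      exacts [a.2 (inR _ a.1 _ b.1 u), a'.2 (inR _ a'.1 _ b'.1 u), a.2 (inR _ a.1 _ b'.1 u),
        a'.2 (inR _ a'.1 _ b.1 u)])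
    (fun x a x' a' y b h =>
      have h' : y ∈ C2 := by_contra fun u => h ⟨b, u⟩
      (k1 x a.1 a.2 y h').trans (k1 x' a'.1 a'.2 y h').symm)
    fun y b y' b' x a h =>
      have h' : x ∈ R1 := by_contra fun u => h ⟨a, u⟩
      (k0 x h' y b.1 b.2).trans (k0 x h' y' b'.1 b'.2).symm).1
  have sub : R ⊆ {x1, x2} := fun n hn =>
    (em (n ∈ R1)).imp (fun h => t1 h p1) fun h => t2 ⟨hn, h⟩ ⟨a2, p2⟩
  exact (ncard_le_ncard sub).trans ((ncard_insert_le _ _).trans (by rw [ncard_singleton]))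

/-- Three classes of columns with a list of allowed triples force three columns. -/
theorem GG.three (hG : GG R C Z) (h6 : No6 R C Z) {J L K : Set E} (hJ : J ⊆ C) (hL : L ⊆ C)
    (hK : K ⊆ C) (cov : ∀ m ∈ C, m ∈ J ∨ m ∈ L ∨ m ∈ K) (nJ : J.Nonempty) (nL : L.Nonempty)
    (nK : K.Nonempty) (Tl : List (α × α × α))
    (htr : ∀ n ∈ R, ∀ j ∈ J, ∀ l ∈ L, ∀ k ∈ K, (Z n j, Z n l, Z n k) ∈ Tl)
    (ok : α → α → α → α → Prop)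
    (hok : ∀ x ∈ R, ∀ x' ∈ R, ∀ y ∈ C, ∀ y' ∈ C, ok (Z x y) (Z x y') (Z x' y) (Z x' y'))
    {b1 c1 a2 c2 a3 b3 : α}
    (t1 : ∀ s ∈ Tl, ∀ t ∈ Tl, s.2 = t.2 → s.1 ≠ t.1 → s.2.1 = b1 ∧ s.2.2 = c1)
    (t2 : ∀ s ∈ Tl, ∀ t ∈ Tl, s.1 = t.1 → s.2.2 = t.2.2 → s.2.1 ≠ t.2.1 → s.1 = a2 ∧ s.2.2 = c2)
    (t3 : ∀ s ∈ Tl, ∀ t ∈ Tl, s.1 = t.1 → s.2.1 = t.2.1 → s.2.2 ≠ t.2.2 → s.1 = a3 ∧ s.2.1 = b3)
    (q1 : ∀ s ∈ Tl, s.2.1 = b1 ∧ s.2.2 = c1 → ∀ t ∈ Tl, t.2.1 = b1 ∧ t.2.2 = c1 →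
      ∀ u ∈ Tl, u.2.1 = b1 ∧ u.2.2 = c1 → ∀ v ∈ Tl, v.2.1 = b1 ∧ v.2.2 = c1 →
        ok s.1 t.1 u.1 v.1 → s.1 = t.1 ∨ u.1 = v.1 ∨ s.1 = u.1 ∨ t.1 = v.1)
    (q2 : ∀ s ∈ Tl, s.1 = a2 ∧ s.2.2 = c2 → ∀ t ∈ Tl, t.1 = a2 ∧ t.2.2 = c2 →
      ∀ u ∈ Tl, u.1 = a2 ∧ u.2.2 = c2 → ∀ v ∈ Tl, v.1 = a2 ∧ v.2.2 = c2 →
        ok s.2.1 t.2.1 u.2.1 v.2.1 →
          s.2.1 = t.2.1 ∨ u.2.1 = v.2.1 ∨ s.2.1 = u.2.1 ∨ t.2.1 = v.2.1)
    (q3 : ∀ s ∈ Tl, s.1 = a3 ∧ s.2.1 = b3 → ∀ t ∈ Tl, t.1 = a3 ∧ t.2.1 = b3 →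
      ∀ u ∈ Tl, u.1 = a3 ∧ u.2.1 = b3 → ∀ v ∈ Tl, v.1 = a3 ∧ v.2.1 = b3 →
        ok s.2.2 t.2.2 u.2.2 v.2.2 →
          s.2.2 = t.2.2 ∨ u.2.2 = v.2.2 ∨ s.2.2 = u.2.2 ∨ t.2.2 = v.2.2) : C.ncard ≤ 3 := by
  obtain ⟨j0, hj⟩ := nJ
  obtain ⟨l0, hl⟩ := nL
  obtain ⟨k0, hk⟩ := nK
  have r1 : ∀ x ∈ R, ∀ y ∈ J, ∀ y' ∈ J, Z x y ≠ Z x y' → ∀ l ∈ L, ∀ k ∈ K,
      Z x l = b1 ∧ Z x k = c1 := fun x a y b y' b' e l u k v =>
    t1 _ (htr x a y b l u k v) _ (htr x a y' b' l u k v) rfl e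
  have r2 : ∀ x ∈ R, ∀ y ∈ L, ∀ y' ∈ L, Z x y ≠ Z x y' → ∀ j ∈ J, ∀ k ∈ K,
      Z x j = a2 ∧ Z x k = c2 := fun x a y b y' b' e j u k v =>
    t2 _ (htr x a j u y b k v) _ (htr x a j u y' b' k v) rfl rfl e
  have r3 : ∀ x ∈ R, ∀ y ∈ K, ∀ y' ∈ K, Z x y ≠ Z x y' → ∀ j ∈ J, ∀ l ∈ L,
      Z x j = a3 ∧ Z x l = b3 := fun x a y b y' b' e j u l v =>
    t3 _ (htr x a j u l v y b) _ (htr x a j u l v y' b') rfl rfl e
  have fin : ∀ {x x' y y' : E}, PC4 Z x x' y y' →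
      ¬ (Z x y = Z x y' ∨ Z x' y = Z x' y' ∨ Z x y = Z x' y ∨ Z x y' = Z x' y') :=
    fun p h => h.elim p.1 fun h => h.elim p.2.1 fun h => h.elim p.2.2.1 p.2.2.2
  have sJ : J.Subsingleton := by
    refine hG.cols h6 hJ (fun x a x' a' y b y' b' p => fin p ?_) ?_
    · have u := r1 x a y b y' b' p.1 l0 hl k0 hk
      have v := r1 x' a' y b y' b' p.2.1 l0 hl k0 hk
      exact q1 _ (htr x a y b l0 hl k0 hk) u _ (htr x a y' b' l0 hl k0 hk) u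
        _ (htr x' a' y b l0 hl k0 hk) v _ (htr x' a' y' b' l0 hl k0 hk) v
        (hok x a x' a' y (hJ b) y' (hJ b'))
    · rintro x a x' a' ⟨y, b, y', b', e⟩ ⟨z, c, z', c', e'⟩ m hm h
      rcases cov m hm with u | u | u
      · exact (h u).elim
      · exact (r1 x a y b y' b' e m u k0 hk).1.trans (r1 x' a' z c z' c' e' m u k0 hk).1.symm
      · exact (r1 x a y b y' b' e l0 hl m u).2.trans (r1 x' a' z c z' c' e' l0 hl m u).2.symm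
  have sL : L.Subsingleton := by
    refine hG.cols h6 hL (fun x a x' a' y b y' b' p => fin p ?_) ?_
    · have u := r2 x a y b y' b' p.1 j0 hj k0 hk
      have v := r2 x' a' y b y' b' p.2.1 j0 hj k0 hk
      exact q2 _ (htr x a j0 hj y b k0 hk) u _ (htr x a j0 hj y' b' k0 hk) u
        _ (htr x' a' j0 hj y b k0 hk) v _ (htr x' a' j0 hj y' b' k0 hk) v
        (hok x a x' a' y (hL b) y' (hL b'))
    · rintro x a x' a' ⟨y, b, y', b', e⟩ ⟨z, c, z', c', e'⟩ m hm h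
      rcases cov m hm with u | u | u
      · exact (r2 x a y b y' b' e m u k0 hk).1.trans (r2 x' a' z c z' c' e' m u k0 hk).1.symm
      · exact (h u).elim
      · exact (r2 x a y b y' b' e j0 hj m u).2.trans (r2 x' a' z c z' c' e' j0 hj m u).2.symm
  have sK : K.Subsingleton := by
    refine hG.cols h6 hK (fun x a x' a' y b y' b' p => fin p ?_) ?_
    · have u := r3 x a y b y' b' p.1 j0 hj l0 hl
      have v := r3 x' a' y b y' b' p.2.1 j0 hj l0 hl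
      exact q3 _ (htr x a j0 hj l0 hl y b) u _ (htr x a j0 hj l0 hl y' b') u
        _ (htr x' a' j0 hj l0 hl y b) v _ (htr x' a' j0 hj l0 hl y' b') v
        (hok x a x' a' y (hK b) y' (hK b'))
    · rintro x a x' a' ⟨y, b, y', b', e⟩ ⟨z, c, z', c', e'⟩ m hm h
      rcases cov m hm with u | u | u
      · exact (r3 x a y b y' b' e m u l0 hl).1.trans (r3 x' a' z c z' c' e' m u l0 hl).1.symm
      · exact (r3 x a y b y' b' e j0 hj m u).2.trans (r3 x' a' z c z' c' e' j0 hj m u).2.symm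
      · exact (h u).elim
  have sub : C ⊆ {j0, l0, k0} := fun m hm =>
    (cov m hm).imp (fun u => sJ u hj) (Or.imp (fun u => sL u hl) fun u => sK u hk)
  refine (ncard_le_ncard sub).trans ((ncard_insert_le _ _).trans (Nat.succ_le_succ ?_))
  exact (ncard_insert_le _ _).trans (by rw [ncard_singleton])

end Pool.Agent.Lib.MP_10bdcf_co.G
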