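import Pool.Agent.Lib.MP_10bdcf_co.TQ
import Pool.Agent.Lib.MP_10bdcf_co.TZ

/-!
The numerical shadow of a core: types of lines, and the pattern with three special entries.
-/

namespace Pool.Agent.Lib.MP_10bdcf_co.G

open Set

set_option linter.unusedSectionVars false

variable {E : Type} [Finite E] {R C : Set E} {V : E → E → ℕ} {x1 x2 x3 y1 y2 y3 n m : E}

theorem NC.no6 (h : NC R C V) : No6 R C V := by
  intro x hx x' hx' x'' hx'' y hy y' hy' y'' hy'' e1 e2 e3 e4 e5 e6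
  have h1 := h.s22 x hx x' hx' y hy y'' hy''
  have h2 := h.s22 x hx x' hx' y' hy' y'' hy''
  have h3 := h.s33 x hx x' hx' x'' hx'' y hy y' hy' y'' hy''
  simp only [g22, h22, Bool.and_eq_true] at h1 h2
  rw [e1, e2, e3, e4, e5, e6] at h3
  have o1 := h1.1.1.1.1.1.1.1.1.1
  have o2 := h2.1.1.1.1.1.1.1.2
  have o3 := h1.1.1.1.1.1.1.2
  rw [e1] at o2
  rw [e5] at o3
  exact t6_tab (h.mem x hx y hy) (h.mem x hx y'' hy'') (h.mem x' hx' y' hy') o1 o2 o3 h3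

theorem N4.inI (h : N4 R C V) (d : Sd R C V x1 x2 y1 y2 0 123457 234573 1) (hn : n ∈ R)
    (hm : m ∈ C) : (V n y1, V n y2, V x1 m, V x2 m, V n m) ∈ tabI := by
  have := tabI_tab _ (rowI_tab _ (h.mem n hn _ d.b1) _ (h.mem n hn _ d.b2) (h.toNC.g32 d hn)) _
    (colI_tab _ (h.mem _ d.a1 m hm) _ (h.mem _ d.a2 m hm) (h.toNC.g23 d hm)) _ (h.mem n hn m hm)
    (h.toNC.g33 d hn hm)
  rwa [h.p33 d hn hm, cond_true] at this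

theorem N4.inC (h : N4 R C V) (d : Sd R C V x1 x2 y1 y2 0 123457 638297 765431) (hn : n ∈ R)
    (hm : m ∈ C) : (V n y1, V n y2, V x1 m, V x2 m, V n m) ∈ tabC := by
  have := tabC_tab _ (rowC_tab _ (h.mem n hn _ d.b1) _ (h.mem n hn _ d.b2) (h.toNC.g32 d hn)) _
    (colC_tab _ (h.mem _ d.a1 m hm) _ (h.mem _ d.a2 m hm) (h.toNC.g23 d hm)) _ (h.mem n hn m hm)
    (h.toNC.g33 d hn hm)
  rwa [h.p33 d hn hm, cond_true] at this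

theorem N4.inO (h : N4 R C V) (d : Sd R C V x1 x2 y1 y2 0 123457 414895 0) (hn : n ∈ R)
    (hm : m ∈ C) : (V n y1, V n y2, V x1 m, V x2 m, V n m) ∈ tabO := by
  have := tabO_tab _ (rowO_tab _ (h.mem n hn _ d.b1) _ (h.mem n hn _ d.b2) (h.toNC.g32 d hn)) _
    (colO_tab _ (h.mem _ d.a1 m hm) _ (h.mem _ d.a2 m hm) (h.toNC.g23 d hm)) _ (h.mem n hn m hm)
    (h.toNC.g33 d hn hm)
  rwa [h.p33 d hn hm, cond_true] at this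

theorem NC.fulI (h : NC R C V) (d : Sd R C V x1 x2 y1 y2 0 123457 234573 1) (hn : n ∈ R)
    (hm : m ∈ C)
    (hp : p33 0 123457 (V x1 m) 234573 1 (V x2 m) (V n y1) (V n y2) (V n m) = false) :
    V n m = 641413 ∧ ((V n y1 = 0 ∧ V n y2 = 0 ∧ V x1 m = 1 ∧ V x2 m = 1) ∨
      (V n y1 = 0 ∧ V n y2 = 1 ∧ V x1 m = 0 ∧ V x2 m = 1) ∨
      (V n y1 = 1 ∧ V n y2 = 1 ∧ V x1 m = 0 ∧ V x2 m = 0)) := by
  have := tabI_tab _ (rowI_tab _ (h.mem n hn _ d.b1) _ (h.mem n hn _ d.b2) (h.g32 d hn)) _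
    (colI_tab _ (h.mem _ d.a1 m hm) _ (h.mem _ d.a2 m hm) (h.g23 d hm)) _ (h.mem n hn m hm)
    (h.g33 d hn hm)
  rw [hp, cond_false] at this
  simp only [G.fulI, List.mem_cons, Prod.mk.injEq, List.not_mem_nil, or_false] at this
  omega

theorem NC.fulC (h : NC R C V) (d : Sd R C V x1 x2 y1 y2 0 123457 638297 765431) (hn : n ∈ R)
    (hm : m ∈ C) :
    p33 0 123457 (V x1 m) 638297 765431 (V x2 m) (V n y1) (V n y2) (V n m) = true := by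
  have := tabC_tab _ (rowC_tab _ (h.mem n hn _ d.b1) _ (h.mem n hn _ d.b2) (h.g32 d hn)) _
    (colC_tab _ (h.mem _ d.a1 m hm) _ (h.mem _ d.a2 m hm) (h.g23 d hm)) _ (h.mem n hn m hm)
    (h.g33 d hn hm)
  by_contra hp
  rw [Bool.eq_false_iff.2 hp, cond_false] at this
  exact List.not_mem_nil this

theorem NC.fulO (h : NC R C V) (d : Sd R C V x1 x2 y1 y2 0 123457 414895 0) (hn : n ∈ R)
    (hm : m ∈ C) : p33 0 123457 (V x1 m) 414895 0 (V x2 m) (V n y1) (V n y2) (V n m) = true := by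
  have := tabO_tab _ (rowO_tab _ (h.mem n hn _ d.b1) _ (h.mem n hn _ d.b2) (h.g32 d hn)) _
    (colO_tab _ (h.mem _ d.a1 m hm) _ (h.mem _ d.a2 m hm) (h.g23 d hm)) _ (h.mem n hn m hm)
    (h.g33 d hn hm)
  by_contra hp
  rw [Bool.eq_false_iff.2 hp, cond_false] at this
  exact List.not_mem_nil this

/-- A block of order three with the nine special entries. -/
structure TpQ (R C : Set E) (V : E → E → ℕ) (x1 x2 x3 y1 y2 y3 : E) : Prop where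
  a1 : x1 ∈ R
  a2 : x2 ∈ R
  a3 : x3 ∈ R
  b1 : y1 ∈ C
  b2 : y2 ∈ C
  b3 : y3 ∈ C
  e11 : V x1 y1 = 0
  e12 : V x1 y2 = 123457
  e13 : V x1 y3 = 0
  e21 : V x2 y1 = 234573
  e22 : V x2 y2 = 1
  e23 : V x2 y3 = 1
  e31 : V x3 y1 = 358591
  e32 : V x3 y2 = 358591
  e33 : V x3 y3 = 606872

theorem tp_col (h : N4 R C V) (q : TpQ R C V x1 x2 x3 y1 y2 y3) (hm : m ∈ C) :
    (V x1 m, V x2 m, V x3 m) ∈ colQ := by
  refine colQ_tab _ (h.inI ⟨q.a1, q.a2, q.b1, q.b2, q.e11, q.e12, q.e21, q.e22⟩ q.a3 hm) q.e31 q.e32 ?_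
  simp only [Bool.and_eq_true]
  exact ⟨⟨⟨h.toNC.g23 ⟨q.a1, q.a2, q.b1, q.b3, q.e11, q.e13, q.e21, q.e23⟩ hm,
    h.toNC.g23 ⟨q.a1, q.a2, q.b2, q.b3, q.e12, q.e13, q.e22, q.e23⟩ hm⟩,
    h.toNC.g23 ⟨q.a1, q.a3, q.b1, q.b3, q.e11, q.e13, q.e31, q.e33⟩ hm⟩,
    h.toNC.g23 ⟨q.a2, q.a3, q.b2, q.b3, q.e22, q.e23, q.e32, q.e33⟩ hm⟩

theorem tp_row (h : N4 R C V) (q : TpQ R C V x1 x2 x3 y1 y2 y3) (hn : n ∈ R) :
    (V n y1, V n y2, V n y3) ∈ rowQ := by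
  refine rowQ_tab _ (h.inI ⟨q.a1, q.a2, q.b1, q.b2, q.e11, q.e12, q.e21, q.e22⟩ hn q.b3) q.e13 q.e23 ?_
  simp only [Bool.and_eq_true]
  exact ⟨⟨h.toNC.g32 ⟨q.a1, q.a3, q.b2, q.b3, q.e12, q.e13, q.e32, q.e33⟩ hn,
    h.toNC.g32 ⟨q.a1, q.a3, q.b1, q.b3, q.e11, q.e13, q.e31, q.e33⟩ hn⟩,
    h.toNC.g32 ⟨q.a1, q.a3, q.b1, q.b2, q.e11, q.e12, q.e31, q.e32⟩ hn⟩

theorem tp_tab (h : N4 R C V) (q : TpQ R C V x1 x2 x3 y1 y2 y3) (hn : n ∈ R) (hm : m ∈ C) :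
    (V n y1, V n y2, V n y3, V x1 m, V x2 m, V x3 m, V n m) ∈ tabQ :=
  tabQ_tab _ (tp_row h q hn) _ (tp_col h q hm) _ (h.mem n hn m hm)
    (q.e11 ▸ h.s22 _ q.a1 _ hn _ q.b1 _ hm) (q.e12 ▸ h.s22 _ q.a1 _ hn _ q.b2 _ hm)
    (q.e13 ▸ h.s22 _ q.a1 _ hn _ q.b3 _ hm) (q.e21 ▸ h.s22 _ q.a2 _ hn _ q.b1 _ hm)
    (q.e22 ▸ h.s22 _ q.a2 _ hn _ q.b2 _ hm) (q.e23 ▸ h.s22 _ q.a2 _ hn _ q.b3 _ hm)
    (q.e31 ▸ h.s22 _ q.a3 _ hn _ q.b1 _ hm) (q.e32 ▸ h.s22 _ q.a3 _ hn _ q.b2 _ hm)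
    (q.e33 ▸ h.s22 _ q.a3 _ hn _ q.b3 _ hm)

theorem tp_f0 : ∀ t ∈ tabI, t.2.2.1 = 0 → t.2.2.2.1 = 1 → t.1 = t.2.1 → 1 < t.1 →
    t.2.2.2.2 ≠ t.1 → t.1 = 358591 ∧ t.2.2.2.2 = 606872 := by
  decide +kernel

theorem tp_f1 : ∀ t ∈ tabQ, t.2.2.2.1 = t.2.2.2.2.1 →
    t.2.2.2.2.2.2 = t.2.2.2.1 ∨ (t.1 = t.2.1 ∧ t.2.1 = t.2.2.1) := by
  decide +kernel

theorem tp_f2 : ∀ t ∈ tabQ, t.1 = t.2.1 ∧ t.2.1 = t.2.2.1 → t.2.2.2.1 ≠ t.2.2.2.2.1 →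
    t.2.2.2.2.2.2 ≠ t.2.1 → (t.2.2.2.1, t.2.2.2.2.1, t.2.2.2.2.2.1) ∈
      [(0, 234573, 358591), (123457, 1, 358591), (0, 1, 606872)] := by
  decide +kernel

theorem tp_f3 : ∀ t ∈ tabQ, t.2.2.2.1 = t.2.2.2.2.1 →
    t.2.2.2.2.2.2 = t.2.1 ∨ t.2.2.2.2.2.2 = t.2.2.2.1 := by
  decide +kernel

theorem tp_f4 : ∀ t ∈ rowQ, t.1 = t.2.1 → t.2.1 ∈ [0, 1, 358591] := by
  decide +kernel

theorem tp_f5 : ∀ t ∈ colQ, t.1 = t.2.1 → t.1 ∈ [0, 1, 358591] := by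
  decide +kernel

theorem tp_f6 : ∀ a ∈ [0, 1, 358591], ∀ b ∈ [0, 1, 358591], ∀ c ∈ [0, 1, 358591],
    ∀ d ∈ [0, 1, 358591], g22 a b c d = true → a = b ∨ c = d ∨ a = c ∨ b = d := by
  decide +kernel

theorem tp_f7 : ∀ t ∈ rowQ, t.1 = 0 ∨ t.2.1 = 1 ∨ t.1 = 358591 := by
  decide +kernel

theorem tp_g1 : ∀ t ∈ tabQ, t.2.2.2.1 ≠ t.2.2.2.2.1 → t.1 = 0 → t.2.2.2.2.2.2 ∈ [0, 123457] ∧
    (t.2.2.2.2.2.2 ∈ [0, t.2.2.2.1] ∨ (t.2.1 = 123457 ∧ t.2.2.1 = 0)) := by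
  decide +kernel

theorem tp_g2 : ∀ t ∈ tabQ, t.2.2.2.1 ≠ t.2.2.2.2.1 → t.2.1 = 1 → t.2.2.2.2.2.2 ∈ [1, 234573] ∧
    (t.2.2.2.2.2.2 ∈ [1, t.2.2.2.2.1] ∨ (t.1 = 234573 ∧ t.2.2.1 = 1)) := by
  decide +kernel

theorem tp_g3 : ∀ t ∈ tabQ, t.2.2.2.1 ≠ t.2.2.2.2.1 → t.1 = 358591 →
    t.2.2.2.2.2.2 ∈ [358591, t.2.2.2.2.2.1] ∨ (t.2.1 = 358591 ∧ t.2.2.1 = 606872) := by
  decide +kernel

/-- The types of the remaining columns. -/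
def tpT : List (ℕ × ℕ × ℕ) :=
  [(0, 1, 606872), (0, 1, 358591), (0, 234573, 358591), (123457, 1, 358591)]

theorem tp_g4 : ∀ t ∈ colQ, t.1 ∈ [0, 123457] → t.2.1 ∈ [1, 234573] → ∀ a ∈ [0, t.1],
    ∀ b ∈ [1, t.2.1], ∀ c ∈ [358591, t.2.2], (a, b, c) ∈ tpT := by
  decide +kernel

theorem tp_ne (h : N4 R C V) (q : TpQ R C V x1 x2 x3 y1 y2 y3) (hm : m ∈ C) : V x1 m ≠ V x2 m := by
  have n1 : V x1 y1 ≠ V x2 y1 := by rw [q.e11, q.e21]; omega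
  have key := h.gg.special h.toNC.no6 (SC := {m | m ∈ C ∧ V x1 m = V x2 m})
    (SR := {n | n ∈ R ∧ ∀ m ∈ C, V x1 m ≠ V x2 m → V n m = V n y2}) (fun _ a => a.1) (fun _ a => a.1)
    q.a1 (fun a => by have := a.2 y1 q.b1 n1; rw [q.e11, q.e12] at this; omega) q.b2
    (fun a => by have := a.2; rw [q.e12, q.e22] at this; omega) (· ∈ [0, 1, 358591])
    (fun n a m b c => a.2 m b fun e => c ⟨b, e⟩) (fun n a b m c => ?_)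
    (fun n a m b => tp_f3 _ (tp_tab h q a.1 b.1) b.2)
    (fun n a => tp_f4 _ (tp_row h q a.1) (a.2 y1 q.b1 n1)) (fun m a => tp_f5 _ (tp_col h q a.1) a.2)
    (by rw [q.e12]; decide) fun x a x' a' y b y' b' k1 k2 k3 k4 c => by
      rcases tp_f6 _ k1 _ k2 _ k3 _ k4 (h.s22 x a x' a' y b y' b') with e | e | e | e
      exacts [c.1 e, c.2.1 e, c.2.2.1 e, c.2.2.2 e]
  · exact fun e => (key.2.subset ⟨hm, e⟩ :)
  · obtain e | e := tp_f1 _ (tp_tab h q a c.1) c.2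
    · exact e
    obtain ⟨m', a', b', c'⟩ : ∃ m' ∈ C, V x1 m' ≠ V x2 m' ∧ V n m' ≠ V n y2 := by
      by_contra! k
      exact b ⟨a, k⟩
    have f := tp_f2 _ (tp_tab h q a a') e b' c'
    simp only [List.mem_cons, Prod.mk.injEq, List.not_mem_nil, or_false] at f
    rcases f with f | f | f
    · exact (tp_f1 _ (tp_tab h (y1 := m') { q with b1 := a', e11 := f.1, e21 := f.2.1, e31 := f.2.2 }
        a c.1) c.2).resolve_right fun k => c' k.1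
    · exact (tp_f1 _ (tp_tab h (y2 := m') { q with b2 := a', e12 := f.1, e22 := f.2.1, e32 := f.2.2 }
        a c.1) c.2).resolve_right fun k => c' (k.1.symm.trans e.1)
    · exact (tp_f1 _ (tp_tab h (y3 := m') { q with b3 := a', e13 := f.1, e23 := f.2.1, e33 := f.2.2 }
        a c.1) c.2).resolve_right fun k => c' k.2.symm

theorem tp_tri (h : N4 R C V) (q : TpQ R C V x1 x2 x3 y1 y2 y3) (hm : m ∈ C) {j l k : E}
    (hj : j ∈ R) (ej : V j y1 = 0) (hl : l ∈ R) (el : V l y2 = 1) (hk : k ∈ R)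
    (ek : V k y1 = 358591) : (V j m, V l m, V k m) ∈ tpT := by
  have ne := tp_ne h q hm
  obtain ⟨j', a1, e11, e12, e13, u⟩ : ∃ j' ∈ R, V j' y1 = 0 ∧ V j' y2 = 123457 ∧ V j' y3 = 0 ∧
      V j m ∈ [0, V j' m] := by
    rcases (tp_g1 _ (tp_tab h q hj hm) ne ej).2 with e | e
    exacts [⟨x1, q.a1, q.e11, q.e12, q.e13, e⟩, ⟨j, hj, ej, e.1, e.2, by simp⟩]
  obtain ⟨l', a2, e21, e22, e23, v⟩ : ∃ l' ∈ R, V l' y1 = 234573 ∧ V l' y2 = 1 ∧ V l' y3 = 1 ∧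
      V l m ∈ [1, V l' m] := by
    rcases (tp_g2 _ (tp_tab h q hl hm) ne el).2 with e | e
    exacts [⟨x2, q.a2, q.e21, q.e22, q.e23, e⟩, ⟨l, hl, e.1, el, e.2, by simp⟩]
  obtain ⟨k', a3, e31, e32, e33, w⟩ : ∃ k' ∈ R, V k' y1 = 358591 ∧ V k' y2 = 358591 ∧
      V k' y3 = 606872 ∧ V k m ∈ [358591, V k' m] := by
    rcases tp_g3 _ (tp_tab h q hk hm) ne ek with e | e
    exacts [⟨x3, q.a3, q.e31, q.e32, q.e33, e⟩, ⟨k, hk, ek, e.1, e.2, by simp⟩]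
  exact tp_g4 _ (tp_col h ⟨a1, a2, a3, q.b1, q.b2, q.b3, e11, e12, e13, e21, e22, e23, e31, e32, e33⟩
    hm) (tp_g1 _ (tp_tab h q a1 hm) ne e11).1 (tp_g2 _ (tp_tab h q a2 hm) ne e22).1 _ u _ v _ w

/-- The pattern with three special entries forces three rows. -/
theorem N4.noQ (h : N4 R C V) (d : Sd R C V x1 x2 y1 y2 0 123457 234573 1) (a3 : x3 ∈ R)
    (b3 : y3 ∈ C)
    (hq : qq (V x1 y1) (V x1 y2) (V x1 y3) (V x2 y1) (V x2 y2) (V x2 y3) (V x3 y1) (V x3 y2)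
      (V x3 y3)) : False := by
  obtain ⟨-, e13, -, e23, e1, -, -, e2, e3⟩ := hq
  obtain ⟨e31, e33⟩ := tp_f0 _ (h.inI d a3 b3) e13 e23 e1 e2 e3
  have q : TpQ R C V x1 x2 x3 y1 y2 y3 := ⟨d.a1, d.a2, a3, d.b1, d.b2, b3, d.e11, d.e12, e13, d.e21,
    d.e22, e23, e31, e1.symm.trans e31, e33⟩
  have key := h.gg.tp.three h.toNC.no6.tp (J := {n | n ∈ R ∧ V n y1 = 0})
    (L := {n | n ∈ R ∧ V n y2 = 1}) (K := {n | n ∈ R ∧ V n y1 = 358591}) (fun _ a => a.1)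
    (fun _ a => a.1) (fun _ a => a.1)
    (fun n a => (tp_f7 _ (tp_row h q a)).imp (⟨a, ·⟩) (Or.imp (⟨a, ·⟩) (⟨a, ·⟩)))
    ⟨x1, q.a1, q.e11⟩ ⟨x2, q.a2, q.e22⟩ ⟨x3, q.a3, q.e31⟩ tpT
    (fun m a j b l c k e => tp_tri h q a b.1 b.2 c.1 c.2 e.1 e.2)
    (fun a b c d => g22 a c b d = true) (fun x a x' a' y b y' b' => h.s22 y b y' b' x a x' a')
    (b1 := 1) (c1 := 358591) (a2 := 0) (c2 := 358591) (a3 := 0) (b3 := 1)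
    (by decide +kernel) (by decide +kernel) (by decide +kernel) (by decide +kernel)
    (by decide +kernel) (by decide +kernel)
  have := h.bigR
  omega

end Pool.Agent.Lib.MP_10bdcf_co.G
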