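import Pool.Agent.Lib.MP_10bdcf_co.TA4
import Pool.Agent.Lib.MP_10bdcf_co.TP

/-!
Symmetries of a core matrix and its numerical shadow.
-/

namespace Pool.Agent.Lib.MP_10bdcf_co.G

open Set

set_option linter.unusedSectionVars false

variable {E : Type} [Fintype E] {R C : Set E} {Y : Matrix E E R0} {x y : E}

/-- The matrix of ones minus the matrix. -/
noncomputable def mir (Y : Matrix E E R0) : Matrix E E R0 := Matrix.of fun a b => 1 - Y a b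

/-- The values at the proxy point. -/
noncomputable def nv (Y : Matrix E E R0) : E → E → ℕ := fun a b => tvl (Y a b)

theorem ts_eq {a b : R0} (h : InP a) (e : b = a) : InP b := e ▸ h

theorem ts_neg {a b : R0} (h : InP a) (e : b = -a) : InP b := e ▸ h.neg

theorem ts_fund {a : R0} (h : Fund a) : Fund (1 - a) := ⟨h.2, by rw [sub_sub_cancel]; exact h.1⟩

theorem ts_map {φ : R0 ≃+* R0} (hφ : ∀ z, InG (φ z) ↔ InG z) {a : R0} (h : InP a) : InP (φ a) :=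
  h.imp (fun e => by rw [e, map_zero]) (hφ a).2

section
variable (Y : Matrix E E R0) (x x' x'' y y' y'' : E)

theorem ts_m1 : m1 Y x y = Y x y - 1 := rfl

theorem ts_mir : mir Y x y = 1 - Y x y := rfl

theorem ts_d2t : d2 Y.transpose y y' x x' = d2 Y x x' y y' := by
  simp only [d2, Matrix.transpose_apply]
  ring

theorem ts_d3t : d3 Y.transpose y y' y'' x x' x'' = d3 Y x x' x'' y y' y'' := by
  simp only [d3, d2, Matrix.transpose_apply]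
  ring

theorem ts_m1t : m1 Y.transpose = (m1 Y).transpose := rfl

theorem ts_d2m : d2 (mir Y) x x' y y' = d2 (m1 Y) x x' y y' := by
  simp only [d2, ts_m1, ts_mir]
  ring

theorem ts_g2m : d2 (m1 (mir Y)) x x' y y' = d2 Y x x' y y' := by
  simp only [d2, ts_m1, ts_mir]
  ring

theorem ts_d3m : d3 (mir Y) x x' x'' y y' y'' = -d3 (m1 Y) x x' x'' y y' y'' := by
  simp only [d3, d2, ts_m1, ts_mir]
  ring

theorem ts_g3m : d3 (m1 (mir Y)) x x' x'' y y' y'' = -d3 Y x x' x'' y y' y'' := by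
  simp only [d3, d2, ts_m1, ts_mir]
  ring

theorem ts_d2a (φ : R0 ≃+* R0) : d2 (Y.map φ) x x' y y' = φ (d2 Y x x' y y') := by
  simp only [d2, Matrix.map_apply, map_sub, map_mul]

theorem ts_d3a (φ : R0 ≃+* R0) : d3 (Y.map φ) x x' x'' y y' y'' = φ (d3 Y x x' x'' y y' y'') := by
  simp only [d3, d2, Matrix.map_apply, map_sub, map_mul, map_add]

theorem ts_m1a (φ : R0 ≃+* R0) : m1 (Y.map φ) = (m1 Y).map φ := by
  ext a b
  simp only [ts_m1, Matrix.map_apply, map_sub, map_one]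

theorem ts_b2 : d2 (m1 Y) x x' y y' - d2 Y x x' y y' = Y x y' + Y x' y - Y x y - Y x' y' := by
  simp only [d2, ts_m1]
  ring

theorem ts_sb1 : sbm (nv Y x y) 1 = nv (m1 Y) x y := by
  rw [nv, nv, ts_m1, ← tvl_sub, tvl_one]

theorem ts_dt2 : dt2 (nv Y x y) (nv Y x y') (nv Y x' y) (nv Y x' y') = tvl (d2 Y x x' y y') := by
  simp only [dt2, nv, tvl_mul, tvl_sub, d2]

theorem ts_dg2 :
    dg2 (nv Y x y) (nv Y x y') (nv Y x' y) (nv Y x' y') = tvl (d2 (m1 Y) x x' y y') := by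
  simp only [dg2, ts_sb1, ts_dt2]

theorem ts_dt3 : dt3 (nv Y x y) (nv Y x y') (nv Y x y'') (nv Y x' y) (nv Y x' y') (nv Y x' y'')
    (nv Y x'' y) (nv Y x'' y') (nv Y x'' y'') = tvl (d3 Y x x' x'' y y' y'') := by
  simp only [dt3, ts_dt2]
  simp only [nv, tvl_mul, tvl_sub]
  refine congrArg tvl ?_
  simp only [d3, d2]
  ring

theorem ts_dg3 : dg3 (nv Y x y) (nv Y x y') (nv Y x y'') (nv Y x' y) (nv Y x' y') (nv Y x' y'')
    (nv Y x'' y) (nv Y x'' y') (nv Y x'' y'') = tvl (d3 (m1 Y) x x' x'' y y' y'') := by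
  simp only [dg3, ts_sb1, ts_dt3]

end

theorem ts_prop {a b : R0} (h : InP (a - b)) (hp : a = b → b = 0) :
    (!(tvl a).beq (tvl b) || (tvl b).beq 0) = true := by
  by_cases e : a = b
  · rw [hp e, tvl_zero]
    simp
  · have : (tvl a).beq (tvl b) = false :=
      Bool.eq_false_iff.2 fun k => e ((vl_eq_iff h).1 (Nat.eq_of_beq_eq_true k))
    rw [this]
    rfl

theorem CM.inS (h : CM R C Y) (hx : x ∈ R) (hy : y ∈ C) : InS (Y x y) := by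
  rcases h.ent x hx y hy with h1 | h1
  · exact Or.inl h1
  rcases h.ent1 x hx y hy with h2 | h2
  · exact Or.inr (Or.inl (sub_eq_zero.1 h2))
  · exact Or.inr (Or.inr ⟨h1, neg_sub (Y x y) 1 ▸ h2.neg⟩)

theorem CM.eqv_nv (h : CM R C Y) : Eqv R C (fun a b => Y a b) (nv Y) := by
  exact fun x hx y hy x' hx' y' hy' => (tvl_inj (h.inS hx hy) (h.inS hx' hy')).symm

theorem eqv_mir (R C : Set E) (Y : Matrix E E R0) :
    Eqv R C (fun a b => Y a b) fun a b => mir Y a b := by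
  exact fun x _ y _ x' _ y' _ => sub_right_inj.symm

theorem eqv_map (R C : Set E) (Y : Matrix E E R0) (φ : R0 ≃+* R0) :
    Eqv R C (fun a b => Y a b) fun a b => Y.map φ a b := by
  exact fun x _ y _ x' _ y' _ => φ.injective.eq_iff.symm

theorem CM.nv_zero (h : CM R C Y) (hx : x ∈ R) (hy : y ∈ C) : nv Y x y = 0 ↔ Y x y = 0 := by
  exact vl_eq_zero (h.ent x hx y hy)

theorem CM.nv_one (h : CM R C Y) (hx : x ∈ R) (hy : y ∈ C) : nv Y x y = 1 ↔ Y x y = 1 := by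
  rw [← vl_eq_iff (h.ent1 x hx y hy), tvl_one, nv]

theorem CM.nv_fund (h : CM R C Y) (hx : x ∈ R) (hy : y ∈ C) : 1 < nv Y x y ↔ Fund (Y x y) := by
  have h0 := h.nv_zero hx hy
  have h1 := h.nv_one hx hy
  constructor
  · intro k
    rcases h.inS hx hy with e | e | e
    · have := h0.2 e
      omega
    · have := h1.2 e
      omega
    · exact e
  · intro k
    have a0 : nv Y x y ≠ 0 := fun e => k.1.ne_zero (h0.1 e)
    have a1 : nv Y x y ≠ 1 := fun e => k.2.ne_zero (by rw [h1.1 e, sub_self])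
    omega

theorem CM.tp (h : CM R C Y) : CM C R Y.transpose := by
  refine ⟨h.gg.tp, h.card.symm, h.card ▸ h.two, fun y hy x hx => h.ent x hx y hy,
    fun y hy x hx => h.ent1 x hx y hy, fun y hy x hx x' hx' => h.cold x hx x' hx' y hy,
    fun y hy y' hy' x hx => h.rowd x hx y hy y' hy', fun y hy y' hy' x hx x' hx' => ?_,
    fun y hy y' hy' x hx x' hx' => ?_, fun y hy y' hy' x hx x' hx' => ?_,
    fun y hy y' hy' y'' hy'' x hx x' hx' => h.m23 x hx x' hx' y hy y' hy' y'' hy'',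
    fun y hy y' hy' x hx x' hx' x'' hx'' => h.m32 x hx x' hx' x'' hx'' y hy y' hy',
    fun y hy y' hy' y'' hy'' x hx x' hx' x'' hx'' => ?_,
    fun y hy y' hy' y'' hy'' x hx x' hx' x'' hx'' => ?_,
    fun y hy y' hy' y'' hy'' x hx x' hx' x'' hx'' => ?_, fun k y hy y' hy' x hx x' hx' => ?_,
    fun k y hy y' hy' y'' hy'' x hx x' hx' x'' hx'' => ?_, fun k y hy y' hy' x hx x' hx' a b => ?_,
    fun k y hy y' hy' y'' hy'' x hx x' hx' x'' hx'' a1 a2 a3 b1 b2 b3 => ?_⟩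
  all_goals simp only [ts_m1t, ts_d2t, ts_d3t]
  exacts [h.m2 x hx x' hx' y hy y' hy', h.g2 x hx x' hx' y hy y' hy', h.b2 x hx x' hx' y hy y' hy',
    h.m3 x hx x' hx' x'' hx'' y hy y' hy' y'' hy'', h.g3 x hx x' hx' x'' hx'' y hy y' hy' y'' hy'',
    h.b3 x hx x' hx' x'' hx'' y hy y' hy' y'' hy'', h.p2 (h.card ▸ k) x hx x' hx' y hy y' hy',
    h.p3 (h.card ▸ k) x hx x' hx' x'' hx'' y hy y' hy' y'' hy'',
    h.f2 (h.card.trans k) x hx x' hx' y hy y' hy' b a,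
    h.f3 (h.card.trans k) x hx x' hx' x'' hx'' y hy y' hy' y'' hy'' b1 b2 b3 a1 a2 a3]

theorem CM.mir (h : CM R C Y) : CM R C (mir Y) := by
  refine ⟨(eqv_mir R C Y).gg h.gg, h.card, h.two, fun x hx y hy => ?_,
    fun x hx y hy => ?_, fun x hx y hy y' hy' => ?_,
    fun x hx x' hx' y hy => ?_, fun x hx x' hx' y hy y' hy' => ?_,
    fun x hx x' hx' y hy y' hy' => ?_, fun x hx x' hx' y hy y' hy' => ?_,
    fun x hx x' hx' x'' hx'' y hy y' hy' => ?_, fun x hx x' hx' y hy y' hy' y'' hy'' => ?_,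
    fun x hx x' hx' x'' hx'' y hy y' hy' y'' hy'' => ?_,
    fun x hx x' hx' x'' hx'' y hy y' hy' y'' hy'' => ?_,
    fun x hx x' hx' x'' hx'' y hy y' hy' y'' hy'' => ?_, fun k x hx x' hx' y hy y' hy' => ?_,
    fun k x hx x' hx' x'' hx'' y hy y' hy' y'' hy'' => ?_, fun k x hx x' hx' y hy y' hy' a b => ?_,
    fun k x hx x' hx' x'' hx'' y hy y' hy' y'' hy'' a1 a2 a3 b1 b2 b3 => ?_⟩
  all_goals simp only [ts_mir, ts_d2m, ts_g2m, ts_d3m, ts_g3m]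
  · exact ts_neg (h.ent1 x hx y hy) (by ring)
  · exact ts_neg (h.ent x hx y hy) (by ring)
  · exact ts_neg (h.rowd x hx y hy y' hy') (by ring)
  · exact ts_neg (h.cold x hx x' hx' y hy) (by ring)
  · exact h.g2 x hx x' hx' y hy y' hy'
  · exact h.m2 x hx x' hx' y hy y' hy'
  · exact ts_neg (h.b2 x hx x' hx' y hy y' hy') (by ring)
  · exact ts_eq (h.m32 x hx x' hx' x'' hx'' y hy y' hy') (by ring)
  · exact ts_eq (h.m23 x hx x' hx' y hy y' hy' y'' hy'') (by ring)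
  · exact (h.g3 x hx x' hx' x'' hx'' y hy y' hy' y'' hy'').neg
  · exact (h.m3 x hx x' hx' x'' hx'' y hy y' hy' y'' hy'').neg
  · exact ts_eq (h.b3 x hx x' hx' x'' hx'' y hy y' hy' y'' hy'') (by ring)
  · exact fun e => e.symm.trans (h.p2 k x hx x' hx' y hy y' hy' e.symm)
  · intro e
    rw [← e, h.p3 k x hx x' hx' x'' hx'' y hy y' hy' y'' hy'' (neg_inj.1 e).symm, neg_zero]
  · obtain ⟨e1, e2⟩ := h.f2 k x hx x' hx' y hy y' hy' a b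
    exact ⟨e1.symm, e1 ▸ e2⟩
  · obtain ⟨e1, e2⟩ := h.f3 k x hx x' hx' x'' hx'' y hy y' hy' y'' hy'' a1 a2 a3 b1 b2 b3
    rw [e1]
    exact ⟨rfl, neg_ne_zero.2 e2⟩

theorem CM.aut (h : CM R C Y) (φ : R0 ≃+* R0) (hφ : ∀ z, InG (φ z) ↔ InG z) :
    CM R C (Y.map φ) := by
  refine ⟨(eqv_map R C Y φ).gg h.gg, h.card, h.two, fun x hx y hy => ?_,
    fun x hx y hy => ?_, fun x hx y hy y' hy' => ?_,
    fun x hx x' hx' y hy => ?_, fun x hx x' hx' y hy y' hy' => ?_,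
    fun x hx x' hx' y hy y' hy' => ?_, fun x hx x' hx' y hy y' hy' => ?_,
    fun x hx x' hx' x'' hx'' y hy y' hy' => ?_, fun x hx x' hx' y hy y' hy' y'' hy'' => ?_,
    fun x hx x' hx' x'' hx'' y hy y' hy' y'' hy'' => ?_,
    fun x hx x' hx' x'' hx'' y hy y' hy' y'' hy'' => ?_,
    fun x hx x' hx' x'' hx'' y hy y' hy' y'' hy'' => ?_, fun k x hx x' hx' y hy y' hy' => ?_,
    fun k x hx x' hx' x'' hx'' y hy y' hy' y'' hy'' => ?_, fun k x hx x' hx' y hy y' hy' a b => ?_,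
    fun k x hx x' hx' x'' hx'' y hy y' hy' y'' hy'' a1 a2 a3 b1 b2 b3 => ?_⟩
  all_goals simp only [ts_m1a, ts_d2a, ts_d3a, Matrix.map_apply, ← map_sub, ← map_mul, Ne,
    φ.injective.eq_iff, map_eq_zero_iff φ φ.injective]
  · exact ts_map hφ (h.ent x hx y hy)
  · exact ts_eq (ts_map hφ (h.ent1 x hx y hy)) (by rw [map_sub, map_one])
  · exact ts_map hφ (h.rowd x hx y hy y' hy')
  · exact ts_map hφ (h.cold x hx x' hx' y hy)
  · exact ts_map hφ (h.m2 x hx x' hx' y hy y' hy')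
  · exact ts_map hφ (h.g2 x hx x' hx' y hy y' hy')
  · exact ts_map hφ (h.b2 x hx x' hx' y hy y' hy')
  · exact ts_map hφ (h.m32 x hx x' hx' x'' hx'' y hy y' hy')
  · exact ts_map hφ (h.m23 x hx x' hx' y hy y' hy' y'' hy'')
  · exact ts_map hφ (h.m3 x hx x' hx' x'' hx'' y hy y' hy' y'' hy'')
  · exact ts_map hφ (h.g3 x hx x' hx' x'' hx'' y hy y' hy' y'' hy'')
  · exact ts_map hφ (h.b3 x hx x' hx' x'' hx'' y hy y' hy' y'' hy'')
  · exact h.p2 k x hx x' hx' y hy y' hy'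
  · exact h.p3 k x hx x' hx' x'' hx'' y hy y' hy' y'' hy''
  · exact h.f2 k x hx x' hx' y hy y' hy' a b
  · exact h.f3 k x hx x' hx' x'' hx'' y hy y' hy' y'' hy'' a1 a2 a3 b1 b2 b3

theorem CM.h22 (h : CM R C Y) : ∀ x ∈ R, ∀ x' ∈ R, ∀ y ∈ C, ∀ y' ∈ C,
    h22 (nv Y x y) (nv Y x y') (nv Y x' y) (nv Y x' y') = true := by
  intro x hx x' hx' y hy y' hy'
  have e1 := h.ent x hx y hy
  have e2 := h.ent x hx y' hy'
  have e3 := h.ent x' hx' y hy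
  have e4 := h.ent x' hx' y' hy'
  have b := h.b2 x hx x' hx' y hy y' hy'
  simp only [G.h22, Bool.and_eq_true, ts_dg2, ts_dt2, ts_sb1]
  simp only [nv, tvl_mul, tvl_sub]
  exact ⟨⟨⟨⟨⟨⟨⟨⟨okE_of e1 e2 (h.rowd x hx y hy y' hy'), okE_of e3 e4 (h.rowd x' hx' y hy y' hy')⟩,
    okE_of e1 e3 (h.cold x hx x' hx' y hy)⟩, okE_of e2 e4 (h.cold x hx x' hx' y' hy')⟩,
    okE_of (e1.mul e4) (e2.mul e3) (h.m2 x hx x' hx' y hy y' hy')⟩,
    okE_of ((h.ent1 x hx y hy).mul (h.ent1 x' hx' y' hy'))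
      ((h.ent1 x hx y' hy').mul (h.ent1 x' hx' y hy)) (h.g2 x hx x' hx' y hy y' hy')⟩,
    okE_of (h.g2 x hx x' hx' y hy y' hy') (h.m2 x hx x' hx' y hy y' hy') b⟩,
    okE_of (h.rowd x hx y' hy' y hy) (h.rowd x' hx' y' hy' y hy)
      (ts_eq b (by rw [ts_b2]; ring))⟩,
    okE_of (h.cold x' hx' x hx y hy) (h.cold x' hx' x hx y' hy') (ts_eq b (by rw [ts_b2]; ring))⟩

theorem CM.nc (h : CM R C Y) (h3 : 3 ≤ R.ncard) : NC R C (nv Y) := by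
  refine ⟨h.eqv_nv.gg h.gg, fun x hx y hy => tvl_mem (h.inS hx hy),
    fun x hx x' hx' y hy y' hy' => ?_, fun x hx x' hx' x'' hx'' y hy y' hy' => ?_,
    fun x hx x' hx' y hy y' hy' y'' hy'' => ?_,
    fun x hx x' hx' x'' hx'' y hy y' hy' y'' hy'' => ?_⟩
  · rw [g22, h.h22 x hx x' hx' y hy y' hy', Bool.true_and, ts_dg2, ts_dt2]
    exact ts_prop (h.b2 x hx x' hx' y hy y' hy') (h.p2 h3 x hx x' hx' y hy y' hy')
  · simp only [t32, nv, tvl_mul, tvl_sub]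
    exact okE_of ((h.cold x' hx' x hx y hy).mul (h.cold x'' hx'' x hx y' hy'))
      ((h.cold x' hx' x hx y' hy').mul (h.cold x'' hx'' x hx y hy))
      (h.m32 x hx x' hx' x'' hx'' y hy y' hy')
  · simp only [t32, nv, tvl_mul, tvl_sub]
    exact okE_of ((h.rowd x hx y' hy' y hy).mul (h.rowd x' hx' y'' hy'' y hy))
      ((h.rowd x' hx' y' hy' y hy).mul (h.rowd x hx y'' hy'' y hy))
      (h.m23 x hx x' hx' y hy y' hy' y'' hy'')
  · rw [t33, ts_dg3, ts_dt3]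
    exact okE_of (h.g3 x hx x' hx' x'' hx'' y hy y' hy' y'' hy'')
      (h.m3 x hx x' hx' x'' hx'' y hy y' hy' y'' hy'')
      (h.b3 x hx x' hx' x'' hx'' y hy y' hy' y'' hy'')

theorem CM.n4 (h : CM R C Y) (h4 : 4 ≤ R.ncard) : N4 R C (nv Y) := by
  refine ⟨h.nc (by omega), fun x hx x' hx' x'' hx'' y hy y' hy' y'' hy'' => ?_, h4, h.card ▸ h4⟩
  rw [p33, ts_dg3, ts_dt3]
  exact ts_prop (h.b3 x hx x' hx' x'' hx'' y hy y' hy' y'' hy'')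
    (h.p3 h4 x hx x' hx' x'' hx'' y hy y' hy' y'' hy'')

/-- For three rows the whole block is not proper. -/
theorem CM.full (h : CM R C Y) (h3 : R.ncard = 3) : ∀ x ∈ R, ∀ x' ∈ R, ∀ x'' ∈ R, ∀ y ∈ C, ∀ y' ∈ C,
    ∀ y'' ∈ C, x ≠ x' → x ≠ x'' → x' ≠ x'' → y ≠ y' → y ≠ y'' → y' ≠ y'' →
      p33 (nv Y x y) (nv Y x y') (nv Y x y'') (nv Y x' y) (nv Y x' y') (nv Y x' y'') (nv Y x'' y)
        (nv Y x'' y') (nv Y x'' y'') = false := by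
  intro x hx x' hx' x'' hx'' y hy y' hy' y'' hy'' a1 a2 a3 b1 b2 b3
  obtain ⟨e1, e2⟩ := h.f3 h3 x hx x' hx' x'' hx'' y hy y' hy' y'' hy'' a1 a2 a3 b1 b2 b3
  have e3 := (vl_eq_zero (h.m3 x hx x' hx' x'' hx'' y hy y' hy' y'' hy'')).not.2 e2
  have e4 : (tvl (d3 Y x x' x'' y y' y'')).beq 0 = false :=
    Bool.eq_false_iff.2 fun k => e3 (Nat.eq_of_beq_eq_true k)
  rw [p33, ts_dg3, ts_dt3, e1, e4, Nat.beq_refl]
  rfl

/-- A block with rows `0 A`, `B 1` is normalised by an automorphism. -/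
theorem CM.normI (h : CM R C Y) (h3 : 3 ≤ R.ncard) {x1 x2 y1 y2 : E} (a1 : x1 ∈ R) (a2 : x2 ∈ R)
    (b1 : y1 ∈ C) (b2 : y2 ∈ C) (e11 : Y x1 y1 = 0) (e12 : Fund (Y x1 y2)) (e21 : Fund (Y x2 y1))
    (e22 : Y x2 y2 = 1) : ∃ φ : R0 ≃+* R0, (∀ z, InG (φ z) ↔ InG z) ∧
      Sd R C (nv (Y.map φ)) x1 x2 y1 y2 0 123457 234573 1 := by
  have k1 := h.b2 x1 a1 x2 a2 y1 b1 y2 b2
  have k2 := h.p2 h3 x1 a1 x2 a2 y1 b1 y2 b2
  have k3 : InG (d2 (m1 Y) x1 x2 y1 y2 - d2 Y x1 x2 y1 y2) := k1.resolve_left fun e => by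
    have k4 := k2 (sub_eq_zero.1 e)
    rw [d2, e11, zero_mul, zero_sub, neg_eq_zero] at k4
    exact (e12.1.mul e21.1).ne_zero k4
  have k5 : Y x1 y2 - (1 - Y x2 y1) = d2 (m1 Y) x1 x2 y1 y2 - d2 Y x1 x2 y1 y2 := by
    rw [ts_b2, e11, e22]
    ring
  obtain ⟨φ, c1, c2, c3⟩ := Cp.aut ⟨e12, ts_fund e21, k5 ▸ k3⟩
  have c4 : φ (Y x2 y1) = 1 - b0 := by rw [← c2, map_sub, map_one, sub_sub_cancel]
  refine ⟨φ, c3, a1, a2, b1, b2, ?_, ?_, ?_, ?_⟩ <;> rw [nv, Matrix.map_apply]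
  · rw [e11, map_zero, tvl_zero]
  · rw [c1, tvl_a0]
  · rw [c4, ← tvl_sub, tvl_one, tvl_b0]
    rfl
  · rw [e22, map_one, tvl_one]

/-- Every properly coloured cycle can be brought to one of three forms. -/
theorem seed_wlog (h3 : 3 ≤ R.ncard) {P : Matrix E E R0 → E → E → E → E → Prop}
    (hrow : ∀ Y x1 x2 y1 y2, P Y x1 x2 y1 y2 → P Y x2 x1 y1 y2)
    (hcol : ∀ Y x1 x2 y1 y2, P Y x1 x2 y1 y2 → P Y x1 x2 y2 y1)
    (hmir : ∀ Y x1 x2 y1 y2, x1 ∈ R → x2 ∈ R → y1 ∈ C → y2 ∈ C → P (mir Y) x1 x2 y1 y2 →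
      P Y x1 x2 y1 y2)
    (haut : ∀ Y x1 x2 y1 y2 (φ : R0 ≃+* R0), x1 ∈ R → x2 ∈ R → y1 ∈ C → y2 ∈ C →
      (∀ z, InG (φ z) ↔ InG z) → P (Y.map φ) x1 x2 y1 y2 → P Y x1 x2 y1 y2)
    (hI : ∀ Y x1 x2 y1 y2, CM R C Y → Sd R C (nv Y) x1 x2 y1 y2 0 123457 234573 1 →
      P Y x1 x2 y1 y2)
    (hC : ∀ Y x1 x2 y1 y2, CM R C Y → Sd R C (nv Y) x1 x2 y1 y2 0 123457 638297 765431 →
      P Y x1 x2 y1 y2)
    (hO : ∀ Y x1 x2 y1 y2, CM R C Y → Sd R C (nv Y) x1 x2 y1 y2 0 123457 414895 0 →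
      P Y x1 x2 y1 y2) :
    ∀ Y x1 x2 y1 y2, CM R C Y → x1 ∈ R → x2 ∈ R → y1 ∈ C → y2 ∈ C →
      PC4 (fun a b => Y a b) x1 x2 y1 y2 → P Y x1 x2 y1 y2 := by
  have key0 : ∀ Y x1 x2 y1 y2, CM R C Y → x1 ∈ R → x2 ∈ R → y1 ∈ C → y2 ∈ C →
      PC4 (fun a b => Y a b) x1 x2 y1 y2 → Y x1 y1 = 0 → Fund (Y x1 y2) → Fund (Y x2 y1) →
      P Y x1 x2 y1 y2 := by
    intro Y x1 x2 y1 y2 h a1 a2 b1 b2 h4 e11 e12 e21
    have main : ∀ φ : R0 ≃+* R0, (∀ z, InG (φ z) ↔ InG z) → φ (Y x1 y2) = a0 →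
        nv (Y.map φ) x1 y1 = 0 ∧ nv (Y.map φ) x1 y2 = 123457 ∧ nv (Y.map φ) x2 y1 ∈ pvL ∧
          g22 0 123457 (nv (Y.map φ) x2 y1) (nv (Y.map φ) x2 y2) = true ∧
            nv (Y.map φ) x2 y1 ≠ 0 ∧ nv (Y.map φ) x2 y1 ≠ nv (Y.map φ) x2 y2 := fun φ c3 c1 => by
      have h' := h.aut φ c3
      have n := h'.nc h3
      have k := h'.eqv_nv.pc4 a1 a2 b1 b2 ((eqv_map R C Y φ).pc4 a1 a2 b1 b2 h4)
      have d1 : nv (Y.map φ) x1 y1 = 0 := by rw [nv, Matrix.map_apply, e11, map_zero, tvl_zero]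
      have d2 : nv (Y.map φ) x1 y2 = 123457 := by rw [nv, Matrix.map_apply, c1, tvl_a0]
      have d3 := n.s22 x1 a1 x2 a2 y1 b1 y2 b2
      rw [d1, d2] at d3
      exact ⟨d1, d2, n.mem x2 a2 y1 b1, d3, d1 ▸ k.2.2.1.symm, k.2.1⟩
    rcases h.inS a2 b2 with e22 | e22 | e22
    · obtain ⟨q, hq⟩ := e12.exists_cp
      obtain ⟨φ, c1, -, c3⟩ := hq.aut
      obtain ⟨d1, d2, d3, d4, d5, -⟩ := main φ c3 c1
      have d6 : nv (Y.map φ) x2 y2 = 0 := by rw [nv, Matrix.map_apply, e22, map_zero, tvl_zero]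
      rw [d6] at d4
      exact haut Y x1 x2 y1 y2 φ a1 a2 b1 b2 c3
        (hO _ _ _ _ _ (h.aut φ c3) ⟨a1, a2, b1, b2, d1, d2, bO_tab _ d3 d4 d5, d6⟩)
    · obtain ⟨φ, c3, d⟩ := h.normI h3 a1 a2 b1 b2 e11 e12 e21 e22
      exact haut Y x1 x2 y1 y2 φ a1 a2 b1 b2 c3 (hI _ _ _ _ _ (h.aut φ c3) d)
    · obtain ⟨φ, c1, c2, c3⟩ := Cp.aut ⟨e12, e22, (h.cold x1 a1 x2 a2 y2 b2).resolve_left
        (sub_ne_zero.2 h4.2.2.2)⟩
      obtain ⟨d1, d2, d3, d4, d5, d7⟩ := main φ c3 c1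
      have d6 : nv (Y.map φ) x2 y2 = 765431 := by rw [nv, Matrix.map_apply, c2, tvl_b0]
      rw [d6] at d4 d7
      exact haut Y x1 x2 y1 y2 φ a1 a2 b1 b2 c3
        (hC _ _ _ _ _ (h.aut φ c3) ⟨a1, a2, b1, b2, d1, d2, bC_tab _ d3 d4 d5 d7, d6⟩)
  have key1 : ∀ Y x1 x2 y1 y2, CM R C Y → x1 ∈ R → x2 ∈ R → y1 ∈ C → y2 ∈ C →
      PC4 (fun a b => Y a b) x1 x2 y1 y2 → nv Y x1 y1 ≤ 1 → 1 < nv Y x1 y2 → 1 < nv Y x2 y1 →
      P Y x1 x2 y1 y2 := by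
    intro Y x1 x2 y1 y2 h a1 a2 b1 b2 h4 e11 e12 e21
    rw [h.nv_fund a1 b2] at e12
    rw [h.nv_fund a2 b1] at e21
    rcases Nat.le_one_iff_eq_zero_or_eq_one.1 e11 with e | e
    · exact key0 Y x1 x2 y1 y2 h a1 a2 b1 b2 h4 ((h.nv_zero a1 b1).1 e) e12 e21
    · refine hmir Y x1 x2 y1 y2 a1 a2 b1 b2 (key0 _ x1 x2 y1 y2 h.mir a1 a2 b1 b2
        ((eqv_mir R C Y).pc4 a1 a2 b1 b2 h4) ?_ (ts_fund e12) (ts_fund e21))
      rw [ts_mir, (h.nv_one a1 b1).1 e, sub_self]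
  intro Y x1 x2 y1 y2 h a1 a2 b1 b2 h4
  have n := h.nc h3
  have k := h.eqv_nv.pc4 a1 a2 b1 b2 h4
  rcases pc_tab (n.mem x1 a1 y1 b1) (n.mem x1 a1 y2 b2) (n.mem x2 a2 y1 b1) (n.mem x2 a2 y2 b2)
    (n.s22 x1 a1 x2 a2 y1 b1 y2 b2) k.1 k.2.1 k.2.2.1 k.2.2.2 with c | c | c | c
  · exact key1 Y x1 x2 y1 y2 h a1 a2 b1 b2 h4 c.1 c.2.1 c.2.2
  · exact hrow _ _ _ _ _ (hcol _ _ _ _ _
      (key1 Y x2 x1 y2 y1 h a2 a1 b2 b1 h4.row.col c.1 c.2.2 c.2.1))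
  · exact hcol _ _ _ _ _ (key1 Y x1 x2 y2 y1 h a1 a2 b2 b1 h4.col c.1 c.2.1 c.2.2)
  · exact hrow _ _ _ _ _ (key1 Y x2 x1 y1 y2 h a2 a1 b1 b2 h4.row c.1 c.2.2 c.2.1)

end Pool.Agent.Lib.MP_10bdcf_co.G
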