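import Pool.Agent.Lib.MP_10bdcf_co.Pencil

/-!
The maximum-sized 2-regular matroids T_r^2 satisfy the hypothesis of the pencil theorem.
-/

namespace Pool.Agent.Lib.MP_10bdcf_co

open Matrix

/-- Square matrices whose columns are differences of two unit-or-zero vectors have
determinant 0, 1 or -1. -/
theorem det_incidence : ∀ (n : ℕ) (p q : Fin n → Option (Fin n)),
    (Matrix.of fun i j => (if p j = some i then (1 : ℤ) else 0) -
      (if q j = some i then 1 else 0)).det ∈ ({0, 1, -1} : Set ℤ) := by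
  intro n
  induction n with
  | zero => intro p q; simp
  | succ n ih =>
    intro p q
    set N : Matrix (Fin (n + 1)) (Fin (n + 1)) ℤ := Matrix.of fun i j =>
      (if p j = some i then (1 : ℤ) else 0) - (if q j = some i then 1 else 0) with hN
    by_cases h : ∀ j, (p j).isSome ∧ (q j).isSome
    · left
      apply Matrix.exists_vecMul_eq_zero_iff.mp
      refine ⟨fun _ => 1, fun h0 => one_ne_zero (congrFun h0 0), ?_⟩
      funext j
      obtain ⟨a, ha⟩ := Option.isSome_iff_exists.mp (h j).1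
      obtain ⟨b, hb⟩ := Option.isSome_iff_exists.mp (h j).2
      simp [Matrix.vecMul, dotProduct, hN, ha, hb, Finset.sum_sub_distrib]
    · push Not at h
      obtain ⟨j, hj⟩ := h
      have hsub : ∀ i : Fin (n + 1), (N.submatrix i.succAbove j.succAbove).det ∈
          ({0, 1, -1} : Set ℤ) := by
        intro i
        have key : ∀ o : Option (Fin (n + 1)), ∃ o' : Option (Fin n),
            ∀ a, o = some (i.succAbove a) ↔ o' = some a := by
          intro o
          by_cases ho : ∃ a, o = some (i.succAbove a)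
          · obtain ⟨a, rfl⟩ := ho
            exact ⟨some a, fun c => by simp⟩
          · push Not at ho
            exact ⟨none, fun c => by simp [ho c]⟩
        choose φ hφ using key
        have := ih (fun c => φ (p (j.succAbove c))) (fun c => φ (q (j.succAbove c)))
        convert this using 2
        refine Matrix.ext fun a c => ?_
        simp [hN, hφ]
      have hcol : ∃ (i : Fin (n + 1)) (x : ℤ), (x = 0 ∨ x = 1 ∨ x = -1) ∧
          ∀ a, N a j = if a = i then x else 0 := by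
        rcases hp : p j with _ | a
        · rcases hq : q j with _ | c
          · exact ⟨0, 0, by simp, fun a => by simp [hN, hp, hq]⟩
          · exact ⟨c, -1, by simp, fun a => by
              by_cases h : a = c
              · simp [hN, hp, hq, h]
              · simp [hN, hp, hq, h, Ne.symm h]⟩
        · have hq : q j = none := by
            have := hj (by simp [hp])
            simpa using this
          exact ⟨a, 1, by simp, fun c => by
            by_cases h : c = a
            · simp [hN, hp, hq, h]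
            · simp [hN, hp, hq, h, Ne.symm h]⟩
      obtain ⟨i, x, hx, hc⟩ := hcol
      rw [Matrix.det_succ_column N j, Finset.sum_eq_single i]
      · have h1 := hsub i
        have h2 : (-1 : ℤ) ^ (i + j : ℕ) = 1 ∨ (-1 : ℤ) ^ (i + j : ℕ) = -1 := neg_one_pow_eq_or _ _
        simp only [Set.mem_insert_iff, Set.mem_singleton_iff] at h1 ⊢
        rw [hc i, if_pos rfl]
        rcases h1 with h1 | h1 | h1 <;> rcases h2 with h2 | h2 <;>
          rcases hx with rfl | rfl | rfl <;> simp [h1, h2]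
      · intro a _ ha; simp [hc a, ha]
      · simp

/-- The columns of T_(m+1)^2: `e_0`, the vectors `x e_0 + e_i` with `x` one of
0, 1, alpha_1, alpha_2, and the vectors `e_i - e_j` with `i < j`. -/
abbrev TCol (m : ℕ) : Type := Unit ⊕ (Fin m × Fin 4) ⊕ {p : Fin m × Fin m // p.1 < p.2}

/-- First row of the matrix of T_(m+1)^2, for general gains. -/
def Trow {R : Type} [Zero R] {m : ℕ} (c : R) (x : Fin 4 → R) : TCol m → R
  | Sum.inl _ => c
  | Sum.inr (Sum.inl p) => x p.2
  | Sum.inr (Sum.inr _) => 0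

/-- The other rows of the matrix of T_(m+1)^2. -/
def Trest {R : Type} [Ring R] {m : ℕ} (i : Fin m) : TCol m → R
  | Sum.inl _ => 0
  | Sum.inr (Sum.inl p) => if p.1 = i then 1 else 0
  | Sum.inr (Sum.inr p) => (if p.1.1 = i then 1 else 0) - (if p.1.2 = i then 1 else 0)

/-- The matrix with first row `Trow c x`. -/
def Tgen {R : Type} [Ring R] (m : ℕ) (c : R) (x : Fin 4 → R) : Matrix (Fin (m + 1)) (TCol m) R :=
  Matrix.of (Fin.cons (Trow c x) fun i => Trest i)

/-- The standard matrix of the matroid T_(m+1)^2. -/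
noncomputable def Tmat (m : ℕ) : Matrix (Fin (m + 1)) (TCol m) K2 := Tgen m 1 ![0, 1, al, be]

theorem Tgen_det_lin (m : ℕ) (f : Fin (m + 1) → TCol m) :
    ∃ (n : ℤ) (k : Fin 4 → ℤ), ∀ {S : Type} [CommRing S] (c : S) (x : Fin 4 → S),
      ((Tgen m c x).submatrix id f).det = c * n + ∑ a, x a * k a := by
  classical
  set cof : Fin (m + 1) → ℤ := fun j => (-1) ^ (j : ℕ) *
    (Matrix.of fun (i : Fin m) (c : Fin m) => (Trest i (f (j.succAbove c)) : ℤ)).det with hcof
  refine ⟨∑ j, Trow (1 : ℤ) 0 (f j) * cof j, fun a => ∑ j, Trow (0 : ℤ) (Pi.single a 1) (f j) * cof j,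
    fun {S} _ c x => ?_⟩
  rw [Matrix.det_succ_row_zero]
  push_cast
  simp only [Finset.mul_sum]
  rw [Finset.sum_comm, ← Finset.sum_add_distrib]
  refine Finset.sum_congr rfl fun j _ => ?_
  have h1 : ((((Tgen m c x).submatrix id f).submatrix Fin.succ j.succAbove).det : S) =
      (((Matrix.of fun (i : Fin m) (c : Fin m) => (Trest i (f (j.succAbove c)) : ℤ)).det : ℤ) : S) := by
    rw [Int.cast_det]
    congr 1
    refine Matrix.ext fun i d => ?_
    simp only [Tgen, Matrix.submatrix_apply, id, Matrix.of_apply, Fin.cons_succ, Matrix.map_apply]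
    rcases f (j.succAbove d) with _ | p | p <;> simp [Trest]
  rw [h1]
  simp only [hcof, Tgen, Matrix.submatrix_apply, id, Matrix.of_apply, Fin.cons_zero]
  push_cast
  rcases f j with _ | p | p
  · simp [Trow]; ring
  · simp only [Trow, Pi.zero_apply, Int.cast_zero, zero_mul, mul_zero, zero_add]
    rw [Finset.sum_eq_single p.2]
    · simp; ring
    · intro a _ ha; simp [Ne.symm ha]
    · simp
  · simp [Trow]

theorem Tgen_det_mem (m : ℕ) (f : Fin (m + 1) → TCol m) (c : Bool) (T : Fin 4 → Bool) :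
    ((Tgen m (if c then (-1 : ℤ) else 0) fun a => if T a then -1 else 0).submatrix id f).det ∈
      ({0, 1, -1} : Set ℤ) := by
  let p : TCol m → Option (Fin (m + 1)) := fun e => match e with
    | Sum.inl _ => none
    | Sum.inr (Sum.inl p) => some p.1.succ
    | Sum.inr (Sum.inr p) => some p.1.1.succ
  let q : TCol m → Option (Fin (m + 1)) := fun e => match e with
    | Sum.inl _ => if c then some 0 else none
    | Sum.inr (Sum.inl p) => if T p.2 then some 0 else none
    | Sum.inr (Sum.inr p) => some p.1.2.succ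
  have := det_incidence (m + 1) (fun j => p (f j)) (fun j => q (f j))
  convert this using 2
  refine Matrix.ext fun i j => ?_
  simp only [Tgen, Matrix.submatrix_apply, id, Matrix.of_apply]
  rcases f j with _ | e | e
  · refine Fin.cases ?_ (fun i => ?_) i
    · cases c <;> simp [p, q, Trow]
    · cases c <;> simp [p, q, Trest, (Fin.succ_ne_zero i).symm]
  · refine Fin.cases ?_ (fun i => ?_) i
    · cases hT : T e.2 <;> simp [p, q, Trow, hT]
    · cases hT : T e.2 <;> simp [p, q, Trest, hT, (Fin.succ_ne_zero i).symm]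
  · refine Fin.cases ?_ (fun i => ?_) i
    · simp [p, q, Trow]
    · simp [p, q, Trest]

theorem Tgen_det_zero (m : ℕ) (f : Fin (m + 1) → TCol m) :
    ((Tgen m (0 : ℤ) fun _ => -1).submatrix id f).det = 0 := by
  apply Matrix.exists_vecMul_eq_zero_iff.mp
  refine ⟨fun _ => 1, fun h0 => one_ne_zero (congrFun h0 0), ?_⟩
  funext j
  simp only [Matrix.vecMul, dotProduct, Tgen, Matrix.submatrix_apply, id, Matrix.of_apply,
    Fin.sum_univ_succ, Fin.cons_zero, Fin.cons_succ, one_mul, Pi.zero_apply]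
  rcases f j with _ | e | e <;> simp [Trow, Trest, Finset.sum_sub_distrib]

theorem al_ne_zero : al ≠ 0 := fun h => by
  have := (Val.al 0).unique (h ▸ Val.zero 0)
  have h2 := norm_zeta
  rw [this] at h2
  simp at h2

theorem al_ne_one : al ≠ 1 := fun h => by
  have := (Val.al 0).unique (h ▸ Val.one 0)
  have h2 := norm_zeta_sub
  rw [this] at h2
  simp at h2

theorem diff_mem {P : Set K2} {x y : K2} (hx : x ∈ P) (hy : y ∈ P) (hxy : x ≠ y) :
    ∃ g ∈ diffGroup P, (g : K2) = x - y :=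
  ⟨Units.mk0 (x - y) (sub_ne_zero.mpr hxy),
    Subgroup.subset_closure (Or.inr ⟨x, hx, y, hy, hxy, rfl⟩), rfl⟩

theorem arith (n k0 k1 k2 k3 : ℤ) (hz : k0 + k1 + k2 + k3 = 0)
    (a0 : -1 ≤ n ∧ n ≤ 1) (a1 : -1 ≤ k0 ∧ k0 ≤ 1) (a2 : -1 ≤ k1 ∧ k1 ≤ 1)
    (a3 : -1 ≤ k2 ∧ k2 ≤ 1) (a4 : -1 ≤ k3 ∧ k3 ≤ 1)
    (b1 : -1 ≤ n + k0 ∧ n + k0 ≤ 1) (b2 : -1 ≤ n + k1 ∧ n + k1 ≤ 1)
    (b3 : -1 ≤ n + k2 ∧ n + k2 ≤ 1) (b4 : -1 ≤ n + k3 ∧ n + k3 ≤ 1)
    (c1 : -1 ≤ k0 + k1 ∧ k0 + k1 ≤ 1) (c2 : -1 ≤ k0 + k2 ∧ k0 + k2 ≤ 1)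
    (c3 : -1 ≤ k0 + k3 ∧ k0 + k3 ≤ 1) :
    (n + k1 = 0 ∧ k2 = 0 ∧ k3 = 0) ∨ (n + k1 = 1 ∧ k2 = 0 ∧ k3 = 0) ∨
      (n + k1 = -1 ∧ k2 = 0 ∧ k3 = 0) ∨ (n + k1 = 0 ∧ k2 = 1 ∧ k3 = 0) ∨
      (n + k1 = 0 ∧ k2 = -1 ∧ k3 = 0) ∨ (n + k1 = -1 ∧ k2 = 1 ∧ k3 = 0) ∨
      (n + k1 = 1 ∧ k2 = -1 ∧ k3 = 0) ∨ (n + k1 = 0 ∧ k2 = 0 ∧ k3 = 1) ∨
      (n + k1 = 0 ∧ k2 = 0 ∧ k3 = -1) ∨ (n + k1 = -1 ∧ k2 = 0 ∧ k3 = 1) ∨
      (n + k1 = 1 ∧ k2 = 0 ∧ k3 = -1) ∨ (n + k1 = 0 ∧ k2 = -1 ∧ k3 = 1) ∨
      (n + k1 = 0 ∧ k2 = 1 ∧ k3 = -1) := by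
  obtain ⟨h1, h2⟩ := a0
  obtain ⟨h3, h4⟩ := a2
  obtain ⟨h5, h6⟩ := a3
  obtain ⟨h7, h8⟩ := a4
  obtain rfl : k0 = -k1 - k2 - k3 := by omega
  interval_cases n <;> interval_cases k1 <;> interval_cases k2 <;> interval_cases k3 <;>
    simp_all

theorem Tmat_minorsAffine (m : ℕ) : MinorsAffine (Tmat m) := by
  intro f
  obtain ⟨n, k, h⟩ := Tgen_det_lin m f
  have hs : ∀ (c : Bool) (T : Fin 4 → Bool),
      (if c then (-1 : ℤ) else 0) * n + ∑ a, (if T a then (-1 : ℤ) else 0) * k a ∈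
        ({0, 1, -1} : Set ℤ) := by
    intro c T
    have := Tgen_det_mem m f c T
    rw [h] at this
    simpa using this
  have hz := Tgen_det_zero m f
  rw [h] at hz
  have hd : ((Tmat m).submatrix id f).det = n + k 1 + al * k 2 + be * k 3 := by
    rw [Tmat, h]
    simp [Fin.sum_univ_four]
    ring
  have hs' : ∀ c t0 t1 t2 t3 : Bool, |(if c then (-1 : ℤ) else 0) * n +
      ((if t0 then (-1 : ℤ) else 0) * k 0 + (if t1 then (-1 : ℤ) else 0) * k 1 +
        (if t2 then (-1 : ℤ) else 0) * k 2 + (if t3 then (-1 : ℤ) else 0) * k 3)| ≤ 1 := by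
    intro c t0 t1 t2 t3
    have := hs c ![t0, t1, t2, t3]
    rw [Fin.sum_univ_four] at this
    rcases this with h | h | h
    · exact le_of_eq_of_le (congrArg abs h) (by simp)
    · exact le_of_eq_of_le (congrArg abs h) (by simp)
    · exact le_of_eq_of_le (congrArg abs h) (by simp)
  have a0 := hs' true false false false false
  have a1 := hs' false true false false false
  have a2 := hs' false false true false false
  have a3 := hs' false false false true false
  have a4 := hs' false false false false true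
  have b1 := hs' true true false false false
  have b2 := hs' true false true false false
  have b3 := hs' true false false true false
  have b4 := hs' true false false false true
  have c1 := hs' false true true false false
  have c2 := hs' false true false true false
  have c3 := hs' false true false false true
  simp only [Fin.sum_univ_four, Int.cast_id] at hz
  simp only [abs_le, if_true, Bool.false_eq_true, if_false]
    at a0 a1 a2 a3 a4 b1 b2 b3 b4 c1 c2 c3
  have hG : ∀ x ∈ ({0, 1, al} : Set K2), ∀ y ∈ ({0, 1, al} : Set K2), x ≠ y →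
      ∀ l ∈ ({1, be, be - 1, be - al} : Set K2), ((Tmat m).submatrix id f).det = (x - y) * l →
      ((Tmat m).submatrix id f).det = 0 ∨ ∃ g ∈ G1, ∃ l ∈ ({1, be, be - 1, be - al} : Set K2),
        ((Tmat m).submatrix id f).det = (g : K2) * l := by
    intro x hx y hy hxy l hl e
    obtain ⟨g, hg, hg'⟩ := diff_mem hx hy hxy
    exact Or.inr ⟨g, hg, l, hl, by rw [hg', e]⟩
  have hcases := arith n (k 0) (k 1) (k 2) (k 3) (by omega) (by omega) (by omega) (by omega)
    (by omega) (by omega) (by omega) (by omega) (by omega) (by omega) (by omega) (by omega)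
    (by omega)
  rw [← Int.cast_add] at hd
  rcases hcases with ⟨h1, h2, h3⟩ | ⟨h1, h2, h3⟩ | ⟨h1, h2, h3⟩ | ⟨h1, h2, h3⟩ |
    ⟨h1, h2, h3⟩ | ⟨h1, h2, h3⟩ | ⟨h1, h2, h3⟩ | ⟨h1, h2, h3⟩ | ⟨h1, h2, h3⟩ | ⟨h1, h2, h3⟩ |
    ⟨h1, h2, h3⟩ | ⟨h1, h2, h3⟩ | ⟨h1, h2, h3⟩
  · left; rw [hd, h1, h2, h3]; simp
  · exact hG 1 (by simp) 0 (by simp) one_ne_zero 1 (by simp) (by rw [hd, h1, h2, h3]; simp)
  · exact hG 0 (by simp) 1 (by simp) zero_ne_one 1 (by simp) (by rw [hd, h1, h2, h3]; simp)
  · exact hG al (by simp) 0 (by simp) al_ne_zero 1 (by simp) (by rw [hd, h1, h2, h3]; simp)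
  · exact hG 0 (by simp) al (by simp) al_ne_zero.symm 1 (by simp) (by rw [hd, h1, h2, h3]; simp)
  · exact hG al (by simp) 1 (by simp) al_ne_one 1 (by simp)
      (by rw [hd, h1, h2, h3]; push_cast; ring)
  · exact hG 1 (by simp) al (by simp) al_ne_one.symm 1 (by simp)
      (by rw [hd, h1, h2, h3]; push_cast; ring)
  · exact hG 1 (by simp) 0 (by simp) one_ne_zero be (by simp) (by rw [hd, h1, h2, h3]; simp)
  · exact hG 0 (by simp) 1 (by simp) zero_ne_one be (by simp) (by rw [hd, h1, h2, h3]; simp)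
  · exact hG 1 (by simp) 0 (by simp) one_ne_zero (be - 1) (by simp)
      (by rw [hd, h1, h2, h3]; push_cast; ring)
  · exact hG 0 (by simp) 1 (by simp) zero_ne_one (be - 1) (by simp)
      (by rw [hd, h1, h2, h3]; push_cast; ring)
  · exact hG 1 (by simp) 0 (by simp) one_ne_zero (be - al) (by simp)
      (by rw [hd, h1, h2, h3]; push_cast; ring)
  · exact hG 0 (by simp) 1 (by simp) zero_ne_one (be - al) (by simp)
      (by rw [hd, h1, h2, h3]; push_cast; ring)

theorem be_ne {x : K2} {z : ℂ} (h : ∀ b, Val b x z) : be ≠ x := fun e => by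
  have := (Val.be (z + 1)).unique (e ▸ h (z + 1))
  simp at this

theorem isWeakU2_of_minorsAffine {r : ℕ} {E : Type} {A : Matrix (Fin r) E K2}
    (h : MinorsAffine A) (h0 : ∃ f : Fin r → E, (A.submatrix id f).det ≠ 0) : IsWeakU2 A := by
  refine ⟨fun f => (h f).imp_right ?_, h0⟩
  rintro ⟨g, hg, l, hl, e⟩
  have hg2 : g ∈ G2 := by
    refine Subgroup.closure_mono ?_ hg
    rintro u (hu | ⟨x, hx, y, hy, hxy, hu⟩)
    · exact Or.inl hu
    · refine Or.inr ⟨x, ?_, y, ?_, hxy, hu⟩
      · simp only [Set.mem_insert_iff, Set.mem_singleton_iff] at hx ⊢; tauto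
      · simp only [Set.mem_insert_iff, Set.mem_singleton_iff] at hy ⊢; tauto
  obtain ⟨u, hu, hu'⟩ : ∃ u ∈ G2, (u : K2) = l := by
    simp only [Set.mem_insert_iff, Set.mem_singleton_iff] at hl
    rcases hl with rfl | rfl | rfl | rfl
    · exact ⟨1, G2.one_mem, rfl⟩
    · simpa [G2] using diff_mem (P := {0, 1, al, be}) (x := be) (y := 0) (by simp) (by simp)
        (be_ne Val.zero)
    · exact diff_mem (by simp) (by simp) (be_ne Val.one)
    · exact diff_mem (by simp) (by simp) (be_ne Val.al)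
  exact ⟨g * u, G2.mul_mem hg2 hu, by rw [e, Units.val_mul, hu']⟩

theorem Tmat_isWeakU2 (m : ℕ) : IsWeakU2 (Tmat m) := by
  refine isWeakU2_of_minorsAffine (Tmat_minorsAffine m)
    ⟨Fin.cons (Sum.inl ()) fun i => Sum.inr (Sum.inl (i, 0)), ?_⟩
  have : (Tmat m).submatrix id (Fin.cons (Sum.inl ()) fun i => Sum.inr (Sum.inl (i, 0))) = 1 := by
    refine Matrix.ext fun i j => ?_
    refine Fin.cases ?_ (fun i => ?_) i <;> refine Fin.cases ?_ (fun j => ?_) j <;>
      simp [Tmat, Tgen, Trow, Trest, Matrix.one_apply, eq_comm]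
  rw [this]
  simp

/-- The matroids T_r^2 are QU. -/
theorem Tmat_isQU (m : ℕ) (M : Matroid (TCol m)) (hM : RepresentsK (Tmat m) M) : IsQU M :=
  isQU_of_minorsAffine _ M (Tmat_isWeakU2 m) (Tmat_minorsAffine m) hM

end Pool.Agent.Lib.MP_10bdcf_co
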