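import Pool.Agent.Lib.MP_10bdcf_co.GT

/-!
The ring of the partial field U_2, its group of monomials, points and tangent vectors.
-/

namespace Pool.Agent.Lib.MP_10bdcf_co.G

open MvPolynomial

/-- Integer polynomials in two indeterminates. -/
abbrev P2 : Type := MvPolynomial (Fin 2) ℤ

/-- The product of the five generators. -/
noncomputable def dl : P2 := X 0 * X 1 * (1 - X 0) * (1 - X 1) * (X 0 - X 1)

/-- The ring of the partial field. -/
abbrev R0 : Type := Localization.Away dl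

/-- The first indeterminate. -/
noncomputable def a0 : R0 := algebraMap P2 R0 (X 0)

/-- The second indeterminate. -/
noncomputable def b0 : R0 := algebraMap P2 R0 (X 1)

theorem isUnit_dl : IsUnit (a0 * b0 * (1 - a0) * (1 - b0) * (a0 - b0)) := by
  have := IsLocalization.Away.algebraMap_isUnit (S := R0) dl
  simpa [dl, a0, b0] using this

theorem isUnit_five : IsUnit a0 ∧ IsUnit b0 ∧ IsUnit (1 - a0) ∧ IsUnit (1 - b0) ∧ IsUnit (a0 - b0) := by
  have := isUnit_dl
  simp only [IsUnit.mul_iff] at this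
  tauto

/-- The generators as units. -/
noncomputable def g0 : R0ˣ := isUnit_five.1.unit
/-- The generators as units. -/
noncomputable def g1 : R0ˣ := isUnit_five.2.1.unit
/-- The generators as units. -/
noncomputable def g2 : R0ˣ := isUnit_five.2.2.1.unit
/-- The generators as units. -/
noncomputable def g3 : R0ˣ := isUnit_five.2.2.2.1.unit
/-- The generators as units. -/
noncomputable def g4 : R0ˣ := isUnit_five.2.2.2.2.unit

@[simp] theorem g0_val : (g0 : R0) = a0 := rfl
@[simp] theorem g1_val : (g1 : R0) = b0 := rfl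
@[simp] theorem g2_val : (g2 : R0) = 1 - a0 := rfl
@[simp] theorem g3_val : (g3 : R0) = 1 - b0 := rfl
@[simp] theorem g4_val : (g4 : R0) = a0 - b0 := rfl

/-- A sign and five exponents. -/
abbrev Mo : Type := ZMod 2 × ℤ × ℤ × ℤ × ℤ × ℤ

/-- The monomial with the given sign and exponents, as a unit. -/
noncomputable def moU (m : Mo) : R0ˣ :=
  (if m.1 = 0 then 1 else -1) * g0 ^ m.2.1 * g1 ^ m.2.2.1 * g2 ^ m.2.2.2.1 * g3 ^ m.2.2.2.2.1 *
    g4 ^ m.2.2.2.2.2

/-- The monomial with the given sign and exponents. -/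
noncomputable def mo (m : Mo) : R0 := moU m

/-- The sign change. -/
def sg : Mo := (1, 0, 0, 0, 0, 0)

/-- Membership in the group of the partial field. -/
def InG (a : R0) : Prop := ∃ m : Mo, a = mo m

/-- Membership in the partial field. -/
def InP (a : R0) : Prop := a = 0 ∨ InG a

/-- The pairs of monomials with sum one. -/
def fundP : List (Mo × Mo) :=
  [((0, -1, 0, 0, -1, 1), (0, -1, 1, 1, -1, 0)), ((0, -1, 0, 0, 0, 0), (1, -1, 0, 1, 0, 0)),
   ((0, -1, 0, 0, 0, 1), (0, -1, 1, 0, 0, 0)), ((0, -1, 1, 0, 0, 0), (0, -1, 0, 0, 0, 1)),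
   ((0, -1, 1, 1, -1, 0), (0, -1, 0, 0, -1, 1)), ((0, 0, -1, 0, 0, 0), (1, 0, -1, 0, 1, 0)),
   ((0, 0, 0, -1, 0, 0), (1, 1, 0, -1, 0, 0)), ((0, 0, 0, -1, 1, 0), (1, 0, 0, -1, 0, 1)),
   ((0, 0, 0, 0, -1, 0), (1, 0, 1, 0, -1, 0)), ((0, 0, 0, 0, -1, 1), (0, 0, 0, 1, -1, 0)),
   ((0, 0, 0, 0, 1, -1), (1, 0, 0, 1, 0, -1)), ((0, 0, 0, 0, 1, 0), (0, 0, 1, 0, 0, 0)),
   ((0, 0, 0, 1, -1, 0), (0, 0, 0, 0, -1, 1)), ((0, 0, 0, 1, 0, 0), (0, 1, 0, 0, 0, 0)),
   ((0, 0, 1, 0, 0, 0), (0, 0, 0, 0, 1, 0)), ((0, 1, -1, -1, 1, 0), (1, 0, -1, -1, 0, 1)),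
   ((0, 1, -1, 0, 0, 0), (1, 0, -1, 0, 0, 1)), ((0, 1, 0, 0, 0, -1), (1, 0, 1, 0, 0, -1)),
   ((0, 1, 0, 0, 0, 0), (0, 0, 0, 1, 0, 0)), ((0, 1, 0, 0, 1, -1), (1, 0, 1, 1, 0, -1)),
   ((1, -1, 0, 1, 0, 0), (0, -1, 0, 0, 0, 0)), ((1, 0, -1, -1, 0, 1), (0, 1, -1, -1, 1, 0)),
   ((1, 0, -1, 0, 0, 1), (0, 1, -1, 0, 0, 0)), ((1, 0, -1, 0, 1, 0), (0, 0, -1, 0, 0, 0)),
   ((1, 0, 0, -1, 0, 1), (0, 0, 0, -1, 1, 0)), ((1, 0, 0, 1, 0, -1), (0, 0, 0, 0, 1, -1)),
   ((1, 0, 1, 0, -1, 0), (0, 0, 0, 0, -1, 0)), ((1, 0, 1, 0, 0, -1), (0, 1, 0, 0, 0, -1)),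
   ((1, 0, 1, 1, 0, -1), (0, 1, 0, 0, 1, -1)), ((1, 1, 0, -1, 0, 0), (0, 0, 0, -1, 0, 0))]

/-- The exponent vectors of the 30 fundamental elements. -/
def fundL : List Mo := fundP.map Prod.fst

theorem moU_add (m n : Mo) : moU (m + n) = moU m * moU n := by
  have h : ∀ s t : ZMod 2, (if s + t = 0 then (1 : R0ˣ) else -1) =
      (if s = 0 then 1 else -1) * (if t = 0 then 1 else -1) := by
    intro s t
    have h0 : ∀ s t : ZMod 2, s + t = 0 ↔ (s = 0 ↔ t = 0) := by decide
    by_cases hs : s = 0 <;> by_cases ht : t = 0 <;> simp [h0, hs, ht]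
  simp only [moU, Prod.fst_add, Prod.snd_add, zpow_add, h]
  ac_rfl

theorem mo_add (m n : Mo) : mo (m + n) = mo m * mo n := by simp [mo, moU_add]

@[simp] theorem mo_zero : mo 0 = 1 := by simp [mo, moU]

theorem mo_neg_mul (m : Mo) : mo (-m) * mo m = 1 := by rw [← mo_add, neg_add_cancel, mo_zero]

theorem mo_mul_neg (m : Mo) : mo m * mo (-m) = 1 := by rw [← mo_add, add_neg_cancel, mo_zero]

theorem mo_sg : mo sg = -1 := by simp [mo, moU, sg]

theorem mo_add_sg (m : Mo) : mo (m + sg) = -mo m := by rw [mo_add, mo_sg, mul_neg_one]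

theorem isUnit_mo (m : Mo) : IsUnit (mo m) := (moU m).isUnit

theorem InG.one : InG 1 := ⟨0, mo_zero.symm⟩

theorem InG.mul {a b : R0} (ha : InG a) (hb : InG b) : InG (a * b) := by
  obtain ⟨m, rfl⟩ := ha
  obtain ⟨n, rfl⟩ := hb
  exact ⟨m + n, (mo_add m n).symm⟩

theorem InG.neg {a : R0} (ha : InG a) : InG (-a) := by
  obtain ⟨m, rfl⟩ := ha
  exact ⟨m + sg, (mo_add_sg m).symm⟩

theorem InG.isUnit {a : R0} (ha : InG a) : IsUnit a := by
  obtain ⟨m, rfl⟩ := ha
  exact isUnit_mo m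

theorem InG.exists_inv {a : R0} (ha : InG a) : ∃ b, InG b ∧ a * b = 1 := by
  obtain ⟨m, rfl⟩ := ha
  exact ⟨mo (-m), ⟨_, rfl⟩, mo_mul_neg m⟩

theorem InG.map_ne_zero {S : Type} [CommRing S] [Nontrivial S] (x : R0 →+* S) {a : R0}
    (ha : InG a) : x a ≠ 0 := (ha.isUnit.map x).ne_zero

theorem InP.mul {a b : R0} (ha : InP a) (hb : InP b) : InP (a * b) := by
  rcases ha with rfl | ha
  · exact Or.inl (zero_mul _)
  · rcases hb with rfl | hb
    · exact Or.inl (mul_zero _)
    · exact Or.inr (ha.mul hb)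

theorem InP.neg {a : R0} (ha : InP a) : InP (-a) :=
  ha.elim (fun h => Or.inl (by rw [h, neg_zero])) fun h => Or.inr h.neg

theorem InP.map_eq_zero {S : Type} [CommRing S] [Nontrivial S] (x : R0 →+* S) {a : R0}
    (ha : InP a) : x a = 0 ↔ a = 0 :=
  ⟨fun h => ha.resolve_right fun h' => h'.map_ne_zero x h, fun h => by rw [h, map_zero]⟩

/-- The point with coordinates `a`, `b`. -/
noncomputable def pt {S : Type} [CommRing S] (a b : S)
    (h : IsUnit (a * b * (1 - a) * (1 - b) * (a - b))) : R0 →+* S :=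
  IsLocalization.Away.lift dl (g := eval₂Hom (Int.castRingHom S) ![a, b]) (by simpa [dl] using h)

theorem pt_a0 {S : Type} [CommRing S] (a b : S) (h) : pt a b h a0 = a := by
  simp [pt, a0]

theorem pt_b0 {S : Type} [CommRing S] (a b : S) (h) : pt a b h b0 = b := by
  simp [pt, b0]

theorem hom_ext {S : Type} [CommRing S] {x y : R0 →+* S} (ha : x a0 = y a0) (hb : x b0 = y b0) :
    x = y := by
  refine IsLocalization.ringHom_ext (Submonoid.powers dl) ?_
  refine MvPolynomial.ringHom_ext (fun r => by simp) fun i => ?_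
  fin_cases i
  exacts [ha, hb]

instance : Nontrivial R0 :=
  (pt (2 : ℚ) 3 (by norm_num)).domain_nontrivial

theorem InG.ne_zero {a : R0} (ha : InG a) : a ≠ 0 := ha.isUnit.ne_zero

section der
variable {F : Type} [Field F]

/-- The first order deformation of the point `x` in the direction `v`. -/
noncomputable def xv (x : R0 →+* F) (v : F × F) : R0 →+* DualNumber F :=
  pt (TrivSqZeroExt.inl (x a0) + TrivSqZeroExt.inr v.1)
    (TrivSqZeroExt.inl (x b0) + TrivSqZeroExt.inr v.2) (by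
      rw [TrivSqZeroExt.isUnit_iff_isUnit_fst]
      simpa using isUnit_dl.map x)

/-- The derivative at the point `x` in the direction `v`. -/
noncomputable def der (x : R0 →+* F) (v : F × F) (a : R0) : F := (xv x v a).snd

theorem fst_xv (x : R0 →+* F) (v : F × F) (a : R0) : (xv x v a).fst = x a := by
  have : (TrivSqZeroExt.fstHom F F F : DualNumber F →+* F).comp (xv x v) = x :=
    hom_ext (by simp [xv, pt_a0]) (by simp [xv, pt_b0])
  exact congrArg (fun f : R0 →+* F => f a) this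

variable (x : R0 →+* F) (v : F × F)

theorem der_a0 : der x v a0 = v.1 := by simp [der, xv, pt_a0]

theorem der_b0 : der x v b0 = v.2 := by simp [der, xv, pt_b0]

@[simp] theorem der_zero : der x v 0 = 0 := by simp [der]

@[simp] theorem der_one : der x v 1 = 0 := by simp [der]

theorem der_add (a b : R0) : der x v (a + b) = der x v a + der x v b := by simp [der]

theorem der_neg (a : R0) : der x v (-a) = -der x v a := by simp [der]

theorem der_sub (a b : R0) : der x v (a - b) = der x v a - der x v b := by simp [der]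

theorem der_mul (a b : R0) : der x v (a * b) = x a * der x v b + der x v a * x b := by
  simp [der, fst_xv, mul_comm]

theorem der_sum {ι : Type} (s : Finset ι) (f : ι → R0) :
    der x v (∑ i ∈ s, f i) = ∑ i ∈ s, der x v (f i) := by
  simp [der, TrivSqZeroExt.snd_sum]

end der

instance fact_F4 : Fact (∀ r : ZMod 2, r ^ 2 ≠ 1 + 1 * r) := ⟨by decide⟩

/-- The field with four elements. -/
abbrev F4 : Type := QuadraticAlgebra (ZMod 2) 1 1

instance : DecidableEq F4 := fun x y =>
  decidable_of_iff (x.re = y.re ∧ x.im = y.im) (by rw [QuadraticAlgebra.ext_iff])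

instance : Fintype F4 := Fintype.ofEquiv (ZMod 2 × ZMod 2) (QuadraticAlgebra.equivProd 1 1).symm

/-- A primitive cube root of unity. -/
def om : F4 := ⟨0, 1⟩

/-- The point over the field with four elements. -/
noncomputable def s4 : R0 →+* F4 :=
  pt om (om * om) (IsUnit.of_mul_eq_one 1 (by decide))

/-- The conjugate point. -/
noncomputable def t4 : R0 →+* F4 := (starRingEnd F4).comp s4

/-- A system of standard representations over the partial field. -/
abbrev U2 {E : Type} [Fintype E] (M : Matroid E) (T : Set E → Matrix E E R0) : Prop := TabP InG M T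

/-- The image of a system at a point. -/
noncomputable abbrev spec {E S : Type} [CommRing S] (x : R0 →+* S) (T : Set E → Matrix E E R0) :
    Set E → Matrix E E S := fun B => (T B).map x

end Pool.Agent.Lib.MP_10bdcf_co.G
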