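import Pool.Agent.Lib.MP_10bdcf_co.UD

/-!
The monomials are independent and there are exactly 30 fundamental elements.
-/

namespace Pool.Agent.Lib.MP_10bdcf_co.G

instance : IsDomain R0 := by
  refine IsLocalization.isDomain_localization (powers_le_nonZeroDivisors_of_noZeroDivisors ?_)
  intro h
  have := congrArg (MvPolynomial.eval ![2, 3]) h
  simp [dl] at this

theorem map_mo {F : Type} [Field F] (x : R0 →+* F) (m : Mo) :
    x (mo m) = (if m.1 = 0 then 1 else -1) * x a0 ^ m.2.1 * x b0 ^ m.2.2.1 *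
      (1 - x a0) ^ m.2.2.2.1 * (1 - x b0) ^ m.2.2.2.2.1 * (x a0 - x b0) ^ m.2.2.2.2.2 := by
  have h : ∀ (u : R0ˣ) (k : ℤ), x ((u ^ k : R0ˣ) : R0) = x u ^ k := fun u k => by
    have := congrArg Units.val (map_zpow (Units.map (x : R0 →* F)) u k)
    rw [Units.val_zpow_eq_zpow_val] at this
    exact this
  simp only [mo, moU, Units.val_mul, map_mul, h, g0_val, g1_val, g2_val, g3_val, g4_val, map_sub,
    map_one]
  split_ifs <;> simp

section uf
open Polynomial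

/-- A product of powers of three linear polynomials. -/
noncomputable def ufP (r s t : ℚ) (i j k : ℕ) : ℚ[X] := (X - C r) ^ i * ((X - C s) ^ j * (X - C t) ^ k)

/-- The numerator of its logarithmic derivative. -/
noncomputable def ufL (r s t i j k : ℚ) : ℚ[X] :=
  C i * ((X - C s) * (X - C t)) + C j * ((X - C r) * (X - C t)) + C k * ((X - C r) * (X - C s))

theorem uf_der_pow (r : ℚ) (n : ℕ) :
    (X - C r) * derivative ((X - C r) ^ n) = C (n : ℚ) * (X - C r) ^ n := by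
  rw [derivative_X_sub_C_pow]
  rcases n with _ | n
  · simp
  · rw [Nat.add_sub_cancel]
    ring

theorem uf_der (r s t : ℚ) (i j k : ℕ) :
    (X - C r) * (X - C s) * (X - C t) * derivative (ufP r s t i j k) =
      ufP r s t i j k * ufL r s t i j k := by
  simp only [ufP, ufL, derivative_mul]
  linear_combination ((X - C s) * (X - C t) * (X - C s) ^ j * (X - C t) ^ k) * uf_der_pow r i +
    ((X - C r) * (X - C t) * (X - C r) ^ i * (X - C t) ^ k) * uf_der_pow s j +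
    ((X - C r) * (X - C s) * (X - C r) ^ i * (X - C s) ^ j) * uf_der_pow t k

theorem uf_deg (r s t i j k : ℚ) : (ufL r s t i j k).natDegree ≤ 2 := by
  unfold ufL
  compute_degree

theorem uf_sub (r s t i j k i' j' k' : ℚ) :
    ufL r s t i j k - ufL r s t i' j' k' = ufL r s t (i - i') (j - j') (k - k') := by
  simp only [ufL, map_sub]
  ring

theorem uf_ne (r s t : ℚ) (i j k : ℕ) : ufP r s t i j k ≠ 0 :=
  mul_ne_zero (pow_ne_zero _ (X_sub_C_ne_zero _))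
    (mul_ne_zero (pow_ne_zero _ (X_sub_C_ne_zero _)) (pow_ne_zero _ (X_sub_C_ne_zero _)))

theorem uf_mult {r s t : ℚ} (hs : r ≠ s) (ht : r ≠ t) (i j k : ℕ) {B : ℚ[X]} (hB : B ≠ 0)
    (hd : B.natDegree ≤ 2) : i ≤ rootMultiplicity r (ufP r s t i j k * B) ∧
      rootMultiplicity r (ufP r s t i j k * B) ≤ i + 2 := by
  have h1 : rootMultiplicity r B ≤ 2 := by
    have := natDegree_le_of_dvd (pow_rootMultiplicity_dvd B r) hB
    rw [natDegree_pow, natDegree_X_sub_C] at this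
    omega
  have h2 : rootMultiplicity r ((X - C s) ^ j * (X - C t) ^ k) = 0 :=
    rootMultiplicity_eq_zero (by simp [sub_eq_zero, hs, ht])
  rw [rootMultiplicity_mul (mul_ne_zero (uf_ne r s t i j k) hB), ufP,
    rootMultiplicity_mul (uf_ne r s t i j k), rootMultiplicity_X_sub_C_pow, h2]
  omega

theorem uf_nat {r s t c d : ℚ} (hs : r ≠ s) (ht : r ≠ t) (hc : c ≠ 0) {i j k i' j' k' M : ℕ}
    (h : C c * ufP r s t i j k + C d * ufP r s t i' j' k' = ufP r s t M M M) :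
    i ≤ M + 2 ∧ M ≤ i + 2 := by
  have h1 := congrArg derivative h
  rw [derivative_add, derivative_C_mul, derivative_C_mul] at h1
  have h2 : ufP r s t M M M * (ufL r s t i' j' k' - ufL r s t M M M) =
      ufP r s t i j k * (C c * (ufL r s t i' j' k' - ufL r s t i j k)) := by
    linear_combination (-ufL r s t i' j' k') * h + ((X - C r) * (X - C s) * (X - C t)) * h1 -
      C c * uf_der r s t i j k - C d * uf_der r s t i' j' k' + uf_der r s t M M M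
  rw [uf_sub, uf_sub] at h2
  by_cases hB : ufL r s t (i' - M) (j' - M) (k' - M) = 0
  · rw [hB, mul_zero, eq_comm] at h2
    have h3 := congrArg (eval r) hB
    have h4 := congrArg (eval r) ((mul_eq_zero.1 ((mul_eq_zero.1 h2).resolve_left
      (uf_ne r s t i j k))).resolve_left (C_ne_zero.2 hc))
    simp [ufL, sub_eq_zero, hs, ht] at h3 h4
    omega
  · have hA : C c * ufL r s t (i' - i) (j' - j) (k' - k) ≠ 0 := by
      intro h0
      rw [h0, mul_zero] at h2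
      exact mul_ne_zero (uf_ne r s t M M M) hB h2
    have h3 := uf_mult hs ht M M M hB (uf_deg _ _ _ _ _ _)
    have h4 := uf_mult hs ht i j k hA ((natDegree_C_mul_le _ _).trans (uf_deg _ _ _ _ _ _))
    rw [h2] at h3
    omega

theorem uf_int {r s t c d : ℚ} (hs : r ≠ s) (ht : r ≠ t) (hc : c ≠ 0) {i j k i' j' k' : ℤ}
    (h : ∀ x : ℚ, x ≠ r → x ≠ s → x ≠ t → c * ((x - r) ^ i * (x - s) ^ j * (x - t) ^ k) +
      d * ((x - r) ^ i' * (x - s) ^ j' * (x - t) ^ k') = 1) : -2 ≤ i ∧ i ≤ 2 := by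
  obtain ⟨M, hM⟩ : ∃ M : ℕ, M = i.natAbs + j.natAbs + k.natAbs + i'.natAbs + j'.natAbs + k'.natAbs :=
    ⟨_, rfl⟩
  obtain ⟨i1, e1⟩ : ∃ n : ℕ, i = n - M := ⟨(i + M).toNat, by omega⟩
  obtain ⟨j1, e2⟩ : ∃ n : ℕ, j = n - M := ⟨(j + M).toNat, by omega⟩
  obtain ⟨k1, e3⟩ : ∃ n : ℕ, k = n - M := ⟨(k + M).toNat, by omega⟩
  obtain ⟨i2, e4⟩ : ∃ n : ℕ, i' = n - M := ⟨(i' + M).toNat, by omega⟩
  obtain ⟨j2, e5⟩ : ∃ n : ℕ, j' = n - M := ⟨(j' + M).toNat, by omega⟩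
  obtain ⟨k2, e6⟩ : ∃ n : ℕ, k' = n - M := ⟨(k' + M).toNat, by omega⟩
  clear hM
  have h1 : C c * ufP r s t i1 j1 k1 + C d * ufP r s t i2 j2 k2 = ufP r s t M M M := by
    refine eq_of_infinite_eval_eq _ _ ((Set.toFinite {r, s, t}).infinite_compl.mono fun x hx => ?_)
    simp only [Set.mem_compl_iff, Set.mem_insert_iff, Set.mem_singleton_iff, not_or] at hx
    have h2 := h x hx.1 hx.2.1 hx.2.2
    have n1 := sub_ne_zero.2 hx.1
    have n2 := sub_ne_zero.2 hx.2.1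
    have n3 := sub_ne_zero.2 hx.2.2
    simp only [e1, e2, e3, e4, e5, e6, zpow_sub₀ n1, zpow_sub₀ n2, zpow_sub₀ n3, zpow_natCast] at h2
    simp only [Set.mem_ofPred_eq, ufP, eval_add, eval_mul, eval_pow, eval_sub, eval_X, eval_C]
    field_simp at h2
    linear_combination h2
  have := uf_nat hs ht hc h1
  omega

theorem uf_three {c d : ℚ} (hc : c ≠ 0) {i j k i' j' k' : ℤ}
    (h : ∀ x : ℚ, x ≠ 0 → x ≠ 1 → x ≠ 2 → c * ((x - 0) ^ i * (x - 1) ^ j * (x - 2) ^ k) +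
      d * ((x - 0) ^ i' * (x - 1) ^ j' * (x - 2) ^ k') = 1) :
    (-2 ≤ i ∧ i ≤ 2) ∧ (-2 ≤ j ∧ j ≤ 2) ∧ (-2 ≤ k ∧ k ≤ 2) :=
  ⟨uf_int (by norm_num) (by norm_num) hc h,
    uf_int (r := 1) (s := 0) (t := 2) (d := d) (j := i) (k := k) (i' := j') (j' := i') (k' := k')
      (by norm_num) (by norm_num) hc fun x h1 h0 h2 => by linear_combination h x h0 h1 h2,
    uf_int (r := 2) (s := 0) (t := 1) (d := d) (j := i) (k := j) (i' := k') (j' := i') (k' := j')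
      (by norm_num) (by norm_num) hc fun x h2 h0 h1 => by linear_combination h x h0 h1 h2⟩

end uf

theorem uf_sign_ne (s : ZMod 2) : (if s = 0 then (1 : ℚ) else -1) ≠ 0 := by
  split_ifs <;> norm_num

theorem uf_bound {m n : Mo} (h : mo m + mo n = 1) :
    ((-2 ≤ m.2.1 ∧ m.2.1 ≤ 2) ∧ (-2 ≤ m.2.2.2.1 ∧ m.2.2.2.1 ≤ 2) ∧
      (-2 ≤ m.2.2.2.2.2 ∧ m.2.2.2.2.2 ≤ 2)) ∧ (-2 ≤ m.2.2.1 ∧ m.2.2.1 ≤ 2) ∧
      (-2 ≤ m.2.2.2.2.1 ∧ m.2.2.2.2.1 ≤ 2) := by
  have e : ∀ (x y : ℚ) (k : ℤ), (y - x) ^ k = (-1) ^ k * (x - y) ^ k := fun x y k => by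
    rw [← mul_zpow, neg_one_mul, neg_sub]
  have h1 := uf_three
    (c := (if m.1 = 0 then 1 else -1) * 2 ^ m.2.2.1 * (-1) ^ m.2.2.2.1 * (1 - 2) ^ m.2.2.2.2.1)
    (d := (if n.1 = 0 then 1 else -1) * 2 ^ n.2.2.1 * (-1) ^ n.2.2.2.1 * (1 - 2) ^ n.2.2.2.2.1)
    (i := m.2.1) (j := m.2.2.2.1) (k := m.2.2.2.2.2) (i' := n.2.1) (j' := n.2.2.2.1)
    (k' := n.2.2.2.2.2) (mul_ne_zero (mul_ne_zero (mul_ne_zero (uf_sign_ne _)
      (zpow_ne_zero _ (by norm_num))) (zpow_ne_zero _ (by norm_num))) (zpow_ne_zero _ (by norm_num)))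
    fun x h0 h1 h2 => by
      have hu : IsUnit (x * 2 * (1 - x) * (1 - 2) * (x - 2)) := by
        simp [h0, sub_eq_zero, h2, h1.symm]
      have := congrArg (pt x 2 hu) h
      rw [map_add, map_one, map_mo, map_mo, pt_a0, pt_b0, e x 1, e x 1] at this
      rw [sub_zero]
      linear_combination this
  have h2 := uf_three
    (c := (if m.1 = 0 then 1 else -1) * 2 ^ m.2.1 * (1 - 2) ^ m.2.2.2.1 * (-1) ^ m.2.2.2.2.1 *
      (-1) ^ m.2.2.2.2.2)
    (d := (if n.1 = 0 then 1 else -1) * 2 ^ n.2.1 * (1 - 2) ^ n.2.2.2.1 * (-1) ^ n.2.2.2.2.1 *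
      (-1) ^ n.2.2.2.2.2)
    (i := m.2.2.1) (j := m.2.2.2.2.1) (k := m.2.2.2.2.2) (i' := n.2.2.1) (j' := n.2.2.2.2.1)
    (k' := n.2.2.2.2.2) (mul_ne_zero (mul_ne_zero (mul_ne_zero (mul_ne_zero (uf_sign_ne _)
      (zpow_ne_zero _ (by norm_num))) (zpow_ne_zero _ (by norm_num))) (zpow_ne_zero _ (by norm_num)))
      (zpow_ne_zero _ (by norm_num)))
    fun x h0 h1 h2 => by
      have hu : IsUnit (2 * x * (1 - 2) * (1 - x) * (2 - x)) := by
        simp [h0, sub_eq_zero, h2.symm, h1.symm]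
      have := congrArg (pt 2 x hu) h
      rw [map_add, map_one, map_mo, map_mo, pt_a0, pt_b0, e x 1, e x 1, e x 2, e x 2] at this
      rw [sub_zero]
      linear_combination this
  exact ⟨h1, h2.1, h2.2.1⟩

theorem uf_eq_zero {k : Mo} (h : mo k = 1) : k = 0 := by
  have h1 : mo (k + k + k + k + (0, 1, 0, 0, 0, 0)) + mo (0, 0, 0, 1, 0, 0) = 1 := by
    simp only [mo_add, h, one_mul]
    simp [mo, moU]
  have h2 := uf_bound h1
  obtain ⟨s, k0, k1, k2, k3, k4⟩ := k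
  simp only [Prod.mk_add_mk] at h2
  obtain rfl : k0 = 0 := by omega
  obtain rfl : k1 = 0 := by omega
  obtain rfl : k2 = 0 := by omega
  obtain rfl : k3 = 0 := by omega
  obtain rfl : k4 = 0 := by omega
  have h3 := congrArg (pt (2 : ℚ) 3 (by norm_num)) h
  rw [map_mo, map_one] at h3
  by_cases hs : s = 0
  · rw [hs]
    rfl
  · simp only [if_neg hs] at h3
    norm_num at h3

theorem mo_inj {m n : Mo} (h : mo m = mo n) : m = n :=
  sub_eq_zero.1 (uf_eq_zero (by rw [sub_eq_add_neg, mo_add, h, mo_mul_neg]))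

theorem fundP_sum : ∀ p ∈ fundP, mo p.1 + mo p.2 = 1 := by
  let x : R0 →+* FractionRing R0 := algebraMap _ _
  have hx : Function.Injective x := IsFractionRing.injective _ _
  have key : ∀ p ∈ fundP, x (mo p.1) + x (mo p.2) = 1 := by
    obtain ⟨h0, h1, h2, h3, h4⟩ := isUnit_five
    have n0 := (h0.map x).ne_zero
    have n1 := (h1.map x).ne_zero
    have n2 := (h2.map x).ne_zero
    have n3 := (h3.map x).ne_zero
    have n4 := (h4.map x).ne_zero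
    rw [map_sub] at n2 n3 n4
    rw [map_one] at n2 n3
    simp only [map_mo]
    generalize x a0 = a at *
    generalize x b0 = b at *
    have e : ¬ (1 : ZMod 2) = 0 := by decide
    simp only [fundP, List.forall_mem_cons, List.not_mem_nil, if_true, e, if_false, zpow_zero,
      zpow_one, zpow_neg, IsEmpty.forall_iff, implies_true, and_true, mul_one, one_mul]
    refine ⟨?_, ?_, ?_, ?_, ?_, ?_, ?_, ?_, ?_, ?_, ?_, ?_, ?_, ?_, ?_, ?_, ?_, ?_, ?_, ?_, ?_, ?_,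
      ?_, ?_, ?_, ?_, ?_, ?_, ?_, ?_⟩ <;> field_simp <;> ring
  intro p hp
  apply hx
  rw [map_add, key p hp, map_one]

/-- The value of a monomial at a point, with cleared denominators. -/
def ufW (s : ZMod 2) (i0 i1 i2 i3 i4 : ℕ) : ℤ :=
  (if s = 0 then 1 else -1) * 1001 ^ i0 * (-98765) ^ i1 * (-1000) ^ i2 * 98766 ^ i3 * 99766 ^ i4

theorem uf_check : ∀ (s : ZMod 2) (i0 i1 i2 i3 i4 : Fin 5),
    ufW 0 2 2 2 2 2 - ufW s i0 i1 i2 i3 i4 ∣ ufW 0 4 4 4 4 4 →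
      ((s, (i0 : ℤ) - 2, (i1 : ℤ) - 2, (i2 : ℤ) - 2, (i3 : ℤ) - 2, (i4 : ℤ) - 2) : Mo) ∈
        sg :: fundL := by
  decide +kernel

theorem uf_val {m n : Mo} (h : mo m + mo n = 1) : ∃ i0 i1 i2 i3 i4 : Fin 5,
    m = (m.1, (i0 : ℤ) - 2, (i1 : ℤ) - 2, (i2 : ℤ) - 2, (i3 : ℤ) - 2, (i4 : ℤ) - 2) ∧
      pt (1001 : ℚ) (-98765) (by norm_num) (mo m) * (ufW 0 2 2 2 2 2 : ℚ) =
        (ufW m.1 i0 i1 i2 i3 i4 : ℚ) ∧ ufW m.1 i0 i1 i2 i3 i4 ∣ ufW 0 4 4 4 4 4 := by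
  have hb := uf_bound h
  obtain ⟨s, k0, k1, k2, k3, k4⟩ := m
  simp only at hb
  have e : ∀ k : ℤ, -2 ≤ k ∧ k ≤ 2 → ∃ i : Fin 5, k = (i : ℤ) - 2 := fun k hk =>
    ⟨⟨(k + 2).toNat, by omega⟩, by simp only; omega⟩
  obtain ⟨i0, rfl⟩ := e k0 hb.1.1
  obtain ⟨i1, rfl⟩ := e k1 hb.2.1
  obtain ⟨i2, rfl⟩ := e k2 hb.1.2.1
  obtain ⟨i3, rfl⟩ := e k3 hb.2.2
  obtain ⟨i4, rfl⟩ := e k4 hb.1.2.2
  refine ⟨i0, i1, i2, i3, i4, rfl, ?_, ?_⟩
  · have e2 : ∀ (a : ℚ) (i : ℕ), a ≠ 0 → a ^ ((i : ℤ) - 2) = a ^ i / a ^ 2 := fun a i ha => by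
      rw [zpow_sub₀ ha, zpow_natCast]
      rfl
    rw [map_mo, pt_a0, pt_b0, e2 _ _ (by norm_num), e2 _ _ (by norm_num), e2 _ _ (by norm_num),
      e2 _ _ (by norm_num), e2 _ _ (by norm_num)]
    simp only [ufW, if_true]
    push_cast
    rw [show (1 - 1001 : ℚ) = -1000 by norm_num, show (1 - -98765 : ℚ) = 98766 by norm_num,
      show (1001 - -98765 : ℚ) = 99766 by norm_num]
    field_simp
    norm_num
  · have e3 : ∀ (a : ℤ) (i : Fin 5), a ^ (i : ℕ) ∣ a ^ 4 := fun a i => pow_dvd_pow a (by omega)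
    refine mul_dvd_mul (mul_dvd_mul (mul_dvd_mul (mul_dvd_mul (mul_dvd_mul ?_ (e3 _ _)) (e3 _ _))
      (e3 _ _)) (e3 _ _)) (e3 _ _)
    split_ifs <;> simp

theorem uf_mem {m n : Mo} (h : mo m + mo n = 1) : m ∈ fundL := by
  obtain ⟨i0, i1, i2, i3, i4, h1, h2, -⟩ := uf_val h
  obtain ⟨j0, j1, j2, j3, j4, -, h3, h4⟩ := uf_val ((add_comm _ _).trans h)
  have h5 := congrArg (pt (1001 : ℚ) (-98765) (by norm_num)) h
  rw [map_add, map_one] at h5
  have h6 : ufW 0 2 2 2 2 2 - ufW m.1 i0 i1 i2 i3 i4 = ufW n.1 j0 j1 j2 j3 j4 := by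
    have : (ufW 0 2 2 2 2 2 : ℚ) - ufW m.1 i0 i1 i2 i3 i4 = ufW n.1 j0 j1 j2 j3 j4 := by
      linear_combination h2 + h3 - (ufW 0 2 2 2 2 2 : ℚ) * h5
    exact_mod_cast this
  have h7 := uf_check m.1 i0 i1 i2 i3 i4 (h6 ▸ h4)
  rw [← h1] at h7
  refine (List.mem_cons.1 h7).resolve_left fun hm => ?_
  have h8 := congrArg s4 h
  rw [hm, mo_sg, map_add, map_neg, map_one] at h8
  have h9 : (-1 : F4) = 1 := by decide
  rw [h9, add_eq_left] at h8
  exact ((isUnit_mo n).map s4).ne_zero h8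

/-- The solutions of the unit equation. -/
theorem fund_iff {m n : Mo} : mo m + mo n = 1 ↔ (m, n) ∈ fundP := by
  refine ⟨fun h => ?_, fundP_sum _⟩
  obtain ⟨⟨m', n'⟩, hp, rfl⟩ := List.mem_map.1 (uf_mem h)
  obtain rfl : n = n' := mo_inj (add_left_cancel (h.trans (fundP_sum _ hp).symm))
  exact hp

theorem inG_one_sub {m : Mo} : InG (1 - mo m) ↔ m ∈ fundL := by
  constructor
  · rintro ⟨n, h⟩
    exact uf_mem (n := n) (by rw [← h, add_sub_cancel])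
  · intro h
    obtain ⟨p, hp, rfl⟩ := List.mem_map.1 h
    exact ⟨p.2, by rw [← fundP_sum p hp, add_sub_cancel_left]⟩

theorem inG_sub {m n : Mo} : InG (mo m - mo n) ↔ n - m ∈ fundL := by
  rw [← inG_one_sub]
  have e : mo m - mo n = mo m * (1 - mo (n - m)) := by
    rw [mul_sub, mul_one, ← mo_add, add_sub_cancel]
  constructor
  · intro h
    have := InG.mul ⟨-m, rfl⟩ h
    rwa [e, ← mul_assoc, mo_neg_mul, one_mul] at this
  · intro h
    rw [e]
    exact InG.mul ⟨m, rfl⟩ h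

theorem inP_sub {m n : Mo} : InP (mo m - mo n) ↔ n = m ∨ n - m ∈ fundL := by
  rw [InP, inG_sub, sub_eq_zero]
  exact or_congr_left ⟨fun h => (mo_inj h).symm, fun h => by rw [h]⟩

theorem inP_add {m n : Mo} : InP (mo m + mo n) ↔ n + sg = m ∨ n + sg - m ∈ fundL := by
  rw [← inP_sub, mo_add_sg, sub_neg_eq_add]

end Pool.Agent.Lib.MP_10bdcf_co.G
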