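import Pool.Agent.Lib.MP_10bdcf_co.Defs
import Pool.Agent.Lib.MP_10bdcf_co.UF

/-!
From a weak U_2-matrix to a system of standard representations over the ring of the partial field.
-/

namespace Pool.Agent.Lib.MP_10bdcf_co.G

open Matrix Set

/-- The embedding of the integer polynomials. -/
noncomputable def uk_io : P2 →+* K2 :=
  (algebraMap (MvPolynomial (Fin 2) ℚ) K2).comp (MvPolynomial.map (Int.castRingHom ℚ))

theorem uk_io_inj : Function.Injective uk_io :=
  (FaithfulSMul.algebraMap_injective (MvPolynomial (Fin 2) ℚ) K2).comp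
    (MvPolynomial.map_injective _ (RingHom.injective_int _))

theorem uk_unit : IsUnit (al * be * (1 - al) * (1 - be) * (al - be)) := by
  have h : dl ≠ 0 := fun h => by
    have := congrArg (MvPolynomial.eval ![2, 3]) h
    simp [dl] at this
  have := (map_ne_zero_iff _ uk_io_inj).2 h
  refine Ne.isUnit ?_
  simpa [dl, uk_io, al, be] using this

/-- The generic point. -/
noncomputable def toK : R0 →+* K2 := pt al be (by
  exact uk_unit)

theorem uk_a0 : toK a0 = al := pt_a0 _ _ _

theorem uk_b0 : toK b0 = be := pt_b0 _ _ _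

theorem toK_inj : Function.Injective toK := by
  have e : toK.comp (algebraMap P2 R0) = uk_io := by
    refine MvPolynomial.ringHom_ext (fun r => by simp) fun i => ?_
    fin_cases i
    · exact uk_a0.trans (by simp [uk_io, al])
    · exact uk_b0.trans (by simp [uk_io, be])
  refine (injective_iff_map_eq_zero _).2 fun z hz => ?_
  obtain ⟨⟨x, s⟩, h⟩ := IsLocalization.surj (Submonoid.powers dl) z
  have h1 : uk_io x = 0 := by rw [← e, RingHom.comp_apply, ← h, map_mul, hz, zero_mul]
  rw [(map_eq_zero_iff _ uk_io_inj).1 h1, map_zero] at h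
  exact (IsLocalization.map_units R0 s).mul_left_eq_zero.1 h

theorem uk_mem {g : K2ˣ} (hg : g ∈ G2) : ∃ a, InG a ∧ (g : K2) = toK a := by
  have h0 : InG a0 := ⟨(0, 1, 0, 0, 0, 0), by simp [mo, moU]⟩
  have h1 : InG b0 := ⟨(0, 0, 1, 0, 0, 0), by simp [mo, moU]⟩
  have h2 : InG (1 - a0) := ⟨(0, 0, 0, 1, 0, 0), by simp [mo, moU]⟩
  have h3 : InG (1 - b0) := ⟨(0, 0, 0, 0, 1, 0), by simp [mo, moU]⟩
  have h4 : InG (a0 - b0) := ⟨(0, 0, 0, 0, 0, 1), by simp [mo, moU]⟩
  have key : ∀ x ∈ ({0, 1, a0, b0} : Set R0), ∀ y ∈ ({0, 1, a0, b0} : Set R0), x ≠ y →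
      InG (x - y) := by
    rintro x (rfl | rfl | rfl | rfl) y (rfl | rfl | rfl | rfl) h
    all_goals first
      | exact absurd rfl h
      | assumption
      | simpa using InG.one
      | simpa using InG.one.neg
      | simpa using h0
      | simpa using h1
      | simpa using h0.neg
      | simpa using h1.neg
      | simpa using h2.neg
      | simpa using h3.neg
      | simpa using h4.neg
  have pre : ∀ x ∈ ({0, 1, al, be} : Set K2), ∃ a ∈ ({0, 1, a0, b0} : Set R0), x = toK a := by
    rintro x (rfl | rfl | rfl | rfl)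
    exacts [⟨0, by simp, (map_zero _).symm⟩, ⟨1, by simp, (map_one _).symm⟩,
      ⟨a0, by simp, uk_a0.symm⟩, ⟨b0, by simp, uk_b0.symm⟩]
  induction hg using Subgroup.closure_induction with
  | mem u hu =>
    rcases hu with h | ⟨x, hx, y, hy, hne, h⟩
    · exact ⟨-1, InG.one.neg, by rw [h, map_neg, map_one]⟩
    · obtain ⟨a, ha, rfl⟩ := pre x hx
      obtain ⟨b, hb, rfl⟩ := pre y hy
      exact ⟨a - b, key a ha b hb fun e => hne (congrArg toK e), by rw [h, map_sub]⟩
  | one => exact ⟨1, InG.one, by simp⟩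
  | mul u v _ _ hu hv =>
    obtain ⟨a, ha, e⟩ := hu
    obtain ⟨b, hb, e'⟩ := hv
    exact ⟨a * b, ha.mul hb, by rw [Units.val_mul, e, e', map_mul]⟩
  | inv u _ hu =>
    obtain ⟨a, ha, e⟩ := hu
    obtain ⟨b, hb, e'⟩ := ha.exists_inv
    refine ⟨b, hb, ?_⟩
    rw [Units.val_inv_eq_inv_val, e]
    exact inv_eq_of_mul_eq_one_right (by rw [← map_mul, e', map_one])

theorem exists_mo_of_mem {g : K2ˣ} (hg : g ∈ G2) : ∃ m, (g : K2) = toK (mo m) := by
  obtain ⟨_, ⟨m, rfl⟩, h⟩ := uk_mem hg
  exact ⟨m, h⟩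

theorem uk_range_update {E : Type} {r : ℕ} {f : Fin r → E} (hf : Function.Injective f) (i : Fin r)
    (e : E) : range (Function.update f i e) = ex (range f) (f i) e := by
  ext z
  simp only [mem_range, mem_ex]
  constructor
  · rintro ⟨j, rfl⟩
    by_cases hj : j = i
    · left; simp [hj]
    · right; rw [Function.update_of_ne hj]; exact ⟨⟨j, rfl⟩, hf.ne hj⟩
  · rintro (rfl | ⟨⟨j, rfl⟩, hj⟩)
    · exact ⟨i, by simp⟩
    · exact ⟨j, Function.update_of_ne (fun e => hj (congrArg f e)) _ _⟩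

theorem uk_tab {E : Type} [Fintype E] {r : ℕ} {A : Matrix (Fin r) E K2} {M : Matroid E}
    (hA : IsWeakU2 A) (hM : RepresentsK A M) : ∃ T, TabP (fun x => ∃ g ∈ G2, x = (g : K2)) M T := by
  classical
  have hB := hM.2
  have : Nonempty (Fin r → E) := ⟨hA.2.choose⟩
  choose! f hf using fun B => (hB B).1
  let N : Set E → Matrix (Fin r) (Fin r) K2 := fun B => (A.submatrix id (f B))⁻¹
  have hN : ∀ B, M.IsBase B → N B * A.submatrix id (f B) = 1 :=
    fun B h => nonsing_inv_mul _ (hf B h).2.2.isUnit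
  let S : Set E → Matrix E (Fin r) K2 := fun B => Matrix.of fun b i => if b = f B i then 1 else 0
  have hS : ∀ B, A * S B = A.submatrix id (f B) := fun B => by
    ext1 k i; simp [S, Matrix.mul_apply]
  have hrow : ∀ B, M.IsBase B → ∀ i e, (S B * (N B * A)) (f B i) e = (N B * A) i e :=
    fun B h i e => by
      rw [Matrix.mul_apply, Fintype.sum_eq_single i fun j hj => by
        simp [S, (hf B h).1.ne hj.symm]]
      simp [S]
  have hrow0 : ∀ B, M.IsBase B → ∀ b, b ∉ B → ∀ e, (S B * (N B * A)) b e = 0 :=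
    fun B h b hb e => by
      rw [Matrix.mul_apply]
      refine Finset.sum_eq_zero fun j _ => ?_
      have : b ≠ f B j := fun e' => hb ((hf B h).2.1 ▸ ⟨j, e'.symm⟩)
      simp [S, this]
  have hid : ∀ B, M.IsBase B → ∀ i j, (N B * A) i (f B j) = if i = j then 1 else 0 :=
    fun B h i j => by
      simpa [Matrix.mul_apply, Matrix.one_apply] using congrFun (congrFun (hN B h) i) j
  have hAN : ∀ B, M.IsBase B → A.submatrix id (f B) * (N B * A) = A := fun B h => by
    rw [← Matrix.mul_assoc, mul_eq_one_comm.1 (hN B h), Matrix.one_mul]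
  have hcases : ∀ B, M.IsBase B → ∀ b ∈ B, ∃ i, f B i = b := fun B h b hb => by
    rw [← (hf B h).2.1] at hb; exact hb
  have hcr : ∀ B, M.IsBase B → ∀ i e, (A.submatrix id (f B)).det * (N B * A) i e =
      (A.submatrix id (Function.update (f B) i e)).det := fun B h i e => by
    have h1 := congrFun (det_smul_inv_mulVec_eq_cramer (A.submatrix id (f B)) (fun k => A k e)
      (hf B h).2.2.isUnit) i
    rw [cramer_apply] at h1
    refine h1.trans (congrArg det ?_)
    ext1 k j
    by_cases hj : j = i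
    · simp [hj]
    · simp [hj]
  refine ⟨fun B => S B * (N B * A), fun B h b e => ?_, fun B h b e => ?_, fun B h b hb => ?_,
    fun B B' h h' => ?_⟩
  · by_cases hb : b ∈ B
    swap
    · exact Or.inl (hrow0 B h b hb e)
    obtain ⟨i, rfl⟩ := hcases B h b hb
    rw [hrow B h]
    have h1 := hcr B h i e
    obtain ⟨g0, hg0, e0⟩ := (hA.1 (f B)).resolve_left (hf B h).2.2
    rcases hA.1 (Function.update (f B) i e) with h2 | ⟨g, hg, h2⟩
    · exact Or.inl ((mul_eq_zero.1 (h1.trans h2)).resolve_left (hf B h).2.2)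
    · refine Or.inr ⟨g0⁻¹ * g, mul_mem (inv_mem hg0) hg, ?_⟩
      rw [Units.val_mul, ← h2, ← h1, e0, Units.inv_mul_cancel_left]
  · by_cases hb : b ∈ B
    swap
    · simp [hrow0 B h b hb e, hb]
    obtain ⟨i, rfl⟩ := hcases B h b hb
    rw [hrow B h, and_iff_right hb]
    constructor
    · intro h0
      have hr := uk_range_update (hf B h).1 i e
      rw [(hf B h).2.1] at hr
      have h1 : (A.submatrix id (Function.update (f B) i e)).det ≠ 0 :=
        hcr B h i e ▸ mul_ne_zero (hf B h).2.2 h0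
      refine (hB _).2 ⟨_, fun j k hjk => ?_, hr, h1⟩
      by_contra hne
      exact h1 (det_zero_of_column_eq hne fun l => by simp [hjk])
    · intro h1 h0
      obtain ⟨g, -, hg, hu⟩ := (hB _).1 h1
      have h2 : N B i = 0 := by
        by_contra h2
        refine hu (exists_vecMul_eq_zero_iff.1 ⟨_, h2, funext fun j => ?_⟩)
        change (N B * A) i (g j) = 0
        rcases mem_ex.1 (hg ▸ mem_range_self j : g j ∈ ex B (f B i) e) with h3 | ⟨h3, h4⟩
        · rw [h3, h0]
        · obtain ⟨k, hk⟩ := hcases B h _ h3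
          rw [← hk, hid B h, if_neg fun e' => h4 (by rw [← hk, e'])]
      simpa [Matrix.mul_apply, h2] using hid B h i i
  · obtain ⟨i, rfl⟩ := hcases B h b hb
    simp [hrow B h, hid B h]
  · simp only [Matrix.mul_assoc]
    rw [← Matrix.mul_assoc A, hS, hAN B h]

theorem exists_U2 {E : Type} [Fintype E] {r : ℕ} {A : Matrix (Fin r) E K2} {M : Matroid E}
    (hA : IsWeakU2 A) (hM : RepresentsK A M) : ∃ T, U2 M T := by
  obtain ⟨T, hT⟩ := uk_tab hA hM
  have h : ∀ B b e, M.IsBase B → ∃ a, InP a ∧ toK a = T B b e := fun B b e hB => by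
    rcases hT.mem B hB b e with h | ⟨g, hg, h⟩
    · exact ⟨0, Or.inl rfl, by rw [h, map_zero]⟩
    · obtain ⟨a, ha, e'⟩ := uk_mem hg
      exact ⟨a, Or.inr ha, by rw [h, e']⟩
  choose! T' h1 h2 using h
  refine ⟨fun B => Matrix.of (T' B), fun B hB b e => h1 B b e hB, fun B hB b e => ?_,
    fun B hB b hb => toK_inj ?_, fun B B' hB hB' => ?_⟩
  · rw [← hT.supp B hB, ← h2 B b e hB, map_ne_zero_iff _ toK_inj, of_apply]
  · rw [of_apply, h2 B b b hB, hT.diag B hB b hb, map_one]
  · ext1 x w
    refine toK_inj ?_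
    rw [Matrix.mul_apply, map_sum, of_apply, h2 B' x w hB', hT.mul_apply hB hB']
    exact Finset.sum_congr rfl fun b _ => by
      rw [map_mul, of_apply, of_apply, h2 B' x b hB', h2 B b w hB]

end Pool.Agent.Lib.MP_10bdcf_co.G
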