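import Pool.Agent.Lib.MP_10bdcf_co.UF

/-!
Derivatives of the fundamental elements: the five types.
-/

namespace Pool.Agent.Lib.MP_10bdcf_co.G

/-- The type of a fundamental element: which of the five pencils it belongs to. -/
def ty (m : Mo) : Fin 5 :=
  if m.2.2.1 = 0 ∧ m.2.2.2.2.1 = 0 ∧ m.2.2.2.2.2 = 0 then 0
  else if m.2.1 = 0 ∧ m.2.2.2.1 = 0 ∧ m.2.2.2.2.2 = 0 then 1
  else if m.2.2.2.1 = 0 ∧ m.2.2.2.2.1 = 0 then 2
  else if m.2.1 = 0 ∧ m.2.2.1 = 0 then 3 else 4

/-- Two points are twisted if they differ on every fundamental element. -/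
def Tw {F : Type} [Field F] (x y : R0 →+* F) : Prop := ∀ m ∈ fundL, x (mo m) ≠ y (mo m)

variable {F : Type} [Field F] (x : R0 →+* F)

theorem Tw.symm {x y : R0 →+* F} (h : Tw x y) : Tw y x := fun m hm => (h m hm).symm

theorem ty_ne_of_sub : ∀ m ∈ fundL, ∀ n ∈ fundL, m - n ∈ fundL → ty m ≠ ty n := by
  have h : ∀ m ∈ fundL, ∀ n ∈ fundL, ty m = ty n → m - n ∉ fundL := by decide +kernel
  exact fun m hm n hn h1 h2 => h m hm n hn h2 h1

theorem exists_fifth : ∀ m ∈ fundL, ∃ n ∈ fundL, m - n ∈ fundL := by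
  decide +kernel

theorem ut_unique (D : R0 → F) (h1 : D 1 = 0) (h0 : D 0 = 0) (ha : ∀ a b, D (a + b) = D a + D b)
    (hm : ∀ a b, D (a * b) = x a * D b + D a * x b) (a : R0) :
    der x (D a0, D b0) a = D a := by
  let y : R0 →+* DualNumber F :=
    { toFun := fun a => TrivSqZeroExt.inl (x a) + TrivSqZeroExt.inr (D a)
      map_one' := by ext <;> simp [h1]
      map_zero' := by ext <;> simp [h0]
      map_add' := fun a b => by ext <;> simp [ha]
      map_mul' := fun a b => by ext <;> simp [hm, mul_comm] }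
  have e : xv x (D a0, D b0) = y := hom_ext (by simp [xv, pt_a0, y]) (by simp [xv, pt_b0, y])
  simp [der, e, y]

theorem der_add_v (v v' : F × F) (a : R0) : der x (v + v') a = der x v a + der x v' a := by
  have := ut_unique x (fun a => der x v a + der x v' a) (by simp) (by simp)
    (fun a b => by simp only [der_add]; ring) (fun a b => by simp only [der_mul]; ring) a
  simp only [der_a0, der_b0] at this
  exact this

theorem der_smul_v (c : F) (v : F × F) (a : R0) : der x (c • v) a = c * der x v a := by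
  have := ut_unique x (fun a => c * der x v a) (by simp) (by simp)
    (fun a b => by simp only [der_add]; ring) (fun a b => by simp only [der_mul]; ring) a
  simp only [der_a0, der_b0] at this
  exact this

theorem der_zero_v (a : R0) : der x 0 a = 0 := by
  have := der_smul_v x 0 0 a
  rwa [zero_smul, zero_mul] at this

theorem ut_ne (u : R0ˣ) : x u ≠ 0 := (u.isUnit.map x).ne_zero

/-- The logarithmic derivative. -/
noncomputable def utL (v : F × F) : R0ˣ →* Multiplicative F :=
  MonoidHom.mk' (fun u => Multiplicative.ofAdd (der x v u / x u)) fun u w => by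
    have h1 := ut_ne x u
    have h2 := ut_ne x w
    rw [← ofAdd_add, Units.val_mul, der_mul, map_mul]
    congr 1
    field_simp
    ring

theorem utL_apply (v : F × F) (u : R0ˣ) : (utL x v u).toAdd = der x v u / x u := rfl

theorem der_mo (v : F × F) (m : Mo) : der x v (mo m) = x (mo m) *
    ((m.2.1 : F) * v.1 / x a0 + (m.2.2.1 : F) * v.2 / x b0 - (m.2.2.2.1 : F) * v.1 / (1 - x a0) -
      (m.2.2.2.2.1 : F) * v.2 / (1 - x b0) + (m.2.2.2.2.2 : F) * (v.1 - v.2) / (x a0 - x b0)) := by
  have h0 : (utL x v (if m.1 = 0 then 1 else -1)).toAdd = 0 := by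
    rw [utL_apply]
    split_ifs <;> simp [der_neg]
  have h1 : (utL x v (moU m)).toAdd = der x v (mo m) / x (mo m) := rfl
  have h2 : x (mo m) ≠ 0 := ut_ne x (moU m)
  rw [eq_comm, div_eq_iff h2] at h1
  rw [h1, mul_comm]
  congr 1
  simp only [moU, map_mul, map_zpow, toAdd_mul, toAdd_zpow, h0, utL_apply, g0_val, g1_val, g2_val,
    g3_val, g4_val, der_sub, der_one, der_a0, der_b0, map_sub, map_one, zsmul_eq_mul]
  ring

/-- One fundamental element of each type. -/
def utRep : Fin 5 → Mo :=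
  ![(0, 1, 0, 0, 0, 0), (0, 0, 1, 0, 0, 0), (0, 1, -1, 0, 0, 0), (0, 0, 0, 1, -1, 0),
    (0, 1, -1, -1, 1, 0)]

/-- Equal or complementary monomials. -/
def utB (r n : Mo) : Bool :=
  decide (r = n) || fundP.any fun p => decide (p.1 = r) && decide (p.2 = n)

theorem utB_iff {r n : Mo} (h : utB r n = true) : r = n ∨ (r, n) ∈ fundP := by
  simp only [utB, Bool.or_eq_true, decide_eq_true_eq, List.any_eq_true, Bool.and_eq_true] at h
  refine h.imp id ?_
  rintro ⟨p, hp, rfl, rfl⟩
  exact hp

theorem ut_orbit : ∀ m ∈ fundL, ∃ r ∈ [utRep (ty m), -utRep (ty m)], ∃ n ∈ [m, -m],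
    utB r n = true := by
  decide +kernel

theorem ut_neg (v : F × F) (m : Mo) : der x v (mo (-m)) = 0 ↔ der x v (mo m) = 0 := by
  have h := der_mul x v (mo (-m)) (mo m)
  have h1 : x (mo m) ≠ 0 := ut_ne x (moU m)
  have h2 : x (mo (-m)) ≠ 0 := ut_ne x (moU (-m))
  rw [mo_neg_mul, der_one] at h
  constructor
  · intro e
    rw [e, zero_mul, add_zero] at h
    exact (mul_eq_zero.1 h.symm).resolve_left h2
  · intro e
    rw [e, mul_zero, zero_add] at h
    exact (mul_eq_zero.1 h.symm).resolve_right h1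

theorem ut_pair (v : F × F) {m n : Mo} (h : (m, n) ∈ fundP) :
    der x v (mo n) = 0 ↔ der x v (mo m) = 0 := by
  have h1 := der_add x v (mo m) (mo n)
  rw [fundP_sum _ h, der_one] at h1
  constructor
  · intro e
    rw [e, add_zero] at h1
    exact h1.symm
  · intro e
    rw [e, zero_add] at h1
    exact h1.symm

theorem ut_rep (v : F × F) {m : Mo} (hm : m ∈ fundL) :
    der x v (mo m) = 0 ↔ der x v (mo (utRep (ty m))) = 0 := by
  obtain ⟨r, hr, n, hn, h⟩ := ut_orbit m hm
  have h1 : der x v (mo r) = 0 ↔ der x v (mo (utRep (ty m))) = 0 := by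
    rcases List.mem_pair.1 hr with rfl | rfl
    exacts [Iff.rfl, ut_neg x v _]
  have h2 : der x v (mo n) = 0 ↔ der x v (mo m) = 0 := by
    rcases List.mem_pair.1 hn with rfl | rfl
    exacts [Iff.rfl, ut_neg x v _]
  rw [← h1, ← h2]
  rcases utB_iff h with rfl | h
  exacts [Iff.rfl, ut_pair x v h]

/-- The coefficients of the five linear forms. -/
def utC (a b : F) : Fin 5 → F × F :=
  ![(1, 0), (0, 1), (b, -a), (1 - b, -(1 - a)), (b * (1 - b), -(a * (1 - a)))]

theorem ut_five : x a0 ≠ 0 ∧ x b0 ≠ 0 ∧ 1 - x a0 ≠ 0 ∧ 1 - x b0 ≠ 0 ∧ x a0 - x b0 ≠ 0 :=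
  ⟨ut_ne x g0, ut_ne x g1, by simpa using ut_ne x g2, by simpa using ut_ne x g3,
    by simpa using ut_ne x g4⟩

theorem ut_form (v : F × F) (i : Fin 5) (h : der x v (mo (utRep i)) = 0) :
    (utC (x a0) (x b0) i).1 * v.1 + (utC (x a0) (x b0) i).2 * v.2 = 0 := by
  obtain ⟨h0, h1, h2, h3, -⟩ := ut_five x
  rw [der_mo] at h
  have h' := (mul_eq_zero.1 h).resolve_left (ut_ne x (moU (utRep i)))
  fin_cases i <;>
    simp only [utRep, utC, Fin.reduceFinMk, Matrix.cons_val, Int.cast_zero, Int.cast_one,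
      Int.cast_neg, zero_mul, zero_div, one_mul, add_zero, zero_add, sub_zero, zero_sub] at h' ⊢ <;>
    field_simp at h' <;> first | linear_combination h' | linear_combination -h'

theorem ut_det {i j : Fin 5} (h : i ≠ j) :
    (utC (x a0) (x b0) i).1 * (utC (x a0) (x b0) j).2 -
      (utC (x a0) (x b0) j).1 * (utC (x a0) (x b0) i).2 ≠ 0 := by
  obtain ⟨h0, h1, h2, h3, h4⟩ := ut_five x
  have key : ∀ i j : Fin 5, i < j → (utC (x a0) (x b0) i).1 * (utC (x a0) (x b0) j).2 -
      (utC (x a0) (x b0) j).1 * (utC (x a0) (x b0) i).2 ≠ 0 := by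
    intro i j hij
    fin_cases i <;> fin_cases j <;> simp only [utC, Fin.reduceFinMk, Matrix.cons_val] <;>
      first
      | exact absurd hij (by decide)
      | (intro e
         first
         | exact one_ne_zero (α := F) (by linear_combination e)
         | exact h0 (by linear_combination -e)
         | exact h1 (by linear_combination -e)
         | exact h2 (by linear_combination -e)
         | exact h3 (by linear_combination -e)
         | exact h4 (by linear_combination e)
         | exact mul_ne_zero h0 h2 (by linear_combination -e)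
         | exact mul_ne_zero h1 h3 (by linear_combination -e)
         | exact mul_ne_zero (mul_ne_zero h0 h1) h4 (by linear_combination e)
         | exact mul_ne_zero (mul_ne_zero h2 h3) h4 (by linear_combination -e))
  rcases lt_or_gt_of_ne h with h' | h'
  · exact key i j h'
  · intro e
    exact key j i h' (by linear_combination -e)

/-- Elements of the same type are killed by the same tangent vectors. -/
theorem der_same {m n : Mo} (hm : m ∈ fundL) (hn : n ∈ fundL) (h : ty m = ty n) {v : F × F}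
    (h0 : der x v (mo m) = 0) : der x v (mo n) = 0 := by
  rw [ut_rep x v hn, ← h, ← ut_rep x v hm]
  exact h0

/-- Elements of different types are coordinates at every point. -/
theorem der_two {m n : Mo} (hm : m ∈ fundL) (hn : n ∈ fundL) (h : ty m ≠ ty n) {v : F × F}
    (h1 : der x v (mo m) = 0) (h2 : der x v (mo n) = 0) : v = 0 := by
  have e1 := ut_form x v _ ((ut_rep x v hm).1 h1)
  have e2 := ut_form x v _ ((ut_rep x v hn).1 h2)
  have hd := ut_det x h
  refine Prod.ext (mul_left_cancel₀ hd ?_) (mul_left_cancel₀ hd ?_)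
  · rw [Prod.fst_zero, mul_zero]
    linear_combination (utC (x a0) (x b0) (ty n)).2 * e1 - (utC (x a0) (x b0) (ty m)).2 * e2
  · rw [Prod.snd_zero, mul_zero]
    linear_combination (utC (x a0) (x b0) (ty m)).1 * e2 - (utC (x a0) (x b0) (ty n)).1 * e1

theorem exists_der_two {m n : Mo} (hm : m ∈ fundL) (hn : n ∈ fundL) (h : ty m ≠ ty n) (c d : F) :
    ∃ v : F × F, der x v (mo m) = c ∧ der x v (mo n) = d := by
  let f : F × F →ₗ[F] F × F :=
    { toFun := fun v => (der x v (mo m), der x v (mo n))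
      map_add' := fun v w => by simp [der_add_v]
      map_smul' := fun c v => by simp [der_smul_v] }
  have hf : Function.Injective f := (injective_iff_map_eq_zero f).2 fun v hv =>
    der_two x hm hn h (congrArg Prod.fst hv) (congrArg Prod.snd hv)
  obtain ⟨v, hv⟩ := LinearMap.surjective_of_injective hf (c, d)
  exact ⟨v, congrArg Prod.fst hv, congrArg Prod.snd hv⟩

theorem exists_der_one {m : Mo} (hm : m ∈ fundL) (c : F) : ∃ v : F × F, der x v (mo m) = c := by
  obtain ⟨n, hn, h⟩ := exists_fifth m hm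
  obtain ⟨v, hv, -⟩ := exists_der_two x hm hn (ty_ne_of_sub m hm n hn h) c 0
  exact ⟨v, hv⟩

theorem exists_der_zero {m : Mo} (hm : m ∈ fundL) : ∃ v : F × F, v ≠ 0 ∧ der x v (mo m) = 0 := by
  obtain ⟨n, hn, h⟩ := exists_fifth m hm
  obtain ⟨v, hv, hv'⟩ := exists_der_two x hm hn (ty_ne_of_sub m hm n hn h) 0 1
  refine ⟨v, ?_, hv⟩
  rintro rfl
  rw [der_zero_v] at hv'
  exact zero_ne_one hv'

/-- The tangent vectors that kill a fundamental element form a line. -/
theorem der_line {m : Mo} (hm : m ∈ fundL) {v v' : F × F} (hv : v ≠ 0) (h : der x v (mo m) = 0)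
    (h' : der x v' (mo m) = 0) : ∃ c : F, v' = c • v := by
  obtain ⟨n, hn, hmn⟩ := exists_fifth m hm
  have ht := ty_ne_of_sub m hm n hn hmn
  have hd : der x v (mo n) ≠ 0 := fun e => hv (der_two x hm hn ht h e)
  refine ⟨der x v' (mo n) / der x v (mo n), ?_⟩
  have := der_two x hm hn ht (v := v' + (-(der x v' (mo n) / der x v (mo n))) • v)
    (by rw [der_add_v, der_smul_v, h, h', mul_zero, add_zero])
    (by rw [der_add_v, der_smul_v, neg_mul, div_mul_cancel₀ _ hd, add_neg_cancel])
  rwa [neg_smul, add_neg_eq_zero] at this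

/-- A numerical code of the exponents. -/
def utE (m : Mo) : ℤ :=
  m.2.1 + 8 * m.2.2.1 + 64 * m.2.2.2.1 + 512 * m.2.2.2.2.1 + 4096 * m.2.2.2.2.2

theorem utE_sub (m n : Mo) : utE (m - n) = utE m - utE n := by
  simp only [utE, Prod.fst_sub, Prod.snd_sub]
  ring

/-- The codes of the fundamental elements. -/
def utL0 : List ℤ := [3583, -1, 4095, 7, -441, -8, -64, 448, -512, 3584, -3584, 512, -448, 64, 8,
  441, -7, -4095, 1, -3583, 63, 4024, 4088, 504, 4032, -4032, -504, -4088, -4024, -63]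

theorem utL0_eq : fundL.map utE = utL0 := by decide +kernel

theorem no_sixth : ∀ m ∈ fundL, ∀ n ∈ fundL, m - n ∈ fundL → ∀ k ∈ fundL, m - k ∈ fundL →
    n - k ∉ fundL := by
  have h : ∀ {m : Mo}, m ∈ fundL → utE m ∈ utL0 := fun hm => utL0_eq ▸ List.mem_map_of_mem hm
  have t : ∀ m ∈ utL0, ∀ n ∈ utL0, m - n ∈ utL0 → ∀ k ∈ utL0, m - k ∈ utL0 → n - k ∉ utL0 := by
    decide +kernel
  intro m hm n hn h1 k hk h2 h3
  exact t _ (h hm) _ (h hn) (utE_sub m n ▸ h h1) _ (h hk) (utE_sub m k ▸ h h2)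
    (utE_sub n k ▸ h h3)

theorem not_both_signs : ∀ m ∈ fundL, m + sg ∉ fundL := by
  decide +kernel

theorem sg_not_mem : sg ∉ fundL := by decide +kernel

theorem zero_not_mem : (0 : Mo) ∉ fundL := by decide +kernel

theorem neg_mem_fund : ∀ m ∈ fundL, -m ∈ fundL := by decide +kernel

theorem ty_neg : ∀ m ∈ fundL, ty (-m) = ty m := by decide +kernel

theorem ty_fundP : ∀ p ∈ fundP, ty p.1 = ty p.2 := by decide +kernel

theorem exists_ty : ∀ i : Fin 5, ∃ m ∈ fundL, ty m = i := by decide +kernel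

/-- The value of a monomial at the point `s4`. -/
def s4m (m : Mo) : F4 := om ^ ((m.2.1 + 2 * m.2.2.1 + 2 * m.2.2.2.1 + m.2.2.2.2.1) % 3).toNat

theorem s4_mo (m : Mo) : s4 (mo m) = s4m m := by
  have h0 : om ≠ 0 := by decide
  have h1 : (-1 : F4) = 1 := by decide
  have h2 : om * om = om ^ (2 : ℤ) := by rw [zpow_two]
  have h3 : 1 - om = om * om := by decide
  have h4 : 1 - om * om = om := by decide
  have h5 : om - om * om = 1 := by decide
  have h6 : om ^ (3 : ℤ) = 1 := by
    rw [show (3 : ℤ) = ((3 : ℕ) : ℤ) from rfl, zpow_natCast]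
    decide
  have ea : s4 a0 = om := pt_a0 _ _ _
  have eb : s4 b0 = om * om := pt_b0 _ _ _
  rw [map_mo, ea, eb, h1, ite_self, one_mul, h3, h4, h5, one_zpow, mul_one, h2, ← zpow_mul,
    ← zpow_mul, ← zpow_add₀ h0, ← zpow_add₀ h0, ← zpow_add₀ h0, s4m, ← zpow_natCast,
    Int.toNat_of_nonneg (Int.emod_nonneg _ (by norm_num))]
  generalize m.2.1 + 2 * m.2.2.1 + 2 * m.2.2.2.1 + m.2.2.2.2.1 = k
  conv_lhs => rw [← Int.mul_ediv_add_emod k 3, zpow_add₀ h0, zpow_mul, h6, one_zpow, one_mul]

theorem tw_s4 : Tw s4 t4 := by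
  have h : ∀ m ∈ fundL, s4m m ≠ star (s4m m) := by decide +kernel
  intro m hm e
  refine h m hm ?_
  rw [← s4_mo]
  exact e

end Pool.Agent.Lib.MP_10bdcf_co.G
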