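import Pool.Agent.Lib.MP_10bdcf_co.ZD
import Pool.Agent.Lib.MP_10bdcf_co.UT
import Pool.Agent.Lib.MP_10bdcf_co.CA

/-!
Systems over the partial field: small determinants, sites, lines and planes.
-/

namespace Pool.Agent.Lib.MP_10bdcf_co.G

open scoped Matroid
open Set

set_option linter.unusedSectionVars false

variable {E : Type} [Fintype E] {M : Matroid E} {T : Set E → Matrix E E R0} {B I J S : Set E}
  {g h k e f z : E} {m : Mo}

/-- After contracting `I` the rank is two and the elements of `S` are distinct points. -/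
structure Line (M : Matroid E) (I S : Set E) : Prop where
  ind : M.Indep I
  rank : rk M M.E = I.ncard + 2
  sub : S ⊆ M.E
  pair : ∀ p ∈ S, ∀ q ∈ S, p ≠ q → rk M (I ∪ {p, q}) = I.ncard + 2

/-- The determinant of the block with rows `g h` and columns `e f`. -/
noncomputable def d2 (A : Matrix E E R0) (g h e f : E) : R0 := A g e * A h f - A g f * A h e

/-- The determinant of the block with rows `g h k` and columns `e f z`. -/
noncomputable def d3 (A : Matrix E E R0) (g h k e f z : E) : R0 :=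
  A g e * d2 A h k f z - A g f * d2 A h k e z + A g z * d2 A h k e f

theorem U2.minor (hT : U2 M T) (ho : Op M I J) : U2 (mn M I J) (mnT I J T) :=
  (hT.contract_indep ho.ind).delete_coindep (ho.coi.coindep_contract_of_disjoint ho.dis.symm)

theorem U2.dual (hT : U2 M T) : U2 M✶ (duT M T) :=
  TabP.dual hT (AddMonoidHom.id R0) (fun a b => mul_comm a b) rfl (fun _ h => h) InG.one
    fun _ h => h.neg

theorem U2.inP (hT : U2 M T) (hB : M.IsBase B) (g e : E) : InP (T B g e) := hT.mem B hB g e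

theorem um_base {X : Set E} (h1 : X.ncard ≤ rk M M.E) (h2 : rk M X = rk M M.E) : M.IsBase X := by
  have := rk_le_ncard M X
  exact isBase_iff_rk.2 ⟨by omega, by omega⟩

theorem um_rk_del (hB : M.IsBase B) (hg : g ∈ B) : rk M (B \ {g}) + 1 = rk M M.E := by
  rw [rk_indep (hB.indep.subset sdiff_subset), ncard_sdiff_singleton_add_one hg, rk_base hB]

theorem um_ex (B : Set E) (g e : E) : ex B g e = B \ {g} ∪ {e} := by
  rw [ex, union_singleton]

theorem um_piv (hT : U2 M T) (hB : M.IsBase B) (h0 : T B g e ≠ 0) (hh : h ∈ B) (hne : g ≠ h)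
    (w : E) : d2 (T B) g h e w = T B g e * T (ex B g e) h w := by
  obtain ⟨hg, hb⟩ := (hT.supp B hB g e).1 h0
  by_cases he : e ∈ B
  · have h1 : g = e := by
      by_contra h1
      exact h0 (hT.off hB he h1)
    subst h1
    have h2 : ex B g g = B := by
      rw [ex, insert_sdiff_singleton, insert_eq_of_mem hg]
    rw [h2, d2, hT.off hB hg hne.symm, mul_zero, sub_zero]
  · have ha : Adj M B g e := ⟨hg, he, hb⟩
    rw [hT.pivot_old hB ha hh hne.symm, d2]
    linear_combination (T B h e * T B g w) * hT.mul_inv hB ha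

theorem um_ne (hT : U2 M T) (hB : M.IsBase B) (h0 : T B g e ≠ 0) (hh : h ∈ B) (hne : g ≠ h) :
    e ≠ h := by
  rintro rfl
  exact h0 (hT.off hB hh hne)

theorem U2.d1_ne (hT : U2 M T) (hB : M.IsBase B) (hg : g ∈ B) :
    T B g e ≠ 0 ↔ rk M (B \ {g} ∪ {e}) = rk M M.E := by
  rw [hT.supp B hB, ← um_ex]
  refine ⟨fun h => ?_, fun h => ⟨hg, um_base ?_ h⟩⟩
  · rw [rk_indep h.2.indep, rk_base h.2]
  · rw [rk_base hB, ← ncard_sdiff_singleton_add_one hg]
    exact ncard_insert_le _ _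

theorem um_low (hT : U2 M T) (hB : M.IsBase B) (hg : g ∈ B) (h0 : T B g e = 0) {W : Set E}
    (hW : rk M (B \ {g} ∪ W) < rk M M.E) : rk M (B \ {g} ∪ insert e W) < rk M M.E := by
  have h1 : rk M (B \ {g} ∪ {e}) ≠ rk M M.E := fun h => (hT.d1_ne hB hg).2 h h0
  have h2 := rk_le_rank M (B \ {g} ∪ {e})
  have h3 := um_rk_del hB hg
  have h4 := rk_submod' M (X := B \ {g} ∪ {e}) (Y := B \ {g} ∪ W) (P := B \ {g})
    (Q := B \ {g} ∪ insert e W) subset_union_left subset_union_left (by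
      rintro x (hx | rfl | hx)
      exacts [Or.inl (Or.inl hx), Or.inl (Or.inr rfl), Or.inr (Or.inr hx)])
  omega

theorem um_low0 (hB : M.IsBase B) (hg : g ∈ B) : rk M (B \ {g} ∪ ∅) < rk M M.E := by
  rw [union_empty]
  have := um_rk_del hB hg
  omega

theorem U2.d2_inP (hT : U2 M T) (hB : M.IsBase B) (g h e f : E) : InP (d2 (T B) g h e f) := by
  by_cases hne : g = h
  · exact Or.inl (by rw [d2, hne]; ring)
  by_cases hh : h ∈ B
  · by_cases h0 : T B g e = 0
    · rw [d2, h0, zero_mul, zero_sub]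
      exact ((hT.inP hB g f).mul (hT.inP hB h e)).neg
    · rw [um_piv hT hB h0 hh hne]
      exact (hT.inP hB g e).mul (hT.inP ((hT.supp B hB g e).1 h0).2 h f)
  · exact Or.inl (by rw [d2, hT.row hB hh, hT.row hB hh]; ring)

theorem um_d2_ne (hT : U2 M T) (hB : M.IsBase B) (hh : h ∈ B) (hne : g ≠ h) (h0 : T B g e ≠ 0) :
    d2 (T B) g h e f ≠ 0 ↔ rk M (B \ {g, h} ∪ {e, f}) = rk M M.E := by
  have h1 := um_ne hT hB h0 hh hne
  have h2 : ex B g e \ {h} ∪ {f} = B \ {g, h} ∪ {e, f} := by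
    ext x
    simp only [mem_union, mem_sdiff, mem_ex, mem_singleton_iff, mem_insert_iff]
    grind
  rw [um_piv hT hB h0 hh hne, mul_ne_zero_iff_left h0,
    hT.d1_ne ((hT.supp B hB g e).1 h0).2 (mem_ex.2 (Or.inr ⟨hh, hne.symm⟩)), h2]

theorem U2.d2_ne (hT : U2 M T) (hB : M.IsBase B) (hg : g ∈ B) (hh : h ∈ B) (hne : g ≠ h) :
    d2 (T B) g h e f ≠ 0 ↔ rk M (B \ {g, h} ∪ {e, f}) = rk M M.E := by
  by_cases h0 : T B g e = 0
  · by_cases h1 : T B g f = 0
    · have h2 := um_low hT hB hg h0 (um_low hT hB hg h1 (um_low0 hB hg))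
      have h3 : rk M (B \ {g, h} ∪ {e, f}) ≤ rk M (B \ {g} ∪ insert e (insert f ∅)) :=
        rk_mono M (by
          intro x
          simp only [mem_union, mem_sdiff, mem_singleton_iff, mem_insert_iff]
          tauto)
      rw [d2, h0, h1]
      simp only [zero_mul, sub_self, ne_eq, not_true_eq_false, false_iff]
      omega
    · rw [pair_comm e f, ← um_d2_ne hT hB hh hne h1, ← neg_ne_zero, d2, d2, neg_sub]
  · exact um_d2_ne hT hB hh hne h0

theorem um_piv3 (hT : U2 M T) (hB : M.IsBase B) (h0 : T B g e ≠ 0) (hh : h ∈ B) (hk : k ∈ B)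
    (h1 : g ≠ h) (h2 : g ≠ k) (f z : E) :
    d3 (T B) g h k e f z = T B g e * d2 (T (ex B g e)) h k f z := by
  refine mul_left_cancel₀ h0 ?_
  have e1 := um_piv hT hB h0 hh h1 f
  have e2 := um_piv hT hB h0 hh h1 z
  have e3 := um_piv hT hB h0 hk h2 f
  have e4 := um_piv hT hB h0 hk h2 z
  have e5 : T B g e * (T B g e * d2 (T (ex B g e)) h k f z) =
      d2 (T B) g h e f * d2 (T B) g k e z - d2 (T B) g h e z * d2 (T B) g k e f := by
    rw [e1, e2, e3, e4, d2]
    ring
  rw [e5]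
  simp only [d3, d2]
  ring

theorem um_d3_swap (A : Matrix E E R0) (g h k e f z : E) :
    d3 A g h k e f z = -d3 A g h k f e z := by
  simp only [d3, d2]
  ring

theorem um_d3_rot (A : Matrix E E R0) (g h k e f z : E) :
    d3 A g h k e f z = d3 A g h k z e f := by
  simp only [d3, d2]
  ring

theorem U2.d3_inP (hT : U2 M T) (hB : M.IsBase B) (g h k e f z : E) :
    InP (d3 (T B) g h k e f z) := by
  by_cases h1 : g = h
  · exact Or.inl (by simp only [d3, d2, h1]; ring)
  by_cases h2 : g = k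
  · exact Or.inl (by simp only [d3, d2, h2]; ring)
  by_cases hh : h ∈ B
  swap
  · exact Or.inl (by simp only [d3, d2, hT.row hB hh]; ring)
  by_cases hk : k ∈ B
  swap
  · exact Or.inl (by simp only [d3, d2, hT.row hB hk]; ring)
  have key : ∀ e f z, T B g e ≠ 0 → InP (d3 (T B) g h k e f z) := fun e f z h0 => by
    rw [um_piv3 hT hB h0 hh hk h1 h2]
    exact (hT.inP hB g e).mul (hT.d2_inP ((hT.supp B hB g e).1 h0).2 h k f z)
  by_cases he : T B g e = 0
  · by_cases hf : T B g f = 0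
    · by_cases hz : T B g z = 0
      · exact Or.inl (by rw [d3, he, hf, hz]; ring)
      · rw [um_d3_rot]
        exact key _ _ _ hz
    · rw [um_d3_swap]
      exact (key _ _ _ hf).neg
  · exact key _ _ _ he

theorem U2.d3_ne (hT : U2 M T) (hB : M.IsBase B) (hg : g ∈ B) (hh : h ∈ B) (hk : k ∈ B)
    (h1 : g ≠ h) (h2 : g ≠ k) (h3 : h ≠ k) :
    d3 (T B) g h k e f z ≠ 0 ↔ rk M (B \ {g, h, k} ∪ {e, f, z}) = rk M M.E := by
  have key : ∀ e f z, T B g e ≠ 0 →
      (d3 (T B) g h k e f z ≠ 0 ↔ rk M (B \ {g, h, k} ∪ {e, f, z}) = rk M M.E) := by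
    intro e f z h0
    have n1 := um_ne hT hB h0 hh h1
    have n2 := um_ne hT hB h0 hk h2
    have h4 : ex B g e \ {h, k} ∪ {f, z} = B \ {g, h, k} ∪ {e, f, z} := by
      ext x
      simp only [mem_union, mem_sdiff, mem_ex, mem_singleton_iff, mem_insert_iff]
      grind
    rw [um_piv3 hT hB h0 hh hk h1 h2, mul_ne_zero_iff_left h0,
      hT.d2_ne ((hT.supp B hB g e).1 h0).2 (mem_ex.2 (Or.inr ⟨hh, h1.symm⟩))
        (mem_ex.2 (Or.inr ⟨hk, h2.symm⟩)) h3, h4]
  by_cases he : T B g e = 0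
  · by_cases hf : T B g f = 0
    · by_cases hz : T B g z = 0
      · have h5 := um_low hT hB hg he (um_low hT hB hg hf (um_low hT hB hg hz (um_low0 hB hg)))
        have h6 : rk M (B \ {g, h, k} ∪ {e, f, z}) ≤
            rk M (B \ {g} ∪ insert e (insert f (insert z ∅))) :=
          rk_mono M (by
            intro x
            simp only [mem_union, mem_sdiff, mem_singleton_iff, mem_insert_iff]
            tauto)
        rw [d3, he, hf, hz]
        simp only [zero_mul, sub_self, add_zero, ne_eq, not_true_eq_false, false_iff]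
        omega
      · rw [um_d3_rot, key _ _ _ hz, insert_comm z e, pair_comm z f]
    · rw [um_d3_swap, neg_ne_zero, key _ _ _ hf, insert_comm f e]
  · exact key _ _ _ he

theorem U2.exists_cr (hT : U2 M T) (hs : Site M B g h e f) :
    ∃ m ∈ fundL, T B h e * T B g f = mo m * (T B g e * T B h f) := by
  have h1 := um_piv hT hs.base (hT.ne_zero hs.base hs.ge) hs.he.1 hs.ne f
  have h2 : InG (d2 (T B) g h e f) := by
    rw [h1]
    exact (hT.prop hs.base hs.ge).mul (hT.prop hs.ge.2.2 hs.ns)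
  obtain ⟨a, ha⟩ := hT.prop hs.base hs.ge
  obtain ⟨b, hb⟩ := hT.prop hs.base hs.gf
  obtain ⟨c, hc⟩ := hT.prop hs.base hs.he
  obtain ⟨d, hd⟩ := hT.prop hs.base hs.hf
  rw [d2, ha, hb, hc, hd, ← mo_add, ← mo_add] at h2
  refine ⟨_, inG_sub.1 h2, ?_⟩
  rw [ha, hb, hc, hd, ← mo_add, ← mo_add, ← mo_add, sub_add_cancel, add_comm]

theorem U2.cr_mem (hT : U2 M T) (hm : IsCr M T m) : m ∈ fundL := by
  obtain ⟨B, g, h, e, f, hs, h1⟩ := hm
  obtain ⟨m', hm', h2⟩ := hT.exists_cr hs
  rw [mo_inj (mul_right_cancel₀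
    (mul_ne_zero (hT.ne_zero hs.base hs.ge) (hT.ne_zero hs.base hs.hf)) (h1.symm.trans h2))]
  exact hm'

theorem Site.line (hT : U2 M T) (hs : Site M B g h e f) :
    Line M (B \ {g, h}) {g, h, e, f} ∧ e ≠ f := by
  have hB := hs.base
  have hg := hs.ge.1
  have hh := hs.he.1
  have hr : rk M M.E = (B \ {g, h}).ncard + 2 := by
    rw [rk_base hB, ← ncard_sdiff_add_ncard_of_subset (pair_subset hg hh), ncard_pair hs.ne]
  refine ⟨⟨hB.indep.subset sdiff_subset, hr, ?_, ?_⟩, fun h1 => hs.ns.2.1 (mem_ex.2 (Or.inl h1.symm))⟩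
  · rintro x (rfl | rfl | rfl | rfl)
    exacts [hB.subset_ground hg, hB.subset_ground hh, hs.ge.mem_ground, hs.gf.mem_ground]
  · have gg := hT.diag B hB g hg
    have hh' := hT.diag B hB h hh
    have gh := hT.off hB hh hs.ne
    have hg' := hT.off hB hg hs.ne.symm
    have ge := hT.ne_zero hB hs.ge
    have gf := hT.ne_zero hB hs.gf
    have he := hT.ne_zero hB hs.he
    have hf := hT.ne_zero hB hs.hf
    have dd : d2 (T B) g h e f ≠ 0 := by
      rw [um_piv hT hB ge hh hs.ne]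
      exact mul_ne_zero ge (hT.ne_zero hs.ge.2.2 hs.ns)
    have dd' : d2 (T B) g h f e ≠ 0 := by
      rwa [← neg_ne_zero, d2, neg_sub]
    intro p hp q hq hpq
    rw [← hr, ← hT.d2_ne hB hg hh hs.ne]
    simp only [mem_insert_iff, mem_singleton_iff] at hp hq
    rcases hp with hp | hp | hp | hp <;> rcases hq with hq | hq | hq | hq <;> rw [hp, hq] <;>
      first
      | exact absurd (hp.trans hq.symm) hpq
      | exact dd
      | exact dd'
      | simp [d2, gg, hh', gh, hg', ge, gf, he, hf]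

theorem um_line_base (hl : Line M I S) (hg : g ∈ S) (hh : h ∈ S) (h1 : g ≠ h) :
    M.IsBase (I ∪ {g, h}) := by
  refine um_base ?_ (by rw [hl.pair g hg h hh h1, hl.rank])
  rw [hl.rank, ← ncard_pair h1]
  exact ncard_union_le _ _

theorem um_line_notMem (hl : Line M I S) (hg : g ∈ S) (hh : h ∈ S) (h1 : g ≠ h) : g ∉ I := by
  intro hI
  have h2 := hl.pair g hg h hh h1
  have h3 : I ∪ {g, h} = insert h I := by
    rw [union_insert, union_singleton, insert_comm, insert_eq_of_mem hI]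
  have h4 := rk_insert_le M h I
  rw [h3] at h2
  rw [rk_indep hl.ind] at h4
  omega

theorem um_line_ex (hl : Line M I S) (hg : g ∈ S) (hh : h ∈ S) (h1 : g ≠ h) (e : E) :
    ex (I ∪ {g, h}) g e = I ∪ {h, e} := by
  have := um_line_notMem hl hg hh h1
  ext x
  simp only [mem_union, mem_ex, mem_singleton_iff, mem_insert_iff]
  grind

theorem um_line_adj (hl : Line M I S) (hg : g ∈ S) (hh : h ∈ S) (he : e ∈ S) (h1 : g ≠ h)
    (h2 : g ≠ e) (h4 : h ≠ e) : Adj M (I ∪ {g, h}) g e := by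
  refine ⟨Or.inr (Or.inl rfl), ?_, ?_⟩
  · rintro (h5 | h5 | h5)
    exacts [um_line_notMem hl he hg h2.symm h5, h2 h5.symm, h4 h5.symm]
  · rw [um_line_ex hl hg hh h1]
    exact um_line_base hl hh he h4

theorem Line.site (hT : U2 M T) (hl : Line M I S) (hg : g ∈ S) (hh : h ∈ S) (he : e ∈ S)
    (hf : f ∈ S) (h1 : g ≠ h) (h2 : g ≠ e) (h3 : g ≠ f) (h4 : h ≠ e) (h5 : h ≠ f) (h6 : e ≠ f) :
    Site M (I ∪ {g, h}) g h e f := by
  have _ := hT
  refine ⟨um_line_base hl hg hh h1, um_line_adj hl hg hh he h1 h2 h4,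
    um_line_adj hl hg hh hf h1 h3 h5, ?_, ?_, h1, ?_⟩
  · rw [pair_comm]
    exact um_line_adj hl hh hg he h1.symm h4 h2
  · rw [pair_comm]
    exact um_line_adj hl hh hg hf h1.symm h5 h3
  · rw [um_line_ex hl hg hh h1]
    exact um_line_adj hl hh he hf h4 h5 h6

theorem Line.hasSite (hT : U2 M T) (hl : Line M I S) (h4 : 4 ≤ S.ncard) : HasSite M := by
  obtain ⟨g, hg, h, hh, e, he, f, hf, h1, h2, h3, h4, h5, h6⟩ := (three_lt_ncard (s := S)).1 h4
  exact ⟨_, g, h, e, f, hl.site hT hg hh he hf h1 h2 h3 h4 h5 h6⟩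

/-- A line of a contraction that need not span. -/
theorem exists_line {X : Set E} (hS : S ⊆ M.E) (hr : rk M (X ∪ S) = rk M X + 2)
    (hp : ∀ p ∈ S, ∀ q ∈ S, p ≠ q → rk M (X ∪ {p, q}) = rk M X + 2) :
    ∃ I, Line M I S ∧ X ∩ M.E ⊆ M.closure I := by
  obtain ⟨K, hK⟩ := M.exists_isBasis' X
  obtain ⟨K', hK', hKK⟩ := hK.indep.subset_isBasis'_of_subset
    (hK.subset.trans (subset_union_left (t := S)))
  obtain ⟨B, hB, hKB⟩ := hK'.indep.exists_isBase_superset
  have k1 : rk M X = K.ncard := by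
    rw [← rk_inter_ground, rk_basis hK.isBasis_inter_ground]
  have k2 : rk M (X ∪ S) = K'.ncard := by
    rw [← rk_inter_ground, rk_basis hK'.isBasis_inter_ground]
  have k3 := rk_indep hK.indep
  have k4 : (K ∪ B \ K').ncard = K.ncard + (B \ K').ncard :=
    ncard_union_eq (disjoint_sdiff_right.mono_left hKK)
  have k5 := ncard_sdiff_add_ncard_of_subset hKB
  have k6 := rk_base hB
  have k7 := rk_indep hB.indep
  refine ⟨K ∪ B \ K', ⟨hB.indep.subset (union_subset (hKK.trans hKB) sdiff_subset), by omega, hS,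
    fun p hp' q hq hpq => ?_⟩,
    hK.isBasis_inter_ground.subset_closure.trans (M.closure_subset_closure subset_union_left)⟩
  have a1 := hp p hp' q hq hpq
  have a2 := rk_submod' M (X := K ∪ {p, q}) (Y := X) (P := K) (Q := X ∪ {p, q})
    subset_union_left hK.subset (by
      rintro x (hx | hx)
      exacts [Or.inr hx, Or.inl (Or.inr hx)])
  have a3 := rk_submod' M (X := K ∪ B \ K' ∪ {p, q}) (Y := X ∪ S) (P := K ∪ {p, q}) (Q := B)
    (union_subset_union_left _ subset_union_left)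
    (union_subset_union hK.subset (pair_subset hp' hq)) (by
      intro x hx
      by_cases hx' : x ∈ K'
      exacts [Or.inr (hK'.subset hx'), Or.inl (Or.inl (Or.inr ⟨hx, hx'⟩))])
  have a4 := rk_le_rank M (K ∪ B \ K' ∪ {p, q})
  omega

theorem Line.frame (hl : Line M I S) (h5 : S.ncard = 5) : Frame M I (M.E \ (I ∪ S)) := by
  have h1 : 1 < S.ncard := by omega
  have hI := hl.ind.subset_ground
  have hS := hl.sub
  have hd : ∀ p ∈ S, p ∉ I := fun p hp => by
    obtain ⟨q, hq, hne⟩ := exists_ne_of_one_lt_ncard h1 p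
    exact um_line_notMem hl hp hq hne.symm
  have h2 : M.E \ (I ∪ M.E \ (I ∪ S)) = S := by
    ext x
    have := hd x
    have := @hS x
    simp only [mem_union, mem_sdiff]
    tauto
  have hbig : ∀ X ⊆ S, 1 < X.ncard → rk M (X ∪ I) = rk M M.E := fun X hX h => by
    obtain ⟨p, hp, q, hq, hne⟩ := (one_lt_ncard (s := X)).1 h
    have a1 := hl.pair p (hX hp) q (hX hq) hne
    have a2 : rk M (I ∪ {p, q}) ≤ rk M (X ∪ I) := rk_mono M (by
      rw [union_comm]
      exact union_subset_union_left _ (pair_subset hp hq))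
    have a3 := rk_le_rank M (X ∪ I)
    have a4 := hl.rank
    omega
  have hr := hl.rank
  refine frame_of_rk ⟨hl.ind, (coindep_iff_rk sdiff_subset).2 ?_,
    disjoint_sdiff_right.mono_left subset_union_left⟩ (by rw [h2, h5]) (Or.inl hr.symm) ?_
  · rw [sdiff_sdiff_cancel_left (union_subset hI hS), union_comm]
    exact hbig S Subset.rfl h1
  · rw [h2]
    intro X hX
    rcases lt_trichotomy X.ncard 1 with h | h | h
    · have h0 : X = ∅ := (ncard_eq_zero (s := X)).1 (by omega)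
      rw [h0, empty_union, ncard_empty, rk_indep hl.ind]
      omega
    · obtain ⟨p, rfl⟩ := ncard_eq_one.1 h
      have hp : p ∈ S := hX rfl
      obtain ⟨q, hq, hne⟩ := exists_ne_of_one_lt_ncard h1 p
      have a1 := hl.pair p hp q hq hne.symm
      have a2 : I ∪ {p, q} = insert q (insert p I) := by
        rw [union_insert, union_singleton, insert_comm]
      have a3 := rk_insert_le M q (insert p I)
      have a4 := rk_insert_le M p I
      have a5 := rk_indep hl.ind
      rw [a2] at a1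
      rw [singleton_union, ncard_singleton]
      omega
    · rw [hbig X hX h]
      omega

theorem um_adj_minor (ho : Op M I J) (hB : (mn M I J).IsBase B) (ha : Adj (mn M I J) B g e) :
    Adj M (B ∪ I) g e ∧ ex (B ∪ I) g e = ex B g e ∪ I ∧ g ∉ I ∧ e ∉ I ∧ e ∉ J := by
  have hg : g ∉ I := fun h => disjoint_left.1 (ho.isBase_iff.1 hB).2.1 ha.1 h
  have he := ha.mem_ground
  rw [mn_ground] at he
  have h1 : ex (B ∪ I) g e = ex B g e ∪ I := by
    ext x
    simp only [mem_union, mem_ex]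
    grind
  refine ⟨⟨Or.inl ha.1, fun h => h.elim ha.2.1 fun h => he.2 (Or.inl h), ?_⟩, h1, hg,
    fun h => he.2 (Or.inl h), fun h => he.2 (Or.inr h)⟩
  rw [h1]
  exact (ho.isBase_iff.1 ha.2.2).1

theorem Site.of_minor (ho : Op M I J) (hs : Site (mn M I J) B g h e f) :
    Site M (B ∪ I) g h e f := by
  refine ⟨(ho.isBase_iff.1 hs.base).1, (um_adj_minor ho hs.base hs.ge).1,
    (um_adj_minor ho hs.base hs.gf).1, (um_adj_minor ho hs.base hs.he).1,
    (um_adj_minor ho hs.base hs.hf).1, hs.ne, ?_⟩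
  rw [(um_adj_minor ho hs.base hs.ge).2.1]
  exact (um_adj_minor ho hs.ge.2.2 hs.ns).1

theorem Site.dual (hT : U2 M T) (hs : Site M B g h e f) : Site M✶ (M.E \ B) e f g h := by
  have hE := hs.base.subset_ground
  refine ⟨hs.base.compl_isBase_dual, (adj_dual hE).2 hs.ge, (adj_dual hE).2 hs.he,
    (adj_dual hE).2 hs.gf, (adj_dual hE).2 hs.hf, (hs.line hT).2, ?_⟩
  have h1 : ex (M.E \ B) e g = M.E \ ex B g e := by
    have a1 := hs.ge.1
    have a2 := hs.ge.2.1
    have a3 := hE a1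
    ext x
    simp only [mem_sdiff, mem_ex]
    grind
  rw [h1]
  exact (adj_dual hs.ge.2.2.subset_ground).2 hs.ns

theorem HasSite.of_minor (ho : Op M I J) (hs : HasSite (mn M I J)) : HasSite M := by
  obtain ⟨B, g, h, e, f, hs⟩ := hs
  exact ⟨_, g, h, e, f, hs.of_minor ho⟩

theorem HasSite.dual (hT : U2 M T) (hs : HasSite M) : HasSite M✶ := by
  obtain ⟨B, g, h, e, f, hs⟩ := hs
  exact ⟨_, e, f, g, h, hs.dual hT⟩

theorem IsCr.of_minor (ho : Op M I J) (hm : IsCr (mn M I J) (mnT I J T) m) : IsCr M T m := by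
  obtain ⟨B, g, h, e, f, hs, h1⟩ := hm
  have key : ∀ {x y : E}, Adj (mn M I J) B x y → mnT I J T B x y = T (B ∪ I) x y := fun ha => by
    obtain ⟨-, -, a1, a2, a3⟩ := um_adj_minor ho hs.base ha
    rw [mnT, delT_apply _ _ _ a3, conT_apply _ _ a1 a2]
  rw [key hs.ge, key hs.gf, key hs.he, key hs.hf] at h1
  exact ⟨_, g, h, e, f, hs.of_minor ho, h1⟩

theorem IsCr.dual (hT : U2 M T) (hm : IsCr M T m) : IsCr M✶ (duT M T) m := by
  obtain ⟨B, g, h, e, f, hs, h1⟩ := hm
  have key : ∀ {x y : E}, Adj M B x y → duT M T (M.E \ B) y x = -T B x y := fun {x y} ha => by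
    have hne : y ≠ x := fun h => ha.2.1 (h ▸ ha.1)
    rw [duT, dualT_of_ne _ _ _ _ hne, sdiff_sdiff_cancel_left hs.base.subset_ground, id]
  refine ⟨_, e, f, g, h, hs.dual hT, ?_⟩
  rw [key hs.ge, key hs.gf, key hs.he, key hs.hf]
  linear_combination h1

theorem HasSite.exists_cr (hT : U2 M T) (hs : HasSite M) : ∃ m, IsCr M T m := by
  obtain ⟨B, g, h, e, f, hs⟩ := hs
  obtain ⟨m, -, hm⟩ := hT.exists_cr hs
  exact ⟨m, B, g, h, e, f, hs, hm⟩

end Pool.Agent.Lib.MP_10bdcf_co.G
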