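import Pool.Agent.Lib.MP_10bdcf_co.ZD

/-!
Linear algebra of forms: gluing and kernels of restrictions.
-/

namespace Pool.Agent.Lib.MP_10bdcf_co.G

open Set

set_option linter.unusedSectionVars false

variable {E F : Type} [Fintype E] [Field F] {U W U1 U2 W1 W2 : Sb F E} {φ ψ φ1 φ2 : Fm F E}
  {J : Set E} {e f : E}

theorem zb_proj' (U : Sb F E) : ∃ p : (E → F) →ₗ[F] U, ∀ u : U, p u = u := by
  obtain ⟨p, hp⟩ := U.subtype.exists_leftInverse_of_injective U.ker_subtype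
  exact ⟨p, fun u => LinearMap.congr_fun hp u⟩

theorem zb_proj (U : Sb F E) :
    ∃ p : (E → F) →ₗ[F] (E → F), (∀ v, p v ∈ U) ∧ ∀ u ∈ U, p u = u := by
  obtain ⟨p, hp⟩ := zb_proj' U
  exact ⟨U.subtype ∘ₗ p, fun v => (p v).2, fun u hu => congrArg Subtype.val (hp ⟨u, hu⟩)⟩

theorem zb_cases (U : Sb F E) (e : E) : (∀ u ∈ U, u e = 0) ∨ ∃ u ∈ U, u e = 1 := by
  by_cases h : ∀ u ∈ U, u e = 0
  · exact .inl h
  push Not at h
  obtain ⟨u, hu, h⟩ := h
  exact .inr ⟨(u e)⁻¹ • u, U.smul_mem _ hu, by simp [h]⟩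

theorem zb_sub_mem {u u0 : E → F} (hu : u ∈ U) (h0 : u0 ∈ U) (h1 : u0 e = 1) :
    u - u e • u0 ∈ van U {e} :=
  mem_van_one.2 ⟨U.sub_mem hu (U.smul_mem _ h0), by simp [h1]⟩

theorem exists_glue_left (h : Agr φ1 φ2 (U1 ⊓ U2) W) : ∃ φ, Agr φ φ1 U1 W ∧ Agr φ φ2 U2 W := by
  obtain ⟨r, hr, hr'⟩ := zb_proj (U1 ⊓ U2)
  have hd : Disjoint (U2 ⊓ LinearMap.ker r) U1 := Submodule.disjoint_def.2 fun x hx hx' => by
    rw [← hr' x ⟨hx', hx.1⟩]; exact hx.2
  obtain ⟨C, hC, hc⟩ := hd.exists_isCompl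
  let q : (E → F) →ₗ[F] (E → F) := C.subtype ∘ₗ C.projectionOnto U1 hc
  have q1 : ∀ u ∈ U1, q u = 0 := fun u hu => by
    simp [q, Submodule.projectionOnto_apply_of_mem_right hc hu]
  have q2 : ∀ u ∈ C, q u = u := fun u hu =>
    congrArg Subtype.val (Submodule.projectionOnto_apply_left hc ⟨u, hu⟩)
  refine ⟨φ1 + (φ2 - φ1) ∘ₗ q, fun u hu w _ => by simp [q1 u hu], fun u hu w hw => ?_⟩
  have h1 := q2 (u - r u) (hC ⟨U2.sub_mem hu (hr u).2, by simp [hr' _ (hr u)]⟩)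
  rw [map_sub, q1 _ (hr u).1, sub_zero] at h1
  simp [h1, h _ (hr u) w hw]

theorem exists_glue_right (h : Agr φ1 φ2 U (W1 ⊓ W2)) : ∃ φ, Agr φ φ1 U W1 ∧ Agr φ φ2 U W2 := by
  obtain ⟨φ, h1, h2⟩ := exists_glue_left h.flip
  exact ⟨φ.flip, h1.flip, h2.flip⟩

theorem exists_glue_mixed (h : Agr φ1 φ2 U1 W1) : ∃ φ, Agr φ φ1 U1 ⊤ ∧ Agr φ φ2 ⊤ W1 := by
  obtain ⟨p, hp, hp'⟩ := zb_proj U1
  refine ⟨φ1 + (φ2 - φ1) ∘ₗ (LinearMap.id - p), fun u hu w _ => by simp [hp' u hu],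
    fun u _ w hw => by simp [h _ (hp u) w hw]⟩

theorem Agr.sup_left (h1 : Agr φ ψ U1 W) (h2 : Agr φ ψ U2 W) : Agr φ ψ (U1 ⊔ U2) W := by
  intro u hu w hw
  obtain ⟨a, ha, b, hb, rfl⟩ := Submodule.mem_sup.1 hu
  simp [h1 a ha w hw, h2 b hb w hw]

theorem Agr.sup_right (h1 : Agr φ ψ U W1) (h2 : Agr φ ψ U W2) : Agr φ ψ U (W1 ⊔ W2) := by
  exact (h1.flip.sup_left h2.flip).flip

theorem van_inf (U : Sb F E) (J J' : Set E) : van U J ⊓ van U J' = van U (J ∪ J') := by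
  ext u
  simp only [Submodule.mem_inf, mem_van, mem_union, or_imp, forall_and]
  tauto

theorem agr_iff_sub : Agr φ ψ U W ↔ Agr (φ - ψ) 0 U W := by
  simp [Agr, sub_eq_zero]

theorem gf_single [DecidableEq E] (e : E) (c : F) : gf (Pi.single e c) = pf (co e) (c • co e) := by
  refine LinearMap.ext₂ fun u w => ?_
  simp [gf_apply, pf_apply, Pi.single_apply, mul_left_comm]

/-- A form that vanishes on the deletion of `e` is a move of `e`. -/
theorem ker_del (h : Agr φ ψ (van U {e}) W) : ∃ l, Agr φ (ψ + pf (co e) l) U W := by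
  rcases zb_cases U e with h0 | ⟨u0, h0, h1⟩
  · exact ⟨0, fun u hu w hw => by simp [pf_apply, h u (mem_van_one.2 ⟨hu, h0 u hu⟩) w hw]⟩
  refine ⟨(φ - ψ) u0, fun u hu w hw => ?_⟩
  have := h _ (zb_sub_mem hu h0 h1) w hw
  simp only [map_sub, map_smul, LinearMap.sub_apply, LinearMap.smul_apply, smul_eq_mul,
    LinearMap.add_apply, pf_apply, co_apply] at this ⊢
  linear_combination this

theorem ker_con (h : Agr φ ψ U (van W {e})) : ∃ l, Agr φ (ψ + pf l (co e)) U W := by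
  obtain ⟨l, hl⟩ := ker_del h.flip
  exact ⟨l, fun u hu w hw => by simpa [pf_apply, mul_comm] using hl w hw u hu⟩

theorem zb_mixed (h : Agr φ ψ (van U {e}) W) (h' : Agr φ ψ U (van W {f})) :
    ∃ c : F, Agr φ (ψ + pf (co e) (c • co f)) U W := by
  rcases zb_cases U e with h0 | ⟨u0, h0, h1⟩
  · exact ⟨0, fun u hu w hw => by simp [pf_apply, h u (mem_van_one.2 ⟨hu, h0 u hu⟩) w hw]⟩
  rcases zb_cases W f with k0 | ⟨w0, k0, k1⟩
  · exact ⟨0, fun u hu w hw => by simp [pf_apply, h' u hu w (mem_van_one.2 ⟨hw, k0 w hw⟩)]⟩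
  refine ⟨φ u0 w0 - ψ u0 w0, fun u hu w hw => ?_⟩
  have a := h _ (zb_sub_mem hu h0 h1) w hw
  have b := h' u0 h0 _ (zb_sub_mem hw k0 k1)
  simp only [map_sub, map_smul, LinearMap.sub_apply, LinearMap.smul_apply, smul_eq_mul,
    LinearMap.add_apply, pf_apply, co_apply] at a b ⊢
  linear_combination a + u e * b

/-- A form that vanishes on the deletion and on the contraction of `e` is diagonal at `e`. -/
theorem ker_both (h : Agr φ ψ (van U {e}) W) (h' : Agr φ ψ U (van W {e})) :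
    ∃ c : F, Agr φ (ψ + pf (co e) (c • co e)) U W := by
  exact zb_mixed h h'

theorem ker_mixed (h : Agr φ ψ (van U {e}) W) (h' : Agr φ ψ U (van W {f})) :
    ∃ c : F, Agr φ (ψ + pf (co e) (c • co f)) U W := by
  exact zb_mixed h h'

theorem gauge_diag (e : E) (c : F) (U W : Sb F E) : Gauge (pf (co e) (c • co e)) U W := by
  classical
  exact gf_single e c ▸ gauge_gf _ U W

theorem pf_flip (l m : Fn F E) : (pf l m).flip = pf m l := by
  refine LinearMap.ext₂ fun u w => ?_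
  simp [pf_apply, mul_comm]

/-- The kernel of the restriction to the deletion of a fixed element. -/
theorem Fix.agr (h : Fix U W e) (h1 : Val φ U W) (h2 : Val ψ U W) (h3 : Agr φ ψ (van U {e}) W) :
    ∃ c : F, Agr φ (ψ + pf (co e) (c • co e)) U W := by
  obtain ⟨l, hl⟩ := ker_del h3
  obtain ⟨c, hc⟩ := h l fun u hu w hw hd => by
    simpa [h1 u hu w hw hd, h2 u hu w hw hd] using (hl u hu w hw).symm
  exact ⟨c, fun u hu w hw => by simpa [pf_apply, hc w hw] using hl u hu w hw⟩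

theorem Fix.agr' (h : Fix W U e) (h1 : Val φ U W) (h2 : Val ψ U W) (h3 : Agr φ ψ U (van W {e})) :
    ∃ c : F, Agr φ (ψ + pf (co e) (c • co e)) U W := by
  obtain ⟨c, hc⟩ := h.agr h1.flip h2.flip h3.flip
  exact ⟨c, fun u hu w hw => by simpa [pf_apply, mul_left_comm, mul_comm] using hc w hw u hu⟩

theorem Fix.gauge (h : Fix U W e) (h1 : Val φ U W) (h2 : Gauge φ (van U {e}) W) : Gauge φ U W := by
  obtain ⟨γ, hγ⟩ := h2
  obtain ⟨c, hc⟩ := h.agr h1 (val_gf γ U W) hγ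
  exact ((gauge_gf γ U W).add (gauge_diag e c U W)).congr hc

theorem Fix.gauge' (h : Fix W U e) (h1 : Val φ U W) (h2 : Gauge φ U (van W {e})) :
    Gauge φ U W := by
  exact (h.gauge h1.flip h2.flip).flip

theorem Fix.mono (h : Fix U1 W e) (hU : U1 ≤ U) : Fix U W e := by
  exact fun l hl => h l (hl.mono hU le_rfl)

/-- A valid form and a valid form on both operations on one element. -/
theorem val_of_both (h1 : Val φ (van U {e}) W) (h2 : Val φ U (van W {e})) : Val φ U W := by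
  intro u hu w hw hd
  exact (hd e).elim (fun h => h1 u (mem_van_one.2 ⟨hu, h⟩) w hw hd)
    fun h => h2 u hu w (mem_van_one.2 ⟨hw, h⟩) hd

/-- A diagonal form that lives on `J` vanishes when the cycles vanish on `J`. -/
theorem agr_gf_van {γ : E → F} (hγ : ∀ z, z ∉ J → γ z = 0) : Agr (gf γ) 0 (van U J) W := by
  intro u hu w _
  refine (gf_apply ..).trans (Finset.sum_eq_zero fun z _ => ?_)
  by_cases hz : z ∈ J
  · simp [hu.2 z hz]
  · simp [hγ z hz]

theorem agr_gf_van' {γ : E → F} (hγ : ∀ z, z ∉ J → γ z = 0) : Agr (gf γ) 0 U (van W J) := by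
  intro u _ w hw
  rw [← gf_flip]
  exact agr_gf_van (W := ⊤) hγ w hw u trivial

/-- A bilinear form given through linear maps into other coordinate spaces. -/
theorem exists_comp {E' : Type} [Fintype E'] (χ : Fm F E') (p : U →ₗ[F] (E' → F))
    (q : W →ₗ[F] (E' → F)) :
    ∃ φ : Fm F E, ∀ (u : U) (w : W), φ u w = χ (p u) (q w) := by
  obtain ⟨a, ha⟩ := zb_proj' U
  obtain ⟨b, hb⟩ := zb_proj' W
  exact ⟨χ.compl₁₂ (p ∘ₗ a) (q ∘ₗ b), fun u w => by simp [ha, hb]⟩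

end Pool.Agent.Lib.MP_10bdcf_co.G
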