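import Pool.Agent.Lib.MP_10bdcf_co.ZA
import Pool.Agent.Lib.MP_10bdcf_co.ZB
import Pool.Agent.Lib.MP_10bdcf_co.CB

/-!
Moving a frame across the small side of a 2-separation.
-/

namespace Pool.Agent.Lib.MP_10bdcf_co.G

open scoped Matroid
open Set

set_option linter.unusedSectionVars false

variable {E F : Type} [Fintype E] [Field F] {M : Matroid E} {U W : Sb F E}
  {A I J I0 J0 : Set E} {e f : E}

/-- The frames `I J` and `I' J'` differ inside `A` only, in the same way for all forms. -/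
structure Shift (M : Matroid E) (A I J I' J' : Set E) : Prop where
  frame : Frame M I' J'
  left : I' \ A = I \ A
  right : J' \ A = J \ A
  card : I'.ncard = I.ncard
  gauge : ∀ (F : Type) [Field F] (U W : Sb F E) (φ : Fm F E), Pair M U W → Val φ U W →
    Gauge φ (van U J) (van W I) → Gauge φ (van U J') (van W I')

/-- `K + z` is a basis of `A`, and `K` is skew to the complement of `A` and completes it. -/
structure ZtSt (M : Matroid E) (A K : Set E) (z : E) : Prop where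
  sub : A ⊆ M.E
  sK : K ⊆ A
  zA : z ∈ A
  zK : z ∉ K
  skew : rk M ((M.E \ A) ∪ K) = rk M (M.E \ A) + K.ncard
  top : rk M ((M.E \ A) ∪ K) = rk M M.E
  ins : rk M (insert z K) = K.ncard + 1
  all : rk M A = K.ncard + 1

variable {K K' : Set E} {z z' : E}

theorem ZtSt.card (h : ZtSt M A K z) : A.ncard = K.ncard + 1 + (A \ insert z K).ncard := by
  have h1 : insert z K ⊆ A := insert_subset h.zA h.sK
  have h2 := ncard_sdiff_add_ncard_of_subset h1
  rw [ncard_insert_of_notMem h.zK] at h2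
  omega

theorem ZtSt.dual (h : ZtSt M A K z) : ZtSt M✶ A (A \ insert z K) z := by
  have hc := h.card
  have hs := h.skew
  have ht := h.top
  have hi := h.ins
  have ha := h.all
  have hA := h.sub
  have hK := h.sK
  have hz := h.zA
  have hzK := h.zK
  have hE := ncard_sdiff_add_ncard_of_subset hA
  have e1 := rk_dual (M := M) (X := (M.E \ A) ∪ (A \ insert z K))
    (union_subset sdiff_subset (sdiff_subset.trans hA))
  have e1' : M.E \ ((M.E \ A) ∪ (A \ insert z K)) = insert z K := by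
    ext x
    simp only [mem_sdiff, mem_union, mem_insert_iff]
    constructor
    · tauto
    · rintro (rfl | hx)
      · have := hA hz; tauto
      · have := hK hx; have := hA this; tauto
  have e1'' : ((M.E \ A) ∪ (A \ insert z K)).ncard = (M.E \ A).ncard + (A \ insert z K).ncard :=
    ncard_union_eq (disjoint_sdiff_left.mono_right sdiff_subset)
  have e2 := rk_dual (M := M) (X := M.E \ A) sdiff_subset
  rw [sdiff_sdiff_cancel_left hA] at e2
  have e3 := rk_dual (M := M) (X := insert z (A \ insert z K))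
    (insert_subset (hA hz) (sdiff_subset.trans hA))
  have e3' : M.E \ insert z (A \ insert z K) = (M.E \ A) ∪ K := by
    ext x
    simp only [mem_sdiff, mem_union, mem_insert_iff]
    constructor
    · tauto
    · rintro (hx | hx)
      · refine ⟨hx.1, ?_⟩
        rintro (rfl | h')
        · exact hx.2 hz
        · exact hx.2 h'.1
      · refine ⟨hA (hK hx), ?_⟩
        rintro (rfl | h')
        · exact hzK hx
        · exact h'.2 (Or.inr hx)
  have e3'' : (insert z (A \ insert z K)).ncard = (A \ insert z K).ncard + 1 :=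
    ncard_insert_of_notMem (fun h' => h'.2 (mem_insert _ _))
  have e4 := rk_dual (M := M) hA
  have e5 := rk_dual_ground M
  rw [e1', e1''] at e1
  rw [e3', e3''] at e3
  refine ⟨hA, sdiff_subset, hz, fun h' => h'.2 (mem_insert _ _), ?_, ?_, ?_, ?_⟩
  · simp only [Matroid.dual_ground]; omega
  · simp only [Matroid.dual_ground]; omega
  · omega
  · omega

theorem ZtSt.rk_low (h : ZtSt M A K z) {Y : Set E} (hY : Y ⊆ M.E \ A) :
    rk M (Y ∪ K) = rk M Y + K.ncard := by
  have h1 := rk_submod' M (X := Y ∪ K) (Y := M.E \ A) (P := Y) (Q := (M.E \ A) ∪ K)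
    subset_union_left hY (union_subset subset_union_right
      (subset_union_right.trans subset_union_left))
  have h2 := rk_union_le M Y K
  have h3 := rk_le_ncard M K
  have h4 := h.skew
  omega

theorem ZtSt.spans (h : ZtSt M A K z) : A ⊆ M.closure (insert z K) := by
  refine subset_closure_of_rk h.sub ?_
  rw [union_eq_self_of_subset_left (insert_subset h.zA h.sK), h.all, h.ins]

theorem ZtSt.rk_high (h : ZtSt M A K z) (Y : Set E) :
    rk M (Y ∪ insert z K) = rk M (Y ∪ A) := by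
  have h1 : A ⊆ M.closure (Y ∪ insert z K) :=
    h.spans.trans (M.closure_subset_closure subset_union_right)
  rw [← rk_union_of_subset_closure h1, union_assoc,
    union_eq_self_of_subset_left (insert_subset h.zA h.sK)]

theorem zt_corr (h : ZtSt M A K z) (h' : ZtSt M A K' z') {X X' : Set E} (hX : X ⊆ M.E)
    (h1 : K ⊆ X) (h2 : X ∩ A ⊆ insert z K) (h1' : K' ⊆ X') (h2' : X' ∩ A ⊆ insert z' K')
    (h3 : X' \ A = X \ A) (h4 : z' ∈ X' ↔ z ∈ X) :
    rk M X' = rk M X ∧ X'.ncard = X.ncard := by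
  have hc : K'.ncard = K.ncard := by have := h.all; have := h'.all; omega
  have hY : X \ A ⊆ M.E \ A := sdiff_subset_sdiff_left hX
  have key : ∀ {X K : Set E} {z : E}, ZtSt M A K z → K ⊆ X → X ∩ A ⊆ insert z K →
      (z ∈ X → X = (X \ A) ∪ insert z K) ∧ (z ∉ X → X = (X \ A) ∪ K) := by
    intro X K z h h1 h2
    constructor
    · intro hz
      refine Subset.antisymm (fun x hx => ?_) (union_subset sdiff_subset (insert_subset hz h1))
      by_cases hxA : x ∈ A
      · exact Or.inr (h2 ⟨hx, hxA⟩)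
      · exact Or.inl ⟨hx, hxA⟩
    · intro hz
      refine Subset.antisymm (fun x hx => ?_) (union_subset sdiff_subset h1)
      by_cases hxA : x ∈ A
      · rcases h2 ⟨hx, hxA⟩ with rfl | h3
        · exact absurd hx hz
        · exact Or.inr h3
      · exact Or.inl ⟨hx, hxA⟩
  by_cases hz : z ∈ X
  · have e1 := (key h h1 h2).1 hz
    have e2 := (key h' h1' h2').1 (h4.2 hz)
    rw [h3] at e2
    generalize X \ A = Y at e1 e2 hY
    have hd : Disjoint Y A := disjoint_sdiff_left.mono_left hY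
    rw [e1, e2, h'.rk_high, h.rk_high,
      ncard_union_eq (hd.mono_right (insert_subset h'.zA h'.sK)),
      ncard_union_eq (hd.mono_right (insert_subset h.zA h.sK)),
      ncard_insert_of_notMem h'.zK, ncard_insert_of_notMem h.zK, hc]
    exact ⟨rfl, rfl⟩
  · have e1 := (key h h1 h2).2 hz
    have e2 := (key h' h1' h2').2 (fun h5 => hz (h4.1 h5))
    rw [h3] at e2
    generalize X \ A = Y at e1 e2 hY
    have hd : Disjoint Y A := disjoint_sdiff_left.mono_left hY
    rw [e1, e2, h'.rk_low hY, h.rk_low hY, ncard_union_eq (hd.mono_right h'.sK),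
      ncard_union_eq (hd.mono_right h.sK), hc]
    exact ⟨rfl, rfl⟩

theorem zt_local (hW : Rep M W) (h : ZtSt M A K z) (c : E → F) :
    ∃ d ∈ W, (∀ x ∈ K, d x = c x) ∧ ∀ x ∈ M.E \ A, d x = 0 := by
  classical
  obtain ⟨P, hP⟩ := M.exists_isBasis (M.E \ A) sdiff_subset
  have hd : Disjoint P K := disjoint_sdiff_left.mono hP.subset h.sK
  have hi : M.Indep (P ∪ K) := by
    rw [indep_iff_rk, h.rk_low hP.subset, rk_indep hP.indep, ncard_union_eq hd]
  obtain ⟨d, hdW, hd'⟩ := hW.ext _ hi (fun x => if x ∈ K then c x else 0)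
  refine ⟨d, hdW, fun x hx => ?_, fun x hx => ?_⟩
  · rw [hd' x (Or.inr hx), if_pos hx]
  · refine hW.cl d hdW P x (fun y hy => ?_) (hP.subset_closure hx)
    rw [hd' y (Or.inl hy), if_neg (fun h' => hd.notMem_of_mem_left hy h')]

theorem zt_tr (hW : Rep M W) (h : ZtSt M A K z) (h' : ZtSt M A K' z') :
    ∃ d0 ∈ W, ∃ w0 ∈ W, ∃ β : F, (∀ x ∈ M.E \ A, d0 x = 0) ∧ ∀ w ∈ W, (∀ x ∈ K', w x = 0) →
      (∀ x ∈ K, (w - w z' • d0) x = 0) ∧ (w - w z' • d0) z = β * w z' ∧
        ∀ x ∈ A, (w - w z' • w0) x = 0 := by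
  classical
  have hi : M.Indep (insert z' K') := by
    rw [indep_iff_rk, h'.ins, ncard_insert_of_notMem h'.zK]
  obtain ⟨w0, hw0, hw0'⟩ := hW.ext _ hi (fun x => if x = z' then 1 else 0)
  obtain ⟨d0, hd0, hd1, hd2⟩ := zt_local hW h w0
  refine ⟨d0, hd0, w0, hw0, w0 z - d0 z, hd2, fun w hw hw' => ?_⟩
  have h3 : ∀ x ∈ A, (w - w z' • w0) x = 0 := by
    intro x hx
    refine hW.cl _ (W.sub_mem hw (W.smul_mem _ hw0)) (insert z' K') x ?_ (h'.spans hx)
    rintro y (rfl | hy)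
    · simp [hw0' y (mem_insert _ _)]
    · have : y ≠ z' := fun h4 => h'.zK (h4 ▸ hy)
      simp [hw0' y (mem_insert_of_mem _ hy), this, hw' y hy]
  refine ⟨fun x hx => ?_, ?_, h3⟩
  · have := h3 x (h.sK hx)
    simpa [hd1 x hx] using this
  · have := h3 z h.zA
    simp only [Pi.sub_apply, Pi.smul_apply, smul_eq_mul] at this ⊢
    linear_combination this

theorem zt_sum {γ u w : E → F} (g : E → F) (hz : z ∈ A) (h1 : ∀ x, x ∉ A → γ x * (u x * w x) = g x)
    (h2 : ∀ x ∈ A, x ≠ z → u x * w x = 0) (h3 : ∀ x ∈ A, g x = 0) :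
    gf γ u w = (∑ x, g x) + γ z * (u z * w z) := by
  classical
  rw [gf_apply]
  have : ∀ x, γ x * (u x * w x) = g x + if x = z then γ z * (u z * w z) else 0 := by
    intro x
    by_cases hx : x ∈ A
    · by_cases hxz : x = z
      · subst hxz; simp [h3 x hx]
      · simp [h2 x hx hxz, h3 x hx, hxz]
    · have hxz : x ≠ z := fun h => hx (h ▸ hz)
      simp [h1 x hx, hxz]
  rw [Finset.sum_congr rfl fun x _ => this x, Finset.sum_add_distrib]
  simp

theorem zt_gauge (h : ZtSt M A K z) (h' : ZtSt M A K' z') {I' J' : Set E} (ho : Op M I J)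
    (h1 : K ⊆ I) (h2 : A \ insert z K ⊆ J) (h1' : K' ⊆ I') (h2' : A \ insert z' K' ⊆ J')
    (h3 : I \ A ⊆ I') (h4 : J \ A ⊆ J') (h5 : z ∈ I → z' ∈ I') (h6 : z ∈ J → z' ∈ J')
    {φ : Fm F E} (hp : Pair M U W) (hv : Val φ U W) (hg : Gauge φ (van U J) (van W I)) :
    Gauge φ (van U J') (van W I') := by
  classical
  obtain ⟨γ, hγ⟩ := hg
  obtain ⟨d0, hd0, w0, hw0, β, hd, hw⟩ := zt_tr hp.coc h h'
  obtain ⟨c0, hc0, u0, hu0, α, hc, hu⟩ := zt_tr hp.cyc h.dual h'.dual
  simp only [Matroid.dual_ground] at hc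
  refine ⟨fun x => if x = z' then γ z * (α * β) + φ c0 w0 + φ u0 d0 - φ c0 d0 else γ x, ?_⟩
  intro u huU w hwW
  obtain ⟨a1, a2, a3⟩ := hu u huU.1 (fun x hx => huU.2 x (h2' hx))
  obtain ⟨b1, b2, b3⟩ := hw w hwW.1 (fun x hx => hwW.2 x (h1' hx))
  have m1 : u - u z' • c0 ∈ U := U.sub_mem huU.1 (U.smul_mem _ hc0)
  have m2 : w - w z' • d0 ∈ W := W.sub_mem hwW.1 (W.smul_mem _ hd0)
  have m3 : u - u z' • u0 ∈ U := U.sub_mem huU.1 (U.smul_mem _ hu0)
  have m4 : w - w z' • w0 ∈ W := W.sub_mem hwW.1 (W.smul_mem _ hw0)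
  have v1 : u - u z' • c0 ∈ van U J := by
    refine ⟨m1, fun x hx => ?_⟩
    by_cases hxA : x ∈ A
    · by_cases hxK : x ∈ insert z K
      · rcases hxK with rfl | hxK
        · rw [a2, huU.2 z' (h6 hx), mul_zero]
        · exact absurd hx (ho.dis.notMem_of_mem_left (h1 hxK))
      · exact a1 x ⟨hxA, hxK⟩
    · simp [huU.2 x (h4 ⟨hx, hxA⟩), hc x ⟨ho.sub_right hx, hxA⟩]
  have v2 : w - w z' • d0 ∈ van W I := by
    refine ⟨m2, fun x hx => ?_⟩
    by_cases hxA : x ∈ A
    · by_cases hxK : x ∈ insert z K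
      · rcases hxK with rfl | hxK
        · rw [b2, hwW.2 z' (h5 hx), mul_zero]
        · exact b1 x hxK
      · exact absurd (h2 ⟨hxA, hxK⟩) (ho.dis.notMem_of_mem_left hx)
    · simp [hwW.2 x (h3 ⟨hx, hxA⟩), hd x ⟨ho.sub_left hx, hxA⟩]
  have e0 := hγ _ v1 _ v2
  have e1 : φ c0 (w - w z' • w0) = 0 := by
    refine hv _ hc0 _ m4 (hp.dis hc0 m4 fun x hx => ?_)
    by_cases hxA : x ∈ A
    · exact Or.inr (b3 x hxA)
    · exact Or.inl (hc x ⟨hx, hxA⟩)
  have e2 : φ (u - u z' • u0) d0 = 0 := by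
    refine hv _ m3 _ hd0 (hp.dis m3 hd0 fun x hx => ?_)
    by_cases hxA : x ∈ A
    · exact Or.inl (a3 x hxA)
    · exact Or.inr (hd x ⟨hx, hxA⟩)
  have s1 := zt_sum (A := A) (γ := γ) (u := u - u z' • c0) (w := w - w z' • d0)
    (fun x => if x ∈ A then 0 else γ x * (u x * w x)) h.zA (by
      intro x hx
      rw [if_neg hx]
      by_cases hxE : x ∈ M.E
      · simp [hc x ⟨hxE, hx⟩, hd x ⟨hxE, hx⟩]
      · rcases hp.out x hxE with h7 | h7
        · rw [h7 _ m1, h7 _ huU.1]; simp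
        · rw [h7 _ m2, h7 _ hwW.1]; simp) (by
      intro x hx hxz
      by_cases hxK : x ∈ K
      · rw [b1 x hxK, mul_zero]
      · rw [a1 x ⟨hx, fun h7 => h7.elim hxz hxK⟩, zero_mul]) (fun x hx => if_pos hx)
  have s2 := zt_sum (A := A)
    (γ := fun x => if x = z' then γ z * (α * β) + φ c0 w0 + φ u0 d0 - φ c0 d0 else γ x)
    (u := u) (w := w) (fun x => if x ∈ A then 0 else γ x * (u x * w x)) h'.zA (by
      intro x hx
      have hxz : x ≠ z' := fun h7 => hx (h7 ▸ h'.zA)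
      rw [if_neg hx, if_neg hxz]) (by
      intro x hx hxz
      by_cases hxK : x ∈ K'
      · rw [hwW.2 x (h1' hxK), mul_zero]
      · rw [huU.2 x (h2' ⟨hx, fun h7 => h7.elim hxz hxK⟩), zero_mul]) (fun x hx => if_pos hx)
  rw [s2]
  rw [s1, a2, b2] at e0
  simp only [map_sub, map_smul, LinearMap.sub_apply, LinearMap.smul_apply, smul_eq_mul,
    if_true] at e0 e1 e2 ⊢
  linear_combination e0 + u z' * e1 + w z' * e2

theorem zt_frame (h : ZtSt M A K z) (h' : ZtSt M A K' z') {I' J' : Set E} (hf : Frame M I J)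
    (h1 : K ⊆ I) (h2 : A \ insert z K ⊆ J) (h1' : K' ⊆ I') (h2' : A \ insert z' K' ⊆ J')
    (h3 : I' \ A = I \ A) (h4 : J' \ A = J \ A) (h5 : z' ∈ I' ↔ z ∈ I) (h6 : z' ∈ J' ↔ z ∈ J)
    (hd : Disjoint I' J') : Frame M I' J' ∧ I'.ncard = I.ncard := by
  have ho := hf.op
  have hA := h.sub
  have sub : ∀ {X X' : Set E}, X ⊆ M.E → X' \ A = X \ A → X' ⊆ M.E := by
    intro X X' hX hX' x hx
    by_cases hxA : x ∈ A
    · exact hA hxA
    · have : x ∈ X \ A := hX' ▸ ⟨hx, hxA⟩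
      exact hX this.1
  have in1 : ∀ {X : Set E}, Disjoint X J → X ∩ A ⊆ insert z K := by
    intro X hX x hx
    by_contra h7
    exact hX.notMem_of_mem_left hx.1 (h2 ⟨hx.2, h7⟩)
  have in2 : ∀ {X : Set E}, Disjoint X J' → X ∩ A ⊆ insert z' K' := by
    intro X hX x hx
    by_contra h7
    exact hX.notMem_of_mem_left hx.1 (h2' ⟨hx.2, h7⟩)
  have hI' := sub ho.sub_left h3
  have hJ' := sub ho.sub_right h4
  obtain ⟨a1, a2⟩ := zt_corr h h' ho.sub_left h1 (in1 ho.dis) h1' (in2 hd) h3 h5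
  obtain ⟨b1, b2⟩ := zt_corr h h' (X := M.E \ J) (X' := M.E \ J') sdiff_subset
    (fun x hx => ⟨hA (h.sK hx), ho.dis.notMem_of_mem_left (h1 hx)⟩) (in1 disjoint_sdiff_left)
    (fun x hx => ⟨hA (h'.sK hx), hd.notMem_of_mem_left (h1' hx)⟩) (in2 disjoint_sdiff_left)
    (by
      ext x
      have := Set.ext_iff.1 h4 x
      simp only [mem_sdiff] at this ⊢
      tauto)
    (by
      have := hA h.zA
      have := hA h'.zA
      simp only [mem_sdiff]
      tauto)
  have ho' : Op M I' J' := op_iff_rk.2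
    ⟨by rw [a1, a2, rk_indep ho.ind], hJ', by rw [b1, rk_coindep ho.coi], hd⟩
  have c1 := ho'.card
  have c2 := hf.card_total
  have c3 := ncard_sdiff_add_ncard_of_subset hJ'
  have c4 := ncard_sdiff_add_ncard_of_subset ho.sub_right
  rw [mn_ground] at c1
  refine ⟨frame_of_rk ho' (by omega) (by rw [a2]; exact hf.card_left) fun X hX => ?_, a2⟩
  have hX0 : (X \ A) ∪ {x | x = z ∧ z' ∈ X} ⊆ M.E \ (I ∪ J) := by
    rintro x (hx | ⟨rfl, hx⟩)
    · have e1 := Set.ext_iff.1 h3 x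
      have e2 := Set.ext_iff.1 h4 x
      have e3 := hX hx.1
      have e4 := hx.2
      simp only [mem_sdiff, mem_union] at e1 e2 e3 ⊢
      tauto
    · have e3 := hX hx
      have := hA h.zA
      simp only [mem_sdiff, mem_union] at e3 ⊢
      tauto
  have d1 : Disjoint X I' := disjoint_sdiff_left.mono hX subset_union_left
  have d2 : Disjoint X J' := disjoint_sdiff_left.mono hX subset_union_right
  have d3 : Disjoint ((X \ A) ∪ {x | x = z ∧ z' ∈ X}) I :=
    disjoint_sdiff_left.mono hX0 subset_union_left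
  have d4 : Disjoint ((X \ A) ∪ {x | x = z ∧ z' ∈ X}) J :=
    disjoint_sdiff_left.mono hX0 subset_union_right
  obtain ⟨g1, g2⟩ := zt_corr h h' (X := ((X \ A) ∪ {x | x = z ∧ z' ∈ X}) ∪ I) (X' := X ∪ I')
    (union_subset (hX0.trans sdiff_subset) ho.sub_left) (h1.trans subset_union_right)
    (in1 (disjoint_union_left.2 ⟨d4, ho.dis⟩)) (h1'.trans subset_union_right)
    (in2 (disjoint_union_left.2 ⟨d2, hd⟩))
    (by
      ext x
      have e1 := Set.ext_iff.1 h3 x
      have e2 : x = z → x ∈ A := fun h7 => h7 ▸ h.zA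
      simp only [mem_sdiff, mem_union, mem_ofPred_eq] at e1 ⊢
      tauto)
    (by
      have := h.zA
      simp only [mem_sdiff, mem_union, mem_ofPred_eq]
      tauto)
  rw [ncard_union_eq d1, ncard_union_eq d3] at g2
  rw [g1, hf.rk_eq hX0, g2]

theorem zt_shift (h : ZtSt M A K z) (h' : ZtSt M A K' z') (hf : Frame M I J)
    (h1 : K ⊆ I) (h2 : A \ insert z K ⊆ J) :
    ∃ I' J', Shift M A I J I' J' ∧ K' ⊆ I' ∧ A \ insert z' K' ⊆ J' := by
  have hd := hf.op.dis
  have k1 : K' ⊆ K' ∪ (I \ A) ∪ {x | x = z' ∧ z ∈ I} := subset_union_left.trans subset_union_left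
  have k2 : A \ insert z' K' ⊆ (A \ insert z' K') ∪ (J \ A) ∪ {x | x = z' ∧ z ∈ J} :=
    subset_union_left.trans subset_union_left
  have k3 : (K' ∪ (I \ A) ∪ {x | x = z' ∧ z ∈ I}) \ A = I \ A := by
    ext x
    have e1 : x = z' → x ∈ A := fun h7 => h7 ▸ h'.zA
    have e2 : x ∈ K' → x ∈ A := fun h7 => h'.sK h7
    simp only [mem_sdiff, mem_union, mem_ofPred_eq]
    tauto
  have k4 : ((A \ insert z' K') ∪ (J \ A) ∪ {x | x = z' ∧ z ∈ J}) \ A = J \ A := by
    ext x
    have e1 : x = z' → x ∈ A := fun h7 => h7 ▸ h'.zA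
    simp only [mem_sdiff, mem_union, mem_ofPred_eq]
    tauto
  have k5 : z' ∈ K' ∪ (I \ A) ∪ {x | x = z' ∧ z ∈ I} ↔ z ∈ I := by
    have := h'.zA
    have := h'.zK
    simp only [mem_sdiff, mem_union, mem_ofPred_eq]
    tauto
  have k6 : z' ∈ (A \ insert z' K') ∪ (J \ A) ∪ {x | x = z' ∧ z ∈ J} ↔ z ∈ J := by
    have := h'.zA
    simp only [mem_sdiff, mem_union, mem_ofPred_eq, mem_insert_iff]
    tauto
  have k7 : Disjoint (K' ∪ (I \ A) ∪ {x | x = z' ∧ z ∈ I})
      ((A \ insert z' K') ∪ (J \ A) ∪ {x | x = z' ∧ z ∈ J}) := by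
    rw [Set.disjoint_left]
    intro x
    have e1 : x = z' → x ∈ A := fun h7 => h7 ▸ h'.zA
    have e2 : x ∈ K' → x ∈ A := fun h7 => h'.sK h7
    have e3 : x = z' → x ∉ K' := fun h7 => h7 ▸ h'.zK
    have e4 : x ∈ I → x ∉ J := fun h7 => hd.notMem_of_mem_left h7
    have e5 : z ∈ I → z ∉ J := fun h7 => hd.notMem_of_mem_left h7
    simp only [mem_sdiff, mem_union, mem_ofPred_eq, mem_insert_iff]
    tauto
  obtain ⟨f1, f2⟩ := zt_frame h h' hf h1 h2 k1 k2 k3 k4 k5 k6 k7
  refine ⟨_, _, ⟨f1, k3, k4, f2, fun F _ U W φ hp hv hg => ?_⟩, k1, k2⟩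
  exact zt_gauge h h' hf.op h1 h2 k1 k2 (subset_union_right.trans subset_union_left)
    (subset_union_right.trans subset_union_left) k5.2 k6.2 hp hv hg

theorem zt_indep_of_skew {B : Set E} (h : rk M (B ∪ K) = rk M B + K.ncard) :
    rk M K = K.ncard := by
  have h1 := rk_union_le M B K
  have h2 := rk_le_ncard M K
  omega

theorem zt_exists_notMem {Y : Set E} (hY : Y ⊆ M.E) (h : rk M K < rk M Y) :
    ∃ z ∈ Y, z ∉ K ∧ rk M (insert z K) = rk M K + 1 := by
  by_contra h1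
  push Not at h1
  have h2 : Y ⊆ M.closure K := by
    intro x hx
    rw [mem_closure_iff_rk (hY hx)]
    by_cases hxK : x ∈ K
    · rw [insert_eq_of_mem hxK]
    · have e1 := h1 x hx hxK
      have e2 := rk_insert_le M x K
      have e3 := rk_mono M (subset_insert x K)
      omega
  have h3 := rk_mono M h2
  rw [rk_closure] at h3
  omega

theorem zt_old (hf : Frame M I J) (hA : A ⊆ M.E) (hl : lam M A = 1)
    (hs : (A \ (I ∪ J)).ncard ≤ 1) : ∃ K z, ZtSt M A K z ∧ K ⊆ I ∧ A \ insert z K ⊆ J := by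
  have ho := hf.op
  have hla := lam_add M A
  have hr := hf.card_left
  have htop : rk M ((M.E \ A) ∪ (I ∩ A)) = rk M M.E := by
    have e1 := hf.rk_eq (X := (M.E \ (I ∪ J)) \ A) sdiff_subset
    have e2 : M.E \ (I ∪ J) ⊆ ((M.E \ (I ∪ J)) \ A) ∪ (A \ (I ∪ J)) := by
      intro x hx
      by_cases hxA : x ∈ A
      · exact Or.inr ⟨hxA, hx.2⟩
      · exact Or.inl ⟨hx, hxA⟩
    have e3 := ncard_le_ncard e2
    have e4 := ncard_union_le ((M.E \ (I ∪ J)) \ A) (A \ (I ∪ J))
    have e5 := hf.card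
    have e6 := rk_mono M (show ((M.E \ (I ∪ J)) \ A) ∪ I ⊆ (M.E \ A) ∪ (I ∩ A) by
      rintro x (hx | hx)
      · exact Or.inl ⟨hx.1.1, hx.2⟩
      · by_cases hxA : x ∈ A
        · exact Or.inr ⟨hx, hxA⟩
        · exact Or.inl ⟨ho.sub_left hx, hxA⟩)
    have e7 := rk_le_rank M ((M.E \ A) ∪ (I ∩ A))
    omega
  obtain ⟨K, -, hK, k1, k2⟩ := exists_skew (M := M) (X := M.E \ A) (Y := I ∩ A) (I := ∅)
    sdiff_subset (inter_subset_right.trans hA) (empty_subset _) (by simp)
  have hKI : K ⊆ I := hK.trans inter_subset_left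
  have hKA : K ⊆ A := hK.trans inter_subset_right
  have k3 := zt_indep_of_skew k1
  have hall : rk M A = K.ncard + 1 := by omega
  have hind : M.Indep (A \ J) := by
    have e1 := hf.rk_eq (X := A \ (I ∪ J)) (sdiff_subset_sdiff_left hA)
    have e2 : M.Indep ((A \ (I ∪ J)) ∪ I) := by
      rw [indep_iff_rk, e1, ncard_union_eq (disjoint_sdiff_left.mono_right subset_union_left)]
      omega
    refine e2.subset fun x hx => ?_
    by_cases hxI : x ∈ I
    · exact Or.inr hxI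
    · exact Or.inl ⟨hx.1, fun h7 => h7.elim hxI hx.2⟩
  have hKJ : K ⊆ A \ J := fun x hx => ⟨hKA hx, ho.dis.notMem_of_mem_left (hKI hx)⟩
  by_cases hc : A \ J ⊆ K
  · obtain ⟨z, z1, z2, z3⟩ := zt_exists_notMem (K := K) hA (by omega)
    refine ⟨K, z, ⟨hA, hKA, z1, z2, k1, k2.trans htop, by omega, hall⟩, hKI, fun x hx => ?_⟩
    by_contra h7
    exact hx.2 (Or.inr (hc ⟨hx.1, h7⟩))
  · obtain ⟨z, z1, z2⟩ := not_subset.1 hc
    have e1 : insert z K ⊆ A \ J := insert_subset z1 hKJ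
    have e2 := rk_indep (hind.subset e1)
    have e3 := ncard_insert_of_notMem z2
    have e4 := rk_indep hind
    have e5 := rk_mono M (show A \ J ⊆ A from sdiff_subset)
    have e6 : insert z K = A \ J := eq_of_subset_of_ncard_le e1 (by omega)
    refine ⟨K, z, ⟨hA, hKA, z1.1, z2, k1, k2.trans htop, by omega, hall⟩, hKI, fun x hx => ?_⟩
    by_contra h7
    exact hx.2 (e6 ▸ ⟨hx.1, h7⟩)

theorem zt_new (hA : A ⊆ M.E) (hl : lam M A = 1) (ho : Op M I0 J0) (hI : I0 ⊆ A) (hJ : J0 ⊆ A)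
    (hl' : lam (mn M I0 J0) (A \ (I0 ∪ J0)) = 1) :
    ∃ K z, ZtSt M A K z ∧ I0 ⊆ K ∧ J0 ⊆ A \ insert z K := by
  have hla := lam_add M A
  have e1 := ho.lam_mn (X := A \ (I0 ∪ J0)) (disjoint_sdiff_left.mono_right subset_union_left)
    (disjoint_sdiff_left.mono_right subset_union_right)
  have hd : ∀ x ∈ I0, x ∉ J0 := fun x hx => ho.dis.notMem_of_mem_left hx
  have e2 : (A \ (I0 ∪ J0)) ∪ I0 = A \ J0 := by
    ext x
    have := hd x
    have := @hI x
    simp only [mem_sdiff, mem_union]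
    tauto
  have e3 : M.E \ ((A \ (I0 ∪ J0)) ∪ J0) = (M.E \ A) ∪ I0 := by
    ext x
    have := hd x
    have := @hI x
    have := @hJ x
    have := @hA x
    simp only [mem_sdiff, mem_union]
    tauto
  rw [e2, e3, hl'] at e1
  have e4 := rk_mono M (show A \ J0 ⊆ A from sdiff_subset)
  have e5 := rk_union_le M (M.E \ A) I0
  have e6 := rk_le_ncard M I0
  obtain ⟨K, k0, hK, k1, k2⟩ := exists_skew (M := M) (X := M.E \ A) (Y := A \ J0) (I := I0)
    sdiff_subset (sdiff_subset.trans hA) (fun x hx => ⟨hI hx, hd x hx⟩) (by omega)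
  have e7 : (M.E \ A) ∪ (A \ J0) = M.E \ J0 := by
    ext x
    have := @hJ x
    have := @hA x
    simp only [mem_sdiff, mem_union]
    tauto
  rw [e7, rk_coindep ho.coi] at k2
  have k3 := zt_indep_of_skew k1
  obtain ⟨z, z1, z2, z3⟩ := zt_exists_notMem (K := K) (Y := A \ J0) (sdiff_subset.trans hA)
    (by omega)
  refine ⟨K, z, ⟨hA, hK.trans sdiff_subset, z1.1, z2, k1, k2, by omega, by omega⟩, k0,
    fun x hx => ⟨hJ hx, ?_⟩⟩
  rintro (rfl | h7)
  · exact z1.2 hx
  · exact (hK h7).2 hx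

theorem Frame.shift (hf : Frame M I J) (hA : A ⊆ M.E) (hl : lam M A ≤ 1)
    (hs : (A \ (I ∪ J)).ncard ≤ 1) (ho : Op M I0 J0) (hI : I0 ⊆ A) (hJ : J0 ⊆ A)
    (hl' : lam (mn M I0 J0) (A \ (I0 ∪ J0)) = 1) :
    ∃ I' J', Shift M A I J I' J' ∧ I0 ⊆ I' ∧ J0 ⊆ J' := by
  have h1 := lam_minor_le M ho.dis A
  have h2 : lam M A = 1 := by omega
  obtain ⟨K, z, k1, k2, k3⟩ := zt_old hf hA h2 hs
  obtain ⟨K', z', l1, l2, l3⟩ := zt_new hA h2 ho hI hJ hl'
  obtain ⟨I', J', s1, s2, s3⟩ := zt_shift k1 l1 hf k2 k3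
  exact ⟨I', J', s1, l2.trans s2, l3.trans s3⟩

theorem zt_one (hf : Frame M I J) (he : e ∈ M.E \ (I ∪ J)) : e ∉ M.closure I := by
  intro h
  have h1 := hf.rk_eq (X := {e}) (singleton_subset_iff.2 he)
  rw [singleton_union, rk_insert_of_mem h, rk_indep hf.op.ind, ncard_singleton] at h1
  have := hf.card_left
  omega

/-- One element of a parallel pair can be deleted. -/
theorem Frame.shift_parallel (hf : Frame M I J) (hf' : f ∈ M.E) (hne : e ≠ f)
    (hp : e ∈ M.closure {f}) (hn : rk M {e} = 1) :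
    ∃ I' J', Shift M {e, f} I J I' J' ∧ e ∈ J' := by
  have ho := hf.op
  by_cases heJ : e ∈ J
  · exact ⟨I, J, ⟨hf, rfl, rfl, rfl, fun _ _ _ _ _ _ _ h => h⟩, heJ⟩
  have he : e ∈ M.E := M.closure_subset_ground _ hp
  have r1 : rk M {e, f} = rk M {f} := rk_insert_of_mem hp
  have r2 := rk_mono M (show ({e} : Set E) ⊆ {e, f} by simp)
  have r3 := rk_singleton_le M f
  have hq : f ∈ M.closure {e} := by
    rw [mem_closure_iff_rk hf', pair_comm]
    omega
  have hA : ({e, f} : Set E) ⊆ M.E := pair_subset he hf'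
  have hfJ : f ∈ J := by
    by_contra hfJ
    by_cases heI : e ∈ I
    · by_cases hfI : f ∈ I
      · have := rk_indep (ho.ind.subset (pair_subset heI hfI))
        rw [ncard_pair hne] at this
        omega
      · exact zt_one hf ⟨hf', fun h => h.elim hfI hfJ⟩
          (M.closure_subset_closure (singleton_subset_iff.2 heI) hq)
    · by_cases hfI : f ∈ I
      · exact zt_one hf ⟨he, fun h => h.elim heI heJ⟩
          (M.closure_subset_closure (singleton_subset_iff.2 hfI) hp)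
      · have h1 := hf.rk_eq (X := {e, f})
          (pair_subset ⟨he, fun h => h.elim heI heJ⟩ ⟨hf', fun h => h.elim hfI hfJ⟩)
        have h2 := rk_union_le M {e, f} I
        have h3 := rk_le_ncard M I
        have h4 := hf.card_left
        rw [ncard_pair hne] at h1
        omega
  have hfI : f ∉ I := fun h => ho.dis.notMem_of_mem_left h hfJ
  have hdel : rk M (M.E \ {e}) = rk M M.E := by
    have h1 : e ∈ M.closure (M.E \ {e}) :=
      M.closure_subset_closure (singleton_subset_iff.2 (show f ∈ M.E \ {e} from ⟨hf', hne.symm⟩)) hp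
    rw [← rk_insert_of_mem h1, insert_sdiff_singleton, insert_eq_of_mem he]
  have hop := op_del he hdel
  have hla := lam_add M {e, f}
  by_cases hl : lam M {e, f} = 1
  · have e1 := hop.lam_mn (X := {f}) (by simp) (by simpa using hne.symm)
    have e2 : ({f} : Set E) ∪ {e} = {e, f} := by ext x; simp
    have e3 : ({e, f} : Set E) \ (∅ ∪ {e}) = {f} := by
      ext x
      simp only [empty_union, mem_sdiff, mem_insert_iff, mem_singleton_iff]
      constructor
      · tauto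
      · rintro rfl
        exact ⟨Or.inr rfl, hne.symm⟩
    rw [e2, union_empty, ncard_empty] at e1
    obtain ⟨I', J', s1, -, s3⟩ := hf.shift (I0 := ∅) (J0 := {e}) hA hl.le
      ((ncard_le_ncard (show ({e, f} : Set E) \ (I ∪ J) ⊆ {e} by
        rintro x ⟨rfl | rfl, hx⟩
        · rfl
        · exact absurd (Or.inr hfJ) hx)).trans (by simp)) hop (empty_subset _) (by simp)
      (by rw [e3]; omega)
    exact ⟨I', J', s1, s3 rfl⟩
  have hl2 := lam_le_rk M {e, f}
  have heI : e ∈ I := by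
    by_contra heI
    have h0 : e ∈ M.E \ (I ∪ J) := ⟨he, fun h => h.elim heI heJ⟩
    have h1 := hf.rk_eq (X := (M.E \ (I ∪ J)) \ {e}) sdiff_subset
    have h2 := ncard_sdiff_singleton_add_one h0
    have h3 := hf.card
    have h4 := hf.card_left
    have h5 := rk_mono M (show ((M.E \ (I ∪ J)) \ {e}) ∪ I ⊆ M.E \ {e, f} by
      rintro x (hx | hx)
      · refine ⟨hx.1.1, ?_⟩
        rintro (rfl | rfl)
        · exact hx.2 rfl
        · exact hx.1.2 (Or.inr hfJ)
      · refine ⟨ho.sub_left hx, ?_⟩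
        rintro (rfl | rfl)
        · exact heI hx
        · exact hfI hx)
    omega
  have c1 : I ⊆ M.closure (insert f (I \ {e})) := by
    intro x hx
    by_cases hxe : x = e
    · rw [hxe]
      exact M.closure_subset_closure (singleton_subset_iff.2 (mem_insert _ _)) hp
    · exact M.inter_ground_subset_closure _ ⟨Or.inr ⟨hx, hxe⟩, ho.sub_left hx⟩
  have c2 : insert f (I \ {e}) ⊆ M.closure I :=
    insert_subset (M.closure_subset_closure (singleton_subset_iff.2 heI) hq)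
      (sdiff_subset.trans (M.subset_closure I ho.sub_left))
  have c3 : M.closure (insert f (I \ {e})) = M.closure I :=
    Subset.antisymm (M.closure_subset_closure_of_subset_closure c2)
      (M.closure_subset_closure_of_subset_closure c1)
  have c4 : (insert f (I \ {e})).ncard = I.ncard := by
    rw [ncard_insert_of_notMem (fun h => hfI h.1), ncard_sdiff_singleton_add_one heI]
  have c5 : M.Indep (insert f (I \ {e})) := by
    rw [indep_iff_rk, ← rk_closure, c3, rk_closure, c4, rk_indep ho.ind]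
  have c6 : f ∈ M✶.closure {e} := by
    rw [mem_coclosure_iff hf' (by simpa using hne.symm), pair_comm]
    intro h
    have h1 := rk_insert_of_mem h
    have h2 := rk_mono M (show M.E \ {e} ⊆ insert f (M.E \ {e, f}) by
      intro x hx
      by_cases hxf : x = f
      · exact Or.inl hxf
      · exact Or.inr ⟨hx.1, fun h => h.elim hx.2 hxf⟩)
    omega
  have hd : ∀ x ∈ I, x ∉ J := fun x hx => ho.dis.notMem_of_mem_left hx
  have m1 : e ∈ (I ∪ J) \ insert f (I \ {e}) := ⟨Or.inl heI, fun h => h.elim hne fun h => h.2 rfl⟩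
  refine ⟨insert f (I \ {e}), (I ∪ J) \ insert f (I \ {e}), ⟨hf.swap c5
    (insert_subset (Or.inr hfJ) (sdiff_subset.trans subset_union_left)) c3, ?_, ?_, c4, ?_⟩, m1⟩
  · ext x
    simp only [mem_sdiff, mem_insert_iff, mem_singleton_iff]
    tauto
  · ext x
    have := hd x
    simp only [mem_sdiff, mem_insert_iff, mem_singleton_iff, mem_union]
    tauto
  · intro F _ U W φ hp' _ hg
    refine hg.mono (fun u hu => ⟨hu.1, fun x hx => ?_⟩) (fun w hw => ⟨hw.1, fun x hx => ?_⟩)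
    · by_cases hxf : x = f
      · exact hp'.cyc.cl u hu.1 {e} x (fun y hy => hu.2 y (hy ▸ m1)) (hxf ▸ c6)
      · exact hu.2 x ⟨Or.inr hx, fun h => h.elim hxf fun h => hd x h.1 hx⟩
    · exact hp'.coc.cl w hw.1 _ x hw.2 (c1 hx)

theorem zt_pick {X : Set E} (hc : Con3 M) (hn : 4 ≤ M.E.ncard) (hX : X ⊆ M.E \ {e})
    (hl : lam (M ＼ {e}) X ≤ 1) (hr : 2 ≤ rk (M ＼ {e})✶ X) :
    ∃ z ∈ X, z ∉ (M ＼ {e}).closure ((M ＼ {e}).E \ X) ∧ z ∈ (M ＼ {e}).closure (X \ {z}) := by
  have hX' : X ⊆ (M ＼ {e}).E := hX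
  have h1 := lam_eq hX'
  have h2 : (M ＼ {e}).Dep X := by
    rw [← Matroid.not_indep_iff hX', indep_iff_rk]
    omega
  obtain ⟨C, hCX, hC⟩ := h2.exists_isCircuit_subset
  by_contra h3
  push Not at h3
  have h4 : C ⊆ (M ＼ {e}).closure ((M ＼ {e}).E \ X) := by
    intro x hx
    by_contra h5
    exact h3 x (hCX hx) h5 ((M ＼ {e}).closure_subset_closure (sdiff_subset_sdiff_left hCX)
      (hC.mem_closure_sdiff_singleton_of_mem hx))
  have h5 := rk_union_of_subset_closure h4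
  have h6 := rk_submod' (M ＼ {e}) (X := X) (Y := ((M ＼ {e}).E \ X) ∪ C) (P := C)
    (Q := (M ＼ {e}).E) hCX subset_union_right (by
      intro x hx
      by_cases hxX : x ∈ X
      · exact Or.inl hxX
      · exact Or.inr (Or.inl ⟨hx, hxX⟩))
  have h7 := lam_add (M ＼ {e}) X
  have h8 := isCircuit_rk hC
  have h9 := rk_indep (hc.indep hn ((hCX.trans hX).trans sdiff_subset) (by omega))
  rw [rk_delete (disjoint_sdiff_left.mono_left (hCX.trans hX))] at h8
  omega

theorem zt_step (hf : Frame M I J) (hc : Con3 M) (he : e ∈ J) :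
    ∃ I' J', Frame M I' J' ∧ ((∃ e ∈ I', V3 (M ／ {e})) ∨ ∃ e ∈ J', C3 (M ＼ {e})) ∧
      ∀ (F : Type) [Field F] (U W : Sb F E) (φ : Fm F E), Pair M U W → Val φ U W →
        Gauge φ (van U J) (van W I) → Gauge φ (van U J') (van W I') := by
  by_cases h3 : C3 (M ＼ {e})
  · exact ⟨I, J, hf, Or.inr ⟨e, he, h3⟩, fun _ _ _ _ _ _ _ h => h⟩
  have hn : 4 ≤ M.E.ncard := by have := hf.card_total; omega
  have hcon : Conn (M ＼ {e}) := ConK.delete (k := 1) hc hn e
  have hop : Op M ∅ {e} := hf.op.mono (empty_subset _) (singleton_subset_iff.2 he)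
  have hf1 : Frame (M ＼ {e}) I (J \ {e}) := by
    have := hf.sdiff (empty_subset I) (singleton_subset_iff.2 he)
    rwa [mn_empty_left, sdiff_empty] at this
  have hex : ∃ X ⊆ (M ＼ {e}).E, lam (M ＼ {e}) X ≤ 1 ∧ 2 ≤ rk (M ＼ {e})✶ X ∧
      2 ≤ rk (M ＼ {e})✶ ((M ＼ {e}).E \ X) ∧ (X \ (I ∪ (J \ {e}))).ncard ≤ 1 := by
    have h4 : ¬ ∀ X ⊆ (M ＼ {e})✶.E, lam (M ＼ {e})✶ X ≤ 1 →
        rk (M ＼ {e})✶ X ≤ 1 ∨ rk (M ＼ {e})✶ ((M ＼ {e})✶.E \ X) ≤ 1 := fun h => h3 ⟨hcon.dual, h⟩
    push Not at h4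
    obtain ⟨X, x1, x2, x3, x4⟩ := h4
    rw [Matroid.dual_ground] at x1 x4
    rw [lam_dual x1] at x2
    rcases hf1.small x1 x2 with h5 | h5
    · exact ⟨X, x1, x2, x3, x4, h5⟩
    · exact ⟨_, sdiff_subset, by rw [lam_compl x1]; exact x2, x4,
        by rw [sdiff_sdiff_cancel_left x1]; exact x3, h5⟩
  obtain ⟨X, x1, x2, x3, x4, x5⟩ := hex
  obtain ⟨z, z1, z2, z3⟩ := zt_pick hc hn x1 x2 x3
  have hl : lam (M ＼ {e}) X = 1 := by
    have a1 := rk_le_ncard (M ＼ {e})✶ X
    have a2 := rk_le_ncard (M ＼ {e})✶ ((M ＼ {e}).E \ X)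
    have := hcon.le_lam x1 (j := 1) le_rfl (by omega) (by omega)
    omega
  have hla := lam_add (M ＼ {e}) X
  have hzE := x1 z1
  have fin : ∀ I0 J0 : Set E, Op (M ＼ {e}) I0 J0 → I0 ⊆ X → J0 ⊆ X →
      lam (mn (M ＼ {e}) I0 J0) (X \ (I0 ∪ J0)) = 1 → ∃ I' J', Frame M I' J' ∧ I0 ⊆ I' ∧ J0 ⊆ J' ∧
      ∀ (F : Type) [Field F] (U W : Sb F E) (φ : Fm F E), Pair M U W → Val φ U W →
        Gauge φ (van U J) (van W I) → Gauge φ (van U J') (van W I') := by
    intro I0 J0 o1 o2 o3 o4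
    obtain ⟨I', J', s1, s2, s3⟩ := hf1.shift x1 x2 x5 o1 o2 o3 o4
    have s4 := Frame.union hop (I' := I') (J' := J') (by rw [mn_empty_left]; exact s1.frame)
    rw [empty_union] at s4
    refine ⟨I', {e} ∪ J', s4, s2, s3.trans subset_union_right, fun F _ U W φ hp hv hg => ?_⟩
    rw [← van_van]
    refine s1.gauge F _ W φ (hp.delete hop.coi) (hv.mono (van_le _ _) le_rfl) ?_
    rw [van_van, union_sdiff_cancel (singleton_subset_iff.2 he)]
    exact hg
  have r1 := rk_insert_of_notMem hzE z2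
  have r2 := rk_insert_of_mem z3
  rw [insert_sdiff_singleton, insert_eq_of_mem z1] at r2
  rcases hc.bixby hn z with hb | hb
  · have o1 : Op (M ＼ {e}) {z} ∅ := by
      refine op_con ?_
      have a1 := rk_singleton_le (M ＼ {e}) z
      have a2 := rk_union_le (M ＼ {e}) {z} ((M ＼ {e}).E \ X)
      rw [singleton_union] at a2
      omega
    have o2 := o1.lam_mn (X := X \ ({z} ∪ ∅)) (by simp) (by simp)
    have o3 : X \ ({z} ∪ ∅) ∪ {z} = X := by
      rw [union_empty, sdiff_union_of_subset (singleton_subset_iff.2 z1)]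
    have o4 : (M ＼ {e}).E \ (X \ ({z} ∪ ∅) ∪ ∅) = insert z ((M ＼ {e}).E \ X) := by
      ext x
      have : x = z → x ∈ (M ＼ {e}).E := fun h => h ▸ hzE
      simp only [union_empty, mem_sdiff, mem_singleton_iff, mem_insert_iff]
      tauto
    rw [o3, o4, ncard_singleton] at o2
    obtain ⟨I', J', s1, s2, -, s4⟩ := fin {z} ∅ o1 (singleton_subset_iff.2 z1) (empty_subset _)
      (by omega)
    exact ⟨I', J', s1, Or.inl ⟨z, s2 rfl, hb⟩, s4⟩
  · have o1 : Op (M ＼ {e}) ∅ {z} := by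
      refine op_del hzE ?_
      have a1 : z ∈ (M ＼ {e}).closure ((M ＼ {e}).E \ {z}) :=
        (M ＼ {e}).closure_subset_closure (sdiff_subset_sdiff_left x1) z3
      rw [← rk_insert_of_mem a1, insert_sdiff_singleton, insert_eq_of_mem hzE]
    have o2 := o1.lam_mn (X := X \ (∅ ∪ {z})) (by simp) (by simp)
    have o3 : X \ (∅ ∪ {z}) ∪ ∅ = X \ {z} := by rw [union_empty, empty_union]
    have o4 : X \ (∅ ∪ {z}) ∪ {z} = X := by
      rw [empty_union, sdiff_union_of_subset (singleton_subset_iff.2 z1)]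
    rw [o3, o4, ncard_empty] at o2
    obtain ⟨I', J', s1, -, s3, s4⟩ := fin ∅ {z} o1 (empty_subset _) (singleton_subset_iff.2 z1)
      (by omega)
    exact ⟨I', J', s1, Or.inr ⟨z, s3 rfl, hb⟩, s4⟩

/-- A 3-connected matroid with a frame has a frame with an operation that keeps 3-connectivity up
to parallel or series classes. -/
theorem Frame.exists_step (hf : Frame M I J) (hc : Con3 M) (hne : (I ∪ J).Nonempty) :
    ∃ I' J', Frame M I' J' ∧ ((∃ e ∈ I', V3 (M ／ {e})) ∨ ∃ e ∈ J', C3 (M ＼ {e})) ∧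
      ∀ (F : Type) [Field F] (U W : Sb F E) (φ : Fm F E), Pair M U W → Val φ U W →
        Gauge φ (van U J) (van W I) → Gauge φ (van U J') (van W I') := by
  obtain ⟨e, he | he⟩ := hne
  · obtain ⟨J', I', s1, s2, s3⟩ := zt_step hf.dual hc.dual he
    have s4 := s1.dual
    rw [Matroid.dual_dual] at s4
    refine ⟨I', J', s4, ?_, fun F _ U W φ hp hv hg => ?_⟩
    · rcases s2 with ⟨x, x1, x2⟩ | ⟨x, x1, x2⟩
      · refine Or.inr ⟨x, x1, ?_⟩
        rw [C3, Matroid.dual_delete]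
        exact x2
      · refine Or.inl ⟨x, x1, ?_⟩
        rw [C3, Matroid.dual_delete, Matroid.dual_dual] at x2
        exact x2
    · simpa using (s3 F W U φ.flip hp.dual hv.flip hg.flip).flip
  · exact zt_step hf hc he

end Pool.Agent.Lib.MP_10bdcf_co.G
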