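import Pool.Agent.Lib.MP_10bdcf_co.UN
import Pool.Agent.Lib.MP_10bdcf_co.ZT

/-!
The rank function after a Y-Delta exchange.
-/

namespace Pool.Agent.Lib.MP_10bdcf_co.G

open scoped Matroid
open Set

set_option linter.unusedSectionVars false

variable {E : Type} [Fintype E] {M M' : Matroid E} {a b c a' b' c' : E}

/-- A bijection that preserves ranks preserves the existence of a frame. -/
theorem exists_frame_of_map {M1 M2 : Matroid E} (f : E → E) (hf : Function.Bijective f)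
    (hE : f '' M1.E = M2.E) (hr : ∀ Y ⊆ M1.E, rk M2 (f '' Y) = rk M1 Y)
    (h : ∃ I J, Frame M1 I J) : ∃ I J, Frame M2 I J := by
  obtain ⟨I, J, h⟩ := h
  have hi := hf.injective
  have ho := h.op
  have hI := ho.sub_left
  have hJ := ho.sub_right
  have r1 : rk M2 M2.E = rk M1 M1.E := by rw [← hE, hr _ Subset.rfl]
  have c1 : ∀ X : Set E, (f '' X).ncard = X.ncard := fun X => ncard_image_of_injective X hi
  have g1 : M2.E \ (f '' I ∪ f '' J) = f '' (M1.E \ (I ∪ J)) := by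
    rw [image_sdiff hi, image_union, hE]
  refine ⟨f '' I, f '' J, frame_of_rk (op_iff_rk.2 ⟨?_, ?_, ?_, ?_⟩) ?_ ?_ fun X hX => ?_⟩
  · rw [hr _ hI, c1, rk_indep ho.ind]
  · rw [← hE]
    exact image_mono hJ
  · rw [r1, ← hE, ← image_sdiff hi, hr _ sdiff_subset, rk_coindep ho.coi]
  · exact disjoint_image_of_injective hi ho.dis
  · rw [g1, c1, h.card]
  · rw [r1, c1]
    exact h.card_left
  · rw [g1] at hX
    obtain ⟨X0, h0, rfl⟩ := subset_image_iff.1 hX
    rw [← image_union, hr _ (union_subset (h0.trans sdiff_subset) hI), c1, c1, r1, h.rk_eq h0]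

/-- `M'` is obtained from `M` by replacing the triad `a b c` by the triangle `a' b' c'` on the same
three labels; `a'` is opposite to `a`. -/
structure YD (M M' : Matroid E) (a b c a' b' c' : E) : Prop where
  triad : Tri M✶ a b c
  ground : M'.E = M.E
  same : ({a', b', c'} : Set E) = {a, b, c}
  r0 : ∀ X ⊆ M.E \ {a, b, c}, rk M' X = rk M X
  ra : ∀ X ⊆ M.E \ {a, b, c}, rk M' (insert a' X) + 1 = rk M (X ∪ {b, c})
  rb : ∀ X ⊆ M.E \ {a, b, c}, rk M' (insert b' X) + 1 = rk M (X ∪ {a, c})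
  rc : ∀ X ⊆ M.E \ {a, b, c}, rk M' (insert c' X) + 1 = rk M (X ∪ {a, b})
  r2 : ∀ X ⊆ M.E \ {a, b, c}, ∀ S ⊆ ({a, b, c} : Set E), 2 ≤ S.ncard →
    rk M' (X ∪ S) + 1 = rk M (X ∪ {a, b, c})

theorem xb1_s1 (a b c : E) : ({b, a, c} : Set E) = {a, b, c} := insert_comm b a {c}

theorem xb1_s2 (a b c : E) : ({a, c, b} : Set E) = {a, b, c} := by rw [pair_comm c b]

theorem YD.sw1 (h : YD M M' a b c a' b' c') : YD M M' b a c b' a' c' where
  triad := cb_swap h.triad
  ground := h.ground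
  same := by rw [xb1_s1, xb1_s1 a, h.same]
  r0 := by rw [xb1_s1 a]; exact h.r0
  ra := by rw [xb1_s1 a]; exact h.rb
  rb := by rw [xb1_s1 a]; exact h.ra
  rc := by rw [xb1_s1 a, pair_comm b a]; exact h.rc
  r2 := by rw [xb1_s1 a]; exact h.r2

theorem YD.sw2 (h : YD M M' a b c a' b' c') : YD M M' a c b a' c' b' where
  triad := ⟨h.triad.2.1, h.triad.1, h.triad.2.2.1.symm, by rw [xb1_s2]; exact h.triad.2.2.2⟩
  ground := h.ground
  same := by rw [xb1_s2, xb1_s2 a, h.same]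
  r0 := by rw [xb1_s2 a]; exact h.r0
  ra := by rw [xb1_s2 a, pair_comm c b]; exact h.ra
  rb := by rw [xb1_s2 a]; exact h.rc
  rc := by rw [xb1_s2 a]; exact h.rb
  r2 := by rw [xb1_s2 a]; exact h.r2

theorem YD.co (h : YD M M' a b c a' b' c') : M.IsCocircuit {a, b, c} := h.triad.2.2.2

theorem YD.sub (h : YD M M' a b c a' b' c') : ({a, b, c} : Set E) ⊆ M.E := h.co.subset_ground

theorem YD.card (h : YD M M' a b c a' b' c') : ({a, b, c} : Set E).ncard = 3 :=
  cb_three h.triad.1 h.triad.2.1 h.triad.2.2.1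

theorem YD.ne (h : YD M M' a b c a' b' c') : a' ≠ b' := by
  rintro rfl
  have h1 := h.card
  rw [← h.same, insert_eq_of_mem (mem_insert _ _)] at h1
  have h2 := ncard_insert_le a' ({c'} : Set E)
  rw [ncard_singleton] at h2
  omega

theorem YD.mem (h : YD M M' a b c a' b' c') : a' ∈ ({a, b, c} : Set E) :=
  h.same ▸ mem_insert _ _

theorem YD.mem2 (h : YD M M' a b c a' b' c') : b' ∈ ({a, b, c} : Set E) :=
  xb1_s1 a b c ▸ h.sw1.mem

theorem YD.mem3 (h : YD M M' a b c a' b' c') : c' ∈ ({a, b, c} : Set E) :=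
  xb1_s2 a b c ▸ h.sw2.mem2

theorem YD.ins (h : YD M M' a b c a' b' c') {X : Set E} (hX : X ⊆ M.E \ {a, b, c}) :
    rk M (insert a X) = rk M X + 1 :=
  rk_insert_of_notMem (h.sub (mem_insert _ _)) fun h1 =>
    isCocircuit_notMem h.co (mem_insert _ _) (M.closure_subset_closure hX h1)

/-- The rank in `M'` of a set with at least two elements of the triangle. -/
theorem YD.big (h : YD M M' a b c a' b' c') {X : Set E} (hX : X ⊆ M.E) (ha : a' ∈ X)
    (hb : b' ∈ X) : rk M' X + 1 = rk M (X ∪ {a, b, c}) := by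
  have h1 := h.r2 (X \ {a, b, c}) (sdiff_subset_sdiff_left hX) (X ∩ {a, b, c}) inter_subset_right
    (by
      rw [← ncard_pair h.ne]
      exact ncard_le_ncard (insert_subset ⟨ha, h.mem⟩ (singleton_subset_iff.2 ⟨hb, h.mem2⟩)))
  rwa [sdiff_union_inter, sdiff_union_self] at h1

theorem YD.rank (h : YD M M' a b c a' b' c') : rk M' M'.E + 1 = rk M M.E := by
  have h1 := h.big Subset.rfl (h.sub h.mem) (h.sub h.mem2)
  rwa [union_eq_self_of_subset_right h.sub, ← congrArg (rk M') h.ground] at h1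

theorem xb1_pair (hc : Con3 M) (hn : 5 ≤ M.E.ncard) (ha : a ∈ M.E) (hb : b ∈ M.E) (hab : a ≠ b) :
    rk M {a, b} = 2 := by
  rw [rk_indep (hc.indep (by omega) (insert_subset ha (singleton_subset_iff.2 hb))
    (ncard_pair hab).le), ncard_pair hab]

theorem YD.three (h : YD M M' a b c a' b' c') (hc : Con3 M) (hn : 5 ≤ M.E.ncard) :
    rk M {a, b, c} = 3 := by
  have h1 := lam_add M {a, b, c}
  have h2 := isCocircuit_rk h.co
  have h3 := h.card
  have h4 := cc_card h.sub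
  have h5 := hc.le_lam h.sub le_rfl (by omega) (by omega)
  have h6 := rk_le_ncard M {a, b, c}
  omega

/-- The condition on one set in `V3`. -/
def Xb1P (M : Matroid E) (X : Set E) : Prop :=
  (lam M X = 0 → X = ∅ ∨ X = M.E) ∧ (lam M X ≤ 1 → rk M X ≤ 1 ∨ rk M (M.E \ X) ≤ 1)

theorem Xb1P.compl {X : Set E} (hX : X ⊆ M.E) (h : Xb1P M (M.E \ X)) : Xb1P M X := by
  rw [Xb1P, lam_compl hX, sdiff_sdiff_cancel_left hX] at h
  refine ⟨fun h0 => ?_, fun h1 => (h.2 h1).symm⟩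
  rcases h.1 h0 with h2 | h2
  · exact Or.inr (hX.antisymm (sdiff_eq_empty.1 h2))
  · left
    rw [← sdiff_sdiff_cancel_left hX, h2, sdiff_self]

theorem YD.out (h : YD M M' a b c a' b' c') {X : Set E} (hX : X ⊆ M.E) (ha : a' ∉ X)
    (hb : b' ∉ X) (hc : c' ∉ X) : X ⊆ M.E \ {a, b, c} := fun z hz => ⟨hX hz, fun h1 => by
  rw [← h.same] at h1
  rcases h1 with rfl | rfl | rfl
  exacts [ha hz, hb hz, hc hz]⟩

theorem YD.p0 (h : YD M M' a b c a' b' c') (hc : Con3 M) {X : Set E} (hX : X ⊆ M.E)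
    (ha : a' ∉ X) (hb : b' ∉ X) (hc' : c' ∉ X) : Xb1P M' X := by
  have h0 := h.out hX ha hb hc'
  have h1 := h.r0 X h0
  have h2 := h.big (X := M.E \ X) sdiff_subset ⟨h.sub h.mem, ha⟩ ⟨h.sub h.mem2, hb⟩
  rw [union_eq_self_of_subset_right (show {a, b, c} ⊆ M.E \ X from
    fun z hz => ⟨h.sub hz, fun h3 => (h0 h3).2 hz⟩)] at h2
  have h3 := h.rank
  have h4 := lam_add M X
  have h5 := lam_add M' X
  rw [Xb1P, h.ground] at *
  refine ⟨fun h6 => conn_iff.1 hc.v3.1 X hX (by omega), fun h6 => ?_⟩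
  have := hc.v3.2 X hX (by omega)
  omega

theorem YD.p1 (h : YD M M' a b c a' b' c') (hc : Con3 M) (hn : 5 ≤ M.E.ncard) {X : Set E}
    (hX : X ⊆ M.E) (ha : a' ∈ X) (hb : b' ∉ X) (hc' : c' ∉ X) : Xb1P M' X := by
  obtain ⟨X0, e0⟩ : ∃ X0, X0 = X \ {a'} := ⟨_, rfl⟩
  have s0 : X0 ⊆ X := e0 ▸ sdiff_subset
  have h0 : X0 ⊆ M.E \ {a, b, c} := h.out (s0.trans hX) (e0 ▸ fun h1 => h1.2 rfl)
    (fun h1 => hb (s0 h1)) fun h1 => hc' (s0 h1)
  have h1 := h.ra X0 h0
  rw [e0, insert_sdiff_singleton, insert_eq_of_mem ha, ← e0] at h1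
  have h2 := h.sw1.sw2.big (X := M.E \ X) sdiff_subset ⟨h.sub h.mem2, hb⟩ ⟨h.sub h.mem3, hc'⟩
  have e2 : M.E \ X ∪ {b, c, a} = M.E \ X0 := by
    rw [xb1_s2, xb1_s1]
    refine Subset.antisymm (union_subset (sdiff_subset_sdiff_right s0)
      fun z hz => ⟨h.sub hz, fun h3 => (h0 h3).2 hz⟩) fun z hz => ?_
    by_cases hz1 : z = a'
    · exact Or.inr (hz1 ▸ h.mem)
    · exact Or.inl ⟨hz.1, fun h3 => hz.2 (e0 ▸ ⟨h3, hz1⟩)⟩
  rw [e2] at h2
  have h3 := h.rank
  have h4 := lam_add M X0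
  have h5 := lam_add M' X
  have sb : ({b, c} : Set E) ⊆ M.E \ X0 := fun z hz =>
    ⟨h.sub (Or.inr hz), fun h3 => (h0 h3).2 (Or.inr hz)⟩
  have h6 := rk_submod' M (X := X0 ∪ {b, c}) (Y := M.E \ X0) (P := {b, c}) (Q := M.E)
    subset_union_right sb fun z hz => by
      by_cases hz1 : z ∈ X0
      exacts [Or.inl (Or.inl hz1), Or.inr ⟨hz, hz1⟩]
  have h7 := xb1_pair hc hn (sb (Or.inl rfl)).1 (sb (Or.inr rfl)).1 h.triad.2.2.1
  have h8 := h.sw1.ins (X := X0) (xb1_s1 a b c ▸ h0)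
  have h9 := rk_mono M (show insert b X0 ⊆ X0 ∪ {b, c} from
    insert_subset (Or.inr (Or.inl rfl)) subset_union_left)
  have h10 := rk_le_ncard M X0
  have h11 := ncard_le_ncard sb
  rw [ncard_pair h.triad.2.2.1] at h11
  rw [Xb1P, h.ground] at *
  refine ⟨fun h12 => by omega, fun h12 => Or.inl ?_⟩
  have := hc X0 (s0.trans hX) (by omega)
  omega

theorem YD.p (h : YD M M' a b c a' b' c') (hc : Con3 M) (hn : 5 ≤ M.E.ncard) {X : Set E}
    (hX : X ⊆ M.E) : Xb1P M' X := by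
  have hX' : X ⊆ M'.E := h.ground ▸ hX
  have hY : M'.E \ X ⊆ M.E := h.ground ▸ sdiff_subset
  have i : ∀ {z}, z ∈ ({a, b, c} : Set E) → z ∉ X → z ∈ M'.E \ X := fun h1 h2 =>
    ⟨h.ground ▸ h.sub h1, h2⟩
  have o : ∀ {z}, z ∈ X → z ∉ M'.E \ X := fun h1 h2 => h2.2 h1
  by_cases ha : a' ∈ X <;> by_cases hb : b' ∈ X <;> by_cases hc' : c' ∈ X
  · exact .compl hX' (h.p0 hc hY (o ha) (o hb) (o hc'))
  · exact .compl hX' (h.sw2.sw1.p1 hc hn hY (i h.mem3 hc') (o ha) (o hb))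
  · exact .compl hX' (h.sw1.p1 hc hn hY (i h.mem2 hb) (o ha) (o hc'))
  · exact h.p1 hc hn hX ha hb hc'
  · exact .compl hX' (h.p1 hc hn hY (i h.mem ha) (o hb) (o hc'))
  · exact h.sw1.p1 hc hn hX hb ha hc'
  · exact h.sw2.sw1.p1 hc hn hX hc' ha hb
  · exact h.p0 hc hX ha hb hc'

theorem YD.v3 (h : YD M M' a b c a' b' c') (hc : Con3 M) (hn : 5 ≤ M.E.ncard) : V3 M' := by
  exact ⟨conn_iff.2 fun X hX => (h.p hc hn (h.ground ▸ hX)).1,
    fun X hX => (h.p hc hn (h.ground ▸ hX)).2⟩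

theorem YD.del (h : YD M M' a b c a' b' c') {I J : Set E} (hf : Frame M' I J) (ha : a' ∈ J) :
    ∃ I J, Frame M I J := by
  classical
  have n1 : a' ≠ b' := h.ne
  have n2 : a' ≠ c' := h.sw2.ne
  have n3 : b' ≠ c' := h.sw1.sw2.ne
  obtain ⟨f, fa, fb, fc, fo⟩ : ∃ f : E → E, f a' = a ∧ f b' = c ∧ f c' = b ∧
      ∀ z, z ∉ ({a, b, c} : Set E) → f z = z := by
    refine ⟨fun z => if z = a' then a else if z = b' then c else if z = c' then b else z,
      by simp, by simp [n1.symm], by simp [n2.symm, n3.symm], fun z hz => ?_⟩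
    rw [← h.same] at hz
    simp only [mem_insert_iff, mem_singleton_iff, not_or] at hz
    simp [hz.1, hz.2.1, hz.2.2]
  have bij : Function.Bijective f := Finite.surjective_iff_bijective.1 fun y => by
    by_cases hy : y ∈ ({a, b, c} : Set E)
    · rcases hy with rfl | rfl | rfl
      exacts [⟨_, fa⟩, ⟨_, fc⟩, ⟨_, fb⟩]
    · exact ⟨y, fo y hy⟩
  have im : ∀ X ⊆ M.E \ {a, b, c}, f '' X = X := fun X hX => by
    rw [image_congr fun z hz => fo z (hX hz).2, image_id']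
  have imE : f '' M.E = M.E := by
    rw [← sdiff_union_of_subset h.sub, image_union, im _ Subset.rfl]
    congr 1
    rw [← h.same, image_insert_eq, image_pair, fa, fb, fc, h.same, xb1_s2]
  have r1 : rk M {a} = 1 := by simpa using h.ins (empty_subset _)
  have r2 : ∀ X, rk (mn M {a} ∅) X + 1 = rk M (insert a X) := fun X => by
    rw [← r1, rk_mn (disjoint_empty _), union_singleton]
  refine (exists_frame_of_map (M2 := mn M {a} ∅) f bij ?_ (fun Y hY => ?_)
    ⟨_, _, hf.sdiff (empty_subset _) (singleton_subset_iff.2 ha)⟩).elim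
      fun _ ⟨_, h2⟩ => ⟨_, _, Frame.union (op_con r1) h2⟩
  · rw [mn_ground, mn_ground, empty_union, union_empty, image_sdiff bij.injective, h.ground, imE,
      image_singleton, fa]
  · rw [mn_ground, empty_union, h.ground] at hY
    have haY : a' ∉ Y := fun h1 => (hY h1).2 rfl
    have hYE : Y ⊆ M.E := hY.trans sdiff_subset
    rw [mn_empty_left, rk_delete (disjoint_singleton_right.2 haY), ← add_left_inj 1, r2]
    obtain ⟨X, e0⟩ : ∃ X, X = Y \ {b', c'} := ⟨_, rfl⟩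
    have s0 : X ⊆ Y := e0 ▸ sdiff_subset
    have h0 : X ⊆ M.E \ {a, b, c} := h.out (s0.trans hYE) (fun h1 => haY (s0 h1))
      (e0 ▸ fun h1 => h1.2 (Or.inl rfl)) (e0 ▸ fun h1 => h1.2 (Or.inr rfl))
    have sp : ∀ p q : E, Y \ {p, q} = (Y \ {q}) \ {p} := fun p q => by
      rw [sdiff_sdiff, union_singleton]
    by_cases hb : b' ∈ Y <;> by_cases hc : c' ∈ Y
    · have e1 : Y = X ∪ {b', c'} := by
        rw [e0, sdiff_union_of_subset (insert_subset hb (singleton_subset_iff.2 hc))]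
      rw [e1, h.r2 X h0 _ (insert_subset h.mem2 (singleton_subset_iff.2 h.mem3))
        (ncard_pair n3).ge, image_union, im X h0, image_pair, fb, fc, ← union_insert, xb1_s2]
    · have e1 : Y = insert b' X := by
        rw [e0, sp, sdiff_singleton_eq_self hc, insert_sdiff_singleton,
          insert_eq_of_mem hb]
      rw [e1, h.rb X h0, image_insert_eq, im X h0, fb, union_insert, union_singleton]
    · have e1 : Y = insert c' X := by
        rw [e0, pair_comm, sp, sdiff_singleton_eq_self hb,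
          insert_sdiff_singleton, insert_eq_of_mem hc]
      rw [e1, h.rc X h0, image_insert_eq, im X h0, fc, union_insert, union_singleton]
    · have e1 : Y = X := by
        rw [e0, sp, sdiff_singleton_eq_self hc, sdiff_singleton_eq_self hb]
      rw [e1, h.r0 X h0, im X h0, h.ins h0]

theorem YD.con (h : YD M M' a b c a' b' c') (hc : Con3 M) (hn : 5 ≤ M.E.ncard) {I J : Set E}
    (hf : Frame M' I J) (ha : a' ∈ I) : ∃ I J, Frame M I J := by
  have n1 : a' ≠ b' := h.ne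
  have n2 : a' ≠ c' := h.sw2.ne
  have n3 : b' ≠ c' := h.sw1.sw2.ne
  have sa := singleton_subset_iff.2 ha
  have ho : Op M' {a'} ∅ := hf.op.mono sa (empty_subset _)
  have r1 : ∀ X, rk (mn M' {a'} ∅) X + 1 = rk M' (insert a' X) := fun X => by
    have := ho.rk_mn (X := X) (disjoint_empty _)
    rwa [ncard_singleton, union_singleton] at this
  have h3 := h.three hc hn
  have t : ∀ X ⊆ ({a, b, c} : Set E), 2 ≤ X.ncard → rk M' X = 2 := fun X hX h2 => by
    have := h.r2 ∅ (empty_subset _) X hX h2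
    rw [empty_union, empty_union] at this
    omega
  have t1 := t _ (insert_subset h.mem (singleton_subset_iff.2 h.mem2)) (ncard_pair n1).ge
  have t2 := t _ (insert_subset h.mem (singleton_subset_iff.2 h.mem3)) (ncard_pair n2).ge
  have t3 := t {a', b', c'} h.same.subset (by rw [h.same, h.card]; omega)
  have m : ∀ {z}, z ∈ ({a, b, c} : Set E) → a' ≠ z → z ∈ (mn M' {a'} ∅).E := fun h1 h2 => by
    rw [mn_ground, union_empty, h.ground]
    exact ⟨h.sub h1, h2.symm⟩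
  have u1 := r1 {b'}
  have u2 := r1 {c'}
  have u3 := r1 {b', c'}
  obtain ⟨I', J', hs, hb⟩ := (hf.sdiff sa (empty_subset _)).shift_parallel (e := b') (f := c')
    (m h.mem3 n2) n3 ((mem_closure_iff_rk (m h.mem2 n1)).2 (by omega)) (by omega)
  exact h.sw1.del (Frame.union ho hs.frame) (Or.inr hb)

theorem YD.free (h : YD M M' a b c a' b' c') {I J : Set E} (hf : Frame M' I J)
    (hT : ({a, b, c} : Set E) ⊆ M.E \ (I ∪ J)) : Frame M I J := by
  have ho := hf.op
  have hI : I ⊆ M.E \ {a, b, c} := fun z hz =>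
    ⟨h.ground ▸ ho.sub_left hz, fun h1 => (hT h1).2 (Or.inl hz)⟩
  have hq := fun X (hX : X ⊆ M.E \ (I ∪ J)) => hf.rk_eq (X := X) (h.ground ▸ hX)
  have h1 := h.rank
  have h2 := hf.card_left
  have h5 := hf.card
  have h6 := rk_coindep ho.coi
  rw [h.ground] at h1 h2 h5 h6 hq
  have hr : rk M' M.E = I.ncard + 2 := by
    have s2 : ({a', b'} : Set E) ⊆ {a, b, c} := insert_subset h.mem (singleton_subset_iff.2 h.mem2)
    have k1 := hq _ hT
    have k2 := hq _ (s2.trans hT)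
    have k3 := h.r2 I hI _ Subset.rfl (by rw [h.card]; omega)
    have k4 := h.r2 I hI _ s2 (ncard_pair h.ne).ge
    rw [union_comm] at k1 k2
    rw [h.card] at k1
    rw [ncard_pair h.ne] at k2
    omega
  rw [hr] at hq
  have h7 := h.big (X := M.E \ J) sdiff_subset ⟨h.sub h.mem, fun h1 => (hT h.mem).2 (Or.inr h1)⟩
    ⟨h.sub h.mem2, fun h1 => (hT h.mem2).2 (Or.inr h1)⟩
  rw [union_eq_self_of_subset_right
    (hT.trans (sdiff_subset_sdiff_right subset_union_right))] at h7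
  refine frame_of_rk (op_iff_rk.2 ⟨by rw [← h.r0 I hI, rk_indep ho.ind],
    h.ground ▸ ho.sub_right, by omega, ho.dis⟩) h5 (by omega) fun Y hY => ?_
  obtain ⟨X, e0⟩ : ∃ X, X = Y \ {a, b, c} := ⟨_, rfl⟩
  have s0 : X ⊆ M.E \ (I ∪ J) := e0 ▸ sdiff_subset.trans hY
  have d0 : ∀ z ∈ ({a, b, c} : Set E), z ∉ X := fun z hz h1 => (e0 ▸ h1).2 hz
  have h0 : X ∪ I ⊆ M.E \ {a, b, c} :=
    union_subset (fun z hz => ⟨(s0 hz).1, fun h1 => d0 z h1 hz⟩) hI
  have c0 : X.ncard ≤ 2 := by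
    have k1 := cc_card hT
    have k2 : X.ncard ≤ ((M.E \ (I ∪ J)) \ {a, b, c}).ncard :=
      ncard_le_ncard (e0 ▸ sdiff_subset_sdiff_left hY)
    rw [h.card] at k1
    omega
  have q0 := hq X s0
  rw [h.r0 _ h0] at q0
  have one : ∀ {a1 b1 c1 a2 b2 c2 : E}, YD M M' a1 b1 c1 a2 b2 c2 →
      ({a1, b1, c1} : Set E) = {a, b, c} → Y = insert a1 X →
      rk M (Y ∪ I) = min (Y.ncard + I.ncard) (rk M M.E) := by
    intro a1 b1 c1 a2 b2 c2 g e1 e2
    rw [e2, insert_union, g.ins (e1 ▸ h0), ncard_insert_of_notMem (d0 _ (e1 ▸ mem_insert _ _))]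
    omega
  have two : ∀ {a1 b1 c1 a2 b2 c2 : E}, YD M M' a1 b1 c1 a2 b2 c2 →
      ({a1, b1, c1} : Set E) = {a, b, c} → Y = X ∪ {b1, c1} →
      rk M (Y ∪ I) = min (Y.ncard + I.ncard) (rk M M.E) := by
    intro a1 b1 c1 a2 b2 c2 g e1 e2
    have k1 := hq (insert a2 X) (insert_subset (hT (e1 ▸ g.mem)) s0)
    have k2 := g.ra _ (e1 ▸ h0)
    rw [insert_union, ncard_insert_of_notMem (d0 _ (e1 ▸ g.mem))] at k1
    rw [e2, union_right_comm, ncard_union_eq (disjoint_right.2 fun z hz => d0 z (e1 ▸ Or.inr hz)),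
      ncard_pair g.triad.2.2.1]
    omega
  have e3 : Y = X ∪ Y ∩ {a, b, c} := by rw [e0, sdiff_union_inter]
  by_cases ha : a ∈ Y <;> by_cases hb : b ∈ Y <;> by_cases hc : c ∈ Y <;>
    simp only [inter_insert_of_mem, inter_insert_of_notMem, inter_singleton_of_mem,
      inter_singleton_of_notMem, ha, hb, hc, not_false_eq_true, insert_empty_eq, union_singleton,
      union_empty] at e3
  · have k1 := hq Y hY
    have k2 := h.r2 _ h0 _ Subset.rfl (by rw [h.card]; omega)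
    have k3 : 3 ≤ Y.ncard := by rw [← h.card, e3]; exact ncard_le_ncard subset_union_right
    rw [union_right_comm, ← e3] at k2
    omega
  · exact two h.sw2.sw1 (by rw [xb1_s1, xb1_s2]) e3
  · exact two h.sw1 (xb1_s1 _ _ _) e3
  · exact one h rfl e3
  · exact two h rfl e3
  · exact one h.sw1 (xb1_s1 _ _ _) e3
  · exact one h.sw2.sw1 (by rw [xb1_s1, xb1_s2]) e3
  · rw [e3]
    omega

theorem YD.frame (h : YD M M' a b c a' b' c') (hc : Con3 M) (hn : 5 ≤ M.E.ncard)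
    (hf : ∃ I J, Frame M' I J) : ∃ I J, Frame M I J := by
  obtain ⟨I, J, hf⟩ := hf
  by_cases h1 : a' ∈ I
  · exact h.con hc hn hf h1
  by_cases h2 : b' ∈ I
  · exact h.sw1.con hc hn hf h2
  by_cases h3 : c' ∈ I
  · exact h.sw2.sw1.con hc hn hf h3
  by_cases h4 : a' ∈ J
  · exact h.del hf h4
  by_cases h5 : b' ∈ J
  · exact h.sw1.del hf h5
  by_cases h6 : c' ∈ J
  · exact h.sw2.sw1.del hf h6
  refine ⟨I, J, h.free hf fun z hz => ⟨h.sub hz, ?_⟩⟩
  rw [← h.same] at hz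
  rcases hz with rfl | rfl | rfl
  exacts [fun k => k.elim h1 h4, fun k => k.elim h2 h5, fun k => k.elim h3 h6]

end Pool.Agent.Lib.MP_10bdcf_co.G
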