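import Pool.Agent.Lib.MP_10bdcf_co.XB1
import Pool.Agent.Lib.MP_10bdcf_co.XG3

/-!
The Y-Delta exchange of a system and of its spaces.
-/

namespace Pool.Agent.Lib.MP_10bdcf_co.G

open scoped Matroid
open Set

set_option linter.unusedSectionVars false

variable {E F : Type} [Fintype E] [Field F] {M M' : Matroid E} {T T' : Set E → Matrix E E R0}
  {x y : R0 →+* F} {U W : Sb F E} {B : Set E} {a b c : E} {ib ic : R0}

open Classical in
/-- The column of the new element. -/
noncomputable def ydC (b c : E) (ib ic : R0) : E → R0 :=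
  fun e => if e = b then ib else if e = c then -ic else 0

/-- The system `T'` is obtained by contracting `a` and adding it again on the line `b c`. -/
structure YDat (M : Matroid E) (T : Set E → Matrix E E R0) (a b c : E) (B : Set E) (ib ic : R0)
    (M' : Matroid E) (T' : Set E → Matrix E E R0) : Prop where
  tab : U2 M T
  triad : Tri M✶ a b c
  base : M.IsBase B
  ha : a ∈ B
  hb : b ∉ B
  hc : c ∉ B
  ib1 : T B a b * ib = 1
  ic1 : T B a c * ic = 1
  ext : Ext (mn M {a} ∅) (mnT {a} ∅ T) a (ydC b c ib ic) M' T'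

open Classical in
/-- The map from the new cycles to the old cycles. -/
noncomputable def ydQ (a b c : E) (hb hc ib ic : F) : (E → F) →ₗ[F] (E → F) :=
  LinearMap.pi fun e => if e = a then -(hb • co b) - hc • co c else if e = b then co b + ib • co a
    else if e = c then co c - ic • co a else co e

open Classical in
/-- The map from the old cocycles to the new cocycles. -/
noncomputable def ydP (a b c : E) (ib ic : F) : (E → F) →ₗ[F] (E → F) :=
  LinearMap.pi fun e => if e = a then ib • co b - ic • co c else co e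

theorem ydQ_a (a b c : E) (hb hc ib ic : F) (u : E → F) :
    ydQ a b c hb hc ib ic u a = -(hb * u b) - hc * u c := by
  simp [ydQ]

theorem ydQ_b (h : a ≠ b) (c : E) (hb hc ib ic : F) (u : E → F) :
    ydQ a b c hb hc ib ic u b = u b + ib * u a := by
  simp [ydQ, h.symm]

theorem ydQ_c (h : a ≠ c) (h' : b ≠ c) (hb hc ib ic : F) (u : E → F) :
    ydQ a b c hb hc ib ic u c = u c - ic * u a := by
  simp [ydQ, h.symm, h'.symm]

theorem ydQ_of {e : E} (h1 : e ≠ a) (h2 : e ≠ b) (h3 : e ≠ c) (hb hc ib ic : F) (u : E → F) :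
    ydQ a b c hb hc ib ic u e = u e := by
  simp [ydQ, h1, h2, h3]

theorem ydP_a (a b c : E) (ib ic : F) (w : E → F) :
    ydP a b c ib ic w a = ib * w b - ic * w c := by
  simp [ydP]

theorem ydP_of {e : E} (h : e ≠ a) (b c : E) (ib ic : F) (w : E → F) :
    ydP a b c ib ic w e = w e := by
  simp [ydP, h]

theorem xb2_sum {R : Type} [AddCommMonoid R] (h1 : a ≠ b) (h2 : a ≠ c) (h3 : b ≠ c) {f : E → R}
    (h0 : ∀ e, e ≠ a → e ≠ b → e ≠ c → f e = 0) : ∑ e, f e = f a + f b + f c := by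
  classical
  rw [← Finset.sum_subset (Finset.subset_univ {a, b, c}) fun e _ he => h0 e
    (fun h => he (by simp [h])) (fun h => he (by simp [h])) fun h => he (by simp [h]),
    Finset.sum_insert (by simp [h1, h2]), Finset.sum_pair h3, add_assoc]

theorem xb2_col (h3 : b ≠ c) (f : E → R0) : ∑ e, f e * ydC b c ib ic e = f b * ib - f c * ic := by
  classical
  rw [Finset.sum_eq_add_of_mem b c (Finset.mem_univ _) (Finset.mem_univ _) h3
    fun e _ he => by simp [ydC, he.1, he.2]]
  simp [ydC, h3.symm, sub_eq_add_neg]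

theorem xb2_mem (ht : Tri M✶ a b c) : a ∈ M.E ∧ b ∈ M.E ∧ c ∈ M.E := by
  have h : ({a, b, c} : Set E) ⊆ M.E := ht.2.2.2.subset_ground
  exact ⟨h (by simp), h (by simp), h (by simp)⟩

theorem xb2_ins (ht : Tri M✶ a b c) {X : Set E} (hX : X ⊆ M.E \ {a, b, c}) {e : E}
    (he : e ∈ ({a, b, c} : Set E)) : rk M (insert e X) = rk M X + 1 :=
  rk_insert_of_notMem (ht.2.2.2.subset_ground he) fun h =>
    isCocircuit_notMem (M := M) ht.2.2.2 he (M.closure_subset_closure hX h)

theorem xb2_row (hT : U2 M T) (ht : Tri M✶ a b c) (hB : M.IsBase B) (hb : b ∉ B) (hc : c ∉ B)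
    {e : E} (h1 : e ≠ a) (h2 : e ≠ b) (h3 : e ≠ c) : T B a e = 0 := by
  by_contra h0
  have h4 := ((hT.supp B hB a e).1 h0).2
  have h5 := rk_mono M (show ex B a e ⊆ M.E \ {a, b, c} from fun z hz => ⟨h4.subset_ground hz, by
    rcases mem_ex.1 hz with rfl | ⟨h6, h7⟩
    · simp [h1, h2, h3]
    · rintro (rfl | rfl | rfl)
      exacts [h7 rfl, hb h6, hc h6]⟩)
  have h6 := isCocircuit_rk (M := M) ht.2.2.2
  rw [rk_indep h4.indep, ← rk_base h4] at h5
  omega

theorem xb2_one (ht : Tri M✶ a b c) : rk M {a} = 1 := by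
  simpa using xb2_ins ht (empty_subset _) (e := a) (by simp)

theorem xb2_mn (T : Set E → Matrix E E R0) (K : Set E) {g e : E} (hg : g ≠ a) (he : e ≠ a) :
    mnT {a} ∅ T K g e = T (K ∪ {a}) g e := by
  simp [mnT, delT, conT, hg, he]

/-- A kernel is determined at one base. -/
theorem xb2_cyc {S : Set E → Matrix E E F} (hS : TabP (· ≠ 0) M S) (hB : M.IsBase B)
    (h1 : ∀ u ∈ U, ∀ b, ∑ e, S B b e * u e = 0)
    (h2 : ∀ c : E → F, ∃ u ∈ U, ∀ e ∈ M.E \ B, u e = c e)
    (h3 : ∀ u ∈ U, (∀ e ∈ M.E, u e = 0) → u = 0) : Cyc M S U := by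
  refine ⟨fun u hu K hK g => ?_, fun K hK c => ?_, h3⟩
  · rw [Finset.sum_congr rfl fun e _ => by rw [hS.mul_apply hB hK g e, Finset.sum_mul],
      Finset.sum_comm]
    simp only [mul_assoc]
    exact Finset.sum_eq_zero fun z _ => by rw [← Finset.mul_sum, h1 u hu, mul_zero]
  · obtain ⟨U', h4, -⟩ := zc_exists (zc_dual hS)
    have h5 := (cyc_iff_coc hS).2 h4
    obtain ⟨u', hu', h6⟩ := h5.ext K hK c
    obtain ⟨u, hu, h7⟩ := h2 u'
    refine ⟨u, hu, fun e he => Eq.trans ?_ (h6 e he)⟩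
    by_cases heB : e ∈ B
    · have h8 : ∑ z, S B e z * (u z - u' z) = 0 := by
        simp only [mul_sub, Finset.sum_sub_distrib, h1 u hu, h5.ker u' hu' B hB, sub_zero]
      rw [Fintype.sum_eq_single e fun z hz => ?_, hS.diag B hB e heB, one_mul] at h8
      · exact sub_eq_zero.1 h8
      · by_cases hzB : z ∈ B
        · rw [hS.off hB hzB hz.symm, zero_mul]
        · by_cases hzE : z ∈ M.E
          · rw [h7 z ⟨hzE, hzB⟩, sub_self, mul_zero]
          · rw [hS.col hB e hzE, zero_mul]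
    · exact h7 e ⟨he.1, heB⟩

/-- A row space is determined at one base. -/
theorem xb2_coc {S : Set E → Matrix E E F} (hS : TabP (· ≠ 0) M S) (hB : M.IsBase B)
    (h1 : ∀ w ∈ W, ∀ e ∈ M.E, w e = ∑ b, w b * S B b e)
    (h2 : ∀ c : E → F, ∃ w ∈ W, ∀ b ∈ B, w b = c b)
    (h3 : ∀ w ∈ W, (∀ e ∈ M.E, w e = 0) → w = 0) : Coc M S W := by
  refine ⟨fun w hw K hK e he => ?_, fun K hK c => ?_, h3⟩
  · rw [h1 w hw e he]
    rw [Finset.sum_congr rfl fun z _ => by rw [hS.mul_apply hK hB z e, Finset.mul_sum],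
      Finset.sum_comm]
    simp only [← mul_assoc]
    refine Finset.sum_congr rfl fun z _ => ?_
    by_cases hz : z ∈ K
    · rw [← Finset.sum_mul, ← h1 w hw z (hK.subset_ground hz)]
    · simp [hS.row hK hz]
  · obtain ⟨W', h4, -⟩ := zc_exists hS
    obtain ⟨w', hw', h6⟩ := h4.ext K hK c
    obtain ⟨w, hw, h7⟩ := h2 w'
    refine ⟨w, hw, fun e he => Eq.trans ?_ (h6 e he)⟩
    rw [h1 w hw e (hK.subset_ground he), h4.row w' hw' B hB e (hK.subset_ground he)]
    refine Finset.sum_congr rfl fun z _ => ?_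
    by_cases hz : z ∈ B
    · rw [h7 z hz]
    · simp [hS.row hB hz]

theorem exists_yDat (hT : U2 M T) (ht : Tri M✶ a b c) :
    ∃ B ib ic M' T', YDat M T a b c B ib ic M' T' := by
  obtain ⟨hab, hac, hbc, -⟩ := id ht
  obtain ⟨I, hI⟩ := M.exists_isBasis (M.E \ {a, b, c})
  have h1 : ∀ e ∈ ({a, b, c} : Set E), e ∉ I := fun e he h => (hI.subset h).2 he
  have h2 : ∀ e ∈ ({a, b, c} : Set E), M.IsBase (insert e I) := fun e he => by
    have h3 := xb2_ins ht hI.subset he
    have h4 := isCocircuit_rk (M := M) ht.2.2.2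
    have h5 := rk_basis hI
    have h6 := rk_indep hI.indep
    have h7 := ncard_insert_of_notMem (h1 e he)
    exact isBase_iff_rk.2 ⟨by omega, by omega⟩
  have hB := h2 a (by simp)
  have hb : b ∉ insert a I := by simp [hab.symm, h1 b (by simp)]
  have hc : c ∉ insert a I := by simp [hac.symm, h1 c (by simp)]
  have h3 : ∀ e ∈ ({a, b, c} : Set E), InG (T (insert a I) a e) := fun e he =>
    (hT.mem _ hB a e).resolve_left ((hT.supp _ hB a e).2 ⟨mem_insert _ _, by
      rw [ex, insert_sdiff_self_of_notMem (h1 a (by simp))]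
      exact h2 e he⟩)
  obtain ⟨ib, gb, eb⟩ := (h3 b (by simp)).exists_inv
  obtain ⟨ic, gc, ec⟩ := (h3 c (by simp)).exists_inv
  have pb : InP ib := Or.inr gb
  have pc : InP ic := Or.inr gc
  have ho := op_con (xb2_one ht)
  obtain ⟨M', T', h4⟩ := (hT.minor ho).extend (z := a) (by simp) (ydC b c ib ic) fun K hK g => by
    rw [xb2_col hbc]
    obtain ⟨hK', hKa, -⟩ := ho.isBase_iff.1 hK
    by_cases hg : g = a
    · have h5 : g ∉ K := fun h => disjoint_left.1 hKa h hg
      simp only [(hT.minor ho).row hK h5, zero_mul, sub_zero]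
      exact Or.inl rfl
    rw [xb2_mn T K hg hab.symm, xb2_mn T K hg hac.symm]
    generalize K ∪ {a} = L at hK'
    have h5 : ∀ e, T (insert a I) a e =
        T L a e + T (insert a I) a b * T L b e + T (insert a I) a c * T L c e := fun e => by
      rw [hT.mul_apply hK' hB a e, xb2_sum hab hac hbc fun z h6 h7 h8 => by
        rw [xb2_row hT ht hB hb hc h6 h7 h8, zero_mul], hT.diag _ hB a (mem_insert _ _), one_mul]
    by_cases h6 : T L g b = 0
    · rw [h6, zero_mul, zero_sub]
      exact ((hT.inP hK' g c).mul pc).neg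
    by_cases h7 : T L g c = 0
    · rw [h7, zero_mul, sub_zero]
      exact (hT.inP hK' g b).mul pb
    by_cases hbL : b ∈ L
    · obtain rfl : g = b := by_contra fun h => h6 (hT.off hK' hbL h)
      have hcL : c ∉ L := fun h => h7 (hT.off hK' h hbc)
      have h8 := h5 c
      rw [hT.row hK' hcL] at h8
      rw [hT.diag _ hK' g hbL, show 1 * ib - T L g c * ic = ib * ic * T L a c by
        linear_combination ib * ic * h8 - ib * ec + ic * T L g c * eb]
      exact (pb.mul pc).mul (hT.inP hK' a c)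
    by_cases hcL : c ∈ L
    · obtain rfl : g = c := by_contra fun h => h7 (hT.off hK' hcL h)
      have h8 := h5 b
      rw [hT.row hK' hbL] at h8
      rw [hT.diag _ hK' g hcL, show T L g b * ib - 1 * ic = -(ib * ic * T L a b) by
        linear_combination -(ib * ic) * h8 + ic * eb - ib * T L g b * ec]
      exact ((pb.mul pc).mul (hT.inP hK' a b)).neg
    have h8 := h5 b
    have h9 := h5 c
    rw [hT.row hK' hbL, hT.row hK' hcL] at h8 h9
    rw [show T L g b * ib - T L g c * ic = ib * ic * d2 (T L) g a b c by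
      rw [d2]
      linear_combination ib * ic * T L g b * h9 - ib * ic * T L g c * h8 -
        ib * T L g b * ec + ic * T L g c * eb]
    exact (pb.mul pc).mul (hT.d2_inP hK' g a b c)
  exact ⟨_, ib, ic, M', T', hT, ht, hB, mem_insert _ _, hb, hc, eb, ec, h4⟩

/-- The row of `a` is supported on the triad. -/
theorem YDat.row (h : YDat M T a b c B ib ic M' T') {e : E} (h1 : e ≠ a) (h2 : e ≠ b)
    (h3 : e ≠ c) : T B a e = 0 := by
  exact xb2_row h.tab h.triad h.base h.hb h.hc h1 h2 h3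

theorem YDat.exists_row (h : YDat M T a b c B ib ic M' T') (ho : Obj M T x y U W) :
    ∃ w ∈ W, w a = 1 ∧ w b = y (T B a b) ∧ w c = y (T B a c) ∧
      ∀ e ∈ M.E, e ≠ a → e ≠ b → e ≠ c → w e = 0 := by
  obtain ⟨w, hw, h1⟩ := ho.exists_row h.base a
  obtain ⟨ha, hb, hc⟩ := xb2_mem h.triad
  exact ⟨w, hw, by rw [h1 a ha, h.tab.diag B h.base a h.ha, map_one], h1 b hb, h1 c hc,
    fun e he h2 h3 h4 => by rw [h1 e he, h.row h2 h3 h4, map_zero]⟩

theorem YDat.cyc (h : YDat M T a b c B ib ic M' T') (ho : Obj M T x y U W) {u : E → F}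
    (hu : u ∈ U) : u a = -(x (T B a b) * u b) - x (T B a c) * u c := by
  have h1 := zg_ker ho h.base hu a
  rw [xb2_sum h.triad.1 h.triad.2.1 h.triad.2.2.1 fun e h2 h3 h4 => by
    rw [h.row h2 h3 h4, map_zero, zero_mul], h.tab.diag B h.base a h.ha, map_one] at h1
  linear_combination h1

theorem xb2_ground (h : YDat M T a b c B ib ic M' T') : M'.E = M.E := by
  rw [h.ext.ground, mn_ground, union_empty, insert_sdiff_singleton,
    insert_eq_of_mem (xb2_mem h.triad).1]

theorem xb2_union (h : YDat M T a b c B ib ic M' T') : B \ {a} ∪ {a} = B :=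
  sdiff_union_of_subset (singleton_subset_iff.2 h.ha)

theorem xb2_base (h : YDat M T a b c B ib ic M' T') : (mn M {a} ∅).IsBase (B \ {a}) :=
  (op_con (xb2_one h.triad)).isBase_iff.2
    ⟨by rw [xb2_union h]; exact h.base, disjoint_sdiff_left, disjoint_empty _⟩

theorem xb2_old (h : YDat M T a b c B ib ic M' T') {g e : E} (hg : g ≠ a) (he : e ≠ a) :
    T' (B \ {a}) g e = T B g e := by
  rw [h.ext.old _ (xb2_base h) g e he, xb2_mn T _ hg he, xb2_union h]

theorem xb2_new (h : YDat M T a b c B ib ic M' T') {g : E} (hg : g ≠ a) :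
    T' (B \ {a}) g a = T B g b * ib - T B g c * ic := by
  rw [h.ext.new _ (xb2_base h) g, xb2_col h.triad.2.2.1, xb2_mn T _ hg h.triad.1.symm,
    xb2_mn T _ hg h.triad.2.1.symm, xb2_union h]

theorem xb2_zero (h : YDat M T a b c B ib ic M' T') (e : E) : T' (B \ {a}) a e = 0 :=
  h.ext.tab.row (h.ext.base _ (xb2_base h)) (fun h' => h'.2 rfl) e

theorem YDat.obj (h : YDat M T a b c B ib ic M' T') (ho : Obj M T x y U W) :
    Obj M' T' x y (U.comap (ydQ a b c (x (T B a b)) (x (T B a c)) (x ib) (x ic)))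
      ((van W {a}).map (ydP a b c (y ib) (y ic))) := by
  classical
  obtain ⟨hab, hac, hbc, -⟩ := id h.triad
  obtain ⟨ha, hb, hc⟩ := xb2_mem h.triad
  have hB := h.ext.base _ (xb2_base h)
  have eb := congrArg x h.ib1
  have ec := congrArg x h.ic1
  rw [map_mul, map_one] at eb ec
  refine ⟨h.ext.tab, xb2_cyc (h.ext.tab.spec x) hB (fun u hu g => ?_) (fun v => ?_)
    fun u hu h0 => ?_, xb2_coc (h.ext.tab.spec y) hB ?_ (fun v => ?_) ?_, fun e he => ?_⟩
  · by_cases hg : g = a
    · exact Finset.sum_eq_zero fun e _ => by simp [hg, xb2_zero h]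
    rw [← sub_eq_zero.2 (zg_ker ho h.base hu g), sub_zero, ← sub_eq_zero,
      ← Finset.sum_sub_distrib, xb2_sum hab hac hbc fun e h1 h2 h3 => by
        simp [xb2_old h hg h1, ydQ_of h1 h2 h3]]
    simp only [Matrix.map_apply, xb2_new h hg, xb2_old h hg hab.symm, xb2_old h hg hac.symm,
      ydQ_b hab, ydQ_c hac hbc, h.tab.off h.base h.ha hg, map_zero, map_sub, map_mul]
    ring
  · obtain ⟨u, hu, h1⟩ := ho.cyc.ext B h.base
      (ydQ a b c (x (T B a b)) (x (T B a c)) (x ib) (x ic) v)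
    refine ⟨fun e => if e = a ∨ e = b ∨ e = c then v e else u e, ?_, fun e he => ?_⟩
    · rw [Submodule.mem_comap]
      refine (congrArg (· ∈ U) (funext fun e => ?_)).mp hu
      have h2 := h1 b ⟨hb, h.hb⟩
      have h3 := h1 c ⟨hc, h.hc⟩
      rw [ydQ_b hab] at h2
      rw [ydQ_c hac hbc] at h3
      by_cases e1 : e = a
      · rw [e1, ydQ_a, h.cyc ho hu, h2, h3]
        simp only [or_true, true_or, if_true]
        linear_combination v a * ec - v a * eb
      by_cases e2 : e = b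
      · simp [e2, ydQ_b hab, h2]
      by_cases e3 : e = c
      · simp [e3, ydQ_c hac hbc, h3]
      simp [ydQ_of e1 e2 e3, e1, e2, e3]
    · beta_reduce
      split_ifs with h2
      · rfl
      · push Not at h2
        rw [h1 e ⟨xb2_ground h ▸ he.1, fun h3 => he.2 ⟨h3, h2.1⟩⟩, ydQ_of h2.1 h2.2.1 h2.2.2]
  · rw [xb2_ground h] at h0
    have h1 := ho.cyc.inj _ hu fun e he => by
      by_cases e1 : e = a
      · simp [e1, ydQ_a, h0 b hb, h0 c hc]
      by_cases e2 : e = b
      · simp [e2, ydQ_b hab, h0 a ha, h0 b hb]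
      by_cases e3 : e = c
      · simp [e3, ydQ_c hac hbc, h0 a ha, h0 c hc]
      rw [ydQ_of e1 e2 e3, h0 e he]
    funext e
    by_cases he : e ∈ M.E
    · exact h0 e he
    · rw [← h1, ydQ_of (e := e) (fun h' => he (h' ▸ ha)) (fun h' => he (h' ▸ hb))
        fun h' => he (h' ▸ hc)]
  · rintro _ ⟨w, hw, rfl⟩ e he
    obtain ⟨hw, h0⟩ := mem_van_one.1 hw
    rw [xb2_ground h] at he
    by_cases e1 : e = a
    · rw [e1, ydP_a, zg_row ho h.base hw hb, zg_row ho h.base hw hc, Finset.mul_sum,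
        Finset.mul_sum, ← Finset.sum_sub_distrib]
      refine Finset.sum_congr rfl fun g _ => ?_
      by_cases hg : g = a
      · simp [hg, h0, xb2_zero h]
      · simp only [Matrix.map_apply, ydP_of hg, xb2_new h hg, map_sub, map_mul]
        ring
    · rw [ydP_of e1, zg_row ho h.base hw he]
      refine Finset.sum_congr rfl fun g _ => ?_
      by_cases hg : g = a
      · simp [hg, h0, xb2_zero h]
      · simp [ydP_of hg, xb2_old h hg e1]
  · obtain ⟨w, hw, h1⟩ := ho.coc.ext B h.base (Function.update v a 0)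
    exact ⟨_, ⟨w, mem_van_one.2 ⟨hw, by rw [h1 a h.ha, Function.update_self]⟩, rfl⟩, fun g hg => by
      rw [ydP_of hg.2, h1 g hg.1, Function.update_of_ne hg.2]⟩
  · rintro _ ⟨w, hw, rfl⟩ h1
    obtain ⟨hw, h0⟩ := mem_van_one.1 hw
    rw [ho.coc.inj w hw fun e he => ?_, map_zero]
    by_cases e1 : e = a
    · rw [e1, h0]
    · rw [← h1 e (xb2_ground h ▸ he), ydP_of e1]
  · rw [xb2_ground h] at he
    have e1 : e ≠ a := fun h' => he (h' ▸ ha)
    refine (ho.out e he).imp (fun h1 u hu => ?_) ?_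
    · rw [← h1 _ hu, ydQ_of e1 (fun h' => he (h' ▸ hb)) fun h' => he (h' ▸ hc)]
    · rintro h1 _ ⟨w, hw, rfl⟩
      rw [ydP_of e1, h1 w hw.1]

theorem YDat.yd (h : YDat M T a b c B ib ic M' T') : YD M M' a b c a c b := by
  obtain ⟨hab, hac, hbc, -⟩ := id h.triad
  obtain ⟨ha, hb, hc⟩ := xb2_mem h.triad
  obtain ⟨U, W, ho, -⟩ := h.tab.exists_obj s4 s4
  have r1 := ho.pair.coc
  have r2 := (h.obj ho).pair.coc
  obtain ⟨r, hr, ra, rb, rc, r0⟩ := h.exists_row ho
  have eb := congrArg s4 h.ib1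
  have ec := congrArg s4 h.ic1
  rw [map_mul, map_one] at eb ec
  have hE := xb2_ground h
  have k1 : ∀ X, a ∉ X → rk M' X + 1 = rk M (insert a X) := fun X hX => by
    have hd : Disjoint X {a} := disjoint_singleton_right.2 hX
    rw [← rk_delete hd, h.ext.del, ← xb2_one h.triad, rk_mn (disjoint_empty _), union_singleton]
  have k2 : ∀ X ⊆ M.E \ {a, b, c}, ∀ z ∈ X, z ∈ M.E ∧ z ≠ a ∧ z ≠ b ∧ z ≠ c := fun X hX z hz => by
    simpa [not_or] using hX hz
  have k5 : ∀ X ⊆ M.E \ {a, b, c}, a ∉ X := fun X hX h' => (k2 X hX a h').2.1 rfl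
  have k3 : ∀ X ⊆ M.E \ {a, b, c}, rk M' X = rk M X := fun X hX => by
    have := k1 X (k5 X hX)
    have := xb2_ins h.triad hX (e := a) (by simp)
    omega
  have k4 : ∀ Y : Set E, a ∈ Y ∧ b ∈ Y ∨ a ∈ Y ∧ c ∈ Y ∨ b ∈ Y ∧ c ∈ Y →
      rk M' (Y ∪ {a, b, c}) = rk M' Y := fun Y hY => rk_union_of_subset_closure fun z hz => by
    by_contra hz'
    obtain ⟨_, ⟨w, -, rfl⟩, h1, h2⟩ := r2.exists_one (hE ▸ h.triad.2.2.2.subset_ground hz) hz'
    have h3 := ydP_a a b c (s4 ib) (s4 ic) w
    have h4 := ydP_of hab.symm b c (s4 ib) (s4 ic) w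
    have h5 := ydP_of hac.symm b c (s4 ib) (s4 ic) w
    rw [hE] at h2
    generalize ydP a b c (s4 ib) (s4 ic) w = p at h1 h2 h3 h4 h5
    rw [← h4, ← h5] at h3
    have h6 : p a = 0 ∧ p b = 0 ∧ p c = 0 := by
      rcases hY with ⟨h6, h7⟩ | ⟨h6, h7⟩ | ⟨h6, h7⟩
      · have h8 := h2 a h6 ha
        have h9 := h2 b h7 hb
        exact ⟨h8, h9, by
          linear_combination s4 (T B a c) * (h3 - h8 + s4 ib * h9) - p c * ec⟩
      · have h8 := h2 a h6 ha
        have h9 := h2 c h7 hc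
        exact ⟨h8, by linear_combination s4 (T B a b) * (h8 - h3 + s4 ic * h9) - p b * eb, h9⟩
      · have h8 := h2 b h6 hb
        have h9 := h2 c h7 hc
        exact ⟨by rw [h3, h8, h9, mul_zero, mul_zero, sub_zero], h8, h9⟩
    rcases hz with rfl | rfl | rfl
    exacts [one_ne_zero (h1.symm.trans h6.1), one_ne_zero (h1.symm.trans h6.2.1),
      one_ne_zero (h1.symm.trans h6.2.2)]
  refine ⟨h.triad, hE, xb1_s2 a b c, k3, fun X hX => ?_, fun X hX => ?_, fun X hX => ?_,
    fun X hX S hS h2 => ?_⟩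
  · have h1 := k3 X hX
    have h2 := xb2_ins h.triad hX (e := b) (by simp)
    rw [show X ∪ {b, c} = insert c (insert b X) by
      rw [union_insert, union_singleton, insert_comm]]
    by_cases h3 : c ∈ M.closure (insert b X)
    · rw [rk_insert_of_mem h3, rk_insert_of_mem, h1, h2]
      by_contra h4
      obtain ⟨_, ⟨w, hw, rfl⟩, h5, h6⟩ := r2.exists_one (hE ▸ ha) h4
      have h7 := r1.cl _ (W.sub_mem hw.1 (W.smul_mem (w b * s4 ib) hr)) _ c (by
        rintro z (rfl | hz)
        · simp only [Pi.sub_apply, Pi.smul_apply, smul_eq_mul, rb]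
          linear_combination -(w z) * eb
        · obtain ⟨a1, a2, a3, a4⟩ := k2 X hX z hz
          have h7 := h6 z hz (hE ▸ a1)
          rw [ydP_of a2] at h7
          simp [h7, r0 z a1 a2 a3 a4]) h3
      simp only [Pi.sub_apply, Pi.smul_apply, smul_eq_mul, rc] at h7
      rw [ydP_a] at h5
      exact one_ne_zero (α := F4) (by
        linear_combination -h5 - s4 ic * h7 - w b * s4 ib * ec)
    · rw [rk_insert_of_notMem hc h3, rk_insert_of_notMem (hE ▸ ha), h1, h2]
      intro h4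
      obtain ⟨w, hw, h5, h6⟩ := r1.exists_one hc h3
      have h7 := r2.cl _ ⟨w - w a • r, mem_van_one.2 ⟨W.sub_mem hw (W.smul_mem _ hr),
        by simp [ra]⟩, rfl⟩ X a (fun z hz => by
          obtain ⟨a1, a2, a3, a4⟩ := k2 X hX z hz
          simp [ydP_of a2, h6 z (Or.inr hz) a1, r0 z a1 a2 a3 a4]) h4
      simp only [ydP_a, Pi.sub_apply, Pi.smul_apply, smul_eq_mul, rb, rc, h5,
        h6 b (Or.inl rfl) hb] at h7
      exact one_ne_zero (α := F4) (by
        linear_combination -s4 (T B a c) * (h7 + w a * eb - w a * ec) - ec)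
  · rw [k1 _ (by simp [hac, k5 X hX]), union_insert, union_singleton]
  · rw [k1 _ (by simp [hab, k5 X hX]), union_insert, union_singleton]
  · obtain ⟨p, q, hp, hq, hpq⟩ := (one_lt_ncard_iff S.toFinite).1 h2
    have h3 := k4 (X ∪ S) (by
      rcases hS hp with rfl | rfl | rfl <;> rcases hS hq with rfl | rfl | rfl <;>
        simp_all)
    have h4 := k4 (X ∪ {b, c}) (by simp)
    have h5 := k1 (X ∪ {b, c}) (by simp [hab, hac, k5 X hX])
    rw [union_assoc, union_eq_self_of_subset_left hS] at h3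
    rw [union_assoc, union_eq_self_of_subset_left (subset_insert _ _)] at h4
    rw [← h3, h4, h5, ← union_insert]

end Pool.Agent.Lib.MP_10bdcf_co.G
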