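import Pool.Agent.Lib.MP_10bdcf_co.XB2

/-!
Forms correspond under the Y-Delta exchange.
-/

namespace Pool.Agent.Lib.MP_10bdcf_co.G

open scoped Matroid
open Set

set_option linter.unusedSectionVars false

variable {E F : Type} [Fintype E] [Field F] {M M' : Matroid E} {T T' : Set E → Matrix E E R0}
  {x y : R0 →+* F} {U W : Sb F E} {B : Set E} {a b c : E} {ib ic : R0} {φ φ' ψ ψ' : Fm F E}

/-- The new cycle space. -/
noncomputable abbrev ydU (T : Set E → Matrix E E R0) (a b c : E) (B : Set E) (ib ic : R0)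
    (x : R0 →+* F) (U : Sb F E) : Sb F E :=
  U.comap (ydQ a b c (x (T B a b)) (x (T B a c)) (x ib) (x ic))

/-- The new cocycle space. -/
noncomputable abbrev ydW (a b c : E) (ib ic : R0) (y : R0 →+* F) (W : Sb F E) : Sb F E :=
  (van W {a}).map (ydP a b c (y ib) (y ic))

/-- The form `φ` kills the cocycles supported on the triad and `φ'` is the corresponding form. -/
structure YRel (M : Matroid E) (T : Set E → Matrix E E R0) (a b c : E) (B : Set E) (ib ic : R0)
    (x y : R0 →+* F) (U W : Sb F E) (φ φ' : Fm F E) : Prop where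
  kill : ∀ u ∈ U, ∀ w ∈ W, (∀ e ∈ M.E, e ≠ a → e ≠ b → e ≠ c → w e = 0) → φ u w = 0
  rel : ∀ u ∈ ydU T a b c B ib ic x U, ∀ w ∈ van W {a}, φ' u (ydP a b c (y ib) (y ic) w) =
    φ (ydQ a b c (x (T B a b)) (x (T B a c)) (x ib) (x ic) u) w

theorem YRel.sub (h : YRel M T a b c B ib ic x y U W φ φ')
    (h' : YRel M T a b c B ib ic x y U W ψ ψ') :
    YRel M T a b c B ib ic x y U W (φ - ψ) (φ' - ψ') :=
  ⟨fun u hu w hw h0 => by simp [h.kill u hu w hw h0, h'.kill u hu w hw h0],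
    fun u hu w hw => by simp [h.rel u hu w hw, h'.rel u hu w hw]⟩

theorem xb3_one {l : Fn F E} (hl : ∀ u ∈ U, u b = 0 → l u = 0) :
    ∃ p, ∀ u ∈ U, l u = p * u b := by
  by_cases h : ∃ u ∈ U, u b ≠ 0
  · obtain ⟨u0, h0, h1⟩ := h
    refine ⟨l u0 / u0 b, fun u hu => ?_⟩
    have h2 := hl _ (U.sub_mem hu (U.smul_mem (u b / u0 b) h0)) (by simp [h1])
    rw [map_sub, map_smul, sub_eq_zero, smul_eq_mul] at h2
    rw [h2]
    ring
  · push Not at h
    exact ⟨0, fun u hu => by rw [hl u hu (h u hu), zero_mul]⟩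

theorem xb3_two {l : Fn F E} (hl : ∀ u ∈ U, u b = 0 → u c = 0 → l u = 0) :
    ∃ p q, ∀ u ∈ U, l u = p * u b + q * u c := by
  obtain ⟨p, hp⟩ := xb3_one (U := van U {c}) (b := b) (l := l) fun u hu h =>
    hl u hu.1 h (hu.2 c rfl)
  obtain ⟨q, hq⟩ := xb3_one (U := U) (b := c) (l := l - p • co b) fun u hu h => by
    simp [hp u (mem_van_one.2 ⟨hu, h⟩)]
  exact ⟨p, q, fun u hu => by simpa [sub_eq_iff_eq_add'] using hq u hu⟩

theorem xb3_sum (h1 : a ≠ b) (h2 : a ≠ c) (h3 : b ≠ c) {f : E → F}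
    (h0 : ∀ z, z ≠ a → z ≠ b → z ≠ c → f z = 0) : ∑ z, f z = f a + f b + f c := by
  classical
  rw [← Finset.sum_subset (Finset.subset_univ {a, b, c}) fun z _ hz => h0 z
    (fun h => hz (by simp [h])) (fun h => hz (by simp [h])) fun h => hz (by simp [h]),
    Finset.sum_insert (by simp [h1, h2]), Finset.sum_pair h3, add_assoc]

open Classical in
/-- The vector with the entries `p`, `q`, `r` at `a`, `b`, `c`. -/
noncomputable def xb3V (a b c : E) (p q r : F) : E → F :=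
  fun e => if e = a then p else if e = b then q else if e = c then r else 0

theorem xb3V_a (a b c : E) (p q r : F) : xb3V a b c p q r a = p := by simp [xb3V]

theorem xb3V_b (h : a ≠ b) (c : E) (p q r : F) : xb3V a b c p q r b = q := by simp [xb3V, h.symm]

theorem xb3V_c (h : a ≠ c) (h' : b ≠ c) (p q r : F) : xb3V a b c p q r c = r := by
  simp [xb3V, h.symm, h'.symm]

theorem xb3V_of {e : E} (h1 : e ≠ a) (h2 : e ≠ b) (h3 : e ≠ c) (p q r : F) :
    xb3V a b c p q r e = 0 := by simp [xb3V, h1, h2, h3]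

theorem xb3_gf (h1 : a ≠ b) (h2 : a ≠ c) (h3 : b ≠ c) (q r : F) (u w : E → F) :
    gf (xb3V a b c 0 q r) u w = q * (u b * w b) + r * (u c * w c) := by
  rw [gf_apply, xb3_sum h1 h2 h3 fun z e1 e2 e3 => by rw [xb3V_of e1 e2 e3, zero_mul], xb3V_a,
    xb3V_b h1, xb3V_c h2 h3, zero_mul, zero_add]

open Classical in
/-- Setting the entry at `a` to zero. -/
noncomputable def xb3Z (a : E) : (E → F) →ₗ[F] (E → F) :=
  LinearMap.pi fun e => if e = a then 0 else co e

theorem xb3Z_a (a : E) (u : E → F) : xb3Z a u a = 0 := by simp [xb3Z]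

theorem xb3Z_of {e : E} (h : e ≠ a) (u : E → F) : xb3Z a u e = u e := by simp [xb3Z, h]

theorem xb3_ext {u w : E → F} (e1 : u a = w a) (e2 : u b = w b) (e3 : u c = w c)
    (e4 : ∀ z, z ≠ a → z ≠ b → z ≠ c → u z = w z) : u = w := funext fun z => by
  by_cases h1 : z = a
  · rwa [h1]
  by_cases h2 : z = b
  · rwa [h2]
  by_cases h3 : z = c
  · rwa [h3]
  exact e4 z h1 h2 h3

theorem xb3_ZP {w : E → F} (hw : w a = 0) (p q : F) : xb3Z a (ydP a b c p q w) = w :=
  funext fun z => by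
    by_cases h : z = a
    · rw [h, xb3Z_a, hw]
    · rw [xb3Z_of h, ydP_of h]

theorem xb3_id (h1 : a ≠ b) (h2 : a ≠ c) (h3 : b ≠ c) (γ u : E → F) {w : E → F} (hw : w a = 0)
    (p q i j i' j' : F) : gf γ (ydQ a b c p q i j u) w = gf γ u (ydP a b c i' j' w) +
      u a * (w b * (γ b * i - γ a * i') - w c * (γ c * j - γ a * j')) := by
  rw [← sub_eq_iff_eq_add', gf_apply, gf_apply, ← Finset.sum_sub_distrib,
    xb3_sum h1 h2 h3 fun z e1 e2 e3 => by rw [ydQ_of e1 e2 e3, ydP_of e1, sub_self],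
    ydQ_b h1, ydQ_c h2 h3, ydP_a, ydP_of h1.symm, ydP_of h2.symm, hw]
  ring

section dat

variable (h : YDat M T a b c B ib ic M' T')
include h

theorem xb3_ib (x : R0 →+* F) : x (T B a b) * x ib = 1 := by rw [← map_mul, h.ib1, map_one]

theorem xb3_ic (x : R0 →+* F) : x (T B a c) * x ic = 1 := by rw [← map_mul, h.ic1, map_one]

theorem xb3_bE : b ∈ M.E := h.triad.2.2.2.subset_ground (by simp)

theorem xb3_cE : c ∈ M.E := h.triad.2.2.2.subset_ground (by simp)

theorem xb3_Qt (x : R0 →+* F) : ydQ a b c (x (T B a b)) (x (T B a c)) (x ib) (x ic)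
    (xb3V a b c 1 (-x ib) (x ic)) = 0 := by
  obtain ⟨h1, h2, h3, -⟩ := h.triad
  refine xb3_ext (a := a) (b := b) (c := c) ?_ ?_ ?_ fun z e1 e2 e3 => ?_
  · simp [ydQ_a, xb3V_b h1, xb3V_c h2 h3, xb3_ib h, xb3_ic h]
  · simp [ydQ_b h1, xb3V_b h1, xb3V_a]
  · simp [ydQ_c h2 h3, xb3V_c h2 h3, xb3V_a]
  · simp [ydQ_of e1 e2 e3, xb3V_of e1 e2 e3]

theorem xb3_tU : xb3V a b c 1 (-x ib) (x ic) ∈ ydU T a b c B ib ic x U := by
  rw [Submodule.mem_comap, xb3_Qt h]
  exact U.zero_mem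

theorem xb3_ZQ (p q i j : F) (u : E → F) :
    xb3Z a (ydQ a b c p q i j u) = u - u a • xb3V a b c 1 (-i) j := by
  obtain ⟨h1, h2, h3, -⟩ := h.triad
  refine xb3_ext (a := a) (b := b) (c := c) ?_ ?_ ?_ fun z e1 e2 e3 => ?_
  · simp [xb3Z_a, xb3V_a]
  · simp [xb3Z_of h1.symm, ydQ_b h1, xb3V_b h1, mul_comm]
  · simp [xb3Z_of h2.symm, ydQ_c h2 h3, xb3V_c h2 h3, mul_comm]
  · simp [xb3Z_of e1, ydQ_of e1 e2 e3, xb3V_of e1 e2 e3]

variable (ho : Obj M T x y U W)
include ho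

theorem xb3_QZ {u : E → F} (hu : u ∈ U) :
    ydQ a b c (x (T B a b)) (x (T B a c)) (x ib) (x ic) (xb3Z a u) = u := by
  obtain ⟨h1, h2, h3, -⟩ := h.triad
  refine xb3_ext (a := a) (b := b) (c := c) ?_ ?_ ?_ fun z e1 e2 e3 => ?_
  · rw [ydQ_a, xb3Z_of h1.symm, xb3Z_of h2.symm, h.cyc ho hu]
  · rw [ydQ_b h1, xb3Z_of h1.symm, xb3Z_a, mul_zero, add_zero]
  · rw [ydQ_c h2 h3, xb3Z_of h2.symm, xb3Z_a, mul_zero, sub_zero]
  · rw [ydQ_of e1 e2 e3, xb3Z_of e1]

variable {r : E → F} (hr : r ∈ W ∧ r a = 1 ∧ r b = y (T B a b) ∧ r c = y (T B a c) ∧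
  ∀ e ∈ M.E, e ≠ a → e ≠ b → e ≠ c → r e = 0)
include hr

theorem xb3_row {w : E → F} (hw : w ∈ W) (h0 : ∀ e ∈ M.E, e ≠ a → e ≠ b → e ≠ c → w e = 0) :
    w = w a • r := by
  refine sub_eq_zero.1 (ho.pair.coc.eq_zero (W.sub_mem hw (W.smul_mem _ hr.1))
    ((rk_indep h.base.indep).trans (rk_base h.base).symm) fun z hz => ?_)
  by_cases e1 : z = a
  · simp [e1, hr.2.1]
  · have e2 : z ≠ b := fun e => h.hb (e ▸ hz)
    have e3 : z ≠ c := fun e => h.hc (e ▸ hz)
    simp [h0 z (h.base.subset_ground hz) e1 e2 e3, hr.2.2.2.2 z (h.base.subset_ground hz) e1 e2 e3]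

theorem xb3_kill (h1 : ∀ u ∈ U, φ u r = 0) :
    ∀ u ∈ U, ∀ w ∈ W, (∀ e ∈ M.E, e ≠ a → e ≠ b → e ≠ c → w e = 0) → φ u w = 0 :=
  fun u hu w hw h0 => by rw [xb3_row h ho hr hw h0, map_smul, h1 u hu, smul_zero]

omit h ho in
theorem xb3_van {w : E → F} (hw : w ∈ W) : w - w a • r ∈ van W {a} :=
  mem_van_one.2 ⟨W.sub_mem hw (W.smul_mem _ hr.1), by simp [hr.2.1]⟩

theorem xb3_gfr (γ : E → F) {u : E → F} (hu : u ∈ U) : gf γ u r =
    u b * (γ b * y (T B a b) - γ a * x (T B a b)) +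
      u c * (γ c * y (T B a c) - γ a * x (T B a c)) := by
  obtain ⟨h1, h2, h3, -⟩ := h.triad
  rw [gf_apply, xb3_sum h1 h2 h3 fun z e1 e2 e3 => ?_, hr.2.1, hr.2.2.1, hr.2.2.2.1, h.cyc ho hu]
  · ring
  · by_cases hz : z ∈ M.E
    · simp [hr.2.2.2.2 z hz e1 e2 e3]
    · rcases ho.out z hz with h4 | h4
      · simp [h4 u hu]
      · simp [h4 r hr.1]

end dat

theorem YDat.rel_left (h : YDat M T a b c B ib ic M' T') (ho : Obj M T x y U W)
    (hv : Val φ U W) : ∃ γ φ', YRel M T a b c B ib ic x y U W (φ - gf γ) φ' := by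
  obtain ⟨h1, h2, h3, -⟩ := h.triad
  obtain ⟨r, hr⟩ := h.exists_row ho
  obtain ⟨p, q, hl⟩ := xb3_two (U := U) (b := b) (c := c) (l := φ.flip r) fun u hu e2 e3 =>
    hv u hu r hr.1 (ho.pair.dis hu hr.1 fun z hz => by
      by_cases e1 : z = a
      · left; rw [e1, h.cyc ho hu, e2, e3]; simp
      by_cases e4 : z = b
      · exact Or.inl (e4 ▸ e2)
      by_cases e5 : z = c
      · exact Or.inl (e5 ▸ e3)
      exact Or.inr (hr.2.2.2.2 z hz e1 e4 e5))
  refine ⟨xb3V a b c 0 (p * y ib) (q * y ic), (φ - gf (xb3V a b c 0 (p * y ib) (q * y ic))).compl₁₂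
    (ydQ a b c (x (T B a b)) (x (T B a c)) (x ib) (x ic)) (xb3Z a),
    xb3_kill h ho hr fun u hu => ?_, fun u _ w hw => ?_⟩
  · have h4 : φ u r = _ := hl u hu
    simp only [LinearMap.sub_apply, h4, xb3_gf h1 h2 h3, hr.2.2.1, hr.2.2.2.1]
    linear_combination (-p * u b) * xb3_ib h y - q * u c * xb3_ic h y
  · rw [LinearMap.compl₁₂_apply, xb3_ZP (hw.2 a rfl)]

theorem YDat.rel_right (h : YDat M T a b c B ib ic M' T') (hi : M.Indep {a, b, c})
    (ho : Obj M T x y U W) (hv : Val φ' (ydU T a b c B ib ic x U) (ydW a b c ib ic y W)) :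
    ∃ γ φ, YRel M T a b c B ib ic x y U W φ (φ' - gf γ) := by
  obtain ⟨h1, h2, h3, -⟩ := h.triad
  obtain ⟨r, hr⟩ := h.exists_row ho
  obtain ⟨p, q, hl⟩ := xb3_two (U := van W {a}) (b := b) (c := c)
    (l := φ' (xb3V a b c 1 (-x ib) (x ic)) ∘ₗ ydP a b c (y ib) (y ic)) fun w hw e2 e3 =>
    hv _ (xb3_tU h) _ ⟨w, hw, rfl⟩ fun z => by
      by_cases e1 : z = a
      · right; rw [e1, ydP_a, e2, e3]; simp
      by_cases e4 : z = b
      · right; rw [ydP_of e1, e4, e2]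
      by_cases e5 : z = c
      · right; rw [ydP_of e1, e5, e3]
      exact Or.inl (xb3V_of e1 e4 e5 _ _ _)
  refine ⟨xb3V a b c 0 (-p * x (T B a b)) (q * x (T B a c)),
    (φ' - gf (xb3V a b c 0 (-p * x (T B a b)) (q * x (T B a c)))).compl₁₂ (xb3Z a)
      (ydP a b c (y ib) (y ic) ∘ₗ (LinearMap.id - (co a).smulRight r)),
    xb3_kill h ho hr fun u _ => by simp [hr.2.1], fun u _ w hw => ?_⟩
  have h4 : φ' _ (ydP a b c (y ib) (y ic) w) = _ := hl w hw
  have h5 : w a = 0 := hw.2 a rfl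
  simp only [LinearMap.compl₁₂_apply, xb3_ZQ h, LinearMap.comp_apply, LinearMap.sub_apply,
    LinearMap.id_apply, LinearMap.smulRight_apply, co_apply, h5, zero_smul, sub_zero, map_sub,
    map_smul, LinearMap.smul_apply, h4, xb3_gf h1 h2 h3, xb3V_b h1, xb3V_c h2 h3, ydP_of h1.symm,
    ydP_of h2.symm, smul_eq_mul]
  linear_combination (-u a * p * w b) * xb3_ib h x - u a * q * w c * xb3_ic h x

theorem YDat.val_iff (h : YDat M T a b c B ib ic M' T') (ho : Obj M T x y U W)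
    (hr : YRel M T a b c B ib ic x y U W φ φ') :
    Val φ U W ↔ Val φ' (ydU T a b c B ib ic x U) (ydW a b c ib ic y W) := by
  obtain ⟨h1, h2, h3, -⟩ := h.triad
  obtain ⟨r, hs⟩ := h.exists_row ho
  have hk : ∀ u ∈ U, φ u r = 0 := fun u hu => hr.kill u hu r hs.1 hs.2.2.2.2
  have key : ∀ {u w : E → F}, (u a = 0 ∨ w a = 0) → (u b = 0 ∨ w b = 0) → (u c = 0 ∨ w c = 0) →
      (∀ z, z ≠ a → z ≠ b → z ≠ c → u z = 0 ∨ w z = 0) → Dis u w := fun e1 e2 e3 e4 z => by
    by_cases d1 : z = a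
    · rwa [d1]
    by_cases d2 : z = b
    · rwa [d2]
    by_cases d3 : z = c
    · rwa [d3]
    exact e4 z d1 d2 d3
  constructor
  · rintro hv u hu _ ⟨w, hw, rfl⟩ hd
    have d1 := hd a
    have d2 := hd b
    have d3 := hd c
    rw [ydP_a] at d1
    rw [ydP_of h1.symm] at d2
    rw [ydP_of h2.symm] at d3
    have h5 : w a = 0 := hw.2 a rfl
    obtain ⟨s, e1, e2, e3⟩ : ∃ s : F, (-(x (T B a b) * u b) - x (T B a c) * u c = 0 ∨ s = 0) ∧
        (u b + x ib * u a = 0 ∨ w b + s * y (T B a b) = 0) ∧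
        (u c - x ic * u a = 0 ∨ w c + s * y (T B a c) = 0) := by
      rcases d1 with d1 | d1
      · exact ⟨0, Or.inr rfl, by simpa [d1] using d2, by simpa [d1] using d3⟩
      · refine ⟨-(y ib * w b), ?_, Or.inr (by linear_combination (-w b) * xb3_ib h y),
          Or.inr (by linear_combination (-w c) * xb3_ic h y - y (T B a c) * d1)⟩
        rcases d2 with d2 | d2
        · rcases d3 with d3 | d3
          · left; simp [d2, d3]
          · right; linear_combination -d1 - y ic * d3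
        · right; simp [d2]
    have h6 := hv _ hu _ (W.add_mem hw.1 (W.smul_mem s hs.1)) (key
      (by simpa [ydQ_a, h5, hs.2.1] using e1) (by simpa [ydQ_b h1, hs.2.2.1] using e2)
      (by simpa [ydQ_c h2 h3, hs.2.2.2.1] using e3) fun z e1 e2 e3 => by
        by_cases hz : z ∈ M.E
        · simpa [ydQ_of e1 e2 e3, ydP_of e1, hs.2.2.2.2 z hz e1 e2 e3] using hd z
        · exact (ho.out z hz).imp (fun h => h _ hu) fun h => h _ (W.add_mem hw.1
            (W.smul_mem s hs.1)))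
    rw [hr.rel u hu w hw]
    simpa [hk _ hu] using h6
  · intro hv u hu w hw hd
    have d1 := hd a
    have d2 := hd b
    have d3 := hd c
    have d4 := h.cyc ho hu
    obtain ⟨s, e1, e2, e3⟩ : ∃ s : F, (s = 0 ∨ y ib * (w b - w a * y (T B a b)) -
        y ic * (w c - w a * y (T B a c)) = 0) ∧
        (u b - s * x ib = 0 ∨ w b - w a * y (T B a b) = 0) ∧
        (u c + s * x ic = 0 ∨ w c - w a * y (T B a c) = 0) := by
      rcases d1 with d1 | d1
      · refine ⟨x (T B a b) * u b, ?_, Or.inl (by linear_combination (-u b) * xb3_ib h x),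
          Or.inl (by linear_combination (-u c) * xb3_ic h x + x ic * d4 - x ic * d1)⟩
        rcases d2 with d2 | d2
        · left; simp [d2]
        · rcases d3 with d3 | d3
          · left; linear_combination d4 - d1 - x (T B a c) * d3
          · right
            linear_combination y ib * d2 - y ic * d3 - w a * xb3_ib h y + w a * xb3_ic h y
      · exact ⟨0, Or.inl rfl, by simpa [d1] using d2, by simpa [d1] using d3⟩
    have h5 : ydQ a b c (x (T B a b)) (x (T B a c)) (x ib) (x ic)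
        (xb3Z a u + s • xb3V a b c 1 (-x ib) (x ic)) = u := by
      rw [map_add, map_smul, xb3_Qt h, xb3_QZ h ho hu, smul_zero, add_zero]
    have h6 : xb3Z a u + s • xb3V a b c 1 (-x ib) (x ic) ∈ ydU T a b c B ib ic x U := by
      rwa [Submodule.mem_comap, h5]
    have h7 := hv _ h6 _ ⟨_, xb3_van hs hw, rfl⟩ (key
      (by simpa [xb3Z_a, xb3V_a, ydP_a, hs.2.2.1, hs.2.2.2.1] using e1)
      (by simpa [xb3Z_of h1.symm, xb3V_b h1, ydP_of h1.symm, hs.2.2.1, ← sub_eq_add_neg] using e2)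
      (by simpa [xb3Z_of h2.symm, xb3V_c h2 h3, ydP_of h2.symm, hs.2.2.2.1] using e3)
      fun z e1 e2 e3 => by
        rw [ydP_of e1, Pi.add_apply, Pi.smul_apply, xb3Z_of e1, xb3V_of e1 e2 e3, smul_zero,
          add_zero]
        by_cases hz : z ∈ M.E
        · simpa [hs.2.2.2.2 z hz e1 e2 e3] using hd z
        · exact (ho.out z hz).imp (fun h => h _ hu) fun h => h _ (xb3_van hs hw).1)
    rw [hr.rel _ h6 _ (xb3_van hs hw), h5] at h7
    simpa [hk _ hu] using h7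

theorem YDat.gauge_iff (h : YDat M T a b c B ib ic M' T') (hi : M.Indep {a, b, c})
    (ho : Obj M T x y U W) (hr : YRel M T a b c B ib ic x y U W φ φ') :
    Gauge φ U W ↔ Gauge φ' (ydU T a b c B ib ic x U) (ydW a b c ib ic y W) := by
  classical
  obtain ⟨h1, h2, h3, -⟩ := h.triad
  obtain ⟨r, hs⟩ := h.exists_row ho
  have hk : ∀ u ∈ U, φ u r = 0 := fun u hu => hr.kill u hu r hs.1 hs.2.2.2.2
  refine exists_congr fun γ => ⟨fun hg => ?_, fun hg => ?_⟩
  · rintro u hu _ ⟨w, hw, rfl⟩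
    obtain ⟨u1, m1, b1, -, c1⟩ := ho.exists_col h.base (xb3_bE h) h.hb
    obtain ⟨u2, m2, b2, -, c2⟩ := ho.exists_col h.base (xb3_cE h) h.hc
    have e1 := xb3_gfr h ho hs γ m1
    have e2 := xb3_gfr h ho hs γ m2
    rw [← hg _ m1 _ hs.1, hk _ m1, b1, c1 c (xb3_cE h) h.hc h3.symm] at e1
    rw [← hg _ m2 _ hs.1, hk _ m2, b2, c2 b (xb3_bE h) h.hb h3] at e2
    rw [hr.rel u hu w hw, hg _ hu _ hw.1, xb3_id h1 h2 h3 γ u (hw.2 a rfl) _ _ _ _ (y ib) (y ic)]
    linear_combination (-u a * w b * x ib * y ib) * e1 + (u a * w c * x ic * y ic) * e2 -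
      (u a * w b * γ b * x ib) * xb3_ib h y + (u a * w b * γ a * y ib) * xb3_ib h x +
      (u a * w c * γ c * x ic) * xb3_ic h y - (u a * w c * γ a * y ic) * xb3_ic h x
  · have e0 : ∀ w ∈ van W {a}, w b * (γ b * x ib - γ a * y ib) -
        w c * (γ c * x ic - γ a * y ic) = 0 := fun w hw => by
      have e := xb3_id h1 h2 h3 γ (xb3V a b c 1 (-x ib) (x ic)) (hw.2 a rfl) (x (T B a b))
        (x (T B a c)) (x ib) (x ic) (y ib) (y ic)
      rw [← hg _ (xb3_tU h) _ ⟨w, hw, rfl⟩, hr.rel _ (xb3_tU h) w hw, xb3_Qt h, xb3V_a] at e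
      simpa using e.symm
    obtain ⟨w1, m1, b1⟩ := ho.pair.coc.ext _ hi (xb3V a b c 0 1 0)
    obtain ⟨w2, m2, b2⟩ := ho.pair.coc.ext _ hi (xb3V a b c 0 0 1)
    have e1 := e0 w1 (mem_van_one.2 ⟨m1, by rw [b1 a (by simp), xb3V_a]⟩)
    have e2 := e0 w2 (mem_van_one.2 ⟨m2, by rw [b2 a (by simp), xb3V_a]⟩)
    rw [b1 b (by simp), b1 c (by simp), xb3V_b h1, xb3V_c h2 h3] at e1
    rw [b2 b (by simp), b2 c (by simp), xb3V_b h1, xb3V_c h2 h3] at e2
    intro u hu w hw
    have e3 : gf γ u r = 0 := by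
      rw [xb3_gfr h ho hs γ hu]
      linear_combination (u b * x (T B a b) * y (T B a b)) * e1 -
        (u c * x (T B a c) * y (T B a c)) * e2 -
        (u b * γ b * y (T B a b)) * xb3_ib h x + (u b * γ a * x (T B a b)) * xb3_ib h y -
        (u c * γ c * y (T B a c)) * xb3_ic h x + (u c * γ a * x (T B a c)) * xb3_ic h y
    have h5 := xb3_QZ h ho hu
    have h6 : xb3Z a u ∈ ydU T a b c B ib ic x U := by rwa [Submodule.mem_comap, h5]
    have h7 := hr.rel _ h6 _ (xb3_van hs hw)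
    have h8 := xb3_id h1 h2 h3 γ (xb3Z a u) ((xb3_van hs hw).2 a rfl) (x (T B a b))
      (x (T B a c)) (x ib) (x ic) (y ib) (y ic)
    rw [← hg _ h6 _ ⟨_, xb3_van hs hw, rfl⟩, h7, h5, xb3Z_a] at h8
    simpa [hk _ hu, e3] using h8.symm

theorem YDat.rel_dfm (h : YDat M T a b c B ib ic M' T') (ho : Obj M T x x U W) (v : F × F) :
    ∃ γ, YRel M T a b c B ib ic x x U W (dfm M T x v - gf γ) (dfm M' T' x v - gf γ) := by
  obtain ⟨h1, h2, h3, -⟩ := h.triad
  obtain ⟨r, hs⟩ := h.exists_row ho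
  have hB : B \ {a} ∪ {a} = B := sdiff_union_of_subset (singleton_subset_iff.2 h.ha)
  have hop : Op M {a} ∅ := ⟨h.base.indep.subset (singleton_subset_iff.2 h.ha),
    M✶.empty_indep, disjoint_empty _⟩
  have hB' : (mn M {a} ∅).IsBase (B \ {a}) :=
    hop.isBase_iff.2 ⟨by rw [hB]; exact h.base, disjoint_sdiff_left, disjoint_empty _⟩
  have hT : ∀ g e, g ≠ a → e ≠ a → mnT {a} ∅ T (B \ {a}) g e = T B g e := fun g e e1 e2 => by
    simp [mnT, delT, conT, e1, e2, h.ha]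
  have d1 : der x v ib = -der x v (T B a b) * x ib ^ 2 := by
    have e := congrArg (der x v) h.ib1
    rw [der_mul, der_one] at e
    linear_combination x ib * e - der x v ib * xb3_ib h x
  have d2 : der x v ic = -der x v (T B a c) * x ic ^ 2 := by
    have e := congrArg (der x v) h.ic1
    rw [der_mul, der_one] at e
    linear_combination x ic * e - der x v ic * xb3_ic h x
  refine ⟨xb3V a b c 0 (der x v (T B a b) * x ib) (der x v (T B a c) * x ic),
    xb3_kill h ho hs fun u hu => ?_, fun u hu w hw => ?_⟩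
  · simp only [LinearMap.sub_apply]
    rw [ho.dfm_base h.base v u hu r hs.1, mf_apply, Finset.sum_eq_single a, xb3_sum h1 h2 h3,
      xb3_gf h1 h2 h3, hs.2.1, hs.2.2.1, hs.2.2.2.1]
    · simp only [Matrix.map_apply, h.tab.diag B h.base a h.ha, der_one]
      linear_combination (-der x v (T B a b) * u b) * xb3_ib h x -
        der x v (T B a c) * u c * xb3_ic h x
    · intro z e1 e2 e3
      simp [h.row e1 e2 e3]
    · intro g _ e1
      by_cases hg : g ∈ B
      · simp [hs.2.2.2.2 g (h.base.subset_ground hg) e1 (fun e => h.hb (e ▸ hg))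
          fun e => h.hc (e ▸ hg)]
      · simp [h.tab.row h.base hg]
    · simp
  · have h5 : w a = 0 := hw.2 a rfl
    have e1 := ho.coc.row w hw.1 B h.base b (xb3_bE h)
    have e2 := ho.coc.row w hw.1 B h.base c (xb3_cE h)
    have e3 : mf ((T B).map (der x v)) (ydQ a b c (x (T B a b)) (x (T B a c)) (x ib) (x ic) u) w -
        mf ((T' (B \ {a})).map (der x v)) u (ydP a b c (x ib) (x ic) w) =
        u a * (w c * der x v ic - w b * der x v ib) := by
      rw [e1, e2, mf_apply, mf_apply, ← Finset.sum_sub_distrib, Finset.sum_mul, Finset.sum_mul,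
        ← Finset.sum_sub_distrib, Finset.mul_sum]
      refine Finset.sum_congr rfl fun g _ => ?_
      by_cases hg : g = a
      · simp [hg, h5, h.ext.tab.row (h.ext.base _ hB') (show a ∉ B \ {a} by simp)]
      have e4 : T' (B \ {a}) g a = T B g b * ib - T B g c * ic := by
        rw [h.ext.new _ hB', Finset.sum_eq_add b c h3, hT g b hg h1.symm, hT g c hg h2.symm]
        · simp [ydC, h3.symm, sub_eq_add_neg]
        · intro z _ hz
          simp [ydC, hz.1, hz.2]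
        · simp
        · simp
      rw [← Finset.sum_sub_distrib, xb3_sum h1 h2 h3 fun z z1 z2 z3 => by
        simp [ydQ_of z1 z2 z3, ydP_of hg, h.ext.old _ hB' g z z1, hT g z hg z1]]
      simp only [Matrix.map_apply, ydP_of hg, e4, h.ext.old _ hB' g b h1.symm,
        h.ext.old _ hB' g c h2.symm, hT g b hg h1.symm, hT g c hg h2.symm, ydQ_b h1, ydQ_c h2 h3,
        h.tab.off h.base h.ha hg, der_zero, der_sub, der_mul]
      ring
    simp only [LinearMap.sub_apply]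
    rw [(h.obj ho).dfm_base (h.ext.base _ hB') v u hu _ ⟨w, hw, rfl⟩,
      ho.dfm_base h.base v _ hu w hw.1, xb3_id h1 h2 h3 _ u h5 _ _ _ _ (x ib) (x ic), xb3V_a,
      xb3V_b h1, xb3V_c h2 h3]
    rw [d1, d2] at e3
    linear_combination -e3

end Pool.Agent.Lib.MP_10bdcf_co.G
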