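import Pool.Agent.Lib.MP_10bdcf_co.XB3

/-!
The step of the induction for a matroid with a triad.
-/

namespace Pool.Agent.Lib.MP_10bdcf_co.G

open scoped Matroid
open Set

set_option linter.unusedSectionVars false

variable {E F : Type} [Fintype E] [Field F] {M M' : Matroid E} {T T' : Set E → Matrix E E R0}
  {x : R0 →+* F} {B : Set E} {a b c : E} {ib ic : R0} {v : F × F}

theorem Con3.indep_triad (hc : Con3 M) (hn : 5 ≤ M.E.ncard) (ht : Tri M✶ a b c) :
    M.Indep {a, b, c} := by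
  have hco : M.IsCocircuit {a, b, c} := ht.2.2.2
  have hs : ({a, b, c} : Set E) ⊆ M.E := hco.subset_ground
  have h1 := lam_add M {a, b, c}
  have h2 := isCocircuit_rk hco
  have h3 := cb_three ht.1 ht.2.1 ht.2.2.1
  have h4 := cc_card hs
  have h5 := hc.le_lam hs le_rfl (by omega) (by omega)
  have h6 := rk_le_ncard M {a, b, c}
  exact indep_iff_rk.2 (by omega)

theorem xb4_gauge {φ : Fm F E} {U W : Sb F E} (γ : E → F) :
    Gauge (φ - gf γ) U W ↔ Gauge φ U W := by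
  refine ⟨fun h => ?_, fun h => h.sub (gauge_gf γ U W)⟩
  have e : φ - gf γ + gf γ = φ := by abel
  exact e ▸ h.add (gauge_gf γ U W)

theorem xb4_val {φ : Fm F E} {U W : Sb F E} (γ : E → F) :
    Val (φ - gf γ) U W ↔ Val φ U W := by
  refine ⟨fun h => ?_, fun h => h.sub (val_gf γ U W)⟩
  have e : φ - gf γ + gf γ = φ := by abel
  exact e ▸ h.add (val_gf γ U W)

theorem YDat.kv_iff (h : YDat M T a b c B ib ic M' T') (hi : M.Indep {a, b, c}) :
    Kv M T x v ↔ Kv M' T' x v := by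
  obtain ⟨U, W, ho, -⟩ := h.tab.exists_obj x x
  obtain ⟨γ, hr⟩ := h.rel_dfm ho v
  rw [← ho.k_iff, ← (h.obj ho).k_iff, ← xb4_gauge γ, h.gauge_iff hi ho hr, xb4_gauge]

theorem YDat.good (h : YDat M T a b c B ib ic M' T') (hc : Con3 M) (hn : 5 ≤ M.E.ncard)
    (hg : GoodT M' T') : GoodT M T := by
  have hi := hc.indep_triad hn h.triad
  have hT' : U2 M' T' := h.ext.tab
  refine ⟨fun F _ x U W ho φ hφ => ?_, fun hR => ?_, fun hR F _ x y U W htw ho => ?_⟩
  · obtain ⟨γ, φ', hr⟩ := h.rel_left ho hφ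
    obtain ⟨v, hv⟩ := hg.up F x _ _ (h.obj ho) φ' ((h.val_iff ho hr).1 ((xb4_val γ).2 hφ))
    obtain ⟨δ, hd⟩ := h.rel_dfm ho v
    have h1 : Gauge (φ' - (dfm M' T' x v - gf δ)) (ydU T a b c B ib ic x U)
        (ydW a b c ib ic x W) := by
      have e : φ' - (dfm M' T' x v - gf δ) = φ' - dfm M' T' x v + gf δ := by abel
      rw [e]
      exact hv.add (gauge_gf δ _ _)
    have h2 := ((h.gauge_iff hi ho (hr.sub hd)).2 h1).add (gauge_gf (γ - δ) U W)
    refine ⟨v, ?_⟩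
    have e : φ - gf γ - (dfm M T x v - gf δ) + gf (γ - δ) = φ - dfm M T x v := by
      rw [gf_sub]
      abel
    rwa [e] at h2
  · have hR' : ¬ HasR M' := fun h' => hR (h.yd.frame hc hn h')
    obtain ⟨v, hv, hk⟩ := hg.one.exists_kv hT' hR' s4
    exact (((h.kv_iff hi).2 hk).oneT h.tab hv) hR
  · have hR' : HasR M' := by_contra fun h' => by
      obtain ⟨v, hv, hk⟩ := hg.one.exists_kv hT' h' x
      exact hv (hR.kv_zero h.tab ((h.kv_iff hi).2 hk))
    obtain ⟨φ', h1, h2⟩ := hg.ex hR' F x y _ _ htw (h.obj ho)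
    obtain ⟨γ, φ, hr⟩ := h.rel_right hi ho h1
    exact ⟨φ, (h.val_iff ho hr).2 ((xb4_val γ).2 h1),
      fun h3 => h2 ((xb4_gauge γ).1 ((h.gauge_iff hi ho hr).1 h3))⟩

theorem step_triad (h1 : IHr (rk M M.E)) (hc : Con3 M) (hn : 5 ≤ M.E.ncard) (ht : Tri M✶ a b c) :
    GoodM M := by
  intro T hT
  obtain ⟨B, ib, ic, M', T', h⟩ := exists_yDat hT ht
  have hr := h.yd.rank
  exact h.good hc hn ((h.yd.v3 hc hn).v3L.good (h1.hg (by omega)) T' h.ext.tab)

end Pool.Agent.Lib.MP_10bdcf_co.G
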