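import Pool.Agent.Lib.MP_10bdcf_co.UN
import Pool.Agent.Lib.MP_10bdcf_co.CB

/-!
A triangle with two free points: the matroid part.
-/

namespace Pool.Agent.Lib.MP_10bdcf_co.G

open scoped Matroid
open Set

set_option linter.unusedSectionVars false

variable {E : Type} [Fintype E] {M : Matroid E} {T : Set E → Matrix E E R0} {I J S X : Set E}
  {e f g : E}

/-- The point `e` of the triangle `e f g` is free on its line. -/
def FreeT (M : Matroid E) (e f g : E) : Prop :=
  ∀ X ⊆ M.E \ {e, f, g}, e ∈ M.closure X → f ∈ M.closure X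

/-- The product of the coordinate `f` of cycles and the coordinate `g` of cocycles is not
trivially diagonal on the minor `M / I \ J \ e`. -/
structure NonDeg (M : Matroid E) (e f g : E) (I J : Set E) : Prop where
  n1 : f ∉ J
  n2 : f ∈ M.closure (M.E \ (J ∪ {e, f}))
  n3 : g ∉ M.closure I
  n4 : ∀ s ∈ M.E \ (I ∪ J ∪ {e}), g ∈ M.closure (insert s I) →
    f ≠ s ∧ f ∈ M.closure (M.E \ (J ∪ {e, f, s}))

/-- `Y` is independent over `X`. -/
def Xc1F (M : Matroid E) (X Y : Set E) : Prop := rk M (X ∪ Y) = rk M X + Y.ncard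

section aux

variable {Y Z A B P Q : Set E} {z : E} {k : ℕ}

theorem xc1_le (M : Matroid E) (X Y : Set E) : rk M (X ∪ Y) ≤ rk M X + Y.ncard :=
  (rk_union_le M X Y).trans (Nat.add_le_add_left (rk_le_ncard M Y) _)

theorem Xc1F.mono (h : Xc1F M X Y) (hZ : Z ⊆ Y) : Xc1F M X Z := by
  have a1 := xc1_le M (X ∪ Z) (Y \ Z)
  have a2 := xc1_le M X Z
  have a3 := cc_card hZ
  rw [union_assoc, union_sdiff_cancel hZ] at a1
  unfold Xc1F at *
  omega

theorem Xc1F.ins (h : Xc1F M X Y) (hz : z ∈ M.E) (hn : z ∉ M.closure (X ∪ Y)) :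
    Xc1F M X (insert z Y) := by
  have a1 := rk_insert_of_notMem hz hn
  have a2 := ncard_insert_of_notMem
    (show z ∉ Y from fun hy => hn (M.inter_ground_subset_closure _ ⟨Or.inr hy, hz⟩))
  unfold Xc1F at *
  rw [union_insert]
  omega

theorem Xc1F.notMem (h : Xc1F M X (insert z Y)) (hz : z ∉ Y) : z ∉ M.closure (X ∪ Y) := fun hc => by
  have a1 := rk_insert_of_mem hc
  have a2 := ncard_insert_of_notMem hz
  have a3 := xc1_le M X Y
  unfold Xc1F at h
  rw [union_insert] at h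
  omega

theorem Xc1F.modular (h : Xc1F M X (A ∪ B)) (h1 : z ∈ M.closure (X ∪ A))
    (h2 : z ∈ M.closure (X ∪ B)) : z ∈ M.closure (X ∪ A ∩ B) := by
  have a1 := rk_submod' M (X := insert z (X ∪ A)) (Y := insert z (X ∪ B))
    (P := insert z (X ∪ A ∩ B)) (Q := X ∪ (A ∪ B)) (by grind) (by grind) (by grind)
  have a2 := rk_insert_of_mem h1
  have a3 := rk_insert_of_mem h2
  have a4 := xc1_le M X A
  have a5 := xc1_le M X B
  have a6 : Xc1F M X (A ∩ B) := h.mono (by grind)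
  have a7 := ncard_union_add_ncard_inter A B
  have a8 := rk_mono M (subset_insert z (X ∪ A ∩ B))
  rw [mem_closure_iff_rk (M.closure_subset_ground _ h1)]
  unfold Xc1F at *
  omega

theorem Xc1F.dis (h : Xc1F M X Y) (hY : Y ⊆ M.E) : Disjoint X Y :=
  disjoint_left.2 fun z hX hz => (h.mono (show insert z ∅ ⊆ Y by simpa using hz)).notMem
    (notMem_empty z) (M.inter_ground_subset_closure _ ⟨Or.inl hX, hY hz⟩)

theorem xc1_tri (h : Tri M e f g) (hf : f ∈ M.closure X) (hg : g ∈ M.closure X) :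
    e ∈ M.closure X := by
  have a1 := cb_cl h hf hg Subset.rfl
  have a2 := rk_mono M (subset_insert e (M.closure X))
  rw [← M.closure_closure, mem_closure_iff_rk (h.2.2.2.subset_ground (mem_insert _ _))]
  omega

theorem xc1_rot (h : Tri M e f g) : Tri M g e f :=
  ⟨h.2.1.symm, h.2.2.1.symm, h.1, by
    rw [show ({g, e, f} : Set E) = {e, f, g} by grind]
    exact h.2.2.2⟩

theorem xc1_rank (h : Tri M e f g) : rk (M ＼ {e}) (M ＼ {e}).E = rk M M.E := by
  have hE := h.2.2.2.subset_ground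
  have := h.1
  have := h.2.1
  rw [Matroid.delete_ground, rk_delete disjoint_sdiff_left]
  exact le_antisymm (rk_le_rank M _) (cb_cl h (by grind) (by grind) (by grind))

theorem xc1_P6 (hT : U2 M T) (hP : P ⊆ M.E) (h6 : P.ncard = 6) (hr : rk M (X ∪ P) = rk M X + 3)
    (h : ∀ Y ⊆ P, Y.ncard = 3 → ¬ Xc1F M X Y → ∀ Z ⊆ P, Z.ncard = 3 → ¬ Xc1F M X Z → Y = Z) :
    False := by
  obtain ⟨D, hD, h3, hf⟩ : ∃ D ⊆ P, D.ncard = 3 ∧ ∀ Y ⊆ P, Y.ncard = 3 → Y ≠ D → Xc1F M X Y := by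
    by_cases hb : ∃ D ⊆ P, D.ncard = 3 ∧ ¬ Xc1F M X D
    · obtain ⟨D, hD, h3, hb⟩ := hb
      exact ⟨D, hD, h3, fun Y hY c hne => by_contra fun hY' => hne (h Y hY c hY' D hD h3 hb)⟩
    · obtain ⟨D, hD, h3⟩ := exists_subset_card_eq (show 3 ≤ P.ncard by omega)
      exact ⟨D, hD, h3, fun Y hY c _ => by_contra fun hY' => hb ⟨Y, hY, c, hY'⟩⟩
  have a1 := cc_card hD
  obtain ⟨a, b, c, -, -, -, e1⟩ := ncard_eq_three.1 h3
  obtain ⟨a', b', c', -, -, -, e2⟩ := ncard_eq_three.1 (show (P \ D).ncard = 3 by omega)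
  have e3 : range ![a, b, c, a', b', c'] = P := by
    rw [← union_sdiff_cancel hD, e2, e1]
    ext x
    simp only [Matrix.range_cons, Matrix.range_empty, mem_union, mem_insert_iff, mem_singleton_iff,
      mem_empty_iff_false]
    tauto
  have hl : ∀ l : Fin 6, 3 ≤ l → ![a, b, c, a', b', c'] l ∈ P \ D := fun l hl => by
    rw [e2]
    fin_cases l <;> simp at hl ⊢
  generalize ![a, b, c, a', b', c'] = p at e3 hl
  have hi : Function.Injective p := injOn_univ.1 (injOn_of_ncard_image_eq (by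
    rw [image_univ, e3, h6, ncard_univ, Nat.card_eq_fintype_card, Fintype.card_fin]))
  have hm : ∀ i, p i ∈ P := fun i => e3 ▸ mem_range_self i
  refine no_P6 hT (X := X) p (fun i => hP (hm i)) (e3 ▸ hr) fun i j l h1 h2 h3 => ?_
  have c3 : ({p i, p j, p l} : Set E).ncard = 3 :=
    cb_three (hi.ne h1.ne) (hi.ne (h1.trans h2).ne) (hi.ne h2.ne)
  exact (hf _ (by grind) c3 fun e => (hl l h3).2 (e ▸ by simp)).trans (by rw [c3])

theorem xc1_set {a b : E} (hX : X ⊆ Z) (hP : P ⊆ Z) (hd : Disjoint X P) (ha : a ∈ P) (hb : b ∈ P) :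
    Z \ (Z \ (X ∪ P) ∪ {a, b}) = X ∪ P \ {a, b} := by
  rw [disjoint_left] at hd
  grind

theorem xc1_U46 (hT : U2 M T) (hP : P ⊆ M.E) (h6 : P.ncard = 6) (hr : rk M (X ∪ P) = rk M X + 4)
    (h : ∀ a ∈ P, ∀ b ∈ P, a ≠ b → rk M (X ∪ P \ {a, b}) = rk M X + 4) : False := by
  obtain ⟨K, r1, r2⟩ := un_reduce M X P
  have hc : ∀ a ∈ P, ∀ b ∈ P, a ≠ b → (P \ {a, b}).ncard = 4 := fun a ha b hb hne => by
    have := cc_card (pair_subset ha hb)
    rw [ncard_pair hne] at this
    omega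
  have r0 : rk M K = K.ncard := by
    have := r2 ∅ (empty_subset _)
    rw [union_empty, union_empty] at this
    omega
  have hK : K ⊆ M.E := (indep_iff_rk.2 r0).subset_ground
  have hd : Disjoint K P := disjoint_right.2 fun x hx => by
    obtain ⟨a, ha, b, hb, hne⟩ := (one_lt_ncard (s := P \ {x})).1 (by
      have := ncard_sdiff_singleton_add_one hx
      omega)
    have a1 := h a ha.1 b hb.1 hne
    have a2 := r2 _ (sdiff_subset (t := {a, b}))
    have a3 := hc a ha.1 b hb.1 hne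
    exact disjoint_right.1 (Xc1F.dis (M := M) (X := K) (Y := P \ {a, b}) (by unfold Xc1F; omega)
      (sdiff_subset.trans hP)) (by grind)
  have c1 := cc_card (union_subset hK hP)
  have c2 := ncard_union_eq hd
  have c3 := rk_dual_ground M
  have c4 := rk_dual (M := M) (X := M.E \ (K ∪ P)) sdiff_subset
  have c5 := r2 P Subset.rfl
  rw [sdiff_sdiff_cancel_left (union_subset hK hP)] at c4
  have := Line.le_five (I := M.E \ (K ∪ P)) (S := P) hT.dual
    ⟨indep_iff_rk.2 (by omega), by rw [Matroid.dual_ground]; omega, hP, fun a ha b hb hne => by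
      have a1 := h a ha b hb hne
      have a2 := r2 _ (sdiff_subset (t := {a, b}))
      have a3 := rk_dual (M := M) (X := M.E \ (K ∪ P) ∪ {a, b}) (by grind)
      have a4 := ncard_union_eq (show Disjoint (M.E \ (K ∪ P)) {a, b} by grind)
      rw [xc1_set hK hP hd ha hb] at a3
      rw [ncard_pair hne] at a4
      omega⟩
  omega

theorem xc1_frame (hX : rk M X = X.ncard) (hr : rk M M.E = X.ncard + 3) (hP : P ⊆ M.E)
    (h5 : P.ncard = 5) (h : ∀ Y ⊆ P, Y.ncard = 3 → Xc1F M X Y) : Frame M X (M.E \ (X ∪ P)) := by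
  have hE := (indep_iff_rk.2 hX).subset_ground
  have hs : ∀ Y ⊆ P, Y.ncard ≤ 3 → Xc1F M X Y := fun Y hY c => by
    obtain ⟨Z, h1, h2, h3⟩ := exists_subsuperset_card_eq hY c (show 3 ≤ P.ncard by omega)
    exact (h Z h2 h3).mono h1
  have hb : ∀ Y ⊆ P, 3 ≤ Y.ncard → rk M (X ∪ Y) = rk M M.E := fun Y hY c => by
    obtain ⟨Z, h1, h2⟩ := exists_subset_card_eq c
    have a1 : _ = _ := h Z (h1.trans hY) h2
    have a2 := un_mono M X _ _ h1
    have a3 := rk_le_rank M (X ∪ Y)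
    omega
  have hd : Disjoint X P := disjoint_right.2 fun x hx => disjoint_right.1
    ((hs {x} (by simpa using hx) (by simp)).dis (by simpa using hP hx)) rfl
  have h2 : M.E \ (X ∪ M.E \ (X ∪ P)) = P := by grind
  refine frame_of_rk ⟨indep_iff_rk.2 hX, (coindep_iff_rk sdiff_subset).2 ?_,
    disjoint_sdiff_right.mono_left subset_union_left⟩ (by rw [h2, h5]) (Or.inr hr.symm) ?_
  · rw [sdiff_sdiff_cancel_left (union_subset hE hP)]
    exact hb P Subset.rfl (by omega)
  · rw [h2]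
    intro Y hY
    rw [union_comm]
    rcases le_total Y.ncard 3 with c | c
    · have : _ = _ := hs Y hY c
      omega
    · have := hb Y hY c
      omega

/-- The data of a uniform minor of `M \ e` on `S` of rank `k`. -/
structure Xc1C (M : Matroid E) (e f g : E) (I S : Set E) (k : ℕ) : Prop where
  tri : Tri M e f g
  free : FreeT M e f g
  ind : rk M I = I.ncard
  subI : I ⊆ M.E \ {e}
  subS : S ⊆ M.E \ {e}
  two : 2 ≤ k
  rank : rk M M.E = I.ncard + k
  un : ∀ Y ⊆ S, Y.ncard ≤ k → Xc1F M I Y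
  n1 : f ∈ I ∪ S
  n2 : f ∈ M.closure ((I ∪ S) \ {f})
  n3 : g ∉ M.closure I
  n4 : ∀ s ∈ S, g ∈ M.closure (I ∪ {s}) → f ≠ s ∧ f ∈ M.closure ((I ∪ S) \ {f, s})

theorem xc1_mk (ht : Tri M e f g) (h1 : FreeT M e f g) (hI : (M ＼ {e}).Indep I)
    (hS : S ⊆ M.E \ {e}) (h2 : 2 ≤ k) (hr : rk (M ＼ {e}) (M ＼ {e}).E = I.ncard + k)
    (hu : ∀ Y ⊆ S, Y.ncard ≤ k → rk (M ＼ {e}) (I ∪ Y) = I.ncard + Y.ncard)
    (hn : NonDeg M e f g I ((M.E \ {e}) \ (I ∪ S))) : Xc1C M e f g I S k := by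
  have hE : I ⊆ M.E \ {e} := hI.subset_ground
  have a1 : rk M I = I.ncard := rk_indep (hI.of_delete)
  have hu' : ∀ Y ⊆ S, Y.ncard ≤ k → Xc1F M I Y := fun Y hY c => by
    have := hu Y hY c
    rw [rk_delete (by grind)] at this
    rw [Xc1F, this, a1]
  have hf : f ∈ M.E := ht.2.2.2.subset_ground (by simp)
  have := ht.1
  refine ⟨ht, h1, a1, hE, hS, h2, xc1_rank ht ▸ hr, hu', by have := hn.n1; grind, ?_, hn.n3,
    fun s hs hg => ?_⟩
  · exact M.closure_subset_closure (by grind) hn.n2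
  · have hd := (hu' {s} (by simpa using hs) (by simp; omega)).dis (by grind)
    obtain ⟨b1, b2⟩ := hn.n4 s (by grind) (by rwa [union_singleton] at hg)
    exact ⟨b1, M.closure_subset_closure (by grind) b2⟩

theorem xc1_line (ht : Tri M e f g) (h1 : FreeT M e f g) (hl : Line (M ＼ {e}) I S)
    (h2 : 2 ≤ S.ncard) (hn : NonDeg M e f g I ((M.E \ {e}) \ (I ∪ S))) : Xc1C M e f g I S 2 := by
  refine xc1_mk ht h1 hl.ind hl.sub le_rfl hl.rank (fun Y hY c => ?_) hn
  obtain ⟨Z, a1, a2, a3⟩ := exists_subsuperset_card_eq hY c h2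
  obtain ⟨p, q, hne, rfl⟩ := ncard_eq_two.1 a3
  have a4 := rk_indep hl.ind
  have : Xc1F (M ＼ {e}) I {p, q} := by
    rw [Xc1F, a3, a4]
    exact hl.pair p (a2 (by simp)) q (a2 (by simp)) hne
  exact a4 ▸ this.mono a1

namespace Xc1C

variable (c : Xc1C M e f g I S k)
include c

theorem dis : Disjoint I S := disjoint_right.2 fun x hx => disjoint_right.1
  ((c.un {x} (by simpa using hx) (by have := c.two; simp; omega)).dis
    (by simpa using (c.subS hx).1)) rfl

theorem mem_e : e ∈ M.E := c.tri.2.2.2.subset_ground (by simp)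

theorem mem_f : f ∈ M.E := c.tri.2.2.2.subset_ground (by simp)

theorem mem_g : g ∈ M.E := c.tri.2.2.2.subset_ground (by simp)

theorem g_notMem : g ∉ I := fun h => c.n3 (M.inter_ground_subset_closure _ ⟨h, c.mem_g⟩)

theorem free' (hX : X ⊆ I) (hY : Y ⊆ S) (h1 : f ∉ X) (h2 : f ∉ Y) (h3 : g ∉ Y)
    (he : e ∈ M.closure (X ∪ Y)) : f ∈ M.closure (X ∪ Y) := by
  refine c.free _ ?_ he
  have := c.subI
  have := c.subS
  have := c.g_notMem
  grind

theorem e_notMem (hf : f ∈ S) (hY : Y ⊆ S) (hk : Y.ncard < k) (hfY : f ∉ Y) :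
    e ∉ M.closure (I ∪ Y) := fun he => by
  refine (c.un (insert f Y) (insert_subset hf hY) (ncard_insert_le f Y |>.trans hk)).notMem hfY ?_
  by_cases hg : g ∈ Y
  · exact xc1_tri (cb_swap c.tri) he (M.inter_ground_subset_closure _ ⟨Or.inr hg, c.mem_g⟩)
  · exact c.free' Subset.rfl hY (disjoint_right.1 c.dis hf) hfY hg he

theorem e_notMem' (hf : f ∈ S) : e ∉ M.closure (I ∪ {f}) := fun he =>
  (c.n4 f hf (xc1_tri (xc1_rot c.tri) he
    (M.inter_ground_subset_closure _ ⟨Or.inr rfl, c.mem_f⟩))).1 rfl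

theorem full (hP : I ⊆ P) (hY : Y ⊆ S) (hk : k ≤ Y.ncard) (hYP : Y ⊆ P) : rk M P = rk M M.E := by
  obtain ⟨Z, h1, h2⟩ := exists_subset_card_eq hk
  have a1 : _ = _ := c.un Z (h1.trans hY) h2.le
  have a2 := rk_mono M (union_subset hP (h1.trans hYP))
  have a3 := rk_le_rank M P
  have := c.ind
  have := c.rank
  omega

theorem rk_del (hf : f ∈ I) : rk M (I \ {f}) = (I \ {f}).ncard ∧ rk M (I \ {f}) + 1 = I.ncard := by
  have a1 := rk_indep ((indep_iff_rk.2 c.ind).subset (sdiff_subset (t := {f})))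
  have a2 := ncard_sdiff_singleton_add_one hf
  omega

theorem ins_f (hf : f ∈ I) (hY : Y ⊆ S) (hk : Y.ncard ≤ k) : Xc1F M (I \ {f}) (insert f Y) := by
  have a1 : _ = _ := c.un Y hY hk
  have a2 := (c.rk_del hf).2
  have a3 := ncard_insert_of_notMem (show f ∉ Y from fun h => disjoint_left.1 c.dis hf (hY h))
  have := c.ind
  rw [Xc1F, show I \ {f} ∪ insert f Y = I ∪ Y by grind]
  omega

theorem mixed (hf : f ∈ I) (hQ : Q ⊆ S) (hg : g ∉ Q)
    (h : ∀ Y ⊆ Q, Y.ncard + 1 = k → g ∉ M.closure (I ∪ Y)) (hZ : Z ⊆ insert e (insert f Q))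
    (hk : Z.ncard = k + 1) (hn : ¬ Z ⊆ Q) : Xc1F M (I \ {f}) Z := by
  have := c.dis
  have := c.subI
  have := c.subS
  have := c.g_notMem
  have := c.tri.1
  have hY : Z \ {e, f} ⊆ Q := by grind
  by_cases he : e ∈ Z
  · by_cases hfZ : f ∈ Z
    · have a1 := cc_card (pair_subset he hfZ)
      rw [ncard_pair c.tri.1] at a1
      rw [show Z = insert e (insert f (Z \ {e, f})) by grind]
      refine (c.ins_f hf (hY.trans hQ) (by omega)).ins c.mem_e fun hc => h _ hY (by omega) ?_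
      rw [show I \ {f} ∪ insert f (Z \ {e, f}) = I ∪ Z \ {e, f} by grind] at hc
      exact xc1_tri (xc1_rot c.tri) hc (M.inter_ground_subset_closure _ ⟨Or.inl hf, c.mem_f⟩)
    · have a1 := ncard_sdiff_singleton_add_one he
      have a2 := c.ins_f hf (Y := Z \ {e}) (by grind) (by omega)
      rw [show Z = insert e (Z \ {e}) by grind]
      exact (a2.mono (subset_insert _ _)).ins c.mem_e fun hc =>
        a2.notMem (by grind) (c.free' sdiff_subset (by grind) (by simp) (by grind) (by grind) hc)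
  · have hfZ : f ∈ Z := by grind
    have a1 := ncard_sdiff_singleton_add_one hfZ
    rw [show Z = insert f (Z \ {f}) by grind]
    exact c.ins_f hf (by grind) (by omega)

theorem card_ef (hf : f ∈ I) (hQ : Q ⊆ S) : (insert e (insert f Q)).ncard = Q.ncard + 2 := by
  have := c.dis
  have := c.subS
  have := c.tri.1
  rw [ncard_insert_of_notMem (by grind), ncard_insert_of_notMem (by grind)]

/-- The points of `S` that are not parallel to `g`. -/
theorem good (hf : f ∈ I) (hk : k < S.ncard) : ∃ Q ⊆ S, S.ncard ≤ Q.ncard + 1 ∧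
    (∀ s ∈ S, s ∈ Q ↔ g ∉ M.closure (I ∪ {s})) ∧ g ∉ Q ∧
      rk M (I \ {f} ∪ Q) = rk M (I \ {f}) + (k + 1) := by
  have hd := c.dis
  have key : ∀ Q ⊆ S, S.ncard ≤ Q.ncard + 1 → (∀ s ∈ S, s ∈ Q ↔ g ∉ M.closure (I ∪ {s})) →
      f ∈ M.closure (I \ {f} ∪ Q) → g ∉ Q ∧ rk M (I \ {f} ∪ Q) = rk M (I \ {f}) + (k + 1) :=
    fun Q hQ h1 h2 h3 => ⟨fun hg => (h2 g (hQ hg)).1 hg
      (M.inter_ground_subset_closure _ ⟨Or.inr rfl, c.mem_g⟩), by
      have a1 := rk_insert_of_mem h3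
      have a2 := c.full (P := insert f (I \ {f} ∪ Q)) (by grind) hQ (by omega) (by grind)
      have a3 := (c.rk_del hf).2
      have := c.rank
      omega⟩
  by_cases h : ∃ s ∈ S, g ∈ M.closure (I ∪ {s})
  · obtain ⟨s, hs, hg⟩ := h
    have a1 := ncard_sdiff_singleton_add_one hs
    have a2 : ∀ t ∈ S, t ∈ S \ {s} ↔ g ∉ M.closure (I ∪ {t}) := fun t ht =>
      ⟨fun h1 h2 => c.n3 (by
        have := (c.un ({t} ∪ {s}) (by grind) ((ncard_union_le _ _).trans
          (by simpa using c.two))).modular h2 hg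
        rwa [show ({t} ∩ {s} : Set E) = ∅ by grind, union_empty] at this),
        fun h1 => ⟨ht, fun h2 => h1 (h2 ▸ hg)⟩⟩
    exact ⟨S \ {s}, sdiff_subset, a1.ge, a2, key _ sdiff_subset a1.ge a2
      (M.closure_subset_closure (by grind) (c.n4 s hs hg).2)⟩
  · have a2 : ∀ t ∈ S, t ∈ S ↔ g ∉ M.closure (I ∪ {t}) := fun t ht =>
      ⟨fun _ h2 => h ⟨t, ht, h2⟩, fun _ => ht⟩
    exact ⟨S, Subset.rfl, Nat.le_succ _, a2, key _ Subset.rfl (Nat.le_succ _) a2
      (M.closure_subset_closure (by grind) c.n2)⟩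

end Xc1C

theorem Xc1C.line (c : Xc1C M e f g I S 2) (hf : f ∈ S) : Line M I (insert e S) := by
  have h1 : ∀ q ∈ S, rk M (I ∪ {e, q}) = I.ncard + 2 := fun q hq => by
    have a1 : Xc1F M I {e, q} := (c.un {q} (by simpa using hq) (by simp)).ins c.mem_e (by
      by_cases h : q = f
      · exact h ▸ c.e_notMem' hf
      · exact c.e_notMem hf (by simpa using hq) (by simp) (by simpa using Ne.symm h))
    rwa [Xc1F, c.ind, ncard_pair (Ne.symm (c.subS hq).2)] at a1
  refine ⟨indep_iff_rk.2 c.ind, c.rank, insert_subset c.mem_e (c.subS.trans sdiff_subset), ?_⟩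
  rintro p (rfl | hp) q (rfl | hq) hne
  · exact absurd rfl hne
  · exact h1 q hq
  · rw [pair_comm]
    exact h1 p hp
  · have a1 := c.un {p, q} (pair_subset hp hq) (ncard_pair hne).le
    rwa [Xc1F, c.ind, ncard_pair hne] at a1

theorem Xc1C.plane (c : Xc1C M e f g I S 2) (hf : f ∈ I) (hk : 2 < S.ncard) :
    ∃ Q ⊆ S, S.ncard ≤ Q.ncard + 1 ∧ ∃ K ⊆ Q, K.ncard = 3 ∧ Xc1F M (I \ {f}) K ∧
      ∀ Z ⊆ insert e (insert f Q), Z.ncard = 3 → ¬ Z ⊆ Q → Xc1F M (I \ {f}) Z := by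
  obtain ⟨Q, hQ, h1, h2, h3, h4⟩ := c.good hf hk
  obtain ⟨K, -, b1, b2, b3⟩ := exists_skew (M := M) (X := I \ {f}) (Y := Q) (I := ∅)
    (sdiff_subset.trans (c.subI.trans sdiff_subset)) (hQ.trans (c.subS.trans sdiff_subset))
    (empty_subset _) (by simp)
  refine ⟨Q, hQ, h1, K, b1, by omega, b2, fun Z hZ a1 a2 =>
    c.mixed hf hQ h3 (fun Y hY a3 => ?_) hZ a1 a2⟩
  obtain ⟨s, rfl⟩ := ncard_eq_one.1 (show Y.ncard = 1 by omega)
  exact (h2 s (hQ (hY rfl))).1 (hY rfl)

theorem Xc1C.false2 (hT : U2 M T) (c : Xc1C M e f g I S 2) (h5 : S.ncard = 5) : False := by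
  have hS := c.subS
  rcases c.n1 with hf | hf
  · obtain ⟨Q', hQ', h1, K, hK, k3, kF, h2⟩ := c.plane hf (by omega)
    obtain ⟨Q, a1, a2, a3⟩ := exists_subsuperset_card_eq hK (show K.ncard ≤ 4 by omega)
      (show 4 ≤ Q'.ncard by omega)
    have a4 : rk M (I \ {f} ∪ Q) = rk M (I \ {f}) + 3 ∧
        rk M (I \ {f} ∪ insert e (insert f Q)) = rk M (I \ {f}) + 3 := by
      have b1 := un_mono M (I \ {f}) _ _ a1
      have b2 := un_mono M (I \ {f}) Q (insert e (insert f Q)) (by grind)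
      have b3 := rk_le_rank M (I \ {f} ∪ insert e (insert f Q))
      have b4 := (c.rk_del hf).2
      have b5 := c.rank
      unfold Xc1F at kF
      omega
    have := c.mem_e
    have := c.mem_f
    refine xc1_P6 hT (P := insert e (insert f Q)) (by grind)
      (by rw [c.card_ef hf (a2.trans hQ'), a3]) a4.2 fun Y hY y3 yF Z hZ z3 zF => ?_
    have hs : ∀ Y ⊆ insert e (insert f Q), Y.ncard = 3 → ¬ Xc1F M (I \ {f}) Y → Y ⊆ Q :=
      fun Y hY y3 yF => by
        have : Y ⊆ Q' := by_contra fun h => yF (h2 Y (by grind) y3 h)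
        have := c.dis
        grind
    have b1 := hs Y hY y3 yF
    have b2 := hs Z hZ z3 zF
    by_contra hne
    have b3 := ncard_union_add_ncard_inter Y Z
    have b4 := ncard_le_ncard (union_subset b1 b2)
    have b5 : (Y ∩ Z).ncard < 3 := by_contra fun h => hne (eq_of_subset_of_ncard_le
      (inter_eq_left.1 (eq_of_subset_of_ncard_le inter_subset_left (by omega))) (by omega))
    have b6 : _ = _ := (c.ins_f hf (Y := Y ∩ Z) (by grind) (by omega)).mono (subset_insert _ _)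
    have b7 := un_sub M (I \ {f}) (Y ∩ Z) Q Y Z inter_subset_left inter_subset_right
      (eq_of_subset_of_ncard_le (union_subset b1 b2) (by omega)).ge
    have b8 := xc1_le M (I \ {f}) Y
    have b9 := xc1_le M (I \ {f}) Z
    unfold Xc1F at yF zF
    omega
  · have := (c.line hf).le_five hT
    rw [ncard_insert_of_notMem fun h => (hS h).2 rfl] at this
    omega

theorem Xc1C.share (c : Xc1C M e f g I S 3) {a b d : E} (ha : a ∈ S) (hb : b ∈ S) (hd : d ∈ S)
    (hne : b ≠ d) (h1 : z ∈ M.closure (I ∪ {a, b})) (h2 : z ∈ M.closure (I ∪ {a, d})) :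
    z ∈ M.closure (I ∪ {a}) := by
  have := (c.un ({a, b} ∪ {a, d}) (by grind) (by
    rw [show ({a, b} ∪ {a, d} : Set E) = {a, b, d} by grind]
    exact (ncard_insert_le _ _).trans (Nat.succ_le_succ ((ncard_insert_le _ _).trans
      (by simp))))).modular h1 h2
  exact M.closure_subset_closure (by grind) this

theorem Xc1C.false3 (hT : U2 M T) (c : Xc1C M e f g I S 3) (h5 : S.ncard = 5) (hf : f ∈ S) :
    False := by
  have hS := c.subS
  have he := c.mem_e
  have key : ∀ Y ⊆ insert e S, Y.ncard = 3 → ¬ Xc1F M I Y →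
      ∃ s ∈ S, Y = {e, f, s} ∧ e ∈ M.closure (I ∪ {f, s}) := fun Y hY y3 yF => by
    have a1 : e ∈ Y := by_contra fun h => yF (c.un Y (by grind) y3.le)
    have a2 := ncard_sdiff_singleton_add_one a1
    have a3 : e ∈ M.closure (I ∪ Y \ {e}) := by_contra fun h => yF (by
      have := (c.un (Y \ {e}) (by grind) (by omega)).ins he h
      rwa [show insert e (Y \ {e}) = Y by grind] at this)
    have a4 : f ∈ Y \ {e} := by_contra fun h => c.e_notMem hf (by grind) (by omega) h a3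
    have a5 := ncard_sdiff_singleton_add_one a4
    obtain ⟨s, hs⟩ := ncard_eq_one.1 (show ((Y \ {e}) \ {f}).ncard = 1 by omega)
    have a6 : Y \ {e} = {f, s} := by grind
    exact ⟨s, by grind, by grind, a6 ▸ a3⟩
  refine xc1_P6 hT (X := I) (P := insert e S) (by grind)
    (by rw [ncard_insert_of_notMem fun h => (hS h).2 rfl, h5])
    (by rw [c.full subset_union_left Subset.rfl (by omega) (by grind), c.rank, c.ind])
    fun Y hY y3 yF Z hZ z3 zF => ?_
  obtain ⟨s, hs, rfl, a1⟩ := key Y hY y3 yF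
  obtain ⟨t, ht, rfl, a2⟩ := key Z hZ z3 zF
  by_contra hne
  exact c.e_notMem' hf (c.share hf hs ht (fun h => hne (by rw [h])) a1 a2)

theorem Xc1C.false3' (hT : U2 M T) (c : Xc1C M e f g I S 3) (h5 : S.ncard = 5) (hf : f ∈ I)
    {s : E} (hs : s ∈ S) (hg : g ∈ M.closure (I ∪ {s})) : False := by
  obtain ⟨Q, hQ, h1, h2, h3, h4⟩ := c.good hf (by omega)
  have hsQ : s ∉ Q := fun h => (h2 s hs).1 h hg
  have a1 : Q.ncard < S.ncard := ncard_lt_ncard ⟨hQ, fun h => hsQ (h hs)⟩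
  have a2 := c.card_ef hf hQ
  have hS := c.subS
  have := c.mem_e
  have := c.mem_f
  refine xc1_U46 hT (X := I \ {f}) (P := insert e (insert f Q)) (by grind) (by omega) ?_
    fun a ha b hb hne => ?_
  · have b2 := un_mono M (I \ {f}) Q (insert e (insert f Q)) (by grind)
    have b3 := rk_le_rank M (I \ {f} ∪ insert e (insert f Q))
    have b4 := (c.rk_del hf).2
    have b5 := c.rank
    omega
  · have b1 := cc_card (pair_subset ha hb)
    rw [ncard_pair hne] at b1
    by_cases hZ : insert e (insert f Q) \ {a, b} ⊆ Q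
    · rw [eq_of_subset_of_ncard_le hZ (by omega), h4]
    · have : _ = _ := c.mixed hf hQ h3 (fun Y hY y2 hc => c.n3 (by
        have := (c.un ({s} ∪ Y) (by grind) ((ncard_union_le _ _).trans
          (by rw [ncard_singleton]; omega))).modular hg hc
        rwa [show ({s} ∩ Y : Set E) = ∅ by grind, union_empty] at this))
        sdiff_subset (by omega) hZ
      omega

theorem Xc1C.single (c : Xc1C M e f g I S 3) (h5 : S.ncard = 5)
    (h : ∀ s ∈ S, g ∉ M.closure (I ∪ {s})) : ∃ s ∈ S, ∀ t ∈ S, g ∉ M.closure (I ∪ {s, t}) := by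
  by_contra! hc
  have sh : ∀ a ∈ S, ∀ b ∈ S, ∀ d ∈ S, g ∈ M.closure (I ∪ {a, b}) → g ∈ M.closure (I ∪ {a, d}) →
      b = d := fun a ha b hb d hd h1 h2 => by_contra fun hne => h a ha (c.share ha hb hd hne h1 h2)
  have ne : ∀ a ∈ S, ∀ b, g ∈ M.closure (I ∪ {a, b}) → a ≠ b := fun a ha b h1 e =>
    h a ha (by rwa [← e, pair_eq_singleton] at h1)
  obtain ⟨a, ha⟩ := nonempty_of_ncard_ne_zero (show S.ncard ≠ 0 by omega)
  obtain ⟨b, hb, ab⟩ := hc a ha
  have p2 : ∀ x y : E, ({x, y} : Set E).ncard ≤ 2 := fun x y =>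
    (ncard_insert_le _ _).trans (by simp)
  obtain ⟨p, hp, hp'⟩ := exists_mem_notMem_of_ncard_lt_ncard
    (show ({a, b} : Set E).ncard < S.ncard by have := p2 a b; omega)
  obtain ⟨q, hq, pq⟩ := hc p hp
  obtain ⟨s, hs, hs'⟩ := exists_mem_notMem_of_ncard_lt_ncard
    (show ({a, b} ∪ {p, q} : Set E).ncard < S.ncard by
      have := p2 a b
      have := p2 p q
      have := ncard_union_le ({a, b} : Set E) {p, q}
      omega)
  obtain ⟨t, ht, st⟩ := hc s hs
  have ba := pair_comm a b ▸ ab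
  have qp := pair_comm p q ▸ pq
  have ts := pair_comm s t ▸ st
  have n1 := ne a ha b ab
  have n2 := ne p hp q pq
  have n3 := ne s hs t st
  have m1 : q ≠ a := fun e => hp' (Or.inr (sh a ha p hp b hb (e ▸ qp) ab))
  have m2 : q ≠ b := fun e => hp' (Or.inl (sh b hb p hp a ha (e ▸ qp) ba))
  have m3 : t ≠ a := fun e => hs' (Or.inl (Or.inr (sh a ha s hs b hb (e ▸ ts) ab)))
  have m4 : t ≠ b := fun e => hs' (Or.inl (Or.inl (sh b hb s hs a ha (e ▸ ts) ba)))
  have m5 : t ≠ p := fun e => hs' (Or.inr (Or.inr (sh p hp s hs q hq (e ▸ ts) pq)))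
  have m6 : t ≠ q := fun e => hs' (Or.inr (Or.inl (sh q hq s hs p hp (e ▸ ts) qp)))
  clear sh ne hc h p2 ab ba pq qp st ts
  have := ncard_le_ncard (show ({t, s, q, p, a, b} : Set E) ⊆ S by grind)
  rw [ncard_insert_of_notMem (by grind), ncard_insert_of_notMem (by grind),
    ncard_insert_of_notMem (by grind), ncard_insert_of_notMem (by grind), ncard_pair n1] at this
  omega

theorem Xc1C.newline (c : Xc1C M e f g I S 3) {s : E} (hs : s ∈ S)
    (h : ∀ t ∈ S, g ∉ M.closure (I ∪ {s, t})) :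
    Line (M ＼ {e}) (I ∪ {s}) (insert g (S \ {s})) := by
  have hI := c.subI
  have hS := c.subS
  have hg := c.mem_g
  have := c.tri.2.1
  have a0 := ncard_union_eq (c.dis.mono_right (singleton_subset_iff.2 hs))
  have a1 : _ = _ := c.un {s} (by simpa using hs) (by simp)
  have a2 := c.ind
  rw [ncard_singleton] at a0 a1
  have h1 : ∀ p ∈ M.E \ {e}, ∀ q ∈ S \ {s}, p ∉ M.closure (I ∪ {s, q}) →
      rk (M ＼ {e}) (I ∪ {s} ∪ {p, q}) = (I ∪ {s}).ncard + 2 := fun p hp q hq hc => by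
    have b1 : _ = _ := c.un {s, q} (by grind) (by rw [ncard_pair (Ne.symm hq.2)]; omega)
    have b2 := rk_insert_of_notMem hp.1 hc
    rw [ncard_pair (Ne.symm hq.2)] at b1
    rw [rk_delete (by grind), show I ∪ {s} ∪ {p, q} = insert p (I ∪ {s, q}) by grind]
    omega
  refine ⟨indep_iff_rk.2 (by rw [rk_delete (by grind)]; omega),
    by rw [xc1_rank c.tri, c.rank]; omega, show _ ⊆ M.E \ {e} by grind, ?_⟩
  rintro p (rfl | hp) q (rfl | hq) hne
  · exact absurd rfl hne
  · exact h1 _ (by grind) q hq (h q hq.1)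
  · rw [pair_comm]
    exact h1 _ (by grind) p hp (h p hp.1)
  · exact h1 p (hS hp.1) q hq ((c.un {p, s, q} (by grind) ((ncard_insert_le _ _).trans
      (Nat.succ_le_succ ((ncard_insert_le _ _).trans (by simp))))).notMem (by grind))

end aux

/-- No minor `U_{4,6}`. -/
theorem no_U46 (hT : U2 M T) (p : Fin 6 → E) (hp : ∀ i, p i ∈ M.E)
    (hr : rk M (X ∪ range p) = rk M X + 4)
    (h4 : ∀ i j : Fin 6, i < j → rk M (X ∪ p '' {k | k ≠ i ∧ k ≠ j}) = rk M X + 4) : False := by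
  have h4' : ∀ i j : Fin 6, i ≠ j → rk M (X ∪ p '' {k | k ≠ i ∧ k ≠ j}) = rk M X + 4 :=
    fun i j h => h.lt_or_gt.elim (h4 i j) fun h => by simpa only [and_comm] using h4 j i h
  have hc : ∀ i j : Fin 6, i ≠ j → {k | k ≠ i ∧ k ≠ j}.ncard = 4 := fun i j h => by
    have := cc_card (subset_univ ({i, j} : Set (Fin 6)))
    rw [ncard_pair h, ncard_univ, Nat.card_eq_fintype_card, Fintype.card_fin,
      show univ \ ({i, j} : Set (Fin 6)) = {k | k ≠ i ∧ k ≠ j} by grind] at this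
    omega
  have hi : Function.Injective p := fun a b e => by
    obtain ⟨i, j, h, h1, h2⟩ := (by decide : ∀ a b : Fin 6, ∃ i j : Fin 6, i ≠ j ∧
      (a ≠ i ∧ a ≠ j) ∧ b ≠ i ∧ b ≠ j) a b
    have a1 := h4' i j h
    have a2 := xc1_le M X (p '' {k | k ≠ i ∧ k ≠ j})
    have a3 := ncard_image_le (f := p) (s := {k | k ≠ i ∧ k ≠ j})
    have a4 := hc i j h
    exact injOn_of_ncard_image_eq (s := {k | k ≠ i ∧ k ≠ j}) (by omega) (toFinite _) h1 h2 e
  refine xc1_U46 hT (P := range p) (range_subset_iff.2 hp) ?_ hr ?_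
  · rw [← image_univ, ncard_image_of_injective _ hi, ncard_univ, Nat.card_eq_fintype_card,
      Fintype.card_fin]
  · rintro _ ⟨i, rfl⟩ _ ⟨j, rfl⟩ hne
    rw [← h4' i j fun e => hne (by rw [e])]
    congr 2
    ext x
    simp only [mem_sdiff, mem_range, mem_insert_iff, mem_singleton_iff, mem_image, mem_ofPred_eq]
    constructor
    · rintro ⟨⟨l, rfl⟩, h⟩
      exact ⟨l, ⟨fun e => h (Or.inl (by rw [e])), fun e => h (Or.inr (by rw [e]))⟩, rfl⟩
    · rintro ⟨l, h, rfl⟩
      exact ⟨⟨l, rfl⟩, fun e => e.elim (fun e => h.1 (hi e)) fun e => h.2 (hi e)⟩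

theorem frame_of_nonDeg (ht : Tri M e f g) (h1 : FreeT M e f g) (h2 : FreeT M f e g)
    (hl : Line (M ＼ {e}) I S) (h4 : S.ncard = 4)
    (hn : NonDeg M e f g I ((M.E \ {e}) \ (I ∪ S))) : ∃ I' J', Frame M I' J' := by
  have c := xc1_line ht h1 hl (by omega) hn
  have hS := c.subS
  rcases c.n1 with hf | hf
  · obtain ⟨Q, hQ, -, K, hK, k3, kF, h⟩ := c.plane hf (by omega)
    have a1 := c.rk_del hf
    have a2 := c.rank
    have := c.mem_e
    have := c.mem_f
    have := c.dis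
    refine ⟨_, _, xc1_frame (P := insert e (insert f K)) a1.1 (by omega) (by grind)
      (by rw [c.card_ef hf (hK.trans hQ), k3]) fun Y hY y3 => ?_⟩
    by_cases hc : Y ⊆ Q
    · exact kF.mono (by grind)
    · exact h Y (by grind) y3 hc
  · exact ⟨_, _, (c.line hf).frame (by rw [ncard_insert_of_notMem fun h => (hS h).2 rfl, h4])⟩

theorem not_frame_of_nonDeg (hT : U2 M T) (ht : Tri M e f g) (h1 : FreeT M e f g)
    (h2 : FreeT M f e g) (hn : ∀ I J, Frame (M ＼ {e}) I J → NonDeg M e f g I J) :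
    ¬ Frame (M ＼ {e}) I J := by
  intro hF
  have h5 : ((M.E \ {e}) \ (I ∪ J)).ncard = 5 := hF.card
  have hJ : J ⊆ M.E \ {e} := hF.op.sub_right
  have hd := hF.dis
  have mk : ∀ k, 2 ≤ k → I.ncard + k = rk (M ＼ {e}) (M ＼ {e}).E →
      Xc1C M e f g I ((M.E \ {e}) \ (I ∪ J)) k := fun k hk hr => by
    refine xc1_mk ht h1 hF.ind sdiff_subset hk hr.symm (fun Y hY c => ?_) ?_
    · rw [union_comm, hF.rk_eq hY]
      omega
    · rw [show (M.E \ {e}) \ (I ∪ (M.E \ {e}) \ (I ∪ J)) = J by grind]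
      exact hn I J hF
  rcases hF.card_left with hr | hr
  · exact (mk 2 le_rfl hr).false2 hT h5
  · have c := mk 3 (by omega) hr
    generalize (M.E \ {e}) \ (I ∪ J) = S at c h5
    rcases c.n1 with hf | hf
    · by_cases h : ∃ s ∈ S, g ∈ M.closure (I ∪ {s})
      · obtain ⟨s, hs, hg⟩ := h
        exact c.false3' hT h5 hf hs hg
      · obtain ⟨s, hs, h'⟩ := c.single h5 fun s hs hg => h ⟨s, hs, hg⟩
        have hl := c.newline hs h'
        have a1 := ncard_sdiff_singleton_add_one hs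
        have a2 : (insert g (S \ {s})).ncard = 5 := by
          rw [ncard_insert_of_notMem fun hg => h ⟨g, hg.1,
            M.inter_ground_subset_closure _ ⟨Or.inr rfl, c.mem_g⟩⟩]
          omega
        exact (xc1_line ht h1 hl (by omega) (hn _ _ (hl.frame a2))).false2 hT a2
    · exact c.false3 hT h5 hf

end Pool.Agent.Lib.MP_10bdcf_co.G
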