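import Pool.Agent.Lib.MP_10bdcf_co.XG1

/-!
Extending a valid form to a common point, and moves of a point on a line.
-/

namespace Pool.Agent.Lib.MP_10bdcf_co.G

open scoped Matroid
open Set

set_option linter.unusedSectionVars false

variable {E F : Type} [Fintype E] [Field F] {M : Matroid E} {U W : Sb F E} {φ ψ : Fm F E}
  {A B X Y : Set E} {e p g s : E}

/-- Reduction of a cycle through `p` to another cycle through `p`. -/
theorem xg2_step (h : Pair M U W) (hv : Val ψ (van U {p}) W) {u v w : E → F} (hu : u ∈ U)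
    (hv' : v ∈ U) (hw : w ∈ W) (h1 : v p = 1) (h2 : ψ v w = 0)
    (h3 : ∀ z ∈ M.E, z ≠ p → w z ≠ 0 → u z = 0) (h4 : ∀ z ∈ M.E, z ≠ p → w z ≠ 0 → v z = 0) :
    ψ u w = 0 := by
  have a := zb_sub_mem hu hv' h1
  have b := hv _ a w hw (h.dis a.1 hw fun z hz => by
    by_cases h5 : z = p
    · exact Or.inl (by simp [h5, h1])
    by_cases h6 : w z = 0
    · exact Or.inr h6
    · exact Or.inl (by simp [h3 z hz h5 h6, h4 z hz h5 h6]))
  simpa [h2] using b

theorem xg2_side (h : Pair M U W) (hA : A ⊆ M.E) (hpA : p ∉ A) (hX : X ⊆ A) (hY : Y ⊆ M.E)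
    (h1 : p ∈ M.closure X) (h2 : p ∈ M.closure Y) (hn : rk M {p} = 1)
    (h4 : rk M A + rk M Y ≤ rk M (A ∪ Y) + 1) (hv : Val ψ (van U {p}) W) {u1 u2 w : E → F}
    (a1 : u1 ∈ U) (b1 : u1 p = 1) (c1 : ∀ z ∈ M.E, z ∉ X → z ≠ p → u1 z = 0)
    (d1 : ∀ v ∈ W, (∀ z ∈ X, v z = 0) → ψ u1 v = 0)
    (a2 : u2 ∈ U) (b2 : u2 p = 1) (c2 : ∀ z ∈ M.E, z ∉ Y → z ≠ p → u2 z = 0)
    (d2 : ∀ v ∈ W, (∀ z ∈ Y, v z = 0) → ψ u2 v = 0) (hw : w ∈ W) (hwp : w p = 0)
    (hr : rk M A ≤ rk M {z | z ∈ A ∧ w z = 0} + 1) :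
    ∃ u3 ∈ U, u3 p = 1 ∧ (∀ z ∈ M.E, z ≠ p → w z ≠ 0 → u3 z = 0) ∧ ψ u3 w = 0 := by
  by_cases h0 : ∀ z ∈ A, w z = 0
  · exact ⟨u1, a1, b1, fun z hz h5 h6 => c1 z hz (fun h7 => h6 (h0 z (hX h7))) h5,
      d1 w hw fun z hz => h0 z (hX hz)⟩
  push Not at h0
  obtain ⟨a0, ha0, hw0⟩ := h0
  obtain ⟨Z, hZ⟩ : ∃ Z, Z = {z | z ∈ A ∧ w z = 0} := ⟨_, rfl⟩
  rw [← hZ] at hr
  have z1 : Z ⊆ A := fun z hz => (hZ ▸ hz : z ∈ {z | z ∈ A ∧ w z = 0}).1
  have z2 : ∀ z ∈ Z, w z = 0 := fun z hz => (hZ ▸ hz : z ∈ {z | z ∈ A ∧ w z = 0}).2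
  have pE := M.closure_subset_ground X h1
  have pA : p ∈ M.closure A := M.closure_subset_closure hX h1
  have r1 := rk_insert_of_notMem (hA ha0) fun h' => hw0 (h.coc.cl w hw Z a0 z2 h')
  have r2 := rk_mono M (insert_subset ha0 z1)
  have pZ : p ∈ M.closure Z := by
    by_contra h5
    have r3 := rk_insert_of_notMem pE h5
    have r4 := rk_insert_of_notMem (X := insert p Z) (hA ha0) fun h' =>
      hw0 (h.coc.cl w hw _ a0 (by
        rintro z (rfl | hz)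
        · exact hwp
        · exact z2 z hz) h')
    have r5 := rk_insert_of_mem pA
    have r6 : rk M (insert a0 (insert p Z)) ≤ rk M (insert p A) :=
      rk_mono M (insert_subset (Or.inr ha0) (insert_subset_insert z1))
    omega
  obtain ⟨u3, a3, b3, c3⟩ := h.cyc.cyc_exists pZ fun h' => hpA (z1 h')
  refine ⟨u3, a3, b3, fun z hz h5 h6 => c3 z hz (fun h7 => h6 (z2 z h7)) h5, ?_⟩
  have r3 := rk_submod' M (X := insert p Z) (Y := insert p Y) (P := {p}) (Q := Z ∪ Y)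
    (by simp) (by simp) (union_subset_union (subset_insert _ _) (subset_insert _ _))
  rw [rk_insert_of_mem pZ, rk_insert_of_mem h2] at r3
  obtain ⟨a, ha, haZ⟩ : ∃ a ∈ A, a ∉ M.closure (Z ∪ Y) := by
    by_contra h5
    push Not at h5
    have r4 := rk_union_of_subset_closure (X := Z ∪ Y) (Y := A) h5
    have r5 : rk M (A ∪ Y) ≤ rk M (Z ∪ Y ∪ A) :=
      rk_mono M (union_subset subset_union_right (subset_union_right.trans subset_union_left))
    omega
  obtain ⟨w1, e1, e2, e3⟩ := h.coc.exists_one (hA ha) haZ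
  have f1 : ∀ z ∈ Z, w1 z = 0 := fun z hz => e3 z (Or.inl hz) (hA (z1 hz))
  have f2 : ∀ z ∈ Y, w1 z = 0 := fun z hz => e3 z (Or.inr hz) (hY hz)
  have g1 : ψ u3 w1 = 0 := xg2_step h hv a3 a2 e1 b2 (d2 w1 e1 f2)
    (fun z hz h5 h6 => c3 z hz (fun h7 => h6 (f1 z h7)) h5)
    fun z hz h5 h6 => c2 z hz (fun h7 => h6 (f2 z h7)) h5
  have g2 : w - w a • w1 ∈ W := W.sub_mem hw (W.smul_mem _ e1)
  have r4 := rk_insert_of_notMem (X := Z) (hA ha) fun h' =>
    haZ (M.closure_subset_closure subset_union_left h')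
  have g3 : A ⊆ M.closure (insert a Z) := subset_closure_of_rk hA (by
    rw [union_eq_self_of_subset_left (insert_subset ha z1)]
    omega)
  have g4 : ∀ z ∈ A, (w - w a • w1) z = 0 := fun z hz => h.coc.cl _ g2 _ z (by
    rintro y (rfl | hy)
    · simp [e2]
    · simp [z2 y hy, f1 y hy]) (g3 hz)
  have g5 : ψ u3 (w - w a • w1) = 0 := xg2_step h hv a3 a1 g2 b1 (d1 _ g2 fun z hz => g4 z (hX hz))
    (fun z hz h5 h6 => c3 z hz (fun h7 => h6 (g4 z (z1 h7))) h5)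
    fun z hz h5 h6 => c1 z hz (fun h7 => h6 (g4 z (hX h7))) h5
  simpa [g1] using g5

theorem xg2_hyper {D : Set E} (hD : M.IsCocircuit D) : rk M M.E ≤ rk M (M.E \ D) + 1 := by
  obtain ⟨z, hz⟩ := hD.isCircuit.nonempty
  have h1 : M.Coindep (D \ {z}) := hD.isCircuit.sdiff_singleton_indep hz
  have h2 := rk_coindep h1
  have h3 : rk M (M.E \ (D \ {z})) ≤ rk M (insert z (M.E \ D)) := rk_mono M fun x hx => by
    by_cases h4 : x = z
    · exact Or.inl h4
    · exact Or.inr ⟨hx.1, fun h5 => hx.2 ⟨h5, h4⟩⟩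
  have h4 := rk_insert_le M z (M.E \ D)
  omega

theorem Pair.extend (h : Pair M U W) (hE : M.E = insert p (A ∪ B)) (hpA : p ∉ A) (hpB : p ∉ B)
    (hd : Disjoint A B) (hle : rk M A + rk M B ≤ rk M M.E + 2) (hX : X ⊆ A) (hY : Y ⊆ B)
    (h1 : p ∈ M.closure X) (h2 : p ∈ M.closure Y) (hn : rk M {p} = 1)
    (h3 : rk M X + rk M B ≤ rk M (X ∪ B) + 1) (h4 : rk M A + rk M Y ≤ rk M (A ∪ Y) + 1)
    (hv : Val φ (van U {p}) W) : ∃ ψ, Val ψ U W ∧ Agr ψ φ (van U {p}) W := by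
  have _ := hd
  have hA : A ⊆ M.E := hE ▸ subset_union_left.trans (subset_insert _ _)
  have hB : B ⊆ M.E := hE ▸ subset_union_right.trans (subset_insert _ _)
  have pE := M.closure_subset_ground X h1
  obtain ⟨u1, a1, b1, c1⟩ := h.cyc.cyc_exists h1 fun h' => hpA (hX h')
  obtain ⟨u2, a2, b2, c2⟩ := h.cyc.cyc_exists h2 fun h' => hpB (hY h')
  have k1 : u1 - u2 ∈ van U {p} := mem_van_one.2 ⟨U.sub_mem a1 a2, by simp [b1, b2]⟩
  have k2 : Agr 0 φ (F ∙ (u1 - u2)) (van W X ⊓ van W Y) := by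
    intro u hu w hw
    obtain ⟨c, rfl⟩ := Submodule.mem_span_singleton.1 hu
    have := hv _ k1 w hw.1.1 (h.dis k1.1 hw.1.1 fun z hz => by
      by_cases h5 : z = p
      · exact Or.inl (by simp [h5, b1, b2])
      by_cases h6 : z ∈ X
      · exact Or.inr (hw.1.2 z h6)
      by_cases h7 : z ∈ Y
      · exact Or.inr (hw.2.2 z h7)
      · exact Or.inl (by simp [c1 z hz h6 h5, c2 z hz h7 h5]))
    rw [map_smul φ, LinearMap.smul_apply, this, smul_zero, LinearMap.zero_apply,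
      LinearMap.zero_apply]
  obtain ⟨χ, k3, k4⟩ := exists_glue_right k2
  have k5 : Agr (φ + pf (co p) (χ (u1 - u2) - φ u1)) φ (van U {p}) W := fun u hu w _ => by
    simp [pf_apply, (mem_van_one.1 hu).2]
  refine ⟨_, ?_, k5⟩
  obtain ⟨ψ, hψ⟩ : ∃ ψ, ψ = φ + pf (co p) (χ (u1 - u2) - φ u1) := ⟨_, rfl⟩
  have d1 : ∀ v ∈ W, (∀ z ∈ X, v z = 0) → ψ u1 v = 0 := fun v hv h0 => by
    have := k3 _ (Submodule.mem_span_singleton_self _) v ⟨hv, h0⟩
    rw [hψ, LinearMap.add_apply, LinearMap.add_apply, pf_apply, co_apply, b1, LinearMap.sub_apply,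
      this]
    simp
  have d2 : ∀ v ∈ W, (∀ z ∈ Y, v z = 0) → ψ u2 v = 0 := fun v hv h0 => by
    have := k4 _ (Submodule.mem_span_singleton_self _) v ⟨hv, h0⟩
    rw [hψ, LinearMap.add_apply, LinearMap.add_apply, pf_apply, co_apply, b2, LinearMap.sub_apply,
      this]
    simp
  rw [← hψ] at k5 ⊢
  have hv' := hv.congr k5
  refine h.val_of_circuit fun C D hC hD hd u hu w hw h5 h6 => ?_
  have k6 : ∀ z ∈ M.E, w z ≠ 0 → u z = 0 := fun z hz h7 =>
    by_contra fun h8 => disjoint_left.1 hd ((h5 z hz).1 h8) ((h6 z hz).1 h7)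
  by_cases hup : u p = 0
  · exact hv' u (mem_van_one.2 ⟨hu, hup⟩) w hw (h.dis hu hw fun z hz =>
      (em (w z = 0)).elim Or.inr fun h7 => Or.inl (k6 z hz h7))
  have hwp : w p = 0 := by_contra fun h7 => hup (k6 p pE h7)
  have r1 := xg2_hyper hD
  have r2 := rk_insert_of_mem (h.cyc.cyc_mem (X := M.E \ D) hu pE hup fun z hz h7 _ =>
    k6 z hz ((h6 z hz).2 (by_contra fun h8 => h7 ⟨hz, h8⟩)))
  have r3 : rk M (M.E \ D) ≤ rk M (insert p ((M.E \ D) \ {p})) :=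
    rk_mono M fun z hz => (em (z = p)).elim Or.inl fun h7 => Or.inr ⟨hz, h7⟩
  have r4 : rk M ((M.E \ D) \ {p}) ≤ rk M ({z | z ∈ A ∧ w z = 0} ∪ {z | z ∈ B ∧ w z = 0}) :=
    rk_mono M fun z hz => by
      have h7 : w z = 0 := by_contra fun h8 => hz.1.2 ((h6 z hz.1.1).1 h8)
      have h8 : z ∈ insert p (A ∪ B) := hE ▸ hz.1.1
      exact (h8.resolve_left hz.2).imp (fun h9 => ⟨h9, h7⟩) fun h9 => ⟨h9, h7⟩
  have r5 := rk_union_le M {z | z ∈ A ∧ w z = 0} {z | z ∈ B ∧ w z = 0}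
  obtain ⟨u3, a3, b3, c3, d3⟩ :
      ∃ u3 ∈ U, u3 p = 1 ∧ (∀ z ∈ M.E, z ≠ p → w z ≠ 0 → u3 z = 0) ∧ ψ u3 w = 0 := by
    by_cases r6 : rk M A ≤ rk M {z | z ∈ A ∧ w z = 0} + 1
    · exact xg2_side h hA hpA hX (hY.trans hB) h1 h2 hn h4 hv' a1 b1 c1 d1 a2 b2 c2 d2 hw hwp r6
    · exact xg2_side h hB hpB hY (hX.trans hA) h2 h1 hn (by rw [union_comm]; omega) hv' a2 b2 c2 d2
        a1 b1 c1 d1 hw hwp (by omega)
  exact xg2_step h hv' hu a3 hw b3 d3 (fun z hz _ h7 => k6 z hz h7) c3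

/-- The slide of a free point `p` towards `s` is valid. -/
theorem Pair.val_slide (h : Pair M U W) (hp : p ∈ M.E)
    (hf : ∀ X ⊆ M.E \ {p}, p ∈ M.closure X → s ∈ M.closure X) : Val (pf (co p) (co s)) U W := by
  rw [h.val_move hp]
  exact fun w hw h1 => h.coc.cl w hw _ s (fun z hz => hz.1.2)
    (hf _ (fun z hz => ⟨hz.1.1, hz.2⟩) h1)

/-- A valid form that is diagonal on the deletion of a point `p` of the line `s g` is a slide. -/
theorem Pair.ker_line (h : Pair M U W) (hs : s ∈ M.E) (hg : g ∈ M.E) (h1 : p ≠ s) (h2 : p ≠ g)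
    (hp : p ∈ M.closure {s, g}) (hr : rk M {p, s} = 2) (hv : Val φ U W)
    (hg' : Gauge φ (van U {p}) W) : ∃ c : F, Gauge (φ - c • pf (co p) (co s)) U W := by
  classical
  obtain ⟨γ, hγ⟩ := hg'
  obtain ⟨l, hl⟩ := ker_del hγ
  have pE := M.closure_subset_ground _ hp
  have k1 : Val (pf (co p) l) U W := (hv.sub (val_gf γ U W)).congr fun u hu w hw => by
    simp [hl u hu w hw]
  rw [h.val_move pE] at k1
  have k2 : M.Indep {p, s} := indep_iff_rk.2 (by rw [hr, ncard_pair h1])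
  have k3 : M.IsBasis {p, s} {p, s, g} := by
    refine k2.isBasis_of_subset_of_subset_closure (insert_subset_insert (by simp)) ?_
    refine subset_closure_of_rk (insert_subset pE (insert_subset hs (by simpa using hg))) ?_
    have r1 := rk_insert_of_mem hp
    have r2 := rk_insert_le M s {g}
    have r3 := rk_singleton_le M g
    rw [union_eq_self_of_subset_left (insert_subset_insert (by simp))]
    omega
  obtain ⟨c, hc, k4⟩ := h.coc.span k3 (l := l) fun w hw h0 => k1 w hw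
    (M.closure_subset_closure (by
      rintro z (rfl | rfl)
      · exact ⟨⟨hs, h0 z (by simp)⟩, h1.symm⟩
      · exact ⟨⟨hg, h0 z (by simp)⟩, h2.symm⟩) hp)
  refine ⟨c s, ((gauge_gf γ U W).add (gauge_diag p (c p) U W)).congr fun u hu w hw => ?_⟩
  have k5 : ∑ z, c z * w z = c p * w p + c s * w s := by
    rw [← Finset.sum_pair (f := fun z => c z * w z) h1]
    refine (Finset.sum_subset (Finset.subset_univ _) fun z _ hz => ?_).symm
    rw [hc z (by simpa using hz), zero_mul]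
  simp only [LinearMap.sub_apply, LinearMap.smul_apply, LinearMap.add_apply, hl u hu w hw,
    pf_apply, co_apply, k4 w hw, k5, smul_eq_mul]
  ring

/-- A slide is not of the form `c` times the product of the coordinates at `p`. -/
theorem Pair.slide_ne (h : Pair M U W) (hp : p ∈ M.closure (M.E \ {p})) (hs : s ∈ M.E)
    (hr : s ∉ M.closure {p}) (c : F) :
    ¬ Agr (pf (co p) (co s)) (pf (co p) (c • co p)) U W := by
  intro ha
  obtain ⟨u, hu, h1, -⟩ := h.cyc.cyc_exists hp (by simp)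
  obtain ⟨w, hw, h2, h3⟩ := h.coc.exists_one hs hr
  have := ha u hu w hw
  simp [pf_apply, h1, h2, h3 p rfl (M.closure_subset_ground _ hp)] at this

end Pool.Agent.Lib.MP_10bdcf_co.G
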