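import Pool.Agent.Lib.MP_10bdcf_co.XC1
import Pool.Agent.Lib.MP_10bdcf_co.XG2
import Pool.Agent.Lib.MP_10bdcf_co.XG3

/-!
Valid forms extend to a point of a triangle; the slides of free points.
-/

namespace Pool.Agent.Lib.MP_10bdcf_co.G

open scoped Matroid
open Set

set_option linter.unusedSectionVars false

variable {E F : Type} [Fintype E] [Field F] {M : Matroid E} {T : Set E → Matrix E E R0}
  {x y : R0 →+* F} {U W : Sb F E} {φ : Fm F E} {I J S : Set E} {e f g : E}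

/-- The sets outside the triangle that span `e` and not `f`. -/
def XFam (M : Matroid E) (e f g : E) (X : Set E) : Prop :=
  X ⊆ M.E \ {e, f, g} ∧ e ∈ M.closure X ∧ f ∉ M.closure X

/-- The family is connected under inclusion. -/
def XLinked (M : Matroid E) (e f g : E) : Prop :=
  ∀ (α : Type) (μ : Set E → α),
    (∀ X X', XFam M e f g X → XFam M e f g X' → X ⊆ X' → μ X = μ X') →
      ∀ X X', XFam M e f g X → XFam M e f g X' → μ X = μ X'

theorem Tri.swap12 (h : Tri M e f g) : Tri M f e g := by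
  exact cb_swap h

theorem Tri.swap23 (h : Tri M e f g) : Tri M e g f := by
  refine ⟨h.2.1, h.1, h.2.2.1.symm, ?_⟩
  rw [pair_comm g f]
  exact h.2.2.2

theorem xc2_E (h : Tri M e f g) : e ∈ M.E ∧ f ∈ M.E ∧ g ∈ M.E :=
  ⟨h.2.2.2.subset_ground (by simp), h.2.2.2.subset_ground (by simp),
    h.2.2.2.subset_ground (by simp)⟩

theorem Tri.mem_closure (h : Tri M e f g) : e ∈ M.closure {f, g} := by
  exact xc1_tri h (M.mem_closure_of_mem' (by simp) (xc2_E h).2.1)
    (M.mem_closure_of_mem' (by simp) (xc2_E h).2.2)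

theorem Tri.rk_pair (h : Tri M e f g) : rk M {e, f} = 2 := by
  have h1 := isCircuit_rk h.2.2.2
  have h2 := rk_insert_of_mem (xc1_rot h).mem_closure
  rw [cb_three h.1 h.2.1 h.2.2.1] at h1
  rw [show insert g ({e, f} : Set E) = {e, f, g} by grind] at h2
  omega

theorem xc2_zero {w : E → F} (h : Rep M W) (ht : Tri M e f g) (hw : w ∈ W) (h1 : w f = 0)
    (h2 : w g = 0) : w e = 0 :=
  h.cl w hw _ e (by rintro z (rfl | rfl); exacts [h1, h2]) ht.mem_closure

/-- A cycle through `e` supported on `X` and a cocycle through `f` vanishing on `X`. -/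
def Xc2P (M : Matroid E) (U W : Sb F E) (e f : E) (X : Set E) (c d : E → F) : Prop :=
  c ∈ U ∧ c e = 1 ∧ (∀ z ∈ M.E, z ∉ X → z ≠ e → c z = 0) ∧ d ∈ W ∧ d f = 1 ∧ ∀ z ∈ X, d z = 0

theorem Pair.extend_tri (h : Pair M U W) (ht : Tri M e f g) (hl : XLinked M e f g)
    (hφ : Val φ (van U {e}) W) : ∃ ψ, Val ψ U W ∧ Agr ψ φ (van U {e}) W := by
  obtain ⟨hE, hF, hG⟩ := xc2_E ht
  obtain ⟨t, tU, t1, t0⟩ := h.cyc.cyc_exists ht.mem_closure (by simp [ht.1, ht.2.1])
  have key : ∀ X X' c c' d d', e ∈ M.closure X → X ⊆ X' → Xc2P M U W e f X c d →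
      Xc2P M U W e f X' c' d' → φ (c - t) d = φ (c' - t) d' := by
    rintro X X' c c' d d' hX hs ⟨cU, c1, c0, dW, d1, d0⟩ ⟨cU', c1', c0', dW', d1', d0'⟩
    have a1 : φ (c' - c) d' = 0 := by
      refine hφ _ (mem_van_one.2 ⟨U.sub_mem cU' cU, by simp [c1, c1']⟩) _ dW'
        (h.dis (U.sub_mem cU' cU) dW' fun z hz => ?_)
      by_cases hz' : z ∈ X'
      · exact Or.inr (d0' z hz')
      by_cases hze : z = e
      · exact Or.inl (by simp [hze, c1, c1'])
      · exact Or.inl (by simp [c0' z hz hz' hze, c0 z hz (fun a => hz' (hs a)) hze])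
    have a2 : φ (c - t) (d' - d) = 0 := by
      have b0 := W.sub_mem dW' dW
      have b1 : ∀ z ∈ X, (d' - d) z = 0 := fun z hz => by simp [d0 z hz, d0' z (hs hz)]
      have b2 : (d' - d) f = 0 := by simp [d1, d1']
      have b3 := xc2_zero h.coc (xc1_rot ht) b0 (h.coc.cl _ b0 X e b1 hX) b2
      refine hφ _ (mem_van_one.2 ⟨U.sub_mem cU tU, by simp [c1, t1]⟩) _ b0
        (h.dis (U.sub_mem cU tU) b0 fun z hz => ?_)
      by_cases h1 : z ∈ X
      · exact Or.inr (b1 z h1)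
      by_cases h2 : z = e
      · exact Or.inl (by simp [h2, c1, t1])
      by_cases h3 : z ∈ ({f, g} : Set E)
      · rcases h3 with rfl | rfl
        exacts [Or.inr b2, Or.inr b3]
      · exact Or.inl (by simp [c0 z hz h1 h2, t0 z hz h3 h2])
    simp only [map_sub, LinearMap.sub_apply] at a1 a2 ⊢
    linear_combination -a1 - a2
  have ex : ∀ X, ∃ c d : E → F, XFam M e f g X → Xc2P M U W e f X c d := fun X => by
    by_cases hX : XFam M e f g X
    · obtain ⟨c, cU, c1, c0⟩ := h.cyc.cyc_exists hX.2.1 fun a => (hX.1 a).2 (by simp)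
      obtain ⟨d, dW, d1, d0⟩ := h.coc.exists_one hF hX.2.2
      exact ⟨c, d, fun _ => ⟨cU, c1, c0, dW, d1, fun z hz => d0 z hz (hX.1 hz).1⟩⟩
    · exact ⟨0, 0, fun a => absurd a hX⟩
  choose c d hcd using ex
  have hc := hl F (fun X => φ (c X - t) (d X)) fun X X' hX hX' hs =>
    key X X' _ _ _ _ hX.2.1 hs (hcd X hX) (hcd X' hX')
  obtain ⟨m, hm⟩ : ∃ m : F, ∀ X c' d', XFam M e f g X → Xc2P M U W e f X c' d' →
      φ (c' - t) d' = m := by
    by_cases hX : ∃ X, XFam M e f g X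
    · obtain ⟨X0, h0⟩ := hX
      exact ⟨φ (c X0 - t) (d X0), fun X c' d' hX hp =>
        (key X X _ _ _ _ hX.2.1 Subset.rfl hp (hcd X hX)).trans (hc X X0 hX h0)⟩
    · exact ⟨0, fun X _ _ a => absurd ⟨X, a⟩ hX⟩
  refine ⟨φ - pf (co e) (m • co f + φ t), fun u hu w hw hd => ?_, fun u hu w _ => by
    simp [pf_apply, (mem_van_one.1 hu).2]⟩
  simp only [LinearMap.sub_apply, LinearMap.add_apply, LinearMap.smul_apply, pf_apply, co_apply,
    smul_eq_mul]
  by_cases ue : u e = 0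
  · rw [hφ u (mem_van_one.2 ⟨hu, ue⟩) w hw hd, ue, zero_mul, sub_zero]
  have we : w e = 0 := (hd e).resolve_left ue
  by_cases wf : w f = 0
  · have wg := xc2_zero h.coc (xc1_rot ht) hw we wf
    have b0 := zb_sub_mem hu tU t1
    have := hφ _ b0 w hw (h.dis b0.1 hw fun z hz => by
      by_cases h2 : z = e
      · exact Or.inr (h2 ▸ we)
      by_cases h3 : z ∈ ({f, g} : Set E)
      · rcases h3 with rfl | rfl
        exacts [Or.inr wf, Or.inr wg]
      · simpa [t0 z hz h3 h2] using hd z)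
    simp only [map_sub, map_smul, LinearMap.sub_apply, LinearMap.smul_apply, smul_eq_mul] at this
    rw [wf]
    linear_combination this
  · have wg : w g ≠ 0 := fun a => wf (xc2_zero h.coc ht.swap12 hw we a)
    have uf := (hd f).resolve_right wf
    have ug := (hd g).resolve_right wg
    have w0 : ∀ z ∈ {z | z ∈ M.E ∧ u z ≠ 0} \ {e}, w z = 0 := fun z hz =>
      (hd z).resolve_left hz.1.2
    have u0 : ∀ z ∈ M.E, z ∉ {z | z ∈ M.E ∧ u z ≠ 0} → z ≠ e → u z = 0 := fun z hz h1 _ =>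
      not_not.1 fun a => h1 ⟨hz, a⟩
    have := hm ({z | z ∈ M.E ∧ u z ≠ 0} \ {e}) ((u e)⁻¹ • u) ((w f)⁻¹ • w)
      ⟨fun z hz => ⟨hz.1.1, by
        rintro (rfl | rfl | rfl)
        exacts [hz.2 rfl, hz.1.2 uf, hz.1.2 ug]⟩, h.cyc.cyc_mem hu hE ue u0,
        fun a => wf (h.coc.cl w hw _ f w0 a)⟩
      ⟨U.smul_mem _ hu, by simp [ue], fun z hz h1 h2 => by
        simp [u0 z hz (fun a => h1 ⟨a, h2⟩) h2], W.smul_mem _ hw, by simp [wf],
        fun z hz => by simp [w0 z hz]⟩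
    simp only [map_sub, map_smul, LinearMap.sub_apply, LinearMap.smul_apply, smul_eq_mul] at this
    rw [← this]
    field_simp
    ring

theorem Pair.fix_tri (h : Pair M U W) (ht : Tri M e f g) (hf : ¬ FreeT M e f g) : Fix U W e := by
  obtain ⟨hE, hF, hG⟩ := xc2_E ht
  obtain ⟨X, hX, h1, h2⟩ : ∃ X, X ⊆ M.E \ {e, f, g} ∧ e ∈ M.closure X ∧ f ∉ M.closure X := by
    by_contra hn
    exact hf fun X hX h1 => not_not.1 fun h2 => hn ⟨X, hX, h1, h2⟩
  have r1 := (xc1_rot (xc1_rot ht)).rk_pair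
  have r2 := rk_insert_of_notMem hF h2
  have r3 := rk_mono M (show insert f X ⊆ X ∪ {f, g} by grind)
  have r4 := ht.swap12.rk_pair
  have r5 := rk_insert_le M f {e}
  have r6 := rk_singleton_le M e
  exact h.fix_of_two (hX.trans sdiff_subset) (insert_subset hF (singleton_subset_iff.2 hG))
    (fun a => (hX a).2 (by simp)) (by simp [ht.1, ht.2.1]) h1 ht.mem_closure (by omega) (by omega)

theorem Pair.val_slide_tri (h : Pair M U W) (ht : Tri M e f g) (hf : FreeT M e f g) :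
    Val (pf (co e) (co g)) U W := by
  refine h.val_slide (xc2_E ht).1 fun X hX h1 => ?_
  by_cases hg : g ∈ X
  · exact M.mem_closure_of_mem' hg (xc2_E ht).2.2
  refine xc1_tri (xc1_rot ht) h1 ?_
  by_cases hfX : f ∈ X
  · exact M.mem_closure_of_mem' hfX (xc2_E ht).2.1
  · refine hf X (fun z hz => ⟨(hX hz).1, ?_⟩) h1
    rintro (rfl | rfl | rfl)
    exacts [(hX hz).2 rfl, hfX hz, hg hz]

theorem xc2_lin {V : Sb F E} {a b : E} (h : ∀ v ∈ V, v b = 0 → v a = 0) :
    ∃ k : F, ∀ v ∈ V, v a = k * v b := by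
  rcases zb_cases V b with h0 | ⟨v0, h1, h2⟩
  · exact ⟨0, fun v hv => by rw [h v hv (h0 v hv), zero_mul]⟩
  · refine ⟨v0 a, fun v hv => ?_⟩
    have h3 := mem_van_one.1 (zb_sub_mem hv h1 h2)
    have := h _ h3.1 h3.2
    simp only [Pi.sub_apply, Pi.smul_apply, smul_eq_mul] at this
    linear_combination this

theorem Pair.gauge_of_not_nonDeg (h : Pair M U W) (ht : Tri M e f g) (hI : I ⊆ M.E)
    (hn : ¬ NonDeg M e f g I J) : Gauge (pf (co f) (co g)) (van (van U {e}) J) (van W I) := by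
  have z1 : (∀ u ∈ van (van U {e}) J, u f = 0) →
      Gauge (pf (co f) (co g)) (van (van U {e}) J) (van W I) := fun a =>
    ⟨0, fun u hu w _ => by simp [pf_apply, a u hu]⟩
  have hu : ∀ s, f ∉ M.closure (M.E \ (J ∪ {e, f, s})) → ∀ u ∈ van (van U {e}) J,
      (s ≠ f → u s = 0) → u f = 0 := fun s hs u hu us => by
    by_contra uf
    refine hs (M.closure_subset_closure sdiff_subset (h.cyc.cyc_mem hu.1.1 (xc2_E ht).2.1 uf
      fun z hz h1 h2 => ?_))
    rcases not_not.1 fun a => h1 ⟨hz, a⟩ with a | rfl | rfl | rfl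
    exacts [hu.2 z a, hu.1.2 z rfl, absurd rfl h2, us h2]
  by_cases n1 : f ∈ J
  · exact z1 fun u hu => hu.2 f n1
  by_cases n2 : f ∉ M.closure (M.E \ (J ∪ {e, f}))
  · exact z1 fun u a => hu f (by simpa using n2) u a fun b => absurd rfl b
  by_cases n3 : g ∈ M.closure I
  · exact ⟨0, fun u _ w hw => by simp [pf_apply, h.coc.cl w hw.1 I g hw.2 n3]⟩
  obtain ⟨s, -, h1, h2⟩ : ∃ s ∈ M.E \ (I ∪ J ∪ {e}), g ∈ M.closure (insert s I) ∧
      ¬ (f ≠ s ∧ f ∈ M.closure (M.E \ (J ∪ {e, f, s}))) := by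
    by_contra a
    exact hn ⟨n1, not_not.1 n2, n3, fun s hs b => not_not.1 fun c => a ⟨s, hs, b, c⟩⟩
  obtain ⟨k, hk⟩ := xc2_lin (V := van W I) (a := g) (b := s) fun w hw ws =>
    h.coc.cl w hw.1 _ g (by rintro z (rfl | a); exacts [ws, hw.2 z a]) h1
  obtain ⟨k', hk'⟩ := xc2_lin (V := van (van U {e}) J) (a := f) (b := s) fun u a us => by
    by_cases hfs : f = s
    · rw [hfs, us]
    · exact hu s (fun b => h2 ⟨hfs, b⟩) u a fun _ => us
  refine (gauge_diag s (k' * k) _ _).congr fun u a w b => ?_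
  simp only [pf_apply, co_apply, LinearMap.smul_apply, smul_eq_mul, hk w b, hk' u a]
  ring

theorem xc2_del (h : Obj M T x y U W) (ht : Tri M e f g) :
    Obj (M ＼ {e}) (mnT ∅ {e} T) x y (van U {e}) W := by
  have := xc1_rank ht
  rw [Matroid.delete_ground, rk_delete disjoint_sdiff_left] at this
  exact zg_del h (op_del (xc2_E ht).1 this).coi

/-- The slide of `f` is not diagonal on the deletion of `e`. -/
theorem Obj.slide_not_gauge (h : Obj M T x x U W) (ht : Tri M e f g) (hc : Con3 (M ＼ {e}))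
    (hn : 5 ≤ M.E.ncard) : ¬ Gauge (pf (co f) (co g)) (van U {e}) W := by
  classical
  rintro ⟨γ, hγ⟩
  obtain ⟨hE, hF, hG⟩ := xc2_E ht
  have hQ := xc2_del h ht
  have h4 : 4 ≤ (M ＼ {e}).E.ncard := by
    have := ncard_sdiff_singleton_add_one hE
    rw [Matroid.delete_ground]
    omega
  have hF' : f ∈ (M ＼ {e}).E := ⟨hF, ht.1.symm⟩
  have hG' : g ∈ (M ＼ {e}).E := ⟨hG, ht.2.1.symm⟩
  have hco := hc.coindep h4 (singleton_subset_iff.2 hF') (by simp)
  obtain ⟨c, hc'⟩ := (zg_del hQ hco).ker_same (γ := γ) (ConK.delete hc h4 f) fun u hu w hw => by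
    rw [← hγ u hu.1 w hw]
    simp [pf_apply, hu.2 f rfl]
  refine hQ.pair.slide_ne (p := f) ?_ hG' (fun a => ?_) (γ f - c) (hγ.trans ?_)
  · rw [mem_closure_iff_rk hF', insert_sdiff_singleton, insert_eq_of_mem hF', rk_coindep hco]
  · have r1 := rk_insert_of_mem a
    have r2 := rk_singleton_le (M ＼ {e}) f
    have r3 := (xc1_rot ht.swap12).rk_pair
    rw [rk_delete (by simp [ht.1, ht.2.1])] at r1
    omega
  · refine (hQ.pair.gf_eq (δ := (fun _ => c) + Pi.single f (γ f - c)) fun z hz => ?_).trans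
      fun u hu w hw => ?_
    · by_cases hz' : z = f
      · simp [hz']
      · simp [hz', hc' z ⟨hz, hz'⟩]
    · rw [gf_add, gf_single, LinearMap.add_apply, LinearMap.add_apply, hQ.orth c u hu w hw]
      simp

theorem free_hasR (hT : U2 M T) (ht : Tri M e f g) (hc : Con3 (M ＼ {e})) (hn : 5 ≤ M.E.ncard)
    (h1 : FreeT M e f g) (h2 : FreeT M f e g) : HasR M ∧ HasSite (M ＼ {e}) := by
  obtain ⟨U, W, h, -⟩ := hT.exists_obj s4 s4
  have hQ := xc2_del h ht
  obtain ⟨I, S, hl, h4, hg⟩ : ∃ I S, Line (M ＼ {e}) I S ∧ S.ncard = 4 ∧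
      ¬ Gauge (pf (co f) (co g)) (van (van U {e}) ((M ＼ {e}).E \ (I ∪ S))) (van W I) := by
    by_contra a
    exact h.slide_not_gauge ht hc hn (hQ.gauge_of_sites
      ((h.pair.val_slide_tri ht.swap12 h2).mono (van_le _ _) le_rfl)
      fun I S b c => not_not.1 fun d => a ⟨I, S, b, c, d⟩)
  exact ⟨frame_of_nonDeg ht h1 h2 hl h4 (not_not.1 fun a => hg
    (h.pair.gauge_of_not_nonDeg ht (hl.ind.subset_ground.trans sdiff_subset) a)),
    hl.hasSite hQ.tab h4.ge⟩

theorem xc2_nonDeg (h : Obj M T x x U W) (ht : Tri M e f g) (hc : Con3 (M ＼ {e}))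
    (hn : 5 ≤ M.E.ncard) (h2 : FreeT M f e g) (hu : Up (M ＼ {e}) (mnT ∅ {e} T))
    (hf : Frame (M ＼ {e}) I J) : NonDeg M e f g I J := by
  by_contra a
  have hQ := xc2_del h ht
  obtain ⟨v, hv⟩ := hu _ x _ _ hQ _
    ((h.pair.val_slide_tri ht.swap12 h2).mono (van_le _ _) le_rfl)
  have g1 := (h.pair.gauge_of_not_nonDeg ht (hf.op.sub_left.trans sdiff_subset) a).sub
    (hv.mono (van_le _ J) (van_le _ I))
  rw [hQ.eq_zero_of_frame (v := v) hf (g1.congr fun u _ w _ => by simp), dfm_zero] at hv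
  exact h.slide_not_gauge ht hc hn (hv.congr fun u _ w _ => by simp)

theorem free_not_hasR (hT : U2 M T) (ht : Tri M e f g) (hc : Con3 (M ＼ {e}))
    (hn : 5 ≤ M.E.ncard) (h1 : FreeT M e f g) (h2 : FreeT M f e g)
    (hu : Up (mn M ∅ {e}) (mnT ∅ {e} T)) : ¬ HasR (mn M ∅ {e}) := by
  rw [mn_empty_left] at hu ⊢
  obtain ⟨U, W, h, -⟩ := hT.exists_obj s4 s4
  rintro ⟨I, J, hf⟩
  exact not_frame_of_nonDeg hT ht h1 h2 (fun I J hf => xc2_nonDeg h ht hc hn h2 hu hf) hf

end Pool.Agent.Lib.MP_10bdcf_co.G
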