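import Pool.Agent.Lib.MP_10bdcf_co.XC2

/-!
The step of the induction for a matroid with a triangle and no triad.
-/

namespace Pool.Agent.Lib.MP_10bdcf_co.G

open scoped Matroid
open Set

set_option linter.unusedSectionVars false

variable {E : Type} [Fintype E] {M : Matroid E} {T : Set E → Matrix E E R0} {e f g : E}

theorem xc3_mem (ht : Tri M e f g) : e ∈ M.E ∧ f ∈ M.E ∧ g ∈ M.E :=
  have := ht.2.2.2.subset_ground
  ⟨this (by simp), this (by simp), this (by simp)⟩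

theorem xc3_cl (ht : Tri M e f g) : e ∈ M.closure (M.E \ {e}) := by
  obtain ⟨-, hf, hg⟩ := xc3_mem ht
  refine M.closure_subset_closure ?_ ht.mem_closure
  rintro z (rfl | rfl)
  exacts [⟨hf, ht.1.symm⟩, ⟨hg, ht.2.1.symm⟩]

theorem xc3_op (ht : Tri M e f g) : Op M ∅ {e} := by
  refine op_del (xc3_mem ht).1 ?_
  rw [← rk_insert_of_mem (xc3_cl ht), insert_sdiff_singleton, insert_eq_of_mem (xc3_mem ht).1]

theorem xc3_zero {F : Type} [Field F] {x : R0 →+* F} {U W : Sb F E} {v : F × F}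
    (h : Obj M T x x U W) (hR : HasR M) (hg : Gauge (dfm M T x v) U W) : v = 0 :=
  let ⟨_, _, hf⟩ := hR
  h.eq_zero_of_frame hf (hg.mono (van_le _ _) (van_le _ _))

theorem tri_coindep (hc : Con3 M) (hn : 5 ≤ M.E.ncard) (h : NoTri M✶) (ht : Tri M e f g) :
    rk M (M.E \ {e, f, g}) = rk M M.E := by
  obtain ⟨he, hf, hg⟩ := xc3_mem ht
  by_contra hr
  have := cb_triad hc (by omega) ht.1 ht.2.1 ht.2.2.1 he hf hg Subset.rfl
    (lt_of_le_of_ne (rk_le_rank M _) hr)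
  exact h e f g this.1 this.2.1 this.2.2.1 this.2.2.2

theorem tri_two (hc : Con3 M) (hn : 5 ≤ M.E.ncard) (h : NoTri M✶) (ht : Tri M e f g) :
    ∃ e' f' g', Tri M e' f' g' ∧ Con3 (M ＼ {e'}) ∧ Con3 (M ＼ {f'}) := by
  have key : ∀ a b c, Tri M a b c → Con3 (M ＼ {a}) ∨ Con3 (M ＼ {b}) := by
    intro a b c t
    by_contra hh
    obtain ⟨z, -, -, -, k | k⟩ := hc.triangle (by omega) t (fun k => hh (Or.inl k))
      fun k => hh (Or.inr k)
    all_goals exact h _ _ _ k.1 k.2.1 k.2.2.1 k.2.2.2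
  rcases key _ _ _ ht with k1 | k1
  · rcases key _ _ _ ht.swap12.swap23 with k2 | k2
    exacts [⟨_, _, _, ht, k1, k2⟩, ⟨_, _, _, ht.swap23, k1, k2⟩]
  · rcases key _ _ _ ht.swap23 with k2 | k2
    exacts [⟨_, _, _, ht, k2, k1⟩, ⟨_, _, _, ht.swap12.swap23, k1, k2⟩]

theorem good_tri_fixed (hT : U2 M T) (ht : Tri M e f g) (hl : XLinked M e f g)
    (hf : ¬ FreeT M e f g) (hg : GoodT (mn M ∅ {e}) (mnT ∅ {e} T)) : GoodT M T := by
  have ho := xc3_op ht
  have af : AllFix M T e := fun F _ x U W h => h.pair.fix_tri ht hf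
  refine ⟨Up.of_fix ho af hg.up, OneT.of_fix hT ho af hg.one, fun hR F _ x y U W tw h => ?_⟩
  have hR' : HasR (mn M ∅ {e}) := by
    by_contra hn
    obtain ⟨v, hv, hk⟩ := hg.one.exists_kv (hT.minor ho) hn x
    obtain ⟨U', W', h', -⟩ := hT.exists_obj x x
    exact hv (xc3_zero h' hR (h'.k_iff.2 (h'.kv_of_fix ho (af F x U' W' h') hk)))
  obtain ⟨φ, h1, h2⟩ := hg.ex hR' F x y _ _ tw (h.minor ho)
  rw [van_empty] at h1 h2
  obtain ⟨ψ, h3, h4⟩ := h.pair.extend_tri ht hl h1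
  exact ⟨ψ, h3, fun k => h2 ((k.mono (van_le _ _) le_rfl).congr h4.symm)⟩

theorem good_tri_free (hT : U2 M T) (ht : Tri M e f g) (hc : Con3 (M ＼ {e}))
    (hn : 5 ≤ M.E.ncard) (h1 : FreeT M e f g) (h2 : FreeT M f e g)
    (hg : GoodT (mn M ∅ {e}) (mnT ∅ {e} T)) : GoodT M T := by
  have ho := xc3_op ht
  obtain ⟨he, hf, hg'⟩ := xc3_mem ht
  obtain ⟨hR, hS⟩ := free_hasR hT ht hc hn h1 h2
  have nR := free_not_hasR hT ht hc hn h1 h2 hg.up
  have hr : rk M {e, g} = 2 := ht.swap23.rk_pair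
  refine ⟨fun F _ x U W h φ hφ => ?_, fun k => absurd hR k, fun _ F _ x y U W tw h =>
    ⟨pf (co e) (co g), h.pair.val_slide_tri ht h1, fun ⟨γ, hγ⟩ => ?_⟩⟩
  · have kl : ∀ ψ : Fm F E, Val ψ U W → Gauge ψ (van U {e}) (van W ∅) →
        ∃ c : F, Gauge (ψ - c • pf (co e) (co g)) U W := fun ψ a b =>
      h.pair.ker_line hg' hf ht.2.1 ht.1 ht.swap23.mem_closure hr a (by simpa using b)
    obtain ⟨v, hv⟩ := h.up_minor ho hg.up (hφ.mono (van_le _ _) (van_le _ _))
    obtain ⟨c, hc'⟩ := kl _ (hφ.sub (h.dfm_val v)) hv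
    obtain ⟨w, hw, hk⟩ := hg.one.exists_kv (hT.minor ho) nR x
    obtain ⟨β, hβ⟩ := kl _ (h.dfm_val w) ((h.k_minor_iff ho).2 hk)
    have b0 : β ≠ 0 := by
      rintro rfl
      exact hw (xc3_zero h hR (hβ.congr fun u _ z _ => by simp))
    refine ⟨v + (c / β) • w, (hc'.sub (hβ.smul (c / β))).congr fun u _ z _ => ?_⟩
    rw [dfm_add, dfm_smul]
    simp only [LinearMap.sub_apply, LinearMap.add_apply, LinearMap.smul_apply, smul_eq_mul]
    field_simp
    ring
  · have h0 := (h.minor ho).ker_tw (γ := γ) tw (by rw [mn_empty_left]; exact hc.mono (by omega))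
      (by rw [mn_empty_left]; exact hS) fun u hu w hw => by
        rw [← hγ u hu.1 w hw.1, pf_apply, co_apply, (mem_van_one.1 hu).2]
        simp
    refine h.pair.slide_ne (xc3_cl ht) hg' (fun k => ?_) (γ e) fun u hu w hw => ?_
    · have a1 := rk_insert_of_mem k
      have a2 := rk_singleton_le M e
      rw [pair_comm] at hr
      omega
    rw [hγ u hu w hw, gf_apply, Finset.sum_eq_single e (fun z _ hz => ?_) (by simp)]
    · simp only [pf_apply, co_apply, LinearMap.smul_apply, smul_eq_mul]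
      ring
    by_cases hzE : z ∈ M.E
    · rw [h0 z (by rw [mn_ground]; exact ⟨hzE, by simpa using hz⟩), zero_mul]
    · rcases h.out z hzE with k | k
      exacts [by rw [k u hu]; simp, by rw [k w hw]; simp]

theorem step_tri_of (tl : ∀ T e f g, U2 M T → Tri M e f g → Con3 (M ＼ {e}) →
      rk M (M.E \ {e, f, g}) = rk M M.E → XLinked M e f g)
    (h2 : IHm M) (hc : Con3 M) (hn : 5 ≤ M.E.ncard) (h : NoTri M✶) (ht : Tri M e f g) :
    GoodM M := by
  obtain ⟨a, b, c, t, c1, c2⟩ := tri_two hc hn h ht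
  intro T hT
  have hg : ∀ {a b c : E}, Tri M a b c → Con3 (M ＼ {a}) → GoodT (mn M ∅ {a}) (mnT ∅ {a} T) :=
    fun t k => h2 _ _ (xc3_op t) (by simp) (by rw [mn_empty_left]; exact k) _ (hT.minor (xc3_op t))
  by_cases f1 : FreeT M a b c
  · by_cases f2 : FreeT M b a c
    · exact good_tri_free hT t c1 hn f1 f2 (hg t c1)
    · exact good_tri_fixed hT t.swap12 (tl T _ _ _ hT t.swap12 c2 (tri_coindep hc hn h t.swap12))
        f2 (hg t.swap12 c2)
  · exact good_tri_fixed hT t (tl T _ _ _ hT t c1 (tri_coindep hc hn h t)) f1 (hg t c1)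

end Pool.Agent.Lib.MP_10bdcf_co.G
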