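import Pool.Agent.Lib.MP_10bdcf_co.XG1
import Pool.Agent.Lib.MP_10bdcf_co.ZI

/-!
Exact 3-separations: linking, skew sets with three classes, a smallest side.
-/

namespace Pool.Agent.Lib.MP_10bdcf_co.G

open scoped Matroid
open Set

set_option linter.unusedSectionVars false

variable {E : Type} [Fintype E] {M : Matroid E} {A B S X Y I J IA IB : Set E} {b : E}

/-- Linking by a set that is skew to both sides. -/
theorem link {k : ℕ} (hX : X ⊆ M.E) (hY : Y ⊆ M.E) (hd : Disjoint X Y)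
    (hk : ∀ Z, X ⊆ Z → Z ⊆ M.E \ Y → k ≤ lam M Z) :
    ∃ I ⊆ M.E \ (X ∪ Y), rk M (X ∪ I) = rk M X + I.ncard ∧ rk M (Y ∪ I) = rk M Y + I.ncard ∧
      rk M (X ∪ Y ∪ I) + I.ncard + k ≤ rk M (X ∪ I) + rk M (Y ∪ I) := by
  induction hn : (M.E \ (X ∪ Y)).ncard generalizing M with
  | zero =>
    have h0 : M.E \ (X ∪ Y) = ∅ := (ncard_eq_zero).1 hn
    have h1 := hk X Subset.rfl (subset_sdiff.2 ⟨hX, hd⟩)
    have h2 := lam_add M X
    have h3 := rk_mono M (show M.E \ X ⊆ Y from fun z hz => by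
      by_contra h
      exact (h0 ▸ (⟨hz.1, fun h' => h'.elim hz.2 h⟩ : z ∈ M.E \ (X ∪ Y)) : z ∈ (∅ : Set E)))
    have h4 := rk_le_rank M (X ∪ Y)
    refine ⟨∅, empty_subset _, by simp, by simp, ?_⟩
    simp only [union_empty, ncard_empty]
    omega
  | succ n ih =>
    obtain ⟨e, he⟩ := nonempty_of_ncard_ne_zero (s := M.E \ (X ∪ Y)) (by omega)
    have hc := ncard_sdiff_singleton_add_one he
    have hs : (M.E \ {e}) \ (X ∪ Y) = (M.E \ (X ∪ Y)) \ {e} := Set.sdiff_sdiff_comm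
    by_cases hD : ∀ Z, X ⊆ Z → Z ⊆ (M ＼ {e}).E \ Y → k ≤ lam (M ＼ {e}) Z
    · obtain ⟨I, i1, i2, i3, i4⟩ := ih (M := M ＼ {e}) (by rw [Matroid.delete_ground]; grind)
        (by rw [Matroid.delete_ground]; grind) hD (by rw [Matroid.delete_ground, hs]; omega)
      rw [Matroid.delete_ground] at i1
      have d1 : Disjoint (X ∪ I) {e} := by grind
      have d2 : Disjoint (Y ∪ I) {e} := by grind
      rw [rk_delete d1, rk_delete (d1.mono_left subset_union_left)] at i2
      rw [rk_delete d2, rk_delete (d2.mono_left subset_union_left)] at i3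
      rw [rk_delete d1, rk_delete d2, rk_delete (by grind)] at i4
      exact ⟨I, by grind, i2, i3, i4⟩
    simp only [not_forall, not_le, Matroid.delete_ground] at hD
    obtain ⟨Z, z1, z2, z3⟩ := hD
    have z4 : Z ⊆ M.E \ {e} := z2.trans sdiff_subset
    have a1 := cb_del z4
    have a2 := rk_le_rank M (M.E \ {e})
    have c1 : e ∉ M.closure X := fun h => by
      have b1 := hk (insert e Z) (by grind) (by grind)
      have b2 := lam_add M (insert e Z)
      have b3 := rk_insert_of_mem (M.closure_subset_closure z1 h)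
      have b4 := rk_mono M (show M.E \ insert e Z ⊆ (M.E \ {e}) \ Z by grind)
      omega
    have c2 : e ∉ M.closure Y := fun h => by
      have b1 := hk Z z1 (by grind)
      have b2 := lam_add M Z
      have b3 := rk_insert_of_mem (M.closure_subset_closure
        (show Y ⊆ (M.E \ {e}) \ Z by grind) h)
      have b4 := rk_mono M (show M.E \ Z ⊆ insert e ((M.E \ {e}) \ Z) by grind)
      omega
    obtain ⟨I, i1, i2, i3, i4⟩ := ih (M := M ／ {e}) (by rw [Matroid.contract_ground]; grind)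
      (by rw [Matroid.contract_ground]; grind) (fun W w1 w2 => by
        rw [Matroid.contract_ground] at w2
        have b1 := bixby_coullard he.1 z4 (Y := W) (w2.trans sdiff_subset)
        have b2 := hk (Z ∩ W) (by grind) (by grind)
        have b3 := hk (M.E \ ((M.E \ {e}) \ (Z ∪ W))) (by grind) (by grind)
        rw [lam_compl (by grind)] at b3
        omega) (by rw [Matroid.contract_ground, hs]; omega)
    rw [Matroid.contract_ground] at i1
    have e1 := rk_insert_of_notMem he.1 c1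
    have e2 := rk_insert_of_notMem he.1 c2
    have e3 := rk_insert_of_notMem he.1 (X := ∅)
      fun h => c1 (M.closure_subset_closure (empty_subset _) h)
    have e4 : ∀ W, rk (M ／ {e}) W + 1 = rk M (insert e W) := fun W => by
      have := rk_contract M {e} W
      rw [union_singleton] at this
      simp only [insert_empty_eq, rk_empty] at e3
      omega
    have e5 := ncard_insert_of_notMem (a := e) (s := I) (by grind)
    have f1 := e4 X
    have f2 := e4 Y
    have f3 := e4 (X ∪ I)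
    have f4 := e4 (Y ∪ I)
    have f5 := e4 (X ∪ Y ∪ I)
    refine ⟨insert e I, by grind, ?_, ?_, ?_⟩ <;> simp only [union_insert] <;> omega

/-- After contracting `I` the set `B` meets three parallel classes. -/
def Tri3 (M : Matroid E) (B I : Set E) : Prop :=
  ∃ b1 ∈ B, ∃ b2 ∈ B, ∃ b3 ∈ B, rk M (I ∪ {b1, b2}) = I.ncard + 2 ∧
    rk M (I ∪ {b1, b3}) = I.ncard + 2 ∧ rk M (I ∪ {b2, b3}) = I.ncard + 2

theorem xd1_skew {W : Set E} (h : rk M (X ∪ I) = rk M X + I.ncard) (hW : W ⊆ X) :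
    rk M W + I.ncard ≤ rk M (W ∪ I) := by
  have := rk_submod' M (X := W ∪ I) (Y := X) (P := W) (Q := X ∪ I) subset_union_left hW (by grind)
  omega

theorem xd1_le (M : Matroid E) (I : Set E) (p q : E) : rk M (I ∪ {p, q}) ≤ I.ncard + 2 := by
  have h1 := rk_insert_le M p (insert q I)
  have h2 := rk_insert_le M q I
  have h3 := rk_le_ncard M I
  rw [show I ∪ {p, q} = insert p (insert q I) by grind]
  omega

theorem xd1_pair {p q : E} (h : rk M (I ∪ {p, q}) = I.ncard + 2) :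
    p ∉ I ∧ q ∉ I ∧ p ≠ q ∧ rk M (insert p I) = I.ncard + 1 ∧ rk M (insert q I) = I.ncard + 1 := by
  have h1 := rk_insert_le M p (insert q I)
  have h2 := rk_insert_le M q (insert p I)
  have h3 := rk_insert_le M p I
  have h4 := rk_insert_le M q I
  have h5 := rk_le_ncard M I
  rw [show I ∪ {p, q} = insert p (insert q I) by grind] at h
  rw [insert_comm] at h2
  refine ⟨fun e => ?_, fun e => ?_, fun e => ?_, by omega, by omega⟩
  · rw [insert_eq_of_mem (mem_insert_of_mem _ e)] at h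
    omega
  · rw [insert_eq_of_mem e] at h
    omega
  · rw [e, insert_eq_of_mem (mem_insert _ _)] at h
    omega

theorem xd1_two (h : Tri3 M B I) (P : E → Prop) : ∃ p ∈ B, ∃ q ∈ B,
    rk M (I ∪ {p, q}) = I.ncard + 2 ∧ (P p ∧ P q ∨ ¬ P p ∧ ¬ P q) := by
  obtain ⟨b1, h1, b2, h2, b3, h3, r1, r2, r3⟩ := h
  by_cases e1 : P b1 <;> by_cases e2 : P b2 <;> by_cases e3 : P b3
  exacts [⟨_, h1, _, h2, r1, by tauto⟩, ⟨_, h1, _, h2, r1, by tauto⟩, ⟨_, h1, _, h3, r2, by tauto⟩,
    ⟨_, h2, _, h3, r3, by tauto⟩, ⟨_, h2, _, h3, r3, by tauto⟩, ⟨_, h1, _, h3, r2, by tauto⟩,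
    ⟨_, h1, _, h2, r1, by tauto⟩, ⟨_, h1, _, h2, r1, by tauto⟩]

theorem xd1_set (h : Tri3 M B I) : ∃ T ⊆ B, T.ncard = 3 ∧
    ∀ p ∈ T, ∀ q ∈ T, p ≠ q → rk M (I ∪ {p, q}) = I.ncard + 2 := by
  obtain ⟨b1, h1, b2, h2, b3, h3, r1, r2, r3⟩ := h
  refine ⟨{b1, b2, b3}, by grind,
    cb_three (xd1_pair r1).2.2.1 (xd1_pair r2).2.2.1 (xd1_pair r3).2.2.1, ?_⟩
  rintro p (rfl | rfl | rfl) q (rfl | rfl | rfl) e <;>
    first | exact absurd rfl e | assumption | (rw [pair_comm]; assumption)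

theorem exists_tri3 (hc : Con3 M) (hs : Split M A B ∅) (h2 : 2 ≤ A.ncard) (hn : 4 ≤ M.E.ncard)
    (hB : ¬ M.Indep B) : ∃ I, Skew M A B I ∧ Tri3 M B I := by
  have hA : A ⊆ M.E := subset_union_left.trans (xg1_subA hs)
  have hBE : B ⊆ M.E := subset_union_left.trans (xg1_subA hs.symm)
  have hg : M.E = A ∪ B := by simpa using hs.ground
  have hab := hs.ab
  have hle := hs.le
  obtain ⟨C, hCB, hC⟩ := (Matroid.Dep.exists_isCircuit_subset ⟨hB, hBE⟩)
  have c1 := isCircuit_rk hC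
  have c2 : 3 ≤ C.ncard := by
    by_contra h
    exact hC.dep.not_indep (hc.indep hn hC.subset_ground (by omega))
  obtain ⟨I1, i1, i2, i3, i4⟩ := link (k := 2) hA hC.subset_ground (hab.mono_right hCB)
    fun Z z1 z2 => hc.le_lam (z2.trans sdiff_subset) le_rfl (h2.trans (ncard_le_ncard z1))
      ((by omega : 2 ≤ C.ncard).trans (ncard_le_ncard (by grind)))
  have a1 := rk_submod' M (X := A ∪ C ∪ I1) (Y := B) (P := C ∪ I1) (Q := M.E) (by grind) (by grind)
    (by grind)
  obtain ⟨K, -, k1, k2, k3⟩ := exists_skew (M := M) (X := A ∪ I1) (Y := C) (I := ∅) (by grind)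
    hC.subset_ground (empty_subset _) (by simp)
  rw [union_right_comm A I1 C] at k3
  have k4 := ncard_sdiff_add_ncard_of_subset k1
  obtain ⟨b1, b2, b3, n1, n2, n3, hb⟩ := ncard_eq_three.1 (show (C \ K).ncard = 3 by omega)
  have k5 : (I1 ∪ K).ncard = I1.ncard + K.ncard := ncard_union_eq (by grind)
  obtain ⟨I, j1, j2, j3, j4⟩ := exists_skew (M := M) (X := A) (Y := B) (I := I1 ∪ K) hA hBE
    (by grind) (by rw [← union_assoc]; omega)
  have key : ∀ p ∈ C \ K, ∀ q ∈ C \ K, ∀ z ∈ C \ K, p ≠ q → z ≠ p → z ≠ q →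
      rk M (I ∪ {p, q}) = I.ncard + 2 := by
    intro p hp q hq z hz h1 h3 h4
    have e1 := rk_indep (hC.ssubset_indep (X := K ∪ {p, q})
      ⟨by grind, fun h => by have := h hz.1; grind⟩)
    rw [ncard_union_eq (by grind), ncard_pair h1] at e1
    have e2 := xd1_skew i3 (W := K ∪ {p, q}) (by grind)
    have e3 := rk_submod' M (X := I ∪ {p, q}) (Y := A ∪ C ∪ I1) (P := K ∪ {p, q} ∪ I1) (Q := A ∪ I)
      (by clear * - j1; grind) (by clear * - k1 hp hq; grind) (by clear * -; grind)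
    have e4 := xd1_le M I p q
    omega
  have m1 : b1 ∈ C \ K := by rw [hb]; simp
  have m2 : b2 ∈ C \ K := by rw [hb]; simp
  have m3 : b3 ∈ C \ K := by rw [hb]; simp
  exact ⟨I, ⟨j2, j3, by rw [j4, hg]⟩, b1, hCB m1.1, b2, hCB m2.1, b3, hCB m3.1,
    key _ m1 _ m2 _ m3 n1 n2.symm n3.symm, key _ m1 _ m3 _ m2 n2 n1.symm n3,
    key _ m2 _ m3 _ m1 n3 n1 n2⟩

/-- An exact 3-separation with a smallest side `A`. -/
structure TS0 (M : Matroid E) (A B : Set E) : Prop where
  split : Split M A B ∅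
  exact : rk M A + rk M B = rk M M.E + 2
  ltA : rk M A < rk M M.E
  ltB : rk M B < rk M M.E
  depA : ¬ M.Indep A
  depB : ¬ M.Indep B
  fourA : 4 ≤ A.ncard
  fourB : 4 ≤ B.ncard
  min : ∀ a ∈ A, 3 ≤ lam M (A \ {a})

theorem xd1_three (hc : Con3 M) (h1 : NoTri M) (hn : 4 ≤ M.E.ncard) (hX : X ⊆ M.E)
    (h3 : 3 ≤ X.ncard) : 3 ≤ rk M X := by
  obtain ⟨e, he, f, hf, g, hg, n1, n2, n3⟩ := (two_lt_ncard (s := X)).1 h3
  have a1 := rk_indep (hc.indep hn (X := {e, f}) (by grind) (ncard_pair n1).le)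
  have a2 := rk_mono M (show ({e, f} : Set E) ⊆ {e, f, g} by grind)
  have a3 := rk_mono M (show {e, f, g} ⊆ X by grind)
  have a4 : rk M {e, f, g} ≠ 2 := fun h => h1 e f g n1 n2 n3
    ((hc.tri_iff hn).2 ⟨n1, n2, n3, hX he, hX hf, hX hg, h⟩).2.2.2
  rw [ncard_pair n1] at a1
  omega

theorem exists_ts0 (hc : Con3 M) (h1 : NoTri M) (h2 : NoTri M✶) (hn : 5 ≤ M.E.ncard)
    (h4 : ¬ Con4 M) : ∃ A B, TS0 M A B := by
  have hn4 : 4 ≤ M.E.ncard := by omega
  simp only [ConK, not_forall, not_or, not_le] at h4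
  obtain ⟨X, x0, x1, x2, x3⟩ := h4
  have x4 : ¬ lam M X < 2 := fun h => by
    have := hc X x0 h
    omega
  obtain ⟨A, ⟨a0, a1, a2, a3⟩, hm⟩ := exists_min_image
    {Z | Z ⊆ M.E ∧ lam M Z ≤ 2 ∧ 3 ≤ Z.ncard ∧ 3 ≤ (M.E \ Z).ncard} ncard (toFinite _)
    ⟨X, x0, by omega, by omega, by omega⟩
  have b1 := hc.le_lam a0 le_rfl (by omega) (by omega)
  have b2 := lam_add M A
  have b3 := lam_eq a0
  have b4 := lam_eq (M := M) (X := M.E \ A) sdiff_subset
  rw [lam_compl a0] at b4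
  have b5 := xd1_three hc h1 hn4 a0 a2
  have b6 := xd1_three hc h1 hn4 sdiff_subset a3
  have b7 := xd1_three (M := M✶) hc.dual h2 hn4 a0 a2
  have b8 := xd1_three (M := M✶) (X := M.E \ A) hc.dual h2 hn4 sdiff_subset a3
  refine ⟨A, M.E \ A, ⟨by simp [union_eq_self_of_subset_left a0], disjoint_sdiff_right, by simp,
    by simp, by simp, by simp, by omega⟩, by omega, by omega, by omega, fun h => ?_, fun h => ?_,
    by omega, by omega, fun a ha => ?_⟩
  · have := rk_indep h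
    omega
  · have := rk_indep h
    omega
  · by_contra h
    have c1 := ncard_sdiff_singleton_add_one ha
    have c2 := hm (A \ {a}) ⟨sdiff_subset.trans a0, by omega, by omega,
      a3.trans (ncard_le_ncard (sdiff_subset_sdiff_right sdiff_subset))⟩
    omega

theorem Skew.op (hs : Split M A B S) (hI : Skew M A B I) (hJ : J ⊆ M.E \ (A ∪ I)) : Op M I J := by
  have h1 : A ∪ I ⊆ M.E := union_subset (subset_union_left.trans (xg1_subA hs))
    (hI.sub.trans (subset_union_left.trans (xg1_subA hs.symm)))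
  have h2 := rk_mono M (show A ∪ I ⊆ M.E \ J by grind)
  have h3 := rk_le_rank M (M.E \ J)
  have h4 := hI.span
  exact op_iff_rk.2 ⟨rk_indep hI.indep, hJ.trans sdiff_subset, by omega, by grind⟩

/-- The connectivity function of the deletion of `S` at a part of `A`. -/
theorem xd1_lam (hs : Split M A B S) (hI : Skew M A B I) (hX : X ⊆ A) :
    lam (M ＼ S) X + rk M M.E = rk M X + rk M (A \ X ∪ B) := by
  have hg := hs.ground
  have h1 := hs.as
  have h2 := hs.bs
  have h3 := hs.ab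
  have h4 := hI.sub
  have a1 := cc_lam_del M S X
  have a2 := rk_mono M (show A ∪ I ⊆ M.E \ S by grind)
  have a3 := rk_le_rank M (M.E \ S)
  have a4 := hI.span
  rw [show X \ S = X by grind, show M.E \ (X ∪ S) = A \ X ∪ B by grind] at a1
  omega

theorem xd1_low (hs : Split M A B S) (hc : Con3 (M ＼ S)) (h2 : 2 ≤ B.ncard) (hX : X ⊆ A) :
    min 2 X.ncard ≤ lam (M ＼ S) X := by
  have hg := hs.ground
  have h1 := hs.as
  have h3 := hs.bs
  have h4 := hs.ab
  exact cb_low hc (by rw [Matroid.delete_ground]; grind)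
    (h2.trans (ncard_le_ncard (by rw [Matroid.delete_ground]; grind)))

theorem xd1_mn (hs : Split M A B S) (hI : Skew M A B I) (hJ : J ⊆ S) (hX : X ⊆ (mn M I J).E) :
    rk (mn M I J) X + I.ncard = rk M (X ∪ I) ∧
      lam (mn M I J) X + rk M A = rk (mn M I J) X + rk (mn M I J) ((mn M I J).E \ X) := by
  have hg := hs.ground
  have h1 := hs.as
  have h2 := hs.bs
  have h4 := hI.sub
  have ho := hI.op hs (J := J) (by grind)
  have a1 := ho.rank
  have a2 := lam_add (mn M I J) X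
  have a3 := hI.skew
  have a4 := hI.span
  exact ⟨ho.rk_mn (ca_dis_right M (mn_ground M I J ▸ hX)), by omega⟩

theorem xd1_key (hs : Split M A B S) (hc : Con3 (M ＼ S)) (hI : Skew M A B I) (hJ : J ⊆ S)
    (h2 : 2 ≤ B.ncard) (hX : X ⊆ (mn M I J).E)
    (hB : B ⊆ M.closure ((mn M I J).E \ X ∪ I)) :
    min (rk (mn M I J) X) 2 ≤ lam (mn M I J) X := by
  have hg := hs.ground
  have h1 := hs.as
  have h3 := hs.ab
  have h4 := hI.sub
  obtain ⟨a1, a2⟩ := xd1_mn hs hI hJ hX
  have a3 := (xd1_mn hs hI hJ (X := (mn M I J).E \ X) sdiff_subset).1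
  have a4 := rk_union_of_subset_closure hB
  have a5 := rk_mono M (show A \ (X ∩ A) ∪ B ⊆ (mn M I J).E \ X ∪ I ∪ B by
    rw [mn_ground]; grind)
  have a6 := xd1_lam hs hI (X := X ∩ A) inter_subset_right
  have a7 := xd1_low hs hc h2 (X := X ∩ A) inter_subset_right
  have a8 := xd1_skew hI.skew (W := X ∩ A) inter_subset_right
  have a9 := rk_mono M (show X ∩ A ∪ I ⊆ X ∪ I by grind)
  have b1 := rk_le_ncard M (X ∩ A)
  have b2 := hI.skew
  have b3 := hI.span
  omega

theorem v3L_con (hs : Split M A B S) (hc : Con3 (M ＼ S)) (hI : Skew M A B I) (ht : Tri3 M B I)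
    (hJ : J ⊆ S) : V3L (mn M I J) := by
  intro X hX
  obtain ⟨p, hp, q, hq, h1, h2⟩ := xd1_two ht (· ∈ X)
  obtain ⟨p1, q1, hne, -⟩ := xd1_pair h1
  have hg := hs.ground
  have hbs := hs.bs
  have h3 : 2 ≤ B.ncard := (ncard_pair hne).symm.le.trans (ncard_le_ncard (pair_subset hp hq))
  have h4 : B ⊆ M.closure (I ∪ {p, q}) := by
    refine subset_closure_of_rk (by grind) ?_
    have a1 := hs.le
    have a2 := hI.skew
    have a3 := hI.span
    rw [union_eq_self_of_subset_left (union_subset hI.sub (pair_subset hp hq))]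
    omega
  have hX' := hX
  rw [mn_ground] at hX'
  rcases h2 with h2 | h2
  · have := xd1_key hs hc hI hJ h3 (X := (mn M I J).E \ X) sdiff_subset
      (h4.trans (M.closure_subset_closure (by rw [mn_ground]; grind)))
    rw [lam_compl hX] at this
    omega
  · have := xd1_key hs hc hI hJ h3 hX
      (h4.trans (M.closure_subset_closure (by rw [mn_ground]; grind)))
    omega

theorem v3L_con2 (hs : Split M A B S) (hc : Con3 (M ＼ S)) (hI : Skew M A B I)
    (hex : rk M A + rk M B = rk M M.E + 2) (hmin : ∀ a ∈ A, 3 ≤ lam (M ＼ S) (A \ {a}))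
    (hb : b ∈ B) (hb1 : b ∉ M.closure I)
    (hf : ∀ X ⊆ A, b ∈ M.closure (X ∪ I) → B ⊆ M.closure (X ∪ I)) : V3L (mn M I S) := by
  have hg := hs.ground
  have h1 := hs.as
  have h3 := hs.ab
  have h4 := hI.sub
  have h5 := hs.bs
  have b2 := hI.skew
  have b3 := hI.span
  have h2 : 2 ≤ B.ncard := by
    have := rk_le_ncard M B
    omega
  have hbI : b ∉ I := fun e => hb1 (M.subset_closure I (by grind) e)
  have key : ∀ X ⊆ (mn M I S).E, b ∉ X →
      min (min (rk (mn M I S) X) (rk (mn M I S) ((mn M I S).E \ X))) 2 ≤ lam (mn M I S) X := by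
    intro X hX hbX
    by_cases c1 : B ⊆ M.closure ((mn M I S).E \ X ∪ I)
    · have := xd1_key hs hc hI Subset.rfl h2 hX c1
      omega
    obtain ⟨a1, a2⟩ := xd1_mn hs hI Subset.rfl hX
    have a3 := (xd1_mn hs hI Subset.rfl (X := (mn M I S).E \ X) sdiff_subset).1
    by_contra hlt
    have hX' := hX
    rw [mn_ground] at hX'
    have s1 : A \ X ∪ I ⊆ (mn M I S).E \ X ∪ I := by rw [mn_ground]; grind
    have d1 := rk_insert_of_notMem (by grind : b ∈ M.E) (X := A \ X ∪ I)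
      fun e => c1 ((hf _ sdiff_subset e).trans (M.closure_subset_closure s1))
    have d2 := rk_mono M (show insert b (A \ X ∪ I) ⊆ (mn M I S).E \ X ∪ I by
      rw [mn_ground]; grind)
    obtain ⟨z, hz, hz'⟩ := not_subset.1 c1
    have hzX : z ∈ X := by
      by_contra e
      exact hz' (M.subset_closure _ (by rw [mn_ground]; grind) (by rw [mn_ground]; grind))
    have d3 := rk_insert_of_notMem (by grind : z ∈ M.E) (X := I)
      fun e => hz' (M.closure_subset_closure subset_union_right e)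
    have d4 := rk_indep hI.indep
    have d5 := xd1_skew hI.skew (W := X ∩ A) inter_subset_right
    have d6 := xd1_skew hI.skew (W := A \ X) sdiff_subset
    have d7 := rk_mono M (show X ∩ A ∪ I ⊆ X ∪ I by grind)
    have d8 := (rk_mono M (show A ⊆ X ∩ A ∪ A \ X by grind)).trans (rk_union_le M _ _)
    have d9 := rk_submod' M (X := X ∪ I) (Y := B) (P := insert z I) (Q := X ∩ A ∪ B) (by grind)
      (by grind) (by grind)
    have e1 := xd1_lam hs hI (X := X ∩ A) inter_subset_right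
    have e2 := xd1_lam hs hI (X := A \ X) sdiff_subset
    rw [show A \ (X ∩ A) = A \ X by grind] at e1
    rw [show A \ (A \ X) = X ∩ A by grind] at e2
    have e3 := rk_union_le M (A \ X) B
    have e4 := xd1_low hs hc h2 (X := X ∩ A) inter_subset_right
    have e5 := xd1_low hs hc h2 (X := A \ X) sdiff_subset
    have e6 := rk_le_ncard M (X ∩ A)
    have e7 := rk_le_ncard M (A \ X)
    obtain ⟨a, ha⟩ := ncard_eq_one.1 (show (A \ X).ncard = 1 by omega)
    have e8 := hmin a (ha ▸ (rfl : a ∈ ({a} : Set E)) : a ∈ A \ X).1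
    rw [← ha, show A \ (A \ X) = X ∩ A by grind] at e8
    omega
  intro X hX
  by_cases e : b ∈ X
  · have := key _ sdiff_subset fun h => h.2 e
    rw [lam_compl hX, sdiff_sdiff_cancel_left hX] at this
    omega
  · exact key X hX e

theorem xd1_line (hs : Split M A B S) (hA : Skew M B A IA) (hB : Skew M A B IB)
    (hex : rk M A + rk M B = rk M M.E + 2) :
    (IA ∪ IB).ncard = IA.ncard + IB.ncard ∧ rk M M.E = (IA ∪ IB).ncard + 2 := by
  have a1 : (IA ∪ IB).ncard = IA.ncard + IB.ncard := ncard_union_eq (hs.ab.mono hA.sub hB.sub)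
  have a2 := hA.skew
  have a3 := hA.span
  have a4 := hB.skew
  have a5 := hB.span
  omega

theorem xd1_lift {p q : E} (hs : Split M A B S) (hA : Skew M B A IA) (hB : Skew M A B IB)
    (hp : p ∈ B) (hq : q ∈ B) (h : rk M (IB ∪ {p, q}) = IB.ncard + 2) :
    rk M (IA ∪ IB ∪ {p, q}) = (IA ∪ IB).ncard + 2 := by
  have a1 : (IA ∪ IB).ncard = IA.ncard + IB.ncard := ncard_union_eq (hs.ab.mono hA.sub hB.sub)
  have a2 := xd1_skew hA.skew (union_subset hB.sub (pair_subset hp hq))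
  have a3 := xd1_le M (IA ∪ IB) p q
  rw [union_comm _ IA, ← union_assoc] at a2
  omega

theorem conL_line (hs : Split M A B S) (hA : Skew M B A IA) (hB : Skew M A B IB)
    (hex : rk M A + rk M B = rk M M.E + 2) (ht : Tri3 M B IB) :
    rk (mn M (IA ∪ IB) ∅) (mn M (IA ∪ IB) ∅).E = 2 ∧ ConL (mn M (IA ∪ IB) ∅) := by
  obtain ⟨a1, a2⟩ := xd1_line hs hA hB hex
  have ho : Op M (IA ∪ IB) ∅ := ⟨hs.indep_union hA hB, M✶.empty_indep, by simp⟩
  have a3 := ho.rank
  refine ⟨by omega, fun X hX h0 => ?_⟩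
  obtain ⟨p, hp, q, hq, h1, h2⟩ := xd1_two ht (· ∈ X)
  have a4 := xd1_lift hs hA hB hp hq h1
  obtain ⟨p1, q1, -⟩ := xd1_pair a4
  have a5 := ho.rk_mn (X := {p, q}) (by simp)
  have a6 := lam_add (mn M (IA ∪ IB) ∅) X
  have hg := hs.ground
  rw [union_comm {p, q}, a4] at a5
  rcases h2 with h2 | h2
  · have := rk_mono (mn M (IA ∪ IB) ∅) (pair_subset h2.1 h2.2)
    omega
  · have := rk_mono (mn M (IA ∪ IB) ∅) (show {p, q} ⊆ (mn M (IA ∪ IB) ∅).E \ X by
      rw [mn_ground]; grind)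
    omega

/-- Five points on the line, or two common points. -/
theorem hasR_or_two (hs : Split M A B S) (hsat : Sat M A B S) (hA : Skew M B A IA)
    (hB : Skew M A B IB) (hex : rk M A + rk M B = rk M M.E + 2) (h1 : Tri3 M A IA)
    (h2 : Tri3 M B IB) : HasR (mn M (IA ∪ IB) ∅) ∨ ∃ s ∈ S, ∃ t ∈ S, s ≠ t := by
  obtain ⟨a1, a2⟩ := xd1_line hs hA hB hex
  obtain ⟨T, t1, t2, t3⟩ := xd1_set h1
  have t4 : ∀ p ∈ T, ∀ q ∈ T, p ≠ q → rk M (IA ∪ IB ∪ {p, q}) = (IA ∪ IB).ncard + 2 :=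
    fun p hp q hq e => union_comm IA IB ▸ xd1_lift hs.symm hB hA (t1 hp) (t1 hq) (t3 p hp q hq e)
  obtain ⟨p, hp, q, hq, r1, r2⟩ := xd1_two h2
    fun z => ∃ a ∈ T, rk M (IA ∪ IB ∪ {a, z}) ≠ (IA ∪ IB).ncard + 2
  have r3 := xd1_lift hs hA hB hp hq r1
  obtain ⟨-, -, hne, p1, q1⟩ := xd1_pair r1
  obtain ⟨-, -, -, p2, q2⟩ := xd1_pair r3
  have hg := hs.ground
  have hab := hs.ab
  rcases r2 with ⟨⟨a, ha, n1⟩, a', ha', n2⟩ | ⟨n1, n2⟩
  swap
  · simp only [not_exists, not_and, not_not] at n1 n2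
    have hl : Line M (IA ∪ IB) (insert p (insert q T)) := by
      refine ⟨hs.indep_union hA hB, a2, by grind, ?_⟩
      rintro u (rfl | rfl | hu) v (rfl | rfl | hv) e
      exacts [absurd rfl e, r3, pair_comm v u ▸ n1 v hv, pair_comm v u ▸ r3, absurd rfl e,
        pair_comm v u ▸ n2 v hv, n1 u hu, n2 u hu, t4 u hu v hv e]
    exact Or.inl ⟨_, _, (hl.frame (by
      rw [ncard_insert_of_notMem (by grind), ncard_insert_of_notMem (by grind), t2])).sdiff
        Subset.rfl (empty_subset _)⟩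
  have one : ∀ u ∈ T, rk M (insert u IA) = IA.ncard + 1 ∧
      rk M (insert u (IA ∪ IB)) = (IA ∪ IB).ncard + 1 := fun u hu => by
    obtain ⟨v, hv, e⟩ := exists_ne_of_one_lt_ncard (s := T) (by omega) u
    exact ⟨(xd1_pair (t3 u hu v hv e.symm)).2.2.2.1, (xd1_pair (t4 u hu v hv e.symm)).2.2.2.1⟩
  have sat : ∀ u ∈ T, ∀ z ∈ B, rk M (insert z IB) = IB.ncard + 1 →
      rk M (IA ∪ IB ∪ {u, z}) ≠ (IA ∪ IB).ncard + 2 →
      ∃ s ∈ S, s ∈ M.closure (insert u IA) ∧ rk M {s} = 1 := by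
    intro u hu z hz z1 z2
    obtain ⟨c1, c2⟩ := one u hu
    have c3 := xd1_le M (IA ∪ IB) u z
    have c4 := rk_mono M (show insert u (IA ∪ IB) ⊆ IA ∪ IB ∪ {u, z} by grind)
    have c5 := rk_mono M (show B ∪ IA ⊆ insert u IA ∪ B by grind)
    have c6 := rk_mono M (show A ∪ IB ⊆ A ∪ insert z IB by grind)
    have c7 := rk_le_rank M (insert u IA ∪ B)
    have c8 := rk_le_rank M (A ∪ insert z IB)
    have := hA.skew
    have := hA.span
    have := hB.skew
    have := hB.span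
    refine hsat _ (insert_subset (t1 hu) hA.sub) _ (insert_subset hz hB.sub) ?_ (by omega) (by omega)
    rw [show insert u IA ∪ insert z IB = IA ∪ IB ∪ {u, z} by grind]
    omega
  have haa : a ≠ a' := by
    rintro rfl
    have c1 := rk_submod' M (X := IA ∪ IB ∪ {a, p}) (Y := IA ∪ IB ∪ {a, q})
      (P := insert a (IA ∪ IB)) (Q := IA ∪ IB ∪ {p, q}) (by grind) (by grind) (by grind)
    have c2 := xd1_le M (IA ∪ IB) a p
    have c3 := xd1_le M (IA ∪ IB) a q
    have c4 := (one a ha).2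
    omega
  obtain ⟨s, s1, s2, s3⟩ := sat a ha p hp p1 n1
  obtain ⟨s', s4, s5, -⟩ := sat a' ha' q hq q1 n2
  refine Or.inr ⟨s, s1, s', s4, ?_⟩
  rintro rfl
  have c1 := rk_submod' M (X := insert s (insert a IA)) (Y := insert s (insert a' IA))
    (P := insert s IA) (Q := IA ∪ {a, a'}) (by grind) (by grind) (by grind)
  have c2 := rk_submod' M (X := insert s IA) (Y := insert s B) (P := {s}) (Q := B ∪ IA) (by grind)
    (by grind) (by grind)
  rw [rk_insert_of_mem s2, rk_insert_of_mem s5, (one a ha).1, (one a' ha').1, t3 a ha a' ha' haa]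
    at c1
  rw [rk_insert_of_mem (hs.clB s1), hA.skew] at c2
  omega

end Pool.Agent.Lib.MP_10bdcf_co.G
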