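import Pool.Agent.Lib.MP_10bdcf_co.XG1
import Pool.Agent.Lib.MP_10bdcf_co.UX
import Pool.Agent.Lib.MP_10bdcf_co.UN

/-!
Adding the common points of an exact 3-separation.
-/

namespace Pool.Agent.Lib.MP_10bdcf_co.G

open scoped Matroid
open Set

set_option linter.unusedSectionVars false

variable {E : Type} [Fintype E] {M M0 : Matroid E} {T T0 : Set E → Matrix E E R0}
  {A B S X Y : Set E} {z : E}

/-- Vectors of the row space. -/
def Xd2Row (M : Matroid E) (T : Set E → Matrix E E R0) (d : E → R0) : Prop :=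
  ∀ K, M.IsBase K → ∀ w, d w = ∑ g, d g * T K g w

theorem xd2_row (hT : U2 M T) {K : Set E} (hK : M.IsBase K) (b : E) : Xd2Row M T (T K b) :=
  fun _ hB w => hT.mul_apply hB hK b w

theorem xd2_van (hT : U2 M T) {d : E → R0} (hd : Xd2Row M T d) {Z : Set E} (h0 : ∀ e ∈ Z, d e = 0)
    {w : E} (hw : w ∈ M.closure Z) : d w = 0 := by
  obtain ⟨I, hI⟩ := M.exists_isBasis' Z
  obtain ⟨K, hK, hIK⟩ := hI.indep.exists_isBase_superset
  rw [hd K hK w]
  refine Finset.sum_eq_zero fun g _ => ?_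
  by_cases hg : g ∈ I
  · rw [h0 g (hI.subset hg), zero_mul]
  by_cases hgK : g ∈ K
  · have h1 : T K g w = 0 := by
      by_contra h1
      have h2 := (hT.d1_ne hK hgK).1 h1
      have h3 := um_rk_del hK hgK
      rw [← hI.closure_eq_closure] at hw
      rw [rk_union_of_subset_closure (singleton_subset_iff.2
        (M.closure_subset_closure (subset_sdiff_singleton hIK hg) hw))] at h2
      omega
    rw [h1, mul_zero]
  · rw [hT.row hK hgK, mul_zero]

theorem xd2_rk {P Q : Set E} (h : A ⊆ M.closure P) : rk M (A ∪ Q) ≤ rk M (P ∪ Q) := by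
  rw [← rk_union_of_subset_closure (h.trans (M.closure_subset_closure subset_union_left))]
  exact rk_mono M (union_subset subset_union_right (subset_union_right.trans subset_union_left))

theorem xd2_pick {X0 Y0 : Set E} (hX : M.Indep X0) (hd : Disjoint X0 Y0)
    (h : rk M (X0 ∪ Y0) < X0.ncard + Y0.ncard) (hY : Y0 ⊆ M.E) :
    ∃ y ∈ Y0, rk M (X0 ∪ Y0) ≤ rk M (X0 ∪ Y0 \ {y}) := by
  obtain ⟨I, hI, hXI⟩ := hX.subset_isBasis_of_subset (subset_union_left (t := Y0))
    (union_subset hX.subset_ground hY)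
  have h1 := rk_basis hI
  obtain ⟨y, hy, hyI⟩ := exists_mem_notMem_of_ncard_lt_ncard (s := I) (t := X0 ∪ Y0)
    (by rw [ncard_union_eq hd]; omega)
  refine ⟨y, hy.resolve_left fun h2 => hyI (hXI h2), ?_⟩
  rw [h1, ← rk_indep hI.indep]
  refine rk_mono M fun e he => (hI.subset he).imp_right fun h2 => ⟨h2, ?_⟩
  rintro rfl
  exact hyI he

theorem xd2_half (hT : U2 M T) (hA : A ⊆ M.E) {Y0 : Set E} {y a : E} (hd : Disjoint A Y0)
    (hr : rk M A + (Y0 \ {y}).ncard ≤ rk M (A ∪ Y0 \ {y})) {α β d : E → R0}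
    (hα : ∀ e, e ∉ A → α e = 0) (hβ : ∀ e, e ∉ Y0 → β e = 0) (hp : InP (β y))
    (hq : ∀ d, Xd2Row M T d → ∑ e, d e * α e = ∑ e, d e * β e) (hd1 : Xd2Row M T d)
    (ha : a ∈ A) (h0 : d a ≠ 0) (hp' : InP (d a)) (hz : rk M A ≤ rk M {e ∈ A | d e = 0} + 1) :
    InP (∑ e, d e * α e) := by
  obtain ⟨K, hK⟩ := M.exists_isBasis {e ∈ A | d e = 0} ((sep_subset _ _).trans hA)
  have h1 := rk_basis hK
  have h2 : rk M (insert a K) = K.ncard + 1 := by
    rw [rk_insert_of_notMem (hA ha) fun h => h0 (xd2_van hT hd1 (fun e he => (hK.subset he).2) h),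
      rk_indep hK.indep]
  have h3 : A ⊆ M.closure (insert a K) := subset_closure_of_rk hA (by
    rw [union_eq_right.2 (insert_subset ha fun e he => (hK.subset he).1)]
    omega)
  have h4 := xd2_rk (Q := Y0 \ {y}) h3
  have h5 := ncard_union_le (insert a K) (Y0 \ {y})
  have h6 := ncard_insert_le a K
  have h7 := rk_le_ncard M (insert a K ∪ Y0 \ {y})
  have h8 := rk_mono M (insert_subset ha fun e he => (hK.subset he).1)
  obtain ⟨L, hL, hs⟩ := (indep_iff_rk.2 (show rk M (insert a K ∪ Y0 \ {y}) = _ by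
    omega)).exists_isBase_superset
  have hd2 := xd2_row hT hL a
  have hd3 : Xd2Row M T fun e => d e - d a * T L a e := fun K' hK' w => by
    simp only [sub_mul, Finset.sum_sub_distrib, mul_assoc, ← Finset.mul_sum]
    rw [← hd1 K' hK' w, ← hd2 K' hK' w]
  have h9 : ∀ e ∈ A, d e - d a * T L a e = 0 := fun e he => by
    refine xd2_van hT hd3 (Z := insert a K) ?_ (h3 he)
    rintro g (rfl | hg)
    · rw [hT.diag L hL g (hs (Or.inl (mem_insert _ _))), mul_one, sub_self]
    · have := (hK.subset hg).2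
      rw [this, hT.off hL (hs (Or.inl (Or.inr hg))) fun e' : a = g => h0 (e' ▸ this), mul_zero,
        sub_zero]
  have e1 : ∑ e, d e * α e = d a * ∑ e, T L a e * α e := by
    rw [Finset.mul_sum]
    refine Finset.sum_congr rfl fun e _ => ?_
    by_cases he : e ∈ A
    · rw [sub_eq_zero.1 (h9 e he), mul_assoc]
    · simp [hα e he]
  rw [e1, hq _ hd2, Finset.sum_eq_single y (fun e _ hne => ?_) (by simp)]
  · exact hp'.mul ((hT.inP hL a y).mul hp)
  · by_cases he : e ∈ Y0
    · rw [hT.off hL (hs (Or.inr ⟨he, hne⟩)) fun e' : a = e => disjoint_left.1 hd ha (e' ▸ he),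
        zero_mul]
    · rw [hβ e he, mul_zero]

theorem xd2_cl (hT : U2 M T) {c α : E → R0} {M' : Matroid E} {T' : Set E → Matrix E E R0}
    (h : Ext M T z c M' T') (hz : z ∉ M.E) {X0 : Set E} (hX : M.Indep X0)
    (hα : ∀ e, e ∉ X0 → α e = 0) (hq : ∀ d, Xd2Row M T d → ∑ e, d e * c e = ∑ e, d e * α e) :
    z ∈ M'.closure X0 := by
  obtain ⟨K, hK, hXK⟩ := hX.exists_isBase_superset
  have hK' := h.base K hK
  have hX' := hK'.indep.subset hXK
  have hzX : z ∉ X0 := fun h' => hz (hX.subset_ground h')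
  by_contra hn
  obtain ⟨L, hL, hs⟩ := ((hX'.insert_indep_iff_of_notMem hzX).2
    ⟨h.ground ▸ mem_insert _ _, hn⟩).exists_isBase_superset
  have h1 := h.tab.mul_apply hK' hL z z
  rw [h.tab.diag L hL z (hs (mem_insert _ _))] at h1
  refine one_ne_zero (h1.trans (Finset.sum_eq_zero fun g _ => ?_))
  by_cases hg : g ∈ X0
  · rw [h.tab.off hL (hs (Or.inr hg)) fun e' : z = g => hzX (e' ▸ hg), zero_mul]
  · rw [h.new K hK, hq _ (xd2_row hT hK g), Finset.sum_eq_zero fun e _ => ?_, mul_zero]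
    by_cases he : e ∈ X0
    · rw [hT.off hK (hXK he) fun e' : g = e => hg (e' ▸ he), zero_mul]
    · rw [hα e he, mul_zero]

/-- A common point of the spans of `X ⊆ A` and `Y ⊆ B` can be added. -/
theorem U2.add_point (hT : U2 M T) (hE : M.E = A ∪ B) (hle : rk M A + rk M B ≤ rk M M.E + 2)
    (hX : X ⊆ A) (hY : Y ⊆ B) (hd : Disjoint A B) (h1 : rk M X + rk M Y = rk M (X ∪ Y) + 1)
    (h2 : rk M X + rk M B = rk M (X ∪ B) + 1) (h3 : rk M A + rk M Y = rk M (A ∪ Y) + 1)
    (hz : z ∉ M.E) :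
    ∃ c M' T', Ext M T z c M' T' ∧ z ∈ M'.closure X ∧ z ∈ M'.closure Y ∧ rk M' {z} = 1 := by
  classical
  have hA : A ⊆ M.E := hE ▸ subset_union_left
  have hB : B ⊆ M.E := hE ▸ subset_union_right
  obtain ⟨X0, hX0⟩ := M.exists_isBasis X (hX.trans hA)
  obtain ⟨Y0, hY0⟩ := M.exists_isBasis Y (hY.trans hB)
  have sX := hX0.subset.trans hX
  have sY := hY0.subset.trans hY
  have hd0 : Disjoint X0 Y0 := hd.mono sX sY
  have r1 := rk_basis hX0
  have r2 := rk_basis hY0
  have r3 := rk_mono M (union_subset_union hX0.subset hY0.subset)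
  have r4 := xd2_rk (Q := Y) hX0.subset_closure
  have r5 := xd2_rk (Q := X0) hY0.subset_closure
  have r6 := xd2_rk (Q := A) hY0.subset_closure
  have r7 := xd2_rk (Q := B) hX0.subset_closure
  rw [union_comm Y, union_comm Y0] at r5 r6
  obtain ⟨y, hy, ry⟩ := xd2_pick hX0.indep hd0 (by omega) (sY.trans hB)
  obtain ⟨x, hx, rx⟩ := xd2_pick hY0.indep hd0.symm (by rw [union_comm]; omega) (sX.trans hA)
  have c1 := ncard_sdiff_singleton_add_one hy
  have c2 := ncard_sdiff_singleton_add_one hx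
  have s1 := rk_submod' M (X := X0 ∪ Y0) (Y := A ∪ Y0 \ {y}) (P := X0 ∪ Y0 \ {y}) (Q := A ∪ Y0)
    (union_subset_union_right _ sdiff_subset) (union_subset_union_left _ sX) (by grind)
  have s2 := rk_submod' M (X := Y0 ∪ X0) (Y := B ∪ X0 \ {x}) (P := Y0 ∪ X0 \ {x}) (Q := X0 ∪ B)
    (union_subset_union_right _ sdiff_subset) (union_subset_union_left _ sY) (by grind)
  have c3 := ncard_union_le X0 (Y0 \ {y})
  have c4 := rk_le_ncard M (X0 ∪ Y0 \ {y})
  obtain ⟨K0, hK0, hs⟩ := (indep_iff_rk.2 (show rk M (X0 ∪ Y0 \ {y}) = _ by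
    omega)).exists_isBase_superset
  have hyc : y ∈ M.closure (X0 ∪ Y0 \ {y}) := by
    refine subset_closure_of_rk (Y := {y}) (singleton_subset_iff.2 (hB (sY hy))) ?_ rfl
    exact (rk_mono M (by grind)).trans ry
  have hout : ∀ g, g ∉ X0 ∪ Y0 \ {y} → T K0 g y = 0 := fun g hg =>
    xd2_van hT (xd2_row hT hK0 g) (fun e he => hT.off hK0 (hs he) fun e' => hg (e' ▸ he)) hyc
  have hyX : y ∉ X0 := disjoint_right.1 hd0 hy
  let α : E → R0 := fun e => if e ∈ X0 then T K0 e y else 0
  let β : E → R0 := fun e => α e - T K0 e y + if e = y then 1 else 0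
  have hα : ∀ e, e ∉ X0 → α e = 0 := fun e he => if_neg he
  have hβ : ∀ e, e ∉ Y0 → β e = 0 := fun e he => by
    have hne : e ≠ y := fun e' => he (e' ▸ hy)
    by_cases h : e ∈ X0
    · simp [α, β, h, hne]
    · simp [α, β, h, hne, hout e (by grind)]
  have hβy : β y = 1 := by simp [α, β, hyX, hout y (by grind)]
  have hq : ∀ d, Xd2Row M T d → ∑ e, d e * α e = ∑ e, d e * β e := fun d hd1 => by
    simp only [β, mul_add, mul_sub, Finset.sum_add_distrib, Finset.sum_sub_distrib, mul_ite,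
      mul_one, mul_zero, Finset.sum_ite_eq', Finset.mem_univ, if_true]
    rw [← hd1 K0 hK0 y, sub_add_cancel]
  obtain ⟨M', T', h⟩ := hT.extend hz α fun K hK b => by
    have hr := xd2_row hT hK b
    by_cases ha : ∃ a ∈ A, T K b a ≠ 0
    swap
    · push Not at ha
      refine Or.inl (Finset.sum_eq_zero fun e _ => ?_)
      by_cases he : e ∈ X0
      · rw [ha e (sX he), zero_mul]
      · rw [hα e he, mul_zero]
    by_cases hb : ∃ a ∈ B, T K b a ≠ 0
    swap
    · push Not at hb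
      rw [hq _ hr]
      refine Or.inl (Finset.sum_eq_zero fun e _ => ?_)
      by_cases he : e ∈ Y0
      · rw [hb e (sY he), zero_mul]
      · rw [hβ e he, mul_zero]
    obtain ⟨a, ha, ha0⟩ := ha
    obtain ⟨a', hb, hb0⟩ := hb
    have k1 := um_rk_del hK ((hT.supp K hK b a).1 ha0).1
    have k2 := rk_union_le M {e ∈ A | T K b e = 0} {e ∈ B | T K b e = 0}
    have k3 : rk M (K \ {b}) ≤ rk M ({e ∈ A | T K b e = 0} ∪ {e ∈ B | T K b e = 0}) :=
      rk_mono M fun e he => by
        have h5 := hT.off hK he.1 (Ne.symm he.2)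
        have h6 := hK.subset_ground he.1
        rw [hE] at h6
        exact h6.imp (fun h => ⟨h, h5⟩) fun h => ⟨h, h5⟩
    by_cases k4 : rk M A ≤ rk M {e ∈ A | T K b e = 0} + 1
    · exact xd2_half hT hA (hd.mono_right sY) (by omega) (fun e he => hα e fun h => he (sX h)) hβ
        (hβy ▸ Or.inr InG.one) hq hr ha ha0 (hT.inP hK b a) k4
    · rw [hq _ hr]
      refine xd2_half hT hB (hd.symm.mono_right sX) (y := x) (by omega)
        (fun e he => hβ e fun h => he (sY h)) hα ?_ (fun d hd1 => (hq d hd1).symm) hr hb hb0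
        (hT.inP hK b a') (by omega)
      simp only [α, if_pos hx]
      exact hT.inP hK0 x y
  refine ⟨α, M', T', h, M'.closure_subset_closure hX0.subset
    (xd2_cl hT h hz hX0.indep hα fun _ _ => rfl), M'.closure_subset_closure hY0.subset
    (xd2_cl hT h hz hY0.indep hβ hq), ?_⟩
  obtain ⟨L, hL, hs'⟩ := hY0.indep.exists_isBase_superset
  have e1 : T' L y z = 1 := by
    rw [h.new L hL, hq _ (xd2_row hT hL y), Finset.sum_eq_single y (fun e _ hne => ?_) (by simp),
      hβy, hT.diag L hL y (hs' hy), mul_one]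
    by_cases he : e ∈ Y0
    · rw [hT.off hL (hs' he) hne.symm, zero_mul]
    · rw [hβ e he, mul_zero]
  have e2 := ((h.tab.supp L (h.base L hL) y z).1 (e1 ▸ one_ne_zero)).2
  rw [rk_indep (e2.indep.subset (singleton_subset_iff.2 (mem_ex.2 (Or.inl rfl)))), ncard_singleton]

/-- The points of `S` are distinct common points. -/
structure Com (M : Matroid E) (A B S : Set E) : Prop where
  split : Split M A B S
  nonloop : ∀ s ∈ S, rk M {s} = 1
  simple : ∀ s ∈ S, ∀ t ∈ S, s ≠ t → rk M {s, t} = 2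
  common : ∀ s ∈ S, ∃ X ⊆ A, ∃ Y ⊆ B, s ∈ M.closure X ∧ s ∈ M.closure Y ∧
    rk M X + rk M B ≤ rk M (X ∪ B) + 1 ∧ rk M A + rk M Y ≤ rk M (A ∪ Y) + 1

theorem Com.symm (h : Com M A B S) : Com M B A S := by
  refine ⟨h.split.symm, h.nonloop, h.simple, fun s hs => ?_⟩
  obtain ⟨X, hX, Y, hY, h1, h2, h3, h4⟩ := h.common s hs
  refine ⟨Y, hY, X, hX, h2, h1, ?_, ?_⟩
  · rw [union_comm]; omega
  · rw [union_comm]; omega

theorem Sat.symm (hs : Split M A B S) (h : Com M A B S) (h' : Sat M A B S) : Sat M B A S := by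
  have _ := h
  intro X hX Y hY h1 h2 h3
  rw [union_comm] at h1 h2 h3
  obtain ⟨s, hsS, h4, h5⟩ := h' Y hY X hX (by omega) (by omega) (by omega)
  refine ⟨s, hsS, ?_, h5⟩
  by_contra hn
  have hB : B ⊆ M.E := by
    rw [hs.ground]
    exact subset_union_right.trans subset_union_left
  have e1 := rk_insert_of_notMem (M.mem_ground_of_mem_closure h4) hn
  have e2 := rk_insert_of_mem (M.closure_subset_closure (subset_union_left (t := X)) h4)
  have e3 := rk_insert_of_mem (hs.clB hsS)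
  have e4 := rk_submod' M (X := insert s (Y ∪ X)) (Y := insert s B) (P := insert s X) (Q := Y ∪ B)
    (insert_subset_insert subset_union_right) (insert_subset_insert hX) (by grind)
  omega

theorem xd2_span (h : Split M A B S) : rk M M.E ≤ rk M (A ∪ B) := by
  rw [h.ground, rk_union_of_subset_closure
    (h.clA.trans (M.closure_subset_closure subset_union_left))]

theorem Com.card_le (hT : U2 M T) (h : Com M A B S) : S.ncard ≤ 5 := by
  by_cases h2 : S.ncard ≤ 1
  · omega
  obtain ⟨s, hs, t, ht, hne⟩ := (one_lt_ncard (s := S)).1 (by omega)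
  have hs' := h.split
  have e1 := xd2_span hs'
  have e2 := rk_submod' M (X := A ∪ S) (Y := B ∪ S) (P := S) (Q := A ∪ B) subset_union_right
    subset_union_right (by grind)
  rw [rk_union_of_subset_closure hs'.clA, rk_union_of_subset_closure hs'.clB] at e2
  have e3 := hs'.le
  have e4 := h.simple s hs t ht hne
  have e5 := rk_mono M (pair_subset hs ht)
  obtain ⟨I, hl, -⟩ := exists_line (M := M) (S := S) (X := ∅) (hs'.ground ▸ subset_union_right)
    (by rw [empty_union, rk_empty]; omega) fun p hp q hq hpq => by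
      rw [empty_union, rk_empty, h.simple p hp q hq hpq]
  exact hl.le_five hT

theorem Com.delete (h : Com M A B S) (S' : Set E) (hS : S' ⊆ S) :
    Com (M ＼ S') A B (S \ S') := by
  have hs := h.split
  have dA : Disjoint A S' := hs.as.mono_right hS
  have dB : Disjoint B S' := hs.bs.mono_right hS
  have hc : ∀ Z, Disjoint Z S' → ∀ s ∈ S \ S', s ∈ M.closure Z → s ∈ (M ＼ S').closure Z :=
    fun Z hZ s h1 h2 => by
      rw [Matroid.delete_closure_eq, hZ.sdiff_eq_left]
      exact ⟨h2, h1.2⟩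
  refine ⟨⟨?_, hs.ab, hs.as.mono_right sdiff_subset, hs.bs.mono_right sdiff_subset,
    fun s h1 => hc A dA s h1 (hs.clA h1.1), fun s h1 => hc B dB s h1 (hs.clB h1.1), ?_⟩,
    fun s h1 => ?_, fun s h1 t h2 hne => ?_, fun s h1 => ?_⟩
  · rw [Matroid.delete_ground, hs.ground, union_sdiff_distrib, union_sdiff_distrib,
      dA.sdiff_eq_left, dB.sdiff_eq_left]
  · have e1 := xd2_span hs
    have e2 := hs.le
    have e3 : rk M (A ∪ B) ≤ rk M (M.E \ S') := rk_mono M (by
      rw [hs.ground]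
      exact subset_sdiff.2 ⟨subset_union_left, dA.union_left dB⟩)
    rw [rk_delete dA, rk_delete dB, Matroid.delete_ground, rk_delete disjoint_sdiff_left]
    omega
  · rw [rk_delete (disjoint_singleton_left.2 h1.2), h.nonloop s h1.1]
  · rw [rk_delete (disjoint_insert_left.2 ⟨h1.2, disjoint_singleton_left.2 h2.2⟩),
      h.simple s h1.1 t h2.1 hne]
  · obtain ⟨X, hX, Y, hY, h3, h4, h5, h6⟩ := h.common s h1.1
    have dX := dA.mono_left hX
    have dY := dB.mono_left hY
    refine ⟨X, hX, Y, hY, hc X dX s h1 h3, hc Y dY s h1 h4, ?_, ?_⟩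
    · rwa [rk_delete dX, rk_delete dB, rk_delete (dX.union_left dB)]
    · rwa [rk_delete dA, rk_delete dY, rk_delete (dA.union_left dY)]

theorem xd2_step (hT : U2 M T) (h : Com M A B S) (hn : ¬ Sat M A B S) (hz : z ∉ M.E) :
    ∃ c M' T', Ext M T z c M' T' ∧ Com M' A B (insert z S) := by
  have hs := h.split
  simp only [Sat, not_forall] at hn
  obtain ⟨X, hX, Y, hY, h1, h2, h3, h4⟩ := hn
  have r1 := rk_union_of_subset_closure hs.clA
  have r2 := rk_union_of_subset_closure
    (hs.clA.trans (M.closure_subset_closure (subset_union_left (t := Y))))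
  rw [union_right_comm] at r2
  have hle := hs.le
  obtain ⟨c, M', T', he, c1, c2, c3⟩ := hT.add_point (A := A ∪ S) (B := B)
    (by rw [hs.ground, union_right_comm]) (by omega) (hX.trans subset_union_left) hY
    (hs.ab.union_left hs.bs.symm) h1 h2 (by omega) hz
  have hA : A ⊆ M.E := hs.ground ▸ subset_union_left.trans subset_union_left
  have hB : B ⊆ M.E := hs.ground ▸ subset_union_right.trans subset_union_left
  have hS : S ⊆ M.E := hs.ground ▸ subset_union_right
  have hr : ∀ Z ⊆ M.E, rk M' Z = rk M Z := fun Z hZ => by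
    rw [← he.del, rk_delete (disjoint_singleton_right.2 fun h' => hz (hZ h'))]
  have hc : ∀ Z, M.closure Z ⊆ M'.closure Z := fun Z => by
    rw [← he.del, Matroid.delete_closure_eq]
    exact sdiff_subset.trans (M'.closure_subset_closure sdiff_subset)
  have hp : ∀ s ∈ S, rk M' {z, s} = 2 := fun s hsS => by
    have e1 := rk_insert_of_notMem (hS hsS) fun h' => h4 ⟨s, hsS, h', h.nonloop s hsS⟩
    have e2 := rk_insert_of_mem c1
    have e3 := rk_submod' M' (X := {z, s}) (Y := insert z X) (P := {z}) (Q := insert s X)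
      (by grind) (by grind) (by grind)
    have e4 := rk_insert_le M' z {s}
    have e5 := rk_singleton_le M' s
    rw [hr _ (insert_subset (hS hsS) (hX.trans hA)), e2, hr _ (hX.trans hA)] at e3
    omega
  refine ⟨c, M', T', he, ⟨?_, hs.ab, disjoint_insert_right.2 ⟨fun h' => hz (hA h'), hs.as⟩,
    disjoint_insert_right.2 ⟨fun h' => hz (hB h'), hs.bs⟩,
    insert_subset (M'.closure_subset_closure hX c1) (hs.clA.trans (hc A)),
    insert_subset (M'.closure_subset_closure hY c2) (hs.clB.trans (hc B)), ?_⟩, ?_, ?_, ?_⟩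
  · rw [he.ground, hs.ground, union_insert]
  · have e1 := rk_mono M' (subset_insert z M.E)
    rw [hr _ Subset.rfl] at e1
    rw [hr A hA, hr B hB, he.ground]
    omega
  · rintro s (rfl | h5)
    · exact c3
    · rw [hr _ (singleton_subset_iff.2 (hS h5)), h.nonloop s h5]
  · rintro s (rfl | h5) t (rfl | h6) hne
    · exact absurd rfl hne
    · exact hp t h6
    · rw [pair_comm]
      exact hp s h5
    · rw [hr _ (pair_subset (hS h5) (hS h6)), h.simple s h5 t h6 hne]
  · have key : ∀ X ⊆ A, ∀ Y ⊆ B, rk M X + rk M B ≤ rk M (X ∪ B) + 1 →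
        rk M A + rk M Y ≤ rk M (A ∪ Y) + 1 → rk M' X + rk M' B ≤ rk M' (X ∪ B) + 1 ∧
          rk M' A + rk M' Y ≤ rk M' (A ∪ Y) + 1 := fun X hX Y hY h5 h6 => by
      rw [hr _ (hX.trans hA), hr _ hB, hr _ (union_subset (hX.trans hA) hB), hr _ hA,
        hr _ (hY.trans hB), hr _ (union_subset hA (hY.trans hB))]
      exact ⟨h5, h6⟩
    rintro s (rfl | h5)
    · exact ⟨X, hX, Y, hY, c1, c2, key X hX Y hY h2.le h3.le⟩
    · obtain ⟨X', hX', Y', hY', h6, h7, h8, h9⟩ := h.common s h5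
      exact ⟨X', hX', Y', hY', hc _ h6, hc _ h7, key X' hX' Y' hY' h8 h9⟩

/-- All common points can be added. -/
theorem U2.saturate (hT : U2 M T) (hs : Split M A B ∅) (h6 : 6 ≤ (M.Eᶜ).ncard) :
    ∃ M0 T0 S, U2 M0 T0 ∧ Com M0 A B S ∧ Sat M0 A B S ∧ M0 ＼ S = M ∧
      ∀ K, M.IsBase K → ∀ b e, e ∉ S → T0 K b e = T K b e := by
  have key : ∀ n, ∀ (M0 : Matroid E) T0 S, U2 M0 T0 → Com M0 A B S → M0 ＼ S = M →
      (∀ K, M.IsBase K → M0.IsBase K ∧ ∀ b e, e ∉ S → T0 K b e = T K b e) → 5 < S.ncard + n →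
      ∃ M0 T0 S, U2 M0 T0 ∧ Com M0 A B S ∧ Sat M0 A B S ∧ M0 ＼ S = M ∧
        ∀ K, M.IsBase K → ∀ b e, e ∉ S → T0 K b e = T K b e := by
    intro n
    induction n with
    | zero =>
      intro M0 T0 S h1 h2 _ _ h5
      have := h2.card_le h1
      omega
    | succ n ih =>
      intro M0 T0 S h1 h2 h3 h4 h5
      by_cases hn : Sat M0 A B S
      · exact ⟨M0, T0, S, h1, h2, hn, h3, fun K hK => (h4 K hK).2⟩
      have h7 := h2.card_le h1
      obtain ⟨z, hz, hzS⟩ := exists_mem_notMem_of_ncard_lt_ncard (s := S) (t := M.Eᶜ) (by omega)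
      have hz0 : z ∉ M0.E := fun h' => hz (h3 ▸ ⟨h', hzS⟩)
      obtain ⟨c, M', T', he, hc⟩ := xd2_step h1 h2 hn hz0
      refine ih M' T' (insert z S) he.tab hc ?_ (fun K hK => ⟨he.base K (h4 K hK).1,
        fun b e h8 => ?_⟩) (by rw [ncard_insert_of_notMem hzS]; omega)
      · rw [← singleton_union, ← Matroid.delete_delete, he.del, h3]
      · rw [he.old K (h4 K hK).1 b e fun e' => h8 (Or.inl e'),
          (h4 K hK).2 b e fun h9 => h8 (Or.inr h9)]
  exact key 6 M T ∅ hT ⟨hs, by simp, by simp, by simp⟩ (Matroid.delete_empty M)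
    (fun K hK => ⟨hK, fun _ _ _ => rfl⟩) (by simp)

end Pool.Agent.Lib.MP_10bdcf_co.G
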