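import Pool.Agent.Lib.MP_10bdcf_co.XD3

/-!
Tangent vectors from free points on a line.
-/

namespace Pool.Agent.Lib.MP_10bdcf_co.G

open scoped Matroid
open Set

set_option linter.unusedSectionVars false

variable {E F : Type} [Fintype E] [Field F] {N : Matroid E} {T : Set E → Matrix E E R0}
  {s1 s2 p z : E} {t t0 w : R0} {r : ℕ}

theorem xd4_ind (hr : rk N {s1, s2} = 2) : s1 ≠ s2 ∧ N.Indep {s1, s2} := by
  have h : s1 ≠ s2 := by
    rintro rfl
    have := rk_singleton_le N s1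
    rw [pair_eq_singleton] at hr
    omega
  exact ⟨h, indep_iff_rk.2 (by rw [hr, ncard_pair h])⟩

theorem xd4_mem (hr : rk N {s1, s2} = 2) : s1 ∈ N.E ∧ s2 ∈ N.E :=
  pair_subset_iff.1 (xd4_ind hr).2.subset_ground

theorem xd4_op (hT : U2 N T) (hr : rk N {s1, s2} = 2) (hp : Pos N T s1 s2 p w) :
    p ∈ N.E ∧ p ≠ s1 ∧ p ≠ s2 ∧ Op N ∅ {p} := by
  obtain ⟨h0, h1, h2⟩ := hp.ranks hT hr
  have he := N.closure_subset_ground _ h0
  have h3 := rk_insert_of_mem (N.closure_subset_closure (pair_subset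
    (show s1 ∈ N.E \ {p} from ⟨(xd4_mem hr).1, (xd4_ind h1).1.symm⟩)
    ⟨(xd4_mem hr).2, (xd4_ind h2).1.symm⟩) h0)
  rw [insert_sdiff_singleton, insert_eq_of_mem he] at h3
  exact ⟨he, (xd4_ind h1).1, (xd4_ind h2).1, op_del he h3.symm⟩

/-- The derivatives of the entries of a tableau along the slide. -/
theorem xd4_entry {x : R0 →+* F} {U W : Sb F E} {v : F × F} {γ : E → F} {B : Set E}
    (h : Obj N T x x U W) (hγ : Agr (pf (co p) (co s1) - dfm N T x v) (gf γ) U W)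
    (hB : N.IsBase B) (hp : p ∈ N.E) (hpB : p ∉ B) (hs : s1 ∈ N.E) (b e : E) :
    ∃ c, der x v (T B b e) = (γ b - γ e) * x (T B b e) + c * x (T B b s1) ∧ (e = p → c = 1) ∧
      (e ≠ p → c = 0) := by
  classical
  by_cases hb : b ∈ B
  swap
  · exact ⟨if e = p then 1 else 0, by simp [h.tab.row hB hb], by simp, by simp⟩
  by_cases he : e ∈ N.E
  swap
  · exact ⟨0, by simp [h.tab.col hB b he], fun h => absurd (h ▸ hp) he, fun _ => rfl⟩
  by_cases heB : e ∈ B
  · refine ⟨0, ?_, fun h => absurd (h ▸ heB) hpB, fun _ => rfl⟩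
    by_cases hbe : b = e
    · simp [← hbe, h.tab.diag B hB b hb]
    · simp [h.tab.off hB heB hbe]
  obtain ⟨u, hu, h1, h2, h3⟩ := h.exists_col hB he heB
  obtain ⟨w, hw, h4, hz, h5⟩ := zg_exists_row h hB b
  have hne : e ≠ b := fun e' => heB (e' ▸ hb)
  have e1 : gf γ u w = γ e * x (T B b e) - γ b * x (T B b e) := by
    rw [gf_apply, Finset.sum_eq_add_of_mem e b (Finset.mem_univ _) (Finset.mem_univ _) hne
      fun z _ hz' => ?_, h1, h2 b hb, h5 hb, h4 e he]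
    · ring
    by_cases hzE : z ∈ N.E
    · by_cases hzB : z ∈ B
      · simp [hz z hzB hz'.2]
      · simp [h3 z hzE hzB hz'.1]
    · rcases h.out z hzE with h0 | h0
      · simp [h0 u hu]
      · simp [h0 w hw]
  have e2 : mf ((T B).map (der x v)) u w = der x v (T B b e) := by
    rw [mf_apply, Fintype.sum_eq_single b fun z hzb => ?_, Fintype.sum_eq_single e fun z hze => ?_]
    · simp [h5 hb, h1]
    · by_cases hzE : z ∈ N.E
      · by_cases hzB : z ∈ B
        · by_cases hzb : b = z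
          · simp [← hzb, h.tab.diag B hB b hb]
          · simp [h.tab.off hB hzB hzb]
        · simp [h3 z hzE hzB hze]
      · simp [h.tab.col hB b hzE]
    · by_cases hzB : z ∈ B
      · simp [hz z hzB hzb]
      · simp [h.tab.row hB hzB]
  have e3 := hγ u hu w hw
  rw [LinearMap.sub_apply, LinearMap.sub_apply, h.dfm_base hB v u hu w hw, e1, e2, pf_apply,
    co_apply, co_apply, h4 s1 hs] at e3
  exact ⟨u p, by linear_combination -e3, fun h => h ▸ h1, fun h => h3 p hp hpB h.symm⟩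

/-- The slide of a free point is a tangent vector. -/
theorem free0 (hT : U2 N T) (hu : Up N T) (hr : rk N {s1, s2} = 2) (hp : Pos N T s1 s2 p w)
    (hf : ∀ X ⊆ N.E \ {p}, p ∈ N.closure X → s1 ∈ N.closure X) (x : R0 →+* F) :
    ∃ v, Kv (mn N ∅ {p}) (mnT ∅ {p} T) x v ∧
      ∀ t, Tr (mn N ∅ {p}) (mnT ∅ {p} T) s1 s2 t → x w * der x v t ≠ x t * der x v w := by
  obtain ⟨U, W, h, -⟩ := hT.exists_obj x x
  obtain ⟨he, n1, n2, ho⟩ := xd4_op hT hr hp
  obtain ⟨v, hg⟩ := hu F x U W h _ (h.pair.val_slide he hf)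
  refine ⟨v, (h.k_minor_iff ho).1 (by rw [van_empty]; exact zk_gauge hg), ?_⟩
  obtain ⟨γ, hγ⟩ := hg
  rintro t ⟨ht, K, b, hK, k1, k2⟩ e
  obtain ⟨hK, -, hd⟩ := ho.isBase_iff.1 hK
  simp only [mnT_apply (J := {p}) T K (notMem_empty b) (notMem_empty _) n1.symm,
    mnT_apply (J := {p}) T K (notMem_empty b) (notMem_empty _) n2.symm] at k1 k2
  have hpK : p ∉ K ∪ ∅ := by simpa using hd
  obtain ⟨c1, a1, -, b1⟩ := xd4_entry h hγ hK he hpK (xd4_mem hr).1 b s1
  obtain ⟨c2, a2, -, b2⟩ := xd4_entry h hγ hK he hpK (xd4_mem hr).1 b s2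
  rw [b1 n1.symm, k2, der_mul, a2, b2 n2.symm, map_mul] at a1
  have a3 : der x v t = (γ s2 - γ s1) * x t := mul_right_cancel₀
    (mt ((hT.inP hK b s2).map_eq_zero x).1 k1) (by linear_combination a1)
  obtain ⟨B, hB, hs⟩ := (xd4_ind hr).2.exists_isBase_superset
  obtain ⟨m1, m2⟩ := pair_subset_iff.1 hs
  obtain ⟨hw, l, hl, hp⟩ := hp
  have d1 := hp B hB s1
  have d2 := hp B hB s2
  rw [hT.diag B hB _ m1, hT.off hB m2 (xd4_ind hr).1, mul_zero, sub_zero, mul_one] at d1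
  rw [hT.diag B hB _ m2, hT.off hB m1 (xd4_ind hr).1.symm, mul_one, zero_sub] at d2
  have hpB : p ∉ B := fun h => hl.ne_zero (d1 ▸ hT.off hB h n1.symm)
  obtain ⟨c3, a4, b3, -⟩ := xd4_entry h hγ hB he hpB (xd4_mem hr).1 s1 p
  obtain ⟨c4, a5, -⟩ := xd4_entry h hγ hB he hpB (xd4_mem hr).1 s2 p
  rw [d1, b3 rfl, hT.diag B hB _ m1, map_one] at a4
  rw [d2, hT.off hB m1 (xd4_ind hr).1.symm, der_mul, der_neg, a4, map_mul, map_neg, map_zero] at a5
  refine mul_ne_zero (ht.map_ne_zero x) (hw.map_ne_zero x) ?_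
  linear_combination x l * e - x l * x w * a3 - x t * a5

theorem xd4_row (hT : U2 N T) (ht : ∀ t, Tr N T s1 s2 t → InG (t - w)) {B : Set E}
    (hB : N.IsBase B) {b : E} (h : T B b s1 ≠ 0) : InG (T B b s1 - w * T B b s2) := by
  have h1 := (hT.inP hB b s1).resolve_left h
  rcases eq_or_ne (T B b s2) 0 with h2 | h2
  · rwa [h2, mul_zero, sub_zero]
  have h3 := (hT.inP hB b s2).resolve_left h2
  obtain ⟨i, hi, e⟩ := h3.exists_inv
  have e' : T B b s1 = T B b s1 * i * T B b s2 := by linear_combination (-T B b s1) * e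
  rw [e', ← sub_mul]
  exact (ht _ ⟨h1.mul hi, B, b, hB, h2, e'⟩).mul h3

/-- A free point can be added at a number that differs from all traces by a group element. -/
theorem exists_free (hT : U2 N T) (hz : z ∉ N.E) (hr : rk N {s1, s2} = 2) (hw : InG w)
    (ht : ∀ t, Tr N T s1 s2 t → InG (t - w)) :
    ∃ N' T', U2 N' T' ∧ mn N' ∅ {z} = N ∧ N'.E = insert z N.E ∧ rk N' N'.E = rk N N.E ∧
      (∀ B, N.IsBase B → mnT ∅ {z} T' B = T B) ∧ Pos N' T' s1 s2 z w ∧
      ∀ X ⊆ N'.E \ {z}, z ∈ N'.closure X → s1 ∈ N'.closure X := by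
  classical
  have hc : ∀ B b, ∑ e, T B b e * (Pi.single s1 1 - Pi.single s2 w : E → R0) e =
      T B b s1 - w * T B b s2 := fun B b => by
    simp [mul_sub, Pi.single_apply, mul_comm]
  obtain ⟨N', T', h⟩ := hT.extend hz (Pi.single s1 1 - Pi.single s2 w) fun B hB b => by
    rw [hc]
    rcases eq_or_ne (T B b s1) 0 with h | h
    · rw [h, zero_sub]
      exact (InP.mul (Or.inr hw) (hT.inP hB b s2)).neg
    · exact Or.inr (xd4_row hT ht hB h)
  have n1 : s1 ≠ z := fun e => hz (e ▸ (xd4_mem hr).1)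
  have n2 : s2 ≠ z := fun e => hz (e ▸ (xd4_mem hr).2)
  obtain ⟨B, hB⟩ := N.exists_isBase
  refine ⟨N', T', h.tab, by rw [mn_empty_left, h.del], h.ground,
    by rw [rk_base hB, rk_base (h.base B hB)], fun K hK => Matrix.ext fun b e => ?_,
    ⟨hw, 1, InG.one, fun K hK b => ?_⟩, fun X hX hzX => ?_⟩
  · by_cases he : e = z
    · simp [he, mnT, delT, hT.col hK b hz]
    · rw [mnT_apply T' K (notMem_empty b) (notMem_empty e) he, union_empty, h.old K hK b e he]
  · rw [h.tab.mul_apply (h.base B hB) hK b z, h.tab.mul_apply (h.base B hB) hK b s1,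
      h.tab.mul_apply (h.base B hB) hK b s2, one_mul, Finset.mul_sum, ← Finset.sum_sub_distrib]
    simp only [h.new B hB, hc, h.old B hB _ _ n1, h.old B hB _ _ n2]
    exact Finset.sum_congr rfl fun g _ => by ring
  by_contra hs
  obtain ⟨I, hI⟩ := N'.exists_isBasis X (hX.trans sdiff_subset)
  rw [← hI.closure_eq_closure] at hs hzX
  have hsI : s1 ∉ I := fun h => hs (N'.subset_closure I hI.indep.subset_ground h)
  have h1 : (N' ＼ {z}).Indep (insert s1 I) := Matroid.delete_indep_iff.2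
    ⟨(hI.indep.insert_indep_iff_of_notMem hsI).2 ⟨h.ground ▸ Or.inr (xd4_mem hr).1, hs⟩,
      disjoint_singleton_right.2 fun h => h.elim n1.symm fun h => (hX (hI.subset h)).2 rfl⟩
  rw [h.del] at h1
  obtain ⟨K, hK, hsub⟩ := h1.exists_isBase_superset
  have hs1 : s1 ∈ K := hsub (mem_insert _ _)
  have h2 := (xd4_row hT ht hK (b := s1) (by rw [hT.diag K hK _ hs1]; exact one_ne_zero)).ne_zero
  rw [← hc, ← h.new K hK, h.tab.d1_ne (h.base K hK) hs1, union_singleton, rk_insert_of_mem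
    (N'.closure_subset_closure (subset_sdiff_singleton ((subset_insert _ _).trans hsub) hsI)
      hzX)] at h2
  have := um_rk_del (h.base K hK) hs1
  omega

theorem free1 (hT : U2 N T) (hv : V3L N) (ih : IHr r) (hlt : rk N N.E < r) (hz : z ∉ N.E)
    (hr : rk N {s1, s2} = 2) (hw : InG w) (ht : ∀ t, Tr N T s1 s2 t → InG (t - w))
    (x : R0 →+* F) :
    ∃ v, Kv N T x v ∧ ∀ t, Tr N T s1 s2 t → x w * der x v t ≠ x t * der x v w := by
  obtain ⟨N', T', hT', rfl, -, h1, h2, hp, hf⟩ := exists_free hT hz hr hw ht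
  have hd : Disjoint {s1, s2} {z} := disjoint_singleton_right.2 fun h =>
    hz ((xd4_ind hr).2.subset_ground h)
  have hr' : rk N' {s1, s2} = 2 := by rwa [mn_empty_left, rk_delete hd] at hr
  have hv' := v3L_of_delete (mn_empty_left N' {z} ▸ hv)
    (rk_coindep (xd4_op hT' hr' hp).2.2.2.coi)
  obtain ⟨v, a, b⟩ := free0 hT' (hv'.good (ih.hg (h1 ▸ hlt)) T' hT').up hr' hp hf x
  exact ⟨v, (kv_congr h2).1 a, fun t h => b t ((tr_congr h2).2 h)⟩

theorem free_ne_zero (hT : U2 N T) (hv : V3L N) (ih : IHr r) (hlt : rk N N.E < r) (hz : z ∉ N.E)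
    (hr : rk N {s1, s2} = 2) (hw : InG w) (ht : ∀ t, Tr N T s1 s2 t → InG (t - w))
    (h0 : Tr N T s1 s2 t0) (x : R0 →+* F) : ∃ v, v ≠ 0 ∧ Kv N T x v := by
  obtain ⟨v, a, b⟩ := free1 hT hv ih hlt hz hr hw ht x
  refine ⟨v, ?_, a⟩
  rintro rfl
  exact b t0 h0 (by simp [der_zero_v])

/-- With a single trace there is no minor `U_{2,4}`. -/
theorem noSite_of_single (hT : U2 N T) (hv : V3L N) (ih : IHr r) (hlt : rk N N.E < r)
    (hz : z ∉ N.E) (hr : rk N {s1, s2} = 2) (h0 : Tr N T s1 s2 t0)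
    (ht : ∀ t, Tr N T s1 s2 t → t = t0) : ¬ HasSite N := by
  intro hs
  obtain ⟨m, hm⟩ := hs.exists_cr hT
  have hq : Fund (mo m) := fund_iff_mo.2 ⟨m, hT.cr_mem hm, rfl⟩
  obtain ⟨v, a, b⟩ := free1 hT hv ih hlt hz hr (hq.1.mul h0.1) (fun t h => by
    rw [ht t h, ← one_sub_mul]
    exact hq.2.mul h0.1) s4
  exact b t0 h0 ((der_quot h0.1 s4 v).2 (a m hm)).symm

theorem hasSite_del_of_line (hT : U2 N T) (hR : HasR N) (hr : rk N {s1, s2} = 2)
    (hp : Pos N T s1 s2 p w) : HasSite (mn N ∅ {p}) := by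
  by_contra hs
  obtain ⟨U, W, h, -⟩ := hT.exists_obj uxQ uxQ
  obtain ⟨-, n1, n2, ho⟩ := xd4_op hT hr hp
  obtain ⟨r0, r1, -⟩ := hp.ranks hT hr
  have key := fun v => h.pair.ker_line (xd4_mem hr).1 (xd4_mem hr).2 n1 n2 r0 r1 (h.dfm_val v)
    (van_empty W ▸ (h.k_minor_iff ho).2 (kv_of_noSite hs))
  have z0 := fun v hv => hR.kv_zero hT ((h.k_iff (v := v)).1 hv)
  obtain ⟨c, h1⟩ := key (1, 0)
  obtain ⟨d, h2⟩ := key (0, 1)
  have h3 := z0 (d • (1, 0) - c • (0, 1)) (((h1.smul d).sub (h2.smul c)).congr fun u _ w _ => by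
    simp only [dfm_sub, dfm_smul, LinearMap.sub_apply, LinearMap.smul_apply, smul_eq_mul]
    ring)
  obtain rfl : c = 0 := by simpa using congrArg Prod.snd h3
  simpa using z0 (1, 0) (h1.congr fun u _ w _ => by simp)

/-- Two traces of the deletion of a free point differ by a group element. -/
theorem inG_of_free {t' : R0} (hT : U2 N T) (hu : Up N T) (hR : HasR N) (hr : rk N {s1, s2} = 2)
    (hp : Pos N T s1 s2 p w) (hf : ∀ X ⊆ N.E \ {p}, p ∈ N.closure X → s1 ∈ N.closure X)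
    (h1 : Tr (mn N ∅ {p}) (mnT ∅ {p} T) s1 s2 t) (h2 : Tr (mn N ∅ {p}) (mnT ∅ {p} T) s1 s2 t')
    (g1 : InG (w - t)) (g2 : InG (w - t')) (hne : t ≠ t') : InG (t - t') := by
  obtain ⟨v, a, b⟩ := free0 hT hu hr hp hf x0
  have hT' := hT.minor (xd4_op hT hr hp).2.2.2
  obtain ⟨m, hm⟩ := (hasSite_del_of_line hT hR hr hp).exists_cr hT'
  obtain ⟨q, hq, rfl⟩ := exists_quot hp.1 h1.1 g1
  obtain ⟨q', hq', rfl⟩ := exists_quot hp.1 h2.1 g2
  have h3 : der x0 v q ≠ 0 := mt (der_quot hp.1 x0 v).2 (b _ h1)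
  have h4 := a.tr hT' h1 h2
  simp only [der_mul, map_mul] at h4
  have h5 := hp.1.map_ne_zero x0
  rcases fl2 (fund_iff_mo.2 ⟨m, hT'.cr_mem hm, rfl⟩) hq hq' (fun e => h3 (by rw [e, der_zero_v]))
    (a m hm) h3 (mul_left_cancel₀ (mul_ne_zero h5 h5) (by linear_combination h4)) with rfl | h6
  · exact absurd rfl hne
  · exact sub_mul q q' w ▸ h6.mul hp.1

end Pool.Agent.Lib.MP_10bdcf_co.G
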