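import Pool.Agent.Lib.MP_10bdcf_co.XD1
import Pool.Agent.Lib.MP_10bdcf_co.XD2
import Pool.Agent.Lib.MP_10bdcf_co.XD3

/-!
The saturated 3-separation and the positions on its line.
-/

namespace Pool.Agent.Lib.MP_10bdcf_co.G

open scoped Matroid
open Set

set_option linter.unusedSectionVars false

variable {E F : Type} [Fintype E] [Field F] {M : Matroid E} {T : Set E → Matrix E E R0}
  {A B S I J X IA IB : Set E} {s1 s2 b : E} {t t' : R0}

/-- A saturated exact 3-separation with chosen skew sets. -/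
structure TS (M : Matroid E) (T : Set E → Matrix E E R0) (A B S IA IB : Set E) : Prop where
  tab : U2 M T
  com : Com M A B S
  sat : Sat M A B S
  exact : rk M A + rk M B = rk M M.E + 2
  con : Con3 (M ＼ S)
  skA : Skew M B A IA
  skB : Skew M A B IB
  neA : IA.Nonempty
  neB : IB.Nonempty
  triA : Tri3 M A IA
  triB : Tri3 M B IB
  ih : IHr (rk M M.E)

/-- With two chosen common points. -/
structure TS2 (M : Matroid E) (T : Set E → Matrix E E R0) (A B S IA IB : Set E) (s1 s2 : E) :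
    Prop extends TS M T A B S IA IB where
  h1 : s1 ∈ S
  h2 : s2 ∈ S
  ne : s1 ≠ s2

/-- Positions of the elements of `B` and `S` after contracting `I`. -/
def LPos (M : Matroid E) (T : Set E → Matrix E E R0) (B S I : Set E) (s1 s2 : E) (t : R0) : Prop :=
  ∃ h ∈ B ∪ S, Pos (mn M I ∅) (mnT I ∅ T) s1 s2 h t

/-- Positions of the elements of `A` and `S` after contracting some skew set in `A`. -/
def APos (M : Matroid E) (T : Set E → Matrix E E R0) (A B S : Set E) (s1 s2 : E) (t : R0) : Prop :=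
  ∃ I, Skew M B A I ∧ LPos M T A S I s1 s2 t

/-- Positions of the common points. -/
def SPos (M : Matroid E) (T : Set E → Matrix E E R0) (S : Set E) (s1 s2 : E) (t : R0) : Prop :=
  ∃ s ∈ S, Pos M T s1 s2 s t

theorem xd5_skew {Y : Set E} (hI : Skew M A B I) (hY : Y ⊆ M.closure A) :
    rk M (Y ∪ I) = rk M Y + I.ncard := by
  have a1 := rk_submod' M (X := Y ∪ I) (Y := A ∪ Y) (P := Y) (Q := A ∪ I) subset_union_left
    subset_union_right (by grind)
  have a2 := rk_union_of_subset_closure hY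
  have a3 := hI.skew
  have a4 := rk_union_le M Y I
  have a5 := rk_le_ncard M I
  omega

theorem xd5_op (hs : Split M A B S) (hI : Skew M A B I) (hI' : Skew M B A IA) (hJ : J ⊆ B \ I) :
    Op M (I ∪ IA) J := by
  have h1 := xg1_subA hs
  have h2 := xg1_subA hs.symm
  have h3 := hI.sub
  have h4 := hI'.sub
  have h5 := disjoint_left.1 hs.ab
  refine ⟨union_comm IA I ▸ hs.indep_union hI' hI, (coindep_iff_rk (by grind)).2
    (le_antisymm (rk_le_rank _ _) (hI.span ▸ rk_mono M (by grind))), disjoint_left.2 (by grind)⟩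

theorem TS.symm (h : TS M T A B S IA IB) : TS M T B A S IB IA := by
  have := h.exact
  exact ⟨h.tab, h.com.symm, Sat.symm h.com.split h.com h.sat, by omega, h.con, h.skB, h.skA, h.neB,
    h.neA, h.triB, h.triA, h.ih⟩

theorem TS2.symm (h : TS2 M T A B S IA IB s1 s2) : TS2 M T B A S IB IA s1 s2 := by
  exact ⟨h.toTS.symm, h.h1, h.h2, h.ne⟩

theorem TS.op (h : TS M T A B S IA IB) : Op M (IA ∪ IB) ∅ := by
  exact xd5_op h.com.split.symm h.skA h.skB (empty_subset _)

theorem TS.rank_lt (h : TS M T A B S IA IB) (hI : Skew M A B I) (ho : Op M I J) :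
    rk (mn M I J) (mn M I J).E < rk M M.E ∧ ∃ z, z ∉ (mn M I J).E := by
  have a1 := ho.rank
  have a2 := hI.skew
  have a3 := hI.span
  have a4 := h.skB.skew
  have a5 := h.skB.span
  have a6 := (ncard_pos (s := IB)).2 h.neB
  obtain ⟨z, hz⟩ := (ncard_pos (s := I)).1 (by omega)
  exact ⟨by omega, z, fun h => (mn_ground M I J ▸ h).2 (Or.inl hz)⟩

theorem TS.good (h : TS M T A B S IA IB) (hI : Skew M A B I) (ho : Op M I J)
    (hv : V3L (mn M I J)) : GoodT (mn M I J) (mnT I J T) ∧ NZ (mn M I J) (mnT I J T) := by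
  have hg := h.ih.hg (h.rank_lt hI ho).1
  exact ⟨hv.good hg _ (h.tab.minor ho), hg.nz (h.tab.minor ho) (Or.inl hv)⟩

theorem TS.v3L (h : TS M T A B S IA IB) : V3L (mn M IB ∅) := by
  exact v3L_con h.com.split h.con h.skB h.triB (empty_subset _)

theorem TS2.rk_two {I' : Set E} (h : TS2 M T A B S IA IB s1 s2) (hI : Skew M A B I)
    (hI' : Skew M B A I') {K : Set E} (hK : K ⊆ I ∪ I') (hJ : Disjoint {s1, s2} J) :
    rk (mn M K J) {s1, s2} = 2 := by
  have hs := h.com.split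
  have hS : {s1, s2} ⊆ S := pair_subset h.h1 h.h2
  have a1 := xd5_skew hI' (hS.trans hs.clB)
  have a2 := xd5_skew hI (Y := {s1, s2} ∪ I') (union_subset (hS.trans hs.clA) (hI'.sub.trans
    (M.subset_closure A (subset_union_left.trans (xg1_subA hs)))))
  have a3 := h.com.simple s1 h.h1 s2 h.h2 h.ne
  have a4 := rk_mn (M := M) (I := K) hJ
  have a5 := rk_submod' M (X := {s1, s2} ∪ K) (Y := I ∪ I') (P := K) (Q := {s1, s2} ∪ I' ∪ I)
    subset_union_right hK (by grind)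
  have a6 := rk_union_le M {s1, s2} K
  have a7 := (rk_le_ncard M _).trans (ncard_union_le I I')
  omega

theorem LPos.inG (h : LPos M T B S I s1 s2 t) : InG t := by
  obtain ⟨_, -, hp⟩ := h
  exact hp.1

theorem APos.inG (h : APos M T A B S s1 s2 t) : InG t := by
  obtain ⟨_, -, hp⟩ := h
  exact hp.inG

theorem xd5_op1 (h : TS2 M T A B S IA IB s1 s2) (hI : Skew M A B I) : Op M I ∅ :=
  hI.op h.com.split (empty_subset _)

theorem xd5_one (h : TS2 M T A B S IA IB s1 s2) (hI : Skew M A B I) :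
    U2 (mn M I ∅) (mnT I ∅ T) ∧ rk (mn M I ∅) {s1, s2} = 2 :=
  ⟨h.tab.minor (xd5_op1 h hI), h.rk_two hI h.skA subset_union_left (disjoint_empty _)⟩

theorem xd5_down (h : TS2 M T A B S IA IB s1 s2) (hI : Skew M A B I) (hb : b ∈ S)
    (ht : Pos M T s1 s2 b t) : Pos (mn M I ∅) (mnT I ∅ T) s1 s2 b t := by
  refine ht.minor h.tab (xd5_op1 h hI) (disjoint_left.2 ?_)
  have := hI.sub
  have := disjoint_left.1 h.com.split.bs
  have := h.h1
  have := h.h2
  grind

theorem xd5_spos (h : TS2 M T A B S IA IB s1 s2) (hb : b ∈ S) (h1 : b ≠ s1) (h2 : b ≠ s2) :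
    ∃ t, Pos M T s1 s2 b t := by
  have hs := h.com.split
  have a1 := h.com.simple s1 h.h1 s2 h.h2 h.ne
  have a2 := rk_submod' M (X := A ∪ S) (Y := B ∪ S) (P := {b, s1, s2}) (Q := A ∪ B)
    ((insert_subset hb (pair_subset h.h1 h.h2)).trans subset_union_right)
    ((insert_subset hb (pair_subset h.h1 h.h2)).trans subset_union_right) (by grind)
  have a3 := xg1_rkA hs
  have a4 := xg1_rkA hs.symm
  have a5 := xd2_span hs
  have a6 := h.exact
  have a7 := rk_mono M (subset_insert b {s1, s2})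
  exact exists_pos h.tab a1 ((mem_closure_iff_rk (xg1_subA hs (Or.inr hb))).2 (by omega))
    (h.com.simple b hb s1 h.h1 h1) (h.com.simple b hb s2 h.h2 h2)

theorem xd5_up {I' : Set E} (h : TS2 M T A B S IA IB s1 s2) (hI : Skew M A B I)
    (hI' : Skew M B A I') (hJ : J ⊆ B \ I) (hb : b ∈ A ∪ S)
    (ht : Pos (mn M I' ∅) (mnT I' ∅ T) s1 s2 b t) :
    U2 (mn M (I ∪ I') J) (mnT (I ∪ I') J T) ∧ rk (mn M (I ∪ I') J) {s1, s2} = 2 ∧
      Pos (mn M (I ∪ I') J) (mnT (I ∪ I') J T) s1 s2 b t := by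
  have hs := h.com.split
  have ho := xd5_op hs hI hI' hJ
  obtain ⟨hT, hr⟩ := xd5_one h.symm hI'
  have a1 := Matroid.closure_subset_ground _ _ (ht.ranks hT hr).1
  rw [mn_ground] at a1
  have := hI.sub
  have := hI'.sub
  have := disjoint_left.1 hs.ab
  have := disjoint_left.1 hs.as
  have := disjoint_left.1 hs.bs
  have := h.h1
  have := h.h2
  exact ⟨h.tab.minor ho, h.rk_two hI hI' Subset.rfl (disjoint_left.2 (by grind)),
    ht.minor2 h.tab ho subset_union_right (empty_subset _) (disjoint_left.2 (by grind))⟩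

theorem TS2.exists_lPos (h : TS2 M T A B S IA IB s1 s2) : ∃ t, LPos M T B S IB s1 s2 t := by
  obtain ⟨hT, hr⟩ := xd5_one h h.skB
  have hs := h.com.split
  have a0 := rk_indep h.skB.indep
  have hn : ∀ Y, rk (mn M IB ∅) Y + IB.ncard = rk M (IB ∪ Y) := fun Y => by
    rw [← a0, union_comm]
    exact rk_mn (disjoint_empty _)
  have key : ∀ b ∈ B, rk (mn M IB ∅) {b, s1} = 2 → rk (mn M IB ∅) {b, s2} = 2 →
      ∃ t, LPos M T B S IB s1 s2 t := fun b hb h1 h2 => by
    have a1 := hn {b, s1, s2}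
    have a2 := rk_mono M (show IB ∪ {b, s1, s2} ⊆ B ∪ S by
      have := h.skB.sub
      have := h.h1
      have := h.h2
      grind)
    have a3 := xg1_rkA hs.symm
    have a4 := h.skB.skew
    have a5 := h.skB.span
    have a6 := h.exact
    have a7 := rk_mono (mn M IB ∅) (subset_insert b {s1, s2})
    have hE : b ∈ (mn M IB ∅).E := by_contra fun hc => by
      have b1 := rk_inter_ground (mn M IB ∅) {b, s1}
      have b2 := rk_mono (mn M IB ∅) (show {b, s1} ∩ (mn M IB ∅).E ⊆ {s1} by grind)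
      have b3 := rk_singleton_le (mn M IB ∅) s1
      omega
    obtain ⟨t, ht⟩ := exists_pos hT hr ((mem_closure_iff_rk hE).2 (by omega)) h1 h2
    exact ⟨t, b, Or.inl hb, ht⟩
  have par : ∀ s, 1 ≤ rk (mn M IB ∅) {s} → ∀ b c, rk M (IB ∪ {b, c}) = IB.ncard + 2 →
      rk (mn M IB ∅) {b, s} = 2 ∨ rk (mn M IB ∅) {c, s} = 2 := fun s h1 b c h2 => by
    have a1 := hn {b, c}
    have a2 := rk_submod' (mn M IB ∅) (X := {b, s}) (Y := {c, s}) (P := {s}) (Q := {b, c})
      (by grind) (by grind) (by grind)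
    have a3 := rk_insert_le (mn M IB ∅) b {s}
    have a4 := rk_insert_le (mn M IB ∅) c {s}
    have a5 := rk_singleton_le (mn M IB ∅) s
    omega
  have n1 : 1 ≤ rk (mn M IB ∅) {s1} := by
    have a1 := rk_insert_le (mn M IB ∅) s2 {s1}
    rw [pair_comm] at a1
    omega
  have n2 : 1 ≤ rk (mn M IB ∅) {s2} := by
    have a1 := rk_insert_le (mn M IB ∅) s1 {s2}
    omega
  obtain ⟨b1, h1, b2, h2, b3, h3, e1, e2, e3⟩ := h.triB
  have := par s1 n1 _ _ e1
  have := par s1 n1 _ _ e2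
  have := par s1 n1 _ _ e3
  have := par s2 n2 _ _ e1
  have := par s2 n2 _ _ e2
  have := par s2 n2 _ _ e3
  by_contra hc
  have : ¬ (_ ∧ _) := fun h => hc (key b1 h1 h.1 h.2)
  have : ¬ (_ ∧ _) := fun h => hc (key b2 h2 h.1 h.2)
  have : ¬ (_ ∧ _) := fun h => hc (key b3 h3 h.1 h.2)
  omega

theorem TS2.sPos_lPos (h : TS2 M T A B S IA IB s1 s2) (hI : Skew M A B I)
    (ht : SPos M T S s1 s2 t) : LPos M T B S I s1 s2 t := by
  obtain ⟨s, hs, hp⟩ := ht
  exact ⟨s, Or.inr hs, xd5_down h hI hs hp⟩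

theorem TS2.sPos_of_pos (h : TS2 M T A B S IA IB s1 s2) (hI : Skew M A B I) (hb : b ∈ S)
    (ht : Pos (mn M I ∅) (mnT I ∅ T) s1 s2 b t) : SPos M T S s1 s2 t := by
  obtain ⟨hT, hr⟩ := xd5_one h hI
  obtain ⟨-, a1, a2⟩ := ht.ranks hT hr
  have ne : ∀ s, rk (mn M I ∅) {b, s} = 2 → b ≠ s := fun s h1 e => by
    have := rk_singleton_le (mn M I ∅) s
    rw [e, pair_eq_singleton] at h1
    omega
  obtain ⟨t', ht'⟩ := xd5_spos h hb (ne _ a1) (ne _ a2)
  exact ⟨b, hb, ht.unique hT hr (xd5_down h hI hb ht') ▸ ht'⟩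

theorem TS2.inP (h : TS2 M T A B S IA IB s1 s2) (h1 : APos M T A B S s1 s2 t)
    (h2 : APos M T B A S s1 s2 t') : InP (t - t') := by
  obtain ⟨I', hI', a, ha, hp⟩ := h1
  obtain ⟨I, hI, b, hb, hq⟩ := h2
  obtain ⟨hT, hr, p1⟩ := xd5_up h hI hI' (empty_subset _) ha hp
  obtain ⟨-, -, p2⟩ := xd5_up h.symm hI' hI (empty_subset _) hb hq
  rw [union_comm] at p2
  exact p1.inP hT hr p2

theorem TS2.common (h : TS2 M T A B S IA IB s1 s2) (h1 : APos M T A B S s1 s2 t)
    (h2 : APos M T B A S s1 s2 t) : SPos M T S s1 s2 t := by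
  obtain ⟨I', hI', a, ha, hp⟩ := h1
  obtain ⟨I, hI, b, hb, hq⟩ := h2
  obtain ⟨hT, hr, p1⟩ := xd5_up h hI hI' (empty_subset _) ha hp
  obtain ⟨-, -, p2⟩ := xd5_up h.symm hI' hI (empty_subset _) hb hq
  rw [union_comm] at p2
  rcases ha with ha | ha
  swap
  · exact h.symm.sPos_of_pos hI' ha hp
  rcases hb with hb | hb
  swap
  · exact h.sPos_of_pos hI hb hq
  have hs := h.com.split
  obtain ⟨hT1, hr1⟩ := xd5_one h.symm hI'
  obtain ⟨hT2, hr2⟩ := xd5_one h hI
  obtain ⟨-, c1, c2⟩ := hp.ranks hT1 hr1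
  have nl : ∀ (N : Matroid E) (x y : E), rk N {x, y} = 2 → rk N {x} = 1 := fun N x y e => by
    have a1 := rk_insert_le N y {x}
    have a2 := rk_singleton_le N x
    rw [pair_comm] at a1
    omega
  have a1 := nl _ _ _ c1
  have a2 := nl _ _ _ (hq.ranks hT2 hr2).2.1
  have a3 := nl _ _ _ (p2.ranks hT hr).2.1
  have a4 := rk_insert_of_mem (p1.par hT hr p2)
  have a5 := rk_mn (M := M) (I := I') (disjoint_empty {a})
  have a6 := rk_mn (M := M) (I := I) (disjoint_empty {b})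
  have a7 := rk_mn (M := M) (I := I ∪ I') (disjoint_empty {a, b})
  have a8 := rk_indep hI.indep
  have a9 := rk_indep hI'.indep
  have b1 := xd5_skew hI (hI'.sub.trans
    (M.subset_closure A (subset_union_left.trans (xg1_subA hs))))
  have b2 := hI.skew
  have b3 := hI.span
  have b4 := hI'.skew
  have b5 := hI'.span
  have b6 := rk_mono M (show B ∪ I' ⊆ {a} ∪ I' ∪ B by grind)
  have b7 := rk_le_rank M ({a} ∪ I' ∪ B)
  have b8 := rk_mono M (show A ∪ I ⊆ A ∪ ({b} ∪ I) by grind)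
  have b9 := rk_le_rank M (A ∪ ({b} ∪ I))
  rw [union_comm] at b1
  rw [show {a, b} ∪ (I ∪ I') = {a} ∪ I' ∪ ({b} ∪ I) by grind] at a7
  obtain ⟨s, hs', d1, -⟩ := h.sat ({a} ∪ I') (union_subset (singleton_subset_iff.2 ha) hI'.sub)
    ({b} ∪ I) (union_subset (singleton_subset_iff.2 hb) hI.sub) (by omega) (by omega) (by omega)
  have d2 := rk_insert_of_mem d1
  have d3 := rk_mn (M := M) (I := I') (disjoint_empty {a, s})
  rw [show {a, s} ∪ I' = insert s ({a} ∪ I') by grind] at d3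
  obtain ⟨t', ht'⟩ := xd5_spos h hs' (fun e => by rw [e] at d3 d2; omega)
    (fun e => by rw [e] at d3 d2; omega)
  refine ⟨s, hs', (by_contra fun hne => ?_ : t = t') ▸ ht'⟩
  have := hp.rk_two hT1 hr1 (xd5_down h.symm hI' hs' ht') hne
  omega

theorem TS2.tr_of_aPos (h : TS2 M T A B S IA IB s1 s2) (hI : Skew M A B I) (hJ : J ⊆ B \ I)
    (ht : APos M T A B S s1 s2 t) : Tr (mn M I J) (mnT I J T) s1 s2 t := by
  obtain ⟨I', hI', a, ha, hp⟩ := ht
  obtain ⟨hT, hr, p1⟩ := xd5_up h hI hI' hJ ha hp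
  exact (p1.tr hT hr).of_minor2 (xd5_op h.com.split hI hI' hJ) subset_union_left Subset.rfl

theorem TS2.tr_of_lPos (h : TS2 M T A B S IA IB s1 s2) (hI : Skew M A B I)
    (ht : LPos M T B S I s1 s2 t) : Tr (mn M I ∅) (mnT I ∅ T) s1 s2 t := by
  obtain ⟨b, -, hp⟩ := ht
  exact hp.tr (xd5_one h hI).1 (xd5_one h hI).2

theorem TS2.pos_line (h : TS2 M T A B S IA IB s1 s2) (ht : LPos M T B S IB s1 s2 t) :
    ∃ b, Pos (mn M (IA ∪ IB) ∅) (mnT (IA ∪ IB) ∅ T) s1 s2 b t := by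
  obtain ⟨b, hb, hp⟩ := ht
  exact ⟨b, (xd5_up h.symm h.skA h.skB (empty_subset _) hb hp).2.2⟩

end Pool.Agent.Lib.MP_10bdcf_co.G
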