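import Pool.Agent.Lib.MP_10bdcf_co.XD4
import Pool.Agent.Lib.MP_10bdcf_co.XD5

/-!
The traces of the two sides.
-/

namespace Pool.Agent.Lib.MP_10bdcf_co.G

open scoped Matroid
open Set

set_option linter.unusedSectionVars false

variable {E F : Type} [Fintype E] [Field F] {M : Matroid E} {T : Set E → Matrix E E R0}
  {A B S I J K IA IB : Set E} {s1 s2 b : E} {t t' p : R0} {x : R0 →+* F}

theorem xd6_op (h : TS2 M T A B S IA IB s1 s2) (hI : Skew M A B I) : Op M I ∅ :=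
  hI.op h.com.split (empty_subset _)

theorem xd6_two (h : TS2 M T A B S IA IB s1 s2) (hI : Skew M A B I)
    (hJ : Disjoint {s1, s2} J) : rk (mn M I J) {s1, s2} = 2 :=
  h.rk_two hI h.skA subset_union_left hJ

theorem xd6_cl {X : Set E} {e : E} (hX : Disjoint X J) :
    e ∈ (mn M I J).closure X ↔ e ∈ M.closure (X ∪ I) ∧ e ∉ I ∧ e ∉ J := by
  rw [Matroid.delete_closure_eq_of_disjoint _ hX, Matroid.contract_closure_eq, mem_sdiff, mem_sdiff,
    and_assoc]

theorem xd6_span (h : TS2 M T A B S IA IB s1 s2) (hI : Skew M A B I) :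
    B ∪ S ⊆ M.closure ({s1, s2} ∪ I) := by
  refine subset_closure_of_rk (xg1_subA h.com.split.symm) ?_
  have a1 := (xd6_op h hI).rk_mn (disjoint_empty {s1, s2})
  have a2 := xd6_two h hI (disjoint_empty _)
  have a3 := xg1_rkA h.com.split.symm
  have a4 := rk_mono M (show {s1, s2} ∪ I ∪ (B ∪ S) ⊆ B ∪ S from union_subset (union_subset
    (pair_subset (Or.inr h.h1) (Or.inr h.h2)) (hI.sub.trans subset_union_left)) Subset.rfl)
  have a5 := hI.skew
  have a6 := hI.span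
  have a7 := h.exact
  omega

theorem xd6_notI (h : TS2 M T A B S IA IB s1 s2) (hI : Skew M A B I) {e : E} (he : e ∈ A ∪ S) :
    e ∉ I := fun h' => he.elim (fun h1 => disjoint_left.1 h.com.split.ab h1 (hI.sub h'))
      fun h1 => disjoint_left.1 h.com.split.bs (hI.sub h') h1

theorem xd6_line (h : TS2 M T A B S IA IB s1 s2) (hI : Skew M A B I) {e : E} (he : e ∈ B ∪ S)
    (he' : e ∉ I) : e ∈ (mn M I ∅).closure {s1, s2} :=
  (xd6_cl (disjoint_empty _)).2 ⟨xd6_span h hI he, he', notMem_empty _⟩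

theorem xd6_row (h : TS2 M T A B S IA IB s1 s2) (hI : Skew M A B I)
    (hK : (mn M I ∅).IsBase K) {e : E} (he : e ∈ B ∪ S) (heK : e ∈ K \ {b}) (ht : InG t)
    (h1 : mnT I ∅ T K b s2 ≠ 0) (h2 : mnT I ∅ T K b s1 = t * mnT I ∅ T K b s2) :
    Pos (mn M I ∅) (mnT I ∅ T) s1 s2 e t := by
  have hT := h.tab.minor (xd6_op h hI)
  refine pos_of_row hT (xd6_two h hI (disjoint_empty _)) (xd6_line h hI he
    (disjoint_left.1 (((xd6_op h hI).isBase_iff).1 hK).2.1 heK.1)) ?_ hK ht h1 h2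
    (hT.off hK heK.1 (Ne.symm heK.2))
  rw [rk_indep (hK.indep.subset (singleton_subset_iff.2 heK.1)), ncard_singleton]

theorem xd6_aPos (h : TS2 M T A B S IA IB s1 s2) (hI : Skew M A B I) (hb : b ∈ S)
    (ht : Pos (mn M I ∅) (mnT I ∅ T) s1 s2 b t) : APos M T A B S s1 s2 t :=
  ⟨IA, h.skA, h.symm.sPos_lPos h.skA (h.sPos_of_pos hI hb ht)⟩

theorem xd6_par {N : Matroid E} {e s s' : E} (he : e ∈ N.E) (hr : rk N {s, s'} = 2)
    (h : rk N {e, s} ≠ 2) : e ∈ N.closure {s} := by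
  have a1 := rk_insert_le N e {s}
  have a2 := rk_singleton_le N s
  have a3 := rk_insert_le N s' {s}
  have a4 := rk_mono N (subset_insert e {s})
  rw [pair_comm] at a3
  exact (mem_closure_iff_rk he).2 (by omega)

/-- A row whose hyperplane is spanned by elements of `A` and `S`. -/
theorem TS2.aPos_of_row (h : TS2 M T A B S IA IB s1 s2) (hI : Skew M A B I)
    (hK : (mn M I ∅).IsBase K) (hs : K \ {b} ⊆ A ∪ S) (ht : InG t) (h1 : mnT I ∅ T K b s2 ≠ 0)
    (h2 : mnT I ∅ T K b s1 = t * mnT I ∅ T K b s2) : APos M T A B S s1 s2 t := by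
  by_cases h0 : ∃ s ∈ S, s ∈ K \ {b}
  · obtain ⟨s, e1, e2⟩ := h0
    exact xd6_aPos h hI e1 (xd6_row h hI hK (Or.inr e1) e2 ht h1 h2)
  have hA : K \ {b} ⊆ A := fun e he => (hs he).resolve_right fun h' => h0 ⟨e, h', he⟩
  have ho := xd6_op h hI
  have hsp := h.com.split
  obtain ⟨hb, hb'⟩ := ((h.tab.minor ho).supp K hK b s2).1 h1
  obtain ⟨hKI, hd, -⟩ := ho.isBase_iff.1 hK
  have hBE : B ⊆ M.E := subset_union_left.trans (xg1_subA hsp.symm)
  have hAE : A ⊆ M.E := subset_union_left.trans (xg1_subA hsp)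
  obtain ⟨I', -, i1, i2, i3⟩ := exists_skew (M := M) (I := ∅) hBE (hA.trans hAE) (empty_subset _)
    (by simp)
  have a1 : rk M (B ∪ K \ {b}) = rk M M.E := by
    refine le_antisymm (rk_le_rank _ _) ?_
    obtain ⟨b1, b2⟩ := isBase_iff_rk.1 (ho.isBase_iff.1 hb').1
    rw [← b2, ← b1, ← rk_union_of_subset_closure (hsp.clB.trans
      (M.closure_subset_closure (subset_union_left (t := K \ {b}))))]
    exact rk_mono M (union_subset (insert_subset (Or.inr h.h2)
      (subset_union_right.trans subset_union_left))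
      (hI.sub.trans (subset_union_left.trans subset_union_left)))
  have hI' : Skew M B A I' := ⟨i1.trans hA, i2, i3.trans a1⟩
  obtain ⟨a, a2, a3⟩ : ∃ a ∈ K \ {b}, a ∉ I' := by
    by_contra! hc
    have b1 := ncard_le_ncard (show K \ {b} ⊆ I' from hc)
    have b2 := ncard_sdiff_singleton_add_one hb
    have b3 := rk_base hK
    have b4 := ho.rank
    have b5 := hI.skew
    have b6 := hI.span
    have b7 := h.exact
    omega
  have ho' := xd6_op h.symm hI'
  have hb1 : b ∉ I' := fun h' => (i1 h').2 rfl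
  have hb2 : b ∉ I := disjoint_left.1 hd hb
  have e : (K ∪ I) \ I' ∪ I' = K ∪ I :=
    sdiff_union_of_subset (i1.trans (sdiff_subset.trans subset_union_left))
  have e' : ∀ s ∈ S, mnT I' ∅ T ((K ∪ I) \ I') b s = mnT I ∅ T K b s := fun s hs' => by
    rw [mnT_apply T _ hb1 (xd6_notI h.symm hI' (Or.inr hs')) (notMem_empty _), e,
      mnT_apply T _ hb2 (xd6_notI h hI (Or.inr hs')) (notMem_empty _)]
  refine ⟨I', hI', a, Or.inl (hA a2), xd6_row (K := (K ∪ I) \ I') (b := b) h.symm hI'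
    (ho'.isBase_iff.2 ⟨e.symm ▸ hKI, disjoint_sdiff_left, disjoint_empty _⟩) (Or.inl (hA a2))
    ⟨⟨Or.inl a2.1, a3⟩, a2.2⟩ ht ?_ ?_⟩
  · rwa [e' _ h.h2]
  · rwa [e' _ h.h1, e' _ h.h2]

theorem TS2.tr_cases (h : TS2 M T A B S IA IB s1 s2) (hI : Skew M A B I)
    (ht : Tr (mn M I ∅) (mnT I ∅ T) s1 s2 t) :
    APos M T A B S s1 s2 t ∨ LPos M T B S I s1 s2 t := by
  obtain ⟨hG, K, b, hK, h1, h2⟩ := ht
  by_cases hs : K \ {b} ⊆ A ∪ S
  · exact Or.inl (h.aPos_of_row hI hK hs hG h1 h2)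
  obtain ⟨e, e1, e2⟩ := not_subset.1 hs
  have e3 : e ∈ A ∪ B ∪ S := h.com.split.ground ▸ (mn_ground M I ∅ ▸ hK.subset_ground e1.1).1
  have e4 : e ∈ B ∪ S := Or.inl ((e3.resolve_right fun h' => e2 (Or.inr h')).resolve_left
    fun h' => e2 (Or.inl h'))
  exact Or.inr ⟨e, e4, xd6_row h hI hK e4 e1 hG h1 h2⟩

theorem TS2.free_of_not_aPos (h : TS2 M T A B S IA IB s1 s2) (hI : Skew M A B I)
    (hp : Pos (mn M I ∅) (mnT I ∅ T) s1 s2 b t) (hn : ¬ APos M T A B S s1 s2 t) :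
    ∀ X ⊆ A ∪ S, b ∈ M.closure (X ∪ I) → B ∪ S ⊆ M.closure (X ∪ I) := by
  intro X hX hb
  have ho := xd6_op h hI
  have hT := h.tab.minor ho
  have hr := xd6_two h hI (disjoint_empty {s1, s2})
  obtain ⟨r1, -, r2⟩ := hp.ranks hT hr
  have hE : A ∪ S ⊆ (mn M I ∅).E := fun e he => by
    rw [mn_ground, union_empty]
    exact ⟨xg1_subA h.com.split he, xd6_notI h hI he⟩
  have hb' : b ∈ (mn M I ∅).closure X :=
    (xd6_cl (disjoint_empty _)).2 ⟨hb, ((xd6_cl (disjoint_empty _)).1 r1).2⟩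
  have a2 : s2 ∈ (mn M I ∅).closure X := by
    by_contra hc
    obtain ⟨X0, h0⟩ := (mn M I ∅).exists_isBasis X (hX.trans hE)
    rw [← h0.closure_eq_closure] at hc hb'
    obtain ⟨h1, h2⟩ := (h0.indep.notMem_closure_iff (hE (Or.inr h.h2))).1 hc
    obtain ⟨K, k1, k2⟩ := h1.subset_isBasis_of_subset
      (insert_subset (Or.inr h.h2) (h0.subset.trans hX)) hE
    have hK : (mn M I ∅).IsBase K := by
      have b1 := rk_basis k1
      have b2 := ho.rk_mn (disjoint_empty (A ∪ S))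
      have b3 := ho.rank
      have b4 := hI.span
      have b5 := rk_le_rank M (A ∪ S ∪ I)
      have b6 := rk_mono M (show A ∪ I ⊆ A ∪ S ∪ I from
        union_subset_union_left _ subset_union_left)
      exact isBase_iff_rk.2 ⟨rk_indep k1.indep, by omega⟩
    have d1 := hT.diag K hK s2 (k2 (mem_insert _ _))
    have d2 := xd2_van hT (xd2_row hT hK s2) (fun e he => hT.off hK (k2 (Or.inr he))
      fun h' => h2 (h' ▸ he)) hb'
    obtain ⟨hG, l, hl, hp⟩ := hp
    rw [hp K hK s2, hl.isUnit.mul_right_eq_zero, sub_eq_zero] at d2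
    exact hn (h.aPos_of_row hI hK (sdiff_subset.trans k1.subset) hG (d1 ▸ one_ne_zero) d2)
  have a1 : s1 ∈ (mn M I ∅).closure X := by
    refine Matroid.closure_subset_closure_of_subset_closure (pair_subset hb' a2)
      ((mem_closure_iff_rk (hE (Or.inr h.h1))).2 ?_)
    have b1 := rk_insert_of_mem r1
    have b2 := rk_mono (mn M I ∅) (subset_insert s1 {b, s2})
    rw [insert_comm] at b1
    omega
  refine (xd6_span h hI).trans (Matroid.closure_subset_closure_of_subset_closure (union_subset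
    (pair_subset ((xd6_cl (disjoint_empty _)).1 a1).1 ((xd6_cl (disjoint_empty _)).1 a2).1) ?_))
  exact (M.subset_closure I ho.sub_left).trans (M.closure_subset_closure subset_union_right)

/-- A tangent vector for the side `A` from a number that is compatible with its traces. -/
theorem TS2.free (h : TS2 M T A B S IA IB s1 s2) {w : R0} (hw : InG w)
    (h1 : ∀ t, APos M T A B S s1 s2 t → InG (t - w))
    (h2 : ∀ t, LPos M T B S IB s1 s2 t → InG (t - w)) (x : R0 →+* F) :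
    ∃ v, v ≠ 0 ∧ Kv (mn M IB ∅) (mnT IB ∅ T) x v ∧ ∀ t,
      APos M T A B S s1 s2 t ∨ LPos M T B S IB s1 s2 t → x w * der x v t ≠ x t * der x v w := by
  have ho := xd6_op h h.skB
  obtain ⟨r1, z, hz⟩ := h.rank_lt h.skB ho
  obtain ⟨v, v1, v2⟩ := free1 (h.tab.minor ho) h.v3L h.ih r1 hz
    (xd6_two h h.skB (disjoint_empty _)) hw
    (fun t ht => (h.tr_cases h.skB ht).elim (h1 t) (h2 t)) x
  refine ⟨v, ?_, v1, fun t ht => v2 t (ht.elim (h.tr_of_aPos h.skB (empty_subset _))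
    (h.tr_of_lPos h.skB))⟩
  rintro rfl
  obtain ⟨t, ht⟩ := h.exists_lPos
  exact v2 t (h.tr_of_lPos h.skB ht) (by simp only [der_zero_v, mul_zero])

theorem TS2.noSite (h : TS2 M T A B S IA IB s1 s2) (h1 : ∀ t, APos M T A B S s1 s2 t → t = p)
    (h2 : ∀ t, LPos M T B S IB s1 s2 t → t = p) : ¬ HasSite (mn M IB ∅) := by
  have ho := xd6_op h h.skB
  obtain ⟨r1, z, hz⟩ := h.rank_lt h.skB ho
  obtain ⟨t, ht⟩ := h.exists_lPos
  exact noSite_of_single (h.tab.minor ho) h.v3L h.ih r1 hz (xd6_two h h.skB (disjoint_empty _))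
    (h.tr_of_lPos h.skB (h2 t ht ▸ ht)) fun t ht => (h.tr_cases h.skB ht).elim (h1 t) (h2 t)

/-- The third point from `B` is free for the side `A`. -/
theorem TS2.hard (h : TS2 M T A B S IA IB s1 s2) (hp : LPos M T B S IB s1 s2 p)
    (hu : ∀ t, LPos M T B S IB s1 s2 t → t = p) (hn : ¬ APos M T A B S s1 s2 p)
    (hR : HasR (mn M IB ∅)) (h1 : APos M T A B S s1 s2 t) (h2 : APos M T A B S s1 s2 t')
    (hne : t ≠ t') : InG (t - t') := by
  have hB : APos M T B A S s1 s2 p := ⟨IB, h.skB, hp⟩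
  have g : ∀ {t}, APos M T A B S s1 s2 t → InG (p - t) := fun ht => neg_sub _ p ▸
    ((h.inP ht hB).resolve_left fun e => hn (sub_eq_zero.1 e ▸ ht)).neg
  obtain ⟨b, hb, hp⟩ := hp
  have hI := h.skB
  have hsp := h.com.split
  have hb1 : b ∈ B := hb.resolve_right fun h' => hn (xd6_aPos h hI h' hp)
  have hT := h.tab.minor (xd6_op h hI)
  have hr := xd6_two h hI (disjoint_empty {s1, s2})
  have hb2 : b ∉ IB := ((xd6_cl (disjoint_empty _)).1 (hp.ranks hT hr).1).2.1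
  have hS : ∀ s ∈ S, s ∉ (B \ IB) \ {b} := fun s hs h' => disjoint_left.1 hsp.bs h'.1.1 hs
  obtain ⟨-, p1, p2⟩ := par_set (N := mn M IB ∅) (J := (B \ IB) \ {b}) fun e he => by
    have e1 := xd6_line h hI (Or.inl he.1.1) he.1.2
    have e2 := Matroid.closure_subset_ground _ _ e1
    by_cases c1 : rk (mn M IB ∅) {e, s1} = 2
    · by_cases c2 : rk (mn M IB ∅) {e, s2} = 2
      · obtain ⟨u, hu'⟩ := exists_pos hT hr e1 c1 c2
        exact ⟨b, fun h' => h'.2 rfl, (hu u ⟨e, Or.inl he.1.1, hu'⟩ ▸ hu').par hT hr hp⟩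
      · exact ⟨s2, hS _ h.h2, xd6_par e2 (pair_comm s1 s2 ▸ hr) c2⟩
    · exact ⟨s1, hS _ h.h1, xd6_par e2 hr c1⟩
  have o2 : Op M IB (B \ IB) := hI.op hsp fun e he => ⟨xg1_subA hsp.symm (Or.inl he.1),
    fun h' => h'.elim (fun h'' => disjoint_left.1 hsp.ab h'' he.1) he.2⟩
  have o1 : Op M IB ((B \ IB) \ {b}) := o2.mono Subset.rfl sdiff_subset
  have m1 := (o1.mn_sdiff (T := T) Subset.rfl (empty_subset _)).1
  have m2 := o2.mn_sdiff (T := T) Subset.rfl (sdiff_subset (t := {b}))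
  rw [sdiff_self, sdiff_empty] at m1
  rw [sdiff_self, sdiff_sdiff_cancel_left (singleton_subset_iff.2 (mem_sdiff_of_mem hb1 hb2))] at m2
  rw [m1] at p1 p2
  have hd : Disjoint {s1, s2} ((B \ IB) \ {b}) :=
    disjoint_left.2 fun s hs => hS s (pair_subset h.h1 h.h2 hs)
  refine inG_of_free (h.tab.minor o1) (h.good hI o1 (p1 h.v3L)).1.up (p2 hR) (xd6_two h hI hd)
    (hp.minor2 h.tab o1 Subset.rfl (empty_subset _) ?_) (fun X hX hb' => ?_) ?_ ?_ (g h1) (g h2) hne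
  · refine disjoint_left.2 fun e he h' => ?_
    rcases he with rfl | rfl | rfl
    · exact h'.elim (xd6_notI h hI (Or.inr h.h1)) (hS _ h.h1)
    · exact h'.elim (xd6_notI h hI (Or.inr h.h2)) (hS _ h.h2)
    · exact h'.elim hb2 fun h'' => h''.2 rfl
  · rw [mn_ground] at hX
    have x1 : Disjoint X ((B \ IB) \ {b}) := disjoint_left.2 fun e he h' => (hX he).1.2 (Or.inr h')
    rw [xd6_cl x1] at hb' ⊢
    refine ⟨h.free_of_not_aPos hI hp hn X (fun e he => ?_) hb'.1 (Or.inr h.h1),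
      xd6_notI h hI (Or.inr h.h1), hS _ h.h1⟩
    obtain ⟨⟨e1, e2⟩, e3⟩ := hX he
    rcases hsp.ground ▸ e1 with (e4 | e4) | e4
    · exact Or.inl e4
    · exact absurd (Or.inr ⟨⟨e4, fun h' => e2 (Or.inl h')⟩, e3⟩) e2
    · exact Or.inr e4
  · rw [m2.1, m2.2]
    exact h.tr_of_aPos hI Subset.rfl h1
  · rw [m2.1, m2.2]
    exact h.tr_of_aPos hI Subset.rfl h2

end Pool.Agent.Lib.MP_10bdcf_co.G
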