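import Pool.Agent.Lib.MP_10bdcf_co.XD6

/-!
The tangent vectors of the line are sums of tangent vectors of the two sides.
-/

namespace Pool.Agent.Lib.MP_10bdcf_co.G

open scoped Matroid
open Set

set_option linter.unusedSectionVars false

variable {E F : Type} [Fintype E] [Field F] {M : Matroid E} {T : Set E → Matrix E E R0}
  {A B S IA IB : Set E} {s1 s2 : E} {p p' : R0} {x : R0 →+* F} {v w : F × F}

theorem xd7_op (h : TS M T A B S IA IB) : Op M IB ∅ :=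
  Skew.op h.com.split h.skB (empty_subset _)

theorem xd7_inG {t t' : R0} (h : InP (t - t')) (hne : t ≠ t') : InG (t - t') :=
  h.resolve_left (sub_ne_zero.2 hne)

theorem xd7_swap {t t' : R0} (h : InG (t - t')) : InG (t' - t) := by
  have := h.neg
  rwa [neg_sub] at this

/-- A number of the side `A` and a number of the side `B` differ by a group element, unless they
are the position of a common point. -/
theorem xd7_diff (h : TS2 M T A B S IA IB s1 s2) {t t' : R0} (h1 : APos M T A B S s1 s2 t)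
    (h2 : APos M T B A S s1 s2 t') (hn : ¬ SPos M T S s1 s2 t ∨ ¬ SPos M T S s1 s2 t') :
    InG (t - t') := by
  refine xd7_inG (h.inP h1 h2) ?_
  rintro rfl
  exact hn.elim (fun hn => hn (h.common h1 h2)) fun hn => hn (h.common h1 h2)

theorem TS2.kplus_one (h : TS2 M T A B S IA IB s1 s2)
    (h1 : ∀ t, LPos M T B S IB s1 s2 t → t = p) (h2 : ∀ t, LPos M T A S IA s1 s2 t → t = p)
    (x : R0 →+* F) (w : F × F) : ∃ v v', Kv (mn M IB ∅) (mnT IB ∅ T) x v ∧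
      Kv (mn M IA ∅) (mnT IA ∅ T) x v' ∧ w = v + v' := by
  by_cases hA : ∀ t, APos M T A B S s1 s2 t → t = p
  · exact ⟨w, 0, kv_of_noSite (h.noSite hA h1), kv_zero, (add_zero w).symm⟩
  by_cases hB : ∀ t, APos M T B A S s1 s2 t → t = p
  · exact ⟨0, w, kv_zero, kv_of_noSite (h.symm.noSite hB h2), (zero_add w).symm⟩
  push Not at hA hB
  obtain ⟨α, hα, hαp⟩ := hA
  obtain ⟨β, hβ, hβp⟩ := hB
  obtain ⟨t1, ht1⟩ := h.exists_lPos
  obtain ⟨t2, ht2⟩ := h.symm.exists_lPos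
  have pB : APos M T B A S s1 s2 p := h1 t1 ht1 ▸ ⟨IB, h.skB, ht1⟩
  have pA : APos M T A B S s1 s2 p := h2 t2 ht2 ▸ ⟨IA, h.skA, ht2⟩
  have nα : ¬ SPos M T S s1 s2 α := fun hs => hαp (h1 α (h.sPos_lPos h.skB hs))
  have nβ : ¬ SPos M T S s1 s2 β := fun hs => hβp (h1 β (h.sPos_lPos h.skB hs))
  obtain ⟨vB, -, kB, eB⟩ := h.symm.free hα.inG
    (fun t ht => xd7_swap (xd7_diff h hα ht (Or.inl nα)))
    (fun t ht => h2 t ht ▸ xd7_swap (xd7_diff h hα pB (Or.inl nα))) x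
  obtain ⟨vA, hvA, kA, -⟩ := h.free hβ.inG (fun t ht => xd7_diff h ht hβ (Or.inr nβ))
    (fun t ht => h1 t ht ▸ xd7_diff h pA hβ (Or.inr nβ)) x
  have e1 := kA.tr (h.tab.minor (xd7_op h.toTS)) (h.tr_of_aPos h.skB (empty_subset _) pA)
    (h.tr_of_aPos h.skB (empty_subset _) hα)
  have e2 := sub_ne_zero.2 (eB p (Or.inl pB))
  obtain ⟨d, hd⟩ : ∃ d : F, d * (x α * der x vB p - x p * der x vB α) =
      x α * der x w p - x p * der x w α := ⟨_, div_mul_cancel₀ _ e2⟩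
  obtain ⟨c, hc⟩ := line_of_two (v' := w + (-d) • vB) hα.inG pA.inG
    (xd7_diff h hα pB (Or.inl nα)) hvA e1 (by
      simp only [der_add_v, der_smul_v]
      linear_combination -hd)
  refine ⟨c • vA, d • vB, kA.smul c, kB.smul d, ?_⟩
  rw [← hc, neg_smul, neg_add_cancel_right]

theorem TS2.kplus_sub (h : TS2 M T A B S IA IB s1 s2) (hp : InG p) (hp' : InG p')
    (hpp : InP (p - p')) (h1 : ∀ t, LPos M T B S IB s1 s2 t → t = p ∨ t = p')
    (h2 : ∀ t, LPos M T A S IA s1 s2 t → LPos M T B S IB s1 s2 t) (x : R0 →+* F) :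
    ∃ v, v ≠ 0 ∧ (Kv (mn M IB ∅) (mnT IB ∅ T) x v ∨ Kv (mn M IA ∅) (mnT IA ∅ T) x v) := by
  by_cases hA : ∀ t, APos M T A B S s1 s2 t → SPos M T S s1 s2 t
  · obtain ⟨w, hw, g1, g2⟩ := exists_third hp hp' hpp
    have key : ∀ t, LPos M T B S IB s1 s2 t → InG (t - w) := fun t ht => by
      rcases h1 t ht with rfl | rfl
      exacts [g1, g2]
    obtain ⟨v, hv, k, -⟩ := h.free hw (fun t ht => key t (h.sPos_lPos h.skB (hA t ht))) key x
    exact ⟨v, hv, Or.inl k⟩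
  · push Not at hA
    obtain ⟨α, hα, nα⟩ := hA
    obtain ⟨v, hv, k, -⟩ := h.symm.free hα.inG
      (fun t ht => xd7_swap (xd7_diff h hα ht (Or.inl nα)))
      (fun t ht => xd7_swap (xd7_diff h hα ⟨IB, h.skB, h2 t ht⟩ (Or.inl nα))) x
    exact ⟨v, hv, Or.inr k⟩

theorem TS2.kplus_dis (h : TS2 M T A B S IA IB s1 s2) (hne : p ≠ p')
    (h1 : ∀ t, LPos M T B S IB s1 s2 t → t = p) (h2 : ∀ t, LPos M T A S IA s1 s2 t → t = p')
    (x : R0 →+* F) :
    ∃ v, v ≠ 0 ∧ (Kv (mn M IB ∅) (mnT IB ∅ T) x v ∨ Kv (mn M IA ∅) (mnT IA ∅ T) x v) := by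
  have nS : ∀ t, ¬ SPos M T S s1 s2 t := fun t hs =>
    hne ((h1 t (h.sPos_lPos h.skB hs)).symm.trans (h2 t (h.symm.sPos_lPos h.skA hs)))
  have dif : ∀ t t', APos M T A B S s1 s2 t → APos M T B A S s1 s2 t' → InG (t - t') :=
    fun t t' ht ht' => xd7_diff h ht ht' (Or.inl (nS t))
  obtain ⟨t1, ht1⟩ := h.exists_lPos
  obtain ⟨t2, ht2⟩ := h.symm.exists_lPos
  have lB : LPos M T B S IB s1 s2 p := h1 t1 ht1 ▸ ht1
  have pB : APos M T B A S s1 s2 p := ⟨IB, h.skB, lB⟩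
  have pA : APos M T A B S s1 s2 p' := h2 t2 ht2 ▸ ⟨IA, h.skA, ht2⟩
  by_cases hA : ∀ t, APos M T A B S s1 s2 t → t = p'
  · obtain ⟨w, hw, g1, g2⟩ := exists_third pB.inG pA.inG (Or.inr (xd7_swap (dif _ _ pA pB)))
    obtain ⟨v, hv, k, -⟩ := h.free hw (fun t ht => hA t ht ▸ g2) (fun t ht => h1 t ht ▸ g1) x
    exact ⟨v, hv, Or.inl k⟩
  push Not at hA
  obtain ⟨α, hα, hαp⟩ := hA
  by_cases hR : HasR (mn M IB ∅)
  · have g := h.hard lB h1 (fun ha => nS p (h.common ha pB)) hR pA hα hαp.symm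
    obtain ⟨v, hv, k, -⟩ := h.symm.free hα.inG (fun t ht => xd7_swap (dif _ _ hα ht))
      (fun t ht => h2 t ht ▸ g) x
    exact ⟨v, hv, Or.inr k⟩
  · have ho := xd7_op h.toTS
    obtain ⟨v, hv, k⟩ := (h.good h.skB ho h.v3L).1.one.exists_kv (h.tab.minor ho) hR x
    exact ⟨v, hv, Or.inl k⟩

theorem TS.kplus (h : TS M T A B S IA IB)
    (hw : Kv (mn M (IA ∪ IB) ∅) (mnT (IA ∪ IB) ∅ T) x w) :
    ∃ v v', Kv (mn M IB ∅) (mnT IB ∅ T) x v ∧ Kv (mn M IA ∅) (mnT IA ∅ T) x v' ∧ w = v + v' := by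
  have hT := h.tab.minor h.op
  rcases hasR_or_two h.com.split h.sat h.skA h.skB h.exact h.triA h.triB with
    hR | ⟨s1, hs1, s2, hs2, hne⟩
  · exact ⟨0, 0, kv_zero, kv_zero, by rw [hR.kv_zero hT hw, add_zero]⟩
  have g : TS2 M T A B S IA IB s1 s2 := ⟨h, hs1, hs2, hne⟩
  have hr : rk (mn M (IA ∪ IB) ∅) {s1, s2} = 2 :=
    g.rk_two h.skB h.skA (union_comm IA IB).subset (disjoint_empty _)
  have pos : ∀ t, LPos M T B S IB s1 s2 t ∨ LPos M T A S IA s1 s2 t →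
      ∃ b, Pos (mn M (IA ∪ IB) ∅) (mnT (IA ∪ IB) ∅ T) s1 s2 b t := by
    rintro t (ht | ht)
    · exact g.pos_line ht
    · have := g.symm.pos_line ht
      rwa [union_comm] at this
  have ing : ∀ t, LPos M T B S IB s1 s2 t ∨ LPos M T A S IA s1 s2 t → InG t :=
    fun t ht => ht.elim LPos.inG LPos.inG
  have inp : ∀ t t', LPos M T B S IB s1 s2 t ∨ LPos M T A S IA s1 s2 t →
      LPos M T B S IB s1 s2 t' ∨ LPos M T A S IA s1 s2 t' → InP (t - t') := by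
    intro t t' ht ht'
    obtain ⟨b, hb⟩ := pos t ht
    obtain ⟨b', hb'⟩ := pos t' ht'
    exact hb.inP hT hr hb'
  have rel : ∀ u, Kv (mn M (IA ∪ IB) ∅) (mnT (IA ∪ IB) ∅ T) x u → ∀ t t',
      LPos M T B S IB s1 s2 t ∨ LPos M T A S IA s1 s2 t →
      LPos M T B S IB s1 s2 t' ∨ LPos M T A S IA s1 s2 t' →
      x t * der x u t' = x t' * der x u t := by
    intro u hu t t' ht ht'
    obtain ⟨b, hb⟩ := pos t ht
    obtain ⟨b', hb'⟩ := pos t' ht'
    exact hu.tr hT (hb'.tr hT hr) (hb.tr hT hr)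
  obtain ⟨p, hp⟩ := g.exists_lPos
  by_cases one : ∀ t, LPos M T B S IB s1 s2 t ∨ LPos M T A S IA s1 s2 t → t = p
  · exact g.kplus_one (fun t ht => one t (Or.inl ht)) (fun t ht => one t (Or.inr ht)) x w
  push Not at one
  obtain ⟨p', hp', hpp⟩ := one
  have hp0 : LPos M T B S IB s1 s2 p ∨ LPos M T A S IA s1 s2 p := Or.inl hp
  have g12 : InG (p - p') := xd7_inG (inp _ _ hp0 hp') hpp.symm
  by_cases two : ∀ t, LPos M T B S IB s1 s2 t ∨ LPos M T A S IA s1 s2 t → t = p ∨ t = p'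
  swap
  · push Not at two
    obtain ⟨q, hq, q1, q2⟩ := two
    have h0 : w = 0 := eq_zero_of_three (ing _ hp0) (ing _ hp') (ing _ hq) g12
      (xd7_inG (inp _ _ hp0 hq) q1.symm) (xd7_inG (inp _ _ hp' hq) q2.symm)
      (rel w hw _ _ hp0 hp') (rel w hw _ _ hp0 hq)
    exact ⟨0, 0, kv_zero, kv_zero, by rw [h0, add_zero]⟩
  have key : ∃ u, u ≠ 0 ∧
      (Kv (mn M IB ∅) (mnT IB ∅ T) x u ∨ Kv (mn M IA ∅) (mnT IA ∅ T) x u) := by
    by_cases c1 : ∀ t, LPos M T A S IA s1 s2 t → LPos M T B S IB s1 s2 t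
    · exact g.kplus_sub (ing _ hp0) (ing _ hp') (Or.inr g12) (fun t ht => two t (Or.inl ht)) c1 x
    by_cases c2 : ∀ t, LPos M T B S IB s1 s2 t → LPos M T A S IA s1 s2 t
    · obtain ⟨u, hu, k⟩ := g.symm.kplus_sub (ing _ hp0) (ing _ hp') (Or.inr g12)
        (fun t ht => two t (Or.inr ht)) c2 x
      exact ⟨u, hu, k.symm⟩
    push Not at c1 c2
    obtain ⟨a, a1, a2⟩ := c1
    obtain ⟨b, b1, b2⟩ := c2
    have hab : b ≠ a := fun e => a2 (e ▸ b1)
    have ha := two a (Or.inr a1)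
    have hb := two b (Or.inl b1)
    refine g.kplus_dis hab (fun t ht => ?_) (fun t ht => ?_) x
    · have h3 : t ≠ a := fun e => a2 (e ▸ ht)
      have h4 := two t (Or.inl ht)
      grind
    · have h3 : t ≠ b := fun e => b2 (e ▸ ht)
      have h4 := two t (Or.inr ht)
      grind
  obtain ⟨u, hu, k⟩ := key
  have ku : Kv (mn M (IA ∪ IB) ∅) (mnT (IA ∪ IB) ∅ T) x u :=
    k.elim (fun k => k.minor2 h.op subset_union_right Subset.rfl)
      fun k => k.minor2 h.op subset_union_left Subset.rfl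
  obtain ⟨c, hc⟩ := line_of_two (ing _ hp0) (ing _ hp') g12 hu (rel u ku _ _ hp0 hp')
    (rel w hw _ _ hp0 hp')
  rcases k with k | k
  · exact ⟨c • u, 0, k.smul c, kv_zero, by rw [hc, add_zero]⟩
  · exact ⟨0, c • u, kv_zero, k.smul c, by rw [hc, zero_add]⟩

end Pool.Agent.Lib.MP_10bdcf_co.G
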