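import Pool.Agent.Lib.MP_10bdcf_co.XD5
import Pool.Agent.Lib.MP_10bdcf_co.XG2

/-!
Common points are fixed; gluing diagonal forms along the line.
-/

namespace Pool.Agent.Lib.MP_10bdcf_co.G

open scoped Matroid
open Set

set_option linter.unusedSectionVars false

variable {E F : Type} [Fintype E] [Field F] {M : Matroid E} {T : Set E → Matrix E E R0}
  {A B S S' I IA IB : Set E} {s : E} {x y : R0 →+* F} {U W : Sb F E} {φ : Fm F E} {v : F × F}

theorem xd8_op (h : Split M A B S) (hS : S' ⊆ S) (hI : I ⊆ B) (hi : M.Indep I) : Op M I S' := by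
  have hE := h.ground
  refine op_iff_rk.2 ⟨rk_indep hi, fun e he => by rw [hE]; exact Or.inr (hS he),
    le_antisymm (rk_le_rank _ _) ((xd2_span h).trans (rk_mono _ ?_)), (h.bs.mono hI hS)⟩
  intro e he
  refine ⟨by rw [hE]; exact Or.inl he, fun h' => ?_⟩
  rcases he with he | he
  · exact h.as.notMem_of_mem_left he (hS h')
  · exact h.bs.notMem_of_mem_left he (hS h')

theorem xd8_indep (hk : rk M (A ∪ I) = rk M A + I.ncard) : M.Indep I := by
  have h1 := rk_union_le M A I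
  have h2 := rk_le_ncard M I
  exact indep_iff_rk.2 (by omega)

theorem xd8_cl {J Z : Set E} {e : E} (h1 : e ∉ I) (h2 : e ∉ J) (hd : Disjoint Z J)
    (h : e ∈ M.closure (Z ∪ I)) : e ∈ (mn M I J).closure Z := by
  rw [Matroid.delete_closure_eq, Matroid.contract_closure_eq, hd.sdiff_eq_left]
  exact ⟨⟨h, h1⟩, h2⟩

theorem xd8_nonloop {e : E} (ho : Op M I ∅) (he : e ∈ M.E) (h : e ∉ M.closure I) :
    rk (mn M I ∅) {e} = 1 := by
  have h1 := ho.rk_mn (X := {e}) (disjoint_empty _)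
  have h2 := rk_insert_of_notMem he h
  have h3 := rk_indep ho.ind
  rw [singleton_union] at h1
  omega

theorem Com.op (h : Com M A B S) (hS : S' ⊆ S) : Op M ∅ S' :=
  xd8_op h.split hS (empty_subset _) M.empty_indep

/-- A common point is fixed, also after contracting a skew set and deleting the other points. -/
theorem Com.fix (h : Com M A B S) (hp : Pair M U W) (hI : I ⊆ B)
    (hk : rk M (A ∪ I) = rk M A + I.ncard) (hs : s ∈ S) :
    Fix (van U (S \ {s})) (van W I) s := by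
  have hsp := h.split
  have ho : Op M I (S \ {s}) := xd8_op hsp sdiff_subset hI (xd8_indep hk)
  obtain ⟨X, hX, Y, hY, c1, c2, r1, -⟩ := h.common s hs
  have dX : Disjoint X (S \ {s}) := hsp.as.mono hX sdiff_subset
  have dY : Disjoint (Y \ I) (S \ {s}) := hsp.bs.mono (sdiff_subset.trans hY) sdiff_subset
  have sI : s ∉ I := fun h' => hsp.bs.notMem_of_mem_left (hI h') hs
  have sJ : s ∉ S \ {s} := fun h' => h'.2 rfl
  refine (hp.minor ho).fix_of_two (X := X) (Y := Y \ I) ?_ ?_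
    (fun h' => hsp.as.notMem_of_mem_left (hX h') hs)
    (fun h' => hsp.bs.notMem_of_mem_left (hY h'.1) hs)
    (xd8_cl sI sJ dX (M.closure_subset_closure subset_union_left c1))
    (xd8_cl sI sJ dY (M.closure_subset_closure (by rw [sdiff_union_self]; exact subset_union_left) c2))
    ?_ ?_
  · intro e he
    rw [mn_ground, hsp.ground]
    exact ⟨Or.inl (Or.inl (hX he)), fun h' => h'.elim
      (fun h' => hsp.ab.notMem_of_mem_left (hX he) (hI h')) (dX.notMem_of_mem_left he)⟩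
  · intro e he
    rw [mn_ground, hsp.ground]
    exact ⟨Or.inl (Or.inr (hY he.1)), fun h' => h'.elim he.2 (dY.notMem_of_mem_left he)⟩
  · have a1 := ho.rk_mn (X := {s}) (disjoint_singleton_left.2 sJ)
    have a2 := rk_singleton_le (mn M I (S \ {s})) s
    have a3 : rk M {s} + rk M (A ∪ I) ≤ rk M ({s} ∪ I) + rk M (insert s A) :=
      rk_submod' M subset_union_left (singleton_subset_iff.2 (mem_insert _ _)) fun e he =>
        he.elim (fun he => Or.inr (Or.inr he)) fun he => Or.inl (Or.inr he)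
    have a4 := rk_insert_of_mem (hsp.clA hs)
    have a5 := h.nonloop s hs
    omega
  · have a1 := ho.rk_mn dX
    have a2 := ho.rk_mn dY
    have a3 := ho.rk_mn (dX.union_left dY)
    have a4 := rk_union_le M X I
    have a5 := rk_le_ncard M I
    have a6 : rk M (Y \ I ∪ I) + rk M (X ∪ B) ≤ rk M (X ∪ Y \ I ∪ I) + rk M B :=
      rk_submod' M (union_subset_union_left _ subset_union_right)
        (union_subset (sdiff_subset.trans hY) hI) fun e he =>
        he.elim (fun he => Or.inl (Or.inl (Or.inl he))) Or.inr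
    omega

theorem Com.gauge (h : Com M A B S) (hp : Pair M U W) (hI : I ⊆ B)
    (hk : rk M (A ∪ I) = rk M A + I.ncard) (hv : Val φ U (van W I))
    (hg : Gauge φ (van U S) (van W I)) : Gauge φ U (van W I) := by
  have key : ∀ Z : Set E, Z.Finite → Z ⊆ S → Gauge φ (van U Z) (van W I) → Gauge φ U (van W I) := by
    intro Z hZ
    induction Z, hZ using Set.Finite.induction_on with
    | empty => intro _ h0; rwa [van_empty] at h0
    | @insert a Z ha _ ih =>
      intro hS h0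
      have hZ : Z ⊆ S \ {a} := fun e he =>
        ⟨hS (Or.inr he), fun h' => ha (mem_singleton_iff.1 h' ▸ he)⟩
      refine ih (hZ.trans sdiff_subset) (((h.fix hp hI hk (hS (mem_insert _ _))).mono
        (van_anti U hZ)).gauge (hv.mono (van_le _ _) le_rfl) ?_)
      rwa [van_van, union_singleton]
  exact key S (toFinite S) Subset.rfl hg

theorem xd8_ext (h : Com M A B S) (hp : Pair M U W) (hs : s ∈ S) (hv : Val φ (van U {s}) W) :
    ∃ ψ, Val ψ U W ∧ Agr ψ φ (van U {s}) W := by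
  have hsp := h.split
  obtain ⟨X, hX, Y, hY, c1, c2, r1, r2⟩ := h.common s hs
  have a1 : rk M (A ∪ S \ {s}) = rk M A := rk_union_of_subset_closure (sdiff_subset.trans hsp.clA)
  have a2 : rk M (A ∪ Y) ≤ rk M (A ∪ S \ {s} ∪ Y) :=
    rk_mono _ (union_subset_union_left _ subset_union_left)
  have a3 := hsp.le
  refine hp.extend (A := A ∪ S \ {s}) (B := B) ?_
    (fun h' => h'.elim (fun h' => hsp.as.notMem_of_mem_left h' hs) fun h' => h'.2 rfl)
    (fun h' => hsp.bs.notMem_of_mem_left h' hs)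
    (hsp.ab.union_left (hsp.bs.symm.mono_left sdiff_subset)) (by omega)
    (hX.trans subset_union_left) hY c1 c2 (h.nonloop s hs) r1 (by omega) hv
  rw [hsp.ground]
  ext e
  by_cases he : e = s
  · simp [he, hs]
  · simp [he, or_right_comm]

theorem Com.extend (h : Com M A B S) (hp : Pair M U W) (hv : Val φ (van U S) W) :
    ∃ ψ, Val ψ U W ∧ Agr ψ φ (van U S) W := by
  have key : ∀ Z : Set E, Z.Finite → Z ⊆ S → ∀ φ : Fm F E, Val φ (van U Z) W →
      ∃ ψ, Val ψ U W ∧ Agr ψ φ (van U Z) W := by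
    intro Z hZ
    induction Z, hZ using Set.Finite.induction_on with
    | empty => intro _ φ h0; exact ⟨φ, by rwa [van_empty] at h0, Agr.refl _ _ _⟩
    | @insert a Z ha _ ih =>
      intro hS φ h0
      have hZ : Z ⊆ S := (subset_insert _ _).trans hS
      have e0 : van (van U Z) {a} = van U (insert a Z) := by rw [van_van, union_singleton]
      obtain ⟨ψ, v1, g1⟩ := xd8_ext (h.delete Z hZ) (hp.delete (h.op hZ).coi)
        (s := a) ⟨hS (mem_insert _ _), ha⟩ (e0 ▸ h0)
      obtain ⟨χ, v2, g2⟩ := ih hZ ψ v1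
      exact ⟨χ, v2, (g2.mono (van_anti U (subset_insert _ _)) le_rfl).trans (e0 ▸ g1)⟩
  exact key S (toFinite S) Subset.rfl φ hv

theorem Com.kv (h : Com M A B S) (hT : U2 M T) (hI : Skew M A B I)
    (hv : Kv (mn M I S) (mnT I S T) x v) : Kv (mn M I ∅) (mnT I ∅ T) x v := by
  obtain ⟨U, W, ho, -⟩ := hT.exists_obj x x
  have o1 : Op M I S := xd8_op h.split Subset.rfl hI.sub hI.indep
  refine (ho.k_minor_iff (o1.mono Subset.rfl (empty_subset _))).1 ?_
  rw [van_empty]
  exact h.gauge ho.pair hI.sub hI.skew ((ho.dfm_val v).mono le_rfl (van_le _ _))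
    ((ho.k_minor_iff o1).2 hv)

theorem xd8_opA (h : TS M T A B S IA IB) : Op M IA ∅ := h.op.mono subset_union_left Subset.rfl

theorem xd8_opB (h : TS M T A B S IA IB) : Op M IB ∅ := h.op.mono subset_union_right Subset.rfl

theorem xd8_line (h : TS M T A B S IA IB) :
    rk (mn M (IA ∪ IB) ∅) (mn M (IA ∪ IB) ∅).E = 2 ∧ ConL (mn M (IA ∪ IB) ∅) :=
  conL_line h.com.split h.skA h.skB h.exact h.triB

theorem xd8_obj (ho : Obj M T x y U W) (hI : Op M I ∅) :
    Obj (mn M I ∅) (mnT I ∅ T) x y U (van W I) := by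
  have := ho.minor hI
  rwa [van_empty] at this

/-- A form at one point that is diagonal on both sides is diagonal. -/
theorem TS.gauge (h : TS M T A B S IA IB) (ho : Obj M T x x U W) (h1 : Gauge φ U (van W IB))
    (h2 : Gauge φ U (van W IA)) : Gauge φ U W := by
  obtain ⟨γ, h1⟩ := h1
  obtain ⟨δ, h2⟩ := h2
  have h0 : Agr (gf (γ - δ)) 0 U (van W (IA ∪ IB)) := fun u hu w hw => by
    rw [gf_sub, LinearMap.sub_apply, LinearMap.sub_apply,
      ← h1 u hu w (van_anti W subset_union_right hw), ← h2 u hu w (van_anti W subset_union_left hw)]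
    simp
  obtain ⟨c, hc⟩ := (xd8_obj ho h.op).ker_same' (xd8_line h).2 h0
  refine ho.pair.gauge_union h.com.split h.skA h.skB (δ := δ + fun _ => c) h1
    (fun u hu w hw => ?_) fun e he hn => ?_
  · rw [gf_add, LinearMap.add_apply, LinearMap.add_apply, ho.orth c u hu w (van_le _ _ hw),
      h2 u hu w hw]
    simp
  · have := hc e (xd8_nonloop h.op he hn)
    rw [Pi.sub_apply] at this
    rw [Pi.add_apply, ← this]
    ring

theorem TS.kv (h : TS M T A B S IA IB) (h1 : Kv (mn M IB ∅) (mnT IB ∅ T) x v)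
    (h2 : Kv (mn M IA ∅) (mnT IA ∅ T) x v) : Kv M T x v := by
  obtain ⟨U, W, ho, -⟩ := h.tab.exists_obj x x
  have a1 := (ho.k_minor_iff (xd8_opB h)).2 h1
  have a2 := (ho.k_minor_iff (xd8_opA h)).2 h2
  rw [van_empty] at a1 a2
  exact ho.k_iff.1 (h.gauge ho a1 a2)

/-- A common nonzero tangent vector of both sides, unless the line has three points only. -/
theorem TS.kv_cases {v' : F × F} (h : TS M T A B S IA IB) (hv : v ≠ 0) (hv' : v' ≠ 0)
    (h1 : Kv (mn M IB ∅) (mnT IB ∅ T) x v) (h2 : Kv (mn M IA ∅) (mnT IA ∅ T) x v') :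
    (∃ u, u ≠ 0 ∧ Kv M T x u) ∨
      (¬ HasSite (mn M (IA ∪ IB) ∅) ∧ HasSite (mn M IB ∅) ∧ HasSite (mn M IA ∅)) := by
  by_cases s0 : HasSite (mn M (IA ∪ IB) ∅)
  · obtain ⟨c, hc⟩ := (h1.minor2 h.op subset_union_right Subset.rfl).line (h.tab.minor h.op) s0 hv
      (h2.minor2 h.op subset_union_left Subset.rfl)
    exact Or.inl ⟨v', hv', h.kv (hc ▸ h1.smul c) h2⟩
  by_cases s1 : HasSite (mn M IB ∅)
  · by_cases s2 : HasSite (mn M IA ∅)
    · exact Or.inr ⟨s0, s1, s2⟩
    · exact Or.inl ⟨v, hv, h.kv h1 (kv_of_noSite s2)⟩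
  · exact Or.inl ⟨v', hv', h.kv (kv_of_noSite s1) h2⟩

theorem xd8_good (h : TS M T A B S IA IB) :
    GoodT (mn M IB ∅) (mnT IB ∅ T) ∧ NZ (mn M IB ∅) (mnT IB ∅ T) :=
  h.good h.skB (xd8_opB h) h.v3L

/-- A side with a frame has a valid form that is not diagonal. -/
theorem xd8_side (h : TS M T A B S IA IB) (ho : Obj M T x y U W) (ht : Tw x y)
    (hR : HasR (mn M IB ∅)) : ∃ φ, Val φ U (van W IB) ∧ ¬ Gauge φ U (van W IB) ∧
      (HasR (mn M (IA ∪ IB) ∅) → ¬ Gauge φ U (van W (IA ∪ IB))) := by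
  obtain ⟨φ, v1, n1⟩ := ho.ex_minor ht ((hasR_minor_iff (xd8_opB h)).1 hR) (xd8_good h).1.ex
  refine ⟨φ, by rwa [van_empty] at v1, by rwa [van_empty] at n1, fun hL hg => n1 ?_⟩
  obtain ⟨I', J', hf, i1, -⟩ := (hasR_minor_iff h.op).1 hL
  exact ho.nz_minor (xd8_opB h) (xd8_good h).2 hf (subset_union_right.trans i1) (empty_subset _) v1
    (hg.mono (van_le _ _) (van_anti W i1))

theorem xd8_one (h : TS M T A B S IA IB) (ho : Obj M T x y U W) (ht : Tw x y)
    (hR : HasR (mn M IB ∅)) : ∃ φ, Val φ U W ∧ ¬ Gauge φ U W := by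
  obtain ⟨φ, v1, n1, -⟩ := xd8_side h ho ht hR
  have oL := xd8_obj ho h.op
  have v1' : Val φ U (van W (IA ∪ IB)) := v1.mono le_rfl (van_anti W subset_union_right)
  have key : ∃ ψ, Val ψ U (van W IA) ∧ Agr φ ψ U (van W (IA ∪ IB)) := by
    by_cases hL : HasR (mn M (IA ∪ IB) ∅)
    · obtain ⟨ψ, v2, -, n2⟩ := xd8_side h.symm ho ht
        (hL.of_minor2 h.op subset_union_left Subset.rfl)
      rw [union_comm IB IA] at n2
      obtain ⟨c, γ, hγ⟩ := oL.line ht (nz_rank_two oL.tab (xd8_line h).1.le) hL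
        (v2.mono le_rfl (van_anti W subset_union_left)) v1' (n2 hL)
      refine ⟨c • ψ + gf γ, (v2.smul c).add (val_gf _ _ _), fun u hu w hw => ?_⟩
      rw [LinearMap.add_apply, LinearMap.add_apply, ← hγ u hu w hw]
      simp
    · obtain ⟨γ, hγ⟩ := oL.line4 ht (xd8_line h).1.le hL v1'
      exact ⟨gf γ, val_gf _ _ _, hγ⟩
  obtain ⟨ψ, v2, ha⟩ := key
  obtain ⟨χ, v3, g1, -⟩ := ho.pair.glue h.com.split (fun _ => h.sat) h.skA h.skB v1 v2 ha
  exact ⟨χ, v3, fun hg => n1 ((hg.mono le_rfl (van_le _ _)).congr g1.symm)⟩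

theorem TS.ex (h : TS M T A B S IA IB) : Ex M T := by
  intro hR F _ x y U W ht ho
  by_cases r1 : HasR (mn M IB ∅)
  · exact xd8_one h ho ht r1
  by_cases r2 : HasR (mn M IA ∅)
  · exact xd8_one h.symm ho ht r2
  have o1 := xd8_obj ho (xd8_opB h)
  have o2 := xd8_obj ho (xd8_opA h)
  obtain ⟨v, hv, k1⟩ := (xd8_good h).1.one.exists_kv o1.tab r1 x
  obtain ⟨v', hv', k2⟩ := (xd8_good h.symm).1.one.exists_kv o2.tab r2 x
  rcases h.kv_cases hv hv' k1 k2 with ⟨u, hu, k⟩ | ⟨s0, s1, s2⟩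
  · exact absurd (hR.kv_zero h.tab k) hu
  obtain ⟨μ, hμ, g0⟩ := (xd8_obj ho h.op).exists_mu s0
  obtain ⟨χ, v3, g1, g2⟩ := ho.pair.glue (φB := 0) h.com.split (fun _ => h.sat) h.skA h.skB
    (val_gf μ _ _) (fun _ _ _ _ _ => rfl) g0
  refine ⟨χ, v3, fun ⟨γ, hγ⟩ => ?_⟩
  have z1 := o1.ker_tw' (γ := γ - μ) ht h.v3L.conL s1 fun u hu w hw => by
    rw [gf_sub, LinearMap.sub_apply, LinearMap.sub_apply, ← hγ u hu w (van_le _ _ hw),
      g1 u hu w hw]
    simp
  have z2 := o2.ker_tw' (γ := γ) ht h.symm.v3L.conL s2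
    ((hγ.mono le_rfl (van_le _ _)).symm.trans g2)
  have a1 := h.op.rank
  have a2 := rk_indep h.op.ind
  have a3 := (xd8_line h).1
  obtain ⟨e, he, -, a4⟩ := zt_exists_notMem (M := M) (K := IA ∪ IB) Subset.rfl (by omega)
  have n0 : e ∉ M.closure (IA ∪ IB) := fun h' => by have := rk_insert_of_mem h'; omega
  have b1 := z1 e (xd8_nonloop (xd8_opB h) he fun h' =>
    n0 (M.closure_subset_closure subset_union_right h'))
  have b2 := z2 e (xd8_nonloop (xd8_opA h) he fun h' =>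
    n0 (M.closure_subset_closure subset_union_left h'))
  rw [Pi.sub_apply, b2, zero_sub, neg_eq_zero] at b1
  exact hμ e b1

end Pool.Agent.Lib.MP_10bdcf_co.G
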