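import Pool.Agent.Lib.MP_10bdcf_co.XG3

/-!
A copy of the matroid in a type with spare elements.
-/

namespace Pool.Agent.Lib.MP_10bdcf_co.G

open scoped Matroid
open Set

set_option linter.unusedSectionVars false

variable {E : Type} [Fintype E]

section Copy

variable {ι : Type} [Fintype ι] {M : Matroid E}

/-- The copy of `M` in the larger type. -/
def xg4_cp (ι : Type) (M : Matroid E) : Matroid (E ⊕ ι) :=
  M.map Sum.inl (Sum.inl_injective (β := ι)).injOn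

theorem xg4_hi : Function.Injective (Sum.inl : E → E ⊕ ι) := Sum.inl_injective

theorem xg4_ground : (xg4_cp ι M).E = Sum.inl '' M.E := rfl

theorem xg4_dual : (xg4_cp ι M)✶ = xg4_cp ι M✶ := Matroid.map_dual

theorem xg4_base {B : Set (E ⊕ ι)} :
    (xg4_cp ι M).IsBase B ↔ ∃ B0, M.IsBase B0 ∧ B = Sum.inl '' B0 := M.map_isBase_iff _ _

theorem xg4_rk' (X : Set (E ⊕ ι)) : rk (xg4_cp ι M) X = rk M (Sum.inl ⁻¹' X) := by
  rw [← rk_inter_ground, ← rk_inter_ground M, xg4_ground, ← image_preimage_inter, rk, rk, xg4_cp,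
    M.eRk_map xg4_hi.injOn inter_subset_right]

theorem xg4_rk (X : Set E) : rk (xg4_cp ι M) (Sum.inl '' X) = rk M X := by
  rw [xg4_rk', preimage_image_eq X xg4_hi]

theorem xg4_card (X : Set E) : (Sum.inl '' X : Set (E ⊕ ι)).ncard = X.ncard :=
  ncard_image_of_injective X xg4_hi

theorem xg4_indep {I : Set E} : (xg4_cp ι M).Indep (Sum.inl '' I) ↔ M.Indep I := by
  rw [indep_iff_rk, indep_iff_rk, xg4_rk, xg4_card]

theorem xg4_base_img {B : Set E} : (xg4_cp ι M).IsBase (Sum.inl '' B) ↔ M.IsBase B := by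
  rw [isBase_iff_rk, isBase_iff_rk, xg4_rk, xg4_card, xg4_ground, xg4_rk]

theorem xg4_sdiff (X : Set E) :
    (xg4_cp ι M).E \ Sum.inl '' X = Sum.inl '' (M.E \ X) := by
  rw [xg4_ground, image_sdiff xg4_hi]

theorem xg4_lam (X : Set E) : lam (xg4_cp ι M) (Sum.inl '' X) = lam M X := by
  rw [lam, lam, xg4_sdiff, xg4_rk, xg4_rk, xg4_ground, xg4_rk]

theorem xg4_conK (j : ℕ) : ConK j (xg4_cp ι M) ↔ ConK j M := by
  constructor
  · intro h X hX hk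
    have := h (Sum.inl '' X) (image_mono hX) (by rwa [xg4_lam])
    rwa [xg4_sdiff, xg4_card, xg4_card, xg4_lam] at this
  · intro h X hX hk
    obtain ⟨X0, h0, rfl⟩ := subset_image_iff.1 (show X ⊆ Sum.inl '' M.E from hX)
    rw [xg4_lam] at hk
    rw [xg4_sdiff, xg4_card, xg4_card, xg4_lam]
    exact h X0 h0 hk

theorem xg4_circuit {C : Set E} (h : (xg4_cp ι M).IsCircuit (Sum.inl '' C)) : M.IsCircuit C := by
  rw [Matroid.isCircuit_iff_forall_ssubset] at h ⊢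
  refine ⟨⟨fun hC => h.1.not_indep (xg4_indep.2 hC), ?_⟩, fun I hI => xg4_indep.1 (h.2 ?_)⟩
  · exact (image_subset_image_iff xg4_hi).1 h.1.subset_ground
  · exact xg4_hi.image_strictMono hI

theorem xg4_noTri (h : NoTri M) : NoTri (xg4_cp ι M) := by
  intro e f g h1 h2 h3 hC
  have hs := hC.subset_ground
  obtain ⟨e0, -, rfl⟩ := hs (show e ∈ _ by simp)
  obtain ⟨f0, -, rfl⟩ := hs (show f ∈ _ by simp)
  obtain ⟨g0, -, rfl⟩ := hs (show g ∈ _ by simp)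
  refine h e0 f0 g0 (fun e => h1 (e ▸ rfl)) (fun e => h2 (e ▸ rfl)) (fun e => h3 (e ▸ rfl))
    (xg4_circuit (ι := ι) ?_)
  rwa [image_insert_eq, image_insert_eq, image_singleton]

theorem xg4_op {I J : Set E} :
    Op (xg4_cp ι M) (Sum.inl '' I) (Sum.inl '' J) ↔ Op M I J := by
  have h1 : (xg4_cp ι M).Coindep (Sum.inl '' J) ↔ M.Coindep J := by
    rw [Matroid.coindep_def, Matroid.coindep_def, xg4_dual, xg4_indep]
  exact ⟨fun h => ⟨xg4_indep.1 h.ind, h1.1 h.coi, (disjoint_image_iff xg4_hi).1 h.dis⟩,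
    fun h => ⟨xg4_indep.2 h.ind, h1.2 h.coi, (disjoint_image_iff xg4_hi).2 h.dis⟩⟩

theorem xg4_mn_ground (I J : Set E) :
    (mn (xg4_cp ι M) (Sum.inl '' I) (Sum.inl '' J)).E = Sum.inl '' (mn M I J).E := by
  rw [mn_ground, mn_ground, ← image_union, xg4_sdiff]

theorem xg4_mn_rk {I J X : Set E} (hX : X ⊆ (mn M I J).E) :
    rk (mn (xg4_cp ι M) (Sum.inl '' I) (Sum.inl '' J)) (Sum.inl '' X) = rk (mn M I J) X := by
  have hd : Disjoint X J := by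
    rw [mn_ground] at hX
    exact Set.disjoint_left.2 fun z hz hzJ => (hX hz).2 (Or.inr hzJ)
  have h1 := rk_mn (M := M) (I := I) hd
  have h2 := rk_mn (M := xg4_cp ι M) (I := Sum.inl '' I) ((disjoint_image_iff xg4_hi).2 hd)
  rw [← image_union, xg4_rk, xg4_rk] at h2
  omega

theorem xg4_unif {I J : Set E} {k n : ℕ} :
    IsUnif k n (mn (xg4_cp ι M) (Sum.inl '' I) (Sum.inl '' J)) ↔ IsUnif k n (mn M I J) := by
  rw [IsUnif, IsUnif, xg4_mn_ground, xg4_card]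
  refine and_congr_right fun _ => ⟨fun h X hX => ?_, fun h X hX => ?_⟩
  · rw [← xg4_mn_rk (ι := ι) hX, h _ (image_mono hX), xg4_card]
  · obtain ⟨X0, h0, rfl⟩ := subset_image_iff.1 hX
    rw [xg4_mn_rk h0, h _ h0, xg4_card]

theorem xg4_hasR : HasR (xg4_cp ι M) ↔ HasR M := by
  constructor
  · rintro ⟨I, J, h⟩
    obtain ⟨I0, -, rfl⟩ := subset_image_iff.1 (show I ⊆ Sum.inl '' M.E from h.ind.subset_ground)
    obtain ⟨J0, -, rfl⟩ := subset_image_iff.1 (show J ⊆ Sum.inl '' M.E from h.coi.subset_ground)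
    exact ⟨I0, J0, xg4_op.1 h.toOp, h.isR.imp xg4_unif.1 xg4_unif.1⟩
  · rintro ⟨I, J, h⟩
    exact ⟨_, _, xg4_op.2 h.toOp, h.isR.imp xg4_unif.2 xg4_unif.2⟩

theorem xg4_ex (B : Set E) (b e : E) :
    ex (Sum.inl '' B : Set (E ⊕ ι)) (Sum.inl b) (Sum.inl e) = Sum.inl '' ex B b e := by
  rw [ex, ex, image_insert_eq, image_sdiff xg4_hi, image_singleton]

theorem xg4_adj {B : Set E} {b e : E} (h : Adj M B b e) :
    Adj (xg4_cp ι M) (Sum.inl '' B) (Sum.inl b) (Sum.inl e) :=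
  ⟨mem_image_of_mem _ h.1, fun h' => h.2.1 (xg4_hi.mem_set_image.1 h'), by
    rw [xg4_ex]; exact xg4_base_img.2 h.2.2⟩

variable {T : Set E → Matrix E E R0} {T' : Set (E ⊕ ι) → Matrix (E ⊕ ι) (E ⊕ ι) R0}

theorem xg4_isCr (he : ∀ B b e, T' (Sum.inl '' B) (Sum.inl b) (Sum.inl e) = T B b e) {m : Mo}
    (h : IsCr M T m) : IsCr (xg4_cp ι M) T' m := by
  obtain ⟨B, g, k, e, f, hs, hc⟩ := h
  refine ⟨Sum.inl '' B, Sum.inl g, Sum.inl k, Sum.inl e, Sum.inl f,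
    ⟨xg4_base_img.2 hs.base, xg4_adj hs.ge, xg4_adj hs.gf, xg4_adj hs.he, xg4_adj hs.hf,
      fun h' => hs.ne (xg4_hi h'), ?_⟩, by simpa only [he] using hc⟩
  rw [xg4_ex]
  exact xg4_adj hs.ns

variable {F : Type} [Field F]

/-- Extension by zero. -/
def xg4_ext (ι : Type) : (E → F) →ₗ[F] (E ⊕ ι → F) where
  toFun u := Sum.elim u 0
  map_add' u w := by ext z; rcases z with z | z <;> simp
  map_smul' c u := by ext z; rcases z with z | z <;> simp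

@[simp] theorem xg4_ext_inl (u : E → F) (e : E) : xg4_ext ι u (Sum.inl e) = u e := rfl

@[simp] theorem xg4_ext_inr (u : E → F) (j : ι) : xg4_ext ι u (Sum.inr j) = 0 := rfl

theorem xg4_obj {x y : R0 →+* F} {U W : Sb F E} (hT : U2 (xg4_cp ι M) T')
    (he : ∀ B b e, T' (Sum.inl '' B) (Sum.inl b) (Sum.inl e) = T B b e) (h : Obj M T x y U W) :
    Obj (xg4_cp ι M) T' x y (U.map (xg4_ext ι)) (W.map (xg4_ext ι)) := by
  refine ⟨hT, ⟨?_, fun B hB c => ?_, ?_⟩, ⟨?_, fun B hB c => ?_, ?_⟩, fun e hn => ?_⟩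
  · rintro _ ⟨u, hu, rfl⟩ B hB b
    obtain ⟨B0, h0, rfl⟩ := xg4_base.1 hB
    rcases b with b | b
    · simpa [Fintype.sum_sum_type, he] using h.cyc.ker u hu B0 h0 b
    · have h1 := hT.row hB (b := Sum.inr b) (by simp)
      simp [h1]
  · obtain ⟨B0, h0, rfl⟩ := xg4_base.1 hB
    obtain ⟨u, hu, h1⟩ := h.cyc.ext B0 h0 (c ∘ Sum.inl)
    refine ⟨_, ⟨u, hu, rfl⟩, fun e he' => ?_⟩
    rw [xg4_sdiff] at he'
    obtain ⟨e0, h2, rfl⟩ := he'
    exact h1 e0 h2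
  · rintro _ ⟨u, hu, rfl⟩ h1
    rw [h.cyc.inj u hu fun e he' => h1 (Sum.inl e) (mem_image_of_mem _ he'), map_zero]
  · rintro _ ⟨w, hw, rfl⟩ B hB _ ⟨e, he', rfl⟩
    obtain ⟨B0, h0, rfl⟩ := xg4_base.1 hB
    simpa [Fintype.sum_sum_type, he] using h.coc.row w hw B0 h0 e he'
  · obtain ⟨B0, h0, rfl⟩ := xg4_base.1 hB
    obtain ⟨w, hw, h1⟩ := h.coc.ext B0 h0 (c ∘ Sum.inl)
    refine ⟨_, ⟨w, hw, rfl⟩, ?_⟩
    rintro _ ⟨e0, h2, rfl⟩
    exact h1 e0 h2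
  · rintro _ ⟨w, hw, rfl⟩ h1
    rw [h.coc.inj w hw fun e he' => h1 (Sum.inl e) (mem_image_of_mem _ he'), map_zero]
  · rcases e with e | e
    · refine (h.out e fun h1 => hn (mem_image_of_mem _ h1)).imp ?_ ?_
      · rintro h1 _ ⟨u, hu, rfl⟩
        exact h1 u hu
      · rintro h1 _ ⟨u, hu, rfl⟩
        exact h1 u hu
    · refine Or.inl ?_
      rintro _ ⟨u, -, rfl⟩
      rfl

theorem xg4_gf (γ : E ⊕ ι → F) (u w : E → F) :
    gf γ (xg4_ext ι u) (xg4_ext ι w) = gf (γ ∘ Sum.inl) u w := by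
  simp [gf_apply, Fintype.sum_sum_type]

theorem xg4_dis {u w : E → F} : Dis (xg4_ext ι u) (xg4_ext ι w) ↔ Dis u w :=
  ⟨fun h e => h (Sum.inl e), fun h e => by
    rcases e with e | e
    · exact h e
    · exact Or.inl rfl⟩

theorem xg4_good (h : GoodM (xg4_cp ι M)) : GoodM M := by
  intro T hT
  obtain ⟨M', T', hT', h1, -, h3, he⟩ := hT.exists_inl ι
  obtain rfl : M' = xg4_cp ι M :=
    Matroid.ext_isBase h1 fun B _ => (h3 B).trans xg4_base.symm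
  have hg := h T' hT'
  refine ⟨fun F _ x U W ho φ hφ => ?_, fun hn m n hm hn' => ?_, fun hr F _ x y U W htw ho => ?_⟩
  · have ho' := xg4_obj hT' he ho
    have hres : ∀ u : E → F, LinearMap.funLeft F F Sum.inl (xg4_ext ι u) = u := fun _ => rfl
    obtain ⟨v, γ, hγ⟩ := hg.up F x _ _ ho'
      (φ.compl₁₂ (LinearMap.funLeft F F Sum.inl) (LinearMap.funLeft F F Sum.inl)) (by
        rintro _ ⟨u, hu, rfl⟩ _ ⟨w, hw, rfl⟩ hd
        rw [LinearMap.compl₁₂_apply, hres, hres]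
        exact hφ u hu w hw (xg4_dis.1 hd))
    refine ⟨v, γ ∘ Sum.inl, fun u hu w hw => ?_⟩
    have h4 := hγ _ ⟨u, hu, rfl⟩ _ ⟨w, hw, rfl⟩
    have h5 := ho'.dfm_base (xg4_base_img.2 (bs_isBase M)) v _ ⟨u, hu, rfl⟩ _ ⟨w, hw, rfl⟩
    rw [LinearMap.sub_apply, LinearMap.sub_apply, LinearMap.compl₁₂_apply, hres, hres, h5,
      xg4_gf] at h4
    rw [LinearMap.sub_apply, LinearMap.sub_apply, ← h4, dfm]
    simp [mf_apply, Fintype.sum_sum_type, he]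
  · exact hg.one (fun h' => hn (xg4_hasR.1 h')) m n (xg4_isCr he hm) (xg4_isCr he hn')
  · obtain ⟨φ, hφ, hn⟩ := hg.ex (xg4_hasR.2 hr) F x y _ _ htw (xg4_obj hT' he ho)
    refine ⟨φ.compl₁₂ (xg4_ext ι) (xg4_ext ι), fun u hu w hw hd => ?_, ?_⟩
    · exact hφ _ ⟨u, hu, rfl⟩ _ ⟨w, hw, rfl⟩ (xg4_dis.2 hd)
    · rintro ⟨γ, hγ⟩
      refine hn ⟨Sum.elim γ 0, ?_⟩
      rintro _ ⟨u, hu, rfl⟩ _ ⟨w, hw, rfl⟩
      rw [xg4_gf]
      exact hγ u hu w hw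

end Copy

theorem exists_spare (M : Matroid E) (k : ℕ) : ∃ M' : Matroid (E ⊕ Fin k),
    k ≤ (M'.Eᶜ).ncard ∧ rk M' M'.E = rk M M.E ∧ M'.E.ncard = M.E.ncard ∧
      (∀ j, ConK j M' ↔ ConK j M) ∧ (NoTri M → NoTri M') ∧ (NoTri M✶ → NoTri M'✶) ∧
      (GoodM M' → GoodM M) := by
  refine ⟨xg4_cp (Fin k) M, ?_, xg4_rk _, xg4_card _, xg4_conK, xg4_noTri,
    fun h => xg4_dual (ι := Fin k) (M := M) ▸ xg4_noTri h, xg4_good⟩
  have h1 : (range (Sum.inr : Fin k → E ⊕ Fin k)).ncard = k := by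
    rw [← image_univ, ncard_image_of_injective _ Sum.inr_injective, ncard_univ, Nat.card_fin]
  refine h1.symm.trans_le (ncard_le_ncard ?_)
  rintro _ ⟨j, rfl⟩
  simp [xg4_ground]

end Pool.Agent.Lib.MP_10bdcf_co.G
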