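import Pool.Agent.Lib.MP_10bdcf_co.XD7
import Pool.Agent.Lib.MP_10bdcf_co.XD8
import Pool.Agent.Lib.MP_10bdcf_co.XG4

/-!
The step of the induction for a matroid with an exact 3-separation.
-/

namespace Pool.Agent.Lib.MP_10bdcf_co.G

open scoped Matroid
open Set

set_option linter.unusedSectionVars false

variable {E F : Type} [Fintype E] [Field F] {M : Matroid E} {T : Set E → Matrix E E R0}
  {A B S IA IB : Set E} {x : R0 →+* F}

theorem xd9_op {I : Set E} (hs : Split M A B S) (hI : Skew M A B I) : Op M I S :=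
  hI.op hs fun _ hz => ⟨xg1_subA hs (Or.inr hz), fun h' => h'.elim (disjoint_right.1 hs.as hz)
    fun h' => disjoint_right.1 hs.bs hz (hI.sub h')⟩

theorem xd9_kv {I : Set E} (h : TS M T A B S IA IB) (hI : Skew M A B I) (hv : V3L (mn M I S))
    (hR : ¬ HasR (mn M ∅ S)) (x : R0 →+* F) : ∃ v, v ≠ 0 ∧ Kv (mn M I ∅) (mnT I ∅ T) x v := by
  have ho := xd9_op h.com.split hI
  obtain ⟨v, h0, h1⟩ := (h.good hI ho hv).1.one.exists_kv (h.tab.minor ho)
    (fun h' => hR (h'.of_minor2 ho (empty_subset _) Subset.rfl)) x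
  exact ⟨v, h0, h.com.kv h.tab hI h1⟩

theorem xd9_single {s1 s2 : E} {t t' : R0} (h : TS2 M T A B S IA IB s1 s2)
    (hn : ¬ HasSite (mn M (IA ∪ IB) ∅))
    (h1 : LPos M T B S IB s1 s2 t ∨ LPos M T A S IA s1 s2 t) (h2 : LPos M T B S IB s1 s2 t') :
    t = t' := by
  by_contra hne
  obtain ⟨b', hb'⟩ := h.pos_line h2
  obtain ⟨b, hb⟩ : ∃ b, Pos (mn M (IA ∪ IB) ∅) (mnT (IA ∪ IB) ∅ T) s1 s2 b t := by
    rcases h1 with h1 | h1
    · exact h.pos_line h1
    · rw [union_comm]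
      exact h.symm.pos_line h1
  exact hn (hb.hasSite (h.tab.minor h.toTS.op)
    (h.rk_two h.skB h.skA (union_comm IA IB).subset (disjoint_empty _)) hb' hne)

theorem TS.up (h : TS M T A B S IA IB) : Up M T := by
  intro F _ x U W ho φ hφ
  have oB : Op M IB ∅ := h.skB.op h.com.split (empty_subset _)
  have oA : Op M IA ∅ := h.skA.op h.com.split.symm (empty_subset _)
  obtain ⟨v1, h1⟩ := ho.up_minor oB (h.good h.skB oB h.v3L).1.up
    (hφ.mono (van_le _ _) (van_le _ _))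
  obtain ⟨v2, h2⟩ := ho.up_minor oA (h.symm.good h.skA oA h.symm.v3L).1.up
    (hφ.mono (van_le _ _) (van_le _ _))
  have h3 : Gauge (dfm M T x (v1 - v2)) (van U ∅) (van W (IA ∪ IB)) := by
    have := (h2.mono le_rfl (van_anti W (subset_union_left (t := IB)))).sub
      (h1.mono le_rfl (van_anti W (subset_union_right (s := IA))))
    refine this.congr fun u _ w _ => ?_
    simp only [dfm_sub, LinearMap.sub_apply]
    ring
  obtain ⟨v, v', h4, h5, h6⟩ := h.kplus ((ho.k_minor_iff h.op).1 h3)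
  have h7 := h1.add ((ho.k_minor_iff oB).2 h4)
  have h8 := h2.sub ((ho.k_minor_iff oA).2 h5)
  rw [van_empty] at h7 h8
  refine ⟨v1 - v, h.gauge ho (h7.congr fun u _ w _ => ?_) (h8.congr fun u _ w _ => ?_)⟩
  · simp only [dfm_sub, LinearMap.sub_apply, LinearMap.add_apply]
    ring
  · rw [show v1 - v = v2 + v' by linear_combination h6]
    simp only [dfm_add, LinearMap.sub_apply, LinearMap.add_apply]
    ring

theorem TS.one (h : TS M T A B S IA IB) (hmin : ∀ a ∈ A, 3 ≤ lam (M ＼ S) (A \ {a}))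
    (hR : ¬ HasR (mn M ∅ S)) (x : R0 →+* F) : ∃ v, v ≠ 0 ∧ Kv M T x v := by
  have hs := h.com.split
  obtain ⟨vA, a0, a1⟩ := xd9_kv h h.skB (v3L_con hs h.con h.skB h.triB Subset.rfl) hR x
  obtain ⟨vB, b0, b1⟩ := xd9_kv h.symm h.skA (v3L_con hs.symm h.con h.skA h.triA Subset.rfl) hR x
  rcases h.kv_cases a0 b0 a1 b1 with h1 | ⟨hn, sA, sB⟩
  · exact h1
  exfalso
  obtain ⟨s1, k1, s2, k2, k3⟩ := (hasR_or_two hs h.sat h.skA h.skB h.exact h.triA
    h.triB).resolve_left fun h' => hn (h'.hasSite (h.tab.minor h.op))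
  have g : TS2 M T A B S IA IB s1 s2 := ⟨h, k1, k2, k3⟩
  obtain ⟨p, hp⟩ := g.exists_lPos
  have lB : ∀ t, LPos M T B S IB s1 s2 t → t = p := fun t ht => xd9_single g hn (Or.inl ht) hp
  have lA : ∀ t, LPos M T A S IA s1 s2 t → t = p := fun t ht => xd9_single g hn (Or.inr ht) hp
  have pB : APos M T B A S s1 s2 p := ⟨IB, h.skB, hp⟩
  have pA : APos M T A B S s1 s2 p := by
    obtain ⟨p', hp'⟩ := g.symm.exists_lPos
    exact ⟨IA, h.skA, lA p' hp' ▸ hp'⟩
  obtain ⟨α, hα, nα⟩ : ∃ α, APos M T A B S s1 s2 α ∧ α ≠ p := by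
    by_contra hc
    exact g.noSite (fun t ht => by_contra fun e => hc ⟨t, ht, e⟩) lB sA
  obtain ⟨β, hβ, nβ⟩ : ∃ β, APos M T B A S s1 s2 β ∧ β ≠ p := by
    by_contra hc
    exact g.symm.noSite (fun t ht => by_contra fun e => hc ⟨t, ht, e⟩) lA sB
  have nS : ¬ SPos M T S s1 s2 β := fun h' => nβ (lB β (g.sPos_lPos h.skB h'))
  have nA : ¬ APos M T A B S s1 s2 β := fun h' => nS (g.common h' hβ)
  obtain ⟨I, hI, hl⟩ := id hβ
  obtain ⟨b, hb, hpos⟩ := id hl
  have hbB : b ∈ B := hb.resolve_right fun h' => nS (g.sPos_of_pos hI h' hpos)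
  have oI : Op M I ∅ := hI.op hs (empty_subset _)
  have hT := h.tab.minor oI
  have hb1 : b ∉ M.closure I := fun h' => by
    have e1 := (hpos.ranks hT (g.rk_two hI h.skA subset_union_left (disjoint_empty _))).2.1
    have e2 := rk_mn (M := M) (I := I) (disjoint_empty {b, s1})
    have e3 := rk_insert_of_mem (M.closure_subset_closure (subset_insert s1 I) h')
    have e4 := rk_insert_le M s1 I
    rw [insert_union, singleton_union] at e2
    omega
  obtain ⟨v, v0, hv⟩ := xd9_kv h hI (v3L_con2 hs h.con hI h.exact hmin hbB hb1 fun X hX h' =>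
    subset_union_left.trans
      (g.free_of_not_aPos hI hpos nA X (hX.trans subset_union_left) h')) hR x
  have t1 := g.tr_of_aPos hI (empty_subset _) pA
  have t2 := g.tr_of_aPos hI (empty_subset _) hα
  have t3 := g.tr_of_lPos hI hl
  refine v0 (eq_zero_of_three pA.inG hα.inG hβ.inG ?_ ?_ ?_ (hv.tr hT t2 t1) (hv.tr hT t3 t1))
  · have := ((g.inP hα pB).resolve_left (sub_ne_zero.2 nα)).neg
    rwa [neg_sub] at this
  · exact (g.inP pA hβ).resolve_left (sub_ne_zero.2 nβ.symm)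
  · exact (g.inP hα hβ).resolve_left (sub_ne_zero.2 fun e => nA (e ▸ hα))

theorem TS.good_del (h : TS M T A B S IA IB) (hmin : ∀ a ∈ A, 3 ≤ lam (M ＼ S) (A \ {a})) :
    GoodT (mn M ∅ S) (mnT ∅ S T) := by
  have ho : Op M ∅ S := h.com.op Subset.rfl
  refine ⟨up_of_one fun F _ x => ?_, fun hR => ?_, ex_of_one fun hR F _ x y ht => ?_⟩
  · obtain ⟨U, W, hobj, -⟩ := h.tab.exists_obj x x
    refine ⟨_, _, hobj.minor ho, fun φ hφ => ?_⟩
    have h0 := hobj.dfm_minor ho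
    rw [van_empty] at hφ h0 ⊢
    obtain ⟨ψ, h1, h2⟩ := h.com.extend hobj.pair hφ
    obtain ⟨v, h3⟩ := h.up F x U W hobj ψ h1
    refine ⟨v, (h3.mono (van_le _ _) le_rfl).congr fun u hu w hw => ?_⟩
    simp only [LinearMap.sub_apply, h2 u hu w hw, h0 v u hu w hw]
  · obtain ⟨v, h0, h1⟩ := h.one hmin hR s4
    exact (h1.minor ho).oneT (h.tab.minor ho) h0 hR
  · obtain ⟨U, W, hobj, -⟩ := h.tab.exists_obj x y
    obtain ⟨φ, h1, h2⟩ := h.ex (hR.of_minor ho) F x y U W ht hobj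
    refine ⟨_, _, hobj.minor ho, φ, h1.mono (van_le _ _) (van_le _ _), fun h3 => h2 ?_⟩
    have := h.com.gauge hobj.pair (empty_subset B) (by simp) (h1.mono le_rfl (van_le _ _)) h3
    rwa [van_empty] at this

theorem step_sep_spare (h1 : IHr (rk M M.E)) (hc : Con3 M) (hn : 5 ≤ M.E.ncard) (h2 : NoTri M)
    (h3 : NoTri M✶) (h4 : ¬ Con4 M) (h6 : 6 ≤ (M.Eᶜ).ncard) : GoodM M := by
  intro T hT
  obtain ⟨A, B, h⟩ := exists_ts0 hc h2 h3 hn h4
  have a4 := h.fourA
  have b4 := h.fourB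
  obtain ⟨IB, kB, tB⟩ := exists_tri3 hc h.split (by omega) (by omega) h.depB
  obtain ⟨IA, kA, tA⟩ := exists_tri3 hc h.split.symm (by omega) (by omega) h.depA
  obtain ⟨M0, T0, S, g1, g2, g3, g4, g5⟩ := hT.saturate h.split h6
  have hs := g2.split
  have hr : ∀ X ⊆ A ∪ B, rk M0 X = rk M X := fun X hX => by
    rw [← g4, rk_delete ((hs.as.union_left hs.bs).mono_left hX)]
  have hE : rk M0 M0.E = rk M M.E := by
    have e1 := xd2_span hs
    have e2 := rk_le_rank M0 (A ∪ B)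
    rw [h.split.ground, union_empty, ← hr _ Subset.rfl]
    omega
  have hk : ∀ A' B' I, A' ∪ B' = A ∪ B → Skew M A' B' I → Skew M0 A' B' I :=
    fun A' B' I e k => by
      have e1 := hr _ ((union_subset_union_right A' k.sub).trans e.subset)
      exact ⟨k.sub, by rw [e1, hr _ (subset_union_left.trans e.subset), k.skew],
        by rw [e1, hE, k.span]⟩
  have ht : ∀ B' I, B' ⊆ A ∪ B → I ⊆ B' → Tri3 M B' I → Tri3 M0 B' I := by
    rintro B' I e k ⟨b1, m1, b2, m2, b3, m3, r1, r2, r3⟩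
    have e1 : ∀ c ∈ B', ∀ d ∈ B', rk M0 (I ∪ {c, d}) = rk M (I ∪ {c, d}) := fun c hc d hd =>
      hr _ ((union_subset k (pair_subset hc hd)).trans e)
    exact ⟨b1, m1, b2, m2, b3, m3, by rw [e1 _ m1 _ m2, r1], by rw [e1 _ m1 _ m3, r2],
      by rw [e1 _ m2 _ m3, r3]⟩
  have hne : ∀ A' B' I, Skew M A' B' I → rk M A' < rk M M.E → I.Nonempty :=
    fun A' B' I k e => nonempty_iff_ne_empty.2 fun e' => by
      have := k.span
      rw [e', union_empty] at this
      omega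
  have g : TS M0 T0 A B S IA IB :=
    ⟨g1, g2, g3, by rw [hr _ subset_union_left, hr _ subset_union_right, hE, h.exact],
      g4.symm ▸ hc, hk _ _ _ (union_comm B A) kA, hk _ _ _ rfl kB, hne _ _ _ kA h.ltB,
      hne _ _ _ kB h.ltA, ht _ _ subset_union_left kA.sub tA, ht _ _ subset_union_right kB.sub tB,
      hE.symm ▸ h1⟩
  have h7 := g.good_del (g4.symm ▸ h.min)
  rw [mn_empty_left, g4] at h7
  refine h7.congr fun K hK => ?_
  ext b e
  by_cases he : e ∈ S
  · rw [hT.col hK b (g4 ▸ fun h' => h'.2 he)]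
    simp [mnT, delT, he]
  · rw [mnT_apply T0 K (notMem_empty _) (notMem_empty _) he, union_empty, g5 K hK b e he]

theorem step_sep (h1 : IHr (rk M M.E)) (hc : Con3 M) (hn : 5 ≤ M.E.ncard) (h2 : NoTri M)
    (h3 : NoTri M✶) (h4 : ¬ Con4 M) : GoodM M := by
  obtain ⟨M', e1, e2, e3, e4, e5, e6, e7⟩ := exists_spare M 6
  exact e7 (step_sep_spare (e2.symm ▸ h1) ((e4 2).2 hc) (e3.symm ▸ hn) (e5 h2) (e6 h3)
    (fun h => h4 ((e4 3).1 h)) e1)

end Pool.Agent.Lib.MP_10bdcf_co.G
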