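import Pool.Agent.Lib.MP_10bdcf_co.ZA
import Pool.Agent.Lib.MP_10bdcf_co.ZB
import Pool.Agent.Lib.MP_10bdcf_co.CB

/-!
Gluing valid forms along a separation of order at most three.
-/

namespace Pool.Agent.Lib.MP_10bdcf_co.G

open scoped Matroid
open Set

set_option linter.unusedSectionVars false

variable {E F : Type} [Fintype E] [Field F] {M : Matroid E} {U W : Sb F E} {φ ψ φA φB : Fm F E}
  {A B S X Y I IA IB Z1 Z2 : Set E} {e p g : E} {u : E → F}

/-- `I` lies in `B`, is skew to `A` and completes `A` to a spanning set. -/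
structure Skew (M : Matroid E) (A B I : Set E) : Prop where
  sub : I ⊆ B
  skew : rk M (A ∪ I) = rk M A + I.ncard
  span : rk M (A ∪ I) = rk M M.E

/-- The ground set is split into `A`, `B` and a set `S` of points spanned by both. -/
structure Split (M : Matroid E) (A B S : Set E) : Prop where
  ground : M.E = A ∪ B ∪ S
  ab : Disjoint A B
  as : Disjoint A S
  bs : Disjoint B S
  clA : S ⊆ M.closure A
  clB : S ⊆ M.closure B
  le : rk M A + rk M B ≤ rk M M.E + 2

/-- Every common point of the spans of parts of `A` and of `B` is present in `S`. -/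
def Sat (M : Matroid E) (A B S : Set E) : Prop :=
  ∀ X ⊆ A, ∀ Y ⊆ B, rk M X + rk M Y = rk M (X ∪ Y) + 1 → rk M X + rk M B = rk M (X ∪ B) + 1 →
    rk M A + rk M Y = rk M (A ∪ Y) + 1 → ∃ s ∈ S, s ∈ M.closure X ∧ rk M {s} = 1

theorem Split.symm (h : Split M A B S) : Split M B A S := by
  refine ⟨by rw [h.ground, union_comm A B], h.ab.symm, h.bs, h.as, h.clB, h.clA, ?_⟩
  have := h.le
  omega

theorem xg1_subA (h : Split M A B S) : A ∪ S ⊆ M.E := by
  rw [h.ground]
  exact union_subset_union_left _ subset_union_left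

theorem xg1_rkA (h : Split M A B S) : rk M (A ∪ S) = rk M A := rk_union_of_subset_closure h.clA

theorem Skew.indep (h : Skew M A B I) : M.Indep I := by
  have h1 := rk_union_le M A I
  have h2 := rk_le_ncard M I
  have h3 := h.skew
  exact indep_iff_rk.2 (by omega)

theorem Split.exists_skew (h : Split M A B S) : ∃ I, Skew M A B I := by
  obtain ⟨K, -, h1, h2, h3⟩ := G.exists_skew (M := M) (X := A) (Y := B) (I := ∅)
    (subset_union_left.trans (xg1_subA h)) (subset_union_left.trans (xg1_subA h.symm))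
    (empty_subset _) (by simp)
  refine ⟨K, h1, h2, ?_⟩
  rw [h3, h.ground]
  exact (rk_union_of_subset_closure (h.clA.trans (M.closure_subset_closure subset_union_left))).symm

theorem Split.indep_union (h : Split M A B S) (hA : Skew M B A IA) (hB : Skew M A B IB) :
    M.Indep (IA ∪ IB) := by
  have _ := h
  have h1 := rk_submod' M (X := IA ∪ IB) (Y := A) (P := IA) (Q := A ∪ IB) subset_union_left hA.sub
    (union_subset subset_union_right (subset_union_right.trans subset_union_left))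
  have h2 := rk_indep hA.indep
  have h3 := hB.skew
  have h4 := ncard_union_le IA IB
  have h5 := rk_le_ncard M (IA ∪ IB)
  exact indep_iff_rk.2 (by omega)

theorem xg1_mem (hA : Skew M B A IA) (hB : Skew M A B IB) (he : e ∈ M.closure (IA ∪ IB))
    (h1 : e ∈ M.closure A) : e ∈ M.closure IA := by
  have h2 := rk_submod' M (X := insert e (IA ∪ IB)) (Y := insert e A) (P := insert e IA)
    (Q := A ∪ IB) (insert_subset_insert subset_union_left) (insert_subset_insert hA.sub)
    (union_subset ((subset_insert _ _).trans subset_union_right)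
      ((subset_union_right.trans (subset_insert _ _)).trans subset_union_left))
  rw [rk_insert_of_mem he, rk_insert_of_mem h1] at h2
  have h3 := rk_indep hA.indep
  have h4 := hB.skew
  have h5 := ncard_union_le IA IB
  have h6 := rk_le_ncard M (IA ∪ IB)
  have h7 := rk_mono M (subset_insert e IA)
  exact (mem_closure_iff_rk (M.closure_subset_ground _ he)).2 (by omega)

theorem Split.mem_closure (h : Split M A B S) (hA : Skew M B A IA) (hB : Skew M A B IB)
    (he : e ∈ M.closure (IA ∪ IB)) : e ∈ M.closure IA ∨ e ∈ M.closure IB := by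
  have h1 : e ∈ A ∪ B ∪ S := h.ground ▸ M.closure_subset_ground _ he
  rcases h1 with (h1 | h1) | h1
  · exact Or.inl (xg1_mem hA hB he
      (M.subset_closure A (subset_union_left.trans (xg1_subA h)) h1))
  · exact Or.inr (xg1_mem hB hA (union_comm IA IB ▸ he)
      (M.subset_closure B (subset_union_left.trans (xg1_subA h.symm)) h1))
  · exact Or.inl (xg1_mem hA hB he (h.clA h1))

/-- A cocycle that vanishes on the meet of a modular pair splits. -/
theorem xg1_split {P Q : Set E} {w : E → F} (h : Rep M W) (hP : P ⊆ M.E) (hQ : Q ⊆ M.E)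
    (hr : rk M P + rk M Q ≤ rk M (P ∪ Q) + rk M (P ∩ Q)) (hw : w ∈ W)
    (h0 : ∀ z ∈ P, z ∈ Q → w z = 0) :
    ∃ v ∈ W, (∀ z ∈ P, v z = 0) ∧ ∀ z ∈ Q, (w - v) z = 0 := by
  classical
  obtain ⟨K, hK⟩ := M.exists_isBasis (P ∩ Q) (inter_subset_left.trans hP)
  obtain ⟨K1, h1, k1⟩ := hK.indep.subset_isBasis_of_subset (hK.subset.trans inter_subset_left) hP
  obtain ⟨K2, h2, k2⟩ := hK.indep.subset_isBasis_of_subset (hK.subset.trans inter_subset_right) hQ
  have a1 := rk_basis hK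
  have a2 := rk_basis h1
  have a3 := rk_basis h2
  have a4 : rk M (P ∪ Q) ≤ rk M (K1 ∪ K2) := by
    rw [← rk_closure M (K1 ∪ K2)]
    exact rk_mono M (union_subset
      (h1.subset_closure.trans (M.closure_subset_closure subset_union_left))
      (h2.subset_closure.trans (M.closure_subset_closure subset_union_right)))
  have a5 := ncard_union_add_ncard_inter K1 K2
  have a6 := rk_le_ncard M (K1 ∪ K2)
  have a7 : K.ncard ≤ (K1 ∩ K2).ncard := ncard_le_ncard (subset_inter k1 k2)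
  have a8 : M.Indep (K1 ∪ K2) := indep_iff_rk.2 (by omega)
  obtain ⟨v, hv, h3⟩ := h.ext _ a8 fun b => if b ∈ K1 then 0 else w b
  refine ⟨v, hv, fun z hz => h.cl v hv K1 z (fun b hb => ?_) (h1.subset_closure hz),
    fun z hz => h.cl _ (W.sub_mem hw hv) K2 z (fun b hb => ?_) (h2.subset_closure hz)⟩
  · rw [h3 b (Or.inl hb), if_pos hb]
  · rw [Pi.sub_apply, h3 b (Or.inr hb)]
    by_cases hb' : b ∈ K1
    · rw [if_pos hb', h0 b (h1.subset hb') (h2.subset hb), sub_self]
    · rw [if_neg hb', sub_self]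

/-- A cycle supported on a modular pair of sets splits. -/
theorem Rep.split (h : Rep M✶ U) (h1 : Z1 ⊆ M.E) (h2 : Z2 ⊆ M.E)
    (hr : rk M Z1 + rk M Z2 ≤ rk M (Z1 ∪ Z2) + rk M (Z1 ∩ Z2)) (hu : u ∈ U)
    (h0 : ∀ z ∈ M.E, z ∉ Z1 ∪ Z2 → u z = 0) :
    ∃ u1 ∈ U, ∃ u2 ∈ U, u = u1 + u2 ∧ (∀ z ∈ M.E, z ∉ Z1 → u1 z = 0) ∧
      ∀ z ∈ M.E, z ∉ Z2 → u2 z = 0 := by
  have d1 := rk_dual (M := M) (X := M.E \ Z1) sdiff_subset
  have d2 := rk_dual (M := M) (X := M.E \ Z2) sdiff_subset
  have d3 := rk_dual (M := M) (X := M.E \ Z1 ∪ M.E \ Z2) (union_subset sdiff_subset sdiff_subset)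
  have d4 := rk_dual (M := M) (X := (M.E \ Z1) ∩ (M.E \ Z2)) (inter_subset_left.trans sdiff_subset)
  have d5 := ncard_union_add_ncard_inter (M.E \ Z1) (M.E \ Z2)
  rw [sdiff_sdiff_cancel_left h1] at d1
  rw [sdiff_sdiff_cancel_left h2] at d2
  rw [← sdiff_inter, sdiff_sdiff_cancel_left (inter_subset_left.trans h1), sdiff_inter] at d3
  rw [sdiff_inter_sdiff, sdiff_sdiff_cancel_left (union_subset h1 h2), ← sdiff_inter_sdiff] at d4
  obtain ⟨v, hv, h3, h4⟩ := xg1_split h (P := M.E \ Z1) (Q := M.E \ Z2) sdiff_subset sdiff_subset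
    (by omega) hu fun z hz hz' => h0 z hz.1 fun h' => h'.elim hz.2 hz'.2
  exact ⟨v, hv, u - v, U.sub_mem hu hv, (add_sub_cancel _ _).symm, fun z hz hz' => h3 z ⟨hz, hz'⟩,
    fun z hz hz' => h4 z ⟨hz, hz'⟩⟩

theorem Rep.van_sup_union (h : Rep M W) (hI : M.Indep (IA ∪ IB)) (hd : Disjoint IA IB) :
    van W IA ⊔ van W IB = W := by
  refine le_antisymm (sup_le (van_le _ _) (van_le _ _)) fun w hw => ?_
  have h1 := rk_indep hI
  have h2 := rk_le_ncard M IA
  have h3 := rk_le_ncard M IB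
  rw [ncard_union_eq hd] at h1
  obtain ⟨v, hv, h4, h5⟩ := xg1_split h (P := IA) (Q := IB)
    (subset_union_left.trans hI.subset_ground) (subset_union_right.trans hI.subset_ground)
    (by omega) hw fun z hz hz' => (disjoint_left.1 hd hz hz').elim
  exact Submodule.mem_sup.2 ⟨v, ⟨hv, h4⟩, w - v, ⟨W.sub_mem hw hv, h5⟩, add_sub_cancel _ _⟩

/-- A cycle on one side is killed by a form that is valid on both contractions. -/
theorem xg1_half {w : E → F} (h : Pair M U W) (hs : Split M A B S) (hA : IA ⊆ A)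
    (hB : Skew M A B IB) (v1 : Val φ U (van W IB)) (v2 : Val φ U (van W IA)) (hu : u ∈ U)
    (hw : w ∈ W) (h0 : ∀ z ∈ M.E, u z = 0 ∨ (z ∈ A ∪ S ∧ w z = 0)) : φ u w = 0 := by
  have h1 := rk_le_ncard M IB
  have h2 := xg1_rkA hs
  have h3 := hB.skew
  have h4 := rk_mono M (show A ∪ IB ⊆ IB ∪ (A ∪ S) from
    union_subset (subset_union_left.trans subset_union_right) subset_union_left)
  obtain ⟨v, hv, h5, h6⟩ := xg1_split h.coc (P := IB) (Q := A ∪ S) hB.indep.subset_ground
    (xg1_subA hs) (by omega) hw fun z hz hz' => (hz'.elim (disjoint_right.1 hs.ab (hB.sub hz))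
      (disjoint_left.1 hs.bs (hB.sub hz))).elim
  have h7 := v1 u hu v ⟨hv, h5⟩ (h.dis hu hv fun z hz => (h0 z hz).imp_right fun h' => by
    simpa [h'.2] using h6 z h'.1)
  have h8 := v2 u hu (w - v) ⟨W.sub_mem hw hv, fun z hz => h6 z (Or.inl (hA hz))⟩
    (h.dis hu (W.sub_mem hw hv) fun z hz => (h0 z hz).imp_right fun h' => h6 z h'.1)
  rw [map_sub, h7, sub_zero] at h8
  exact h8

/-- A set that does not span an element of `A` has smaller rank on the side of `A`. -/
theorem xg1_drop {H : Set E} (hs : Split M A B S) (he : e ∈ A) (hH : e ∉ M.closure H) :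
    rk M (H ∩ (A ∪ S)) + 1 ≤ rk M A := by
  rw [← rk_insert_of_notMem (xg1_subA hs (Or.inl he))
    fun h' => hH (M.closure_subset_closure inter_subset_left h'), ← xg1_rkA hs]
  exact rk_mono M (insert_subset (Or.inl he) inter_subset_right)

/-- The two sides of a hyperplane form a modular pair. -/
theorem xg1_mod {H : Set E} (hs : Split M A B S)
    (hsat : rk M A + rk M B = rk M M.E + 2 → Sat M A B S) (hH : H ⊆ M.E)
    (hr : rk M H + 1 = rk M M.E) (hc : ∀ z ∈ M.closure H, z ∈ H) (he : e ∈ A) (he' : e ∉ H)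
    (hg : g ∈ B) (hg' : g ∉ H) :
    rk M (H ∩ (A ∪ S)) + rk M (H ∩ (B ∪ S)) ≤ rk M H + rk M (H ∩ S) := by
  have h1 := xg1_drop hs he fun h' => he' (hc e h')
  have h2 := xg1_drop hs.symm hg fun h' => hg' (hc g h')
  have h3 := hs.le
  by_contra h4
  have h5 : ∀ Z, rk M (Z ∪ H ∩ S) = rk M Z := fun Z => by
    have a1 := rk_union_le M Z (H ∩ S)
    have a2 := rk_mono M (show Z ⊆ Z ∪ H ∩ S from subset_union_left)
    omega
  have h6 := h5 (H ∩ A)
  have h7 := h5 (H ∩ B)
  have h8 := h5 (H ∩ A ∪ H ∩ B)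
  rw [← inter_union_distrib_left] at h6 h7
  rw [← inter_union_distrib_left, ← inter_union_distrib_left, ← hs.ground, inter_eq_left.2 hH,
    inter_union_distrib_left] at h8
  have h9 : H ∩ A ∪ H ∩ B ⊆ H := union_subset inter_subset_left inter_subset_left
  have b1 := rk_insert_of_notMem (xg1_subA hs (Or.inl he))
    fun h' => he' (hc e (M.closure_subset_closure h9 h'))
  have b2 := rk_insert_of_notMem (xg1_subA hs.symm (Or.inl hg))
    fun h' => hg' (hc g (M.closure_subset_closure h9 h'))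
  have b3 := rk_mono M (show insert e (H ∩ A ∪ H ∩ B) ⊆ A ∪ H ∩ B from
    insert_subset (Or.inl he) (union_subset_union_left _ inter_subset_right))
  have b4 := rk_mono M (show insert g (H ∩ A ∪ H ∩ B) ⊆ H ∩ A ∪ B from
    insert_subset (Or.inr hg) (union_subset_union_right _ inter_subset_right))
  have b5 := rk_le_rank M (A ∪ H ∩ B)
  have b6 := rk_le_rank M (H ∩ A ∪ B)
  obtain ⟨s, s1, s2, s3⟩ := hsat (by omega) (H ∩ A) inter_subset_right (H ∩ B) inter_subset_right
    (by omega) (by omega) (by omega)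
  have b7 := rk_mono M (singleton_subset_iff.2
    (show s ∈ H ∩ S from ⟨hc s (M.closure_subset_closure inter_subset_left s2), s1⟩))
  omega

theorem Pair.glue (h : Pair M U W) (hs : Split M A B S)
    (hsat : rk M A + rk M B = rk M M.E + 2 → Sat M A B S) (hA : Skew M B A IA)
    (hB : Skew M A B IB) (v1 : Val φA U (van W IB)) (v2 : Val φB U (van W IA))
    (ha : Agr φA φB U (van W (IA ∪ IB))) :
    ∃ φ, Val φ U W ∧ Agr φ φA U (van W IB) ∧ Agr φ φB U (van W IA) := by
  obtain ⟨φ, a1, a2⟩ := exists_glue_right (φ1 := φA) (φ2 := φB) (U := U) (W1 := van W IB)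
    (W2 := van W IA) (by rwa [van_inf, union_comm])
  have w1 := v1.congr a1
  have w2 := v2.congr a2
  refine ⟨φ, h.val_of_circuit fun C D _ hD hd u hu w hw c1 c2 => ?_, a1, a2⟩
  have u0 : ∀ z ∈ M.E, z ∈ D → u z = 0 := fun z hz hz' =>
    by_contra fun h' => disjoint_left.1 hd ((c1 z hz).1 h') hz'
  have w0 : ∀ z ∈ M.E \ D, w z = 0 := fun z hz => by_contra fun h' => hz.2 ((c2 z hz.1).1 h')
  have hdis : Dis u w := h.dis hu hw fun z hz => (em (z ∈ D)).imp (u0 z hz) fun h' => w0 z ⟨hz, h'⟩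
  by_cases b1 : ∃ e ∈ A, e ∈ D
  swap
  · exact w2 u hu w ⟨hw, fun z hz => w0 z ⟨hA.indep.subset_ground hz,
      fun h' => b1 ⟨z, hA.sub hz, h'⟩⟩⟩ hdis
  by_cases b2 : ∃ g ∈ B, g ∈ D
  swap
  · exact w1 u hu w ⟨hw, fun z hz => w0 z ⟨hB.indep.subset_ground hz,
      fun h' => b2 ⟨z, hB.sub hz, h'⟩⟩⟩ hdis
  obtain ⟨e, e1, e2⟩ := b1
  obtain ⟨g, g1, g2⟩ := b2
  have m := xg1_mod hs hsat (H := M.E \ D) sdiff_subset (isCocircuit_rk hD)
    (fun z hz => ⟨M.closure_subset_ground _ hz, fun h' => isCocircuit_notMem hD h' hz⟩) e1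
    (fun h' => h'.2 e2) g1 fun h' => h'.2 g2
  have k1 : M.E \ D ⊆ (M.E \ D) ∩ (A ∪ S) ∪ (M.E \ D) ∩ (B ∪ S) := fun z hz => by
    have : z ∈ A ∪ B ∪ S := hs.ground ▸ hz.1
    rcases this with (h' | h') | h'
    exacts [Or.inl ⟨hz, Or.inl h'⟩, Or.inr ⟨hz, Or.inl h'⟩, Or.inl ⟨hz, Or.inr h'⟩]
  have k2 := rk_mono M (show (M.E \ D) ∩ S ⊆ (M.E \ D) ∩ (A ∪ S) ∩ ((M.E \ D) ∩ (B ∪ S)) from
    fun z hz => ⟨⟨hz.1, Or.inr hz.2⟩, hz.1, Or.inr hz.2⟩)
  have k3 := rk_mono M k1
  obtain ⟨u1, p1, u2, p2, rfl, p3, p4⟩ := h.cyc.split (Z1 := (M.E \ D) ∩ (A ∪ S))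
    (Z2 := (M.E \ D) ∩ (B ∪ S)) (inter_subset_left.trans sdiff_subset)
    (inter_subset_left.trans sdiff_subset) (by omega) hu
    fun z hz hz' => u0 z hz (by_contra fun h' => hz' (k1 ⟨hz, h'⟩))
  rw [map_add, LinearMap.add_apply, xg1_half h hs hA.sub hB w1 w2 p1 hw fun z hz =>
    (em _).symm.imp (p3 z hz) fun h' => ⟨h'.2, w0 z h'.1⟩, xg1_half h hs.symm hB.sub hA w2 w1 p2 hw
    fun z hz => (em _).symm.imp (p4 z hz) fun h' => ⟨h'.2, w0 z h'.1⟩, add_zero]

theorem xg1_gf {γ δ : E → F} {W' : Sb F E} (h : Pair M U W) (hW : W' ≤ W)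
    (hγ : ∀ z ∈ M.E, γ z = δ z ∨ ∀ w ∈ W', w z = 0) : Agr (gf γ) (gf δ) U W' := by
  intro u hu w hw
  rw [gf_apply, gf_apply]
  refine Finset.sum_congr rfl fun e _ => ?_
  by_cases he : e ∈ M.E
  · rcases hγ e he with h1 | h1
    · rw [h1]
    · simp [h1 w hw]
  · rcases h.out e he with h1 | h1
    · simp [h1 u hu]
    · simp [h1 w (hW hw)]

theorem Pair.gauge_union (h : Pair M U W) (hs : Split M A B S) (hA : Skew M B A IA)
    (hB : Skew M A B IB) {γ δ : E → F} (h1 : Agr φ (gf γ) U (van W IB))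
    (h2 : Agr φ (gf δ) U (van W IA)) (h3 : ∀ e ∈ M.E, e ∉ M.closure (IA ∪ IB) → γ e = δ e) :
    Gauge φ U W := by
  classical
  refine ⟨fun z => if z ∈ M.closure IB then δ z else γ z, ?_⟩
  have k := Agr.sup_right (h2.trans (xg1_gf (δ := fun z => if z ∈ M.closure IB then δ z else γ z)
    h (van_le _ _) fun z hz => ?_)) (h1.trans (xg1_gf h (van_le _ _) fun z hz => ?_))
  · rwa [h.coc.van_sup_union (hs.indep_union hA hB) (hs.ab.mono hA.sub hB.sub)] at k
  · by_cases a1 : z ∈ M.closure IB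
    · exact Or.inl (if_pos a1).symm
    by_cases a2 : z ∈ M.closure IA
    · exact Or.inr fun w hw => h.coc.cl w hw.1 IA z hw.2 a2
    · exact Or.inl ((h3 z hz fun h' => (hs.mem_closure hA hB h').elim a2 a1).symm.trans
        (if_neg a1).symm)
  · by_cases a1 : z ∈ M.closure IB
    · exact Or.inr fun w hw => h.coc.cl w hw.1 IB z hw.2 a1
    · exact Or.inl (if_neg a1).symm

end Pool.Agent.Lib.MP_10bdcf_co.G
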