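import Pool.Agent.Lib.MP_10bdcf_co.XI1

/-!
Case I: the pairs with one of the two special elements are good.
-/

namespace Pool.Agent.Lib.MP_10bdcf_co.G

open scoped Matroid
open Set

set_option linter.unusedSectionVars false

variable {E : Type} [Fintype E] {M : Matroid E} {A I J : Set E} {x y a : E}

theorem xi2_lam (hb : Big M) {K X : Set E} (hx : x ∈ M.E) (hK : K ⊆ M.E) (h3 : K.ncard ≤ 3)
    (hxK : x ∉ K) (hX : X ⊆ M.E \ ({x} ∪ K)) :
    lam (mn M {x} K) X + rk M M.E + 1 = rk M (X ∪ {x}) + rk M (M.E \ (X ∪ K)) := by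
  have := (hb.op (singleton_subset_iff.2 hx) hK (by simp) h3 (disjoint_singleton_left.2 hxK)).lam_mn
    (ca_dis_left M hX) (ca_dis_right M hX)
  rwa [ncard_singleton] at this

theorem xi2_conn (hb : Big M) {K X : Set E} {z w : E} (hx : x ∈ M.E) (hK : K ⊆ M.E)
    (h3 : K.ncard ≤ 3) (hxK : x ∉ K) (hc : Conn (mn M {x} K)) (hX : X ⊆ M.E \ ({x} ∪ K))
    (hz : z ∈ X) (hw : w ∈ M.E \ ({x} ∪ K)) (hw' : w ∉ X) :
    rk M M.E + 2 ≤ rk M (X ∪ {x}) + rk M (M.E \ (X ∪ K)) := by
  have h1 := xi2_lam hb hx hK h3 hxK hX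
  have h2 : lam (mn M {x} K) X ≠ 0 := by
    intro h0
    rcases conn_iff.1 hc X (by rwa [mn_ground]) h0 with h | h
    · rw [h] at hz
      exact hz
    · rw [mn_ground] at h
      exact hw' (h ▸ hw)
  omega

theorem xi2_con3 (hb : Big M) {X Y : Set E} (hx : x ∈ M.E) (hX : X ⊆ M.E \ ({x} ∪ ∅))
    (h2 : 2 ≤ X.ncard) (hY : Y ⊆ (M.E \ ({x} ∪ ∅)) \ X) (h2' : 2 ≤ Y.ncard) :
    rk M M.E + 3 ≤ rk M (X ∪ {x}) + rk M (M.E \ (X ∪ ∅)) := by
  have h1 := xi2_lam hb hx (empty_subset _) (by simp) (notMem_empty _) hX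
  have hc : Con3 (mn M {x} ∅) := by
    rw [mn_empty_right]
    exact hb.con3_con x
  have h3 := hc.le_lam (X := X) (by rwa [mn_ground]) le_rfl h2
    (h2'.trans (ncard_le_ncard (by rwa [mn_ground])))
  omega

theorem MinCfg.con3_left (hb : Big M) (h : MinCfg M x y A I J) (ha : a ∈ A) :
    Con3 (mn M {x} {a}) := by
  by_contra hn
  obtain ⟨I', J', hf, hxI, hyJ, haJ, hsm⟩ := h.shift_del hb ha
  obtain ⟨A', h'⟩ := hf.exists_cfg hb hxI haJ hn
  have hxE : x ∈ M.E := hf.op.sub_left hxI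
  have hyE : y ∈ M.E := hf.op.sub_right hyJ
  have haE : a ∈ M.E := hf.op.sub_right haJ
  have hA : ∀ z, z ∈ A → z ∈ M.E ∧ z ≠ x ∧ z ≠ y := fun z hz => by simpa using h.1.sub hz
  have hA' : ∀ z, z ∈ A' → z ∈ M.E ∧ z ≠ x ∧ z ≠ a := fun z hz => by simpa using h'.sub hz
  have hxy : x ≠ y := fun e => disjoint_left.1 hf.op.dis hxI (e ▸ hyJ)
  have hxa : x ≠ a := fun e => (hA a ha).2.1 e.symm
  have hya : y ≠ a := fun e => (hA a ha).2.2 e.symm
  have h3 := h.1.three hb
  have h3' := h'.three hb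
  have sy : {y} ⊆ M.E := singleton_subset_iff.2 hyE
  have sa : {a} ⊆ M.E := singleton_subset_iff.2 haE
  have sya : {y, a} ⊆ M.E := pair_subset hyE haE
  have cy : ({y} : Set E).ncard ≤ 3 := by simp
  have ca : ({a} : Set E).ncard ≤ 3 := by simp
  have cya : ({y, a} : Set E).ncard ≤ 3 := by rw [ncard_pair hya]; omega
  have nya : x ∉ ({y, a} : Set E) := by simp [hxy, hxa]
  have l1 := xi2_lam hb hxE sy cy hxy (X := A) (by intro z; grind)
  have l2 := xi2_lam hb hxE sa ca hxa (X := A') (by intro z; grind)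
  have s1 := h.1.sep
  have s2 := h'.sep
  set B := M.E \ (A ∪ {x, y}) with hB
  set B' := M.E \ (A' ∪ {x, a}) with hB'
  have hBB : 3 ≤ (B ∩ B').ncard := by
    have c1 := hf.card
    have c2 := h'.small
    have c3 : M.E \ (I' ∪ J') ⊆ (B ∩ B') ∪ ((A \ (I' ∪ J')) ∪ (A' \ (I' ∪ J'))) := by
      intro z
      grind
    have c4 := ncard_le_ncard c3
    have c5 := ncard_union_le (B ∩ B') ((A \ (I' ∪ J')) ∪ (A' \ (I' ∪ J')))
    have c6 := ncard_union_le (A \ (I' ∪ J')) (A' \ (I' ∪ J'))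
    omega
  obtain ⟨b, hbB⟩ : (B ∩ B').Nonempty := nonempty_of_ncard_ne_zero (by omega)
  have small : ∀ X ⊆ A \ {a}, 2 ≤ X.ncard → 2 ≤ lam (mn M {x} {a}) X := by
    intro X hX h2
    by_contra hl
    have c1 := h.2 x a X I' J' ⟨hf, hxI, haJ, by intro z hz; have := hX hz; grind, by omega, h2,
      (ncard_le_ncard (sdiff_subset_sdiff_left (hX.trans sdiff_subset))).trans hsm⟩
    have c2 := ncard_le_ncard hX
    have c3 := ncard_sdiff_singleton_add_one ha
    omega
  by_cases hy : y ∈ A'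
  · have u1 := rk_submod' M (X := A ∪ {x}) (Y := A' ∪ {x}) (P := A ∩ A' ∪ {x})
      (Q := M.E \ (B ∩ B' ∪ ∅)) (by intro z; grind) (by intro z; grind) (by intro z; grind)
    have u2 := rk_submod' M (X := M.E \ (A ∪ {y})) (Y := M.E \ (A' ∪ {a})) (P := B ∩ B' ∪ {x})
      (Q := M.E \ (A ∩ A' ∪ {y, a})) (by intro z; grind) (by intro z; grind) (by intro z; grind)
    have u3 := xi2_con3 hb hxE (X := B ∩ B') (Y := A) (by intro z; grind) (by omega)
      (by intro z; grind) (by omega)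
    have hdis : ∀ z, z ∈ A → z ∉ A' := by
      intro z hz hz'
      have := xi2_conn hb hxE sya cya nya (h.conn_del hb ha) (X := A ∩ A') (z := z) (w := b)
        (by intro z; grind) ⟨hz, hz'⟩ (by grind) (by grind)
      omega
    have u4 := rk_submod' M (X := A ∪ {x}) (Y := M.E \ (A' ∪ {a})) (P := A \ {a} ∪ {x})
      (Q := M.E \ (A' \ {y} ∪ {y})) (by intro z; grind) (by intro z; grind) (by intro z; grind)
    have u5 := rk_submod' M (X := M.E \ (A ∪ {y})) (Y := A' ∪ {x}) (P := A' \ {y} ∪ {x})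
      (Q := M.E \ (A \ {a} ∪ {a})) (by intro z; grind) (by intro z; grind) (by intro z; grind)
    have c1 := ncard_sdiff_singleton_add_one ha
    have c2 := ncard_sdiff_singleton_add_one hy
    obtain ⟨z, hz⟩ : (A' \ {y}).Nonempty := nonempty_of_ncard_ne_zero (by omega)
    have u6 := xi2_conn hb hxE sy cy hxy (hb.conn_mn x y) (X := A' \ {y}) (z := z) (w := a)
      (by intro z; grind) hz (by grind) (by grind)
    have u7 := xi2_lam hb hxE sa ca hxa (X := A \ {a}) (by intro z; grind)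
    have u8 := small (A \ {a}) Subset.rfl (by omega)
    omega
  · have u1 := rk_submod' M (X := A ∪ {x}) (Y := A' ∪ {x}) (P := A ∩ A' ∪ {x})
      (Q := M.E \ (B ∩ B' ∪ {y})) (by intro z; grind) (by intro z; grind) (by intro z; grind)
    have u2 := rk_submod' M (X := M.E \ (A ∪ {y})) (Y := M.E \ (A' ∪ {a})) (P := B ∩ B' ∪ {x})
      (Q := M.E \ (A ∩ A' ∪ {a})) (by intro z; grind) (by intro z; grind) (by intro z; grind)
    have u3 := xi2_conn hb hxE sy cy hxy (hb.conn_mn x y) (X := B ∩ B') (z := b) (w := a)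
      (by intro z; grind) hbB (by grind) (by grind)
    have u4 := xi2_lam hb hxE sa ca hxa (X := A ∩ A') (by intro z; grind)
    have c1 : (A ∩ A').ncard ≤ 1 := by
      by_contra hc
      have := small (A ∩ A') (by intro z; grind) (by omega)
      omega
    have c2 := ncard_inter_add_ncard_sdiff_eq_ncard A' A
    rw [inter_comm] at c2
    have c3 := ncard_inter_add_ncard_sdiff_eq_ncard A A'
    have c4 := ncard_sdiff_singleton_add_one (s := A \ A') (a := a) (by grind)
    obtain ⟨z, hz⟩ : ((A \ A') \ {a}).Nonempty := nonempty_of_ncard_ne_zero (by omega)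
    have u5 := rk_submod' M (X := A ∪ {x}) (Y := M.E \ (A' ∪ {a})) (P := (A \ A') \ {a} ∪ {x})
      (Q := M.E \ (A' \ A ∪ ∅)) (by intro z; grind) (by intro z; grind) (by intro z; grind)
    have u6 := rk_submod' M (X := M.E \ (A ∪ {y})) (Y := A' ∪ {x}) (P := A' \ A ∪ {x})
      (Q := M.E \ ((A \ A') \ {a} ∪ {y, a})) (by intro z; grind) (by intro z; grind)
      (by intro z; grind)
    have u7 := xi2_con3 hb hxE (X := A' \ A) (Y := A) (by intro z; grind) (by omega)
      (by intro z; grind) (by omega)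
    have u8 := xi2_conn hb hxE sya cya nya (h.conn_del hb ha) (X := (A \ A') \ {a}) (z := z)
      (w := b) (by intro z; grind) hz (by grind) (by grind)
    omega

theorem MinCfg.con3_right (hb : Big M) (h : MinCfg M x y A I J) (ha : a ∈ A) :
    Con3 (mn M {a} {y}) := by
  have h1 := (h.dual.con3_left hb.dual ha).dual
  have hd : Disjoint ({y} : Set E) {a} := by
    have := h.1.sub ha
    grind [disjoint_singleton]
  rwa [mn_dual hd, Matroid.dual_dual] at h1

end Pool.Agent.Lib.MP_10bdcf_co.G
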