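import Pool.Agent.Lib.MP_10bdcf_co.XI2

/-!
Case I: a bad pair inside the small side.
-/

namespace Pool.Agent.Lib.MP_10bdcf_co.G

open scoped Matroid
open Set

set_option linter.unusedSectionVars false

variable {E : Type} [Fintype E] {M : Matroid E} {A I J : Set E} {x y a a' : E}

theorem xi3_low {k j : ℕ} {Z W : Set E} (ho : Op M I J) (hc : ConK k (mn M I J)) (hj : j ≤ k)
    (hZ : Z ⊆ M.E \ (I ∪ J)) (hW : W ⊆ (M.E \ (I ∪ J)) \ Z) (h1 : j ≤ Z.ncard)
    (h2 : j ≤ W.ncard) :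
    j + rk M M.E + I.ncard ≤ rk M (Z ∪ I) + rk M (M.E \ (Z ∪ J)) := by
  have e := ho.lam_mn (X := Z) (disjoint_left.2 fun z hz h => (hZ hz).2 (Or.inl h))
    (disjoint_left.2 fun z hz h => (hZ hz).2 (Or.inr h))
  have := hc.le_lam (X := Z) (by rwa [mn_ground]) hj h1
    (h2.trans (ncard_le_ncard (by rwa [mn_ground])))
  linarith

theorem xi3_pair {r : ℕ} {A B A' B' P Q P' Q' : Set E} (h : rk M A + rk M B = r + 2)
    (h' : rk M A' + rk M B' = r + 2) (h1 : P ⊆ A) (h2 : P ⊆ A') (h3 : Q ⊆ A ∪ A') (h4 : P' ⊆ B)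
    (h5 : P' ⊆ B') (h6 : Q' ⊆ B ∪ B') :
    rk M P + rk M Q + rk M P' + rk M Q' ≤ 2 * r + 4 := by
  have := rk_submod' M h1 h2 h3
  have := rk_submod' M h4 h5 h6
  linarith

theorem xi3_two (hb : Big M) {Z : Set E} (hx : x ∈ M.E) (ha : a ∈ M.E) (hy : y ∈ M.E)
    (ha' : a' ∈ M.E) (hne : a ≠ x) (h1 : a ∉ Z ∪ {y, a'}) (h2 : x ∉ Z ∪ {y, a'}) :
    rk M M.E + 2 ≤ rk M (Z ∪ {a, x}) + rk M (M.E \ (Z ∪ {y, a'})) := by
  have e1 := hb.rk_small (X := {a, x}) (pair_subset ha hx) (by rw [ncard_pair hne]; omega)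
  have e2 := hb.rk_compl (X := {y, a'}) (pair_subset hy ha')
    ((ncard_insert_le _ _).trans (by simp))
  have := rk_submod' M (X := Z ∪ {a, x}) (Y := M.E \ (Z ∪ {y, a'})) (P := {a, x})
    (Q := M.E \ {y, a'}) subset_union_right (pair_subset ⟨ha, h1⟩ ⟨hx, h2⟩) (by grind)
  rw [ncard_pair hne] at e1
  linarith

theorem MinCfg.inside (hb : Big M) (h : MinCfg M x y A I J) (ha : a ∈ A) (ha' : a' ∈ A)
    (hne : a ≠ a') (hn : ¬ Con3 (mn M {a} {a'})) :
    ∃ A' I' J', MinCfg M a a' A' I' J' ∧ A.ncard = 3 ∧ A'.ncard = 3 ∧ A \ {a, a'} ⊆ A' ∧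
      x ∉ A' ∧ y ∉ A' := by
  obtain ⟨I', J', hf, x1, a1, y1, a2, hs⟩ := h.shift_both hb ha ha' hne
  obtain ⟨A', hc⟩ := hf.exists_cfg hb a1 a2 hn
  have hA := h.1.sub
  have hA' := hc.sub
  have xE : x ∈ M.E := hf.op.sub_left x1
  have yE : y ∈ M.E := hf.op.sub_right y1
  have aE : a ∈ M.E := (hA ha).1
  have aE' : a' ∈ M.E := (hA ha').1
  have xy : x ≠ y := fun e => disjoint_left.1 hf.dis x1 (e ▸ y1)
  have xA : x ∉ A := fun e => (hA e).2 (Or.inl rfl)
  have yA : y ∉ A := fun e => (hA e).2 (Or.inr rfl)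
  have aA : a ∉ A' := fun e => (hA' e).2 (Or.inl rfl)
  have aA' : a' ∉ A' := fun e => (hA' e).2 (Or.inr rfl)
  have AE : ∀ z ∈ A, z ∈ M.E := fun z e => (hA e).1
  have AE' : ∀ z ∈ A', z ∈ M.E := fun z e => (hA' e).1
  have ax : a ≠ x := fun e => xA (e ▸ ha)
  obtain ⟨r1, r2, r3, -, r4⟩ := h.1.ranks hb
  obtain ⟨s1, s2, s3, -, -⟩ := hc.ranks hb
  have n1 := h.1.three hb
  have n2 := h.2 _ _ _ _ _ hc
  have n3 := hc.four
  have n10 := hb.ten
  have er := h.rk_erase hb ha'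
  have L := h.con3_left hb ha'
  have R := h.con3_right hb ha
  have hmin := h.2
  obtain ⟨B, hB⟩ : ∃ B, B = (M.E \ {x, y}) \ A := ⟨_, rfl⟩
  obtain ⟨B', hB'⟩ : ∃ B', B' = (M.E \ {a, a'}) \ A' := ⟨_, rfl⟩
  rw [← hB] at r1 r3 r4
  rw [← hB'] at s1 s3 n3
  have mB : ∀ z, z ∈ B ↔ z ∈ M.E ∧ z ≠ x ∧ z ≠ y ∧ z ∉ A := fun z => by rw [hB]; grind
  have mB' : ∀ z, z ∈ B' ↔ z ∈ M.E ∧ z ≠ a ∧ z ≠ a' ∧ z ∉ A' := fun z => by rw [hB']; grind
  clear hB hB' h hA hA'
  have r5 : rk M B + 1 ≤ rk M (insert y B) := (rk_insert_of_notMem yE r4).ge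
  have r1' : rk M (insert x A) + rk M (insert x B) = rk M M.E + 2 := by
    rw [rk_insert_of_mem r2, rk_insert_of_mem r3, r1]
  have s1' : rk M (insert a A') + rk M (insert a B') = rk M M.E + 2 := by
    rw [rk_insert_of_mem s2, rk_insert_of_mem s3, s1]
  have s2' : rk M (insert a B') + rk M (insert a A') = rk M M.E + 2 := by rw [add_comm, s1']
  clear r2 r3 r4 s1 s2 s3
  have n4 : 3 ≤ (B ∩ B').ncard := by
    have e1 := ncard_union_le (B ∩ B') (A \ (I' ∪ J'))
    have e2 := ncard_le_ncard (show B' \ (I' ∪ J') ⊆ B ∩ B' ∪ A \ (I' ∪ J') by grind)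
    omega
  have n5 : (A \ {a, a'}).ncard + 2 = A.ncard := by
    rw [← ncard_pair hne, ncard_sdiff_add_ncard_of_subset (pair_subset ha ha')]
  have o0 : Op M ∅ ∅ := hb.op (by simp) (by simp) (by simp) (by simp) (by simp)
  have o1 : Op M ∅ {y} := hb.op (by simp) (by simpa) (by simp) (by simp) (by simp)
  have o2 : Op M {x} ∅ := hb.op (by simpa) (by simp) (by simp) (by simp) (by simp)
  have o3 : Op M {a} {y, a'} := hb.op (by simpa) (pair_subset yE aE') (by simp)
    ((ncard_insert_le _ _).trans (by simp)) (by grind)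
  have o4 : Op M {x, a} {a'} := hb.op (pair_subset xE aE) (by simpa)
    ((ncard_insert_le _ _).trans (by simp)) (by simp) (by grind)
  have o5 : Op M {a} {a'} := hb.op (by simpa) (by simpa) (by simp) (by simp) (by simpa)
  have o6 : Op M {a} {y} := hb.op (by simpa) (by simpa) (by simp) (by simp) (by grind)
  have o7 : Op M {x} {a'} := hb.op (by simpa) (by simpa) (by simp) (by simp) (by grind)
  have c0 : ConK 3 (mn M ∅ ∅) := by simpa [mn_empty_left] using hb.con
  have c1 : ConK 2 (mn M ∅ {y}) := by rw [mn_empty_left]; exact hb.con3_del y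
  have c2 : ConK 2 (mn M {x} ∅) := by rw [mn_empty_right]; exact hb.con3_con x
  have c3 : ConK 1 (mn M {a} {y, a'}) := by
    have e := o6.card
    simp only [ncard_singleton] at e
    have := R.delete (by omega) a'
    rwa [Matroid.delete_delete] at this
  have c4 : ConK 1 (mn M {x, a} {a'}) := by
    have e := o7.card
    simp only [ncard_singleton] at e
    have := L.contract (by omega) a
    rwa [mn, ← Matroid.contract_delete_comm _ (by simpa), Matroid.contract_contract] at this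
  clear L R o6 o7
  have l1 := xi3_low (Z := B ∩ B') (W := A) o1 c1 le_rfl (by grind) (by grind) (by omega)
    (by omega)
  rw [union_empty, ncard_empty] at l1
  by_cases hy : y ∈ A'
  · exfalso
    have l2 := xi3_low (Z := B ∩ B') (W := A) o0 c0 le_rfl (by grind) (by grind) n4 n1
    rw [union_empty, ncard_empty] at l2
    by_cases hx : x ∈ A'
    · have p := xi3_pair (P := A ∩ A' ∪ {a, x}) (Q := M.E \ (B ∩ B')) (P' := B ∩ B')
        (Q' := M.E \ (A ∩ A' ∪ {y, a'})) r1' s1' (by grind) (by grind) (by grind) (by grind)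
        (by grind) (by grind)
      have := xi3_two (Z := A ∩ A') hb xE aE yE aE' ax (by grind) (by grind)
      linarith
    have p := xi3_pair (P := A ∩ A' ∪ {a}) (Q := M.E \ (B ∩ B')) (P' := B ∩ B')
      (Q' := M.E \ (A ∩ A' ∪ {y, a'})) r1' s1' (by grind) (by grind) (by grind) (by grind)
      (by grind) (by grind)
    have e : (A ∩ A').ncard = 0 := by
      by_contra e
      have := xi3_low (Z := A ∩ A') (W := B ∩ B') o3 c3 le_rfl (by grind) (by grind) (by omega)
        (by omega)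
      rw [ncard_singleton] at this
      linarith
    rw [ncard_eq_zero, eq_empty_iff_forall_notMem] at e
    replace e : ∀ z ∈ A, z ∉ A' := fun z h1 h2 => e z ⟨h1, h2⟩
    have q := xi3_pair (P := insert x (A \ {a'})) (Q := M.E \ (B ∩ A' ∪ {y})) (P' := B ∩ A')
      (Q' := insert y B) r1' s2' (by grind) (by grind) (by grind) (by grind) (by grind) (by grind)
    have e1 := ncard_insert_le y (B ∩ A')
    have e2 := ncard_le_ncard (show A' ⊆ insert y (B ∩ A') by grind)
    have := xi3_low (Z := B ∩ A') (W := B ∩ B') o1 c1 le_rfl (by grind) (by grind) (by omega)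
      (by omega)
    rw [union_empty, ncard_empty] at this
    linarith
  by_cases hx : x ∈ A'
  · exfalso
    have p := xi3_pair (P := A ∩ A' ∪ {x, a}) (Q := M.E \ (B ∩ B' ∪ {y})) (P' := B ∩ B')
      (Q' := M.E \ (A ∩ A' ∪ {a'})) r1' s1' (by grind) (by grind) (by grind) (by grind)
      (by grind) (by grind)
    have e : (A ∩ A').ncard = 0 := by
      by_contra e
      have := xi3_low (Z := A ∩ A') (W := B ∩ B') o4 c4 le_rfl (by grind) (by grind) (by omega)
        (by omega)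
      rw [ncard_pair ax.symm] at this
      linarith
    rw [ncard_eq_zero, eq_empty_iff_forall_notMem] at e
    replace e : ∀ z ∈ A, z ∉ A' := fun z h1 h2 => e z ⟨h1, h2⟩
    have q := xi3_pair (P := A \ {a, a'} ∪ {a}) (Q := M.E \ (B ∩ A' ∪ ∅)) (P' := B ∩ A' ∪ {x})
      (Q' := M.E \ (A \ {a, a'} ∪ {y, a'})) r1' s2' (by grind) (by grind) (by grind) (by grind)
      (by grind) (by grind)
    have e1 := ncard_insert_le x (B ∩ A')
    have e2 := ncard_le_ncard (show A' ⊆ insert x (B ∩ A') by grind)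
    have l2 := xi3_low (Z := B ∩ A') (W := B ∩ B') o2 c2 le_rfl (by grind) (by grind) (by omega)
      (by omega)
    have l3 := xi3_low (Z := A \ {a, a'}) (W := B ∩ B') o3 c3 le_rfl (by grind) (by grind)
      (by omega) (by omega)
    rw [ncard_singleton] at l2 l3
    linarith
  have p := xi3_pair (P := A ∩ A' ∪ {a}) (Q := M.E \ (B ∩ B' ∪ {y})) (P' := B ∩ B')
    (Q' := M.E \ (A ∩ A' ∪ {a'})) r1' s1' (by grind) (by grind) (by grind) (by grind)
    (by grind) (by grind)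
  have e0 : A ∩ A' ⊆ A \ {a, a'} := by grind
  have e1 := ncard_le_ncard e0
  have e : (A ∩ A').ncard ≤ 1 := by
    by_contra e
    have l2 := o5.lam_mn (X := A ∩ A') (by grind) (by grind)
    rw [ncard_singleton] at l2
    have := hmin a a' (A ∩ A') I' J' ⟨hf, a1, a2, inter_subset_right.trans hc.sub, by linarith,
      by omega, (ncard_le_ncard (sdiff_subset_sdiff_left inter_subset_right)).trans hc.small⟩
    omega
  have q := xi3_pair (P := A ∩ B' ∪ {a, x}) (Q := M.E \ (B ∩ A' ∪ ∅)) (P' := B ∩ A' ∪ ∅)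
    (Q' := M.E \ (A ∩ B' ∪ {y, a'})) r1' s2' (by grind) (by grind) (by grind) (by grind)
    (by grind) (by grind)
  have l2 := xi3_two (Z := A ∩ B') hb xE aE yE aE' ax (by grind) (by grind)
  have e2 : (B ∩ A').ncard ≤ 2 := by
    by_contra e2
    have := xi3_low (Z := B ∩ A') (W := B ∩ B') o0 c0 le_rfl (by grind) (by grind) (by omega) n4
    rw [ncard_empty] at this
    linarith
  have e3 := ncard_union_le (A ∩ A') (B ∩ A')
  have e4 := ncard_le_ncard (show A' ⊆ A ∩ A' ∪ B ∩ A' by grind)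
  refine ⟨A', I', J', ⟨hc, fun x' y' A2 I2 J2 h2 => ?_⟩, by omega, by omega, ?_, hx, hy⟩
  · have := hmin _ _ _ _ _ h2
    omega
  · rw [← eq_of_subset_of_ncard_le e0 (by omega)]
    exact inter_subset_right

end Pool.Agent.Lib.MP_10bdcf_co.G
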