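import Pool.Agent.Lib.MP_10bdcf_co.XI3

/-!
Case I: small sides with three elements.
-/

namespace Pool.Agent.Lib.MP_10bdcf_co.G

open scoped Matroid
open Set

set_option linter.unusedSectionVars false

variable {E : Type} [Fintype E] {M : Matroid E} {A A1 A2 A3 I J : Set E}
  {x y x1 y1 x2 y2 x3 y3 : E}

/-- A four element circuit and a four element cocircuit with three common elements. -/
structure Quad (M : Matroid E) (x y : E) (A : Set E) : Prop where
  card : A.ncard = 3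
  hx : x ∉ A
  hy : y ∉ A
  ne : x ≠ y
  circ : M.IsCircuit (insert x A)
  cocirc : M.IsCocircuit (insert y A)

/-- The next configuration. -/
structure Nx (x y : E) (A : Set E) (x1 y1 : E) (A1 : Set E) : Prop where
  hx : x1 ∈ A
  hy : y1 ∈ A
  sub : A \ {x1, y1} ⊆ A1
  nx : x ∉ A1
  ny : y ∉ A1

theorem xi4_circ (hb : Big M) (h : Cfg M x y A I J) (h3 : A.ncard = 3) :
    M.IsCircuit (insert x A) := by
  have hA : A ⊆ M.E := h.sub.trans sdiff_subset
  have hx : x ∉ A := fun hx => (h.sub hx).2 (Or.inl rfl)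
  have hC : insert x A ⊆ M.E := insert_subset (h.frame.op.sub_left h.hx) hA
  have h4 : (insert x A).ncard = 4 := by rw [ncard_insert_of_notMem hx, h3]
  have h1 := rk_insert_of_mem (h.ranks hb).2.1
  have h2 := rk_le_ncard M A
  refine Matroid.isCircuit_iff_dep_forall_sdiff_singleton_indep.2 ⟨⟨fun hi => ?_, hC⟩,
    fun e he => indep_iff_rk.2 (hb.rk_small (sdiff_subset.trans hC) ?_)⟩
  · have := rk_indep hi
    omega
  · have := ncard_sdiff_singleton_add_one he
    omega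

theorem Cfg.quad (hb : Big M) (h : Cfg M x y A I J) (h3 : A.ncard = 3) : Quad M x y A :=
  ⟨h3, fun hx => (h.sub hx).2 (Or.inl rfl), fun hx => (h.sub hx).2 (Or.inr rfl),
    fun e => disjoint_left.1 h.frame.dis h.hx (e ▸ h.hy), xi4_circ hb h h3,
    xi4_circ hb.dual h.dual h3⟩

theorem Quad.coindep (hb : Big M) (h : Quad M x y A) : M.Coindep (insert x A) := by
  have hC := h.circ.subset_ground
  have h4 : (insert x A).ncard = 4 := by rw [ncard_insert_of_notMem h.hx, h.card]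
  have h1 := isCircuit_rk h.circ
  have h2 := lam_eq hC
  have h3 := rk_le_ncard M✶ (insert x A)
  have h5 := hb.con _ hC
  have h6 := cc_card hC
  have h7 := hb.ten
  rw [Matroid.coindep_def, indep_iff_rk]
  omega

theorem xi4_qdual (h : Quad M x y A) : Quad M✶ y x A :=
  ⟨h.card, h.hy, h.hx, h.ne.symm, h.cocirc, Matroid.dual_isCocircuit_iff.2 h.circ⟩

theorem xi4_swap (h : Nx x y A x1 y1 A1) : Nx y x A y1 x1 A1 :=
  ⟨h.hy, h.hx, pair_comm x1 y1 ▸ h.sub, h.ny, h.nx⟩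

theorem xi4_eq {S : Set E} {a b c : E} (h : S.ncard = 3) (ha : a ∈ S) (hb : b ∈ S) (hc : c ∈ S)
    (h1 : a ≠ b) (h2 : a ≠ c) (h3 : b ≠ c) : S = {a, b, c} :=
  (eq_of_subset_of_ncard_le (insert_subset ha (pair_subset hb hc))
    (by rw [h, cb_three h1 h2 h3])).symm

theorem xi4_third {S : Set E} (h : S.ncard = 3) (a b : E) : ∃ c ∈ S, a ≠ c ∧ b ≠ c := by
  by_contra hc
  have h1 : S ⊆ {a, b} := fun c hS => by
    by_contra h2
    exact hc ⟨c, hS, fun e => h2 (Or.inl e.symm), fun e => h2 (Or.inr e.symm)⟩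
  have h2 := ncard_le_ncard h1
  have h3 := ncard_insert_le a {b}
  rw [ncard_singleton] at h3
  omega

theorem xi4_orth {C D : Set E} {e : E} (hC : M.IsCircuit C) (hD : M.IsCocircuit D) (h1 : e ∈ C)
    (h2 : e ∈ D) : ∃ f, f ≠ e ∧ f ∈ C ∧ f ∈ D := by
  obtain ⟨f, hf, hne⟩ := (hC.isCocircuit_inter_nontrivial hD ⟨e, h1, h2⟩).exists_ne e
  exact ⟨f, hne, hf⟩

theorem xi4_cl {X : Set E} {a b c d : E} (h : M.IsCircuit {a, b, c, d}) (e : E)
    (he : e = a ∨ e = b ∨ e = c ∨ e = d) (ha : a = e ∨ a ∈ M.closure X)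
    (hb : b = e ∨ b ∈ M.closure X) (hc : c = e ∨ c ∈ M.closure X) (hd : d = e ∨ d ∈ M.closure X) :
    e ∈ M.closure X := by
  refine M.closure_subset_closure_of_subset_closure ?_ (h.mem_closure_sdiff_singleton_of_mem he)
  rintro f ⟨rfl | rfl | rfl | rfl, hf⟩
  exacts [ha.resolve_left hf, hb.resolve_left hf, hc.resolve_left hf, hd.resolve_left hf]

theorem xi4_four (a b c d : E) : ({a, b, c, d} : Set E).ncard ≤ 4 := by
  have h1 := ncard_insert_le a {b, c, d}
  have h2 := ncard_insert_le b {c, d}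
  have h3 := ncard_insert_le c {d}
  rw [ncard_singleton] at h3
  omega

theorem xi4_low (hb : Big M) {X Y Z : Set E} (h1 : Z ⊆ M.closure X) (h2 : Z ⊆ M✶.closure Y)
    (h3 : X.ncard + Y.ncard ≤ Z.ncard + 1) (h4 : 2 ≤ Z.ncard) (h5 : Z.ncard ≤ 8) : False := by
  have hZ := h1.trans (M.closure_subset_ground X)
  have e1 := rk_mono M h1
  have e2 := rk_mono M✶ h2
  rw [rk_closure] at e1 e2
  have e3 := rk_le_ncard M X
  have e4 := rk_le_ncard M✶ Y
  have e5 := lam_eq hZ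
  have e6 := hb.con _ hZ
  have e7 := cc_card hZ
  have e8 := hb.ten
  omega

theorem xi4_seven (q0 : Quad M x y A) (q1 : Quad M x1 y1 A1) (n1 : Nx x y A x1 y1 A1) :
    (insert x (insert y (insert x1 (insert y1 A1)))).ncard = 7 := by
  rw [ncard_insert_of_notMem, ncard_insert_of_notMem, ncard_insert_of_notMem,
    ncard_insert_of_notMem q1.hy, q1.card]
  · rintro (h | h)
    exacts [q1.ne h, q1.hx h]
  · rintro (rfl | rfl | h)
    exacts [q0.hy n1.hx, q0.hy n1.hy, n1.ny h]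
  · rintro (h | rfl | rfl | h)
    exacts [q0.ne h, q0.hx n1.hx, q0.hx n1.hy, n1.nx h]

theorem xi4_meet (q0 : Quad M x y A) (q1 : Quad M x1 y1 A1) (q2 : Quad M x2 y2 A2)
    (n1 : Nx x y A x1 y1 A1) (n2 : Nx x1 y1 A1 x2 y2 A2) {p : E} (hp : p ∈ A)
    (hp' : p ∈ insert x2 A2) : y ∈ A2 := by
  have k1 : x1 ∉ insert x2 A2 := by
    rintro (rfl | h)
    exacts [q1.hx n2.hx, n2.nx h]
  have k2 : y1 ∉ insert x2 A2 := by
    rintro (rfl | h)
    exacts [q1.hy n2.hx, n2.ny h]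
  obtain ⟨f, h1, h2, rfl | h3⟩ := xi4_orth q2.circ q0.cocirc hp' (Or.inr hp)
  · exact h2.resolve_left fun e => n1.ny (e ▸ n2.hx)
  · rw [xi4_eq q0.card n1.hx n1.hy hp q1.ne (fun e => k1 (e ▸ hp')) fun e => k2 (e ▸ hp')] at h3
    rcases h3 with rfl | rfl | rfl
    exacts [(k1 h2).elim, (k2 h2).elim, (h1 rfl).elim]

theorem xi4_dis (hb : Big M) (q0 : Quad M x y A) (q1 : Quad M x1 y1 A1) (q2 : Quad M x2 y2 A2)
    (n1 : Nx x y A x1 y1 A1) (n2 : Nx x1 y1 A1 x2 y2 A2) {p : E} (hp : p ∈ A) : p ∉ A2 := by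
  intro hp'
  have hy := xi4_meet q0 q1 q2 n1 n2 hp (Or.inr hp')
  have hx := xi4_meet (xi4_qdual q0) (xi4_qdual q1) (xi4_qdual q2) (xi4_swap n1) (xi4_swap n2) hp
    (Or.inr hp')
  have p1 : x1 ≠ p := fun e => n2.nx (e ▸ hp')
  have p2 : y1 ≠ p := fun e => n2.ny (e ▸ hp')
  have hp1 : p ∈ A1 := n1.sub ⟨hp, fun h => h.elim p1.symm p2.symm⟩
  have e0 := xi4_eq q0.card n1.hx n1.hy hp q1.ne p1 p2
  have e1 := xi4_eq q1.card n2.hx n2.hy hp1 q2.ne (fun e => q2.hx (e ▸ hp'))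
    fun e => q2.hy (e ▸ hp')
  have e2 := xi4_eq q2.card hp' hx hy (fun e => q0.hx (e ▸ hp)) (fun e => q0.hy (e ▸ hp)) q0.ne
  have h7 := xi4_seven q0 q1 n1
  have h4 := xi4_four x1 y1 p x2
  have c0 := q0.circ
  have c1 := q1.circ
  have c2 := q2.circ
  have d0 := q0.cocirc.isCircuit
  have d1 := q1.cocirc.isCircuit
  have d2 := q2.cocirc.isCircuit
  rw [e0] at c0 d0
  rw [e1] at c1 d1 h7
  rw [e2] at c2 d2
  have hX : ({x1, y1, p, x2} : Set E) ⊆ M.E := insert_subset (c0.subset_ground (by simp))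
    (insert_subset (c0.subset_ground (by simp)) (pair_subset (c0.subset_ground (by simp))
      (c1.subset_ground (by simp))))
  have s := M.subset_closure _ hX
  have s' := M✶.subset_closure _ hX
  simp only [insert_subset_iff, singleton_subset_iff] at s s'
  have t1 := xi4_cl (X := {x1, y1, p, x2}) c0 x (by simp) (by simp) (by simp [s]) (by simp [s])
    (by simp [s])
  have t2 := xi4_cl (X := {x1, y1, p, x2}) c1 y2 (by simp) (by simp [s]) (by simp [s]) (by simp)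
    (by simp [s])
  have t3 := xi4_cl (X := {x1, y1, p, x2}) c2 y (by simp) (by simp [s]) (by simp [s])
    (by simp [t1]) (by simp)
  have u1 := xi4_cl (X := {x1, y1, p, x2}) d0 y (by simp) (by simp) (by simp [s']) (by simp [s'])
    (by simp [s'])
  have u2 := xi4_cl (X := {x1, y1, p, x2}) d1 y2 (by simp) (by simp [s']) (by simp [s']) (by simp)
    (by simp [s'])
  have u3 := xi4_cl (X := {x1, y1, p, x2}) d2 x (by simp) (by simp [u2]) (by simp [s'])
    (by simp) (by simp [u1])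
  refine xi4_low hb (X := {x1, y1, p, x2}) (Y := {x1, y1, p, x2}) (Z := {x, y, x1, y1, x2, y2, p})
    ?_ ?_ (by omega) (by omega) (by omega)
  · simp only [insert_subset_iff, singleton_subset_iff, s, t1, t2, t3, and_self]
  · simp only [insert_subset_iff, singleton_subset_iff, s', u1, u2, u3, and_self]

theorem xi4_not (hb : Big M) (q0 : Quad M x y A) (q1 : Quad M x1 y1 A1) (q2 : Quad M x2 y2 A2)
    (n1 : Nx x y A x1 y1 A1) (n2 : Nx x1 y1 A1 x2 y2 A2) (hp : x2 ∈ A) : y ∈ A2 ∧ x ∉ A2 := by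
  refine ⟨xi4_meet q0 q1 q2 n1 n2 hp (Or.inl rfl), fun hx => ?_⟩
  obtain ⟨f, h1, h2, h3⟩ := xi4_orth q0.circ q2.cocirc (Or.inl rfl) (Or.inr hx)
  have h4 := h2.resolve_left h1
  obtain rfl := h3.resolve_right (xi4_dis hb q0 q1 q2 n1 n2 h4)
  rw [xi4_eq q0.card n1.hx n1.hy hp q1.ne (fun e => q1.hx (e ▸ n2.hx))
    fun e => q1.hy (e ▸ n2.hx)] at h4
  rcases h4 with rfl | rfl | rfl
  exacts [q1.hx n2.hy, q1.hy n2.hy, q2.ne rfl]

theorem xi4_half (hb : Big M) (q0 : Quad M x y A) (q1 : Quad M x1 y1 A1) (q2 : Quad M x2 y2 A2)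
    (q3 : Quad M x3 y3 A3) (n1 : Nx x y A x1 y1 A1) (n2 : Nx x1 y1 A1 x2 y2 A2)
    (n3 : Nx x2 y2 A2 x3 y3 A3) (hp : x2 ∈ A) : False := by
  obtain ⟨hy, hx⟩ := xi4_not hb q0 q1 q2 n1 n2 hp
  obtain ⟨a, ha, a1, a2⟩ := xi4_third q1.card x2 y2
  have ha2 : a ∈ A2 := n2.sub ⟨ha, fun h => h.elim a1.symm a2.symm⟩
  obtain ⟨w, hw, w1, w2⟩ := xi4_third q2.card a y
  have e0 := xi4_eq q0.card n1.hx n1.hy hp q1.ne (fun e => q1.hx (e ▸ n2.hx))
    fun e => q1.hy (e ▸ n2.hx)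
  have e1 := xi4_eq q1.card n2.hx n2.hy ha q2.ne a1 a2
  have e2 := xi4_eq q2.card ha2 hy hw (fun e => n1.ny (e ▸ ha)) w1 w2
  have h7 := xi4_seven q0 q1 n1
  have c0 := q0.circ
  have c1 := q1.circ
  have c2 := q2.circ
  have d0 := q0.cocirc.isCircuit
  have d1 := q1.cocirc.isCircuit
  have d2 := q2.cocirc.isCircuit
  rw [e0] at c0 d0
  rw [e1] at c1 d1 h7
  rw [e2] at c2 d2
  have h8 : ({w, x, y, x1, y1, x2, y2, a} : Set E).ncard = 8 := by
    rw [ncard_insert_of_notMem, h7]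
    rintro (rfl | rfl | rfl | rfl | rfl | rfl | rfl)
    exacts [hx hw, w2 rfl, n2.nx hw, n2.ny hw, q2.hx hw, q2.hy hw, w1 rfl]
  have g0 := c0.subset_ground
  have g2 := c2.subset_ground
  simp only [insert_subset_iff, singleton_subset_iff] at g0 g2
  have s' := M✶.subset_closure {x, x1, y1, x2, a}
    (by simp only [insert_subset_iff, singleton_subset_iff, Matroid.dual_ground, g0, g2, and_self])
  simp only [insert_subset_iff, singleton_subset_iff] at s'
  have u1 := xi4_cl (X := {x, x1, y1, x2, a}) d0 y (by simp) (by simp) (by simp [s'])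
    (by simp [s']) (by simp [s'])
  have u2 := xi4_cl (X := {x, x1, y1, x2, a}) d1 y2 (by simp) (by simp [s']) (by simp [s'])
    (by simp) (by simp [s'])
  have u3 := xi4_cl (X := {x, x1, y1, x2, a}) d2 w (by simp) (by simp [u2]) (by simp [s'])
    (by simp [u1]) (by simp)
  have h5 := ncard_insert_le x {x1, y1, x2, a}
  have h4 := xi4_four x1 y1 x2 a
  suffices ∃ X : Set E, X.ncard ≤ 4 ∧ {w, x, y, x1, y1, x2, y2, a} ⊆ M.closure X by
    obtain ⟨X, h1, h2⟩ := this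
    refine xi4_low hb (Y := {x, x1, y1, x2, a}) h2 ?_ (by omega) (by omega) (by omega)
    simp only [insert_subset_iff, singleton_subset_iff, s', u1, u2, u3, and_self]
  have hd : ∀ f ∈ A2, f ∉ insert x A := by
    rintro f hf (rfl | h)
    exacts [hx hf, xi4_dis hb q0 q1 q2 n1 n2 h hf]
  have key : ∀ u v, u ∈ A3 → v ∉ A3 → A ⊆ {u, v, x2} → u ∈ A → x ∈ A3 := fun u v hu hv h hu' => by
    obtain ⟨f, h1, h2, h3⟩ := xi4_orth q0.circ q3.cocirc (Or.inr hu') (Or.inr hu)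
    have i4 := h3.resolve_left fun e => hd _ n3.hy (e ▸ h2)
    rcases h2 with e | h2
    · exact e ▸ i4
    · rcases h h2 with e | e | e
      exacts [(h1 e).elim, (hv (e ▸ i4)).elim, (n3.nx (e ▸ i4)).elim]
  obtain ⟨b, hb2, b1, b2⟩ := xi4_third q2.card x3 y3
  have hb3 : b ∈ A3 := n3.sub ⟨hb2, fun h => h.elim b1.symm b2.symm⟩
  have ha3 := xi4_dis hb q1 q2 q3 n2 n3 ha
  have c3 := q3.circ
  have hb' : b = y ∨ b = w := (e2 ▸ hb2 :).resolve_left fun e => ha3 (e ▸ hb3)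
  by_cases e : a = x3
  · subst e
    obtain ⟨k1, k2⟩ := xi4_not hb q1 q2 q3 n2 n3 ha
    have k3 := key y1 x1 k1 k2 (by rw [e0, insert_comm]) n1.hy
    rw [xi4_eq q3.card hb3 k1 k3 (fun e => n2.ny (e ▸ hb2)) (fun e => hx (e ▸ hb2))
      fun e => q0.hx (e ▸ n1.hy)] at c3
    have s := M.subset_closure {x1, y1, x2, a}
      (by simp only [insert_subset_iff, singleton_subset_iff, g0, g2, and_self])
    simp only [insert_subset_iff, singleton_subset_iff] at s
    have t1 := xi4_cl (X := {x1, y1, x2, a}) c0 x (by simp) (by simp) (by simp [s]) (by simp [s])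
      (by simp [s])
    have t2 := xi4_cl (X := {x1, y1, x2, a}) c1 y2 (by simp) (by simp [s]) (by simp [s]) (by simp)
      (by simp [s])
    have t3 := xi4_cl (X := {x1, y1, x2, a}) c3 b (by simp) (by simp [s]) (by simp) (by simp [s])
      (by simp [t1])
    refine ⟨_, h4, ?_⟩
    rcases hb' with rfl | rfl
    · have t4 := xi4_cl (X := {x1, y1, x2, a}) c2 w (by simp) (by simp [s]) (by simp [s])
        (by simp [t3]) (by simp)
      simp only [insert_subset_iff, singleton_subset_iff, s, t1, t2, t3, t4, and_self]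
    · have t4 := xi4_cl (X := {x1, y1, x2, a}) c2 y (by simp) (by simp [s]) (by simp [s])
        (by simp) (by simp [t3])
      simp only [insert_subset_iff, singleton_subset_iff, s, t1, t2, t3, t4, and_self]
  · obtain rfl : a = y3 := by
      by_contra e'
      exact ha3 (n3.sub ⟨ha2, fun h => h.elim e e'⟩)
    obtain ⟨k1, k2⟩ := xi4_not hb.dual (xi4_qdual q1) (xi4_qdual q2) (xi4_qdual q3) (xi4_swap n2)
      (xi4_swap n3) ha
    have k3 := key x1 y1 k1 k2 e0.subset n1.hx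
    rw [xi4_eq q3.card hb3 k1 k3 (fun e => n2.nx (e ▸ hb2)) (fun e => hx (e ▸ hb2))
      fun e => q0.hx (e ▸ n1.hx)] at c3
    have hx3 : x3 = y ∨ x3 = w := (e2 ▸ n3.hx :).resolve_left q3.ne
    have s := M.subset_closure {x1, x2, x, y}
      (by simp only [insert_subset_iff, singleton_subset_iff, g0, g2, and_self])
    simp only [insert_subset_iff, singleton_subset_iff] at s
    have t1 := xi4_cl (X := {x1, x2, x, y}) c0 y1 (by simp) (by simp [s]) (by simp [s]) (by simp)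
      (by simp [s])
    have t2 := xi4_cl (X := {x1, x2, x, y}) c3 w (by grind)
      (hx3.elim (fun e => Or.inr (by rw [e]; exact s.2.2.2)) Or.inl)
      (hb'.elim (fun e => Or.inr (by rw [e]; exact s.2.2.2)) Or.inl)
      (by simp [s]) (by simp [s])
    have t3 := xi4_cl (X := {x1, x2, x, y}) c2 a (by simp) (by simp [s]) (by simp) (by simp [s])
      (by simp [t2])
    have t4 := xi4_cl (X := {x1, x2, x, y}) c1 y2 (by simp) (by simp [s]) (by simp [s]) (by simp)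
      (by simp [t3])
    refine ⟨_, xi4_four x1 x2 x y, ?_⟩
    simp only [insert_subset_iff, singleton_subset_iff, s, t1, t2, t3, t4, and_self]

theorem no_chain (hb : Big M) (q0 : Quad M x y A) (q1 : Quad M x1 y1 A1) (q2 : Quad M x2 y2 A2)
    (q3 : Quad M x3 y3 A3) (n1 : Nx x y A x1 y1 A1) (n2 : Nx x1 y1 A1 x2 y2 A2)
    (n3 : Nx x2 y2 A2 x3 y3 A3) : False := by
  obtain ⟨p, hp, p1, p2⟩ := xi4_third q0.card x1 y1
  have hp1 : p ∈ A1 := n1.sub ⟨hp, fun h => h.elim p1.symm p2.symm⟩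
  by_cases e : p = x2
  · exact xi4_half hb q0 q1 q2 q3 n1 n2 n3 (e ▸ hp)
  by_cases e' : p = y2
  · exact xi4_half hb.dual (xi4_qdual q0) (xi4_qdual q1) (xi4_qdual q2) (xi4_qdual q3)
      (xi4_swap n1) (xi4_swap n2) (xi4_swap n3) (e' ▸ hp)
  exact xi4_dis hb q0 q1 q2 n1 n2 hp (n2.sub ⟨hp1, fun h => h.elim e e'⟩)

/-- There is a smallest configuration all of whose inside pairs are good. -/
theorem exists_good_cfg (hb : Big M) (h : Cfg M x y A I J) :
    ∃ x' y' A' I' J', MinCfg M x' y' A' I' J' ∧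
      ∀ a ∈ A', ∀ a' ∈ A', a ≠ a' → Con3 (mn M {a} {a'}) := by
  by_contra hc
  have key : ∀ {x y A I J}, MinCfg M x y A I J → ∃ x1 y1 A1 I1 J1, MinCfg M x1 y1 A1 I1 J1 ∧
      Quad M x y A ∧ Quad M x1 y1 A1 ∧ Nx x y A x1 y1 A1 := fun {x y A I J} h => by
    by_contra hn
    refine hc ⟨x, y, A, I, J, h, fun a ha a' ha' hne => by_contra fun h3 => hn ?_⟩
    obtain ⟨A', I', J', k1, k2, k3, k4, k5, k6⟩ := h.inside hb ha ha' hne h3
    exact ⟨a, a', A', I', J', k1, h.1.quad hb k2, k1.1.quad hb k3, ha, ha', k4, k5, k6⟩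
  obtain ⟨_, _, _, _, _, m0⟩ := exists_minCfg h
  obtain ⟨_, _, _, _, _, m1, q0, q1, n1⟩ := key m0
  obtain ⟨_, _, _, _, _, m2, -, q2, n2⟩ := key m1
  obtain ⟨_, _, _, _, _, -, -, q3, n3⟩ := key m2
  exact no_chain hb q0 q1 q2 q3 n1 n2 n3

end Pool.Agent.Lib.MP_10bdcf_co.G
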