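import Pool.Agent.Lib.MP_10bdcf_co.XI1

/-!
Case I: safe operations inside a small side with at least four elements.
-/

namespace Pool.Agent.Lib.MP_10bdcf_co.G

open scoped Matroid
open Set

set_option linter.unusedSectionVars false

variable {E : Type} [Fintype E] {M N : Matroid E} {A I J : Set E} {x y a b c : E}

theorem xi5_one {X P Q : Set E} {u v : E} (h : Conn N) (hX : X ⊆ N.E) (hu : u ∈ X) (hv : v ∈ N.E)
    (hv' : v ∉ X) (hP : X ⊆ P) (hQ : N.E \ X ⊆ Q) : rk N N.E + 1 ≤ rk N P + rk N Q := by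
  have h1 := lam_add N X
  have h2 := rk_mono N hP
  have h3 := rk_mono N hQ
  have h4 : lam N X ≠ 0 := fun e => by
    rcases conn_iff.1 h X hX e with rfl | rfl
    exacts [hu, hv' hv]
  omega

theorem xi5_cover {P Q R : Set E} (h : R ⊆ P ∪ Q) : rk N R ≤ rk N P + rk N Q :=
  (rk_mono N h).trans (rk_union_le N P Q)

/-- A separator of the deletion inside `A`. -/
theorem xi5_sep {p : E} (h : Conn N) (hA : A ⊆ N.E) (hB : A ≠ N.E) (hl : lam N A ≤ 1)
    (h2 : 2 ≤ A.ncard) (hp : p ∈ A) (hr : rk N (N.E \ {p}) = rk N N.E)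
    (hn : ¬ Conn (N ＼ {p})) :
    ∃ X ⊆ A \ {p}, X.Nonempty ∧ rk N X + rk N (N.E \ insert p X) ≤ rk N N.E := by
  obtain ⟨q, hq, hqp⟩ := exists_ne_of_one_lt_ncard (s := A) (by omega) p
  have a0 := lam_add N A
  by_cases hc : p ∈ N.closure (A \ {p})
  swap
  · refine ⟨A \ {p}, Subset.rfl, ⟨q, hq, hqp⟩, ?_⟩
    have := rk_insert_of_notMem (hA hp) hc
    rw [insert_sdiff_singleton, insert_eq_of_mem hp] at this ⊢
    omega
  have key : ∀ X Y : Set E, X ⊆ N.E \ {p} → Y ⊆ N.E \ {p} → Disjoint X Y →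
      N.E \ {p} ⊆ X ∪ Y → rk N X + rk N Y ≤ rk N N.E → X.Nonempty → q ∈ Y →
      ∃ X ⊆ A \ {p}, X.Nonempty ∧ rk N X + rk N (N.E \ insert p X) ≤ rk N N.E := by
    intro X Y hX hY hd hu hs ⟨u, hu'⟩ hqY
    by_cases hXA : X ⊆ A
    · have := rk_mono N (show N.E \ insert p X ⊆ Y by grind)
      exact ⟨X, by grind, ⟨u, hu'⟩, by omega⟩
    obtain ⟨v, hv, hvA⟩ := not_subset.1 hXA
    refine ⟨Y ∩ A, by grind, ⟨q, hqY, hq⟩, ?_⟩
    have b1 := rk_submod' N (X := X) (Y := N.E \ A) (P := X \ A) (Q := N.E \ insert p (Y ∩ A))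
      (by grind) (by grind) (by grind)
    have b2 := rk_submod' N (X := Y) (Y := A \ {p}) (P := Y ∩ A) (Q := Y ∪ (A \ {p}))
      (by grind) (by grind) (by grind)
    have b3 := rk_insert_of_mem (N.closure_subset_closure
      (show A \ {p} ⊆ Y ∪ (A \ {p}) from subset_union_right) hc)
    have b4 := xi5_one h (X := X \ A) (P := X \ A) (Q := insert p (Y ∪ (A \ {p}))) (u := v) (v := p)
      (by grind) ⟨hv, hvA⟩ (hA hp) (by grind) Subset.rfl (by grind)
    have b5 := rk_mono N (show A \ {p} ⊆ A from sdiff_subset)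
    omega
  rw [conn_iff] at hn
  simp only [not_forall, not_or, Matroid.delete_ground] at hn
  obtain ⟨X, hX, x0, x1, x2⟩ := hn
  have a1 := cb_del hX
  have n1 : X.Nonempty := nonempty_iff_ne_empty.2 x1
  have n2 : ((N.E \ {p}) \ X).Nonempty := by
    rw [sdiff_nonempty]
    exact fun e => x2 (hX.antisymm e)
  by_cases hqX : q ∈ X
  · exact key ((N.E \ {p}) \ X) X sdiff_subset hX disjoint_sdiff_left (by grind) (by omega) n2 hqX
  · exact key X ((N.E \ {p}) \ X) hX sdiff_subset disjoint_sdiff_right (by grind) (by omega) n1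
      ⟨⟨hA hq, hqp⟩, hqX⟩

/-- An element of a side of a 2-separation whose deletion keeps connectivity. -/
theorem Conn.exists_del (h : Conn N) (hA : A ⊆ N.E) (hB : A ≠ N.E) (hl : lam N A ≤ 1)
    (h2 : 2 ≤ A.ncard) (hc : ∀ p ∈ A, ∀ q ∈ A, rk N (N.E \ {p, q}) = rk N N.E) :
    ∃ p ∈ A, Conn (N ＼ {p}) := by
  by_contra hn
  have h1 : ∀ p ∈ A, rk N (N.E \ {p}) = rk N N.E := fun p hp => by simpa using hc p hp p hp
  have sep := fun p hp => xi5_sep h hA hB hl h2 hp (h1 p hp) fun e => hn ⟨p, hp, e⟩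
  obtain ⟨v, hv, hvA⟩ := not_subset.1 fun e => hB (hA.antisymm e)
  have key : ∀ n : ℕ, ∀ p ∈ A, ∀ X ⊆ A \ {p}, X.Nonempty →
      rk N X + rk N (N.E \ insert p X) ≤ rk N N.E → X.ncard ≠ n := by
    intro n
    induction n using Nat.strong_induction_on with
    | _ n ih =>
    intro p hp X hX ⟨q, hq⟩ hs hn'
    have hqA : q ∈ A := (hX hq).1
    obtain ⟨X', hX', ⟨u, hu⟩, hs'⟩ := sep q hqA
    have c0 := hc p hp q hqA
    have c1 := rk_submod N X X'
    have c2 := rk_submod N (N.E \ insert p X) (N.E \ insert q X')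
    by_cases hpX : p ∈ X'
    · have c3 := xi5_one h (X := X ∪ X') (P := X ∪ X') (u := q) (v := v)
        (Q := (N.E \ insert p X) ∩ (N.E \ insert q X')) (by grind) (Or.inl hq) hv (by grind)
        Subset.rfl (by grind)
      have c4 := xi5_cover (N := N) (R := N.E \ {p, q}) (P := X ∩ X')
        (Q := (N.E \ insert p X) ∪ (N.E \ insert q X')) (by grind)
      omega
    have c3 := xi5_cover (N := N) (R := N.E \ {p}) (P := X ∪ X')
      (Q := (N.E \ insert p X) ∩ (N.E \ insert q X')) (by grind)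
    have c4 := h1 p hp
    rcases (X ∩ X').eq_empty_or_nonempty with e | e
    · have hd : ∀ z ∈ X, z ∉ X' := fun z z1 z2 => (e ▸ (⟨z1, z2⟩ : z ∈ X ∩ X') : z ∈ (∅ : Set E))
      have c5 := rk_submod' N (X := X) (Y := N.E \ insert q X') (P := X \ {q}) (Q := N.E \ X')
        (by grind) (by grind) (by grind)
      have c6 := xi5_one h (X := X') (P := X') (Q := N.E \ X') (u := u) (v := v) (by grind) hu hv
        (by grind) Subset.rfl Subset.rfl
      have c7 := xi5_cover (N := N) (R := N.E \ {p, q}) (P := X \ {q}) (Q := N.E \ insert p X)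
        (by grind)
      omega
    · have c5 := rk_mono N (show N.E \ insert q (X ∩ X') ⊆
        (N.E \ insert p X) ∪ (N.E \ insert q X') by grind)
      refine ih _ ?_ q hqA (X ∩ X') (by grind) e (by omega) rfl
      rw [← hn']
      exact ncard_lt_ncard ⟨inter_subset_left, fun s => (hX' (s hq).2).2 rfl⟩
  obtain ⟨p, hp⟩ := nonempty_of_ncard_ne_zero (s := A) (by omega)
  obtain ⟨X, x1, x2, x3⟩ := sep p hp
  exact key _ p hp X x1 x2 x3 rfl

theorem xi5_exists_con (h : Conn N) (hA : A ⊆ N.E) (hB : A ≠ N.E) (hl : lam N A ≤ 1)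
    (h2 : 2 ≤ A.ncard) (hc : ∀ p ∈ A, ∀ q ∈ A, rk N {p, q} = ({p, q} : Set E).ncard) :
    ∃ p ∈ A, Conn (N ／ {p}) := by
  obtain ⟨p, hp, e⟩ := Conn.exists_del (N := N✶) h.dual hA hB ((lam_dual hA).trans_le hl) h2
    fun p hp q hq => rk_coindep (by
      rw [Matroid.coindep_def, Matroid.dual_dual]; exact indep_iff_rk.2 (hc p hp q hq))
  exact ⟨p, hp, by simpa only [Matroid.dual_delete_dual] using e.dual⟩

theorem xi5_conn_of_contract (h : Conn (N ／ {x})) (hx : x ∈ N.E) (h1 : rk N {x} = 1)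
    (h2 : rk N (N.E \ {x}) = rk N N.E) : Conn N := by
  have hs : {x} ⊆ N.E := singleton_subset_iff.2 hx
  have a1 := rk_dual hs
  rw [ncard_singleton] at a1
  have := conn_of_delete (M := N✶) (e := x) (by simpa only [Matroid.dual_contract] using h.dual)
    (by omega) (rk_coindep (by
      rw [Matroid.coindep_def, Matroid.dual_dual]; exact indep_iff_rk.2 (by simpa using h1)))
  simpa only [Matroid.dual_dual] using this.dual

theorem xi5_mn_con {p : E} (hp : p ∉ J) : mn M I J ／ {p} = mn M (insert p I) J := by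
  rw [mn, ← Matroid.contract_delete_comm _ (disjoint_singleton_left.2 hp),
    Matroid.contract_contract, union_singleton]

theorem xi5_three (u v w : E) : ({u, v, w} : Set E).ncard ≤ 3 :=
  (ncard_insert_le _ _).trans (by have := ncard_insert_le v {w}; simp at this ⊢; omega)

theorem xi5_two (u v : E) : ({u, v} : Set E).ncard ≤ 3 :=
  (ncard_le_ncard (subset_insert u _)).trans (xi5_three u u v)

theorem xi5_ground (h : Cfg M x y A I J) : x ∈ M.E ∧ y ∈ M.E ∧ x ≠ y ∧
    ∃ v ∈ M.E, v ≠ x ∧ v ≠ y ∧ v ∉ A := by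
  obtain ⟨v, hv⟩ := nonempty_of_ncard_ne_zero (Nat.ne_zero_of_lt h.four)
  exact ⟨h.frame.op.sub_left h.hx, h.frame.op.sub_right h.hy,
    fun e => disjoint_left.1 h.frame.dis h.hx (e ▸ h.hy), v, by grind⟩

theorem xi5_fourth (h4 : 4 ≤ A.ncard) (a b c : E) : ∃ d ∈ A, d ≠ a ∧ d ≠ b ∧ d ≠ c := by
  obtain ⟨d, hd, hd'⟩ := exists_mem_notMem_of_ncard_lt_ncard (s := {a, b, c}) (t := A)
    (by have := xi5_three a b c; omega)
  exact ⟨d, hd, by simpa [not_or] using hd'⟩

/-- A triangle of `M / x` inside the small side. -/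
theorem MinCfg.safe_tri (hb : Big M) (h : MinCfg M x y A I J) (h4 : 4 ≤ A.ncard) (ha : a ∈ A)
    (hb' : b ∈ A) (hc : c ∈ A) (h1 : a ≠ b) (h2 : a ≠ c) (h3 : b ≠ c)
    (ht : rk M {x, a, b, c} ≤ 3) : ∃ d ∈ A, d ≠ a ∧ d ≠ b ∧ d ≠ c ∧ Safe M {c} {b, d} := by
  obtain ⟨d, hd, d1, d2, d3⟩ := xi5_fourth h4 a b c
  obtain ⟨hx, hy, hxy, -⟩ := xi5_ground h.1
  have hs := h.1.sub
  obtain ⟨r1, -, r2, -⟩ := h.1.ranks hb
  have ho : Op M (insert x {c}) (insert y {b, d}) :=
    hb.op (by grind) (by grind) (xi5_two _ _) (xi5_three _ _ _) (by grind)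
  have e1 := ho.lam_mn (X := A \ ({c} ∪ {b, d})) (by grind) (by grind)
  have e2 : A \ ({c} ∪ {b, d}) ∪ insert x {c} = insert x (A \ {d}) \ {b} := by grind
  have e3 : M.E \ (A \ ({c} ∪ {b, d}) ∪ insert y {b, d}) =
      insert c (insert x ((M.E \ {x, y}) \ A)) := by grind
  have e4 : rk M {x, a, c} = 3 := by
    rw [hb.rk_small (by grind) (xi5_three _ _ _), cb_three (by grind) (by grind) h2]
  have e5 : b ∈ M.closure (insert x (A \ {d}) \ {b}) := by
    refine M.closure_subset_closure (X := {x, a, c}) (by grind) ?_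
    rw [mem_closure_iff_rk (by grind), e4]
    have := rk_mono M (show (insert b {x, a, c} : Set E) ⊆ {x, a, b, c} by grind)
    have := rk_mono M (subset_insert b {x, a, c})
    omega
  have e6 := rk_insert_of_mem e5
  rw [insert_sdiff_singleton, insert_eq_of_mem (by grind), h.rk_erase hb hd] at e6
  have e7 := rk_insert_of_notMem (hs hc).1 (X := insert x ((M.E \ {x, y}) \ A))
    (by rw [M.closure_insert_eq_of_mem_closure r2]; exact h.notMem hb hc)
  rw [rk_insert_of_mem r2] at e7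
  rw [e2, e3, ncard_pair (by grind)] at e1
  obtain ⟨I', J', f, i1, i2, -⟩ := h.1.shift hb (I0 := {c}) (J0 := {b, d}) (by grind) (by grind) ho
    (by omega)
  exact ⟨d, hd, d1, d2, d3, I', J', f, by grind, by grind⟩

/-- No triangle of `M / x` inside the small side. -/
theorem MinCfg.safe_notri (hb : Big M) (h : MinCfg M x y A I J) (h4 : 4 ≤ A.ncard) (ha : a ∈ A)
    (ht : ∀ p ∈ A, ∀ q ∈ A, ∀ s ∈ A, p ≠ q → p ≠ s → q ≠ s → rk M {x, p, q, s} = 4) :
    ∃ b1 ∈ A, ∃ b2 ∈ A, ∃ c ∈ A, b1 ≠ a ∧ b2 ≠ a ∧ c ≠ a ∧ b1 ≠ b2 ∧ c ≠ b1 ∧ c ≠ b2 ∧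
      Safe M {b1, b2} {y, a} ∧ Conn (mn M {b1, b2} {y, a}) ∧ Safe M {b1, b2} {c} := by
  replace ht := PLift.up ht
  obtain ⟨hx, hy, hxy, v, hv, vx, vy, vA⟩ := xi5_ground h.1
  have hs := h.1.sub
  have l0 : lam (mn M {x} {y, a}) (A \ {a}) ≤ 1 := by
    have := cc_del_le (mn M {x} {y}) {a} A
    rw [mn, Matroid.delete_delete] at this
    exact this.trans h.1.sep
  have n1 := ncard_sdiff_singleton_add_one ha
  obtain ⟨b1, hb1, k1⟩ := xi5_exists_con (h.conn_del hb ha) (A := A \ {a})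
    (by rw [mn_ground]; grind) (fun e => by
      have : v ∈ A \ {a} := by rw [e, mn_ground]; grind
      exact vA this.1) l0 (by omega) (fun p hp q hq => by
      have e1 := rk_mn (M := M) (I := {x}) (J := {y, a}) (X := {p, q}) (by grind)
      rw [union_singleton, hb.rk_small (X := {x}) (by grind) (by simp),
        hb.rk_small (X := {x, p, q}) (by grind) (xi5_three _ _ _), ncard_singleton,
        ncard_insert_of_notMem (a := x) (by grind)] at e1
      omega)
  have l1 := (cc_con_le (mn M {x} {y, a}) {b1} (A \ {a})).trans l0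
  have n2 := ncard_sdiff_singleton_add_one hb1
  rw [xi5_mn_con (by grind)] at k1 l1
  obtain ⟨b2, hb2, k2⟩ := xi5_exists_con k1 (A := (A \ {a}) \ {b1})
    (by rw [mn_ground]; grind) (fun e => by
      have : v ∈ (A \ {a}) \ {b1} := by rw [e, mn_ground]; grind
      exact vA this.1.1) l1 (by omega) (fun p hp q hq => by
      have e1 := rk_mn (M := M) (I := {b1, x}) (J := {y, a}) (X := {p, q}) (by grind)
      rw [hb.rk_small (X := {b1, x}) (by grind) (xi5_two _ _), ncard_pair (by grind)] at e1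
      by_cases e : p = q
      · subst e
        rw [pair_eq_singleton] at e1 ⊢
        rw [singleton_union, hb.rk_small (X := {p, b1, x}) (by grind) (xi5_three _ _ _),
          cb_three (by grind) (by grind) (by grind)] at e1
        rw [ncard_singleton]
        omega
      · rw [show ({p, q} ∪ {b1, x} : Set E) = {x, b1, p, q} by grind,
          ht.down b1 hb1.1 p hp.1.1 q hq.1.1 (by grind) (by grind) e] at e1
        rw [ncard_pair e]
        omega)
  have l2 := (cc_con_le _ {b2} _).trans l1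
  rw [xi5_mn_con (by grind), show ({b2, b1, x} : Set E) = insert x {b1, b2} by grind] at k2 l2
  obtain ⟨c, hc, c1, c2, c3⟩ := xi5_fourth h4 a b1 b2
  have ho : ∀ z ∈ A, z ≠ b1 → z ≠ b2 → Op M (insert x {b1, b2}) (insert y {z}) :=
    fun z hz z1 z2 => hb.op (by grind) (by grind) (xi5_three _ _ _) (xi5_two _ _) (by grind)
  have hl : ∀ z ∈ A, z ≠ b1 → z ≠ b2 →
      lam (mn M (insert x {b1, b2}) (insert y {z})) (A \ ({b1, b2} ∪ {z})) + rk M M.E +
        (insert x {b1, b2} : Set E).ncard = rk M A + rk M (M.E \ (insert y (A \ {b1, b2}))) := by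
    intro z hz z1 z2
    rw [(ho z hz z1 z2).lam_mn (by grind) (by grind), ← h.rk_erase hb hz]
    congr 2 <;> grind
  have la : lam (mn M (insert x {b1, b2}) (insert y {a})) (A \ ({b1, b2} ∪ {a})) = 1 := by
    rw [show A \ ({b1, b2} ∪ {a}) = ((A \ {a}) \ {b1}) \ {b2} by grind]
    refine le_antisymm l2 (Nat.one_le_iff_ne_zero.2 fun e => ?_)
    rcases conn_iff.1 k2 _ (by rw [mn_ground]; grind) e with e' | e'
    · exact (e' ▸ (by grind : c ∈ ((A \ {a}) \ {b1}) \ {b2}) : c ∈ (∅ : Set E))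
    · have : v ∈ ((A \ {a}) \ {b1}) \ {b2} := by rw [e', mn_ground]; grind
      exact vA this.1.1.1
  have a1 : a ≠ b1 := fun e => hb1.2 e.symm
  have a2 : a ≠ b2 := fun e => hb2.1.2 e.symm
  have lc := (hl c hc c2 c3).trans (hl a ha a1 a2).symm
  obtain ⟨I1, J1, f1, i1, j1, -⟩ := h.1.shift hb (I0 := {b1, b2}) (J0 := {a}) (by grind) (by grind)
    (ho a ha a1 a2) la
  obtain ⟨I2, J2, f2, i2, j2, -⟩ := h.1.shift hb (I0 := {b1, b2}) (J0 := {c}) (by grind) (by grind)
    (ho c hc c2 c3) (by omega)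
  refine ⟨b1, hb1.1, b2, hb2.1.1, c, hc, a1.symm, a2.symm, c1, fun e => hb2.2 e.symm, c2, c3,
    ⟨I1, J1, f1, by grind, j1⟩, ?_, I2, J2, f2, by grind, by grind⟩
  have o := (ho a ha a1 a2).mono (subset_insert _ _) Subset.rfl
  have b12 : ({b1, b2} : Set E).ncard = 2 := ncard_pair fun e => hb2.2 e.symm
  refine xi5_conn_of_contract (x := x) (by rwa [xi5_mn_con (by grind)]) (by rw [mn_ground]; grind)
    ?_ ?_
  · have e1 := o.rk_mn (X := {x}) (by grind)
    rw [singleton_union, hb.rk_small (X := {x, b1, b2}) (by grind) (xi5_three _ _ _),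
      ncard_insert_of_notMem (a := x) (by grind)] at e1
    omega
  · have e1 := o.rk_mn (X := (mn M {b1, b2} {y, a}).E \ {x}) (by rw [mn_ground]; grind)
    have e2 := o.rank
    rw [show (mn M {b1, b2} {y, a}).E \ {x} ∪ {b1, b2} = M.E \ {x, y, a} by
      rw [mn_ground]; grind, hb.rk_compl (by grind) (xi5_three _ _ _)] at e1
    omega

end Pool.Agent.Lib.MP_10bdcf_co.G
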