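import Pool.Agent.Lib.MP_10bdcf_co.XI1
import Pool.Agent.Lib.MP_10bdcf_co.XG3
import Pool.Agent.Lib.MP_10bdcf_co.IIZ2

/-!
Valid operations: the rule for a third operation and the two base lemmas.
-/

namespace Pool.Agent.Lib.MP_10bdcf_co.G

open scoped Matroid
open Set

set_option linter.unusedSectionVars false

variable {E F : Type} [Fintype E] [Field F] {M : Matroid E} {T : Set E → Matrix E E R0}
  {x y : R0 →+* F} {U W : Sb F E} {φ ξ : Fm F E} {I J I' J' : Set E} {a a' b b' : E}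

/-- The form is valid and not diagonal on the contraction of `a`. -/
def VP (φ : Fm F E) (U W : Sb F E) (a : E) : Prop :=
  Val φ U (van W {a}) ∧ ¬ Gauge φ U (van W {a})

/-- The form is valid and not diagonal on the deletion of `b`. -/
def VM (φ : Fm F E) (U W : Sb F E) (b : E) : Prop :=
  Val φ (van U {b}) W ∧ ¬ Gauge φ (van U {b}) W

theorem vp_flip : VP φ.flip W U a ↔ VM φ U W a :=
  and_congr II.val_flip (not_congr II.gauge_flip)

theorem vm_flip : VM φ.flip W U a ↔ VP φ U W a :=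
  and_congr II.val_flip (not_congr II.gauge_flip)

theorem VP.both (h : VP φ U W a) (h' : Val φ (van U {a}) W) : Val φ U W ∧ ¬ Gauge φ U W :=
  ⟨val_of_both h' h.1, fun hg => h.2 (hg.mono le_rfl (van_le _ _))⟩

theorem IHm.nz_mn (ih : IHm M) (hT : U2 M T) (ho : Op M I J) (hne : (I ∪ J).Nonempty)
    (hc : Con3 (mn M I J)) : NZ (mn M I J) (mnT I J T) :=
  hc.nz (ih.hg ho hne) (hT.minor ho)

/-- A valid form on a 3-connected proper minor that is diagonal on a frame is diagonal. -/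
theorem IHm.gauge_mn (ih : IHm M) (h : Obj M T x y U W) (hne : (I ∪ J).Nonempty)
    (hc : Con3 (mn M I J)) (hf : Frame M I' J') (hI : I ⊆ I') (hJ : J ⊆ J')
    (hφ : Val φ (van U J) (van W I)) (hg : Gauge φ (van U J') (van W I')) :
    Gauge φ (van U J) (van W I) :=
  h.nz_minor (hf.op.mono hI hJ) (ih.nz_mn h.tab (hf.op.mono hI hJ) hne hc) hf hI hJ hφ hg

theorem IHm.exists_mn (ih : IHm M) (h : Obj M T x y U W) (ht : Tw x y) (hne : (I ∪ J).Nonempty)
    (hc : Con3 (mn M I J)) (hs : Safe M I J) :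
    ∃ φ, Val φ (van U J) (van W I) ∧ ¬ Gauge φ (van U J) (van W I) :=
  (ih.ih2 h ht).ex I J hs hne hc

theorem IHm.line_mn (ih : IHm M) (h : Obj M T x y U W) (ht : Tw x y) (hne : (I ∪ J).Nonempty)
    (hc : Con3 (mn M I J)) (hs : Safe M I J) (h1 : Val ξ (van U J) (van W I))
    (h2 : Val φ (van U J) (van W I)) (hn : ¬ Gauge ξ (van U J) (van W I)) :
    ∃ c : F, Gauge (φ - c • ξ) (van U J) (van W I) :=
  (h.minor hs.op).line ht (ih.nz_mn h.tab hs.op hne hc) ((hasR_minor_iff hs.op).2 hs) h1 h2 hn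

theorem Obj.ker_mn (h : Obj M T x y U W) (ht : Tw x y) (hs : Safe M I J) (hc : Conn (mn M I J))
    {γ : E → F} (h0 : Agr (gf γ) 0 (van U J) (van W I)) : ∀ e ∈ M.E \ (I ∪ J), γ e = 0 := by
  rw [← mn_ground]
  exact (h.minor hs.op).ker_tw ht hc (II.safe_hasSite h.tab hs) h0

theorem rule_plus (ih : IHm M) (hb : Big M) (h : Obj M T x y U W) (ht : Tw x y) (hne : a ≠ a')
    (hs : Safe M {a, a'} {b}) (c1 : Con3 (mn M {a} {b})) (c2 : Con3 (mn M {a'} {b}))
    (v1 : VP φ U W a) (v2 : VP φ U W a') : VM φ U W b := by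
  refine ⟨h.join ht ih hb hne hs c1 c2 v1.1 v2.1, fun hg => v1.2 ?_⟩
  obtain ⟨I, J, hf, hI, hJ⟩ := hs
  have := ih.gauge_mn h (I := {a}) (J := ∅) (by simp) (hb.con3_con' a) hf
    (singleton_subset_iff.2 (hI (by simp))) (empty_subset _) (by simpa using v1.1)
    (hg.mono (van_anti U hJ) (van_le _ _))
  simpa using this

theorem rule_minus (ih : IHm M) (hb : Big M) (h : Obj M T x y U W) (ht : Tw x y) (hne : b ≠ b')
    (hs : Safe M {a} {b, b'}) (c1 : Con3 (mn M {a} {b})) (c2 : Con3 (mn M {a} {b'}))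
    (v1 : VM φ U W b) (v2 : VM φ U W b') : VP φ U W a :=
  vm_flip.1 (rule_plus ih.dual hb.dual h.dual ht.symm hne hs.dual
    ((II.conK_mn_dual (hs.op.dis.mono_right (by simp))).2 c1)
    ((II.conK_mn_dual (hs.op.dis.mono_right (by simp))).2 c2) (vp_flip.2 v1) (vp_flip.2 v2))

theorem base_fix (ih : IHm M) (hb : Big M) (h : Obj M T x y U W) (ht : Tw x y) (hne : a ≠ a')
    (hs : Safe M {a, a'} {b}) (c1 : Con3 (mn M {a} {b})) (c2 : Con3 (mn M {a'} {b}))
    (hf : Fix U (van W {a, a'}) b) : ∃ φ, VP φ U W a ∧ VP φ U W a' := by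
  have _ := hne
  obtain ⟨φ, h1, h2, h3⟩ := h.base_fix ht ih hb hs c1 c2 hf
  exact ⟨φ, ⟨h1, fun hg => h3 (hg.mono (van_le _ _) (van_anti W (by simp)))⟩,
    h2, fun hg => h3 (hg.mono (van_le _ _) (van_anti W (by simp)))⟩

theorem base_two (ih : IHm M) (hb : Big M) (h : Obj M T x y U W) (ht : Tw x y) (hne : a ≠ a')
    (hne' : b ≠ b') (hs : Safe M {a, a'} {b, b'}) (c1 : Con3 (mn M {a} {b}))
    (c2 : Con3 (mn M {a'} {b})) (c3 : Con3 (mn M {a} {b'})) (c4 : Con3 (mn M {a'} {b'}))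
    (hc : Conn (mn M {a, a'} {b, b'})) : ∃ φ, VP φ U W a ∧ VP φ U W a' := by
  have _ := hne
  obtain ⟨φ, h1, h2, h3⟩ := h.base_two ht ih hb hne' hs c1 c2 c3 c4 hc
  exact ⟨φ, ⟨h1, fun hg => h3 (hg.mono (van_le _ _) (van_anti W (by simp)))⟩,
    h2, fun hg => h3 (hg.mono (van_le _ _) (van_anti W (by simp)))⟩

theorem base_two' (ih : IHm M) (hb : Big M) (h : Obj M T x y U W) (ht : Tw x y) (hne : a ≠ a')
    (hne' : b ≠ b') (hs : Safe M {a, a'} {b, b'}) (c1 : Con3 (mn M {a} {b}))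
    (c2 : Con3 (mn M {a'} {b})) (c3 : Con3 (mn M {a} {b'})) (c4 : Con3 (mn M {a'} {b'}))
    (hc : Conn (mn M {a, a'} {b, b'})) : ∃ φ, VM φ U W b ∧ VM φ U W b' := by
  have _ := hne'
  obtain ⟨φ, h1, h2, h3⟩ := h.base_two_dual ht ih hb hne hs c1 c2 c3 c4 hc
  exact ⟨φ, ⟨h1, fun hg => h3 (hg.mono (van_anti U (by simp)) (van_le _ _))⟩,
    h2, fun hg => h3 (hg.mono (van_anti U (by simp)) (van_le _ _))⟩

end Pool.Agent.Lib.MP_10bdcf_co.G
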