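import Pool.Agent.Lib.MP_10bdcf_co.XI4
import Pool.Agent.Lib.MP_10bdcf_co.XI5
import Pool.Agent.Lib.MP_10bdcf_co.XI6

/-!
Case I of the 4-connected step.
-/

namespace Pool.Agent.Lib.MP_10bdcf_co.G

open scoped Matroid
open Set

set_option linter.unusedSectionVars false

variable {E F : Type} [Fintype E] [Field F] {M : Matroid E} {T : Set E → Matrix E E R0}
  {x y : R0 →+* F} {U W : Sb F E} {φ φ' : Fm F E} {A I J : Set E} {p q a b c : E}

theorem xi7_mem (hm : MinCfg M p q A I J) (ha : a ∈ A) : a ∈ M.E ∧ a ≠ p ∧ a ≠ q := by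
  have := hm.1.sub ha
  simpa [not_or] using this

theorem xi7_safe (hb : Big M) (hm : MinCfg M p q A I J) (ha : a ∈ A) (hd : b ∈ A) (hne : a ≠ b) :
    Safe M {p, a} {q, b} := by
  obtain ⟨I', J', hf, h1, h2, h3, h4, -⟩ := hm.shift_both hb ha hd hne
  exact ⟨I', J', hf, insert_subset h1 (singleton_subset_iff.2 h2),
    insert_subset h3 (singleton_subset_iff.2 h4)⟩

theorem xi7_safe_one (hb : Big M) (hm : MinCfg M p q A I J) (ha : a ∈ A) : Safe M {p} {a} := by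
  obtain ⟨I', J', hf, h1, -, h3, -⟩ := hm.shift_del hb ha
  exact ⟨I', J', hf, singleton_subset_iff.2 h1, singleton_subset_iff.2 h3⟩

theorem xi7_rk3 (hb : Big M) {u v w : E} (hu : u ∈ M.E) (hv : v ∈ M.E) (hw : w ∈ M.E)
    (h1 : u ≠ v) (h2 : u ≠ w) (h3 : v ≠ w) : rk M {u, v, w} = 3 := by
  have h : ({u, v, w} : Set E).ncard = 3 := ncard_eq_three.2 ⟨u, v, w, h1, h2, h3, rfl⟩
  rw [hb.rk_small (insert_subset hu (insert_subset hv (singleton_subset_iff.2 hw))) h.le, h]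

theorem xi7_fix (hb : Big M) (h : Pair M U W) (hp : p ∈ M.E) (ha : a ∈ M.E) (hb' : b ∈ M.E)
    (hc : c ∈ M.E) (h1 : a ≠ b) (h2 : a ≠ c) (h3 : b ≠ c) (h4 : a ≠ p) (h5 : b ≠ p) (h6 : c ≠ p)
    (hr : rk M {p, a, b, c} ≤ 3) : Fix U (van W {p, a}) b := by
  have c2 : ({p, a} : Set E).ncard = 2 := ncard_pair h4.symm
  have r2 : rk M {p, a} = 2 := by
    rw [hb.rk_small (insert_subset hp (singleton_subset_iff.2 ha)) (by omega), c2]
  have hI : M.Indep {p, a} := indep_iff_rk.2 (by rw [r2, c2])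
  have rb := rk_contract M {p, a} {b}
  have rc := rk_contract M {p, a} {c}
  have rbc := rk_contract M {p, a} {b, c}
  rw [singleton_union, xi7_rk3 hb hb' hp ha h5 h1.symm h4.symm] at rb
  rw [singleton_union, xi7_rk3 hb hc hp ha h6 h2.symm h4.symm] at rc
  have e1 : ({b, c} ∪ {p, a} : Set E) = {p, a, b, c} := by
    ext z; simp only [mem_union, mem_insert_iff, mem_singleton_iff]; tauto
  rw [e1] at rbc
  have m1 : rk (M ／ {p, a}) {c} ≤ rk (M ／ {p, a}) {b, c} := rk_mono _ (subset_insert _ _)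
  have hbE : b ∈ (M ／ {p, a}).E := by
    simp [hb', h5, h1.symm]
  have hcE : c ∈ (M ／ {p, a}).E := by
    simp [hc, h6, h2.symm]
  refine (h.contract hI).fix_of_parallel hcE h3 ((mem_closure_iff_rk hbE).2 (by omega)) (by omega)

/-- A base from four dependent elements. -/
theorem MinCfg.base_tri (ih : IHm M) (hb : Big M) (h : Obj M T x y U W) (ht : Tw x y)
    (hm : MinCfg M p q A I J) (hg : ∀ a ∈ A, ∀ a' ∈ A, a ≠ a' → Con3 (mn M {a} {a'}))
    (ha : a ∈ A) (hb' : b ∈ A) (hc : c ∈ A) (h1 : a ≠ b) (h2 : a ≠ c) (h3 : b ≠ c)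
    (hr : rk M {p, a, b, c} ≤ 3) :
    ∃ φ, VP φ U W p ∧ VP φ U W a ∧ ∀ d ∈ A, d ≠ a → VM φ U W d := by
  have ma := xi7_mem hm ha
  have mb := xi7_mem hm hb'
  have mc := xi7_mem hm hc
  have hs : ∀ d ∈ A, d ≠ a → Safe M {p, a} {d} := fun d hd hne =>
    (xi7_safe hb hm ha hd hne.symm).mono subset_rfl (subset_insert _ _)
  obtain ⟨φ, v1, v2⟩ := base_fix ih hb h ht ma.2.1.symm (hs b hb' h1.symm) (hm.con3_left hb hb')
    (hg a ha b hb' h1) (xi7_fix hb h.pair hm.1.xE ma.1 mb.1 mc.1 h1 h2 h3 ma.2.1 mb.2.1 mc.2.1 hr)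
  exact ⟨φ, v1, v2, fun d hd hne => rule_plus ih hb h ht ma.2.1.symm (hs d hd hne)
    (hm.con3_left hb hd) (hg a ha d hd hne.symm) v1 v2⟩

theorem MinCfg.ex_four (ih : IHm M) (hb : Big M) (h : Obj M T x y U W) (ht : Tw x y)
    (hm : MinCfg M p q A I J) (hg : ∀ a ∈ A, ∀ a' ∈ A, a ≠ a' → Con3 (mn M {a} {a'}))
    (h4 : 4 ≤ A.ncard) : ∃ φ, Val φ U W ∧ ¬ Gauge φ U W := by
  by_cases hx : ∃ a ∈ A, ∃ b ∈ A, ∃ c ∈ A, a ≠ b ∧ a ≠ c ∧ b ≠ c ∧ rk M {p, a, b, c} ≤ 3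
  · obtain ⟨a, ha, b, hb', c, hc, h1, h2, h3, hr⟩ := hx
    obtain ⟨φ, -, -, v⟩ := hm.base_tri ih hb h ht hg ha hb' hc h1 h2 h3 hr
    obtain ⟨d, hd, d1, d2, d3, hs⟩ := hm.safe_tri hb h4 ha hb' hc h1 h2 h3 hr
    exact ⟨φ, (rule_minus ih hb h ht d2.symm hs (hg c hc b hb' h3.symm) (hg c hc d hd d3.symm)
      (v b hb' h1.symm) (v d hd d1)).both (v c hc h2.symm).1⟩
  · have hn : ∀ a ∈ A, ∀ b ∈ A, ∀ c ∈ A, a ≠ b → a ≠ c → b ≠ c → rk M {p, a, b, c} = 4 := by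
      intro a ha b hb' c hc h1 h2 h3
      have e1 := (rk_le_ncard M {p, a, b, c}).trans (xi4_four p a b c)
      by_contra e2
      exact hx ⟨a, ha, b, hb', c, hc, h1, h2, h3, by omega⟩
    obtain ⟨a, ha⟩ : A.Nonempty := nonempty_of_ncard_ne_zero (by omega)
    obtain ⟨b1, m1, b2, m2, c, mc, n1, n2, n3, n4, n5, n6, s1, k1, s2⟩ :=
      hm.safe_notri hb h4 ha hn
    have hq : q ≠ a := (xi7_mem hm ha).2.2.symm
    obtain ⟨φ, v1, v2⟩ := base_two' ih hb h ht n4 hq s1 (hm.con3_right hb m1)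
      (hm.con3_right hb m2) (hg b1 m1 a ha n1) (hg b2 m2 a ha n2) k1
    have v : ∀ d ∈ A, d ≠ a → VP φ U W d := fun d hd hne =>
      rule_minus ih hb h ht hq ((xi7_safe hb hm hd ha hne).mono (subset_insert _ _) subset_rfl)
        (hm.con3_right hb hd) (hg d hd a ha hne) v1 v2
    exact ⟨φ, (v c mc n3).both (rule_plus ih hb h ht n4 s2 (hg b1 m1 c mc n5.symm)
      (hg b2 m2 c mc n6.symm) (v b1 m1 n1) (v b2 m2 n2)).1⟩

/-- Two forms that agree on the contraction of `p` and are valid on the deletion of `c`. -/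
theorem diff_two (ih : IHm M) (hb : Big M) (h : Obj M T x y U W) (ht : Tw x y)
    (hs : Safe M {p} {c}) (hc : Con3 (mn M {p} {c})) (v1 : Val φ (van U {c}) W)
    (v2 : Val φ' (van U {c}) W) (ha : Agr φ φ' U (van W {p})) :
    ∃ s t : F, ∀ u ∈ U, ∀ w ∈ W, φ u w = φ' u w + (s * u p + t * u c) * w p := by
  obtain ⟨l, hl⟩ := ker_con ha
  have hl' : ∀ u ∈ U, ∀ w ∈ W, φ u w = φ' u w + l u * w p := fun u hu w hw => hl u hu w hw
  have h0 : Agr (φ - φ') 0 U (van W {p}) := agr_iff_sub.1 ha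
  obtain ⟨γ, hγ⟩ : Gauge (φ - φ') (van U {c}) W := by
    obtain ⟨I', J', hf, h1, h2⟩ := hs
    have e := ih.gauge_mn (I := ∅) (J := {c}) (φ := φ - φ') h (by simp)
      (by rw [mn_empty_left]; exact hb.con3_del c) hf (empty_subset _) h2
      (by rw [van_empty]; exact v1.sub v2)
      ⟨0, by rw [gf_zero]; exact h0.mono (van_le _ _) (van_anti _ h1)⟩
    rwa [van_empty] at e
  have hk := h.ker_mn ht hs (hc.mono (by norm_num)) (γ := γ)
    ((hγ.mono le_rfl (van_le _ _)).symm.trans (h0.mono (van_le _ _) le_rfl))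
  obtain ⟨w0, hw0, e0⟩ := h.pair.coc.ext {p} hs.op.ind (fun _ => 1)
  have e1 : w0 p = 1 := e0 p rfl
  have key : ∀ u ∈ van U {c}, l u = γ p * u p := by
    intro u hu
    have e2 := hγ u hu w0 hw0
    have e3 := hl' u hu.1 w0 hw0
    rw [LinearMap.sub_apply, LinearMap.sub_apply, gf_apply, Finset.sum_eq_single p] at e2
    · rw [e1] at e2 e3
      linear_combination e2 - e3
    · intro e _ hne
      by_cases h1 : e = c
      · rw [h1, (mem_van_one.1 hu).2]; ring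
      by_cases h2 : e ∈ M.E
      · rw [hk e ⟨h2, by simp [hne, h1]⟩]; ring
      · rcases h.out e h2 with h3 | h3
        · rw [h3 u hu.1]; ring
        · rw [h3 w0 hw0]; ring
    · simp
  rcases zb_cases U c with h1 | ⟨u0, hu0, h1⟩
  · refine ⟨γ p, 0, fun u hu w hw => ?_⟩
    rw [hl' u hu w hw, key u (mem_van_one.2 ⟨hu, h1 u hu⟩)]; ring
  · refine ⟨γ p, l u0 - γ p * u0 p, fun u hu w hw => ?_⟩
    have e2 := key _ (zb_sub_mem hu hu0 h1)
    simp only [map_sub, map_smul, smul_eq_mul, Pi.sub_apply, Pi.smul_apply] at e2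
    rw [hl' u hu w hw]
    linear_combination w p * e2

theorem xi7_norm (ih : IHm M) (hb : Big M) (h : Obj M T x y U W) (ht : Tw x y)
    (hs : Safe M {p} ∅) (v1 : VP φ U W p) (v2 : VP φ' U W p) :
    ∃ ψ, Agr φ ψ U (van W {p}) ∧ ∀ d, Val φ' (van U {d}) W → Val ψ (van U {d}) W := by
  obtain ⟨k, γ, hγ⟩ := ih.line_mn (I := {p}) (J := ∅) (ξ := φ') (φ := φ) h ht (by simp)
    (by rw [mn_empty_right]; exact hb.con3_con p) hs (by rw [van_empty]; exact v2.1)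
    (by rw [van_empty]; exact v1.1) (by rw [van_empty]; exact v2.2)
  rw [van_empty] at hγ
  refine ⟨k • φ' + gf γ, fun u hu w hw => ?_, fun d hd => (hd.smul k).add (val_gf _ _ _)⟩
  have e := hγ u hu w hw
  simp only [LinearMap.sub_apply, LinearMap.add_apply, LinearMap.smul_apply, smul_eq_mul] at e ⊢
  linear_combination e

theorem MinCfg.ex_three (ih : IHm M) (hb : Big M) (h : Obj M T x y U W) (ht : Tw x y)
    (hm : MinCfg M p q A I J) (hg : ∀ a ∈ A, ∀ a' ∈ A, a ≠ a' → Con3 (mn M {a} {a'}))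
    (h3 : A.ncard = 3) : ∃ φ, Val φ U W ∧ ¬ Gauge φ U W := by
  classical
  have hq := hm.1.quad hb h3
  have hr : ∀ a ∈ A, ∀ b ∈ A, ∀ c ∈ A, rk M {p, a, b, c} ≤ 3 := by
    intro a ha b hb' c hc
    have e1 := isCircuit_rk hq.circ
    rw [ncard_insert_of_notMem hq.hx, h3] at e1
    have e2 : rk M {p, a, b, c} ≤ rk M (insert p A) := rk_mono _ (insert_subset_insert
      (insert_subset ha (insert_subset hb' (singleton_subset_iff.2 hc))))
    omega
  obtain ⟨a, b, c, n1, n2, n3, hA⟩ := ncard_eq_three.1 h3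
  have ha : a ∈ A := by simp [hA]
  have hb' : b ∈ A := by simp [hA]
  have hc : c ∈ A := by simp [hA]
  obtain ⟨φ1, p1, q1, v1⟩ := hm.base_tri ih hb h ht hg ha hb' hc n1 n2 n3 (hr a ha b hb' c hc)
  obtain ⟨φ2, p2, -, v2⟩ :=
    hm.base_tri ih hb h ht hg hb' ha hc n1.symm n3 n2 (hr b hb' a ha c hc)
  obtain ⟨φ3, p3, -, v3⟩ :=
    hm.base_tri ih hb h ht hg hc ha hb' n2.symm n3.symm n1 (hr c hc a ha b hb')
  have s0 : Safe M {p} ∅ := (xi7_safe_one hb hm ha).mono subset_rfl (empty_subset _)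
  obtain ⟨ψ2, a2, w2⟩ := xi7_norm ih hb h ht s0 p1 p2
  obtain ⟨ψ3, a3, w3⟩ := xi7_norm ih hb h ht s0 p1 p3
  have x2 := w2 a (v2 a ha n1).1
  obtain ⟨s, t, d1⟩ := diff_two ih hb h ht (xi7_safe_one hb hm hc) (hm.con3_left hb hc)
    (v1 c hc n2.symm).1 (w2 c (v2 c hc n3.symm).1) a2
  obtain ⟨s', t', d2⟩ := diff_two ih hb h ht (xi7_safe_one hb hm ha) (hm.con3_left hb ha)
    x2 (w3 a (v3 a ha n2).1) (a2.symm.trans a3)
  obtain ⟨s'', t'', d3⟩ := diff_two ih hb h ht (xi7_safe_one hb hm hb') (hm.con3_left hb hb')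
    (v1 b hb' n1.symm).1 (w3 b (v3 b hb' n3).1) a3
  obtain ⟨w0, hw0, e0⟩ := h.pair.coc.ext {p} s0.op.ind (fun _ => 1)
  have e1 : w0 p = 1 := e0 p rfl
  obtain ⟨u0, hu0, e2⟩ := h.pair.cyc.ext (insert p A) (hq.coindep hb)
    (fun z => if z = c then 1 else 0)
  have up : u0 p = 0 := by
    rw [e2 p (mem_insert _ _), if_neg (xi7_mem hm hc).2.1.symm]
  have ua : u0 a = 0 := by rw [e2 a (mem_insert_of_mem _ ha), if_neg n2]
  have ub : u0 b = 0 := by rw [e2 b (mem_insert_of_mem _ hb'), if_neg n3]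
  have uc : u0 c = 1 := by rw [e2 c (mem_insert_of_mem _ hc), if_pos rfl]
  have t0 : t = 0 := by
    have f1 := d1 u0 hu0 w0 hw0
    have f2 := d2 u0 hu0 w0 hw0
    have f3 := d3 u0 hu0 w0 hw0
    rw [up, uc, e1] at f1
    rw [up, ua, e1] at f2
    rw [up, ub, e1] at f3
    linear_combination f3 - f1 - f2
  refine ⟨φ1, q1.both fun u hu w hw hd => ?_⟩
  rw [d1 u hu.1 w hw, x2 u hu w hw hd, t0]
  rcases hd p with h0 | h0 <;> rw [h0] <;> ring

theorem four_caseI (ih : IHm M) (hb : Big M) (hs : Safe M {a} {b}) (hn : ¬ Con3 (mn M {a} {b})) :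
    Ex M T := by
  obtain ⟨I, J, hf, h1, h2⟩ := hs
  obtain ⟨A, hA⟩ := hf.exists_cfg hb (h1 rfl) (h2 rfl) hn
  obtain ⟨p, q, A', I', J', hm, hg⟩ := exists_good_cfg hb hA
  intro _ F _ x y U W ht h
  rcases (hm.1.three hb).eq_or_lt with h3 | h3
  · exact hm.ex_three ih hb h ht hg h3.symm
  · exact hm.ex_four ih hb h ht hg h3

end Pool.Agent.Lib.MP_10bdcf_co.G
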