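import Pool.Agent.Lib.MP_10bdcf_co.ZD
import Pool.Agent.Lib.MP_10bdcf_co.CA

/-!
Cycle and cocycle spaces of a matroid: basic facts, minors, circuits and cocircuits.
-/

namespace Pool.Agent.Lib.MP_10bdcf_co.G

open scoped Matroid
open Set

set_option linter.unusedSectionVars false

variable {E F : Type} [Fintype E] [Field F] {M : Matroid E} {U W : Sb F E} {φ ψ : Fm F E}
  {X I J : Set E} {e f : E} {u w : E → F}

theorem za_coi (ho : Op M I J) : (M ／ I).Coindep J := by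
  rw [Matroid.coindep_def, Matroid.dual_contract, Matroid.delete_indep_iff]
  exact ⟨ho.coi, ho.dis.symm⟩

theorem za_co (he : e ∈ M.E) (hX : e ∉ X) :
    e ∈ M.closure X ↔ e ∉ M✶.closure (M.E \ insert e X) := by
  have e1 : insert e (M.E \ insert e X) = M.E \ X := by
    ext x
    have : x = e → x ∈ M.E ∧ x ∉ X := fun h => h ▸ ⟨he, hX⟩
    simp only [mem_insert_iff, mem_sdiff]
    tauto
  have h1 := rk_dual (M := M) (X := M.E \ insert e X) sdiff_subset
  have h2 := rk_dual (M := M) (X := M.E \ X) sdiff_subset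
  have h3 : (M.E \ X).ncard = (M.E \ insert e X).ncard + 1 := by
    rw [← e1, ncard_insert_of_notMem (by simp)]
  have h4 := rk_insert_le M e X
  have h5 := rk_mono M (subset_insert e X)
  rw [sdiff_sdiff_right_self, inter_comm, rk_inter_ground] at h1 h2
  rw [mem_closure_iff_rk he, mem_closure_iff_rk (M := M✶) he, e1]
  omega

theorem za_circ {C : Set E} : M✶.IsCocircuit C ↔ M.IsCircuit C := by
  rw [Matroid.isCocircuit_def, Matroid.dual_dual]

theorem za_sup (h : Rep M W) (hne : e ≠ f) (hc : M.Indep {e, f}) :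
    van W {e} ⊔ van W {f} = W := by
  classical
  refine le_antisymm (sup_le (van_le _ _) (van_le _ _)) fun w hw => ?_
  obtain ⟨v, hv, h1⟩ := h.ext _ hc fun b => if b = e then 0 else w b
  refine Submodule.mem_sup.2 ⟨v, mem_van_one.2 ⟨hv, by simpa using h1 e (by simp)⟩, w - v,
    mem_van_one.2 ⟨W.sub_mem hw hv, ?_⟩, add_sub_cancel _ _⟩
  rw [Pi.sub_apply, h1 f (by simp), if_neg hne.symm, sub_self]

theorem Rep.eq_zero (h : Rep M W) (hw : w ∈ W) (hX : rk M X = rk M M.E) (h0 : ∀ z ∈ X, w z = 0) :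
    w = 0 := by
  have h1 : M.E ⊆ M.closure X :=
    subset_closure_of_rk Subset.rfl ((rk_le_rank M _).trans hX.ge)
  exact h.inj w hw fun e he => h.cl w hw X e h0 (h1 he)

theorem Rep.exists_one (h : Rep M W) (he : e ∈ M.E) (hX : e ∉ M.closure X) :
    ∃ w ∈ W, w e = 1 ∧ ∀ z ∈ X, z ∈ M.E → w z = 0 := by
  classical
  obtain ⟨K, hK⟩ := M.exists_isBasis' X
  rw [← hK.closure_eq_closure] at hX
  have heK : e ∉ K := fun h' => hX (M.subset_closure K hK.indep.subset_ground h')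
  obtain ⟨w, hw, h1⟩ := h.ext (insert e K) ((hK.indep.insert_indep_iff_of_notMem heK).2 ⟨he, hX⟩)
    fun b => if b = e then 1 else 0
  refine ⟨w, hw, by simpa using h1 e (mem_insert _ _), fun z hz hzE => h.cl w hw K z
    (fun b hb => ?_) ?_⟩
  · rw [h1 b (mem_insert_of_mem _ hb), if_neg fun h' : b = e => heK (h' ▸ hb)]
  · rw [hK.closure_eq_closure]
    exact M.inter_ground_subset_closure X ⟨hz, hzE⟩

theorem Rep.contract (h : Rep M W) (hI : I ⊆ M.E) : Rep (M ／ I) (van W I) := by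
  classical
  refine ⟨fun w hw X e h0 he => ?_, fun K hK c => ?_, fun w hw h0 => h.inj w hw.1 fun e he => ?_⟩
  · rw [Matroid.contract_closure_eq] at he
    exact h.cl w hw.1 (X ∪ I) e (fun z hz => hz.elim (h0 z) (hw.2 z)) he.1
  · obtain ⟨L, hL⟩ := M.exists_isBasis I hI
    have h1 := hL.contract_indep_iff.1 hK
    obtain ⟨w, hw, h2⟩ := h.ext _ h1.1 fun b => if b ∈ K then c b else 0
    refine ⟨w, ⟨hw, fun e he => h.cl w hw L e (fun b hb => ?_) (hL.subset_closure he)⟩,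
      fun b hb => ?_⟩
    · rw [h2 b (Or.inr hb), if_neg (disjoint_left.1 h1.2 (hL.subset hb))]
    · rw [h2 b (Or.inl hb), if_pos hb]
  · by_cases heI : e ∈ I
    · exact hw.2 e heI
    · exact h0 e ⟨he, heI⟩

theorem Rep.delete (h : Rep M W) (hJ : M.Coindep J) : Rep (M ＼ J) W := by
  refine ⟨fun w hw X e h0 he => ?_, fun K hK c => h.ext K (Matroid.delete_indep_iff.1 hK).1 c,
    fun w hw h0 => h.eq_zero hw (rk_coindep hJ) h0⟩
  rw [Matroid.delete_closure_eq] at he
  exact h.cl w hw (X \ J) e (fun z hz => h0 z hz.1) he.1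

theorem Pair.minor (h : Pair M U W) (ho : Op M I J) : Pair (mn M I J) (van U J) (van W I) := by
  refine ⟨?_, (h.coc.contract ho.sub_left).delete (za_coi ho), fun e he => ?_⟩
  · rw [mn_dual ho.dis]
    exact (h.cyc.contract ho.dual.sub_left).delete (za_coi ho.dual)
  · rw [mn_ground] at he
    by_cases h1 : e ∈ I
    · exact Or.inr fun w hw => hw.2 e h1
    by_cases h2 : e ∈ J
    · exact Or.inl fun u hu => hu.2 e h2
    exact (h.out e fun h3 => he ⟨h3, fun h4 => h4.elim h1 h2⟩).imp (fun h u hu => h u hu.1)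
      fun h w hw => h w hw.1

theorem Pair.delete (h : Pair M U W) (hJ : M.Coindep J) : Pair (M ＼ J) (van U J) W := by
  have := h.minor (I := ∅) ⟨M.empty_indep, hJ, empty_disjoint _⟩
  rwa [mn_empty_left, van_empty] at this

theorem Pair.contract (h : Pair M U W) (hI : M.Indep I) : Pair (M ／ I) U (van W I) := by
  have := h.minor (J := ∅) ⟨hI, M✶.empty_indep, disjoint_empty _⟩
  rwa [mn_empty_right, van_empty] at this

/-- A cycle through an element of the closure of `X`. -/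
theorem Rep.cyc_exists (h : Rep M✶ U) (he : e ∈ M.closure X) (hX : e ∉ X) :
    ∃ u ∈ U, u e = 1 ∧ ∀ z ∈ M.E, z ∉ X → z ≠ e → u z = 0 := by
  have heE := M.closure_subset_ground X he
  obtain ⟨u, hu, h1, h2⟩ := h.exists_one (e := e) heE ((za_co heE hX).1 he)
  exact ⟨u, hu, h1, fun z hz h3 h4 => h2 z ⟨hz, fun h5 => h5.elim h4 h3⟩ hz⟩

theorem Rep.cyc_mem (h : Rep M✶ U) (hu : u ∈ U) (he : e ∈ M.E) (h1 : u e ≠ 0)
    (h0 : ∀ z ∈ M.E, z ∉ X → z ≠ e → u z = 0) : e ∈ M.closure (X \ {e}) := by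
  refine (za_co he (by simp)).2 fun h2 => h1 (h.cl u hu _ e (fun z hz => ?_) h2)
  have h3 : z ≠ e := fun h' => hz.2 (Or.inl h')
  exact h0 z hz.1 (fun h' => hz.2 (Or.inr ⟨h', h3⟩)) h3

theorem Rep.cyc_indep (h : Rep M✶ U) (hu : u ∈ U) (hI : M.Indep I)
    (h0 : ∀ z ∈ M.E, z ∉ I → u z = 0) : u = 0 := by
  have h1 : M✶.Coindep I := by rwa [Matroid.coindep_def, Matroid.dual_dual]
  exact h.eq_zero hu (rk_coindep h1) fun z hz => h0 z hz.1 hz.2

/-- Two cocycles that vanish on a set of rank one less than the rank are proportional. -/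
theorem Rep.prop (h : Rep M W) (hX : X ⊆ M.E) (hr : rk M M.E ≤ rk M X + 1) {w w' : E → F}
    (hw : w ∈ W) (hw' : w' ∈ W) (h0 : ∀ z ∈ X, w z = 0) (h0' : ∀ z ∈ X, w' z = 0) (hne : w ≠ 0) :
    ∃ c : F, w' = c • w := by
  have _ := hX
  obtain ⟨e, he, h1⟩ : ∃ e ∈ M.E, w e ≠ 0 := by
    by_contra hc
    push Not at hc
    exact hne (h.inj w hw hc)
  have h2 := rk_insert_of_notMem he fun h' => h1 (h.cl w hw X e h0 h')
  have h3 := rk_le_rank M (insert e X)
  refine ⟨w' e / w e, sub_eq_zero.1 (h.eq_zero (X := insert e X)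
    (W.sub_mem hw' (W.smul_mem _ hw)) (by omega) ?_)⟩
  rintro z (rfl | hz)
  · simp [h1]
  · simp [h0 z hz, h0' z hz]

theorem Rep.exists_cocircuit {D : Set E} (h : Rep M W) (hD : M.IsCocircuit D) :
    ∃ w ∈ W, ∀ z ∈ M.E, (w z ≠ 0 ↔ z ∈ D) := by
  have hE : D ⊆ M.E := hD.subset_ground
  have h1 : ∀ z ∈ D, rk M (insert z (M.E \ D)) = rk M M.E := fun z hz => by
    have : M.Coindep (D \ {z}) := hD.isCircuit.sdiff_singleton_indep hz
    rw [← rk_coindep this]
    congr 1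
    ext x
    have : x = z → x ∈ M.E ∧ x ∈ D := fun h => h ▸ ⟨hE hz, hz⟩
    simp only [mem_insert_iff, mem_sdiff, mem_singleton_iff]
    tauto
  have h2 : rk M (M.E \ D) ≠ rk M M.E := fun h' =>
    hD.isCircuit.not_indep ((coindep_iff_rk hE).2 h')
  obtain ⟨e, he⟩ := hD.isCircuit.nonempty
  obtain ⟨w, hw, h3, h4⟩ := h.exists_one (X := M.E \ D) (hE he) fun h' =>
    h2 ((rk_insert_of_mem h').symm.trans (h1 e he))
  refine ⟨w, hw, fun z hz => ⟨fun h5 => by_contra fun h6 => h5 (h4 z ⟨hz, h6⟩ hz),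
    fun h5 h6 => ?_⟩⟩
  have h7 := h.eq_zero hw (h1 z h5) (by
    rintro x (rfl | hx)
    · exact h6
    · exact h4 x hx hx.1)
  simp [h7] at h3

theorem Rep.exists_circuit {C : Set E} (h : Rep M✶ U) (hC : M.IsCircuit C) :
    ∃ u ∈ U, ∀ z ∈ M.E, (u z ≠ 0 ↔ z ∈ C) := by
  exact h.exists_cocircuit (za_circ.2 hC)

/-- A cocycle is a sum of cocycles supported on cocircuits inside its support. -/
theorem Rep.induction (h : Rep M W) {p : (E → F) → Prop} (h0 : p 0)
    (hadd : ∀ a b, p a → p b → p (a + b)) (hw : w ∈ W)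
    (hc : ∀ d ∈ W, ∀ D, M.IsCocircuit D → (∀ z ∈ M.E, (d z ≠ 0 ↔ z ∈ D)) →
      (∀ z ∈ D, w z ≠ 0) → p d) : p w := by
  have key : ∀ n, ∀ v ∈ W, (∀ z ∈ M.E, v z ≠ 0 → w z ≠ 0) →
      {z | z ∈ M.E ∧ v z ≠ 0}.ncard = n → p v := by
    intro n
    induction n using Nat.strong_induction_on with
    | _ n ih =>
    intro v hv hvw hn
    by_cases hv0 : v = 0
    · exact hv0 ▸ h0
    have hE : {z | z ∈ M.E ∧ v z ≠ 0} ⊆ M.E := fun _ hz => hz.1
    have h1 : M✶.Dep {z | z ∈ M.E ∧ v z ≠ 0} := ⟨fun h' => hv0 (h.eq_zero hv (rk_coindep h')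
      fun z hz => by_contra fun h2 => hz.2 ⟨hz.1, h2⟩), hE⟩
    obtain ⟨D, hD, hD'⟩ := h1.exists_isCircuit_subset
    obtain ⟨d, hd, h2⟩ := h.exists_cocircuit (D := D) hD'
    obtain ⟨e, he⟩ := hD'.nonempty
    have h3 : d e ≠ 0 := (h2 e (hD he).1).2 he
    have h4 : v e / d e ≠ 0 := div_ne_zero (hD he).2 h3
    rw [← add_sub_cancel ((v e / d e) • d) v]
    have h5 : ∀ z ∈ M.E, (v - (v e / d e) • d) z ≠ 0 → v z ≠ 0 := fun z hz h5 h6 => by
      have : d z = 0 := by_contra fun h7 => (hD ((h2 z hz).1 h7)).2 h6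
      simp [h6, this] at h5
    refine hadd _ _ (hc _ (W.smul_mem _ hd) D hD' (fun z hz => ?_)
      fun z hz => hvw z (hD hz).1 (hD hz).2) (ih _ ?_ _ (W.sub_mem hv (W.smul_mem _ hd))
      (fun z hz h6 => hvw z hz (h5 z hz h6)) rfl)
    · rw [← h2 z hz, Pi.smul_apply, smul_eq_mul, mul_ne_zero_iff, and_iff_right h4]
    · rw [← hn]
      refine ncard_lt_ncard ⟨fun z hz => ⟨hz.1, h5 z hz.1 hz.2⟩, fun h6 => (h6 (hD he)).2 ?_⟩
      simp [h3]
  exact key _ w hw (fun _ _ h => h) rfl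

theorem Pair.dis (h : Pair M U W) (hu : u ∈ U) (hw : w ∈ W)
    (hd : ∀ z ∈ M.E, u z = 0 ∨ w z = 0) : Dis u w := by
  intro e
  by_cases he : e ∈ M.E
  · exact hd e he
  · exact (h.out e he).imp (fun h => h u hu) fun h => h w hw

theorem Pair.gf_eq (h : Pair M U W) {γ δ : E → F} (hγ : ∀ z ∈ M.E, γ z = δ z) :
    Agr (gf γ) (gf δ) U W := by
  intro u hu w hw
  rw [gf_apply, gf_apply]
  refine Finset.sum_congr rfl fun e _ => ?_
  by_cases he : e ∈ M.E
  · rw [hγ e he]
  · rcases h.out e he with h1 | h1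
    · simp [h1 u hu]
    · simp [h1 w hw]

theorem Pair.val_of_circuit (h : Pair M U W)
    (hc : ∀ C D, M.IsCircuit C → M.IsCocircuit D → Disjoint C D → ∀ u ∈ U, ∀ w ∈ W,
      (∀ z ∈ M.E, (u z ≠ 0 ↔ z ∈ C)) → (∀ z ∈ M.E, (w z ≠ 0 ↔ z ∈ D)) → φ u w = 0) :
    Val φ U W := by
  intro u hu w hw hd
  refine h.cyc.induction (p := fun a => φ a w = 0) (by simp) (fun a b ha hb => by simp [ha, hb]) hu
    fun c hc1 C hC h1 h2 => ?_
  refine h.coc.induction (p := fun b => φ c b = 0) (by simp) (fun a b ha hb => by simp [ha, hb]) hw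
    fun d hd1 D hD h3 h4 => ?_
  exact hc C D (za_circ.1 hC) hD (disjoint_left.2 fun z hz hz' => (hd z).elim (h2 z hz) (h4 z hz'))
    c hc1 d hd1 h1 h3

/-- Valid contractions `P` and valid deletions `Q` that cover every disjoint pair. -/
theorem Pair.val_cover (h : Pair M U W) {P Q : Set E} (hP : P ⊆ M.E) (hQ : Q ⊆ M.E)
    (h1 : ∀ x ∈ P, Val φ U (van W {x})) (h2 : ∀ y ∈ Q, Val φ (van U {y}) W)
    (hc : ∀ C D, M.IsCircuit C → M.IsCocircuit D → Disjoint C D → P ⊆ D → Q ⊆ C → False) :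
    Val φ U W := by
  refine h.val_of_circuit fun C D hC hD hd u hu w hw h3 h4 => ?_
  have h5 : Dis u w := h.dis hu hw fun z hz => by
    by_contra h'
    push Not at h'
    exact disjoint_left.1 hd ((h3 z hz).1 h'.1) ((h4 z hz).1 h'.2)
  by_cases h6 : P ⊆ D
  · obtain ⟨y, hy, h7⟩ := not_subset.1 (hc C D hC hD hd h6)
    exact h2 y hy u (mem_van_one.2 ⟨hu, by_contra fun h' => h7 ((h3 y (hQ hy)).1 h')⟩) w hw h5
  · obtain ⟨x, hx, h7⟩ := not_subset.1 h6
    exact h1 x hx u hu w (mem_van_one.2 ⟨hw, by_contra fun h' => h7 ((h4 x (hP hx)).1 h')⟩) h5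

theorem Pair.van_sup (h : Pair M U W) (hne : e ≠ f) (hc : M.Coindep {e, f}) :
    van U {e} ⊔ van U {f} = U := by
  exact za_sup h.cyc hne hc

theorem Pair.van_sup' (h : Pair M U W) (hne : e ≠ f) (hc : M.Indep {e, f}) :
    van W {e} ⊔ van W {f} = W := by
  exact za_sup h.coc hne hc

/-- When the move of `e` by the functional `l` is valid. -/
theorem Pair.val_move (h : Pair M U W) (he : e ∈ M.E) {l : Fn F E} :
    Val (pf (co e) l) U W ↔
      ∀ w ∈ W, e ∈ M.closure ({z | z ∈ M.E ∧ w z = 0} \ {e}) → l w = 0 := by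
  refine ⟨fun h1 w hw h2 => ?_, fun h1 u hu w hw hd => ?_⟩
  · obtain ⟨u, hu, h3, h4⟩ := h.cyc.cyc_exists h2 (by simp)
    have h5 : w e = 0 := h.coc.cl w hw _ e (fun z hz => hz.1.2) h2
    have h6 := h1 u hu w hw (h.dis hu hw fun z hz => by
      by_cases h6 : w z = 0
      · exact Or.inr h6
      · exact Or.inl (h4 z hz (fun h' => h6 h'.1.2) fun h' => h6 (h' ▸ h5)))
    simpa [pf_apply, h3] using h6
  · rw [pf_apply, co_apply]
    by_cases h2 : u e = 0
    · rw [h2, zero_mul]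
    · rw [h1 w hw (h.cyc.cyc_mem hu he h2 fun z hz h3 _ =>
        (hd z).resolve_right fun h' => h3 ⟨hz, h'⟩), mul_zero]

/-- Being fixed depends on the cocycles only. -/
theorem Pair.fix_iff {U' : Sb F E} (h : Pair M U W) (h' : Pair M U' W) (he : e ∈ M.E) :
    Fix U W e ↔ Fix U' W e := by
  simp only [Fix, h.val_move he, h'.val_move he]

/-- A functional that kills the cocycles vanishing on `X` is a combination of the coordinates of
a basis of `X`. -/
theorem Rep.span (h : Rep M W) (hI : M.IsBasis I X) {l : Fn F E}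
    (hl : ∀ w ∈ W, (∀ z ∈ X, w z = 0) → l w = 0) :
    ∃ c : E → F, (∀ z, z ∉ I → c z = 0) ∧ ∀ w ∈ W, l w = ∑ z, c z * w z := by
  classical
  choose v hv hv' using fun z : E => h.ext I hI.indep (Pi.single z 1)
  refine ⟨fun z => if z ∈ I then l (v z) else 0, fun z hz => if_neg hz, fun w hw => ?_⟩
  have h1 : w - ∑ z, (if z ∈ I then w z else 0) • v z ∈ W :=
    W.sub_mem hw (W.sum_mem fun z _ => W.smul_mem _ (hv z))
  have h2 := hl _ h1 fun z hz => h.cl _ h1 I z (fun b hb => by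
    simp only [Pi.sub_apply, Finset.sum_apply, Pi.smul_apply, hv' _ b hb, smul_eq_mul]
    simp [Pi.single_apply, hb]) (hI.subset_closure hz)
  rw [map_sub, sub_eq_zero, map_sum] at h2
  rw [h2]
  refine Finset.sum_congr rfl fun z _ => ?_
  by_cases hz : z ∈ I <;> simp [hz, mul_comm]

/-- An element in the closure of two sets with local connectivity one is fixed. -/
theorem Pair.fix_of_two (h : Pair M U W) {X Y : Set E} (hX : X ⊆ M.E) (hY : Y ⊆ M.E)
    (heX : e ∉ X) (heY : e ∉ Y) (h1 : e ∈ M.closure X) (h2 : e ∈ M.closure Y)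
    (hn : rk M {e} = 1) (hr : rk M X + rk M Y ≤ rk M (X ∪ Y) + 1) : Fix U W e := by
  classical
  intro l hl
  have heE := M.closure_subset_ground X h1
  have hi : M.Indep {e} := indep_iff_rk.2 (by rw [hn, ncard_singleton])
  rw [h.val_move heE] at hl
  have key : ∀ Z ⊆ M.E, e ∉ Z → e ∈ M.closure Z → ∀ K, M.IsBasis K (insert e Z) → ∀ w ∈ W,
      (∀ z ∈ K, w z = 0) → l w = 0 := fun Z hZ h3 h4 K hK w hw h5 =>
    hl w hw (M.closure_subset_closure (X := Z) (Y := {z | z ∈ M.E ∧ w z = 0} \ {e})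
      (fun z hz => ⟨⟨hZ hz, h.coc.cl w hw K z h5 (hK.subset_closure (mem_insert_of_mem _ hz))⟩,
        fun h' : z = e => h3 (h' ▸ hz)⟩) h4)
  obtain ⟨K, hK, hK'⟩ := hi.subset_isBasis_of_subset (X := insert e X) (by simp)
    (insert_subset heE hX)
  obtain ⟨L, hL, hL'⟩ := hi.subset_isBasis_of_subset (X := insert e Y) (by simp)
    (insert_subset heE hY)
  have a1 : rk M X = K.ncard := (rk_insert_of_mem h1).symm.trans (rk_basis hK)
  have a2 : rk M Y = L.ncard := (rk_insert_of_mem h2).symm.trans (rk_basis hL)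
  have a3 : rk M (X ∪ Y) ≤ rk M (K ∪ L) := by
    rw [← rk_closure M (K ∪ L)]
    exact rk_mono M (union_subset
      (((subset_insert _ _).trans hK.subset_closure).trans
        (M.closure_subset_closure subset_union_left))
      (((subset_insert _ _).trans hL.subset_closure).trans
        (M.closure_subset_closure subset_union_right)))
  have a4 := ncard_union_add_ncard_inter K L
  have a5 := rk_le_ncard M (K ∪ L)
  have a6 : ({e} : Set E).ncard ≤ (K ∩ L).ncard := ncard_le_ncard (subset_inter hK' hL')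
  have a7 : {e} = K ∩ L := eq_of_subset_of_ncard_le (subset_inter hK' hL') (by
    rw [ncard_singleton] at a6 ⊢; omega)
  rw [ncard_singleton] at a6
  have a8 : M.Indep (K ∪ L) := indep_iff_rk.2 (by omega)
  have main : ∀ w ∈ W, w e = 0 → l w = 0 := fun w hw h0 => by
    obtain ⟨v, hv, h3⟩ := h.coc.ext _ a8 fun b => if b ∈ K then 0 else w b
    have b1 := key X hX heX h1 K hK v hv fun z hz => by rw [h3 z (Or.inl hz), if_pos hz]
    have b2 := key Y hY heY h2 L hL (w - v) (W.sub_mem hw hv) fun z hz => by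
      rw [Pi.sub_apply, h3 z (Or.inr hz)]
      split_ifs with h4
      · have : z ∈ ({e} : Set E) := a7 ▸ ⟨h4, hz⟩
        rw [mem_singleton_iff.1 this, h0, sub_zero]
      · exact sub_self _
    rwa [map_sub, b1, sub_zero] at b2
  obtain ⟨v, hv, h3⟩ := h.coc.ext _ hi fun _ => 1
  refine ⟨l v, fun w hw => ?_⟩
  have := main (w - w e • v) (W.sub_mem hw (W.smul_mem _ hv)) (by simp [h3 e rfl])
  rwa [map_sub, map_smul, smul_eq_mul, sub_eq_zero, mul_comm] at this

theorem Pair.fix_of_parallel (h : Pair M U W) (hf : f ∈ M.E) (hne : e ≠ f)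
    (h1 : e ∈ M.closure {f}) (hn : rk M {e} = 1) : Fix U W e := by
  have := rk_singleton_le M f
  exact h.fix_of_two (singleton_subset_iff.2 hf) (singleton_subset_iff.2 hf) hne hne h1 h1 hn
    (by rw [union_self]; omega)

end Pool.Agent.Lib.MP_10bdcf_co.G
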