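import Pool.Agent.Lib.MP_10bdcf_co.ZA
import Pool.Agent.Lib.MP_10bdcf_co.ZB
import Pool.Agent.Lib.MP_10bdcf_co.UM

/-!
Objects: minors, duals, the kernel of the diagonal forms, and the forms of tangent vectors.
-/

namespace Pool.Agent.Lib.MP_10bdcf_co.G

open scoped Matroid
open Set

set_option linter.unusedSectionVars false

variable {E F : Type} [Fintype E] [Field F] {M : Matroid E} {T : Set E → Matrix E E R0}
  {x y : R0 →+* F} {U W : Sb F E} {φ ψ : Fm F E} {B I J : Set E} {b e f : E} {γ : E → F}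
  {v v' : F × F}

theorem U2.spec (hT : U2 M T) (x : R0 →+* F) : TabP (· ≠ 0) M (spec x T) :=
  hT.map x fun _ ha => ⟨ha.map_ne_zero x, ha.map_ne_zero x⟩

theorem Coc.rep {S : Set E → Matrix E E F} (hS : TabP (· ≠ 0) M S) (h : Coc M S W) : Rep M W := by
  refine ⟨fun w hw X e h0 he => ?_, fun I hI c => ?_, h.inj⟩
  · obtain ⟨I, hI⟩ := M.exists_isBasis' X
    obtain ⟨B, hB, hIB⟩ := hI.indep.exists_isBase_superset
    rw [h.row w hw B hB e (M.closure_subset_ground X he)]
    refine Finset.sum_eq_zero fun b _ => ?_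
    by_cases hb : b ∈ I
    · rw [h0 b (hI.subset hb), zero_mul]
    · refine mul_eq_zero_of_right _ ?_
      by_contra h1
      obtain ⟨hbB, h2⟩ := (hS.supp B hB b e).1 h1
      have h3 : e ∈ M.closure (B \ {b}) := M.closure_subset_closure
        (subset_sdiff_singleton hIB hb) (hI.closure_eq_closure ▸ he)
      by_cases h4 : e ∈ B \ {b}
      · exact h1 (hS.off hB h4.1 (Ne.symm h4.2))
      · exact (((hB.indep.subset sdiff_subset).insert_indep_iff_of_notMem h4).1 h2.indep).2 h3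
  · obtain ⟨B, hB, hIB⟩ := hI.exists_isBase_superset
    obtain ⟨w, hw, h1⟩ := h.ext B hB c
    exact ⟨w, hw, fun b hb => h1 b (hIB hb)⟩

theorem zc_sum (S : Set E → Matrix E E F) (u : E → F) (B : Set E) (he : e ∈ M.E) :
    ∑ b, u b * duT M S B b e = u e - ∑ b, S (M.E \ B) e b * u b := by
  classical
  simp only [duT, dualT, Matrix.of_apply, id, mul_sub, Finset.sum_sub_distrib]
  rw [Fintype.sum_eq_single e fun z hz => by simp [hz]]
  simp [he, mul_comm]

theorem zc_dual {S : Set E → Matrix E E F} (hS : TabP (· ≠ 0) M S) :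
    TabP (· ≠ 0) M✶ (duT M S) :=
  hS.dual (AddMonoidHom.id F) (fun a b => mul_comm a b) rfl (fun _ h => h) one_ne_zero
    fun _ h => neg_ne_zero.2 h

theorem zc_spec (x : R0 →+* F) : spec x (duT M T) = duT M (spec x T) := by
  classical
  funext B
  ext b e
  simp only [duT, dualT, Matrix.map_apply, Matrix.of_apply, id, map_sub]
  split_ifs <;> simp

theorem cyc_iff_coc {S : Set E → Matrix E E F} (hS : TabP (· ≠ 0) M S) :
    Cyc M S U ↔ Coc M✶ (duT M S) U := by
  refine ⟨fun h => ⟨fun u hu B hB e he => ?_, fun B hB c => ?_, h.inj⟩,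
    fun h => ⟨fun u hu B hB b => ?_, fun B hB c => h.ext _ hB.compl_isBase_dual c, h.inj⟩⟩
  · rw [zc_sum (M := M) S u B he, h.ker u hu _ hB.compl_isBase_of_dual, sub_zero]
  · have := h.ext _ hB.compl_isBase_of_dual c
    rwa [sdiff_sdiff_cancel_left (show B ⊆ M.E from hB.subset_ground)] at this
  · by_cases hb : b ∈ B
    · have := h.row u hu _ hB.compl_isBase_dual b (hB.subset_ground hb)
      rw [zc_sum S u _ (hB.subset_ground hb), sdiff_sdiff_cancel_left hB.subset_ground] at this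
      exact sub_eq_self.1 this.symm
    · exact Finset.sum_eq_zero fun z _ => by rw [hS.row hB hb, zero_mul]

theorem Obj.pair (h : Obj M T x y U W) : Pair M U W :=
  ⟨((cyc_iff_coc (h.tab.spec x)).1 h.cyc).rep (zc_dual (h.tab.spec x)),
    h.coc.rep (h.tab.spec y), h.out⟩

theorem Obj.dual (h : Obj M T x y U W) : Obj M✶ (duT M T) y x W U := by
  refine ⟨h.tab.dual, ?_, ?_, fun e he => (h.out e he).symm⟩
  · rw [zc_spec, cyc_iff_coc (zc_dual (h.tab.spec y)), Matroid.dual_dual]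
    refine ⟨fun w hw B hB e he => ?_, h.coc.ext, h.coc.inj⟩
    rw [show duT M✶ (duT M (spec y T)) B = spec y T B from
      dualT_dualT (spec y T) (AddMonoidHom.id F) rfl (fun _ => rfl) hB]
    exact h.coc.row w hw B hB e he
  · rw [zc_spec]
    exact (cyc_iff_coc (h.tab.spec x)).1 h.cyc

theorem Obj.minor (h : Obj M T x y U W) (ho : Op M I J) :
    Obj (mn M I J) (mnT I J T) x y (van U J) (van W I) := by
  classical
  have hp := h.pair.minor ho
  refine ⟨h.tab.minor ho, ⟨fun u hu B hB b => ?_,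
    fun B hB c => hp.cyc.ext _ hB.compl_isBase_dual.indep c, hp.cyc.inj⟩,
    ⟨fun w hw B hB e he => ?_, fun B hB c => hp.coc.ext _ hB.indep c, hp.coc.inj⟩, hp.out⟩
  · have h1 := (ho.isBase_iff.1 hB).1
    by_cases hb : b ∈ I
    · exact Finset.sum_eq_zero fun z _ => by simp [mnT, delT, conT, hb]
    · rw [← h.cyc.ker u hu.1 _ h1 b]
      refine Finset.sum_congr rfl fun z _ => ?_
      by_cases hz : z ∈ J
      · rw [hu.2 z hz, mul_zero, mul_zero]
      · by_cases hz' : z ∈ I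
        · simp [mnT, delT, conT, hz', h.tab.off h1 (Or.inr hz') fun e' : b = z => hb (e' ▸ hz')]
        · simp [mnT, delT, conT, hb, hz, hz']
  · have h1 := (ho.isBase_iff.1 hB).1
    rw [mn_ground] at he
    rw [h.coc.row w hw.1 _ h1 e he.1]
    refine Finset.sum_congr rfl fun z _ => ?_
    by_cases hz : z ∈ I
    · rw [hw.2 z hz, zero_mul, zero_mul]
    · simp [mnT, delT, conT, hz, show e ∉ I from fun h' => he.2 (Or.inl h'),
        show e ∉ J from fun h' => he.2 (Or.inr h')]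

theorem zc_exists {S : Set E → Matrix E E F} (hS : TabP (· ≠ 0) M S) :
    ∃ W : Sb F E, Coc M S W ∧ ∀ w ∈ W, ∀ e, e ∉ M.E → w e = 0 := by
  let W : Sb F E :=
    { carrier := {w | ∀ B, M.IsBase B → ∀ e, w e = ∑ b, w b * S B b e}
      add_mem' := fun {a b} ha hb B hB e => by
        simp only [Pi.add_apply, add_mul, Finset.sum_add_distrib, ← ha B hB e, ← hb B hB e]
      zero_mem' := fun B hB e => by simp
      smul_mem' := fun c a ha B hB e => by
        simp only [Pi.smul_apply, smul_eq_mul, mul_assoc, ← Finset.mul_sum, ← ha B hB e] }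
  have h0 : ∀ w ∈ W, ∀ e, e ∉ M.E → w e = 0 := fun w hw e he =>
    (hw _ (bs_isBase M) e).trans (Finset.sum_eq_zero fun b _ => by
      rw [hS.col (bs_isBase M) b he, mul_zero])
  refine ⟨W, ⟨fun w hw B hB e _ => hw B hB e, fun B hB c => ⟨fun e => ∑ b, c b * S B b e,
    fun B' hB' e => ?_, fun b hb => ?_⟩, fun w hw h1 => funext fun e => ?_⟩, h0⟩
  · simp only [Finset.sum_mul, mul_assoc]
    rw [Finset.sum_comm]
    exact Finset.sum_congr rfl fun z _ => by rw [hS.mul_apply hB' hB z e, Finset.mul_sum]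
  · beta_reduce
    rw [Fintype.sum_eq_single b fun z hz => by rw [hS.off hB hb hz, mul_zero], hS.diag B hB b hb,
      mul_one]
  · by_cases he : e ∈ M.E
    exacts [h1 e he, h0 w hw e he]

/-- Cycles and cocycles that vanish outside the ground set. -/
theorem U2.exists_obj (hT : U2 M T) (x y : R0 →+* F) : ∃ U W : Sb F E, Obj M T x y U W ∧
    (∀ u ∈ U, ∀ e, e ∉ M.E → u e = 0) ∧ ∀ w ∈ W, ∀ e, e ∉ M.E → w e = 0 := by
  obtain ⟨U, h1, h2⟩ := zc_exists (zc_dual (hT.spec x))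
  obtain ⟨W, h3, h4⟩ := zc_exists (hT.spec y)
  exact ⟨U, W, ⟨hT, (cyc_iff_coc (hT.spec x)).2 h1, h3, fun e he => Or.inl fun u hu => h2 u hu e he⟩,
    h2, h4⟩

theorem Obj.exists_left (h : Obj M T x y U W) (x' : R0 →+* F) : ∃ U', Obj M T x' y U' W := by
  obtain ⟨U', W', h1, h2, -⟩ := h.tab.exists_obj x' y
  exact ⟨U', h.tab, h1.cyc, h.coc, fun e he => Or.inl fun u hu => h2 u hu e he⟩

theorem Obj.exists_right (h : Obj M T x y U W) (y' : R0 →+* F) : ∃ W', Obj M T x y' U W' := by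
  obtain ⟨U', W', h1, -, h2⟩ := h.tab.exists_obj x y'
  exact ⟨W', h.tab, h.cyc, h1.coc, fun e he => Or.inr fun w hw => h2 w hw e he⟩

/-- The cocycle of a row of a tableau. -/
theorem Obj.exists_row (h : Obj M T x y U W) (hB : M.IsBase B) (b : E) :
    ∃ w ∈ W, ∀ e ∈ M.E, w e = y (T B b e) := by
  obtain ⟨w, hw, h1⟩ := h.coc.ext B hB fun e => y (T B b e)
  refine ⟨w, hw, fun e he => ?_⟩
  rw [h.coc.row w hw B hB e he, h.tab.mul_apply hB hB b e, map_sum]
  refine Finset.sum_congr rfl fun z _ => ?_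
  by_cases hz : z ∈ B
  · rw [h1 z hz, map_mul]
    rfl
  · simp [h.tab.row hB hz]

/-- The cycle of a column of a tableau. -/
theorem Obj.exists_col (h : Obj M T x y U W) (hB : M.IsBase B) (he : e ∈ M.E) (heB : e ∉ B) :
    ∃ u ∈ U, u e = 1 ∧ (∀ b ∈ B, u b = -x (T B b e)) ∧ ∀ z ∈ M.E, z ∉ B → z ≠ e → u z = 0 := by
  classical
  obtain ⟨u, hu, h1⟩ := h.cyc.ext B hB (Pi.single e 1)
  have h2 : u e = 1 := by rw [h1 e ⟨he, heB⟩, Pi.single_eq_same]
  have h3 : ∀ z ∈ M.E, z ∉ B → z ≠ e → u z = 0 := fun z hz hzB hze => by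
    rw [h1 z ⟨hz, hzB⟩, Pi.single_eq_of_ne hze]
  refine ⟨u, hu, h2, fun b hb => ?_, h3⟩
  have h4 := h.cyc.ker u hu B hB b
  rw [Finset.sum_eq_add_of_mem b e (Finset.mem_univ _) (Finset.mem_univ _)
    (fun e' => heB (e' ▸ hb)) fun z _ hz => ?_] at h4
  · rw [(h.tab.spec x).diag B hB b hb, one_mul, h2, mul_one] at h4
    exact eq_neg_of_add_eq_zero_left h4
  · by_cases hzB : z ∈ B
    · simp [h.tab.off hB hzB hz.1.symm]
    · by_cases hzE : z ∈ M.E
      · rw [h3 z hzE hzB hz.2, mul_zero]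
      · simp [h.tab.col hB b hzE]

theorem zc_span (h : Rep M W) (hB : M.IsBase B) {l : Fn F E}
    (hl : ∀ b ∈ B, ∀ w ∈ W, w b = 1 → (∀ z ∈ B, z ≠ b → w z = 0) → l w = 0) {w : E → F}
    (hw : w ∈ W) : l w = 0 := by
  classical
  choose r hr h1 using fun b => h.ext B hB.indep (Pi.single b 1)
  have h2 : w - ∑ b ∈ B.toFinset, w b • r b = 0 := by
    refine h.eq_zero (W.sub_mem hw (W.sum_mem fun b _ => W.smul_mem _ (hr b)))
      ((rk_indep hB.indep).trans (rk_base hB).symm) fun z hz => ?_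
    rw [Pi.sub_apply, Finset.sum_apply, Finset.sum_eq_single z
      (fun b _ hb => by rw [Pi.smul_apply, h1 b z hz, Pi.single_eq_of_ne hb.symm, smul_zero])
      (fun hz' => absurd (mem_toFinset.2 hz) hz'), Pi.smul_apply, h1 z z hz, Pi.single_eq_same,
      smul_eq_mul, mul_one, sub_self]
  rw [sub_eq_zero.1 h2, map_sum]
  refine Finset.sum_eq_zero fun b hb => ?_
  have hb' := mem_toFinset.1 hb
  rw [map_smul, hl b hb' _ (hr b) (by rw [h1 b b hb', Pi.single_eq_same])
    fun z hz hzb => by rw [h1 b z hz, Pi.single_eq_of_ne hzb], smul_zero]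

/-- Two forms agree if they agree on the columns and rows of one tableau. -/
theorem Obj.agr_of_base (h : Obj M T x y U W) (hB : M.IsBase B)
    (hφ : ∀ b ∈ B, ∀ e ∈ M.E, e ∉ B → ∀ u ∈ U, ∀ w ∈ W, u e = 1 →
      (∀ z ∈ M.E, z ∉ B → z ≠ e → u z = 0) → w b = 1 → (∀ z ∈ B, z ≠ b → w z = 0) →
      φ u w = ψ u w) : Agr φ ψ U W := by
  intro u hu w hw
  refine sub_eq_zero.1 (zc_span h.pair.cyc hB.compl_isBase_dual (l := (φ - ψ).flip w)
    (fun e he u hu h1 h2 => ?_) hu)
  exact zc_span h.pair.coc hB (l := (φ - ψ) u) (fun b hb w hw h3 h4 => sub_eq_zero.2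
    (hφ b hb e he.1 he.2 u hu w hw h1 (fun z hz hzB => h2 z ⟨hz, hzB⟩) h3 h4)) hw

end Pool.Agent.Lib.MP_10bdcf_co.G
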