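import Pool.Agent.Lib.MP_10bdcf_co.CR
import Pool.Agent.Lib.MP_10bdcf_co.UD

/-!
Bilinear forms on a cycle space and a cocycle space: valid forms, gauge forms, fixed elements.
-/

namespace Pool.Agent.Lib.MP_10bdcf_co.G

open scoped Matroid
open Set

set_option linter.unusedSectionVars false

/-- Subspaces of the coordinate space. -/
abbrev Sb (F E : Type) [Field F] : Type := Submodule F (E → F)

/-- Linear functionals on the coordinate space. -/
abbrev Fn (F E : Type) [Field F] : Type := (E → F) →ₗ[F] F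

/-- Bilinear forms on the coordinate space. -/
abbrev Fm (F E : Type) [Field F] : Type := (E → F) →ₗ[F] (E → F) →ₗ[F] F

variable {E F : Type} [Fintype E] [Field F]

/-- The vectors of `U` that vanish on `J`. -/
def van (U : Sb F E) (J : Set E) : Sb F E where
  carrier := {u | u ∈ U ∧ ∀ e ∈ J, u e = 0}
  add_mem' := fun ha hb => ⟨U.add_mem ha.1 hb.1, fun e he => by simp [ha.2 e he, hb.2 e he]⟩
  zero_mem' := ⟨U.zero_mem, fun _ _ => rfl⟩
  smul_mem' := fun c _ ha => ⟨U.smul_mem c ha.1, fun e he => by simp [ha.2 e he]⟩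

theorem mem_van {U : Sb F E} {J : Set E} {u : E → F} : u ∈ van U J ↔ u ∈ U ∧ ∀ e ∈ J, u e = 0 :=
  Iff.rfl

theorem mem_van_one {U : Sb F E} {e : E} {u : E → F} : u ∈ van U {e} ↔ u ∈ U ∧ u e = 0 := by
  simp [mem_van]

@[simp] theorem van_empty (U : Sb F E) : van U ∅ = U := by ext u; simp [mem_van]

theorem van_van (U : Sb F E) (J J' : Set E) : van (van U J) J' = van U (J ∪ J') := by
  ext u; simp [mem_van, or_imp, forall_and, and_assoc]

theorem van_le (U : Sb F E) (J : Set E) : van U J ≤ U := fun _ h => h.1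

theorem van_anti (U : Sb F E) {J J' : Set E} (h : J ⊆ J') : van U J' ≤ van U J :=
  fun _ hu => ⟨hu.1, fun e he => hu.2 e (h he)⟩

/-- Disjoint supports. -/
def Dis (u w : E → F) : Prop := ∀ e, u e = 0 ∨ w e = 0

/-- The form vanishes on pairs with disjoint supports. -/
def Val (φ : Fm F E) (U W : Sb F E) : Prop := ∀ u ∈ U, ∀ w ∈ W, Dis u w → φ u w = 0

/-- The forms agree on `U × W`. -/
def Agr (φ ψ : Fm F E) (U W : Sb F E) : Prop := ∀ u ∈ U, ∀ w ∈ W, φ u w = ψ u w

/-- The diagonal form with coefficients `γ`. -/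
def gf (γ : E → F) : Fm F E :=
  LinearMap.mk₂ F (fun u w => ∑ e, γ e * (u e * w e))
    (fun _ _ _ => by simp [add_mul, mul_add, Finset.sum_add_distrib])
    (fun c _ _ => by simp [Finset.mul_sum, mul_assoc, mul_left_comm c])
    (fun _ _ _ => by simp [mul_add, Finset.sum_add_distrib])
    (fun c _ _ => by simp [Finset.mul_sum, mul_left_comm c])

theorem gf_apply (γ u w : E → F) : gf γ u w = ∑ e, γ e * (u e * w e) := rfl

/-- The form is diagonal on `U × W`. -/
def Gauge (φ : Fm F E) (U W : Sb F E) : Prop := ∃ γ, Agr φ (gf γ) U W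

/-- The product of two functionals. -/
def pf (l m : Fn F E) : Fm F E := l.smulRight m

theorem pf_apply (l m : Fn F E) (u w : E → F) : pf l m u w = l u * m w := rfl

/-- The coordinate functional. -/
def co (e : E) : Fn F E := LinearMap.proj e

@[simp] theorem co_apply (e : E) (u : E → F) : co e u = u e := rfl

/-- The element `e` is fixed: it cannot be moved. `Fix W U e` says that `e` is cofixed. -/
def Fix (U W : Sb F E) (e : E) : Prop :=
  ∀ l : Fn F E, Val (pf (co e) l) U W → ∃ c, ∀ w ∈ W, l w = c * w e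

/-- `W` is a space of cocycles of `M`, possibly with more coordinates outside the ground set. -/
structure Rep (M : Matroid E) (W : Sb F E) : Prop where
  cl : ∀ w ∈ W, ∀ X e, (∀ z ∈ X, w z = 0) → e ∈ M.closure X → w e = 0
  ext : ∀ I, M.Indep I → ∀ c : E → F, ∃ w ∈ W, ∀ b ∈ I, w b = c b
  inj : ∀ w ∈ W, (∀ e ∈ M.E, w e = 0) → w = 0

/-- A space of cycles and a space of cocycles of `M`. -/
structure Pair (M : Matroid E) (U W : Sb F E) : Prop where
  cyc : Rep M✶ U
  coc : Rep M W
  out : ∀ e, e ∉ M.E → (∀ u ∈ U, u e = 0) ∨ ∀ w ∈ W, w e = 0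

/-- `W` is the row space of the system `S`, up to coordinates outside the ground set. -/
structure Coc (M : Matroid E) (S : Set E → Matrix E E F) (W : Sb F E) : Prop where
  row : ∀ w ∈ W, ∀ B, M.IsBase B → ∀ e ∈ M.E, w e = ∑ b, w b * S B b e
  ext : ∀ B, M.IsBase B → ∀ c : E → F, ∃ w ∈ W, ∀ b ∈ B, w b = c b
  inj : ∀ w ∈ W, (∀ e ∈ M.E, w e = 0) → w = 0

/-- `U` is the kernel of the system `S`, up to coordinates outside the ground set. -/
structure Cyc (M : Matroid E) (S : Set E → Matrix E E F) (U : Sb F E) : Prop where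
  ker : ∀ u ∈ U, ∀ B, M.IsBase B → ∀ b, ∑ e, S B b e * u e = 0
  ext : ∀ B, M.IsBase B → ∀ c : E → F, ∃ u ∈ U, ∀ e ∈ M.E \ B, u e = c e
  inj : ∀ u ∈ U, (∀ e ∈ M.E, u e = 0) → u = 0

/-- A matroid with a system over the partial field, cycles at the point `x` and cocycles at the
point `y`. -/
structure Obj (M : Matroid E) (T : Set E → Matrix E E R0) (x y : R0 →+* F) (U W : Sb F E) :
    Prop where
  tab : U2 M T
  cyc : Cyc M (spec x T) U
  coc : Coc M (spec y T) W
  out : ∀ e, e ∉ M.E → (∀ u ∈ U, u e = 0) ∨ ∀ w ∈ W, w e = 0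

/-- The system of a minor. -/
noncomputable def mnT {R : Type} [Ring R] (I J : Set E) (T : Set E → Matrix E E R) :
    Set E → Matrix E E R := delT J (conT I T)

/-- The system of the dual matroid. -/
noncomputable def duT {R : Type} [Ring R] (M : Matroid E) (T : Set E → Matrix E E R) :
    Set E → Matrix E E R := dualT id M T

/-- The form of a matrix. -/
def mf (A : Matrix E E F) : Fm F E :=
  LinearMap.mk₂ F (fun u w => ∑ b, ∑ e, w b * A b e * u e)
    (fun _ _ _ => by simp [mul_add, Finset.sum_add_distrib])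
    (fun c _ _ => by simp [Finset.mul_sum, mul_left_comm c])
    (fun _ _ _ => by simp [add_mul, Finset.sum_add_distrib])
    (fun c _ _ => by simp [Finset.mul_sum, mul_assoc])

theorem mf_apply (A : Matrix E E F) (u w : E → F) : mf A u w = ∑ b, ∑ e, w b * A b e * u e := rfl

/-- A chosen base. -/
noncomputable def bs (M : Matroid E) : Set E := M.exists_isBase.choose

theorem bs_isBase (M : Matroid E) : M.IsBase (bs M) := M.exists_isBase.choose_spec

/-- The form of the tangent vector `v` at the point `x`. -/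
noncomputable def dfm (M : Matroid E) (T : Set E → Matrix E E R0) (x : R0 →+* F) (v : F × F) :
    Fm F E := mf ((T (bs M)).map (der x v))

/-- A site: a full nonsingular block of the tableau of `B`, a minor `U_{2,4}`. -/
structure Site (M : Matroid E) (B : Set E) (g h e f : E) : Prop where
  base : M.IsBase B
  ge : Adj M B g e
  gf : Adj M B g f
  he : Adj M B h e
  hf : Adj M B h f
  ne : g ≠ h
  ns : Adj M (ex B g e) h f

/-- `m` is the cross ratio of a site. -/
def IsCr (M : Matroid E) (T : Set E → Matrix E E R0) (m : Mo) : Prop :=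
  ∃ B g h e f, Site M B g h e f ∧ T B h e * T B g f = mo m * (T B g e * T B h f)

/-- The matroid has a minor `U_{2,4}`. -/
def HasSite (M : Matroid E) : Prop := ∃ B g h e f, Site M B g h e f

variable {U W : Sb F E} {φ ψ χ : Fm F E}

theorem Val.mono (h : Val φ U W) {U' W' : Sb F E} (hU : U' ≤ U) (hW : W' ≤ W) : Val φ U' W' :=
  fun u hu w hw => h u (hU hu) w (hW hw)

theorem Agr.mono (h : Agr φ ψ U W) {U' W' : Sb F E} (hU : U' ≤ U) (hW : W' ≤ W) : Agr φ ψ U' W' :=
  fun u hu w hw => h u (hU hu) w (hW hw)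

theorem Gauge.mono (h : Gauge φ U W) {U' W' : Sb F E} (hU : U' ≤ U) (hW : W' ≤ W) :
    Gauge φ U' W' := h.imp fun _ h => h.mono hU hW

theorem Agr.refl (φ : Fm F E) (U W : Sb F E) : Agr φ φ U W := fun _ _ _ _ => rfl

theorem Agr.symm (h : Agr φ ψ U W) : Agr ψ φ U W := fun u hu w hw => (h u hu w hw).symm

theorem Agr.trans (h : Agr φ ψ U W) (h' : Agr ψ χ U W) : Agr φ χ U W :=
  fun u hu w hw => (h u hu w hw).trans (h' u hu w hw)

theorem Val.congr (h : Val φ U W) (h' : Agr ψ φ U W) : Val ψ U W :=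
  fun u hu w hw hd => (h' u hu w hw).trans (h u hu w hw hd)

theorem Gauge.congr (h : Gauge φ U W) (h' : Agr ψ φ U W) : Gauge ψ U W :=
  h.imp fun _ h => h'.trans h

theorem Val.add (h : Val φ U W) (h' : Val ψ U W) : Val (φ + ψ) U W :=
  fun u hu w hw hd => by simp [h u hu w hw hd, h' u hu w hw hd]

theorem Val.sub (h : Val φ U W) (h' : Val ψ U W) : Val (φ - ψ) U W :=
  fun u hu w hw hd => by simp [h u hu w hw hd, h' u hu w hw hd]

theorem Val.smul (h : Val φ U W) (c : F) : Val (c • φ) U W :=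
  fun u hu w hw hd => by simp [h u hu w hw hd]

theorem val_gf (γ : E → F) (U W : Sb F E) : Val (gf γ) U W := fun u _ w _ hd => by
  rw [gf_apply]
  exact Finset.sum_eq_zero fun e _ => by rcases hd e with h | h <;> simp [h]

theorem Gauge.val (h : Gauge φ U W) : Val φ U W := by
  obtain ⟨γ, hγ⟩ := h
  exact (val_gf γ U W).congr hγ

theorem gf_add (γ δ : E → F) : gf (γ + δ) = gf γ + gf δ := by
  ext u w; simp [gf_apply, add_mul, Finset.sum_add_distrib]

theorem gf_smul (c : F) (γ : E → F) : gf (c • γ) = c • gf γ := by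
  ext u w; simp [gf_apply, Finset.mul_sum, mul_assoc]

theorem gf_sub (γ δ : E → F) : gf (γ - δ) = gf γ - gf δ := by
  ext u w; simp [gf_apply, sub_mul]

@[simp] theorem gf_zero : gf (0 : E → F) = 0 := by
  ext u w; simp [gf_apply]

theorem gauge_gf (γ : E → F) (U W : Sb F E) : Gauge (gf γ) U W := ⟨γ, Agr.refl _ _ _⟩

theorem Gauge.add (h : Gauge φ U W) (h' : Gauge ψ U W) : Gauge (φ + ψ) U W := by
  obtain ⟨γ, hγ⟩ := h
  obtain ⟨δ, hδ⟩ := h'
  exact ⟨γ + δ, fun u hu w hw => by simp [gf_add, hγ u hu w hw, hδ u hu w hw]⟩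

theorem Gauge.smul (h : Gauge φ U W) (c : F) : Gauge (c • φ) U W := by
  obtain ⟨γ, hγ⟩ := h
  exact ⟨c • γ, fun u hu w hw => by simp [gf_smul, hγ u hu w hw]⟩

theorem Gauge.sub (h : Gauge φ U W) (h' : Gauge ψ U W) : Gauge (φ - ψ) U W := by
  obtain ⟨γ, hγ⟩ := h
  obtain ⟨δ, hδ⟩ := h'
  exact ⟨γ - δ, fun u hu w hw => by simp [gf_sub, hγ u hu w hw, hδ u hu w hw]⟩

theorem Dis.symm {u w : E → F} (h : Dis u w) : Dis w u := fun e => (h e).symm

theorem Val.flip (h : Val φ U W) : Val φ.flip W U := fun w hw u hu hd => h u hu w hw hd.symm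

theorem Agr.flip (h : Agr φ ψ U W) : Agr φ.flip ψ.flip W U := fun w hw u hu => h u hu w hw

theorem gf_flip (γ : E → F) : (gf γ).flip = gf γ := by
  ext u w; simp [gf_apply, mul_comm]

theorem Gauge.flip (h : Gauge φ U W) : Gauge φ.flip W U :=
  h.imp fun γ h => by simpa [gf_flip] using h.flip

theorem Pair.dual {M : Matroid E} (h : Pair M U W) : Pair M✶ W U :=
  ⟨by rw [Matroid.dual_dual]; exact h.coc, h.cyc, fun e he => (h.out e he).symm⟩

end Pool.Agent.Lib.MP_10bdcf_co.G
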