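import Pool.Agent.Lib.MP_10bdcf_co.ZD
import Pool.Agent.Lib.MP_10bdcf_co.UT

/-!
The statements that are proved by induction.
-/

namespace Pool.Agent.Lib.MP_10bdcf_co.G

open scoped Matroid
open Set

variable {E : Type} [Fintype E]

/-- The matroid has a minor `U_{2,5}` or `U_{3,5}`. -/
def HasR (M : Matroid E) : Prop := ∃ I J, Frame M I J

/-- Every valid form at a point is a tangent vector up to a diagonal form. -/
def Up (M : Matroid E) (T : Set E → Matrix E E R0) : Prop :=
  ∀ (F : Type) [Field F] (x : R0 →+* F) (U W : Sb F E), Obj M T x x U W →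
    ∀ φ, Val φ U W → ∃ v, Gauge (φ - dfm M T x v) U W

/-- Without a frame all cross ratios have the same type. -/
def OneT (M : Matroid E) (T : Set E → Matrix E E R0) : Prop :=
  ¬ HasR M → ∀ m n, IsCr M T m → IsCr M T n → ty m = ty n

/-- With a frame there is a valid twisted form that is not diagonal. -/
def Ex (M : Matroid E) (T : Set E → Matrix E E R0) : Prop :=
  HasR M → ∀ (F : Type) [Field F] (x y : R0 →+* F) (U W : Sb F E), Tw x y → Obj M T x y U W →
    ∃ φ, Val φ U W ∧ ¬ Gauge φ U W

/-- The statement of the induction for one system. -/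
structure GoodT (M : Matroid E) (T : Set E → Matrix E E R0) : Prop where
  up : Up M T
  one : OneT M T
  ex : Ex M T

/-- The statement of the induction. -/
def GoodM (M : Matroid E) : Prop := ∀ T, U2 M T → GoodT M T

/-- All 3-connected minors are good. -/
def HG (M : Matroid E) : Prop := ∀ I J, Op M I J → Con3 (mn M I J) → GoodM (mn M I J)

/-- All proper 3-connected minors are good. -/
def IHm (M : Matroid E) : Prop :=
  ∀ I J, Op M I J → (I ∪ J).Nonempty → Con3 (mn M I J) → GoodM (mn M I J)

/-- All 3-connected matroids of rank less than `r` are good. -/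
def IHr (r : ℕ) : Prop :=
  ∀ (E' : Type) [Fintype E'] (M' : Matroid E'), Con3 M' → rk M' M'.E < r → GoodM M'

/-- A valid form that is diagonal on a frame is diagonal. -/
def NZ (M : Matroid E) (T : Set E → Matrix E E R0) : Prop :=
  ∀ (F : Type) [Field F] (x y : R0 →+* F) (U W : Sb F E), Obj M T x y U W →
    ∀ φ, Val φ U W → ∀ I J, Frame M I J → Gauge φ (van U J) (van W I) → Gauge φ U W

/-- 3-connected up to loops and parallel classes. -/
def V3L (M : Matroid E) : Prop := ∀ X ⊆ M.E, min (min (rk M X) (rk M (M.E \ X))) 2 ≤ lam M X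

/-- Connected up to loops. -/
def ConL (M : Matroid E) : Prop := ∀ X ⊆ M.E, lam M X = 0 → rk M X = 0 ∨ rk M (M.E \ X) = 0

/-- The tangent vector `v` kills all cross ratios. -/
def Kv (M : Matroid E) (T : Set E → Matrix E E R0) {F : Type} [Field F] (x : R0 →+* F)
    (v : F × F) : Prop := ∀ m, IsCr M T m → der x v (mo m) = 0

/-- The element is fixed at every point. -/
def AllFix (M : Matroid E) (T : Set E → Matrix E E R0) (e : E) : Prop :=
  ∀ (F : Type) [Field F] (x : R0 →+* F) (U W : Sb F E), Obj M T x x U W → Fix U W e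

/-- The element is cofixed at every point. -/
def AllCofix (M : Matroid E) (T : Set E → Matrix E E R0) (e : E) : Prop :=
  ∀ (F : Type) [Field F] (x : R0 →+* F) (U W : Sb F E), Obj M T x x U W → Fix W U e

/-- No triangle. -/
def NoTri (M : Matroid E) : Prop := ∀ e f g, e ≠ f → e ≠ g → f ≠ g → ¬ M.IsCircuit {e, f, g}

end Pool.Agent.Lib.MP_10bdcf_co.G
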