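import Pool.Agent.Lib.MP_10bdcf_co.ZI

/-!
Kernels of diagonal forms up to loops, and tangent vectors that kill all cross ratios.
-/

namespace Pool.Agent.Lib.MP_10bdcf_co.G

open scoped Matroid
open Set

set_option linter.unusedSectionVars false

variable {E F : Type} [Fintype E] [Field F] {M : Matroid E} {T T' : Set E → Matrix E E R0}
  {x y : R0 →+* F} {U W : Sb F E} {φ ξ : Fm F E} {I J S : Set E} {e f g : E} {v v' : F × F}
  {γ : E → F} {r : ℕ}

theorem zi2_loop {X : Set E} (he : e ∈ M.E) (hX : e ∈ X) (h : rk M X = 0) : e ∈ M.closure ∅ := by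
  have := rk_mono M (insert_subset hX (empty_subset X))
  rw [mem_closure_iff_rk he, rk_empty]
  omega

theorem zi2_rk (M : Matroid E) (X : Set E) : rk M (X \ M.closure ∅) = rk M X := by
  refine le_antisymm (rk_mono M sdiff_subset) ?_
  rw [← rk_union_of_subset_closure (M.closure_subset_closure (empty_subset (X \ M.closure ∅)))]
  exact rk_mono M (by simp)

theorem zi2_op (M : Matroid E) : Op M ∅ (M.closure ∅) :=
  ⟨M.empty_indep, (coindep_iff_rk (M.closure_subset_ground _)).2 (zi2_rk M _), empty_disjoint _⟩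

theorem zi2_mem (he : rk M {e} = 1) : e ∈ (mn M ∅ (M.closure ∅)).E := by
  rw [mn_ground, empty_union]
  refine ⟨by_contra fun h => ?_, fun h => ?_⟩
  · rw [← rk_inter_ground, singleton_inter_eq_empty.2 h, rk_empty] at he
    omega
  · have := rk_insert_of_mem h
    rw [insert_empty_eq, rk_empty] at this
    omega

theorem zi2_conn (hc : ConL M) : Conn (mn M ∅ (M.closure ∅)) := by
  refine conn_iff.2 fun X hX h0 => ?_
  rw [mn_ground, empty_union] at hX ⊢
  have h1 := (zi2_op M).lam_mn (disjoint_empty X) (subset_sdiff.1 hX).2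
  rw [← sdiff_sdiff, zi2_rk, union_empty, ncard_empty] at h1
  have h2 := lam_add M X
  rcases hc X (hX.trans sdiff_subset) (by omega) with h | h
  · exact Or.inl (eq_empty_of_forall_notMem fun z hz => (hX hz).2 (zi2_loop (hX hz).1 hz h))
  · exact Or.inr (hX.antisymm fun z hz => by_contra fun h3 =>
      hz.2 (zi2_loop hz.1 (mem_sdiff_of_mem hz.1 h3) h))

theorem zi2_site (hs : HasSite M) : HasSite (mn M ∅ (M.closure ∅)) := by
  have hb : ∀ B, M.IsBase B → (mn M ∅ (M.closure ∅)).IsBase B := fun B hB =>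
    (zi2_op M).isBase_iff.2 ⟨by rwa [union_empty], disjoint_empty _, hB.indep.disjoint_loops⟩
  have ha : ∀ {B b e}, Adj M B b e → Adj (mn M ∅ (M.closure ∅)) B b e :=
    fun h => ⟨h.1, h.2.1, hb _ h.2.2⟩
  obtain ⟨B, g, h, e, f, s⟩ := hs
  exact ⟨B, g, h, e, f, hb _ s.base, ha s.ge, ha s.gf, ha s.he, ha s.hf, s.ne, ha s.ns⟩

theorem Obj.ker_same' (h : Obj M T x x U W) (hc : ConL M) (h0 : Agr (gf γ) 0 U W) :
    ∃ c, ∀ e, rk M {e} = 1 → γ e = c := by
  obtain ⟨c, hc⟩ := (h.minor (zi2_op M)).ker_same (zi2_conn hc) (h0.mono (van_le _ _) (van_le _ _))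
  exact ⟨c, fun e he => hc e (zi2_mem he)⟩

theorem Obj.ker_zero' (h : Obj M T x y U W) (hc : ConL M) (h0 : Agr (gf γ) 0 U W)
    (he : rk M {e} = 1) (h1 : γ e = 0) : ∀ f, rk M {f} = 1 → γ f = 0 := by
  exact fun f hf => (h.minor (zi2_op M)).ker_zero (zi2_conn hc)
    (h0.mono (van_le _ _) (van_le _ _)) (zi2_mem he) h1 f (zi2_mem hf)

theorem Obj.ker_tw' (h : Obj M T x y U W) (ht : Tw x y) (hc : ConL M) (hs : HasSite M)
    (h0 : Agr (gf γ) 0 U W) : ∀ e, rk M {e} = 1 → γ e = 0 := by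
  exact fun e he => (h.minor (zi2_op M)).ker_tw ht (zi2_conn hc) (zi2_site hs)
    (h0.mono (van_le _ _) (van_le _ _)) e (zi2_mem he)

/-- The coefficients at loops do not matter. -/
theorem Pair.gf_eq' (h : Pair M U W) {γ δ : E → F} (hγ : ∀ z, rk M {z} = 1 → γ z = δ z) :
    Agr (gf γ) (gf δ) U W := by
  intro u hu w hw
  refine Finset.sum_congr rfl fun z _ => ?_
  by_cases hz : z ∈ M.E
  · by_cases h1 : rk M {z} = 1
    · rw [hγ z h1]
    · have h2 := rk_singleton_le M z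
      simp [h.coc.cl w hw ∅ z (by simp) (zi2_loop hz (mem_singleton z) (by omega))]
  · rcases h.out z hz with h1 | h1
    · simp [h1 u hu]
    · simp [h1 w hw]

theorem Obj.k_iff (h : Obj M T x x U W) : Gauge (dfm M T x v) U W ↔ Kv M T x v := by
  exact ⟨fun hg _ hm => h.der_of_gauge hg hm, h.gauge_of_der⟩

theorem Obj.k_minor_iff (h : Obj M T x x U W) (ho : Op M I J) :
    Gauge (dfm M T x v) (van U J) (van W I) ↔ Kv (mn M I J) (mnT I J T) x v := by
  rw [← (h.minor ho).k_iff]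
  exact ⟨fun hg => hg.congr (h.dfm_minor ho v).symm, fun hg => hg.congr (h.dfm_minor ho v)⟩

theorem Kv.minor (h : Kv M T x v) (ho : Op M I J) : Kv (mn M I J) (mnT I J T) x v := by
  exact fun m hm => h m (hm.of_minor ho)

theorem kv_dual_iff (hT : U2 M T) : Kv M✶ (duT M T) x v ↔ Kv M T x v := by
  refine ⟨fun h m hm => h m (hm.dual hT), fun h => ?_⟩
  obtain ⟨U, W, ho, -⟩ := hT.exists_obj x x
  refine ho.dual.k_iff.1 (Gauge.congr ?_ (ho.dfm_dual v))
  exact ((ho.k_iff.2 h).flip.smul (-1)).congr fun _ _ _ _ => by simp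

theorem kv_zero : Kv M T x 0 := by
  exact fun _ _ => der_zero_v x _

theorem Kv.smul (h : Kv M T x v) (c : F) : Kv M T x (c • v) := by
  exact fun m hm => by rw [der_smul_v, h m hm, mul_zero]

theorem Kv.add (h : Kv M T x v) (h' : Kv M T x v') : Kv M T x (v + v') := by
  exact fun m hm => by rw [der_add_v, h m hm, h' m hm, add_zero]

theorem Kv.sub (h : Kv M T x v) (h' : Kv M T x v') : Kv M T x (v - v') := by
  have := h.add (h'.smul (-1))
  rwa [neg_one_smul, ← sub_eq_add_neg] at this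

theorem OneT.exists_kv (h : OneT M T) (hT : U2 M T) (hR : ¬ HasR M) (x : R0 →+* F) :
    ∃ v, v ≠ 0 ∧ Kv M T x v := by
  by_cases hc : ∃ m, IsCr M T m
  · obtain ⟨m, hm⟩ := hc
    obtain ⟨v, hv, h0⟩ := exists_der_zero x (hT.cr_mem hm)
    exact ⟨v, hv, fun n hn => der_same x (hT.cr_mem hm) (hT.cr_mem hn) (h hR m n hm hn) h0⟩
  · exact ⟨1, one_ne_zero, fun m hm => (hc ⟨m, hm⟩).elim⟩

theorem Kv.oneT (h : Kv M T x v) (hT : U2 M T) (hv : v ≠ 0) : OneT M T := by
  exact fun _ m n hm hn => by_contra fun hne =>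
    hv (der_two x (hT.cr_mem hm) (hT.cr_mem hn) hne (h m hm) (h n hn))

theorem HasR.kv_zero (h : HasR M) (hT : U2 M T) (hv : Kv M T x v) : v = 0 := by
  obtain ⟨m, n, hm, hn, hne⟩ := h.two_types hT
  exact der_two x (hT.cr_mem hm) (hT.cr_mem hn) hne (hv m hm) (hv n hn)

theorem Kv.line (h : Kv M T x v) (hT : U2 M T) (hs : HasSite M) (hv : v ≠ 0) (h' : Kv M T x v') :
    ∃ c : F, v' = c • v := by
  obtain ⟨m, hm⟩ := hs.exists_cr hT
  exact der_line x (hT.cr_mem hm) hv (h m hm) (h' m hm)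

/-- A minor with a frame, or with a site when there is no frame, has the same tangent vectors. -/
theorem OneT.kv_back (h : OneT M T) (hT : U2 M T) (ho : Op M I J)
    (hs : Safe M I J ∨ (¬ HasR M ∧ HasSite (mn M I J)))
    (hv : Kv (mn M I J) (mnT I J T) x v) : Kv M T x v := by
  rcases hs with hs | ⟨hR, hs⟩
  · rw [((hasR_minor_iff ho).2 hs).kv_zero (hT.minor ho) hv]
    exact kv_zero
  · obtain ⟨v0, h0, h1⟩ := h.exists_kv hT hR x
    obtain ⟨c, rfl⟩ := (h1.minor ho).line (hT.minor ho) hs h0 hv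
    exact h1.smul c

/-- The upper bound on a minor, for the forms of the whole matroid. -/
theorem Obj.up_minor (h : Obj M T x x U W) (ho : Op M I J) (hu : Up (mn M I J) (mnT I J T))
    (hφ : Val φ (van U J) (van W I)) : ∃ v, Gauge (φ - dfm M T x v) (van U J) (van W I) := by
  obtain ⟨v, hv⟩ := hu F x _ _ (h.minor ho) φ hφ
  exact ⟨v, hv.congr fun u hu w hw => by simp [h.dfm_minor ho v u hu w hw]⟩

theorem goodT_of_noSite (hT : U2 M T) (hs : ¬ HasSite M) : GoodT M T := by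
  refine ⟨fun F _ x U W h φ hφ => ⟨0, ?_⟩, fun _ m n ⟨B, g, h, e, f, h1, _⟩ _ =>
    (hs ⟨B, g, h, e, f, h1⟩).elim, fun hR => (hs (hR.hasSite hT)).elim⟩
  exact (h.gauge_of_noSite hs hφ).congr fun _ _ _ _ => by simp [dfm_zero]

end Pool.Agent.Lib.MP_10bdcf_co.G
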