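import Pool.Agent.Lib.MP_10bdcf_co.ZI2

/-!
Fixed elements.
-/

namespace Pool.Agent.Lib.MP_10bdcf_co.G

open scoped Matroid
open Set

set_option linter.unusedSectionVars false

variable {E F : Type} [Fintype E] [Field F] {M : Matroid E} {T : Set E → Matrix E E R0}
  {x y : R0 →+* F} {U W : Sb F E} {φ ξ : Fm F E} {I J : Set E} {e f : E} {v : F × F}

theorem zk_core {l : Fn F E} (hp : Pair M U W) (ho : Op M ∅ {e}) (hg : Gauge (pf (co e) l) U W)
    (hker : ∀ γ, Agr (gf γ) 0 (van U {e}) W →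
      ∃ c, Agr (gf fun _ => c) 0 U W ∧ ∀ z, rk (M ＼ {e}) {z} = 1 → γ z = c) :
    ∃ c, ∀ w ∈ W, l w = c * w e := by
  classical
  obtain ⟨γ, hγ⟩ := hg
  obtain ⟨c, h1, h2⟩ := hker γ fun u hu w hw => by
    rw [← hγ u hu.1 w hw, pf_apply, co_apply, hu.2 e rfl, zero_mul]
    rfl
  have h3 := hp.gf_eq' (γ := γ) (δ := (fun _ => c) + Pi.single e (γ e - c)) fun z hz => by
    by_cases k : z = e
    · simp [k]
    · simp [k, h2 z (by rw [rk_delete (by simpa using k), hz])]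
  obtain ⟨u, hu, h4⟩ := hp.cyc.ext {e} ho.coi fun _ => 1
  refine ⟨γ e - c, fun w hw => ?_⟩
  simpa [gf_add, gf_single, pf_apply, h4 e rfl, h1 u hu w hw] using hγ.trans h3 u hu w hw

theorem zk_gauge {l : Fn F E} (h : Gauge (pf (co e) l - φ) U W) : Gauge φ (van U {e}) W :=
  ((h.mono (van_le _ _) le_rfl).smul (-1)).congr fun u hu w _ => by simp [pf_apply, hu.2 e rfl]

/-- An element whose deletion keeps the diagonal tangent vectors is fixed. -/
theorem Obj.fix_of_kv (h : Obj M T x y U W) (hu : Up M T) (ho : Op M ∅ {e}) (hc : ConL (M ＼ {e}))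
    (hk : ∀ v, Kv (mn M ∅ {e}) (mnT ∅ {e} T) y v → Kv M T y v) : Fix U W e := by
  obtain ⟨U', h'⟩ := h.exists_left y
  refine (h.pair.fix_iff h'.pair (ho.sub_right rfl)).2 fun l hl => ?_
  obtain ⟨v, hv⟩ := hu F y U' W h' _ hl
  have h2 := h'.k_iff.2 (hk v ((h'.k_minor_iff ho).1 (by simpa using zk_gauge hv)))
  refine zk_core h'.pair ho ((hv.add h2).congr fun _ _ _ _ => by simp) fun γ hγ => ?_
  rw [← mn_empty_left] at hc ⊢
  exact ((h'.minor ho).ker_same' hc (by simpa using hγ)).imp fun c k => ⟨h'.orth c, k⟩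

theorem Obj.cofix_of_kv (h : Obj M T x y U W) (hu : Up M T) (ho : Op M {e} ∅)
    (hc : ConL (M ／ {e})✶) (hk : ∀ v, Kv (mn M {e} ∅) (mnT {e} ∅ T) x v → Kv M T x v) :
    Fix W U e := by
  obtain ⟨W', h'⟩ := h.exists_right x
  refine (h.pair.dual.fix_iff h'.pair.dual (ho.sub_left rfl)).2 fun l hl => ?_
  obtain ⟨v, hv⟩ := hu F x U W' h' _ hl.flip
  have h2 := h'.k_iff.2 (hk v ((h'.k_minor_iff ho).1
    (by simpa using (zk_gauge (φ := (dfm M T x v).flip) hv.flip).flip)))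
  refine zk_core h'.pair.dual ho.dual ((hv.add h2).flip.congr fun _ _ _ _ => by simp)
    fun γ hγ => ?_
  rw [← Matroid.dual_contract]
  rw [← mn_empty_right] at hc ⊢
  exact ((h'.minor ho).dual.ker_same' hc (by simpa using hγ)).imp fun c k => ⟨h'.dual.orth c, k⟩

theorem Obj.fix_of_safe (h : Obj M T x y U W) (hu : Up M T) (hs : Safe M ∅ {e})
    (hc : ConL (M ＼ {e})) : Fix U W e := by
  exact h.fix_of_kv hu hs.op hc fun v hv =>
    ((hasR_minor_iff hs.op).2 hs).kv_zero (h.minor hs.op).tab hv ▸ kv_zero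

theorem Obj.cofix_of_safe (h : Obj M T x y U W) (hu : Up M T) (hs : Safe M {e} ∅)
    (hc : ConL (M ／ {e})✶) : Fix W U e := by
  exact h.cofix_of_kv hu hs.op hc fun v hv =>
    ((hasR_minor_iff hs.op).2 hs).kv_zero (h.minor hs.op).tab hv ▸ kv_zero

theorem Obj.fix_of_keep (h : Obj M T x y U W) (hu : Up M T) (h1 : OneT M T) (ho : Op M ∅ {e})
    (hc : ConL (M ＼ {e})) (hs : Safe M ∅ {e} ∨ (¬ HasR M ∧ HasSite (M ＼ {e}))) : Fix U W e := by
  exact h.fix_of_kv hu ho hc fun v => h1.kv_back h.tab ho (by rwa [mn_empty_left])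

theorem Obj.cofix_of_keep (h : Obj M T x y U W) (hu : Up M T) (h1 : OneT M T) (ho : Op M {e} ∅)
    (hc : ConL (M ／ {e})✶) (hs : Safe M {e} ∅ ∨ (¬ HasR M ∧ HasSite (M ／ {e}))) : Fix W U e := by
  exact h.cofix_of_kv hu ho hc fun v => h1.kv_back h.tab ho (by rwa [mn_empty_right])

theorem AllFix.fix (hf : AllFix M T e) (he : e ∈ M.E) (h : Obj M T x y U W) : Fix U W e := by
  obtain ⟨U', h'⟩ := h.exists_left y
  exact (h.pair.fix_iff h'.pair he).2 (hf F y U' W h')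

theorem AllCofix.fix (hf : AllCofix M T e) (he : e ∈ M.E) (h : Obj M T x y U W) : Fix W U e := by
  obtain ⟨W', h'⟩ := h.exists_right x
  exact (h.pair.dual.fix_iff h'.pair.dual he).2 (hf F x U W' h')

/-- An element that is fixed in a deletion is fixed. -/
theorem AllFix.of_delete (ho : Op M ∅ J) (hf : AllFix (mn M ∅ J) (mnT ∅ J T) e) :
    AllFix M T e := by
  intro F _ x U W h
  simpa using (hf F x _ _ (h.minor ho)).mono (van_le U J)

theorem AllCofix.of_contract (ho : Op M I ∅) (hf : AllCofix (mn M I ∅) (mnT I ∅ T) e) :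
    AllCofix M T e := by
  intro F _ x U W h
  simpa using (hf F x _ _ (h.minor ho)).mono (van_le W I)

theorem Obj.kv_of_fix (h : Obj M T x x U W) (ho : Op M ∅ {e}) (hf : Fix U W e)
    (hk : Kv (mn M ∅ {e}) (mnT ∅ {e} T) x v) : Kv M T x v := by
  exact h.k_iff.1 (hf.gauge (h.dfm_val v) (by simpa using (h.k_minor_iff ho).2 hk))

theorem Obj.kv_of_cofix (h : Obj M T x x U W) (ho : Op M {e} ∅) (hf : Fix W U e)
    (hk : Kv (mn M {e} ∅) (mnT {e} ∅ T) x v) : Kv M T x v := by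
  exact h.k_iff.1 (hf.gauge' (h.dfm_val v) (by simpa using (h.k_minor_iff ho).2 hk))

theorem Up.of_fix (ho : Op M ∅ {e}) (hf : AllFix M T e) (h : Up (mn M ∅ {e}) (mnT ∅ {e} T)) :
    Up M T := by
  intro F _ x U W h' φ hφ
  obtain ⟨v, hv⟩ := h'.up_minor ho h (hφ.mono (van_le _ _) (van_le _ _))
  exact ⟨v, (hf F x U W h').gauge (hφ.sub (h'.dfm_val v)) (by simpa using hv)⟩

theorem Up.of_cofix (ho : Op M {e} ∅) (hf : AllCofix M T e) (h : Up (mn M {e} ∅) (mnT {e} ∅ T)) :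
    Up M T := by
  intro F _ x U W h' φ hφ
  obtain ⟨v, hv⟩ := h'.up_minor ho h (hφ.mono (van_le _ _) (van_le _ _))
  exact ⟨v, (hf F x U W h').gauge' (hφ.sub (h'.dfm_val v)) (by simpa using hv)⟩

theorem OneT.of_fix (hT : U2 M T) (ho : Op M ∅ {e}) (hf : AllFix M T e)
    (h : OneT (mn M ∅ {e}) (mnT ∅ {e} T)) : OneT M T := by
  intro hR
  obtain ⟨U, W, h', -⟩ := hT.exists_obj s4 s4
  obtain ⟨v, v0, hv⟩ := h.exists_kv (h'.minor ho).tab (mt (HasR.of_minor ho) hR) s4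
  exact (h'.kv_of_fix ho (hf _ _ _ _ h') hv).oneT hT v0 hR

theorem OneT.of_cofix (hT : U2 M T) (ho : Op M {e} ∅) (hf : AllCofix M T e)
    (h : OneT (mn M {e} ∅) (mnT {e} ∅ T)) : OneT M T := by
  intro hR
  obtain ⟨U, W, h', -⟩ := hT.exists_obj s4 s4
  obtain ⟨v, v0, hv⟩ := h.exists_kv (h'.minor ho).tab (mt (HasR.of_minor ho) hR) s4
  exact (h'.kv_of_cofix ho (hf _ _ _ _ h') hv).oneT hT v0 hR

/-- The twisted move of an element that is not fixed is not diagonal. -/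
theorem Obj.exists_of_not_fix (h : Obj M T x y U W) (ht : Tw x y) (ho : Op M ∅ {e})
    (hc : ConL (M ＼ {e})) (hs : HasSite (M ＼ {e})) (hf : ¬ Fix U W e) :
    ∃ l, Val (pf (co e) l) U W ∧ ¬ Gauge (pf (co e) l) U W := by
  by_contra! k
  refine hf fun l hl => zk_core h.pair ho (k l hl) fun γ hγ => ⟨0, ?_, ?_⟩
  · exact fun u _ w _ => by simp [gf_apply]
  rw [← mn_empty_left] at hc hs ⊢
  exact (h.minor ho).ker_tw' ht hc hs (by simpa using hγ)

theorem Obj.exists_of_not_cofix (h : Obj M T x y U W) (ht : Tw x y) (ho : Op M {e} ∅)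
    (hc : ConL (M ／ {e})✶) (hs : HasSite (M ／ {e})) (hf : ¬ Fix W U e) :
    ∃ l, Val (pf l (co e)) U W ∧ ¬ Gauge (pf l (co e)) U W := by
  by_contra! k
  refine hf fun l hl => zk_core h.pair.dual ho.dual
    (by simpa [pf_flip] using (k l (by simpa [pf_flip] using hl.flip)).flip) fun γ hγ => ⟨0, ?_, ?_⟩
  · exact fun u _ w _ => by simp [gf_apply]
  rw [← Matroid.dual_contract]
  rw [← mn_empty_right] at hc hs ⊢
  exact (h.minor ho).dual.ker_tw' ht.symm hc (hs.dual (h.minor ho).tab) (by simpa using hγ)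

end Pool.Agent.Lib.MP_10bdcf_co.G
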