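import Pool.Agent.Lib.MP_10bdcf_co.ZK
import Pool.Agent.Lib.MP_10bdcf_co.ZT

/-!
Loops and parallel elements, and injectivity on frames.
-/

namespace Pool.Agent.Lib.MP_10bdcf_co.G

open scoped Matroid
open Set

set_option linter.unusedSectionVars false

variable {E F : Type} [Fintype E] [Field F] {M : Matroid E} {T : Set E → Matrix E E R0}
  {x y : R0 →+* F} {U W : Sb F E} {φ ξ : Fm F E} {I J : Set E} {e f : E} {v : F × F}

theorem zk2_cases (hp : e ∈ M.closure {f}) : e ∈ M.closure ∅ ∨ (f ∈ M.E ∧ rk M {e} = 1) := by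
  have he : e ∈ M.E := M.closure_subset_ground _ hp
  by_cases hf : f ∈ M.E
  · by_cases h0 : rk M {e} = 0
    · left
      rw [mem_closure_iff_rk he, rk_empty]
      simpa using h0
    · have := rk_singleton_le M e
      exact Or.inr ⟨hf, by omega⟩
  · left
    rwa [← M.closure_inter_ground, singleton_inter_eq_empty.2 hf] at hp

theorem zk2_back (hp : e ∈ M.closure {f}) (hf : f ∈ M.E) (hn : rk M {e} = 1) :
    f ∈ M.closure {e} := by
  rw [mem_closure_iff_rk hf, pair_comm]
  have h1 := rk_insert_of_mem hp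
  have h2 := rk_singleton_le M f
  have h3 := rk_mono M (show ({e} : Set E) ⊆ {e, f} by simp)
  omega

/-- A loop or an element of a parallel pair is fixed. -/
theorem Pair.fix_par (h : Pair M U W) (hne : e ≠ f) (hp : e ∈ M.closure {f}) : Fix U W e := by
  rcases zk2_cases hp with h0 | ⟨hf, hn⟩
  · obtain ⟨u, hu, h1, h2⟩ := h.cyc.cyc_exists h0 (notMem_empty e)
    refine fun l hl => ⟨0, fun w hw => ?_⟩
    have hwe : w e = 0 := h.coc.cl w hw ∅ e (fun z hz => absurd hz (notMem_empty z)) h0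
    have := hl u hu w hw (h.dis hu hw fun z hz => by
      by_cases hz' : z = e
      · exact Or.inr (hz' ▸ hwe)
      · exact Or.inl (h2 z hz (notMem_empty z) hz'))
    rw [pf_apply, co_apply, h1, one_mul] at this
    rw [this, zero_mul]
  · exact h.fix_of_parallel hf hne hp hn

theorem zk2_cyc (h : Pair M U W) (hne : e ≠ f) (hp : e ∈ M.closure {f}) :
    ∃ u ∈ U, u e = 1 ∧ ∀ w ∈ W, w e = 0 → ∀ z ∈ M.E, z ≠ e → u z = 0 ∨ w z = 0 := by
  rcases zk2_cases hp with h0 | ⟨hf, hn⟩
  · obtain ⟨u, hu, h1, h2⟩ := h.cyc.cyc_exists h0 (notMem_empty e)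
    exact ⟨u, hu, h1, fun w _ _ z hz hz' => Or.inl (h2 z hz (notMem_empty z) hz')⟩
  · obtain ⟨u, hu, h1, h2⟩ := h.cyc.cyc_exists hp hne
    refine ⟨u, hu, h1, fun w hw hwe z hz hz' => ?_⟩
    by_cases hzf : z = f
    · right
      rw [hzf]
      exact h.coc.cl w hw {e} f (fun a ha => by rw [mem_singleton_iff.1 ha, hwe])
        (zk2_back hp hf hn)
    · exact Or.inl (h2 z hz hzf hz')

/-- A valid form extends over a loop or an element of a parallel pair. -/
theorem Pair.extend_par (h : Pair M U W) (hne : e ≠ f) (hp : e ∈ M.closure {f})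
    (hφ : Val φ (van U {e}) W) : ∃ ψ, Val ψ U W ∧ Agr ψ φ (van U {e}) W := by
  obtain ⟨u1, hu1, h1, h2⟩ := zk2_cyc h hne hp
  refine ⟨φ ∘ₗ (LinearMap.id - (co e).smulRight u1), fun u hu w hw hd => ?_, fun u hu w _ => ?_⟩
  · have hu' : u - u e • u1 ∈ U := U.sub_mem hu (U.smul_mem _ hu1)
    refine hφ (u - u e • u1) (mem_van_one.2 ⟨hu', by simp [h1]⟩) w hw (h.dis hu' hw fun z hz => ?_)
    by_cases hze : z = e
    · left
      simp [hze, h1]
    · rcases hd e with h3 | h3
      · simpa [h3] using hd z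
      · rcases h2 w hw h3 z hz hze with h4 | h4
        · simpa [h4] using hd z
        · exact Or.inr h4
  · show φ (u - u e • u1) w = φ u w
    rw [(mem_van_one.1 hu).2, zero_smul, sub_zero]

/-- A frame that deletes a given loop or a given element of a parallel pair. -/
theorem Frame.shift_par (hf : Frame M I J) (hne : e ≠ f) (hp : e ∈ M.closure {f}) :
    ∃ I' J', Frame M I' J' ∧ e ∈ J' ∧ ∀ (F : Type) [Field F] (U W : Sb F E) (φ : Fm F E),
      Pair M U W → Val φ U W → Gauge φ (van U J) (van W I) → Gauge φ (van U J') (van W I') := by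
  rcases zk2_cases hp with h0 | ⟨hf', hn⟩
  · refine ⟨I, J, hf, ?_, fun _ _ _ _ _ _ _ h => h⟩
    by_contra hJ
    have he : e ∈ M.E := M.closure_subset_ground _ hp
    have hI : e ∉ I := fun hI => by
      have h1 := rk_indep (hf.op.ind.subset (singleton_subset_iff.2 hI))
      have h2 := rk_insert_of_mem h0
      rw [rk_empty, insert_empty_eq] at h2
      rw [h2, ncard_singleton] at h1
      exact zero_ne_one h1
    exact zt_one hf ⟨he, fun h => h.elim hI hJ⟩ (M.closure_subset_closure (empty_subset I) h0)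
  · obtain ⟨I', J', hs, he⟩ := hf.shift_parallel hf' hne hp hn
    exact ⟨I', J', hs.frame, he, hs.gauge⟩

theorem zk2_safe (h : HasR M) (hne : e ≠ f) (hp : e ∈ M.closure {f}) : Safe M ∅ {e} := by
  obtain ⟨I, J, hf⟩ := h
  obtain ⟨I', J', hf', he, -⟩ := hf.shift_par hne hp
  exact ⟨I', J', hf', empty_subset _, singleton_subset_iff.2 he⟩

theorem HasR.delete_par (h : HasR M) (hne : e ≠ f) (hp : e ∈ M.closure {f}) :
    HasR (mn M ∅ {e}) :=
  (hasR_minor_iff (op_par hne hp)).2 (zk2_safe h hne hp)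

theorem zk2_nz_minor (h : Obj M T x y U W) (ho : Op M I J) (hz : NZ (mn M I J) (mnT I J T))
    {I' J' : Set E} (hf : Frame M I' J') (hI : I ⊆ I') (hJ : J ⊆ J')
    (hφ : Val φ (van U J) (van W I)) (hg : Gauge φ (van U J') (van W I')) :
    Gauge φ (van U J) (van W I) := by
  refine hz F x y _ _ (h.minor ho) φ hφ (I' \ I) (J' \ J) (hf.sdiff hI hJ) ?_
  rwa [van_van, van_van, union_sdiff_cancel hJ, union_sdiff_cancel hI]

theorem zk2_ex_minor (h : Obj M T x y U W) (ht : Tw x y) (hs : Safe M I J)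
    (hx : Ex (mn M I J) (mnT I J T)) :
    ∃ φ, Val φ (van U J) (van W I) ∧ ¬ Gauge φ (van U J) (van W I) :=
  hx ((hasR_minor_iff hs.op).2 hs) F x y _ _ ht (h.minor hs.op)

theorem GoodT.of_par (hT : U2 M T) (hne : e ≠ f) (hp : e ∈ M.closure {f})
    (h : GoodT (mn M ∅ {e}) (mnT ∅ {e} T)) : GoodT M T := by
  have ho := op_par hne hp
  have hf : AllFix M T e := fun _ _ _ _ _ h => h.pair.fix_par hne hp
  refine ⟨Up.of_fix ho hf h.up, OneT.of_fix hT ho hf h.one, fun hR F _ x y U W ht hO => ?_⟩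
  obtain ⟨φ, h1, h2⟩ := zk2_ex_minor hO ht (zk2_safe hR hne hp) h.ex
  rw [van_empty] at h1 h2
  obtain ⟨ψ, h3, h4⟩ := hO.pair.extend_par hne hp h1
  exact ⟨ψ, h3, fun hg => h2 ((hg.mono (van_le U {e}) le_rfl).congr h4.symm)⟩

theorem NZ.of_par (hne : e ≠ f) (hp : e ∈ M.closure {f}) (h : NZ (mn M ∅ {e}) (mnT ∅ {e} T)) :
    NZ M T := by
  intro F _ x y U W hO φ hφ I J hf hg
  obtain ⟨I', J', hf', he, hs⟩ := hf.shift_par hne hp
  have := zk2_nz_minor hO (op_par hne hp) h hf' (empty_subset _) (singleton_subset_iff.2 he)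
    (hφ.mono (van_le _ _) (van_le _ _)) (hs F U W φ hO.pair hφ hg)
  rw [van_empty] at this
  exact (hO.pair.fix_par hne hp).gauge hφ this

theorem zk2_lt (ho : Op M I J) (hne : (I ∪ J).Nonempty) : (mn M I J).E.ncard < M.E.ncard := by
  have h1 := ho.card
  have h2 := ncard_union_le I J
  have h3 := (ncard_pos (I ∪ J).toFinite).2 hne
  omega

theorem zk2_good (n : ℕ) : ∀ M : Matroid E, M.E.ncard = n → V3L M → HG M → GoodM M := by
  induction n using Nat.strong_induction_on with
  | _ n ih =>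
    intro M hn h hg
    by_cases hs : ∀ e ∈ M.E, ∀ f, e ≠ f → e ∉ M.closure {f}
    · exact hg.good (h.con3 hs)
    · push Not at hs
      obtain ⟨e, -, f, hne, hp⟩ := hs
      have ho := op_par hne hp
      have := ih _ (hn ▸ zk2_lt ho (by simp)) _ rfl
        (by rw [mn_empty_left]; exact h.delete hne hp) (hg.minor ho)
      exact fun T hT => GoodT.of_par hT hne hp (this _ (hT.minor ho))

theorem V3L.good (h : V3L M) (hg : HG M) : GoodM M := zk2_good _ M rfl h hg

theorem V3L.good' (h : V3L M✶) (hg : HG M) : GoodM M := (h.good hg.dual).of_dual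

theorem zk2_step (h : Con3 M) (hT : U2 M T) (hu : Up M T)
    (hi : ∀ I J, Op M I J → (I ∪ J).Nonempty → V3L (mn M I J) ∨ V3L (mn M I J)✶ →
      NZ (mn M I J) (mnT I J T)) : NZ M T := by
  intro F _ x y U W hO φ hφ I J hf hg
  by_cases hne : (I ∪ J).Nonempty
  · obtain ⟨I', J', hf', hc, hs⟩ := hf.exists_step h hne
    have hg' := hs F U W φ hO.pair hφ hg
    rcases hc with ⟨e, he, hv⟩ | ⟨e, he, hv⟩
    · have hs' : Safe M {e} ∅ := ⟨I', J', hf', singleton_subset_iff.2 he, empty_subset _⟩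
      have hz := hi {e} ∅ hs'.op (by simp) (Or.inl (by rw [mn_empty_right]; exact hv.v3L))
      have := zk2_nz_minor hO hs'.op hz hf' (singleton_subset_iff.2 he) (empty_subset _)
        (hφ.mono (van_le _ _) (van_le _ _)) hg'
      rw [van_empty] at this
      exact (hO.cofix_of_safe hu hs' (Conn.conL hv.1.dual)).gauge' hφ this
    · have hs' : Safe M ∅ {e} := ⟨I', J', hf', empty_subset _, singleton_subset_iff.2 he⟩
      have hz := hi ∅ {e} hs'.op (by simp) (Or.inr (by rw [mn_empty_left]; exact V3.v3L hv))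
      have := zk2_nz_minor hO hs'.op hz hf' (empty_subset _) (singleton_subset_iff.2 he)
        (hφ.mono (van_le _ _) (van_le _ _)) hg'
      rw [van_empty] at this
      have hc := hv.1.dual
      rw [Matroid.dual_dual] at hc
      exact (hO.fix_of_safe hu hs' (Conn.conL hc)).gauge hφ this
  · obtain ⟨h1, h2⟩ := union_empty_iff.1 (not_nonempty_iff_eq_empty.1 hne)
    rwa [h1, h2, van_empty, van_empty] at hg

theorem zk2_nz (n : ℕ) : ∀ (M : Matroid E) (T : Set E → Matrix E E R0), M.E.ncard = n → HG M →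
    U2 M T → V3L M → NZ M T := by
  induction n using Nat.strong_induction_on with
  | _ n ih =>
    intro M T hn hg hT h
    have ih' : ∀ I J, Op M I J → (I ∪ J).Nonempty → V3L (mn M I J) ∨ V3L (mn M I J)✶ →
        NZ (mn M I J) (mnT I J T) := by
      intro I J ho hne hv
      have hlt := hn ▸ zk2_lt ho hne
      rcases hv with hv | hv
      · exact ih _ hlt _ _ rfl (hg.minor ho) (hT.minor ho) hv
      · exact NZ.of_dual (ih _ hlt _ _ rfl (hg.minor ho).dual (hT.minor ho).dual hv)
    by_cases hs : ∀ e ∈ M.E, ∀ f, e ≠ f → e ∉ M.closure {f}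
    · exact zk2_step (h.con3 hs) hT (hg.good (h.con3 hs) T hT).up ih'
    · push Not at hs
      obtain ⟨e, -, f, hne, hp⟩ := hs
      exact NZ.of_par hne hp (ih' _ _ (op_par hne hp) (by simp)
        (Or.inl (by rw [mn_empty_left]; exact h.delete hne hp)))

theorem HG.nz (hg : HG M) (hT : U2 M T) (h : V3L M ∨ V3L M✶) : NZ M T := by
  rcases h with h | h
  · exact zk2_nz _ M T rfl hg hT h
  · exact NZ.of_dual (zk2_nz _ _ _ rfl hg.dual hT.dual h)

theorem Con3.nz (h : Con3 M) (hg : HG M) (hT : U2 M T) : NZ M T := hg.nz hT (Or.inl h.v3L)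

/-- Injectivity on frames needs the upper bound for the matroid itself only. -/
theorem IHm.nz (hg : IHm M) (h : Con3 M) (hT : U2 M T) (hu : Up M T) : NZ M T :=
  zk2_step h hT hu fun _ _ ho hne hv => (hg.hg ho hne).nz (hT.minor ho) hv

/-- Injectivity for minors, in terms of the spaces of the whole matroid. -/
theorem Obj.nz_minor (h : Obj M T x y U W) (ho : Op M I J) (hz : NZ (mn M I J) (mnT I J T))
    {I' J' : Set E} (hf : Frame M I' J') (hI : I ⊆ I') (hJ : J ⊆ J')
    (hφ : Val φ (van U J) (van W I)) (hg : Gauge φ (van U J') (van W I')) :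
    Gauge φ (van U J) (van W I) := zk2_nz_minor h ho hz hf hI hJ hφ hg

theorem Obj.ex_minor (h : Obj M T x y U W) (ht : Tw x y) (hs : Safe M I J)
    (hx : Ex (mn M I J) (mnT I J T)) :
    ∃ φ, Val φ (van U J) (van W I) ∧ ¬ Gauge φ (van U J) (van W I) := zk2_ex_minor h ht hs hx

end Pool.Agent.Lib.MP_10bdcf_co.G
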