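import Pool.Agent.Lib.MP_10bdcf_co.ZC
import Pool.Agent.Lib.MP_10bdcf_co.LE

/-!
From a valid twisted form that is not diagonal on any frame to a QU-matrix.
-/

namespace Pool.Agent.Lib.MP_10bdcf_co.G

open scoped Matroid
open Set

/-- The element `s + c (i + j)` of the Hurwitz order modulo 2. -/
def zlM (s c : F4) : Lam := ⟨s.re + c.im, c.re, c.re + c.im, s.im⟩

theorem zl_mul : ∀ s c s' c' : F4, zlM s c * zlM s' c' = zlM (s * s') (s * c' + c * star s') := by
  decide +kernel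

theorem zl_add : ∀ s c s' c' : F4, zlM s c + zlM s' c' = zlM (s + s') (c + c') := by
  decide +kernel

theorem zl_star : ∀ s c : F4, star (zlM s c) = zlM (star s) c := by decide +kernel

theorem zl_inj : ∀ s c s' c' : F4, zlM s c = zlM s' c' → s = s' := by decide +kernel

theorem zl_unit : ∀ s c : F4, s ≠ 0 → zlM s c ∈ unitary Lam ∧ zlM s c ≠ 0 := by decide +kernel

theorem zl_zero : zlM 0 0 = 0 := by decide +kernel

theorem zl_one : zlM 1 0 = 1 := by decide +kernel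

theorem zl_neg : ∀ s : F4, -s = s := by decide +kernel

theorem zl_nn : ∀ c : F4, zlM 1 c * zlM 1 c = 1 := by decide +kernel

theorem zl_left : ∀ s c d : F4, s ≠ 0 → ∃ d', zlM s c = zlM 1 d' * zlM s 0 * zlM 1 d := by
  decide +kernel

theorem zl_right : ∀ s c d : F4, s ≠ 0 → ∃ d', zlM s c = zlM 1 d * zlM s 0 * zlM 1 d' := by
  decide +kernel

theorem zl_root : ∀ p : Lam, p * p + p + 1 = 0 → ∀ q : Lam, p * q = 1 →
    ∃ d a a', p = zlM 1 d * zlM a 0 * zlM 1 d ∧ q = zlM 1 d * zlM a' 0 * zlM 1 d := by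
  decide +kernel

theorem zl_gauge : ∀ s c a d d' : F4, zlM s c = zlM 1 d * zlM a 0 * zlM 1 d' →
    c = d' * s - d * star s := by
  decide +kernel

theorem zl_res : ∀ a c : F4, zlM a c * zlM a c + zlM a c + 1 = 0 → ∀ a' c' : F4,
    zlM a c * zlM a' c' = 1 → a ≠ 1 ∧ a' ≠ 1 ∧ a ≠ a' := by
  decide +kernel

theorem zl_cr : ∀ a : F4, a ≠ 0 → ∀ b : F4, b ≠ 0 → ∀ c : F4, c ≠ 0 → ∀ d : F4, d ≠ 0 →
    star a * b * star c * d ≠ 1 → d * b - c * a ≠ 0 := by
  decide +kernel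

theorem zl_cr2 : ∀ a : F4, a ≠ 0 → ∀ b : F4, b ≠ 0 → ∀ c : F4, c ≠ 0 → ∀ d : F4, d ≠ 0 →
    ∀ b' : F4, b' ≠ 0 → ∀ c' : F4, c' ≠ 0 →
    star a * b * star c * d ≠ star a * b' * star c' * d → c * b' - c' * b ≠ 0 := by
  decide +kernel

theorem zl_sum {ι : Type} (s : Finset ι) (f g : ι → F4) :
    ∑ i ∈ s, zlM (f i) (g i) = zlM (∑ i ∈ s, f i) (∑ i ∈ s, g i) := by
  classical
  induction s using Finset.induction_on with
  | empty => simp [zl_zero]
  | insert a s ha ih => simp only [Finset.sum_insert ha, ih, zl_add]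

theorem zl_cyc {a1 a3 a4 a dy dh dg de : F4} {x1 x2 x3 x4 : Lam}
    (e1 : x1 = zlM 1 dh * zlM a1 0 * zlM 1 dy) (e3 : x3 = zlM 1 dg * zlM a3 0 * zlM 1 de)
    (e4 : x4 = zlM 1 dg * zlM a4 0 * zlM 1 dy) (u1 : x1 ∈ unitary Lam) (u3 : x3 ∈ unitary Lam)
    (u4 : x4 ∈ unitary Lam) (hp : star x1 * x2 * star x3 * x4 = zlM 1 dy * zlM a 0 * zlM 1 dy) :
    ∃ a2, x2 = zlM 1 dh * zlM a2 0 * zlM 1 de := by
  have n1 : ∀ c x, zlM 1 c * (zlM 1 c * x) = x := fun c x => by rw [← mul_assoc, zl_nn, one_mul]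
  have n2 : ∀ a b x, zlM a 0 * (zlM b 0 * x) = zlM (a * b) 0 * x := fun a b x => by
    rw [← mul_assoc, zl_mul]; simp
  have e : x2 = x1 * (star x1 * x2 * star x3 * x4) * star x4 * x3 := by
    calc x2 = (x1 * star x1) * x2 * (star x3 * ((x4 * star x4) * x3)) := by
          rw [Unitary.mul_star_self_of_mem u1, Unitary.mul_star_self_of_mem u4, one_mul, one_mul,
            Unitary.star_mul_self_of_mem u3, mul_one]
      _ = _ := by simp only [mul_assoc]
  refine ⟨a1 * (a * (star a4 * a3)), ?_⟩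
  rw [e, hp, e1, e3, e4]
  simp only [star_mul, zl_star, star_one, mul_assoc, n1, n2]

variable {E : Type} [Fintype E] {M : Matroid E} {T : Set E → Matrix E E R0} {U W : Sb F4 E}
  {φ : Fm F4 E}

/-- The values of the form on the columns and rows of the tableau of `B`. -/
def ZlTw (M : Matroid E) (U W : Sb F4 E) (φ : Fm F4 E) (B : Set E) (c : E → E → F4) : Prop :=
  ∀ b ∈ B, ∀ e ∈ M.E, e ∉ B → ∀ u ∈ U, ∀ w ∈ W, u e = 1 →
    (∀ z ∈ M.E, z ∉ B → z ≠ e → u z = 0) → w b = 1 → (∀ z ∈ B, z ≠ b → w z = 0) → φ u w = c b e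

theorem zl_gf {x y : R0 →+* F4} (h : Obj M T x y U W) {B : Set E} (hB : M.IsBase B)
    (γ : E → F4) :
    ZlTw M U W (gf γ) B fun b e => γ e * y (T B b e) - γ b * x (T B b e) := by
  intro b hb e he heB u hu w hw h1 h2 h3 h4
  have hbe : b ≠ e := fun e' => heB (e' ▸ hb)
  have sp : ∀ (x : R0 →+* F4) b e, spec x T B b e = x (T B b e) := fun _ _ _ => rfl
  have e1 : w e = y (T B b e) := by
    rw [h.coc.row w hw B hB e he, Finset.sum_eq_single b (fun z _ hz => ?_) (by simp), h3, one_mul,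
      sp]
    by_cases hzB : z ∈ B
    · rw [h4 z hzB hz, zero_mul]
    · rw [sp, h.tab.row hB hzB, map_zero, mul_zero]
  have e2 : u b = -x (T B b e) := by
    have := h.cyc.ker u hu B hB b
    rw [Finset.sum_eq_add_of_mem b e (Finset.mem_univ _) (Finset.mem_univ _) hbe fun z _ hz => ?_,
      sp, sp, h.tab.diag B hB b hb, map_one, one_mul, h1,
      mul_one] at this
    · exact eq_neg_of_add_eq_zero_left this
    · by_cases hzB : z ∈ B
      · rw [sp, h.tab.off hB hzB hz.1.symm, map_zero, zero_mul]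
      · by_cases hzE : z ∈ M.E
        · rw [h2 z hzE hzB hz.2, mul_zero]
        · rw [sp, h.tab.col hB b hzE, map_zero, zero_mul]
  rw [gf_apply, Finset.sum_eq_add_of_mem b e (Finset.mem_univ _) (Finset.mem_univ _) hbe
    fun z _ hz => ?_, h1, h3, e1, e2]
  · ring
  · by_cases hzB : z ∈ B
    · simp [h4 z hzB hz.1]
    · by_cases hzE : z ∈ M.E
      · simp [h2 z hzE hzB hz.2]
      · rcases h.out z hzE with h0 | h0
        · simp [h0 u hu]
        · simp [h0 w hw]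

theorem zl_line {x y : R0 →+* F4} (h : Obj M T x y U W) {B : Set E} (hB : M.IsBase B)
    {g k j e f : E} (a1 : Adj M B g j) (a2 : Adj M B k j) (a3 : Adj M B g e) (a4 : Adj M B k e)
    (a5 : Adj M B g f) (a6 : Adj M B k f)
    (d1 : y (T B g j) * y (T B k e) - y (T B g e) * y (T B k j) ≠ 0)
    (d2' : y (T B g j) * y (T B k f) - y (T B g f) * y (T B k j) ≠ 0)
    (d3' : y (T B g e) * y (T B k f) - y (T B g f) * y (T B k e) ≠ 0) :
    Line M (B \ {g, k}) {g, k, j, e, f} ∧ g ≠ k ∧ j ≠ e ∧ j ≠ f ∧ e ≠ f := by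
  have nz : ∀ {b z}, Adj M B b z → y (T B b z) ≠ 0 := fun a => (h.tab.prop hB a).map_ne_zero y
  have hgk : g ≠ k := fun e' => d1 (by rw [e']; ring)
  have hrk : rk M M.E = (B \ {g, k}).ncard + 2 := by
    rw [rk_base hB, ← ncard_pair hgk,
      ncard_sdiff_add_ncard_of_subset (insert_subset a1.1 (singleton_subset_iff.2 a2.1))]
  refine ⟨⟨hB.indep.subset sdiff_subset, hrk, ?_, ?_⟩, hgk, fun e' => d1 (by rw [e']; ring),
    fun e' => d2' (by rw [e']; ring), fun e' => d3' (by rw [e']; ring)⟩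
  · simp only [insert_subset_iff, singleton_subset_iff]
    exact ⟨hB.subset_ground a1.1, hB.subset_ground a2.1, a1.mem_ground, a3.mem_ground,
      a5.mem_ground⟩
  · obtain ⟨D, hD⟩ : ∃ D : E → E → F4, ∀ a b, D a b =
        y (T B g a) * y (T B k b) - y (T B g b) * y (T B k a) := ⟨_, fun _ _ => rfl⟩
    have sy : ∀ a b, D a b ≠ 0 → D b a ≠ 0 := fun a b h1 h2 => h1 (by
      rw [hD] at h2 ⊢
      linear_combination -h2)
    have t1 := h.tab.diag B hB g a1.1
    have t2 := h.tab.diag B hB k a2.1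
    have t3 := h.tab.off hB a2.1 hgk
    have t4 := h.tab.off hB a1.1 hgk.symm
    have c1 : ∀ z, y (T B k z) ≠ 0 → D g z ≠ 0 := fun z hz => by simpa [hD, t1, t4] using hz
    have c2 : ∀ z, y (T B g z) ≠ 0 → D k z ≠ 0 := fun z hz => by simpa [hD, t2, t3] using hz
    have b0 := c1 k (by simp [t2])
    have b1 := c1 j (nz a2)
    have b2 := c1 e (nz a4)
    have b3 := c1 f (nz a6)
    have b4 := c2 j (nz a1)
    have b5 := c2 e (nz a3)
    have b6 := c2 f (nz a5)
    rw [← hD] at d1 d2' d3'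
    have key : ∀ a ∈ ({g, k, j, e, f} : Set E), ∀ b ∈ ({g, k, j, e, f} : Set E), a ≠ b →
        D a b ≠ 0 := by
      simp only [mem_insert_iff, mem_singleton_iff, forall_eq_or_imp, forall_eq]
      refine ⟨⟨?_, ?_, ?_, ?_, ?_⟩, ⟨?_, ?_, ?_, ?_, ?_⟩, ⟨?_, ?_, ?_, ?_, ?_⟩,
        ⟨?_, ?_, ?_, ?_, ?_⟩, ⟨?_, ?_, ?_, ?_, ?_⟩⟩ <;> intro hne <;>
        first | exact absurd rfl hne | assumption | exact sy _ _ (by assumption)
    intro p hp q hq hpq
    rw [← hrk, ← h.tab.d2_ne hB a1.1 a2.1 hgk]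
    intro h0
    refine key p hp q hq hpq ?_
    rw [hD, ← map_mul, ← map_mul, ← map_sub]
    exact (congrArg y h0).trans (map_zero y)

theorem zl_core {x y : R0 →+* F4} (h : Obj M T x y U W) (hxy : ∀ a, x a = star (y a))
    (hn : ∀ I J, Frame M I J → ¬ Gauge φ (van U J) (van W I)) {B : Set E} (hB : M.IsBase B)
    {c : E → E → F4} (hc : ZlTw M U W φ B c) {g k j e f : E} (a1 : Adj M B g j) (a2 : Adj M B k j)
    (a3 : Adj M B g e) (a4 : Adj M B k e) (a5 : Adj M B g f) (a6 : Adj M B k f) {p q : Lam}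
    (hp : p = star (zlM (y (T B k j)) (c k j)) * zlM (y (T B k e)) (c k e) *
      star (zlM (y (T B g e)) (c g e)) * zlM (y (T B g j)) (c g j))
    (hq : q = star (zlM (y (T B k j)) (c k j)) * zlM (y (T B k f)) (c k f) *
      star (zlM (y (T B g f)) (c g f)) * zlM (y (T B g j)) (c g j))
    (h1 : p * p + p + 1 = 0) : p * q ≠ 1 := by
  classical
  intro h2
  have nz : ∀ {b z}, Adj M B b z → y (T B b z) ≠ 0 := fun a => (h.tab.prop hB a).map_ne_zero y
  obtain ⟨dj, a, a', hp', hq'⟩ := zl_root p h1 q h2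
  obtain ⟨dg, e1⟩ := zl_left _ (c g j) dj (nz a1)
  obtain ⟨dk, e2⟩ := zl_left _ (c k j) dj (nz a2)
  obtain ⟨de, e3⟩ := zl_right _ (c g e) dg (nz a3)
  obtain ⟨df, e5⟩ := zl_right _ (c g f) dg (nz a5)
  obtain ⟨_, e4⟩ := zl_cyc e2 e3 e1 (zl_unit _ _ (nz a2)).1 (zl_unit _ _ (nz a3)).1
    (zl_unit _ _ (nz a1)).1 (hp.symm.trans hp')
  obtain ⟨_, e6⟩ := zl_cyc e2 e5 e1 (zl_unit _ _ (nz a2)).1 (zl_unit _ _ (nz a5)).1
    (zl_unit _ _ (nz a1)).1 (hq.symm.trans hq')
  apply zl_gauge at e1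
  apply zl_gauge at e2
  apply zl_gauge at e3
  apply zl_gauge at e4
  apply zl_gauge at e5
  apply zl_gauge at e6
  simp only [zl_star, zl_mul] at hp hq
  rw [hp] at h1 h2
  rw [hq] at h2
  obtain ⟨r1, r2, r3⟩ := zl_res _ _ h1 _ _ h2
  obtain ⟨hl, hgk, hje, hjf, hef⟩ := zl_line h hB a1 a2 a3 a4 a5 a6
    (zl_cr _ (nz a2) _ (nz a4) _ (nz a3) _ (nz a1) r1)
    (zl_cr _ (nz a2) _ (nz a6) _ (nz a5) _ (nz a1) r2)
    (zl_cr2 _ (nz a2) _ (nz a4) _ (nz a3) _ (nz a1) _ (nz a6) _ (nz a5) r3)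
  have ne : ∀ {b z b' : E}, Adj M B b z → b' ∈ B → z ≠ b' := fun a hb e' => a.2.1 (e' ▸ hb)
  have n1 := ne a1 a1.1
  have n2 := ne a1 a2.1
  have n3 := ne a3 a1.1
  have n4 := ne a3 a2.1
  have n5 := ne a5 a1.1
  have n6 := ne a5 a2.1
  have hf := hl.frame (by
    rw [ncard_insert_of_notMem (by simp [hgk, n1.symm, n3.symm, n5.symm]),
      ncard_insert_of_notMem (by simp [n2.symm, n4.symm, n6.symm]),
      ncard_insert_of_notMem (by simp [hje, hjf]), ncard_pair hef])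
  have hgB : ({g, k} : Set E) ⊆ B := insert_subset a1.1 (singleton_subset_iff.2 a2.1)
  refine hn _ _ hf ⟨fun z => if z = g then dg else if z = k then dk else if z = j then dj else
    if z = e then de else df, (h.minor hf.op).agr_of_base (B := {g, k})
      (hf.op.isBase_iff.2 ⟨by rwa [union_sdiff_cancel hgB], disjoint_sdiff_right,
        disjoint_left.2 fun z hz hz' => hz'.2 (Or.inr ?_)⟩) ?_⟩
  · rcases hz with rfl | rfl <;> simp
  intro b hb z hz hzB u hu w hw o1 o2 o3 o4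
  rw [mn_ground] at hz o2
  have hz1 : z = j ∨ z = e ∨ z = f := by
    by_contra hc
    refine hz.2 (Or.inr ⟨hz.1, ?_⟩)
    rintro (h3 | h3)
    · exact hz.2 (Or.inl h3)
    · simp only [mem_insert_iff, mem_singleton_iff] at h3 hzB
      tauto
  have hz2 : z ∉ B := by
    rcases hz1 with rfl | rfl | rfl
    exacts [a1.2.1, a3.2.1, a5.2.1]
  have o2' : ∀ z' ∈ M.E, z' ∉ B → z' ≠ z → u z' = 0 := fun z' b1 b2 b3 => by
    by_cases b4 : z' ∈ M.E \ (B \ {g, k} ∪ {g, k, j, e, f})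
    · exact hu.2 z' b4
    · exact o2 z' ⟨b1, fun b5 => b5.elim (fun b6 => b2 b6.1) b4⟩ (fun b5 => b2 (hgB b5)) b3
  have o4' : ∀ z' ∈ B, z' ≠ b → w z' = 0 := fun z' b1 b2 => by
    by_cases b4 : z' ∈ ({g, k} : Set E)
    · exact o4 z' b4 b2
    · exact hw.2 z' ⟨b1, b4⟩
  rw [hc b (hgB hb) z hz.1 hz2 u hu.1 w hw.1 o1 o2' o3 o4',
    zl_gf h hB _ b (hgB hb) z hz.1 hz2 u hu.1 w hw.1 o1 o2' o3 o4']
  rcases hb with rfl | rfl <;> rcases hz1 with rfl | rfl | rfl <;>
    simp only [hxy, if_true, if_false, hgk.symm, n1, n2, n3, n4, n5, n6, hje.symm, hjf.symm, hef.symm] <;>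
    assumption

theorem Obj.exists_hyp (h : Obj M T t4 s4 U W) (hv : Val φ U W)
    (hn : ∀ I J, Frame M I J → ¬ Gauge φ (van U J) (van W I)) : ∃ S, Hyp M S := by
  classical
  have hcol : ∀ B, M.IsBase B → ∀ e, ∃ u, u ∈ U ∧
      ∀ z ∈ M.E, u z = (if e = z then 1 else 0) - t4 (T B z e) := fun B hB e => by
    obtain ⟨u, hu, h1⟩ := h.dual.exists_row hB.compl_isBase_dual e
    refine ⟨u, hu, fun z hz => ?_⟩
    rw [h1 z hz]
    simp only [duT, dualT, Matrix.of_apply, sdiff_sdiff_cancel_left hB.subset_ground, id, map_sub]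
    by_cases hez : e = z
    · simp [hez, hz]
    · simp [hez]
  choose! col hU hcol using hcol
  choose! row hW hrow using fun B (hB : M.IsBase B) b => h.exists_row hB b
  have c0 : ∀ B, M.IsBase B → ∀ e ∈ B, col B e = 0 := fun B hB e he =>
    h.cyc.inj _ (hU B hB e) fun z hz => by
      rw [hcol B hB e z hz]
      by_cases hez : e = z
      · simp [← hez, h.tab.diag B hB e he]
      · simp [hez, h.tab.off hB he (Ne.symm hez)]
  have v0 : ∀ B, M.IsBase B → ∀ b e, T B b e = 0 → φ (col B e) (row B b) = 0 :=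
    fun B hB b e h0 => hv _ (hU B hB e) _ (hW B hB b) (h.pair.dis (hU B hB e) (hW B hB b)
      fun z hz => by
        rw [hcol B hB e z hz, hrow B hB b z hz]
        by_cases hez : e = z
        · right; rw [← hez, h0, map_zero]
        · by_cases hzB : z ∈ B
          · by_cases hzb : b = z
            · left; simp [← hzb, h0, show ¬ e = b from hzb ▸ hez]
            · right; rw [h.tab.off hB hzB hzb, map_zero]
          · left; simp [hez, h.tab.row hB hzB])
  have nz : ∀ B, M.IsBase B → ∀ b e, T B b e ≠ 0 → s4 (T B b e) ≠ 0 := fun B hB b e h0 =>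
    ((h.tab.mem B hB b e).resolve_left h0).map_ne_zero s4
  have tw : ∀ B, M.IsBase B → ZlTw M U W φ B fun b e => φ (col B e) (row B b) := by
    intro B hB b hb e he heB u hu w hw o1 o2 o3 o4
    have e1 : u - col B e = 0 := h.pair.cyc.cyc_indep (U.sub_mem hu (hU B hB e)) hB.indep
      fun z hz hzB => by
        rw [Pi.sub_apply, hcol B hB e z hz, h.tab.row hB hzB]
        by_cases hez : e = z
        · simp [← hez, o1]
        · simp [hez, o2 z hz hzB (Ne.symm hez)]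
    have e2 : w - row B b = 0 := h.pair.coc.eq_zero (X := B) (W.sub_mem hw (hW B hB b))
      (by rw [rk_base hB, rk_indep hB.indep]) fun z hz => by
        rw [Pi.sub_apply, hrow B hB b z (hB.subset_ground hz)]
        by_cases hbz : b = z
        · simp [← hbz, o3, h.tab.diag B hB b hb]
        · simp [o4 z hz (Ne.symm hbz), h.tab.off hB hz hbz]
    rw [sub_eq_zero.1 e1, sub_eq_zero.1 e2]
  have h2 : (2 : R0) ≠ 0 := fun h0 => by
    have := congrArg (pt (2 : ℚ) 3 (by norm_num)) h0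
    rw [map_ofNat, map_zero] at this
    norm_num at this
  refine ⟨fun B => Matrix.of fun b e => zlM (s4 (T B b e)) (φ (col B e) (row B b)),
    ⟨fun B hB b e => ?_, fun B hB b e => ?_, fun B hB b hb => ?_, fun B B' hB hB' => ?_⟩,
    fun B hB g k j e f a1 a2 a3 a4 a5 a6 p q hp hq =>
      zl_core h (fun _ => rfl) hn hB (tw B hB) a1 a2 a3 a4 a5 a6 hp hq,
    fun B hB z g k e f a1 a2 a3 a4 a5 a6 p q hp hq => ?_, h.tab.noF7 h2,
    (U2.dual h.tab).noF7 h2⟩
  · by_cases h0 : T B b e = 0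
    · left; rw [Matrix.of_apply, v0 B hB b e h0, h0, map_zero, zl_zero]
    · right; exact (zl_unit _ _ (nz B hB b e h0)).1
  · rw [← h.tab.supp B hB, Matrix.of_apply]
    exact ⟨fun h1 h0 => h1 (by rw [v0 B hB b e h0, h0, map_zero, zl_zero]),
      fun h0 => (zl_unit _ _ (nz B hB b e h0)).2⟩
  · rw [Matrix.of_apply, c0 B hB b hb, h.tab.diag B hB b hb, map_one, map_zero,
      LinearMap.zero_apply, zl_one]
  · ext1 x e
    have rW : row B' x = ∑ b, s4 (T B' x b) • row B b := sub_eq_zero.1 (h.coc.inj _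
      (W.sub_mem (hW B' hB' x) (W.sum_mem fun b _ => W.smul_mem _ (hW B hB b))) fun z hz => by
        simp only [Pi.sub_apply, Finset.sum_apply, Pi.smul_apply, smul_eq_mul, hrow B hB _ z hz,
          hrow B' hB' x z hz, h.tab.mul_apply hB hB' x z, map_sum, map_mul, sub_self])
    have rU : col B' e = col B e + ∑ b, t4 (T B b e) • col B' b := sub_eq_zero.1 (h.cyc.inj _
      (U.sub_mem (hU B' hB' e) (U.add_mem (hU B hB e)
        (U.sum_mem fun b _ => U.smul_mem _ (hU B' hB' b)))) fun z hz => by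
        simp only [Pi.sub_apply, Pi.add_apply, Finset.sum_apply, Pi.smul_apply, smul_eq_mul,
          hcol B hB _ z hz, hcol B' hB' _ z hz, h.tab.mul_apply hB hB' z e, map_sum, map_mul,
          sub_mul, Finset.sum_sub_distrib, ite_mul, one_mul, zero_mul, Finset.sum_ite_eq',
          Finset.mem_univ, if_true, mul_comm (t4 (T B _ e))]
        ring)
    simp only [Matrix.mul_apply, Matrix.of_apply, zl_mul, zl_sum]
    rw [h.tab.mul_apply hB hB' x e, map_sum, rU, Finset.sum_add_distrib, map_add,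
      LinearMap.add_apply]
    congr 2
    · exact funext fun b => (map_mul _ _ _).symm
    · rw [rW, map_sum]
      simp only [map_smul, smul_eq_mul]
    · simp only [map_sum, map_smul, LinearMap.sum_apply, LinearMap.smul_apply, smul_eq_mul]
      exact Finset.sum_congr rfl fun b _ => mul_comm _ _
  · have ad : ∀ {b e}, Adj M B b e → Adj M✶ (M.E \ B) e b := fun a =>
      (adj_dual hB.subset_ground).2 a
    have st : ∀ {b e}, Adj M B b e → ∀ c, zlM (t4 (duT M T (M.E \ B) e b)) c =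
        star (zlM (s4 (T B b e)) c) := fun {b e} a c => by
      rw [duT, dualT_of_ne _ _ _ _ (fun e' : e = b => a.2.1 (e' ▸ a.1)),
        sdiff_sdiff_cancel_left hB.subset_ground, map_neg, zl_neg, zl_star]
      rfl
    refine zl_core (φ := φ.flip) (c := fun e b => φ (col B e) (row B b)) h.dual
      (fun _ => (star_star _).symm) (fun I J hf hg => hn J I (by simpa using hf.dual) hg.flip)
      hB.compl_isBase_dual ?_ (ad a2) (ad a1) (ad a4) (ad a3) (ad a6) (ad a5) ?_ ?_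
    · intro e he b hb hbB w hw u hu o1 o2 o3 o4
      have hb' : b ∈ B := by_contra fun h0 => hbB ⟨hb, h0⟩
      exact tw B hB b hb' e he.1 he.2 u hu w hw o3 (fun z b1 b2 => o4 z ⟨b1, b2⟩) o1
        fun z b1 => o2 z (hB.subset_ground b1) fun b2 => b2.2 b1
    · rw [st a1, st a2, st a3, st a4, star_star, star_star]
      exact hp
    · rw [st a1, st a2, st a5, st a6, star_star, star_star]
      exact hq

theorem Hyp.isQU_univ {S : Set E → Matrix E E Lam} (h : Hyp M S) (hE : M.E = univ) : IsQU M := by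
  obtain ⟨r, A, ⟨⟨f0, h0⟩, h1⟩, -, h2⟩ := h.isQU
  have hm : ∀ e, e ∈ M.E := fun e => hE ▸ mem_univ e
  refine ⟨r, Matrix.of fun i e => A i ⟨e, hm e⟩, ⟨⟨fun i => f0 i, h0⟩, fun c hc => ?_⟩, hE,
    fun B => ?_⟩
  · obtain ⟨⟨x, hx⟩, c1, c2⟩ := hc
    obtain ⟨l, u, b1, b2⟩ := h1 (fun e => c e) ⟨⟨x, by rw [hx]; rfl⟩,
      fun b => c1 (funext fun e => congrFun b ⟨e, hm e⟩), fun d ⟨y, hy⟩ b1 b2 =>
        c2 (fun e => d ⟨e, hm e⟩) ⟨y, by rw [hy]; rfl⟩
          (fun b => b1 (funext fun e => congrFun b e))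
          ⟨fun e he => b2.1 he, fun b => b2.2 fun e he => b he⟩⟩
    exact ⟨l, fun e => u ⟨e, hm e⟩, funext fun e => congrFun b1 ⟨e, hm e⟩, fun e => b2 _⟩
  · have e1 : Subtype.val '' (Subtype.val ⁻¹' B : Set M.E) = B :=
      image_preimage_eq_of_subset fun e _ => ⟨⟨e, hm e⟩, rfl⟩
    have e2 := h2 (Subtype.val ⁻¹' B)
    rw [Matroid.restrictSubtype_ground_isBase_iff, e1] at e2
    rw [e2]
    constructor
    · rintro ⟨f, b1, b2, b3⟩
      exact ⟨fun i => f i, Subtype.val_injective.comp b1, by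
        rw [← e1, ← b2, ← range_comp]; rfl, b3⟩
    · rintro ⟨f, b1, b2, b3⟩
      refine ⟨fun i => ⟨f i, hm _⟩, fun i j e => b1 (congrArg Subtype.val e), ?_, b3⟩
      ext z
      rw [← b2]
      exact ⟨fun ⟨i, hi⟩ => ⟨i, congrArg Subtype.val hi⟩, fun ⟨i, hi⟩ => ⟨i, Subtype.ext hi⟩⟩

end Pool.Agent.Lib.MP_10bdcf_co.G
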