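import Pool.Agent.Lib.MP_10bdcf_co.ZK2

/-!
Counting dimensions: rank at most two, frames.
-/

namespace Pool.Agent.Lib.MP_10bdcf_co.G

open scoped Matroid
open Set

set_option linter.unusedSectionVars false

variable {E F : Type} [Fintype E] [Field F] {M : Matroid E} {T : Set E → Matrix E E R0}
  {x y : R0 →+* F} {U W : Sb F E} {φ ψ ξ : Fm F E} {I J : Set E} {e f : E} {v : F × F}

theorem Rep.finrank (h : Rep M W) : Module.finrank F W = rk M M.E := by
  classical
  obtain ⟨B, hB⟩ := M.exists_isBase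
  let r : W →ₗ[F] (B → F) := LinearMap.pi fun b => (co b.1).comp W.subtype
  have h1 : Function.Injective r := (injective_iff_map_eq_zero r).2 fun w hw =>
    Subtype.ext (h.eq_zero w.2 ((rk_indep hB.indep).trans (rk_base hB).symm)
      fun z hz => congrFun hw ⟨z, hz⟩)
  have h2 : Function.Surjective r := fun c => by
    obtain ⟨w, hw, h3⟩ := h.ext B hB.indep fun z => if hz : z ∈ B then c ⟨z, hz⟩ else 0
    exact ⟨⟨w, hw⟩, funext fun b => (h3 b b.2).trans (dif_pos b.2)⟩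
  rw [(LinearEquiv.ofBijective r ⟨h1, h2⟩).finrank_eq, rk_base hB,
    Module.finrank_fintype_fun_eq_card, ← Nat.card_eq_fintype_card, Nat.card_coe_set_eq]

/-- The restriction of a form to `U × W`. -/
def zmRes (U W : Sb F E) : Fm F E →ₗ[F] (U →ₗ[F] W →ₗ[F] F) where
  toFun φ := φ.domRestrict₁₂ U W
  map_add' _ _ := rfl
  map_smul' _ _ := rfl

theorem zm_agr : Agr φ ψ U W ↔ zmRes U W φ = zmRes U W ψ :=
  ⟨fun h => LinearMap.ext fun u => LinearMap.ext fun w => h u u.2 w w.2,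
    fun h u hu w hw => LinearMap.congr_fun (LinearMap.congr_fun h ⟨u, hu⟩) ⟨w, hw⟩⟩

theorem zm_onto (U W : Sb F E) : Function.Surjective (zmRes U W) := fun χ => by
  obtain ⟨p, hp⟩ := U.subtype.exists_leftInverse_of_injective U.ker_subtype
  obtain ⟨q, hq⟩ := W.subtype.exists_leftInverse_of_injective W.ker_subtype
  refine ⟨χ.compl₁₂ p q, LinearMap.ext fun u => LinearMap.ext fun w => ?_⟩
  change χ ((p ∘ₗ U.subtype) u) ((q ∘ₗ W.subtype) w) = _
  rw [hp, hq]
  rfl

theorem zm_dim (h : Pair M U W) :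
    Module.finrank F (U →ₗ[F] W →ₗ[F] F) = rk M✶ M.E * rk M M.E := by
  rw [Module.finrank_linearMap, Module.finrank_linearMap, Module.finrank_self, mul_one,
    h.cyc.finrank, h.coc.finrank, Matroid.dual_ground]

theorem zm_surj (h : Pair M U W) {V : Type} [AddCommGroup V] [Module F V] [Module.Finite F V]
    (L : V →ₗ[F] Fm F E) (hn : rk M✶ M.E * rk M M.E ≤ Module.finrank F V)
    (hi : ∀ a, Agr (L a) 0 U W → a = 0) (φ : Fm F E) : ∃ a, Agr φ (L a) U W := by
  have h1 : Function.Injective (zmRes U W ∘ₗ L) := (injective_iff_map_eq_zero _).2 fun a ha =>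
    hi a (zm_agr.2 (ha.trans (map_zero _).symm))
  have h2 := LinearMap.finrank_le_finrank_of_injective h1
  have h3 : Function.Surjective (zmRes U W ∘ₗ L) :=
    (LinearMap.injective_iff_surjective_of_finrank_eq_finrank (K := F) (V := V)
      (V₂ := U →ₗ[F] W →ₗ[F] F) (le_antisymm h2 ((zm_dim h).trans_le hn))).1 h1
  obtain ⟨a, ha⟩ := h3 (zmRes U W φ)
  exact ⟨a, zm_agr.2 ha.symm⟩

open Classical in
/-- The diagonal forms with coefficients supported on `S`. -/
noncomputable def zmG (S : Set E) : (S → F) →ₗ[F] Fm F E where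
  toFun γ := gf fun z => if hz : z ∈ S then γ ⟨z, hz⟩ else 0
  map_add' _ _ := by
    rw [← gf_add]
    congr 1
    funext z
    by_cases hz : z ∈ S <;> simp [hz]
  map_smul' _ _ := by
    rw [← gf_smul]
    congr 1
    funext z
    by_cases hz : z ∈ S <;> simp [hz]

theorem zm_dimS (S : Set E) : Module.finrank F (S → F) = S.ncard := by
  classical
  rw [Module.finrank_fintype_fun_eq_card, ← Nat.card_eq_fintype_card, Nat.card_coe_set_eq]

theorem zm_span (h : Pair M U W) {V : Type} [AddCommGroup V] [Module F V] [Module.Finite F V]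
    (A : V →ₗ[F] Fm F E) (S : Set E) (hn : rk M✶ M.E * rk M M.E ≤ S.ncard + Module.finrank F V)
    (h1 : ∀ a, Gauge (A a) U W → a = 0)
    (h2 : ∀ γ : E → F, (∀ z, z ∉ S → γ z = 0) → Agr (gf γ) 0 U W → ∀ z ∈ S, γ z = 0)
    (φ : Fm F E) : ∃ a, Gauge (φ - A a) U W := by
  obtain ⟨a, ha⟩ := zm_surj h ((zmG S).coprod A) (by rwa [Module.finrank_prod, zm_dimS])
    (fun a ha => by
      have h4 : Gauge (zmG S a.1) U W := gauge_gf _ U W
      have h3 : a.2 = 0 := h1 _ ((h4.smul (-1)).congr fun u hu w hw => by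
        simpa [eq_neg_iff_add_eq_zero, add_comm] using ha u hu w hw)
      refine Prod.ext (funext fun z => ?_) h3
      rw [LinearMap.coprod_apply, h3, map_zero, add_zero] at ha
      exact (dif_pos z.2).symm.trans (h2 _ (fun z hz => dif_neg hz) ha z z.2)) φ
  exact ⟨a.2, _, fun u hu w hw => sub_eq_iff_eq_add.2 (ha u hu w hw)⟩

/-- A family of forms that is independent on `U × W` and has enough members spans. -/
theorem Pair.span_of_indep (h : Pair M U W) {ι : Type} [Fintype ι] (χ : ι → Fm F E)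
    (hn : rk M✶ M.E * rk M M.E ≤ Fintype.card ι)
    (hi : ∀ c : ι → F, Agr (∑ i, c i • χ i) 0 U W → c = 0) (φ : Fm F E) :
    ∃ c : ι → F, Agr φ (∑ i, c i • χ i) U W :=
  zm_surj h (Fintype.linearCombination F χ) (by rwa [Module.finrank_fintype_fun_eq_card]) hi φ

theorem Pair.exists_dep (h : Pair M U W) {ι : Type} [Fintype ι] (χ : ι → Fm F E)
    (hn : rk M✶ M.E * rk M M.E < Fintype.card ι) :
    ∃ c : ι → F, c ≠ 0 ∧ Agr (∑ i, c i • χ i) 0 U W := by
  by_contra h1
  have h2 : Function.Injective (zmRes U W ∘ₗ Fintype.linearCombination F χ) :=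
    (injective_iff_map_eq_zero _).2 fun a ha =>
      by_contra fun h3 => h1 ⟨a, h3, zm_agr.2 (ha.trans (map_zero _).symm)⟩
  have h3 := LinearMap.finrank_le_finrank_of_injective h2
  rw [zm_dim h, Module.finrank_fintype_fun_eq_card] at h3
  omega

theorem Pair.exists_not_gauge (h : Pair M U W) (hn : M.E.ncard < rk M✶ M.E * rk M M.E) :
    ∃ φ : Fm F E, ¬ Gauge φ U W := by
  by_contra h1
  have h2 : Function.Surjective (zmRes U W ∘ₗ zmG M.E) := fun χ => by
    obtain ⟨φ, rfl⟩ := zm_onto U W χ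
    obtain ⟨γ, hγ⟩ : Gauge φ U W := by_contra fun h3 => h1 ⟨φ, h3⟩
    exact ⟨fun z => γ z, (zm_agr.1 (hγ.trans (h.gf_eq fun z hz => by simp [hz]))).symm⟩
  have h3 := LinearMap.finrank_le_finrank_of_surjective h2
  rw [zm_dim h, zm_dimS] at h3
  omega

/-- On `U_{2,4}`, `U_{2,5}` and `U_{3,5}` every form is valid. -/
theorem Pair.val_unif (h : Pair M U W) {k n : ℕ} (hu : IsUnif k n M) (φ : Fm F E) : Val φ U W := by
  refine h.val_of_circuit fun C D hC hD hd => ?_
  have h1 := isCircuit_rk hC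
  have h2 := isCocircuit_rk hD
  have h3 := hu.2 C hC.subset_ground
  have h4 := hu.2 M.E Subset.rfl
  have h5 := rk_mono M (subset_sdiff.2 ⟨hC.subset_ground, hd⟩)
  omega

theorem zm_frame (h : IsR M) : Frame M ∅ ∅ := ⟨op_empty M, by rwa [mn_empty]⟩

theorem zm_rkR (h : IsR M) : M.E.ncard = 5 ∧ rk M✶ M.E * rk M M.E = 6 := by
  have h1 := rk_dual_ground M
  rcases h with h | h
  · have h2 := h.2 M.E Subset.rfl
    rw [h.1] at h1 h2
    exact ⟨h.1, by rw [show rk M✶ M.E = 3 by omega, h2]; rfl⟩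
  · have h2 := h.2 M.E Subset.rfl
    rw [h.1] at h1 h2
    exact ⟨h.1, by rw [show rk M✶ M.E = 2 by omega, h2]; rfl⟩

theorem zm_rk24 (h : IsUnif 2 4 M) : rk M✶ M.E * rk M M.E = 4 := by
  have h1 := rk_dual_ground M
  have h2 := h.2 M.E Subset.rfl
  rw [h.1] at h1 h2
  rw [show rk M✶ M.E = 2 by omega, h2]
  rfl

theorem zm_site (hT : U2 M T) (h : IsUnif 2 4 M) : HasSite M := by
  refine Line.hasSite (I := ∅) (S := M.E) hT ⟨M.empty_indep, ?_, Subset.rfl, ?_⟩ h.1.ge
  · simpa [h.1] using h.2 M.E Subset.rfl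
  · intro p hp q hq hne
    simpa [ncard_pair hne] using h.2 {p, q} (pair_subset hp hq)

theorem zm_conn (h : IsUnif 2 4 M) : Conn M := fun X hX hl => by
  have h1 := lam_add M X
  have h2 := h.2 X hX
  have h3 := h.2 (M.E \ X) sdiff_subset
  have h4 := h.2 M.E Subset.rfl
  have h5 := cc_card hX
  have h6 := h.1
  omega

/-- At a point only the constant diagonal forms vanish. -/
theorem zm_same (h : Obj M T x x U W) (hc : Conn M) {V : Type} [AddCommGroup V] [Module F V]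
    [Module.Finite F V] (A : V →ₗ[F] Fm F E) (h0 : 0 < M.E.ncard)
    (hn : rk M✶ M.E * rk M M.E < M.E.ncard + Module.finrank F V)
    (h1 : ∀ a, Gauge (A a) U W → a = 0) (φ : Fm F E) : ∃ a, Gauge (φ - A a) U W := by
  obtain ⟨e, he⟩ := nonempty_of_ncard_ne_zero h0.ne'
  have h2 := ncard_sdiff_singleton_add_one he
  refine zm_span h.pair A (M.E \ {e}) (by omega) h1 (fun γ h3 h4 z hz => ?_) φ
  obtain ⟨c, hγ⟩ := h.ker_same hc h4
  rw [hγ z hz.1, ← hγ e he, h3 e fun h5 => h5.2 rfl]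

theorem zm_one (hn : ¬ Gauge ψ U W) (c : F) (h : Gauge (LinearMap.toSpanSingleton F _ ψ c) U W) :
    c = 0 := by_contra fun hc => hn (by simpa [smul_smul, hc] using h.smul c⁻¹)

theorem IsR.ex (h : IsR M) : Ex M T := fun _ F _ x y U W _ ho => by
  obtain ⟨h1, h2⟩ := zm_rkR h
  obtain ⟨φ, hφ⟩ := ho.pair.exists_not_gauge (by omega)
  exact ⟨φ, h.elim (fun h => ho.pair.val_unif h φ) fun h => ho.pair.val_unif h φ, hφ⟩

theorem IsR.up (h : IsR M) : Up M T := fun F _ x U W ho φ _ => by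
  obtain ⟨h1, h2⟩ := zm_rkR h
  exact zm_same ho (h.con3.mono one_le_two) ⟨⟨dfm M T x, dfm_add M T x⟩, dfm_smul M T x⟩
    (by omega) (by simp [h1, h2])
    (fun v hv => ho.eq_zero_of_frame (zm_frame h) (by simpa using hv)) φ

theorem IsR.good (h : IsR M) : GoodM M := fun _ _ => ⟨h.up, fun h1 => absurd ⟨_, _, zm_frame h⟩ h1, h.ex⟩

theorem Obj.line_R (h : Obj M T x y U W) (ht : Tw x y) (hR : IsR M) (hn : ¬ Gauge ψ U W)
    (φ : Fm F E) : ∃ c : F, Gauge (φ - c • ψ) U W := by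
  obtain ⟨h1, h2⟩ := zm_rkR hR
  exact zm_span h.pair (LinearMap.toSpanSingleton F _ ψ) M.E (by simp [h1, h2]) (zm_one hn)
    (fun γ _ => h.ker_tw ht (hR.con3.mono one_le_two) (hR.hasSite h.tab)) φ

/-- On a frame the twisted forms modulo diagonal forms are a line. -/
theorem Obj.line_frame (h : Obj M T x y U W) (ht : Tw x y) (hf : Frame M I J)
    (hn : ¬ Gauge ψ (van U J) (van W I)) (φ : Fm F E) :
    ∃ c : F, Gauge (φ - c • ψ) (van U J) (van W I) :=
  (h.minor hf.op).line_R ht hf.isR hn φ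

/-- With injectivity on frames the valid twisted forms modulo diagonal forms are a line. -/
theorem Obj.line (h : Obj M T x y U W) (ht : Tw x y) (hz : NZ M T) (hR : HasR M)
    (h1 : Val ψ U W) (h2 : Val φ U W) (hn : ¬ Gauge ψ U W) : ∃ c : F, Gauge (φ - c • ψ) U W := by
  obtain ⟨I, J, hf⟩ := hR
  obtain ⟨c, hc⟩ := h.line_frame ht hf (fun h3 => hn (hz F x y U W h ψ h1 I J hf h3)) φ
  exact ⟨c, hz F x y U W h _ (h2.sub (h1.smul c)) I J hf hc⟩

theorem Obj.gauge_U24 (h : Obj M T x y U W) (ht : Tw x y) (hu : IsUnif 2 4 M) (φ : Fm F E) :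
    Gauge φ U W := by
  obtain ⟨a, ha⟩ := zm_span h.pair (0 : (Fin 0 → F) →ₗ[F] Fm F E) M.E (by simp [hu.1, zm_rk24 hu])
    (fun _ _ => Subsingleton.elim _ _) (fun γ _ => h.ker_tw ht (zm_conn hu) (zm_site h.tab hu)) φ
  exact ha.congr fun _ _ _ _ => by simp

theorem Obj.line_U24 (h : Obj M T x x U W) (hu : IsUnif 2 4 M) (hn : ¬ Gauge ψ U W)
    (φ : Fm F E) : ∃ c : F, Gauge (φ - c • ψ) U W :=
  zm_same h (zm_conn hu) (LinearMap.toSpanSingleton F _ ψ) (by simp [hu.1])
    (by simp [hu.1, zm_rk24 hu]) (zm_one hn) φ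

theorem IsUnif.good24 (hu : IsUnif 2 4 M) : GoodM M := fun T hT => by
  refine ⟨fun F _ x U W ho φ _ => ?_, ?_, fun h => absurd h.five_le (by simp [hu.1])⟩
  · obtain ⟨m, hm⟩ := (zm_site hT hu).exists_cr hT
    obtain ⟨v, hv⟩ := exists_der_one x (hT.cr_mem hm) 1
    obtain ⟨c, hc⟩ := ho.line_U24 hu (ψ := dfm M T x v)
      (fun h => one_ne_zero (hv.symm.trans (ho.der_of_gauge h hm))) φ
    exact ⟨c • v, by rwa [dfm_smul]⟩
  · obtain ⟨U, W, ho, -⟩ := hT.exists_obj s4 s4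
    by_cases h : Gauge (dfm M T s4 (1, 0)) U W
    · exact (ho.k_iff.1 h).oneT hT (by simp)
    · obtain ⟨c, hc⟩ := ho.line_U24 hu h (dfm M T s4 (0, 1))
      rw [← dfm_smul, ← dfm_sub] at hc
      exact (ho.k_iff.1 hc).oneT hT (by simp)

end Pool.Agent.Lib.MP_10bdcf_co.G
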