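import Pool.Agent.Lib.MP_10bdcf_co.ZM2
import Pool.Agent.Lib.MP_10bdcf_co.ZL
import Pool.Agent.Lib.MP_10bdcf_co.UK

/-!
From 3-connected matroids to all matroids: gluing along separations of order at most two.
-/

namespace Pool.Agent.Lib.MP_10bdcf_co.G

open scoped Matroid
open Set

set_option linter.unusedSectionVars false

variable {E F : Type} [Fintype E] [Field F] {M : Matroid E} {T : Set E → Matrix E E R0}
  {x y : R0 →+* F} {U W : Sb F E} {φ ψ : Fm F E} {A B K L I J C D : Set E} {w : E → F}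

/-- `K` is a basis of the complement of `A` in the contraction of `A`. -/
structure Skw (M : Matroid E) (A K : Set E) : Prop where
  sub : K ⊆ M.E \ A
  add : rk M (A ∪ K) = rk M A + K.ncard
  span : rk M (A ∪ K) = rk M M.E

theorem exists_skew_base (hA : A ⊆ M.E) : ∃ K, Skw M A K := by
  obtain ⟨K, -, h1, h2, h3⟩ := exists_skew hA (sdiff_subset (t := A)) (empty_subset _) (by simp)
  exact ⟨K, h1, h2, by rw [h3, union_sdiff_cancel hA]⟩

theorem Skw.indep (h : Skw M A K) : M.Indep K := by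
  exact indep_iff_rk.2 (zt_indep_of_skew h.add)

theorem Skw.indep_union (h : Skw M A K) (hL : M.Indep L) (hA : L ⊆ A) : M.Indep (L ∪ K) := by
  have h1 := rk_submod' M (X := L ∪ K) (Y := A) (Q := A ∪ K) subset_union_left hA
    (by rintro z (hz | hz) <;> simp [hz])
  have h2 := rk_le_ncard M (L ∪ K)
  have h3 := ncard_union_le L K
  have h4 := rk_indep hL
  have h5 := h.add
  exact indep_iff_rk.2 (by omega)

theorem Skw.op (h : Skw M A K) : Op M K ∅ := by
  exact ⟨h.indep, M✶.empty_indep, disjoint_empty _⟩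

theorem Skw.exists_part (h : Skw M A K) (hA : A ⊆ M.E) (hW : Rep M W) (hw : w ∈ W) :
    ∃ w' ∈ van W K, ∀ z ∈ A, w' z = w z := by
  classical
  obtain ⟨L, hL⟩ := M.exists_isBasis A hA
  obtain ⟨w', h1, h2⟩ := hW.ext _ (h.indep_union hL.indep hL.subset)
    fun z => if z ∈ K then 0 else w z
  refine ⟨w', ⟨h1, fun z hz => by rw [h2 z (Or.inr hz), if_pos hz]⟩, fun z hz => ?_⟩
  refine sub_eq_zero.1 (hW.cl _ (W.sub_mem h1 hw) L z (fun t ht => ?_) (hL.subset_closure hz))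
  rw [Pi.sub_apply, h2 t (Or.inl ht), if_neg fun h3 => (h.sub h3).2 (hL.subset ht), sub_self]

/-- A circuit and a disjoint cocircuit do not both cross a separation of order at most two. -/
theorem not_cross (hA : A ⊆ M.E) (hl : lam M A ≤ 1) (hC : M.IsCircuit C) (hD : M.IsCocircuit D)
    (hd : Disjoint C D) : C ⊆ A ∨ C ⊆ M.E \ A ∨ D ⊆ A ∨ D ⊆ M.E \ A := by
  by_contra! h
  obtain ⟨⟨c1, a1, a2⟩, ⟨c2, a3, a4⟩, ⟨d1, a5, a6⟩, d2, a7, a8⟩ :=
    h.imp not_subset.1 (And.imp not_subset.1 (And.imp not_subset.1 not_subset.1))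
  have a4 : c2 ∈ A := by_contra fun h => a4 ⟨hC.subset_ground a3, h⟩
  have hD' : D ⊆ M.E := hD.subset_ground
  have a8 : d2 ∈ A := by_contra fun h => a8 ⟨hD' a7, h⟩
  have hCH : C ⊆ M.E \ D := subset_sdiff.2 ⟨hC.subset_ground, hd⟩
  have b1 := rk_indep (hC.ssubset_indep
    ((ssubset_iff_of_subset (inter_subset_left (t := A))).2 ⟨c1, a1, fun h => a2 h.2⟩))
  have b2 := rk_indep (hC.ssubset_indep
    ((ssubset_iff_of_subset (sdiff_subset (t := A))).2 ⟨c2, a3, fun h => h.2 a4⟩))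
  have b3 := ncard_inter_add_ncard_sdiff_eq_ncard C A
  have b4 := isCircuit_rk hC
  have b5 := isCocircuit_rk hD
  have b6 := rk_insert_of_notMem (X := (M.E \ D) ∩ A) (hD' a7) fun h =>
    isCocircuit_notMem hD a7 (M.closure_subset_closure inter_subset_left h)
  have b7 := rk_insert_of_notMem (X := (M.E \ D) \ A) (hD' a5) fun h =>
    isCocircuit_notMem hD a5 (M.closure_subset_closure sdiff_subset h)
  have b8 := rk_mono M (insert_subset a8 (inter_subset_right (s := M.E \ D)))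
  have b9 := rk_mono M (insert_subset (mem_sdiff_of_mem (hD' a5) a6)
    (sdiff_subset_sdiff_left (sdiff_subset (t := D))))
  have c1 := rk_submod' M (X := (M.E \ D) ∩ A) (Y := C) (inter_subset_inter_left A hCH)
    inter_subset_left Subset.rfl
  have c2 := rk_submod' M (X := (M.E \ D) ∩ A ∪ C) (Y := (M.E \ D) \ A) (Q := M.E \ D)
    (sdiff_subset.trans subset_union_right) (sdiff_subset_sdiff_left hCH) fun z hz =>
      (em (z ∈ A)).elim (fun h => Or.inl (Or.inl ⟨hz, h⟩)) fun h => Or.inr ⟨hz, h⟩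
  have c3 := lam_add M A
  omega

theorem Skw.zw (h : Skw M (M.E \ A) L) (hA : A ⊆ M.E) : L ⊆ A :=
  h.sub.trans (sdiff_sdiff_cancel_left hA).le

theorem zw_half (h : Pair M U W) (hA : A ⊆ M.E) (hK : Skw M A K) (hL : L ⊆ A)
    (h1 : Val φ U (van W K)) (h2 : Val φ U (van W L)) {u : E → F} (hu : u ∈ U) (hw : w ∈ W)
    (hd : Dis u w) (h0 : ∀ z ∈ M.E, z ∉ A → u z = 0) : φ u w = 0 := by
  obtain ⟨w', a1, a2⟩ := hK.exists_part hA h.coc hw
  have a3 : ∀ z ∈ A, (w - w') z = 0 := fun z hz => by rw [Pi.sub_apply, a2 z hz, sub_self]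
  have a4 := h1 u hu w' a1 (h.dis hu a1.1 fun z hz => (em (z ∈ A)).elim
    (fun h => a2 z h ▸ hd z) fun h => Or.inl (h0 z hz h))
  have a5 := h2 u hu (w - w') ⟨W.sub_mem hw a1.1, fun z hz => a3 z (hL hz)⟩
    (h.dis hu (W.sub_mem hw a1.1) fun z hz => (em (z ∈ A)).elim
      (fun h => Or.inr (a3 z h)) fun h => Or.inl (h0 z hz h))
  rwa [map_sub, a4, sub_zero] at a5

theorem Pair.val_sep (h : Pair M U W) (hA : A ⊆ M.E) (hl : lam M A ≤ 1) (hK : Skw M A K)
    (hL : Skw M (M.E \ A) L) (h1 : Val φ U (van W K)) (h2 : Val φ U (van W L)) : Val φ U W := by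
  refine h.val_of_circuit fun C D hC hD hd u hu w hw hu' hw' => ?_
  have a1 : ∀ z ∈ M.E, z ∉ C → u z = 0 := fun z hz h => by_contra fun h' => h ((hu' z hz).1 h')
  have a2 : ∀ z ∈ M.E, z ∉ D → w z = 0 := fun z hz h => by_contra fun h' => h ((hw' z hz).1 h')
  have a3 : Dis u w := h.dis hu hw fun z hz =>
    (em (z ∈ C)).elim (fun h => Or.inr (a2 z hz (disjoint_left.1 hd h))) fun h => Or.inl (a1 z hz h)
  rcases not_cross hA hl hC hD hd with hs | hs | hs | hs
  · exact zw_half h hA hK (hL.zw hA) h1 h2 hu hw a3 fun z hz h => a1 z hz fun h' => h (hs h')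
  · exact zw_half h sdiff_subset hL hK.sub h2 h1 hu hw a3 fun z hz h => a1 z hz fun h' => h (hs h')
  · exact h1 u hu w ⟨hw, fun z hz => a2 z (hK.sub hz).1 fun h => (hK.sub hz).2 (hs h)⟩ a3
  · exact h2 u hu w ⟨hw, fun z hz => a2 z (hL.sub hz).1 fun h => (hL.sub hz).2 (hs h)⟩ a3

theorem Obj.glue_sep (h : Obj M T x y U W) (hA : A ⊆ M.E) (hl : lam M A ≤ 1) (hK : Skw M A K)
    (hL : Skw M (M.E \ A) L) (h1 : Val φ U (van W K)) (h2 : Val ψ U (van W L)) :
    ∃ χ, Val χ U W ∧ Gauge (χ - φ) U (van W K) ∧ Gauge (χ - ψ) U (van W L) := by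
  have ho : Op M (L ∪ K) ∅ :=
    ⟨hK.indep_union hL.indep (hL.zw hA), M✶.empty_indep, disjoint_empty _⟩
  have hs : ¬ HasSite (mn M (L ∪ K) ∅) := fun hs => by
    obtain ⟨I, S, a1, -⟩ := hs.exists_line (h.tab.minor ho)
    have a2 := a1.rank
    have a3 := ho.rank
    have a4 := lam_add M A
    rw [ncard_union_eq (disjoint_left.2 fun z hz hz' => (hK.sub hz').2 (hL.zw hA hz))] at a3
    have := hK.add; have := hK.span; have := hL.add; have := hL.span
    omega
  have hm := h.minor ho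
  rw [van_empty] at hm
  obtain ⟨γ, a1⟩ := hm.gauge_of_noSite hs (h1.mono le_rfl (van_anti W subset_union_right))
  obtain ⟨δ, a2⟩ := hm.gauge_of_noSite hs (h2.mono le_rfl (van_anti W subset_union_left))
  obtain ⟨χ, a3, a4⟩ := exists_glue_right (φ1 := φ) (φ2 := ψ + gf (γ - δ)) (U := U)
    (W1 := van W K) (W2 := van W L) fun u hu w hw => by
      rw [van_inf, union_comm] at hw
      simp [gf_sub, a1 u hu w hw, a2 u hu w hw]
  exact ⟨χ, h.pair.val_sep hA hl hK hL (h1.congr a3) ((h2.add (val_gf _ _ _)).congr a4),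
    ⟨0, fun u hu w hw => by simp [a3 u hu w hw]⟩, γ - δ, fun u hu w hw => by simp [a4 u hu w hw]⟩

theorem Frame.shift_zero (hf : Frame M I J) (hA : A ⊆ M.E) (hl : lam M A = 0) (hK : Skw M A K)
    (hs : M.E \ A ⊆ I ∪ J) : ∃ I' J', Frame M I' J' ∧ K ⊆ I' ∧
      ∀ (F : Type) [Field F] (U W : Sb F E), Pair M U W →
        van U J' ≤ van U J ∧ van W I' ≤ van W I := by
  have a1 := lam_add M A
  have a2 := hK.add
  have a3 := hK.span
  have a4 := rk_indep hK.indep
  have a5 := rk_coindep hf.coi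
  have a6 := rk_union_le M A (I \ A)
  have a7 := rk_mono M (show M.E \ J ⊆ A ∪ I \ A from fun z hz => (em (z ∈ A)).elim Or.inl
    fun h => Or.inr ⟨(hs ⟨hz.1, h⟩).resolve_right hz.2, h⟩)
  have hI := hf.op.sub_left
  have b1 : M.E \ A ⊆ M.closure K := subset_closure_of_rk sdiff_subset (by
    rw [union_eq_self_of_subset_left hK.sub]; omega)
  have b2 : M.E \ A ⊆ M.closure (I \ A) := subset_closure_of_rk sdiff_subset (by
    rw [union_eq_self_of_subset_left (sdiff_subset_sdiff_left hI)]; omega)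
  have b3 := hK.indep_union (hf.ind.inter_right A) inter_subset_right
  have b4 : I ⊆ M.closure (I ∩ A ∪ K) := fun z hz => (em (z ∈ A)).elim
    (fun h => M.subset_closure _ b3.subset_ground (Or.inl ⟨hz, h⟩))
    fun h => M.closure_subset_closure subset_union_right (b1 ⟨hI hz, h⟩)
  refine ⟨_, _, hf.swap b3 (union_subset (inter_subset_left.trans subset_union_left)
    (hK.sub.trans hs)) (subset_antisymm (M.closure_subset_closure_of_subset_closure (union_subset
      (inter_subset_left.trans (M.subset_closure I hI)) (hK.sub.trans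
        (b2.trans (M.closure_subset_closure sdiff_subset)))))
      (M.closure_subset_closure_of_subset_closure b4)), subset_union_right, fun F _ U W hp =>
    ⟨fun u hu => ⟨hu.1, fun z hz => by_contra fun h0 => ?_⟩,
      fun w hw => ⟨hw.1, fun z hz => hp.coc.cl w hw.1 _ z hw.2 (b4 hz)⟩⟩⟩
  have c1 : z ∈ K := by_contra fun h => h0 (hu.2 z ⟨Or.inr hz, fun h' =>
    h'.elim (fun h' => disjoint_left.1 hf.dis h'.1 hz) h⟩)
  have c2 := rk_insert_of_mem (hp.cyc.cyc_mem (X := A ∪ K) hu.1 (hK.sub c1).1 h0 fun t ht h _ =>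
    hu.2 t ⟨hs ⟨ht, fun h' => h (Or.inl h')⟩, fun h' => h (h'.imp_left And.right)⟩)
  rw [insert_sdiff_self_of_mem (mem_union_right A c1)] at c2
  have c3 := rk_mono M (show (A ∪ K) \ {z} ⊆ A ∪ K \ {z} from
    fun t ht => ht.1.imp_right fun h => ⟨h, ht.2⟩)
  have c4 := rk_union_le M A (K \ {z})
  have c5 := rk_le_ncard M (K \ {z})
  have c6 := ncard_sdiff_singleton_add_one c1
  omega

theorem zw_one (hf : Frame M I J) (hA : A ⊆ M.E) (hl : lam M A = 1) (hL : Skw M (M.E \ A) L)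
    (hs : (A \ (I ∪ J)).ncard ≤ 1) : ∃ I' J', Shift M A I J I' J' ∧ L ⊆ I' := by
  have a1 := hL.op.lam_mn (X := A \ L) disjoint_sdiff_left (disjoint_empty _)
  rw [sdiff_union_of_subset (hL.zw hA), union_empty] at a1
  have a2 := rk_mono M (show M.E \ A ∪ L ⊆ M.E \ (A \ L) from fun z hz => hz.elim
    (fun h => ⟨h.1, fun h' => h.2 h'.1⟩) fun h => ⟨(hL.sub h).1, fun h' => h'.2 h⟩)
  have a3 := rk_le_rank M (M.E \ (A \ L))
  have a4 := lam_add M A
  have a5 := hL.add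
  have a6 := hL.span
  obtain ⟨I', J', b1, b2, -⟩ := hf.shift hA hl.le hs hL.op (hL.zw hA) (empty_subset A)
    (by rw [union_empty]; omega)
  exact ⟨I', J', b1, b2⟩

theorem Frame.shift_sep (hf : Frame M I J) (hA : A ⊆ M.E) (hl : lam M A ≤ 1) (hK : Skw M A K)
    (hL : Skw M (M.E \ A) L) : ∃ I' J', Frame M I' J' ∧ (K ⊆ I' ∨ L ⊆ I') ∧
      ∀ (F : Type) [Field F] (U W : Sb F E) (φ : Fm F E), Pair M U W → Val φ U W →
        Gauge φ (van U J) (van W I) → Gauge φ (van U J') (van W I') := by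
  have hB : M.E \ (M.E \ A) = A := sdiff_sdiff_cancel_left hA
  rcases Nat.le_one_iff_eq_zero_or_eq_one.1 hl with h0 | h0
  · have a1 := lam_minor_le M hf.dis A
    rcases conn_iff.1 (hf.isR.con3.mono one_le_two) (A \ (I ∪ J))
      (by rw [mn_ground]; exact sdiff_subset_sdiff_left hA) (by omega) with h | h
    · obtain ⟨I', J', b1, b2, b3⟩ := hf.shift_zero sdiff_subset ((lam_compl hA).trans h0) hL
        (by rwa [hB, ← sdiff_eq_empty])
      exact ⟨I', J', b1, Or.inr b2, fun F _ U W φ hp _ hg =>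
        hg.mono (b3 F U W hp).1 (b3 F U W hp).2⟩
    · rw [mn_ground] at h
      obtain ⟨I', J', b1, b2, b3⟩ := hf.shift_zero hA h0 hK fun z hz =>
        by_contra fun h' => hz.2 (h.ge ⟨hz.1, h'⟩).1
      exact ⟨I', J', b1, Or.inl b2, fun F _ U W φ hp _ hg =>
        hg.mono (b3 F U W hp).1 (b3 F U W hp).2⟩
  · rcases hf.small hA hl with h | h
    · obtain ⟨I', J', b1, b2⟩ := zw_one hf hA h0 hL h
      exact ⟨I', J', b1.frame, Or.inr b2, b1.gauge⟩
    · obtain ⟨I', J', b1, b2⟩ := zw_one hf sdiff_subset ((lam_compl hA).trans h0)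
        (hB.symm ▸ hK) h
      exact ⟨I', J', b1.frame, Or.inl b2, b1.gauge⟩

/-- A valid twisted form that is not diagonal on any frame. -/
theorem Obj.ex_all (h : Obj M T x y U W) (ht : Tw x y) (hg : HG M) :
    ∃ φ, Val φ U W ∧ ∀ I J, Frame M I J → ¬ Gauge φ (van U J) (van W I) := by
  induction hn : rk M M.E using Nat.strong_induction_on generalizing M T U W with
  | _ n ih =>
  by_cases hv : V3L M
  · by_cases hR : HasR M
    · obtain ⟨φ, a1, a2⟩ := (hv.good hg T h.tab).ex hR F x y U W ht h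
      exact ⟨φ, a1, fun I J hf a3 => a2 (hg.nz h.tab (Or.inl hv) F x y U W h φ a1 I J hf a3)⟩
    · exact ⟨0, fun _ _ _ _ _ => rfl, fun I J hf _ => hR ⟨I, J, hf⟩⟩
  obtain ⟨A, hA, hl⟩ : ∃ A ⊆ M.E, lam M A < min (min (rk M A) (rk M (M.E \ A))) 2 := by
    simpa [V3L] using hv
  obtain ⟨K, hK⟩ := exists_skew_base hA
  obtain ⟨L, hL⟩ := exists_skew_base (sdiff_subset : M.E \ A ⊆ M.E)
  have key : ∀ K, Op M K ∅ → 0 < K.ncard → ∃ φ, Val φ U (van W K) ∧ ∀ χ I J, Frame M I J →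
      K ⊆ I → Gauge (χ - φ) U (van W K) → ¬ Gauge χ (van U J) (van W I) := fun K ho h0 => by
    have := ho.rank
    obtain ⟨φ, a1, a2⟩ := ih _ (by omega) (h.minor ho) (hg.minor ho) rfl
    rw [van_empty] at a1 a2
    refine ⟨φ, a1, fun χ I J hf hI a3 a4 => a2 _ _ (hf.sdiff hI (empty_subset J)) ?_⟩
    rw [van_van, union_sdiff_cancel hI, Set.sdiff_empty]
    exact (a4.sub (a3.mono (van_le U J) (van_anti W hI))).congr fun _ _ _ _ => by simp
  have a1 := lam_add M A
  have a2 := hK.add; have a3 := hK.span; have a4 := hL.add; have a5 := hL.span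
  obtain ⟨φ, b1, b2⟩ := key K hK.op (by omega)
  obtain ⟨ψ, b3, b4⟩ := key L hL.op (by omega)
  obtain ⟨χ, c1, c2, c3⟩ := h.glue_sep hA (by omega) hK hL b1 b3
  refine ⟨χ, c1, fun I J hf c4 => ?_⟩
  obtain ⟨I', J', d1, d2, d3⟩ := hf.shift_sep hA (by omega) hK hL
  have d4 := d3 F U W χ h.pair c1 c4
  exact d2.elim (fun d2 => b2 χ I' J' d1 d2 c2 d4) fun d2 => b4 χ I' J' d1 d2 c3 d4

theorem HG.isQU {r : ℕ} {X : Matrix (Fin r) E K2} (hg : HG M) (hX : IsWeakU2 X)
    (hM : RepresentsK X M) : IsQU M := by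
  obtain ⟨T, hT⟩ := exists_U2 hX hM
  obtain ⟨U, W, h, -⟩ := hT.exists_obj t4 s4
  obtain ⟨φ, h1, h2⟩ := h.ex_all tw_s4.symm hg
  obtain ⟨S, hS⟩ := h.exists_hyp h1 h2
  exact hS.isQU_univ hM.1

end Pool.Agent.Lib.MP_10bdcf_co.G
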