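import Pool.Agent.Lib.MP_10bdcf_co.ZW
import Pool.Agent.Lib.MP_10bdcf_co.RD
import Pool.Agent.Lib.MP_10bdcf_co.XB4
import Pool.Agent.Lib.MP_10bdcf_co.XC3
import Pool.Agent.Lib.MP_10bdcf_co.XD9
import Pool.Agent.Lib.MP_10bdcf_co.XI7
import Pool.Agent.Lib.MP_10bdcf_co.IIZ2

/-!
The main induction.
-/

namespace Pool.Agent.Lib.MP_10bdcf_co.G

open scoped Matroid
open Set

/-- The statement on triangles that the induction uses. -/
def TL : Prop := ∀ (E : Type) [Fintype E] (M : Matroid E) (T : Set E → Matrix E E R0) (e f g : E),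
  U2 M T → Tri M e f g → Con3 (M ＼ {e}) → rk M (M.E \ {e, f, g}) = rk M M.E → XLinked M e f g

variable {E : Type} [Fintype E] {M : Matroid E}

theorem step_all (tl : TL) (h1 : IHr (rk M M.E)) (h2 : IHm M) (hc : Con3 M) : GoodM M := by
  by_cases hn : M.E.ncard ≤ 5
  · exact step_small hn
  have h5 : 5 ≤ M.E.ncard := by omega
  by_cases t1 : NoTri M✶
  swap
  · rw [noTri_iff] at t1
    push Not at t1
    obtain ⟨a, b, c, ht⟩ := t1
    exact step_triad h1 hc h5 ht
  by_cases t2 : NoTri M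
  swap
  · rw [noTri_iff] at t2
    push Not at t2
    obtain ⟨a, b, c, ht⟩ := t2
    exact step_tri_of (tl E M) h2 hc h5 t1 ht
  by_cases h4 : Con4 M
  swap
  · exact step_sep h1 hc h5 t2 t1 h4
  intro T hT
  have hb : Big M := ⟨h4, rank_five hT hc h5 t2 t1, corank_five hT hc h5 t2 t1⟩
  obtain ⟨hu, ho⟩ := four_up_one h2 h4 hb.rank hb.corank hT
  refine ⟨hu, ho, ?_⟩
  by_cases hII : ∀ a b, Safe M {a} {b} → Con3 (mn M {a} {b})
  · exact four_caseII h2 hb hT hII
  · push Not at hII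
    obtain ⟨a, b, hs, hn'⟩ := hII
    exact four_caseI h2 hb hs hn'

theorem ihr_succ (tl : TL) {r : ℕ} (h : IHr r) : IHr (r + 1) := by
  intro E _ M hc hr
  induction hn : M.E.ncard using Nat.strong_induction_on generalizing M with
  | _ n ih =>
    refine step_all tl (h.mono (by omega)) (fun I J ho hne h3 => ?_) hc
    have e1 := ho.rank
    have e2 := ho.card
    have e3 : 0 < (I ∪ J).ncard := (ncard_pos (toFinite _)).2 hne
    have e4 := ncard_union_le I J
    exact ih _ (by omega) _ h3 (by omega) rfl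

theorem ihr_all (tl : TL) (r : ℕ) : IHr r := by
  induction r with
  | zero => exact fun _ _ _ _ h => absurd h (Nat.not_lt_zero _)
  | succ r ih => exact ihr_succ tl ih

theorem isQU_of_tl (tl : TL) {r : ℕ} {X : Matrix (Fin r) E K2} (hX : IsWeakU2 X)
    (hM : RepresentsK X M) : IsQU M :=
  ((ihr_all tl (rk M M.E + 1)).hg (Nat.lt_succ_self _)).isQU hX hM

end Pool.Agent.Lib.MP_10bdcf_co.G
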